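import Pool.Agent.Lib.MP_4952d6_mp.Po.N04

/-! Merged modules (to save import time): O.WF1, O.WA1, O.WA2, O.WA3, O.WF2, O.WG1, O.WB1, O.WA4. -/

/-! ### O.WF1 -/

section

/-! # O.WF1: Fejér coefficients

`fj M n = (1 - |n|/M)₊`, `th0 = ∏_α fj`, `cW = (Σ th0²)^{-1/2}`, `th = cW th0`, `zM M n = Σ_α |n_α| / M`, `bx M` the box `[-M, M]³`.
One dimension (`M ≥ 1`): `Σ_{|n|≤M} fj M n = 1 + 2 Σ_{0<m<M} m/M = M` and `Σ_{|n|≤M} (fj M n)² = 1 + 2 Σ_{0<m<M} (m/M)² = (2M²+1)/(3M)`, in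
`[2M/3, M]` (prove the two sums over `Finset.Icc (-M) M` by splitting into `0`, positive, negative; `Finset.sum_range_id_mul_two`-like
inductions on natural numbers). `Σ_{bx M} ∏_α a (n_α) = ∏_α Σ a` (`Finset.prod_univ_sum` / `Finset.sum_prod_piFinset`, `Fintype.piFinset`).
`fj_lip`: `|fj M n - fj M m| ≤ |n - m| / M`; a product of three numbers in `[0,1]` changes by at most the sum of the changes. -/

set_option autoImplicit false
set_option linter.unusedSectionVars false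
set_option linter.unusedVariables false
open MeasureTheory Function Filter Topology Set ComplexConjugate

namespace Pool.Agent.Lib.MP_4952d6_mp.O

open LB

/-- Fejér coefficient in one dimension. -/
noncomputable def fj (M : ℕ) (n : ℤ) : ℝ := max 0 (1 - |(n : ℝ)| / M)

/-- Product of the three one dimensional coefficients. -/
noncomputable def th0 (M : ℕ) (n : Fin 3 → ℤ) : ℝ := ∏ α, fj M (n α)

/-- The box `[-R, R]³`. -/
noncomputable def bx (R : ℕ) : Finset (Fin 3 → ℤ) := Fintype.piFinset fun _ => Finset.Icc (-(R : ℤ)) R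

/-- Normalisation. -/
noncomputable def cW (M : ℕ) : ℝ := (Real.sqrt (∑ n ∈ bx M, th0 M n ^ 2))⁻¹

/-- Coefficients of the window. -/
noncomputable def th (M : ℕ) (n : Fin 3 → ℤ) : ℝ := cW M * th0 M n

/-- Size of a momentum in units of `M`. -/
noncomputable def zM (M : ℕ) (n : Fin 3 → ℤ) : ℝ := (∑ α, |(n α : ℝ)|) / M

lemma WF1_icc_sum (g : ℕ → ℝ) (M : ℕ) :
    ∑ n ∈ Finset.Icc (-(M : ℤ)) M, g n.natAbs = g 0 + 2 * ∑ m ∈ Finset.range M, g (m + 1) := by
  induction M with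
  | zero => simp
  | succ M ih =>
    have h1 : Finset.Icc (-((M + 1 : ℕ) : ℤ)) ((M + 1 : ℕ) : ℤ)
        = insert (-((M : ℤ) + 1)) (insert ((M : ℤ) + 1) (Finset.Icc (-(M : ℤ)) M)) := by
      ext x
      simp only [Finset.mem_Icc, Finset.mem_insert]
      push_cast
      omega
    rw [h1, Finset.sum_insert, Finset.sum_insert, ih, Finset.sum_range_succ]
    · have e1 : (-((M : ℤ) + 1)).natAbs = M + 1 := by omega
      have e2 : ((M : ℤ) + 1).natAbs = M + 1 := by omega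
      rw [e1, e2]
      ring
    · simp only [Finset.mem_Icc]
      omega
    · simp only [Finset.mem_Icc, Finset.mem_insert]
      omega

lemma WF1_fj_natAbs (M : ℕ) (n : ℤ) : fj M n = max 0 (1 - (n.natAbs : ℝ) / M) := by
  unfold fj
  rw [Nat.cast_natAbs]
  push_cast
  rfl

lemma WF1_fj_nat {M m : ℕ} (hm : m < M) :
    max 0 (1 - ((m + 1 : ℕ) : ℝ) / M) = 1 - ((m : ℝ) + 1) / M := by
  have hM : (0:ℝ) < M := by exact_mod_cast (Nat.zero_le m).trans_lt hm
  have h1 : ((m : ℝ) + 1) / M ≤ 1 := by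
    rw [div_le_one hM]
    exact_mod_cast hm
  push_cast
  exact max_eq_right (by linarith)

lemma WF1_s1 {M : ℝ} (hM : 0 < M) (K : ℕ) :
    ∑ m ∈ Finset.range K, (1 - ((m : ℝ) + 1) / M) = K - K * (K + 1) / (2 * M) := by
  induction K with
  | zero => simp
  | succ K ih =>
    rw [Finset.sum_range_succ, ih]
    push_cast
    field_simp
    ring

lemma WF1_s2 {M : ℝ} (hM : 0 < M) (K : ℕ) :
    ∑ m ∈ Finset.range K, (1 - ((m : ℝ) + 1) / M) ^ 2
      = K - K * (K + 1) / M + K * (K + 1) * (2 * K + 1) / (6 * M ^ 2) := by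
  induction K with
  | zero => simp
  | succ K ih =>
    rw [Finset.sum_range_succ, ih]
    push_cast
    field_simp
    ring

lemma WF1_prod3 {a b : Fin 3 → ℝ} (ha0 : ∀ α, 0 ≤ a α) (ha1 : ∀ α, a α ≤ 1) (hb0 : ∀ α, 0 ≤ b α)
    (hb1 : ∀ α, b α ≤ 1) : |∏ α, a α - ∏ α, b α| ≤ ∑ α, |a α - b α| := by
  simp only [Fin.prod_univ_three, Fin.sum_univ_three]
  have e : a 0 * a 1 * a 2 - b 0 * b 1 * b 2
      = (a 0 - b 0) * (a 1 * a 2) + b 0 * a 2 * (a 1 - b 1) + b 0 * b 1 * (a 2 - b 2) := by ring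
  rw [e]
  refine (abs_add_le _ _).trans (add_le_add ((abs_add_le _ _).trans (add_le_add ?_ ?_)) ?_)
  · rw [abs_mul, abs_of_nonneg (mul_nonneg (ha0 1) (ha0 2))]
    have h1 : a 1 * a 2 ≤ 1 := mul_le_one₀ (ha1 1) (ha0 2) (ha1 2)
    have := mul_le_mul_of_nonneg_left h1 (abs_nonneg (a 0 - b 0))
    linarith
  · rw [abs_mul, abs_of_nonneg (mul_nonneg (hb0 0) (ha0 2))]
    have h1 : b 0 * a 2 ≤ 1 := mul_le_one₀ (hb1 0) (ha0 2) (ha1 2)
    have := mul_le_mul_of_nonneg_right h1 (abs_nonneg (a 1 - b 1))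
    linarith
  · rw [abs_mul, abs_of_nonneg (mul_nonneg (hb0 0) (hb0 1))]
    have h1 : b 0 * b 1 ≤ 1 := mul_le_one₀ (hb1 0) (hb0 1) (hb1 1)
    have := mul_le_mul_of_nonneg_right h1 (abs_nonneg (a 2 - b 2))
    linarith

lemma WF1_bx_prod (M : ℕ) (g : ℤ → ℝ) :
    ∑ n ∈ bx M, ∏ α, g (n α) = (∑ n ∈ Finset.Icc (-(M : ℤ)) M, g n) ^ 3 := by
  unfold bx
  rw [Finset.sum_prod_piFinset]
  simp

lemma mem_bx {R : ℕ} {n : Fin 3 → ℤ} : n ∈ bx R ↔ ∀ α, |n α| ≤ (R : ℤ) := by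
  unfold bx
  simp only [Fintype.mem_piFinset, Finset.mem_Icc, abs_le]

lemma bx_neg {R : ℕ} {n : Fin 3 → ℤ} : -n ∈ bx R ↔ n ∈ bx R := by
  simp only [mem_bx, Pi.neg_apply, abs_neg]

lemma bx_mono {R R' : ℕ} (h : R ≤ R') : bx R ⊆ bx R' := by
  intro n hn
  rw [mem_bx] at hn ⊢
  intro α
  exact (hn α).trans (by exact_mod_cast h)

lemma bx_add {R R' : ℕ} {n m : Fin 3 → ℤ} (hn : n ∈ bx R) (hm : m ∈ bx R') : n + m ∈ bx (R + R') := by
  rw [mem_bx] at hn hm ⊢
  intro α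
  have h1 := hn α
  have h2 := hm α
  push_cast
  exact (abs_add_le _ _).trans (add_le_add h1 h2)

lemma fj_zero (M : ℕ) : fj M 0 = 1 := by
  unfold fj
  simp

lemma fj_nonneg (M : ℕ) (n : ℤ) : 0 ≤ fj M n := by
  exact le_max_left _ _

lemma fj_le_one (M : ℕ) (n : ℤ) : fj M n ≤ 1 := by
  unfold fj
  refine max_le zero_le_one ?_
  have : 0 ≤ |(n : ℝ)| / M := by positivity
  linarith

lemma fj_neg (M : ℕ) (n : ℤ) : fj M (-n) = fj M n := by
  unfold fj
  push_cast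
  rw [abs_neg]

lemma fj_sum {M : ℕ} (hM : 1 ≤ M) : ∑ n ∈ Finset.Icc (-(M : ℤ)) M, fj M n = M := by
  have hM0 : (0:ℝ) < M := by exact_mod_cast hM
  have h1 : ∑ n ∈ Finset.Icc (-(M : ℤ)) M, fj M n
      = ∑ n ∈ Finset.Icc (-(M : ℤ)) M, (fun m : ℕ => max 0 (1 - (m : ℝ) / M)) n.natAbs :=
    Finset.sum_congr rfl fun n _ => WF1_fj_natAbs M n
  rw [h1, WF1_icc_sum (fun m : ℕ => max 0 (1 - (m : ℝ) / M))]
  have h2 : ∑ m ∈ Finset.range M, max 0 (1 - ((m + 1 : ℕ) : ℝ) / M)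
      = ∑ m ∈ Finset.range M, (1 - ((m : ℝ) + 1) / M) :=
    Finset.sum_congr rfl fun m hm => WF1_fj_nat (Finset.mem_range.1 hm)
  rw [h2, WF1_s1 hM0]
  simp only [Nat.cast_zero, zero_div, sub_zero, max_eq_right zero_le_one]
  field_simp
  ring

lemma fj_sq_sum {M : ℕ} (hM : 1 ≤ M) :
    ∑ n ∈ Finset.Icc (-(M : ℤ)) M, fj M n ^ 2 = (2 * (M : ℝ) ^ 2 + 1) / (3 * M) := by
  have hM0 : (0:ℝ) < M := by exact_mod_cast hM
  have h1 : ∑ n ∈ Finset.Icc (-(M : ℤ)) M, fj M n ^ 2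
      = ∑ n ∈ Finset.Icc (-(M : ℤ)) M, (fun m : ℕ => max 0 (1 - (m : ℝ) / M) ^ 2) n.natAbs :=
    Finset.sum_congr rfl fun n _ => by rw [WF1_fj_natAbs M n]
  rw [h1, WF1_icc_sum (fun m : ℕ => max 0 (1 - (m : ℝ) / M) ^ 2)]
  have h2 : ∑ m ∈ Finset.range M, max 0 (1 - ((m + 1 : ℕ) : ℝ) / M) ^ 2
      = ∑ m ∈ Finset.range M, (1 - ((m : ℝ) + 1) / M) ^ 2 :=
    Finset.sum_congr rfl fun m hm => by rw [WF1_fj_nat (Finset.mem_range.1 hm)]
  rw [h2, WF1_s2 hM0]
  simp only [Nat.cast_zero, zero_div, sub_zero, max_eq_right zero_le_one]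
  field_simp
  ring

lemma fj_lip {M : ℕ} (hM : 1 ≤ M) (n m : ℤ) : |fj M n - fj M m| ≤ |((n - m : ℤ) : ℝ)| / M := by
  have hM0 : (0:ℝ) < M := by exact_mod_cast hM
  unfold fj
  have h0 := abs_max_sub_max_le_abs (1 - |(n : ℝ)| / M) (1 - |(m : ℝ)| / M) 0
  rw [max_comm _ (0:ℝ), max_comm _ (0:ℝ)] at h0
  refine h0.trans ?_
  have e : 1 - |(n : ℝ)| / M - (1 - |(m : ℝ)| / M) = (|(m : ℝ)| - |(n : ℝ)|) / M := by ring
  rw [e, abs_div, abs_of_pos hM0]
  refine div_le_div_of_nonneg_right ?_ hM0.le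
  refine (abs_abs_sub_abs_le (m : ℝ) (n : ℝ)).trans ?_
  rw [abs_sub_comm]
  push_cast
  exact le_rfl

lemma th0_sum {M : ℕ} (hM : 1 ≤ M) : ∑ n ∈ bx M, th0 M n = (M : ℝ) ^ 3 := by
  unfold th0
  rw [WF1_bx_prod M (fj M), fj_sum hM]

lemma th0_sq_sum {M : ℕ} (hM : 1 ≤ M) :
    ∑ n ∈ bx M, th0 M n ^ 2 = ((2 * (M : ℝ) ^ 2 + 1) / (3 * M)) ^ 3 := by
  unfold th0
  have h1 : ∀ n : Fin 3 → ℤ, (∏ α, fj M (n α)) ^ 2 = ∏ α, (fun x => fj M x ^ 2) (n α) := fun n =>
    (Finset.prod_pow _ _ _).symm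
  simp only [h1]
  rw [WF1_bx_prod M (fun x => fj M x ^ 2), fj_sq_sum hM]

lemma cW_pos {M : ℕ} (hM : 1 ≤ M) : 0 < cW M := by
  have hM0 : (0:ℝ) < M := by exact_mod_cast hM
  unfold cW
  rw [th0_sq_sum hM]
  positivity

lemma WF1_cW_sq {M : ℕ} (hM : 1 ≤ M) :
    cW M ^ 2 = (((2 * (M : ℝ) ^ 2 + 1) / (3 * M)) ^ 3)⁻¹ := by
  have hM0 : (0:ℝ) < M := by exact_mod_cast hM
  unfold cW
  rw [inv_pow, Real.sq_sqrt, th0_sq_sum hM]
  exact Finset.sum_nonneg fun n _ => sq_nonneg _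

lemma cW_le_one {M : ℕ} (hM : 1 ≤ M) : cW M ≤ 1 := by
  have hM1 : (1:ℝ) ≤ M := by exact_mod_cast hM
  have hM0 : (0:ℝ) < M := by linarith
  have h0 := (cW_pos hM).le
  have h1 : 1 ≤ (2 * (M : ℝ) ^ 2 + 1) / (3 * M) := by
    rw [le_div_iff₀ (by positivity)]
    nlinarith
  have h2 : cW M ^ 2 ≤ 1 := by
    rw [WF1_cW_sq hM]
    exact inv_le_one_of_one_le₀ (one_le_pow₀ h1)
  nlinarith

lemma cW_ge {M : ℕ} (hM : 1 ≤ M) : 1 ≤ cW M ^ 2 * (M : ℝ) ^ 3 := by
  have hM1 : (1:ℝ) ≤ M := by exact_mod_cast hM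
  have hM0 : (0:ℝ) < M := by linarith
  have h1 : (2 * (M : ℝ) ^ 2 + 1) / (3 * M) ≤ M := by
    rw [div_le_iff₀ (by positivity)]
    nlinarith
  have h0 : 0 < (2 * (M : ℝ) ^ 2 + 1) / (3 * M) := by positivity
  rw [WF1_cW_sq hM, ← div_eq_inv_mul, le_div_iff₀ (by positivity), one_mul]
  exact pow_le_pow_left₀ h0.le h1 3

lemma cW_le {M : ℕ} (hM : 1 ≤ M) : cW M ^ 2 * (M : ℝ) ^ 3 ≤ 27 / 8 := by
  have hM1 : (1:ℝ) ≤ M := by exact_mod_cast hM
  have hM0 : (0:ℝ) < M := by linarith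
  have h1 : 2 / 3 * (M : ℝ) ≤ (2 * (M : ℝ) ^ 2 + 1) / (3 * M) := by
    rw [le_div_iff₀ (by positivity)]
    nlinarith
  have h0 : 0 < (2 * (M : ℝ) ^ 2 + 1) / (3 * M) := by positivity
  rw [WF1_cW_sq hM, ← div_eq_inv_mul, div_le_iff₀ (by positivity)]
  have h2 := pow_le_pow_left₀ (by positivity) h1 3
  have e : (2 / 3 * (M : ℝ)) ^ 3 = 8 / 27 * (M : ℝ) ^ 3 := by ring
  rw [e] at h2
  linarith

lemma th_zero (M : ℕ) : th M 0 = cW M := by
  unfold th th0
  simp [fj_zero]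

lemma WF1_th0_nonneg (M : ℕ) (n : Fin 3 → ℤ) : 0 ≤ th0 M n :=
  Finset.prod_nonneg fun α _ => fj_nonneg M _

lemma WF1_th0_le (M : ℕ) (n : Fin 3 → ℤ) : th0 M n ≤ 1 :=
  Finset.prod_le_one (fun α _ => fj_nonneg M _) fun α _ => fj_le_one M _

lemma th_nonneg {M : ℕ} (hM : 1 ≤ M) (n : Fin 3 → ℤ) : 0 ≤ th M n := by
  exact mul_nonneg (cW_pos hM).le (WF1_th0_nonneg M n)

lemma th_le {M : ℕ} (hM : 1 ≤ M) (n : Fin 3 → ℤ) : th M n ≤ cW M := by
  have := mul_le_mul_of_nonneg_left (WF1_th0_le M n) (cW_pos hM).le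
  rwa [mul_one] at this

lemma th_neg (M : ℕ) (n : Fin 3 → ℤ) : th M (-n) = th M n := by
  unfold th th0
  simp only [Pi.neg_apply, fj_neg]

lemma th_out {M : ℕ} (hM : 1 ≤ M) {n : Fin 3 → ℤ} (hn : n ∉ bx M) : th M n = 0 := by
  have hM0 : (0:ℝ) < M := by exact_mod_cast hM
  rw [mem_bx] at hn
  push Not at hn
  obtain ⟨α, hα⟩ := hn
  have h1 : fj M (n α) = 0 := by
    unfold fj
    refine max_eq_left ?_
    have h2 : (M : ℝ) ≤ |(n α : ℝ)| := by exact_mod_cast hα.le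
    have h3 : 1 ≤ |(n α : ℝ)| / M := by rwa [one_le_div hM0]
    linarith
  unfold th th0
  rw [Finset.prod_eq_zero (Finset.mem_univ α) h1, mul_zero]

lemma th_sum {M : ℕ} (hM : 1 ≤ M) : ∑ n ∈ bx M, th M n = cW M * (M : ℝ) ^ 3 := by
  unfold th
  rw [← Finset.mul_sum, th0_sum hM]

lemma th_sq_sum {M : ℕ} (hM : 1 ≤ M) : ∑ n ∈ bx M, th M n ^ 2 = 1 := by
  unfold th
  simp only [mul_pow]
  rw [← Finset.mul_sum, WF1_cW_sq hM, th0_sq_sum hM]
  have hM0 : (0:ℝ) < M := by exact_mod_cast hM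
  exact inv_mul_cancel₀ (by positivity)

/-- All sums of shifted coefficients are at most the full sum. -/
lemma th_sum_shift {M : ℕ} (hM : 1 ≤ M) (s : Finset (Fin 3 → ℤ)) (m : Fin 3 → ℤ) :
    ∑ n ∈ s, th M (n - m) ≤ cW M * (M : ℝ) ^ 3 := by
  classical
  have h1 : ∑ n ∈ s, th M (n - m) = ∑ k ∈ s.image (fun n => n - m), th M k := by
    rw [Finset.sum_image]
    intro x _ y _ hxy
    exact sub_left_injective hxy
  rw [h1, ← th_sum hM]
  have h2 : ∑ k ∈ s.image (fun n => n - m), th M k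
      ≤ ∑ k ∈ s.image (fun n => n - m) ∪ bx M, th M k :=
    Finset.sum_le_sum_of_subset_of_nonneg Finset.subset_union_left fun k _ _ => th_nonneg hM k
  refine h2.trans (le_of_eq ?_)
  symm
  refine Finset.sum_subset Finset.subset_union_right fun k _ hk => th_out hM hk

lemma th_lip {M : ℕ} (hM : 1 ≤ M) (n m : Fin 3 → ℤ) : |th M n - th M m| ≤ cW M * zM M (n - m) := by
  have h1 := WF1_prod3 (a := fun α => fj M (n α)) (b := fun α => fj M (m α))
    (fun α => fj_nonneg M _) (fun α => fj_le_one M _) (fun α => fj_nonneg M _)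
    (fun α => fj_le_one M _)
  have h2 : ∑ α, |fj M (n α) - fj M (m α)| ≤ zM M (n - m) := by
    unfold zM
    rw [Finset.sum_div]
    refine Finset.sum_le_sum fun α _ => ?_
    have := fj_lip hM (n α) (m α)
    simpa using this
  unfold th
  rw [← mul_sub, abs_mul, abs_of_nonneg (cW_pos hM).le]
  exact mul_le_mul_of_nonneg_left (h1.trans h2) (cW_pos hM).le

lemma th_ge {M : ℕ} (hM : 1 ≤ M) (n : Fin 3 → ℤ) : cW M * (1 - zM M n) ≤ th M n := by
  have h := (abs_le.1 (th_lip hM n 0)).1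
  rw [th_zero, sub_zero] at h
  linarith

lemma zM_out {M : ℕ} (hM : 1 ≤ M) {n : Fin 3 → ℤ} (hn : n ∉ bx M) : 1 ≤ zM M n := by
  have hM0 : (0:ℝ) < M := by exact_mod_cast hM
  rw [mem_bx] at hn
  push Not at hn
  obtain ⟨α, hα⟩ := hn
  unfold zM
  rw [one_le_div hM0]
  have h2 : (M : ℝ) ≤ |(n α : ℝ)| := by exact_mod_cast hα.le
  exact h2.trans (Finset.single_le_sum (f := fun α => |(n α : ℝ)|) (fun α _ => abs_nonneg _)
    (Finset.mem_univ α))

lemma ksq_le_zM {M : ℕ} (hM : 1 ≤ M) (n : Fin 3 → ℤ) :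
    ksq n ≤ 4 * Real.pi ^ 2 * (M : ℝ) ^ 2 * zM M n ^ 2 := by
  have hM0 : (0:ℝ) < M := by exact_mod_cast hM
  have h1 : 4 * Real.pi ^ 2 * (M : ℝ) ^ 2 * zM M n ^ 2
      = 4 * Real.pi ^ 2 * (∑ α, |(n α : ℝ)|) ^ 2 := by
    unfold zM
    rw [div_pow]
    field_simp
  rw [h1]
  unfold ksq mom2
  refine mul_le_mul_of_nonneg_left ?_ (by positivity)
  simp only [Fin.sum_univ_three]
  have h2 : ∀ α, (n α : ℝ) ^ 2 = |(n α : ℝ)| ^ 2 := fun α => (sq_abs _).symm
  rw [h2 0, h2 1, h2 2]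
  have a0 := abs_nonneg (n 0 : ℝ)
  have a1 := abs_nonneg (n 1 : ℝ)
  have a2 := abs_nonneg (n 2 : ℝ)
  nlinarith [mul_nonneg a0 a1, mul_nonneg a0 a2, mul_nonneg a1 a2]

lemma zM_sq_le {M : ℕ} (hM : 1 ≤ M) (n : Fin 3 → ℤ) :
    zM M n ^ 2 ≤ 3 * ksq n / (4 * Real.pi ^ 2 * (M : ℝ) ^ 2) := by
  have hM0 : (0:ℝ) < M := by exact_mod_cast hM
  have hpi := Real.pi_pos
  unfold zM
  rw [div_pow, div_le_div_iff₀ (by positivity) (by positivity)]
  unfold ksq mom2
  have h1 : (∑ α, |(n α : ℝ)|) ^ 2 ≤ 3 * ∑ α, (n α : ℝ) ^ 2 := by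
    simp only [Fin.sum_univ_three]
    have h2 : ∀ α, (n α : ℝ) ^ 2 = |(n α : ℝ)| ^ 2 := fun α => (sq_abs _).symm
    rw [h2 0, h2 1, h2 2]
    nlinarith [sq_nonneg (|(n 0 : ℝ)| - |(n 1 : ℝ)|), sq_nonneg (|(n 0 : ℝ)| - |(n 2 : ℝ)|),
      sq_nonneg (|(n 1 : ℝ)| - |(n 2 : ℝ)|)]
  have h3 := mul_le_mul_of_nonneg_right h1 (show 0 ≤ 4 * Real.pi ^ 2 * (M : ℝ) ^ 2 by positivity)
  refine h3.trans (le_of_eq ?_)
  ring

end Pool.Agent.Lib.MP_4952d6_mp.O

end

/-! ### O.WA1 -/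

section

/-! # O.WA1: bounded one particle functions, `br` and `kt` on one particle

`br v j = Pz j ∘ MB (conj v (x_j))`, `kt u j = MB (u (x_j)) ∘ Pz j`.  Tools: `MB_adj`, `MB_MB`, `MB_comm`, `MB_ae`, `S1_symm`, `S1_S1`,
`S1_comm`, `cf_S1`, `cf_ext`, `DM_MB_comm` (for `S1_MB_comm`: if `fc (fun x => v (x l)) (k - k') ≠ 0` then `(k - k') j = 0`,
because the function does not depend on `x_j`: integrate in `x_j` first, or translate `x_j`).
`Pz_MB_Pz`: both sides a.e.: `S1_ker` with `w = 1` gives `Pz j f = ∫ f (update x j y) dy` a.e. (`cvc 1`), and `Pz j f` does not depend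
on `x_j`; or on Fourier coefficients. `kt_inner`: move with `kt_adj`, then `br_kt`, then `S1_symm` and `Pz (Pz f) = Pz f`. -/

set_option autoImplicit false
set_option linter.unusedSectionVars false
set_option linter.unusedVariables false
open MeasureTheory Function Filter Topology Set ComplexConjugate

namespace Pool.Agent.Lib.MP_4952d6_mp.O

open LB

variable {ι : Type*} [Fintype ι] [DecidableEq ι]

lemma bc_conj {v : T3 → ℂ} (hv : BC v) : BC fun x => conj (v x) := by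
  obtain ⟨C, hC⟩ := hv.2
  refine ⟨Complex.continuous_conj.comp_stronglyMeasurable hv.1, C, fun x => ?_⟩
  rw [RCLike.norm_conj]
  exact hC x

lemma bc_mul {u v : T3 → ℂ} (hu : BC u) (hv : BC v) : BC fun x => u x * v x := by
  obtain ⟨C, hC⟩ := hu.2
  obtain ⟨D, hD⟩ := hv.2
  refine ⟨hu.1.mul hv.1, C * D, fun x => ?_⟩
  rw [norm_mul]
  exact mul_le_mul (hC x) (hD x) (norm_nonneg _) ((norm_nonneg _).trans (hC x))

lemma bc_add {u v : T3 → ℂ} (hu : BC u) (hv : BC v) : BC fun x => u x + v x := by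
  obtain ⟨C, hC⟩ := hu.2
  obtain ⟨D, hD⟩ := hv.2
  exact ⟨hu.1.add hv.1, C + D, fun x => (norm_add_le _ _).trans (add_le_add (hC x) (hD x))⟩

lemma bc_const (c : ℂ) : BC fun _ : T3 => c := by
  exact ⟨stronglyMeasurable_const, ‖c‖, fun _ => le_rfl⟩

lemma bc_ch (k : Fin 3 → ℤ) : BC (ch k) := by
  exact ⟨(ch_continuous k).stronglyMeasurable, 1, fun x => (ch_norm k x).le⟩

lemma bc_of_bm {θ : T3 → ℝ} (h : BM θ) : BC fun x => (θ x : ℂ) := by
  obtain ⟨C, hC⟩ := h.2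
  refine ⟨(Complex.measurable_ofReal.comp h.1).stronglyMeasurable, C, fun x => ?_⟩
  rw [Complex.norm_real, Real.norm_eq_abs]
  exact hC x

lemma bc_sum {κ : Type*} (s : Finset κ) {v : κ → T3 → ℂ} (hv : ∀ i ∈ s, BC (v i)) :
    BC fun x => ∑ i ∈ s, v i x := by
  classical
  induction s using Finset.induction_on with
  | empty => simpa using bc_const 0
  | insert i s hi ih =>
    have h1 := hv i (Finset.mem_insert_self i s)
    have h2 := ih fun i' hi' => hv i' (Finset.mem_insert_of_mem hi')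
    have h3 := bc_add h1 h2
    have h4 : (fun x => v i x + ∑ i ∈ s, v i x) = fun x => ∑ i ∈ insert i s, v i x := by
      funext x
      rw [Finset.sum_insert hi]
    rwa [h4] at h3

lemma bc_int {v : T3 → ℂ} (hv : BC v) : Integrable v lam3 := by
  obtain ⟨C, hC⟩ := hv.2
  exact Integrable.of_bound hv.1.aestronglyMeasurable C (Eventually.of_forall hC)

lemma bmc_bc {v : T3 → ℂ} (hv : BC v) (j : ι) : BMC (fun x : ι → T3 => v (x j)) := by
  obtain ⟨C, hC⟩ := hv.2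
  exact ⟨hv.1.comp_measurable (measurable_pi_apply j), C, fun x => hC _⟩

lemma WA1_int_ch {p : Fin 3 → ℤ} (hp : p ≠ 0) : ∫ y, conj (ch p y) ∂lam3 = 0 := by
  have h := Qb_fc3_one p
  unfold fc3 pz at h
  rw [if_neg hp] at h
  simpa using h

lemma WA1_fc_zero {v : T3 → ℂ} (hv : BC v) {j l : ι} (hjl : j ≠ l) {q : ι → Fin 3 → ℤ}
    (hq : q j ≠ 0) : fc (fun x : ι → T3 => v (x l)) q = 0 := by
  obtain ⟨C, hC⟩ := hv.2
  have hF : Integrable (fun x : ι → T3 => conj (chN q x) * v (x l)) (piN ι) := by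
    refine Integrable.of_bound (C := C) ?_ (Eventually.of_forall fun x => ?_)
    · exact ((Complex.continuous_conj.comp_stronglyMeasurable (chN_sm q)).mul
        (hv.1.comp_measurable (measurable_pi_apply l))).aestronglyMeasurable
    · rw [norm_mul, RCLike.norm_conj, chN_norm, one_mul]
      exact hC _
  unfold fc
  rw [← integral_upd j hF]
  have h1 : ∀ x : ι → T3, ∫ y, conj (chN q (update x j y)) * v (update x j y l) ∂lam3 = 0 := by
    intro x
    have h2 : (fun y : T3 => conj (chN q (update x j y)) * v (update x j y l))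
        = fun y => (fun z => conj (ch (q j) z) * (conj (chN q x) * v (x l))) (y - x j) := by
      funext y
      simp only
      rw [Ker_chN_update, update_of_ne hjl.symm, map_mul]
      ring
    rw [h2, int_sub_right (fun z => conj (ch (q j) z) * (conj (chN q x) * v (x l))) (x j),
      integral_mul_const, WA1_int_ch hq, zero_mul]
  simp only [h1, integral_zero]

lemma WA1_Pz_ae (j : ι) (f : HS ι) :
    (Pz j f : (ι → T3) → ℂ) =ᵐ[piN ι] cvc (fun _ => (1 : ℝ)) j (f : (ι → T3) → ℂ) :=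
  S1_ker (w := fun _ => (1 : ℝ)) (BM.const 1) bdm_pz (fun p => Qb_fc3_one p) j f

lemma WA1_MB_smul {G : (ι → T3) → ℂ} (hG : BMC G) (c : ℂ) (f : HS ι) :
    MB (fun x => c * G x) f = c • MB G f := by
  have hcG : BMC fun x => c * G x := by
    obtain ⟨C, hC⟩ := hG.2
    refine ⟨stronglyMeasurable_const.mul hG.1, ‖c‖ * C, fun x => ?_⟩
    rw [norm_mul]
    exact mul_le_mul_of_nonneg_left (hC x) (norm_nonneg _)
  apply Lp.ext
  filter_upwards [MB_ae hcG f, MB_ae hG f, Lp.coeFn_smul c (MB G f)] with x h1 h2 h3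
  rw [h1, h3, Pi.smul_apply, h2, smul_eq_mul, mul_assoc]

theorem S1_MB_comm {φ : (Fin 3 → ℤ) → ℝ} (hφ : Bdm φ) {v : T3 → ℂ} (hv : BC v) {j l : ι}
    (hjl : j ≠ l) (f : HS ι) :
    S1 φ j (MB (fun x => v (x l)) f) = MB (fun x => v (x l)) (S1 φ j f) := by
  unfold S1
  refine DM_MB_comm (hφ.comp fun k : ι → Fin 3 → ℤ => k j) (bmc_bc hv l) (fun k k' hne => ?_) f
  by_contra h1
  apply hne
  refine WA1_fc_zero hv hjl ?_
  intro h2
  apply h1
  rw [Pi.sub_apply, sub_eq_zero] at h2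
  simp only [h2]

theorem Pz_Pz (j : ι) (f : HS ι) : Pz j (Pz j f) = Pz j f := by
  unfold Pz
  rw [S1_S1 bdm_pz bdm_pz]
  congr 2
  funext p
  unfold pz
  split_ifs <;> simp

theorem Pz_MB_Pz {v : T3 → ℂ} (hv : BC v) (j : ι) (f : HS ι) :
    Pz j (MB (fun x => v (x j)) (Pz j f)) = (∫ x, v x ∂lam3) • Pz j f := by
  have hb := bmc_bc (ι := ι) hv j
  have h1 := WA1_Pz_ae j (MB (fun x => v (x j)) (Pz j f))
  have h2 : (MB (fun x => v (x j)) (Pz j f) : (ι → T3) → ℂ) =ᵐ[piN ι]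
      fun x => v (x j) * cvc (fun _ => (1 : ℝ)) j (f : (ι → T3) → ℂ) x := by
    filter_upwards [MB_ae hb (Pz j f), WA1_Pz_ae j f] with x h3 h4
    rw [h3, h4]
  have h3 := h1.trans (Ker_cvc_congr j h2)
  apply Lp.ext
  filter_upwards [h3, WA1_Pz_ae j f, Lp.coeFn_smul (∫ x, v x ∂lam3) (Pz j f)] with x h4 h5 h6
  rw [h4, h6, Pi.smul_apply, h5, smul_eq_mul]
  have h7 : ∀ y : T3, cvc (fun _ => (1 : ℝ)) j (f : (ι → T3) → ℂ) (update x j y)
      = cvc (fun _ => (1 : ℝ)) j (f : (ι → T3) → ℂ) x := by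
    intro y
    unfold cvc
    simp only [update_idem]
  have h8 : cvc (fun _ => (1 : ℝ)) j
      (fun x => v (x j) * cvc (fun _ => (1 : ℝ)) j (f : (ι → T3) → ℂ) x) x
      = ∫ y, v y * cvc (fun _ => (1 : ℝ)) j (f : (ι → T3) → ℂ) x ∂lam3 := by
    conv_lhs => unfold cvc
    refine integral_congr_ae (Eventually.of_forall fun y => ?_)
    simp only
    rw [update_self, Complex.ofReal_one, one_mul]
    congr 1
    exact h7 y
  rw [h8, integral_mul_const]

theorem br_adj {v : T3 → ℂ} (hv : BC v) (j : ι) (f g : HS ι) :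
    inner ℂ (br v j f) g = inner ℂ f (kt v j g) := by
  have hb := bmc_bc (ι := ι) (bc_conj hv) j
  unfold br kt
  rw [ContinuousLinearMap.comp_apply, ContinuousLinearMap.comp_apply]
  unfold Pz
  rw [S1_symm bdm_pz, MB_adj hb]
  simp only [Complex.conj_conj]

theorem kt_adj {v : T3 → ℂ} (hv : BC v) (j : ι) (f g : HS ι) :
    inner ℂ (kt v j f) g = inner ℂ f (br v j g) := by
  have hb := bmc_bc (ι := ι) hv j
  unfold br kt
  rw [ContinuousLinearMap.comp_apply, ContinuousLinearMap.comp_apply, MB_adj hb]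
  unfold Pz
  rw [S1_symm bdm_pz]

theorem br_kt {u v : T3 → ℂ} (hu : BC u) (hv : BC v) (j : ι) (f : HS ι) :
    br v j (kt u j f) = ip v u • Pz j f := by
  unfold br kt
  rw [ContinuousLinearMap.comp_apply, ContinuousLinearMap.comp_apply,
    MB_MB (bmc_bc (bc_conj hv) j) (bmc_bc hu j)]
  exact Pz_MB_Pz (bc_mul (bc_conj hv) hu) j f

theorem Pz_br {v : T3 → ℂ} (hv : BC v) (j : ι) (f : HS ι) : Pz j (br v j f) = br v j f := by
  unfold br
  rw [ContinuousLinearMap.comp_apply, Pz_Pz]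

theorem kt_Pz {v : T3 → ℂ} (hv : BC v) (j : ι) (f : HS ι) : kt v j (Pz j f) = kt v j f := by
  unfold kt
  rw [ContinuousLinearMap.comp_apply, ContinuousLinearMap.comp_apply, Pz_Pz]

theorem kt_inner {u u' : T3 → ℂ} (hu : BC u) (hu' : BC u') (j : ι) (f g : HS ι) :
    inner ℂ (kt u j f) (kt u' j g) = ip u u' * inner ℂ (Pz j f) (Pz j g) := by
  have h1 : inner ℂ (Pz j f) (Pz j g) = inner ℂ f (Pz j g) := by
    have h2 : inner ℂ (Pz j f) (Pz j g) = inner ℂ f (Pz j (Pz j g)) := by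
      unfold Pz
      rw [S1_symm bdm_pz]
    rw [h2, Pz_Pz]
  rw [kt_adj hu, br_kt hu' hu, inner_smul_right, h1]

theorem br_add {u v : T3 → ℂ} (hu : BC u) (hv : BC v) (j : ι) (f : HS ι) :
    br (fun x => u x + v x) j f = br u j f + br v j f := by
  unfold br
  rw [ContinuousLinearMap.comp_apply, ContinuousLinearMap.comp_apply, ContinuousLinearMap.comp_apply,
    ← map_add, ← MB_add_fun (bmc_bc (bc_conj hu) j) (bmc_bc (bc_conj hv) j)]
  simp only [map_add]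

theorem br_smul {v : T3 → ℂ} (hv : BC v) (c : ℂ) (j : ι) (f : HS ι) :
    br (fun x => c * v x) j f = conj c • br v j f := by
  unfold br
  rw [ContinuousLinearMap.comp_apply, ContinuousLinearMap.comp_apply, ← map_smul,
    ← WA1_MB_smul (bmc_bc (bc_conj hv) j)]
  simp only [map_mul]

theorem br_sum {κ : Type*} (s : Finset κ) {v : κ → T3 → ℂ} (hv : ∀ i ∈ s, BC (v i)) (j : ι)
    (f : HS ι) : br (fun x => ∑ i ∈ s, v i x) j f = ∑ i ∈ s, br (v i) j f := by
  classical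
  induction s using Finset.induction_on with
  | empty =>
    have h1 := br_smul (bc_const 0) 0 j f
    simp only [zero_mul, map_zero, zero_smul] at h1
    simpa using h1
  | insert i s hi ih =>
    have h1 := hv i (Finset.mem_insert_self i s)
    have h2 : ∀ i' ∈ s, BC (v i') := fun i' hi' => hv i' (Finset.mem_insert_of_mem hi')
    simp only [Finset.sum_insert hi]
    rw [br_add h1 (bc_sum s h2), ih h2]

theorem br_br_comm {u v : T3 → ℂ} (hu : BC u) (hv : BC v) {j l : ι} (hjl : j ≠ l) (f : HS ι) :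
    br u j (br v l f) = br v l (br u j f) := by
  have hub := bmc_bc (ι := ι) (bc_conj hu) j
  have hvb := bmc_bc (ι := ι) (bc_conj hv) l
  unfold br
  simp only [ContinuousLinearMap.comp_apply]
  unfold Pz
  rw [← S1_MB_comm bdm_pz (bc_conj hu) hjl.symm, S1_comm bdm_pz bdm_pz, MB_comm hub hvb,
    S1_MB_comm bdm_pz (bc_conj hv) hjl]

theorem br_kt_comm {u v : T3 → ℂ} (hu : BC u) (hv : BC v) {j l : ι} (hjl : j ≠ l) (f : HS ι) :
    br u j (kt v l f) = kt v l (br u j f) := by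
  have hub := bmc_bc (ι := ι) (bc_conj hu) j
  have hvb := bmc_bc (ι := ι) hv l
  unfold br kt
  simp only [ContinuousLinearMap.comp_apply]
  unfold Pz
  rw [MB_comm hub hvb, S1_MB_comm bdm_pz hv hjl, ← S1_MB_comm bdm_pz (bc_conj hu) hjl.symm,
    S1_comm bdm_pz bdm_pz]

/-- `⟨ch b|_j` is the matrix unit `|0⟩⟨b|`. -/
theorem br_ch (b : Fin 3 → ℤ) (j : ι) (f : HS ι) : br (ch b) j f = mu j 0 b f := by
  refine cf_ext fun k => ?_
  unfold br
  rw [ContinuousLinearMap.comp_apply, cf_mu]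
  unfold Pz
  rw [cf_S1 bdm_pz]
  have h1 : (fun x : ι → T3 => conj (ch b (x j))) = fun x => ch (-b) (x j) := by
    funext x
    rw [ch_neg]
  rw [h1, cf_MBch]
  unfold pz
  by_cases hk : k j = 0
  · rw [if_pos hk, if_pos hk, hk, sub_neg_eq_add, zero_add, Complex.ofReal_one, one_mul]
  · rw [if_neg hk, if_neg hk, Complex.ofReal_zero, zero_mul]

end Pool.Agent.Lib.MP_4952d6_mp.O

end

/-! ### O.WA2 -/

section

/-! # O.WA2: the one particle operators `Pf`, `Pr`, `rf`, `ef`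

`Pf t v x = ∫ hk (t/2) (x - y) v y dy`, `Pr` the same for real functions; `hk` continuous, positive, `∫ hk s = 1` (`hk_integral`),
`hk_bm`, `hk_neg`, `fc3_hk`: Fourier coefficients `exp(-s k²)`; `et t p = exp(-(t/2) ksq p)`.
`Pf_ch`: `∫ hk (t/2) (x-y) ch k y dy`, substitute `y = x - z` (`ch_add_arg`, `ch_neg_arg`) and `fc3_hk`.
`norm_rf_ef_le`: `|ef| ≤ Pr θ`, `|Pf ef| ≤ Pr (Pr θ)`, multiply by `θ ≤ S`, apply `Pr` again (`Pr` is monotone and linear). -/

set_option autoImplicit false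
set_option linter.unusedSectionVars false
set_option linter.unusedVariables false
open MeasureTheory Function Filter Topology Set ComplexConjugate

namespace Pool.Agent.Lib.MP_4952d6_mp.O

open LB

lemma WA2_hkx {t : ℝ} (ht : 0 < t) (x : T3) : BM (fun y => hk (t / 2) (x - y)) :=
  (hk_bm (by linarith)).comp (measurable_sub' measurable_const measurable_id)

lemma WA2_one {t : ℝ} (ht : 0 < t) (x : T3) : ∫ y, hk (t / 2) (x - y) ∂lam3 = 1 := by
  rw [int_sub_left (hk (t / 2)) x, hk_integral (by linarith)]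

lemma WA2_int {t : ℝ} (ht : 0 < t) {v : T3 → ℂ} (hv : BC v) (x : T3) :
    Integrable (fun y => ((hk (t / 2) (x - y) : ℝ) : ℂ) * v y) lam3 :=
  bc_int (bc_mul (bc_of_bm (WA2_hkx ht x)) hv)

lemma Pr_bm {t : ℝ} (ht : 0 < t) {g : T3 → ℝ} (hg : BM g) : BM (Pr t g) := by
  exact cn_bm (hk_bm (by linarith)) hg

lemma Pr_nonneg {t : ℝ} {g : T3 → ℝ} (hg : ∀ x, 0 ≤ g x) (x : T3) : 0 ≤ Pr t g x := by
  exact cn_nonneg (hk_nonneg _) hg x

lemma Pr_mono {t : ℝ} (ht : 0 < t) {g g' : T3 → ℝ} (hg : BM g) (hg' : BM g') (h : ∀ x, g x ≤ g' x)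
    (x : T3) : Pr t g x ≤ Pr t g' x := by
  unfold Pr cn
  refine integral_mono (((WA2_hkx ht x).mul hg).integrable _) (((WA2_hkx ht x).mul hg').integrable _)
    fun y => ?_
  exact mul_le_mul_of_nonneg_left (h y) (hk_nonneg _ _)

lemma Pr_const_mul (t c : ℝ) (g : T3 → ℝ) (x : T3) : Pr t (fun y => c * g y) x = c * Pr t g x := by
  unfold Pr cn
  rw [← integral_const_mul]
  refine integral_congr_ae (Eventually.of_forall fun y => ?_)
  simp only
  ring

lemma Pr_le {t : ℝ} (ht : 0 < t) {g : T3 → ℝ} (hg : BM g) {S : ℝ} (h : ∀ x, g x ≤ S) (x : T3) :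
    Pr t g x ≤ S := by
  have h1 := Pr_mono ht hg (BM.const S) h x
  refine h1.trans (le_of_eq ?_)
  unfold Pr cn
  rw [integral_mul_const, WA2_one ht, one_mul]

lemma Pr_int {t : ℝ} (ht : 0 < t) {g : T3 → ℝ} (hg : BM g) :
    ∫ x, Pr t g x ∂lam3 = ∫ x, g x ∂lam3 := by
  have h1 := Ker_cn_integral (hk_bm (by linarith : 0 < t / 2)) hg
  rw [hk_integral (by linarith), one_mul] at h1
  exact h1

lemma WA2_norm_le {t : ℝ} (ht : 0 < t) {v : T3 → ℂ} {g : T3 → ℝ} (hg : BM g)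
    (h : ∀ x, ‖v x‖ ≤ g x) (x : T3) : ‖Pf t v x‖ ≤ Pr t g x := by
  unfold Pf Pr cq cn
  refine norm_integral_le_of_norm_le (((WA2_hkx ht x).mul hg).integrable _)
    (Eventually.of_forall fun y => ?_)
  rw [norm_mul, Complex.norm_real, Real.norm_of_nonneg (hk_nonneg _ _)]
  exact mul_le_mul_of_nonneg_left (h y) (hk_nonneg _ _)

lemma bc_Pf {t : ℝ} (ht : 0 < t) {v : T3 → ℂ} (hv : BC v) : BC (Pf t v) := by
  obtain ⟨C, hC⟩ := hv.2
  refine ⟨?_, C, fun x => ?_⟩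
  · have h1 : StronglyMeasurable (fun q : T3 × T3 => ((hk (t / 2) (q.1 - q.2) : ℝ) : ℂ) * v q.2) := by
      refine StronglyMeasurable.mul ?_ (hv.1.comp_measurable measurable_snd)
      exact (Complex.measurable_ofReal.comp
        ((hk_bm (by linarith : 0 < t / 2)).1.comp measurable_sub_fst_snd)).stronglyMeasurable
    exact h1.integral_prod_right'
  · exact (WA2_norm_le ht (BM.const C) hC x).trans (Pr_le ht (BM.const C) (fun _ => le_rfl) x)

lemma bc_ef {t : ℝ} (ht : 0 < t) {θ : T3 → ℝ} (hθ : BM θ) (k : Fin 3 → ℤ) : BC (ef t θ k) := by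
  exact bc_Pf ht (bc_mul (bc_ch k) (bc_of_bm hθ))

lemma bc_rf {t : ℝ} (ht : 0 < t) {θ : T3 → ℝ} (hθ : BM θ) (k : Fin 3 → ℤ) {v : T3 → ℂ}
    (hv : BC v) : BC (rf t θ k v) := by
  exact bc_Pf ht (bc_mul (bc_mul (bc_ch (-k)) (bc_of_bm hθ)) (bc_Pf ht hv))

theorem Pf_ch {t : ℝ} (ht : 0 < t) (k : Fin 3 → ℤ) (x : T3) :
    Pf t (ch k) x = (et t k : ℂ) * ch k x := by
  have ht2 : 0 < t / 2 := by linarith
  unfold Pf cq
  have h1 : (fun y : T3 => ((hk (t / 2) (x - y) : ℝ) : ℂ) * ch k y)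
      = fun y => (fun z => ((hk (t / 2) z : ℝ) : ℂ) * ch k (x - z)) (x - y) := by
    funext y
    simp only
    rw [sub_sub_cancel]
  rw [h1, int_sub_left (fun z => ((hk (t / 2) z : ℝ) : ℂ) * ch k (x - z)) x]
  have h2 : (fun z : T3 => ((hk (t / 2) z : ℝ) : ℂ) * ch k (x - z))
      = fun z => (conj (ch k z) * ((hk (t / 2) z : ℝ) : ℂ)) * ch k x := by
    funext z
    rw [sub_eq_add_neg, ch_add_arg, ch_neg_arg]
    ring
  have h3 := fc3_hk ht2 k
  unfold fc3 at h3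
  rw [h2, integral_mul_const, h3]
  rfl

theorem Pf_sum {t : ℝ} (ht : 0 < t) {κ : Type*} (s : Finset κ) (c : κ → ℂ) {v : κ → T3 → ℂ}
    (hv : ∀ i ∈ s, BC (v i)) (x : T3) :
    Pf t (fun y => ∑ i ∈ s, c i * v i y) x = ∑ i ∈ s, c i * Pf t (v i) x := by
  unfold Pf cq
  have h1 : (fun y : T3 => ((hk (t / 2) (x - y) : ℝ) : ℂ) * ∑ i ∈ s, c i * v i y)
      = fun y => ∑ i ∈ s, c i * (((hk (t / 2) (x - y) : ℝ) : ℂ) * v i y) := by
    funext y
    rw [Finset.mul_sum]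
    refine Finset.sum_congr rfl fun i _ => ?_
    ring
  rw [h1, integral_finsetSum s fun i hi => (WA2_int ht (hv i hi) x).const_mul (c i)]
  refine Finset.sum_congr rfl fun i _ => ?_
  rw [integral_const_mul]

theorem Pr_coe (t : ℝ) (g : T3 → ℝ) (x : T3) : ((Pr t g x : ℝ) : ℂ) = Pf t (fun y => (g y : ℂ)) x := by
  unfold Pr Pf cn cq
  rw [← integral_complex_ofReal]
  refine integral_congr_ae (Eventually.of_forall fun y => ?_)
  simp only
  push_cast
  rfl

theorem norm_Pf_le {t : ℝ} (ht : 0 < t) {v : T3 → ℂ} {g : T3 → ℝ} (hv : BC v) (hg : BM g)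
    (h : ∀ x, ‖v x‖ ≤ g x) (x : T3) : ‖Pf t v x‖ ≤ Pr t g x := by
  exact WA2_norm_le ht hg h x

theorem norm_ef_le {t : ℝ} (ht : 0 < t) {θ : T3 → ℝ} {c S : ℝ} (hW : Win θ c S) (k : Fin 3 → ℤ)
    (x : T3) : ‖ef t θ k x‖ ≤ Pr t θ x := by
  unfold ef
  refine WA2_norm_le ht hW.bm (fun y => ?_) x
  rw [norm_mul, ch_norm, one_mul, Complex.norm_real, Real.norm_of_nonneg (hW.nn y)]

theorem norm_rf_ef_le {t : ℝ} (ht : 0 < t) {θ : T3 → ℝ} {c S : ℝ} (hW : Win θ c S)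
    (k k' : Fin 3 → ℤ) (x : T3) :
    ‖rf t θ k (ef t θ k') x‖ ≤ S * Pr t (Pr t (Pr t θ)) x := by
  have b1 : BM (Pr t θ) := Pr_bm ht hW.bm
  have b2 : BM (Pr t (Pr t θ)) := Pr_bm ht b1
  unfold rf
  rw [← Pr_const_mul]
  refine WA2_norm_le ht (b2.const_mul S) (fun y => ?_) x
  have h1 : ‖Pf t (ef t θ k') y‖ ≤ Pr t (Pr t θ) y :=
    WA2_norm_le ht b1 (norm_ef_le ht hW k') y
  rw [norm_mul, norm_mul, ch_norm, one_mul, Complex.norm_real, Real.norm_of_nonneg (hW.nn y)]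
  exact mul_le_mul (hW.le y) h1 (norm_nonneg _) ((hW.nn y).trans (hW.le y))

theorem norm_rf_theta_le {t : ℝ} (ht : 0 < t) {θ : T3 → ℝ} {c S : ℝ} (hW : Win θ c S)
    (k : Fin 3 → ℤ) (x : T3) :
    ‖rf t θ k (fun y => (θ y : ℂ)) x‖ ≤ S * Pr t (Pr t θ) x := by
  have b1 : BM (Pr t θ) := Pr_bm ht hW.bm
  unfold rf
  rw [← Pr_const_mul]
  refine WA2_norm_le ht (b1.const_mul S) (fun y => ?_) x
  have h1 : ‖Pf t (fun y => (θ y : ℂ)) y‖ ≤ Pr t θ y := by
    refine WA2_norm_le ht hW.bm (fun z => ?_) y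
    rw [Complex.norm_real, Real.norm_of_nonneg (hW.nn z)]
  rw [norm_mul, norm_mul, ch_norm, one_mul, Complex.norm_real, Real.norm_of_nonneg (hW.nn y)]
  exact mul_le_mul (hW.le y) h1 (norm_nonneg _) ((hW.nn y).trans (hW.le y))

end Pool.Agent.Lib.MP_4952d6_mp.O

end

/-! ### O.WA3 -/

section

/-! # O.WA3: `rho` and one particle vectors

`rho t θ k j = PP1 t j ∘ MB (ch (-k) θ)(x_j) ∘ PP1 t j`.
`PP1_kt`: `kt u j f = u (x_j) (Pz j f)` and `Pz j f` does not depend on `x_j`; with the kernel `S1_ker` (`hk_bm`, `fc3_hk`):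
`PP1 t j (kt u j f) (x) = ∫ hk (t/2) (x_j - y) u y (Pz j f)(update x j y) dy = Pf t u (x_j) (Pz j f)(x)`.
(`Pz j f` a.e. equal to `∫ f (update x j y) dy`, a function not depending on `x_j`; or compare Fourier coefficients.)
`rho_kt`: `PP1_kt`, then `MB_MB`, then `PP1_kt` for `ch (-k) θ (Pf t u)`.
`rho_adj`: `S1_symm`, `MB_adj`, `conj (ch (-k) θ) = ch k θ` (`RkA_conj_ch`, `ch_neg`).
`br_rho`: test against `g`: `⟪br v j (rho k f), g⟫ = ⟪f, rho (-k) (kt v j g)⟫ = ⟪f, kt (rf (-k) v) j g⟫` (`ext_inner_right`).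
Commutation for `j ≠ l`: `S1_MB_comm`, `S1_comm`, `MB_comm`. -/

set_option autoImplicit false
set_option linter.unusedSectionVars false
set_option linter.unusedVariables false
open MeasureTheory Function Filter Topology Set ComplexConjugate

namespace Pool.Agent.Lib.MP_4952d6_mp.O

open LB

variable {ι : Type*} [Fintype ι] [DecidableEq ι]

private lemma WA3_Pz_ae (j : ι) (f : HS ι) :
    (Pz j f : (ι → T3) → ℂ) =ᵐ[piN ι] cvc (fun _ => 1) j (f : (ι → T3) → ℂ) :=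
  S1_ker (w := fun _ => (1 : ℝ)) (BM.const 1) bdm_pz (fun p => Qb_fc3_one p) j f

private lemma WA3_cvc_update (j : ι) (F : (ι → T3) → ℂ) (x : ι → T3) (y : T3) :
    cvc (fun _ => 1) j F (update x j y) = cvc (fun _ => 1) j F x := by
  unfold cvc
  simp only [update_idem]

private lemma WA3_kt_ae {u : T3 → ℂ} (hu : BC u) (j : ι) (f : HS ι) :
    (kt u j f : (ι → T3) → ℂ) =ᵐ[piN ι]
      fun x => u (x j) * cvc (fun _ => 1) j (f : (ι → T3) → ℂ) x := by
  filter_upwards [MB_ae (bmc_bc hu j) (Pz j f), WA3_Pz_ae j f] with x h1 h2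
  have h3 : kt u j f = MB (fun x => u (x j)) (Pz j f) := rfl
  rw [h3, h1, h2]

private lemma WA3_bc {θ : T3 → ℝ} (hθ : BM θ) (k : Fin 3 → ℤ) :
    BC fun x => ch k x * (θ x : ℂ) := bc_mul (bc_ch k) (bc_of_bm hθ)

private lemma WA3_rho_S1 {t : ℝ} (ht : 0 < t) {θ : T3 → ℝ} (hθ : BM θ) (k : Fin 3 → ℤ)
    {φ : (Fin 3 → ℤ) → ℝ} (hφ : Bdm φ) {j l : ι} (hjl : j ≠ l) (f : HS ι) :
    rho t θ k j (S1 φ l f) = S1 φ l (rho t θ k j f) := by
  change PP1 t j (MB (fun x => ch (-k) (x j) * (θ (x j) : ℂ)) (PP1 t j (S1 φ l f)))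
    = S1 φ l (PP1 t j (MB (fun x => ch (-k) (x j) * (θ (x j) : ℂ)) (PP1 t j f)))
  unfold PP1
  rw [S1_comm hφ (bdm_et ht.le) l j, S1_MB_comm hφ (WA3_bc hθ (-k)) hjl.symm,
    S1_comm hφ (bdm_et ht.le) l j]

private lemma WA3_rho_MB {t : ℝ} (ht : 0 < t) {θ : T3 → ℝ} (hθ : BM θ) (k : Fin 3 → ℤ)
    {v : T3 → ℂ} (hv : BC v) {j l : ι} (hjl : j ≠ l) (f : HS ι) :
    rho t θ k j (MB (fun x => v (x l)) f) = MB (fun x => v (x l)) (rho t θ k j f) := by
  change PP1 t j (MB (fun x => ch (-k) (x j) * (θ (x j) : ℂ)) (PP1 t j (MB (fun x => v (x l)) f)))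
    = MB (fun x => v (x l)) (PP1 t j (MB (fun x => ch (-k) (x j) * (θ (x j) : ℂ)) (PP1 t j f)))
  unfold PP1
  rw [S1_MB_comm (bdm_et ht.le) hv hjl, MB_comm (bmc_bc (WA3_bc hθ (-k)) j) (bmc_bc hv l),
    S1_MB_comm (bdm_et ht.le) hv hjl]

theorem PP1_kt {t : ℝ} (ht : 0 < t) {u : T3 → ℂ} (hu : BC u) (j : ι) (f : HS ι) :
    PP1 t j (kt u j f) = kt (Pf t u) j f := by
  have ht2 : 0 < t / 2 := by linarith
  apply Lp.ext
  have h1 : (PP1 t j (kt u j f) : (ι → T3) → ℂ) =ᵐ[piN ι]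
      cvc (hk (t / 2)) j (kt u j f : (ι → T3) → ℂ) :=
    S1_ker (hk_bm ht2) (bdm_et ht.le) (fun p => fc3_hk ht2 p) j _
  have h2 := Ker_cvc_congr (w := hk (t / 2)) j (WA3_kt_ae hu j f)
  filter_upwards [h1, h2, WA3_kt_ae (bc_Pf ht hu) j f] with x e1 e2 e3
  rw [e1, e2, e3]
  unfold Pf cq
  rw [← integral_mul_const]
  change ∫ y, ((hk (t / 2) (x j - y) : ℝ) : ℂ) * (u (update x j y j) *
    cvc (fun _ => 1) j (f : (ι → T3) → ℂ) (update x j y)) ∂lam3 = _
  refine integral_congr_ae (Eventually.of_forall fun y => ?_)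
  simp only [update_self, WA3_cvc_update]
  ring

theorem rho_kt {t : ℝ} (ht : 0 < t) {θ : T3 → ℝ} (hθ : BM θ) (k : Fin 3 → ℤ) {u : T3 → ℂ}
    (hu : BC u) (j : ι) (f : HS ι) : rho t θ k j (kt u j f) = kt (rf t θ k u) j f := by
  have hb := WA3_bc hθ (-k)
  have e1 : rho t θ k j (kt u j f) = PP1 t j (MB (fun x => ch (-k) (x j) * (θ (x j) : ℂ))
      (PP1 t j (kt u j f))) := rfl
  have e2 : MB (fun x : ι → T3 => ch (-k) (x j) * (θ (x j) : ℂ)) (kt (Pf t u) j f)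
      = kt (fun x => ch (-k) x * (θ x : ℂ) * Pf t u x) j f :=
    MB_MB (bmc_bc hb j) (bmc_bc (bc_Pf ht hu) j) (Pz j f)
  rw [e1, PP1_kt ht hu, e2, PP1_kt ht (bc_mul hb (bc_Pf ht hu))]
  rfl

theorem rho_adj {t : ℝ} (ht : 0 < t) {θ : T3 → ℝ} (hθ : BM θ) (k : Fin 3 → ℤ) (j : ι)
    (f g : HS ι) : inner ℂ (rho t θ k j f) g = inner ℂ f (rho t θ (-k) j g) := by
  have e1 : ∀ (k' : Fin 3 → ℤ) (h : HS ι), rho t θ k' j h =
      PP1 t j (MB (fun x => ch (-k') (x j) * (θ (x j) : ℂ)) (PP1 t j h)) := fun k' h => rfl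
  have e2 : (fun x : ι → T3 => conj (ch (-k) (x j) * (θ (x j) : ℂ)))
      = fun x => ch (- -k) (x j) * (θ (x j) : ℂ) := by
    funext x
    rw [map_mul, Complex.conj_ofReal, ch_neg (-k)]
  rw [e1, e1]
  unfold PP1
  rw [S1_symm (bdm_et ht.le), MB_adj (bmc_bc (WA3_bc hθ (-k)) j), e2, S1_symm (bdm_et ht.le)]

theorem br_rho {t : ℝ} (ht : 0 < t) {θ : T3 → ℝ} (hθ : BM θ) (k : Fin 3 → ℤ) {v : T3 → ℂ}
    (hv : BC v) (j : ι) (f : HS ι) : br v j (rho t θ k j f) = br (rf t θ (-k) v) j f := by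
  refine ext_inner_right ℂ fun g => ?_
  rw [br_adj hv, rho_adj ht hθ, rho_kt ht hθ (-k) hv, br_adj (bc_rf ht hθ (-k) hv)]

theorem rho_br_comm {t : ℝ} (ht : 0 < t) {θ : T3 → ℝ} (hθ : BM θ) (k : Fin 3 → ℤ) {v : T3 → ℂ}
    (hv : BC v) {j l : ι} (hjl : j ≠ l) (f : HS ι) :
    rho t θ k j (br v l f) = br v l (rho t θ k j f) := by
  have hv' := bc_conj hv
  have e1 : ∀ h : HS ι, br v l h = Pz l (MB (fun x => conj (v (x l))) h) := fun h => rfl
  rw [e1, e1]
  unfold Pz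
  rw [WA3_rho_S1 ht hθ k bdm_pz hjl, WA3_rho_MB ht hθ k hv' hjl]

theorem rho_kt_comm {t : ℝ} (ht : 0 < t) {θ : T3 → ℝ} (hθ : BM θ) (k : Fin 3 → ℤ) {v : T3 → ℂ}
    (hv : BC v) {j l : ι} (hjl : j ≠ l) (f : HS ι) :
    rho t θ k j (kt v l f) = kt v l (rho t θ k j f) := by
  have e1 : ∀ h : HS ι, kt v l h = MB (fun x => v (x l)) (Pz l h) := fun h => rfl
  rw [e1, e1]
  unfold Pz
  rw [WA3_rho_MB ht hθ k hv hjl, WA3_rho_S1 ht hθ k bdm_pz hjl]

end Pool.Agent.Lib.MP_4952d6_mp.O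

end

/-! ### O.WF2 -/

section

/-! # O.WF2: Fejér windows

`FM M y = |Σ_{0≤n<M} e^{2πi n y}|² / M = Σ_{|n|≤M} fj M n e^{2πi n y}`: expand `z conj z`, `fourier m y * conj (fourier n y) = fourier (m-n) y`; the number
of pairs `0 ≤ m, n < M` with `m - n = d` is `M - |d|` for `|d| < M`.
`wnd M w x = cW M ∏_α FM M (x α - w α)`; `ch n x = ∏_α fourier (n α) (x α)` (`UnitAddTorus.mFourier`), so
`∏_α fourier (n α) (x α - w α) = conj (ch n w) * ch n x`.
`Win`: `0 ≤ FM ≤ M` (`‖Σ‖ ≤ M`); `∫ ch n x = if n = 0 then 1 else 0` gives `∫ wnd = th 0 = cW` and (`∫ conj (ch n) ch m`) `∫ wnd² = Σ th² = 1`.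
Continuity of `FM` (finite sum of `fourier n`). -/

set_option autoImplicit false
set_option linter.unusedSectionVars false
set_option linter.unusedVariables false
open MeasureTheory Function Filter Topology Set ComplexConjugate

namespace Pool.Agent.Lib.MP_4952d6_mp.O

open LB

/-- Fejér kernel. -/
noncomputable def FM (M : ℕ) (y : UnitAddCircle) : ℝ :=
  ‖∑ n ∈ Finset.range M, (fourier (n : ℤ) y : ℂ)‖ ^ 2 / M

/-- The window around `w`. -/
noncomputable def wnd (M : ℕ) (w : T3) (x : T3) : ℝ := cW M * ∏ α, FM M (x α - w α)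

lemma WF2_icc_sum (g : ℤ → ℂ) (M : ℕ) :
    ∑ n ∈ Finset.Icc (-(M : ℤ)) M, g n
      = g 0 + (∑ m ∈ Finset.range M, g ((m : ℤ) + 1) + ∑ m ∈ Finset.range M, g (-((m : ℤ) + 1))) := by
  induction M with
  | zero => simp
  | succ M ih =>
    have h1 : Finset.Icc (-((M + 1 : ℕ) : ℤ)) ((M + 1 : ℕ) : ℤ)
        = insert (-((M : ℤ) + 1)) (insert ((M : ℤ) + 1) (Finset.Icc (-(M : ℤ)) M)) := by
      ext x
      simp only [Finset.mem_Icc, Finset.mem_insert]
      push_cast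
      omega
    rw [h1, Finset.sum_insert, Finset.sum_insert, ih, Finset.sum_range_succ, Finset.sum_range_succ]
    · ring
    · simp only [Finset.mem_Icc]
      omega
    · simp only [Finset.mem_Icc, Finset.mem_insert]
      omega

lemma WF2_count (g : ℤ → ℂ) (M : ℕ) :
    ∑ m ∈ Finset.range M, ∑ n ∈ Finset.range M, g ((m : ℤ) - n)
      = ∑ d ∈ Finset.Icc (-(M : ℤ)) M, ((M : ℂ) - (d.natAbs : ℂ)) * g d := by
  induction M with
  | zero => simp
  | succ M ih =>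
    have e1 : ∑ m ∈ Finset.range (M + 1), ∑ n ∈ Finset.range (M + 1), g ((m : ℤ) - n)
        = (∑ m ∈ Finset.range M, ∑ n ∈ Finset.range M, g ((m : ℤ) - n))
          + ∑ m ∈ Finset.range M, g ((m : ℤ) - M) + (∑ n ∈ Finset.range M, g ((M : ℤ) - n)
          + g 0) := by
      rw [Finset.sum_range_succ]
      simp only [Finset.sum_range_succ (n := M), Finset.sum_add_distrib]
      rw [sub_self]
    have e2 : ∑ m ∈ Finset.range M, g ((m : ℤ) - M) = ∑ m ∈ Finset.range M, g (-((m : ℤ) + 1)) := by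
      rw [← Finset.sum_range_reflect]
      refine Finset.sum_congr rfl fun m hm => ?_
      have := Finset.mem_range.1 hm
      congr 1
      omega
    have e3 : ∑ n ∈ Finset.range M, g ((M : ℤ) - n) = ∑ m ∈ Finset.range M, g ((m : ℤ) + 1) := by
      rw [← Finset.sum_range_reflect]
      refine Finset.sum_congr rfl fun m hm => ?_
      have := Finset.mem_range.1 hm
      congr 1
      omega
    have e4 : ∑ d ∈ Finset.Icc (-((M + 1 : ℕ) : ℤ)) ((M + 1 : ℕ) : ℤ),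
        (((M + 1 : ℕ) : ℂ) - (d.natAbs : ℂ)) * g d
        = ∑ d ∈ Finset.Icc (-(M : ℤ)) M, (((M + 1 : ℕ) : ℂ) - (d.natAbs : ℂ)) * g d := by
      have h1 : Finset.Icc (-((M + 1 : ℕ) : ℤ)) ((M + 1 : ℕ) : ℤ)
          = insert (-((M : ℤ) + 1)) (insert ((M : ℤ) + 1) (Finset.Icc (-(M : ℤ)) M)) := by
        ext x
        simp only [Finset.mem_Icc, Finset.mem_insert]
        push_cast
        omega
      rw [h1, Finset.sum_insert, Finset.sum_insert]
      · have a1 : (-((M : ℤ) + 1)).natAbs = M + 1 := by omega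
        have a2 : ((M : ℤ) + 1).natAbs = M + 1 := by omega
        rw [a1, a2]
        simp
      · simp only [Finset.mem_Icc]
        omega
      · simp only [Finset.mem_Icc, Finset.mem_insert]
        omega
    have e5 : ∑ d ∈ Finset.Icc (-(M : ℤ)) M, (((M + 1 : ℕ) : ℂ) - (d.natAbs : ℂ)) * g d
        = (∑ d ∈ Finset.Icc (-(M : ℤ)) M, ((M : ℂ) - (d.natAbs : ℂ)) * g d)
          + ∑ d ∈ Finset.Icc (-(M : ℤ)) M, g d := by
      rw [← Finset.sum_add_distrib]
      refine Finset.sum_congr rfl fun d _ => ?_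
      push_cast
      ring
    rw [e1, ih, e2, e3, e4, e5, WF2_icc_sum g M]
    ring

lemma FM_eq {M : ℕ} (hM : 1 ≤ M) (y : UnitAddCircle) :
    ((FM M y : ℝ) : ℂ) = ∑ n ∈ Finset.Icc (-(M : ℤ)) M, (fj M n : ℂ) * fourier n y := by
  have hM0 : (0:ℝ) < M := by exact_mod_cast hM
  have hMc : (M : ℂ) ≠ 0 := by exact_mod_cast (show M ≠ 0 by omega)
  have h1 : (((‖∑ n ∈ Finset.range M, (fourier (n : ℤ) y : ℂ)‖ ^ 2 : ℝ)) : ℂ)
      = ∑ m ∈ Finset.range M, ∑ n ∈ Finset.range M, (fourier ((m : ℤ) - n) y : ℂ) := by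
    rw [← Complex.normSq_eq_norm_sq, ← Complex.mul_conj, map_sum, Finset.sum_mul_sum]
    refine Finset.sum_congr rfl fun m _ => Finset.sum_congr rfl fun n _ => ?_
    rw [sub_eq_add_neg, fourier_add, fourier_neg]
  unfold FM
  rw [Complex.ofReal_div, h1, WF2_count (fun d => (fourier d y : ℂ)) M, Complex.ofReal_natCast,
    Finset.sum_div]
  refine Finset.sum_congr rfl fun d hd => ?_
  have hd' := Finset.mem_Icc.1 hd
  have h2 : fj M d = ((M : ℝ) - d.natAbs) / M := by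
    rw [WF1_fj_natAbs]
    have h3 : (d.natAbs : ℝ) ≤ M := by
      have : d.natAbs ≤ M := by omega
      exact_mod_cast this
    rw [max_eq_right]
    · field_simp
    · have : (d.natAbs : ℝ) / M ≤ 1 := by rwa [div_le_one hM0]
      linarith
  rw [h2]
  push_cast
  ring

lemma FM_nonneg (M : ℕ) (y : UnitAddCircle) : 0 ≤ FM M y := by
  unfold FM
  positivity

lemma FM_le {M : ℕ} (hM : 1 ≤ M) (y : UnitAddCircle) : FM M y ≤ M := by
  have hM0 : (0:ℝ) < M := by exact_mod_cast hM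
  have h1 : ‖∑ n ∈ Finset.range M, (fourier (n : ℤ) y : ℂ)‖ ≤ M := by
    refine (norm_sum_le _ _).trans ?_
    have h2 : ∀ n ∈ Finset.range M, ‖(fourier (n : ℤ) y : ℂ)‖ ≤ 1 := fun n _ => by
      rw [fourier_apply]
      simp
    refine (Finset.sum_le_sum h2).trans ?_
    simp
  unfold FM
  rw [div_le_iff₀ hM0]
  have := pow_le_pow_left₀ (norm_nonneg _) h1 2
  nlinarith

lemma WF2_FM_cont (M : ℕ) : Continuous (FM M) := by
  unfold FM
  fun_prop

lemma WF2_wnd_cont (M : ℕ) (w : T3) : Continuous (wnd M w) := by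
  unfold wnd
  refine continuous_const.mul (continuous_finsetProd _ fun α _ => ?_)
  exact (WF2_FM_cont M).comp ((continuous_apply α).sub continuous_const)

lemma WF2_fourier_sub (n : ℤ) (x w : UnitAddCircle) :
    (fourier n (x - w) : ℂ) = conj (fourier n w) * fourier n x := by
  have h1 : (fourier n w : ℂ) * fourier n (x - w) = fourier n x := by
    rw [← fourier_add_arg]
    congr 1
    abel
  have h2 : (fourier n w : ℂ) * conj (fourier n w : ℂ) = 1 := by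
    rw [Complex.mul_conj, Complex.normSq_eq_norm_sq, fourier_apply]
    simp
  calc (fourier n (x - w) : ℂ) = (fourier n w * conj (fourier n w : ℂ)) * fourier n (x - w) := by
        rw [h2, one_mul]
    _ = conj (fourier n w) * (fourier n w * fourier n (x - w)) := by ring
    _ = _ := by rw [h1]

theorem wnd_eq {M : ℕ} (hM : 1 ≤ M) (w x : T3) :
    ((wnd M w x : ℝ) : ℂ) = ∑ n ∈ bx M, (th M n : ℂ) * (conj (ch n w) * ch n x) := by
  have h1 : ∀ α, ((FM M (x α - w α) : ℝ) : ℂ)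
      = ∑ n ∈ Finset.Icc (-(M : ℤ)) M, (fj M n : ℂ) * (conj (fourier n (w α)) * fourier n (x α)) := by
    intro α
    rw [FM_eq hM]
    refine Finset.sum_congr rfl fun n _ => ?_
    rw [WF2_fourier_sub]
  unfold wnd
  rw [Complex.ofReal_mul, Complex.ofReal_prod]
  simp only [h1]
  rw [Finset.prod_univ_sum, Finset.mul_sum]
  refine Finset.sum_congr rfl fun n _ => ?_
  unfold th th0 ch
  simp only [UnitAddTorus.mFourier, ContinuousMap.coe_mk, map_prod]
  rw [Finset.prod_mul_distrib, Finset.prod_mul_distrib]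
  push_cast
  ring

lemma WF2_fc3 {M : ℕ} (hM : 1 ≤ M) (w : T3) (p : Fin 3 → ℤ) :
    fc3 (fun x => ((wnd M w x : ℝ) : ℂ)) p = (th M p : ℂ) * conj (ch p w) := by
  unfold fc3
  have h1 : ∀ x, conj (ch p x) * ((wnd M w x : ℝ) : ℂ)
      = ∑ n ∈ bx M, ((th M n : ℂ) * conj (ch n w)) * ch (n - p) x := by
    intro x
    rw [wnd_eq hM, Finset.mul_sum]
    refine Finset.sum_congr rfl fun n _ => ?_
    rw [sub_eq_add_neg, ch_add, ch_neg]
    ring
  simp only [h1]
  rw [integral_finsetSum]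
  · have h2 : ∀ n ∈ bx M, ∫ x, ((th M n : ℂ) * conj (ch n w)) * ch (n - p) x ∂lam3
        = if n = p then (th M p : ℂ) * conj (ch p w) else 0 := by
      intro n _
      rw [integral_const_mul]
      by_cases hn : n = p
      · subst hn
        rw [if_pos rfl, sub_self]
        simp [ch_zero]
      · rw [if_neg hn, HKE_int_ch (sub_ne_zero.2 hn), mul_zero]
    rw [Finset.sum_congr rfl h2, Finset.sum_ite_eq']
    split_ifs with hp
    · rfl
    · rw [th_out hM hp]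
      simp
  · intro n _
    exact ((ch_continuous _).integrable_of_hasCompactSupport
      (HasCompactSupport.of_compactSpace _)).const_mul _

theorem wnd_win {M : ℕ} (hM : 1 ≤ M) (w : T3) : Win (wnd M w) (cW M) (cW M * (M : ℝ) ^ 3) := by
  have hc := WF2_wnd_cont M w
  have h0 : ∀ x, 0 ≤ wnd M w x := fun x =>
    mul_nonneg (cW_pos hM).le (Finset.prod_nonneg fun α _ => FM_nonneg M _)
  have hle : ∀ x, wnd M w x ≤ cW M * (M : ℝ) ^ 3 := fun x => by
    unfold wnd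
    refine mul_le_mul_of_nonneg_left ?_ (cW_pos hM).le
    simp only [Fin.prod_univ_three]
    have f0 := FM_nonneg M (x 0 - w 0)
    have f1 := FM_nonneg M (x 1 - w 1)
    have f2 := FM_nonneg M (x 2 - w 2)
    have g0 := FM_le hM (x 0 - w 0)
    have g1 := FM_le hM (x 1 - w 1)
    have g2 := FM_le hM (x 2 - w 2)
    calc FM M (x 0 - w 0) * FM M (x 1 - w 1) * FM M (x 2 - w 2) ≤ (M : ℝ) * M * M := by gcongr
      _ = (M : ℝ) ^ 3 := by ring
  refine ⟨⟨hc.measurable, cW M * (M : ℝ) ^ 3, fun x => ?_⟩, h0, hle, ?_, ?_⟩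
  · rw [abs_of_nonneg (h0 x)]
    exact hle x
  · have h1 := WF2_fc3 hM w 0
    unfold fc3 at h1
    simp only [ch_zero, map_one, one_mul, mul_one, th_zero] at h1
    rw [integral_complex_ofReal] at h1
    exact_mod_cast h1
  · have hm : MemLp (fun x => ((wnd M w x : ℝ) : ℂ)) 2 lam3 := by
      refine MemLp.of_bound (Complex.continuous_ofReal.comp hc).aestronglyMeasurable
        (cW M * (M : ℝ) ^ 3) (Eventually.of_forall fun x => ?_)
      rw [Complex.norm_real, Real.norm_of_nonneg (h0 x)]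
      exact hle x
    have h1 := parseval3_sq hm
    have h2 : (∫ x, ‖((wnd M w x : ℝ) : ℂ)‖ ^ 2 ∂lam3) = ∫ x, wnd M w x ^ 2 ∂lam3 := by
      congr 1
      funext x
      rw [Complex.norm_real, Real.norm_eq_abs, sq_abs]
    rw [h2] at h1
    rw [← h1.tsum_eq, ← th_sq_sum hM]
    have h3 : ∀ p, ‖fc3 (fun x => ((wnd M w x : ℝ) : ℂ)) p‖ ^ 2 = th M p ^ 2 := fun p => by
      rw [WF2_fc3 hM, norm_mul, RCLike.norm_conj, ch_norm, mul_one, Complex.norm_real,
        Real.norm_eq_abs, sq_abs]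
    simp only [h3]
    exact tsum_eq_sum fun p hp => by rw [th_out hM hp]; simp

end Pool.Agent.Lib.MP_4952d6_mp.O

end

/-! ### O.WG1 -/

section

/-! # O.WG1: averages over a grid of points

`gp L m = (m_α / L)_α`, `EW L F = L^{-3} Σ_m F (gp L m)`. For `n` with `|n_α| < L`: `L^{-3} Σ_m ch n (gp L m) = ∏_α (1/L) Σ_{m<L} e^{2πi n_α m / L}
= if n = 0 then 1 else 0` (geometric sum: `e^{2πi n_α/L} ≠ 1` if `0 < |n_α| < L`).
`EW_inner`: expand `Re ⟪Σ_n ch n w • x n, Σ_m ch m w • y m⟫ = Re Σ_{n,m} conj (ch n w) ch m w ⟪x n, y m⟫`, `conj (ch n w) ch m w = ch (m - n) w`,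
`|m_α - n_α| ≤ 2 R < L`. -/

set_option autoImplicit false
set_option linter.unusedSectionVars false
set_option linter.unusedVariables false
open MeasureTheory Function Filter Topology Set ComplexConjugate

namespace Pool.Agent.Lib.MP_4952d6_mp.O

open LB

/-- Grid point. -/
noncomputable def gp (L : ℕ) (m : Fin 3 → Fin L) : T3 := fun α => (((m α : ℕ) : ℝ) / L : ℝ)

/-- Average over the grid. -/
noncomputable def EW (L : ℕ) (F : T3 → ℝ) : ℝ := (∑ m : Fin 3 → Fin L, F (gp L m)) / (L : ℝ) ^ 3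

lemma EW_add (L : ℕ) (F G : T3 → ℝ) : EW L (fun w => F w + G w) = EW L F + EW L G := by
  unfold EW
  rw [Finset.sum_add_distrib, add_div]

lemma EW_sub (L : ℕ) (F G : T3 → ℝ) : EW L (fun w => F w - G w) = EW L F - EW L G := by
  unfold EW
  rw [Finset.sum_sub_distrib, sub_div]

lemma EW_mul (L : ℕ) (c : ℝ) (F : T3 → ℝ) : EW L (fun w => c * F w) = c * EW L F := by
  unfold EW
  rw [← Finset.mul_sum, mul_div_assoc]

lemma EW_const {L : ℕ} (hL : 1 ≤ L) (c : ℝ) : EW L (fun _ => c) = c := by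
  have hL' : (L : ℝ) ≠ 0 := by
    have : L ≠ 0 := by omega
    exact_mod_cast this
  unfold EW
  rw [Finset.sum_const, Finset.card_univ, Fintype.card_fun, Fintype.card_fin, Fintype.card_fin,
    nsmul_eq_mul, Nat.cast_pow, mul_comm, mul_div_assoc, div_self (pow_ne_zero _ hL'), mul_one]

lemma EW_mono (L : ℕ) {F G : T3 → ℝ} (h : ∀ w, F w ≤ G w) : EW L F ≤ EW L G := by
  unfold EW
  exact div_le_div_of_nonneg_right (Finset.sum_le_sum fun m _ => h _) (by positivity)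

lemma EW_nonneg (L : ℕ) {F : T3 → ℝ} (h : ∀ w, 0 ≤ F w) : 0 ≤ EW L F := by
  unfold EW
  exact div_nonneg (Finset.sum_nonneg fun m _ => h _) (by positivity)

lemma EW_sum (L : ℕ) {κ : Type*} (s : Finset κ) (F : κ → T3 → ℝ) :
    EW L (fun w => ∑ i ∈ s, F i w) = ∑ i ∈ s, EW L (F i) := by
  unfold EW
  rw [Finset.sum_comm, Finset.sum_div]

lemma WG1_geom {L : ℕ} (hL : 1 ≤ L) {n : ℤ} (hn : |n| < (L : ℤ)) :
    (∑ j : Fin L, (fourier n ((((j : ℕ) : ℝ) / L : ℝ) : UnitAddCircle) : ℂ)) / (L : ℂ) =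
      if n = 0 then 1 else 0 := by
  have hL0 : (L : ℂ) ≠ 0 := by
    have : L ≠ 0 := by omega
    exact_mod_cast this
  have hterm : ∀ j : ℕ, (fourier n (((j : ℝ) / L : ℝ) : UnitAddCircle) : ℂ) =
      Complex.exp (2 * Real.pi * Complex.I * n / L) ^ j := by
    intro j
    rw [fourier_coe_apply, ← Complex.exp_nat_mul]
    congr 1
    push_cast
    field_simp
  rw [Fin.sum_univ_eq_sum_range
    (fun j : ℕ => (fourier n (((j : ℝ) / L : ℝ) : UnitAddCircle) : ℂ)) L,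
    Finset.sum_congr rfl fun j _ => hterm j]
  by_cases h0 : n = 0
  · rw [if_pos h0, h0]
    simp only [Int.cast_zero, mul_zero, zero_div, Complex.exp_zero, one_pow, Finset.sum_const,
      Finset.card_range, nsmul_eq_mul, mul_one]
    exact div_self hL0
  · rw [if_neg h0]
    have h1 : Complex.exp (2 * Real.pi * Complex.I * n / L) ≠ 1 := by
      intro h
      obtain ⟨k, hk⟩ := Complex.exp_eq_one_iff.1 h
      have h2 : (n : ℂ) = k * L := by
        have h3 : (2 * (Real.pi : ℂ) * Complex.I) * (n : ℂ) =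
            (2 * (Real.pi : ℂ) * Complex.I) * (k * L) := by
          rw [div_eq_iff hL0] at hk
          linear_combination hk
        exact mul_left_cancel₀ Complex.two_pi_I_ne_zero h3
      have h4 : n = k * L := by exact_mod_cast h2
      have h5 : k ≠ 0 := by
        rintro rfl
        exact h0 (by rw [h4, zero_mul])
      have h6 : 1 ≤ |k| := Int.one_le_abs h5
      rw [h4, abs_mul, Nat.abs_cast] at hn
      nlinarith [abs_nonneg k]
    have h2 : Complex.exp (2 * Real.pi * Complex.I * n / L) ^ L = 1 := by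
      rw [← Complex.exp_nat_mul, Complex.exp_eq_one_iff]
      refine ⟨n, ?_⟩
      field_simp
    rw [geom_sum_eq h1, h2, sub_self, zero_div, zero_div]

theorem EW_ch {L : ℕ} (hL : 1 ≤ L) {n : Fin 3 → ℤ} (hn : ∀ α, |n α| < (L : ℤ)) :
    (∑ m : Fin 3 → Fin L, ch n (gp L m)) / ((L : ℂ)) ^ 3 = if n = 0 then 1 else 0 := by
  have h1 : ∑ m : Fin 3 → Fin L, ch n (gp L m) =
      ∏ α, ∑ j : Fin L, (fourier (n α) ((((j : ℕ) : ℝ) / L : ℝ) : UnitAddCircle) : ℂ) := by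
    rw [Finset.prod_univ_sum, Fintype.piFinset_univ]
    rfl
  have h2 : ((L : ℂ)) ^ 3 = ∏ _α : Fin 3, (L : ℂ) := by
    rw [Finset.prod_const, Finset.card_univ, Fintype.card_fin]
  rw [h1, h2, ← Finset.prod_div_distrib, Finset.prod_congr rfl fun α _ => WG1_geom hL (hn α)]
  by_cases h : n = 0
  · rw [if_pos h, h]
    exact Finset.prod_eq_one fun α _ => if_pos rfl
  · rw [if_neg h]
    obtain ⟨α, hα⟩ := Function.ne_iff.1 h
    exact Finset.prod_eq_zero (Finset.mem_univ α) (if_neg hα)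

theorem EW_inner {E : Type*} [NormedAddCommGroup E] [InnerProductSpace ℂ E] {L R : ℕ}
    (hL : 2 * R < L) (x y : (Fin 3 → ℤ) → E) :
    EW L (fun w => (inner ℂ (∑ n ∈ bx R, ch n w • x n) (∑ n ∈ bx R, ch n w • y n)).re)
      = ∑ n ∈ bx R, (inner ℂ (x n) (y n)).re := by
  have hL1 : 1 ≤ L := by omega
  have hexp : ∀ w : T3, inner ℂ (∑ n ∈ bx R, ch n w • x n) (∑ n ∈ bx R, ch n w • y n) =
      ∑ n ∈ bx R, ∑ m ∈ bx R, ch (m - n) w * inner ℂ (x n) (y m) := by
    intro w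
    rw [sum_inner]
    refine Finset.sum_congr rfl fun n _ => ?_
    rw [inner_sum]
    refine Finset.sum_congr rfl fun m _ => ?_
    rw [inner_smul_left, inner_smul_right, sub_eq_add_neg, ch_add, ch_neg]
    ring
  have hmain : (∑ g : Fin 3 → Fin L,
      inner ℂ (∑ n ∈ bx R, ch n (gp L g) • x n) (∑ n ∈ bx R, ch n (gp L g) • y n)) / (L : ℂ) ^ 3 =
      ∑ n ∈ bx R, inner ℂ (x n) (y n) := by
    rw [Finset.sum_congr rfl fun g _ => hexp (gp L g), Finset.sum_comm, Finset.sum_div]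
    refine Finset.sum_congr rfl fun n hn => ?_
    rw [Finset.sum_comm, Finset.sum_div]
    have h1 : ∀ m ∈ bx R, (∑ g : Fin 3 → Fin L, ch (m - n) (gp L g) * inner ℂ (x n) (y m)) /
        (L : ℂ) ^ 3 = if m = n then inner ℂ (x n) (y n) else 0 := by
      intro m hm
      rw [← Finset.sum_mul, mul_comm, mul_div_assoc, EW_ch hL1]
      · by_cases h : m = n
        · rw [if_pos h, if_pos (sub_eq_zero.2 h), mul_one, h]
        · rw [if_neg h, if_neg (fun h' => h (sub_eq_zero.1 h')), mul_zero]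
      · intro α
        unfold bx at hn hm
        have h2 := Finset.mem_Icc.1 (Fintype.mem_piFinset.1 hn α)
        have h3 := Finset.mem_Icc.1 (Fintype.mem_piFinset.1 hm α)
        rw [Pi.sub_apply, abs_lt]
        constructor <;> omega
    rw [Finset.sum_congr rfl h1, Finset.sum_ite_eq' (bx R) n, if_pos hn]
  have h2 := congrArg Complex.re hmain
  rw [Complex.re_sum] at h2
  rw [← h2]
  unfold EW
  have h3 : ((L : ℂ)) ^ 3 = (((L : ℝ) ^ 3 : ℝ) : ℂ) := by
    push_cast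
    rfl
  rw [h3, Complex.div_ofReal_re, Complex.re_sum]

theorem EW_norm {E : Type*} [NormedAddCommGroup E] [InnerProductSpace ℂ E] {L R : ℕ}
    (hL : 2 * R < L) (x : (Fin 3 → ℤ) → E) :
    EW L (fun w => ‖∑ n ∈ bx R, ch n w • x n‖ ^ 2) = ∑ n ∈ bx R, ‖x n‖ ^ 2 := by
  have h : ∀ z : E, ‖z‖ ^ 2 = (inner ℂ z z).re := fun z => (inner_self_eq_norm_sq (𝕜 := ℂ) z).symm
  simp only [h]
  exact EW_inner hL x x

/-- Exchange of the average and of the expectation. -/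
theorem EW_qf {ι : Type*} [Fintype ι] (L : ℕ) {G : T3 → (ι → T3) → ℝ} (hG : ∀ w, BM (G w))
    (f : HS ι) : EW L (fun w => qf (G w) f) = qf (fun x => EW L (fun w => G w x)) f := by
  unfold EW qf
  rw [← integral_finsetSum _ fun m _ => qf_int (hG (gp L m)) f, ← integral_div]
  congr 1
  funext x
  rw [← Finset.sum_mul]
  ring

end Pool.Agent.Lib.MP_4952d6_mp.O

end

/-! ### O.WB1 -/

section

/-! # O.WB1: commutator identities

`XX u v f = Σ_j kt u j (br v j f)`, `RR t θ k f = Σ_j rho t θ k j f`.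
`XX_inner`: expand (`sum_inner`, `inner_sum`); `j = l`: `kt_inner` and `Pz_br`; `j ≠ l`: `kt_adj` (move `kt u j` to the right),
`br_kt_comm`, then `br_adj` read backwards (`⟪g, kt u' l h⟫ = ⟪br u' l g, h⟫`).  Split `Σ_l` with `Finset.add_sum_erase`.
`XX_comm`: `XX_inner` twice; the double sums cancel: rename `j ↔ l` (sum over all ordered pairs `j ≠ l`, e.g. `Finset.sum_comm'` or write both
as `Σ_j Σ_l if l = j then 0 else ..`), and `br_br_comm` on both sides: `⟪br v l (br u' j f), br v' j (br u l f)⟫` with `j, l` exchanged is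
`⟪br v j (br u' l f), br v' l (br u j f)⟫ = ⟪br u' l (br v j f), br u j (br v' l f)⟫`.
`RR_comm`: `⟪rho k j f, kt u l (br v l f)⟫`: for `l = j` it is (`rho_adj`) `⟪f, rho (-k) j (kt u j (br v j f))⟫ = ⟪f, kt (rf (-k) u) j (br v j f)⟫
= ⟪br (rf (-k) u) j f, br v j f⟫`; for `l ≠ j` it is `⟪br u l f, rho (-k) j (br v l f)⟫` (`rho_adj`, `rho_kt_comm`, `br_adj`).
`⟪kt v l (br u l f), rho (-k) j f⟫ = ⟪br u l f, br v l (rho (-k) j f)⟫` (`kt_adj`): for `l = j` it is `⟪br u j f, br (rf k v) j f⟫` (`br_rho`,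
`neg_neg`), for `l ≠ j` it is `⟪br u l f, rho (-k) j (br v l f)⟫` (`rho_br_comm`): these terms cancel. -/

set_option autoImplicit false
set_option linter.unusedSectionVars false
set_option linter.unusedVariables false
open MeasureTheory Function Filter Topology Set ComplexConjugate

namespace Pool.Agent.Lib.MP_4952d6_mp.O

open LB

variable {ι : Type*} [Fintype ι] [DecidableEq ι]

theorem XX_inner {u v u' v' : T3 → ℂ} (hu : BC u) (hv : BC v) (hu' : BC u') (hv' : BC v')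
    (f : HS ι) :
    inner ℂ (XX u v f) (XX u' v' f) = ip u u' * ∑ j, inner ℂ (br v j f) (br v' j f)
      + ∑ j, ∑ l ∈ Finset.univ.erase j, inner ℂ (br u' l (br v j f)) (br u j (br v' l f)) := by
  rw [XX, XX, sum_inner, Finset.mul_sum, ← Finset.sum_add_distrib]
  refine Finset.sum_congr rfl fun j _ => ?_
  rw [inner_sum, ← Finset.add_sum_erase _ _ (Finset.mem_univ j)]
  congr 1
  · rw [kt_inner hu hu', Pz_br hv, Pz_br hv']
  · refine Finset.sum_congr rfl fun l hl => ?_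
    have hjl : j ≠ l := (Finset.ne_of_mem_erase hl).symm
    rw [kt_adj hu, br_kt_comm hu hu' hjl, ← br_adj hu']

/-- the off diagonal sums of `XX_inner` are symmetric -/
private theorem WB1_off {u v u' v' : T3 → ℂ} (hu : BC u) (hv : BC v) (hu' : BC u') (hv' : BC v')
    (f : HS ι) :
    ∑ j, ∑ l ∈ Finset.univ.erase j, inner ℂ (br u' l (br v j f)) (br u j (br v' l f))
      = ∑ j, ∑ l ∈ Finset.univ.erase j, inner ℂ (br v l (br u' j f)) (br v' j (br u l f)) := by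
  rw [Finset.sum_comm' (t' := Finset.univ) (s' := fun l => Finset.univ.erase l)
    (fun x y => by simp [ne_comm])]
  refine Finset.sum_congr rfl fun j _ => Finset.sum_congr rfl fun l hl => ?_
  have hlj : l ≠ j := Finset.ne_of_mem_erase hl
  rw [br_br_comm hu' hv hlj.symm, br_br_comm hu hv' hlj]

theorem XX_comm {u v u' v' : T3 → ℂ} (hu : BC u) (hv : BC v) (hu' : BC u') (hv' : BC v')
    (f : HS ι) :
    inner ℂ (XX u v f) (XX u' v' f) - inner ℂ (XX v' u' f) (XX v u f)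
      = ip u u' * ∑ j, inner ℂ (br v j f) (br v' j f)
        - ip v' v * ∑ j, inner ℂ (br u' j f) (br u j f) := by
  rw [XX_inner hu hv hu' hv', XX_inner hv' hu' hv hu, WB1_off hu hv hu' hv']
  ring

theorem RR_comm {t : ℝ} (ht : 0 < t) {θ : T3 → ℝ} (hθ : BM θ) (k : Fin 3 → ℤ) {u v : T3 → ℂ}
    (hu : BC u) (hv : BC v) (f : HS ι) :
    inner ℂ (RR t θ k f) (XX u v f) - inner ℂ (XX v u f) (RR t θ (-k) f)
      = ∑ j, inner ℂ (br (rf t θ (-k) u) j f) (br v j f)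
        - ∑ j, inner ℂ (br u j f) (br (rf t θ k v) j f) := by
  have e1 : inner ℂ (RR t θ k f) (XX u v f)
      = ∑ j, ∑ l, inner ℂ (rho t θ k j f) (kt u l (br v l f)) := by
    rw [RR, XX, sum_inner]
    exact Finset.sum_congr rfl fun j _ => inner_sum _ _ _
  have e2 : inner ℂ (XX v u f) (RR t θ (-k) f)
      = ∑ j, ∑ l, inner ℂ (kt v l (br u l f)) (rho t θ (-k) j f) := by
    rw [RR, XX, sum_inner, Finset.sum_comm]
    refine Finset.sum_congr rfl fun l _ => ?_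
    exact inner_sum _ _ _
  rw [e1, e2, ← Finset.sum_sub_distrib, ← Finset.sum_sub_distrib]
  refine Finset.sum_congr rfl fun j _ => ?_
  rw [← Finset.sum_sub_distrib, ← Finset.add_sum_erase _ _ (Finset.mem_univ j)]
  have hz : ∑ l ∈ Finset.univ.erase j, (inner ℂ (rho t θ k j f) (kt u l (br v l f))
      - inner ℂ (kt v l (br u l f)) (rho t θ (-k) j f)) = 0 := by
    refine Finset.sum_eq_zero fun l hl => ?_
    have hjl : j ≠ l := (Finset.ne_of_mem_erase hl).symm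
    rw [rho_adj ht hθ k, rho_kt_comm ht hθ (-k) hu hjl, ← br_adj hu, kt_adj hv,
      rho_br_comm ht hθ (-k) hv hjl, sub_self]
  rw [hz, add_zero, rho_adj ht hθ k, rho_kt ht hθ (-k) hu, ← br_adj (bc_rf ht hθ (-k) hu),
    kt_adj hv, br_rho ht hθ (-k) hv, neg_neg]

end Pool.Agent.Lib.MP_4952d6_mp.O

end

/-! ### O.WA4 -/

section

/-! # O.WA4: pointwise formulas

`br_ae`: `S1_ker` with `w = fun _ => 1`, `φ = pz` (`fc3` of the constant `1`: `Qb_fc3_one`), `MB_ae`; to insert an a.e. equality under the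
integral in `y` use `Ker_cvc_congr` (or `mp_upd`).
`rho_ae`: `S1_ker` twice (kernel `hk (t/2)`: `hk_bm`, `fc3_hk`, `et t p = exp(-(t/2) ksq p)`), `MB_ae`, `Ker_cvc_congr`,
`update (update x j z) j y = update x j y` (`update_idem`), Fubini (`integral_prod`) for a.e. `x` (`Ker_sec`: `f (update x j ·) ∈ L²` for
a.e. `x`, kernels bounded). `br_norm_le`: Cauchy-Schwarz in `y` (`Ker_cs`), then `integral_upd`. -/

set_option autoImplicit false
set_option linter.unusedSectionVars false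
set_option linter.unusedVariables false
open MeasureTheory Function Filter Topology Set ComplexConjugate

namespace Pool.Agent.Lib.MP_4952d6_mp.O

open LB

variable {ι : Type*} [Fintype ι] [DecidableEq ι]

theorem br_ae {v : T3 → ℂ} (hv : BC v) (j : ι) (f : HS ι) :
    (br v j f : (ι → T3) → ℂ) =ᵐ[piN ι] fun x => ∫ y, conj (v y) * f (update x j y) ∂lam3 := by
  have h1 := S1_ker (w := fun _ => (1 : ℝ)) (BM.const 1) bdm_pz (fun p => Qb_fc3_one p) j
    (MB (fun x : ι → T3 => conj (v (x j))) f)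
  have h2 := Ker_cvc_congr (w := fun _ => (1 : ℝ)) j (MB_ae (bmc_bc (bc_conj hv) j) f)
  have h3 : (br v j f : (ι → T3) → ℂ) =ᵐ[piN ι]
      cvc (fun _ => (1 : ℝ)) j (fun x => conj (v (x j)) * f x) := h1.trans h2
  refine h3.trans (Eventually.of_forall fun x => ?_)
  show cvc (fun _ => (1 : ℝ)) j (fun x => conj (v (x j)) * f x) x
    = ∫ y, conj (v y) * f (update x j y) ∂lam3
  unfold cvc
  refine integral_congr_ae (Eventually.of_forall fun y => ?_)
  simp only [update_self, Complex.ofReal_one, one_mul]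

lemma WA4_kernel_sm {t : ℝ} (ht : 0 < t) {θ : T3 → ℝ} (hθ : BM θ) (k : Fin 3 → ℤ) (z : T3) :
    StronglyMeasurable (fun q : T3 × T3 => ((hk (t / 2) (z - q.1) : ℝ) : ℂ)
      * (ch (-k) q.1 * (θ q.1 : ℂ)) * ((hk (t / 2) (q.1 - q.2) : ℝ) : ℂ)) := by
  have hb : BM (hk (t / 2)) := hk_bm (by linarith)
  have m1 : Measurable (fun q : T3 × T3 => hk (t / 2) (z - q.1)) :=
    hb.1.comp (measurable_sub' measurable_const measurable_fst)
  have m2 : Measurable (fun q : T3 × T3 => hk (t / 2) (q.1 - q.2)) :=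
    hb.1.comp measurable_sub_fst_snd
  have m3 : Measurable (fun q : T3 × T3 => θ q.1) := hθ.1.comp measurable_fst
  have m4 : StronglyMeasurable (fun q : T3 × T3 => ch (-k) q.1) :=
    (ch_continuous (-k)).stronglyMeasurable.comp_measurable measurable_fst
  exact ((Complex.measurable_ofReal.comp m1).stronglyMeasurable.mul
    (m4.mul (Complex.measurable_ofReal.comp m3).stronglyMeasurable)).mul
    (Complex.measurable_ofReal.comp m2).stronglyMeasurable

lemma WA4_kernel_bd {t : ℝ} (ht : 0 < t) {θ : T3 → ℝ} (hθ : BM θ) (k : Fin 3 → ℤ) :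
    ∃ C : ℝ, ∀ (z : T3) (q : T3 × T3), ‖((hk (t / 2) (z - q.1) : ℝ) : ℂ)
      * (ch (-k) q.1 * (θ q.1 : ℂ)) * ((hk (t / 2) (q.1 - q.2) : ℝ) : ℂ)‖ ≤ C := by
  have hb : BM (hk (t / 2)) := hk_bm (by linarith)
  obtain ⟨C, hC0, hC⟩ := hb.exists_nonneg_bound
  obtain ⟨D, hD0, hD⟩ := hθ.exists_nonneg_bound
  refine ⟨C * D * C, fun z q => ?_⟩
  rw [norm_mul, norm_mul, norm_mul, ch_norm, one_mul, Complex.norm_real, Complex.norm_real,
    Complex.norm_real]
  exact mul_le_mul (mul_le_mul (hC _) (hD _) (norm_nonneg _) hC0) (hC _) (norm_nonneg _)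
    (mul_nonneg hC0 hD0)

theorem rho_ae {t : ℝ} (ht : 0 < t) {θ : T3 → ℝ} (hθ : BM θ) (k : Fin 3 → ℤ) (j : ι) (f : HS ι) :
    (∀ᵐ x ∂(piN ι), Integrable (fun q : T3 × T3 =>
      ((hk (t / 2) (x j - q.1) : ℝ) : ℂ) * (ch (-k) q.1 * (θ q.1 : ℂ))
        * ((hk (t / 2) (q.1 - q.2) : ℝ) : ℂ) * f (update x j q.2)) (lam3.prod lam3)) ∧
    (rho t θ k j f : (ι → T3) → ℂ) =ᵐ[piN ι] fun x => ∫ q : T3 × T3,
      ((hk (t / 2) (x j - q.1) : ℝ) : ℂ) * (ch (-k) q.1 * (θ q.1 : ℂ))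
        * ((hk (t / 2) (q.1 - q.2) : ℝ) : ℂ) * f (update x j q.2) ∂(lam3.prod lam3) := by
  have ht2 : 0 < t / 2 := by linarith
  obtain ⟨C, hC⟩ := WA4_kernel_bd ht hθ k
  have hint : ∀ᵐ x ∂(piN ι), Integrable (fun q : T3 × T3 =>
      ((hk (t / 2) (x j - q.1) : ℝ) : ℂ) * (ch (-k) q.1 * (θ q.1 : ℂ))
        * ((hk (t / 2) (q.1 - q.2) : ℝ) : ℂ) * f (update x j q.2)) (lam3.prod lam3) := by
    filter_upwards [Ker_sec f j] with x hx
    have hu1 : Integrable (fun y => f (update x j y)) lam3 :=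
      ((memLp_two_iff_integrable_sq_norm (Ker_sec_sm f j x).aestronglyMeasurable).2 hx).integrable
        one_le_two
    have hu2 : Integrable (fun q : T3 × T3 => f (update x j q.2)) (lam3.prod lam3) :=
      hu1.comp_snd lam3
    exact hu2.bdd_mul (WA4_kernel_sm ht hθ k (x j)).aestronglyMeasurable
      (Eventually.of_forall (hC (x j)))
  refine ⟨hint, ?_⟩
  have hbc : BC (fun y => ch (-k) y * (θ y : ℂ)) := bc_mul (bc_ch (-k)) (bc_of_bm hθ)
  have h1 := S1_ker (hk_bm ht2) (bdm_et ht.le) (fun p => fc3_hk ht2 p) j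
    (MB (fun x : ι → T3 => ch (-k) (x j) * (θ (x j) : ℂ)) (PP1 t j f))
  have h2 := Ker_cvc_congr (w := hk (t / 2)) j (MB_ae (bmc_bc hbc j) (PP1 t j f))
  have h3 := S1_ker (hk_bm ht2) (bdm_et ht.le) (fun p => fc3_hk ht2 p) j f
  have h4 : (fun x : ι → T3 => ch (-k) (x j) * (θ (x j) : ℂ) * (PP1 t j f : (ι → T3) → ℂ) x)
      =ᵐ[piN ι] fun x => ch (-k) (x j) * (θ (x j) : ℂ) *
        cvc (hk (t / 2)) j (f : (ι → T3) → ℂ) x := by
    have h3' : (PP1 t j f : (ι → T3) → ℂ) =ᵐ[piN ι] cvc (hk (t / 2)) j (f : (ι → T3) → ℂ) := h3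
    filter_upwards [h3'] with x hx
    rw [hx]
  have h5 := Ker_cvc_congr (w := hk (t / 2)) j h4
  have h6 : (rho t θ k j f : (ι → T3) → ℂ) =ᵐ[piN ι] cvc (hk (t / 2)) j
      (fun x => ch (-k) (x j) * (θ (x j) : ℂ) * cvc (hk (t / 2)) j (f : (ι → T3) → ℂ) x) :=
    (h1.trans h2).trans h5
  filter_upwards [h6, hint] with x hx hi
  rw [hx, integral_prod _ hi]
  unfold cvc
  refine integral_congr_ae (Eventually.of_forall fun y => ?_)
  simp only
  rw [update_self, ← integral_const_mul, ← integral_const_mul]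
  refine integral_congr_ae (Eventually.of_forall fun z => ?_)
  simp only
  rw [update_idem]
  ring

/-- `‖⟨v|_j f‖² ≤ (∫ g) ∫ g (x_j) |f|²` if `|v| ≤ g`. -/
theorem br_norm_le {v : T3 → ℂ} (hv : BC v) {g : T3 → ℝ} (hg : BM g) (hvg : ∀ y, ‖v y‖ ≤ g y)
    (j : ι) (f : HS ι) :
    ‖br v j f‖ ^ 2 ≤ (∫ y, g y ∂lam3) * qf (fun x => g (x j)) f := by
  have hg0 : ∀ y, 0 ≤ g y := fun y => (norm_nonneg _).trans (hvg y)
  have hG : BM (fun x : ι → T3 => g (x j)) := hg.comp (measurable_pi_apply j)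
  have hGf : Integrable (fun x : ι → T3 => g (x j) * ‖f x‖ ^ 2) (piN ι) := by
    obtain ⟨C, hC⟩ := hG.2
    exact (integrable_norm_sq f).bdd_mul hG.1.aestronglyMeasurable (Eventually.of_forall hC)
  have hGu : Integrable (fun q : (ι → T3) × T3 =>
      g (update q.1 j q.2 j) * ‖f (update q.1 j q.2)‖ ^ 2) ((piN ι).prod lam3) :=
    (LB.mp_upd j).integrable_comp_of_integrable hGf
  have h1 : ‖br v j f‖ ^ 2 ≤ ∫ x, (∫ y, g y ∂lam3) *
      ∫ y, g (update x j y j) * ‖f (update x j y)‖ ^ 2 ∂lam3 ∂(piN ι) := by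
    rw [norm_sq_eq]
    refine integral_mono_of_nonneg (Eventually.of_forall fun x => sq_nonneg _)
      (hGu.integral_prod_left.const_mul _) ?_
    filter_upwards [br_ae hv j f, Ker_sec f j] with x hx hx2
    rw [hx]
    have hsm := Ker_sec_sm f j x
    have hu1 : Integrable (fun y => ‖f (update x j y)‖) lam3 :=
      (((memLp_two_iff_integrable_sq_norm hsm.aestronglyMeasurable).2 hx2).integrable
        one_le_two).norm
    have hgu : Integrable (fun y => g y * ‖f (update x j y)‖) lam3 := by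
      obtain ⟨C, hC⟩ := hg.2
      exact hu1.bdd_mul hg.1.aestronglyMeasurable (Eventually.of_forall hC)
    have h2 : ‖∫ y, conj (v y) * f (update x j y) ∂lam3‖
        ≤ ∫ y, g y * ‖f (update x j y)‖ ∂lam3 := by
      refine (norm_integral_le_integral_norm _).trans ?_
      refine integral_mono_of_nonneg (Eventually.of_forall fun y => norm_nonneg _) hgu
        (Eventually.of_forall fun y => ?_)
      simp only
      rw [norm_mul, RCLike.norm_conj]
      exact mul_le_mul_of_nonneg_right (hvg y) (norm_nonneg _)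
    have hsm' : StronglyMeasurable (fun y => ((‖f (update x j y)‖ : ℝ) : ℂ)) :=
      Complex.continuous_ofReal.comp_stronglyMeasurable hsm.norm
    have h3 := Ker_cs (BM.const 1) hg hg0 hsm' (by
      refine hx2.congr (Eventually.of_forall fun y => ?_)
      simp only
      rw [Complex.norm_real, norm_norm])
    have h4 : ∫ y, (((1 : ℝ) * g y : ℝ) : ℂ) * ((‖f (update x j y)‖ : ℝ) : ℂ) ∂lam3
        = ((∫ y, g y * ‖f (update x j y)‖ ∂lam3 : ℝ) : ℂ) := by
      have e : ∫ y, (((1 : ℝ) * g y : ℝ) : ℂ) * ((‖f (update x j y)‖ : ℝ) : ℂ) ∂lam3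
          = ∫ y, ((g y * ‖f (update x j y)‖ : ℝ) : ℂ) ∂lam3 := by
        refine integral_congr_ae (Eventually.of_forall fun y => ?_)
        simp only
        push_cast
        ring
      rw [e]
      exact integral_ofReal
    rw [h4, Complex.norm_real] at h3
    have h5 : 0 ≤ ∫ y, g y * ‖f (update x j y)‖ ∂lam3 :=
      integral_nonneg fun y => mul_nonneg (hg0 y) (norm_nonneg _)
    rw [Real.norm_of_nonneg h5] at h3
    have h6 : (∫ y, (1 : ℝ) ^ 2 * g y ∂lam3) * ∫ y, g y * ‖((‖f (update x j y)‖ : ℝ) : ℂ)‖ ^ 2 ∂lam3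
        = (∫ y, g y ∂lam3) * ∫ y, g (update x j y j) * ‖f (update x j y)‖ ^ 2 ∂lam3 := by
      congr 1
      · refine integral_congr_ae (Eventually.of_forall fun y => ?_)
        simp only
        ring
      · refine integral_congr_ae (Eventually.of_forall fun y => ?_)
        simp only
        rw [Complex.norm_real, norm_norm, update_self]
    rw [h6] at h3
    exact (pow_le_pow_left₀ (norm_nonneg _) h2 2).trans h3
  refine h1.trans (le_of_eq ?_)
  rw [integral_const_mul, qf]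
  congr 1
  exact integral_upd j hGf

end Pool.Agent.Lib.MP_4952d6_mp.O

end

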