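import Pool.Agent.Lib.MP_4952d6_mp.Pk.G29
import Pool.Agent.Lib.MP_4952d6_mp.Pk.G40
import Pool.Agent.Lib.MP_4952d6_mp.Pk.G46
import Pool.Agent.Lib.MP_4952d6_mp.Pk.G47
import Pool.Agent.Lib.MP_4952d6_mp.Pk.G48

/-! Merged modules (to save import time): O.Base, O.E0. -/

/-! ### O.Base -/

section

/-!
# Option A: thermodynamic limit with an infrared cutoff: shared definitions and meeting statements

Notes: `notes_MP_4952d6_mp_TD95.md` (section numbers below) and the corrections in the headers here.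
Unit torus, `N` particles, `N a³ = u ^ 320`, `Y = u ^ 160`, `l = a / u ^ 160` (so `N a l² = 1`, `N l³ = 1 / Y`),
`X = N² a Y = N² a² / l = l⁻⁵`, `G = 8 π N a = 8 π / l²`.

PARAMETERS (changed with respect to the notes): `t = l² u ^ 16 = (a / u ^ 152)²`, `T = l² / u ^ 3`, `e = th = u ^ 9`,
`D = Db (l²) ψ = ∑ (1 - exp (- l² k²)) n_k`, `VV (T/2) ψ = ∫ dz ⟨(∑_j hk (T/2) (z - x_j) - N)²⟩`.
-/

set_option autoImplicit false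
set_option linter.unusedSectionVars false
set_option linter.unusedVariables false
open MeasureTheory Function Filter Topology Set
open scoped ENNReal

namespace Pool.Agent.Lib.MP_4952d6_mp.O

open LB

/-! ### Functionals of the state -/

/-- `∫∫ hk r (x_m - y) |f(x) - f(x^{m→y})|² W(x) dy dx`. -/
noncomputable def dfm {ι : Type*} [Fintype ι] [DecidableEq ι] (r : ℝ) (m : ι)
    (W : (ι → T3) → ℝ) (f : (ι → T3) → ℂ) : ℝ :=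
  ∫ q, hk r (q.1 m - q.2) * (‖f q.1 - f (update q.1 m q.2)‖ ^ 2 * W q.1) ∂((piN ι).prod lam3)

/-- `∑_j ∑_k φ (k_j) |c_k|²`: the one particle multiplier `φ` in the state `ψ`. -/
noncomputable def Dm {ι : Type*} [Fintype ι] (φ : (Fin 3 → ℤ) → ℝ) (ψ : (ι → T3) → ℂ) : ℝ :=
  ∑ j, ∑' k : ι → Fin 3 → ℤ, φ (k j) * ‖fc ψ k‖ ^ 2

/-- `∑ (1 - exp (- b k²)) n_k`. -/
noncomputable def Db {ι : Type*} [Fintype ι] (b : ℝ) (ψ : (ι → T3) → ℂ) : ℝ :=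
  Dm (fun p => 1 - Real.exp (-(b * ksq p))) ψ

/-- Smoothed density at the point `z`. -/
noncomputable def nz {ι : Type*} [Fintype ι] (s : ℝ) (z : T3) (x : ι → T3) : ℝ :=
  ∑ j, hk s (z - x j)

/-- Variance of the smoothed density. -/
noncomputable def VV {ι : Type*} [Fintype ι] (s : ℝ) (ψ : (ι → T3) → ℂ) : ℝ :=
  ∫ z, ∫ x, ‖ψ x‖ ^ 2 * (nz s z x - Fintype.card ι) ^ 2 ∂(piN ι) ∂lam3

/-- Local moment bounds (stream OM). -/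
structure LocO {ι : Type*} [Fintype ι] [DecidableEq ι] (C u t T b : ℝ) (ψ : (ι → T3) → ℂ) :
    Prop where
  m0 : ∀ s, t / 8 ≤ s → s ≤ 64 * T →
    ∑ m, ∫ x, ‖ψ x‖ ^ 2 * crowd s m x ∂(piN ι) ≤ C * (Fintype.card ι : ℝ) ^ 2
  md : ∀ r s, 0 < r → r ≤ 64 * T → t / 8 ≤ s → s ≤ 64 * T →
    ∑ m, dfm r m (fun x => (crowd s m x + Fintype.card ι) ^ 2) ψ
      ≤ C * (Fintype.card ι : ℝ) ^ 2 * (Db b ψ / u ^ 4 + u ^ 161 * (Fintype.card ι : ℝ))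
  mv : ∀ s, T / 8 ≤ s → s ≤ 64 * T →
    ∫ z, ∫ x, ‖ψ x‖ ^ 2 * (nz s z x * (nz (T / 2) z x - Fintype.card ι) ^ 2) ∂(piN ι) ∂lam3
      ≤ C * (Fintype.card ι : ℝ) * (VV (T / 2) ψ / u + u ^ 161 * (Fintype.card ι : ℝ) ^ 2)

/-- Charge data with the two additional properties which are used in the thermodynamic limit. -/
structure ChgO (W : ℝ → ℝ) (R₀ R a δ₁ C : ℝ) (h k w : T3 → ℝ) : Prop
    extends ChgD W R₀ R a δ₁ C h k w where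
  p4 : ∀ t, 0 < t → t ≤ 1 → R ^ 2 ≤ t / 2 → ∀ᵐ z ∂lam3, h z * KK t h z
    ≤ h z * (2 * w z - 2 * a / Real.sqrt (Real.pi * (t / 2)) + C * a * (1 + R / t))
  p5 : ∀ t, 0 < t → t ≤ 1 → ∀ z, ∫ r in (t / 2)..t, cn (hk r) h z
    ≤ 2 * a / Real.sqrt (Real.pi * (t / 2)) - 2 * a / Real.sqrt (Real.pi * t) + C * a

/-- **(OC)** charge block with the additional properties. -/
def OCStatement : Prop :=
  ∃ C : ℝ, 0 ≤ C ∧ ∀ (W f Q : ℝ → ℝ) (R₀ R a : ℝ), Scat W R₀ R a f Q → R ≤ 1 / 8 →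
    ∀ δ₁ : ℝ, 0 < δ₁ → ∃ h k w : T3 → ℝ, ChgO W R₀ R a δ₁ C h k w

/-! ### The symbol -/

/-- The symbol in units of `l⁻²` as a function of `y = l² k²`. -/
noncomputable def eO (b lam y : ℝ) : ℝ := y + lam * (1 - Real.exp (-(b * y)))

/-- The symbol `E_p = l⁻² eO (l² k²)`. -/
noncomputable def Es (b lam l : ℝ) (p : Fin 3 → ℤ) : ℝ := eO b lam (l ^ 2 * ksq p) / l ^ 2

/-- The lattice sum `∑_{p ≠ 0} η² (√(E² + 2 G E) - E - G)`, `G = 8 π / l²`. -/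
noncomputable def LSO (t b lam l : ℝ) : ℝ :=
  ∑' p : Fin 3 → ℤ, if p = 0 then 0 else
    et t p ^ 2 * (epsf (8 * Real.pi / l ^ 2) (Es b lam l p) - Es b lam l p - 8 * Real.pi / l ^ 2)

/-- `J_b(λ) = (1/(4π²)) ∫₀^∞ r² [√(E² + 16 π E) - E - 8 π + 32 π² / r²] dr`, `E = eO b λ (r²)`. -/
noncomputable def JO (b lam : ℝ) : ℝ :=
  1 / (4 * Real.pi ^ 2) * ∫ r in Ioi (0:ℝ), r ^ 2 *
    (epsf (8 * Real.pi) (eO b lam (r ^ 2)) - eO b lam (r ^ 2) - 8 * Real.pi + 32 * Real.pi ^ 2 / r ^ 2)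

/-- Weights of the density modes in the meeting statement of Part A and Part B: all of the high modes
(up to `u ^ 40`), half of the modes below `u / l`, nothing at `p = 0`. -/
noncomputable def gO (u l : ℝ) (p : Fin 3 → ℤ) : ℝ :=
  if p = 0 then 0 else if l ^ 2 * ksq p < u ^ 2 then 1 / 2 else 1 - u ^ 40

/-! ### Meeting statements -/

/-- **(OE)**, Part A: elimination of the high momenta (sections 2 and 3 of the notes), `s = a²`. -/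
def OEStatement : Prop :=
  ∀ θ CM Cc : ℝ, 0 ≤ θ → 0 ≤ CM → 0 ≤ Cc → ∃ C u₀ : ℝ, 0 ≤ C ∧ 0 < u₀ ∧ ∀ u : ℝ, 0 < u → u < u₀ →
    ∃ a₀ : ℝ, 0 < a₀ ∧ ∀ (N : ℕ) (W : ℝ → ℝ) (R₀ R a δ₁ : ℝ) (h k w : T3 → ℝ), 0 < a → a < a₀ →
      (N : ℝ) * a ^ 3 = u ^ 320 → 0 ≤ R → R ≤ θ * a → 0 ≤ δ₁ → δ₁ ≤ u ^ 161 →
      ChgO W R₀ R a δ₁ Cc h k w →
      ∀ ψ : HS (Fin N), ‖ψ‖ = 1 →
      (∀ j, Summable fun k : Fin N → Fin 3 → ℤ => ksq (k j) * ‖cf ψ k‖ ^ 2) →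
      LocO CM u ((a / u ^ 152) ^ 2) ((a / u ^ 160) ^ 2 / u ^ 3) ((a / u ^ 160) ^ 2) ψ →
      ∀ φ : (Fin 3 → ℤ) → ℝ, (∀ p, |φ p| ≤ 8 * Real.pi * (N * a)) →
      4 * Real.pi * N ^ 2 * a
        + 4 * Real.sqrt Real.pi / u ^ 8 * (N ^ 2 * a * u ^ 160)
        + (∑' p, et ((a / u ^ 152) ^ 2) p ^ 2 * (ksq p + φ p) * nk ψ p)
        + 4 * Real.pi * a * (∑' p, gO u (a / u ^ 160) p * Real.exp (-(a ^ 2 * ksq p))
            * Rsq ((a / u ^ 152) ^ 2) ψ p)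
        + u ^ 6 * a * VV ((a / u ^ 160) ^ 2 / u ^ 3 / 2) ψ
        - 4 * Real.pi * a * N * (∑' p : Fin 3 → ℤ, et ((a / u ^ 152) ^ 2) p ^ 2)
        - C * u * (N ^ 2 * a * u ^ 160 + N * a * Db ((a / u ^ 160) ^ 2) ψ)
        ≤ TV ((a / u ^ 152) ^ 2) h k ψ + ∑' p, φ p * nk ψ p

/-- **(OW)**, Part B: uncertainty relations of all modes, no assumption on the condensate. The summability of
the left sums is part of the statement. -/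
def OWStatement : Prop :=
  ∀ b lam CM : ℝ, 0 < b → |lam| * b ≤ 1 / 8 → |lam| ≤ 1 / 8 → 0 ≤ CM →
    ∃ C u₀ : ℝ, 0 ≤ C ∧ 0 < u₀ ∧ ∀ u : ℝ, 0 < u → u < u₀ →
    ∃ a₀ : ℝ, 0 < a₀ ∧ ∀ (N : ℕ) (a : ℝ), 0 < a → a < a₀ → (N : ℝ) * a ^ 3 = u ^ 320 →
      ∀ ψ : HS (Fin N), ‖ψ‖ = 1 →
      (∀ j, Summable fun k : Fin N → Fin 3 → ℤ => ksq (k j) * ‖cf ψ k‖ ^ 2) →
      LocO CM u ((a / u ^ 152) ^ 2) ((a / u ^ 160) ^ 2 / u ^ 3) ((a / u ^ 160) ^ 2) ψ →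
      1 / 2 * LSO ((a / u ^ 152) ^ 2) b lam (a / u ^ 160)
        + 4 * Real.pi * a * N * (∑' p : Fin 3 → ℤ, et ((a / u ^ 152) ^ 2) p ^ 2)
        - C * u * (N ^ 2 * a * u ^ 160 + N * a * Db ((a / u ^ 160) ^ 2) ψ)
        ≤ (∑' p, et ((a / u ^ 152) ^ 2) p ^ 2 * Es b lam (a / u ^ 160) p * nk ψ p)
          + 4 * Real.pi * a * (∑' p, gO u (a / u ^ 160) p * Real.exp (-(a ^ 2 * ksq p))
            * Rsq ((a / u ^ 152) ^ 2) ψ p)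
          + u ^ 6 * a * VV ((a / u ^ 160) ^ 2 / u ^ 3 / 2) ψ

/-- **(OL)** lower bound for the energy on the torus. -/
def OLStatement : Prop :=
  ∀ θ CM b lam : ℝ, 0 < b → |lam| * b ≤ 1 / 8 → |lam| ≤ 1 / 8 → ∃ C u₀ : ℝ, 0 ≤ C ∧ 0 < u₀ ∧
    ∀ u : ℝ, 0 < u → u < u₀ → ∃ a₀ : ℝ, 0 < a₀ ∧
    ∀ (N : ℕ) (W f Q : ℝ → ℝ) (R₀ R a : ℝ), Scat W R₀ R a f Q → a < a₀ →
      (N : ℝ) * a ^ 3 = u ^ 320 → R ≤ θ * a →
      ∀ 𝒱 : T3 → ℝ≥0∞, (∀ᵐ y ∂lam3, ENNReal.ofReal (2 * W (rr y)) ≤ 𝒱 y) →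
      ∀ ψ : (Fin N → T3) → ℂ, tAdm R₀ 𝒱 ψ →
      LocO CM u ((a / u ^ 152) ^ 2) ((a / u ^ 160) ^ 2 / u ^ 3) ((a / u ^ 160) ^ 2) ψ →
      ENNReal.ofReal (4 * Real.pi * N ^ 2 * a
        + 4 * Real.sqrt Real.pi / u ^ 8 * (N ^ 2 * a * u ^ 160)
        + 1 / 2 * LSO ((a / u ^ 152) ^ 2) b lam (a / u ^ 160)
        - C * u * (N ^ 2 * a * u ^ 160 + N * a * Db ((a / u ^ 160) ^ 2) ψ)
        - Dm (fun p => Es b lam (a / u ^ 160) p - ksq p) ψ) ≤ tE 𝒱 ψ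

/-- **(OJ)** the limit of the lattice sum. -/
def OJStatement : Prop :=
  ∀ b lam η : ℝ, 0 < b → |lam| * b ≤ 1 / 8 → |lam| ≤ 1 / 8 → 0 < η → ∃ u₀ : ℝ, 0 < u₀ ∧
    ∀ u : ℝ, 0 < u → u < u₀ → ∃ l₀ : ℝ, 0 < l₀ ∧ ∀ l : ℝ, 0 < l → l < l₀ →
      JO b lam - η ≤ 4 * Real.sqrt Real.pi / u ^ 8 + 1 / 2 * l ^ 5 * LSO (l ^ 2 * u ^ 16) b lam l

/-- **(OM)** moment bounds for minimisers, for a fixed physical potential and an arbitrary length `A`. -/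
def OMStatement : Prop :=
  ∀ (m R₀ R : ℝ) (v : (Fin 3 → ℝ) → ℝ), 0 < m → 0 ≤ R₀ → R₀ < R → Integrable v →
    (∀ x, 0 ≤ v x) → (∀ x y : Fin 3 → ℝ, ∑ α, x α ^ 2 = ∑ α, y α ^ 2 → v x = v y) →
    (∀ x : Fin 3 → ℝ, R ^ 2 ≤ ∑ α, x α ^ 2 → v x = 0) → (0 < R₀ ∨ 0 < ∫ x, v x) →
    ∀ A : ℝ, 0 < A → ∃ C u0 : ℝ, 0 < C ∧ 0 < u0 ∧ ∀ ρ u : ℝ, 0 < ρ → 0 < u → u < u0 →
      u ^ 160 = Real.sqrt (ρ * A ^ 3) →
      ∃ N1 : ℕ, ∀ N : ℕ, N1 ≤ N → ∀ ψ : (Fin N → T3) → ℂ,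
        tAdm (R₀ / side ρ N) (Vp m (side ρ N) v) ψ →
        (∀ φ : (Fin N → T3) → ℂ, tAdm (R₀ / side ρ N) (Vp m (side ρ N) v) φ →
          tE (Vp m (side ρ N) v) ψ ≤ tE (Vp m (side ρ N) v) φ) →
        ∀ t T b : ℝ, (A / side ρ N / u ^ 152) ^ 2 / 2 ≤ t → t ≤ 2 * (A / side ρ N / u ^ 152) ^ 2 →
          (A / side ρ N / u ^ 160) ^ 2 / u ^ 3 / 2 ≤ T → T ≤ 2 * ((A / side ρ N / u ^ 160) ^ 2 / u ^ 3) →
          (A / side ρ N / u ^ 160) ^ 2 / 2 ≤ b →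
          LocO C u t T b ψ

end Pool.Agent.Lib.MP_4952d6_mp.O

end

/-! ### O.E0 -/

section

/-!
# O.E0: definitions of Part A (elimination of the high momenta)

`P_j = PP1 t j`, `Q_j = QQ1 t j`, `S_j = PP1 T j` with `t ≤ T`; `Φ = Phi t j l ψ`, `Φ⁰ = Phi T j l ψ`,
`Φ¹ = PhiD t T j l ψ = Φ - Φ⁰`. `ψ` is always a unit vector of `HS (Fin N)`.
All moment hypotheses enter through three numbers `MD`, `M0`, `MV` (`DBd`, `MBd`, `VBd`).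
-/

set_option autoImplicit false
set_option linter.unusedSectionVars false
set_option linter.unusedVariables false
open MeasureTheory Function Filter Topology Set ComplexConjugate

namespace Pool.Agent.Lib.MP_4952d6_mp.O

open LB

variable {ι : Type*} [Fintype ι]

/-- `Φ¹_{jl} = P_j P_l ψ - S_j S_l ψ`. -/
noncomputable def PhiD (t T : ℝ) (j l : ι) (ψ : HS ι) : HS ι := Phi t j l ψ - Phi T j l ψ

/-- The convolution `p_{T/2} * h`. -/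
noncomputable def chi (T : ℝ) (h : T3 → ℝ) : T3 → ℝ := cn (hk (T / 2)) h

section
variable [DecidableEq ι]

/-- `b_j = ∑_l (1 - S_l) h_{jl} Φ⁰_{jl}` -/
noncomputable def bO (T : ℝ) (h : T3 → ℝ) (ψ : HS ι) (j : ι) : HS ι :=
  ∑ l ∈ Finset.univ.erase j, QQ1 T l (HP h j l (Phi T j l ψ))

/-- `B_j = ∑_l Q_l h_{jl} Φ¹_{jl}` -/
noncomputable def BO (t T : ℝ) (h : T3 → ℝ) (ψ : HS ι) (j : ι) : HS ι :=
  ∑ l ∈ Finset.univ.erase j, QQ1 t l (HP h j l (PhiD t T j l ψ))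

/-- (X1) `W_j = ∑_l P_l h_{jl} Φ¹_{jl}` -/
noncomputable def WO (t T : ℝ) (h : T3 → ℝ) (ψ : HS ι) (j : ι) : HS ι :=
  ∑ l ∈ Finset.univ.erase j, PP1 t l (HP h j l (PhiD t T j l ψ))

/-- (X2) `Z_j = ∑_l (P_l - P_j) h_{jl} Φ⁰_{jl}` -/
noncomputable def ZO (t T : ℝ) (h : T3 → ℝ) (ψ : HS ι) (j : ι) : HS ι :=
  ∑ l ∈ Finset.univ.erase j, (PP1 t l (HP h j l (Phi T j l ψ)) - PP1 t j (HP h j l (Phi T j l ψ)))

/-- (X3) `Y_j = ∑_l (S_l h_{jl} S_l - χ_{jl}) S_j ψ` -/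
noncomputable def YO (T : ℝ) (h : T3 → ℝ) (ψ : HS ι) (j : ι) : HS ι :=
  ∑ l ∈ Finset.univ.erase j, (PP1 T l (HP h j l (Phi T j l ψ)) - HP (chi T h) j l (PP1 T j ψ))

/-- (X4) `U_j = (∑_l χ_{jl} - M) S_j ψ`, `M = N H` -/
noncomputable def UO (T M : ℝ) (h : T3 → ℝ) (ψ : HS ι) (j : ι) : HS ι :=
  (∑ l ∈ Finset.univ.erase j, HP (chi T h) j l (PP1 T j ψ)) - (M : ℂ) • PP1 T j ψ

/-- The sum of the four error vectors. -/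
noncomputable def XO (t T M : ℝ) (h : T3 → ℝ) (ψ : HS ι) (j : ι) : HS ι :=
  (2 : ℂ) • WO t T h ψ j + ZO t T h ψ j
    + ((YO T h ψ j + UO T M h ψ j) + PP1 t j (YO T h ψ j + UO T M h ψ j))

end

/-- all the difference functionals are at most `MD` -/
def DBd {N : ℕ} (t T MD : ℝ) (ψ : HS (Fin N)) : Prop :=
  ∀ r s, 0 < r → r ≤ 64 * T → t / 8 ≤ s → s ≤ 64 * T →
    ∑ m, dfm r m (fun x => (crowd s m x + N) ^ 2) (ψ : (Fin N → T3) → ℂ) ≤ MD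

/-- all the crowd functionals are at most `M0` -/
def MBd {N : ℕ} (t T M0 : ℝ) (ψ : HS (Fin N)) : Prop :=
  ∀ s, t / 8 ≤ s → s ≤ 64 * T → ∑ m, qf (crowd s m) ψ ≤ M0

/-- the weighted variances are at most `MV` -/
def VBd {N : ℕ} (T MV : ℝ) (ψ : HS (Fin N)) : Prop :=
  ∀ s, T / 8 ≤ s → s ≤ 64 * T →
    ∫ z, qf (fun x => nz s z x * (nz (T / 2) z x - N) ^ 2) ψ ∂lam3 ≤ MV

/-- `MD ≥ 0` -/
lemma DBd.nonneg {N : ℕ} {t T MD : ℝ} {ψ : HS (Fin N)} (h : DBd t T MD ψ) (ht : 0 < t) (htT : t ≤ T) :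
    0 ≤ MD := by
  refine le_trans ?_ (h t t ht (by linarith) (by linarith) (by linarith))
  refine Finset.sum_nonneg fun m _ => ?_
  unfold dfm
  refine integral_nonneg fun q => mul_nonneg (hk_nonneg _ _) (mul_nonneg (sq_nonneg _) (sq_nonneg _))

end Pool.Agent.Lib.MP_4952d6_mp.O

end

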