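import Pool.Agent.Lib.MP_4952d6_mp.Pk.G29
import Pool.Agent.Lib.MP_4952d6_mp.Pk.G45
import Pool.Agent.Lib.MP_4952d6_mp.Pk.G48
import Pool.Agent.Lib.MP_4952d6_mp.Po.N01
import Pool.Agent.Lib.MP_4952d6_mp.Po.N05

/-! Merged modules (to save import time): O.XK, O.XMa, O.E9, O.FBase, O.WC3. -/

/-! ### O.XK -/

section

/-!
# O.XK: products and integrals of products of torus heat kernels (K1, K2)

`XK_gs1`: `gs1 s A = (√(4πs))⁻¹ exp(-A²/(4s))`. Prefactors: `(√(4π·4s))⁻¹ = (√(4πs))⁻¹/2`, so the constant `4` is exact.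
Exponents: `(A-B)² ≤ 2A²+2B²` gives `(A-B)²/(16s) ≤ A²/(8s) + B²/(8s) ≤ A²/(4s) + B²/(8r)` (`r ≤ s`), and
`B²/(8r) + B²/(16r) ≤ B²/(4r)`, so `(A-B)²/(16 s) + B²/(16 r) ≤ A²/(4s) + B²/(4r)`.

`XK_hk1`: `hk1 0 s y = ∑' n : ℤ, gs1 s (y+n)` (`HkX_hk1`, `HkX_summable`). For each `m`:
`hk1 0 s A * gs1 r (B+m) = ∑_n gs1 s (A+n) gs1 r (B+m) ≤ 4 ∑_n gs1(4s)((A-B) + (n-m)) gs1(4r)(B+m)
 = 4 hk1 0 (4s) (A-B) gs1(4r)(B+m)` (reindex `n ↦ n-m`, or `hk1_add_int`); then sum over `m` (`tsum_le_tsum`, all summable).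

`hk_mul_le`: `hk s z = ∏ α, hk1 0 s (crd z α)`; `HKD_eq` (HK/D.lean) allows any real representatives:
`hk (4s) (a-b) = ∏ α, hk1 0 (4s) (crd a α - crd b α)` (`crd` is a section of the projection: see the proof of `HkX_hk_add`);
product of three inequalities `XK_hk1` (`Finset.prod_le_prod`, `4³ = 64`, or `Fin.prod_univ_three`).

`hk_int_le`: pointwise `hk s (x-a) * hk r (x-b) ≤ 64 hk(4s)((x-a)-(x-b)) hk(4r)(x-b)`, `(x-a)-(x-b) = b-a = -(a-b)` (`hk_neg`),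
then `HKG_conv` : `∫ hk(4r)(x-b) hk r'(x-c) dx = hk(4r+r')(c-b)`. All functions are bounded measurable (`hk_bm`).
-/

set_option autoImplicit false
set_option linter.unusedSectionVars false
set_option linter.unusedVariables false
open MeasureTheory Function Filter Topology Set ComplexConjugate

namespace Pool.Agent.Lib.MP_4952d6_mp.O

open LB

lemma XK_pre (s : ℝ) :
    (Real.sqrt (4 * Real.pi * (4 * s)))⁻¹ = (Real.sqrt (4 * Real.pi * s))⁻¹ / 2 := by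
  have e : 4 * Real.pi * (4 * s) = 2 ^ 2 * (4 * Real.pi * s) := by ring
  rw [e, Real.sqrt_mul (by norm_num : (0:ℝ) ≤ 2 ^ 2), Real.sqrt_sq (by norm_num : (0:ℝ) ≤ 2), mul_inv]
  ring

theorem XK_gs1 {r s : ℝ} (hr : 0 < r) (hrs : r ≤ s) (A B : ℝ) :
    gs1 s A * gs1 r B ≤ 4 * (gs1 (4 * s) (A - B) * gs1 (4 * r) B) := by
  have hs : 0 < s := by linarith
  unfold gs1
  rw [XK_pre s, XK_pre r]
  have h1 : Real.exp (-(A ^ 2) / (4 * s)) * Real.exp (-(B ^ 2) / (4 * r))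
      ≤ Real.exp (-((A - B) ^ 2) / (4 * (4 * s))) * Real.exp (-(B ^ 2) / (4 * (4 * r))) := by
    rw [← Real.exp_add, ← Real.exp_add]
    apply Real.exp_le_exp.2
    have e1 : -((A - B) ^ 2) / (4 * (4 * s)) = -((A - B) ^ 2 * s⁻¹ / 16) := by
      field_simp
      ring
    have e2 : -(B ^ 2) / (4 * (4 * r)) = -(B ^ 2 * r⁻¹ / 16) := by
      field_simp
      ring
    have e3 : -(A ^ 2) / (4 * s) = -(A ^ 2 * s⁻¹ / 4) := by
      field_simp
    have e4 : -(B ^ 2) / (4 * r) = -(B ^ 2 * r⁻¹ / 4) := by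
      field_simp
    rw [e1, e2, e3, e4]
    have hs' : 0 < s⁻¹ := inv_pos.2 hs
    have hr' : 0 < r⁻¹ := inv_pos.2 hr
    have hsr : s⁻¹ ≤ r⁻¹ := inv_anti₀ hr hrs
    have f1 : (A - B) ^ 2 * s⁻¹ ≤ (2 * A ^ 2 + 2 * B ^ 2) * s⁻¹ := by
      refine mul_le_mul_of_nonneg_right ?_ hs'.le
      have := sq_nonneg (A + B)
      linarith only [this, (by ring : (A + B) ^ 2 + (A - B) ^ 2 = 2 * A ^ 2 + 2 * B ^ 2)]
    have f2 : B ^ 2 * s⁻¹ ≤ B ^ 2 * r⁻¹ := mul_le_mul_of_nonneg_left hsr (sq_nonneg B)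
    have f3 : 0 ≤ A ^ 2 * s⁻¹ := mul_nonneg (sq_nonneg A) hs'.le
    have f4 : 0 ≤ B ^ 2 * r⁻¹ := mul_nonneg (sq_nonneg B) hr'.le
    have f5 : (2 * A ^ 2 + 2 * B ^ 2) * s⁻¹ = 2 * (A ^ 2 * s⁻¹) + 2 * (B ^ 2 * s⁻¹) := by ring
    rw [f5] at f1
    linarith only [f1, f2, f3, f4]
  have h2 : 0 ≤ (Real.sqrt (4 * Real.pi * s))⁻¹ * (Real.sqrt (4 * Real.pi * r))⁻¹ := by positivity
  have h3 := mul_le_mul_of_nonneg_left h1 h2
  refine (le_of_eq ?_).trans (h3.trans (le_of_eq ?_))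
  · ring
  · ring

theorem XK_hk1 {r s : ℝ} (hr : 0 < r) (hrs : r ≤ s) (A B : ℝ) :
    hk1 0 s A * hk1 0 r B ≤ 4 * (hk1 0 (4 * s) (A - B) * hk1 0 (4 * r) B) := by
  have hs : 0 < s := by linarith
  have h1 : ∀ m : ℤ, hk1 0 s A * gs1 r (B + m) ≤ 4 * (hk1 0 (4 * s) (A - B) * gs1 (4 * r) (B + m)) := by
    intro m
    have e1 : hk1 0 (4 * s) (A - B) = hk1 0 (4 * s) (A - (B + m)) := by
      have := hk1_add_int 0 (4 * s) (A - (B + m)) m
      rw [← this]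
      congr 1
      ring
    rw [e1, HkX_hk1, HkX_hk1, ← tsum_mul_right, ← tsum_mul_right, ← tsum_mul_left]
    refine Summable.tsum_le_tsum (fun n => ?_) ((HkX_summable hs A).mul_right _)
      (((HkX_summable (by positivity) _).mul_right _).mul_left _)
    have h2 := XK_gs1 hr hrs (A + n) (B + m)
    have e2 : A + (n : ℝ) - (B + m) = A - (B + m) + n := by ring
    rwa [e2] at h2
  rw [HkX_hk1 r B, HkX_hk1 (4 * r) B, ← tsum_mul_left, ← tsum_mul_left, ← tsum_mul_left]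
  exact Summable.tsum_le_tsum h1 ((HkX_summable hr B).mul_left _)
    (((HkX_summable (by positivity) B).mul_left _).mul_left _)

lemma XK_hk_sub (s : ℝ) (a b : T3) : hk s (a - b) = ∏ α, hk1 0 s (crd a α - crd b α) := by
  have h := hkD_coe 0 s (fun α => crd a α - crd b α)
  have e : (fun α => ((crd a α - crd b α : ℝ) : UnitAddCircle)) = a - b := by
    funext α
    rw [AddCircle.coe_sub, coe_crd a α, coe_crd b α]
    rfl
  rw [e] at h
  exact h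

/-- (K1) -/
theorem hk_mul_le {r s : ℝ} (hr : 0 < r) (hrs : r ≤ s) (a b : T3) :
    hk s a * hk r b ≤ 64 * (hk (4 * s) (a - b) * hk (4 * r) b) := by
  rw [HkX_hk s a, HkX_hk r b, XK_hk_sub, HkX_hk (4 * r) b, ← Finset.prod_mul_distrib,
    ← Finset.prod_mul_distrib]
  calc ∏ α, hk1 0 s (crd a α) * hk1 0 r (crd b α)
      ≤ ∏ α : Fin 3, 4 * (hk1 0 (4 * s) (crd a α - crd b α) * hk1 0 (4 * r) (crd b α)) :=
        Finset.prod_le_prod (fun α _ => mul_nonneg (hk1_nonneg _ _) (hk1_nonneg _ _))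
          (fun α _ => XK_hk1 hr hrs _ _)
    _ = _ := by
        rw [Finset.prod_mul_distrib, Finset.prod_const, Finset.card_univ, Fintype.card_fin]
        norm_num

/-- (K2) -/
theorem hk_int_le {r r' s : ℝ} (hr : 0 < r) (hr' : 0 < r') (hrs : r ≤ s) (a b c : T3) :
    ∫ x, hk s (x - a) * (hk r (x - b) * hk r' (x - c)) ∂lam3
      ≤ 64 * (hk (4 * s) (a - b) * hk (4 * r + r') (c - b)) := by
  have hs : 0 < s := by linarith
  have h4 : 0 < 4 * r := by linarith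
  have bA := WtB_comp (hk_bm hs) a
  have bB := WtB_comp (hk_bm hr) b
  have bC := WtB_comp (hk_bm hr') c
  have bD := WtB_comp (hk_bm h4) b
  have h1 : ∀ x, hk s (x - a) * (hk r (x - b) * hk r' (x - c))
      ≤ 64 * hk (4 * s) (a - b) * (hk (4 * r) (x - b) * hk r' (x - c)) := by
    intro x
    have h2 := hk_mul_le hr hrs (x - a) (x - b)
    have e : x - a - (x - b) = -(a - b) := by abel
    rw [e, hk_neg] at h2
    have h3 := mul_le_mul_of_nonneg_right h2 (hk_nonneg r' (x - c))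
    refine (le_of_eq ?_).trans (h3.trans (le_of_eq ?_))
    · ring
    · ring
  have h5 : ∫ x, hk (4 * r) (x - b) * hk r' (x - c) ∂lam3 = hk (4 * r + r') (c - b) :=
    HKG_conv h4 hr' b c
  calc ∫ x, hk s (x - a) * (hk r (x - b) * hk r' (x - c)) ∂lam3
      ≤ ∫ x, 64 * hk (4 * s) (a - b) * (hk (4 * r) (x - b) * hk r' (x - c)) ∂lam3 :=
        integral_mono ((bA.mul (bB.mul bC)).integrable _) (((bD.mul bC).const_mul _).integrable _) h1
    _ = 64 * (hk (4 * s) (a - b) * hk (4 * r + r') (c - b)) := by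
        rw [integral_const_mul, h5]
        ring

theorem hk_sup {s : ℝ} (hs : 0 < s) (hs1 : s ≤ 1) (z : T3) : hk s z ≤ 8 * (Real.sqrt s)⁻¹ ^ 3 :=
  (hk_le_zero hs z).trans (WWb_hk_zero hs hs1)

end Pool.Agent.Lib.MP_4952d6_mp.O

end

/-! ### O.XMa -/

section

/-!
# O.XMa: masses with high momentum factors

`mA`: `qf h_{jl} (PP1 t l g) ≤ qf (cvj (hk(t/2)) l h_{jl}) g = qf (cn (hk(t/2)) h (x_j-x_l)) g ≤ C₁ H qf (hk t (x_j-x_l)) g`
(`jensen_PP1`, `cvj_diff_right`, `cn_hk_le` with `s = t/2`); sum over `l`: `qf (crowd t j) (g j) ≤ (1/N) cw t j (g j)` (`qf_sum`, `qf_crowd_le_cw`).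
`mB`: `jensen_PP1` twice (first `l`, then `j`): weight `cn (hk(T/2)) (cn (hk(t/2)) h) = cn (hk((T+t)/2)) h` (`cn_hk_hk`)
`≤ C₁ H hk (T+t) ≤ C H hk (2T)` (`cn_hk_le`, `R² ≤ t/8`; `hk_le_hk`). Exchange the order of the sums (`l` outer), `hk_neg`, `qf_crowd_le_cw`.
Models: `q_h_Phi`, `q_h_Phi1` (LB/Qb.lean), `S1_bound` (LB/WWb.lean).
-/

set_option autoImplicit false
set_option linter.unusedSectionVars false
set_option linter.unusedVariables false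
open MeasureTheory Function Filter Topology Set ComplexConjugate

namespace Pool.Agent.Lib.MP_4952d6_mp.O

open LB

lemma XMa_one {N : ℕ} {t H C : ℝ} (ht : 0 < t) (j : Fin N) {F : Fin N → ℝ}
    (g : HS (Fin N)) (hN : 0 < N) (hCH : 0 ≤ C * H)
    (hF : ∀ l ∈ Finset.univ.erase j, F l ≤ C * H * qf (fun x => hk t (x j - x l)) g) :
    ∑ l ∈ Finset.univ.erase j, F l ≤ C * (H / N) * cw t j g := by
  have hN' : (0 : ℝ) < N := Nat.cast_pos.2 hN
  refine (Finset.sum_le_sum hF).trans ?_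
  rw [← Finset.mul_sum]
  have h1 := sum_hk_le ht le_rfl j g
  rw [div_self ht.ne', Real.sqrt_one, one_pow, one_mul] at h1
  have h2 := qf_crowd_le_cw ht j g
  have h3 : qf (crowd t j) g ≤ cw t j g / N := by
    rw [le_div_iff₀ hN', mul_comm]
    exact h2
  refine (mul_le_mul_of_nonneg_left (h1.trans h3) hCH).trans (le_of_eq ?_)
  ring

lemma XMa_swap {N : ℕ} (F : Fin N → Fin N → ℝ) :
    ∑ j, ∑ l ∈ Finset.univ.erase j, F j l = ∑ l, ∑ j ∈ Finset.univ.erase l, F j l := by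
  simp_rw [Sums_erase]
  rw [Finset.sum_comm]
  refine Finset.sum_congr rfl fun l _ => Finset.sum_congr rfl fun j _ => ?_
  by_cases h : l = j
  · rw [if_neg (not_not.2 h), if_neg (not_not.2 h.symm)]
  · rw [if_pos h, if_pos (fun h2 => h h2.symm)]

theorem mA : ∃ C : ℝ, 0 ≤ C ∧ ∀ (N : ℕ) (t H R : ℝ) (h : T3 → ℝ), 0 < N → 0 < t → t ≤ 1 →
    SR H R h → 0 ≤ R → R ^ 2 ≤ t / 8 → ∀ g : Fin N → HS (Fin N),
    ∑ j, ∑ l ∈ Finset.univ.erase j, qf (fun x => h (x j - x l)) (PP1 t l (g j))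
      ≤ C * (H / N) * ∑ j, cw t j (g j) := by
  obtain ⟨C, hC0, hC⟩ := cn_hk_le
  refine ⟨C, hC0, ?_⟩
  intro N t H R h hN ht ht1 hh hR hRt g
  have hH := Qb_H hh
  have ht2 : 0 < t / 2 := half_pos ht
  rw [Finset.mul_sum]
  refine Finset.sum_le_sum fun j _ => ?_
  refine XMa_one ht j (g j) hN (mul_nonneg hC0 hH) fun l hl => ?_
  have hjl : j ≠ l := (Finset.ne_of_mem_erase hl).symm
  have hb : BM (fun x : Fin N → T3 => h (x j - x l)) := bm_diff hh.bm j l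
  have hb0 : ∀ x : Fin N → T3, 0 ≤ h (x j - x l) := fun x => hh.nonneg _
  refine (jensen_PP1 ht l hb hb0 (g j)).trans ?_
  rw [← qf_smul]
  refine qf_mono (cvj_bm (hk_bm ht2) l hb) ((bm_diff (hk_bm ht) j l).const_mul _)
    (Eventually.of_forall fun x => ?_) (g j)
  show cvj (hk (t / 2)) l (fun x => h (x j - x l)) x ≤ C * H * hk t (x j - x l)
  rw [cvj_diff_right (fun z => hk_neg (t / 2) z) hjl]
  have h1 := hC (t / 2) H R h ht2 hh (by linarith only [hRt, ht]) hR (x j - x l)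
  rwa [show 2 * (t / 2) = t by ring] at h1

lemma XMa_sqrt {T t : ℝ} (ht : 0 < t) (hT : 0 < T) :
    Real.sqrt (2 * T / (T + t)) ^ 3 ≤ 3 := by
  have hTt : 0 < T + t := by linarith only [ht, hT]
  have h3 : 2 * T / (T + t) ≤ 2 := by
    rw [div_le_iff₀ hTt]
    linarith only [ht]
  have h4 : Real.sqrt (2 * T / (T + t)) ≤ Real.sqrt 2 := Real.sqrt_le_sqrt h3
  have h5 : Real.sqrt 2 ^ 3 ≤ 3 := by
    have h6 : Real.sqrt 2 ^ 2 = 2 := Real.sq_sqrt (by norm_num)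
    have h7 : Real.sqrt 2 ≤ 3 / 2 := by
      rw [Real.sqrt_le_left (by norm_num)]
      norm_num
    nlinarith only [h6, h7]
  exact (pow_le_pow_left₀ (Real.sqrt_nonneg _) h4 3).trans h5

theorem mB : ∃ C : ℝ, 0 ≤ C ∧ ∀ (N : ℕ) (t T H R : ℝ) (h : T3 → ℝ), 0 < N → 0 < t → 4 * t ≤ T →
    T ≤ 1 → SR H R h → 0 ≤ R → R ^ 2 ≤ t / 8 → ∀ G : Fin N → HS (Fin N),
    ∑ j, ∑ l ∈ Finset.univ.erase j, qf (fun x => h (x j - x l)) (PP1 t l (PP1 T j (G l)))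
      ≤ C * (H / N) * ∑ l, cw (2 * T) l (G l) := by
  obtain ⟨C, hC0, hC⟩ := cn_hk_le
  refine ⟨C * 3, by positivity, ?_⟩
  intro N t T H R h hN ht htT hT1 hh hR hRt G
  have hH := Qb_H hh
  have hCH : 0 ≤ C * H := mul_nonneg hC0 hH
  have ht2 : 0 < t / 2 := half_pos ht
  have hT : 0 < T := by linarith only [ht, htT]
  have hT2 : 0 < T / 2 := half_pos hT
  have h2T : 0 < 2 * T := by linarith only [hT]
  rw [XMa_swap, Finset.mul_sum]
  refine Finset.sum_le_sum fun l _ => ?_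
  refine XMa_one h2T l (G l) hN (mul_nonneg (by positivity) hH) fun j hj => ?_
  have hjl : j ≠ l := Finset.ne_of_mem_erase hj
  have hb : BM (fun x : Fin N → T3 => h (x j - x l)) := bm_diff hh.bm j l
  have hb0 : ∀ x : Fin N → T3, 0 ≤ h (x j - x l) := fun x => hh.nonneg _
  refine (jensen_PP1 ht l hb hb0 _).trans ?_
  refine (jensen_PP1 hT j (cvj_bm (hk_bm ht2) l hb)
    (cvj_nonneg (hk_nonneg (t / 2)) l hb0) (G l)).trans ?_
  rw [← qf_smul]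
  refine qf_mono (cvj_bm (hk_bm hT2) j (cvj_bm (hk_bm ht2) l hb))
    ((bm_diff (hk_bm h2T) l j).const_mul _) (Eventually.of_forall fun x => ?_) (G l)
  have e1 : cvj (hk (t / 2)) l (fun x : Fin N → T3 => h (x j - x l)) =
      fun x => cn (hk (t / 2)) h (x j - x l) := by
    funext x
    exact cvj_diff_right (fun z => hk_neg (t / 2) z) hjl x
  show cvj (hk (T / 2)) j (cvj (hk (t / 2)) l (fun x => h (x j - x l))) x
    ≤ C * 3 * H * hk (2 * T) (x l - x j)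
  rw [e1, cvj_diff_left hjl, cn_hk_hk hT2 ht2 hh.bm]
  have h1 := hC (T / 2 + t / 2) H R h (by linarith only [hT2, ht2]) hh
    (by linarith only [hRt, ht, hT]) hR (x j - x l)
  rw [show 2 * (T / 2 + t / 2) = T + t by ring] at h1
  have h2 := hk_le_hk (s := T + t) (r := 2 * T) (by linarith only [hT, ht])
    (by linarith only [htT, ht]) (x j - x l)
  have h3 := mul_le_mul_of_nonneg_right (XMa_sqrt ht hT) (hk_nonneg (2 * T) (x j - x l))
  have h4 := mul_le_mul_of_nonneg_left (h2.trans h3) hCH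
  have e2 : hk (2 * T) (x l - x j) = hk (2 * T) (x j - x l) := by
    rw [← hk_neg, neg_sub]
  rw [e2]
  refine h1.trans (h4.trans (le_of_eq ?_))
  ring

end Pool.Agent.Lib.MP_4952d6_mp.O

end

/-! ### O.E9 -/

section

/-!
# O.E9: the loss at `k = 0` (E9 of the notes)

`Db_eq`: `∑_j ∑_k φ (k_j) |c_k|² = ∑_p φ p nk ψ p` (`sum_mult`). `lossO`: pointwise, for `b ksq ≥ 1`: `PreC_pt` and
`1 - exp (-b ksq) ≥ 1/2`; for `b ksq < 1`: `1 - η² = 1 - exp (-t ksq) ≤ t ksq ≤ 2 (t/b) (1 - exp (-b ksq))`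
(`x/2 ≤ 1 - exp (-x)` on `[0,1]`). `Db_time`: `1 - exp (-c x) ≤ c (1 - exp (-x))` for `c ≥ 1` (Bernoulli / convexity).
-/

set_option autoImplicit false
set_option linter.unusedSectionVars false
set_option linter.unusedVariables false
open MeasureTheory Function Filter Topology Set ComplexConjugate

namespace Pool.Agent.Lib.MP_4952d6_mp.O

open LB

lemma E9_bdm {b : ℝ} (hb : 0 < b) : Bdm (fun p : Fin 3 → ℤ => 1 - Real.exp (-(b * ksq p))) := by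
  refine ⟨1, fun k => ?_⟩
  have h1 : Real.exp (-(b * ksq k)) ≤ 1 := by
    rw [Real.exp_le_one_iff]
    have := mul_nonneg hb.le (ksq_nonneg k)
    linarith
  have h2 := Real.exp_pos (-(b * ksq k))
  rw [abs_le]
  constructor <;> linarith

lemma E9_nonneg {b : ℝ} (hb : 0 < b) (p : Fin 3 → ℤ) : 0 ≤ 1 - Real.exp (-(b * ksq p)) := by
  have h1 : Real.exp (-(b * ksq p)) ≤ 1 := by
    rw [Real.exp_le_one_iff]
    have := mul_nonneg hb.le (ksq_nonneg p)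
    linarith
  linarith

lemma E9_le_one {b : ℝ} (p : Fin 3 → ℤ) : 1 - Real.exp (-(b * ksq p)) ≤ 1 := by
  have h2 := Real.exp_pos (-(b * ksq p))
  linarith

/-- `1 - exp (-y) ≥ y / 2` for `y ∈ [0, 1]` -/
lemma E9_small {y : ℝ} (h0 : 0 ≤ y) (h1 : y ≤ 1) : y / 2 ≤ 1 - Real.exp (-y) := by
  have h2 : Real.exp (-y) ≤ 1 - y + y ^ 2 / 2 := by
    have h3 := Real.quadratic_le_exp_of_nonneg h0
    have h4 : 0 < 1 + y + y ^ 2 / 2 := by positivity
    rw [Real.exp_neg]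
    have h5 : (Real.exp y)⁻¹ ≤ (1 + y + y ^ 2 / 2)⁻¹ := inv_anti₀ h4 h3
    refine h5.trans ?_
    rw [inv_le_iff_one_le_mul₀ h4]
    nlinarith [sq_nonneg (y ^ 2), sq_nonneg y]
  nlinarith

/-- pointwise estimate -/
lemma E9_pt {t e b G k : ℝ} (ht : 0 < t) (he : 0 < e) (hb : 0 < b) (hG : 0 ≤ G) (hk : 0 ≤ k) :
    G * (1 - Real.exp (-(t / 2 * k)) ^ 2)
      ≤ (2 * G ^ 2 * t / e + 2 * G * t / b) * (1 - Real.exp (-(b * k)))
        + e / t * (1 - Real.exp (-(t / 2 * k))) ^ 2 := by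
  have hη0 : 0 < Real.exp (-(t / 2 * k)) := Real.exp_pos _
  have hη1 : Real.exp (-(t / 2 * k)) ≤ 1 := by
    rw [Real.exp_le_one_iff]
    have := mul_nonneg (by positivity : 0 ≤ t / 2) hk
    linarith
  have hx : 0 ≤ e / t * (1 - Real.exp (-(t / 2 * k))) ^ 2 := by positivity
  have hbk : 0 ≤ b * k := mul_nonneg hb.le hk
  have c1 : 0 ≤ 2 * G ^ 2 * t / e := by positivity
  have c2 : 0 ≤ 2 * G * t / b := by positivity
  by_cases hc : 1 ≤ b * k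
  · have h1 := PreC_pt (G := G) ht he hη0 hη1 rfl
    have h2 : 1 / 2 ≤ 1 - Real.exp (-(b * k)) := by
      have h3 : Real.exp (-(b * k)) ≤ Real.exp (-1) := Real.exp_le_exp.2 (by linarith)
      have h4 := E9_small zero_le_one le_rfl
      linarith
    have h5 : G ^ 2 * t / e ≤ 2 * G ^ 2 * t / e * (1 - Real.exp (-(b * k))) := by
      have h6 := mul_le_mul_of_nonneg_left h2 c1
      calc G ^ 2 * t / e = 2 * G ^ 2 * t / e * (1 / 2) := by ring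
        _ ≤ _ := h6
    have h7 : 0 ≤ 2 * G * t / b * (1 - Real.exp (-(b * k))) := mul_nonneg c2 (by linarith)
    rw [add_mul]
    linarith
  · have hc' : b * k ≤ 1 := (not_le.1 hc).le
    have h1 := E9_small hbk hc'
    have h2 : 1 - Real.exp (-(t / 2 * k)) ^ 2 ≤ t * k := by
      rw [← Real.exp_nat_mul]
      have h3 := Real.add_one_le_exp (((2 : ℕ) : ℝ) * -(t / 2 * k))
      have h4 : ((2 : ℕ) : ℝ) * -(t / 2 * k) = -(t * k) := by
        push_cast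
        ring
      rw [h4] at h3 ⊢
      linarith
    have h5 : G * (1 - Real.exp (-(t / 2 * k)) ^ 2) ≤ 2 * G * t / b * (1 - Real.exp (-(b * k))) := by
      have h6 := mul_le_mul_of_nonneg_left h1 c2
      have h7 := mul_le_mul_of_nonneg_left h2 hG
      have h8 : 2 * G * t / b * (b * k / 2) = G * (t * k) := by
        field_simp
      linarith
    have h9 : 0 ≤ 2 * G ^ 2 * t / e * (1 - Real.exp (-(b * k))) :=
      mul_nonneg c1 (by linarith)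
    rw [add_mul]
    linarith

/-- `1 - exp (-c k) ≤ (c/b) (1 - exp (-b k))` -/
lemma E9_time {b c k : ℝ} (hb : 0 < b) (hbc : b ≤ c) (hk : 0 ≤ k) :
    1 - Real.exp (-(c * k)) ≤ c / b * (1 - Real.exp (-(b * k))) := by
  have h1 : 1 ≤ c / b := by
    rw [le_div_iff₀ hb]
    linarith
  have h2 : (-1 : ℝ) ≤ Real.exp (-(b * k)) - 1 := by
    have := Real.exp_pos (-(b * k))
    linarith
  have h3 := one_add_mul_self_le_rpow_one_add h2 h1
  have h4 : (1 + (Real.exp (-(b * k)) - 1)) ^ (c / b) = Real.exp (-(c * k)) := by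
    rw [add_sub_cancel, ← Real.exp_mul]
    congr 1
    field_simp
  rw [h4] at h3
  linarith

theorem Dm_eq {N : ℕ} (ψ : HS (Fin N)) {φ : (Fin 3 → ℤ) → ℝ} (hφ : Bdm φ) :
    Dm φ (ψ : (Fin N → T3) → ℂ) = ∑' p, φ p * nk ψ p := by
  obtain ⟨C, hC⟩ := hφ
  have hs : ∀ j : Fin N, Summable fun K : Fin N → Fin 3 → ℤ => φ (K j) * ‖cf ψ K‖ ^ 2 := by
    intro j
    refine Summable.of_norm_bounded ((hasSum_norm_sq ψ).summable.mul_left C) fun K => ?_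
    rw [Real.norm_eq_abs, abs_mul, abs_of_nonneg (sq_nonneg ‖cf ψ K‖)]
    exact mul_le_mul_of_nonneg_right (hC _) (sq_nonneg _)
  have h := hasSum_sum (s := Finset.univ) fun j (_ : j ∈ Finset.univ) => RkC_fib ψ j (hs j)
  have e : (fun a => ∑ j, φ a * ‖mu j a a ψ‖ ^ 2) = fun a => φ a * nk ψ a := by
    funext a
    unfold nk
    rw [Finset.mul_sum]
  rw [e] at h
  exact h.tsum_eq.symm

theorem lossO {N : ℕ} {t e b G : ℝ} (ht : 0 < t) (he : 0 < e) (hb : 0 < b) (hG : 0 ≤ G)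
    (ψ : HS (Fin N)) :
    G * (∑' a, (1 - et t a ^ 2) * nk ψ a)
      ≤ (2 * G ^ 2 * t / e + 2 * G * t / b) * Db b (ψ : (Fin N → T3) → ℂ)
        + e / t * ∑ j, ‖QQ1 t j ψ‖ ^ 2 := by
  have hη0 : ∀ a, 0 < et t a := et_pos t
  have hη1 : ∀ a, et t a ≤ 1 := et_le_one ht.le
  have s1 : Summable fun a => (1 - et t a ^ 2) * nk ψ a :=
    PreC_summable ψ (fun a => by have := hη0 a; have := hη1 a; nlinarith)
      (fun a => by have := sq_nonneg (et t a); linarith)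
  have s2 : Summable fun a => (1 - et t a) ^ 2 * nk ψ a :=
    PreC_summable ψ (fun a => sq_nonneg _)
      (fun a => pow_le_one₀ (by linarith [hη1 a]) (by linarith [hη0 a]))
  have s3 : Summable fun a => (1 - Real.exp (-(b * ksq a))) * nk ψ a :=
    PreC_summable ψ (E9_nonneg hb) E9_le_one
  have hD : Db b (ψ : (Fin N → T3) → ℂ) = ∑' a, (1 - Real.exp (-(b * ksq a))) * nk ψ a :=
    Dm_eq ψ (E9_bdm hb)
  rw [hD, sum_QQ1 ht.le, ← tsum_mul_left, ← tsum_mul_left, ← tsum_mul_left,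
    ← (s3.mul_left _).tsum_add (s2.mul_left _)]
  refine (s1.mul_left G).tsum_le_tsum (fun a => ?_) ((s3.mul_left _).add (s2.mul_left _))
  have h1 := E9_pt (G := G) ht he hb hG (ksq_nonneg a)
  have h2 := mul_le_mul_of_nonneg_right h1 (nk_nonneg ψ a)
  calc G * ((1 - et t a ^ 2) * nk ψ a)
      = G * (1 - Real.exp (-(t / 2 * ksq a)) ^ 2) * nk ψ a := by unfold et; ring
    _ ≤ _ := h2
    _ = _ := by unfold et; ring

theorem Db_time {N : ℕ} {b c : ℝ} (hb : 0 < b) (hbc : b ≤ c) (ψ : HS (Fin N)) :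
    Db c (ψ : (Fin N → T3) → ℂ) ≤ c / b * Db b ψ := by
  have hc : 0 < c := lt_of_lt_of_le hb hbc
  have hD : ∀ b : ℝ, 0 < b → Db b (ψ : (Fin N → T3) → ℂ)
      = ∑' a, (1 - Real.exp (-(b * ksq a))) * nk ψ a := fun b hb => Dm_eq ψ (E9_bdm hb)
  have s3 : ∀ b : ℝ, 0 < b → Summable fun a => (1 - Real.exp (-(b * ksq a))) * nk ψ a :=
    fun b hb => PreC_summable ψ (E9_nonneg hb) E9_le_one
  rw [hD b hb, hD c hc, ← tsum_mul_left]
  refine (s3 c hc).tsum_le_tsum (fun a => ?_) ((s3 b hb).mul_left _)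
  have h2 := mul_le_mul_of_nonneg_right (E9_time hb hbc (ksq_nonneg a)) (nk_nonneg ψ a)
  rwa [mul_assoc] at h2

end Pool.Agent.Lib.MP_4952d6_mp.O

end

/-! ### O.FBase -/

section

/-!
# Thermodynamic limit above an infrared cutoff: definitions of the stream OF

Unit torus, `N` particles, scattering length `a`, `N a³ = u ^ 320`, `Y = u ^ 160`, `l = a / Y`.
-/

set_option autoImplicit false
set_option linter.unusedSectionVars false
set_option linter.unusedVariables false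
open MeasureTheory Function Filter Topology Set
open scoped ENNReal

namespace Pool.Agent.Lib.MP_4952d6_mp.O

open LB

/-- The perturbed symbol, `r = l |k|`. -/
noncomputable def Eb (b lam r : ℝ) : ℝ := r ^ 2 + lam * (1 - Real.exp (-(b * r ^ 2)))

/-- The integrand of the perturbed energy functional. -/
noncomputable def jIntb (b lam r : ℝ) : ℝ :=
  Real.sqrt (Eb b lam r ^ 2 + 16 * Real.pi * Eb b lam r) - Eb b lam r - 8 * Real.pi
    + 32 * Real.pi ^ 2 / r ^ 2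

/-- `J_b(lam) = (1/2) (2π)⁻³ ∫_{ℝ³} jIntb b lam |x| dx`. -/
noncomputable def Jb (b lam : ℝ) : ℝ :=
  1 / (4 * Real.pi ^ 2) * ∫ r in Ioi (0:ℝ), r ^ 2 * jIntb b lam r

lemma JO_eq (b lam : ℝ) : JO b lam = Jb b lam := by
  unfold JO Jb jIntb epsf eO Eb
  congr 2
  funext r
  congr 5
  ring

/-- `F_b = J_b'(0)`. -/
noncomputable def Fb (b : ℝ) : ℝ :=
  1 / (4 * Real.pi ^ 2) * ∫ r in Ioi (0:ℝ), (1 - Real.exp (-(b * r ^ 2))) * (r ^ 2 * Jgd (r ^ 2))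

/-- The limiting (rescaled) number of particles with rescaled momentum at least `d`. -/
noncomputable def FF (d : ℝ) : ℝ :=
  (d ^ 3 + (8 * Real.pi - d ^ 2) * Real.sqrt (d ^ 2 + 16 * Real.pi)) / (12 * Real.pi ^ 2)

/-- Weight of the momenta `l |k| ≥ d`. -/
noncomputable def ind (d l : ℝ) (p : Fin 3 → ℤ) : ℝ := if d ^ 2 ≤ l ^ 2 * ksq p then 1 else 0

/-- A minimiser on the torus with its moment bounds; the potential is `2 W` up to the charge `c a Y`. -/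
structure RegO {N : ℕ} (θ CM c u : ℝ) (W f Q : ℝ → ℝ) (R₀ R a : ℝ) (𝒱 : T3 → ℝ≥0∞)
    (ψ : (Fin N → T3) → ℂ) : Prop where
  sc : Scat W R₀ R a f Q
  Na : (N : ℝ) * a ^ 3 = u ^ 320
  Rle : R ≤ θ * a
  V_meas : AEMeasurable 𝒱 lam3
  V_top : ∫⁻ y, 𝒱 y ∂lam3 ≠ ⊤
  V_ge : ∀ᵐ y ∂lam3, ENNReal.ofReal (2 * W (rr y)) ≤ 𝒱 y
  V_int : ∫⁻ y, 𝒱 y ∂lam3 - ∫⁻ y, ENNReal.ofReal (2 * W (rr y)) ∂lam3
    ≤ ENNReal.ofReal (c * (a * u ^ 160))
  adm : tAdm R₀ 𝒱 ψ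
  min : ∀ φ : (Fin N → T3) → ℂ, tAdm R₀ 𝒱 φ → tE 𝒱 ψ ≤ tE 𝒱 φ
  loc : LocO CM u ((a / u ^ 152) ^ 2) ((a / u ^ 160) ^ 2 / u ^ 3) ((a / u ^ 160) ^ 2) ψ

/-- **Griffiths**: the regularised numbers of particles. -/
def OGStatement : Prop :=
  ∀ θ CM b ε : ℝ, 1 ≤ b → 0 < ε → ∃ c u₀ : ℝ, 0 < c ∧ 0 < u₀ ∧ ∀ u : ℝ, 0 < u → u < u₀ →
    ∃ a₀ : ℝ, 0 < a₀ ∧ ∀ (N : ℕ) (W f Q : ℝ → ℝ) (R₀ R a : ℝ) (𝒱 : T3 → ℝ≥0∞)
      (ψ : (Fin N → T3) → ℂ), a < a₀ → RegO θ CM c u W f Q R₀ R a 𝒱 ψ →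
      |Db (b * (a / u ^ 160) ^ 2) ψ / (N * u ^ 160) - Fb b| ≤ ε

/-- **Torus form of the main theorem**, uniform in the threshold `d ≥ d₀`. -/
def OTStatement : Prop :=
  ∀ θ CM d₀ ε : ℝ, 0 < d₀ → 0 < ε → ∃ c u₀ : ℝ, 0 < c ∧ 0 < u₀ ∧ ∀ u : ℝ, 0 < u → u < u₀ →
    ∃ a₀ : ℝ, 0 < a₀ ∧ ∀ (N : ℕ) (W f Q : ℝ → ℝ) (R₀ R a : ℝ) (𝒱 : T3 → ℝ≥0∞)
      (ψ : (Fin N → T3) → ℂ), a < a₀ → RegO θ CM c u W f Q R₀ R a 𝒱 ψ →
      ∀ d : ℝ, d₀ ≤ d → |Dm (ind d (a / u ^ 160)) ψ / (N * u ^ 160) - FF d| ≤ ε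

/-- Fraction of the particles with momentum at least `κ` (in units with `ℏ = 1`, momenta `2πn/L`). -/
noncomputable def momFraction (N : ℕ) (L κ : ℝ) (ψ : (Fin N → Fin 3 → ℝ) → ℂ) : ℝ :=
  (1 / (N : ℝ)) * ∑ i : Fin N, ∑' k : Fin N → Fin 3 → ℤ,
    (if κ ^ 2 ≤ (2 * Real.pi / L) ^ 2 * ∑ α, (k i α : ℝ) ^ 2 then ‖fourierC N L ψ k‖ ^ 2 else 0)

/-- **Main theorem** (physical form). -/
def OTDStatement : Prop :=
  ∀ (m R₀ R : ℝ) (v : (Fin 3 → ℝ) → ℝ), 0 < m → 0 ≤ R₀ → R₀ < R → Integrable v →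
    (∀ x, 0 ≤ v x) → (∀ x y : Fin 3 → ℝ, ∑ α, x α ^ 2 = ∑ α, y α ^ 2 → v x = v y) →
    (∀ x : Fin 3 → ℝ, R ^ 2 ≤ ∑ α, x α ^ 2 → v x = 0) → (0 < R₀ ∨ 0 < ∫ x, v x) →
    ∀ d₀ ε : ℝ, 0 < d₀ → 0 < ε → ∃ ρ₁ : ℝ, 0 < ρ₁ ∧ ∀ ρ : ℝ, 0 < ρ → ρ < ρ₁ →
      ∃ N₁ : ℕ, ∀ N : ℕ, N₁ ≤ N → ∀ ψ : (Fin N → Fin 3 → ℝ) → ℂ,
        Admissible m R₀ v N (side ρ N) ψ →
        (∀ φ : (Fin N → Fin 3 → ℝ) → ℂ, Admissible m R₀ v N (side ρ N) φ →
          energy m v N (side ρ N) ψ ≤ energy m v N (side ρ N) φ) →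
        ∀ d : ℝ, d₀ ≤ d → |momFraction N (side ρ N) (d * Real.sqrt (ρ * scatLen m R₀ v)) ψ
          - FF d * Real.sqrt (ρ * scatLen m R₀ v ^ 3)| ≤ ε * Real.sqrt (ρ * scatLen m R₀ v ^ 3)

end Pool.Agent.Lib.MP_4952d6_mp.O

end

/-! ### O.WC3 -/

section

/-! # O.WC3: the norm of `RR t θ 0`

`RR t θ 0 F = Σ_j P_j θ_j P_j F` (`ch 0 = 1`), `P_j = PP1 t j`, `θ_j = MB (θ (x j))`.  Expand `‖RR t θ 0 F‖² = Re Σ_{j,l} ⟪P_j θ_j P_j F, P_l θ_l P_l F⟫`.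
`j = l`: `‖P_j θ_j P_j F‖² ≤ ‖θ_j P_j F‖² = qf (θ²(x j)) (P_j F) ≤ S qf (θ (x j)) (P_j F) ≤ S qf (Pr t θ (x j)) F`
(`Qb_norm_PP1_le`; `jensen_PP1`, and `cvj (hk (t/2)) j (fun x => θ (x j)) x = Pr t θ (x j)` by definition, `update_self`).
`j ≠ l`: `P_l` commutes with `θ_j` and with `P_j` (`S1_MB_comm`, `S1_comm`), so the term is
`⟪θ_j (P_l P_j F), θ_l (P_j P_l F)⟫ = qf (θ (x j) θ (x l)) (P_j P_l F)` (`MB_adj`, `MB_MB`, `OpC_inner`/`qf_eq`), and `jensen_PP1` twice gives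
`≤ qf (Pr t θ (x j) Pr t θ (x l)) F` (`cvj` of a product in which one factor does not depend on `x_j`, `update_of_ne`; `P_j P_l F = P_l P_j F`).
Sum: `Σ_{j≠l} Pr t θ (x j) Pr t θ (x l) ≤ (Σ_j Pr t θ (x j))²` because `Pr t θ ≥ 0`. -/

set_option autoImplicit false
set_option linter.unusedSectionVars false
set_option linter.unusedVariables false
open MeasureTheory Function Filter Topology Set ComplexConjugate

namespace Pool.Agent.Lib.MP_4952d6_mp.O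

open LB

variable {ι : Type*} [Fintype ι] [DecidableEq ι]

private lemma WC3_norm_MB {G : (ι → T3) → ℝ} (hG : BM G) (f : HS ι) :
    ‖MB (fun x => ((G x : ℝ) : ℂ)) f‖ ^ 2 = qf (fun x => G x * G x) f := by
  have h1 : (inner ℂ (MB (fun x => ((G x : ℝ) : ℂ)) f) (MB (fun x => ((G x : ℝ) : ℂ)) f)).re
      = ‖MB (fun x => ((G x : ℝ) : ℂ)) f‖ ^ 2 := by
    have := inner_self_eq_norm_sq (𝕜 := ℂ) (MB (fun x => ((G x : ℝ) : ℂ)) f)
    exact this
  rw [← h1, MB_symm hG, MB_MB (bmc_of_bm hG) (bmc_of_bm hG), qf_eq (hG.mul hG)]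
  congr 3
  congr 1
  funext x
  push_cast
  rfl

private lemma WC3_rho {t : ℝ} (θ : T3 → ℝ) (j : ι) (F : HS ι) :
    rho t θ 0 j F = PP1 t j (MB (fun x => ((θ (x j) : ℝ) : ℂ)) (PP1 t j F)) := by
  have e : (fun x : ι → T3 => ch (-0) (x j) * (θ (x j) : ℂ)) = fun x => ((θ (x j) : ℝ) : ℂ) := by
    funext x
    rw [neg_zero, ch_zero, one_mul]
  unfold rho
  rw [e]
  rfl

private lemma WC3_diag {t : ℝ} (ht : 0 < t) {θ : T3 → ℝ} {c S : ℝ} (hW : Win θ c S) (j : ι)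
    (F : HS ι) :
    ‖PP1 t j (MB (fun x => ((θ (x j) : ℝ) : ℂ)) (PP1 t j F))‖ ^ 2
      ≤ S * qf (fun x => Pr t θ (x j)) F := by
  have hb : BM (fun x : ι → T3 => θ (x j)) := hW.bm.comp (measurable_pi_apply j)
  have hS : 0 ≤ S := (hW.nn 0).trans (hW.le 0)
  have h1 := Qb_norm_PP1_le ht j (MB (fun x => ((θ (x j) : ℝ) : ℂ)) (PP1 t j F))
  have h2 := pow_le_pow_left₀ (norm_nonneg _) h1 2
  refine h2.trans ?_
  rw [WC3_norm_MB hb]
  have h3 : qf (fun x => θ (x j) * θ (x j)) (PP1 t j F) ≤ qf (fun x => S * θ (x j)) (PP1 t j F) := by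
    refine qf_mono (hb.mul hb) (hb.const_mul S) (Eventually.of_forall fun x => ?_) _
    exact mul_le_mul_of_nonneg_right (hW.le _) (hW.nn _)
  rw [qf_smul] at h3
  refine h3.trans (mul_le_mul_of_nonneg_left ?_ hS)
  have h4 := jensen_PP1 ht j hb (fun x => hW.nn _) F
  have h5 : cvj (hk (t / 2)) j (fun x : ι → T3 => θ (x j)) = fun x => Pr t θ (x j) := by
    funext x
    unfold cvj Pr cn
    simp only [update_self]
  rw [h5] at h4
  exact h4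

private lemma WC3_off {t : ℝ} (ht : 0 < t) {θ : T3 → ℝ} {c S : ℝ} (hW : Win θ c S) {j l : ι}
    (hjl : j ≠ l) (F : HS ι) :
    (inner ℂ (PP1 t j (MB (fun x => ((θ (x j) : ℝ) : ℂ)) (PP1 t j F)))
        (PP1 t l (MB (fun x => ((θ (x l) : ℝ) : ℂ)) (PP1 t l F)))).re
      ≤ qf (fun x => Pr t θ (x j) * Pr t θ (x l)) F := by
  have hbj : BM (fun x : ι → T3 => θ (x j)) := hW.bm.comp (measurable_pi_apply j)
  have hbl : BM (fun x : ι → T3 => θ (x l)) := hW.bm.comp (measurable_pi_apply l)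
  have he := bdm_et ht.le
  have hc : BC fun y : T3 => ((θ y : ℝ) : ℂ) := bc_of_bm hW.bm
  have ht2 : 0 < t / 2 := by linarith
  have e1 : inner ℂ (PP1 t j (MB (fun x => ((θ (x j) : ℝ) : ℂ)) (PP1 t j F)))
        (PP1 t l (MB (fun x => ((θ (x l) : ℝ) : ℂ)) (PP1 t l F)))
      = inner ℂ (PP1 t l (MB (fun x => ((θ (x j) : ℝ) : ℂ)) (PP1 t j F)))
        (PP1 t j (MB (fun x => ((θ (x l) : ℝ) : ℂ)) (PP1 t l F))) := by
    unfold PP1
    rw [S1_symm he, S1_symm he, S1_comm he he]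
  have e2 : PP1 t l (MB (fun x => ((θ (x j) : ℝ) : ℂ)) (PP1 t j F))
      = MB (fun x => ((θ (x j) : ℝ) : ℂ)) (PP1 t l (PP1 t j F)) := by
    unfold PP1
    exact S1_MB_comm he hc hjl.symm (S1 (et t) j F)
  have e3 : PP1 t j (MB (fun x => ((θ (x l) : ℝ) : ℂ)) (PP1 t l F))
      = MB (fun x => ((θ (x l) : ℝ) : ℂ)) (PP1 t l (PP1 t j F)) := by
    have h1 : PP1 t l (PP1 t j F) = PP1 t j (PP1 t l F) := by
      unfold PP1
      exact S1_comm he he l j F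
    rw [h1]
    unfold PP1
    exact S1_MB_comm he hc hjl (S1 (et t) l F)
  rw [e1, e2, e3, MB_symm hbj, MB_MB (bmc_of_bm hbj) (bmc_of_bm hbl)]
  have e4 : (fun x : ι → T3 => ((θ (x j) : ℝ) : ℂ) * ((θ (x l) : ℝ) : ℂ))
      = fun x => ((θ (x j) * θ (x l) : ℝ) : ℂ) := by
    funext x
    push_cast
    rfl
  have hb2 : BM (fun x : ι → T3 => θ (x j) * θ (x l)) := hbj.mul hbl
  rw [e4, ← qf_eq hb2]
  have hb20 : ∀ x : ι → T3, 0 ≤ θ (x j) * θ (x l) := fun x => mul_nonneg (hW.nn _) (hW.nn _)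
  have h1 := jensen_PP1 ht l hb2 hb20 (PP1 t j F)
  have h2 := jensen_PP1 ht j (cvj_bm (hk_bm ht2) l hb2)
    (cvj_nonneg (hk_nonneg (t / 2)) l hb20) F
  have h3 : cvj (hk (t / 2)) l (fun x : ι → T3 => θ (x j) * θ (x l))
      = fun x => θ (x j) * Pr t θ (x l) := by
    funext x
    unfold cvj Pr cn
    rw [← integral_const_mul]
    congr 1
    funext y
    show hk (t / 2) (x l - y) * (θ (update x l y j) * θ (update x l y l))
      = θ (x j) * (hk (t / 2) (x l - y) * θ y)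
    rw [update_self, update_of_ne hjl]
    ring
  have h4 : cvj (hk (t / 2)) j (fun x : ι → T3 => θ (x j) * Pr t θ (x l))
      = fun x => Pr t θ (x j) * Pr t θ (x l) := by
    funext x
    unfold cvj
    have h5 : Pr t θ (x j) = ∫ y, hk (t / 2) (x j - y) * θ y ∂lam3 := rfl
    rw [h5, ← integral_mul_const]
    congr 1
    funext y
    show hk (t / 2) (x j - y) * (θ (update x j y j) * Pr t θ (update x j y l))
      = hk (t / 2) (x j - y) * θ y * Pr t θ (x l)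
    rw [update_self, update_of_ne hjl.symm]
    ring
  rw [h3, h4] at h2
  rw [h3] at h1
  exact h1.trans h2


theorem norm_RR0_le {t : ℝ} (ht : 0 < t) {θ : T3 → ℝ} {c S : ℝ} (hW : Win θ c S) (F : HS ι) :
    ‖RR t θ 0 F‖ ^ 2 ≤ qf (fun x => (∑ j, Pr t θ (x j)) ^ 2) F
      + S * qf (fun x => ∑ j, Pr t θ (x j)) F := by
  have hS : 0 ≤ S := (hW.nn 0).trans (hW.le 0)
  have hP : BM (Pr t θ) := Pr_bm ht hW.bm
  have hP0 : ∀ x, 0 ≤ Pr t θ x := fun x => Pr_nonneg hW.nn x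
  have hPj : ∀ j : ι, BM (fun x : ι → T3 => Pr t θ (x j)) := fun j =>
    hP.comp (measurable_pi_apply j)
  have hR : RR t θ 0 F
      = ∑ j, PP1 t j (MB (fun x => ((θ (x j) : ℝ) : ℂ)) (PP1 t j F)) := by
    unfold RR
    exact Finset.sum_congr rfl fun j _ => WC3_rho θ j F
  have h1 : ‖RR t θ 0 F‖ ^ 2 = ∑ j, ∑ l,
      (inner ℂ (PP1 t j (MB (fun x => ((θ (x j) : ℝ) : ℂ)) (PP1 t j F)))
        (PP1 t l (MB (fun x => ((θ (x l) : ℝ) : ℂ)) (PP1 t l F)))).re := by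
    have h2 : (inner ℂ (RR t θ 0 F) (RR t θ 0 F)).re = ‖RR t θ 0 F‖ ^ 2 :=
      inner_self_eq_norm_sq (𝕜 := ℂ) (RR t θ 0 F)
    rw [← h2, hR, sum_inner, Complex.re_sum]
    refine Finset.sum_congr rfl fun j _ => ?_
    rw [inner_sum, Complex.re_sum]
  rw [h1]
  have h3 : ∀ j l : ι,
      (inner ℂ (PP1 t j (MB (fun x => ((θ (x j) : ℝ) : ℂ)) (PP1 t j F)))
        (PP1 t l (MB (fun x => ((θ (x l) : ℝ) : ℂ)) (PP1 t l F)))).re
      ≤ qf (fun x => Pr t θ (x j) * Pr t θ (x l)) F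
        + if j = l then S * qf (fun x => Pr t θ (x j)) F else 0 := by
    intro j l
    by_cases hjl : j = l
    · subst hjl
      rw [if_pos rfl]
      have h4 : (inner ℂ (PP1 t j (MB (fun x => ((θ (x j) : ℝ) : ℂ)) (PP1 t j F)))
          (PP1 t j (MB (fun x => ((θ (x j) : ℝ) : ℂ)) (PP1 t j F)))).re
          = ‖PP1 t j (MB (fun x => ((θ (x j) : ℝ) : ℂ)) (PP1 t j F))‖ ^ 2 :=
        inner_self_eq_norm_sq (𝕜 := ℂ) _
      rw [h4]
      have h5 := WC3_diag ht hW j F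
      have h6 : 0 ≤ qf (fun x => Pr t θ (x j) * Pr t θ (x j)) F :=
        qf_nonneg (fun x => mul_nonneg (hP0 _) (hP0 _)) F
      linarith
    · rw [if_neg hjl, add_zero]
      exact WC3_off ht hW hjl F
  refine (Finset.sum_le_sum fun j _ => Finset.sum_le_sum fun l _ => h3 j l).trans (le_of_eq ?_)
  simp only [Finset.sum_add_distrib, Finset.sum_ite_eq, Finset.mem_univ, if_true]
  congr 1
  · have h7 : (fun x : ι → T3 => (∑ j, Pr t θ (x j)) ^ 2)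
        = fun x => ∑ j, ∑ l, Pr t θ (x j) * Pr t θ (x l) := by
      funext x
      rw [sq, Finset.sum_mul_sum]
    rw [h7, qf_sum _ (fun j _ => BM.finset_sum _ fun l _ => (hPj j).mul (hPj l))]
    refine Finset.sum_congr rfl fun j _ => ?_
    rw [qf_sum _ (fun l _ => (hPj j).mul (hPj l))]
  · rw [qf_sum _ (fun j _ => hPj j), Finset.mul_sum]

end Pool.Agent.Lib.MP_4952d6_mp.O

end

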