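import Pool.Agent.Lib.MP_4952d6_mp.Pk.G42
import Pool.Agent.Lib.MP_4952d6_mp.Pk.G43
import Pool.Agent.Lib.MP_4952d6_mp.Pk.G45
import Pool.Agent.Lib.MP_4952d6_mp.Pk.G58
import Pool.Agent.Lib.MP_4952d6_mp.Po.N01
import Pool.Agent.Lib.MP_4952d6_mp.Po.N05

/-! Merged modules (to save import time): O.E3b, O.MA, O.MB1, O.MB2, O.WB2. -/

/-! ### O.E3b -/

section

/-!
# O.E3b: an l2 multiplier on the contact term

* `kap_sq_diag`: `kap (2t)² = ∫_0^{2t} min(u, 2t-u) exp(-u ksq) du`, or: for `φ` bounded with `∑ φ² < ∞`,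
  `‖S1 φ j (HP h j l f)‖² ≤ (∑' φ²) H qf h f` (for fixed other variables the Fourier coefficients in `x_j` of
  `g = h(·-x_l) f` satisfy `|ĝ(p)|² ≤ H ∫ h |f|²`; from `norm_S1_HP_le` for finitely supported `φ` by monotone
  convergence of `∑_k φ(k_j)² |cf|²`), and `∑' kap (2t) p ^ 2 ≤ C √t` (compare `SumStatement`, LB.ChgS).
-/

set_option autoImplicit false
set_option linter.unusedSectionVars false
set_option linter.unusedVariables false
open MeasureTheory Function Filter Topology Set ComplexConjugate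

namespace Pool.Agent.Lib.MP_4952d6_mp.O

open LB

lemma E3b_kap_sq {t : ℝ} {p : Fin 3 → ℤ} (hp : p ≠ 0) : kap (2 * t) p ^ 2 = bet t p := by
  have h1 : et (2 * t) p = et t p ^ 2 := by
    unfold et
    rw [← Real.exp_nat_mul]
    congr 1
    push_cast
    ring
  simp only [kap, bet, if_neg hp, h1]

lemma E3b_sum : ∃ C : ℝ, 0 ≤ C ∧ ∀ (t : ℝ) (S : Finset (Fin 3 → ℤ)), 0 < t → t ≤ 1 →
    ∑ p ∈ S, kap (2 * t) p ^ 2 ≤ C * Real.sqrt t := by
  obtain ⟨C, hC0, hC⟩ := sum_bet_le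
  refine ⟨1 + C, by linarith, fun t S ht ht1 => ?_⟩
  have h1 : ∀ p : Fin 3 → ℤ, kap (2 * t) p ^ 2 ≤ (if p = 0 then t ^ 2 else 0) + bet t p := by
    intro p
    by_cases hp : p = 0
    · subst hp
      have h2 : kap (2 * t) 0 = t := by
        simp [kap]
      rw [if_pos rfl, h2]
      have := bet_nonneg t (0 : Fin 3 → ℤ)
      linarith
    · rw [if_neg hp, zero_add, E3b_kap_sq hp]
  refine (Finset.sum_le_sum fun p _ => h1 p).trans ?_
  rw [Finset.sum_add_distrib, Finset.sum_ite_eq']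
  have h3 := hC t S ht ht1
  have h4 : (if (0 : Fin 3 → ℤ) ∈ S then t ^ 2 else 0) ≤ t ^ 2 := by
    split_ifs
    · exact le_rfl
    · positivity
  have h5 : t ^ 2 ≤ Real.sqrt t := by
    have h6 : t ≤ Real.sqrt t := by
      apply Real.le_sqrt_of_sq_le
      nlinarith
    nlinarith
  linarith

/-- the regularised kernel -/
noncomputable def E3b_w (t e : ℝ) (z : T3) : ℝ := ∫ u in (0:ℝ)..t, cn (hk u) (hk e) z

lemma E3b_w_bm {t e : ℝ} (ht : 0 < t) (he : 0 < e) : BM (E3b_w t e) :=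
  KT_int_bm le_rfl ht.le (hk_bm he)

lemma E3b_w_nonneg {t e : ℝ} (ht : 0 < t) (z : T3) : 0 ≤ E3b_w t e z :=
  intervalIntegral.integral_nonneg ht.le fun u _ => cn_nonneg (hk_nonneg u) (hk_nonneg e) z

lemma E3b_w_fc {t e : ℝ} (ht : 0 < t) (he : 0 < e) (p : Fin 3 → ℤ) :
    fc3 (fun y => (E3b_w t e y : ℂ)) p
      = ((kap (2 * t) p * Real.exp (-(e * ksq p)) : ℝ) : ℂ) := by
  have h1 := KT_fc3_int (a := 0) (b := t) le_rfl ht.le (hk_bm he) p
  have h2 := kap_eq_integral (2 * t) p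
  rw [mul_div_cancel_left₀ t (two_ne_zero' ℝ)] at h2
  rw [fc3_hk he p, ← h2, ← Complex.ofReal_mul] at h1
  exact h1

lemma E3b_w_sq : ∃ C : ℝ, 0 ≤ C ∧ ∀ t e : ℝ, 0 < t → t ≤ 1 → 0 < e →
    ∫ y, E3b_w t e y ^ 2 ∂lam3 ≤ C * Real.sqrt t := by
  obtain ⟨C, hC0, hC⟩ := E3b_sum
  refine ⟨C, hC0, fun t e ht ht1 he => ?_⟩
  have hb := E3b_w_bm ht he
  have hmem : MemLp (fun y => (E3b_w t e y : ℂ)) 2 lam3 := by
    obtain ⟨D, hD0, hD⟩ := hb.exists_nonneg_bound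
    refine MemLp.of_bound (Complex.measurable_ofReal.comp hb.1).aestronglyMeasurable D
      (Filter.Eventually.of_forall fun y => ?_)
    rw [Complex.norm_real, Real.norm_eq_abs]
    exact hD y
  have hs := parseval3_sq hmem
  have h1 : ∫ y, ‖(E3b_w t e y : ℂ)‖ ^ 2 ∂lam3 = ∫ y, E3b_w t e y ^ 2 ∂lam3 := by
    refine integral_congr_ae (Eventually.of_forall fun y => ?_)
    simp only
    rw [Complex.norm_real, Real.norm_eq_abs, sq_abs]
  rw [h1] at hs
  refine hasSum_le_of_sum_le hs fun S => (Finset.sum_le_sum fun p _ => ?_).trans (hC t S ht ht1)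
  rw [E3b_w_fc ht he, Complex.norm_real, Real.norm_eq_abs, sq_abs, mul_pow]
  have h2 : Real.exp (-(e * ksq p)) ≤ 1 := by
    rw [Real.exp_le_one_iff]
    have := mul_nonneg he.le (ksq_nonneg p)
    linarith
  have h3 : Real.exp (-(e * ksq p)) ^ 2 ≤ 1 := pow_le_one₀ (Real.exp_pos _).le h2
  exact mul_le_of_le_one_right (sq_nonneg _) h3

theorem kap_sq_diag : ∃ C : ℝ, 0 ≤ C ∧ ∀ (N : ℕ) (t H R : ℝ) (h : T3 → ℝ) (j l : Fin N), 0 < t →
    t ≤ 1 → SR H R h → j ≠ l → ∀ f : HS (Fin N),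
    (inner ℂ (HP h j l f) (S1 (fun p => kap (2 * t) p ^ 2) j (HP h j l f))).re
      ≤ C * H * Real.sqrt t * qf (fun x => h (x j - x l)) f := by
  obtain ⟨C, hC0, hC⟩ := E3b_w_sq
  refine ⟨C, hC0, fun N t H R h j l ht ht1 hh hjl f => ?_⟩
  have ht2 : (0 : ℝ) ≤ 2 * t := by linarith
  have hH : 0 ≤ H := by
    rw [← hh.int]
    exact integral_nonneg hh.nonneg
  have hqf : 0 ≤ qf (fun x => h (x j - x l)) f := by
    unfold qf
    exact integral_nonneg fun x => mul_nonneg (hh.nonneg _) (sq_nonneg _)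
  have hb2 : Bdm (fun p => kap (2 * t) p ^ 2) := by
    have h1 := (bdm_kap ht2).mul (bdm_kap ht2)
    have h2 : (fun p => kap (2 * t) p * kap (2 * t) p) = fun p => kap (2 * t) p ^ 2 := by
      funext p
      ring
    rwa [h2] at h1
  set g : HS (Fin N) := HP h j l f with hg
  -- the regularised bound
  have hreg : ∀ e : ℝ, 0 < e → ∀ K : Finset (Fin N → Fin 3 → ℤ),
      ∑ k ∈ K, (kap (2 * t) (k j) * Real.exp (-(e * ksq (k j)))) ^ 2 * ‖cf g k‖ ^ 2
        ≤ C * H * Real.sqrt t * qf (fun x => h (x j - x l)) f := by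
    intro e he K
    have hbe : Bdm (fun p => kap (2 * t) p * Real.exp (-(e * ksq p))) :=
      (bdm_kap ht2).mul (bdm_exp he.le)
    have h1 := norm_S1_HP_le (E3b_w_bm ht he) (E3b_w_nonneg ht) hbe (fun p => E3b_w_fc ht he p)
      hh.bm hh.nonneg hjl.symm f
    rw [HP_swap hh.even l j, ← hg, hh.int] at h1
    have h2 : qf (fun x => h (x l - x j)) f = qf (fun x => h (x j - x l)) f := by
      unfold qf
      refine integral_congr_ae (Eventually.of_forall fun x => ?_)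
      simp only
      rw [← hh.even (x l - x j), neg_sub]
    rw [h2] at h1
    have h3 := hasSum_norm_sq (S1 (fun p => kap (2 * t) p * Real.exp (-(e * ksq p))) j g)
    have h4 : (fun k => ‖cf (S1 (fun p => kap (2 * t) p * Real.exp (-(e * ksq p))) j g) k‖ ^ 2)
        = fun k : Fin N → Fin 3 → ℤ =>
          (kap (2 * t) (k j) * Real.exp (-(e * ksq (k j)))) ^ 2 * ‖cf g k‖ ^ 2 := by
      funext k
      rw [cf_S1 hbe, norm_mul, Complex.norm_real, Real.norm_eq_abs, mul_pow, sq_abs]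
    rw [h4] at h3
    have h5 := sum_le_hasSum K (fun k _ => mul_nonneg (sq_nonneg _) (sq_nonneg _)) h3
    refine h5.trans (h1.trans ?_)
    have h6 := mul_le_mul_of_nonneg_right (mul_le_mul_of_nonneg_right (hC t e ht ht1 he) hH) hqf
    refine h6.trans (le_of_eq ?_)
    ring
  have hsum : HasSum (fun k : Fin N → Fin 3 → ℤ => kap (2 * t) (k j) ^ 2 * ‖cf g k‖ ^ 2)
      (inner ℂ g (S1 (fun p => kap (2 * t) p ^ 2) j g)).re := by
    have h2 := hasSum_inner_re g (S1 (fun p => kap (2 * t) p ^ 2) j g)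
    have h3 : (fun k : Fin N → Fin 3 → ℤ =>
        (conj (cf g k) * cf (S1 (fun p => kap (2 * t) p ^ 2) j g) k).re)
        = fun k => kap (2 * t) (k j) ^ 2 * ‖cf g k‖ ^ 2 := by
      funext k
      rw [cf_S1 hb2, KT_re]
      congr 1
      rw [mul_comm, Complex.mul_conj, Complex.ofReal_re, Complex.normSq_eq_norm_sq]
    rwa [h3] at h2
  refine hasSum_le_of_sum_le hsum fun K => ?_
  have hlim : Tendsto (fun e : ℝ => ∑ k ∈ K,
      (kap (2 * t) (k j) * Real.exp (-(e * ksq (k j)))) ^ 2 * ‖cf g k‖ ^ 2) (𝓝[>] 0)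
      (𝓝 (∑ k ∈ K, kap (2 * t) (k j) ^ 2 * ‖cf g k‖ ^ 2)) := by
    have hc : Continuous fun e : ℝ => ∑ k ∈ K,
        (kap (2 * t) (k j) * Real.exp (-(e * ksq (k j)))) ^ 2 * ‖cf g k‖ ^ 2 := by
      fun_prop
    have h0 := hc.tendsto' 0 (∑ k ∈ K, kap (2 * t) (k j) ^ 2 * ‖cf g k‖ ^ 2) (by simp)
    exact h0.mono_left nhdsWithin_le_nhds
  refine le_of_tendsto hlim ?_
  filter_upwards [self_mem_nhdsWithin] with e he
  exact hreg e he K

end Pool.Agent.Lib.MP_4952d6_mp.O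

end

/-! ### O.MA -/

section

/-!
# OM, definitions: moments of the smoothed densities (no job)
-/

set_option autoImplicit false
set_option linter.unusedSectionVars false
set_option linter.unusedVariables false
open MeasureTheory Function Filter Topology Set
open scoped ENNReal

namespace Pool.Agent.Lib.MP_4952d6_mp.O

open LB

/-- `∫ dz ⟨(nz σ z)^p⟩`. -/
noncomputable def nzp {ι : Type*} [Fintype ι] (σ : ℝ) (p : ℕ) (ψ : (ι → T3) → ℂ) : ℝ :=
  ∫ z, ∫ x, nz σ z x ^ p * ‖ψ x‖ ^ 2 ∂(piN ι) ∂lam3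

/-- `∑_m ⟨(crowd s m)^q⟩`. -/
noncomputable def crp {ι : Type*} [Fintype ι] [DecidableEq ι] (s : ℝ) (q : ℕ)
    (ψ : (ι → T3) → ℂ) : ℝ :=
  ∑ m, ∫ x, crowd s m x ^ q * ‖ψ x‖ ^ 2 ∂(piN ι)

/-- `∑_m ∫ dy ⟨hk r (y - x_m) (∑_{j ≠ m} hk s (y - x_j))^q⟩`. -/
noncomputable def smp {ι : Type*} [Fintype ι] [DecidableEq ι] (r s : ℝ) (q : ℕ)
    (ψ : (ι → T3) → ℂ) : ℝ :=
  ∑ m, ∫ y, ∫ x, hk r (y - x m) * (∑ j ∈ Finset.univ.erase m, hk s (y - x j)) ^ q
    * ‖ψ x‖ ^ 2 ∂(piN ι) ∂lam3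

end Pool.Agent.Lib.MP_4952d6_mp.O

end

/-! ### O.MB1 -/

section

/-!
# JOB OM-MB1

Everything bounded is `BM` (`BM.const`, `.add`, `.mul`, `.pow`, `.comp`, `.finset_sum`, `.const_mul`, `BM.integral_right`); see `LA/H6.lean`, `LA/I2a.lean` (`I2a_hk_BM`, `I2a_int1`, `I2a_int2`, `I2a_J_mono`, `I2a_J_eq`:
an iterated integral `∫ y, ∫ x, F y x * ‖ψ x‖² ` with `BM (uncurry F)`), `H6_swap`, `F3_swap` (exchange of the two integrations).

`nzp_mono`: equality for `σ = σ'`. For `σ < σ'`: `nz σ' z x = ∫ y, hk (σ' - σ) (z - y) * nz σ y x` (`hk_conv`, the exact form is in `HK/E.lean`), Jensen for `t ↦ t^p` on `[0,∞)` with the probability density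
`y ↦ hk (σ' - σ) (z - y)` (`hk_integral`, `ConvexOn.map_integral_le` or `inner_le_nnorm`..., or Hölder), then Fubini (everything is bounded): `∫ z, hk (σ' - σ) (z - y) = 1`.

`nzp_le`: pointwise `hk σ z ≤ √(σ'/σ)^3 * hk σ' z` (`hk_le_hk` in `HK/D2.lean`), so `nz σ z x ^ p ≤ (√(σ'/σ)^3)^p * nz σ' z x ^ p`.
-/

set_option autoImplicit false
set_option linter.unusedSectionVars false
set_option linter.unusedVariables false
open MeasureTheory Function Filter Topology Set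
open scoped ENNReal

namespace Pool.Agent.Lib.MP_4952d6_mp.O

open LB LA

variable {ι : Type*} [Fintype ι] [DecidableEq ι] {ψ : (ι → T3) → ℂ}

private theorem MB1_nz_BM {σ : ℝ} (hσ : 0 < σ) :
    BM (fun q : T3 × (ι → T3) => nz σ q.1 q.2) := by
  unfold nz
  refine BM.finset_sum _ (fun j _ => ?_)
  exact (I2a_hk_BM hσ).comp (by fun_prop)

private theorem MB1_nz_nonneg (σ : ℝ) (z : T3) (x : ι → T3) : 0 ≤ nz σ z x :=
  Finset.sum_nonneg fun j _ => hk_nonneg σ _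

private theorem MB1_nz_BMz {σ : ℝ} (hσ : 0 < σ) (x : ι → T3) : BM (fun z : T3 => nz σ z x) :=
  (MB1_nz_BM hσ).comp (φ := fun z : T3 => (z, x)) (by fun_prop)

/-- tangent line inequality -/
private theorem MB1_tangent {a b : ℝ} (ha : 0 ≤ a) (hb : 0 ≤ b) (n : ℕ) :
    a ^ (n + 1) + (n + 1) * a ^ n * (b - a) ≤ b ^ (n + 1) := by
  induction n with
  | zero => simp
  | succ n ih =>
    have h1 := mul_le_mul_of_nonneg_left ih hb
    have h2 : 0 ≤ (n + 1 : ℝ) * a ^ n * (b - a) ^ 2 :=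
      mul_nonneg (mul_nonneg (by positivity) (pow_nonneg ha n)) (sq_nonneg _)
    have e1 : b * b ^ (n + 1) = b ^ (n + 1 + 1) := by ring
    rw [e1] at h1
    refine le_trans ?_ h1
    push_cast
    have e2 : b * (a ^ (n + 1) + (n + 1) * a ^ n * (b - a))
        = a ^ (n + 1 + 1) + (n + 1 + 1) * a ^ (n + 1) * (b - a)
          + (n + 1 : ℝ) * a ^ n * (b - a) ^ 2 := by ring
    rw [e2]
    linarith

/-- Jensen for the heat kernel -/
private theorem MB1_jensen {δ : ℝ} (hδ : 0 < δ) {g : T3 → ℝ} (hg : BM g) (hg0 : ∀ y, 0 ≤ g y)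
    (z : T3) (p : ℕ) :
    (∫ y, hk δ (z - y) * g y ∂lam3) ^ p ≤ ∫ y, hk δ (z - y) * g y ^ p ∂lam3 := by
  have hw : BM (fun y : T3 => hk δ (z - y)) := (I2a_hk_BM hδ).comp (by fun_prop)
  have hw1 : ∫ y, hk δ (z - y) ∂lam3 = 1 := by
    rw [int_sub_left (hk δ) z, hk_integral hδ]
  rcases p with _ | n
  · simp only [pow_zero, mul_one]
    rw [hw1]
  obtain ⟨a, ha⟩ : ∃ a, a = ∫ y, hk δ (z - y) * g y ∂lam3 := ⟨_, rfl⟩
  rw [← ha]
  have ha0 : 0 ≤ a := by
    rw [ha]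
    exact integral_nonneg fun y => mul_nonneg (hk_nonneg _ _) (hg0 y)
  have h1 : ∫ y, (a ^ (n + 1) * hk δ (z - y) + (n + 1) * a ^ n * (hk δ (z - y) * g y)
      - (n + 1) * a ^ n * a * hk δ (z - y)) ∂lam3 ≤ ∫ y, hk δ (z - y) * g y ^ (n + 1) ∂lam3 := by
    refine integral_mono
      (((hw.const_mul _).add ((hw.mul hg).const_mul _)).sub (hw.const_mul _) |>.integrable _)
      ((hw.mul (hg.pow _)).integrable _) fun y => ?_
    have h2 := mul_le_mul_of_nonneg_left (MB1_tangent ha0 (hg0 y) n) (hk_nonneg δ (z - y))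
    refine le_trans (le_of_eq ?_) h2
    ring
  have h3 : ∫ y, (a ^ (n + 1) * hk δ (z - y) + (n + 1) * a ^ n * (hk δ (z - y) * g y)
      - (n + 1) * a ^ n * a * hk δ (z - y)) ∂lam3 = a ^ (n + 1) := by
    rw [integral_sub (((hw.const_mul _).add ((hw.mul hg).const_mul _)).integrable _)
        ((hw.const_mul _).integrable _),
      integral_add ((hw.const_mul _).integrable _) (((hw.mul hg).const_mul _).integrable _),
      integral_const_mul, integral_const_mul, integral_const_mul, hw1, ← ha]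
    ring
  rw [h3] at h1
  exact h1

private theorem MB1_nz_conv {δ σ : ℝ} (hδ : 0 < δ) (hσ : 0 < σ) (z : T3) (x : ι → T3) :
    nz (δ + σ) z x = ∫ y, hk δ (z - y) * nz σ y x ∂lam3 := by
  have hw : BM (fun y : T3 => hk δ (z - y)) := (I2a_hk_BM hδ).comp (by fun_prop)
  unfold nz
  simp only [Finset.mul_sum]
  rw [integral_finsetSum]
  · refine Finset.sum_congr rfl fun j _ => ?_
    rw [← hk_conv hδ hσ (z - x j), ← int_sub_right _ (x j)]
    refine integral_congr_ae (Eventually.of_forall fun y => ?_)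
    simp only
    congr 2
    abel
  · intro j _
    exact (hw.mul ((I2a_hk_BM hσ).comp (by fun_prop))).integrable _

private theorem MB1_point {σ σ' : ℝ} (hσ : 0 < σ) (h : σ ≤ σ') (p : ℕ) (x : ι → T3) :
    ∫ z, nz σ' z x ^ p ∂lam3 ≤ ∫ z, nz σ z x ^ p ∂lam3 := by
  rcases h.eq_or_lt with rfl | hlt
  · exact le_rfl
  obtain ⟨δ, hδ⟩ : ∃ δ, δ = σ' - σ := ⟨_, rfl⟩
  have hδ0 : 0 < δ := by rw [hδ]; linarith
  have hs : σ' = δ + σ := by rw [hδ]; ring
  rw [hs]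
  have hg := MB1_nz_BMz hσ x
  have hK : BM (uncurry fun z y : T3 => hk δ (z - y) * nz σ y x ^ p) := by
    have h2 : BM (fun q : T3 × T3 => hk δ (q.1 - q.2) * nz σ q.2 x ^ p) :=
      ((I2a_hk_BM hδ0).comp (by fun_prop)).mul ((hg.pow p).comp measurable_snd)
    exact h2
  calc ∫ z, nz (δ + σ) z x ^ p ∂lam3
      ≤ ∫ z, ∫ y, hk δ (z - y) * nz σ y x ^ p ∂lam3 ∂lam3 := by
        refine integral_mono (((MB1_nz_BMz (by linarith) x).pow p).integrable _)
          ((hK.integral_right lam3).integrable _) fun z => ?_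
        dsimp only
        rw [MB1_nz_conv hδ0 hσ]
        exact MB1_jensen hδ0 hg (fun y => MB1_nz_nonneg σ y x) z p
    _ = (∫ y, hk δ y ∂lam3) * ∫ y, nz σ y x ^ p ∂lam3 := Ker_cn_integral (I2a_hk_BM hδ0) (hg.pow p)
    _ = ∫ z, nz σ z x ^ p ∂lam3 := by rw [hk_integral hδ0, one_mul]

private theorem MB1_nzp (hψ : MemLp ψ 2 (piN ι)) {σ : ℝ} (hσ : 0 < σ) (p : ℕ) :
    nzp σ p ψ = ∫ x, (∫ z, nz σ z x ^ p ∂lam3) * ‖ψ x‖ ^ 2 ∂(piN ι) :=
  H6_swap hψ ((MB1_nz_BM hσ).pow p)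

private theorem MB1_int (hψ : MemLp ψ 2 (piN ι)) {σ : ℝ} (hσ : 0 < σ) (p : ℕ) :
    Integrable (fun x => (∫ z, nz σ z x ^ p ∂lam3) * ‖ψ x‖ ^ 2) (piN ι) := by
  have h1 : BM (fun q : (ι → T3) × T3 => nz σ q.2 q.1 ^ p) :=
    ((MB1_nz_BM hσ).comp (φ := fun q : (ι → T3) × T3 => (q.2, q.1)) (by fun_prop)).pow p
  have h2 : BM (uncurry fun (x : ι → T3) (z : T3) => nz σ z x ^ p) := h1
  have h3 : BM (fun x : ι → T3 => ∫ z, nz σ z x ^ p ∂lam3) := h2.integral_right lam3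
  exact I2a_int1 hψ h3

theorem nzp_mono (hψ : MemLp ψ 2 (piN ι)) {σ σ' : ℝ} (hσ : 0 < σ) (h : σ ≤ σ') (p : ℕ) :
    nzp σ' p ψ ≤ nzp σ p ψ := by
  have hσ' : 0 < σ' := lt_of_lt_of_le hσ h
  rw [MB1_nzp hψ hσ' p, MB1_nzp hψ hσ p]
  refine integral_mono (MB1_int hψ hσ' p) (MB1_int hψ hσ p) fun x => ?_
  exact mul_le_mul_of_nonneg_right (MB1_point hσ h p x) (sq_nonneg _)

theorem nzp_le (hψ : MemLp ψ 2 (piN ι)) {σ σ' : ℝ} (hσ : 0 < σ) (h : σ ≤ σ') (p : ℕ) :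
    nzp σ p ψ ≤ (Real.sqrt (σ' / σ) ^ 3) ^ p * nzp σ' p ψ := by
  have hσ' : 0 < σ' := lt_of_lt_of_le hσ h
  rw [MB1_nzp hψ hσ' p, MB1_nzp hψ hσ p, ← integral_const_mul]
  refine integral_mono (MB1_int hψ hσ p) ((MB1_int hψ hσ' p).const_mul _) fun x => ?_
  dsimp only
  rw [← mul_assoc]
  refine mul_le_mul_of_nonneg_right ?_ (sq_nonneg _)
  rw [← integral_const_mul]
  refine integral_mono (((MB1_nz_BMz hσ x).pow p).integrable _)
    ((((MB1_nz_BMz hσ' x).pow p).const_mul _).integrable _) fun z => ?_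
  dsimp only
  rw [← mul_pow]
  refine pow_le_pow_left₀ (MB1_nz_nonneg σ z x) ?_ p
  unfold nz
  rw [Finset.mul_sum]
  exact Finset.sum_le_sum fun j _ => hk_le_hk hσ h _

end Pool.Agent.Lib.MP_4952d6_mp.O

end

/-! ### O.MB2 -/

section

/-!
# JOB OM-MB2

Everything bounded is `BM` (`BM.const`, `.add`, `.mul`, `.pow`, `.comp`, `.finset_sum`, `.const_mul`, `BM.integral_right`); see `LA/H6.lean`, `LA/I2a.lean` (`I2a_hk_BM`, `I2a_int1`, `I2a_int2`, `I2a_J_mono`, `I2a_J_eq`: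
an iterated integral `∫ y, ∫ x, F y x * ‖ψ x‖² ` with `BM (uncurry F)`), `H6_swap`, `F3_swap` (exchange of the two integrations).

`smp_le`: pointwise, with `a = nz r y x`, `b = nz s y x`: `∑_m hk r (y - x m) * (∑_{j≠m} hk s (y - x j))^q ≤ a * b^q ≤ a^(q+1) + b^(q+1)` (the last one by cases `a ≤ b`, `b ≤ a`); the sum over `m` goes inside the two integrals.

`crp_sm`: this is `H6_one` of `LA/H6.lean` (sum over `m`).

`smp_sm`: for fixed `m`, `y`, `x` apply `H6_point hs q m (update x m y)`: `crowd s m (update x m y) = ∑_{j≠m} hk s (y - x j)` (`I2a_crowd_update`) and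
`H6f s q m (z, update x m y) = hk (s/12) (z - y) * (∑_{j≠m} hk (2 s) (z - x j))^q`. Multiply by `hk r (y - x m)`, integrate over `y` first: `∫ y, hk r (y - x m) * hk (s/12) (z - y) = hk (r + s/12) (z - x m)` (`hk_conv`).
-/

set_option autoImplicit false
set_option linter.unusedSectionVars false
set_option linter.unusedVariables false
open MeasureTheory Function Filter Topology Set
open scoped ENNReal

namespace Pool.Agent.Lib.MP_4952d6_mp.O

open LB LA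

variable {ι : Type*} [Fintype ι] [DecidableEq ι] {ψ : (ι → T3) → ℂ}

lemma MB2_nz_bm {s : ℝ} (hs : 0 < s) :
    BM (fun p : T3 × (ι → T3) => nz s p.1 p.2) := by
  unfold nz
  refine BM.finset_sum _ (fun j _ => ?_)
  exact (I2a_hk_BM hs).comp (by fun_prop)

lemma MB2_F_bm {r s : ℝ} (hr : 0 < r) (hs : 0 < s) (q : ℕ) (m : ι) :
    BM (uncurry fun (y : T3) (x : ι → T3) => hk r (y - x m) * I2a_S s m y x ^ q) := by
  have h1 : BM (fun p : T3 × (ι → T3) => hk r (p.1 - p.2 m)) :=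
    (I2a_hk_BM hr).comp (by fun_prop)
  exact h1.mul ((I2a_S_BM hs m).pow q)

lemma MB2_J_sum (hψ : MemLp ψ 2 (piN ι)) {F : ι → T3 → (ι → T3) → ℝ}
    (hF : ∀ m, BM (uncurry (F m))) :
    ∑ m, I2a_J ψ (F m) = I2a_J ψ (fun y x => ∑ m, F m y x) := by
  have hS : BM (uncurry fun y x => ∑ m, F m y x) := by
    have h1 : BM (fun z : T3 × (ι → T3) => ∑ m, uncurry (F m) z) :=
      BM.finset_sum _ (fun m _ => hF m)
    exact h1
  rw [I2a_J_eq hψ hS]
  have h2 : ∀ m, I2a_J ψ (F m) = ∫ z, uncurry (F m) z * ‖ψ z.2‖ ^ 2 ∂(lam3.prod (piN ι)) :=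
    fun m => I2a_J_eq hψ (hF m)
  rw [Finset.sum_congr rfl (fun m _ => h2 m), ← integral_finsetSum _ (fun m _ => I2a_int2 hψ (hF m))]
  refine integral_congr_ae (Eventually.of_forall fun z => ?_)
  simp only [uncurry]
  rw [Finset.sum_mul]

lemma MB2_pow {a b : ℝ} (ha : 0 ≤ a) (hb : 0 ≤ b) (q : ℕ) : a * b ^ q ≤ a ^ (q + 1) + b ^ (q + 1) := by
  rcases le_total a b with h | h
  · have h1 : a * b ^ q ≤ b * b ^ q := mul_le_mul_of_nonneg_right h (pow_nonneg hb q)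
    have h2 : 0 ≤ a ^ (q + 1) := pow_nonneg ha _
    rw [pow_succ' b]
    linarith
  · have h1 : a * b ^ q ≤ a * a ^ q :=
      mul_le_mul_of_nonneg_left (pow_le_pow_left₀ hb h q) ha
    have h2 : 0 ≤ b ^ (q + 1) := pow_nonneg hb _
    rw [pow_succ' a]
    linarith

theorem smp_le (hψ : MemLp ψ 2 (piN ι)) {r s : ℝ} (hr : 0 < r) (hs : 0 < s) (q : ℕ) :
    smp r s q ψ ≤ nzp r (q + 1) ψ + nzp s (q + 1) ψ := by
  have e1 : smp r s q ψ
      = ∑ m, I2a_J ψ (fun y x => hk r (y - x m) * I2a_S s m y x ^ q) := rfl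
  have hF := fun m : ι => MB2_F_bm hr hs q m
  rw [e1, MB2_J_sum hψ hF]
  have hS : BM (uncurry fun (y : T3) (x : ι → T3) => ∑ m, hk r (y - x m) * I2a_S s m y x ^ q) := by
    have h1 : BM (fun z : T3 × (ι → T3) => ∑ m,
        uncurry (fun (y : T3) (x : ι → T3) => hk r (y - x m) * I2a_S s m y x ^ q) z) :=
      BM.finset_sum _ (fun m _ => hF m)
    exact h1
  have b1 : BM (uncurry fun (y : T3) (x : ι → T3) => nz r y x ^ (q + 1)) := (MB2_nz_bm hr).pow _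
  have b2 : BM (uncurry fun (y : T3) (x : ι → T3) => nz s y x ^ (q + 1)) := (MB2_nz_bm hs).pow _
  have hG : BM (uncurry fun (y : T3) (x : ι → T3) => 1 * nz r y x ^ (q + 1) + 1 * nz s y x ^ (q + 1)) :=
    (b1.const_mul 1).add (b2.const_mul 1)
  refine (I2a_J_mono hψ hS hG fun y x => ?_).trans (le_of_eq ?_)
  · have a0 : 0 ≤ nz r y x := Finset.sum_nonneg fun j _ => hk_nonneg r _
    have b0 : 0 ≤ nz s y x := Finset.sum_nonneg fun j _ => hk_nonneg s _
    have h1 : ∀ m ∈ (Finset.univ : Finset ι), hk r (y - x m) * I2a_S s m y x ^ q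
        ≤ hk r (y - x m) * nz s y x ^ q := by
      intro m _
      refine mul_le_mul_of_nonneg_left ?_ (hk_nonneg r _)
      refine pow_le_pow_left₀ (I2a_S_nonneg s m y x) ?_ q
      unfold I2a_S nz
      exact Finset.sum_le_sum_of_subset_of_nonneg (Finset.erase_subset _ _)
        fun j _ _ => hk_nonneg s _
    refine (Finset.sum_le_sum h1).trans ?_
    rw [← Finset.sum_mul, one_mul, one_mul]
    exact MB2_pow a0 b0 q
  · rw [I2a_J_add hψ b1 b2]
    rw [one_mul, one_mul]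
    rfl

theorem crp_sm (hψ : MemLp ψ 2 (piN ι)) {s : ℝ} (hs : 0 < s) (q : ℕ) :
    crp s q ψ ≤ 2 * 4 ^ q * smp (s / 12) (2 * s) q ψ := by
  unfold crp smp
  rw [Finset.mul_sum]
  exact Finset.sum_le_sum fun m _ => H6_one hψ hs q m

lemma MB2_upd (s : ℝ) (q : ℕ) (m : ι) (y z : T3) (x : ι → T3) :
    H6f s q m (z, update x m y) = hk (s / 12) (z - y) * I2a_S (2 * s) m z x ^ q := by
  unfold H6f I2a_S
  simp only [update_self]
  congr 2
  refine Finset.sum_congr rfl fun j hj => ?_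
  rw [update_of_ne (Finset.ne_of_mem_erase hj)]

lemma MB2_one (hψ : MemLp ψ 2 (piN ι)) {r s : ℝ} (hr : 0 < r) (hs : 0 < s) (q : ℕ) (m : ι) :
    I2a_J ψ (fun y x => hk r (y - x m) * I2a_S s m y x ^ q)
      ≤ 2 * 4 ^ q * I2a_J ψ (fun y x => hk (r + s / 12) (y - x m) * I2a_S (2 * s) m y x ^ q) := by
  have h12 : 0 < s / 12 := by positivity
  have hrs : 0 < r + s / 12 := by positivity
  have h2s : 0 < 2 * s := by positivity
  -- the kernel in three variables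
  have hB : BM (fun p : (T3 × (ι → T3)) × T3 =>
      hk r (p.1.1 - p.1.2 m) * (hk (s / 12) (p.2 - p.1.1) * I2a_S (2 * s) m p.2 p.1.2 ^ q)) := by
    have h1 : BM (fun p : (T3 × (ι → T3)) × T3 => hk r (p.1.1 - p.1.2 m)) :=
      (I2a_hk_BM hr).comp (by fun_prop)
    have h2 : BM (fun p : (T3 × (ι → T3)) × T3 => hk (s / 12) (p.2 - p.1.1)) :=
      (I2a_hk_BM h12).comp (by fun_prop)
    have h3 : BM (fun p : (T3 × (ι → T3)) × T3 => I2a_S (2 * s) m p.2 p.1.2) :=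
      (I2a_S_BM h2s m).comp (φ := fun p : (T3 × (ι → T3)) × T3 => (p.2, p.1.2)) (by fun_prop)
    exact h1.mul (h2.mul (h3.pow q))
  have hI : BM (fun p : T3 × (ι → T3) => ∫ z,
      hk r (p.1 - p.2 m) * (hk (s / 12) (z - p.1) * I2a_S (2 * s) m z p.2 ^ q) ∂lam3) :=
    BM.integral_right (f := fun (p : T3 × (ι → T3)) (z : T3) =>
      hk r (p.1 - p.2 m) * (hk (s / 12) (z - p.1) * I2a_S (2 * s) m z p.2 ^ q)) hB lam3
  have hG : BM (uncurry fun (y : T3) (x : ι → T3) => 2 * 4 ^ q * ∫ z,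
      hk r (y - x m) * (hk (s / 12) (z - y) * I2a_S (2 * s) m z x ^ q) ∂lam3) :=
    hI.const_mul _
  refine (I2a_J_mono hψ (MB2_F_bm hr hs q m) hG fun y x => ?_).trans (le_of_eq ?_)
  · rw [integral_const_mul]
    have h1 := H6_point hs q m (update x m y)
    rw [I2a_crowd_update] at h1
    have h2 : ∫ z, H6f s q m (z, update x m y) ∂lam3
        = ∫ z, hk (s / 12) (z - y) * I2a_S (2 * s) m z x ^ q ∂lam3 :=
      integral_congr_ae (Eventually.of_forall fun z => MB2_upd s q m y z x)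
    rw [h2] at h1
    refine (mul_le_mul_of_nonneg_left h1 (hk_nonneg r _)).trans (le_of_eq ?_)
    ring
  · have e1 : I2a_J ψ (fun (y : T3) (x : ι → T3) => 2 * 4 ^ q * ∫ z,
        hk r (y - x m) * (hk (s / 12) (z - y) * I2a_S (2 * s) m z x ^ q) ∂lam3)
        = ∫ x, (∫ y, 2 * 4 ^ q * ∫ z,
          hk r (y - x m) * (hk (s / 12) (z - y) * I2a_S (2 * s) m z x ^ q) ∂lam3 ∂lam3)
            * ‖ψ x‖ ^ 2 ∂(piN ι) := H6_swap hψ hG
    have e2 : I2a_J ψ (fun (y : T3) (x : ι → T3) => hk (r + s / 12) (y - x m) * I2a_S (2 * s) m y x ^ q)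
        = ∫ x, (∫ y, hk (r + s / 12) (y - x m) * I2a_S (2 * s) m y x ^ q ∂lam3)
            * ‖ψ x‖ ^ 2 ∂(piN ι) := H6_swap hψ (MB2_F_bm hrs h2s q m)
    rw [e1, e2, ← integral_const_mul]
    refine integral_congr_ae (Eventually.of_forall fun x => ?_)
    simp only
    rw [integral_const_mul]
    have e3 : ∫ y, ∫ z, hk r (y - x m) * (hk (s / 12) (z - y) * I2a_S (2 * s) m z x ^ q) ∂lam3 ∂lam3
        = ∫ z, hk (r + s / 12) (z - x m) * I2a_S (2 * s) m z x ^ q ∂lam3 := by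
      have h3 : BM (fun p : T3 × T3 =>
          hk r (p.1 - x m) * (hk (s / 12) (p.2 - p.1) * I2a_S (2 * s) m p.2 x ^ q)) :=
        hB.comp (φ := fun p : T3 × T3 => ((p.1, x), p.2)) (by fun_prop)
      have h4 : Integrable (uncurry fun y z : T3 =>
          hk r (y - x m) * (hk (s / 12) (z - y) * I2a_S (2 * s) m z x ^ q)) (lam3.prod lam3) :=
        h3.integrable _
      rw [integral_integral_swap h4]
      refine integral_congr_ae (Eventually.of_forall fun z => ?_)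
      simp only
      have h5 : ∀ y : T3, hk r (y - x m) * (hk (s / 12) (z - y) * I2a_S (2 * s) m z x ^ q)
          = (hk r (y - x m) * hk (s / 12) (y - z)) * I2a_S (2 * s) m z x ^ q := by
        intro y
        rw [← hk_neg (s / 12) (z - y), neg_sub]
        ring
      simp_rw [h5]
      rw [integral_mul_const, HKG_conv hr h12]
    rw [e3]
    ring

theorem smp_sm (hψ : MemLp ψ 2 (piN ι)) {r s : ℝ} (hr : 0 < r) (hs : 0 < s) (q : ℕ) :
    smp r s q ψ ≤ 2 * 4 ^ q * smp (r + s / 12) (2 * s) q ψ := by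
  have e1 : ∀ a b : ℝ, smp a b q ψ
      = ∑ m, I2a_J ψ (fun y x => hk a (y - x m) * I2a_S b m y x ^ q) := fun a b => rfl
  rw [e1, e1, Finset.mul_sum]
  exact Finset.sum_le_sum fun m _ => MB2_one hψ hr hs q m

end Pool.Agent.Lib.MP_4952d6_mp.O

end

/-! ### O.WB2 -/

section

/-! # O.WB2: the operators `A_k`, `B_k` and their commutators

With `a = XX θ (ef k) f`, `b = XX (ef (-k)) θ f`, `a' = XX θ (ef (-k)) f`, `b' = XX (ef k) θ f`: `AA k f = a + b`, `BB k f = a - b`,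
`AA (-k) f = a' + b'`, `BB (-k) f = a' - b'` (`neg_neg`).
`AB_re`: `Re ⟪a+b, a-b⟫ = ‖a‖² - ‖b‖²`; `‖a‖² - ‖b'‖² = yy (ef k) f - e2 * yy θ f` by `XX_comm` with `u = u' = θ`, `v = v' = ef k`
(`inner_self_eq_norm_sq_to_K`, `⟪br v j f, br v j f⟫ = ‖br v j f‖²`), and the same with `-k`: `‖a'‖² - ‖b‖² = yy (ef (-k)) f - e2 * yy θ f`.
`RB_re`: `RR_comm` with `u = θ`, `v = ef k` gives `Re ⟪RR k f, a⟫ - Re ⟪b', RR (-k) f⟫ = zz (rf (-k) θ) (ef k) f - zz θ (rf k (ef k)) f`, and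
with `-k`: `Re ⟪RR (-k) f, a'⟫ - Re ⟪b, RR k f⟫ = zz (rf k θ) (ef (-k)) f - zz θ (rf (-k) (ef (-k))) f`; `Re ⟪x, y⟫ = Re ⟪y, x⟫`
(`inner_re_symm`). -/

set_option autoImplicit false
set_option linter.unusedSectionVars false
set_option linter.unusedVariables false
open MeasureTheory Function Filter Topology Set ComplexConjugate

namespace Pool.Agent.Lib.MP_4952d6_mp.O

open LB

variable {ι : Type*} [Fintype ι]

/-- `A_k`. -/
noncomputable def AA (t : ℝ) (θ : T3 → ℝ) (k : Fin 3 → ℤ) (f : HS ι) : HS ι :=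
  XX (fun x => (θ x : ℂ)) (ef t θ k) f + XX (ef t θ (-k)) (fun x => (θ x : ℂ)) f

/-- `B_k`. -/
noncomputable def BB (t : ℝ) (θ : T3 → ℝ) (k : Fin 3 → ℤ) (f : HS ι) : HS ι :=
  XX (fun x => (θ x : ℂ)) (ef t θ k) f - XX (ef t θ (-k)) (fun x => (θ x : ℂ)) f

variable [DecidableEq ι]

private lemma WB2_inner_self {E : Type*} [NormedAddCommGroup E] [InnerProductSpace ℂ E] (x : E) :
    (inner ℂ x x : ℂ).re = ‖x‖ ^ 2 := by
  rw [inner_self_eq_norm_sq_to_K]
  norm_cast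

private lemma WB2_expand {E : Type*} [NormedAddCommGroup E] [InnerProductSpace ℂ E] (a b : E) :
    (inner ℂ (a + b) (a - b) : ℂ).re = ‖a‖ ^ 2 - ‖b‖ ^ 2 := by
  have h : (inner ℂ a b : ℂ).re = (inner ℂ b a : ℂ).re := inner_re_symm (𝕜 := ℂ) a b
  rw [inner_add_left, inner_sub_right, inner_sub_right]
  simp only [Complex.add_re, Complex.sub_re]
  rw [WB2_inner_self, WB2_inner_self, h]
  ring

private lemma WB2_comm {u v : T3 → ℂ} (hu : BC u) (hv : BC v) {e2 : ℝ} (h1 : ip u u = 1)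
    (h2 : ip v v = (e2 : ℂ)) (f : HS ι) :
    ‖XX u v f‖ ^ 2 - ‖XX v u f‖ ^ 2 = yy v f - e2 * yy u f := by
  have h := congrArg Complex.re (XX_comm hu hv hu hv f)
  rw [h1, h2, one_mul, Complex.sub_re, Complex.sub_re, WB2_inner_self, WB2_inner_self,
    Complex.re_ofReal_mul, Complex.re_sum, Complex.re_sum] at h
  simp only [WB2_inner_self] at h
  exact h

theorem AB_re {t : ℝ} (ht : 0 < t) {θ : T3 → ℝ} (hθ : BM θ) (k : Fin 3 → ℤ) {e2 : ℝ}
    (h1 : ip (fun x => (θ x : ℂ)) (fun x => (θ x : ℂ)) = 1)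
    (h2 : ip (ef t θ k) (ef t θ k) = (e2 : ℂ)) (h3 : ip (ef t θ (-k)) (ef t θ (-k)) = (e2 : ℂ))
    (f : HS ι) :
    (inner ℂ (AA t θ k f) (BB t θ k f)).re + (inner ℂ (AA t θ (-k) f) (BB t θ (-k) f)).re
      = yy (ef t θ k) f + yy (ef t θ (-k)) f - 2 * e2 * yy (fun x => (θ x : ℂ)) f := by
  have hb := bc_of_bm hθ
  have e1 := WB2_comm hb (bc_ef ht hθ k) h1 h2 f
  have e2' := WB2_comm hb (bc_ef ht hθ (-k)) h1 h3 f
  rw [AA, BB, AA, BB, WB2_expand, WB2_expand, neg_neg]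
  linear_combination e1 + e2'

theorem RB_re {t : ℝ} (ht : 0 < t) {θ : T3 → ℝ} (hθ : BM θ) (k : Fin 3 → ℤ) (f : HS ι) :
    (inner ℂ (RR t θ k f) (BB t θ k f)).re + (inner ℂ (RR t θ (-k) f) (BB t θ (-k) f)).re
      = - mu2 t θ k f := by
  have hb := bc_of_bm hθ
  have e1 := congrArg Complex.re (RR_comm ht hθ k hb (bc_ef ht hθ k) f)
  have e2 := congrArg Complex.re (RR_comm ht hθ (-k) hb (bc_ef ht hθ (-k)) f)
  rw [neg_neg] at e2
  rw [Complex.sub_re, Complex.sub_re, Complex.re_sum, Complex.re_sum] at e1 e2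
  have s1 : (inner ℂ (XX (ef t θ k) (fun x => (θ x : ℂ)) f) (RR t θ (-k) f) : ℂ).re =
      (inner ℂ (RR t θ (-k) f) (XX (ef t θ k) (fun x => (θ x : ℂ)) f) : ℂ).re :=
    inner_re_symm (𝕜 := ℂ) _ _
  have s2 : (inner ℂ (XX (ef t θ (-k)) (fun x => (θ x : ℂ)) f) (RR t θ k f) : ℂ).re =
      (inner ℂ (RR t θ k f) (XX (ef t θ (-k)) (fun x => (θ x : ℂ)) f) : ℂ).re :=
    inner_re_symm (𝕜 := ℂ) _ _
  rw [BB, BB, neg_neg, inner_sub_right, inner_sub_right, Complex.sub_re, Complex.sub_re]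
  rw [s1] at e1
  rw [s2] at e2
  simp only [mu2, zz]
  linear_combination e1 + e2

end Pool.Agent.Lib.MP_4952d6_mp.O

end

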