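import Pool.Agent.Lib.MP_4952d6_mp.Po.N02
import Pool.Agent.Lib.MP_4952d6_mp.Po.N05
import Pool.Agent.Lib.MP_4952d6_mp.Po.N06
import Pool.Agent.Lib.MP_4952d6_mp.Po.N09

/-! Merged modules (to save import time): O.XP, O.F1, O.WB3, O.WC1. -/

/-! ### O.XP -/

section

/-!
# O.XP: algebra of the low momentum operators
-/

set_option autoImplicit false
set_option linter.unusedSectionVars false
set_option linter.unusedVariables false
open MeasureTheory Function Filter Topology Set ComplexConjugate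

namespace Pool.Agent.Lib.MP_4952d6_mp.O

open LB

variable {ι : Type*} [Fintype ι] [DecidableEq ι]

lemma XP_cf_PP {t : ℝ} (ht : 0 ≤ t) (j : ι) (f : HS ι) (k : ι → Fin 3 → ℤ) :
    cf (PP1 t j f) k = (et t (k j) : ℂ) * cf f k := cf_S1 (bdm_et ht) j f k

lemma XP_cf_QQ {t : ℝ} (ht : 0 ≤ t) (j : ι) (f : HS ι) (k : ι → Fin 3 → ℤ) :
    cf (QQ1 t j f) k = ((1 - et t (k j) : ℝ) : ℂ) * cf f k :=
  cf_S1 ((Bdm.const 1).sub (bdm_et ht)) j f k

lemma XP_et_mul {t T : ℝ} (p : Fin 3 → ℤ) : et t p * et (T - t) p = et T p := by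
  unfold et
  rw [← Real.exp_add]
  congr 1
  ring

theorem PhiD_eq {t T : ℝ} (ht : 0 ≤ t) (htT : t ≤ T) (j l : ι) (ψ : HS ι) :
    PhiD t T j l ψ = PP1 t l (QQ1 T j ψ - QQ1 t j ψ) + PP1 t l (PP1 T j (QQ1 (T - t) l ψ)) := by
  have hT : 0 ≤ T := ht.trans htT
  have hTt : 0 ≤ T - t := by linarith
  refine cf_ext fun k => ?_
  unfold PhiD Phi
  rw [cf_sub, cf_add, XP_cf_PP ht, XP_cf_PP ht, XP_cf_PP hT, XP_cf_PP hT, XP_cf_PP ht, cf_sub,
    XP_cf_QQ hT, XP_cf_QQ ht, XP_cf_PP ht, XP_cf_PP hT, XP_cf_QQ hTt, ← XP_et_mul (t := t) (T := T) (k l)]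
  push_cast
  ring

/-- `S_j ψ - S_l ψ = (1 - S_l) ψ - (1 - S_j) ψ` -/
lemma XP_diff {T : ℝ} (hT : 0 ≤ T) (j l : ι) (ψ : HS ι) :
    PP1 T j ψ - PP1 T l ψ = QQ1 T l ψ - QQ1 T j ψ := by
  rw [← sub_eq_zero]
  have h1 := PP1_add_QQ1 hT j ψ
  have h2 := PP1_add_QQ1 hT l ψ
  have : PP1 T j ψ - PP1 T l ψ - (QQ1 T l ψ - QQ1 T j ψ)
      = (PP1 T j ψ + QQ1 T j ψ) - (PP1 T l ψ + QQ1 T l ψ) := by abel
  rw [this, h1, h2, sub_self]

lemma cw_sub_le {N : ℕ} {s : ℝ} (hs : 0 < s) (m : Fin N) (f g : HS (Fin N)) :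
    cw s m (f - g) ≤ 2 * cw s m f + 2 * cw s m g := by
  unfold cw
  exact qf_sub_le (Sums_bm hs m) (fun x => sq_nonneg _) f g

lemma cw_add_le {N : ℕ} {s : ℝ} (hs : 0 < s) (m : Fin N) (f g : HS (Fin N)) :
    cw s m (f + g) ≤ 2 * cw s m f + 2 * cw s m g := by
  unfold cw
  exact qf_add_le (Sums_bm hs m) (fun x => sq_nonneg _) f g

/-- the high momentum part between the two scales -/
lemma cw_QQdiff_le {N : ℕ} {s t T MD : ℝ} (ht : 0 < t) (htT : t ≤ T)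
    (hs : t / 8 ≤ s) (hsT : s ≤ 64 * T) {ψ : HS (Fin N)} (h : DBd t T MD ψ) :
    ∑ m, cw s m (QQ1 T m ψ - QQ1 t m ψ) ≤ 4 * MD := by
  have hs0 : 0 < s := by linarith
  have hT : 0 < T := by linarith
  have h1 := cw_QQ1_le hT (by linarith : T ≤ 64 * T) ht hs hsT h
  have h2 := cw_QQ1_le ht (by linarith : t ≤ 64 * T) ht hs hsT h
  have h3 : ∑ m, cw s m (QQ1 T m ψ - QQ1 t m ψ)
      ≤ ∑ m, (2 * cw s m (QQ1 T m ψ) + 2 * cw s m (QQ1 t m ψ)) :=
    Finset.sum_le_sum fun m _ => cw_sub_le hs0 m _ _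
  rw [Finset.sum_add_distrib, ← Finset.mul_sum, ← Finset.mul_sum] at h3
  linarith

/-- two and four summands -/
lemma XP_norm_two {𝓗 : Type*} [NormedAddCommGroup 𝓗] (a b : 𝓗) :
    ‖a + b‖ ^ 2 ≤ 2 * ‖a‖ ^ 2 + 2 * ‖b‖ ^ 2 := by
  have h1 := norm_add_le a b
  have h2 : ‖a + b‖ ^ 2 ≤ (‖a‖ + ‖b‖) ^ 2 := pow_le_pow_left₀ (norm_nonneg _) h1 2
  nlinarith [sq_nonneg (‖a‖ - ‖b‖)]

lemma XP_norm_two' {𝓗 : Type*} [NormedAddCommGroup 𝓗] (a b : 𝓗) :
    ‖a - b‖ ^ 2 ≤ 2 * ‖a‖ ^ 2 + 2 * ‖b‖ ^ 2 := by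
  have h := XP_norm_two a (-b)
  rwa [norm_neg, ← sub_eq_add_neg] at h

end Pool.Agent.Lib.MP_4952d6_mp.O

end

/-! ### O.F1 -/

section

/-!
# O.F1: the perturbed functional `Jb` near `lam = 0`
-/

set_option autoImplicit false
set_option linter.unusedSectionVars false
set_option linter.unusedVariables false
open MeasureTheory Function Filter Topology Set

namespace Pool.Agent.Lib.MP_4952d6_mp.O

lemma Jgd_scale {s c : ℝ} (hs : 0 < s) (hc : 1 ≤ c) : Jgd s ≤ c ^ 2 * Jgd (c * s) := by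
  have hpi := Real.pi_pos
  have hc0 : 0 < c := by linarith
  have hcs : 0 < c * s := by positivity
  have h0 : 0 < s ^ 2 + 16 * Real.pi * s := by positivity
  have h1 : 0 < (c * s) ^ 2 + 16 * Real.pi * (c * s) := by positivity
  rw [F1a_Jgd_eq hs, F1a_Jgd_eq hcs]
  set S := Real.sqrt (s ^ 2 + 16 * Real.pi * s) with hS
  set T := Real.sqrt ((c * s) ^ 2 + 16 * Real.pi * (c * s)) with hT
  have hSp : 0 < S := Real.sqrt_pos.2 h0
  have hTp : 0 < T := Real.sqrt_pos.2 h1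
  have hTS : T ≤ c * S := by
    rw [hT, Real.sqrt_le_left (by positivity)]
    have e0 : (c * S) ^ 2 = c ^ 2 * (s ^ 2 + 16 * Real.pi * s) := by
      rw [mul_pow, hS, Real.sq_sqrt h0.le]
    rw [e0]
    have h3 : 16 * Real.pi * (c * s) ≤ c ^ 2 * (16 * Real.pi * s) := by
      have h4 : c ≤ c ^ 2 := by nlinarith
      have h5 : 0 ≤ 16 * Real.pi * s := by positivity
      nlinarith [mul_le_mul_of_nonneg_right h4 h5]
    nlinarith
  have h2 : c * s + 8 * Real.pi + T ≤ c * (s + 8 * Real.pi + S) := by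
    have : 8 * Real.pi ≤ c * (8 * Real.pi) := by
      have h5 : 0 ≤ 8 * Real.pi := by positivity
      nlinarith
    linarith
  have h3 : T * (c * s + 8 * Real.pi + T) ≤ c ^ 2 * (S * (s + 8 * Real.pi + S)) := by
    calc T * (c * s + 8 * Real.pi + T) ≤ (c * S) * (c * (s + 8 * Real.pi + S)) :=
          mul_le_mul hTS h2 (by positivity) (by positivity)
      _ = _ := by ring
  rw [mul_div_assoc', div_le_div_iff₀ (by positivity) (by positivity)]
  have h4 : 0 ≤ 64 * Real.pi ^ 2 := by positivity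
  nlinarith [mul_le_mul_of_nonneg_left h3 h4]

lemma w_nonneg {b : ℝ} (hb : 0 ≤ b) (r : ℝ) : 0 ≤ 1 - Real.exp (-(b * r ^ 2)) := by
  have h : Real.exp (-(b * r ^ 2)) ≤ 1 := by
    rw [Real.exp_le_one_iff]
    have : 0 ≤ b * r ^ 2 := by positivity
    linarith
  linarith

lemma w_pos {b : ℝ} (hb : 0 < b) {r : ℝ} (hr : 0 < r) : 0 < 1 - Real.exp (-(b * r ^ 2)) := by
  have h : Real.exp (-(b * r ^ 2)) < 1 := by
    rw [Real.exp_lt_one_iff]
    have : 0 < b * r ^ 2 := by positivity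
    linarith
  linarith

lemma w_le_one (b r : ℝ) : 1 - Real.exp (-(b * r ^ 2)) ≤ 1 := by
  have := Real.exp_pos (-(b * r ^ 2))
  linarith

lemma w_le (b r : ℝ) : 1 - Real.exp (-(b * r ^ 2)) ≤ b * r ^ 2 := by
  have := Real.add_one_le_exp (-(b * r ^ 2))
  linarith

/-- Lower bound for the increment, positive source. -/
lemma Jg_up {b κ r : ℝ} (hb : 0 < b) (hκ : 0 < κ) (hr : 0 < r) :
    κ * (1 - Real.exp (-(b * r ^ 2))) * (((1 + κ * b) ^ 2)⁻¹ * Jgd (r ^ 2))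
      ≤ Jg (Eb b κ r) - Jg (r ^ 2) := by
  have hr2 : 0 < r ^ 2 := by positivity
  have hw := w_pos hb hr
  have hc : 1 ≤ 1 + κ * b := by
    have : 0 < κ * b := by positivity
    linarith
  have h1 := Jg_sub_ge hr2.le (δ := κ * (1 - Real.exp (-(b * r ^ 2)))) (by positivity)
  unfold Eb
  refine le_trans (mul_le_mul_of_nonneg_left ?_ (by positivity)) h1
  have h2 : r ^ 2 + κ * (1 - Real.exp (-(b * r ^ 2))) ≤ (1 + κ * b) * r ^ 2 := by
    have := mul_le_mul_of_nonneg_left (w_le b r) hκ.le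
    linarith
  have h3 := Jgd_anti (by positivity) h2
  refine le_trans ?_ h3
  have h4 := Jgd_scale hr2 hc
  rw [inv_mul_le_iff₀ (by positivity)]
  exact h4

lemma Jg_up' {b κ r : ℝ} (hb : 0 ≤ b) (hκ : 0 ≤ κ) (hr : 0 < r) :
    Jg (Eb b κ r) - Jg (r ^ 2) ≤ κ * (1 - Real.exp (-(b * r ^ 2))) * Jgd (r ^ 2) :=
  Jg_sub_le (by positivity) (mul_nonneg hκ (w_nonneg hb r))

lemma Eb_neg_ge {b κ r : ℝ} (hκ : 0 ≤ κ) : (1 - κ * b) * r ^ 2 ≤ Eb b (-κ) r := by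
  unfold Eb
  have := mul_le_mul_of_nonneg_left (w_le b r) hκ
  linarith

/-- Upper bound for the decrement, negative source. -/
lemma Jg_dn {b κ r : ℝ} (hb : 0 ≤ b) (hκ : 0 ≤ κ) (hκb : κ * b ≤ 1 / 8) (hr : 0 < r) :
    Jg (r ^ 2) - Jg (Eb b (-κ) r)
      ≤ κ * (1 - Real.exp (-(b * r ^ 2))) * (((1 - κ * b) ^ 2)⁻¹ * Jgd (r ^ 2)) := by
  have hr2 : 0 < r ^ 2 := by positivity
  have hw := w_nonneg hb r
  have hc : 0 < 1 - κ * b := by linarith
  have hc1 : 1 - κ * b ≤ 1 := by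
    have : 0 ≤ κ * b := by positivity
    linarith
  have h2 := Eb_neg_ge (b := b) (r := r) hκ
  have hE : 0 < Eb b (-κ) r := lt_of_lt_of_le (by positivity) h2
  have h1 := Jg_sub_le hE (δ := κ * (1 - Real.exp (-(b * r ^ 2)))) (by positivity)
  have e1 : Eb b (-κ) r + κ * (1 - Real.exp (-(b * r ^ 2))) = r ^ 2 := by unfold Eb; ring
  rw [e1] at h1
  refine h1.trans (mul_le_mul_of_nonneg_left ?_ (by positivity))
  have h3 := Jgd_anti (by positivity) h2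
  refine h3.trans ?_
  have h4 := Jgd_scale (s := (1 - κ * b) * r ^ 2) (c := (1 - κ * b)⁻¹) (by positivity)
    ((one_le_inv₀ hc).2 hc1)
  have e2 : (1 - κ * b)⁻¹ * ((1 - κ * b) * r ^ 2) = r ^ 2 := by
    rw [← mul_assoc, inv_mul_cancel₀ hc.ne', one_mul]
  rw [e2, inv_pow] at h4
  exact h4

lemma Jg_dn' {b κ r : ℝ} (hb : 0 ≤ b) (hκ : 0 ≤ κ) (hκb : κ * b ≤ 1 / 8) (hr : 0 < r) :
    0 ≤ Jg (r ^ 2) - Jg (Eb b (-κ) r) := by
  have hr2 : 0 < r ^ 2 := by positivity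
  have hw := w_nonneg hb r
  have hc : 0 < 1 - κ * b := by linarith
  have h2 := Eb_neg_ge (b := b) (r := r) hκ
  have hE : 0 < Eb b (-κ) r := lt_of_lt_of_le (by positivity) h2
  have e1 : Eb b (-κ) r + κ * (1 - Real.exp (-(b * r ^ 2))) = r ^ 2 := by unfold Eb; ring
  rcases (mul_nonneg hκ hw).eq_or_lt with h0 | h0
  · rw [← h0, add_zero] at e1
    rw [e1]; simp
  · have h1 := Jg_sub_ge hE.le h0
    rw [e1] at h1
    exact le_trans (mul_nonneg h0.le (Jgd_pos hr2).le) h1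

lemma jIntb_eq (b lam r : ℝ) :
    jIntb b lam r = Jg (Eb b lam r) - 8 * Real.pi + 32 * Real.pi ^ 2 / r ^ 2 := by
  unfold jIntb Jg
  ring

lemma jIntb_sub (b lam r : ℝ) :
    r ^ 2 * jIntb b lam r = r ^ 2 * jInt 0 r + r ^ 2 * (Jg (Eb b lam r) - Jg (r ^ 2)) := by
  rw [jIntb_eq, jInt_eq, add_zero]
  ring

lemma Eb_continuous (b lam : ℝ) : Continuous (Eb b lam) := by
  unfold Eb
  fun_prop

lemma Jgd0_integrable : IntegrableOn (fun r => r ^ 2 * Jgd (r ^ 2)) (Ioi (0:ℝ)) := by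
  have h := Jgd_integrable (le_refl (0:ℝ))
  simp only [add_zero] at h
  exact h

lemma Jg_diff_abs {b lam r : ℝ} (hb : 0 ≤ b) (hlam : |lam| * b ≤ 1 / 8) (hr : 0 < r) :
    |Jg (Eb b lam r) - Jg (r ^ 2)| ≤ 2 * |lam| * Jgd (r ^ 2) := by
  have hr2 : 0 < r ^ 2 := by positivity
  have hd := (Jgd_pos hr2).le
  have hw0 := w_nonneg hb r
  have hw1 := w_le_one b r
  rcases le_total 0 lam with h | h
  · rw [abs_of_nonneg h] at hlam ⊢
    have h1 := Jg_up' (r := r) hb h hr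
    have h2 : Jg (r ^ 2) ≤ Jg (Eb b lam r) := by
      rcases (mul_nonneg h hw0).eq_or_lt with h0 | h0
      · have : Eb b lam r = r ^ 2 := by unfold Eb; rw [← h0, add_zero]
        rw [this]
      · have h3 := Jg_sub_ge hr2.le h0
        have h4 : 0 ≤ lam * (1 - Real.exp (-(b * r ^ 2)))
            * Jgd (r ^ 2 + lam * (1 - Real.exp (-(b * r ^ 2)))) :=
          mul_nonneg h0.le (Jgd_pos (by positivity)).le
        unfold Eb
        linarith
    rw [abs_of_nonneg (by linarith)]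
    refine h1.trans (mul_le_mul_of_nonneg_right ?_ hd)
    nlinarith
  · obtain ⟨κ, rfl⟩ : ∃ κ, lam = -κ := ⟨-lam, by ring⟩
    have hκ : 0 ≤ κ := by linarith
    rw [abs_neg, abs_of_nonneg hκ] at hlam ⊢
    have h1 := Jg_dn (r := r) hb hκ hlam hr
    have h2 := Jg_dn' (r := r) hb hκ hlam hr
    rw [abs_sub_comm, abs_of_nonneg h2]
    refine h1.trans ?_
    have h3 : ((1 - κ * b) ^ 2)⁻¹ ≤ 2 := by
      rw [inv_le_comm₀ (by have : 0 < 1 - κ * b := by linarith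
                           positivity) (by norm_num)]
      have h5 : 7 / 8 ≤ 1 - κ * b := by linarith
      have h6 : (7 / 8 : ℝ) ^ 2 ≤ (1 - κ * b) ^ 2 := pow_le_pow_left₀ (by norm_num) h5 2
      linarith
    calc κ * (1 - Real.exp (-(b * r ^ 2))) * (((1 - κ * b) ^ 2)⁻¹ * Jgd (r ^ 2))
        ≤ κ * 1 * (2 * Jgd (r ^ 2)) := by gcongr
      _ = _ := by ring

lemma Jg_diff_integrable {b lam : ℝ} (hb : 0 ≤ b) (hlam : |lam| * b ≤ 1 / 8) :
    IntegrableOn (fun r => r ^ 2 * (Jg (Eb b lam r) - Jg (r ^ 2))) (Ioi (0:ℝ)) := by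
  have hc : Continuous (fun r => r ^ 2 * (Jg (Eb b lam r) - Jg (r ^ 2))) :=
    (continuous_id.pow 2).mul ((Jg_continuous.comp (Eb_continuous b lam)).sub
      (Jg_continuous.comp (continuous_id.pow 2)))
  refine Integrable.mono' (Jgd0_integrable.const_mul (2 * |lam|)) hc.aestronglyMeasurable ?_
  rw [ae_restrict_iff' measurableSet_Ioi]
  refine Eventually.of_forall fun r hr => ?_
  have h := mul_le_mul_of_nonneg_left (Jg_diff_abs hb hlam (show 0 < r from hr)) (sq_nonneg r)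
  rw [Real.norm_eq_abs, abs_mul, abs_of_nonneg (sq_nonneg r)]
  linarith

lemma jIntb_integrable {b lam : ℝ} (hb : 0 ≤ b) (hlam : |lam| * b ≤ 1 / 8) :
    IntegrableOn (fun r => r ^ 2 * jIntb b lam r) (Ioi (0:ℝ)) := by
  have h := (jInt_integrable (le_refl (0:ℝ))).add (Jg_diff_integrable hb hlam)
  refine h.congr (Eventually.of_forall fun r => ?_)
  simp only [Pi.add_apply]
  exact (jIntb_sub b lam r).symm

lemma Jb_sub {b lam : ℝ} (hb : 0 ≤ b) (hlam : |lam| * b ≤ 1 / 8) :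
    Jb b lam - Jf 0 = 1 / (4 * Real.pi ^ 2)
      * ∫ r in Ioi (0:ℝ), r ^ 2 * (Jg (Eb b lam r) - Jg (r ^ 2)) := by
  unfold Jb Jf
  rw [← mul_sub, ← integral_sub (jIntb_integrable hb hlam) (jInt_integrable le_rfl)]
  congr 2
  funext r
  rw [jIntb_sub]
  ring

lemma wJ_integrable {b : ℝ} (hb : 0 ≤ b) :
    IntegrableOn (fun r => (1 - Real.exp (-(b * r ^ 2))) * (r ^ 2 * Jgd (r ^ 2))) (Ioi (0:ℝ)) := by
  have hc : Continuous (fun r : ℝ => 1 - Real.exp (-(b * r ^ 2))) := by fun_prop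
  refine Jgd0_integrable.bdd_mul (c := 1) hc.aestronglyMeasurable (Eventually.of_forall fun r => ?_)
  rw [Real.norm_eq_abs, abs_of_nonneg (w_nonneg hb r)]
  exact w_le_one b r

lemma Jb_up {b κ : ℝ} (hb : 0 < b) (hκ : 0 < κ) (hκb : κ * b ≤ 1 / 8) :
    κ * (((1 + κ * b) ^ 2)⁻¹ * Fb b) ≤ Jb b κ - Jf 0 := by
  have hpi := Real.pi_pos
  rw [Jb_sub hb.le (by rwa [abs_of_pos hκ])]
  unfold Fb
  have e1 : κ * (((1 + κ * b) ^ 2)⁻¹ * (1 / (4 * Real.pi ^ 2)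
      * ∫ r in Ioi (0:ℝ), (1 - Real.exp (-(b * r ^ 2))) * (r ^ 2 * Jgd (r ^ 2))))
      = 1 / (4 * Real.pi ^ 2) * ∫ r in Ioi (0:ℝ), (κ * ((1 + κ * b) ^ 2)⁻¹)
        * ((1 - Real.exp (-(b * r ^ 2))) * (r ^ 2 * Jgd (r ^ 2))) := by
    rw [integral_const_mul]; ring
  rw [e1]
  refine mul_le_mul_of_nonneg_left ?_ (by positivity)
  refine setIntegral_mono_on ((wJ_integrable hb.le).const_mul _)
    (Jg_diff_integrable hb.le (by rwa [abs_of_pos hκ])) measurableSet_Ioi fun r hr => ?_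
  have h := mul_le_mul_of_nonneg_left (Jg_up (r := r) hb hκ hr) (sq_nonneg r)
  calc _ = r ^ 2 * (κ * (1 - Real.exp (-(b * r ^ 2))) * (((1 + κ * b) ^ 2)⁻¹ * Jgd (r ^ 2))) := by
        ring
    _ ≤ _ := h

lemma Jb_dn {b κ : ℝ} (hb : 0 ≤ b) (hκ : 0 ≤ κ) (hκb : κ * b ≤ 1 / 8) :
    Jf 0 - Jb b (-κ) ≤ κ * (((1 - κ * b) ^ 2)⁻¹ * Fb b) := by
  have hpi := Real.pi_pos
  have hl : |-κ| * b ≤ 1 / 8 := by rwa [abs_neg, abs_of_nonneg hκ]
  have h0 : Jf 0 - Jb b (-κ) = -(Jb b (-κ) - Jf 0) := by ring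
  rw [h0, Jb_sub hb hl, ← mul_neg, ← integral_neg]
  unfold Fb
  have e1 : κ * (((1 - κ * b) ^ 2)⁻¹ * (1 / (4 * Real.pi ^ 2)
      * ∫ r in Ioi (0:ℝ), (1 - Real.exp (-(b * r ^ 2))) * (r ^ 2 * Jgd (r ^ 2))))
      = 1 / (4 * Real.pi ^ 2) * ∫ r in Ioi (0:ℝ), (κ * ((1 - κ * b) ^ 2)⁻¹)
        * ((1 - Real.exp (-(b * r ^ 2))) * (r ^ 2 * Jgd (r ^ 2))) := by
    rw [integral_const_mul]; ring
  rw [e1]
  refine mul_le_mul_of_nonneg_left ?_ (by positivity)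
  refine setIntegral_mono_on (Jg_diff_integrable hb hl).neg
    ((wJ_integrable hb).const_mul _) measurableSet_Ioi fun r hr => ?_
  have h := mul_le_mul_of_nonneg_left (Jg_dn (r := r) hb hκ hκb hr) (sq_nonneg r)
  calc _ = r ^ 2 * (Jg (r ^ 2) - Jg (Eb b (-κ) r)) := by ring
    _ ≤ r ^ 2 * (κ * (1 - Real.exp (-(b * r ^ 2))) * (((1 - κ * b) ^ 2)⁻¹ * Jgd (r ^ 2))) := h
    _ = _ := by ring

lemma Fb_nonneg {b : ℝ} (hb : 0 ≤ b) : 0 ≤ Fb b := by
  unfold Fb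
  refine mul_nonneg (by positivity) (setIntegral_nonneg measurableSet_Ioi fun r hr => ?_)
  have hr0 : 0 < r := hr
  exact mul_nonneg (w_nonneg hb r) (mul_nonneg (sq_nonneg r) (Jgd_pos (by positivity)).le)

lemma F1_kappa : 1 / (4 * Real.pi ^ 2) * (32 / 3 * Real.pi * Real.sqrt Real.pi)
    = 8 / (3 * Real.sqrt Real.pi) := by
  have hpi := Real.pi_pos
  have hs : 0 < Real.sqrt Real.pi := Real.sqrt_pos.2 hpi
  have hs2 : Real.sqrt Real.pi ^ 2 = Real.pi := Real.sq_sqrt hpi.le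
  rw [one_div_mul_eq_div, div_eq_div_iff (by positivity) (by positivity)]
  calc 32 / 3 * Real.pi * Real.sqrt Real.pi * (3 * Real.sqrt Real.pi)
      = 32 * Real.pi * Real.sqrt Real.pi ^ 2 := by ring
    _ = 8 * (4 * Real.pi ^ 2) := by rw [hs2]; ring

lemma F1_kappa2 : 8 / (3 * Real.sqrt Real.pi) ≤ 2 := by
  have h0 : (4 / 3 : ℝ) ≤ Real.sqrt Real.pi := by
    refine Real.le_sqrt_of_sq_le ?_
    have := Real.pi_gt_d2
    linarith
  rw [div_le_iff₀ (by positivity)]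
  linarith

lemma Fb_le {b : ℝ} (hb : 0 ≤ b) : Fb b ≤ 8 / (3 * Real.sqrt Real.pi) := by
  rw [← F1_kappa, ← Jgd_integral]
  unfold Fb
  refine mul_le_mul_of_nonneg_left ?_ (by positivity)
  refine setIntegral_mono_on (wJ_integrable hb) Jgd0_integrable measurableSet_Ioi fun r hr => ?_
  have hr0 : 0 < r := hr
  have h1 : 0 ≤ r ^ 2 * Jgd (r ^ 2) := mul_nonneg (sq_nonneg r) (Jgd_pos (by positivity)).le
  have h2 := mul_le_mul_of_nonneg_right (w_le_one b r) h1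
  linarith

lemma Fb_le_two {b : ℝ} (hb : 0 ≤ b) : Fb b ≤ 2 := (Fb_le hb).trans F1_kappa2

/-! ### The function `FF` -/

lemma FF_eq (d : ℝ) : FF d = -(1 / (4 * Real.pi ^ 2)) * F1b_P d := by
  have hpi := Real.pi_pos
  unfold FF F1b_P
  have h0 : 0 ≤ d ^ 2 + 16 * Real.pi := by positivity
  have h1 : Real.sqrt (d ^ 2 + 16 * Real.pi) ^ 3
      = (d ^ 2 + 16 * Real.pi) * Real.sqrt (d ^ 2 + 16 * Real.pi) := by
    rw [pow_succ, Real.sq_sqrt h0]
  rw [h1]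
  field_simp
  ring

lemma FF_integral {d : ℝ} (hd : 0 ≤ d) :
    FF d = 1 / (4 * Real.pi ^ 2) * ∫ r in Ioi d, r ^ 2 * Jgd (r ^ 2) := by
  have hnn : ∀ r ∈ Ioi d, 0 ≤ r ^ 2 * Jgd (r ^ 2) := by
    intro r hr
    have hr0 : (0:ℝ) < r := lt_of_le_of_lt hd hr
    exact mul_nonneg (by positivity) (Jgd_pos (by positivity)).le
  rw [integral_Ioi_of_hasDerivAt_of_nonneg F1b_P_continuous.continuousAt.continuousWithinAt
    (fun r hr => F1b_P_hasDerivAt (lt_of_le_of_lt hd hr)) hnn F1b_P_tendsto, FF_eq]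
  ring

lemma FF_zero : FF 0 = 8 / (3 * Real.sqrt Real.pi) := by
  rw [FF_integral le_rfl, Jgd_integral, F1_kappa]

lemma FF_continuous : Continuous FF := by
  have h : FF = fun d => -(1 / (4 * Real.pi ^ 2)) * F1b_P d := funext FF_eq
  rw [h]
  exact continuous_const.mul F1b_P_continuous

lemma FF_anti {d e : ℝ} (hd : 0 ≤ d) (hde : d ≤ e) : FF e ≤ FF d := by
  rw [FF_integral hd, FF_integral (hd.trans hde)]
  refine mul_le_mul_of_nonneg_left ?_ (by positivity)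
  refine setIntegral_mono_set (Jgd0_integrable.mono_set (Ioi_subset_Ioi hd)) ?_
    (Ioi_subset_Ioi hde).eventuallyLE
  rw [EventuallyLE, ae_restrict_iff' measurableSet_Ioi]
  refine Eventually.of_forall fun r hr => ?_
  have hr0 : (0:ℝ) < r := lt_of_le_of_lt hd hr
  exact mul_nonneg (by positivity) (Jgd_pos (by positivity)).le

lemma FF_nonneg {d : ℝ} (hd : 0 ≤ d) : 0 ≤ FF d := by
  rw [FF_integral hd]
  refine mul_nonneg (by positivity) (setIntegral_nonneg measurableSet_Ioi fun r hr => ?_)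
  have hr0 : (0:ℝ) < r := lt_of_le_of_lt hd hr
  exact mul_nonneg (by positivity) (Jgd_pos (by positivity)).le

end Pool.Agent.Lib.MP_4952d6_mp.O

end

/-! ### O.WB3 -/

section

/-! # O.WB3: the number bound and the norms of `A_k`, `B_k`

`XX_inner` with `u' = u`, `v' = v`: `‖XX u v f‖² = (ip u u).re * yy v f + Re Σ_j Σ_{l≠j} ⟪br u l (br v j f), br u j (br v l f)⟫`.
`norm_XX_left` (`u = θ`): `|⟪x, y⟫| ≤ (‖x‖² + ‖y‖²)/2` and the symmetry `j ↔ l` of the double sum: it is at most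
`Σ_j Σ_{l≠j} ‖br θ l (br v j f)‖² ≤ κ yy v f`.
`norm_XX_right` (`XX v θ`): the double sum is at most `Σ_j Σ_{l≠j} ‖br v l (br θ j f)‖² = Σ_j Σ_{l≠j} ‖br θ j (br v l f)‖²` (`br_br_comm`)
`= Σ_l Σ_{j≠l} ‖br θ j (br v l f)‖² ≤ κ yy v f`.
`AB_norm`: `‖x+y‖² + ‖x-y‖² = 2(‖x‖²+‖y‖²)` (`parallelogram_law_with_norm`), the four bounds, and `2 (2 κ + 1) ≤ 4 (κ + 1)`. -/

set_option autoImplicit false
set_option linter.unusedSectionVars false
set_option linter.unusedVariables false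
open MeasureTheory Function Filter Topology Set ComplexConjugate

namespace Pool.Agent.Lib.MP_4952d6_mp.O

open LB

variable {ι : Type*} [Fintype ι] [DecidableEq ι]

/-- Number bound for the window. -/
def NB (θ : T3 → ℝ) (κ : ℝ) (f : HS ι) : Prop :=
  ∀ v : T3 → ℂ, BC v → ∀ j, ∑ l ∈ Finset.univ.erase j, ‖br (fun x => (θ x : ℂ)) l (br v j f)‖ ^ 2
    ≤ κ * ‖br v j f‖ ^ 2

private lemma WB3_inner_self {E : Type*} [NormedAddCommGroup E] [InnerProductSpace ℂ E] (x : E) :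
    (inner ℂ x x : ℂ).re = ‖x‖ ^ 2 := by
  rw [inner_self_eq_norm_sq_to_K]
  norm_cast

private lemma WB3_inner_le {E : Type*} [NormedAddCommGroup E] [InnerProductSpace ℂ E] (x y : E) :
    (inner ℂ x y : ℂ).re ≤ (‖x‖ ^ 2 + ‖y‖ ^ 2) / 2 := by
  have h1 : (inner ℂ x y : ℂ).re ≤ ‖x‖ * ‖y‖ := re_inner_le_norm (𝕜 := ℂ) x y
  nlinarith [sq_nonneg (‖x‖ - ‖y‖)]

private lemma WB3_swap (F : ι → ι → ℝ) :
    ∑ j, ∑ l ∈ Finset.univ.erase j, F j l = ∑ j, ∑ l ∈ Finset.univ.erase j, F l j := by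
  refine Finset.sum_comm' fun x y => ?_
  simp only [Finset.mem_univ, Finset.mem_erase, true_and, and_true]
  exact ne_comm

/-- the double sum -/
private lemma WB3_double {u v : T3 → ℂ} (f : HS ι) :
    (∑ j, ∑ l ∈ Finset.univ.erase j, inner ℂ (br u l (br v j f)) (br u j (br v l f)) : ℂ).re ≤
      ∑ j, ∑ l ∈ Finset.univ.erase j, ‖br u l (br v j f)‖ ^ 2 := by
  rw [Complex.re_sum]
  simp only [Complex.re_sum]
  have h1 : ∑ j, ∑ l ∈ Finset.univ.erase j,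
      (inner ℂ (br u l (br v j f)) (br u j (br v l f)) : ℂ).re ≤
      ∑ j, ∑ l ∈ Finset.univ.erase j, (‖br u l (br v j f)‖ ^ 2 / 2 +
        ‖br u j (br v l f)‖ ^ 2 / 2) := by
    refine Finset.sum_le_sum fun j _ => Finset.sum_le_sum fun l _ => ?_
    rw [← add_div]
    exact WB3_inner_le _ _
  refine h1.trans (le_of_eq ?_)
  simp only [Finset.sum_add_distrib]
  rw [WB3_swap fun j l => ‖br u j (br v l f)‖ ^ 2 / 2, ← Finset.sum_add_distrib]
  refine Finset.sum_congr rfl fun j _ => ?_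
  rw [← Finset.sum_add_distrib]
  exact Finset.sum_congr rfl fun l _ => by ring

private lemma WB3_norm {u v : T3 → ℂ} (hu : BC u) (hv : BC v) {e2 : ℝ} (h1 : ip u u = (e2 : ℂ))
    (f : HS ι) : ‖XX u v f‖ ^ 2 ≤ e2 * yy v f +
      ∑ j, ∑ l ∈ Finset.univ.erase j, ‖br u l (br v j f)‖ ^ 2 := by
  have h := congrArg Complex.re (XX_inner hu hv hu hv f)
  rw [WB3_inner_self, h1, Complex.add_re, Complex.re_ofReal_mul, Complex.re_sum] at h
  simp only [WB3_inner_self] at h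
  rw [h]
  have h2 := WB3_double (u := u) (v := v) f
  have h3 : e2 * ∑ j, ‖br v j f‖ ^ 2 = e2 * yy v f := rfl
  rw [h3]
  linarith

lemma yy_nonneg (v : T3 → ℂ) (f : HS ι) : 0 ≤ yy v f :=
  Finset.sum_nonneg fun j _ => sq_nonneg _

theorem norm_XX_left {θ : T3 → ℝ} (hθ : BM θ) {κ : ℝ}
    (h1 : ip (fun x => (θ x : ℂ)) (fun x => (θ x : ℂ)) = 1) {v : T3 → ℂ} (hv : BC v) {f : HS ι}
    (hf : NB θ κ f) : ‖XX (fun x => (θ x : ℂ)) v f‖ ^ 2 ≤ (κ + 1) * yy v f := by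
  have h := WB3_norm (bc_of_bm hθ) hv (e2 := 1) (by rw [h1, Complex.ofReal_one]) f
  have h2 : ∑ j, ∑ l ∈ Finset.univ.erase j, ‖br (fun x => (θ x : ℂ)) l (br v j f)‖ ^ 2 ≤
      κ * yy v f := by
    rw [yy, Finset.mul_sum]
    exact Finset.sum_le_sum fun j _ => hf v hv j
  linarith

theorem norm_XX_right {θ : T3 → ℝ} (hθ : BM θ) {κ e2 : ℝ} {v : T3 → ℂ} (hv : BC v)
    (h1 : ip v v = (e2 : ℂ)) {f : HS ι} (hf : NB θ κ f) :
    ‖XX v (fun x => (θ x : ℂ)) f‖ ^ 2 ≤ e2 * yy (fun x => (θ x : ℂ)) f + κ * yy v f := by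
  have hb := bc_of_bm hθ
  have h := WB3_norm hv hb h1 f
  have h2 : ∑ j, ∑ l ∈ Finset.univ.erase j, ‖br v l (br (fun x => (θ x : ℂ)) j f)‖ ^ 2 ≤
      κ * yy v f := by
    rw [WB3_swap fun j l => ‖br v l (br (fun x => (θ x : ℂ)) j f)‖ ^ 2, yy, Finset.mul_sum]
    refine Finset.sum_le_sum fun j _ => le_trans (le_of_eq ?_) (hf v hv j)
    refine Finset.sum_congr rfl fun l hl => ?_
    rw [br_br_comm hv hb (Finset.ne_of_mem_erase hl).symm]
  linarith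

theorem AB_norm {t : ℝ} (ht : 0 < t) {θ : T3 → ℝ} (hθ : BM θ) (k : Fin 3 → ℤ) {e2 κ : ℝ}
    (hκ : 0 ≤ κ) (h1 : ip (fun x => (θ x : ℂ)) (fun x => (θ x : ℂ)) = 1)
    (h2 : ip (ef t θ k) (ef t θ k) = (e2 : ℂ)) (h3 : ip (ef t θ (-k)) (ef t θ (-k)) = (e2 : ℂ))
    {f : HS ι} (hf : NB θ κ f) :
    ‖AA t θ k f‖ ^ 2 + ‖BB t θ k f‖ ^ 2 + (‖AA t θ (-k) f‖ ^ 2 + ‖BB t θ (-k) f‖ ^ 2)
      ≤ 4 * e2 * yy (fun x => (θ x : ℂ)) f
        + 4 * (κ + 1) * (yy (ef t θ k) f + yy (ef t θ (-k)) f) := by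
  have hk := bc_ef ht hθ k
  have hk' := bc_ef ht hθ (-k)
  have a1 := norm_XX_left hθ h1 hk hf
  have a2 := norm_XX_left hθ h1 hk' hf
  have b1 := norm_XX_right hθ hk h2 hf
  have b2 := norm_XX_right hθ hk' h3 hf
  have y1 := yy_nonneg (ef t θ k) f
  have y2 := yy_nonneg (ef t θ (-k)) f
  have p : ∀ x y : HS ι, ‖x + y‖ ^ 2 + ‖x - y‖ ^ 2 = 2 * (‖x‖ ^ 2 + ‖y‖ ^ 2) := by
    intro x y
    have := parallelogram_law_with_norm ℂ x y
    nlinarith
  rw [AA, BB, AA, BB, p, p, neg_neg]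
  nlinarith

end Pool.Agent.Lib.MP_4952d6_mp.O

end

/-! ### O.WC1 -/

section

/-! # O.WC1: the number bound on the support of a cut-off

Let `g = br v j (MB X f)`. By `br_ae` (and `MB_ae`, inserted under the integral with `mp_upd j`, see `Ker_cvc_congr` for the pattern)
`g x = ∫ conj (v y) X (update x j y) f (update x j y) dy` for a.e. `x`. If `b < Σ_{l≠j} θ (x l)` then
`Σ_l θ (update x j y l) = θ y + Σ_{l≠j} θ (x l) > b` for every `y`, so `X (update x j y) = 0` and `g x = 0`.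
Hence a.e. `(Σ_{l≠j} θ (x l)) ‖g x‖² ≤ b ‖g x‖²`. Finally `‖br θ l g‖² ≤ c * qf (fun x => θ (x l)) g` (`br_norm_le` with `v = θ`, `g = θ`, `Win.i1`),
sum over `l ≠ j` (`qf_sum`), `norm_sq_eq`. -/

set_option autoImplicit false
set_option linter.unusedSectionVars false
set_option linter.unusedVariables false
open MeasureTheory Function Filter Topology Set ComplexConjugate

namespace Pool.Agent.Lib.MP_4952d6_mp.O

open LB

variable {ι : Type*} [Fintype ι] [DecidableEq ι]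

theorem NB_of_support {θ : T3 → ℝ} {c S : ℝ} (hW : Win θ c S) {X : (ι → T3) → ℝ} (hX : BM X)
    {b : ℝ} (hb : 0 ≤ b) (hs : ∀ x, b < ∑ l, θ (x l) → X x = 0) (f : HS ι) :
    NB θ (c * b) (MB (fun x => (X x : ℂ)) f) := by
  intro v hv j
  have hae : ∀ᵐ x ∂(piN ι), b < ∑ l ∈ Finset.univ.erase j, θ (x l) →
      (br v j (MB (fun x => (X x : ℂ)) f) : (ι → T3) → ℂ) x = 0 := by
    have h1 := br_ae hv j (MB (fun x => (X x : ℂ)) f)
    have h2 := MB_ae (bmc_of_bm hX) f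
    have h3 : ∀ᵐ x ∂(piN ι), ∀ᵐ y ∂lam3,
        (MB (fun x => (X x : ℂ)) f : (ι → T3) → ℂ) (update x j y) =
          (X (update x j y) : ℂ) * f (update x j y) :=
      Measure.ae_ae_of_ae_prod ((LB.mp_upd (ι := ι) j).quasiMeasurePreserving.ae h2)
    filter_upwards [h1, h3] with x hx1 hx3 hbx
    rw [hx1]
    have h4 : (fun y => conj (v y) * (MB (fun x => (X x : ℂ)) f : (ι → T3) → ℂ) (update x j y))
        =ᵐ[lam3] fun _ => (0 : ℂ) := by
      filter_upwards [hx3] with y hy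
      rw [hy]
      have h5 : ∑ l, θ (update x j y l) = θ y + ∑ l ∈ Finset.univ.erase j, θ (x l) := by
        rw [← Finset.add_sum_erase Finset.univ _ (Finset.mem_univ j), update_self]
        congr 1
        refine Finset.sum_congr rfl fun l hl => ?_
        rw [update_of_ne (Finset.ne_of_mem_erase hl)]
      have h6 : X (update x j y) = 0 := by
        refine hs _ ?_
        rw [h5]
        have := hW.nn y
        linarith
      rw [h6]
      simp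
    rw [integral_congr_ae h4, integral_zero]
  generalize br v j (MB (fun x => (X x : ℂ)) f) = g at hae ⊢
  have hc : 0 ≤ c := by
    rw [← hW.i1]
    exact integral_nonneg hW.nn
  have hbm : ∀ l : ι, BM (fun x : ι → T3 => θ (x l)) := fun l =>
    hW.bm.comp (measurable_pi_apply l)
  have hS : BM (fun x : ι → T3 => ∑ l ∈ Finset.univ.erase j, θ (x l)) :=
    BM.finset_sum _ fun l _ => hbm l
  have hq : qf (fun x => ∑ l ∈ Finset.univ.erase j, θ (x l)) g ≤ b * ‖g‖ ^ 2 := by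
    rw [← qf_const b g]
    unfold qf
    refine integral_mono_ae (qf_int hS g) (qf_int (BM.const b) g) ?_
    filter_upwards [hae] with x hx
    by_cases hbx : b < ∑ l ∈ Finset.univ.erase j, θ (x l)
    · have := hx hbx
      simp [this]
    · exact mul_le_mul_of_nonneg_right (not_lt.1 hbx) (sq_nonneg _)
  calc ∑ l ∈ Finset.univ.erase j, ‖br (fun x => (θ x : ℂ)) l g‖ ^ 2
      ≤ ∑ l ∈ Finset.univ.erase j, c * qf (fun x => θ (x l)) g := by
        refine Finset.sum_le_sum fun l _ => ?_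
        have h := br_norm_le (v := fun x => (θ x : ℂ)) (bc_of_bm hW.bm) hW.bm
          (fun y => by rw [Complex.norm_real, Real.norm_eq_abs, abs_of_nonneg (hW.nn y)]) l g
        rwa [hW.i1] at h
    _ = c * qf (fun x => ∑ l ∈ Finset.univ.erase j, θ (x l)) g := by
        rw [← Finset.mul_sum, qf_sum _ (fun l _ => hbm l)]
    _ ≤ c * (b * ‖g‖ ^ 2) := mul_le_mul_of_nonneg_left hq hc
    _ = c * b * ‖g‖ ^ 2 := by ring

end Pool.Agent.Lib.MP_4952d6_mp.O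

end

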