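import Pool.Agent.Lib.MP_4952d6_mp.Pk.G29
import Pool.Agent.Lib.MP_4952d6_mp.Po.N10

/-! Merged modules (to save import time): O.F4. -/

/-! ### O.F4 -/

section

/-!
# O.F4: physical assembly of the theorem above an infrared cutoff

`A = scatLen`, `a` the scattering length of a truncation of the interaction, `(1 - δ) A ≤ a ≤ A`,
`uA ^ 160 = √(ρ A³)`, `u ^ 160 = √(ρ a³)`.
-/

set_option autoImplicit false
set_option linter.unusedSectionVars false
set_option linter.unusedVariables false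
open MeasureTheory Function Filter Topology Set
open scoped ENNReal

namespace Pool.Agent.Lib.MP_4952d6_mp.O

open LB

/-! ### Truncations of a physical interaction -/

/-- The interaction is the limit of bounded interactions with scattering data. -/
theorem F4_trunc {m R₀ R : ℝ} {v : (Fin 3 → ℝ) → ℝ} (hm : 0 < m) (hR0 : 0 ≤ R₀) (hR : R₀ < R)
    (hv : Integrable v) (hv0 : ∀ x, 0 ≤ v x)
    (hrad : ∀ x y : Fin 3 → ℝ, ∑ α, x α ^ 2 = ∑ α, y α ^ 2 → v x = v y)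
    (hsupp : ∀ x : Fin 3 → ℝ, R ^ 2 ≤ ∑ α, x α ^ 2 → v x = 0)
    (hgen0 : 0 < R₀ ∨ 0 < ∫ x, v x) :
    0 < scatLen m R₀ v ∧ ∀ δ ε₁ : ℝ, 0 < δ → 0 < ε₁ → ∃ (W f Q : ℝ → ℝ) (a : ℝ),
      Scat W R₀ R a f Q ∧ a ≤ scatLen m R₀ v ∧ (1 - δ) * scatLen m R₀ v ≤ a ∧
      ∀ L : ℝ, 2 * R < L →
        (∀ᵐ y ∂lam3, ENNReal.ofReal (2 * (L ^ 2 * W (L * rr y))) ≤ Vp m L v y) ∧
        (∫⁻ y, Vp m L v y ∂lam3 ≠ ⊤) ∧
        ∫⁻ y, Vp m L v y ∂lam3 - ∫⁻ y, ENNReal.ofReal (2 * (L ^ 2 * W (L * rr y))) ∂lam3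
          ≤ ENNReal.ofReal (2 * sig / L * ε₁) := by
  have hRpos : 0 < R := hR0.trans_lt hR
  obtain ⟨g, hgm, hg0, hg⟩ := exists_rep hv hv0 hrad
  set u : ℝ → ℝ := fun r => if r < R then m * g r else 0 with hu
  have hum : Measurable u := Measurable.ite measurableSet_Iio (hgm.const_mul m) measurable_const
  have hu0 : ∀ r, 0 ≤ u r := fun r => by
    simp only [hu]; split_ifs
    · exact mul_nonneg hm.le (hg0 r)
    · exact le_rfl
  have huR : ∀ r, R ≤ r → u r = 0 := fun r hr => by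
    simp only [hu]; rw [if_neg (not_lt.2 hr)]
  have huv : ∀ᵐ r : ℝ, 0 < r → u r = m * prof v r := by
    filter_upwards [hg] with r hr hr0
    simp only [hu]
    split_ifs with h
    · rw [hr hr0]
    · have : prof v r = 0 := by
        refine hsupp _ ?_
        simp
        push Not at h
        exact pow_le_pow_left₀ hRpos.le h 2
      rw [this, mul_zero]
  have hradp : ∀ x, v x = prof v (nr x) := prof_eq hrad
  have hvm : AEMeasurable v volume := hv.aestronglyMeasurable.aemeasurable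
  have hIv : IntegrableOn (fun r => r ^ 2 * prof v r) (Ioi (0:ℝ)) := by
    rw [← integrable_nr]
    exact hv.congr (Eventually.of_forall hradp)
  have hi : IntegrableOn (fun r => r ^ 2 * u r) (Ioi (0:ℝ)) := by
    refine (hIv.const_mul m).congr ((ae_restrict_iff' measurableSet_Ioi).2 ?_)
    filter_upwards [huv] with r hr hr0
    rw [hr hr0]; ring
  have hUm : ∫ r in Ioi (0:ℝ), r ^ 2 * u r = m * ∫ r in Ioi (0:ℝ), r ^ 2 * prof v r := by
    rw [← integral_const_mul]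
    refine setIntegral_congr_ae measurableSet_Ioi ?_
    filter_upwards [huv] with r hr hr0
    rw [hr hr0]; ring
  have hUv : ∫ x, v x = sig / m * ∫ r in Ioi (0:ℝ), r ^ 2 * u r := by
    have e1 : ∫ x, v x = sig * ∫ r in Ioi (0:ℝ), r ^ 2 * prof v r := by
      rw [← integral_nr]
      exact integral_congr_ae (Eventually.of_forall hradp)
    rw [e1, hUm]; field_simp
  set U : ℝ := ∫ r in Ioi (0:ℝ), r ^ 2 * u r with hUdef
  have hσ := sig_pos
  have hgen : 0 < R₀ ∨ 0 < U := by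
    rcases hgen0 with h | h
    · exact Or.inl h
    · right
      rw [hUv] at h
      have h1 : 0 < sig / m := by positivity
      exact (mul_pos_iff_of_pos_left h1).1 h
  obtain ⟨A, hA0, halA, hup, hlow⟩ := exists_data hum hu0 hi hR0 hgen hm hv hv0 hradp huv
  have hWle : ∀ n K : ℝ, ∀ᵐ r : ℝ, 0 < r → tr u n K r ≤ m * prof v r := by
    intro n K
    filter_upwards [huv] with r hr hr0
    rw [← hr hr0]
    exact tr_le hu0 n K r
  have hAal : A = scatLen m R₀ v := by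
    refine le_antisymm (le_of_forall_lt fun c hc => ?_) halA
    obtain ⟨k, hk1, hk⟩ := hlow c hc
    obtain ⟨a, f, Q, h, hca⟩ := hk k (max k (R₀ + 1)) le_rfl (le_max_left _ _)
      (lt_of_lt_of_le (by linarith) (le_max_right _ _))
    exact hca.trans_le (h.le_scatLen hm hv hv0 hradp (hWle _ _))
  rw [← hAal]
  refine ⟨hA0, fun δ ε₁ hδ hε₁ => ?_⟩
  obtain ⟨k, hk1, hk⟩ := hlow ((1 - δ) * A) (by
    have := mul_pos hδ hA0
    linarith only [this])
  obtain ⟨k₂, hk₂1, hk₂⟩ := tr_small hum hu0 hi hε₁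
  set n : ℝ := max k k₂ with hn
  set K : ℝ := max n R with hKd
  have hn1 : 1 ≤ n := hk1.trans (le_max_left _ _)
  have hn0 : 0 ≤ n := by linarith
  have hfun : tr u n K = tr u n R := by
    funext r
    unfold tr
    by_cases h1 : r < R
    · rw [if_pos h1, if_pos (h1.trans_le (le_max_right _ _))]
    · rw [if_neg h1, huR r (not_lt.1 h1), min_eq_left hn0]
      split_ifs <;> rfl
  obtain ⟨a', f', Q', h', hca'⟩ := hk n K (le_max_left _ _)
    ((le_max_left _ _).trans (le_max_left _ _)) (hR.trans_le (le_max_right _ _))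
  have hgen' : 0 < R₀ ∨ 0 < ∫ r in Ioi (0:ℝ), r ^ 2 * tr u n R r := by
    rcases hR0.eq_or_lt with h0 | h0
    · right
      have h1 := h'.a_le_int
      rw [← h0, zero_add, tr_integral_Ioi (hRpos.le.trans (le_max_right _ _)), hfun] at h1
      exact h'.a_pos.trans_le h1
    · exact Or.inl h0
  obtain ⟨a, f, Q, h⟩ := scat_tr hum hu0 hR0 hn0 hR hgen'
  have haa : a' ≤ a := h.mono h' fun r _ => le_of_eq (by rw [hfun])
  refine ⟨tr u n R, f, Q, a, h, hup n R a f Q hn0 h, hca'.le.trans haa, fun L h2R => ?_⟩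
  have hL : 0 < L := by linarith
  have hcharge : U - (∫ r in Ioi (0:ℝ), r ^ 2 * tr u n R r) ≤ ε₁ := by
    have h1 := hk₂ n K (le_max_right _ _) ((le_max_right _ _).trans (le_max_left _ _))
    rwa [hfun] at h1
  have hI0 : 0 ≤ ∫ r in Ioi (0:ℝ), r ^ 2 * tr u n R r :=
    setIntegral_nonneg measurableSet_Ioi fun r _ => mul_nonneg (sq_nonneg r) (h.W_nonneg r)
  have hch := F4_charge hm hv hv0 hradp hL
  rw [← hUm] at hch
  have hchW := F4_chargeW h hL h2R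
  refine ⟨F4_pot h hm hradp (hWle n R) hL, by rw [hch]; exact ENNReal.ofReal_ne_top, ?_⟩
  rw [hch, hchW, ← ENNReal.ofReal_sub _ (by positivity), ← mul_sub]
  refine ENNReal.ofReal_le_ofReal ?_
  exact mul_le_mul_of_nonneg_left hcharge (by positivity)

/-! ### The function `FF` -/

lemma F4_dens {r : ℝ} (hr : 0 < r) : r ^ 2 * Jgd (r ^ 2) ≤ 8 * Real.pi ^ 2 / r := by
  have hpi := Real.pi_gt_d2
  have hr2 : (0:ℝ) < r ^ 2 := by positivity
  rcases le_total r 4 with h | h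
  · have h1 := Jgd_le_sqrt hr2
    rw [Real.sqrt_sq hr.le] at h1
    rw [le_div_iff₀ hr]
    calc r ^ 2 * Jgd (r ^ 2) * r ≤ r ^ 2 * (4 / r) * r := by gcongr
      _ = 4 * r ^ 2 := by field_simp
      _ ≤ 4 * 4 ^ 2 := by gcongr
      _ ≤ 8 * Real.pi ^ 2 := by nlinarith
  · have h1 := Jgd_le_sq hr2
    rw [le_div_iff₀ hr]
    calc r ^ 2 * Jgd (r ^ 2) * r ≤ r ^ 2 * (32 * Real.pi ^ 2 / (r ^ 2) ^ 2) * r := by gcongr
      _ = 32 * Real.pi ^ 2 / r := by field_simp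
      _ ≤ 8 * Real.pi ^ 2 := by
        rw [div_le_iff₀ hr]
        nlinarith [sq_nonneg Real.pi]

lemma F4_FF_close {d e : ℝ} (hd : 0 < d) (hde : d ≤ e) :
    FF d - FF e ≤ 2 * ((e - d) / d) := by
  rcases hde.eq_or_lt with h | h
  · rw [h]; simp
  · have hpi := Real.pi_pos
    obtain ⟨c, hc, hcs⟩ := exists_hasDerivAt_eq_slope F1b_P (fun r => r ^ 2 * Jgd (r ^ 2)) h
      F1b_P_continuous.continuousOn (fun x hx => F1b_P_hasDerivAt (hd.trans hx.1))
    have hc0 : 0 < c := hd.trans hc.1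
    have h1 : F1b_P e - F1b_P d = (e - d) * (c ^ 2 * Jgd (c ^ 2)) := by
      rw [hcs]
      have : e - d ≠ 0 := by linarith
      field_simp
    have h2 : FF d - FF e = 1 / (4 * Real.pi ^ 2) * (F1b_P e - F1b_P d) := by
      rw [FF_eq, FF_eq]; ring
    rw [h2, h1]
    have h3 : c ^ 2 * Jgd (c ^ 2) ≤ 8 * Real.pi ^ 2 / d :=
      (F4_dens hc0).trans (by gcongr; exact hc.1.le)
    calc 1 / (4 * Real.pi ^ 2) * ((e - d) * (c ^ 2 * Jgd (c ^ 2)))
        ≤ 1 / (4 * Real.pi ^ 2) * ((e - d) * (8 * Real.pi ^ 2 / d)) := by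
          have : 0 ≤ e - d := by linarith
          gcongr
      _ = 2 * ((e - d) / d) := by field_simp; ring

lemma F4_FF_le_two {d : ℝ} (hd : 0 ≤ d) : FF d ≤ 2 := by
  refine (FF_anti le_rfl hd).trans ?_
  rw [FF_zero]
  exact F1_kappa2

/-! ### The fraction of the particles above a threshold -/

lemma F4_thr {L κ d l s : ℝ} (hL : 0 < L) (hs : 0 < s) (h1 : s * d ^ 2 = κ ^ 2)
    (h2 : s * l ^ 2 = 1 / L ^ 2) (p : Fin 3 → ℤ) :
    κ ^ 2 ≤ (2 * Real.pi / L) ^ 2 * ∑ α, (p α : ℝ) ^ 2 ↔ d ^ 2 ≤ l ^ 2 * ksq p := by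
  have h3 : (2 * Real.pi / L) ^ 2 * ∑ α, (p α : ℝ) ^ 2 = s * (l ^ 2 * ksq p) := by
    unfold ksq mom2
    rw [← mul_assoc, h2]
    ring
  rw [h3, ← h1]
  exact ⟨fun h => le_of_mul_le_mul_left h hs, fun h => mul_le_mul_of_nonneg_left h hs.le⟩

lemma F4_mom {N : ℕ} {L κ d l s : ℝ} (hL : 0 < L) (hs : 0 < s) (h1 : s * d ^ 2 = κ ^ 2)
    (h2 : s * l ^ 2 = 1 / L ^ 2) {ψ : (Fin N → Fin 3 → ℝ) → ℂ}
    (hψ : AEStronglyMeasurable ψ (volume.restrict (box N L))) :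
    momFraction N L κ ψ = Dm (ind d l) (TT N L ψ) / N := by
  unfold momFraction Dm
  rw [one_div, inv_mul_eq_div]
  congr 1
  refine Finset.sum_congr rfl fun j _ => tsum_congr fun k => ?_
  rw [fourierC_eq hL hψ]
  unfold ind
  by_cases h : κ ^ 2 ≤ (2 * Real.pi / L) ^ 2 * ∑ α, (k j α : ℝ) ^ 2
  · rw [if_pos h, if_pos ((F4_thr hL hs h1 h2 _).1 h), one_mul]
  · rw [if_neg h, if_neg fun h3 => h ((F4_thr hL hs h1 h2 _).2 h3), zero_mul]

/-! ### Moment bounds with another parameter -/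

lemma F4_Db_nonneg {N : ℕ} {b : ℝ} (hb : 0 ≤ b) (ψ : (Fin N → T3) → ℂ) : 0 ≤ Db b ψ := by
  unfold Db Dm
  refine Finset.sum_nonneg fun j _ => tsum_nonneg fun k => mul_nonneg ?_ (sq_nonneg _)
  have h := mul_nonneg hb (ksq_nonneg (k j))
  have : Real.exp (-(b * ksq (k j))) ≤ 1 := by
    rw [Real.exp_le_one_iff]; linarith
  linarith

lemma F4_VV_nonneg {N : ℕ} (s : ℝ) (ψ : (Fin N → T3) → ℂ) : 0 ≤ VV s ψ := by
  unfold VV
  exact integral_nonneg fun z => integral_nonneg fun x => by positivity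

lemma LocO.F4_change {N : ℕ} {C uA u t T b : ℝ} {ψ : (Fin N → T3) → ℂ} (hC : 0 ≤ C) (hb : 0 ≤ b)
    (hu : 0 < u) (huA : u ≤ uA) (h161 : uA ^ 161 ≤ 2 * u ^ 161) (h : LocO C uA t T b ψ) :
    LocO (2 * C) u t T b ψ := by
  have hD := F4_Db_nonneg hb ψ
  have hV := F4_VV_nonneg (T / 2) ψ
  have huA0 : 0 < uA := hu.trans_le huA
  have hN : (0:ℝ) ≤ (Fintype.card (Fin N) : ℝ) := Nat.cast_nonneg _
  set n : ℝ := (Fintype.card (Fin N) : ℝ) with hn
  refine ⟨fun s h1 h2 => (h.m0 s h1 h2).trans ?_, fun r s h1 h2 h3 h4 =>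
    (h.md r s h1 h2 h3 h4).trans ?_, fun s h1 h2 => (h.mv s h1 h2).trans ?_⟩
  · have : 0 ≤ C * n ^ 2 := by positivity
    linarith
  · have e1 : Db b ψ / uA ^ 4 ≤ Db b ψ / u ^ 4 := by gcongr
    have e2 : 0 ≤ Db b ψ / u ^ 4 := by positivity
    have e3 : Db b ψ / uA ^ 4 + uA ^ 161 * n ≤ 2 * (Db b ψ / u ^ 4 + u ^ 161 * n) := by
      have := mul_le_mul_of_nonneg_right h161 hN
      linarith
    calc C * n ^ 2 * (Db b ψ / uA ^ 4 + uA ^ 161 * n)
        ≤ C * n ^ 2 * (2 * (Db b ψ / u ^ 4 + u ^ 161 * n)) :=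
          mul_le_mul_of_nonneg_left e3 (by positivity)
      _ = 2 * C * n ^ 2 * (Db b ψ / u ^ 4 + u ^ 161 * n) := by ring
  · have e1 : VV (T / 2) ψ / uA ≤ VV (T / 2) ψ / u := by gcongr
    have e2 : 0 ≤ VV (T / 2) ψ / u := by positivity
    have e3 : VV (T / 2) ψ / uA + uA ^ 161 * n ^ 2 ≤ 2 * (VV (T / 2) ψ / u + u ^ 161 * n ^ 2) := by
      have := mul_le_mul_of_nonneg_right h161 (show 0 ≤ n ^ 2 by positivity)
      linarith
    calc C * n * (VV (T / 2) ψ / uA + uA ^ 161 * n ^ 2)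
        ≤ C * n * (2 * (VV (T / 2) ψ / u + u ^ 161 * n ^ 2)) :=
          mul_le_mul_of_nonneg_left e3 (by positivity)
      _ = 2 * C * n * (VV (T / 2) ψ / u + u ^ 161 * n ^ 2) := by ring

/-! ### The windows of the parameters -/

/-- Powers of the ratio `r = u / uA`. -/
lemma F4_pow {r x : ℝ} (hr : 0 < r) (hx : 9 / 10 ≤ x) (hx1 : x ≤ 1) (h : r ^ 320 = x ^ 3)
    {k : ℕ} (hk : k ≤ 640) : r ≤ 1 ∧ 1 / 2 ≤ r ^ k ∧ r ^ k ≤ 1 := by
  have hx0 : 0 < x := by linarith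
  have h1 : r ≤ 1 := by
    by_contra hc
    push Not at hc
    have h2 : 1 < r ^ 320 := one_lt_pow₀ hc (by norm_num)
    rw [h] at h2
    have h3 : x ^ 3 ≤ 1 := pow_le_one₀ hx0.le hx1
    linarith
  refine ⟨h1, ?_, pow_le_one₀ hr.le h1⟩
  have h2 : r ^ 640 ≤ r ^ k := pow_le_pow_of_le_one hr.le h1 hk
  have h3 : r ^ 640 = x ^ 6 := by
    calc r ^ 640 = (r ^ 320) ^ 2 := by ring
      _ = x ^ 6 := by rw [h]; ring
  have h4 : (9 / 10 : ℝ) ^ 6 ≤ x ^ 6 := pow_le_pow_left₀ (by norm_num) hx 6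
  have h5 : (1 / 2 : ℝ) ≤ (9 / 10) ^ 6 := by norm_num
  linarith

/-- The windows. -/
lemma F4_win {c g x p : ℝ} (hp : 1 / 2 ≤ p) (hp1 : p ≤ 1) (hx : 9 / 10 ≤ x) (hx1 : x ≤ 1)
    (hc : 0 ≤ c) (h : g = x ^ 2 / p * c) : c / 2 ≤ g ∧ g ≤ 2 * c := by
  have hp0 : 0 < p := by linarith
  have h1 : (1 / 2 : ℝ) ≤ x ^ 2 / p := by
    rw [le_div_iff₀ hp0]
    nlinarith
  have h2 : x ^ 2 / p ≤ 2 := by
    rw [div_le_iff₀ hp0]
    nlinarith
  rw [h]
  constructor
  · nlinarith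
  · nlinarith

/-! ### Comparison of the scattering lengths -/

lemma F4_ratio {ρ a A δ : ℝ} (hρ : 0 < ρ) (ha : 0 < a) (haA : a ≤ A) (hδ : 0 ≤ δ)
    (hδ1 : δ ≤ 1 / 5) (h : (1 - δ) * A ≤ a) :
    (1 - 3 * δ) * Real.sqrt (ρ * A ^ 3) ≤ Real.sqrt (ρ * a ^ 3) ∧
      Real.sqrt (ρ * a ^ 3) ≤ Real.sqrt (ρ * A ^ 3) ∧ Real.sqrt (A / a) ≤ 1 + 2 * δ := by
  have hA : 0 < A := ha.trans_le haA
  refine ⟨?_, sqrt_mono hρ haA, ?_⟩
  · refine Real.le_sqrt_of_sq_le ?_
    rw [mul_pow, Y_sq hρ hA]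
    have h2 : ((1 - δ) * A) ^ 3 ≤ a ^ 3 := by
      refine pow_le_pow_left₀ ?_ h 3
      exact mul_nonneg (by linarith) hA.le
    have h3 : (1 - 3 * δ) ^ 2 ≤ (1 - δ) ^ 3 := by
      have e1 := mul_nonneg hδ hδ
      have e2 := mul_nonneg hδ (sub_nonneg.2 hδ1)
      have e3 := mul_nonneg (mul_nonneg hδ hδ) hδ
      have e4 := mul_nonneg (mul_nonneg hδ hδ) (sub_nonneg.2 hδ1)
      nlinarith only [e1, e2, e3, e4, hδ]
    calc (1 - 3 * δ) ^ 2 * (ρ * A ^ 3) ≤ (1 - δ) ^ 3 * (ρ * A ^ 3) :=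
          mul_le_mul_of_nonneg_right h3 (by positivity)
      _ = ρ * ((1 - δ) * A) ^ 3 := by ring
      _ ≤ ρ * a ^ 3 := mul_le_mul_of_nonneg_left h2 hρ.le
  · rw [Real.sqrt_le_left (by positivity), div_le_iff₀ ha]
    have h3 : 1 ≤ (1 + 2 * δ) ^ 2 * (1 - δ) := by
      have e1 := mul_nonneg hδ hδ
      have e2 := mul_nonneg hδ (sub_nonneg.2 hδ1)
      have e4 := mul_nonneg (mul_nonneg hδ hδ) (sub_nonneg.2 hδ1)
      nlinarith only [e1, e2, e4, hδ]
    calc A = A * 1 := by ring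
      _ ≤ A * ((1 + 2 * δ) ^ 2 * (1 - δ)) := mul_le_mul_of_nonneg_left h3 (by positivity)
      _ = (1 + 2 * δ) ^ 2 * ((1 - δ) * A) := by ring
      _ ≤ (1 + 2 * δ) ^ 2 * a := by gcongr

/-- The final estimate. -/
lemma F4_end {p YA Y s l Cb Cs Cx δ : ℝ} (hY : 0 < Y) (hYA : 0 < YA) (h1 : (1 - 3 * δ) * YA ≤ Y)
    (h2 : Y ≤ YA) (hδ : 0 ≤ δ) (hl0 : 0 ≤ l) (hlb : l ≤ Cb) (hCx : |p / Y - l| ≤ Cx)
    (hs : |l - s| ≤ Cs * (2 * δ)) : |p - s * YA| ≤ (Cx + 3 * Cb * δ + 2 * Cs * δ) * YA := by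
  have hx : p / YA = (Y / YA) * (p / Y) := by field_simp
  have hx1 : Y / YA ≤ 1 := by rwa [div_le_one hYA]
  have hx0 : 1 - 3 * δ ≤ Y / YA := by rwa [le_div_iff₀ hYA]
  have hxp : 0 < Y / YA := by positivity
  have e : p / YA - s = (Y / YA) * (p / Y - l) - (1 - Y / YA) * l + (l - s) := by
    rw [hx]; ring
  have a1 : |(Y / YA) * (p / Y - l)| ≤ Cx := by
    rw [abs_mul, abs_of_pos hxp]
    calc Y / YA * |p / Y - l| ≤ 1 * |p / Y - l| := mul_le_mul_of_nonneg_right hx1 (abs_nonneg _)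
      _ ≤ Cx := by rw [one_mul]; exact hCx
  have a2 : |(1 - Y / YA) * l| ≤ 3 * Cb * δ := by
    rw [abs_of_nonneg (mul_nonneg (by linarith) hl0)]
    calc (1 - Y / YA) * l ≤ (3 * δ) * Cb :=
          mul_le_mul (by linarith) hlb hl0 (by positivity)
      _ = 3 * Cb * δ := by ring
  have a3 : |p / YA - s| ≤ Cx + 3 * Cb * δ + 2 * Cs * δ := by
    rw [e]
    calc |(Y / YA) * (p / Y - l) - (1 - Y / YA) * l + (l - s)|
        ≤ |(Y / YA) * (p / Y - l) - (1 - Y / YA) * l| + |l - s| := abs_add_le _ _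
      _ ≤ |(Y / YA) * (p / Y - l)| + |(1 - Y / YA) * l| + |l - s| := by
          gcongr
          exact abs_sub _ _
      _ ≤ _ := by linarith
  have a4 : p - s * YA = (p / YA - s) * YA := by field_simp
  rw [a4, abs_mul, abs_of_pos hYA]
  exact mul_le_mul_of_nonneg_right a3 hYA.le

/-! ### Assembly -/

/-- The root. -/
lemma F4_root {y : ℝ} (hy : 0 < y) : ∃ u : ℝ, 0 < u ∧ u ^ 160 = y :=
  ⟨y ^ ((1:ℝ) / 160), Real.rpow_pos_of_pos hy _, by
    rw [← Real.rpow_natCast, ← Real.rpow_mul hy.le]; norm_num⟩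

/-- **Physical assembly.** -/
theorem otd_of (hT : OTStatement) (hM : OMStatement) : OTDStatement := by
  intro m R₀ R v hm hR0 hR hv hv0 hrad hsupp hgen d₀ ε hd₀ hε
  have hRpos : 0 < R := hR0.trans_lt hR
  have hσ := sig_pos
  have hvm : AEMeasurable v volume := hv.aestronglyMeasurable.aemeasurable
  obtain ⟨hA0, htr⟩ := F4_trunc hm hR0 hR hv hv0 hrad hsupp hgen
  set A : ℝ := scatLen m R₀ v with hA
  obtain ⟨C, uM, hC, huM, hM'⟩ := hM m R₀ R v hm hR0 hR hv hv0 hrad hsupp hgen A hA0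
  obtain ⟨c, uT, hc, huT, hT'⟩ := hT (2 * R / A) (2 * C) d₀ (ε / 2) hd₀ (by positivity)
  set um : ℝ := min uM uT with hum
  have hum0 : 0 < um := lt_min huM huT
  set δ : ℝ := min (1 / 10) (ε / 20) with hδ
  have hδ0 : 0 < δ := lt_min (by norm_num) (by positivity)
  have hδ1 : δ ≤ 1 / 10 := min_le_left _ _
  have hδ2 : δ ≤ ε / 20 := min_le_right _ _
  refine ⟨um ^ 320 / A ^ 3, by positivity, fun ρ hρ hρ1 => ?_⟩
  have hYA := Y_pos hρ hA0
  have hYA2 := Y_sq hρ hA0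
  obtain ⟨uA, huA0, huA⟩ := F4_root hYA
  have huAlt : uA < um := by
    rw [lt_div_iff₀ (by positivity), ← hYA2, ← huA, ← pow_mul] at hρ1
    exact lt_of_pow_lt_pow_left₀ 320 hum0.le hρ1
  obtain ⟨NM, hNM⟩ := hM' ρ uA hρ huA0 (huAlt.trans_le (min_le_left _ _)) huA
  set YA : ℝ := Real.sqrt (ρ * A ^ 3) with hYAd
  obtain ⟨W, f, Q, a, h, haA, haA', hV⟩ := htr δ (c * (A / 2) * (YA / 2) / (2 * sig)) hδ0
    (by positivity)
  have ha : 0 < a := h.a_pos
  have hA2a : A ≤ 2 * a := by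
    have := mul_le_mul_of_nonneg_right hδ1 hA0.le
    linarith
  obtain ⟨hr1, hr2, hr3⟩ := F4_ratio hρ ha haA hδ0.le (by linarith) haA'
  have hY := Y_pos hρ ha
  have hY2 := Y_sq hρ ha
  obtain ⟨u, hu0, hu⟩ := F4_root hY
  set Y : ℝ := Real.sqrt (ρ * a ^ 3) with hYd
  have hYA2Y : YA / 2 ≤ Y := by
    have h1 : (1 / 2 : ℝ) ≤ 1 - 3 * δ := by linarith
    have h2 := mul_le_mul_of_nonneg_right h1 hYA.le
    linarith
  have huuA : u ≤ uA := by
    have h1 : u ^ 160 ≤ uA ^ 160 := by rw [hu, huA]; exact hr2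
    exact le_of_pow_le_pow_left₀ (by norm_num) huA0.le h1
  obtain ⟨aT, haT, hT''⟩ := hT' u hu0 ((huuA.trans_lt huAlt).trans_le (min_le_right _ _))
  obtain ⟨NS, hNS1, hNS⟩ := F4_side hρ (show 0 < max (2 * R) (a / aT) from
    lt_max_of_lt_left (by linarith))
  refine ⟨max NM NS, fun N hN ψ hψ hmin d hd => ?_⟩
  have hNM' : NM ≤ N := (le_max_left _ _).trans hN
  have hNS' : NS ≤ N := (le_max_right _ _).trans hN
  have hN1 : 1 ≤ N := hNS1.trans hNS'
  have hN0 : (0:ℝ) < N := by exact_mod_cast hN1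
  have hside := hNS N hNS'
  have hL := side_pos hρ hN1
  have hL3 := side_cube hρ hN1
  have hM2 := hNM N hNM'
  set L : ℝ := side ρ N with hLdef
  have h2R : 2 * R < L := (le_max_left _ _).trans_lt hside
  have hLa : a / L < aT := by
    have h1 : a / aT < L := (le_max_right _ _).trans_lt hside
    rw [div_lt_iff₀ haT] at h1
    rw [div_lt_iff₀ hL]; linarith
  obtain ⟨hV1, hV2, hV3⟩ := hV L h2R
  have hmin' := F4_min hm hL hR0 hvm hψ hmin
  have hadm := adm_TT hm hL hR0 hvm hψ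
  -- the windows
  set x : ℝ := a / A with hx
  have hx1 : x ≤ 1 := by rw [hx, div_le_one hA0]; exact haA
  have hx9 : 9 / 10 ≤ x := by
    rw [hx, le_div_iff₀ hA0]
    have := mul_le_mul_of_nonneg_right hδ1 hA0.le
    linarith
  have hx0 : 0 < x := by linarith
  set r : ℝ := u / uA with hr
  have hr0 : 0 < r := by positivity
  have hr320 : r ^ 320 = x ^ 3 := by
    rw [hr, hx, div_pow, div_pow]
    have e1 : u ^ 320 = ρ * a ^ 3 := by
      rw [← hY2, ← hu, ← pow_mul]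
    have e2 : uA ^ 320 = ρ * A ^ 3 := by
      rw [← hYA2, ← huA, ← pow_mul]
    rw [e1, e2]
    field_simp
  have eu : u = r * uA := by rw [hr]; field_simp
  have ea : a = x * A := by rw [hx]; field_simp
  have hw : ∀ k : ℕ, k ≤ 640 → 1 / 2 ≤ r ^ k ∧ r ^ k ≤ 1 := fun k hk =>
    (F4_pow hr0 hx9 hx1 hr320 hk).2
  have w1 := F4_win (hw 304 (by norm_num)).1 (hw 304 (by norm_num)).2 hx9 hx1
    (c := (A / L / uA ^ 152) ^ 2) (g := (a / L / u ^ 152) ^ 2) (by positivity) (by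
      rw [eu, ea]; field_simp)
  have w2 := F4_win (hw 323 (by norm_num)).1 (hw 323 (by norm_num)).2 hx9 hx1
    (c := (A / L / uA ^ 160) ^ 2 / uA ^ 3) (g := (a / L / u ^ 160) ^ 2 / u ^ 3) (by positivity) (by
      rw [eu, ea]; field_simp)
  have w3 := F4_win (hw 320 (by norm_num)).1 (hw 320 (by norm_num)).2 hx9 hx1
    (c := (A / L / uA ^ 160) ^ 2) (g := (a / L / u ^ 160) ^ 2) (by positivity) (by
      rw [eu, ea]; field_simp)
  have h161 : uA ^ 161 ≤ 2 * u ^ 161 := by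
    rw [eu, mul_pow]
    have h1 := (hw 161 (by norm_num)).1
    have h2 : 0 < uA ^ 161 := by positivity
    have h3 := mul_le_mul_of_nonneg_right h1 h2.le
    linarith only [h3]
  have hloc := (hM2 (TT N L ψ) hadm hmin' _ _ _ w1.1 w1.2 w2.1 w2.2 w3.1).F4_change hC.le
    (by positivity) hu0 huuA h161
  -- the torus theorem
  have hreg : RegO (2 * R / A) (2 * C) c u (fun t => L ^ 2 * W (L * t)) _ _ (R₀ / L) (R / L) (a / L)
      (Vp m L v) (TT N L ψ) :=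
    { sc := h.scale hL
      Na := by
        rw [show u ^ 320 = (u ^ 160) ^ 2 by ring, hu, hY2, ← hL3, div_pow]
        field_simp
      Rle := by
        rw [← mul_div_assoc]
        refine div_le_div_of_nonneg_right ?_ hL.le
        rw [div_mul_eq_mul_div, le_div_iff₀ hA0]
        linarith only [mul_le_mul_of_nonneg_left hA2a hRpos.le]
      V_meas := (aem_vper hL hvm).const_mul _
      V_top := hV2
      V_ge := hV1
      V_int := by
        refine hV3.trans (ENNReal.ofReal_le_ofReal ?_)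
        rw [hu]
        have h1 : A / 2 ≤ a := by linarith
        calc 2 * sig / L * (c * (A / 2) * (YA / 2) / (2 * sig))
            = c * ((A / 2) * (YA / 2)) / L := by field_simp
          _ ≤ c * (a * Y) / L := by gcongr
          _ = c * (a / L * Y) := by ring
      adm := hadm
      min := hmin'
      loc := hloc }
  -- the threshold
  have hAa : 1 ≤ A / a := by rwa [one_le_div ha]
  set d' : ℝ := d * Real.sqrt (A / a) with hd'
  have hd0 : 0 < d := hd₀.trans_le hd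
  have hsq1 : 1 ≤ Real.sqrt (A / a) := Real.one_le_sqrt.2 hAa
  have hdd' : d ≤ d' := le_mul_of_one_le_right hd0.le hsq1
  have hfin := hT'' N _ _ _ _ _ _ _ _ hLa hreg d' (hd.trans hdd')
  have hs : 0 < ρ * a := by positivity
  have e1 : ρ * a * d' ^ 2 = (d * Real.sqrt (ρ * A)) ^ 2 := by
    rw [hd', mul_pow, mul_pow, Real.sq_sqrt (by positivity), Real.sq_sqrt (by positivity)]
    field_simp
  have e2 : ρ * a * (a / L / u ^ 160) ^ 2 = 1 / L ^ 2 := by
    rw [hu, div_pow, hY2]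
    field_simp
  rw [F4_mom hL hs e1 e2 hψ.1.1]
  have hfin2 : |Dm (ind d' (a / L / u ^ 160)) (TT N L ψ) / N / Y - FF d'| ≤ ε / 2 := by
    rw [div_div, ← hu]
    exact hfin
  have hFd' : |FF d' - FF d| ≤ 2 * (2 * δ) := by
    have h1 := FF_anti hd0.le hdd'
    have h2 := F4_FF_close hd0 hdd'
    have h3 : (d' - d) / d ≤ 2 * δ := by
      rw [div_le_iff₀ hd0, hd']
      have := mul_le_mul_of_nonneg_left hr3 hd0.le
      linarith
    rw [abs_sub_comm, abs_of_nonneg (by linarith)]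
    linarith
  have hend := F4_end hY hYA hr1 hr2 hδ0.le (FF_nonneg (hd0.le.trans hdd'))
    (F4_FF_le_two (hd0.le.trans hdd')) hfin2 hFd'
  refine hend.trans (mul_le_mul_of_nonneg_right ?_ hYA.le)
  linarith

end Pool.Agent.Lib.MP_4952d6_mp.O

end

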