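import Pool.Agent.Lib.MP_4952d6_mp.Pk.G34
import Pool.Agent.Lib.MP_4952d6_mp.Po.N01
import Pool.Agent.Lib.MP_4952d6_mp.Po.N05

/-! Merged modules (to save import time): O.XS, O.XV1, O.XV2, O.WG2, O.WG3, O.WG4. -/

/-! ### O.XS -/

section

/-!
# O.XS: Cauchy-Schwarz for sums over particles

`‖∑ E_l‖² = ∫ |∑ E_l(x)|² dx` (`norm_sq_eq`; `Lp.coeFn_finset_sum` or induction with `Lp.coeFn_add`), a.e.
`|∑_l E_l(x)|² ≤ (∑_l k_l √d_l)² = (∑_l √k_l √(k_l d_l))² ≤ (∑_m k_m) (∑_l k_l d_l)` (`Finset.sum_mul_sq_le_sq_mul_sq`;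
`‖E_l x‖ ≤ k_l √d_l` from the hypothesis by `Real.sqrt_le_sqrt`). The right side is integrable
(`BM` times integrable: `Integrable.bdd_mul`), expand the product of the two sums and integrate
(`Finset.sum_mul_sum`, `integral_finset_sum`).
-/

set_option autoImplicit false
set_option linter.unusedSectionVars false
set_option linter.unusedVariables false
open MeasureTheory Function Filter Topology Set ComplexConjugate

namespace Pool.Agent.Lib.MP_4952d6_mp.O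

open LB

variable {N : ℕ}

private theorem XS_pt {ι : Type*} (S : Finset ι) (e : ι → ℂ) (k d : ι → ℝ)
    (hk : ∀ l ∈ S, 0 ≤ k l) (hd : ∀ l ∈ S, 0 ≤ d l) (h : ∀ l ∈ S, ‖e l‖ ^ 2 ≤ k l ^ 2 * d l) :
    ‖∑ l ∈ S, e l‖ ^ 2 ≤ ∑ l ∈ S, ∑ m ∈ S, (k m * k l) * d l := by
  have h1 : ∀ l ∈ S, ‖e l‖ ≤ Real.sqrt (k l) * Real.sqrt (k l * d l) := by
    intro l hl
    have h2 := hk l hl
    have h3 := hd l hl
    have h4 : Real.sqrt (k l) * Real.sqrt (k l * d l) = Real.sqrt (k l ^ 2 * d l) := by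
      rw [← Real.sqrt_mul h2]
      congr 1
      ring
    rw [h4]
    exact Real.le_sqrt_of_sq_le (h l hl)
  have h5 : ‖∑ l ∈ S, e l‖ ≤ ∑ l ∈ S, Real.sqrt (k l) * Real.sqrt (k l * d l) :=
    (norm_sum_le _ _).trans (Finset.sum_le_sum h1)
  have h6 : ‖∑ l ∈ S, e l‖ ^ 2 ≤ (∑ l ∈ S, Real.sqrt (k l) * Real.sqrt (k l * d l)) ^ 2 :=
    pow_le_pow_left₀ (norm_nonneg _) h5 2
  refine h6.trans ((Finset.sum_mul_sq_le_sq_mul_sq _ _ _).trans (le_of_eq ?_))
  have h7 : ∑ l ∈ S, Real.sqrt (k l) ^ 2 = ∑ m ∈ S, k m :=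
    Finset.sum_congr rfl fun l hl => Real.sq_sqrt (hk l hl)
  have h8 : ∑ l ∈ S, Real.sqrt (k l * d l) ^ 2 = ∑ l ∈ S, k l * d l :=
    Finset.sum_congr rfl fun l hl => Real.sq_sqrt (mul_nonneg (hk l hl) (hd l hl))
  rw [h7, h8, mul_comm, Finset.sum_mul_sum]
  refine Finset.sum_congr rfl fun l _ => Finset.sum_congr rfl fun m _ => ?_
  ring

private theorem XS_coe {N : ℕ} (S : Finset (Fin N)) (E : Fin N → HS (Fin N)) :
    ∀ᵐ x ∂(piN (Fin N)), ((∑ l ∈ S, E l : HS (Fin N)) : (Fin N → T3) → ℂ) x =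
      ∑ l ∈ S, (E l : (Fin N → T3) → ℂ) x := by
  classical
  induction S using Finset.induction_on with
  | empty =>
    filter_upwards [Lp.coeFn_zero ℂ 2 (piN (Fin N))] with x hx
    rw [Finset.sum_empty, Finset.sum_empty, hx]
    rfl
  | insert a S ha ih =>
    rw [Finset.sum_insert ha]
    filter_upwards [ih, Lp.coeFn_add (E a) (∑ l ∈ S, E l)] with x hx h2
    rw [h2, Pi.add_apply, hx, Finset.sum_insert ha]

theorem norm_sum_sq_le (S : Finset (Fin N)) (E : Fin N → HS (Fin N))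
    (k d : Fin N → (Fin N → T3) → ℝ) (hk : ∀ l ∈ S, BM (k l)) (hk0 : ∀ l ∈ S, ∀ x, 0 ≤ k l x)
    (hd0 : ∀ l ∈ S, ∀ x, 0 ≤ d l x) (hdi : ∀ l ∈ S, Integrable (d l) (piN (Fin N)))
    (hE : ∀ l ∈ S, ∀ᵐ x ∂(piN (Fin N)), ‖(E l : (Fin N → T3) → ℂ) x‖ ^ 2 ≤ k l x ^ 2 * d l x) :
    ‖∑ l ∈ S, E l‖ ^ 2
      ≤ ∑ l ∈ S, ∑ m ∈ S, ∫ x, (k m x * k l x) * d l x ∂(piN (Fin N)) := by
  have hint : ∀ l ∈ S, ∀ m ∈ S,
      Integrable (fun x => (k m x * k l x) * d l x) (piN (Fin N)) := by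
    intro l hl m hm
    have h1 : BM (fun x => k m x * k l x) := (hk m hm).mul (hk l hl)
    obtain ⟨C, hC⟩ := h1.bdd
    exact (hdi l hl).bdd_mul h1.meas.aestronglyMeasurable
      (Filter.Eventually.of_forall fun x => by
        rw [Real.norm_eq_abs]
        exact hC x)
  have hE' : ∀ᵐ x ∂(piN (Fin N)), ∀ l ∈ S,
      ‖(E l : (Fin N → T3) → ℂ) x‖ ^ 2 ≤ k l x ^ 2 * d l x := by
    rw [Filter.eventually_all_finset]
    exact hE
  rw [norm_sq_eq]
  have h2 : ∑ l ∈ S, ∑ m ∈ S, ∫ x, (k m x * k l x) * d l x ∂(piN (Fin N)) =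
      ∫ x, ∑ l ∈ S, ∑ m ∈ S, (k m x * k l x) * d l x ∂(piN (Fin N)) := by
    rw [integral_finsetSum _ (fun l hl => integrable_finsetSum _ fun m hm => hint l hl m hm)]
    refine Finset.sum_congr rfl fun l hl => ?_
    rw [integral_finsetSum _ (fun m hm => hint l hl m hm)]
  rw [h2]
  refine integral_mono_ae (integrable_norm_sq _)
    (integrable_finsetSum _ fun l hl => integrable_finsetSum _ fun m hm => hint l hl m hm) ?_
  filter_upwards [XS_coe S E, hE'] with x hx h3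
  rw [hx]
  exact XS_pt S (fun l => (E l : (Fin N → T3) → ℂ) x) (fun l => k l x) (fun l => d l x)
    (fun l hl => hk0 l hl x) (fun l hl => hd0 l hl x) h3

end Pool.Agent.Lib.MP_4952d6_mp.O

end

/-! ### O.XV1 -/

section

/-!
# O.XV1: Parseval for a trigonometric series with coefficients in `L²`

`v z = ∑' p, ch p z • w p` converges absolutely, `‖ch p z‖ = 1`, continuous in `z` (`continuous_tsum`), bounded by `∑ ‖w p‖`, so `‖v z‖²` is integrable.
`‖v z‖² = re ⟪v z, v z⟫ = ∑_p ∑_q re (conj(ch p z) ch q z ⟪w p, w q⟫)` (`HasSum` on pairs: `HasSum.mapL`-type arguments with `innerSL`, or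
first `⟪v z, v z⟫ = ∑_q ch q z ⟪v z, w q⟫`, then `⟪v z, w q⟫ = ∑_p conj(ch p z) ⟪w p, w q⟫`), absolutely summable on pairs
(`‖w p‖ ‖w q‖`), integrate termwise (`hasSum_integral_of_summable_integral_norm`), `HKE_orth`:
`∫ conj(ch p) ch q = if q = p then 1 else 0`.
-/

set_option autoImplicit false
set_option linter.unusedSectionVars false
set_option linter.unusedVariables false
open MeasureTheory Function Filter Topology Set ComplexConjugate

namespace Pool.Agent.Lib.MP_4952d6_mp.O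

open LB

lemma XV1_norm {ι : Type*} [Fintype ι] (w : (Fin 3 → ℤ) → HS ι) (p : Fin 3 → ℤ) (z : T3) :
    ‖ch p z • w p‖ = ‖w p‖ := by
  rw [norm_smul, ch_norm, one_mul]

/-- Parseval for a finite sum -/
lemma XV1_fin {ι : Type*} [Fintype ι] (w : (Fin 3 → ℤ) → HS ι) (S : Finset (Fin 3 → ℤ)) :
    ∫ z, ‖∑ p ∈ S, ch p z • w p‖ ^ 2 ∂lam3 = ∑ p ∈ S, ‖w p‖ ^ 2 := by
  classical
  have h1 : ∀ z : T3, ((‖∑ p ∈ S, ch p z • w p‖ ^ 2 : ℝ) : ℂ) =
      ∑ p ∈ S, ∑ q ∈ S, ((starRingEnd ℂ) (ch p z) * ch q z) * inner ℂ (w p) (w q) := by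
    intro z
    have h2 := inner_self_eq_norm_sq_to_K (𝕜 := ℂ) (∑ p ∈ S, ch p z • w p)
    push_cast
    refine h2.symm.trans ?_
    rw [sum_inner]
    refine Finset.sum_congr rfl fun p _ => ?_
    rw [inner_sum]
    refine Finset.sum_congr rfl fun q _ => ?_
    rw [inner_smul_left, inner_smul_right]
    ring
  have hint : ∀ p q : Fin 3 → ℤ, Integrable (fun z : T3 => ((starRingEnd ℂ) (ch p z) * ch q z)
      * inner ℂ (w p) (w q)) lam3 := by
    intro p q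
    have hc : Continuous (fun z : T3 => ((starRingEnd ℂ) (ch p z) * ch q z)
        * inner ℂ (w p) (w q)) :=
      ((Complex.continuous_conj.comp (ch_continuous p)).mul (ch_continuous q)).mul continuous_const
    exact hc.integrable_of_hasCompactSupport (HasCompactSupport.of_compactSpace _)
  have h3 : ((∫ z, ‖∑ p ∈ S, ch p z • w p‖ ^ 2 ∂lam3 : ℝ) : ℂ) =
      ((∑ p ∈ S, ‖w p‖ ^ 2 : ℝ) : ℂ) := by
    rw [← integral_complex_ofReal]
    simp_rw [h1]
    rw [integral_finsetSum _ fun p _ => integrable_finsetSum _ fun q _ => hint p q]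
    push_cast
    refine Finset.sum_congr rfl fun p hp => ?_
    rw [integral_finsetSum _ fun q _ => hint p q]
    have h4 : ∀ q ∈ S, ∫ z, ((starRingEnd ℂ) (ch p z) * ch q z) * inner ℂ (w p) (w q) ∂lam3 =
        if q = p then (‖w p‖ : ℂ) ^ 2 else 0 := by
      intro q _
      rw [integral_mul_const, HKE_orth]
      split_ifs with h5
      · subst h5
        rw [one_mul]
        exact inner_self_eq_norm_sq_to_K (𝕜 := ℂ) (w q)
      · rw [zero_mul]
    rw [Finset.sum_congr rfl h4, Finset.sum_ite_eq' S p, if_pos hp]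
  exact_mod_cast h3

theorem par_HS {ι : Type*} [Fintype ι] {w : (Fin 3 → ℤ) → HS ι} (hw : Summable fun p => ‖w p‖) :
    Integrable (fun z => ‖∑' p, ch p z • w p‖ ^ 2) lam3 ∧
      HasSum (fun p => ‖w p‖ ^ 2) (∫ z, ‖∑' p, ch p z • w p‖ ^ 2 ∂lam3) := by
  have hs : ∀ z : T3, Summable fun p => ch p z • w p := by
    intro z
    refine Summable.of_norm ?_
    simp_rw [XV1_norm]
    exact hw
  have hcont : Continuous fun z : T3 => ∑' p, ch p z • w p := by
    refine continuous_tsum (fun p => (ch_continuous p).smul continuous_const) hw fun p z => ?_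
    rw [XV1_norm]
  have hcont2 : Continuous fun z : T3 => ‖∑' p, ch p z • w p‖ ^ 2 := hcont.norm.pow 2
  refine ⟨hcont2.integrable_of_hasCompactSupport (HasCompactSupport.of_compactSpace _), ?_⟩
  have hfin := XV1_fin w
  unfold HasSum
  simp_rw [← hfin]
  refine tendsto_integral_filter_of_dominated_convergence
    (fun _ => (∑' p, ‖w p‖) ^ 2) ?_ ?_ (integrable_const _) ?_
  · refine Filter.Eventually.of_forall fun S => ?_
    have hc : Continuous fun z : T3 => ‖∑ p ∈ S, ch p z • w p‖ ^ 2 :=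
      (continuous_finsetSum _ fun p _ => (ch_continuous p).smul continuous_const).norm.pow 2
    exact hc.aestronglyMeasurable
  · refine Filter.Eventually.of_forall fun S => Filter.Eventually.of_forall fun z => ?_
    rw [Real.norm_eq_abs, abs_of_nonneg (sq_nonneg _)]
    refine pow_le_pow_left₀ (norm_nonneg _) ?_ 2
    refine (norm_sum_le _ _).trans ?_
    simp_rw [XV1_norm]
    exact hw.sum_le_tsum S (fun p _ => norm_nonneg _)
  · refine Filter.Eventually.of_forall fun z => ?_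
    exact ((hs z).hasSum.norm).pow 2

end Pool.Agent.Lib.MP_4952d6_mp.O

end

/-! ### O.XV2 -/

section

/-!
# O.XV2: the smoothed density between low momentum operators

`mzO t σ z ψ = ∑_j P_j MB(hk σ (z - x_j)) P_j ψ`.
`mz_hasSum`: `hk σ (z-x_j) = ∑_p exp(-σ ksq p) ch p z ch (-p) (x_j)` (`hasSum_hk`, `ch_add_arg`, `ch_neg_arg`, `ch_neg`), absolutely and uniformly
summable (`summable_exp_ksq` with exponent `0`, `HKE_summable`), so `MB(hk σ (z-x_j)) g = ∑_p exp(-σ ksq p) ch p z MB(ch (-p) (x_j)) g` in `HS`: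
the difference with a partial sum is `MB` of a function bounded by the tail (`norm_MB_le`); apply `PP1 t j` (continuous) and sum over `j`;
`rk t p j ψ = PP1 t j (MB (ch (-p) (x_j)) (PP1 t j ψ))` by definition.
`mz_var`: subtract `N ψ` in the term `p = 0` (`ch 0 z = 1`, `ksq 0 = 0`), `par_HS` with `w p = exp(-σ ksq p) • R_p ψ` (`p ≠ 0`),
`w 0 = R_0 ψ - N ψ`, `R_p ψ = ∑_j rk t p j ψ`, `‖R_p ψ‖² = Rsq t ψ p`, `‖R_pψ‖ ≤ N ‖ψ‖` (for the summability); `exp(-σ ksq)² = exp(-2σ ksq)`.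
`R_0 ψ - N ψ = ∑_j (P_j² - 1) ψ`, so `‖·‖² ≤ N ∑_j ‖(1-P_j²)ψ‖² = N ∑_p (1-et²)² nk ≤ N ∑_p (1 - et²) nk` (`sum_mult` / `sum_QQ1` in LB/RkC.lean are
models: `‖S1 φ j ψ‖² = ∑_k φ(k_j)² |c_k|²`, `hasSum_DM_norm`).
-/

set_option autoImplicit false
set_option linter.unusedSectionVars false
set_option linter.unusedVariables false
open MeasureTheory Function Filter Topology Set ComplexConjugate

namespace Pool.Agent.Lib.MP_4952d6_mp.O

open LB

variable {N : ℕ}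

/-- `∑_j P_j hk σ (z - x_j) P_j ψ` -/
noncomputable def mzO (t σ : ℝ) (z : T3) (ψ : HS (Fin N)) : HS (Fin N) :=
  ∑ j, PP1 t j (MB (fun x : Fin N → T3 => ((hk σ (z - x j) : ℝ) : ℂ)) (PP1 t j ψ))

/-! auxiliary lemmas -/

section aux

variable {ι : Type*} [Fintype ι]

lemma XV2_zero (f : HS ι) : MB (fun _ : ι → T3 => (0 : ℂ)) f = 0 := by
  have hB : BMC (fun _ : ι → T3 => (0 : ℂ)) := ⟨stronglyMeasurable_const, 0, fun x => by simp⟩
  have h := norm_MB_le hB (le_refl (0 : ℝ)) (fun x => by simp) f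
  rw [zero_mul] at h
  exact norm_le_zero_iff.mp h

lemma XV2_const (c : ℂ) : BMC (fun _ : ι → T3 => c) := ⟨stronglyMeasurable_const, ‖c‖, fun _ => le_rfl⟩

lemma XV2_smul {G : (ι → T3) → ℂ} (hG : BMC G) (c : ℂ) (f : HS ι) :
    MB (fun x => c * G x) f = c • MB G f := by
  apply Lp.ext
  filter_upwards [MB_ae ((XV2_const c).mul hG) f, MB_ae hG f, Lp.coeFn_smul c (MB G f)] with x h1 h2 h3
  rw [h1, h3, Pi.smul_apply, h2, smul_eq_mul, mul_assoc]

lemma XV2_sum {κ : Type*} {G : κ → (ι → T3) → ℂ} (hG : ∀ p, BMC (G p)) (s : Finset κ) (f : HS ι) :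
    BMC (fun x => ∑ p ∈ s, G p x) ∧ MB (fun x => ∑ p ∈ s, G p x) f = ∑ p ∈ s, MB (G p) f := by
  classical
  induction s using Finset.induction_on with
  | empty =>
    simp only [Finset.sum_empty]
    exact ⟨XV2_const 0, XV2_zero f⟩
  | insert a s ha ih =>
    simp only [Finset.sum_insert ha]
    exact ⟨OpC_add (hG a) ih.1, by rw [MB_add_fun (hG a) ih.1, ih.2]⟩

lemma XV2_MB {κ : Type*} {G : κ → (ι → T3) → ℂ} {G0 : (ι → T3) → ℂ} (hG : ∀ p, BMC (G p))
    (hG0 : BMC G0) {a : κ → ℝ} (ha : Summable a) (hb : ∀ p x, ‖G p x‖ ≤ a p)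
    (hs : ∀ x, HasSum (fun p => G p x) (G0 x)) (f : HS ι) :
    HasSum (fun p => MB (G p) f) (MB G0 f) := by
  classical
  have ha0 : ∀ p, 0 ≤ a p := fun p => (norm_nonneg _).trans (hb p 0)
  have hle : ∀ s : Finset κ, ∀ x, ‖G0 x - ∑ p ∈ s, G p x‖ ≤ (∑' p, a p) - ∑ p ∈ s, a p := by
    intro s x
    have h1 : Tendsto (fun u : Finset κ => ‖(∑ p ∈ u, G p x) - ∑ p ∈ s, G p x‖) atTop
        (𝓝 ‖G0 x - ∑ p ∈ s, G p x‖) := ((hs x).sub_const _).norm
    refine le_of_tendsto h1 ?_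
    filter_upwards [eventually_ge_atTop s] with u hu
    have e1 : (∑ p ∈ u, G p x) - ∑ p ∈ s, G p x = ∑ p ∈ u \ s, G p x := by
      rw [← Finset.sum_sdiff hu, add_sub_cancel_right]
    have e2 : (∑ p ∈ u, a p) - ∑ p ∈ s, a p = ∑ p ∈ u \ s, a p := by
      rw [← Finset.sum_sdiff hu, add_sub_cancel_right]
    have h2 : ∑ p ∈ u, a p ≤ ∑' p, a p := ha.sum_le_tsum u fun p _ => ha0 p
    rw [e1]
    calc ‖∑ p ∈ u \ s, G p x‖ ≤ ∑ p ∈ u \ s, ‖G p x‖ := norm_sum_le _ _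
      _ ≤ ∑ p ∈ u \ s, a p := Finset.sum_le_sum fun p _ => hb p x
      _ ≤ (∑' p, a p) - ∑ p ∈ s, a p := by rw [← e2]; linarith
  have hlim : Tendsto (fun s : Finset κ => ((∑' p, a p) - ∑ p ∈ s, a p) * ‖f‖) atTop (𝓝 0) := by
    have h1 : Tendsto (fun s : Finset κ => ((∑' p, a p) - ∑ p ∈ s, a p) * ‖f‖) atTop
        (𝓝 (((∑' p, a p) - ∑' p, a p) * ‖f‖)) := (tendsto_const_nhds.sub ha.hasSum).mul_const _
    simpa using h1
  show Tendsto (fun s : Finset κ => ∑ p ∈ s, MB (G p) f) atTop (𝓝 (MB G0 f))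
  rw [tendsto_iff_norm_sub_tendsto_zero]
  refine squeeze_zero (fun _ => norm_nonneg _) (fun s => ?_) hlim
  obtain ⟨hB, hE⟩ := XV2_sum hG s f
  have hD : BMC (fun x => G0 x - ∑ p ∈ s, G p x) := by
    refine ⟨hG0.1.sub hB.1, (∑' p, a p) - ∑ p ∈ s, a p, hle s⟩
  have h3 : MB G0 f = MB (fun x => ∑ p ∈ s, G p x) f + MB (fun x => G0 x - ∑ p ∈ s, G p x) f := by
    rw [← MB_add_fun hB hD]
    congr 2
    funext x
    ring
  have h4 : (∑ p ∈ s, MB (G p) f) - MB G0 f = - MB (fun x => G0 x - ∑ p ∈ s, G p x) f := by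
    rw [h3, hE]
    abel
  rw [h4, norm_neg]
  exact norm_MB_le hD ((norm_nonneg _).trans (hle s 0)) (hle s) f

end aux

lemma XV2_hkBM {σ : ℝ} (hσ : 0 < σ) (z : T3) (j : Fin N) :
    BMC (fun x : Fin N → T3 => ((hk σ (z - x j) : ℝ) : ℂ)) := by
  have hc : Continuous (fun y : T3 => hk σ (z - y)) :=
    (hkD_continuous 0 hσ).comp (continuous_const.sub continuous_id)
  obtain ⟨C, hC⟩ := isCompact_univ.exists_bound_of_continuousOn hc.continuousOn
  refine ⟨?_, C, fun x => ?_⟩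
  · have h2 : Continuous (fun x : Fin N → T3 => ((hk σ (z - x j) : ℝ) : ℂ)) :=
      Complex.continuous_ofReal.comp (hc.comp (continuous_apply j))
    exact (hc.measurable.comp (measurable_pi_apply j)).complex_ofReal.stronglyMeasurable
  · rw [Complex.norm_real]
    exact hC (x j) (mem_univ _)

theorem mz_hasSum {t σ : ℝ} (ht : 0 ≤ t) (hσ : 0 < σ) (z : T3) (ψ : HS (Fin N)) :
    HasSum (fun p : Fin 3 → ℤ => ch p z • (((Real.exp (-(σ * ksq p)) : ℝ) : ℂ) • ∑ j, rk t p j ψ))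
      (mzO t σ z ψ) := by
  have hj : ∀ j ∈ (Finset.univ : Finset (Fin N)),
      HasSum (fun p : Fin 3 → ℤ => (ch p z * ((Real.exp (-(σ * ksq p)) : ℝ) : ℂ)) • rk t p j ψ)
        (PP1 t j (MB (fun x : Fin N → T3 => ((hk σ (z - x j) : ℝ) : ℂ)) (PP1 t j ψ))) := by
    intro j _
    have h1 := XV2_MB
      (G := fun (p : Fin 3 → ℤ) (x : Fin N → T3) =>
        (ch p z * ((Real.exp (-(σ * ksq p)) : ℝ) : ℂ)) * ch (-p) (x j))
      (G0 := fun x : Fin N → T3 => ((hk σ (z - x j) : ℝ) : ℂ))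
      (a := fun p => Real.exp (-(σ * ksq p)))
      (fun p => (XV2_const _).mul (bmc_ch (-p) j)) (XV2_hkBM hσ z j) (HKE_summable hσ)
      (fun p x => by
        rw [norm_mul, norm_mul, ch_norm, ch_norm, one_mul, mul_one, Complex.norm_real,
          Real.norm_eq_abs, Real.abs_exp])
      (fun x => by
        have h2 := hasSum_hk hσ (z - x j)
        refine h2.congr_fun fun p => ?_
        rw [sub_eq_add_neg, ch_add_arg, ch_neg_arg, ch_neg]
        ring) (PP1 t j ψ)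
    have h3 := (PP1 t j).hasSum h1
    refine h3.congr_fun fun p => ?_
    show _ = PP1 t j (MB _ (PP1 t j ψ))
    rw [XV2_smul (bmc_ch (-p) j), map_smul]
    rfl
  have h := hasSum_sum hj
  refine h.congr_fun fun p => ?_
  rw [smul_smul, Finset.smul_sum]

theorem mz_var {t σ : ℝ} (ht : 0 ≤ t) (hσ : 0 < σ) (ψ : HS (Fin N)) :
    Integrable (fun z => ‖mzO t σ z ψ - (N : ℂ) • ψ‖ ^ 2) lam3 ∧
    ∫ z, ‖mzO t σ z ψ - (N : ℂ) • ψ‖ ^ 2 ∂lam3
      ≤ (∑' p : Fin 3 → ℤ, if p = 0 then 0 else Real.exp (-(2 * σ * ksq p)) * Rsq t ψ p)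
        + N * (∑' p, (1 - et t p ^ 2) * nk ψ p) := by
  have hN0 : (0 : ℝ) ≤ N := Nat.cast_nonneg N
  set w : (Fin 3 → ℤ) → HS (Fin N) := fun p =>
    ((Real.exp (-(σ * ksq p)) : ℝ) : ℂ) • (∑ j, rk t p j ψ) - (if p = 0 then (N : ℂ) • ψ else 0) with hw
  -- the series
  have hser : ∀ z, HasSum (fun p => ch p z • w p) (mzO t σ z ψ - (N : ℂ) • ψ) := by
    intro z
    have h1 := (mz_hasSum ht hσ z ψ).sub (hasSum_ite_eq (0 : Fin 3 → ℤ) ((N : ℂ) • ψ))
    refine h1.congr_fun fun p => ?_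
    simp only [hw]
    by_cases hp : p = 0
    · rw [if_pos hp, hp, ch_zero, one_smul, one_smul]
    · rw [if_neg hp, sub_zero, sub_zero]
  have hfun : (fun z => ‖mzO t σ z ψ - (N : ℂ) • ψ‖ ^ 2) = fun z => ‖∑' p, ch p z • w p‖ ^ 2 := by
    funext z
    rw [(hser z).tsum_eq]
  -- bounds
  have hrk : ∀ p j, ‖rk t p j ψ‖ ≤ ‖ψ‖ := by
    intro p j
    have het : ∀ q, |et t q| ≤ 1 := fun q => by
      rw [abs_of_pos (et_pos t q)]; exact et_le_one ht q
    show ‖PP1 t j (MB (fun x => ch (-p) (x j)) (PP1 t j ψ))‖ ≤ ‖ψ‖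
    have h1 : ‖PP1 t j (MB (fun x => ch (-p) (x j)) (PP1 t j ψ))‖
        ≤ 1 * ‖MB (fun x => ch (-p) (x j)) (PP1 t j ψ)‖ := norm_S1_le het j _
    have h2 : ‖MB (fun x => ch (-p) (x j)) (PP1 t j ψ)‖ ≤ 1 * ‖PP1 t j ψ‖ :=
      norm_MB_le (bmc_ch (-p) j) zero_le_one (fun x => (ch_norm _ _).le) _
    have h3 : ‖PP1 t j ψ‖ ≤ 1 * ‖ψ‖ := norm_S1_le het j _
    linarith
  have hR : ∀ p, ‖∑ j, rk t p j ψ‖ ≤ N * ‖ψ‖ := by
    intro p
    calc ‖∑ j, rk t p j ψ‖ ≤ ∑ j : Fin N, ‖rk t p j ψ‖ := norm_sum_le _ _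
      _ ≤ ∑ _j : Fin N, ‖ψ‖ := Finset.sum_le_sum fun j _ => hrk p j
      _ = N * ‖ψ‖ := by simp
  have hexpn : ∀ p : Fin 3 → ℤ, ‖((Real.exp (-(σ * ksq p)) : ℝ) : ℂ)‖ = Real.exp (-(σ * ksq p)) := by
    intro p
    rw [Complex.norm_real, Real.norm_eq_abs, Real.abs_exp]
  have hsum : Summable fun p => ‖w p‖ := by
    have h1 : Summable fun p : Fin 3 → ℤ => Real.exp (-(σ * ksq p)) * (N * ‖ψ‖)
        + (if p = 0 then ‖(N : ℂ) • ψ‖ else 0) :=
      ((HKE_summable hσ).mul_right _).add (hasSum_ite_eq (0 : Fin 3 → ℤ) ‖(N : ℂ) • ψ‖).summable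
    refine Summable.of_nonneg_of_le (fun _ => norm_nonneg _) (fun p => ?_) h1
    have h2 : ‖w p‖ ≤ ‖((Real.exp (-(σ * ksq p)) : ℝ) : ℂ) • (∑ j, rk t p j ψ)‖
        + ‖(if p = 0 then (N : ℂ) • ψ else 0 : HS (Fin N))‖ := norm_sub_le _ _
    refine h2.trans (add_le_add ?_ ?_)
    · rw [norm_smul, hexpn]
      exact mul_le_mul_of_nonneg_left (hR p) (Real.exp_pos _).le
    · by_cases hp : p = 0
      · rw [if_pos hp, if_pos hp]
      · rw [if_neg hp, if_neg hp, norm_zero]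
  obtain ⟨hI, hS⟩ := par_HS hsum
  rw [hfun]
  refine ⟨hI, ?_⟩
  -- the zero mode
  have hbd : Bdm (fun p : Fin 3 → ℤ => 1 - et t p ^ 2) := alg_bdm_sq (bdm_et ht)
  have hw0 : w 0 = - ∑ j, S1 (fun p => 1 - et t p ^ 2) j ψ := by
    refine cf_ext fun K => ?_
    simp only [hw, if_true]
    rw [cf_sub, cf_smul, cf_smul, cf_sum, cf_neg, cf_sum, ksq_zero]
    have h1 : ∀ j : Fin N, cf (rk t 0 j ψ) K = ((et t (K j) ^ 2 : ℝ) : ℂ) * cf ψ K := by
      intro j
      rw [cf_rk ht, add_zero, update_eq_self, ← sq]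
    have h2 : ∀ j : Fin N, cf (S1 (fun p => 1 - et t p ^ 2) j ψ) K
        = cf ψ K - ((et t (K j) ^ 2 : ℝ) : ℂ) * cf ψ K := by
      intro j
      rw [cf_S1 hbd]
      push_cast
      ring
    rw [Finset.sum_congr rfl fun j _ => h1 j, Finset.sum_congr rfl fun j _ => h2 j,
      Finset.sum_sub_distrib]
    simp
  have h0 : ‖w 0‖ ^ 2 ≤ N * (∑' p, (1 - et t p ^ 2) * nk ψ p) := by
    rw [hw0, norm_neg]
    have h1 : ‖∑ j, S1 (fun p => 1 - et t p ^ 2) j ψ‖ ^ 2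
        ≤ N * ∑ j : Fin N, ‖S1 (fun p => 1 - et t p ^ 2) j ψ‖ ^ 2 := by
      have h2 : ‖∑ j, S1 (fun p => 1 - et t p ^ 2) j ψ‖
          ≤ ∑ j : Fin N, ‖S1 (fun p => 1 - et t p ^ 2) j ψ‖ := norm_sum_le _ _
      have h3 := sq_sum_le_card_mul_sum_sq (s := (Finset.univ : Finset (Fin N)))
        (f := fun j => ‖S1 (fun p => 1 - et t p ^ 2) j ψ‖)
      rw [Finset.card_univ, Fintype.card_fin] at h3
      exact (pow_le_pow_left₀ (norm_nonneg _) h2 2).trans h3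
    refine h1.trans (mul_le_mul_of_nonneg_left ?_ hN0)
    have h4 : ∀ j : Fin N, HasSum (fun K : Fin N → Fin 3 → ℤ =>
        (1 - et t (K j) ^ 2) ^ 2 * ‖cf ψ K‖ ^ 2)
        (‖S1 (fun p => 1 - et t p ^ 2) j ψ‖ ^ 2) := by
      intro j
      have hb : Bdm (fun K : Fin N → Fin 3 → ℤ => 1 - et t (K j) ^ 2) :=
        hbd.comp fun K : Fin N → Fin 3 → ℤ => K j
      exact hasSum_DM_norm (m := fun K : Fin N → Fin 3 → ℤ => 1 - et t (K j) ^ 2) hb ψ
    have h5 := sum_mult (φ := fun a => (1 - et t a ^ 2) ^ 2) (fun _ => sq_nonneg _) ψ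
      (fun j => (h4 j).summable)
    have h6 : ∑ j : Fin N, ‖S1 (fun p => 1 - et t p ^ 2) j ψ‖ ^ 2
        = ∑' a, (1 - et t a ^ 2) ^ 2 * nk ψ a := by
      rw [← h5.2]
      exact Finset.sum_congr rfl fun j _ => (h4 j).tsum_eq.symm
    rw [h6]
    have hle : ∀ a, (1 - et t a ^ 2) ^ 2 * nk ψ a ≤ (1 - et t a ^ 2) * nk ψ a := by
      intro a
      have h7 := RkC_et_sq_le ht a
      have h8 := sq_nonneg (et t a)
      exact mul_le_mul_of_nonneg_right (by nlinarith) (nk_nonneg ψ a)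
    have hs2 : Summable fun a => (1 - et t a ^ 2) * nk ψ a := by
      refine Summable.of_nonneg_of_le (fun a => ?_) (fun a => ?_) (summable_nk ψ)
      · exact mul_nonneg (by linarith [RkC_et_sq_le ht a]) (nk_nonneg ψ a)
      · have := nk_nonneg ψ a
        nlinarith [sq_nonneg (et t a)]
    exact h5.1.tsum_le_tsum hle hs2
  -- split the sum
  have hsplit := hS.summable.tsum_eq_add_tsum_ite (0 : Fin 3 → ℤ)
  rw [hS.tsum_eq] at hsplit
  rw [hsplit]
  have hterm : (fun p : Fin 3 → ℤ => if p = 0 then 0 else ‖w p‖ ^ 2)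
      = fun p => if p = 0 then 0 else Real.exp (-(2 * σ * ksq p)) * Rsq t ψ p := by
    funext p
    by_cases hp : p = 0
    · rw [if_pos hp, if_pos hp]
    · rw [if_neg hp, if_neg hp]
      simp only [hw]
      rw [if_neg hp, sub_zero, norm_smul, hexpn, mul_pow, ← Real.exp_nat_mul]
      unfold Rsq
      congr 2
      push_cast
      ring
  rw [hterm]
  linarith

end Pool.Agent.Lib.MP_4952d6_mp.O

end

/-! ### O.WG2 -/

section

/-! # O.WG2: averages of `zz` and of `‖RR‖²`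

`uW a k R w x = Σ_{n ∈ bx R} (a n conj (ch n w)) ch (k + n) x` with real `a`.
`br_uW`: `br (uW a k R w) j f = Σ_n ch n w • ((a n : ℂ) • mu j 0 (k + n) f)` (`br_sum`, `br_smul`: `conj (a n conj (ch n w)) = a n ch n w`; `br_ch`).
`EW_zz`: `EW_sum`, `EW_inner`: `Re ⟪a n • mu j 0 (k+n) f, b n • mu j 0 (k+n) f⟫ = a n b n ‖mu j 0 (k+n) f‖² = a n b n ‖mu j (k+n) (k+n) f‖²`
(`mu_MU`: `‖mu j a b f‖² = ‖mu j b b f‖²`, from `⟪E a b f, g⟫ = ⟪f, E b a g⟫` and `E b a E a b = E b b`; see `LB` lemmas on `MU`), `nk` is the sum over `j`.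
`EW_RR`: `wnd_eq`: `MB (fun x => ch (-k) (x j) * (wnd M w (x j) : ℂ)) = Σ_n (th n conj (ch n w)) MB (ch (n - k) (x j))` and
`ch (-k) ch n = ch (-(k - n))`, so `RR t (wnd M w) k f = Σ_n conj (ch n w) • th n • Σ_j rk t (k - n) j f`; reindex `n ↦ -n` (`bx_neg`, `th_neg`,
`conj (ch (-n) w) = ch n w`), then `EW_norm`. -/

set_option autoImplicit false
set_option linter.unusedSectionVars false
set_option linter.unusedVariables false
open MeasureTheory Function Filter Topology Set ComplexConjugate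

namespace Pool.Agent.Lib.MP_4952d6_mp.O

open LB

/-- Trigonometric polynomial adapted to the window around `w`. -/
noncomputable def uW (a : (Fin 3 → ℤ) → ℝ) (k : Fin 3 → ℤ) (R : ℕ) (w : T3) (x : T3) : ℂ :=
  ∑ n ∈ bx R, ((a n : ℂ) * conj (ch n w)) * ch (k + n) x

lemma bc_uW (a : (Fin 3 → ℤ) → ℝ) (k : Fin 3 → ℤ) (R : ℕ) (w : T3) : BC (uW a k R w) := by
  exact bc_sum (bx R) (v := fun n x => ((a n : ℂ) * conj (ch n w)) * ch (k + n) x)
    (fun n _ => bc_mul (bc_const _) (bc_ch _))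

lemma uW_extend {a : (Fin 3 → ℤ) → ℝ} {R R' : ℕ} (h : R ≤ R') (ha : ∀ n, n ∉ bx R → a n = 0)
    (k : Fin 3 → ℤ) (w : T3) : uW a k R w = uW a k R' w := by
  funext x
  unfold uW
  refine Finset.sum_subset (bx_mono h) fun n _ hn => ?_
  rw [ha n hn]
  simp

private lemma WG2_int_ch {p : Fin 3 → ℤ} (hp : p ≠ 0) : ∫ z, ch p z ∂lam3 = 0 := by
  obtain ⟨s, hs⟩ := exists_ch_eq_neg_one hp
  have h1 : ∫ z, ch p (z + s) ∂lam3 = ∫ z, ch p z ∂lam3 := integral_add_right_eq_self _ s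
  simp only [ch_add_arg, hs, mul_neg, mul_one, integral_neg] at h1
  linear_combination (-1 / 2 : ℂ) * h1

lemma ip_uW (a : (Fin 3 → ℤ) → ℝ) (k : Fin 3 → ℤ) (R : ℕ) (w : T3) :
    ip (uW a k R w) (uW a k R w) = ((∑ n ∈ bx R, a n ^ 2 : ℝ) : ℂ) := by
  unfold ip
  have e : ∀ x, conj (uW a k R w x) * uW a k R w x
      = ∑ n ∈ bx R, ∑ m ∈ bx R,
        (conj ((a n : ℂ) * conj (ch n w)) * ((a m : ℂ) * conj (ch m w))) * ch (m - n) x := by
    intro x
    unfold uW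
    rw [map_sum, Finset.sum_mul_sum]
    refine Finset.sum_congr rfl fun n _ => Finset.sum_congr rfl fun m _ => ?_
    have h1 : ch (m - n) x = conj (ch (k + n) x) * ch (k + m) x := by
      have h2 : m - n = -(k + n) + (k + m) := by abel
      rw [← ch_neg, ← ch_add, ← h2]
    rw [h1, map_mul]
    ring
  have hi : ∀ n m : Fin 3 → ℤ, Integrable (fun x =>
      (conj ((a n : ℂ) * conj (ch n w)) * ((a m : ℂ) * conj (ch m w))) * ch (m - n) x) lam3 :=
    fun n m => bc_int (bc_mul (bc_const _) (bc_ch _))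
  rw [integral_congr_ae (Eventually.of_forall e),
    integral_finsetSum _ (fun n _ => integrable_finsetSum _ (fun m _ => hi n m))]
  push_cast
  refine Finset.sum_congr rfl fun n hn => ?_
  rw [integral_finsetSum _ (fun m _ => hi n m), Finset.sum_eq_single n]
  · rw [integral_const_mul]
    have h1 : ∫ x, ch (n - n) x ∂lam3 = 1 := by
      rw [sub_self]
      simp only [ch_zero]
      simp
    rw [h1, mul_one, map_mul, Complex.conj_conj, Complex.conj_ofReal]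
    have h2 : ch n w * conj (ch n w) = 1 := by
      rw [Complex.mul_conj, Complex.normSq_eq_norm_sq, ch_norm]
      simp
    linear_combination (a n : ℂ) ^ 2 * h2
  · intro m _ hmn
    rw [integral_const_mul, WG2_int_ch (sub_ne_zero.mpr hmn), mul_zero]
  · intro h
    exact absurd hn h

variable {ι : Type*} [Fintype ι] [DecidableEq ι]

private lemma WG2_re_self (x : HS ι) : (inner ℂ x x).re = ‖x‖ ^ 2 := by
  have h := inner_self_eq_norm_sq_to_K (𝕜 := ℂ) x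
  rw [h]
  have h2 : ((‖x‖ : ℝ) : ℂ) ^ 2 = ((‖x‖ ^ 2 : ℝ) : ℂ) := by push_cast; rfl
  exact (congrArg Complex.re h2).trans (Complex.ofReal_re _)

private lemma WG2_norm_mu (j : ι) (a b : Fin 3 → ℤ) (f : HS ι) :
    ‖mu j a b f‖ ^ 2 = ‖mu j b b f‖ ^ 2 := by
  have h1 : inner ℂ (mu j a b f) (mu j a b f) = inner ℂ (mu j b b f) (mu j b b f) := by
    rw [mu_MU.adj, mu_MU.mul_eq, mu_MU.adj, mu_MU.mul_eq]
  rw [← WG2_re_self, ← WG2_re_self, h1]

private lemma WG2_MB_smul {G : (ι → T3) → ℂ} (hG : BMC G) (c : ℂ) (f : HS ι) :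
    BMC (fun x => c * G x) ∧ MB (fun x => c * G x) f = c • MB G f := by
  have hc : BMC (fun x => c * G x) := by
    obtain ⟨hm, C, hC⟩ := hG
    refine ⟨hm.const_mul c, ‖c‖ * C, fun x => ?_⟩
    rw [norm_mul]
    exact mul_le_mul_of_nonneg_left (hC x) (norm_nonneg _)
  refine ⟨hc, ?_⟩
  apply Lp.ext
  filter_upwards [MB_ae hc f, MB_ae hG f, Lp.coeFn_smul c (MB G f)] with x h1 h2 h3
  rw [h1, h3, Pi.smul_apply, h2, smul_eq_mul, mul_assoc]

private lemma WG2_MB_zero (f : HS ι) :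
    BMC (fun _ : ι → T3 => (0 : ℂ)) ∧ MB (fun _ : ι → T3 => (0 : ℂ)) f = 0 := by
  have hc : BMC (fun _ : ι → T3 => (0 : ℂ)) :=
    ⟨stronglyMeasurable_const, 0, fun x => by simp⟩
  refine ⟨hc, ?_⟩
  apply Lp.ext
  filter_upwards [MB_ae hc f, Lp.coeFn_zero ℂ 2 (piN ι)] with x h1 h2
  rw [h1, h2, zero_mul]
  rfl

private lemma WG2_MB_sum {κ : Type*} (s : Finset κ) (c : κ → ℂ) (G : κ → (ι → T3) → ℂ)
    (hG : ∀ i, BMC (G i)) (f : HS ι) :
    BMC (fun x => ∑ i ∈ s, c i * G i x) ∧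
      MB (fun x => ∑ i ∈ s, c i * G i x) f = ∑ i ∈ s, c i • MB (G i) f := by
  classical
  induction s using Finset.induction_on with
  | empty =>
    simp only [Finset.sum_empty]
    exact WG2_MB_zero f
  | insert i s hi ih =>
    have e : (fun x => ∑ l ∈ insert i s, c l * G l x)
        = fun x => c i * G i x + ∑ l ∈ s, c l * G l x := by
      funext x
      rw [Finset.sum_insert hi]
    rw [e, Finset.sum_insert hi]
    have h1 := WG2_MB_smul (hG i) (c i) f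
    refine ⟨?_, ?_⟩
    · obtain ⟨hm, C, hC⟩ := h1.1
      obtain ⟨hm', C', hC'⟩ := ih.1
      exact ⟨hm.add hm', C + C', fun x => (norm_add_le _ _).trans (add_le_add (hC x) (hC' x))⟩
    · rw [MB_add_fun h1.1 ih.1, h1.2, ih.2]

theorem br_uW (a : (Fin 3 → ℤ) → ℝ) (k : Fin 3 → ℤ) (R : ℕ) (w : T3) (j : ι) (f : HS ι) :
    br (uW a k R w) j f = ∑ n ∈ bx R, ch n w • ((a n : ℂ) • mu j 0 (k + n) f) := by
  have h0 : br (uW a k R w) j f
      = br (fun x => ∑ n ∈ bx R, ((a n : ℂ) * conj (ch n w)) * ch (k + n) x) j f := rfl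
  rw [h0, br_sum (bx R) (v := fun n x => ((a n : ℂ) * conj (ch n w)) * ch (k + n) x)
    (fun n _ => bc_mul (bc_const _) (bc_ch _)) j f]
  refine Finset.sum_congr rfl fun n _ => ?_
  rw [br_smul (bc_ch _), br_ch, map_mul, Complex.conj_conj, Complex.conj_ofReal, smul_smul,
    mul_comm (ch n w)]

theorem EW_zz {L R : ℕ} (hL : 2 * R < L) (a b : (Fin 3 → ℤ) → ℝ) (k : Fin 3 → ℤ) (f : HS ι) :
    EW L (fun w => zz (uW a k R w) (uW b k R w) f)
      = ∑ n ∈ bx R, a n * b n * nk f (k + n) := by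
  have h1 : (fun w => zz (uW a k R w) (uW b k R w) f) = fun w => ∑ j : ι,
      (inner ℂ (∑ n ∈ bx R, ch n w • ((a n : ℂ) • mu j 0 (k + n) f))
        (∑ n ∈ bx R, ch n w • ((b n : ℂ) • mu j 0 (k + n) f))).re := by
    funext w
    unfold zz
    refine Finset.sum_congr rfl fun j _ => ?_
    rw [br_uW, br_uW]
  rw [h1, EW_sum L Finset.univ]
  have h2 : ∀ j : ι, EW L (fun w =>
      (inner ℂ (∑ n ∈ bx R, ch n w • ((a n : ℂ) • mu j 0 (k + n) f))
        (∑ n ∈ bx R, ch n w • ((b n : ℂ) • mu j 0 (k + n) f))).re)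
      = ∑ n ∈ bx R, a n * b n * ‖mu j (k + n) (k + n) f‖ ^ 2 := by
    intro j
    rw [EW_inner hL]
    refine Finset.sum_congr rfl fun n _ => ?_
    rw [inner_smul_left, inner_smul_right, Complex.conj_ofReal, Complex.re_ofReal_mul,
      Complex.re_ofReal_mul, WG2_re_self, WG2_norm_mu]
    ring
  rw [Finset.sum_congr rfl fun j _ => h2 j, Finset.sum_comm]
  refine Finset.sum_congr rfl fun n _ => ?_
  unfold nk
  rw [Finset.mul_sum]

theorem EW_yy {L R : ℕ} (hL : 2 * R < L) (a : (Fin 3 → ℤ) → ℝ) (k : Fin 3 → ℤ) (f : HS ι) :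
    EW L (fun w => yy (uW a k R w) f) = ∑ n ∈ bx R, a n ^ 2 * nk f (k + n) := by
  have h1 : (fun w => yy (uW a k R w) f) = fun w => zz (uW a k R w) (uW a k R w) f := by
    funext w
    unfold yy zz
    refine Finset.sum_congr rfl fun j _ => ?_
    rw [WG2_re_self]
  rw [h1, EW_zz hL]
  refine Finset.sum_congr rfl fun n _ => ?_
  ring

theorem EW_RR {L M : ℕ} (hM : 1 ≤ M) (hL : 2 * M < L) {t : ℝ} (ht : 0 < t) (k : Fin 3 → ℤ)
    (f : HS ι) :
    EW L (fun w => ‖RR t (wnd M w) k f‖ ^ 2) = ∑ n ∈ bx M, th M n ^ 2 * Rsq t f (k + n) := by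
  have h1 : ∀ (w : T3) (j : ι), rho t (wnd M w) k j f
      = ∑ n ∈ bx M, ((th M n : ℂ) * conj (ch n w)) • rk t (k - n) j f := by
    intro w j
    have e1 : rho t (wnd M w) k j f
        = PP1 t j (MB (fun x : ι → T3 => ch (-k) (x j) * (wnd M w (x j) : ℂ)) (PP1 t j f)) := rfl
    have e2 : (fun x : ι → T3 => ch (-k) (x j) * (wnd M w (x j) : ℂ))
        = fun x : ι → T3 => ∑ n ∈ bx M, ((th M n : ℂ) * conj (ch n w)) * ch (-(k - n)) (x j) := by
      funext x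
      rw [wnd_eq hM, Finset.mul_sum]
      refine Finset.sum_congr rfl fun n _ => ?_
      have e3 : -(k - n) = -k + n := by abel
      rw [e3, ch_add]
      ring
    rw [e1, e2, (WG2_MB_sum (bx M) (fun n => (th M n : ℂ) * conj (ch n w))
      (fun n (x : ι → T3) => ch (-(k - n)) (x j)) (fun n => bmc_ch _ j) (PP1 t j f)).2, map_sum]
    refine Finset.sum_congr rfl fun n _ => ?_
    rw [map_smul]
    rfl
  have h2 : ∀ w : T3, RR t (wnd M w) k f
      = ∑ n ∈ bx M, ch n w • ((th M n : ℂ) • ∑ j : ι, rk t (k + n) j f) := by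
    intro w
    unfold RR
    rw [Finset.sum_congr rfl fun j _ => h1 w j, Finset.sum_comm]
    refine Finset.sum_nbij' (fun n => -n) (fun n => -n) (fun n hn => bx_neg.mpr hn)
      (fun n hn => bx_neg.mpr hn) (fun n _ => neg_neg n) (fun n _ => neg_neg n) ?_
    intro n _
    rw [← Finset.smul_sum, smul_smul, ch_neg, th_neg, ← sub_eq_add_neg, mul_comm]
  have h3 : (fun w => ‖RR t (wnd M w) k f‖ ^ 2)
      = fun w => ‖∑ n ∈ bx M, ch n w • ((th M n : ℂ) • ∑ j : ι, rk t (k + n) j f)‖ ^ 2 := by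
    funext w
    rw [h2 w]
  rw [h3, EW_norm hL]
  refine Finset.sum_congr rfl fun n _ => ?_
  rw [norm_smul, mul_pow, Complex.norm_real, Real.norm_eq_abs, sq_abs]
  rfl

end Pool.Agent.Lib.MP_4952d6_mp.O

end

/-! ### O.WG3 -/

section

/-! # O.WG3: averages of densities

`pW t i M w = Pr t (.. (Pr t (wnd M w)))` (`i` times), `pW_eq` by induction on `i`: `Pr_coe`, `Pf_sum`, `Pf_ch`, `wnd_eq`. `pW_bm`, `pW_nn`, `pW_le`,
`pW_int`: induction with `Pr_bm`, `Pr_nonneg`, `Pr_le`, `Pr_int` and `wnd_win`.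
`EW_pW`: real part of `pW_eq` and `EW_ch` (only `n = 0` survives, `ch 0 = 1`), or `EW_inner` with `E = ℂ`.
`EW_dev`: pointwise in `x`: with `b n = et t n ^ i * th M n`, `b (-n) = b n`,
`Σ_j pW (x j) - N cW = Σ_{n ∈ bx M, n ≠ 0} b n conj (ch n w) Σ_j ch n (x j)`, so (`EW_norm` with `E = ℂ`, after `n ↦ -n`, for the real number
`r`: `r² = ‖(r : ℂ)‖²`) `EW (Σ_j pW (x j) - N cW)² = Σ_{n≠0} b n² ‖Σ_j ch n (x j)‖²` (`‖Σ_j ch (-n) (x j)‖ = ‖Σ_j ch n (x j)‖`), then `EW_qf`, `qf_sum`, `b n ≤ cW`.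
`EW_sq`: `(Σ pW)² = (Σ pW - N cW)² + 2 N cW (Σ pW - N cW) + N² cW²` and `EW_pW`. -/

set_option autoImplicit false
set_option linter.unusedSectionVars false
set_option linter.unusedVariables false
open MeasureTheory Function Filter Topology Set ComplexConjugate

namespace Pool.Agent.Lib.MP_4952d6_mp.O

open LB

/-- The window smeared `i` times. -/
noncomputable def pW (t : ℝ) (i : ℕ) (M : ℕ) (w : T3) : T3 → ℝ := (Pr t)^[i] (wnd M w)

lemma pW_zero (t : ℝ) (M : ℕ) (w : T3) : pW t 0 M w = wnd M w := rfl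

lemma pW_succ (t : ℝ) (i : ℕ) (M : ℕ) (w : T3) : pW t (i + 1) M w = Pr t (pW t i M w) := by
  unfold pW
  rw [Function.iterate_succ_apply']

theorem pW_eq {t : ℝ} (ht : 0 < t) (i : ℕ) {M : ℕ} (hM : 1 ≤ M) (w x : T3) :
    ((pW t i M w x : ℝ) : ℂ)
      = ∑ n ∈ bx M, ((et t n ^ i * th M n : ℝ) : ℂ) * (conj (ch n w) * ch n x) := by
  induction i generalizing x with
  | zero =>
    rw [pW_zero, wnd_eq hM]
    refine Finset.sum_congr rfl fun n _ => ?_
    rw [pow_zero, one_mul]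
  | succ i ih =>
    rw [pW_succ, Pr_coe]
    have h1 : (fun y => ((pW t i M w y : ℝ) : ℂ)) = fun y => ∑ n ∈ bx M,
        (((et t n ^ i * th M n : ℝ) : ℂ) * conj (ch n w)) * ch n y := by
      funext y
      rw [ih y]
      refine Finset.sum_congr rfl fun n _ => ?_
      ring
    rw [h1, Pf_sum ht (bx M) _ (fun n _ => bc_ch n) x]
    refine Finset.sum_congr rfl fun n _ => ?_
    rw [Pf_ch ht]
    push_cast
    ring

lemma pW_bm {t : ℝ} (ht : 0 < t) (i : ℕ) {M : ℕ} (hM : 1 ≤ M) (w : T3) : BM (pW t i M w) := by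
  induction i with
  | zero => rw [pW_zero]; exact (wnd_win hM w).bm
  | succ i ih => rw [pW_succ]; exact Pr_bm ht ih

lemma pW_nn {t : ℝ} (ht : 0 < t) (i : ℕ) {M : ℕ} (hM : 1 ≤ M) (w x : T3) : 0 ≤ pW t i M w x := by
  induction i generalizing x with
  | zero => rw [pW_zero]; exact (wnd_win hM w).nn x
  | succ i ih => rw [pW_succ]; exact Pr_nonneg ih x

lemma pW_le {t : ℝ} (ht : 0 < t) (i : ℕ) {M : ℕ} (hM : 1 ≤ M) (w x : T3) :
    pW t i M w x ≤ cW M * (M : ℝ) ^ 3 := by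
  induction i generalizing x with
  | zero => rw [pW_zero]; exact (wnd_win hM w).le x
  | succ i ih => rw [pW_succ]; exact Pr_le ht (pW_bm ht i hM w) ih x

lemma pW_int {t : ℝ} (ht : 0 < t) (i : ℕ) {M : ℕ} (hM : 1 ≤ M) (w : T3) :
    ∫ x, pW t i M w x ∂lam3 = cW M := by
  induction i with
  | zero => rw [pW_zero]; exact (wnd_win hM w).i1
  | succ i ih => rw [pW_succ, Pr_int ht (pW_bm ht i hM w)]; exact ih

theorem EW_pW {t : ℝ} (ht : 0 < t) (i : ℕ) {L M : ℕ} (hM : 1 ≤ M) (hL : 2 * M < L) (y : T3) :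
    EW L (fun w => pW t i M w y) = cW M := by
  have hL1 : 1 ≤ L := by omega
  have h0 : (0 : Fin 3 → ℤ) ∈ bx M := by
    rw [mem_bx]
    intro α
    simp
  have h1 : ((EW L (fun w => pW t i M w y) : ℝ) : ℂ) = ((cW M : ℝ) : ℂ) := by
    have h2 : ((EW L (fun w => pW t i M w y) : ℝ) : ℂ)
        = ∑ n ∈ bx M, (((et t n ^ i * th M n : ℝ) : ℂ) * ch n y)
          * conj ((∑ m : Fin 3 → Fin L, ch n (gp L m)) / ((L : ℂ)) ^ 3) := by
      unfold EW
      push_cast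
      simp only [pW_eq ht i hM]
      rw [Finset.sum_comm, Finset.sum_div]
      refine Finset.sum_congr rfl fun n _ => ?_
      rw [map_div₀, map_sum, map_pow, Complex.conj_natCast, ← mul_div_assoc, Finset.mul_sum]
      congr 1
      refine Finset.sum_congr rfl fun m _ => ?_
      push_cast
      ring
    rw [h2, Finset.sum_eq_single_of_mem 0 h0]
    · rw [EW_ch hL1 (fun α => by simp; omega), if_pos rfl, map_one, mul_one, ch_zero, mul_one,
        et_zero, one_pow, one_mul, th_zero]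
    · intro n hn hn0
      rw [EW_ch hL1 (fun α => ?_), if_neg hn0, map_zero, mul_zero]
      have := mem_bx.1 hn α
      omega
  exact_mod_cast h1

variable {ι : Type*} [Fintype ι] [DecidableEq ι]

/-- `‖Σ_j e_n(x_j) f‖²`. -/
noncomputable def Dn (f : HS ι) (n : Fin 3 → ℤ) : ℝ := qf (fun x => ‖∑ j, ch n (x j)‖ ^ 2) f

/-- Relative variance of the density in the box `bx M`. -/
noncomputable def vb (M : ℕ) (f : HS ι) : ℝ :=
  (∑ n ∈ (bx M).erase 0, Dn f n) / (Fintype.card ι : ℝ) ^ 2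

lemma Dn_nonneg (f : HS ι) (n : Fin 3 → ℤ) : 0 ≤ Dn f n :=
  qf_nonneg (fun _ => sq_nonneg _) f

lemma vb_nonneg (M : ℕ) (f : HS ι) : 0 ≤ vb M f :=
  div_nonneg (Finset.sum_nonneg fun n _ => Dn_nonneg f n) (sq_nonneg _)

/-- The density modes are bounded and measurable. -/
lemma WG3_bm (n : Fin 3 → ℤ) : BM (fun x : ι → T3 => ‖∑ j, ch n (x j)‖ ^ 2) := by
  refine ⟨?_, (Fintype.card ι : ℝ) ^ 2, fun x => ?_⟩
  · refine Continuous.measurable ?_
    refine Continuous.pow ?_ 2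
    refine Continuous.norm ?_
    exact continuous_finsetSum _ fun j _ => (ch_continuous n).comp (continuous_apply j)
  · rw [abs_of_nonneg (sq_nonneg _)]
    refine pow_le_pow_left₀ (norm_nonneg _) ?_ 2
    refine (norm_sum_le _ _).trans ?_
    simp [ch_norm]

lemma WG3_sum_bm {t : ℝ} (ht : 0 < t) (i : ℕ) {M : ℕ} (hM : 1 ≤ M) (w : T3) :
    BM (fun x : ι → T3 => ∑ j, pW t i M w (x j)) :=
  BM.finset_sum _ fun j _ => (pW_bm ht i hM w).comp (measurable_pi_apply j)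

/-- Pointwise average of the square of the deviation. -/
lemma WG3_point {t : ℝ} (ht : 0 < t) (i : ℕ) {L M : ℕ} (hM : 1 ≤ M) (hL : 2 * M < L)
    (hN : 1 ≤ Fintype.card ι) (x : ι → T3) :
    EW L (fun w => ((∑ j, pW t i M w (x j)) / ((Fintype.card ι : ℝ) * cW M) - 1) ^ 2)
      ≤ (∑ n ∈ (bx M).erase 0, ‖∑ j, ch n (x j)‖ ^ 2) / (Fintype.card ι : ℝ) ^ 2 := by
  classical
  have hN0 : (0 : ℝ) < (Fintype.card ι : ℝ) := by exact_mod_cast hN
  have hc : 0 < cW M := cW_pos hM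
  have h0 : (0 : Fin 3 → ℤ) ∈ bx M := by
    rw [mem_bx]
    intro α
    simp
  set b : (Fin 3 → ℤ) → ℝ := fun n => et t n ^ i * th M n with hb
  set y : (Fin 3 → ℤ) → ℂ := fun n => if n = 0 then 0 else ((b n : ℝ) : ℂ) * ∑ j, ch (-n) (x j)
    with hy
  have hbn : ∀ n, b (-n) = b n := by
    intro n
    rw [hb]
    simp only [et_neg, th_neg]
  have hb0 : ∀ n, 0 ≤ b n := fun n => mul_nonneg (pow_nonneg (et_pos t n).le i) (th_nonneg hM n)
  have hbc : ∀ n, b n ≤ cW M := by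
    intro n
    have h1 : et t n ^ i ≤ 1 := pow_le_one₀ (et_pos t n).le (et_le_one ht.le n)
    calc b n ≤ 1 * th M n := mul_le_mul_of_nonneg_right h1 (th_nonneg hM n)
      _ = th M n := one_mul _
      _ ≤ cW M := th_le hM n
  have hbz : b 0 = cW M := by
    rw [hb]
    simp only [et_zero, one_pow, one_mul, th_zero]
  -- the deviation as a trigonometric sum
  have hdev : ∀ w, (((∑ j, pW t i M w (x j)) - (Fintype.card ι : ℝ) * cW M : ℝ) : ℂ)
      = ∑ n ∈ bx M, ch n w • y n := by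
    intro w
    have h1 : ((∑ j, pW t i M w (x j) : ℝ) : ℂ)
        = ∑ n ∈ bx M, (b n : ℂ) * (conj (ch n w) * ∑ j, ch n (x j)) := by
      push_cast
      simp only [pW_eq ht i hM]
      rw [Finset.sum_comm]
      refine Finset.sum_congr rfl fun n _ => ?_
      rw [Finset.mul_sum, Finset.mul_sum]
    have h2 : ∑ n ∈ bx M, (b n : ℂ) * (conj (ch n w) * ∑ j, ch n (x j))
        = ∑ n ∈ bx M, (b n : ℂ) * (ch n w * ∑ j, ch (-n) (x j)) := by
      refine Finset.sum_nbij' (fun n => -n) (fun n => -n) (fun n hn => bx_neg.2 hn)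
        (fun n hn => bx_neg.2 hn) (fun n _ => neg_neg n) (fun n _ => neg_neg n) ?_
      intro n _
      rw [hbn, neg_neg, ch_neg]
    push_cast
    push_cast at h1
    rw [h1, h2, ← Finset.add_sum_erase _ _ h0, ← Finset.add_sum_erase (bx M) (fun n => ch n w • y n) h0]
    have h3 : y 0 = 0 := if_pos rfl
    have h4 : ∑ n ∈ (bx M).erase 0, (b n : ℂ) * (ch n w * ∑ j, ch (-n) (x j))
        = ∑ n ∈ (bx M).erase 0, ch n w • y n := by
      refine Finset.sum_congr rfl fun n hn => ?_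
      rw [hy]
      simp only [if_neg (Finset.ne_of_mem_erase hn), smul_eq_mul]
      ring
    rw [h3, smul_zero, zero_add, h4, neg_zero, ch_zero, hbz]
    have h5 : ∑ j, ch 0 (x j) = (Fintype.card ι : ℂ) := by
      simp [ch_zero]
    rw [h5]
    ring
  have hsq : ∀ w, ((∑ j, pW t i M w (x j)) / ((Fintype.card ι : ℝ) * cW M) - 1) ^ 2
      = ((Fintype.card ι : ℝ) * cW M)⁻¹ ^ 2 * ‖∑ n ∈ bx M, ch n w • y n‖ ^ 2 := by
    intro w
    rw [← hdev w, Complex.norm_real, Real.norm_eq_abs, sq_abs, ← mul_pow]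
    congr 1
    have : (Fintype.card ι : ℝ) * cW M ≠ 0 := (mul_pos hN0 hc).ne'
    field_simp
  simp only [hsq]
  rw [EW_mul, EW_norm hL, ← Finset.add_sum_erase _ _ h0]
  have h3 : y 0 = 0 := if_pos rfl
  rw [h3, norm_zero]
  have h6 : ∑ n ∈ (bx M).erase 0, ‖y n‖ ^ 2
      ≤ cW M ^ 2 * ∑ n ∈ (bx M).erase 0, ‖∑ j, ch n (x j)‖ ^ 2 := by
    rw [Finset.mul_sum]
    refine Finset.sum_le_sum fun n hn => ?_
    rw [hy]
    simp only [if_neg (Finset.ne_of_mem_erase hn)]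
    rw [norm_mul, mul_pow, Complex.norm_real, Real.norm_eq_abs, sq_abs]
    have h7 : ‖∑ j, ch (-n) (x j)‖ = ‖∑ j, ch n (x j)‖ := by
      simp only [ch_neg]
      rw [← map_sum, Complex.norm_conj]
    rw [h7]
    exact mul_le_mul_of_nonneg_right (pow_le_pow_left₀ (hb0 n) (hbc n) 2) (sq_nonneg _)
  have h8 : ((Fintype.card ι : ℝ) * cW M)⁻¹ ^ 2 * (0 ^ 2 + ∑ n ∈ (bx M).erase 0, ‖y n‖ ^ 2)
      ≤ ((Fintype.card ι : ℝ) * cW M)⁻¹ ^ 2 *
        (cW M ^ 2 * ∑ n ∈ (bx M).erase 0, ‖∑ j, ch n (x j)‖ ^ 2) := by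
    refine mul_le_mul_of_nonneg_left ?_ (sq_nonneg _)
    linarith
  refine h8.trans (le_of_eq ?_)
  field_simp

theorem EW_lin {t : ℝ} (ht : 0 < t) (i : ℕ) {L M : ℕ} (hM : 1 ≤ M) (hL : 2 * M < L) (f : HS ι) :
    EW L (fun w => qf (fun x => ∑ j, pW t i M w (x j)) f)
      = cW M * (Fintype.card ι : ℝ) * ‖f‖ ^ 2 := by
  rw [EW_qf L (fun w => WG3_sum_bm ht i hM w) f]
  have h1 : (fun x : ι → T3 => EW L (fun w => ∑ j, pW t i M w (x j)))
      = fun _ => cW M * (Fintype.card ι : ℝ) := by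
    funext x
    rw [EW_sum]
    simp only [EW_pW ht i hM hL]
    rw [Finset.sum_const, Finset.card_univ, nsmul_eq_mul, mul_comm]
  rw [h1, qf_const]

theorem EW_dev {t : ℝ} (ht : 0 < t) (i : ℕ) {L M : ℕ} (hM : 1 ≤ M) (hL : 2 * M < L)
    (hN : 1 ≤ Fintype.card ι) (f : HS ι) :
    EW L (fun w => qf (fun x =>
      ((∑ j, pW t i M w (x j)) / ((Fintype.card ι : ℝ) * cW M) - 1) ^ 2) f) ≤ vb M f := by
  have hbm : ∀ w, BM (fun x : ι → T3 =>
      ((∑ j, pW t i M w (x j)) / ((Fintype.card ι : ℝ) * cW M) - 1) ^ 2) := by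
    intro w
    have h1 := (((WG3_sum_bm (ι := ι) ht i hM w).const_mul
      ((Fintype.card ι : ℝ) * cW M)⁻¹).sub (BM.const 1)).pow 2
    simpa only [div_eq_inv_mul] using h1
  rw [EW_qf L hbm f]
  have hbm2 : BM (fun x : ι → T3 => EW L (fun w =>
      ((∑ j, pW t i M w (x j)) / ((Fintype.card ι : ℝ) * cW M) - 1) ^ 2)) := by
    have h1 : BM (fun x : ι → T3 => ((L : ℝ) ^ 3)⁻¹ * ∑ m : Fin 3 → Fin L,
        ((∑ j, pW t i M (gp L m) (x j)) / ((Fintype.card ι : ℝ) * cW M) - 1) ^ 2) :=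
      (BM.finset_sum _ fun m _ => hbm (gp L m)).const_mul _
    unfold EW
    simpa only [div_eq_inv_mul] using h1
  have hbm3 : BM (fun x : ι → T3 => (∑ n ∈ (bx M).erase 0, ‖∑ j, ch n (x j)‖ ^ 2)
      / (Fintype.card ι : ℝ) ^ 2) := by
    have h1 : BM (fun x : ι → T3 => ((Fintype.card ι : ℝ) ^ 2)⁻¹ *
        ∑ n ∈ (bx M).erase 0, ‖∑ j, ch n (x j)‖ ^ 2) :=
      (BM.finset_sum _ fun n _ => WG3_bm n).const_mul _
    simpa only [div_eq_inv_mul] using h1
  refine (qf_mono hbm2 hbm3 (Eventually.of_forall fun x => WG3_point ht i hM hL hN x) f).trans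
    (le_of_eq ?_)
  unfold vb Dn
  simp only [div_eq_inv_mul]
  rw [qf_smul, qf_sum _ (fun n _ => WG3_bm n)]

theorem EW_sq {t : ℝ} (ht : 0 < t) (i : ℕ) {L M : ℕ} (hM : 1 ≤ M) (hL : 2 * M < L)
    (hN : 1 ≤ Fintype.card ι) (f : HS ι) :
    EW L (fun w => qf (fun x => (∑ j, pW t i M w (x j)) ^ 2) f)
      ≤ (Fintype.card ι : ℝ) ^ 2 * cW M ^ 2 * (‖f‖ ^ 2 + vb M f) := by
  have hL1 : 1 ≤ L := by omega
  have hN0 : (0 : ℝ) < (Fintype.card ι : ℝ) := by exact_mod_cast hN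
  have hc : 0 < cW M := cW_pos hM
  have hNc : (Fintype.card ι : ℝ) * cW M ≠ 0 := (mul_pos hN0 hc).ne'
  have hbm : ∀ w, BM (fun x : ι → T3 =>
      ((∑ j, pW t i M w (x j)) / ((Fintype.card ι : ℝ) * cW M) - 1) ^ 2) := by
    intro w
    have h1 := (((WG3_sum_bm (ι := ι) ht i hM w).const_mul
      ((Fintype.card ι : ℝ) * cW M)⁻¹).sub (BM.const 1)).pow 2
    simpa only [div_eq_inv_mul] using h1
  have key : ∀ w, qf (fun x => (∑ j, pW t i M w (x j)) ^ 2) f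
      = ((Fintype.card ι : ℝ) * cW M) ^ 2 * qf (fun x =>
          ((∑ j, pW t i M w (x j)) / ((Fintype.card ι : ℝ) * cW M) - 1) ^ 2) f
        + 2 * ((Fintype.card ι : ℝ) * cW M) * qf (fun x => ∑ j, pW t i M w (x j)) f
        - ((Fintype.card ι : ℝ) * cW M) ^ 2 * ‖f‖ ^ 2 := by
    intro w
    rw [← qf_smul, ← qf_smul, ← qf_const,
      ← qf_add_fun ((hbm w).const_mul _) ((WG3_sum_bm ht i hM w).const_mul _),
      ← qf_sub_fun (((hbm w).const_mul _).add ((WG3_sum_bm ht i hM w).const_mul _)) (BM.const _)]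
    congr 1
    funext x
    field_simp
    ring
  simp only [key]
  rw [EW_sub, EW_add, EW_mul, EW_mul, EW_const hL1, EW_lin ht i hM hL f]
  have h2 := mul_le_mul_of_nonneg_left (EW_dev ht i hM hL hN f)
    (sq_nonneg ((Fintype.card ι : ℝ) * cW M))
  refine (sub_le_sub_right (add_le_add_left h2 _) _).trans (le_of_eq ?_)
  ring

end Pool.Agent.Lib.MP_4952d6_mp.O

end

/-! ### O.WG4 -/

section

/-! # O.WG4: the one particle functions of the window as trigonometric polynomials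

`ef t θ k = Pf (ch k θ)`: `wnd_eq`, `ch k ch n = ch (k + n)`, `Pf_sum`, `Pf_ch`.
`rfef_uW`: `v = ef = Σ_{p ∈ bx M} et (k+p) th p conj (ch p w) ch (k+p)`; `Pf v` multiplies by `et (k+p)`; then times
`ch (-k) Σ_m th m conj (ch m w) ch m` gives `Σ_{m,p} th m th p et (k+p)² conj (ch (m+p) w) ch (m+p)`; `Pf` multiplies by `et (m+p)`; collect `n = m + p ∈ bx (2 M)`
(`bx_add`, `two_mul`): `Σ_{m ∈ bx M} Σ_{p ∈ bx M} F (m + p) p` `= Σ_{n ∈ bx (2M)} Σ_{p ∈ bx M} [n - p ∈ bx M] F n p`, and `th (n - p) = 0` if `n - p ∉ bx M` (`th_out`).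
`rfth_uW`: the same: `Pf θ` has coefficients `et p th p`; times `ch k θ`; `ch k ch m ch p = ch (k + (m + p))`; `Pf` multiplies by `et (k + n)`.
`e2`: `ip_uW` and `ef_uW`; `e2_neg`: reindex `n ↦ -n`, `et t (-p) = et t p`. -/

set_option autoImplicit false
set_option linter.unusedSectionVars false
set_option linter.unusedVariables false
open MeasureTheory Function Filter Topology Set ComplexConjugate

namespace Pool.Agent.Lib.MP_4952d6_mp.O

open LB

/-- `‖ef‖²`. -/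
noncomputable def e2 (t : ℝ) (M : ℕ) (k : Fin 3 → ℤ) : ℝ := ∑ n ∈ bx M, (et t (k + n) * th M n) ^ 2

/-- Coefficients of `rf k (ef k)`. -/
noncomputable def vk (t : ℝ) (M : ℕ) (k n : Fin 3 → ℤ) : ℝ :=
  et t n * ∑ p ∈ bx M, th M (n - p) * et t (k + p) ^ 2 * th M p

/-- Coefficients of `θ P θ`. -/
noncomputable def tn (t : ℝ) (M : ℕ) (n : Fin 3 → ℤ) : ℝ :=
  ∑ p ∈ bx M, th M (n - p) * et t p * th M p

/-- the smearing of a trigonometric polynomial -/
lemma WG4_Pf_uW {t : ℝ} (ht : 0 < t) (a : (Fin 3 → ℤ) → ℝ) (k : Fin 3 → ℤ) (R : ℕ) (w : T3) :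
    Pf t (uW a k R w) = uW (fun n => et t (k + n) * a n) k R w := by
  funext x
  have h1 : uW a k R w = fun y => ∑ n ∈ bx R, ((a n : ℂ) * conj (ch n w)) * ch (k + n) y := rfl
  rw [h1, Pf_sum ht (bx R) (fun n => (a n : ℂ) * conj (ch n w)) (fun n _ => bc_ch (k + n)) x]
  unfold uW
  refine Finset.sum_congr rfl fun n _ => ?_
  rw [Pf_ch ht]
  push_cast
  ring

lemma WG4_ch_mul (a : (Fin 3 → ℤ) → ℝ) (l k : Fin 3 → ℤ) (R : ℕ) (w x : T3) :
    ch l x * uW a k R w x = uW a (l + k) R w x := by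
  unfold uW
  rw [Finset.mul_sum]
  refine Finset.sum_congr rfl fun n _ => ?_
  rw [add_assoc l k n, ch_add l (k + n)]
  ring

/-- the product of two trigonometric polynomials -/
lemma WG4_mul {a : (Fin 3 → ℤ) → ℝ} {R : ℕ} (ha : ∀ n, n ∉ bx R → a n = 0)
    (b : (Fin 3 → ℤ) → ℝ) (k l : Fin 3 → ℤ) (R' : ℕ) (w x : T3) :
    uW a k R w x * uW b l R' w x
      = uW (fun n => ∑ p ∈ bx R', a (n - p) * b p) (k + l) (R + R') w x := by
  have h1 : ∀ p ∈ bx R', ∑ m ∈ bx R, ((a m : ℂ) * conj (ch m w)) * ch (k + m) x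
        * (((b p : ℂ) * conj (ch p w)) * ch (l + p) x)
      = ∑ n ∈ bx (R + R'), ((a (n - p) : ℂ) * (b p : ℂ)) * conj (ch n w) * ch (k + l + n) x := by
    intro p hp
    have h2 : ∑ m ∈ (bx R).map (addRightEmbedding p),
          ((a (m - p) : ℂ) * (b p : ℂ)) * conj (ch m w) * ch (k + l + m) x
        = ∑ n ∈ bx (R + R'), ((a (n - p) : ℂ) * (b p : ℂ)) * conj (ch n w)
          * ch (k + l + n) x := by
      refine Finset.sum_subset ?_ ?_
      · intro n hn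
        rw [Finset.mem_map] at hn
        obtain ⟨m, hm, rfl⟩ := hn
        exact bx_add hm hp
      · intro n _ hn
        have h3 : n - p ∉ bx R := by
          intro h4
          apply hn
          rw [Finset.mem_map]
          exact ⟨n - p, h4, by simp⟩
        rw [ha _ h3]
        simp
    rw [← h2, Finset.sum_map]
    refine Finset.sum_congr rfl fun m _ => ?_
    have h5 : (addRightEmbedding p) m = m + p := rfl
    have h6 : k + l + (m + p) = (k + m) + (l + p) := by abel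
    rw [h5, add_sub_cancel_right, h6, ch_add (k + m) (l + p), ch_add m p, map_mul]
    ring
  unfold uW
  rw [Finset.sum_mul_sum, Finset.sum_comm, Finset.sum_congr rfl h1, Finset.sum_comm]
  refine Finset.sum_congr rfl fun n _ => ?_
  push_cast
  rw [Finset.sum_mul, Finset.sum_mul]

theorem wnd_uW {M : ℕ} (hM : 1 ≤ M) (w : T3) :
    (fun x => ((wnd M w x : ℝ) : ℂ)) = uW (th M) 0 M w := by
  funext x
  rw [wnd_eq hM]
  unfold uW
  refine Finset.sum_congr rfl fun n _ => ?_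
  rw [zero_add]
  ring

theorem ef_uW {t : ℝ} (ht : 0 < t) {M : ℕ} (hM : 1 ≤ M) (k : Fin 3 → ℤ) (w : T3) :
    ef t (wnd M w) k = uW (fun n => et t (k + n) * th M n) k M w := by
  unfold ef
  have h1 : (fun x => ch k x * ((wnd M w x : ℝ) : ℂ)) = uW (th M) k M w := by
    funext x
    have h2 := congrFun (wnd_uW hM w) x
    rw [h2, WG4_ch_mul, add_zero]
  rw [h1, WG4_Pf_uW ht]

theorem rfef_uW {t : ℝ} (ht : 0 < t) {M : ℕ} (hM : 1 ≤ M) (k : Fin 3 → ℤ) (w : T3) :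
    rf t (wnd M w) k (ef t (wnd M w) k) = uW (vk t M k) 0 (2 * M) w := by
  unfold rf
  have h1 : (fun x => ch (-k) x * ((wnd M w x : ℝ) : ℂ) * Pf t (ef t (wnd M w) k) x)
      = uW (fun n => ∑ p ∈ bx M, th M (n - p) * (et t (k + p) * (et t (k + p) * th M p)))
        0 (2 * M) w := by
    funext x
    have h2 := congrFun (wnd_uW hM w) x
    rw [h2, WG4_ch_mul, add_zero, ef_uW ht hM, WG4_Pf_uW ht,
      WG4_mul (fun n hn => th_out hM hn), neg_add_cancel, two_mul]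
  rw [h1, WG4_Pf_uW ht]
  congr 1
  funext n
  unfold vk
  rw [zero_add]
  congr 1
  refine Finset.sum_congr rfl fun p _ => ?_
  ring

theorem rfth_uW {t : ℝ} (ht : 0 < t) {M : ℕ} (hM : 1 ≤ M) (k : Fin 3 → ℤ) (w : T3) :
    rf t (wnd M w) (-k) (fun x => ((wnd M w x : ℝ) : ℂ))
      = uW (fun n => et t (k + n) * tn t M n) k (2 * M) w := by
  unfold rf
  have h1 : (fun x => ch (- -k) x * ((wnd M w x : ℝ) : ℂ)
        * Pf t (fun x => ((wnd M w x : ℝ) : ℂ)) x)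
      = uW (fun n => ∑ p ∈ bx M, th M (n - p) * (et t (0 + p) * th M p)) k (2 * M) w := by
    funext x
    have h2 := congrFun (wnd_uW hM w) x
    rw [neg_neg, h2, WG4_ch_mul, add_zero, wnd_uW hM, WG4_Pf_uW ht,
      WG4_mul (fun n hn => th_out hM hn), add_zero, two_mul]
  rw [h1, WG4_Pf_uW ht]
  congr 1
  funext n
  unfold tn
  congr 1
  refine Finset.sum_congr rfl fun p _ => ?_
  rw [zero_add]
  ring

theorem ip_wnd {M : ℕ} (hM : 1 ≤ M) (w : T3) :
    ip (fun x => ((wnd M w x : ℝ) : ℂ)) (fun x => ((wnd M w x : ℝ) : ℂ)) = 1 := by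
  rw [wnd_uW hM, ip_uW, th_sq_sum hM, Complex.ofReal_one]

theorem ip_ef {t : ℝ} (ht : 0 < t) {M : ℕ} (hM : 1 ≤ M) (k : Fin 3 → ℤ) (w : T3) :
    ip (ef t (wnd M w) k) (ef t (wnd M w) k) = ((e2 t M k : ℝ) : ℂ) := by
  rw [ef_uW ht hM, ip_uW]
  rfl

lemma WG4_et_neg (t : ℝ) (p : Fin 3 → ℤ) : et t (-p) = et t p := by
  exact et_neg t p

lemma e2_neg (t : ℝ) (M : ℕ) (k : Fin 3 → ℤ) : e2 t M (-k) = e2 t M k := by
  unfold e2
  refine Finset.sum_nbij' (fun n => -n) (fun n => -n) ?_ ?_ ?_ ?_ ?_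
  · intro n hn
    exact bx_neg.2 hn
  · intro n hn
    exact bx_neg.2 hn
  · intro n _
    exact neg_neg n
  · intro n _
    exact neg_neg n
  · intro n _
    have h1 : -k + n = -(k + -n) := by abel
    rw [h1, WG4_et_neg, th_neg]

lemma e2_nonneg (t : ℝ) (M : ℕ) (k : Fin 3 → ℤ) : 0 ≤ e2 t M k :=
  Finset.sum_nonneg fun _ _ => sq_nonneg _

lemma e2_le_one {t : ℝ} (ht : 0 < t) {M : ℕ} (hM : 1 ≤ M) (k : Fin 3 → ℤ) : e2 t M k ≤ 1 := by
  rw [← th_sq_sum hM]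
  unfold e2
  refine Finset.sum_le_sum fun n _ => ?_
  have h1 := et_pos t (k + n)
  have h2 := et_le_one ht.le (k + n)
  have h3 := th_nonneg hM n
  refine pow_le_pow_left₀ (mul_nonneg h1.le h3) ?_ 2
  exact mul_le_of_le_one_left h3 h2

end Pool.Agent.Lib.MP_4952d6_mp.O

end

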