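import Pool.Agent.Lib.MP_4952d6_mp.Po.N01

/-! Merged modules (to save import time): O.EX0, O.XD, O.XC. -/

/-! ### O.EX0 -/

section

/-!
# O.EX0: the difference functional

`qf_QQ1_le`: `QQ1 r m ψ (x) = ∫ hk (r/2) (x_m - y) (ψ(x) - ψ(x^{m→y})) dy` for a.e. `x` (`S1_ker` for `PP1 r m`, `∫ hk = 1`), Jensen.
`dfm_mono`, `dfm_nonneg`, `dfm_mono_r`: `hk r ≤ √(r'/r)³ hk r'` (`hk_le_hk`) for `r ≤ r'`.
-/

set_option autoImplicit false
set_option linter.unusedSectionVars false
set_option linter.unusedVariables false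
open MeasureTheory Function Filter Topology Set ComplexConjugate

namespace Pool.Agent.Lib.MP_4952d6_mp.O

open LB

lemma dfm_nonneg {N : ℕ} (r : ℝ) (m : Fin N) {G : (Fin N → T3) → ℝ} (hG : ∀ x, 0 ≤ G x)
    (f : (Fin N → T3) → ℂ) : 0 ≤ dfm r m G f := by
  unfold dfm
  exact integral_nonneg fun q => mul_nonneg (hk_nonneg _ _) (mul_nonneg (sq_nonneg _) (hG _))

/-- the square of the difference is integrable -/
lemma EX0_int {N : ℕ} (m : Fin N) (f : HS (Fin N)) :
    Integrable (fun q : (Fin N → T3) × T3 => ‖f q.1 - f (update q.1 m q.2)‖ ^ 2)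
      ((piN (Fin N)).prod lam3) := by
  have h1 : MemLp (fun q : (Fin N → T3) × T3 => (f : (Fin N → T3) → ℂ) q.1) 2
      ((piN (Fin N)).prod lam3) :=
    (Lp.memLp f).comp_measurePreserving (measurePreserving_fst (μ := piN (Fin N)) (ν := lam3))
  have h2 : MemLp (fun q : (Fin N → T3) × T3 => (f : (Fin N → T3) → ℂ) (update q.1 m q.2)) 2
      ((piN (Fin N)).prod lam3) :=
    (Lp.memLp f).comp_measurePreserving (LB.mp_upd (ι := Fin N) m)
  have h3 := h1.sub h2
  exact (memLp_two_iff_integrable_sq_norm h3.1).1 h3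

lemma EX0_bm {N : ℕ} {r : ℝ} (hr : 0 < r) (m : Fin N) {G : (Fin N → T3) → ℝ} (hG : BM G) :
    BM (fun q : (Fin N → T3) × T3 => hk r (q.1 m - q.2) * G q.1) :=
  ((hk_bm hr).comp (measurable_sub' ((measurable_pi_apply m).comp measurable_fst)
    measurable_snd)).mul (hG.comp measurable_fst)

/-- the integrand of `dfm` is integrable -/
theorem dfm_integrable {N : ℕ} {r : ℝ} (hr : 0 < r) (m : Fin N) {G : (Fin N → T3) → ℝ} (hG : BM G)
    (f : HS (Fin N)) : Integrable (fun q : (Fin N → T3) × T3 => hk r (q.1 m - q.2)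
      * (‖f q.1 - f (update q.1 m q.2)‖ ^ 2 * G q.1)) ((piN (Fin N)).prod lam3) := by
  have hb := EX0_bm hr m hG
  obtain ⟨C, hC⟩ := hb.2
  have h := (EX0_int m f).bdd_mul hb.1.aestronglyMeasurable (Eventually.of_forall hC)
  refine h.congr (Eventually.of_forall fun q => ?_)
  simp only
  ring

theorem dfm_mono {N : ℕ} {r : ℝ} (hr : 0 < r) (m : Fin N) {G G' : (Fin N → T3) → ℝ} (hG : BM G)
    (hG' : BM G') (hle : ∀ x, G x ≤ G' x) (f : HS (Fin N)) :
    dfm r m G (f : (Fin N → T3) → ℂ) ≤ dfm r m G' f := by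
  unfold dfm
  refine integral_mono (dfm_integrable hr m hG f) (dfm_integrable hr m hG' f) fun q => ?_
  simp only
  exact mul_le_mul_of_nonneg_left (mul_le_mul_of_nonneg_left (hle _) (sq_nonneg _)) (hk_nonneg _ _)

theorem dfm_mono_r {N : ℕ} {r r' : ℝ} (hr : 0 < r) (hrr : r ≤ r') (m : Fin N)
    {G : (Fin N → T3) → ℝ} (hG : BM G) (hG0 : ∀ x, 0 ≤ G x) (f : HS (Fin N)) :
    dfm r m G (f : (Fin N → T3) → ℂ) ≤ Real.sqrt (r' / r) ^ 3 * dfm r' m G f := by
  have hr' : 0 < r' := lt_of_lt_of_le hr hrr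
  unfold dfm
  rw [← integral_const_mul]
  refine integral_mono (dfm_integrable hr m hG f) ((dfm_integrable hr' m hG f).const_mul _)
    fun q => ?_
  simp only
  have h1 := hk_le_hk hr hrr (q.1 m - q.2)
  have h2 : 0 ≤ ‖f q.1 - f (update q.1 m q.2)‖ ^ 2 * G q.1 := mul_nonneg (sq_nonneg _) (hG0 _)
  calc hk r (q.1 m - q.2) * (‖f q.1 - f (update q.1 m q.2)‖ ^ 2 * G q.1)
      ≤ (Real.sqrt (r' / r) ^ 3 * hk r' (q.1 m - q.2))
          * (‖f q.1 - f (update q.1 m q.2)‖ ^ 2 * G q.1) := mul_le_mul_of_nonneg_right h1 h2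
    _ = _ := by ring

theorem qf_QQ1_le {N : ℕ} {r : ℝ} (hr : 0 < r) (m : Fin N) {G : (Fin N → T3) → ℝ} (hG : BM G)
    (hG0 : ∀ x, 0 ≤ G x) (ψ : HS (Fin N)) :
    qf G (QQ1 r m ψ) ≤ dfm (r / 2) m G (ψ : (Fin N → T3) → ℂ) := by
  have hr2 : 0 < r / 2 := by linarith
  have hker := S1_ker (hk_bm hr2) (bdm_et hr.le) (fun p => fc3_hk hr2 p) m ψ
  have hdec : QQ1 r m ψ = ψ - PP1 r m ψ := by
    rw [eq_sub_iff_add_eq, add_comm]
    exact PP1_add_QQ1 hr.le m ψ
  have hQ : (QQ1 r m ψ : (Fin N → T3) → ℂ) =ᵐ[piN (Fin N)]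
      fun x => ψ x - cvc (hk (r / 2)) m (ψ : (Fin N → T3) → ℂ) x := by
    rw [hdec]
    filter_upwards [Lp.coeFn_sub ψ (PP1 r m ψ), hker] with x h1 h2
    rw [h1, Pi.sub_apply]
    unfold PP1
    rw [h2]
  have hint := dfm_integrable hr2 m hG ψ
  have hsec : ∀ᵐ x ∂(piN (Fin N)), Integrable (fun y => ‖ψ x - ψ (update x m y)‖ ^ 2) lam3 :=
    (EX0_int m ψ).prod_right_ae
  unfold dfm
  rw [integral_prod _ hint]
  unfold qf
  refine integral_mono_of_nonneg
    (Eventually.of_forall fun x => mul_nonneg (hG0 x) (sq_nonneg _)) hint.integral_prod_left ?_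
  filter_upwards [hQ, hsec, Ker_sec ψ m] with x hx hx2 hx3
  have hwx : BM (fun y => hk (r / 2) (x m - y)) :=
    (hk_bm hr2).comp (measurable_sub' measurable_const measurable_id)
  have hone : ∫ y, hk (r / 2) (x m - y) ∂lam3 = 1 := by
    rw [int_sub_left (hk (r / 2)) (x m), hk_integral hr2]
  have hsm : StronglyMeasurable (fun y => ψ x - ψ (update x m y)) :=
    stronglyMeasurable_const.sub (Ker_sec_sm ψ m x)
  have hcs := Ker_cs (BM.const 1) hwx (fun _ => hk_nonneg _ _) hsm hx2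
  simp only [one_pow, one_mul] at hcs
  rw [hone, one_mul] at hcs
  have hu1 : Integrable (fun y => ψ (update x m y)) lam3 :=
    ((memLp_two_iff_integrable_sq_norm (Ker_sec_sm ψ m x).aestronglyMeasurable).2 hx3).integrable
      one_le_two
  obtain ⟨D, hD⟩ := hwx.2
  have i1 : Integrable (fun y => ((hk (r / 2) (x m - y) : ℝ) : ℂ) * ψ (update x m y)) lam3 := by
    refine hu1.bdd_mul (c := D) (Complex.measurable_ofReal.comp hwx.1).aestronglyMeasurable
      (Eventually.of_forall fun z => ?_)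
    rw [Complex.norm_real]
    exact hD z
  have i2 : Integrable (fun y => ((hk (r / 2) (x m - y) : ℝ) : ℂ) * ψ x) lam3 :=
    (hwx.integrable _).ofReal.mul_const _
  have he : (QQ1 r m ψ : (Fin N → T3) → ℂ) x
      = ∫ y, ((hk (r / 2) (x m - y) : ℝ) : ℂ) * (ψ x - ψ (update x m y)) ∂lam3 := by
    rw [hx]
    simp only [mul_sub]
    rw [integral_sub i2 i1, integral_mul_const, integral_complex_ofReal, hone, Complex.ofReal_one,
      one_mul]
    rfl
  rw [he]
  have h5 := mul_le_mul_of_nonneg_left hcs (hG0 x)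
  refine h5.trans (le_of_eq ?_)
  rw [← integral_const_mul]
  refine integral_congr_ae (Eventually.of_forall fun y => ?_)
  simp only
  ring

theorem cw_QQ1_le {N : ℕ} {r s t T MD : ℝ} (hr : 0 < r) (hrT : r ≤ 64 * T) (ht : 0 < t)
    (hs : t / 8 ≤ s) (hsT : s ≤ 64 * T) {ψ : HS (Fin N)} (h : DBd t T MD ψ) :
    ∑ m, cw s m (QQ1 r m ψ) ≤ MD := by
  have hs0 : 0 < s := by linarith
  refine le_trans (Finset.sum_le_sum fun m _ => ?_) (h (r / 2) s (by linarith) (by linarith) hs hsT)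
  unfold cw
  exact qf_QQ1_le hr m (Sums_bm hs0 m) (fun x => sq_nonneg _) ψ

end Pool.Agent.Lib.MP_4952d6_mp.O

end

/-! ### O.XD -/

section

/-!
# O.XD: the difference density

`dd r a g x = ∫ hk r (x_a - y) |g(x) - g(x^{a→y})|² dy`, `dfm r a G g = ∫ G(x) dd r a g x dx`.
`dd_int`: `dfm_integrable` (EX0) and `Integrable.integral_prod_left`, `integral_prod`, `integral_const_mul`.
`dd_integrable`: `dd_int` with `G = 1`. `dfm_sum`, `dfm_smul` from `dd_int` (or directly from the definition of `dfm` and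
`dfm_integrable`); `dfm_le_smul` : `dfm_mono` and `dfm_smul`.
-/

set_option autoImplicit false
set_option linter.unusedSectionVars false
set_option linter.unusedVariables false
open MeasureTheory Function Filter Topology Set ComplexConjugate

namespace Pool.Agent.Lib.MP_4952d6_mp.O

open LB

variable {N : ℕ}

/-- difference density -/
noncomputable def dd (r : ℝ) (a : Fin N) (g : HS (Fin N)) (x : Fin N → T3) : ℝ :=
  ∫ y, hk r (x a - y) * ‖g x - g (update x a y)‖ ^ 2 ∂lam3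

lemma dd_nonneg (r : ℝ) (a : Fin N) (g : HS (Fin N)) (x : Fin N → T3) : 0 ≤ dd r a g x :=
  integral_nonneg fun y => mul_nonneg (hk_nonneg _ _) (sq_nonneg _)

theorem dd_int {r : ℝ} (hr : 0 < r) (a : Fin N) {G : (Fin N → T3) → ℝ} (hG : BM G)
    (g : HS (Fin N)) : Integrable (fun x => G x * dd r a g x) (piN (Fin N)) ∧
      ∫ x, G x * dd r a g x ∂(piN (Fin N)) = dfm r a G (g : (Fin N → T3) → ℂ) := by
  have hI := dfm_integrable hr a hG g
  have e : ∀ x, ∫ y, hk r (x a - y) * (‖g x - g (update x a y)‖ ^ 2 * G x) ∂lam3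
      = G x * dd r a g x := by
    intro x
    unfold dd
    rw [← integral_const_mul]
    refine integral_congr_ae (Eventually.of_forall fun y => ?_)
    simp only
    ring
  constructor
  · exact hI.integral_prod_left.congr (Eventually.of_forall e)
  · unfold dfm
    rw [integral_prod _ hI]
    exact integral_congr_ae (Eventually.of_forall fun x => (e x).symm)

theorem dd_integrable {r : ℝ} (hr : 0 < r) (a : Fin N) (g : HS (Fin N)) :
    Integrable (dd r a g) (piN (Fin N)) := by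
  have h := (dd_int hr a (BM.const (α := Fin N → T3) 1) g).1
  simpa only [one_mul] using h

theorem dfm_sum {r : ℝ} (hr : 0 < r) (a : Fin N) {κ : Type*} (s : Finset κ)
    {G : κ → (Fin N → T3) → ℝ} (hG : ∀ i ∈ s, BM (G i)) (g : HS (Fin N)) :
    dfm r a (fun x => ∑ i ∈ s, G i x) (g : (Fin N → T3) → ℂ)
      = ∑ i ∈ s, dfm r a (G i) (g : (Fin N → T3) → ℂ) := by
  rw [← (dd_int hr a (BM.finset_sum s hG) g).2]
  have e : ∀ i ∈ s, dfm r a (G i) (g : (Fin N → T3) → ℂ) = ∫ x, G i x * dd r a g x ∂(piN (Fin N)) :=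
    fun i hi => (dd_int hr a (hG i hi) g).2.symm
  rw [Finset.sum_congr rfl e, ← integral_finsetSum s fun i hi => (dd_int hr a (hG i hi) g).1]
  refine integral_congr_ae (Eventually.of_forall fun x => ?_)
  simp only
  rw [Finset.sum_mul]

theorem dfm_smul (r : ℝ) (a : Fin N) (c : ℝ) (G : (Fin N → T3) → ℝ) (f : (Fin N → T3) → ℂ) :
    dfm r a (fun x => c * G x) f = c * dfm r a G f := by
  unfold dfm
  rw [← integral_const_mul]
  refine integral_congr_ae (Eventually.of_forall fun q => ?_)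
  simp only
  ring

theorem dfm_le_smul {r : ℝ} (hr : 0 < r) (a : Fin N) {c : ℝ} {G G' : (Fin N → T3) → ℝ} (hG : BM G)
    (hG' : BM G') (h : ∀ x, G x ≤ c * G' x) (g : HS (Fin N)) :
    dfm r a G (g : (Fin N → T3) → ℂ) ≤ c * dfm r a G' g := by
  rw [← dfm_smul]
  exact dfm_mono hr a hG (hG'.const_mul c) h g

end Pool.Agent.Lib.MP_4952d6_mp.O

end

/-! ### O.XC -/

section

/-!
# O.XC: counting lemmas for the difference functional

`crowd s a x = ∑_{b ≠ a} hk s (x a - x b)`. `dfm_two`: `dfm_sum`, `N crowd ≤ (crowd + N)²` (both `≥ 0`), `dfm_mono`, `dfm_smul`.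
`dfm_three`: `dfm_sum` twice, pointwise `∑_b ∑_{c ≠ b} hk s (x a - x b) hk s' (x a - x c) ≤ crowd s a x * crowd s' a x
≤ (1/2) (crowd s + N)² + (1/2) (crowd s' + N)²`, `dfm_mono`. Models: `sum_hk_hk_le`, `Sums_pt`, `qf_crowd_le_cw` in LB/Sums.lean.
-/

set_option autoImplicit false
set_option linter.unusedSectionVars false
set_option linter.unusedVariables false
open MeasureTheory Function Filter Topology Set ComplexConjugate

namespace Pool.Agent.Lib.MP_4952d6_mp.O

open LB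

variable {N : ℕ}

theorem dfm_two {r s : ℝ} (hr : 0 < r) (hs : 0 < s) (hN : 0 < N) (a : Fin N) (ψ : HS (Fin N)) :
    ∑ b ∈ Finset.univ.erase a, dfm r a (fun x => hk s (x a - x b)) (ψ : (Fin N → T3) → ℂ)
      ≤ 1 / N * dfm r a (fun x => (crowd s a x + N) ^ 2) ψ := by
  have hN' : (0 : ℝ) < N := by exact_mod_cast hN
  have hb : ∀ b ∈ (Finset.univ.erase a : Finset (Fin N)),
      BM (fun x : Fin N → T3 => hk s (x a - x b)) := fun b _ => Sums_hk_bm hs a b
  rw [← dfm_sum hr a (Finset.univ.erase a) hb ψ]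
  refine dfm_le_smul hr a (BM.finset_sum _ hb) (Sums_bm hs a) (fun x => ?_) ψ
  have h1 := crowd_nonneg s a x
  have h3 : ∑ b ∈ Finset.univ.erase a, hk s (x a - x b) = crowd s a x := rfl
  rw [h3]
  have h4 : (N : ℝ) * crowd s a x ≤ (crowd s a x + N) ^ 2 := by
    nlinarith [mul_nonneg h1 hN'.le, sq_nonneg (crowd s a x), sq_nonneg (N : ℝ)]
  rw [one_div, ← div_eq_inv_mul, le_div_iff₀ hN', mul_comm]
  exact h4

theorem dfm_one {r s : ℝ} (hr : 0 < r) (hs : 0 < s) (hN : 0 < N) (a : Fin N) (ψ : HS (Fin N)) :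
    dfm r a (fun _ => 1) (ψ : (Fin N → T3) → ℂ)
      ≤ 1 / N ^ 2 * dfm r a (fun x => (crowd s a x + N) ^ 2) ψ := by
  have hN' : (0 : ℝ) < N := by exact_mod_cast hN
  refine dfm_le_smul hr a (BM.const _) (Sums_bm hs a) (fun x => ?_) ψ
  have h1 := crowd_nonneg s a x
  rw [one_div, ← div_eq_inv_mul, le_div_iff₀ (by positivity), one_mul]
  exact pow_le_pow_left₀ hN'.le (by linarith) 2

theorem dfm_three {r s s' : ℝ} (hr : 0 < r) (hs : 0 < s) (hs' : 0 < s') (a : Fin N)
    (ψ : HS (Fin N)) :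
    ∑ b ∈ Finset.univ.erase a, ∑ c ∈ (Finset.univ.erase a).erase b,
        dfm r a (fun x => hk s (x a - x b) * hk s' (x a - x c)) (ψ : (Fin N → T3) → ℂ)
      ≤ 1 / 2 * dfm r a (fun x => (crowd s a x + N) ^ 2) ψ
        + 1 / 2 * dfm r a (fun x => (crowd s' a x + N) ^ 2) ψ := by
  have hb : ∀ b c : Fin N, BM (fun x : Fin N → T3 => hk s (x a - x b) * hk s' (x a - x c)) :=
    fun b c => (Sums_hk_bm hs a b).mul (Sums_hk_bm hs' a c)
  have e2 : ∀ b : Fin N, ∑ c ∈ (Finset.univ.erase a).erase b,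
      dfm r a (fun x => hk s (x a - x b) * hk s' (x a - x c)) (ψ : (Fin N → T3) → ℂ)
      = dfm r a (fun x => ∑ c ∈ (Finset.univ.erase a).erase b,
          hk s (x a - x b) * hk s' (x a - x c)) ψ :=
    fun b => (dfm_sum hr a _ (fun c _ => hb b c) ψ).symm
  simp_rw [e2]
  have hb2 : ∀ b : Fin N, BM (fun x : Fin N → T3 => ∑ c ∈ (Finset.univ.erase a).erase b,
      hk s (x a - x b) * hk s' (x a - x c)) := fun b => BM.finset_sum _ fun c _ => hb b c
  rw [← dfm_sum hr a (Finset.univ.erase a) (fun b _ => hb2 b) ψ]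
  have hG : BM (fun x : Fin N → T3 => (crowd s a x + N) ^ 2 + (crowd s' a x + N) ^ 2) :=
    (Sums_bm hs a).add (Sums_bm hs' a)
  refine (dfm_le_smul hr a (c := 1 / 2) (BM.finset_sum _ fun b _ => hb2 b) hG (fun x => ?_) ψ).trans
    (le_of_eq ?_)
  · have h1 := crowd_nonneg s a x
    have h2 := crowd_nonneg s' a x
    have h0 : (0 : ℝ) ≤ N := Nat.cast_nonneg N
    have p : ∑ b ∈ Finset.univ.erase a, ∑ c ∈ (Finset.univ.erase a).erase b,
        hk s (x a - x b) * hk s' (x a - x c) ≤ crowd s a x * crowd s' a x := by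
      have : crowd s a x * crowd s' a x
          = ∑ b ∈ Finset.univ.erase a, hk s (x a - x b) * crowd s' a x := by
        rw [← Finset.sum_mul]; rfl
      rw [this]
      refine Finset.sum_le_sum fun b _ => ?_
      rw [← Finset.mul_sum]
      refine mul_le_mul_of_nonneg_left ?_ (hk_nonneg _ _)
      exact Finset.sum_le_sum_of_subset_of_nonneg (Finset.erase_subset _ _)
        fun l _ _ => hk_nonneg _ _
    nlinarith [sq_nonneg (crowd s a x - crowd s' a x), mul_nonneg h1 h0, mul_nonneg h2 h0,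
      sq_nonneg (N : ℝ)]
  · have e3 := dfm_sum hr a (Finset.univ : Finset (Fin 2))
      (G := fun i x => if i = 0 then (crowd s a x + N) ^ 2 else (crowd s' a x + N) ^ 2)
      (fun i _ => by
        fin_cases i
        · simpa using Sums_bm hs a
        · simpa using Sums_bm hs' a) ψ
    simp only [Fin.sum_univ_two, if_true, Fin.isValue, one_ne_zero, if_false] at e3
    rw [e3]
    ring

end Pool.Agent.Lib.MP_4952d6_mp.O

end

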