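import Pool.Agent.Lib.MP_4952d6_mp.Pk.G40
import Pool.Agent.Lib.MP_4952d6_mp.Po.N01
import Pool.Agent.Lib.MP_4952d6_mp.Po.N02
import Pool.Agent.Lib.MP_4952d6_mp.Po.N06

/-! Merged modules (to save import time): O.XDP, O.XG1, O.XG2, O.XG3, O.XT, O.XF. -/

/-! ### O.XDP -/

section

/-!
# O.XDP: the difference functional and an average in another variable

`dfm r a G (PP1 s b g) ≤ dfm r a (cvj (hk (s/2)) b G) g` for `a ≠ b`. Proof. `q = hk (s/2)`. `PP1 s b g =ᵐ cvc q b g` (`S1_ker`, `fc3_hk`).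
By `measurePreserving_fst` and `mp_upd`, for a.e. `(x,y)`:
`(PP1 g)(x) - (PP1 g)(x^{a→y}) = ∫ q(x_b - v) (g(x^{b→v}) - g(x^{b→v, a→y})) dv` (`(x^{a→y})_b = x_b`, `update_comm`, for a.e. `(x,y)` both
integrands are integrable in `v`: sections of the integrable functions `g ∘ update`, `Ker_int`, `Integrable.prod_right_ae`), so by Cauchy-Schwarz
(`Ker_cs` with `a = 1`, `∫ q = 1`) its square is at most `∫ q(x_b - v) |g(x^{b→v}) - g(x^{b→v,a→y})|² dv`.
Multiply by `hk r (x_a-y) G(x)` and integrate over `(x,y)`. Exchange `(x_b, v)` (measure preserving involution `swj b` on `(x,v)`, `y` is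
a parameter; write the triple integral as `∫ dy` of a double integral over `(x,v)`, `integral_swj`): the result is
`∫∫∫ hk r (x_a-y) q(v - x_b) G(x^{b→v}) |g(x) - g(x^{a→y})|² dv dx dy`, and `∫ q(v-x_b) G(x^{b→v}) dv = cvj q b G x` (`hk_neg`).
It is convenient to do everything with `∫⁻` of `ENNReal.ofReal` (Tonelli without integrability: `lintegral_swj`, `lintegral_prod`), or with the
measurable representatives; `SmoB_sh3`, `SmoB_mp3` (LB/SmoB.lean) are models of the change of variables on triples.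
-/

set_option autoImplicit false
set_option linter.unusedSectionVars false
set_option linter.unusedVariables false
open MeasureTheory Function Filter Topology Set ComplexConjugate

namespace Pool.Agent.Lib.MP_4952d6_mp.O

open LB

variable {N : ℕ}

/-- translation of one coordinate commutes with the convolution in another one -/
lemma XDP_cvc (w : T3 → ℝ) {a b : Fin N} (hab : a ≠ b) (F : (Fin N → T3) → ℂ) (x : Fin N → T3)
    (y : T3) : cvc w b (fun x => F (update x a y)) x = cvc w b F (update x a y) := by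
  unfold cvc
  refine integral_congr_ae (Eventually.of_forall fun v => ?_)
  simp only
  rw [update_of_ne hab.symm, update_comm hab]

lemma XDP_cvj (w : T3 → ℝ) (r : ℝ) {a b : Fin N} (hab : a ≠ b) (G : (Fin N → T3) → ℝ) (y : T3)
    (x : Fin N → T3) :
    cvj w b (fun x => hk r (x a - y) * G x) x = hk r (x a - y) * cvj w b G x := by
  unfold cvj
  rw [← integral_const_mul]
  refine integral_congr_ae (Eventually.of_forall fun v => ?_)
  simp only
  rw [update_of_ne hab]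
  ring

lemma XDP_sec (g : HS (Fin N)) (a : Fin N) :
    ∀ᵐ y ∂lam3, MemLp (fun x => g (update x a y)) 2 (piN (Fin N)) := by
  have h1 : Integrable (fun q : (Fin N → T3) × T3 => ‖g (update q.1 a q.2)‖ ^ 2)
      ((piN (Fin N)).prod lam3) := (LB.mp_upd a).integrable_comp_of_integrable (integrable_norm_sq g)
  filter_upwards [h1.prod_left_ae] with y hy
  have hsm : StronglyMeasurable (fun x : Fin N → T3 => g (update x a y)) :=
    (Lp.stronglyMeasurable g).comp_measurable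
      ((measurable_upd a).comp (measurable_id.prodMk measurable_const))
  exact (memLp_two_iff_integrable_sq_norm hsm.aestronglyMeasurable).2 hy

lemma XDP_swap {p : (Fin N → T3) → T3 → Prop}
    (h : ∀ᵐ q ∂((piN (Fin N)).prod lam3), p q.1 q.2) :
    ∀ᵐ y ∂lam3, ∀ᵐ x ∂(piN (Fin N)), p x y := by
  have h1 : ∀ᵐ q ∂(lam3.prod (piN (Fin N))), p q.2 q.1 :=
    Measure.measurePreserving_swap.quasiMeasurePreserving.ae h
  exact Measure.ae_ae_of_ae_prod h1

theorem dfm_PP1 {r s : ℝ} (hr : 0 < r) (hs : 0 < s) {a b : Fin N} (hab : a ≠ b)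
    {G : (Fin N → T3) → ℝ} (hG : BM G) (hG0 : ∀ x, 0 ≤ G x) (g : HS (Fin N)) :
    dfm r a G (PP1 s b g : HS (Fin N)) ≤ dfm r a (cvj (hk (s / 2)) b G) g := by
  have hs2 : 0 < s / 2 := by linarith
  have hcv : BM (cvj (hk (s / 2)) b G) := cvj_bm (hk_bm hs2) b hG
  have i1 := dfm_integrable hr a hG (PP1 s b g)
  have i2 := dfm_integrable hr a hcv g
  unfold dfm
  rw [integral_prod_symm _ i1, integral_prod_symm _ i2]
  refine integral_mono_ae i1.integral_prod_right i2.integral_prod_right ?_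
  have hker := S1_ker (hk_bm hs2) (bdm_et hs.le) (fun p => fc3_hk hs2 p) b g
  have e1 : ∀ᵐ y ∂lam3, ∀ᵐ x ∂(piN (Fin N)), (PP1 s b g : (Fin N → T3) → ℂ) (update x a y)
      = cvc (hk (s / 2)) b (g : (Fin N → T3) → ℂ) (update x a y) :=
    XDP_swap (p := fun x y => (PP1 s b g : (Fin N → T3) → ℂ) (update x a y)
      = cvc (hk (s / 2)) b (g : (Fin N → T3) → ℂ) (update x a y))
      ((LB.mp_upd (ι := Fin N) a).quasiMeasurePreserving.ae hker)
  filter_upwards [e1, XDP_sec g a] with y hy1 hy2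
  have hGy : BM (fun x : Fin N → T3 => hk r (x a - y) * G x) :=
    ((hk_bm hr).comp (measurable_sub' (measurable_pi_apply a) measurable_const)).mul hG
  have hJ := jensen_PP1 hs b hGy (fun x => mul_nonneg (hk_nonneg _ _) (hG0 x))
    (g - hy2.toLp _)
  have a1 : (hy2.toLp _ : (Fin N → T3) → ℂ) =ᵐ[piN (Fin N)] fun x => g (update x a y) :=
    hy2.coeFn_toLp
  have a2 : (PP1 s b (hy2.toLp _) : (Fin N → T3) → ℂ) =ᵐ[piN (Fin N)]
      cvc (hk (s / 2)) b (fun x => g (update x a y)) :=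
    (S1_ker (hk_bm hs2) (bdm_et hs.le) (fun p => fc3_hk hs2 p) b (hy2.toLp _)).trans
      (Ker_cvc_congr b a1)
  have l1 : qf (fun x : Fin N → T3 => hk r (x a - y) * G x) (PP1 s b (g - hy2.toLp _))
      = ∫ x, hk r (x a - y) * (‖(PP1 s b g : (Fin N → T3) → ℂ) x
        - (PP1 s b g : (Fin N → T3) → ℂ) (update x a y)‖ ^ 2 * G x) ∂(piN (Fin N)) := by
    unfold qf
    refine integral_congr_ae ?_
    have a3 : (PP1 s b (g - hy2.toLp _) : (Fin N → T3) → ℂ) =ᵐ[piN (Fin N)]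
        fun x => (PP1 s b g : (Fin N → T3) → ℂ) x - (PP1 s b (hy2.toLp _) : (Fin N → T3) → ℂ) x := by
      rw [map_sub]
      exact Lp.coeFn_sub _ _
    filter_upwards [a2, a3, hy1] with x h1 h2 h3
    rw [h2, h1, XDP_cvc _ hab, ← h3]
    ring
  have l2 : qf (cvj (hk (s / 2)) b (fun x : Fin N → T3 => hk r (x a - y) * G x)) (g - hy2.toLp _)
      = ∫ x, hk r (x a - y) * (‖(g : (Fin N → T3) → ℂ) x - g (update x a y)‖ ^ 2
        * cvj (hk (s / 2)) b G x) ∂(piN (Fin N)) := by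
    unfold qf
    refine integral_congr_ae ?_
    filter_upwards [Lp.coeFn_sub g (hy2.toLp _), a1] with x h1 h2
    rw [h1, Pi.sub_apply, h2, XDP_cvj _ _ hab]
    ring
  rw [l1, l2] at hJ
  exact hJ

end Pool.Agent.Lib.MP_4952d6_mp.O

end

/-! ### O.XG1 -/

section

/-!
# O.XG1: smo_two with the difference functional (contact term, step 1)

As `smo_two` (LB/SmoA.lean), but without the projection: `PP1 t l Ψ =ᵐ cvc (hk(t/2)) l Ψ` (`S1_ker`), so for a.e. `(x,y)`
`Φ(x) - Φ(x^{l→y}) = ∫ (hk(t/2)(x_l-z) - hk(t/2)(y-z)) Ψ(x^{l→z}) dz = ∫ (hk(t/2)(x_l-z) - hk(t/2)(y-z)) (Ψ(x^{l→z}) - Ψ(x)) dz`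
because the difference of the two kernels has integral `0` (`int_sub_left`). Then `hk_diff` with `s = t/2` exactly as in `smo_two`
(`√t = √2 √(t/2)`).
-/

set_option autoImplicit false
set_option linter.unusedSectionVars false
set_option linter.unusedVariables false
open MeasureTheory Function Filter Topology Set ComplexConjugate

namespace Pool.Agent.Lib.MP_4952d6_mp.O

open LB

theorem smo_twoO : ∃ C : ℝ, 0 ≤ C ∧ ∀ (N : ℕ) (t : ℝ) (l : Fin N) (Ψ : HS (Fin N)), 0 < t →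
    ∀ᵐ q ∂((piN (Fin N)).prod lam3),
      ‖(PP1 t l Ψ : (Fin N → T3) → ℂ) q.1 - (PP1 t l Ψ : (Fin N → T3) → ℂ) (update q.1 l q.2)‖
      ≤ C * (rr (q.1 l - q.2) / Real.sqrt t)
        * ∫ z, (hk (2 * t) (q.1 l - z) + hk (2 * t) (q.2 - z))
            * ‖(Ψ : (Fin N → T3) → ℂ) q.1 - (Ψ : (Fin N → T3) → ℂ) (update q.1 l z)‖ ∂lam3 := by
  obtain ⟨C, hC0, hC⟩ := hk_diff
  refine ⟨C * Real.sqrt 2, by positivity, fun N t l Ψ ht => ?_⟩
  have ht2 : 0 < t / 2 := by linarith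
  have ht2' : 0 < 2 * t := by linarith
  have hae : (PP1 t l Ψ : (Fin N → T3) → ℂ) =ᵐ[piN (Fin N)]
      fun x => cvc (hk (t / 2)) l (Ψ : (Fin N → T3) → ℂ) x :=
    S1_ker (hk_bm ht2) (bdm_et ht.le) (fun p => fc3_hk ht2 p) l Ψ
  have hfst : ∀ᵐ q : (Fin N → T3) × T3 ∂((piN (Fin N)).prod lam3),
      (PP1 t l Ψ : (Fin N → T3) → ℂ) q.1 = cvc (hk (t / 2)) l (Ψ : (Fin N → T3) → ℂ) q.1 :=
    (measurePreserving_fst (μ := piN (Fin N)) (ν := lam3)).quasiMeasurePreserving.ae hae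
  have hupd : ∀ᵐ q : (Fin N → T3) × T3 ∂((piN (Fin N)).prod lam3),
      (PP1 t l Ψ : (Fin N → T3) → ℂ) (update q.1 l q.2)
        = cvc (hk (t / 2)) l (Ψ : (Fin N → T3) → ℂ) (update q.1 l q.2) :=
    (LB.mp_upd (ι := Fin N) l).quasiMeasurePreserving.ae hae
  have hsec0 : ∀ᵐ x ∂(piN (Fin N)),
      Integrable (fun z => (Ψ : (Fin N → T3) → ℂ) (update x l z)) lam3 := by
    have h1 : Integrable (fun q : (Fin N → T3) × T3 => (Ψ : (Fin N → T3) → ℂ) (update q.1 l q.2))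
        ((piN (Fin N)).prod lam3) :=
      (LB.mp_upd l).integrable_comp_of_integrable ((Lp.memLp Ψ).integrable one_le_two)
    exact h1.prod_right_ae
  have hsec : ∀ᵐ q : (Fin N → T3) × T3 ∂((piN (Fin N)).prod lam3),
      Integrable (fun z => (Ψ : (Fin N → T3) → ℂ) (update q.1 l z)) lam3 :=
    (measurePreserving_fst (μ := piN (Fin N)) (ν := lam3)).quasiMeasurePreserving.ae hsec0
  filter_upwards [hfst, hupd, hsec] with q h1 h2 h3
  rw [h1, h2]
  have bk : ∀ (s : ℝ), 0 < s → ∀ u : T3, BM (fun z => hk s (u - z)) := fun s hs u =>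
    (hk_bm hs).comp (measurable_sub' measurable_const measurable_id)
  have hcst : Integrable (fun _ : T3 => (Ψ : (Fin N → T3) → ℂ) q.1) lam3 := integrable_const _
  have h3' : Integrable (fun z => (Ψ : (Fin N → T3) → ℂ) (update q.1 l z)
      - (Ψ : (Fin N → T3) → ℂ) q.1) lam3 := h3.sub hcst
  have hmul : ∀ (s : ℝ), 0 < s → ∀ u : T3, ∀ g : T3 → ℂ, Integrable g lam3 →
      Integrable (fun z => ((hk s (u - z) : ℝ) : ℂ) * g z) lam3 := by
    intro s hs u g hg
    obtain ⟨D, hD⟩ := (bk s hs u).2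
    refine hg.bdd_mul (c := D) (Complex.measurable_ofReal.comp (bk s hs u).1).aestronglyMeasurable
      (Eventually.of_forall fun z => ?_)
    rw [Complex.norm_real]
    exact hD z
  -- subtracting the constant
  have hone : ∀ u : T3, ∫ z, ((hk (t / 2) (u - z) : ℝ) : ℂ) ∂lam3 = 1 := by
    intro u
    rw [integral_complex_ofReal, int_sub_left, hk_integral ht2, Complex.ofReal_one]
  have hsplit : ∀ u : T3,
      ∫ z, ((hk (t / 2) (u - z) : ℝ) : ℂ) * (Ψ : (Fin N → T3) → ℂ) (update q.1 l z) ∂lam3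
        = (∫ z, ((hk (t / 2) (u - z) : ℝ) : ℂ) * ((Ψ : (Fin N → T3) → ℂ) (update q.1 l z)
            - (Ψ : (Fin N → T3) → ℂ) q.1) ∂lam3) + (Ψ : (Fin N → T3) → ℂ) q.1 := by
    intro u
    have h4 : ∫ z, ((hk (t / 2) (u - z) : ℝ) : ℂ) * (Ψ : (Fin N → T3) → ℂ) q.1 ∂lam3
        = (Ψ : (Fin N → T3) → ℂ) q.1 := by
      rw [integral_mul_const, hone, one_mul]
    have h5 := integral_add (hmul _ ht2 u _ h3') (hmul _ ht2 u _ hcst)
    rw [h4] at h5
    rw [← h5]
    refine integral_congr_ae (Eventually.of_forall fun z => ?_)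
    simp only
    ring
  have e0 : cvc (hk (t / 2)) l (Ψ : (Fin N → T3) → ℂ) q.1
      = ∫ z, ((hk (t / 2) (q.1 l - z) : ℝ) : ℂ) * (Ψ : (Fin N → T3) → ℂ) (update q.1 l z) ∂lam3 := by
    unfold cvc
    rfl
  have e2 : cvc (hk (t / 2)) l (Ψ : (Fin N → T3) → ℂ) (update q.1 l q.2)
      = ∫ z, ((hk (t / 2) (q.2 - z) : ℝ) : ℂ) * (Ψ : (Fin N → T3) → ℂ) (update q.1 l z) ∂lam3 := by
    unfold cvc
    simp only [update_idem, update_self]
  rw [e0, e2, hsplit, hsplit, add_sub_add_right_eq_sub,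
    ← integral_sub (hmul _ ht2 _ _ h3') (hmul _ ht2 _ _ h3')]
  refine (norm_integral_le_integral_norm _).trans ?_
  rw [← integral_const_mul]
  have hnorm : Integrable (fun z => ‖(Ψ : (Fin N → T3) → ℂ) q.1
      - (Ψ : (Fin N → T3) → ℂ) (update q.1 l z)‖) lam3 := (hcst.sub h3).norm
  have hdom : Integrable (fun z => C * Real.sqrt 2 * (rr (q.1 l - q.2) / Real.sqrt t)
      * ((hk (2 * t) (q.1 l - z) + hk (2 * t) (q.2 - z))
        * ‖(Ψ : (Fin N → T3) → ℂ) q.1 - (Ψ : (Fin N → T3) → ℂ) (update q.1 l z)‖)) lam3 := by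
    refine Integrable.const_mul ?_ _
    have hb := (bk _ ht2' (q.1 l)).add (bk _ ht2' q.2)
    obtain ⟨D, hD⟩ := hb.2
    exact hnorm.bdd_mul hb.1.aestronglyMeasurable (Eventually.of_forall hD)
  refine integral_mono_of_nonneg (Eventually.of_forall fun z => norm_nonneg _) hdom
    (Eventually.of_forall fun z => ?_)
  simp only
  rw [← sub_mul, norm_mul, norm_sub_rev ((Ψ : (Fin N → T3) → ℂ) (update q.1 l z)),
    ← Complex.ofReal_sub, Complex.norm_real, Real.norm_eq_abs, ← mul_assoc]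
  refine mul_le_mul_of_nonneg_right ?_ (norm_nonneg _)
  have h4 := hC (t / 2) ht2 (q.1 l - z) (q.2 - z)
  rw [show q.1 l - z - (q.2 - z) = q.1 l - q.2 by abel, show 4 * (t / 2) = 2 * t by ring] at h4
  refine h4.trans (le_of_eq ?_)
  have h5 : Real.sqrt t = Real.sqrt 2 * Real.sqrt (t / 2) := by
    rw [← Real.sqrt_mul (by norm_num : (0 : ℝ) ≤ 2)]
    congr 1
    ring
  have h6 : Real.sqrt 2 ≠ 0 := by positivity
  have h7 : Real.sqrt (t / 2) ≠ 0 := (Real.sqrt_pos.2 ht2).ne'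
  rw [h5]
  field_simp

end Pool.Agent.Lib.MP_4952d6_mp.O

end

/-! ### O.XG2 -/

section

/-!
# O.XG2: smo_pair with the difference functional (contact term, step 2)

Copy `smo_pair` (LB/SmoB.lean, end of the file) with `smo_twoO` instead of `smo_two` and
`G q = ∫ (hk(2t)(q_1 l - z) + hk(2t)(q_2 - z)) ‖Ψ q_1 - Ψ (update q_1 l z)‖² dz` (`q = (q_1, q_2) = (x, y)`). Only the term
`∫ h(x_j-x_l) κ(x_j-y) G(x,y) dy dx` is different (`κ v = R hk s v + C₁ √s hk(2s) v`, `∫ κ = R + C₁√s`):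
 first kernel: `= (∫ κ) dfm (2t) l (h(x_j-x_l)) Ψ ≤ (R + C₁√s) (√4)³ dfm (8t) l (h(x_j-x_l)) Ψ` (`dfm_mono_r` of EX0);
 second kernel: `∫ κ(x_j-y) hk(2t)(y-z) dy = cn κ (hk(2t)) (x_j-z) ≤ (R + C₁√s)·3·hk(4t)(x_j-z)` (as `hcnκ` in `smo_pair`), and where
 `h(x_j-x_l) ≠ 0`: `rr(x_j-x_l) ≤ R`, `R² ≤ t/2 ≤ 4t`, `hk_shift` (`s = 4t`): `hk(4t)((x_l-z)+(x_j-x_l)) ≤ C hk(8t)(x_l-z)`;
 so this part is at most `C (R+√s) dfm (8t) l (h(x_j-x_l)) Ψ`.
Integrability: `dfm_integrable` (EX0), all kernels are `BM`; for the triple `(x,y,z)` the integrand is `BM` times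
`‖Ψ x - Ψ(x^{l→z})‖² ≤ 2‖Ψ x‖² + 2‖Ψ(x^{l→z})‖²`, integrable by `SmoB_int3`.
-/

set_option autoImplicit false
set_option linter.unusedSectionVars false
set_option linter.unusedVariables false
open MeasureTheory Function Filter Topology Set ComplexConjugate

namespace Pool.Agent.Lib.MP_4952d6_mp.O

open LB

/-- the difference of `Ψ x` and `Ψ (x^{l→z})` as a function of the triple `((x, y), z)` -/
lemma XG2_aesm3 {N : ℕ} (l : Fin N) (Ψ : HS (Fin N)) :
    AEStronglyMeasurable (fun p : ((Fin N → T3) × T3) × T3 => Ψ p.1.1 - Ψ (update p.1.1 l p.2))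
      (((piN (Fin N)).prod lam3).prod lam3) := by
  have h1 := (Lp.aestronglyMeasurable Ψ).comp_measurePreserving (SmoB_up3 l)
  have h2 : AEStronglyMeasurable (fun p : ((Fin N → T3) × T3) × T3 => Ψ p.1.1)
      (((piN (Fin N)).prod lam3).prod lam3) :=
    (Lp.aestronglyMeasurable Ψ).comp_measurePreserving
      (measurePreserving_fst.comp measurePreserving_fst)
  exact h2.sub h1

lemma XG2_sq (a b : ℂ) : ‖a - b‖ ^ 2 ≤ 2 * ‖a‖ ^ 2 + 2 * ‖b‖ ^ 2 := by
  have h1 := norm_sub_le a b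
  have h2 : ‖a - b‖ ^ 2 ≤ (‖a‖ + ‖b‖) ^ 2 := pow_le_pow_left₀ (norm_nonneg _) h1 2
  linarith only [h2, sq_nonneg (‖a‖ - ‖b‖)]

lemma XG2_int3 {N : ℕ} (l : Fin N) (Ψ : HS (Fin N)) :
    Integrable (fun p : ((Fin N → T3) × T3) × T3 => ‖Ψ p.1.1 - Ψ (update p.1.1 l p.2)‖ ^ 2)
      (((piN (Fin N)).prod lam3).prod lam3) := by
  have g := integrable_norm_sq Ψ
  have h1 : Integrable (fun p : ((Fin N → T3) × T3) × T3 => ‖Ψ (update p.1.1 l p.2)‖ ^ 2)
      (((piN (Fin N)).prod lam3).prod lam3) := (SmoB_up3 l).integrable_comp_of_integrable g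
  have h2 : Integrable (fun p : ((Fin N → T3) × T3) × T3 => ‖Ψ p.1.1‖ ^ 2)
      (((piN (Fin N)).prod lam3).prod lam3) :=
    (measurePreserving_fst.comp measurePreserving_fst).integrable_comp_of_integrable g
  refine ((h2.const_mul 2).add (h1.const_mul 2)).mono' ((XG2_aesm3 l Ψ).norm.pow 2)
    (Eventually.of_forall fun p => ?_)
  rw [Real.norm_eq_abs, abs_of_nonneg (sq_nonneg _)]
  exact XG2_sq _ _

lemma XG2_int2 {N : ℕ} (l : Fin N) (Ψ : HS (Fin N)) :
    Integrable (fun q : (Fin N → T3) × T3 => ‖Ψ q.1 - Ψ (update q.1 l q.2)‖ ^ 2)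
      ((piN (Fin N)).prod lam3) := by
  have g := integrable_norm_sq Ψ
  have h1 : Integrable (fun p : (Fin N → T3) × T3 => ‖Ψ (update p.1 l p.2)‖ ^ 2)
      ((piN (Fin N)).prod lam3) := (LB.mp_upd (ι := Fin N) l).integrable_comp_of_integrable g
  have h2 : Integrable (fun p : (Fin N → T3) × T3 => ‖Ψ p.1‖ ^ 2)
      ((piN (Fin N)).prod lam3) := measurePreserving_fst.integrable_comp_of_integrable g
  have h3 := (Lp.aestronglyMeasurable Ψ).comp_measurePreserving (LB.mp_upd (ι := Fin N) l)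
  have h4 : AEStronglyMeasurable (fun p : (Fin N → T3) × T3 => Ψ p.1)
      ((piN (Fin N)).prod lam3) :=
    (Lp.aestronglyMeasurable Ψ).comp_measurePreserving measurePreserving_fst
  refine ((h2.const_mul 2).add (h1.const_mul 2)).mono' ((h4.sub h3).norm.pow 2)
    (Eventually.of_forall fun p => ?_)
  rw [Real.norm_eq_abs, abs_of_nonneg (sq_nonneg _)]
  exact XG2_sq _ _

lemma XG2_c {N : ℕ} {h κ k : T3 → ℝ} (hh : BM h) (hκ : BM κ) (hk : BM k) {j : Fin N} (l : Fin N)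
    (Ψ : HS (Fin N)) :
    ∫ p, (h (p.1.1 j - p.1.1 l) * κ (p.1.1 j - p.1.2)
        * (k (p.1.1 l - p.2) + k (p.1.2 - p.2))) * ‖Ψ p.1.1 - Ψ (update p.1.1 l p.2)‖ ^ 2
        ∂(((piN (Fin N)).prod lam3).prod lam3)
      = ∫ q, (h (q.1 j - q.1 l) * ((∫ y, κ y ∂lam3) * k (q.1 l - q.2) + cn κ k (q.1 j - q.2)))
          * ‖Ψ q.1 - Ψ (update q.1 l q.2)‖ ^ 2 ∂((piN (Fin N)).prod lam3) := by
  have mj : Measurable (fun p : ((Fin N → T3) × T3) × T3 => p.1.1 j) :=
    (measurable_pi_apply j).comp (measurable_fst.comp measurable_fst)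
  have ml : Measurable (fun p : ((Fin N → T3) × T3) × T3 => p.1.1 l) :=
    (measurable_pi_apply l).comp (measurable_fst.comp measurable_fst)
  have my : Measurable (fun p : ((Fin N → T3) × T3) × T3 => p.1.2) :=
    measurable_snd.comp measurable_fst
  have hB : BM (fun p : ((Fin N → T3) × T3) × T3 => h (p.1.1 j - p.1.1 l) * κ (p.1.1 j - p.2)
        * (k (p.1.1 l - p.1.2) + k (p.2 - p.1.2))) :=
    ((hh.comp (measurable_sub' mj ml)).mul (hκ.comp (measurable_sub' mj measurable_snd))).mul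
      ((hk.comp (measurable_sub' ml my)).add (hk.comp (measurable_sub' measurable_snd my)))
  have hg3 : Integrable (fun p : ((Fin N → T3) × T3) × T3 => ‖Ψ p.1.1 - Ψ (update p.1.1 l p.1.2)‖ ^ 2)
      (((piN (Fin N)).prod lam3).prod lam3) :=
    measurePreserving_fst.integrable_comp_of_integrable (XG2_int2 l Ψ)
  have hF := SmoB_bm hB hg3
  have e1 : ∫ p, (h (p.1.1 j - p.1.1 l) * κ (p.1.1 j - p.1.2)
        * (k (p.1.1 l - p.2) + k (p.1.2 - p.2))) * ‖Ψ p.1.1 - Ψ (update p.1.1 l p.2)‖ ^ 2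
        ∂(((piN (Fin N)).prod lam3).prod lam3)
      = ∫ p, (h (p.1.1 j - p.1.1 l) * κ (p.1.1 j - p.2)
        * (k (p.1.1 l - p.1.2) + k (p.2 - p.1.2))) * ‖Ψ p.1.1 - Ψ (update p.1.1 l p.1.2)‖ ^ 2
        ∂(((piN (Fin N)).prod lam3).prod lam3) := by
    rw [← mp_integral (SmoB_sh3 N) hF.aestronglyMeasurable]
  rw [e1, integral_prod _ hF]
  refine integral_congr_ae (Eventually.of_forall fun q => ?_)
  simp only
  have i2 : ∀ a b : T3, ∫ y, κ (a - y) * k (y - b) ∂lam3 = cn κ k (a - b) := by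
    intro a b
    unfold cn
    rw [← int_sub_right (fun y => κ (a - b - y) * k y) b]
    refine integral_congr_ae (Eventually.of_forall fun z => ?_)
    simp only
    rw [show a - b - (z - b) = a - z by abel]
  have b1 : BM (fun y => κ (q.1 j - y)) := hκ.comp (measurable_sub' measurable_const measurable_id)
  have b2 : BM (fun y => κ (q.1 j - y) * k (y - q.2)) :=
    b1.mul (hk.comp (measurable_sub' measurable_id measurable_const))
  rw [← i2, ← int_sub_left κ (q.1 j), ← integral_mul_const (k (q.1 l - q.2)),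
    ← integral_add ((b1.mul (BM.const _)).integrable _) (b2.integrable _),
    ← integral_const_mul, ← integral_mul_const]
  refine integral_congr_ae (Eventually.of_forall fun y => ?_)
  simp only
  ring

/-- the final comparison, a statement about real numbers -/
lemma XG2_fin {C1 C2 C3 R st ss c H D qh qs q2s T : ℝ} (hC1 : 0 ≤ C1) (hC2 : 0 ≤ C2)
    (hC3 : 0 ≤ C3) (hR : 0 ≤ R) (hst : 0 < st) (hss : 0 ≤ ss) (hc : 0 < c) (hH : 0 ≤ H)
    (h4 : 0 ≤ D) (hh : 0 ≤ qh) (hs : 0 ≤ qs) (h2s : 0 ≤ q2s)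
    (hT : T ≤ (R + C1 * ss) * (8 + 3 * C3) * D) :
    C2 / st * (c * T + 1 / c * ((R + C1 * ss) * qh + H * (R * qs + C1 * ss * q2s)))
      ≤ C2 * ((1 + C1) * (3 * C3 + 8)) * ((R + ss) / st)
        * (c * D + 1 / c * (qh + H * qs + H * q2s)) := by
  have hCR : 0 ≤ C1 * R := mul_nonneg hC1 hR
  have hCs : 0 ≤ C1 * ss := mul_nonneg hC1 hss
  have hA : 0 ≤ R + C1 * ss := add_nonneg hR hCs
  have hAle : R + C1 * ss ≤ (1 + C1) * (R + ss) := by linarith only [hCR, hss]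
  have hD : 0 ≤ (1 + C1) * (R + ss) := hA.trans hAle
  have p5 : 0 ≤ H * qs := mul_nonneg hH hs
  have p6 : 0 ≤ H * q2s := mul_nonneg hH h2s
  have k1 : T ≤ ((1 + C1) * (R + ss)) * (3 * C3 + 8) * D := by
    have e0 : (R + C1 * ss) * (8 + 3 * C3) * D = (R + C1 * ss) * ((8 + 3 * C3) * D) := by ring
    have e1 : (R + C1 * ss) * ((8 + 3 * C3) * D) ≤
        ((1 + C1) * (R + ss)) * ((8 + 3 * C3) * D) :=
      mul_le_mul_of_nonneg_right hAle (mul_nonneg (by positivity) h4)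
    linarith only [hT, e0, e1]
  have k2 : (R + C1 * ss) * qh + H * (R * qs + C1 * ss * q2s)
      ≤ ((1 + C1) * (R + ss)) * (3 * C3 + 8) * (qh + H * qs + H * q2s) := by
    have e1 : R ≤ (1 + C1) * (R + ss) := by linarith only [hCR, hCs, hss]
    have e2 : C1 * ss ≤ (1 + C1) * (R + ss) := by linarith only [hCR, hR, hss]
    have f1 := mul_le_mul_of_nonneg_right hAle hh
    have f2 := mul_le_mul_of_nonneg_right e1 p5
    have f3 := mul_le_mul_of_nonneg_right e2 p6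
    have f4 : 0 ≤ ((1 + C1) * (R + ss)) * ((3 * C3 + 7) * (qh + H * qs + H * q2s)) :=
      mul_nonneg hD (mul_nonneg (by positivity) (add_nonneg (add_nonneg hh p5) p6))
    linarith only [f1, f2, f3, f4]
  have e3 : c * T ≤ c * (((1 + C1) * (R + ss)) * (3 * C3 + 8) * D) :=
    mul_le_mul_of_nonneg_left k1 hc.le
  have e4 := mul_le_mul_of_nonneg_left k2 (one_div_nonneg.2 hc.le)
  have e5 := mul_le_mul_of_nonneg_left (add_le_add e3 e4) (div_nonneg hC2 hst.le)
  refine e5.trans (le_of_eq ?_)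
  ring

theorem smo_pairO : ∃ C : ℝ, 0 ≤ C ∧ ∀ (N : ℕ) (s t H R c : ℝ) (h : T3 → ℝ) (j l : Fin N), 0 < s →
    s ≤ t → t ≤ 1 → SR H R h → 0 ≤ R → R ^ 2 ≤ t / 2 → 0 < c → j ≠ l → ∀ Ψ : HS (Fin N),
    |qf (fun x => h (x j - x l)) (PP1 t l Ψ) - H * qf (fun x => hk s (x j - x l)) (PP1 t l Ψ)|
      ≤ C * ((R + Real.sqrt s) / Real.sqrt t)
        * (c * dfm (8 * t) l (fun x => h (x j - x l)) (Ψ : (Fin N → T3) → ℂ)
          + 1 / c * (qf (fun x => h (x j - x l)) (PP1 t l Ψ)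
            + H * qf (fun x => hk s (x j - x l)) (PP1 t l Ψ)
            + H * qf (fun x => hk (2 * s) (x j - x l)) (PP1 t l Ψ))) := by
  obtain ⟨C1, hC1, hrr⟩ := rr_mul_hk
  obtain ⟨C2, hC2, htwo⟩ := smo_twoO
  obtain ⟨C3, hC3, hcn⟩ := hk_shift
  refine ⟨C2 * ((1 + C1) * (3 * C3 + 8)), by positivity, ?_⟩
  intro N s t H R c h j l hs hst ht1 hh hR hR2 hc hjl Ψ
  have ht : 0 < t := lt_of_lt_of_le hs hst
  have h2t : 0 < 2 * t := by linarith only [ht]
  have hst0 : 0 < Real.sqrt t := Real.sqrt_pos.mpr ht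
  have hss0 : 0 ≤ Real.sqrt s := Real.sqrt_nonneg s
  have hH : 0 ≤ H := by
    rw [← hh.int]
    exact integral_nonneg hh.nonneg
  set f : HS (Fin N) := PP1 t l Ψ with hf
  have bs := hk_bm hs
  have b2s : BM (hk (2 * s)) := hk_bm (by linarith only [hs])
  have b2t : BM (hk (2 * t)) := hk_bm h2t
  -- the majorant of `hk s v (R + rr v)`
  set κ : T3 → ℝ := fun v => R * hk s v + C1 * Real.sqrt s * hk (2 * s) v with hκdef
  have bκ : BM κ := (bs.const_mul R).add (b2s.const_mul (C1 * Real.sqrt s))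
  have hκ0 : ∀ v, 0 ≤ κ v := fun v => by
    have := hk_nonneg s v
    have := hk_nonneg (2 * s) v
    positivity
  have hκle : ∀ v, hk s v * (R + rr v) ≤ κ v := by
    intro v
    have h1 := hrr s hs v
    have h2 : hk s v * (R + rr v) = R * hk s v + rr v * hk s v := by ring
    rw [h2]
    simp only [hκdef]
    linarith only [h1]
  have hκint : ∫ y, κ y ∂lam3 = R + C1 * Real.sqrt s := by
    simp only [hκdef]
    rw [integral_add ((bs.const_mul R).integrable _) ((b2s.const_mul (C1 * Real.sqrt s)).integrable _),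
      integral_const_mul, integral_const_mul, hk_integral hs, hk_integral (by linarith only [hs] : 0 < 2 * s)]
    ring
  -- squared modulus functions
  have gf := integrable_norm_sq f
  have gP := integrable_norm_sq Ψ
  -- step (1)
  rw [smo_one hs hh hjl f]
  set G : (Fin N → T3) × T3 → ℝ := fun q => ∫ z, (hk (2 * t) (q.1 l - z) + hk (2 * t) (q.2 - z))
      * ‖(Ψ : (Fin N → T3) → ℂ) q.1 - (Ψ : (Fin N → T3) → ℂ) (update q.1 l z)‖ ^ 2 ∂lam3 with hG
  have mj : Measurable (fun p : ((Fin N → T3) × T3) × T3 => p.1.1 j) :=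
    (measurable_pi_apply j).comp (measurable_fst.comp measurable_fst)
  have ml : Measurable (fun p : ((Fin N → T3) × T3) × T3 => p.1.1 l) :=
    (measurable_pi_apply l).comp (measurable_fst.comp measurable_fst)
  have my : Measurable (fun p : ((Fin N → T3) × T3) × T3 => p.1.2) :=
    measurable_snd.comp measurable_fst
  have bB3 : BM (fun p : ((Fin N → T3) × T3) × T3 => h (p.1.1 j - p.1.1 l) * κ (p.1.1 j - p.1.2)
        * (hk (2 * t) (p.1.1 l - p.2) + hk (2 * t) (p.1.2 - p.2))) :=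
    ((hh.bm.comp (measurable_sub' mj ml)).mul (bκ.comp (measurable_sub' mj my))).mul
      ((b2t.comp (measurable_sub' ml measurable_snd)).add
        (b2t.comp (measurable_sub' my measurable_snd)))
  have hF3 := SmoB_bm bB3 (XG2_int3 l Ψ)
  have bB2 : BM (fun q : (Fin N → T3) × T3 => h (q.1 j - q.1 l) * κ (q.1 j - q.2)) :=
    (hh.bm.comp (measurable_sub' ((measurable_pi_apply j).comp measurable_fst)
      ((measurable_pi_apply l).comp measurable_fst))).mul
      (bκ.comp (measurable_sub' ((measurable_pi_apply j).comp measurable_fst) measurable_snd))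
  have hGint : Integrable (fun q : (Fin N → T3) × T3 =>
      h (q.1 j - q.1 l) * κ (q.1 j - q.2) * G q) ((piN (Fin N)).prod lam3) := by
    refine hF3.integral_prod_left.congr (Eventually.of_forall fun q => ?_)
    simp only [hG]
    rw [← integral_const_mul]
    refine integral_congr_ae (Eventually.of_forall fun z => ?_)
    simp only
    ring
  have hfa := SmoB_int2 bB2 gf
  have hfb := SmoB_int2' l bB2 gf
  -- pointwise bound
  have hpt : ∀ᵐ q ∂((piN (Fin N)).prod lam3),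
      ‖h (q.1 j - q.1 l) * hk s (q.1 j - q.2)
          * (‖f q.1‖ ^ 2 - ‖f (update q.1 l q.2)‖ ^ 2)‖
      ≤ C2 / Real.sqrt t * ((h (q.1 j - q.1 l) * κ (q.1 j - q.2)) * (c * G q
          + 1 / c * (‖f q.1‖ ^ 2 + ‖f (update q.1 l q.2)‖ ^ 2))) := by
    have a1 : ∀ᵐ q ∂((piN (Fin N)).prod lam3),
        AEStronglyMeasurable (fun z => ‖(Ψ : (Fin N → T3) → ℂ) q.1
          - (Ψ : (Fin N → T3) → ℂ) (update q.1 l z)‖) lam3 := by
      have := (XG2_aesm3 l Ψ).norm
      exact this.prodMk_left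
    have a2 : ∀ᵐ q ∂((piN (Fin N)).prod lam3),
        Integrable (fun z => ‖(Ψ : (Fin N → T3) → ℂ) q.1
          - (Ψ : (Fin N → T3) → ℂ) (update q.1 l z)‖ ^ 2) lam3 :=
      (XG2_int3 l Ψ).prod_right_ae
    filter_upwards [htwo N t l Ψ ht, a1, a2] with q q1 q2 q3
    rw [Real.norm_eq_abs]
    have bk : BM (fun z : T3 => hk (2 * t) (q.1 l - z) + hk (2 * t) (q.2 - z)) :=
      (b2t.comp (measurable_sub' measurable_const measurable_id)).add
        (b2t.comp (measurable_sub' measurable_const measurable_id))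
    have hk0 : ∀ z : T3, 0 ≤ hk (2 * t) (q.1 l - z) + hk (2 * t) (q.2 - z) := fun z =>
      add_nonneg (hk_nonneg _ _) (hk_nonneg _ _)
    have hcs := SmoB_cs bk hk0 q2 q3
    have hk2 : ∫ z, (hk (2 * t) (q.1 l - z) + hk (2 * t) (q.2 - z)) ∂lam3 = 2 := by
      have i1 : ∀ a : T3, Integrable (fun z => hk (2 * t) (a - z)) lam3 := fun a =>
        (b2t.comp (measurable_sub' measurable_const measurable_id)).integrable _
      rw [integral_add (i1 _) (i1 _),
        int_sub_left (hk (2 * t)) (q.1 l), int_sub_left (hk (2 * t)) q.2, hk_integral h2t]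
      norm_num
    rw [hk2, one_mul] at hcs
    refine SmoB_real (d := ‖f q.1 - f (update q.1 l q.2)‖) (norm_nonneg _) (norm_nonneg _)
      (abs_norm_sub_norm_le _ _) q1 (integral_nonneg fun z => mul_nonneg (hk0 z) (norm_nonneg _))
      hcs hc hC2 hst0 (hh.nonneg _) (hk_nonneg _ _) (Rv := R + rr (q.1 j - q.2)) ?_
      (add_nonneg hR (rr_nonneg _)) (hκle _)
    by_cases hr : R < rr (q.1 j - q.1 l)
    · exact Or.inl (hh.supp _ hr)
    · right
      push Not at hr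
      have h1 : q.1 l - q.2 = -(q.1 j - q.1 l) + (q.1 j - q.2) := by abel
      rw [h1]
      refine (rr_add_le _ _).trans ?_
      rw [rr_neg]
      linarith only [hr]
  have hint : Integrable (fun q : (Fin N → T3) × T3 =>
      C2 / Real.sqrt t * ((h (q.1 j - q.1 l) * κ (q.1 j - q.2)) * (c * G q
          + 1 / c * (‖f q.1‖ ^ 2 + ‖f (update q.1 l q.2)‖ ^ 2)))) ((piN (Fin N)).prod lam3) := by
    refine Integrable.congr ((((hGint.const_mul c).add ((hfa.add hfb).const_mul (1 / c))).const_mul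
      (C2 / Real.sqrt t))) (Eventually.of_forall fun q => ?_)
    simp only [Pi.add_apply]
    ring
  have hmain := norm_integral_le_of_norm_le hint hpt
  rw [Real.norm_eq_abs] at hmain
  refine hmain.trans ?_
  have hsplit : ∫ q, C2 / Real.sqrt t * ((h (q.1 j - q.1 l) * κ (q.1 j - q.2)) * (c * G q
          + 1 / c * (‖f q.1‖ ^ 2 + ‖f (update q.1 l q.2)‖ ^ 2))) ∂((piN (Fin N)).prod lam3)
      = C2 / Real.sqrt t * (c * (∫ q, h (q.1 j - q.1 l) * κ (q.1 j - q.2) * G q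
            ∂((piN (Fin N)).prod lam3))
          + 1 / c * ((∫ q, (h (q.1 j - q.1 l) * κ (q.1 j - q.2)) * ‖f q.1‖ ^ 2
              ∂((piN (Fin N)).prod lam3))
            + ∫ q, (h (q.1 j - q.1 l) * κ (q.1 j - q.2)) * ‖f (update q.1 l q.2)‖ ^ 2
              ∂((piN (Fin N)).prod lam3))) := by
    have i1 : Integrable (fun q : (Fin N → T3) × T3 =>
        c * (h (q.1 j - q.1 l) * κ (q.1 j - q.2) * G q)) ((piN (Fin N)).prod lam3) :=
      hGint.const_mul c
    have i2 : Integrable (fun q : (Fin N → T3) × T3 =>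
        1 / c * (h (q.1 j - q.1 l) * κ (q.1 j - q.2) * ‖f q.1‖ ^ 2
          + h (q.1 j - q.1 l) * κ (q.1 j - q.2) * ‖f (update q.1 l q.2)‖ ^ 2))
        ((piN (Fin N)).prod lam3) := (hfa.add hfb).const_mul (1 / c)
    rw [← integral_add hfa hfb, ← integral_const_mul c, ← integral_const_mul (1 / c),
      ← integral_add i1 i2, ← integral_const_mul]
    refine integral_congr_ae (Eventually.of_forall fun q => ?_)
    simp only
    ring
  rw [hsplit, SmoB_a hh.bm bκ gf, SmoB_b hh.bm bκ hjl gf]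
  have hT1 : ∫ q, h (q.1 j - q.1 l) * κ (q.1 j - q.2) * G q ∂((piN (Fin N)).prod lam3)
      = ∫ q, (h (q.1 j - q.1 l) * ((∫ y, κ y ∂lam3) * hk (2 * t) (q.1 l - q.2)
          + cn κ (hk (2 * t)) (q.1 j - q.2))) * ‖Ψ q.1 - Ψ (update q.1 l q.2)‖ ^ 2
          ∂((piN (Fin N)).prod lam3) := by
    rw [← XG2_c hh.bm bκ b2t l Ψ, integral_prod _ hF3]
    refine integral_congr_ae (Eventually.of_forall fun q => ?_)
    simp only [hG]
    rw [← integral_const_mul]
    refine integral_congr_ae (Eventually.of_forall fun z => ?_)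
    simp only
    ring
  rw [hT1, hκint, hh.int]
  have hA : 0 ≤ R + C1 * Real.sqrt s := by positivity
  have hAle : R + C1 * Real.sqrt s ≤ (1 + C1) * (R + Real.sqrt s) := by linarith only [mul_nonneg hC1 hR, hss0]
  -- the weight of `P`
  have hsq3 : ∀ r : ℝ, 0 < r → 2 * t ≤ r → r ≤ 4 * t → ∀ x, hk r x ≤ 3 * hk (4 * t) x := by
    intro r hr hr1 hr2 x
    have h1 := hk_le_hk hr hr2 x
    have h2 : Real.sqrt (4 * t / r) ^ 3 ≤ 3 := by
      have h3 : 4 * t / r ≤ 2 := by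
        rw [div_le_iff₀ hr]
        linarith only [hr1]
      have h4 : Real.sqrt (4 * t / r) ≤ Real.sqrt 2 := Real.sqrt_le_sqrt h3
      have h5 : Real.sqrt 2 ^ 3 ≤ 3 := by
        have h6 : Real.sqrt 2 ^ 2 = 2 := Real.sq_sqrt (by norm_num)
        have h7 : Real.sqrt 2 ≤ 3 / 2 := by
          rw [Real.sqrt_le_left (by norm_num)]
          norm_num
        nlinarith only [h6, h7]
      exact (pow_le_pow_left₀ (Real.sqrt_nonneg _) h4 3).trans h5
    exact h1.trans (mul_le_mul_of_nonneg_right h2 (hk_nonneg _ _))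
  have hcnκ : ∀ z, cn κ (hk (2 * t)) z ≤ (R + C1 * Real.sqrt s) * 3 * hk (4 * t) z := by
    intro z
    have e : cn κ (hk (2 * t)) z = R * hk (s + 2 * t) z + C1 * Real.sqrt s * hk (2 * s + 2 * t) z := by
      rw [← hk_conv hs h2t z, ← hk_conv (by linarith only [hs] : 0 < 2 * s) h2t z]
      unfold cn
      have i1 : BM (fun y => hk s (z - y) * hk (2 * t) y) :=
        (bs.comp (measurable_sub' measurable_const measurable_id)).mul b2t
      have i2 : BM (fun y => hk (2 * s) (z - y) * hk (2 * t) y) :=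
        (b2s.comp (measurable_sub' measurable_const measurable_id)).mul b2t
      rw [← integral_const_mul, ← integral_const_mul,
        ← integral_add ((i1.const_mul _).integrable _) ((i2.const_mul _).integrable _)]
      refine integral_congr_ae (Eventually.of_forall fun y => ?_)
      simp only [hκdef]
      ring
    rw [e]
    have h1 := hsq3 (s + 2 * t) (by linarith only [hs, ht]) (by linarith only [hs]) (by linarith only [hst, ht]) z
    have h2 := hsq3 (2 * s + 2 * t) (by linarith only [hs, ht]) (by linarith only [hs]) (by linarith only [hst, ht]) z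
    have h3 := mul_le_mul_of_nonneg_left h1 hR
    have h4 := mul_le_mul_of_nonneg_left h2 (mul_nonneg hC1 hss0)
    linarith only [h3, h4]
  have bcn2 : BM (cn κ (hk (2 * t))) := cn_bm bκ b2t
  have b8t : BM (hk (8 * t)) := hk_bm (by linarith only [ht])
  have hT1le : ∫ q, (h (q.1 j - q.1 l) * ((R + C1 * Real.sqrt s) * hk (2 * t) (q.1 l - q.2)
          + cn κ (hk (2 * t)) (q.1 j - q.2))) * ‖Ψ q.1 - Ψ (update q.1 l q.2)‖ ^ 2
          ∂((piN (Fin N)).prod lam3)
      ≤ (R + C1 * Real.sqrt s) * (8 + 3 * C3)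
          * dfm (8 * t) l (fun x => h (x j - x l)) (Ψ : (Fin N → T3) → ℂ) := by
    unfold dfm
    rw [← integral_const_mul]
    have nj : Measurable (fun q : (Fin N → T3) × T3 => q.1 j) :=
      (measurable_pi_apply j).comp measurable_fst
    have nl : Measurable (fun q : (Fin N → T3) × T3 => q.1 l) :=
      (measurable_pi_apply l).comp measurable_fst
    have hbl : BM (fun q : (Fin N → T3) × T3 =>
        h (q.1 j - q.1 l) * ((R + C1 * Real.sqrt s) * hk (2 * t) (q.1 l - q.2)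
          + cn κ (hk (2 * t)) (q.1 j - q.2))) :=
      (hh.bm.comp (measurable_sub' nj nl)).mul
        (((b2t.comp (measurable_sub' nl measurable_snd)).const_mul _).add
          (bcn2.comp (measurable_sub' nj measurable_snd)))
    have bh : BM (fun x : Fin N → T3 => h (x j - x l)) := bm_diff hh.bm j l
    refine integral_mono (SmoB_bm hbl (XG2_int2 l Ψ))
      ((dfm_integrable (by linarith only [ht]) l bh Ψ).const_mul _) (fun q => ?_)
    simp only
    have hD : 0 ≤ ‖Ψ q.1 - Ψ (update q.1 l q.2)‖ ^ 2 := sq_nonneg _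
    have hh0 : 0 ≤ h (q.1 j - q.1 l) := hh.nonneg _
    by_cases hr : R < rr (q.1 j - q.1 l)
    · rw [hh.supp _ hr]
      simp
    · push Not at hr
      have h1 : hk (2 * t) (q.1 l - q.2) ≤ 8 * hk (8 * t) (q.1 l - q.2) := by
        have h3 := hk_le_hk h2t (by linarith only [ht] : 2 * t ≤ 8 * t) (q.1 l - q.2)
        have h4 : Real.sqrt (8 * t / (2 * t)) ^ 3 = 8 := by
          rw [show 8 * t / (2 * t) = 2 ^ 2 by field_simp; norm_num, Real.sqrt_sq (by norm_num)]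
          norm_num
        rwa [h4] at h3
      have h2 : cn κ (hk (2 * t)) (q.1 j - q.2)
          ≤ (R + C1 * Real.sqrt s) * 3 * (C3 * hk (8 * t) (q.1 l - q.2)) := by
        refine (hcnκ _).trans (mul_le_mul_of_nonneg_left ?_ (by positivity))
        have h5 := hcn (4 * t) (by linarith only [ht]) (q.1 l - q.2) (q.1 j - q.1 l) (by
          have : rr (q.1 j - q.1 l) ^ 2 ≤ R ^ 2 := pow_le_pow_left₀ (rr_nonneg _) hr 2
          linarith only [this, hR2, ht])
        rw [show q.1 l - q.2 + (q.1 j - q.1 l) = q.1 j - q.2 by abel,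
          show 2 * (4 * t) = 8 * t by ring] at h5
        exact h5
      have h3 := mul_le_mul_of_nonneg_left h1 hA
      have h6 : (R + C1 * Real.sqrt s) * hk (2 * t) (q.1 l - q.2) + cn κ (hk (2 * t)) (q.1 j - q.2)
          ≤ (R + C1 * Real.sqrt s) * (8 + 3 * C3) * hk (8 * t) (q.1 l - q.2) := by
        linarith only [h2, h3]
      have h7 := mul_le_mul_of_nonneg_right (mul_le_mul_of_nonneg_left h6 hh0) hD
      refine h7.trans (le_of_eq ?_)
      ring
  have hκf : ∫ x, κ (x j - x l) * ‖f x‖ ^ 2 ∂(piN (Fin N))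
      = R * qf (fun x => hk s (x j - x l)) f
        + C1 * Real.sqrt s * qf (fun x => hk (2 * s) (x j - x l)) f := by
    rw [← qf_smul, ← qf_smul, ← qf_add_fun ((bm_diff bs j l).const_mul _)
      ((bm_diff b2s j l).const_mul _)]
    rfl
  rw [hκf]
  have q4 : 0 ≤ dfm (8 * t) l (fun x => h (x j - x l)) (Ψ : (Fin N → T3) → ℂ) :=
    dfm_nonneg _ _ (fun x => hh.nonneg _) _
  have qh : 0 ≤ qf (fun x => h (x j - x l)) f := qf_nonneg (fun x => hh.nonneg _) f
  have qs : 0 ≤ qf (fun x => hk s (x j - x l)) f := qf_nonneg (fun x => hk_nonneg _ _) f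
  have q2s : 0 ≤ qf (fun x => hk (2 * s) (x j - x l)) f := qf_nonneg (fun x => hk_nonneg _ _) f
  change C2 / Real.sqrt t * (c * _ + 1 / c * ((R + C1 * Real.sqrt s)
    * qf (fun x => h (x j - x l)) f + H * _)) ≤ _
  exact XG2_fin hC1 hC2 hC3 hR hst0 hss0 hc hH q4 qh qs q2s hT1le

end Pool.Agent.Lib.MP_4952d6_mp.O

end

/-! ### O.XG3 -/

section

/-!
# O.XG3: contact term, sum over the pairs

`Phi τ j l ψ = PP1 τ l (PP1 τ j ψ)` (`S1_comm`). `smo_pairO` with `Ψ = PP1 τ j ψ`.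
`dfm (8τ) l (h(x_j-x_l)) (PP1 τ j ψ) ≤ dfm (8τ) l (cvj (hk(τ/2)) j (h(x_j-x_l))) ψ` (`dfm_PP1`, `a = l ≠ j = b`)
`= dfm (8τ) l (cn (hk(τ/2)) h (x_j-x_l)) ψ ≤ C₁ H dfm (8τ) l (hk τ (x_l-x_j)) ψ`. The terms with `1/c` as in `smo_psi`.
-/

set_option autoImplicit false
set_option linter.unusedSectionVars false
set_option linter.unusedVariables false
open MeasureTheory Function Filter Topology Set ComplexConjugate

namespace Pool.Agent.Lib.MP_4952d6_mp.O

open LB

/-- one pair -/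
theorem XG3_pair : ∃ C : ℝ, 0 ≤ C ∧ ∀ (N : ℕ) (s τ H R c : ℝ) (h : T3 → ℝ) (j l : Fin N), 0 < s →
    s ≤ τ → τ ≤ 1 → SR H R h → 0 ≤ R → R ^ 2 ≤ τ / 8 → 0 < c → j ≠ l → ∀ ψ : HS (Fin N),
    |qf (fun x => h (x j - x l)) (Phi τ j l ψ) - H * qf (fun x => hk s (x j - x l)) (Phi τ j l ψ)|
      ≤ C * H * ((R + Real.sqrt s) / Real.sqrt τ)
        * (c * dfm (8 * τ) l (fun x => hk τ (x l - x j)) (ψ : (Fin N → T3) → ℂ)
          + 1 / c * qf (fun x => hk (8 * τ) (x l - x j)) ψ) := by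
  obtain ⟨C1, hC1, h1⟩ := smo_pairO
  obtain ⟨C2, hC2, h2⟩ := q_h_Phi
  obtain ⟨C3, hC3, h3⟩ := cn_hk_le
  have hK0 : (0 : ℝ) ≤ Real.sqrt 8 ^ 3 := by positivity
  refine ⟨C1 * (C3 + Real.sqrt 8 ^ 3 * (C2 + 2)), by positivity, ?_⟩
  intro N s τ H R c h j l hs hst hτ1 hh hR hRt hc hjl ψ
  have hτ : 0 < τ := lt_of_lt_of_le hs hst
  have hτ2 : 0 < τ / 2 := by linarith
  have hH : 0 ≤ H := WtB_H hh
  have hΦ : PP1 τ l (PP1 τ j ψ) = Phi τ j l ψ := (Phi_comm hτ.le j l ψ).symm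
  have h4 := h1 N s τ H R c h j l hs hst hτ1 hh hR (by linarith) hc hjl (PP1 τ j ψ)
  rw [hΦ] at h4
  refine h4.trans ?_
  set ρ := (R + Real.sqrt s) / Real.sqrt τ with hρ
  have hρ0 : 0 ≤ ρ := by positivity
  set K := Real.sqrt 8 ^ 3 with hK
  set d := dfm (8 * τ) l (fun x => hk τ (x l - x j)) (ψ : (Fin N → T3) → ℂ) with hd
  set q2 := qf (fun x => hk (8 * τ) (x l - x j)) ψ with hq2
  have hd0 : 0 ≤ d := dfm_nonneg _ _ (fun x => hk_nonneg _ _) _
  have hq20 : 0 ≤ q2 := qf_nonneg (fun x => hk_nonneg _ _) _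
  have bG : BM (fun x : Fin N → T3 => h (x j - x l)) := bm_diff hh.bm j l
  have e1 : dfm (8 * τ) l (fun x => h (x j - x l)) ((PP1 τ j ψ : HS (Fin N)) : (Fin N → T3) → ℂ)
      ≤ C3 * H * d := by
    refine (dfm_PP1 (by linarith) hτ hjl.symm bG (fun x => hh.nonneg _) ψ).trans ?_
    refine dfm_le_smul (by linarith) l (cvj_bm (hk_bm hτ2) j bG)
      (bm_diff (hk_bm hτ) l j) (fun x => ?_) ψ
    rw [cvj_diff_left hjl x]
    have h5 := h3 (τ / 2) H R h hτ2 hh (by linarith) hR (x j - x l)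
    rw [show 2 * (τ / 2) = τ by ring] at h5
    rw [← neg_sub (x j) (x l), hk_neg]
    exact h5
  have e2 : qf (fun x => h (x j - x l)) (Phi τ j l ψ) ≤ C2 * H * (K * q2) := by
    refine (h2 N τ H R h j l hτ hτ1 hh hR (by linarith) hjl ψ).trans ?_
    refine mul_le_mul_of_nonneg_left ?_ (by positivity)
    exact SmoC_time hτ (by linarith) (by linarith) j l _
  have e3 : qf (fun x => hk s (x j - x l)) (Phi τ j l ψ) ≤ K * q2 := by
    refine (SmoC_phi hs hτ hjl ψ).trans ?_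
    exact SmoC_time hτ (by linarith) (by linarith) j l _
  have e4 : qf (fun x => hk (2 * s) (x j - x l)) (Phi τ j l ψ) ≤ K * q2 := by
    refine (SmoC_phi (by linarith) hτ hjl ψ).trans ?_
    exact SmoC_time hτ (by linarith) (by linarith) j l _
  have hc1 : 0 ≤ 1 / c := by positivity
  have a1 : c * dfm (8 * τ) l (fun x => h (x j - x l)) ((PP1 τ j ψ : HS (Fin N)) : (Fin N → T3) → ℂ)
      ≤ c * (C3 * H * d) := mul_le_mul_of_nonneg_left e1 hc.le
  have a2 : qf (fun x => h (x j - x l)) (Phi τ j l ψ)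
          + H * qf (fun x => hk s (x j - x l)) (Phi τ j l ψ)
          + H * qf (fun x => hk (2 * s) (x j - x l)) (Phi τ j l ψ)
      ≤ C2 * H * (K * q2) + H * (K * q2) + H * (K * q2) :=
    add_le_add (add_le_add e2 (mul_le_mul_of_nonneg_left e3 hH))
      (mul_le_mul_of_nonneg_left e4 hH)
  have a3 := mul_le_mul_of_nonneg_left a2 hc1
  have a4 : 0 ≤ K * (C2 + 2) * (H * (c * d)) := by positivity
  have a5 : 0 ≤ C3 * (H * (1 / c * q2)) := by positivity
  have e5 : c * dfm (8 * τ) l (fun x => h (x j - x l)) ((PP1 τ j ψ : HS (Fin N)) : (Fin N → T3) → ℂ)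
          + 1 / c * (qf (fun x => h (x j - x l)) (Phi τ j l ψ)
            + H * qf (fun x => hk s (x j - x l)) (Phi τ j l ψ)
            + H * qf (fun x => hk (2 * s) (x j - x l)) (Phi τ j l ψ))
      ≤ (C3 + K * (C2 + 2)) * (H * (c * d + 1 / c * q2)) := by
    calc _ ≤ c * (C3 * H * d) + 1 / c * (C2 * H * (K * q2) + H * (K * q2) + H * (K * q2)) :=
          add_le_add a1 a3
      _ ≤ c * (C3 * H * d) + 1 / c * (C2 * H * (K * q2) + H * (K * q2) + H * (K * q2))
          + (K * (C2 + 2) * (H * (c * d)) + C3 * (H * (1 / c * q2))) := by linarith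
      _ = _ := by ring
  calc _ ≤ C1 * ρ * ((C3 + K * (C2 + 2)) * (H * (c * d + 1 / c * q2))) :=
        mul_le_mul_of_nonneg_left e5 (by positivity)
    _ = _ := by ring

lemma XG3_swap {N : ℕ} (F : Fin N → Fin N → ℝ) :
    ∑ j, ∑ l ∈ Finset.univ.erase j, F j l = ∑ l, ∑ j ∈ Finset.univ.erase l, F j l := by
  have h1 : ∀ (j : Fin N) (g : Fin N → ℝ), ∑ l ∈ Finset.univ.erase j, g l = ∑ l, if l ≠ j then g l else 0 :=
    fun j g => Sums_erase j g
  simp only [h1]
  rw [Finset.sum_comm]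
  refine Finset.sum_congr rfl fun l _ => Finset.sum_congr rfl fun j _ => ?_
  by_cases h : l = j
  · subst h; simp
  · rw [if_pos h, if_pos (Ne.symm h)]

theorem contact_sum : ∃ C : ℝ, 0 ≤ C ∧ ∀ (N : ℕ) (s t T τ H R c MD M0 : ℝ) (h : T3 → ℝ), 0 < N →
    0 < t → 4 * t ≤ T → 64 * T ≤ 1 → t ≤ τ → τ ≤ T → 0 < s → s ≤ t → SR H R h → 0 ≤ R →
    R ^ 2 ≤ t / 8 → 0 < c → ∀ ψ : HS (Fin N), DBd t T MD ψ → MBd t T M0 ψ →
    |(∑ j, ∑ l ∈ Finset.univ.erase j, qf (fun x => h (x j - x l)) (Phi τ j l ψ))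
        - H * (∑ j, ∑ l ∈ Finset.univ.erase j, qf (fun x => hk s (x j - x l)) (Phi τ j l ψ))|
      ≤ C * H * ((R + Real.sqrt s) / Real.sqrt τ) * (c / N * MD + 1 / c * M0) := by
  obtain ⟨C, hC, hp⟩ := XG3_pair
  refine ⟨C, hC, ?_⟩
  intro N s t T τ H R c MD M0 h hN ht htT hT hτ1 hτ2 hs hst hh hR hR2 hc ψ hD hM
  have hτ : 0 < τ := by linarith
  have hH : 0 ≤ H := WtB_H hh
  have hN0 : (0 : ℝ) < N := by exact_mod_cast hN
  set ρ := (R + Real.sqrt s) / Real.sqrt τ with hρ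
  have hρ0 : 0 ≤ ρ := by positivity
  have e1 : (∑ j, ∑ l ∈ Finset.univ.erase j, qf (fun x => h (x j - x l)) (Phi τ j l ψ))
        - H * (∑ j, ∑ l ∈ Finset.univ.erase j, qf (fun x => hk s (x j - x l)) (Phi τ j l ψ))
      = ∑ j, ∑ l ∈ Finset.univ.erase j, (qf (fun x => h (x j - x l)) (Phi τ j l ψ)
          - H * qf (fun x => hk s (x j - x l)) (Phi τ j l ψ)) := by
    simp only [Finset.mul_sum, Finset.sum_sub_distrib]
  rw [e1]
  have e2 : |∑ j, ∑ l ∈ Finset.univ.erase j, (qf (fun x => h (x j - x l)) (Phi τ j l ψ)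
          - H * qf (fun x => hk s (x j - x l)) (Phi τ j l ψ))|
      ≤ ∑ j, ∑ l ∈ Finset.univ.erase j, C * H * ρ
        * (c * dfm (8 * τ) l (fun x => hk τ (x l - x j)) (ψ : (Fin N → T3) → ℂ)
          + 1 / c * qf (fun x => hk (8 * τ) (x l - x j)) ψ) := by
    refine (Finset.abs_sum_le_sum_abs _ _).trans (Finset.sum_le_sum fun j _ => ?_)
    refine (Finset.abs_sum_le_sum_abs _ _).trans (Finset.sum_le_sum fun l hl => ?_)
    exact hp N s τ H R c h j l hs (by linarith) (by linarith) hh hR (by linarith) hc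
      (Finset.ne_of_mem_erase hl).symm ψ
  refine e2.trans ?_
  rw [XG3_swap]
  simp only [← Finset.mul_sum]
  refine mul_le_mul_of_nonneg_left ?_ (by positivity)
  simp only [Finset.sum_add_distrib, ← Finset.mul_sum]
  have f1 : ∑ l, ∑ j ∈ Finset.univ.erase l, dfm (8 * τ) l (fun x => hk τ (x l - x j)) (ψ : (Fin N → T3) → ℂ)
      ≤ 1 / N * MD := by
    refine (Finset.sum_le_sum fun l _ => dfm_two (by linarith : 0 < 8 * τ) hτ hN l ψ).trans ?_
    rw [← Finset.mul_sum]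
    exact mul_le_mul_of_nonneg_left (hD (8 * τ) τ (by linarith) (by linarith) (by linarith)
      (by linarith)) (by positivity)
  have f2 : ∑ l, ∑ j ∈ Finset.univ.erase l, qf (fun x => hk (8 * τ) (x l - x j)) ψ ≤ M0 := by
    refine le_trans (le_of_eq ?_) (hM (8 * τ) (by linarith) (by linarith))
    refine Finset.sum_congr rfl fun l _ => ?_
    rw [← qf_sum _ fun j _ => Sums_hk_bm (by linarith : 0 < 8 * τ) l j]
    rfl
  have g1 := mul_le_mul_of_nonneg_left f1 hc.le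
  have g2 := mul_le_mul_of_nonneg_left f2 (by positivity : 0 ≤ 1 / c)
  calc _ ≤ c * (1 / N * MD) + 1 / c * M0 := add_le_add g1 g2
    _ = _ := by ring

end Pool.Agent.Lib.MP_4952d6_mp.O

end

/-! ### O.XT -/

section

/-!
# O.XT: the kernel lemma on the torus

All kernels are `≥ 0`. `‖∫ hk(τ/2)(α-z) K(z) ∫ hk(T/2)(z-w) u(w) dw dz‖ ≤ ∫∫ hk(τ/2)(α-z) K(z) hk(T/2)(z-w) ‖u w‖ dw dz`
(`norm_integral_le_integral_norm` twice; all integrands are bounded measurable times `‖u‖ ∈ L²(lam3) ⊂ L¹`, `lam3` is a probability measure).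
`hk_mul_le` with `s = T/2`, `r = τ/2`, `a = z-w`, `b = z-α`: `hk(T/2)(z-w) hk(τ/2)(α-z) ≤ 64 hk(2T)(α-w) hk(2τ)(α-z)`
(`(z-w)-(z-α) = α-w`; `hk_neg`). So the norm is at most `64 (∫ hk(2τ)(α-z) K(z) dz) (∫ hk(2T)(α-w) ‖u w‖ dw)`, and
`(∫ hk(2T)(α-w)‖u w‖ dw)² ≤ ∫ hk(2T)(α-w)‖u w‖² dw` (`SmoB_cs` of LB/SmoB.lean, `∫ hk = 1`: `hk_integral`, `int_sub_left`).
-/

set_option autoImplicit false
set_option linter.unusedSectionVars false
set_option linter.unusedVariables false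
open MeasureTheory Function Filter Topology Set ComplexConjugate

namespace Pool.Agent.Lib.MP_4952d6_mp.O

open LB

lemma XT_mul_le {τ T : ℝ} (hτ : 0 < τ) (hτT : τ ≤ T) (α z w : T3) :
    hk (τ / 2) (α - z) * hk (T / 2) (z - w) ≤ 64 * (hk (2 * τ) (α - z) * hk (2 * T) (α - w)) := by
  have h := hk_mul_le (r := τ / 2) (s := T / 2) (by linarith) (by linarith) (z - w) (z - α)
  rw [show 4 * (T / 2) = 2 * T by ring, show 4 * (τ / 2) = 2 * τ by ring,
    show z - w - (z - α) = α - w by abel, show z - α = -(α - z) by abel, hk_neg, hk_neg] at h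
  linarith

theorem XT_ker {τ T : ℝ} (hτ : 0 < τ) (hτT : τ ≤ T) {K : T3 → ℝ} (hK : BM K) (hK0 : ∀ z, 0 ≤ K z)
    (α : T3) (u : T3 → ℂ) (hu : StronglyMeasurable u) (hu2 : Integrable (fun y => ‖u y‖ ^ 2) lam3) :
    ‖∫ z, ((hk (τ / 2) (α - z) * K z : ℝ) : ℂ)
        * ∫ w, ((hk (T / 2) (z - w) : ℝ) : ℂ) * u w ∂lam3 ∂lam3‖ ^ 2
      ≤ (64 * ∫ z, hk (2 * τ) (α - z) * K z ∂lam3) ^ 2
        * ∫ w, hk (2 * T) (α - w) * ‖u w‖ ^ 2 ∂lam3 := by
  have hT : 0 < T := by linarith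
  have hu1 : Integrable (fun y => ‖u y‖) lam3 :=
    (((memLp_two_iff_integrable_sq_norm hu.aestronglyMeasurable).2 hu2).integrable one_le_two).norm
  have bT : BM (fun w => hk (2 * T) (α - w)) :=
    (hk_bm (by linarith)).comp (measurable_sub' measurable_const measurable_id)
  have bτ : BM (fun z => hk (2 * τ) (α - z)) :=
    (hk_bm (by linarith)).comp (measurable_sub' measurable_const measurable_id)
  have bU : Integrable (fun w => hk (2 * T) (α - w) * ‖u w‖) lam3 := by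
    obtain ⟨C, hC⟩ := bT.2
    exact hu1.bdd_mul bT.1.aestronglyMeasurable (Eventually.of_forall hC)
  have hJ0 : 0 ≤ ∫ w, hk (2 * T) (α - w) * ‖u w‖ ∂lam3 :=
    integral_nonneg fun w => mul_nonneg (hk_nonneg _ _) (norm_nonneg _)
  have hA0 : 0 ≤ ∫ z, hk (2 * τ) (α - z) * K z ∂lam3 :=
    integral_nonneg fun z => mul_nonneg (hk_nonneg _ _) (hK0 z)
  -- the pointwise bound
  have hpt : ∀ z, ‖((hk (τ / 2) (α - z) * K z : ℝ) : ℂ)
        * ∫ w, ((hk (T / 2) (z - w) : ℝ) : ℂ) * u w ∂lam3‖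
      ≤ (hk (2 * τ) (α - z) * K z) * (64 * ∫ w, hk (2 * T) (α - w) * ‖u w‖ ∂lam3) := by
    intro z
    have h0 : 0 ≤ hk (τ / 2) (α - z) * K z := mul_nonneg (hk_nonneg _ _) (hK0 z)
    rw [norm_mul, Complex.norm_real, Real.norm_of_nonneg h0]
    have h1 : ‖∫ w, ((hk (T / 2) (z - w) : ℝ) : ℂ) * u w ∂lam3‖
        ≤ ∫ w, hk (T / 2) (z - w) * ‖u w‖ ∂lam3 := by
      refine (norm_integral_le_integral_norm _).trans (le_of_eq ?_)
      refine integral_congr_ae (Eventually.of_forall fun w => ?_)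
      simp only
      rw [norm_mul, Complex.norm_real, Real.norm_of_nonneg (hk_nonneg _ _)]
    have h2 : hk (τ / 2) (α - z) * K z * ∫ w, hk (T / 2) (z - w) * ‖u w‖ ∂lam3
        ≤ ∫ w, ((hk (2 * τ) (α - z) * K z) * 64) * (hk (2 * T) (α - w) * ‖u w‖) ∂lam3 := by
      rw [← integral_const_mul]
      refine integral_mono_of_nonneg (Eventually.of_forall fun w =>
        mul_nonneg h0 (mul_nonneg (hk_nonneg _ _) (norm_nonneg _))) (bU.const_mul _)
        (Eventually.of_forall fun w => ?_)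
      simp only
      have h3 := XT_mul_le hτ hτT α z w
      have h4 : 0 ≤ K z * ‖u w‖ := mul_nonneg (hK0 z) (norm_nonneg _)
      calc hk (τ / 2) (α - z) * K z * (hk (T / 2) (z - w) * ‖u w‖)
          = (hk (τ / 2) (α - z) * hk (T / 2) (z - w)) * (K z * ‖u w‖) := by ring
        _ ≤ (64 * (hk (2 * τ) (α - z) * hk (2 * T) (α - w))) * (K z * ‖u w‖) :=
            mul_le_mul_of_nonneg_right h3 h4
        _ = _ := by ring
    rw [integral_const_mul, mul_assoc (hk (2 * τ) (α - z) * K z) 64] at h2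
    exact (mul_le_mul_of_nonneg_left h1 h0).trans h2
  have hmain : ‖∫ z, ((hk (τ / 2) (α - z) * K z : ℝ) : ℂ)
        * ∫ w, ((hk (T / 2) (z - w) : ℝ) : ℂ) * u w ∂lam3 ∂lam3‖
      ≤ (64 * ∫ z, hk (2 * τ) (α - z) * K z ∂lam3)
        * ∫ w, hk (2 * T) (α - w) * ‖u w‖ ∂lam3 := by
    refine (norm_integral_le_integral_norm _).trans ?_
    have h5 : ∫ z, ‖((hk (τ / 2) (α - z) * K z : ℝ) : ℂ)
        * ∫ w, ((hk (T / 2) (z - w) : ℝ) : ℂ) * u w ∂lam3‖ ∂lam3
        ≤ ∫ z, (hk (2 * τ) (α - z) * K z)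
          * (64 * ∫ w, hk (2 * T) (α - w) * ‖u w‖ ∂lam3) ∂lam3 :=
      integral_mono_of_nonneg (Eventually.of_forall fun z => norm_nonneg _)
        (((bτ.mul hK).integrable _).mul_const _) (Eventually.of_forall hpt)
    refine h5.trans (le_of_eq ?_)
    rw [integral_mul_const]
    ring
  have hcs := SmoB_cs bT (fun z => hk_nonneg _ _) hu.norm.aestronglyMeasurable hu2
  have hone : ∫ w, hk (2 * T) (α - w) ∂lam3 = 1 := by
    rw [int_sub_left, hk_integral (by linarith)]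
  rw [hone, one_mul, one_mul] at hcs
  have h6 := pow_le_pow_left₀ (norm_nonneg _) hmain 2
  rw [mul_pow] at h6
  exact h6.trans (mul_le_mul_of_nonneg_left hcs (sq_nonneg _))

end Pool.Agent.Lib.MP_4952d6_mp.O

end

/-! ### O.XF -/

section

/-!
# O.XF: the basic error operator, pointwise bound

`EEO τ T h a b g = P^τ_a h_{ba} S_a g - (p*h)_{ba} g`, `p = hk(τ/2)`, `q = hk(T/2)`, moved particle `a`.
For a.e. `x`: `S1_ker` (`fc3_hk`), `Ker_HP_ae`, `Ker_cvc_congr` give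
`(PP1 τ a (HP h b a (PP1 T a g))) x = ∫ p(x_a-z) h(x_b-z) (∫ q(z-w) g(x^{a→w}) dw) dz` (`update_idem`, `update_of_ne`), and
`cn p h (x_b-x_a) = ∫ p(z-x_a) h(x_b-z) dz` (`int_sub_left` with `y = x_b - z`), `∫ q(z-w) dw = 1`, so
`EEO x = ∫ p(x_a-z) h(x_b-z) ∫ q(z-w) (g(x^{a→w}) - g(x)) dw dz` for every `x` such that `w ↦ g(x^{a→w})` is square integrable (`Ker_sec`,
`Ker_sec_sm`). Then `XT_ker` with `u w = g(x^{a→w}) - g(x)`, `α = x_a`, `K z = h(x_b-z)`;
`∫ hk(2τ)(x_a-z) h(x_b-z) dz = cn (hk(2τ)) h (x_b-x_a) ≤ C₁ H hk(4τ)(x_b-x_a)` (`cn_hk_le`, `s = 2τ`),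
and `‖u w‖ = ‖g x - g(x^{a→w})‖` gives `dd (2T) a g x`.
-/

set_option autoImplicit false
set_option linter.unusedSectionVars false
set_option linter.unusedVariables false
open MeasureTheory Function Filter Topology Set ComplexConjugate

namespace Pool.Agent.Lib.MP_4952d6_mp.O

open LB

variable {N : ℕ}

/-- `P^τ_a h_{ba} S_a g - (p_{τ/2} * h)_{ba} g` -/
noncomputable def EEO (τ T : ℝ) (h : T3 → ℝ) (a b : Fin N) (g : HS (Fin N)) : HS (Fin N) :=
  PP1 τ a (HP h b a (PP1 T a g)) - HP (cn (hk (τ / 2)) h) b a g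

lemma XF_cn (s : ℝ) (h : T3 → ℝ) (α β : T3) :
    ∫ z, hk s (α - z) * h (β - z) ∂lam3 = cn (hk s) h (β - α) := by
  unfold cn
  rw [← int_sub_left (fun y => hk s (β - α - y) * h y) β]
  refine integral_congr_ae (Eventually.of_forall fun z => ?_)
  simp only
  rw [show β - α - (β - z) = -(α - z) by abel, hk_neg]

lemma XF_ae {τ T H R : ℝ} {h : T3 → ℝ} {a b : Fin N} (hτ : 0 < τ) (hT : 0 < T)
    (hh : SR H R h) (hab : a ≠ b) (g : HS (Fin N)) :
    ∀ᵐ x ∂(piN (Fin N)), (EEO τ T h a b g : (Fin N → T3) → ℂ) x =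
      (∫ z, ((hk (τ / 2) (x a - z) * h (x b - z) : ℝ) : ℂ) *
        ∫ w, ((hk (T / 2) (z - w) : ℝ) : ℂ) * g (update x a w) ∂lam3 ∂lam3)
      - ((cn (hk (τ / 2)) h (x b - x a) : ℝ) : ℂ) * g x := by
  have ht2 : 0 < τ / 2 := by linarith
  have hT2 : 0 < T / 2 := by linarith
  have e1 : (PP1 T a g : (Fin N → T3) → ℂ) =ᵐ[piN (Fin N)] cvc (hk (T / 2)) a g :=
    S1_ker (hk_bm hT2) (bdm_et hT.le) (fun p => fc3_hk hT2 p) a g
  have e2 : (PP1 τ a (HP h b a (PP1 T a g)) : (Fin N → T3) → ℂ) =ᵐ[piN (Fin N)]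
      cvc (hk (τ / 2)) a (HP h b a (PP1 T a g) : (Fin N → T3) → ℂ) :=
    S1_ker (hk_bm ht2) (bdm_et hτ.le) (fun p => fc3_hk ht2 p) a _
  have e3 := Ker_HP_ae hh.bm b a (PP1 T a g)
  have e4 : (HP h b a (PP1 T a g) : (Fin N → T3) → ℂ) =ᵐ[piN (Fin N)]
      fun x => ((h (x b - x a) : ℝ) : ℂ) * cvc (hk (T / 2)) a g x := by
    filter_upwards [e1, e3] with x h1 h3
    rw [h3, h1]
  have e5 := Ker_cvc_congr (w := hk (τ / 2)) a e4
  have e6 := Ker_HP_ae (cn_bm (hk_bm ht2) hh.bm) b a g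
  have e7 := Lp.coeFn_sub (PP1 τ a (HP h b a (PP1 T a g))) (HP (cn (hk (τ / 2)) h) b a g)
  filter_upwards [e2, e5, e6, e7] with x h2 h5 h6 h7
  unfold EEO
  rw [h7, Pi.sub_apply, h2, h5, h6]
  congr 1
  unfold cvc
  refine integral_congr_ae (Eventually.of_forall fun z => ?_)
  simp only
  rw [update_self, update_of_ne hab.symm]
  simp only [update_idem]
  push_cast
  ring

lemma XF_pt {τ T : ℝ} {h : T3 → ℝ} {a b : Fin N} (hτ : 0 < τ) (hT : 0 < T)
    (hh : BM h) (g : HS (Fin N)) (x : Fin N → T3)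
    (hx : Integrable (fun y => ‖g (update x a y)‖ ^ 2) lam3) :
    (∫ z, ((hk (τ / 2) (x a - z) * h (x b - z) : ℝ) : ℂ) *
        ∫ w, ((hk (T / 2) (z - w) : ℝ) : ℂ) * g (update x a w) ∂lam3 ∂lam3)
      - ((cn (hk (τ / 2)) h (x b - x a) : ℝ) : ℂ) * g x =
    ∫ z, ((hk (τ / 2) (x a - z) * h (x b - z) : ℝ) : ℂ) *
        ∫ w, ((hk (T / 2) (z - w) : ℝ) : ℂ) * (g (update x a w) - g x) ∂lam3 ∂lam3 := by
  have ht2 : 0 < τ / 2 := by linarith
  have hT2 : 0 < T / 2 := by linarith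
  have hsm := Ker_sec_sm g a x
  have hg1 : Integrable (fun y => g (update x a y)) lam3 :=
    ((memLp_two_iff_integrable_sq_norm hsm.aestronglyMeasurable).2 hx).integrable one_le_two
  obtain ⟨Cq, hCq0, hCq⟩ := (hk_bm hT2).exists_nonneg_bound
  have hqm : ∀ z : T3, Measurable (fun w : T3 => ((hk (T / 2) (z - w) : ℝ) : ℂ)) := fun z =>
    Complex.measurable_ofReal.comp ((hk_bm hT2).1.comp (measurable_sub' measurable_const measurable_id))
  have hq1 : ∀ z : T3, Integrable (fun w => ((hk (T / 2) (z - w) : ℝ) : ℂ)) lam3 := fun z =>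
    (((hk_bm hT2).comp (measurable_sub' measurable_const measurable_id)).integrable lam3).ofReal
  have hqg : ∀ z : T3, Integrable (fun w => ((hk (T / 2) (z - w) : ℝ) : ℂ) * g (update x a w)) lam3 := by
    intro z
    refine hg1.bdd_mul (c := Cq) (hqm z).aestronglyMeasurable (Eventually.of_forall fun w => ?_)
    rw [Complex.norm_real, Real.norm_eq_abs]
    exact hCq _
  have hin : ∀ z : T3, ∫ w, ((hk (T / 2) (z - w) : ℝ) : ℂ) * (g (update x a w) - g x) ∂lam3 =
      (∫ w, ((hk (T / 2) (z - w) : ℝ) : ℂ) * g (update x a w) ∂lam3) - g x := by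
    intro z
    have h0 : ∫ w, ((hk (T / 2) (z - w) : ℝ) : ℂ) ∂lam3 =
        ((∫ w, hk (T / 2) (z - w) ∂lam3 : ℝ) : ℂ) := integral_ofReal
    have h1 : ∫ w, ((hk (T / 2) (z - w) : ℝ) : ℂ) * g x ∂lam3 = g x := by
      rw [integral_mul_const, h0, int_sub_left (fun w => hk (T / 2) w) z,
        hk_integral hT2, Complex.ofReal_one, one_mul]
    have h2 : ∫ w, ((hk (T / 2) (z - w) : ℝ) : ℂ) * (g (update x a w) - g x) ∂lam3 =
        ∫ w, (((hk (T / 2) (z - w) : ℝ) : ℂ) * g (update x a w) -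
          ((hk (T / 2) (z - w) : ℝ) : ℂ) * g x) ∂lam3 :=
      integral_congr_ae (Eventually.of_forall fun w => mul_sub _ _ _)
    rw [h2, integral_sub (hqg z) ((hq1 z).mul_const _), h1]
  have hA : BM (fun z : T3 => hk (τ / 2) (x a - z) * h (x b - z)) :=
    ((hk_bm ht2).comp (measurable_sub' measurable_const measurable_id)).mul
      (hh.comp (measurable_sub' measurable_const measurable_id))
  have hA1 : Integrable (fun z : T3 => ((hk (τ / 2) (x a - z) * h (x b - z) : ℝ) : ℂ)) lam3 :=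
    (hA.integrable lam3).ofReal
  have hIm : StronglyMeasurable (fun z : T3 =>
      ∫ w, ((hk (T / 2) (z - w) : ℝ) : ℂ) * g (update x a w) ∂lam3) := by
    have h1 : StronglyMeasurable (fun q : T3 × T3 =>
        ((hk (T / 2) (q.1 - q.2) : ℝ) : ℂ) * g (update x a q.2)) := by
      refine StronglyMeasurable.mul ?_ (hsm.comp_measurable measurable_snd)
      exact (Complex.measurable_ofReal.comp
        ((hk_bm hT2).1.comp measurable_sub_fst_snd)).stronglyMeasurable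
    exact h1.integral_prod_right'
  have hIb : ∀ z : T3, ‖∫ w, ((hk (T / 2) (z - w) : ℝ) : ℂ) * g (update x a w) ∂lam3‖ ≤
      Cq * ∫ w, ‖g (update x a w)‖ ∂lam3 := by
    intro z
    refine (norm_integral_le_integral_norm _).trans ?_
    rw [← integral_const_mul]
    refine integral_mono (hqg z).norm (hg1.norm.const_mul _) fun w => ?_
    simp only
    rw [norm_mul, Complex.norm_real, Real.norm_eq_abs]
    exact mul_le_mul_of_nonneg_right (hCq _) (norm_nonneg _)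
  have hAI : Integrable (fun z : T3 => ((hk (τ / 2) (x a - z) * h (x b - z) : ℝ) : ℂ) *
      ∫ w, ((hk (T / 2) (z - w) : ℝ) : ℂ) * g (update x a w) ∂lam3) lam3 :=
    hA1.mul_bdd hIm.aestronglyMeasurable (Eventually.of_forall hIb)
  have hc : ((cn (hk (τ / 2)) h (x b - x a) : ℝ) : ℂ) =
      ∫ z, ((hk (τ / 2) (x a - z) * h (x b - z) : ℝ) : ℂ) ∂lam3 := by
    have h0 : ∫ z, ((hk (τ / 2) (x a - z) * h (x b - z) : ℝ) : ℂ) ∂lam3 =
        ((∫ z, hk (τ / 2) (x a - z) * h (x b - z) ∂lam3 : ℝ) : ℂ) := integral_ofReal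
    rw [h0, XF_cn]
  rw [hc, ← integral_mul_const, ← integral_sub hAI (hA1.mul_const _)]
  refine integral_congr_ae (Eventually.of_forall fun z => ?_)
  simp only
  rw [hin z]
  ring

theorem EEO_pt : ∃ C : ℝ, 0 ≤ C ∧ ∀ (N : ℕ) (τ T H R : ℝ) (h : T3 → ℝ) (a b : Fin N), 0 < τ → τ ≤ T →
    SR H R h → 0 ≤ R → R ^ 2 ≤ τ → a ≠ b → ∀ g : HS (Fin N), ∀ᵐ x ∂(piN (Fin N)),
    ‖(EEO τ T h a b g : (Fin N → T3) → ℂ) x‖ ^ 2
      ≤ (C * H * hk (4 * τ) (x b - x a)) ^ 2 * dd (2 * T) a g x := by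
  obtain ⟨C₁, hC0, hC⟩ := cn_hk_le
  refine ⟨64 * C₁, by positivity, ?_⟩
  intro N τ T H R h a b hτ hτT hh hR0 hRτ hab g
  have hT : 0 < T := lt_of_lt_of_le hτ hτT
  filter_upwards [XF_ae hτ hT hh hab g, Ker_sec g a] with x hx hx2
  rw [hx, XF_pt hτ hT hh.bm g x hx2]
  have hsm := Ker_sec_sm g a x
  have hu : StronglyMeasurable (fun w => g (update x a w) - g x) := hsm.sub stronglyMeasurable_const
  have hm : MemLp (fun w => g (update x a w)) 2 lam3 :=
    (memLp_two_iff_integrable_sq_norm hsm.aestronglyMeasurable).2 hx2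
  have hm2 : MemLp (fun w => g (update x a w) - g x) 2 lam3 := hm.sub (memLp_const _)
  have hu2 : Integrable (fun w => ‖g (update x a w) - g x‖ ^ 2) lam3 :=
    (memLp_two_iff_integrable_sq_norm hu.aestronglyMeasurable).1 hm2
  have hK : BM (fun z : T3 => h (x b - z)) :=
    hh.bm.comp (measurable_sub' measurable_const measurable_id)
  refine (XT_ker hτ hτT hK (fun z => hh.nonneg _) (x a) _ hu hu2).trans ?_
  have h1 : ∫ w, hk (2 * T) (x a - w) * ‖g (update x a w) - g x‖ ^ 2 ∂lam3 = dd (2 * T) a g x := by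
    unfold dd
    refine integral_congr_ae (Eventually.of_forall fun w => ?_)
    simp only
    rw [norm_sub_rev]
  rw [h1]
  refine mul_le_mul_of_nonneg_right ?_ (dd_nonneg _ _ _ _)
  have h2 : 0 ≤ ∫ z, hk (2 * τ) (x a - z) * h (x b - z) ∂lam3 :=
    integral_nonneg fun z => mul_nonneg (hk_nonneg _ _) (hh.nonneg _)
  have h3 := hC (2 * τ) H R h (by linarith) hh (by linarith) hR0 (x b - x a)
  rw [show 2 * (2 * τ) = 4 * τ by ring] at h3
  rw [XF_cn] at h2 ⊢
  refine pow_le_pow_left₀ (by linarith) ?_ 2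
  calc 64 * cn (hk (2 * τ)) h (x b - x a) ≤ 64 * (C₁ * H * hk (4 * τ) (x b - x a)) := by linarith
    _ = 64 * C₁ * H * hk (4 * τ) (x b - x a) := by ring

end Pool.Agent.Lib.MP_4952d6_mp.O

end

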