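import Pool.Agent.Lib.MP_4952d6_mp.Pk.G45
import Pool.Agent.Lib.MP_4952d6_mp.Po.N02
import Pool.Agent.Lib.MP_4952d6_mp.Po.N06
import Pool.Agent.Lib.MP_4952d6_mp.Po.N09

/-! Merged modules (to save import time): O.XW, O.XV4, O.MB, O.MC, O.MD1, O.MD2, O.MD. -/

/-! ### O.XW -/

section

/-!
# O.XW: weights with three particles

`q = hk s`. `XW_one`: `WtB_last` : the left side is `∫ hk s (x_j - y) (hk r (y - x_l) hk r' (y - x_m)) dy`, `hk s (x_j-y) = hk s (y-x_j)`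
(`hk_neg`), `hk_int_le` with `a = x_j, b = x_l, c = x_m`, and `hk_neg` again.
`XW_two`: `hk r (x_j-x_l)² ≤ 8(√r)⁻¹³ hk r (x_j-x_l)` (`hk_sup`), `cvj` is monotone (all `BM`), `cvj_diff_left`, `cn (hk s) (hk r) = hk (s+r)`
(`hk_conv`). `XW_three`: `WtB_step'` (WtB) or directly: `x_m` is not changed; `cvj_diff_right`, `hk_conv`. `XW_four` as `XW_two` with
`cvj_diff_right`.
-/

set_option autoImplicit false
set_option linter.unusedSectionVars false
set_option linter.unusedVariables false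
open MeasureTheory Function Filter Topology Set ComplexConjugate

namespace Pool.Agent.Lib.MP_4952d6_mp.O

open LB

variable {N : ℕ}

theorem XW_one {s r r' : ℝ} (hr : 0 < r) (hr' : 0 < r') (hrs : r ≤ s) {j l m : Fin N} (hjl : j ≠ l)
    (hjm : j ≠ m) (x : Fin N → T3) :
    cvj (hk s) j (fun x : Fin N → T3 => hk r (x j - x l) * hk r' (x j - x m)) x
      ≤ 64 * (hk (4 * s) (x l - x j) * hk (4 * r + r') (x l - x m)) := by
  rw [WtB_last hjl hjm]
  have h1 := hk_int_le hr hr' hrs (x j) (x l) (x m)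
  have e1 : hk (4 * s) (x l - x j) = hk (4 * s) (x j - x l) := by
    rw [← hk_neg, neg_sub]
  have e2 : hk (4 * r + r') (x l - x m) = hk (4 * r + r') (x m - x l) := by
    rw [← hk_neg, neg_sub]
  rw [e1, e2]
  refine le_trans (le_of_eq ?_) h1
  refine integral_congr_ae (ae_of_all _ fun y => ?_)
  simp only
  rw [← hk_neg s (y - x j), neg_sub]

lemma XW_sq {r : ℝ} (hr : 0 < r) (hr1 : r ≤ 1) (z : T3) :
    hk r z * hk r z ≤ 8 * (Real.sqrt r)⁻¹ ^ 3 * hk r z :=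
  mul_le_mul_of_nonneg_right (hk_sup hr hr1 z) (hk_nonneg r z)

lemma XW_cn {s r : ℝ} (hs : 0 < s) (hr : 0 < r) (c : ℝ) (z : T3) :
    cn (hk s) (fun y => c * hk r y) z = c * hk (s + r) z := by
  unfold cn
  rw [← hk_conv hs hr z, ← integral_const_mul]
  refine integral_congr_ae (ae_of_all _ fun y => ?_)
  ring

lemma XW_cn_mono {s r : ℝ} (hs : 0 < s) (hr : 0 < r) (hr1 : r ≤ 1) (z : T3) :
    cn (hk s) (fun y => hk r y * hk r y) z ≤ 8 * (Real.sqrt r)⁻¹ ^ 3 * hk (s + r) z := by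
  rw [← XW_cn hs hr]
  unfold cn
  have b1 := WtB_comp' (hk_bm hs) z
  have b2 := hk_bm hr
  refine integral_mono ((b1.mul (b2.mul b2)).integrable _) ((b1.mul (b2.const_mul _)).integrable _)
    fun y => ?_
  exact mul_le_mul_of_nonneg_left (XW_sq hr hr1 y) (hk_nonneg _ _)

theorem XW_two {s r : ℝ} (hs : 0 < s) (hr : 0 < r) (hr1 : r ≤ 1) {j l : Fin N} (hjl : j ≠ l)
    (x : Fin N → T3) :
    cvj (hk s) j (fun x : Fin N → T3 => hk r (x j - x l) * hk r (x j - x l)) x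
      ≤ 8 * (Real.sqrt r)⁻¹ ^ 3 * hk (s + r) (x l - x j) := by
  have h1 := cvj_diff_left (w := hk s) (g := fun y => hk r y * hk r y) hjl x
  rw [h1]
  have e1 : hk (s + r) (x l - x j) = hk (s + r) (x j - x l) := by
    rw [← hk_neg, neg_sub]
  rw [e1]
  exact XW_cn_mono hs hr hr1 _

theorem XW_three {s r r' : ℝ} (hs : 0 < s) (hr : 0 < r) (hr' : 0 < r') {j l m : Fin N} (hjl : j ≠ l)
    (hlm : l ≠ m) (x : Fin N → T3) :
    cvj (hk s) l (fun x : Fin N → T3 => hk r (x j - x m) * hk r' (x j - x l)) x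
      = hk r (x j - x m) * hk (s + r') (x j - x l) := by
  rw [WtB_mul_left (fun x y => WtB_upd hjl hlm.symm (hk r) x y), cvj_diff_right (hk_neg s) hjl]
  congr 1
  exact hk_conv hs hr' _

theorem XW_four {s r : ℝ} (hs : 0 < s) (hr : 0 < r) (hr1 : r ≤ 1) {j l : Fin N} (hjl : j ≠ l)
    (x : Fin N → T3) :
    cvj (hk s) l (fun x : Fin N → T3 => hk r (x j - x l) * hk r (x j - x l)) x
      ≤ 8 * (Real.sqrt r)⁻¹ ^ 3 * hk (s + r) (x j - x l) := by
  have h1 := cvj_diff_right (w := hk s) (g := fun y => hk r y * hk r y) (hk_neg s) hjl x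
  rw [h1]
  exact XW_cn_mono hs hr hr1 _

end Pool.Agent.Lib.MP_4952d6_mp.O

end

/-! ### O.XV4 -/

section

/-!
# O.XV4: integration over `z`

`∫ hk T (z-x_i) hk T (z-x_j) dz = hk (2T) (x_j-x_i)` (`HKG_conv`), Fubini (`BM` on `(z,x)` times the integrable `dd`), `dd_int`:
the term `(j,i)` is `dfm (2t) j (hk(2T)(x_j-x_i)) ψ`. `i = j`: `hk(2T) 0 ≤ 8 (√(2T))⁻¹³ ≤ 8 (√T)⁻¹³` (`WWb_hk_zero`, `2T ≤ 1`), `dfm_smul`, `dfm_one` (`s = T`):
`≤ 8 (√T)⁻¹³/N² · dfm (2t) j ((crowd T j + N)²)`; `i ≠ j`: `dfm_two` (`s = 2T`). Sum over `j` with `DBd` (`r = 2t`, `s = T` and `2T`).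
-/

set_option autoImplicit false
set_option linter.unusedSectionVars false
set_option linter.unusedVariables false
open MeasureTheory Function Filter Topology Set ComplexConjugate

namespace Pool.Agent.Lib.MP_4952d6_mp.O

open LB

lemma XV4_term {N : ℕ} {t T : ℝ} (ht : 0 < t) (hT : 0 < T) (j i : Fin N) (ψ : HS (Fin N)) :
    Integrable (fun z => ∫ x, (hk T (z - x i) * hk T (z - x j)) * dd (2 * t) j ψ x ∂(piN (Fin N)))
      lam3 ∧
    ∫ z, ∫ x, (hk T (z - x i) * hk T (z - x j)) * dd (2 * t) j ψ x ∂(piN (Fin N)) ∂lam3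
      = dfm (2 * t) j (fun x => hk (2 * T) (x j - x i)) (ψ : (Fin N → T3) → ℂ) := by
  have bT := hk_bm hT
  have m1 : ∀ i : Fin N, Measurable (fun q : T3 × (Fin N → T3) => q.1 - q.2 i) := fun i =>
    measurable_fst.sub ((measurable_pi_apply i).comp measurable_snd)
  have bB : BM (fun q : T3 × (Fin N → T3) => hk T (q.1 - q.2 i) * hk T (q.1 - q.2 j)) :=
    (bT.comp (m1 i)).mul (bT.comp (m1 j))
  have hd : Integrable (fun q : T3 × (Fin N → T3) => dd (2 * t) j ψ q.2) (lam3.prod (piN (Fin N))) :=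
    (dd_integrable (by linarith) j ψ).comp_snd lam3
  have hI : Integrable (fun q : T3 × (Fin N → T3) => (hk T (q.1 - q.2 i) * hk T (q.1 - q.2 j))
      * dd (2 * t) j ψ q.2) (lam3.prod (piN (Fin N))) := by
    obtain ⟨C, hC⟩ := bB.2
    exact hd.bdd_mul bB.1.aestronglyMeasurable (Eventually.of_forall hC)
  refine ⟨hI.integral_prod_left, ?_⟩
  rw [integral_integral_swap hI, ← (dd_int (by linarith : 0 < 2 * t) j
    (bm_diff (hk_bm (by linarith : 0 < 2 * T)) j i) ψ).2]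
  refine integral_congr_ae (Eventually.of_forall fun x => ?_)
  simp only
  rw [integral_mul_const, HKG_conv hT hT, show T + T = 2 * T by ring]

theorem XV_int {N : ℕ} {t T MD : ℝ} (hN : 0 < N) (ht : 0 < t) (htT : 4 * t ≤ T) (hT1 : 64 * T ≤ 1)
    {ψ : HS (Fin N)} (hD : DBd t T MD ψ) :
    Integrable (fun z => ∑ j, ∑ i, ∫ x, (hk T (z - x i) * hk T (z - x j)) * dd (2 * t) j ψ x
      ∂(piN (Fin N))) lam3 ∧
    ∫ z, ∑ j, ∑ i, ∫ x, (hk T (z - x i) * hk T (z - x j)) * dd (2 * t) j ψ x ∂(piN (Fin N)) ∂lam3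
      ≤ (1 / N + 8 * ((Real.sqrt T)⁻¹ ^ 3 / N ^ 2)) * MD := by
  have hT : 0 < T := by linarith
  have h2t : 0 < 2 * t := by linarith
  have h2T : 0 < 2 * T := by linarith
  have hterm := fun j i => XV4_term ht hT j i ψ
  have hint : ∀ j : Fin N, Integrable (fun z => ∑ i, ∫ x, (hk T (z - x i) * hk T (z - x j))
      * dd (2 * t) j ψ x ∂(piN (Fin N))) lam3 := fun j =>
    integrable_finsetSum _ fun i _ => (hterm j i).1
  refine ⟨integrable_finsetSum _ fun j _ => hint j, ?_⟩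
  rw [integral_finsetSum _ fun j _ => hint j]
  have e1 : ∀ j : Fin N, ∫ z, ∑ i, ∫ x, (hk T (z - x i) * hk T (z - x j))
      * dd (2 * t) j ψ x ∂(piN (Fin N)) ∂lam3
      = ∑ i, dfm (2 * t) j (fun x => hk (2 * T) (x j - x i)) (ψ : (Fin N → T3) → ℂ) := by
    intro j
    rw [integral_finsetSum _ fun i _ => (hterm j i).1]
    exact Finset.sum_congr rfl fun i _ => (hterm j i).2
  simp only [e1]
  have hk0 : hk (2 * T) 0 ≤ 8 * (Real.sqrt T)⁻¹ ^ 3 := by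
    refine (WWb_hk_zero h2T (by linarith)).trans ?_
    have h1 : (Real.sqrt (2 * T))⁻¹ ≤ (Real.sqrt T)⁻¹ :=
      inv_anti₀ (Real.sqrt_pos.2 hT) (Real.sqrt_le_sqrt (by linarith))
    have h2 := pow_le_pow_left₀ (inv_nonneg.2 (Real.sqrt_nonneg _)) h1 3
    linarith
  have e2 : ∀ j : Fin N, ∑ i, dfm (2 * t) j (fun x => hk (2 * T) (x j - x i)) (ψ : (Fin N → T3) → ℂ)
      ≤ 1 / N * dfm (2 * t) j (fun x => (crowd (2 * T) j x + N) ^ 2) (ψ : (Fin N → T3) → ℂ)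
        + 8 * ((Real.sqrt T)⁻¹ ^ 3 / N ^ 2)
          * dfm (2 * t) j (fun x => (crowd T j x + N) ^ 2) (ψ : (Fin N → T3) → ℂ) := by
    intro j
    rw [← Finset.sum_erase_add Finset.univ _ (Finset.mem_univ j)]
    refine add_le_add (dfm_two h2t h2T hN j ψ) ?_
    have e3 : (fun x : Fin N → T3 => hk (2 * T) (x j - x j)) = fun x => hk (2 * T) 0 * 1 := by
      funext x
      rw [sub_self, mul_one]
    rw [e3, dfm_smul]
    have h1 := dfm_one h2t hT hN j ψ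
    have h0 : 0 ≤ dfm (2 * t) j (fun _ => 1) (ψ : (Fin N → T3) → ℂ) :=
      dfm_nonneg _ _ (fun _ => zero_le_one) _
    have h3 : 0 ≤ 8 * (Real.sqrt T)⁻¹ ^ 3 := by positivity
    calc hk (2 * T) 0 * dfm (2 * t) j (fun _ => 1) (ψ : (Fin N → T3) → ℂ)
        ≤ 8 * (Real.sqrt T)⁻¹ ^ 3 * dfm (2 * t) j (fun _ => 1) (ψ : (Fin N → T3) → ℂ) :=
          mul_le_mul_of_nonneg_right hk0 h0
      _ ≤ 8 * (Real.sqrt T)⁻¹ ^ 3 * (1 / N ^ 2
            * dfm (2 * t) j (fun x => (crowd T j x + N) ^ 2) (ψ : (Fin N → T3) → ℂ)) :=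
          mul_le_mul_of_nonneg_left h1 h3
      _ = _ := by ring
  refine (Finset.sum_le_sum fun j _ => e2 j).trans ?_
  rw [Finset.sum_add_distrib, ← Finset.mul_sum, ← Finset.mul_sum, add_mul]
  have d1 := hD (2 * t) (2 * T) h2t (by linarith) (by linarith) (by linarith)
  have d2 := hD (2 * t) T h2t (by linarith) (by linarith) (by linarith)
  exact add_le_add (mul_le_mul_of_nonneg_left d1 (by positivity))
    (mul_le_mul_of_nonneg_left d2 (by positivity))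

end Pool.Agent.Lib.MP_4952d6_mp.O

end

/-! ### O.MB -/

section

/-! OM: collects MB1, MB2 -/

end

/-! ### O.MC -/

section

/-!
# JOB OM-MC: moment bounds of minimisers at all scales

`nz_moments`: `N ≥ 1` (otherwise `1 ≤ N * ..` fails), fix a particle `m`. Case `σ ≤ l²`: `nz σ z x = (∑_{j≠m} hk σ (z - x j)) + hk σ (z - x m)`, `hk σ ≤ 8 N` (`H5_bd`), `(a + b)^p ≤ 2^(p-1) (a^p + b^p)` (`add_pow_le`), and the
second part of `smeared` (for `r = σ`). Case `l² < σ`: `nzp_le` with `σ' = 2 σ` and `nzp_mono` with `2 l² ≤ 2 σ`, `hk_moments`. (`Mini.nrm`, `hMini.fe.hg.mem : MemLp ψ 2`.)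

`crowdO`: case `2 s ≤ l²`: `crowd_moments`. Case `l² < 2 s`: `crp_sm`, `smp_le`, `nz_moments` with `p = q + 1` for the times `s/12` and `2 s`; `1 ≤ N (√(s/12))^3` because `s/12 ≥ l²/24` and `N l³ = 1/Y` (`Par`: `l = a/Y`, `N a³ = Y²`), for `Y ≤ 1/200`
(`24^(3/2) < 118`).

`smearedO`: case `r ≤ l²`, `s ≤ l²`: first part of `smeared`. Case `l² < r`: `smp_le`, `nz_moments` (`1 ≤ N (√r)^3` as before). Case `r ≤ l² < s`: `smp_sm`, then `smp_le`, `nz_moments` for the times `r + s/12 ≥ l²/12` and `2 s`.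
-/

set_option autoImplicit false
set_option linter.unusedSectionVars false
set_option linter.unusedVariables false
open MeasureTheory Function Filter Topology Set
open scoped ENNReal

namespace Pool.Agent.Lib.MP_4952d6_mp.O

open LB LA

lemma MC_Nl {θ cw Kμ Y l R a : ℝ} {w : ℝ → ℝ} {N : ℕ} {R₀ : ℝ} {𝒱 : T3 → ℝ≥0∞} (hY : 0 < Y)
    (h : Par θ cw Kμ Y l R a w N R₀ 𝒱) : 0 < l ∧ (N : ℝ) * l ^ 3 = 1 / Y ∧ (1:ℝ) ≤ N := by
  have ha := h.a_pos
  have hl : 0 < l := by rw [h.l_eq]; positivity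
  have hNe : (N : ℝ) * a ^ 3 = Y ^ 2 := h.N_eq
  refine ⟨hl, ?_, ?_⟩
  · rw [h.l_eq, div_pow]
    have : (N : ℝ) * (a ^ 3 / Y ^ 3) = (N * a ^ 3) / Y ^ 3 := by ring
    rw [this, hNe]
    field_simp
  · have h0 : 0 < (N : ℝ) := by
      by_contra hc
      have : (N : ℝ) = 0 := le_antisymm (not_lt.1 hc) (Nat.cast_nonneg N)
      rw [this, zero_mul] at hNe
      have : 0 < Y ^ 2 := by positivity
      linarith
    have h1 : 0 < N := by exact_mod_cast h0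
    exact_mod_cast h1

lemma MC_one {N : ℕ} {l Y σ c : ℝ} (hl : 0 < l) (hNl : (N : ℝ) * l ^ 3 = 1 / Y) (hY : 0 < Y)
    (hYs : Y ≤ 1 / 200) (hc0 : 0 < c) (hc : c ≤ 24) (hσ : l ^ 2 / c ≤ σ) :
    1 ≤ N * (Real.sqrt σ) ^ 3 := by
  have h1 : l / Real.sqrt c ≤ Real.sqrt σ := by
    have : Real.sqrt (l ^ 2 / c) ≤ Real.sqrt σ := Real.sqrt_le_sqrt hσ
    rwa [Real.sqrt_div (sq_nonneg l), Real.sqrt_sq hl.le] at this
  have hsc : 0 < Real.sqrt c := Real.sqrt_pos.2 hc0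
  have h2 : Real.sqrt c ≤ 5 := by
    rw [Real.sqrt_le_left (by norm_num)]
    linarith
  have h3 : l / 5 ≤ Real.sqrt σ := (div_le_div_of_nonneg_left hl.le hsc h2).trans h1
  have h4 : (l / 5) ^ 3 ≤ Real.sqrt σ ^ 3 := pow_le_pow_left₀ (by positivity) h3 3
  have h5 : (N : ℝ) * (l / 5) ^ 3 ≤ N * Real.sqrt σ ^ 3 :=
    mul_le_mul_of_nonneg_left h4 (Nat.cast_nonneg N)
  have h6 : (N : ℝ) * (l / 5) ^ 3 = 1 / Y / 125 := by
    rw [← hNl]; ring
  rw [h6] at h5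
  refine le_trans ?_ h5
  rw [div_div, le_div_iff₀ (by positivity)]
  linarith

lemma MC_nz_BM {N : ℕ} {σ : ℝ} (hσ : 0 < σ) (p : ℕ) :
    BM (uncurry (fun (z : T3) (x : Fin N → T3) => nz σ z x ^ p)) := by
  have h := BM.pow (H4_S_bm (ι := Fin N) hσ) p
  exact h

lemma MC_S_BM {N : ℕ} {σ : ℝ} (hσ : 0 < σ) (m : Fin N) (p : ℕ) :
    BM (uncurry (fun (z : T3) (x : Fin N → T3) => I2a_S σ m z x ^ p)) := by
  have h := BM.pow (I2a_S_BM (ι := Fin N) hσ m) p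
  exact h

theorem nz_moments (θ cw Kμ : ℝ) (hθ : 1 ≤ θ) (hcw : 0 < cw) (hKμ : 0 ≤ Kμ) (p : ℕ) :
    ∃ C Y0 : ℝ, 0 < C ∧ 0 < Y0 ∧ ∀ Y : ℝ, 0 < Y → Y < Y0 → ∀ (l R a : ℝ) (w : ℝ → ℝ)
      (N : ℕ) (R₀ e : ℝ) (𝒱 : T3 → ℝ≥0∞) (ψ : (Fin N → T3) → ℂ)
      (g : Fin N → Fin 3 → (Fin N → T3) → ℂ), Par θ cw Kμ Y l R a w N R₀ 𝒱 →
      Mini R₀ 𝒱 (Kμ / l ^ 2) e ψ g →
      ∀ σ : ℝ, 0 < σ → 1 ≤ N * (Real.sqrt σ) ^ 3 → nzp σ p ψ ≤ C * (N : ℝ) ^ p := by
  obtain ⟨C1, Y1, hC1, hY1, H1⟩ := smeared θ cw Kμ hθ hcw hKμ p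
  obtain ⟨C2, Y2, hC2, hY2, H2⟩ := hk_moments θ cw Kμ hθ hcw hKμ p
  refine ⟨2 ^ (p - 1) * (C1 + 8 ^ p) + (Real.sqrt 2 ^ 3) ^ p * C2, min (min Y1 Y2) (1 / 200),
    by positivity, lt_min (lt_min hY1 hY2) (by norm_num), ?_⟩
  intro Y hY hYlt l R a w N R₀ e 𝒱 ψ g hP hM σ hσ hσN
  have hYa : Y < Y1 := hYlt.trans_le ((min_le_left _ _).trans (min_le_left _ _))
  have hYb : Y < Y2 := hYlt.trans_le ((min_le_left _ _).trans (min_le_right _ _))
  obtain ⟨hl, hNl, hN1⟩ := MC_Nl hY hP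
  have hψ : MemLp ψ 2 (piN (Fin N)) := hM.fe.hg.mem
  have hnrm := hM.nrm
  have hNp : 0 ≤ (N : ℝ) ^ p := by positivity
  rcases le_or_gt σ (l ^ 2) with hc | hc
  · have hN0 : 0 < N := by
      have : (0:ℝ) < N := by linarith
      exact_mod_cast this
    set m : Fin N := ⟨0, hN0⟩ with hm
    have hl1 : l ^ 2 ≤ 1 := by
      have := hP.l_le
      nlinarith
    have hs1 : σ ≤ 1 := hc.trans hl1
    have K := (H1 Y hY hYa l R a w N R₀ e 𝒱 ψ g hP hM σ σ hσ hc hσN hσ hc).2 m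
    have hpt : ∀ (z : T3) (x : Fin N → T3), nz σ z x ^ p
        ≤ 2 ^ (p - 1) * I2a_S σ m z x ^ p + (2 ^ (p - 1) * (8 * N) ^ p) * 1 := by
      intro z x
      have e1 : nz σ z x = I2a_S σ m z x + hk σ (z - x m) := by
        unfold nz I2a_S
        exact (Finset.sum_erase_add _ _ (Finset.mem_univ m)).symm
      have e2 := H5_bd hσ hs1 hσN (z - x m)
      have e3 : nz σ z x ≤ I2a_S σ m z x + 8 * N := by rw [e1]; linarith
      have e0 : 0 ≤ nz σ z x := Finset.sum_nonneg fun j _ => hk_nonneg _ _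
      have e4 := pow_le_pow_left₀ e0 e3 p
      have e5 := add_pow_le (I2a_S_nonneg σ m z x) (show (0:ℝ) ≤ 8 * N by positivity) p
      refine e4.trans (e5.trans (le_of_eq ?_))
      ring
    have hB1 : BM (uncurry (fun (z : T3) (x : Fin N → T3) => (1:ℝ))) := BM.const 1
    have hB2 : BM (uncurry (fun (z : T3) (x : Fin N → T3) =>
        2 ^ (p - 1) * I2a_S σ m z x ^ p + (2 ^ (p - 1) * (8 * N) ^ p) * (1:ℝ))) :=
      ((MC_S_BM hσ m p).const_mul _).add (hB1.const_mul _)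
    have k1 := I2a_J_mono hψ (MC_nz_BM hσ p) hB2 hpt
    rw [I2a_J_add hψ (MC_S_BM hσ m p) hB1, I2a_J_one hnrm] at k1
    have k2 : I2a_J ψ (fun z x => I2a_S σ m z x ^ p) ≤ C1 * (N : ℝ) ^ p := K
    have k3 : nzp σ p ψ = I2a_J ψ (fun z x => nz σ z x ^ p) := rfl
    rw [k3]
    refine k1.trans ?_
    have k4 : (2:ℝ) ^ (p - 1) * I2a_J ψ (fun z x => I2a_S σ m z x ^ p)
        ≤ 2 ^ (p - 1) * (C1 * (N : ℝ) ^ p) := mul_le_mul_of_nonneg_left k2 (by positivity)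
    have k5 : (8 * (N : ℝ)) ^ p = 8 ^ p * (N : ℝ) ^ p := mul_pow _ _ _
    rw [k5]
    have k6 : 0 ≤ (Real.sqrt 2 ^ 3) ^ p * C2 * (N : ℝ) ^ p := by positivity
    nlinarith
  · have h1 := nzp_le hψ hσ (show σ ≤ 2 * σ by linarith) p
    have h2 := nzp_mono hψ (show (0:ℝ) < 2 * l ^ 2 by positivity)
      (show 2 * l ^ 2 ≤ 2 * σ by linarith) p
    have h3 : nzp (2 * l ^ 2) p ψ ≤ C2 * (N : ℝ) ^ p :=
      H2 Y hY hYb l R a w N R₀ e 𝒱 ψ g hP hM
    have e1 : 2 * σ / σ = 2 := by field_simp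
    rw [e1] at h1
    have h4 : (Real.sqrt 2 ^ 3) ^ p * nzp (2 * σ) p ψ ≤ (Real.sqrt 2 ^ 3) ^ p * (C2 * (N : ℝ) ^ p) :=
      mul_le_mul_of_nonneg_left (h2.trans h3) (by positivity)
    refine (h1.trans h4).trans ?_
    have k6 : 0 ≤ 2 ^ (p - 1) * (C1 + 8 ^ p) * (N : ℝ) ^ p := by positivity
    nlinarith

theorem crowdO (θ cw Kμ : ℝ) (hθ : 1 ≤ θ) (hcw : 0 < cw) (hKμ : 0 ≤ Kμ) (q : ℕ) :
    ∃ C Y0 : ℝ, 0 < C ∧ 0 < Y0 ∧ ∀ Y : ℝ, 0 < Y → Y < Y0 → ∀ (l R a : ℝ) (w : ℝ → ℝ)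
      (N : ℕ) (R₀ e : ℝ) (𝒱 : T3 → ℝ≥0∞) (ψ : (Fin N → T3) → ℂ)
      (g : Fin N → Fin 3 → (Fin N → T3) → ℂ), Par θ cw Kμ Y l R a w N R₀ 𝒱 →
      Mini R₀ 𝒱 (Kμ / l ^ 2) e ψ g →
      ∀ s : ℝ, 0 < s → 1 ≤ N * (Real.sqrt s) ^ 3 → crp s q ψ ≤ C * (N : ℝ) ^ (q + 1) := by
  obtain ⟨C1, Y1, hC1, hY1, H1⟩ := crowd_moments θ cw Kμ hθ hcw hKμ q
  obtain ⟨C2, Y2, hC2, hY2, H2⟩ := nz_moments θ cw Kμ hθ hcw hKμ (q + 1)
  refine ⟨C1 + 2 * 4 ^ q * (2 * C2), min (min Y1 Y2) (1 / 200),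
    by positivity, lt_min (lt_min hY1 hY2) (by norm_num), ?_⟩
  intro Y hY hYlt l R a w N R₀ e 𝒱 ψ g hP hM s hs hsN
  have hYa : Y < Y1 := hYlt.trans_le ((min_le_left _ _).trans (min_le_left _ _))
  have hYb : Y < Y2 := hYlt.trans_le ((min_le_left _ _).trans (min_le_right _ _))
  have hYc : Y ≤ 1 / 200 := hYlt.le.trans (min_le_right _ _)
  obtain ⟨hl, hNl, hN1⟩ := MC_Nl hY hP
  have hψ : MemLp ψ 2 (piN (Fin N)) := hM.fe.hg.mem
  have hNp : 0 ≤ (N : ℝ) ^ (q + 1) := by positivity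
  rcases le_or_gt (2 * s) (l ^ 2) with hc | hc
  · have h1 : crp s q ψ ≤ C1 * (N : ℝ) ^ (q + 1) :=
      H1 Y hY hYa l R a w N R₀ e 𝒱 ψ g hP hM s hs hc hsN
    have k6 : 0 ≤ 2 * 4 ^ q * (2 * C2) * (N : ℝ) ^ (q + 1) := by positivity
    nlinarith
  · have h1 := crp_sm hψ hs q
    have h2 := smp_le hψ (show 0 < s / 12 by positivity) (show 0 < 2 * s by positivity) q
    have h3 := H2 Y hY hYb l R a w N R₀ e 𝒱 ψ g hP hM (s / 12) (by positivity)
      (MC_one hl hNl hY hYc (c := 24) (by norm_num) le_rfl (by linarith))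
    have h4 := H2 Y hY hYb l R a w N R₀ e 𝒱 ψ g hP hM (2 * s) (by positivity)
      (MC_one hl hNl hY hYc (c := 1) (by norm_num) (by norm_num) (by linarith))
    have h5 : (2:ℝ) * 4 ^ q * smp (s / 12) (2 * s) q ψ
        ≤ 2 * 4 ^ q * (C2 * (N : ℝ) ^ (q + 1) + C2 * (N : ℝ) ^ (q + 1)) :=
      mul_le_mul_of_nonneg_left (by linarith) (by positivity)
    have k6 : 0 ≤ C1 * (N : ℝ) ^ (q + 1) := by positivity
    nlinarith

theorem smearedO (θ cw Kμ : ℝ) (hθ : 1 ≤ θ) (hcw : 0 < cw) (hKμ : 0 ≤ Kμ) (q : ℕ) :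
    ∃ C Y0 : ℝ, 0 < C ∧ 0 < Y0 ∧ ∀ Y : ℝ, 0 < Y → Y < Y0 → ∀ (l R a : ℝ) (w : ℝ → ℝ)
      (N : ℕ) (R₀ e : ℝ) (𝒱 : T3 → ℝ≥0∞) (ψ : (Fin N → T3) → ℂ)
      (g : Fin N → Fin 3 → (Fin N → T3) → ℂ), Par θ cw Kμ Y l R a w N R₀ 𝒱 →
      Mini R₀ 𝒱 (Kμ / l ^ 2) e ψ g →
      ∀ r s : ℝ, 0 < r → 0 < s → 1 ≤ N * (Real.sqrt s) ^ 3 →
        smp r s q ψ ≤ C * (N : ℝ) ^ (q + 1) := by
  obtain ⟨C1, Y1, hC1, hY1, H1⟩ := smeared θ cw Kμ hθ hcw hKμ q
  obtain ⟨C2, Y2, hC2, hY2, H2⟩ := nz_moments θ cw Kμ hθ hcw hKμ (q + 1)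
  refine ⟨C1 + (2 * C2 + 2 * 4 ^ q * (2 * C2)), min (min Y1 Y2) (1 / 200),
    by positivity, lt_min (lt_min hY1 hY2) (by norm_num), ?_⟩
  intro Y hY hYlt l R a w N R₀ e 𝒱 ψ g hP hM r s hr hs hsN
  have hYa : Y < Y1 := hYlt.trans_le ((min_le_left _ _).trans (min_le_left _ _))
  have hYb : Y < Y2 := hYlt.trans_le ((min_le_left _ _).trans (min_le_right _ _))
  have hYc : Y ≤ 1 / 200 := hYlt.le.trans (min_le_right _ _)
  obtain ⟨hl, hNl, hN1⟩ := MC_Nl hY hP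
  have hψ : MemLp ψ 2 (piN (Fin N)) := hM.fe.hg.mem
  have hNp : 0 ≤ (N : ℝ) ^ (q + 1) := by positivity
  have k1 : 0 ≤ C1 * (N : ℝ) ^ (q + 1) := by positivity
  have k2 : 0 ≤ 2 * C2 * (N : ℝ) ^ (q + 1) := by positivity
  have k3 : 0 ≤ 2 * 4 ^ q * (2 * C2) * (N : ℝ) ^ (q + 1) := by positivity
  rcases le_or_gt r (l ^ 2) with hc | hc
  · rcases le_or_gt s (l ^ 2) with hc' | hc'
    · have h1 : smp r s q ψ ≤ C1 * (N : ℝ) ^ (q + 1) :=
        (H1 Y hY hYa l R a w N R₀ e 𝒱 ψ g hP hM s r hs hc' hsN hr hc).1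
      linarith
    · have h1 := smp_sm hψ hr hs q
      have h2 := smp_le hψ (show 0 < r + s / 12 by positivity) (show 0 < 2 * s by positivity) q
      have h3 := H2 Y hY hYb l R a w N R₀ e 𝒱 ψ g hP hM (r + s / 12) (by positivity)
        (MC_one hl hNl hY hYc (c := 12) (by norm_num) (by norm_num) (by linarith))
      have h4 := H2 Y hY hYb l R a w N R₀ e 𝒱 ψ g hP hM (2 * s) (by positivity)
        (MC_one hl hNl hY hYc (c := 1) (by norm_num) (by norm_num) (by linarith))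
      have h5 : (2:ℝ) * 4 ^ q * smp (r + s / 12) (2 * s) q ψ
          ≤ 2 * 4 ^ q * (C2 * (N : ℝ) ^ (q + 1) + C2 * (N : ℝ) ^ (q + 1)) :=
        mul_le_mul_of_nonneg_left (by linarith) (by positivity)
      linarith
  · have h2 := smp_le hψ hr hs q
    have h3 := H2 Y hY hYb l R a w N R₀ e 𝒱 ψ g hP hM r hr
      (MC_one hl hNl hY hYc (c := 1) (by norm_num) (by norm_num) (by linarith))
    have h4 := H2 Y hY hYb l R a w N R₀ e 𝒱 ψ g hP hM s hs hsN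
    linarith

end Pool.Agent.Lib.MP_4952d6_mp.O

end

/-! ### O.MD1 -/

section

/-!
# JOB OM-MD1

`dfm r m W ψ = ∫ q, hk r (q.1 m - q.2) * (‖ψ q.1 - ψ (update q.1 m q.2)‖² * W q.1)` over `(piN ι).prod lam3`.
Tools: `LA/I1.lean` (the private lemmas `i1_int`, `i1_int'`, `i1_asm`, `i1_csP`, `i1_fc`, `i1_sub` show how it is done: `mp_swap lam3 m` (the measure preserving swap of `x m` and `y`), `mp_upd lam3 m`, `measurable_upd m`), `hk_neg`.

`dfm_split`: `‖ψ x - ψ x'‖² ≤ 2 ‖ψ x‖² + 2 ‖ψ x'‖²`, `∫ y, hk r (x m - y) = 1`, and the swap `(x, y) ↦ (update x m y, x m)` for the second term.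

`dfm_lin`: the integrand is integrable for bounded `W` (as in `dfm_split`), monotone in `W`.
-/

set_option autoImplicit false
set_option linter.unusedSectionVars false
set_option linter.unusedVariables false
open MeasureTheory Function Filter Topology Set
open scoped ENNReal

namespace Pool.Agent.Lib.MP_4952d6_mp.O

open LB LA

variable {ι : Type*} [Fintype ι] [DecidableEq ι] {ψ : (ι → T3) → ℂ}

private lemma MD1_hkBM {s : ℝ} (hs : 0 < s) : BM (hk s) := by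
  refine ⟨(hkD_continuous 0 hs).measurable, hk s 0, fun x => ?_⟩
  rw [abs_of_nonneg (hk_nonneg s x)]
  exact hk_le_zero hs x

private lemma MD1_int {K : T3 → ℝ} (hK : BM K) {P : (ι → T3) → ℝ} (hP : BM P)
    {ψ : (ι → T3) → ℂ} (hψ : MemLp ψ 2 (piN ι)) (m : ι) :
    Integrable (fun q : (ι → T3) × T3 =>
      K (q.2 - q.1 m) * P (update q.1 m q.2) * ‖ψ q.1‖ ^ 2) ((piN ι).prod lam3) := by
  have h1 : Integrable (fun q : (ι → T3) × T3 => ‖ψ q.1‖ ^ 2) ((piN ι).prod lam3) :=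
    (hψ.integrable_norm_pow two_ne_zero).comp_fst _
  have hb : BM (fun q : (ι → T3) × T3 => K (q.2 - q.1 m) * P (update q.1 m q.2)) :=
    (hK.comp (measurable_snd.sub ((measurable_pi_apply m).comp measurable_fst))).mul
      (hP.comp (measurable_upd m))
  obtain ⟨C, hC0, hC⟩ := hb.exists_nonneg_bound
  exact h1.bdd_mul hb.meas.aestronglyMeasurable (Eventually.of_forall hC)

private lemma MD1_int' {K : T3 → ℝ} (hK : BM K) {P : (ι → T3) → ℝ} (hP : BM P)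
    {ψ : (ι → T3) → ℂ} (hψ : MemLp ψ 2 (piN ι)) (m : ι) :
    Integrable (fun q : (ι → T3) × T3 =>
      K (q.1 m - q.2) * P q.1 * ‖ψ (update q.1 m q.2)‖ ^ 2) ((piN ι).prod lam3) := by
  have h := (mp_swap lam3 m).integrable_comp_of_integrable (MD1_int hK hP hψ m)
  refine h.congr (Eventually.of_forall fun q => ?_)
  simp only [comp_apply, update_self, update_idem, update_eq_self]

private lemma MD1_int0 {K : T3 → ℝ} (hK : BM K) {P : (ι → T3) → ℝ} (hP : BM P)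
    {ψ : (ι → T3) → ℂ} (hψ : MemLp ψ 2 (piN ι)) (m : ι) :
    Integrable (fun q : (ι → T3) × T3 =>
      K (q.1 m - q.2) * P q.1 * ‖ψ q.1‖ ^ 2) ((piN ι).prod lam3) := by
  have h1 : Integrable (fun q : (ι → T3) × T3 => ‖ψ q.1‖ ^ 2) ((piN ι).prod lam3) :=
    (hψ.integrable_norm_pow two_ne_zero).comp_fst _
  have hb : BM (fun q : (ι → T3) × T3 => K (q.1 m - q.2) * P q.1) :=
    (hK.comp (((measurable_pi_apply m).comp measurable_fst).sub measurable_snd)).mul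
      (hP.comp measurable_fst)
  obtain ⟨C, hC0, hC⟩ := hb.exists_nonneg_bound
  exact h1.bdd_mul hb.meas.aestronglyMeasurable (Eventually.of_forall hC)

private lemma MD1_swap {K : T3 → ℝ} (hK : BM K) {P : (ι → T3) → ℝ} (hP : BM P)
    {ψ : (ι → T3) → ℂ} (hψ : MemLp ψ 2 (piN ι)) (m : ι) :
    ∫ q : (ι → T3) × T3, K (q.1 m - q.2) * P q.1 * ‖ψ (update q.1 m q.2)‖ ^ 2 ∂((piN ι).prod lam3)
      = ∫ y, ∫ x, K (y - x m) * P (update x m y) * ‖ψ x‖ ^ 2 ∂(piN ι) ∂lam3 := by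
  rw [← integral_prod_symm _ (MD1_int hK hP hψ m),
    ← mp_integral (mp_swap lam3 m) (MD1_int hK hP hψ m).aestronglyMeasurable]
  refine integral_congr_ae (Eventually.of_forall fun q => ?_)
  simp only [update_self, update_idem, update_eq_self]

private lemma MD1_first {r : ℝ} (hr : 0 < r) {P : (ι → T3) → ℝ} (hP : BM P)
    {ψ : (ι → T3) → ℂ} (hψ : MemLp ψ 2 (piN ι)) (m : ι) :
    ∫ q : (ι → T3) × T3, hk r (q.1 m - q.2) * P q.1 * ‖ψ q.1‖ ^ 2 ∂((piN ι).prod lam3)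
      = ∫ x, P x * ‖ψ x‖ ^ 2 ∂(piN ι) := by
  rw [integral_prod _ (MD1_int0 (MD1_hkBM hr) hP hψ m)]
  refine integral_congr_ae (Eventually.of_forall fun x => ?_)
  simp only
  have h : ∀ y : T3, hk r (x m - y) * P x * ‖ψ x‖ ^ 2 = hk r (x m - y) * (P x * ‖ψ x‖ ^ 2) :=
    fun y => by ring
  simp_rw [h]
  rw [integral_mul_const, integral_sub_left_eq_self (fun y => hk r y) lam3 (x m), hk_integral hr,
    one_mul]

private lemma MD1_sq (a b : ℂ) : ‖a - b‖ ^ 2 ≤ 2 * ‖a‖ ^ 2 + 2 * ‖b‖ ^ 2 := by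
  have h2 := norm_sub_le a b
  have h3 : ‖a - b‖ ^ 2 ≤ (‖a‖ + ‖b‖) ^ 2 := pow_le_pow_left₀ (norm_nonneg _) h2 2
  have h4 := sq_nonneg (‖a‖ - ‖b‖)
  have h5 : (‖a‖ + ‖b‖) ^ 2 + (‖a‖ - ‖b‖) ^ 2 = 2 * ‖a‖ ^ 2 + 2 * ‖b‖ ^ 2 := by ring
  linarith only [h3, h4, h5]

private lemma MD1_main (hψ : MemLp ψ 2 (piN ι)) {r : ℝ} (hr : 0 < r) (m : ι)
    {W : (ι → T3) → ℝ} (hW : BM W) :
    Integrable (fun q : (ι → T3) × T3 =>
      hk r (q.1 m - q.2) * (‖ψ q.1 - ψ (update q.1 m q.2)‖ ^ 2 * W q.1)) ((piN ι).prod lam3) := by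
  obtain ⟨C, hC0, hC⟩ := hW.exists_nonneg_bound
  have hb := ((MD1_int0 (MD1_hkBM hr) (BM.const C) hψ m).const_mul 2).add
    ((MD1_int' (MD1_hkBM hr) (BM.const C) hψ m).const_mul 2)
  have hm1 : AEStronglyMeasurable (fun q : (ι → T3) × T3 => ψ (update q.1 m q.2))
      ((piN ι).prod lam3) := hψ.1.comp_measurePreserving (mp_upd lam3 m)
  have hm2 : AEStronglyMeasurable (fun q : (ι → T3) × T3 => ψ q.1) ((piN ι).prod lam3) :=
    hψ.1.comp_fst
  have hk1 : AEStronglyMeasurable (fun q : (ι → T3) × T3 => hk r (q.1 m - q.2))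
      ((piN ι).prod lam3) :=
    ((MD1_hkBM hr).meas.comp
      (((measurable_pi_apply m).comp measurable_fst).sub measurable_snd)).aestronglyMeasurable
  have hW1 : AEStronglyMeasurable (fun q : (ι → T3) × T3 => W q.1) ((piN ι).prod lam3) :=
    (hW.meas.comp measurable_fst).aestronglyMeasurable
  refine hb.mono' (hk1.mul (((hm2.sub hm1).norm.pow 2).mul hW1)) (Eventually.of_forall fun q => ?_)
  have h1 := MD1_sq (ψ q.1) (ψ (update q.1 m q.2))
  have h2 : |W q.1| ≤ C := hC q.1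
  rw [Real.norm_eq_abs, abs_mul, abs_mul, abs_of_nonneg (hk_nonneg r _), abs_of_nonneg (sq_nonneg _)]
  have h3 : ‖ψ q.1 - ψ (update q.1 m q.2)‖ ^ 2 * |W q.1|
      ≤ (2 * ‖ψ q.1‖ ^ 2 + 2 * ‖ψ (update q.1 m q.2)‖ ^ 2) * C :=
    mul_le_mul h1 h2 (abs_nonneg _) (by positivity)
  refine (mul_le_mul_of_nonneg_left h3 (hk_nonneg r _)).trans (le_of_eq ?_)
  simp only [Pi.add_apply]
  ring

theorem dfm_split (hψ : MemLp ψ 2 (piN ι)) {r : ℝ} (hr : 0 < r) (m : ι) {W : (ι → T3) → ℝ}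
    (hW : BM W) (hW0 : ∀ x, 0 ≤ W x) :
    dfm r m W ψ ≤ 2 * ∫ x, W x * ‖ψ x‖ ^ 2 ∂(piN ι)
      + 2 * ∫ y, ∫ x, hk r (y - x m) * W (update x m y) * ‖ψ x‖ ^ 2 ∂(piN ι) ∂lam3 := by
  have i1 := MD1_int0 (MD1_hkBM hr) hW hψ m
  have i2 := MD1_int' (MD1_hkBM hr) hW hψ m
  rw [← MD1_first hr hW hψ m, ← MD1_swap (MD1_hkBM hr) hW hψ m, ← integral_const_mul,
    ← integral_const_mul, ← integral_add (i1.const_mul 2) (i2.const_mul 2)]
  unfold dfm
  refine integral_mono (MD1_main hψ hr m hW) ((i1.const_mul 2).add (i2.const_mul 2)) fun q => ?_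
  have h1 := MD1_sq (ψ q.1) (ψ (update q.1 m q.2))
  have h3 := mul_le_mul_of_nonneg_right h1 (hW0 q.1)
  refine (mul_le_mul_of_nonneg_left h3 (hk_nonneg r _)).trans (le_of_eq ?_)
  ring

theorem dfm_lin (hψ : MemLp ψ 2 (piN ι)) {r : ℝ} (hr : 0 < r) (m : ι) {W W₁ W₂ : (ι → T3) → ℝ}
    (hW : BM W) (hW1 : BM W₁) (hW2 : BM W₂) {c₁ c₂ : ℝ} (h : ∀ x, W x ≤ c₁ * W₁ x + c₂ * W₂ x) :
    dfm r m W ψ ≤ c₁ * dfm r m W₁ ψ + c₂ * dfm r m W₂ ψ := by
  have i1 := MD1_main hψ hr m hW1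
  have i2 := MD1_main hψ hr m hW2
  unfold dfm
  rw [← integral_const_mul, ← integral_const_mul, ← integral_add (i1.const_mul c₁) (i2.const_mul c₂)]
  refine integral_mono (MD1_main hψ hr m hW) ((i1.const_mul c₁).add (i2.const_mul c₂)) fun q => ?_
  have h3 := mul_le_mul_of_nonneg_left (h q.1) (sq_nonneg ‖ψ q.1 - ψ (update q.1 m q.2)‖)
  refine (mul_le_mul_of_nonneg_left h3 (hk_nonneg r _)).trans (le_of_eq ?_)
  ring

end Pool.Agent.Lib.MP_4952d6_mp.O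

end

/-! ### O.MD2 -/

section

/-!
# OM-MD2

`dfm r m W ψ = ∫ q, hk r (q.1 m - q.2) * (‖ψ q.1 - ψ (update q.1 m q.2)‖² * W q.1)` over `(piN ι).prod lam3`.
Tools: `LA/I1.lean` (the private lemmas `i1_int`, `i1_int'`, `i1_asm`, `i1_csP`, `i1_fc`, `i1_sub` show how it is done: `mp_swap lam3 m` (the measure preserving swap of `x m` and `y`), `mp_upd lam3 m`, `measurable_upd m`), `hk_neg`.

`MD2_dfm_one`: `dfm r m 1 ψ = 2 ‖ψ‖² - 2 Re ⟨ψ, htj r m ψ⟩ = 2 ∑'_k (1 - exp (-(r ksq (k m)))) ‖fc ψ k‖²`: Parseval (`parseval_sq` and its polarised form, see `LA/I1.lean` and `LB/*.lean`; `fc (htj r m ψ) k = exp (-(r ksq (k m))) fc ψ k`: `grep -rn htj LB LA` for existing lemmas).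
Sum over `m`: definition of `Dm`, `Db`.

`Db_le`: `1 - exp (-(r y)) ≤ K (1 - exp (-(b y)))` for `y = ksq ≥ 0`, `r ≤ K b`, `K ≥ 1`: `1 - exp (-(r y)) ≤ 1 - exp (-(K (b y)))` and `1 - z^K ≤ K (1 - z)` for `z = exp (-(b y)) ∈ (0,1]` (Bernoulli `one_add_mul_self_le_rpow_one_add`, or concavity of `1 - exp (-·)` which vanishes at 0). The series
are summable: `‖fc ψ k‖²` is summable (`ψ ∈ L²`), the weights are in `[0,1]`.
-/

set_option autoImplicit false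
set_option linter.unusedSectionVars false
set_option linter.unusedVariables false
open MeasureTheory Function Filter Topology Set ComplexConjugate
open scoped ENNReal

namespace Pool.Agent.Lib.MP_4952d6_mp.O

open LB LA

variable {ι : Type*} [Fintype ι] [DecidableEq ι] {ψ : (ι → T3) → ℂ}

private lemma MD2_BM {s : ℝ} (hs : 0 < s) : BM (hk s) := by
  refine ⟨(hkD_continuous 0 hs).measurable, hk s 0, fun x => ?_⟩
  rw [abs_of_nonneg (hk_nonneg s x)]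
  exact hk_le_zero hs x

private lemma MD2_int {K : T3 → ℝ} (hK : BM K) (hψ : MemLp ψ 2 (piN ι)) (m : ι) :
    Integrable (fun q : (ι → T3) × T3 => K (q.2 - q.1 m) * ‖ψ q.1‖ ^ 2) ((piN ι).prod lam3) := by
  have h1 : Integrable (fun q : (ι → T3) × T3 => ‖ψ q.1‖ ^ 2) ((piN ι).prod lam3) :=
    (hψ.integrable_norm_pow two_ne_zero).comp_fst _
  have hb : BM (fun q : (ι → T3) × T3 => K (q.2 - q.1 m)) :=
    hK.comp (measurable_snd.sub ((measurable_pi_apply m).comp measurable_fst))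
  obtain ⟨C, hC0, hC⟩ := hb.exists_nonneg_bound
  exact h1.bdd_mul hb.meas.aestronglyMeasurable (Eventually.of_forall hC)

private lemma MD2_intA {K : T3 → ℝ} (hK : BM K) (hψ : MemLp ψ 2 (piN ι)) (m : ι) :
    Integrable (fun q : (ι → T3) × T3 => K (q.1 m - q.2) * ‖ψ q.1‖ ^ 2) ((piN ι).prod lam3) := by
  have h1 : Integrable (fun q : (ι → T3) × T3 => ‖ψ q.1‖ ^ 2) ((piN ι).prod lam3) :=
    (hψ.integrable_norm_pow two_ne_zero).comp_fst _
  have hb : BM (fun q : (ι → T3) × T3 => K (q.1 m - q.2)) :=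
    hK.comp (((measurable_pi_apply m).comp measurable_fst).sub measurable_snd)
  obtain ⟨C, hC0, hC⟩ := hb.exists_nonneg_bound
  exact h1.bdd_mul hb.meas.aestronglyMeasurable (Eventually.of_forall hC)

private lemma MD2_intB {K : T3 → ℝ} (hK : BM K) (hψ : MemLp ψ 2 (piN ι)) (m : ι) :
    Integrable (fun q : (ι → T3) × T3 => K (q.1 m - q.2) * ‖ψ (update q.1 m q.2)‖ ^ 2)
      ((piN ι).prod lam3) := by
  have h := (mp_swap lam3 m).integrable_comp_of_integrable (MD2_int hK hψ m)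
  refine h.congr (Eventually.of_forall fun q => ?_)
  simp only [comp_apply, update_self]

private lemma MD2_asm (hψ : MemLp ψ 2 (piN ι)) (m : ι) :
    AEStronglyMeasurable (fun q : (ι → T3) × T3 => ψ (update q.1 m q.2))
      ((piN ι).prod lam3) :=
  hψ.1.comp_measurePreserving (mp_upd lam3 m)

private lemma MD2_asm1 (hψ : MemLp ψ 2 (piN ι)) :
    AEStronglyMeasurable (fun q : (ι → T3) × T3 => ψ q.1) ((piN ι).prod lam3) :=
  hψ.1.comp_fst

private lemma MD2_K1 {K : T3 → ℝ} (h1 : ∫ y, K y ∂lam3 = 1) (z : T3) :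
    ∫ y, K (z - y) ∂lam3 = 1 := by
  rw [integral_sub_left_eq_self (fun y => K y) lam3 z, h1]

private lemma MD2_K1' {K : T3 → ℝ} (h1 : ∫ y, K y ∂lam3 = 1) (z : T3) :
    ∫ y, K (y - z) ∂lam3 = 1 := by
  rw [integral_sub_right_eq_self (fun y => K y) z, h1]

private lemma MD2_chN (k : ι → Fin 3 → ℤ) (m : ι) (x : ι → T3) (y : T3) :
    chN k (update x m y) = chN k x * ch (k m) (y - x m) := by
  have e : update x m y = x + Pi.single m (y - x m) := by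
    ext1 i
    by_cases hi : i = m
    · subst hi
      simp
    · simp [hi]
  rw [e, chN_add_arg, chN_single]

private lemma MD2_fcK {K : T3 → ℝ} (hK : BM K) (hψ : MemLp ψ 2 (piN ι))
    (m : ι) (k : ι → Fin 3 → ℤ) :
    fc (fun x => ∫ y, (K (x m - y) : ℂ) * ψ (update x m y) ∂lam3) k
      = fc3 (fun x => (K x : ℂ)) (k m) * fc ψ k := by
  have hcm : Measurable (fun x => conj (chN k x)) :=
    (Complex.continuous_conj.comp (chN_continuous k)).measurable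
  have hG : Integrable (fun q : (ι → T3) × T3 =>
      (conj (chN k (update q.1 m q.2)) * (K (q.2 - q.1 m) : ℂ)) * ψ q.1)
      ((piN ι).prod lam3) := by
    have h0 : Integrable (fun q : (ι → T3) × T3 => ψ q.1) ((piN ι).prod lam3) :=
      (hψ.integrable one_le_two).comp_fst _
    obtain ⟨C, hC0, hC⟩ := hK.exists_nonneg_bound
    refine h0.bdd_mul (c := C) ?_ (Eventually.of_forall fun q => ?_)
    · refine Measurable.aestronglyMeasurable ?_
      exact (hcm.comp (measurable_upd m)).mul (Complex.measurable_ofReal.comp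
        (hK.meas.comp (measurable_snd.sub ((measurable_pi_apply m).comp measurable_fst))))
    · rw [norm_mul, RCLike.norm_conj, chN_norm, one_mul, Complex.norm_real]
      exact hC _
  have hG' := (mp_swap lam3 m).integrable_comp_of_integrable hG
  have e1 : fc (fun x => ∫ y, (K (x m - y) : ℂ) * ψ (update x m y) ∂lam3) k
      = ∫ q, (fun q : (ι → T3) × T3 =>
      (conj (chN k (update q.1 m q.2)) * (K (q.2 - q.1 m) : ℂ)) * ψ q.1)
      (update q.1 m q.2, q.1 m) ∂((piN ι).prod lam3) := by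
    refine Eq.trans ?_ (integral_prod _ hG').symm
    unfold fc
    refine integral_congr_ae (Eventually.of_forall fun x => ?_)
    simp only
    rw [← integral_const_mul]
    refine integral_congr_ae (Eventually.of_forall fun y => ?_)
    simp only [comp_apply, update_self, update_idem, update_eq_self]
    ring
  rw [e1, mp_integral (mp_swap lam3 m) hG.aestronglyMeasurable, integral_prod _ hG]
  unfold fc
  rw [← integral_const_mul]
  refine integral_congr_ae (Eventually.of_forall fun x => ?_)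
  simp only [MD2_chN]
  have e2 : ∀ y : T3, conj (chN k x * ch (k m) (y - x m)) * (K (y - x m) : ℂ) * ψ x
      = (conj (chN k x) * ψ x) * (fun z => conj (ch (k m) z) * (K z : ℂ)) (y - x m) := by
    intro y
    simp only [map_mul]
    ring
  simp_rw [e2]
  rw [integral_const_mul, integral_sub_right_eq_self
    (fun z => conj (ch (k m) z) * (K z : ℂ)) (x m)]
  unfold fc3
  ring

private lemma MD2_fc (hψ : MemLp ψ 2 (piN ι)) {r : ℝ} (hr : 0 < r) (m : ι)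
    (k : ι → Fin 3 → ℤ) :
    fc (htj r m ψ) k = ((Real.exp (-(r * ksq (k m))) : ℝ) : ℂ) * fc ψ k := by
  rw [← fc3_hk hr]
  exact MD2_fcK (MD2_BM hr) hψ m k

private lemma MD2_ksq (p : Fin 3 → ℤ) : 0 ≤ ksq p := by
  unfold ksq
  have := mom2_nonneg p
  positivity

private lemma MD2_w0 {r : ℝ} (hr : 0 ≤ r) (p : Fin 3 → ℤ) :
    0 ≤ 1 - Real.exp (-(r * ksq p)) := by
  have h1 := mul_nonneg hr (MD2_ksq p)
  have h2 : Real.exp (-(r * ksq p)) ≤ 1 := Real.exp_le_one_iff.2 (by linarith)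
  linarith

private lemma MD2_w1 (r : ℝ) (p : Fin 3 → ℤ) :
    1 - Real.exp (-(r * ksq p)) ≤ 1 := by
  have h3 := Real.exp_pos (-(r * ksq p))
  linarith

private lemma MD2_sum (hψ : MemLp ψ 2 (piN ι)) {r : ℝ} (hr : 0 ≤ r) (m : ι) :
    Summable fun k : ι → Fin 3 → ℤ => (1 - Real.exp (-(r * ksq (k m)))) * ‖fc ψ k‖ ^ 2 := by
  refine Summable.of_nonneg_of_le (fun k => mul_nonneg (MD2_w0 hr _) (sq_nonneg _)) (fun k => ?_)
    (parseval_sq hψ).summable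
  exact mul_le_of_le_one_left (sq_nonneg _) (MD2_w1 r _)

private lemma MD2_re (a b : ℂ) : ‖a - b‖ ^ 2 = ‖a‖ ^ 2 + ‖b‖ ^ 2 - 2 * (conj a * b).re := by
  rw [← Complex.normSq_eq_norm_sq, ← Complex.normSq_eq_norm_sq, ← Complex.normSq_eq_norm_sq,
    Complex.normSq_sub]
  have e : (a * conj b).re = (conj a * b).re := by
    simp [Complex.mul_re]
  rw [e]

private lemma MD2_one (hψ : MemLp ψ 2 (piN ι)) {r : ℝ} (hr : 0 < r) (m : ι) :
    dfm r m (fun _ => 1) ψ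
      = 2 * ∑' k : ι → Fin 3 → ℤ, (1 - Real.exp (-(r * ksq (k m)))) * ‖fc ψ k‖ ^ 2 := by
  have hK := MD2_BM hr
  have h1 := hk_integral hr
  have hA := MD2_intA hK hψ m
  have hB := MD2_intB hK hψ m
  have hC : Integrable (fun q : (ι → T3) × T3 =>
      conj (ψ q.1) * ((hk r (q.1 m - q.2) : ℂ) * ψ (update q.1 m q.2))) ((piN ι).prod lam3) := by
    have hm : AEStronglyMeasurable (fun q : (ι → T3) × T3 =>
        conj (ψ q.1) * ((hk r (q.1 m - q.2) : ℂ) * ψ (update q.1 m q.2)))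
        ((piN ι).prod lam3) := by
      refine (Complex.continuous_conj.comp_aestronglyMeasurable (MD2_asm1 hψ)).mul
        (AEStronglyMeasurable.mul ?_ (MD2_asm hψ m))
      exact (Complex.measurable_ofReal.comp (hK.meas.comp
        (((measurable_pi_apply m).comp measurable_fst).sub measurable_snd))).aestronglyMeasurable
    refine (hA.add hB).mono' hm (Eventually.of_forall fun q => ?_)
    rw [norm_mul, norm_mul, RCLike.norm_conj, Complex.norm_real,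
      Real.norm_of_nonneg (hk_nonneg r _), Pi.add_apply]
    have h2 : ‖ψ q.1‖ * ‖ψ (update q.1 m q.2)‖ ≤ ‖ψ q.1‖ ^ 2 + ‖ψ (update q.1 m q.2)‖ ^ 2 := by
      nlinarith [sq_nonneg (‖ψ q.1‖ - ‖ψ (update q.1 m q.2)‖), sq_nonneg ‖ψ q.1‖,
        sq_nonneg ‖ψ (update q.1 m q.2)‖]
    have h3 := mul_le_mul_of_nonneg_left h2 (hk_nonneg r (q.1 m - q.2))
    calc ‖ψ q.1‖ * (hk r (q.1 m - q.2) * ‖ψ (update q.1 m q.2)‖)
        = hk r (q.1 m - q.2) * (‖ψ q.1‖ * ‖ψ (update q.1 m q.2)‖) := by ring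
      _ ≤ _ := h3
      _ = _ := by ring
  have eA : ∫ q, hk r (q.1 m - q.2) * ‖ψ q.1‖ ^ 2 ∂((piN ι).prod lam3)
      = ∫ x, ‖ψ x‖ ^ 2 ∂(piN ι) := by
    rw [integral_prod _ hA]
    refine integral_congr_ae (Eventually.of_forall fun x => ?_)
    simp only
    rw [integral_mul_const, MD2_K1 h1, one_mul]
  have eB : ∫ q, hk r (q.1 m - q.2) * ‖ψ (update q.1 m q.2)‖ ^ 2 ∂((piN ι).prod lam3)
      = ∫ x, ‖ψ x‖ ^ 2 ∂(piN ι) := by
    have e := mp_integral (mp_swap lam3 m) (MD2_int hK hψ m).aestronglyMeasurable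
    simp only [update_self] at e
    refine Eq.trans e ?_
    rw [integral_prod _ (MD2_int hK hψ m)]
    refine integral_congr_ae (Eventually.of_forall fun x => ?_)
    simp only
    rw [integral_mul_const, MD2_K1' h1, one_mul]
  have eC : ∫ q, conj (ψ q.1) * ((hk r (q.1 m - q.2) : ℂ) * ψ (update q.1 m q.2))
        ∂((piN ι).prod lam3)
      = ∫ x, conj (ψ x) * htj r m ψ x ∂(piN ι) := by
    rw [integral_prod _ hC]
    refine integral_congr_ae (Eventually.of_forall fun x => ?_)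
    simp only [htj]
    rw [integral_const_mul]
  have hP := parseval hψ (htj_memLp hψ hr m)
  have hQ : HasSum (fun k : ι → Fin 3 → ℤ => Real.exp (-(r * ksq (k m))) * ‖fc ψ k‖ ^ 2)
      (∫ x, conj (ψ x) * htj r m ψ x ∂(piN ι)).re := by
    have h2 := Complex.hasSum_re hP
    have e : (fun k : ι → Fin 3 → ℤ => (conj (fc ψ k) * fc (htj r m ψ) k).re)
        = fun k => Real.exp (-(r * ksq (k m))) * ‖fc ψ k‖ ^ 2 := by
      funext k
      rw [MD2_fc hψ hr m k]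
      have e3 : conj (fc ψ k) * (((Real.exp (-(r * ksq (k m))) : ℝ) : ℂ) * fc ψ k)
          = ((Real.exp (-(r * ksq (k m))) * ‖fc ψ k‖ ^ 2 : ℝ) : ℂ) := by
        have e4 : fc ψ k * conj (fc ψ k) = ((‖fc ψ k‖ ^ 2 : ℝ) : ℂ) := by
          rw [Complex.mul_conj, Complex.normSq_eq_norm_sq]
        calc conj (fc ψ k) * (((Real.exp (-(r * ksq (k m))) : ℝ) : ℂ) * fc ψ k)
            = ((Real.exp (-(r * ksq (k m))) : ℝ) : ℂ) * (fc ψ k * conj (fc ψ k)) := by ring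
          _ = _ := by rw [e4, ← Complex.ofReal_mul]
      rw [e3, Complex.ofReal_re]
    rwa [e] at h2
  have hR : ∑' k : ι → Fin 3 → ℤ, (1 - Real.exp (-(r * ksq (k m)))) * ‖fc ψ k‖ ^ 2
      = ∫ x, ‖ψ x‖ ^ 2 ∂(piN ι) - (∫ x, conj (ψ x) * htj r m ψ x ∂(piN ι)).re := by
    rw [← ((parseval_sq hψ).sub hQ).tsum_eq]
    refine tsum_congr fun k => ?_
    ring
  rw [hR]
  have hre : (∫ q, conj (ψ q.1) * ((hk r (q.1 m - q.2) : ℂ) * ψ (update q.1 m q.2))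
        ∂((piN ι).prod lam3)).re
      = ∫ q, (conj (ψ q.1) * ((hk r (q.1 m - q.2) : ℂ) * ψ (update q.1 m q.2))).re
        ∂((piN ι).prod lam3) := (integral_re hC).symm
  have hCr : Integrable (fun q : (ι → T3) × T3 =>
      (conj (ψ q.1) * ((hk r (q.1 m - q.2) : ℂ) * ψ (update q.1 m q.2))).re)
      ((piN ι).prod lam3) := hC.re
  have hD : dfm r m (fun _ => 1) ψ
      = ∫ q, (hk r (q.1 m - q.2) * ‖ψ q.1‖ ^ 2 + hk r (q.1 m - q.2) * ‖ψ (update q.1 m q.2)‖ ^ 2)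
        - 2 * (conj (ψ q.1) * ((hk r (q.1 m - q.2) : ℂ) * ψ (update q.1 m q.2))).re
        ∂((piN ι).prod lam3) := by
    unfold dfm
    refine integral_congr_ae (Eventually.of_forall fun q => ?_)
    simp only
    rw [mul_one, MD2_re]
    have e5 : (conj (ψ q.1) * ((hk r (q.1 m - q.2) : ℂ) * ψ (update q.1 m q.2))).re
        = hk r (q.1 m - q.2) * (conj (ψ q.1) * ψ (update q.1 m q.2)).re := by
      rw [← Complex.re_ofReal_mul]
      congr 1
      ring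
    rw [e5]
    ring
  have hAB : Integrable (fun q : (ι → T3) × T3 => hk r (q.1 m - q.2) * ‖ψ q.1‖ ^ 2
      + hk r (q.1 m - q.2) * ‖ψ (update q.1 m q.2)‖ ^ 2) ((piN ι).prod lam3) := hA.add hB
  rw [hD, integral_sub hAB (hCr.const_mul 2), integral_add hA hB, eA, eB,
    integral_const_mul, ← hre, eC]
  ring

theorem MD2_dfm_one (hψ : MemLp ψ 2 (piN ι)) {r : ℝ} (hr : 0 < r) :
    ∑ m, dfm r m (fun _ => 1) ψ = 2 * Db r ψ := by
  unfold Db Dm
  rw [Finset.mul_sum]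
  exact Finset.sum_congr rfl fun m _ => MD2_one hψ hr m

/-- Concavity of `1 - exp (-·)`. -/
private lemma MD2_conc {K z : ℝ} (hK : 1 ≤ K) (hz : 0 ≤ z) :
    1 - Real.exp (-(K * z)) ≤ K * (1 - Real.exp (-z)) := by
  have hc := convexOn_exp.2 (Set.mem_univ (-(K * z))) (Set.mem_univ (0 : ℝ))
    (show (0 : ℝ) ≤ 1 / K by positivity) (show (0 : ℝ) ≤ 1 - 1 / K by
      rw [sub_nonneg, div_le_one (by linarith)]; exact hK) (by ring)
  have hK0 : 0 < K := by linarith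
  simp only [smul_eq_mul, mul_zero, add_zero, Real.exp_zero, mul_one] at hc
  have e : 1 / K * -(K * z) = -z := by field_simp
  rw [e] at hc
  have h2 := mul_le_mul_of_nonneg_left hc hK0.le
  have e2 : K * (1 / K * Real.exp (-(K * z)) + (1 - 1 / K)) = Real.exp (-(K * z)) + (K - 1) := by
    field_simp
  rw [e2] at h2
  linarith

theorem Db_le (hψ : MemLp ψ 2 (piN ι)) {r b K : ℝ} (hr : 0 ≤ r) (hb : 0 < b) (hK : 1 ≤ K)
    (h : r ≤ K * b) : Db r ψ ≤ K * Db b ψ := by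
  unfold Db Dm
  rw [Finset.mul_sum]
  refine Finset.sum_le_sum fun m _ => ?_
  rw [← tsum_mul_left]
  refine Summable.tsum_le_tsum (fun k => ?_) (MD2_sum hψ hr m) ((MD2_sum hψ hb.le m).mul_left K)
  rw [← mul_assoc]
  refine mul_le_mul_of_nonneg_right ?_ (sq_nonneg _)
  have h1 := MD2_ksq (k m)
  have h2 : r * ksq (k m) ≤ K * (b * ksq (k m)) := by
    calc r * ksq (k m) ≤ K * b * ksq (k m) := mul_le_mul_of_nonneg_right h h1
      _ = _ := by ring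
  have h3 : Real.exp (-(K * (b * ksq (k m)))) ≤ Real.exp (-(r * ksq (k m))) :=
    Real.exp_le_exp.2 (by linarith)
  have h4 := MD2_conc hK (mul_nonneg hb.le h1)
  linarith

end Pool.Agent.Lib.MP_4952d6_mp.O

end

/-! ### O.MD -/

section

/-! OM: collects MD1, MD2 -/

end

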