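import Pool.Agent.Lib.MP_4952d6_mp.Pk.G34
import Pool.Agent.Lib.MP_4952d6_mp.Pk.G39

/-! Merged modules (to save import time): O.WBase. -/

/-! ### O.WBase -/

section

/-!
# O.WBase: window operators (stream OW), definitions

`N` particles on the unit torus, `HS ι = L²`, `MB G` multiplication, `S1 φ j` one particle multiplier,
`Pz j` projection on the constant function in `x_j`, `PP1 t j` multiplier `exp(-t k²/2)` in `x_j` (kernel
`hk (t/2)`), `qf G f = ∫ G |f|²`.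

For a bounded function `v` on the torus `br v j` is `⟨v|_j` followed by putting particle `j` in the constant
function, `kt u j` is its adjoint for `u`; so `kt u j ∘ br v j = |u⟩⟨v|` on particle `j`.
`rho t θ k j = P_j (e_{-k} θ)(x_j) P_j`, `rf` is its one particle version, `ef t θ k = P (e_k θ)`.
-/

set_option autoImplicit false
set_option linter.unusedSectionVars false
set_option linter.unusedVariables false
open MeasureTheory Function Filter Topology Set ComplexConjugate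

namespace Pool.Agent.Lib.MP_4952d6_mp.O

open LB

/-- Bounded measurable complex function on the torus. -/
def BC (v : T3 → ℂ) : Prop := StronglyMeasurable v ∧ ∃ C : ℝ, ∀ x, ‖v x‖ ≤ C

/-- Convolution of a real kernel with a complex function on the torus. -/
noncomputable def cq (w : T3 → ℝ) (v : T3 → ℂ) (x : T3) : ℂ := ∫ y, (w (x - y) : ℂ) * v y ∂lam3

/-- One particle version of `PP1 t j`. -/
noncomputable def Pf (t : ℝ) (v : T3 → ℂ) : T3 → ℂ := cq (hk (t / 2)) v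

/-- Real version of `Pf`. -/
noncomputable def Pr (t : ℝ) (g : T3 → ℝ) : T3 → ℝ := cn (hk (t / 2)) g

/-- `P e_{-k} θ P` on functions. -/
noncomputable def rf (t : ℝ) (θ : T3 → ℝ) (k : Fin 3 → ℤ) (v : T3 → ℂ) : T3 → ℂ :=
  Pf t (fun x => ch (-k) x * (θ x : ℂ) * Pf t v x)

/-- `P (e_k θ)`. -/
noncomputable def ef (t : ℝ) (θ : T3 → ℝ) (k : Fin 3 → ℤ) : T3 → ℂ :=
  Pf t (fun x => ch k x * (θ x : ℂ))

/-- Scalar product on the torus. -/
noncomputable def ip (u v : T3 → ℂ) : ℂ := ∫ x, conj (u x) * v x ∂lam3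

section ops
variable {ι : Type*} [Fintype ι]

/-- `⟨v|` on particle `j`. -/
noncomputable def br (v : T3 → ℂ) (j : ι) : HS ι →L[ℂ] HS ι :=
  (Pz j).comp (MB fun x => conj (v (x j)))

/-- `|u⟩` on particle `j`. -/
noncomputable def kt (u : T3 → ℂ) (j : ι) : HS ι →L[ℂ] HS ι :=
  (MB fun x => u (x j)).comp (Pz j)

/-- `P e_{-k} θ P` on particle `j`. -/
noncomputable def rho (t : ℝ) (θ : T3 → ℝ) (k : Fin 3 → ℤ) (j : ι) : HS ι →L[ℂ] HS ι :=
  (PP1 t j).comp ((MB fun x => ch (-k) (x j) * (θ (x j) : ℂ)).comp (PP1 t j))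

/-- `∑_j |u⟩⟨v|_j f`. -/
noncomputable def XX (u v : T3 → ℂ) (f : HS ι) : HS ι := ∑ j, kt u j (br v j f)

/-- `∑_j ‖⟨v|_j f‖²`. -/
noncomputable def yy (v : T3 → ℂ) (f : HS ι) : ℝ := ∑ j, ‖br v j f‖ ^ 2

/-- `Re ∑_j ⟪⟨u|_j f, ⟨v|_j f⟫`. -/
noncomputable def zz (u v : T3 → ℂ) (f : HS ι) : ℝ := ∑ j, (inner ℂ (br u j f) (br v j f)).re

/-- `∑_j P e_{-k} θ P f`. -/
noncomputable def RR (t : ℝ) (θ : T3 → ℝ) (k : Fin 3 → ℤ) (f : HS ι) : HS ι := ∑ j, rho t θ k j f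

/-- Twice the real part of `μ_k` (section 4 of the notes, (W2)). -/
noncomputable def mu2 (t : ℝ) (θ : T3 → ℝ) (k : Fin 3 → ℤ) (f : HS ι) : ℝ :=
  zz (fun x => (θ x : ℂ)) (rf t θ k (ef t θ k)) f
    + zz (fun x => (θ x : ℂ)) (rf t θ (-k) (ef t θ (-k))) f
    - zz (rf t θ (-k) (fun x => (θ x : ℂ))) (ef t θ k) f
    - zz (rf t θ k (fun x => (θ x : ℂ))) (ef t θ (-k)) f

end ops

/-- A window: nonnegative, bounded by `S`, `∫ θ = c`, `∫ θ² = 1`. -/
structure Win (θ : T3 → ℝ) (c S : ℝ) : Prop where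
  bm : BM θ
  nn : ∀ x, 0 ≤ θ x
  le : ∀ x, θ x ≤ S
  i1 : ∫ x, θ x ∂lam3 = c
  i2 : ∫ x, θ x ^ 2 ∂lam3 = 1

end Pool.Agent.Lib.MP_4952d6_mp.O

end

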