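import Pool.Agent.Lib.MP_4952d6_mp.Pk.G49
import Pool.Agent.Lib.MP_4952d6_mp.Po.N01
import Pool.Agent.Lib.MP_4952d6_mp.Po.N04
import Pool.Agent.Lib.MP_4952d6_mp.Po.N05

/-! Merged modules (to save import time): O.OC, O.WC2, O.WC5, O.WI1. -/

/-! ### O.OC -/

section

/-!
# The charge block with the two additional properties of the thermodynamic limit

`p4`: on the support of `h`, `KK t h ≤ 2 w - 2a/√(π t/2) + C a (1 + R/t)`; `p5`: `∫_{t/2}^t hk r * h dr ≤ 2a/√(π t/2) - 2a/√(π t) + C a`.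
-/

set_option autoImplicit false
set_option linter.unusedSectionVars false
set_option linter.unusedVariables false
open MeasureTheory Function Filter Topology Set ComplexConjugate

namespace Pool.Agent.Lib.MP_4952d6_mp.O

open LB

/-- `c6_statement` with explicit charge, for a suitable thickness of the shell. -/
theorem oc_explicit : ∃ C : ℝ, 0 ≤ C ∧ ∀ (W f Q : ℝ → ℝ) (R₀ R a : ℝ), Scat W R₀ R a f Q → R ≤ 1 / 8 →
    ∀ δ₁ : ℝ, 0 < δ₁ → ∃ δ : ℝ, 0 < δ ∧ (0 < R₀ → δ ≤ R₀ / 2) ∧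
      ChgD W R₀ R a δ₁ C (hC W R₀ δ f Q) (kC W R₀ f) (wC W R₀ δ f Q a) := by
  obtain ⟨C1, hC1, hE1⟩ := cn_hk_inv_le
  obtain ⟨C2, hC2, hE2⟩ := cn_hk_inv_ge
  refine ⟨10000 + 3 * C1 + 32 * C2, by positivity, fun W f Q R₀ R a h hR δ₁ hδ₁ => ?_⟩
  obtain ⟨δ, hδ, hδ2, hδ3⟩ := ChgF_thick h hδ₁
  have ha := h.a_pos
  have hRp := h.R_pos
  have hSR := hC_SR h hR hδ hδ2
  have hUbm := uC_bm h hR hδ hδ2
  have hsbm : BM (sC a) := sC_bm ha
  have hU0 : ∀ z : T3, 0 ≤ uC W R₀ δ f Q a (rr z) := fun z => uC_nonneg h hR hδ hδ2 (rr_nonneg z)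
  have hwb := wC_bounds h hR hδ hδ2 (fun h0 => (hδ3 h0).trans (min_le_right _ _))
  have hwbm : BM (wC W R₀ δ f Q a) := BM.of_mem_Icc (wC_meas h hδ hδ2) hwb
  have hid : ∀ T, 0 < T → ∀ᵐ z ∂lam3, KI T (hC W R₀ δ f Q) z
      = uC W R₀ δ f Q a (rr z) + KI T (sC a) z - cn (hk T) (fun z => uC W R₀ δ f Q a (rr z)) z :=
    fun T hT => heat_identity hT hSR.bm hsbm hUbm (fc3_uC h hR hδ hδ2)
  -- facts on the support of the charge
  have hsupp : ∀ z : T3, 0 < rr z → hC W R₀ δ f Q z ≠ 0 → rr z ≤ R ∧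
      wC W R₀ δ f Q a z = wE W R₀ δ f Q a (rr z) ∧
      uC W R₀ δ f Q a (rr z) = 2 * wC W R₀ δ f Q a z - 12 * a + 64 * a * rr z ^ 2 := by
    intro z hz0 hz
    have h1 : rr z ≤ R := by
      by_contra hcon
      exact hz (hSR.supp z (not_le.1 hcon))
    have h2 : rr z ≤ 1 / 4 := by linarith
    have h3 : wC W R₀ δ f Q a z = wE W R₀ δ f Q a (rr z) := by
      unfold wC
      rw [if_pos ⟨hz0, h2⟩]
    refine ⟨h1, h3, ?_⟩
    rw [h3]
    exact uC_eq h hR hδ hδ2 hz0.le h2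
  have hr2 : ∀ z : T3, rr z ≤ R → 64 * a * rr z ^ 2 ≤ a := by
    intro z hz
    have h1 : rr z ^ 2 ≤ (1 / 8) ^ 2 := pow_le_pow_left₀ (rr_nonneg z) (hz.trans hR) 2
    linarith only [mul_le_mul_of_nonneg_left h1 ha.le]
  have hKs : ∀ T, 0 ≤ T → ∀ z, 0 ≤ KI T (sC a) z ∧ KI T (sC a) z ≤ T * (384 * a) := fun T hT z =>
    ⟨KI_nonneg hT (sC_nonneg ha) z, KI_le hT hsbm (sC_le ha) z⟩
  have hcU0 : ∀ T z, 0 ≤ cn (hk T) (fun z => uC W R₀ δ f Q a (rr z)) z := fun T z =>
    cn_nonneg (hk_nonneg T) hU0 z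
  have hcU1 : ∀ T, 0 < T → T ≤ 1 → ∀ z,
      cn (hk T) (fun z => uC W R₀ δ f Q a (rr z)) z ≤ C1 * (2 * a) / Real.sqrt T := fun T hT hT1 =>
    hE1 T (2 * a) _ hT hT1 (by positivity) hUbm (fun z hz => uC_le h hR hδ hδ2 hz)
      (fun z hz => (uC_zero h hR hδ hδ2 hz).le)
  refine ⟨δ, hδ, hδ2, hSR, kC_bm h, ?_,
    fun z => by unfold kC; rw [rr_neg], hwbm,
    fun z => (hwb z).1, fun z => (hwb z).2, ?_, ?_, ?_, ?_, ?_⟩
  · -- k_nonneg
    intro z
    unfold kC
    split_ifs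
    · have h1 := h.W_nonneg (rr z)
      positivity
    · exact le_rfl
  · -- out
    intro z hz
    rcases (rr_nonneg z).eq_or_lt with h0 | h0
    · rw [hC_zero h0.symm]
      unfold kC
      rw [if_neg (fun hh => by rw [← h0] at hh; exact lt_irrefl _ hh.2)]
      simp
    · rw [hC_out h hδ hδ2 hz h0]
      unfold kC
      rw [if_pos ⟨hz, h0⟩]
      exact le_of_eq (by ring)
  · -- two
    intro z
    have hh0 := hSR.nonneg z
    rcases (rr_nonneg z).eq_or_lt with h0 | h0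
    · rw [hC_zero h0.symm]
      unfold kC
      rw [if_neg (fun hh => by rw [← h0] at hh; exact lt_irrefl _ hh.2)]
      simp
    · rcases lt_or_ge (rr z) R₀ with h1 | h1
      · have h2 : rr z ≤ 1 / 4 := by linarith [h.R₀_le]
        have hk0 : kC W R₀ f z = 0 := by
          unfold kC
          rw [if_neg (fun hh => absurd hh.1 (not_le.2 h1))]
        have hw : wC W R₀ δ f Q a z ≤ 1 + δ₁ := by
          unfold wC
          rw [if_pos ⟨h0, h2⟩]
          have h3 := wE_core h hR hδ hδ2 h0.le h1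
          have h4 := (hδ3 (h0.trans h1)).trans (min_le_left _ _)
          linarith
        rw [hk0]
        linarith only [mul_le_mul_of_nonneg_left hw hh0]
      · rcases le_or_gt (rr z) (1 / 4) with h2 | h2
        · have hw : wC W R₀ δ f Q a z = 1 - f (rr z) := by
            unfold wC
            rw [if_pos ⟨h0, h2⟩]
            exact wE_eq_one_sub h hR hδ hδ2 h1 h0 h2
          have hk0 : kC W R₀ f z = 2 * W (rr z) * f (rr z) ^ 2 := by
            unfold kC
            rw [if_pos ⟨h1, h0⟩]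
          rw [hk0, hw]
          have h3 := hC_out h hδ hδ2 h1 h0
          have h4 : hC W R₀ δ f Q z * (1 - f (rr z)) = hC W R₀ δ f Q z - 2 * W (rr z) * f (rr z) ^ 2 := by
            rw [h3]; ring
          rw [h4]
          linarith only [mul_nonneg hδ₁.le hh0]
        · have h3 : hC W R₀ δ f Q z = 0 := hSR.supp z (by linarith)
          have hk0 : kC W R₀ f z = 0 := by
            unfold kC
            rw [if_pos ⟨h1, h0⟩, h.W_zero (rr z) (by linarith)]
            ring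
          rw [h3, hk0]
          simp
  · -- p1
    intro t ht ht1 hRt
    filter_upwards [hid (t / 2) (by positivity), ae_rr_pos] with z hz hz0
    by_cases h0 : hC W R₀ δ f Q z = 0
    · rw [h0]; simp
    · obtain ⟨h1, h2, h3⟩ := hsupp z hz0 h0
      refine mul_le_mul_of_nonneg_left ?_ (hSR.nonneg z)
      rw [KK_eq_KI, hz, h3]
      have h4 := (hKs (t / 2) (by positivity) z).2
      have h5 := hcU0 (t / 2) z
      have h6 := hr2 z h1
      have h7 : 0 ≤ (3 * C1 + 32 * C2) * a * t := by positivity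
      linarith only [mul_pos ha ht, h4, h5, h6, h7, ha]
  · -- p2
    intro t ht ht1 hRt
    filter_upwards [hid (t / 2) (by positivity), ae_rr_pos] with z hz hz0
    by_cases h0 : hC W R₀ δ f Q z = 0
    · rw [h0]; simp
    · obtain ⟨h1, h2, h3⟩ := hsupp z hz0 h0
      refine mul_le_mul_of_nonneg_left ?_ (hSR.nonneg z)
      have hs : 0 < Real.sqrt t := Real.sqrt_pos.2 ht
      have hs1 := ChgF_sqrt ht ht1
      have h4 := hKs (t / 2) (by positivity) z
      have h5 := hcU0 (t / 2) z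
      have h5' := hcU1 (t / 2) (by positivity) (by linarith) z
      have h6 := hr2 z h1
      have h6' : 0 ≤ 64 * a * rr z ^ 2 := by positivity
      -- the second time integral
      have h7 : 0 ≤ ∫ u in (t / 2)..t, cn (hk u) (hC W R₀ δ f Q) z :=
        intervalIntegral.integral_nonneg (by linarith) fun u hu => cn_nonneg (hk_nonneg u) hSR.nonneg z
      have h8 : ∫ u in (t / 2)..t, cn (hk u) (hC W R₀ δ f Q) z
          ≤ ∫ u in (t / 2)..t, (27 / 8) * (1 / Real.sqrt t) ^ 3 * (8 * Real.pi * a) :=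
        intervalIntegral.integral_mono_on (by linarith) (cn_hk_int hSR.bm z _ _)
          intervalIntegrable_const fun u hu => ChgF_cn_le hSR ht ht1 hu.1 z
      rw [intervalIntegral.integral_const, smul_eq_mul] at h8
      have hst : t * (1 / Real.sqrt t) ^ 3 = 1 / Real.sqrt t := by
        have : Real.sqrt t ^ 2 = t := Real.sq_sqrt ht.le
        have e : (1 / Real.sqrt t) ^ 3 = 1 / (Real.sqrt t ^ 2 * Real.sqrt t) := by
          rw [div_pow, one_pow, pow_succ]
        rw [e, this]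
        field_simp
      have h9 : (t - t / 2) * ((27 / 8) * (1 / Real.sqrt t) ^ 3 * (8 * Real.pi * a))
          = 27 / 2 * Real.pi * a * (1 / Real.sqrt t) := by
        calc (t - t / 2) * ((27 / 8) * (1 / Real.sqrt t) ^ 3 * (8 * Real.pi * a))
            = 27 / 2 * Real.pi * a * (t * (1 / Real.sqrt t) ^ 3) := by ring
          _ = _ := by rw [hst]
      rw [h9] at h8
      have h10 : 27 / 2 * Real.pi * a * (1 / Real.sqrt t) ≤ 54 * a * (1 / Real.sqrt t) := by
        have hpi := Real.pi_le_four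
        have : 0 ≤ a * (1 / Real.sqrt t) := by positivity
        linarith only [mul_le_mul_of_nonneg_right hpi this]
      have h11 : C1 * (2 * a) / Real.sqrt (t / 2) ≤ 3 * C1 * a * (1 / Real.sqrt t) := by
        have h12 : 2 / 3 * Real.sqrt t ≤ Real.sqrt (t / 2) := by
          refine Real.le_sqrt_of_sq_le ?_
          rw [mul_pow, Real.sq_sqrt ht.le]
          linarith only [ht]
        have h13 : 0 < Real.sqrt (t / 2) := Real.sqrt_pos.2 (by positivity)
        rw [div_le_iff₀ h13]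
        have h14 : 3 * C1 * a * (1 / Real.sqrt t) * (2 / 3 * Real.sqrt t)
            ≤ 3 * C1 * a * (1 / Real.sqrt t) * Real.sqrt (t / 2) :=
          mul_le_mul_of_nonneg_left h12 (by positivity)
        have h15 : 3 * C1 * a * (1 / Real.sqrt t) * (2 / 3 * Real.sqrt t) = C1 * (2 * a) := by
          field_simp
        linarith
      have h16 : a ≤ a * (1 / Real.sqrt t) := le_mul_of_one_le_right ha.le hs1
      have h17 : a * t ≤ a * (1 / Real.sqrt t) := mul_le_mul_of_nonneg_left (ht1.trans hs1) ha.le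
      have h18 : 0 ≤ C1 * a * (1 / Real.sqrt t) := by positivity
      have h19 : 0 ≤ C2 * a * (1 / Real.sqrt t) := by positivity
      have h20 : (10000 + 3 * C1 + 32 * C2) * a / Real.sqrt t
          = 10000 * (a * (1 / Real.sqrt t)) + 3 * (C1 * a * (1 / Real.sqrt t))
            + 32 * (C2 * a * (1 / Real.sqrt t)) := by ring
      rw [h20]
      unfold WT
      rw [KK_eq_KI, hz, h3, abs_le]
      constructor
      · linarith only [h4.1, h4.2, h5, h5', h6, h6', h7, h8, h10, h11, h16, h17, h18, h19, ha]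
      · linarith only [h4.1, h4.2, h5, h5', h6, h6', h7, h8, h10, h11, h16, h17, h18, h19, ha]
  · -- p3
    intro t ht ht1 hRt
    have hs : 0 < Real.sqrt t := Real.sqrt_pos.2 ht
    set hh := hC W R₀ δ f Q with hhdef
    set UU := fun z : T3 => uC W R₀ δ f Q a (rr z) with hUU
    have hf0 : fc3 (fun y => (hh y : ℂ)) 0 = ((8 * Real.pi * a : ℝ) : ℂ) := by
      unfold fc3
      have : ∀ x : T3, conj (ch 0 x) * ((hh x : ℝ) : ℂ) = ((hh x : ℝ) : ℂ) := fun x => by
        rw [ch_zero, map_one, one_mul]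
      simp_rw [this]
      rw [integral_complex_ofReal, hSR.int]
    have hP := KI_parseval ht.le hSR.bm
    have hz0 : HasSum (fun p : Fin 3 → ℤ => t * pz p * ‖fc3 (fun y => (hh y : ℂ)) p‖ ^ 2)
        (t * (8 * Real.pi * a) ^ 2) := by
      have h1 := hasSum_single (f := fun p : Fin 3 → ℤ => t * pz p * ‖fc3 (fun y => (hh y : ℂ)) p‖ ^ 2)
        0 (fun p hp => by
          simp only [pz]
          rw [if_neg hp]
          ring)
      have h2 : t * pz 0 * ‖fc3 (fun y => (hh y : ℂ)) 0‖ ^ 2 = t * (8 * Real.pi * a) ^ 2 := by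
        rw [hf0, Complex.norm_real, Real.norm_eq_abs, sq_abs]
        simp [pz]
      rw [h2] at h1
      exact h1
    have hA := hP.sub hz0
    have hAe : (fun p => (∫ u in (0:ℝ)..t, Real.exp (-(u * ksq p))) * ‖fc3 (fun y => (hh y : ℂ)) p‖ ^ 2
        - t * pz p * ‖fc3 (fun y => (hh y : ℂ)) p‖ ^ 2)
        = fun p => alp t p * ‖fc3 (fun y => (hh y : ℂ)) p‖ ^ 2 := by
      ext p
      rw [← alp_eq_integral]
      ring
    rw [hAe] at hA
    rw [hA.tsum_eq]
    have hKbm := KI_bm ht.le hSR.bm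
    have hI1 : Integrable (fun z => hh z * wC W R₀ δ f Q a z) lam3 := (hSR.bm.mul hwbm).integrable _
    have hI2 : Integrable (fun z => hh z * KI t hh z) lam3 := (hSR.bm.mul hKbm).integrable _
    set L : ℝ := (2 * a) / Real.sqrt (Real.pi * t) - C2 * (2 * a) * (1 + R / t) - 12 * a - 384 * a
      with hL
    have hpt : ∀ᵐ z ∂lam3, hh z * (1 / 2 * L) ≤ hh z * wC W R₀ δ f Q a z - 1 / 2 * (hh z * KI t hh z) := by
      filter_upwards [hid t ht, ae_rr_pos] with z hz hz0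
      by_cases h0 : hh z = 0
      · rw [h0]; simp
      · obtain ⟨h1, h2, h3⟩ := hsupp z hz0 h0
        have e : hh z * wC W R₀ δ f Q a z - 1 / 2 * (hh z * KI t hh z)
            = hh z * (wC W R₀ δ f Q a z - 1 / 2 * KI t hh z) := by ring
        rw [e]
        refine mul_le_mul_of_nonneg_left ?_ (hSR.nonneg z)
        rw [hz, h3]
        have h4 := (hKs t ht.le z).2
        have h6 := hr2 z h1
        have h7 := hE2 t (2 * a) (12 * a) R UU ht ht1 (by positivity) (by positivity) hRp.le hR hRt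
          hUbm hU0 (fun z hz hz' => uC_ge h hR hδ hδ2 hz hz') z h1
        have h8 : t * (384 * a) ≤ 384 * a := mul_le_of_le_one_left (by positivity) ht1
        rw [hL]
        linarith only [h4, h6, h7, h8, ha]
    have hint : ∫ z, hh z * (1 / 2 * L) ∂lam3
        ≤ ∫ z, (hh z * wC W R₀ δ f Q a z - 1 / 2 * (hh z * KI t hh z)) ∂lam3 :=
      integral_mono_ae ((hSR.bm.integrable _).mul_const _) (hI1.sub (hI2.const_mul _)) hpt
    rw [integral_mul_const, hSR.int, integral_sub hI1 (hI2.const_mul _), integral_const_mul] at hint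
    have h1 : 0 ≤ R / t := by positivity
    have h2 : 8 * Real.pi * a ^ 2 / Real.sqrt (Real.pi * t)
        = 8 * Real.pi * a * (1 / 2 * ((2 * a) / Real.sqrt (Real.pi * t))) := by ring
    have h3 : 8 * Real.pi * a * (1 / 2 * (C2 * (2 * a) * (1 + R / t) + 12 * a + 384 * a))
        ≤ (10000 + 3 * C1 + 32 * C2) * a ^ 2 * (1 + R / t) := by
      have hpi := Real.pi_le_four
      have hpi0 := Real.pi_pos
      have ha2 : 0 ≤ a ^ 2 := by positivity
      have h4 : 8 * Real.pi * a * (1 / 2 * (C2 * (2 * a) * (1 + R / t) + 12 * a + 384 * a))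
          = Real.pi * (a ^ 2 * (8 * C2 * (1 + R / t) + 1584)) := by ring
      rw [h4]
      have h5 : 0 ≤ a ^ 2 * (8 * C2 * (1 + R / t) + 1584) := by positivity
      have h6 : Real.pi * (a ^ 2 * (8 * C2 * (1 + R / t) + 1584))
          ≤ 4 * (a ^ 2 * (8 * C2 * (1 + R / t) + 1584)) := mul_le_mul_of_nonneg_right hpi h5
      refine h6.trans ?_
      have h7 : 0 ≤ 3 * C1 * a ^ 2 * (1 + R / t) := by positivity
      have h8 : a ^ 2 ≤ a ^ 2 * (1 + R / t) :=
        le_mul_of_one_le_right ha2 (by linarith only [h1])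
      linarith only [h7, h8, ha2, mul_nonneg ha2 h1]
    have h4 : 0 ≤ t * (8 * Real.pi * a) ^ 2 := by positivity
    have h5 : 8 * Real.pi * a * (1 / 2 * L)
        = 8 * Real.pi * a * (1 / 2 * ((2 * a) / Real.sqrt (Real.pi * t)))
          - 8 * Real.pi * a * (1 / 2 * (C2 * (2 * a) * (1 + R / t) + 12 * a + 384 * a)) := by
      rw [hL]; ring
    rw [h5] at hint
    rw [h2]
    linarith only [hint, h3, h4]


/-- Monotonicity in the constant. -/
lemma oc_mono {W : ℝ → ℝ} {R₀ R a δ₁ C C' : ℝ} {h k w : T3 → ℝ} (ha : 0 < a) (hR : 0 ≤ R)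
    (hC : C ≤ C') (H : ChgD W R₀ R a δ₁ C h k w) : ChgD W R₀ R a δ₁ C' h k w := by
  refine ⟨H.sr, H.k_bm, H.k_nonneg, H.k_even, H.w_bm, H.w_nonneg, H.w_le, H.out, H.two, ?_, ?_, ?_⟩
  · intro t ht ht1 hRt
    filter_upwards [H.p1 t ht ht1 hRt] with z hz
    refine hz.trans (mul_le_mul_of_nonneg_left ?_ (H.sr.nonneg z))
    have : C * a * t ≤ C' * a * t := by gcongr
    linarith
  · intro t ht ht1 hRt
    filter_upwards [H.p2 t ht ht1 hRt] with z hz
    refine hz.trans (mul_le_mul_of_nonneg_left ?_ (H.sr.nonneg z))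
    gcongr
  · intro t ht ht1 hRt
    have h1 := H.p3 t ht ht1 hRt
    have h2 : C * a ^ 2 * (1 + R / t) ≤ C' * a ^ 2 * (1 + R / t) := by
      have : 0 ≤ R / t := by positivity
      gcongr
    linarith

lemma oc_rr_zero : rr (0 : T3) = 0 := by
  have h1 := rr_sq (0 : T3)
  have h2 : ∀ α, crd (0 : T3) α = 0 := fun α => by
    have h3 := abs_crd (0 : T3) α
    rw [Pi.zero_apply, norm_zero] at h3
    exact abs_eq_zero.1 h3
  simp only [h2] at h1
  have h4 : rr (0 : T3) ^ 2 = 0 := by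
    rw [h1]
    simp
  exact (pow_eq_zero_iff two_ne_zero).1 h4

/-- The heat kernel at `0` up to a constant. -/
lemma oc_hk : ∃ C : ℝ, 0 ≤ C ∧ ∀ r : ℝ, 0 < r → r ≤ 1 → ∀ x : T3,
    hk r x ≤ (Real.sqrt (4 * Real.pi * r))⁻¹ ^ 3 + C := by
  obtain ⟨C, hC0, hC⟩ := hk_sub_gam_le
  refine ⟨C, hC0, fun r hr hr1 x => ?_⟩
  have h0 := oc_rr_zero
  have h1 := hC r hr hr1 0 (by rw [h0]; norm_num)
  have h2 := hk_le_zero hr x
  have h3 : gam r (rr 0) = (Real.sqrt (4 * Real.pi * r))⁻¹ ^ 3 := by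
    unfold gam
    rw [h0]
    simp
  rw [h3] at h1
  have h4 : C * Real.exp (-(1 / (32 * r))) ≤ C * 1 := by
    refine mul_le_mul_of_nonneg_left (Real.exp_le_one_iff.2 ?_) hC0
    have : 0 < 1 / (32 * r) := by positivity
    linarith
  linarith

/-- The heat flow of a charge. -/
lemma oc_cn {H R C : ℝ} {g : T3 → ℝ} (hg : SR H R g) (hC0 : 0 ≤ C)
    (hC : ∀ r : ℝ, 0 < r → r ≤ 1 → ∀ x : T3, hk r x ≤ (Real.sqrt (4 * Real.pi * r))⁻¹ ^ 3 + C)
    {r : ℝ} (hr : 0 < r) (hr1 : r ≤ 1) (z : T3) :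
    cn (hk r) g z ≤ ((Real.sqrt (4 * Real.pi * r))⁻¹ ^ 3 + C) * H := by
  unfold cn
  have hbm : BM fun y => hk r (z - y) * g y :=
    ((hk_bm hr).comp (measurable_const.sub measurable_id)).mul hg.bm
  have h5 : ∫ y, hk r (z - y) * g y ∂lam3
      ≤ ∫ y, ((Real.sqrt (4 * Real.pi * r))⁻¹ ^ 3 + C) * g y ∂lam3 :=
    integral_mono (hbm.integrable _) ((hg.bm.integrable _).const_mul _)
      fun y => mul_le_mul_of_nonneg_right (hC r hr hr1 _) (hg.nonneg y)
  rw [integral_const_mul, hg.int] at h5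
  exact h5

/-- Derivative of `-1/√r`. -/
lemma oc_deriv {r : ℝ} (hr : 0 < r) :
    HasDerivAt (fun r => -(2 / Real.sqrt (Real.pi * r)))
      (8 * Real.pi * (Real.sqrt (4 * Real.pi * r))⁻¹ ^ 3) r := by
  have hpi := Real.pi_pos
  have h0 : 0 < Real.pi * r := by positivity
  have hs : 0 < Real.sqrt (Real.pi * r) := Real.sqrt_pos.2 h0
  have hs2 : Real.sqrt (Real.pi * r) ^ 2 = Real.pi * r := Real.sq_sqrt h0.le
  have h1 : HasDerivAt (fun r : ℝ => Real.pi * r) Real.pi r := by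
    simpa using (hasDerivAt_id r).const_mul Real.pi
  have h2 := (h1.sqrt h0.ne').fun_inv hs.ne'
  have h3 : HasDerivAt (fun r => -(2 / Real.sqrt (Real.pi * r)))
      (-(2 * (-(Real.pi / (2 * Real.sqrt (Real.pi * r))) / Real.sqrt (Real.pi * r) ^ 2))) r := by
    have h4 := (h2.const_mul 2).neg
    refine h4.congr_of_eventuallyEq (Eventually.of_forall fun x => ?_)
    simp [div_eq_mul_inv]
  refine h3.congr_deriv ?_
  have e4 : Real.sqrt (4 * Real.pi * r) = 2 * Real.sqrt (Real.pi * r) := by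
    rw [show 4 * Real.pi * r = 2 ^ 2 * (Real.pi * r) by ring, Real.sqrt_mul (by norm_num),
      Real.sqrt_sq (by norm_num)]
  rw [e4]
  field_simp
  norm_num

theorem oc_statement : OCStatement := by
  obtain ⟨C0, hC00, hE0⟩ := oc_explicit
  obtain ⟨C2, hC2, hE2⟩ := cn_hk_inv_ge
  obtain ⟨C3, hC3, hE3⟩ := oc_hk
  refine ⟨C0 + 4 * C2 + 8 * Real.pi * C3 + 200, by positivity, fun W f Q R₀ R a h hR δ₁ hδ₁ => ?_⟩
  obtain ⟨δ, hδ, hδ2, H⟩ := hE0 W f Q R₀ R a h hR δ₁ hδ₁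
  have ha := h.a_pos
  have hRp := h.R_pos
  have hpi := Real.pi_pos
  have hSR := hC_SR h hR hδ hδ2
  have hUbm := uC_bm h hR hδ hδ2
  have hsbm : BM (sC a) := sC_bm ha
  have hU0 : ∀ z : T3, 0 ≤ uC W R₀ δ f Q a (rr z) := fun z => uC_nonneg h hR hδ hδ2 (rr_nonneg z)
  have hid : ∀ T, 0 < T → ∀ᵐ z ∂lam3, KI T (hC W R₀ δ f Q) z
      = uC W R₀ δ f Q a (rr z) + KI T (sC a) z - cn (hk T) (fun z => uC W R₀ δ f Q a (rr z)) z :=
    fun T hT => heat_identity hT hSR.bm hsbm hUbm (fc3_uC h hR hδ hδ2)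
  have hsupp : ∀ z : T3, 0 < rr z → hC W R₀ δ f Q z ≠ 0 → rr z ≤ R ∧
      uC W R₀ δ f Q a (rr z) = 2 * wC W R₀ δ f Q a z - 12 * a + 64 * a * rr z ^ 2 := by
    intro z hz0 hz
    have h1 : rr z ≤ R := by
      by_contra hcon
      exact hz (hSR.supp z (not_le.1 hcon))
    have h2 : rr z ≤ 1 / 4 := by linarith
    have h3 : wC W R₀ δ f Q a z = wE W R₀ δ f Q a (rr z) := by
      unfold wC
      rw [if_pos ⟨hz0, h2⟩]
    refine ⟨h1, ?_⟩
    rw [h3]
    exact uC_eq h hR hδ hδ2 hz0.le h2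
  have hr2 : ∀ z : T3, rr z ≤ R → 64 * a * rr z ^ 2 ≤ a := by
    intro z hz
    have h1 : rr z ^ 2 ≤ (1 / 8) ^ 2 := pow_le_pow_left₀ (rr_nonneg z) (hz.trans hR) 2
    linarith only [mul_le_mul_of_nonneg_left h1 ha.le]
  refine ⟨hC W R₀ δ f Q, kC W R₀ f, wC W R₀ δ f Q a, ⟨oc_mono ha hRp.le ?_ H, ?_, ?_⟩⟩
  · have : 0 ≤ 4 * C2 + 8 * Real.pi * C3 + 200 := by positivity
    linarith
  · -- p4
    intro t ht ht1 hRt
    filter_upwards [hid (t / 2) (by positivity), ae_rr_pos] with z hz hz0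
    by_cases h0 : hC W R₀ δ f Q z = 0
    · rw [h0]; simp
    · obtain ⟨h1, h3⟩ := hsupp z hz0 h0
      refine mul_le_mul_of_nonneg_left ?_ (hSR.nonneg z)
      rw [KK_eq_KI, hz, h3]
      have h4 := KI_le (T := t / 2) (by positivity) hsbm (sC_le ha) z
      have h6 := hr2 z h1
      have h7 := hE2 (t / 2) (2 * a) (12 * a) R (fun z : T3 => uC W R₀ δ f Q a (rr z))
        (by positivity) (by linarith) (by positivity) (by positivity) hRp.le hR hRt hUbm hU0
        (fun z hz hz' => uC_ge h hR hδ hδ2 hz hz') z h1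
      have h8 : R / (t / 2) = 2 * (R / t) := by field_simp
      rw [h8] at h7
      have h9 : 0 ≤ R / t := by positivity
      have h10 : 0 ≤ C2 * a := by positivity
      have h11 : 0 ≤ C2 * a * (R / t) := by positivity
      have h12 : 0 ≤ a * (R / t) := by positivity
      have h13 : 0 ≤ (C0 + 8 * Real.pi * C3) * a * (1 + R / t) := by positivity
      have h14 : t / 2 * (384 * a) ≤ 192 * a := by
        have := mul_le_mul_of_nonneg_right ht1 ha.le
        linarith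
      linarith only [h4, h6, h7, h10, h11, h12, h13, h14, ha]
  · -- p5
    intro t ht ht1 z
    have ht2 : 0 < t / 2 := by positivity
    have h12 : t / 2 ≤ t := by linarith
    have hb : ∀ r ∈ Icc (t / 2) t, cn (hk r) (hC W R₀ δ f Q) z
        ≤ a * (8 * Real.pi * (Real.sqrt (4 * Real.pi * r))⁻¹ ^ 3) + 8 * Real.pi * C3 * a := by
      intro r hr
      have := oc_cn hSR hC3 hE3 (ht2.trans_le hr.1) (hr.2.trans ht1) z
      linarith
    have hcon : ContinuousOn (fun r : ℝ => 8 * Real.pi * (Real.sqrt (4 * Real.pi * r))⁻¹ ^ 3)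
        (Icc (t / 2) t) := by
      intro r hr
      have hr0 : 0 < r := ht2.trans_le hr.1
      have h0 : Real.sqrt (4 * Real.pi * r) ≠ 0 := (Real.sqrt_pos.2 (by positivity)).ne'
      have h1 : ContinuousAt (fun r : ℝ => Real.sqrt (4 * Real.pi * r)) r := by fun_prop
      exact (((h1.inv₀ h0).pow 3).const_mul (8 * Real.pi)).continuousWithinAt
    have hii : IntervalIntegrable (fun r : ℝ => 8 * Real.pi * (Real.sqrt (4 * Real.pi * r))⁻¹ ^ 3)
        volume (t / 2) t := by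
      refine ContinuousOn.intervalIntegrable ?_
      rwa [uIcc_of_le h12]
    have h1 : ∫ r in (t / 2)..t, cn (hk r) (hC W R₀ δ f Q) z
        ≤ ∫ r in (t / 2)..t, (a * (8 * Real.pi * (Real.sqrt (4 * Real.pi * r))⁻¹ ^ 3)
          + 8 * Real.pi * C3 * a) :=
      intervalIntegral.integral_mono_on h12 (cn_hk_int hSR.bm z _ _)
        ((hii.const_mul a).add intervalIntegrable_const) hb
    have h2 : ∫ r in (t / 2)..t, 8 * Real.pi * (Real.sqrt (4 * Real.pi * r))⁻¹ ^ 3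
        = -(2 / Real.sqrt (Real.pi * t)) - -(2 / Real.sqrt (Real.pi * (t / 2))) := by
      exact intervalIntegral.integral_eq_sub_of_hasDerivAt
        (f := fun r => -(2 / Real.sqrt (Real.pi * r))) (fun r hr => by
          rw [uIcc_of_le h12] at hr
          exact oc_deriv (ht2.trans_le hr.1)) hii
    rw [intervalIntegral.integral_add (hii.const_mul a) intervalIntegrable_const,
      intervalIntegral.integral_const_mul, h2, intervalIntegral.integral_const, smul_eq_mul] at h1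
    refine h1.trans ?_
    have h3 : (t - t / 2) * (8 * Real.pi * C3 * a) ≤ 8 * Real.pi * C3 * a := by
      have h4 : t - t / 2 ≤ 1 := by linarith
      have h5 : 0 ≤ 8 * Real.pi * C3 * a := by positivity
      have := mul_le_mul_of_nonneg_right h4 h5
      linarith
    have h4 : 0 ≤ (C0 + 4 * C2 + 200) * a := by positivity
    have h5 : a * (-(2 / Real.sqrt (Real.pi * t)) - -(2 / Real.sqrt (Real.pi * (t / 2))))
        = 2 * a / Real.sqrt (Real.pi * (t / 2)) - 2 * a / Real.sqrt (Real.pi * t) := by ring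
    rw [h5]
    linarith

end Pool.Agent.Lib.MP_4952d6_mp.O

end

/-! ### O.WC2 -/

section

/-! # O.WC2: localisation error for `br`

`ims_scalar`: write `cos (η0 + η) = cos η0 cos η - sin η0 sin η`, `C = Σ_j ∫ a_j cos η_j`, `D = Σ_j ∫ a_j sin η_j`; then
`‖cos η0 C - sin η0 D‖² ≤ (cos² + sin²)(‖C‖² + ‖D‖²)`; `‖D‖ ≤ δ I` with `I = Σ_j ∫ ‖a_j‖` (`|sin η| ≤ |η|`) and
`‖C‖ ≤ ‖A‖ + (δ²/2) I`, `A = Σ_j ∫ a_j` (`1 - cos η ≤ η²/2`, `Real.one_sub_sq_div_two_le_cos`), `‖A‖ ≤ I`. So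
`‖C‖² + ‖D‖² ≤ ‖A‖² + δ² I² + (δ⁴/4) I² + δ² I² ≤ ‖A‖² + 3 δ² I²` for `δ ≤ 1`.
`ims_br`: `br_ae` for `MB (cos h) f` and for `f` (`MB_ae` under the integral: `mp_upd`), `h (update x j y) = h x + η y` with `|η y| ≤ δ`;
`ims_scalar` with `ι = Unit`, `X = T3`, `a y = conj (v y) f (update x j y)` (integrable for a.e. `x`: `Ker_sec`), then
`(∫ ‖v‖ ‖f (update x j ·)‖)² ≤ (∫ g) ∫ g y ‖f (update x j y)‖² dy` (`Ker_cs`) and integrate over `x` with `integral_upd`. -/

set_option autoImplicit false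
set_option linter.unusedSectionVars false
set_option linter.unusedVariables false
open MeasureTheory Function Filter Topology Set ComplexConjugate

namespace Pool.Agent.Lib.MP_4952d6_mp.O

open LB

/-- `h` changes by at most `δ` if one particle is moved. -/
def OsW {ι : Type*} [DecidableEq ι] (h : (ι → T3) → ℝ) (δ : ℝ) : Prop :=
  Measurable h ∧ ∀ x j y, |h (update x j y) - h x| ≤ δ

lemma WC2_real {A C D I δ c s : ℝ} (hA : 0 ≤ A) (hC : 0 ≤ C) (hD : 0 ≤ D) (hδ0 : 0 ≤ δ)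
    (hδ : δ ≤ 1) (hI : A ≤ I) (hCA : C ≤ A + δ ^ 2 / 2 * I) (hDI : D ≤ δ * I)
    (hcs : c ^ 2 + s ^ 2 = 1) :
    (|c| * C + |s| * D) ^ 2 ≤ A ^ 2 + 3 * δ ^ 2 * I ^ 2 := by
  have hI0 : 0 ≤ I := hA.trans hI
  have h1 : (|c| * C + |s| * D) ^ 2 ≤ C ^ 2 + D ^ 2 := by
    have h2 : C ^ 2 + D ^ 2 - (|c| * C + |s| * D) ^ 2 = (|s| * C - |c| * D) ^ 2 := by
      have h3 : C ^ 2 + D ^ 2 = (|c| ^ 2 + |s| ^ 2) * (C ^ 2 + D ^ 2) := by
        rw [sq_abs, sq_abs, hcs, one_mul]
      rw [h3]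
      ring
    nlinarith [sq_nonneg (|s| * C - |c| * D)]
  have hd2 : δ ^ 2 ≤ 1 := pow_le_one₀ hδ0 hδ
  have hI2 : 0 ≤ I ^ 2 := sq_nonneg I
  have h4 : C ^ 2 ≤ (A + δ ^ 2 / 2 * I) ^ 2 := pow_le_pow_left₀ hC hCA 2
  have h5 : D ^ 2 ≤ (δ * I) ^ 2 := pow_le_pow_left₀ hD hDI 2
  have h6 : A * I ≤ I ^ 2 := by nlinarith
  have h7 : δ ^ 2 * (A * I) ≤ δ ^ 2 * I ^ 2 := mul_le_mul_of_nonneg_left h6 (sq_nonneg δ)
  have h8 : δ ^ 2 * (δ ^ 2 * I ^ 2) ≤ 1 * (δ ^ 2 * I ^ 2) :=
    mul_le_mul_of_nonneg_right hd2 (by positivity)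
  have h9 : 0 ≤ δ ^ 2 * I ^ 2 := by positivity
  nlinarith

theorem ims_scalar {X : Type*} [MeasurableSpace X] (μ : Measure X) {κ : Type*} [Fintype κ]
    (a : κ → X → ℂ) (ha : ∀ j, Integrable (a j) μ) (η : κ → X → ℝ) (hη : ∀ j, Measurable (η j))
    {δ : ℝ} (hδ : δ ≤ 1) (hb : ∀ j x, |η j x| ≤ δ) (η0 : ℝ) :
    ‖∑ j, ∫ x, a j x * ((Real.cos (η0 + η j x) : ℝ) : ℂ) ∂μ‖ ^ 2
      ≤ ‖∑ j, ∫ x, a j x ∂μ‖ ^ 2 + 3 * δ ^ 2 * (∑ j, ∫ x, ‖a j x‖ ∂μ) ^ 2 := by
  classical
  set d : ℝ := max δ 0 with hd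
  have hd0 : 0 ≤ d := le_max_right _ _
  have hd1 : d ≤ 1 := max_le hδ zero_le_one
  have hdd : d ^ 2 ≤ δ ^ 2 := by
    rcases le_total δ 0 with h | h
    · rw [hd, max_eq_right h]
      have := sq_nonneg δ
      simpa using this
    · rw [hd, max_eq_left h]
  have hb' : ∀ j x, |η j x| ≤ d := fun j x => (hb j x).trans (le_max_left _ _)
  have mcos : ∀ j, StronglyMeasurable fun x => ((Real.cos (η j x) : ℝ) : ℂ) := fun j =>
    (Complex.measurable_ofReal.comp (Real.measurable_cos.comp (hη j))).stronglyMeasurable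
  have msin : ∀ j, StronglyMeasurable fun x => ((Real.sin (η j x) : ℝ) : ℂ) := fun j =>
    (Complex.measurable_ofReal.comp (Real.measurable_sin.comp (hη j))).stronglyMeasurable
  have icos : ∀ j, Integrable (fun x => a j x * ((Real.cos (η j x) : ℝ) : ℂ)) μ := by
    intro j
    refine (ha j).mul_bdd (c := 1) (mcos j).aestronglyMeasurable (Eventually.of_forall fun x => ?_)
    rw [Complex.norm_real, Real.norm_eq_abs]
    exact Real.abs_cos_le_one _
  have isin : ∀ j, Integrable (fun x => a j x * ((Real.sin (η j x) : ℝ) : ℂ)) μ := by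
    intro j
    refine (ha j).mul_bdd (c := 1) (msin j).aestronglyMeasurable (Eventually.of_forall fun x => ?_)
    rw [Complex.norm_real, Real.norm_eq_abs]
    exact Real.abs_sin_le_one _
  set A : ℂ := ∑ j, ∫ x, a j x ∂μ with hA
  set C : ℂ := ∑ j, ∫ x, a j x * ((Real.cos (η j x) : ℝ) : ℂ) ∂μ with hC
  set D : ℂ := ∑ j, ∫ x, a j x * ((Real.sin (η j x) : ℝ) : ℂ) ∂μ with hD
  set I : ℝ := ∑ j, ∫ x, ‖a j x‖ ∂μ with hI
  have hAI : ‖A‖ ≤ I :=
    (norm_sum_le _ _).trans (Finset.sum_le_sum fun j _ => norm_integral_le_integral_norm _)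
  have hDI : ‖D‖ ≤ d * I := by
    rw [hI, Finset.mul_sum]
    refine (norm_sum_le _ _).trans (Finset.sum_le_sum fun j _ => ?_)
    rw [← integral_const_mul]
    refine norm_integral_le_of_norm_le ((ha j).norm.const_mul d) (Eventually.of_forall fun x => ?_)
    rw [norm_mul, Complex.norm_real, Real.norm_eq_abs, mul_comm]
    exact mul_le_mul_of_nonneg_right ((Real.abs_sin_le_abs).trans (hb' j x)) (norm_nonneg _)
  have hCA : ‖C - A‖ ≤ d ^ 2 / 2 * I := by
    rw [hC, hA, ← Finset.sum_sub_distrib, hI, Finset.mul_sum]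
    refine (norm_sum_le _ _).trans (Finset.sum_le_sum fun j _ => ?_)
    rw [← integral_const_mul, ← integral_sub (icos j) (ha j)]
    refine norm_integral_le_of_norm_le ((ha j).norm.const_mul _) (Eventually.of_forall fun x => ?_)
    have h1 : a j x * ((Real.cos (η j x) : ℝ) : ℂ) - a j x
        = a j x * ((Real.cos (η j x) - 1 : ℝ) : ℂ) := by
      push_cast
      ring
    rw [h1, norm_mul, Complex.norm_real, Real.norm_eq_abs, mul_comm]
    refine mul_le_mul_of_nonneg_right ?_ (norm_nonneg _)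
    have h2 := Real.one_sub_sq_div_two_le_cos (x := η j x)
    have h3 := Real.cos_le_one (η j x)
    have h4 : η j x ^ 2 ≤ d ^ 2 := sq_le_sq' (by linarith [(abs_le.1 (hb' j x)).1])
      (abs_le.1 (hb' j x)).2
    rw [abs_le]
    constructor <;> linarith
  have hCA' : ‖C‖ ≤ ‖A‖ + d ^ 2 / 2 * I := by
    have h1 : ‖C‖ ≤ ‖C - A‖ + ‖A‖ := by
      have h2 := norm_add_le (C - A) A
      rwa [sub_add_cancel] at h2
    linarith
  have hL : ∑ j, ∫ x, a j x * ((Real.cos (η0 + η j x) : ℝ) : ℂ) ∂μ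
      = ((Real.cos η0 : ℝ) : ℂ) * C - ((Real.sin η0 : ℝ) : ℂ) * D := by
    rw [hC, hD, Finset.mul_sum, Finset.mul_sum, ← Finset.sum_sub_distrib]
    refine Finset.sum_congr rfl fun j _ => ?_
    rw [← integral_const_mul, ← integral_const_mul,
      ← integral_sub ((icos j).const_mul _) ((isin j).const_mul _)]
    refine integral_congr_ae (Eventually.of_forall fun x => ?_)
    simp only
    rw [Real.cos_add]
    push_cast
    ring
  have h1 : ‖∑ j, ∫ x, a j x * ((Real.cos (η0 + η j x) : ℝ) : ℂ) ∂μ‖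
      ≤ |Real.cos η0| * ‖C‖ + |Real.sin η0| * ‖D‖ := by
    rw [hL]
    refine (norm_sub_le _ _).trans (le_of_eq ?_)
    rw [norm_mul, norm_mul, Complex.norm_real, Complex.norm_real, Real.norm_eq_abs, Real.norm_eq_abs]
  have h2 := WC2_real (norm_nonneg A) (norm_nonneg C) (norm_nonneg D) hd0 hd1 hAI hCA' hDI
    (Real.cos_sq_add_sin_sq η0)
  refine (pow_le_pow_left₀ (norm_nonneg _) h1 2).trans (h2.trans ?_)
  have h3 := mul_le_mul_of_nonneg_right hdd (sq_nonneg I)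
  linarith

variable {ι : Type*} [Fintype ι] [DecidableEq ι]

lemma WC2_bmc {h : (ι → T3) → ℝ} (hh : Measurable h) :
    BMC (fun x => ((Real.cos (h x) : ℝ) : ℂ)) := by
  refine ⟨(Complex.measurable_ofReal.comp (Real.measurable_cos.comp hh)).stronglyMeasurable, 1,
    fun x => ?_⟩
  rw [Complex.norm_real, Real.norm_eq_abs]
  exact Real.abs_cos_le_one _

theorem ims_br {v : T3 → ℂ} (hv : BC v) {g : T3 → ℝ} (hg : BM g) (hvg : ∀ y, ‖v y‖ ≤ g y)
    {h : (ι → T3) → ℝ} {δ : ℝ} (hh : OsW h δ) (hδ : δ ≤ 1) (j : ι) (f : HS ι) :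
    ‖br v j (MB (fun x => ((Real.cos (h x) : ℝ) : ℂ)) f)‖ ^ 2
      ≤ ‖br v j f‖ ^ 2 + 3 * δ ^ 2 * ((∫ y, g y ∂lam3) * qf (fun x => g (x j)) f) := by
  have hG := WC2_bmc hh.1
  have hg0 : ∀ y, 0 ≤ g y := fun y => (norm_nonneg _).trans (hvg y)
  have hgi : BM (fun x : ι → T3 => g (x j)) := hg.comp (measurable_pi_apply j)
  set F : HS ι := MB (fun x => ((Real.cos (h x) : ℝ) : ℂ)) f with hF
  have hae1 := br_ae hv j F
  have hae2 := br_ae hv j f
  have hae3 : ∀ᵐ x ∂(piN ι), ∀ᵐ y ∂lam3,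
      F (update x j y) = ((Real.cos (h (update x j y)) : ℝ) : ℂ) * f (update x j y) := by
    have h1 : ∀ᵐ q : (ι → T3) × T3 ∂((piN ι).prod lam3), F (update q.1 j q.2)
        = ((Real.cos (h (update q.1 j q.2)) : ℝ) : ℂ) * f (update q.1 j q.2) :=
      (LB.mp_upd (ι := ι) j).quasiMeasurePreserving.ae (MB_ae hG f)
    exact Measure.ae_ae_of_ae_prod h1
  have hK : BM (fun q : (ι → T3) × T3 => g q.2) := hg.comp measurable_snd
  have hi : Integrable (fun x => g (x j) * ‖f x‖ ^ 2) (piN ι) := qf_int hgi f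
  have hi2 : Integrable (fun q : (ι → T3) × T3 => g q.2 * ‖f (update q.1 j q.2)‖ ^ 2)
      ((piN ι).prod lam3) := by
    have h1 := (LB.mp_upd (ι := ι) j).integrable_comp_of_integrable hi
    refine h1.congr (Eventually.of_forall fun q => ?_)
    simp only [Function.comp]
    rw [update_self]
  have hval : ∫ x, ∫ y, g y * ‖f (update x j y)‖ ^ 2 ∂lam3 ∂(piN ι) = qf (fun x => g (x j)) f := by
    unfold qf
    rw [← integral_upd j hi]
    refine integral_congr_ae (Eventually.of_forall fun x => ?_)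
    simp only
    refine integral_congr_ae (Eventually.of_forall fun y => ?_)
    simp only
    rw [update_self]
  have hrhs : ‖br v j f‖ ^ 2 + 3 * δ ^ 2 * ((∫ y, g y ∂lam3) * qf (fun x => g (x j)) f)
      = ∫ x, (‖(br v j f : (ι → T3) → ℂ) x‖ ^ 2
        + 3 * δ ^ 2 * ((∫ y, g y ∂lam3) * ∫ y, g y * ‖f (update x j y)‖ ^ 2 ∂lam3)) ∂(piN ι) := by
    rw [integral_add (integrable_norm_sq (br v j f))
      ((hi2.integral_prod_left.const_mul _).const_mul _), integral_const_mul, integral_const_mul,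
      hval, norm_sq_eq]
  rw [hrhs, norm_sq_eq]
  refine integral_mono_of_nonneg (Eventually.of_forall fun x => sq_nonneg _)
    ((integrable_norm_sq (br v j f)).add
      ((hi2.integral_prod_left.const_mul _).const_mul _)) ?_
  filter_upwards [hae1, hae2, hae3, Ker_sec f j] with x h1 h2 h3 h4
  have hsm := Ker_sec_sm f j x
  have hfi : Integrable (fun y => f (update x j y)) lam3 :=
    ((memLp_two_iff_integrable_sq_norm hsm.aestronglyMeasurable).2 h4).integrable one_le_two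
  have hvi : BC (fun y => conj (v y)) := bc_conj hv
  obtain ⟨B, hB⟩ := hvi.2
  have hai : Integrable (fun y => conj (v y) * f (update x j y)) lam3 :=
    hfi.bdd_mul (c := B) hvi.1.aestronglyMeasurable (Eventually.of_forall hB)
  have hηm : Measurable fun y : T3 => h (update x j y) - h x := by
    refine (hh.1.comp ?_).sub measurable_const
    exact (measurable_upd j).comp (measurable_prodMk_left (x := x))
  have h5 := ims_scalar lam3 (κ := Unit) (fun _ y => conj (v y) * f (update x j y))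
    (fun _ => hai) (fun _ y => h (update x j y) - h x) (fun _ => hηm) hδ
    (fun _ y => hh.2 x j y) (h x)
  simp only [Finset.univ_unique, Finset.sum_singleton, add_sub_cancel] at h5
  have h6 : ∫ y, conj (v y) * F (update x j y) ∂lam3
      = ∫ y, conj (v y) * f (update x j y) * ((Real.cos (h (update x j y)) : ℝ) : ℂ) ∂lam3 := by
    refine integral_congr_ae ?_
    filter_upwards [h3] with y hy
    rw [hy]
    ring
  have h7 : (∫ y, ‖conj (v y) * f (update x j y)‖ ∂lam3) ^ 2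
      ≤ (∫ y, g y ∂lam3) * ∫ y, g y * ‖f (update x j y)‖ ^ 2 ∂lam3 := by
    have hnsm : StronglyMeasurable (fun y => ((‖f (update x j y)‖ : ℝ) : ℂ)) :=
      (Complex.measurable_ofReal.comp hsm.norm.measurable).stronglyMeasurable
    have hn2 : Integrable (fun y => ‖((‖f (update x j y)‖ : ℝ) : ℂ)‖ ^ 2) lam3 := by
      refine h4.congr (Eventually.of_forall fun y => ?_)
      simp only
      rw [Complex.norm_real, norm_norm]
    have h8 := Ker_cs (BM.const 1) hg hg0 hnsm hn2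
    simp only [one_pow, one_mul, Complex.norm_real, norm_norm] at h8
    refine le_trans (pow_le_pow_left₀ (integral_nonneg fun y => norm_nonneg _) ?_ 2) h8
    have h9 : ∫ y, ((g y : ℝ) : ℂ) * ((‖f (update x j y)‖ : ℝ) : ℂ) ∂lam3
        = ((∫ y, g y * ‖f (update x j y)‖ ∂lam3 : ℝ) : ℂ) := by
      rw [← integral_complex_ofReal]
      refine integral_congr_ae (Eventually.of_forall fun y => ?_)
      simp only
      push_cast
      rfl
    rw [h9, Complex.norm_real, Real.norm_of_nonneg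
      (integral_nonneg fun y => mul_nonneg (hg0 y) (norm_nonneg _))]
    obtain ⟨E, hE⟩ := hg.2
    refine integral_mono_of_nonneg (Eventually.of_forall fun y => norm_nonneg _)
      (hfi.norm.bdd_mul (c := E) hg.1.aestronglyMeasurable (Eventually.of_forall hE))
      (Eventually.of_forall fun y => ?_)
    simp only
    rw [norm_mul, RCLike.norm_conj]
    exact mul_le_mul_of_nonneg_right (hvg y) (norm_nonneg _)
  rw [h1, h6, h2]
  refine h5.trans ?_
  have h10 := mul_le_mul_of_nonneg_left h7 (by positivity : 0 ≤ 3 * δ ^ 2)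
  linarith

theorem ims_yy {v : T3 → ℂ} (hv : BC v) {g : T3 → ℝ} (hg : BM g) (hvg : ∀ y, ‖v y‖ ≤ g y)
    {h : (ι → T3) → ℝ} {δ : ℝ} (hh : OsW h δ) (hδ : δ ≤ 1) (f : HS ι) :
    yy v (MB (fun x => ((Real.cos (h x) : ℝ) : ℂ)) f)
      ≤ yy v f + 3 * δ ^ 2 * ((∫ y, g y ∂lam3) * qf (fun x => ∑ j, g (x j)) f) := by
  unfold yy
  have h1 : ∀ j : ι, BM (fun x : ι → T3 => g (x j)) := fun j => hg.comp (measurable_pi_apply j)
  rw [qf_sum Finset.univ (fun j _ => h1 j) f, Finset.mul_sum, Finset.mul_sum,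
    ← Finset.sum_add_distrib]
  exact Finset.sum_le_sum fun j _ => ims_br hv hg hvg hh hδ j f

end Pool.Agent.Lib.MP_4952d6_mp.O

end

/-! ### O.WC5 -/

section

/-! # O.WC5: localisation in the mixed term

For one `j` put `d x = ⟪..⟫` integrand: by `br_ae` (for `f` and for `MB X f`, `MB_ae` under the integral by `mp_upd`)
`⟪br θ j (MB X f), br v j (MB X f)⟫ - ⟪br θ j f, br v j f⟫
  = ∫dx ∫∫ θ y conj (f (x^y)) conj (v z) f (x^z) (X (x^y) X (x^z) - 1) dy dz`, `x^y = update x j y`, and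
`|X (x^y) X (x^z) - 1| ≤ (1 - X (x^y)) + (1 - X (x^z)) ≤ I (x^y) + I (x^z)`. With `|f (x^y)| |f (x^z)| ≤ (|f (x^y)|² + |f (x^z)|²)/2` and
`I (x^y) ≤ I' (x^y)` (take `y = x j` in `h2`, `update_eq_self`), `I (x^z) = I (update (x^y) j z) ≤ I' (x^y)` (`update_idem`), the absolute value is at most
`∫dx ∫∫ θ y g z |f (x^y)|² I' (x^y) dy dz + ∫dx ∫∫ θ y g z |f (x^z)|² I' (x^z) dy dz = (∫ g) qf (θ (x j) I') f + (∫ θ) qf (g (x j) I') f`
(`integral_upd`). All integrals over `(x, y, z)` are of integrable functions (`θ, v, g, X, I'` bounded, `(x, y) ↦ |f (update x j y)|²` integrable, `mp_upd`).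
Sum over `j`: `qf_sum`. It may be simplest to bound pointwise in `x` the quantity `‖A' x‖ ..`: with
`A x = ∫ θ y f (x^y) dy`, `B x = ∫ conj (v z) f (x^z) dz`, `A', B'` the same for `X f`: `conj A' B' - conj A B = conj (A' - A) B' + conj A (B' - B)`, and
`‖A' - A‖ ≤ ∫ θ I |f|`, `‖B'‖ ≤ ∫ g |f|`, ... -/

set_option autoImplicit false
set_option linter.unusedSectionVars false
set_option linter.unusedVariables false
open MeasureTheory Function Filter Topology Set ComplexConjugate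

namespace Pool.Agent.Lib.MP_4952d6_mp.O

open LB

variable {ι : Type*} [Fintype ι] [DecidableEq ι]

lemma WC5_key {θ g : T3 → ℝ} (hθ : BM θ) (hθ0 : ∀ y, 0 ≤ θ y) (hg : BM g) {v : T3 → ℂ}
    (hv : BC v) (hvg : ∀ y, ‖v y‖ ≤ g y) {u : T3 → ℂ} (hu : StronglyMeasurable u)
    (hu2 : Integrable (fun y => ‖u y‖ ^ 2) lam3) {X J : T3 → ℝ} (hX : BM X)
    (hX0 : ∀ y, 0 ≤ X y) (hX1 : ∀ y, X y ≤ 1) (hJ : BM J) (hXJ : ∀ y z, 1 - X z ≤ J y) :
    ‖conj (∫ y, (θ y : ℂ) * ((X y : ℂ) * u y) ∂lam3) * (∫ z, conj (v z) * ((X z : ℂ) * u z) ∂lam3)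
      - conj (∫ y, (θ y : ℂ) * u y ∂lam3) * (∫ z, conj (v z) * u z ∂lam3)‖
      ≤ (∫ y, g y ∂lam3) * (∫ y, (θ y * J y) * ‖u y‖ ^ 2 ∂lam3)
        + (∫ y, θ y ∂lam3) * (∫ y, (g y * J y) * ‖u y‖ ^ 2 ∂lam3) := by
  have hu1 : Integrable u lam3 :=
    ((memLp_two_iff_integrable_sq_norm hu.aestronglyMeasurable).2 hu2).integrable one_le_two
  have hθC := bc_of_bm hθ
  have hXC := bc_of_bm hX
  have hvC := bc_conj hv
  have hbm : ∀ {w : T3 → ℂ}, BC w → Integrable (fun y => w y * u y) lam3 := by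
    intro w hw
    obtain ⟨hm, C, hC⟩ := hw
    exact hu1.bdd_mul hm.aestronglyMeasurable (Eventually.of_forall hC)
  have ia : Integrable (fun y => (θ y : ℂ) * u y) lam3 := hbm hθC
  have ib : Integrable (fun y => conj (v y) * u y) lam3 := hbm hvC
  have ia' : Integrable (fun y => (θ y : ℂ) * ((X y : ℂ) * u y)) lam3 := by
    have h := hbm (bc_mul hθC hXC)
    refine h.congr (Eventually.of_forall fun y => ?_)
    show (θ y : ℂ) * (X y : ℂ) * u y = _
    ring
  have ib' : Integrable (fun y => conj (v y) * ((X y : ℂ) * u y)) lam3 := by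
    have h := hbm (bc_mul hvC hXC)
    refine h.congr (Eventually.of_forall fun y => ?_)
    show conj (v y) * (X y : ℂ) * u y = _
    ring
  have ica : Integrable (fun y => conj ((θ y : ℂ) * u y)) lam3 :=
    ia.norm.mono' (Complex.continuous_conj.comp_aestronglyMeasurable ia.aestronglyMeasurable)
      (Eventually.of_forall fun y => by rw [RCLike.norm_conj])
  have ica' : Integrable (fun y => conj ((θ y : ℂ) * ((X y : ℂ) * u y))) lam3 :=
    ia'.norm.mono' (Complex.continuous_conj.comp_aestronglyMeasurable ia'.aestronglyMeasurable)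
      (Eventually.of_forall fun y => by rw [RCLike.norm_conj])
  have e1 : conj (∫ y, (θ y : ℂ) * ((X y : ℂ) * u y) ∂lam3) *
      (∫ z, conj (v z) * ((X z : ℂ) * u z) ∂lam3)
      = ∫ q : T3 × T3, conj ((θ q.1 : ℂ) * ((X q.1 : ℂ) * u q.1)) *
        (conj (v q.2) * ((X q.2 : ℂ) * u q.2)) ∂(lam3.prod lam3) := by
    rw [← integral_conj]
    exact (integral_prod_mul (fun y => conj ((θ y : ℂ) * ((X y : ℂ) * u y)))
      (fun z => conj (v z) * ((X z : ℂ) * u z))).symm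
  have e2 : conj (∫ y, (θ y : ℂ) * u y ∂lam3) * (∫ z, conj (v z) * u z ∂lam3)
      = ∫ q : T3 × T3, conj ((θ q.1 : ℂ) * u q.1) * (conj (v q.2) * u q.2) ∂(lam3.prod lam3) := by
    rw [← integral_conj]
    exact (integral_prod_mul (fun y => conj ((θ y : ℂ) * u y)) (fun z => conj (v z) * u z)).symm
  have i1 : Integrable (fun q : T3 × T3 => conj ((θ q.1 : ℂ) * ((X q.1 : ℂ) * u q.1)) *
        (conj (v q.2) * ((X q.2 : ℂ) * u q.2))) (lam3.prod lam3) := ica'.mul_prod ib'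
  have i2 : Integrable (fun q : T3 × T3 => conj ((θ q.1 : ℂ) * u q.1) * (conj (v q.2) * u q.2))
      (lam3.prod lam3) := ica.mul_prod ib
  rw [e1, e2, ← integral_sub i1 i2]
  have hg0 : ∀ y, 0 ≤ g y := fun y => (norm_nonneg _).trans (hvg y)
  have hJ0 : ∀ y, 0 ≤ J y := fun y => by
    have := hXJ y y
    have := hX1 y
    linarith
  have iJ : ∀ {w : T3 → ℝ}, BM w → Integrable (fun y => (w y * J y) * ‖u y‖ ^ 2) lam3 := by
    intro w hw
    have h := hw.mul hJ
    obtain ⟨C, hC⟩ := h.2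
    exact hu2.bdd_mul h.1.aestronglyMeasurable (Eventually.of_forall hC)
  have j1 : Integrable (fun q : T3 × T3 => ((θ q.1 * J q.1) * ‖u q.1‖ ^ 2) * g q.2)
      (lam3.prod lam3) := (iJ hθ).mul_prod (hg.integrable _)
  have j2 : Integrable (fun q : T3 × T3 => θ q.1 * ((g q.2 * J q.2) * ‖u q.2‖ ^ 2))
      (lam3.prod lam3) := (hθ.integrable _).mul_prod (iJ hg)
  have e3 : (∫ y, g y ∂lam3) * (∫ y, (θ y * J y) * ‖u y‖ ^ 2 ∂lam3)
        + (∫ y, θ y ∂lam3) * (∫ y, (g y * J y) * ‖u y‖ ^ 2 ∂lam3)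
      = ∫ q : T3 × T3, (((θ q.1 * J q.1) * ‖u q.1‖ ^ 2) * g q.2
        + θ q.1 * ((g q.2 * J q.2) * ‖u q.2‖ ^ 2)) ∂(lam3.prod lam3) := by
    rw [integral_add j1 j2, mul_comm (∫ y, g y ∂lam3)]
    congr 1
    · exact (integral_prod_mul (fun y => (θ y * J y) * ‖u y‖ ^ 2) g).symm
    · exact (integral_prod_mul θ (fun y => (g y * J y) * ‖u y‖ ^ 2)).symm
  rw [e3]
  refine norm_integral_le_of_norm_le (j1.add j2) (Eventually.of_forall fun q => ?_)
  obtain ⟨y, z⟩ := q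
  show ‖conj ((θ y : ℂ) * ((X y : ℂ) * u y)) * (conj (v z) * ((X z : ℂ) * u z))
      - conj ((θ y : ℂ) * u y) * (conj (v z) * u z)‖
    ≤ ((θ y * J y) * ‖u y‖ ^ 2) * g z + θ y * ((g z * J z) * ‖u z‖ ^ 2)
  have e4 : conj ((θ y : ℂ) * ((X y : ℂ) * u y)) * (conj (v z) * ((X z : ℂ) * u z))
      - conj ((θ y : ℂ) * u y) * (conj (v z) * u z)
      = ((θ y * (X y * X z - 1) : ℝ) : ℂ) * (conj (u y) * (conj (v z) * u z)) := by
    simp only [map_mul, Complex.conj_ofReal]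
    push_cast
    ring
  rw [e4, norm_mul, norm_mul, norm_mul, RCLike.norm_conj, RCLike.norm_conj, Complex.norm_real,
    Real.norm_eq_abs, abs_mul, abs_of_nonneg (hθ0 y)]
  have hXX : X y * X z ≤ 1 := by
    have := mul_le_mul (hX1 y) (hX1 z) (hX0 z) zero_le_one
    linarith
  have h1 : |X y * X z - 1| ≤ (1 - X y) + (1 - X z) := by
    rw [abs_of_nonpos (by linarith)]
    nlinarith [mul_nonneg (sub_nonneg.2 (hX1 y)) (sub_nonneg.2 (hX1 z))]
  have ha := hXJ y y
  have hb := hXJ y z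
  have hc := hXJ z y
  have hd := hXJ z z
  have hn1 := norm_nonneg (u y)
  have hn2 := norm_nonneg (u z)
  have hS0 : 0 ≤ (1 - X y) + (1 - X z) := by
    have := hX1 y
    have := hX1 z
    linarith
  have h2 : |X y * X z - 1| * (‖u y‖ * ‖u z‖) ≤ J y * ‖u y‖ ^ 2 + J z * ‖u z‖ ^ 2 := by
    have h3 : ‖u y‖ * ‖u z‖ ≤ (‖u y‖ ^ 2 + ‖u z‖ ^ 2) / 2 := by
      nlinarith [sq_nonneg (‖u y‖ - ‖u z‖)]
    calc |X y * X z - 1| * (‖u y‖ * ‖u z‖)
        ≤ ((1 - X y) + (1 - X z)) * ((‖u y‖ ^ 2 + ‖u z‖ ^ 2) / 2) :=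
          mul_le_mul h1 h3 (mul_nonneg hn1 hn2) hS0
      _ = (((1 - X y) + (1 - X z)) / 2) * ‖u y‖ ^ 2 + (((1 - X y) + (1 - X z)) / 2) * ‖u z‖ ^ 2 := by
          ring
      _ ≤ J y * ‖u y‖ ^ 2 + J z * ‖u z‖ ^ 2 :=
          add_le_add (mul_le_mul_of_nonneg_right (by linarith) (sq_nonneg _))
            (mul_le_mul_of_nonneg_right (by linarith) (sq_nonneg _))
  have h5 : 0 ≤ |X y * X z - 1| * (‖u y‖ * ‖u z‖) :=
    mul_nonneg (abs_nonneg _) (mul_nonneg hn1 hn2)
  calc θ y * |X y * X z - 1| * (‖u y‖ * (‖v z‖ * ‖u z‖))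
      = θ y * (‖v z‖ * (|X y * X z - 1| * (‖u y‖ * ‖u z‖))) := by ring
    _ ≤ θ y * (g z * (J y * ‖u y‖ ^ 2 + J z * ‖u z‖ ^ 2)) := by
        refine mul_le_mul_of_nonneg_left ?_ (hθ0 y)
        exact mul_le_mul (hvg z) h2 h5 (hg0 z)
    _ = ((θ y * J y) * ‖u y‖ ^ 2) * g z + θ y * ((g z * J z) * ‖u z‖ ^ 2) := by ring

lemma WC5_qf {g : T3 → ℝ} (hg : BM g) {J : (ι → T3) → ℝ} (hJ : BM J) (j : ι) (f : HS ι) :
    Integrable (fun x : ι → T3 => ∫ y, (g y * J (update x j y)) * ‖f (update x j y)‖ ^ 2 ∂lam3) (piN ι) ∧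
    ∫ x, ∫ y, (g y * J (update x j y)) * ‖f (update x j y)‖ ^ 2 ∂lam3 ∂(piN ι)
      = qf (fun x => g (x j) * J x) f := by
  have hb : BM (fun x : ι → T3 => g (x j) * J x) := (hg.comp (measurable_pi_apply j)).mul hJ
  have h1 := qf_int hb f
  have h2 : Integrable (fun q : (ι → T3) × T3 => (g (update q.1 j q.2 j) * J (update q.1 j q.2))
      * ‖f (update q.1 j q.2)‖ ^ 2) ((piN ι).prod lam3) := (LB.mp_upd j).integrable_comp_of_integrable h1
  have h3 := integral_upd j h1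
  simp only [update_self] at h2 h3
  exact ⟨h2.integral_prod_left, h3⟩

theorem loc_one {θ : T3 → ℝ} {c S : ℝ} (hW : Win θ c S) {v : T3 → ℂ} (hv : BC v) {g : T3 → ℝ}
    (hg : BM g) (hvg : ∀ y, ‖v y‖ ≤ g y) {X I I' : (ι → T3) → ℝ} (hX : BM X)
    (hX0 : ∀ x, 0 ≤ X x) (hX1 : ∀ x, X x ≤ 1) (hI : BM I) (hI' : BM I')
    (h1 : ∀ x, 1 - X x ≤ I x) (h2 : ∀ x j y, I (update x j y) ≤ I' x) (j : ι) (f : HS ι) :
    |(inner ℂ (br (fun x => (θ x : ℂ)) j (MB (fun x => (X x : ℂ)) f))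
        (br v j (MB (fun x => (X x : ℂ)) f))).re
      - (inner ℂ (br (fun x => (θ x : ℂ)) j f) (br v j f)).re|
      ≤ (∫ y, g y ∂lam3) * qf (fun x => θ (x j) * I' x) f + c * qf (fun x => g (x j) * I' x) f := by
  have hθ0 := hW.nn
  have hθ := hW.bm
  have hθC : BC (fun x => (θ x : ℂ)) := bc_of_bm hθ
  have hXC : BMC (fun x : ι → T3 => ((X x : ℝ) : ℂ)) := bmc_of_bm hX
  set F := MB (fun x => (X x : ℂ)) f with hF
  have hFae : ∀ᵐ x ∂(piN ι), ∀ᵐ y ∂lam3, F (update x j y) = (X (update x j y) : ℂ) * f (update x j y) := by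
    have h0 : (F : (ι → T3) → ℂ) =ᵐ[piN ι] fun x => (X x : ℂ) * f x := MB_ae hXC f
    have h1' : ∀ᵐ q : (ι → T3) × T3 ∂((piN ι).prod lam3),
        F (update q.1 j q.2) = (X (update q.1 j q.2) : ℂ) * f (update q.1 j q.2) :=
      (LB.mp_upd (ι := ι) j).quasiMeasurePreserving.ae h0
    exact Measure.ae_ae_of_ae_prod h1'
  have hcg : ∀ y, conj ((θ y : ℂ)) = (θ y : ℂ) := fun y => Complex.conj_ofReal _
  have a1 := br_ae hθC j f
  have a2 := br_ae hv j f
  have a3 := br_ae hθC j F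
  have a4 := br_ae hv j F
  obtain ⟨q1, q2⟩ := WC5_qf hθ hI' j f
  obtain ⟨q3, q4⟩ := WC5_qf hg hI' j f
  have i1 : Integrable (fun x => conj (br (fun x => (θ x : ℂ)) j F x) * br v j F x) (piN ι) := by
    have h := L2.integrable_inner (𝕜 := ℂ) (br (fun x => (θ x : ℂ)) j F) (br v j F)
    refine h.congr (Eventually.of_forall fun x => ?_)
    show inner ℂ _ _ = _
    rw [RCLike.inner_apply, mul_comm]
  have i2 : Integrable (fun x => conj (br (fun x => (θ x : ℂ)) j f x) * br v j f x) (piN ι) := by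
    have h := L2.integrable_inner (𝕜 := ℂ) (br (fun x => (θ x : ℂ)) j f) (br v j f)
    refine h.congr (Eventually.of_forall fun x => ?_)
    show inner ℂ _ _ = _
    rw [RCLike.inner_apply, mul_comm]
  rw [OpA_inner, OpA_inner, ← Complex.sub_re, ← integral_sub i1 i2]
  refine (Complex.abs_re_le_norm _).trans ?_
  have e1 : (∫ y, g y ∂lam3) * qf (fun x => θ (x j) * I' x) f + c * qf (fun x => g (x j) * I' x) f
      = ∫ x, ((∫ y, g y ∂lam3) * (∫ y, (θ y * I' (update x j y)) * ‖f (update x j y)‖ ^ 2 ∂lam3)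
        + (∫ y, θ y ∂lam3) * (∫ y, (g y * I' (update x j y)) * ‖f (update x j y)‖ ^ 2 ∂lam3))
          ∂(piN ι) := by
    rw [integral_add (q1.const_mul _) (q3.const_mul _), integral_const_mul, integral_const_mul,
      q2, q4, hW.i1]
  rw [e1]
  refine norm_integral_le_of_norm_le ((q1.const_mul _).add (q3.const_mul _)) ?_
  filter_upwards [a1, a2, a3, a4, hFae, Ker_sec f j] with x b1 b2 b3 b4 b5 b6
  have hm : Measurable (fun y => update x j y) := (measurable_upd j).comp measurable_prodMk_left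
  have c3 : ∫ y, conj ((θ y : ℂ)) * F (update x j y) ∂lam3
      = ∫ y, (θ y : ℂ) * ((X (update x j y) : ℂ) * f (update x j y)) ∂lam3 := by
    refine integral_congr_ae ?_
    filter_upwards [b5] with y hy
    rw [hy, hcg]
  have c4 : ∫ y, conj (v y) * F (update x j y) ∂lam3
      = ∫ y, conj (v y) * ((X (update x j y) : ℂ) * f (update x j y)) ∂lam3 := by
    refine integral_congr_ae ?_
    filter_upwards [b5] with y hy
    rw [hy]
  have c1 : ∫ y, conj ((θ y : ℂ)) * f (update x j y) ∂lam3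
      = ∫ y, (θ y : ℂ) * f (update x j y) ∂lam3 := by
    refine integral_congr_ae (Eventually.of_forall fun y => ?_)
    simp only [hcg]
  show ‖conj (br (fun x => (θ x : ℂ)) j F x) * br v j F x
      - conj (br (fun x => (θ x : ℂ)) j f x) * br v j f x‖ ≤ _
  rw [b1, b2, b3, b4, c3, c4, c1]
  refine WC5_key hθ hθ0 hg hv hvg (Ker_sec_sm f j x) b6 (X := fun y => X (update x j y))
    (J := fun y => I' (update x j y)) (hX.comp hm) (fun y => hX0 _) (fun y => hX1 _) (hI'.comp hm) ?_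
  intro y z
  refine (h1 _).trans ?_
  have h := h2 (update x j y) j z
  rwa [update_idem] at h

theorem loc_main {θ : T3 → ℝ} {c S : ℝ} (hW : Win θ c S) {v : T3 → ℂ} (hv : BC v) {g : T3 → ℝ}
    (hg : BM g) (hvg : ∀ y, ‖v y‖ ≤ g y) {X I I' : (ι → T3) → ℝ} (hX : BM X)
    (hX0 : ∀ x, 0 ≤ X x) (hX1 : ∀ x, X x ≤ 1) (hI : BM I) (hI' : BM I')
    (h1 : ∀ x, 1 - X x ≤ I x) (h2 : ∀ x j y, I (update x j y) ≤ I' x) (f : HS ι) :
    |zz (fun x => (θ x : ℂ)) v (MB (fun x => (X x : ℂ)) f) - zz (fun x => (θ x : ℂ)) v f|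
      ≤ (∫ y, g y ∂lam3) * qf (fun x => (∑ j, θ (x j)) * I' x) f
        + c * qf (fun x => (∑ j, g (x j)) * I' x) f := by
  have hb : ∀ {w : T3 → ℝ}, BM w → ∀ j : ι, BM (fun x : ι → T3 => w (x j) * I' x) :=
    fun hw j => (hw.comp (measurable_pi_apply j)).mul hI'
  have e1 : qf (fun x => (∑ j, θ (x j)) * I' x) f = ∑ j, qf (fun x => θ (x j) * I' x) f := by
    rw [← qf_sum _ (fun j _ => hb hW.bm j)]
    congr 1
    funext x
    rw [Finset.sum_mul]
  have e2 : qf (fun x => (∑ j, g (x j)) * I' x) f = ∑ j, qf (fun x => g (x j) * I' x) f := by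
    rw [← qf_sum _ (fun j _ => hb hg j)]
    congr 1
    funext x
    rw [Finset.sum_mul]
  unfold zz
  rw [e1, e2, ← Finset.sum_sub_distrib, Finset.mul_sum, Finset.mul_sum, ← Finset.sum_add_distrib]
  refine (Finset.abs_sum_le_sum_abs _ _).trans (Finset.sum_le_sum fun j _ => ?_)
  exact loc_one hW hv hg hvg hX hX0 hX1 hI hI' h1 h2 j f

end Pool.Agent.Lib.MP_4952d6_mp.O

end

/-! ### O.WI1 -/

section

/-! # O.WI1: algebra for one mode

`T = N c²`, `κ' = (1 + 2 s) T + 1`, `ε = epsf (g N) E`, `q = κ' / T = 1 + 2 s + 1/T ≥ 1`. `ε ≥ E > 0`, `ε ≤ E + gN`, `ε² = E² + 2 g N E` (`epsf_ge`, `epsf_le`, `PreA_sq`).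
(1) `E (1 - E/ε) = (E/ε)(ε - E) ≤ gN`. As `E/ε - 1 ≤ 0`, `n ≤ T (1 + 3δ²)`, `κ' ≥ T`: `(E/κ')(E/ε - 1)(e n) ≥ E (E/ε - 1) e (1 + 3δ²) ≥ E (E/ε - 1) e - 3 δ² g N`
(if `n` is negative the left side is nonnegative, and the right side is `≤ 0`).
(2) `(E/(2κ'))(E/ε) y ≤ (E/(2T)) y`.
(3) `√(N/κ') = 1/(c √q) ≤ 1/c`; `g (E/ε) √(N/κ') m ≥ g (E/ε) √(N/κ') (2 c e N) - (g/c)(2 c W + V)` and
`g (E/ε) 2 N e / √q ≥ 2 g N (E/ε) e - 2 g N (1 - 1/√q) ≥ 2 g N (E/ε) e - g N (q - 1)` (`1/√q ≥ 1 - (q-1)/2`: `√q ≤ (1+q)/2` and `2/(1+q) ≥ 1 - (q-1)/2`).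
(4) `E (E/ε - 1) + 2 g N (E/ε) = (E² + 2 g N E)/ε - E = ε - E`. -/

set_option autoImplicit false
set_option linter.unusedSectionVars false
set_option linter.unusedVariables false
open MeasureTheory Function Filter Topology Set ComplexConjugate

namespace Pool.Agent.Lib.MP_4952d6_mp.O

open LB

theorem mode_alg {c N s E g e n y m δ W V : ℝ} (hc : 0 < c) (hN : 0 < N) (hs : 0 ≤ s) (hE : 0 < E)
    (hg : 0 ≤ g) (he : 0 ≤ e) (he1 : e ≤ 1) (hn : n ≤ N * c ^ 2 * (1 + 3 * δ ^ 2)) (hy : 0 ≤ y)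
    (hW : 0 ≤ W) (hV : 0 ≤ V) (hm : 2 * (c * (e * N - W)) - V ≤ m) :
    e * (epsf (g * N) E - E) - g * N * (3 * δ ^ 2 + (2 * s + 1 / (N * c ^ 2))) - 2 * g * W
        - g / c * V - E / (2 * (N * c ^ 2)) * y
      ≤ E / ((1 + 2 * s) * (N * c ^ 2) + 1) * (E / epsf (g * N) E - 1) * (e * n)
        - E / (2 * ((1 + 2 * s) * (N * c ^ 2) + 1)) * (E / epsf (g * N) E) * y
        + g * (E / epsf (g * N) E) * Real.sqrt (N / ((1 + 2 * s) * (N * c ^ 2) + 1)) * m := by
  have hT : 0 < N * c ^ 2 := by positivity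
  obtain ⟨T, hTd⟩ : ∃ T, T = N * c ^ 2 := ⟨_, rfl⟩
  rw [← hTd] at hT hn ⊢
  obtain ⟨K, hK⟩ : ∃ K, K = (1 + 2 * s) * T + 1 := ⟨_, rfl⟩
  rw [← hK]
  have hsT : 0 ≤ s * T := mul_nonneg hs hT.le
  have hTK : T ≤ K := by
    rw [hK]
    nlinarith
  have hK0 : 0 < K := lt_of_lt_of_le hT hTK
  obtain ⟨ε, hε⟩ : ∃ ε, ε = epsf (g * N) E := ⟨_, rfl⟩
  rw [← hε]
  have hgN : 0 ≤ g * N := mul_nonneg hg hN.le
  have hεE : E ≤ ε := by
    rw [hε]
    exact epsf_ge hgN hE.le
  have hε0 : 0 < ε := lt_of_lt_of_le hE hεE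
  have hε2 : ε ^ 2 = E ^ 2 + 2 * (g * N) * E := by
    rw [hε, epsf, Real.sq_sqrt (by positivity)]
  have hεle : ε ≤ E + g * N := by
    refine le_of_sq_le_sq ?_ (by positivity)
    rw [hε2]
    nlinarith [mul_nonneg hgN hgN]
  obtain ⟨b, hb⟩ : ∃ b, b = E / ε := ⟨_, rfl⟩
  rw [← hb]
  have hbε : b * ε = E := by
    rw [hb]
    field_simp
  have hb0 : 0 ≤ b := by
    rw [hb]
    positivity
  have hb1 : b ≤ 1 := by
    rw [hb, div_le_one hε0]
    exact hεE
  have hEa0 : 0 ≤ E * (1 - b) := mul_nonneg hE.le (by linarith)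
  have hEa : E * (1 - b) ≤ g * N := by
    have h1 : E * (1 - b) = b * (ε - E) := by linear_combination (-1 : ℝ) * hbε
    rw [h1]
    have h2 : b * (ε - E) ≤ 1 * (ε - E) := mul_le_mul_of_nonneg_right hb1 (by linarith)
    linarith
  have P1 : -(E * (1 - b) * e) - 3 * δ ^ 2 * (g * N) ≤ E / K * (b - 1) * (e * n) := by
    have h1 : n ≤ K * (1 + 3 * δ ^ 2) :=
      hn.trans (mul_le_mul_of_nonneg_right hTK (by positivity))
    have h2 : n / K ≤ 1 + 3 * δ ^ 2 := by
      rw [div_le_iff₀ hK0]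
      linarith
    have h3 : E * (1 - b) * e * (n / K) ≤ E * (1 - b) * e * (1 + 3 * δ ^ 2) :=
      mul_le_mul_of_nonneg_left h2 (mul_nonneg hEa0 he)
    have h4 : E * (1 - b) * e ≤ g * N := by
      calc E * (1 - b) * e ≤ E * (1 - b) * 1 := mul_le_mul_of_nonneg_left he1 hEa0
        _ ≤ g * N := by rw [mul_one]; exact hEa
    have h5 : E * (1 - b) * e * (3 * δ ^ 2) ≤ g * N * (3 * δ ^ 2) :=
      mul_le_mul_of_nonneg_right h4 (by positivity)
    have h6 : E / K * (b - 1) * (e * n) = -(E * (1 - b) * e * (n / K)) := by ring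
    rw [h6]
    linarith
  have P2 : E / (2 * K) * b * y ≤ E / (2 * T) * y := by
    refine mul_le_mul_of_nonneg_right ?_ hy
    calc E / (2 * K) * b ≤ E / (2 * K) * 1 := mul_le_mul_of_nonneg_left hb1 (by positivity)
      _ = E / (2 * K) := mul_one _
      _ ≤ E / (2 * T) := by
        apply div_le_div_of_nonneg_left hE.le (by positivity)
        linarith
  obtain ⟨r, hr⟩ : ∃ r, r = Real.sqrt (N / K) := ⟨_, rfl⟩
  rw [← hr]
  have hr0 : 0 < r := by
    rw [hr]
    exact Real.sqrt_pos.2 (by positivity)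
  have hr2 : r ^ 2 = N / K := by
    rw [hr, Real.sq_sqrt (by positivity)]
  have hz2 : (r * c) ^ 2 * K = T := by
    rw [mul_pow, hr2, hTd]
    field_simp
  have hz0 : 0 < r * c := mul_pos hr0 hc
  have hz1 : r * c ≤ 1 := by
    refine le_of_sq_le_sq ?_ zero_le_one
    have h1 : (r * c) ^ 2 = T / K := by
      rw [eq_div_iff hK0.ne']
      exact hz2
    rw [h1, one_pow, div_le_one hK0]
    exact hTK
  have hq : 2 * (1 - r * c) ≤ 2 * s + 1 / T := by
    have h1 : (1 + (2 * s + 1 / T)) * (r * c) ^ 2 = 1 := by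
      have h2 : 1 + (2 * s + 1 / T) = K / T := by
        rw [hK]
        field_simp
        ring
      rw [h2, div_mul_eq_mul_div, mul_comm K, hz2, div_self hT.ne']
    generalize hQ : 2 * s + 1 / T = Q at h1
    generalize hz : r * c = z at hz0 hz1 h1
    have h2 : 0 ≤ (Q - 2 * (1 - z)) * z ^ 2 := by
      have h3 : (Q - 2 * (1 - z)) * z ^ 2 = (1 - z) ^ 2 * (1 + 2 * z) := by
        linear_combination h1
      rw [h3]
      positivity
    have h3 : 0 < z ^ 2 := by positivity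
    have h4 : 0 ≤ Q - 2 * (1 - z) := by
      by_contra hcon
      push Not at hcon
      exact absurd (mul_neg_of_neg_of_pos hcon h3) (not_lt.2 h2)
    linarith
  have P3 : 2 * (g * N) * b * e - g * N * (2 * s + 1 / T) - 2 * g * W - g / c * V
      ≤ g * b * r * m := by
    have h0 : 0 ≤ g * b * r := by positivity
    have h1 : g * b * r * (2 * (c * (e * N - W)) - V) ≤ g * b * r * m :=
      mul_le_mul_of_nonneg_left hm h0
    have h2 : g * b * (r * c) ≤ g := by
      calc g * b * (r * c) ≤ g * b * 1 := mul_le_mul_of_nonneg_left hz1 (by positivity)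
        _ = g * b := mul_one _
        _ ≤ g * 1 := mul_le_mul_of_nonneg_left hb1 hg
        _ = g := mul_one _
    have h3 : g * b * (r * c) * (2 * W) ≤ g * (2 * W) :=
      mul_le_mul_of_nonneg_right h2 (by positivity)
    have h4 : g * b * r ≤ g / c := by
      rw [le_div_iff₀ hc]
      linarith
    have h5 : g * b * r * V ≤ g / c * V := mul_le_mul_of_nonneg_right h4 hV
    have h6 : g * N * (b * e) * (2 * (1 - r * c)) ≤ g * N * 1 * (2 * (1 - r * c)) := by
      refine mul_le_mul_of_nonneg_right (mul_le_mul_of_nonneg_left ?_ hgN) (by linarith)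
      calc b * e ≤ 1 * 1 := mul_le_mul hb1 he1 he zero_le_one
        _ = 1 := mul_one _
    have h7 : g * N * 1 * (2 * (1 - r * c)) ≤ g * N * (2 * s + 1 / T) := by
      rw [mul_one]
      exact mul_le_mul_of_nonneg_left hq hgN
    have h8 : g * b * r * (2 * (c * (e * N - W)) - V) =
        2 * (g * N) * b * e - g * N * (b * e) * (2 * (1 - r * c)) - g * b * (r * c) * (2 * W)
          - g * b * r * V := by ring
    linarith
  have P4 : e * (ε - E) = -(E * (1 - b) * e) + 2 * (g * N) * b * e := by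
    have h1 : ε - E = -(E * (1 - b)) + 2 * (g * N) * b := by
      apply mul_right_cancel₀ hε0.ne'
      linear_combination hε2 - (E + 2 * (g * N)) * hbε
    rw [h1]
    ring
  have h9 : g * N * (3 * δ ^ 2 + (2 * s + 1 / T)) =
      3 * δ ^ 2 * (g * N) + g * N * (2 * s + 1 / T) := by ring
  rw [P4, h9]
  linarith

end Pool.Agent.Lib.MP_4952d6_mp.O

end

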