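import Pool.Agent.Lib.MP_4952d6_mp.Po.N02
import Pool.Agent.Lib.MP_4952d6_mp.Po.N06
import Pool.Agent.Lib.MP_4952d6_mp.Po.N07
import Pool.Agent.Lib.MP_4952d6_mp.Po.N13
import Pool.Agent.Lib.MP_4952d6_mp.Po.N17
import Pool.Agent.Lib.MP_4952d6_mp.Po.N20

/-! Merged modules (to save import time): O.XI, O.XL, O.WC4. -/

/-! ### O.XI -/

section

/-!
# O.XI: first sum of error operators (moved particle `l`, average over `j`)

Fix `j`. `E_l = EEO τ T h l j (PP1 T j ψ)`; `EEO_pt` with `a = l`, `b = j`: `‖E_l x‖² ≤ k_l² dd (2T) l (PP1 T j ψ) x`,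
`k_l = C H hk(4τ)(x_j - x_l)`. `norm_sum_sq_le`, `dd_int` (each term is `dfm (2T) l (k_m k_l) (PP1 T j ψ)`), `dfm_smul`, and `dfm_PP1` with
`b = j ≠ l = a`, `s = T`, to get `dfm (2T) l (cvj (hk(T/2)) j (hk(4τ)(x_j-x_m) hk(4τ)(x_j-x_l))) ψ`.
`m = l`: `XW_two` (`s = T/2`, `r = 4τ ≤ 1`): `≤ 8 (√(4τ))⁻¹³ hk(T/2+4τ)(x_l-x_j)`, `(√(4τ))⁻¹ ≤ (√τ)⁻¹`.
`m ≠ l`: `hk(T/2) ≤ (√8)³ hk(4T)` (`hk_le_hk`, `cvj` is monotone in the kernel), `XW_one` with `s = 4T`, `r = r' = 4τ ≤ 4T` (order of the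
factors: `l` is the centre): `≤ 64 (√8)³ hk(16T)(x_l-x_j) hk(20τ)(x_l-x_m)`.
Sum over `j`: the moved particle `l` becomes the outer index. Terms `m = l`: `∑_j ∑_{l≠j} f j l = ∑_l ∑_{j≠l} f j l`
(as in SmoC / `Finset.sum_comm` with `Sums_erase`), `dfm_two`, `DBd` with `r = 2T`, `s = T/2+4τ`: total
`C H² (√τ)⁻¹³ MD/N`. Terms `m ≠ l`: `sum_triple` (LB/Sums.lean) to have `l` outermost, `dfm_three` with `s = 16T`, `s' = 20τ`: total `C H² MD`.
All times are in `[t/8, 64T]`: `T/2+4τ ≤ 64T`, `16T`, `20τ ≤ 20T`, `20τ ≥ 20t`.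
-/

set_option autoImplicit false
set_option linter.unusedSectionVars false
set_option linter.unusedVariables false
open MeasureTheory Function Filter Topology Set ComplexConjugate

namespace Pool.Agent.Lib.MP_4952d6_mp.O

open LB

lemma XI_int {N : ℕ} {w : T3 → ℝ} (hw : BM w) (j : Fin N) {G : (Fin N → T3) → ℝ} (hG : BM G)
    (x : Fin N → T3) : Integrable (fun y => w (x j - y) * G (update x j y)) lam3 := by
  have h1 : BM (fun y : T3 => w (x j - y)) :=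
    hw.comp (measurable_sub' measurable_const measurable_id)
  have h2 : BM (fun y : T3 => G (update x j y)) :=
    (hG.comp (measurable_upd j)).comp (measurable_prodMk_left (x := x))
  exact (h1.mul h2).integrable _

lemma XI_mono {N : ℕ} {s r : ℝ} (hs : 0 < s) (hsr : s ≤ r) (j : Fin N) {G : (Fin N → T3) → ℝ}
    (hG : BM G) (hG0 : ∀ x, 0 ≤ G x) (x : Fin N → T3) :
    cvj (hk s) j G x ≤ Real.sqrt (r / s) ^ 3 * cvj (hk r) j G x := by
  unfold cvj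
  rw [← integral_const_mul]
  refine integral_mono (XI_int (hk_bm hs) j hG x)
    ((XI_int (hk_bm (hs.trans_le hsr)) j hG x).const_mul _) fun y => ?_
  calc hk s (x j - y) * G (update x j y)
      ≤ (Real.sqrt (r / s) ^ 3 * hk r (x j - y)) * G (update x j y) :=
        mul_le_mul_of_nonneg_right (hk_le_hk hs hsr _) (hG0 _)
    _ = _ := by ring

lemma XI_inv {τ : ℝ} (hτ : 0 < τ) : (Real.sqrt (4 * τ))⁻¹ ^ 3 ≤ (Real.sqrt τ)⁻¹ ^ 3 := by
  have h1 : 0 < Real.sqrt τ := Real.sqrt_pos.2 hτ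
  have h2 : Real.sqrt τ ≤ Real.sqrt (4 * τ) := Real.sqrt_le_sqrt (by linarith)
  exact pow_le_pow_left₀ (by positivity) (inv_anti₀ h1 h2) 3

lemma XI_diag {N : ℕ} {T τ : ℝ} (hT : 0 < T) (hτ : 0 < τ) (h4 : 4 * τ ≤ 1) {j l : Fin N}
    (hjl : j ≠ l) (ψ : HS (Fin N)) :
    dfm (2 * T) l (fun x => hk (4 * τ) (x j - x l) * hk (4 * τ) (x j - x l))
        (PP1 T j ψ : HS (Fin N))
      ≤ 8 * (Real.sqrt τ)⁻¹ ^ 3
        * dfm (2 * T) l (fun x => hk (T / 2 + 4 * τ) (x l - x j)) (ψ : (Fin N → T3) → ℂ) := by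
  have h4τ : 0 < 4 * τ := by linarith
  have hT2 : 0 < T / 2 := by linarith
  have hG : BM (fun x : Fin N → T3 => hk (4 * τ) (x j - x l) * hk (4 * τ) (x j - x l)) :=
    (bm_diff (hk_bm h4τ) j l).mul (bm_diff (hk_bm h4τ) j l)
  refine (dfm_PP1 (by linarith) hT hjl.symm hG
    (fun x => mul_nonneg (hk_nonneg _ _) (hk_nonneg _ _)) ψ).trans ?_
  refine dfm_le_smul (by linarith) l (cvj_bm (hk_bm hT2) j hG)
    (bm_diff (hk_bm (by linarith)) l j) (fun x => ?_) ψ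
  refine (XW_two hT2 h4τ h4 hjl x).trans ?_
  exact mul_le_mul_of_nonneg_right (mul_le_mul_of_nonneg_left (XI_inv hτ) (by norm_num))
    (hk_nonneg _ _)

lemma XI_off {N : ℕ} {T τ : ℝ} (hT : 0 < T) (hτ : 0 < τ) (hτT : τ ≤ T) {j l m : Fin N}
    (hjl : j ≠ l) (hjm : j ≠ m) (ψ : HS (Fin N)) :
    dfm (2 * T) l (fun x => hk (4 * τ) (x j - x l) * hk (4 * τ) (x j - x m))
        (PP1 T j ψ : HS (Fin N))
      ≤ 64 * Real.sqrt 8 ^ 3
        * dfm (2 * T) l (fun x => hk (16 * T) (x l - x j) * hk (20 * τ) (x l - x m))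
          (ψ : (Fin N → T3) → ℂ) := by
  have h4τ : 0 < 4 * τ := by linarith
  have hT2 : 0 < T / 2 := by linarith
  have hG : BM (fun x : Fin N → T3 => hk (4 * τ) (x j - x l) * hk (4 * τ) (x j - x m)) :=
    (bm_diff (hk_bm h4τ) j l).mul (bm_diff (hk_bm h4τ) j m)
  have hG0 : ∀ x : Fin N → T3, 0 ≤ hk (4 * τ) (x j - x l) * hk (4 * τ) (x j - x m) :=
    fun x => mul_nonneg (hk_nonneg _ _) (hk_nonneg _ _)
  refine (dfm_PP1 (by linarith) hT hjl.symm hG hG0 ψ).trans ?_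
  refine dfm_le_smul (by linarith) l (cvj_bm (hk_bm hT2) j hG)
    ((bm_diff (hk_bm (by linarith)) l j).mul (bm_diff (hk_bm (by linarith)) l m)) (fun x => ?_) ψ
  have h1 := XI_mono hT2 (by linarith : T / 2 ≤ 4 * T) j hG hG0 x
  have h2 := XW_one h4τ h4τ (by linarith : 4 * τ ≤ 4 * T) hjl hjm x
  have e1 : 4 * T / (T / 2) = 8 := by
    field_simp
    norm_num
  have e2 : 4 * (4 * T) = 16 * T := by ring
  have e3 : 4 * (4 * τ) + 4 * τ = 20 * τ := by ring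
  rw [e1] at h1
  rw [e2, e3] at h2
  refine h1.trans ?_
  calc Real.sqrt 8 ^ 3 * cvj (hk (4 * T)) j (fun x : Fin N → T3 =>
          hk (4 * τ) (x j - x l) * hk (4 * τ) (x j - x m)) x
      ≤ Real.sqrt 8 ^ 3 * (64 * (hk (16 * T) (x l - x j) * hk (20 * τ) (x l - x m))) :=
        mul_le_mul_of_nonneg_left h2 (by positivity)
    _ = _ := by ring

lemma XI_term {N : ℕ} {T τ c : ℝ} (hT : 0 < T) (hτ : 0 < τ) (j l m : Fin N) (g : HS (Fin N)) :
    ∫ x, ((c * hk (4 * τ) (x j - x m)) * (c * hk (4 * τ) (x j - x l))) * dd (2 * T) l g x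
        ∂(piN (Fin N))
      = c ^ 2 * dfm (2 * T) l (fun x => hk (4 * τ) (x j - x l) * hk (4 * τ) (x j - x m))
          (g : (Fin N → T3) → ℂ) := by
  have h4τ : 0 < 4 * τ := by linarith
  have hG : BM (fun x : Fin N → T3 =>
      (c * hk (4 * τ) (x j - x m)) * (c * hk (4 * τ) (x j - x l))) :=
    ((bm_diff (hk_bm h4τ) j m).const_mul c).mul ((bm_diff (hk_bm h4τ) j l).const_mul c)
  rw [(dd_int (by linarith : 0 < 2 * T) l hG g).2, ← dfm_smul]
  congr 1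
  funext x
  ring

lemma XI_swap {N : ℕ} (F : Fin N → Fin N → ℝ) :
    ∑ j, ∑ l ∈ Finset.univ.erase j, F j l = ∑ l, ∑ j ∈ Finset.univ.erase l, F j l := by
  simp_rw [Sums_erase]
  rw [Finset.sum_comm]
  refine Finset.sum_congr rfl fun l _ => Finset.sum_congr rfl fun j _ => ?_
  by_cases h : j = l
  · rw [if_neg (fun h1 => h1 h.symm), if_neg (fun h1 => h1 h)]
  · rw [if_pos (fun h1 => h h1.symm), if_pos h]

theorem EE_sum1 : ∃ C : ℝ, 0 ≤ C ∧ ∀ (N : ℕ) (t T τ H R MD : ℝ) (h : T3 → ℝ), 0 < N → 0 < t →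
    4 * t ≤ T → 64 * T ≤ 1 → t ≤ τ → τ ≤ T → SR H R h → 0 ≤ R → R ^ 2 ≤ t / 8 →
    ∀ ψ : HS (Fin N), DBd t T MD ψ →
    ∑ j, ‖∑ l ∈ Finset.univ.erase j, EEO τ T h l j (PP1 T j ψ)‖ ^ 2
      ≤ C * H ^ 2 * ((Real.sqrt τ)⁻¹ ^ 3 / N + 1) * MD := by
  obtain ⟨C0, hC0, hE⟩ := EEO_pt
  refine ⟨C0 ^ 2 * (64 * Real.sqrt 8 ^ 3 + 8), by positivity, ?_⟩
  intro N t T τ H R MD h hN ht htT hT1 htτ hτT hh hR hRt ψ hD
  have hτ : 0 < τ := by linarith
  have hT : 0 < T := by linarith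
  have hN0 : (0 : ℝ) < N := by exact_mod_cast hN
  have h4 : 4 * τ ≤ 1 := by linarith
  have hMD : 0 ≤ MD := hD.nonneg ht (by linarith)
  have h4τ : 0 < 4 * τ := by linarith
  set A : ℝ := 8 * (Real.sqrt τ)⁻¹ ^ 3 with hA
  set B : ℝ := 64 * Real.sqrt 8 ^ 3 with hB
  have hA0 : 0 ≤ A := by positivity
  have hB0 : 0 ≤ B := by positivity
  set F : Fin N → Fin N → ℝ := fun j l =>
    dfm (2 * T) l (fun x => hk (T / 2 + 4 * τ) (x l - x j)) (ψ : (Fin N → T3) → ℂ) with hF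
  set G : Fin N → Fin N → Fin N → ℝ := fun j l m =>
    dfm (2 * T) l (fun x => hk (16 * T) (x l - x j) * hk (20 * τ) (x l - x m))
      (ψ : (Fin N → T3) → ℂ) with hG
  have hj : ∀ j, ‖∑ l ∈ Finset.univ.erase j, EEO τ T h l j (PP1 T j ψ)‖ ^ 2
      ≤ (C0 * H) ^ 2 * (A * ∑ l ∈ Finset.univ.erase j, F j l
        + B * ∑ l ∈ Finset.univ.erase j, ∑ m ∈ (Finset.univ.erase j).erase l, G j l m) := by
    intro j
    have h1 := norm_sum_sq_le (Finset.univ.erase j) (fun l => EEO τ T h l j (PP1 T j ψ))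
      (fun l x => C0 * H * hk (4 * τ) (x j - x l)) (fun l x => dd (2 * T) l (PP1 T j ψ) x)
      (fun l _ => (bm_diff (hk_bm h4τ) j l).const_mul _)
      (fun l _ x => mul_nonneg (mul_nonneg hC0 (WtB_H hh)) (hk_nonneg _ _))
      (fun l _ x => dd_nonneg _ _ _ _)
      (fun l _ => dd_integrable (by linarith) l _)
      (fun l hl => hE N τ T H R h l j hτ hτT hh hR (by linarith) (Finset.ne_of_mem_erase hl)
        (PP1 T j ψ))
    refine h1.trans ?_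
    rw [Finset.mul_sum, Finset.mul_sum, ← Finset.sum_add_distrib, Finset.mul_sum]
    refine Finset.sum_le_sum fun l hl => ?_
    have hlj : j ≠ l := (Finset.ne_of_mem_erase hl).symm
    rw [← Finset.add_sum_erase _ _ hl, mul_add]
    refine add_le_add ?_ ?_
    · rw [XI_term hT hτ]
      exact mul_le_mul_of_nonneg_left (XI_diag hT hτ h4 hlj ψ) (sq_nonneg _)
    · rw [Finset.mul_sum, Finset.mul_sum]
      refine Finset.sum_le_sum fun m hm => ?_
      have hmj : j ≠ m := (Finset.ne_of_mem_erase (Finset.mem_of_mem_erase hm)).symm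
      rw [XI_term hT hτ]
      exact mul_le_mul_of_nonneg_left (XI_off hT hτ hτT hlj hmj ψ) (sq_nonneg _)
  have hsum1 : ∑ j, ∑ l ∈ Finset.univ.erase j, F j l ≤ 1 / N * MD := by
    rw [XI_swap F]
    have h1 : ∀ l, ∑ j ∈ Finset.univ.erase l, F j l ≤
        1 / N * dfm (2 * T) l (fun x => (crowd (T / 2 + 4 * τ) l x + N) ^ 2) ψ := fun l =>
      dfm_two (by linarith) (by linarith) hN l ψ
    refine (Finset.sum_le_sum fun l _ => h1 l).trans ?_
    rw [← Finset.mul_sum]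
    exact mul_le_mul_of_nonneg_left (hD (2 * T) (T / 2 + 4 * τ) (by linarith) (by linarith)
      (by linarith) (by linarith)) (by positivity)
  have hsum2 : ∑ j, ∑ l ∈ Finset.univ.erase j, ∑ m ∈ (Finset.univ.erase j).erase l, G j l m
      ≤ MD := by
    rw [sum_triple_swap, sum_triple]
    have h1 : ∀ l, ∑ j ∈ Finset.univ.erase l, ∑ m ∈ (Finset.univ.erase l).erase j, G j l m ≤
        1 / 2 * dfm (2 * T) l (fun x => (crowd (16 * T) l x + N) ^ 2) ψ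
          + 1 / 2 * dfm (2 * T) l (fun x => (crowd (20 * τ) l x + N) ^ 2) ψ := fun l =>
      dfm_three (by linarith) (by linarith) (by linarith) l ψ
    refine (Finset.sum_le_sum fun l _ => h1 l).trans ?_
    rw [Finset.sum_add_distrib, ← Finset.mul_sum, ← Finset.mul_sum]
    have h2 := hD (2 * T) (16 * T) (by linarith) (by linarith) (by linarith) (by linarith)
    have h3 := hD (2 * T) (20 * τ) (by linarith) (by linarith) (by linarith) (by linarith)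
    linarith
  refine (Finset.sum_le_sum fun j _ => hj j).trans ?_
  rw [← Finset.mul_sum, Finset.sum_add_distrib, ← Finset.mul_sum, ← Finset.mul_sum]
  have h1 := mul_le_mul_of_nonneg_left hsum1 hA0
  have h2 := mul_le_mul_of_nonneg_left hsum2 hB0
  have h3 : (C0 * H) ^ 2 * (A * ∑ j, ∑ l ∈ Finset.univ.erase j, F j l
      + B * ∑ j, ∑ l ∈ Finset.univ.erase j, ∑ m ∈ (Finset.univ.erase j).erase l, G j l m)
      ≤ (C0 * H) ^ 2 * (A * (1 / N * MD) + B * MD) :=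
    mul_le_mul_of_nonneg_left (add_le_add h1 h2) (sq_nonneg _)
  refine h3.trans ?_
  have h5 : A * (1 / N * MD) + B * MD ≤
      (B + 8) * ((Real.sqrt τ)⁻¹ ^ 3 / N + 1) * MD := by
    have h6 : 0 ≤ (Real.sqrt τ)⁻¹ ^ 3 / N * MD := by positivity
    have h7 : A * (1 / N * MD) = 8 * ((Real.sqrt τ)⁻¹ ^ 3 / N * MD) := by
      rw [hA]
      ring
    have h8 : 0 ≤ B * ((Real.sqrt τ)⁻¹ ^ 3 / N * MD) := mul_nonneg hB0 h6
    rw [h7]
    nlinarith
  calc (C0 * H) ^ 2 * (A * (1 / N * MD) + B * MD)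
      ≤ (C0 * H) ^ 2 * ((B + 8) * ((Real.sqrt τ)⁻¹ ^ 3 / N + 1) * MD) :=
        mul_le_mul_of_nonneg_left h5 (sq_nonneg _)
    _ = _ := by ring

end Pool.Agent.Lib.MP_4952d6_mp.O

end

/-! ### O.XL -/

section

/-!
# O.XL: sums of smoothed charges

`χ = cn (hk(t/2)) h`, `0 ≤ χ ≤ C₁ H hk t` (`cn_hk_le` with `s = t/2`, `R² ≤ t/2`; `cn_nonneg`), `χ` is `BM` (`cn_bm`) and even (`cn_neg`).
`HPc_sum1`: `∑_l HP χ j l (F j)` is a.e. `(∑_l χ(x_j-x_l)) F_j(x)` (`Ker_HP_ae`), so the norm² is `qf ((∑_l χ)²) F_j ≤ (C₁H)² qf (crowd t j ²) F_j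
≤ (C₁ H)² cw t j (F j)`.
`HPc_sum2`: a.e. `|∑_l χ_l F_l|² ≤ (∑_m χ_m)(∑_l χ_l |F_l|²)` (Cauchy-Schwarz, or `norm_sum_sq_le` of O/XS.lean with `k l = χ(x_j-x_l)`,
`d l = ‖F_l x‖²`), so `‖·‖² ≤ ∑_l ∑_m qf (χ_m χ_l) F_l`. `m = l`: `χ_l² ≤ (C₁H)² hk t (x_j-x_l)² ≤ (C₁H)² 8(√t)⁻¹³ hk t (x_j-x_l)` (`hk_sup`), sum
over `j ≠ l` (exchange the order of the sums): `qf (crowd t l) F_l ≤ (1/N) cw t l F_l ≤ (C/N) cw (4t) l F_l` (`qf_crowd_le_cw`; `sum_hk_le` changes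
the time). `m ≠ l`: `hk_mul_le` with `a = x_j - x_m`, `b = x_j - x_l`: `χ_mχ_l ≤ (C₁H)² 64 hk(4t)(x_l-x_m) hk(4t)(x_j-x_l)`; `sum_triple` to have
`l` outermost, `hk_neg`, `sum_hk_hk_le` with `s = r = 4t`: total `C H² ∑_l cw (4t) l (F l)`.
-/

set_option autoImplicit false
set_option linter.unusedSectionVars false
set_option linter.unusedVariables false
open MeasureTheory Function Filter Topology Set ComplexConjugate

namespace Pool.Agent.Lib.MP_4952d6_mp.O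

open LB

/-- Cauchy-Schwarz for a sum of smoothed charges. -/
theorem XL_norm {N : ℕ} (S : Finset (Fin N)) {χ : T3 → ℝ} (hχ : BM χ) (h0 : ∀ z, 0 ≤ χ z)
    (j : Fin N) (G : Fin N → HS (Fin N)) :
    ‖∑ l ∈ S, HP χ j l (G l)‖ ^ 2
      ≤ ∑ l ∈ S, ∑ m ∈ S, qf (fun x => χ (x j - x m) * χ (x j - x l)) (G l) := by
  have hb : ∀ l m : Fin N, BM (fun x : Fin N → T3 => χ (x j - x m) * χ (x j - x l)) := fun l m =>
    (bm_diff hχ j m).mul (bm_diff hχ j l)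
  have e1 : ∑ l ∈ S, ∑ m ∈ S, qf (fun x => χ (x j - x m) * χ (x j - x l)) (G l) =
      ∫ x, ∑ l ∈ S, ∑ m ∈ S, (χ (x j - x m) * χ (x j - x l)) * ‖G l x‖ ^ 2 ∂(piN (Fin N)) := by
    rw [integral_finsetSum S fun l _ => integrable_finsetSum S fun m _ => qf_int (hb l m) (G l)]
    refine Finset.sum_congr rfl fun l _ => ?_
    rw [integral_finsetSum S fun m _ => qf_int (hb l m) (G l)]
    rfl
  rw [e1, norm_sq_eq]
  refine integral_mono_ae (integrable_norm_sq _)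
    (integrable_finsetSum S fun l _ => integrable_finsetSum S fun m _ => qf_int (hb l m) (G l)) ?_
  have hae : ∀ᵐ x ∂(piN (Fin N)), ∀ l : Fin N,
      (HP χ j l (G l) : (Fin N → T3) → ℂ) x = ((χ (x j - x l) : ℝ) : ℂ) * G l x :=
    ae_all_iff.2 fun l => Ker_HP_ae hχ j l (G l)
  filter_upwards [hae, Lp.coeFn_fun_finsetSum S fun l => HP χ j l (G l)] with x hx1 hx2
  rw [hx2]
  simp_rw [hx1]
  have h1 : ‖∑ l ∈ S, ((χ (x j - x l) : ℝ) : ℂ) * G l x‖ ≤ ∑ l ∈ S, χ (x j - x l) * ‖G l x‖ := by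
    refine (norm_sum_le _ _).trans (Finset.sum_le_sum fun l _ => ?_)
    rw [norm_mul, Complex.norm_real, Real.norm_eq_abs, abs_of_nonneg (h0 _)]
  have h2 : (∑ l ∈ S, χ (x j - x l) * ‖G l x‖) ^ 2 ≤
      (∑ m ∈ S, χ (x j - x m)) * ∑ l ∈ S, χ (x j - x l) * ‖G l x‖ ^ 2 := by
    have h3 := Finset.sum_mul_sq_le_sq_mul_sq S (fun l => Real.sqrt (χ (x j - x l)))
      (fun l => Real.sqrt (χ (x j - x l)) * ‖G l x‖)
    have h4 : ∀ l, Real.sqrt (χ (x j - x l)) * (Real.sqrt (χ (x j - x l)) * ‖G l x‖) =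
        χ (x j - x l) * ‖G l x‖ := fun l => by
      rw [← mul_assoc, Real.mul_self_sqrt (h0 _)]
    have h5 : ∀ l, (Real.sqrt (χ (x j - x l)) * ‖G l x‖) ^ 2 = χ (x j - x l) * ‖G l x‖ ^ 2 :=
      fun l => by rw [mul_pow, Real.sq_sqrt (h0 _)]
    have h6 : ∀ l, Real.sqrt (χ (x j - x l)) ^ 2 = χ (x j - x l) := fun l => Real.sq_sqrt (h0 _)
    simp only [h4, h5, h6] at h3
    exact h3
  have h7 : (∑ m ∈ S, χ (x j - x m)) * ∑ l ∈ S, χ (x j - x l) * ‖G l x‖ ^ 2 =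
      ∑ l ∈ S, ∑ m ∈ S, (χ (x j - x m) * χ (x j - x l)) * ‖G l x‖ ^ 2 := by
    rw [Finset.mul_sum]
    refine Finset.sum_congr rfl fun l _ => ?_
    rw [Finset.sum_mul]
    exact Finset.sum_congr rfl fun m _ => (mul_assoc _ _ _).symm
  calc ‖∑ l ∈ S, ((χ (x j - x l) : ℝ) : ℂ) * G l x‖ ^ 2
      ≤ (∑ l ∈ S, χ (x j - x l) * ‖G l x‖) ^ 2 := pow_le_pow_left₀ (norm_nonneg _) h1 2
    _ ≤ _ := h2
    _ = _ := h7

/-- The smoothed charge. -/
theorem XL_chi : ∃ C : ℝ, 0 ≤ C ∧ ∀ (t H R : ℝ) (h : T3 → ℝ), 0 < t → SR H R h →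
    0 ≤ R → R ^ 2 ≤ t / 8 → BM (cn (hk (t / 2)) h) ∧ 0 ≤ H ∧ (∀ z, 0 ≤ cn (hk (t / 2)) h z) ∧
      ∀ z, cn (hk (t / 2)) h z ≤ C * H * hk t z := by
  obtain ⟨C, hC0, hC⟩ := cn_hk_le
  refine ⟨C, hC0, fun t H R h ht hh hR0 hR => ⟨cn_bm (hk_bm (half_pos ht)) hh.bm, ?_, ?_, ?_⟩⟩
  · rw [← hh.int]
    exact integral_nonneg hh.nonneg
  · exact cn_nonneg (fun z => hk_nonneg _ z) hh.nonneg
  · intro z
    have h1 := hC (t / 2) H R h (half_pos ht) hh (by linarith) hR0 z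
    rwa [show 2 * (t / 2) = t by ring] at h1

theorem HPc_sum1 : ∃ C : ℝ, 0 ≤ C ∧ ∀ (N : ℕ) (t H R : ℝ) (h : T3 → ℝ), 0 < t → t ≤ 1 → SR H R h →
    0 ≤ R → R ^ 2 ≤ t / 8 → ∀ F : Fin N → HS (Fin N),
    ∑ j, ‖∑ l ∈ Finset.univ.erase j, HP (cn (hk (t / 2)) h) j l (F j)‖ ^ 2
      ≤ C * H ^ 2 * ∑ j, cw t j (F j) := by
  obtain ⟨C, hC0, hC⟩ := XL_chi
  refine ⟨C ^ 2, sq_nonneg _, fun N t H R h ht ht1 hh hR0 hR F => ?_⟩
  obtain ⟨hb, hH, hn, hle⟩ := hC t H R h ht hh hR0 hR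
  generalize cn (hk (t / 2)) h = χ at hb hn hle
  rw [Finset.mul_sum]
  refine Finset.sum_le_sum fun j _ => ?_
  refine (XL_norm (Finset.univ.erase j) hb hn j (fun _ => F j)).trans ?_
  have hbm : ∀ l m : Fin N, BM (fun x : Fin N → T3 => χ (x j - x m) * χ (x j - x l)) := fun l m =>
    (bm_diff hb j m).mul (bm_diff hb j l)
  have e1 : ∑ l ∈ Finset.univ.erase j, ∑ m ∈ Finset.univ.erase j,
      qf (fun x => χ (x j - x m) * χ (x j - x l)) (F j) =
      qf (fun x => ∑ l ∈ Finset.univ.erase j, ∑ m ∈ Finset.univ.erase j,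
        χ (x j - x m) * χ (x j - x l)) (F j) := by
    rw [qf_sum (Finset.univ.erase j) fun l _ => BM.finset_sum _ fun m _ => hbm l m]
    refine Finset.sum_congr rfl fun l _ => ?_
    rw [qf_sum (Finset.univ.erase j) fun m _ => hbm l m]
  rw [e1]
  unfold cw
  rw [← qf_smul]
  refine qf_mono (BM.finset_sum _ fun l _ => BM.finset_sum _ fun m _ => hbm l m)
    ((Sums_bm ht j).const_mul _) (Filter.Eventually.of_forall fun x => ?_) (F j)
  have h1 : ∑ l ∈ Finset.univ.erase j, ∑ m ∈ Finset.univ.erase j,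
      χ (x j - x m) * χ (x j - x l) = (∑ l ∈ Finset.univ.erase j, χ (x j - x l)) ^ 2 := by
    rw [pow_two, Finset.sum_mul_sum, Finset.sum_comm]
  have h2 : ∑ l ∈ Finset.univ.erase j, χ (x j - x l) ≤ C * H * crowd t j x := by
    unfold crowd
    rw [Finset.mul_sum]
    exact Finset.sum_le_sum fun l _ => hle _
  have h3 : 0 ≤ ∑ l ∈ Finset.univ.erase j, χ (x j - x l) := Finset.sum_nonneg fun l _ => hn _
  have h4 := crowd_nonneg t j x
  have h5 : (0 : ℝ) ≤ N := Nat.cast_nonneg N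
  calc ∑ l ∈ Finset.univ.erase j, ∑ m ∈ Finset.univ.erase j, χ (x j - x m) * χ (x j - x l)
      = (∑ l ∈ Finset.univ.erase j, χ (x j - x l)) ^ 2 := h1
    _ ≤ (C * H * crowd t j x) ^ 2 := pow_le_pow_left₀ h3 h2 2
    _ = C ^ 2 * H ^ 2 * crowd t j x ^ 2 := by ring
    _ ≤ C ^ 2 * H ^ 2 * (crowd t j x + N) ^ 2 :=
        mul_le_mul_of_nonneg_left (pow_le_pow_left₀ h4 (by linarith) 2)
          (mul_nonneg (sq_nonneg _) (sq_nonneg _))

theorem HPc_sum2 : ∃ C : ℝ, 0 ≤ C ∧ ∀ (N : ℕ) (t H R : ℝ) (h : T3 → ℝ), 0 < N → 0 < t → t ≤ 1 →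
    SR H R h → 0 ≤ R → R ^ 2 ≤ t / 8 → ∀ F : Fin N → HS (Fin N),
    ∑ j, ‖∑ l ∈ Finset.univ.erase j, HP (cn (hk (t / 2)) h) j l (F l)‖ ^ 2
      ≤ C * H ^ 2 * ((Real.sqrt t)⁻¹ ^ 3 / N + 1) * ∑ l, cw (4 * t) l (F l) := by
  obtain ⟨C, hC0, hC⟩ := XL_chi
  refine ⟨64 * C ^ 2, by positivity, fun N t H R h hN ht ht1 hh hR0 hR F => ?_⟩
  obtain ⟨hb, hH, hn, hle⟩ := hC t H R h ht hh hR0 hR
  generalize cn (hk (t / 2)) h = χ at hb hn hle
  have hNr : (0 : ℝ) < N := by exact_mod_cast hN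
  have h4t : 0 < 4 * t := by linarith
  have hCH : 0 ≤ (C * H) ^ 2 := sq_nonneg _
  set T : Fin N → Fin N → Fin N → ℝ :=
    fun j l m => qf (fun x => χ (x j - x m) * χ (x j - x l)) (F l) with hT
  have hbm : ∀ j l m : Fin N, BM (fun x : Fin N → T3 => χ (x j - x m) * χ (x j - x l)) :=
    fun j l m => (bm_diff hb j m).mul (bm_diff hb j l)
  have hkb : ∀ {s : ℝ}, 0 < s → ∀ a b : Fin N, BM (fun x : Fin N → T3 => hk s (x a - x b)) :=
    fun hs a b => Sums_hk_bm hs a b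
  have hsq : Real.sqrt (4 * t / t) = 2 := by
    rw [mul_div_assoc, div_self ht.ne', mul_one, show (4 : ℝ) = 2 ^ 2 by norm_num,
      Real.sqrt_sq (by norm_num)]
  -- the first estimate
  have s1 : ∑ j, ‖∑ l ∈ Finset.univ.erase j, HP χ j l (F l)‖ ^ 2 ≤
      ∑ j, ∑ l ∈ Finset.univ.erase j, T j l l +
        ∑ j, ∑ l ∈ Finset.univ.erase j, ∑ m ∈ (Finset.univ.erase j).erase l, T j l m := by
    rw [← Finset.sum_add_distrib]
    refine Finset.sum_le_sum fun j _ => ?_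
    refine (XL_norm (Finset.univ.erase j) hb hn j F).trans (le_of_eq ?_)
    rw [← Finset.sum_add_distrib]
    exact Finset.sum_congr rfl fun l hl =>
      (Finset.add_sum_erase _ (fun m => T j l m) hl).symm
  -- the diagonal
  have s2 : ∑ j, ∑ l ∈ Finset.univ.erase j, T j l l ≤
      64 * (C * H) ^ 2 * ((Real.sqrt t)⁻¹ ^ 3 / N) * ∑ l, cw (4 * t) l (F l) := by
    rw [Finset.sum_comm' (s' := fun l => Finset.univ.erase l) (t' := Finset.univ)
      (by intro a b; simp [ne_comm]), Finset.mul_sum]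
    refine Finset.sum_le_sum fun l _ => ?_
    have h1 : ∀ j ∈ Finset.univ.erase l, T j l l ≤ (C * H) ^ 2 * (8 * (Real.sqrt t)⁻¹ ^ 3) *
        qf (fun x => hk t (x l - x j)) (F l) := by
      intro j _
      rw [hT, ← qf_smul]
      refine qf_mono (hbm j l l) ((hkb ht l j).const_mul _)
        (Filter.Eventually.of_forall fun x => ?_) (F l)
      have e1 : hk t (x l - x j) = hk t (x j - x l) := by rw [← hk_neg, neg_sub]
      have e2 := hle (x j - x l)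
      have e3 := hn (x j - x l)
      have e4 := hk_sup ht ht1 (x j - x l)
      have e5 := hk_nonneg t (x j - x l)
      rw [e1]
      calc χ (x j - x l) * χ (x j - x l)
          ≤ (C * H * hk t (x j - x l)) * (C * H * hk t (x j - x l)) :=
            mul_le_mul e2 e2 e3 (e3.trans e2)
        _ = (C * H) ^ 2 * (hk t (x j - x l) * hk t (x j - x l)) := by ring
        _ ≤ (C * H) ^ 2 * ((8 * (Real.sqrt t)⁻¹ ^ 3) * hk t (x j - x l)) :=
            mul_le_mul_of_nonneg_left (mul_le_mul_of_nonneg_right e4 e5) hCH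
        _ = _ := by ring
    have h2 := sum_hk_le ht (by linarith : t ≤ 4 * t) l (F l)
    have h3 := qf_crowd_le_cw h4t l (F l)
    rw [hsq] at h2
    have h4 : qf (crowd (4 * t) l) (F l) ≤ cw (4 * t) l (F l) / N := by
      rw [le_div_iff₀ hNr, mul_comm]
      exact h3
    have h5 : 0 ≤ (C * H) ^ 2 * (8 * (Real.sqrt t)⁻¹ ^ 3) :=
      mul_nonneg hCH (mul_nonneg (by norm_num) (pow_nonneg (inv_nonneg.2 (Real.sqrt_nonneg _)) 3))
    calc ∑ j ∈ Finset.univ.erase l, T j l l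
        ≤ ∑ j ∈ Finset.univ.erase l, (C * H) ^ 2 * (8 * (Real.sqrt t)⁻¹ ^ 3) *
            qf (fun x => hk t (x l - x j)) (F l) := Finset.sum_le_sum h1
      _ = (C * H) ^ 2 * (8 * (Real.sqrt t)⁻¹ ^ 3) *
            ∑ j ∈ Finset.univ.erase l, qf (fun x => hk t (x l - x j)) (F l) := by
          rw [Finset.mul_sum]
      _ ≤ (C * H) ^ 2 * (8 * (Real.sqrt t)⁻¹ ^ 3) * (2 ^ 3 * (cw (4 * t) l (F l) / N)) :=
          mul_le_mul_of_nonneg_left (h2.trans (mul_le_mul_of_nonneg_left h4 (by norm_num))) h5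
      _ = 64 * (C * H) ^ 2 * ((Real.sqrt t)⁻¹ ^ 3 / N) * cw (4 * t) l (F l) := by ring
  -- off the diagonal
  have s3 : ∑ j, ∑ l ∈ Finset.univ.erase j, ∑ m ∈ (Finset.univ.erase j).erase l, T j l m ≤
      64 * (C * H) ^ 2 * ∑ l, cw (4 * t) l (F l) := by
    rw [sum_triple_swap, sum_triple, Finset.mul_sum]
    refine Finset.sum_le_sum fun l _ => ?_
    have h1 : ∀ j ∈ Finset.univ.erase l, ∀ m ∈ (Finset.univ.erase l).erase j,
        T j l m ≤ 64 * (C * H) ^ 2 *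
          (qf (fun x => hk (4 * t) (x l - x j) * hk (4 * t) (x l - x m)) (F l) + ‖F l‖ ^ 2) := by
      intro j _ m _
      have e0 : T j l m ≤ 64 * (C * H) ^ 2 *
          qf (fun x => hk (4 * t) (x l - x j) * hk (4 * t) (x l - x m)) (F l) := by
        rw [hT, ← qf_smul]
        refine qf_mono (hbm j l m) (((hkb h4t l j).mul (hkb h4t l m)).const_mul _)
          (Filter.Eventually.of_forall fun x => ?_) (F l)
        have e1 : hk (4 * t) (x l - x j) = hk (4 * t) (x j - x l) := by rw [← hk_neg, neg_sub]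
        have e2 := hle (x j - x m)
        have e3 := hle (x j - x l)
        have e4 := hn (x j - x m)
        have e5 := hn (x j - x l)
        have e6 := hk_mul_le ht le_rfl (x j - x m) (x j - x l)
        rw [show x j - x m - (x j - x l) = x l - x m by abel] at e6
        rw [e1]
        calc χ (x j - x m) * χ (x j - x l)
            ≤ (C * H * hk t (x j - x m)) * (C * H * hk t (x j - x l)) :=
              mul_le_mul e2 e3 e5 (e4.trans e2)
          _ = (C * H) ^ 2 * (hk t (x j - x m) * hk t (x j - x l)) := by ring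
          _ ≤ (C * H) ^ 2 * (64 * (hk (4 * t) (x l - x m) * hk (4 * t) (x j - x l))) :=
              mul_le_mul_of_nonneg_left e6 hCH
          _ = 64 * (C * H) ^ 2 * (hk (4 * t) (x j - x l) * hk (4 * t) (x l - x m)) := by ring
      refine e0.trans (mul_le_mul_of_nonneg_left ?_ (by positivity))
      linarith [sq_nonneg ‖F l‖]
    have h2 := sum_hk_hk_le h4t le_rfl l (F l)
    rw [div_self h4t.ne', Real.sqrt_one, one_pow, one_pow, one_mul] at h2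
    calc ∑ j ∈ Finset.univ.erase l, ∑ m ∈ (Finset.univ.erase l).erase j, T j l m
        ≤ ∑ j ∈ Finset.univ.erase l, ∑ m ∈ (Finset.univ.erase l).erase j, 64 * (C * H) ^ 2 *
          (qf (fun x => hk (4 * t) (x l - x j) * hk (4 * t) (x l - x m)) (F l) + ‖F l‖ ^ 2) :=
          Finset.sum_le_sum fun j hj => Finset.sum_le_sum fun m hm => h1 j hj m hm
      _ = 64 * (C * H) ^ 2 * ∑ j ∈ Finset.univ.erase l, ∑ m ∈ (Finset.univ.erase l).erase j,
          (qf (fun x => hk (4 * t) (x l - x j) * hk (4 * t) (x l - x m)) (F l) + ‖F l‖ ^ 2) := by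
          simp_rw [Finset.mul_sum]
      _ ≤ 64 * (C * H) ^ 2 * cw (4 * t) l (F l) :=
          mul_le_mul_of_nonneg_left h2 (by positivity)
  calc ∑ j, ‖∑ l ∈ Finset.univ.erase j, HP χ j l (F l)‖ ^ 2
      ≤ 64 * (C * H) ^ 2 * ((Real.sqrt t)⁻¹ ^ 3 / N) * ∑ l, cw (4 * t) l (F l) +
        64 * (C * H) ^ 2 * ∑ l, cw (4 * t) l (F l) := s1.trans (add_le_add s2 s3)
    _ = 64 * C ^ 2 * H ^ 2 * ((Real.sqrt t)⁻¹ ^ 3 / N + 1) * ∑ l, cw (4 * t) l (F l) := by ring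

end Pool.Agent.Lib.MP_4952d6_mp.O

end

/-! ### O.WC4 -/

section

/-! # O.WC4: localisation error for `RR`

Let `F : HS ι` be the class of `x ↦ (‖f x‖ : ℂ)` (`MemLp.toLp`), `Kabs x q = hk (t/2) (x - q.1) θ q.1 hk (t/2) (q.1 - q.2) ≥ 0`.
`rho_ae` (summed over `j`): for a.e. `x`, with `a_j q = hk.. * (ch (-k) q.1 θ q.1) * hk.. * f (update x j q.2)`,
`(RR t θ k f) x = Σ_j ∫ a_j`, `(RR t θ k (MB cos h f)) x = Σ_j ∫ a_j q cos (h (update x j q.2)) dq` (`MB_ae` and `mp_upd`),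
`(RR t θ 0 F) x = Σ_j ∫ ‖a_j‖` (`ch 0 = 1`, `neg_zero`, `‖ch‖ = 1`; `F (update x j y) = ‖f (update x j y)‖` for a.e. `y`).
`ims_scalar` with `X = T3 × T3`, `μ = lam3.prod lam3`, `η0 = h x`, `η_j q = h (update x j q.2) - h x` gives a.e.
`‖(RR t θ k (MB cos h f)) x‖² ≤ ‖(RR t θ k f) x‖² + 3 δ² ‖(RR t θ 0 F) x‖²`; integrate (`norm_sq_eq`) and use `norm_RR0_le` for `F`;
`qf G F = qf G f` because `‖F x‖ = ‖f x‖` a.e. -/

set_option autoImplicit false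
set_option linter.unusedSectionVars false
set_option linter.unusedVariables false
open MeasureTheory Function Filter Topology Set ComplexConjugate

namespace Pool.Agent.Lib.MP_4952d6_mp.O

open LB

variable {ι : Type*} [Fintype ι] [DecidableEq ι]

theorem WC4_ae_upd (j : ι) {P : (ι → T3) → Prop} (h : ∀ᵐ x ∂(piN ι), P x) :
    ∀ᵐ x ∂(piN ι), ∀ᵐ q : T3 × T3 ∂(lam3.prod lam3), P (update x j q.2) := by
  have h1 : ∀ᵐ q ∂((piN ι).prod lam3), P (update q.1 j q.2) :=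
    (LB.mp_upd (ι := ι) j).quasiMeasurePreserving.ae h
  have h2 := Measure.ae_ae_of_ae_prod h1
  filter_upwards [h2] with x hx
  exact Measure.quasiMeasurePreserving_snd.ae hx

theorem WC4_coe_sum {κ : Type*} (s : Finset κ) (F : κ → HS ι) :
    ∀ᵐ x ∂(piN ι), (∑ j ∈ s, F j : HS ι) x = ∑ j ∈ s, (F j : (ι → T3) → ℂ) x := by
  classical
  induction s using Finset.induction_on with
  | empty =>
    simp only [Finset.sum_empty]
    filter_upwards [Lp.coeFn_zero ℂ 2 (piN ι)] with x hx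
    rw [hx]
    rfl
  | insert a s ha ih =>
    rw [Finset.sum_insert ha]
    filter_upwards [Lp.coeFn_add (F a) (∑ j ∈ s, F j), ih] with x h1 h2
    rw [Finset.sum_insert ha, h1, Pi.add_apply, h2]

/-- the integrand of `rho_ae` -/
noncomputable def WC4_a (t : ℝ) (θ : T3 → ℝ) (k : Fin 3 → ℤ) (j : ι) (f : HS ι) (x : ι → T3)
    (q : T3 × T3) : ℂ :=
  ((hk (t / 2) (x j - q.1) : ℝ) : ℂ) * (ch (-k) q.1 * (θ q.1 : ℂ))
    * ((hk (t / 2) (q.1 - q.2) : ℝ) : ℂ) * f (update x j q.2)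

theorem WC4_RR {t : ℝ} (ht : 0 < t) {θ : T3 → ℝ} (hθ : BM θ) (k : Fin 3 → ℤ) (f : HS ι) :
    ∀ᵐ x ∂(piN ι), (∀ j : ι, Integrable (WC4_a t θ k j f x) (lam3.prod lam3)) ∧
      (RR t θ k f) x = ∑ j, ∫ q, WC4_a t θ k j f x q ∂(lam3.prod lam3) := by
  have h1 : ∀ᵐ x ∂(piN ι), ∀ j : ι, Integrable (WC4_a t θ k j f x) (lam3.prod lam3) := by
    rw [ae_all_iff]
    intro j
    exact (rho_ae ht hθ k j f).1
  have h2 : ∀ᵐ x ∂(piN ι), ∀ j : ι, (rho t θ k j f) x = ∫ q, WC4_a t θ k j f x q ∂(lam3.prod lam3) := by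
    rw [ae_all_iff]
    intro j
    exact (rho_ae ht hθ k j f).2
  have h3 := WC4_coe_sum (ι := ι) Finset.univ (fun j => rho t θ k j f)
  filter_upwards [h1, h2, h3] with x a b c
  refine ⟨a, ?_⟩
  unfold RR
  rw [c]
  exact Finset.sum_congr rfl fun j _ => b j

theorem WC4_norm {t : ℝ} {θ : T3 → ℝ} (hθ : ∀ x, 0 ≤ θ x) (k : Fin 3 → ℤ) (j : ι) (f F : HS ι)
    (x : ι → T3) (q : T3 × T3) (hF : F (update x j q.2) = ((‖f (update x j q.2)‖ : ℝ) : ℂ)) :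
    WC4_a t θ 0 j F x q = ((‖WC4_a t θ k j f x q‖ : ℝ) : ℂ) := by
  unfold WC4_a
  rw [hF, neg_zero, ch_zero, norm_mul, norm_mul, norm_mul, norm_mul, ch_norm, Complex.norm_real,
    Complex.norm_real, Complex.norm_real, Real.norm_eq_abs, Real.norm_eq_abs, Real.norm_eq_abs,
    abs_of_nonneg (hk_nonneg _ _), abs_of_nonneg (hk_nonneg _ _), abs_of_nonneg (hθ _)]
  push_cast
  ring

theorem WC4_ae {t : ℝ} (ht : 0 < t) {θ : T3 → ℝ} {c S : ℝ} (hW : Win θ c S) (k : Fin 3 → ℤ)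
    {h : (ι → T3) → ℝ} {δ : ℝ} (hh : OsW h δ) (hδ : δ ≤ 1) (f F : HS ι)
    (hF : ∀ᵐ x ∂(piN ι), F x = ((‖f x‖ : ℝ) : ℂ)) :
    ∀ᵐ x ∂(piN ι), ‖(RR t θ k (MB (fun x => ((Real.cos (h x) : ℝ) : ℂ)) f)) x‖ ^ 2
      ≤ ‖(RR t θ k f) x‖ ^ 2 + 3 * δ ^ 2 * ‖(RR t θ 0 F) x‖ ^ 2 := by
  have hcos : BMC (fun x : ι → T3 => ((Real.cos (h x) : ℝ) : ℂ)) := by
    refine ⟨(Complex.measurable_ofReal.comp (Real.measurable_cos.comp hh.1)).stronglyMeasurable, 1,
      fun x => ?_⟩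
    rw [Complex.norm_real, Real.norm_eq_abs]
    exact Real.abs_cos_le_one _
  have h1 := WC4_RR ht hW.bm k f
  have h2 := WC4_RR ht hW.bm k (MB (fun x => ((Real.cos (h x) : ℝ) : ℂ)) f)
  have h3 := WC4_RR ht hW.bm 0 F
  have h4 : ∀ᵐ x ∂(piN ι), ∀ j : ι, ∀ᵐ q : T3 × T3 ∂(lam3.prod lam3),
      (MB (fun x => ((Real.cos (h x) : ℝ) : ℂ)) f) (update x j q.2)
        = ((Real.cos (h (update x j q.2)) : ℝ) : ℂ) * f (update x j q.2) := by
    rw [ae_all_iff]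
    intro j
    exact WC4_ae_upd j (MB_ae hcos f)
  have h5 : ∀ᵐ x ∂(piN ι), ∀ j : ι, ∀ᵐ q : T3 × T3 ∂(lam3.prod lam3),
      F (update x j q.2) = ((‖f (update x j q.2)‖ : ℝ) : ℂ) := by
    rw [ae_all_iff]
    intro j
    exact WC4_ae_upd j hF
  filter_upwards [h1, h2, h3, h4, h5] with x a1 a2 a3 a4 a5
  have e2 : (RR t θ k (MB (fun x => ((Real.cos (h x) : ℝ) : ℂ)) f)) x
      = ∑ j, ∫ q, WC4_a t θ k j f x q
        * ((Real.cos (h x + (h (update x j q.2) - h x)) : ℝ) : ℂ) ∂(lam3.prod lam3) := by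
    rw [a2.2]
    refine Finset.sum_congr rfl fun j _ => integral_congr_ae ?_
    filter_upwards [a4 j] with q hq
    show WC4_a t θ k j (MB (fun x => ((Real.cos (h x) : ℝ) : ℂ)) f) x q = _
    rw [add_sub_cancel]
    unfold WC4_a
    rw [hq]
    ring
  have e3 : ‖(RR t θ 0 F) x‖ = |∑ j, ∫ q, ‖WC4_a t θ k j f x q‖ ∂(lam3.prod lam3)| := by
    rw [a3.2]
    have : ∑ j, ∫ q, WC4_a t θ 0 j F x q ∂(lam3.prod lam3)
        = ((∑ j, ∫ q, ‖WC4_a t θ k j f x q‖ ∂(lam3.prod lam3) : ℝ) : ℂ) := by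
      rw [Complex.ofReal_sum]
      refine Finset.sum_congr rfl fun j _ => ?_
      rw [← integral_complex_ofReal]
      refine integral_congr_ae ?_
      filter_upwards [a5 j] with q hq
      exact WC4_norm hW.nn k j f F x q hq
    rw [this, Complex.norm_real, Real.norm_eq_abs]
  rw [e2, e3, sq_abs, a1.2]
  refine ims_scalar (lam3.prod lam3) (fun j q => WC4_a t θ k j f x q) a1.1
    (fun j q => h (update x j q.2) - h x) (fun j => ?_) hδ (fun j q => hh.2 x j q.2) (h x)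
  exact (hh.1.comp ((measurable_update x (a := j)).comp measurable_snd)).sub_const _

theorem ims_RR {t : ℝ} (ht : 0 < t) {θ : T3 → ℝ} {c S : ℝ} (hW : Win θ c S) (k : Fin 3 → ℤ)
    {h : (ι → T3) → ℝ} {δ : ℝ} (hh : OsW h δ) (hδ : δ ≤ 1) (f : HS ι) :
    ‖RR t θ k (MB (fun x => ((Real.cos (h x) : ℝ) : ℂ)) f)‖ ^ 2
      ≤ ‖RR t θ k f‖ ^ 2 + 3 * δ ^ 2 * (qf (fun x => (∑ j, Pr t θ (x j)) ^ 2) f
        + S * qf (fun x => ∑ j, Pr t θ (x j)) f) := by
  have hmem : MemLp (fun x => ((‖f x‖ : ℝ) : ℂ)) 2 (piN ι) := by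
    refine (Lp.memLp f).of_le
      (Complex.continuous_ofReal.comp_aestronglyMeasurable (Lp.aestronglyMeasurable f).norm)
      (Eventually.of_forall fun x => ?_)
    rw [Complex.norm_real, norm_norm]
  set F : HS ι := hmem.toLp (fun x => ((‖f x‖ : ℝ) : ℂ)) with hFdef
  have hF : ∀ᵐ x ∂(piN ι), F x = ((‖f x‖ : ℝ) : ℂ) := hmem.coeFn_toLp
  have hae := WC4_ae ht hW k hh hδ f F hF
  have h1 : ‖RR t θ k (MB (fun x => ((Real.cos (h x) : ℝ) : ℂ)) f)‖ ^ 2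
      ≤ ‖RR t θ k f‖ ^ 2 + 3 * δ ^ 2 * ‖RR t θ 0 F‖ ^ 2 := by
    rw [norm_sq_eq, norm_sq_eq (RR t θ k f), norm_sq_eq (RR t θ 0 F), ← integral_const_mul,
      ← integral_add (integrable_norm_sq _) ((integrable_norm_sq _).const_mul _)]
    exact integral_mono_ae (integrable_norm_sq _)
      ((integrable_norm_sq _).add ((integrable_norm_sq _).const_mul _)) hae
  have hq : ∀ G : (ι → T3) → ℝ, qf G F = qf G f := by
    intro G
    unfold qf
    refine integral_congr_ae ?_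
    filter_upwards [hF] with x hx
    rw [hx, Complex.norm_real, norm_norm]
  have h2 := norm_RR0_le ht hW F
  rw [hq, hq] at h2
  exact h1.trans (add_le_add le_rfl (mul_le_mul_of_nonneg_left h2 (by positivity)))

end Pool.Agent.Lib.MP_4952d6_mp.O

end

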