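import Pool.Agent.Lib.MP_4952d6_mp.Po.N10

/-! Merged modules (to save import time): O.F2, O.FW. -/

/-! ### O.F2 -/

section

/-!
# O.F2: Griffiths argument
-/

set_option autoImplicit false
set_option linter.unusedSectionVars false
set_option linter.unusedVariables false
open MeasureTheory Function Filter Topology Set
open scoped ENNReal

namespace Pool.Agent.Lib.MP_4952d6_mp.O

open LB

lemma RegO.mono {N : ℕ} {θ CM c c' u : ℝ} {W f Q : ℝ → ℝ} {R₀ R a : ℝ} {𝒱 : T3 → ℝ≥0∞}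
    {ψ : (Fin N → T3) → ℂ} (h : RegO θ CM c u W f Q R₀ R a 𝒱 ψ) (hu : 0 ≤ u) (hc : c ≤ c') :
    RegO θ CM c' u W f Q R₀ R a 𝒱 ψ :=
  { h with
    V_int := h.V_int.trans (ENNReal.ofReal_le_ofReal
      (mul_le_mul_of_nonneg_right hc (mul_nonneg h.sc.a_pos.le (by positivity)))) }

lemma Dm_source {N : ℕ} {b lam l : ℝ} (hl : 0 < l) (ψ : (Fin N → T3) → ℂ) :
    Dm (fun p => Es b lam l p - ksq p) ψ = lam / l ^ 2 * Db (b * l ^ 2) ψ := by
  have h : (fun p => Es b lam l p - ksq p)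
      = fun p => lam / l ^ 2 * (1 - Real.exp (-(b * l ^ 2 * ksq p))) := by
    funext p
    unfold Es eO
    have hl2 : l ^ 2 ≠ 0 := by positivity
    have e : b * (l ^ 2 * ksq p) = b * l ^ 2 * ksq p := by ring
    rw [e]
    field_simp
    ring
  rw [h]
  unfold Db Dm
  rw [Finset.mul_sum]
  refine Finset.sum_congr rfl fun j _ => ?_
  rw [← tsum_mul_left]
  refine tsum_congr fun k => ?_
  ring

lemma F2_one {N : ℕ} {a u : ℝ} (ha : 0 < a) (hu : 0 < u) (hN : (N : ℝ) * a ^ 3 = u ^ 320) :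
    1 / (a / u ^ 160) ^ 2 = N * a ∧ 1 / (a / u ^ 160) ^ 5 = N ^ 2 * a * u ^ 160 ∧ (0:ℝ) < N := by
  have hNe : (N : ℝ) = u ^ 320 / a ^ 3 := by
    rw [eq_div_iff (by positivity)]; exact hN
  refine ⟨?_, ?_, ?_⟩
  · rw [hNe]; field_simp
  · rw [hNe]; field_simp
  · rw [hNe]; positivity

/-- Comparison of the energy bounds for one source. -/
lemma F2_step (hL : OLStatement) (hJ : OJStatement) (hU : UStatement) {θ CM b lam η : ℝ}
    (hb : 0 < b) (h1 : |lam| * b ≤ 1 / 8) (h2 : |lam| ≤ 1 / 8) (hη : 0 < η) :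
    ∃ c u₀ : ℝ, 0 < c ∧ 0 < u₀ ∧ ∀ u : ℝ, 0 < u → u < u₀ → ∃ a₀ : ℝ, 0 < a₀ ∧
      ∀ (N : ℕ) (W f Q : ℝ → ℝ) (R₀ R a : ℝ) (𝒱 : T3 → ℝ≥0∞) (ψ : (Fin N → T3) → ℂ), a < a₀ →
      RegO θ CM c u W f Q R₀ R a 𝒱 ψ →
      N ^ 2 * a * u ^ 160 * (Jb b lam - Jf 0 - η)
        ≤ lam * (N * a) * Db (b * (a / u ^ 160) ^ 2) ψ + η * (N * a) * Db ((a / u ^ 160) ^ 2) ψ := by
  obtain ⟨C, u₁, hC, hu₁, hL'⟩ := hL θ CM b lam hb h1 h2
  obtain ⟨u₂, hu₂, hJ'⟩ := hJ b lam (η / 4) hb h1 h2 (by positivity)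
  obtain ⟨CU, Y0, hCU, hY0, hU'⟩ := hU θ (η / 4) (by positivity)
  refine ⟨η / (4 * CU), min (min u₁ u₂) (min (min 1 Y0) (η / (4 * (C + 1)))), by positivity,
    lt_min (lt_min hu₁ hu₂) (lt_min (lt_min one_pos hY0) (by positivity)), fun u hu hlt => ?_⟩
  have hu1 : u < u₁ := hlt.trans_le ((min_le_left _ _).trans (min_le_left _ _))
  have hu2 : u < u₂ := hlt.trans_le ((min_le_left _ _).trans (min_le_right _ _))
  have hu3 : u < 1 := hlt.trans_le ((min_le_right _ _).trans ((min_le_left _ _).trans (min_le_left _ _)))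
  have hu4 : u < Y0 := hlt.trans_le ((min_le_right _ _).trans ((min_le_left _ _).trans (min_le_right _ _)))
  have hu5 : u < η / (4 * (C + 1)) := hlt.trans_le ((min_le_right _ _).trans (min_le_right _ _))
  obtain ⟨a₁, ha₁, hL''⟩ := hL' u hu hu1
  obtain ⟨l₀, hl₀, hJ''⟩ := hJ' u hu hu2
  have hYu : u ^ 160 < Y0 := lt_of_le_of_lt (pow_le_of_le_one hu.le hu3.le (by norm_num)) hu4
  obtain ⟨a₂, ha₂, hU''⟩ := hU' (u ^ 160) (by positivity) hYu
  refine ⟨min (min a₁ a₂) (l₀ * u ^ 160), lt_min (lt_min ha₁ ha₂) (by positivity),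
    fun N W f Q R₀ R a 𝒱 ψ hlta hr => ?_⟩
  have haa1 : a < a₁ := hlta.trans_le ((min_le_left _ _).trans (min_le_left _ _))
  have haa2 : a < a₂ := hlta.trans_le ((min_le_left _ _).trans (min_le_right _ _))
  have haa3 : a < l₀ * u ^ 160 := hlta.trans_le (min_le_right _ _)
  have ha := hr.sc.a_pos
  obtain ⟨e1, e2, hN0⟩ := F2_one ha hu hr.Na
  set l : ℝ := a / u ^ 160 with hl
  have hl0 : 0 < l := by positivity
  have hll : l < l₀ := by rw [hl, div_lt_iff₀ (by positivity)]; exact haa3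
  have hlow := hL'' N W f Q R₀ R a hr.sc haa1 hr.Na hr.Rle 𝒱 hr.V_ge ψ hr.adm hr.loc
  have hj := hJ'' l hl0 hll
  obtain ⟨φ, hφ, hφE⟩ := hU'' N W f Q R₀ R a hr.sc haa2 (by rw [hr.Na]; ring) hr.Rle 𝒱 hr.V_meas
    hr.V_top hr.V_ge
  have hmin := hr.min φ hφ
  set X : ℝ := N ^ 2 * a * u ^ 160 with hX
  have hX0 : 0 < X := by positivity
  have hlX : l ^ 5 * X = 1 := by
    rw [← e2]; field_simp
  have ht : l ^ 2 * u ^ 16 = (a / u ^ 152) ^ 2 := by
    rw [hl]; field_simp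
  rw [ht, JO_eq] at hj
  set S : ℝ := LSO ((a / u ^ 152) ^ 2) b lam l with hS
  have hj2 : (Jb b lam - η / 4) * X ≤ 4 * Real.sqrt Real.pi / u ^ 8 * X + 1 / 2 * S := by
    have h3 := mul_le_mul_of_nonneg_right hj hX0.le
    refine h3.trans (le_of_eq ?_)
    calc (4 * Real.sqrt Real.pi / u ^ 8 + 1 / 2 * l ^ 5 * S) * X
        = 4 * Real.sqrt Real.pi / u ^ 8 * X + 1 / 2 * S * (l ^ 5 * X) := by ring
      _ = _ := by rw [hlX, mul_one]
  rw [Dm_source hl0] at hlow
  have e3 : lam / l ^ 2 = lam * (N * a) := by rw [← e1]; ring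
  rw [e3] at hlow
  set nb : ℝ := Db (b * l ^ 2) ψ with hnb
  set n1 : ℝ := Db (l ^ 2) ψ with hn1
  have hn1' : 0 ≤ n1 := by
    rw [hn1]
    unfold Db Dm
    refine Finset.sum_nonneg fun j _ => tsum_nonneg fun k => mul_nonneg ?_ (sq_nonneg _)
    have : Real.exp (-(l ^ 2 * ksq (k j))) ≤ 1 := by
      rw [Real.exp_le_one_iff]
      have : 0 ≤ l ^ 2 * ksq (k j) := mul_nonneg (sq_nonneg _) (ksq_nonneg _)
      linarith
    linarith
  -- upper bound
  have hup : tE 𝒱 φ ≤ ENNReal.ofReal (4 * Real.pi * N ^ 2 * a + X * (Jf 0 + η / 2)) := by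
    refine hφE.trans ?_
    have h4 : ENNReal.ofReal (CU * N ^ 2) * (∫⁻ y, 𝒱 y ∂lam3 - ∫⁻ y, ENNReal.ofReal (2 * W (rr y)) ∂lam3)
        ≤ ENNReal.ofReal (CU * N ^ 2 * (η / (4 * CU) * (a * u ^ 160))) := by
      rw [ENNReal.ofReal_mul (p := CU * N ^ 2) (by positivity)]
      exact mul_le_mul_right hr.V_int _
    have h5 : CU * N ^ 2 * (η / (4 * CU) * (a * u ^ 160)) = η / 4 * X := by
      rw [hX]; field_simp
    rw [h5] at h4
    refine (add_le_add_right h4 _).trans ?_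
    have hJ0 : 0 ≤ Jf 0 := by
      unfold Jf
      refine mul_nonneg (by positivity) (setIntegral_nonneg measurableSet_Ioi fun r hr => ?_)
      have hr0 : 0 < r := hr
      have h1 := Jg_le_exp (s := r ^ 2) (by positivity)
      rw [jInt_eq, add_zero]
      exact mul_nonneg (sq_nonneg r) h1
    rw [← ENNReal.ofReal_add (by positivity) (by positivity)]
    refine ENNReal.ofReal_le_ofReal (le_of_eq ?_)
    ring
  have hall := hlow.trans (hmin.trans hup)
  have hJ0 : 0 ≤ Jf 0 := by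
    unfold Jf
    refine mul_nonneg (by positivity) (setIntegral_nonneg measurableSet_Ioi fun r hr => ?_)
    have hr0 : 0 < r := hr
    have h1 := Jg_le_exp (s := r ^ 2) (by positivity)
    rw [jInt_eq, add_zero]
    exact mul_nonneg (sq_nonneg r) h1
  have hall' := (ENNReal.ofReal_le_ofReal_iff (by positivity)).1 hall
  have hCu : C * u ≤ η / 4 := by
    rw [lt_div_iff₀ (by positivity)] at hu5
    linarith only [hu5, hu]
  have h6 : C * u * (X + N * a * n1) ≤ η / 4 * (X + N * a * n1) :=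
    mul_le_mul_of_nonneg_right hCu (by positivity)
  have h7 : 0 ≤ N * a * n1 := by positivity
  have h8 : 0 ≤ η * (N * a * n1) := mul_nonneg hη.le h7
  linarith only [hall', hj2, h6, h8]

/-- Numbers. -/
lemma F2_num {X A q n1 nb κ b η ε F Jp Jm J1 J0 : ℝ} (hA : 0 < A) (hq : 0 < q) (hX : X = A * q)
    (hκ : 0 < κ) (hb : 0 < b) (hκb : κ * b ≤ 1 / 8) (hκb2 : κ * b ≤ ε / 12) (hη0 : 0 < η)
    (hη1 : η ≤ 1 / 100) (hη : 5 * η ≤ ε / 4 * κ)
    (hF0 : 0 ≤ F) (hF2 : F ≤ 2) (hJ1 : J0 - J1 ≤ 1 / 8 * (((1 - 1 / 8 * 1) ^ 2)⁻¹ * 2))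
    (hJp : κ * (((1 + κ * b) ^ 2)⁻¹ * F) ≤ Jp - J0) (hJm : J0 - Jm ≤ κ * (((1 - κ * b) ^ 2)⁻¹ * F))
    (i1 : X * (J1 - J0 - η) ≤ -(1 / 8) * A * n1 + η * A * n1)
    (i2 : X * (Jp - J0 - η) ≤ κ * A * nb + η * A * n1)
    (i3 : X * (Jm - J0 - η) ≤ -κ * A * nb + η * A * n1) : |nb / q - F| ≤ ε := by
  subst hX
  have j1 : q * (J1 - J0 - η) ≤ -(1 / 8) * n1 + η * n1 := by
    refine le_of_mul_le_mul_left ?_ hA
    linarith
  have j2 : q * (Jp - J0 - η) ≤ κ * nb + η * n1 := by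
    refine le_of_mul_le_mul_left ?_ hA
    linarith
  have j3 : q * (Jm - J0 - η) ≤ -κ * nb + η * n1 := by
    refine le_of_mul_le_mul_left ?_ hA
    linarith
  have hJ1' : J0 - J1 ≤ 33 / 100 := by
    refine hJ1.trans ?_
    norm_num
  have k1 : n1 ≤ 4 * q := by
    by_contra hcon
    push Not at hcon
    have h1 : q * (J0 - J1 + η) ≤ q * (34 / 100) := mul_le_mul_of_nonneg_left (by linarith) hq.le
    have h2 : (1 / 8 - η) * n1 ≤ q * (J0 - J1 + η) := by linarith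
    have h3 : (1 / 8 - 1 / 100) * n1 ≤ (1 / 8 - η) * n1 :=
      mul_le_mul_of_nonneg_right (by linarith) (by linarith)
    linarith only [h1, h2, h3, hcon, hq]
  have k2 : η * n1 ≤ 4 * η * q := by
    have := mul_le_mul_of_nonneg_left k1 hη0.le
    linarith only [this]
  set x : ℝ := κ * b with hx
  have hx0 : 0 < x := by positivity
  have g1 : 1 - 2 * x ≤ ((1 + x) ^ 2)⁻¹ := by
    rw [← one_div, le_div_iff₀ (by positivity)]
    nlinarith [mul_pos hx0 hx0, mul_pos (mul_pos hx0 hx0) hx0]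
  have g2 : ((1 - x) ^ 2)⁻¹ ≤ 1 + 3 * x := by
    have h1 : 0 < 1 - x := by linarith
    rw [← one_div, div_le_iff₀ (by positivity)]
    nlinarith [mul_pos hx0 hx0, mul_pos (mul_pos hx0 hx0) hx0]
  have u1 : (1 - 2 * x) * F ≤ ((1 + x) ^ 2)⁻¹ * F := mul_le_mul_of_nonneg_right g1 hF0
  have u2 : ((1 - x) ^ 2)⁻¹ * F ≤ (1 + 3 * x) * F := mul_le_mul_of_nonneg_right g2 hF0
  have u3 : x * F ≤ x * 2 := mul_le_mul_of_nonneg_left hF2 hx0.le
  have l1 : κ * (F - ε / 2) ≤ Jp - J0 := by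
    refine le_trans (mul_le_mul_of_nonneg_left ?_ hκ.le) hJp
    linarith
  have l2 : J0 - Jm ≤ κ * (F + ε / 2) := by
    refine hJm.trans (mul_le_mul_of_nonneg_left ?_ hκ.le)
    linarith
  have m1 : κ * (q * (F - ε)) ≤ κ * nb := by
    have h1 := mul_le_mul_of_nonneg_left l1 hq.le
    have h2 := mul_le_mul_of_nonneg_left hη hq.le
    have h3 : 0 ≤ q * (κ * ε) := by
      have : 0 ≤ ε := by linarith
      positivity
    linarith only [h1, h2, h3, j2, k2]
  have m2 : κ * nb ≤ κ * (q * (F + ε)) := by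
    have h1 := mul_le_mul_of_nonneg_left l2 hq.le
    have h2 := mul_le_mul_of_nonneg_left hη hq.le
    have h3 : 0 ≤ q * (κ * ε) := by
      have : 0 ≤ ε := by linarith
      positivity
    linarith only [h1, h2, h3, j3, k2]
  have p1 := le_of_mul_le_mul_left m1 hκ
  have p2 := le_of_mul_le_mul_left m2 hκ
  rw [abs_le]
  constructor
  · have : F - ε ≤ nb / q := by rw [le_div_iff₀ hq]; linarith
    linarith
  · have : nb / q ≤ F + ε := by rw [div_le_iff₀ hq]; linarith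
    linarith

theorem og_of (hL : OLStatement) (hJ : OJStatement) (hU : UStatement) : OGStatement := by
  intro θ CM b ε hb hε
  have hb0 : 0 < b := by linarith
  set κ : ℝ := min (1 / 8) (ε / 12) / b with hκ
  have hm0 : 0 < min (1 / 8) (ε / 12) := lt_min (by norm_num) (by positivity)
  have hκ0 : 0 < κ := by positivity
  have hκbe : κ * b = min (1 / 8) (ε / 12) := by rw [hκ]; field_simp
  have hκb : κ * b ≤ 1 / 8 := by rw [hκbe]; exact min_le_left _ _
  have hκb2 : κ * b ≤ ε / 12 := by rw [hκbe]; exact min_le_right _ _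
  have hκ8 : κ ≤ 1 / 8 := by
    have : κ * 1 ≤ κ * b := mul_le_mul_of_nonneg_left hb hκ0.le
    linarith
  set η : ℝ := min (1 / 100) (ε * κ / 20) with hη
  have hη0 : 0 < η := lt_min (by norm_num) (by positivity)
  have hη1 : η ≤ 1 / 100 := min_le_left _ _
  have hη2 : 5 * η ≤ ε / 4 * κ := by
    have : η ≤ ε * κ / 20 := min_le_right _ _
    linarith
  obtain ⟨c1, v1, hc1, hv1, s1⟩ := F2_step (θ := θ) (CM := CM) (b := 1) (lam := -(1 / 8)) hL hJ hU one_pos
    (by rw [abs_neg, abs_of_pos (by norm_num)]; norm_num)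
    (by rw [abs_neg, abs_of_pos (by norm_num)]) hη0
  obtain ⟨c2, v2, hc2, hv2, s2⟩ := F2_step (θ := θ) (CM := CM) (b := b) (lam := κ) hL hJ hU hb0
    (by rwa [abs_of_pos hκ0]) (by rwa [abs_of_pos hκ0]) hη0
  obtain ⟨c3, v3, hc3, hv3, s3⟩ := F2_step (θ := θ) (CM := CM) (b := b) (lam := -κ) hL hJ hU hb0
    (by rwa [abs_neg, abs_of_pos hκ0]) (by rwa [abs_neg, abs_of_pos hκ0]) hη0
  refine ⟨min c1 (min c2 c3), min v1 (min v2 v3), lt_min hc1 (lt_min hc2 hc3),
    lt_min hv1 (lt_min hv2 hv3), fun u hu hlt => ?_⟩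
  obtain ⟨a1, ha1, t1⟩ := s1 u hu (hlt.trans_le (min_le_left _ _))
  obtain ⟨a2, ha2, t2⟩ := s2 u hu (hlt.trans_le ((min_le_right _ _).trans (min_le_left _ _)))
  obtain ⟨a3, ha3, t3⟩ := s3 u hu (hlt.trans_le ((min_le_right _ _).trans (min_le_right _ _)))
  refine ⟨min a1 (min a2 a3), lt_min ha1 (lt_min ha2 ha3), fun N W f Q R₀ R a 𝒱 ψ hlta hr => ?_⟩
  have ha := hr.sc.a_pos
  obtain ⟨e1, e2, hN0⟩ := F2_one ha hu hr.Na
  have r1 := t1 N W f Q R₀ R a 𝒱 ψ (hlta.trans_le (min_le_left _ _))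
    (hr.mono hu.le (min_le_left _ _))
  have r2 := t2 N W f Q R₀ R a 𝒱 ψ (hlta.trans_le ((min_le_right _ _).trans (min_le_left _ _)))
    (hr.mono hu.le ((min_le_right _ _).trans (min_le_left _ _)))
  have r3 := t3 N W f Q R₀ R a 𝒱 ψ (hlta.trans_le ((min_le_right _ _).trans (min_le_right _ _)))
    (hr.mono hu.le ((min_le_right _ _).trans (min_le_right _ _)))
  rw [one_mul] at r1
  refine F2_num (X := N ^ 2 * a * u ^ 160) (A := N * a) (q := N * u ^ 160) (κ := κ) (b := b) (η := η)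
    (F := Fb b) (Jp := Jb b κ) (Jm := Jb b (-κ)) (J1 := Jb 1 (-(1 / 8))) (J0 := Jf 0)
    (n1 := Db ((a / u ^ 160) ^ 2) ψ) (by positivity) (by positivity) (by ring) hκ0 hb0 hκb hκb2 hη0
    hη1 hη2 (Fb_nonneg hb0.le) (Fb_le_two hb0.le) ?_ (Jb_up hb0 hκ0 hκb) (Jb_dn hb0.le hκ0.le hκb)
    ?_ ?_ ?_
  · have h := Jb_dn (b := 1) (κ := 1 / 8) (by norm_num) (by norm_num) (by norm_num)
    refine h.trans ?_
    have := Fb_le_two (b := 1) (by norm_num)
    gcongr
  · linarith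
  · linarith
  · linarith

end Pool.Agent.Lib.MP_4952d6_mp.O

end

/-! ### O.FW -/

section

/-!
# The distribution function of the momenta from its exponential moments

`FF δ = (δ³ + (8π - δ²) √(δ² + 16π)) / (12π²) = (1/(4π²)) ∫_{r > δ} r² Jgd (r²) dr`. Weights `w k` at points `z k ∈ [0,1]` whose
moments `∑ w k (1 - z k ^ b)` are close to `Fb b = (1/(4π²)) ∫ r² (1 - e^{-b r²}) Jgd (r²) dr` for finitely many `b` give to
`{z ≤ e^{-δ²}}` a mass close to `FF δ`, uniformly in `δ ≥ δ₀ > 0`.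
-/

set_option autoImplicit false
set_option linter.unusedSectionVars false
set_option linter.unusedVariables false
open MeasureTheory Function Filter Topology Set

namespace Pool.Agent.Lib.MP_4952d6_mp.O

lemma dens_nonneg {r : ℝ} (hr : 0 < r) : 0 ≤ r ^ 2 * Jgd (r ^ 2) :=
  mul_nonneg (by positivity) (Jgd_pos (by positivity)).le

lemma FF_tendsto : Tendsto FF atTop (𝓝 0) := by
  have h : FF = fun d => -(1 / (4 * Real.pi ^ 2)) * F1b_P d := funext FF_eq
  rw [h]
  have h1 := F1b_P_tendsto.const_mul (-(1 / (4 * Real.pi ^ 2)))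
  rwa [mul_zero] at h1

/-! ### Positive linear functionals -/

/-- Bounded measurable functions on `[0,1]`. -/
def Good (φ : ℝ → ℝ) : Prop := Measurable φ ∧ ∃ C : ℝ, ∀ x ∈ Icc (0:ℝ) 1, |φ x| ≤ C

lemma Good.add {φ ψ : ℝ → ℝ} (h : Good φ) (h' : Good ψ) : Good (fun x => φ x + ψ x) := by
  obtain ⟨hm, C, hC⟩ := h
  obtain ⟨hm', C', hC'⟩ := h'
  exact ⟨hm.add hm', C + C', fun x hx => (abs_add_le _ _).trans (add_le_add (hC x hx) (hC' x hx))⟩

lemma Good.smul {φ : ℝ → ℝ} (c : ℝ) (h : Good φ) : Good (fun x => c * φ x) := by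
  obtain ⟨hm, C, hC⟩ := h
  refine ⟨hm.const_mul c, |c| * C, fun x hx => ?_⟩
  rw [abs_mul]
  exact mul_le_mul_of_nonneg_left (hC x hx) (abs_nonneg c)

lemma Good.of_continuous {φ : ℝ → ℝ} (h : Continuous φ) : Good φ := by
  obtain ⟨C, hC⟩ := (isCompact_Icc (a := (0:ℝ)) (b := 1)).exists_bound_of_continuousOn h.continuousOn
  exact ⟨h.measurable, C, fun x hx => by simpa using hC x hx⟩

lemma Good.ind (c : ℝ) : Good (fun x => if x ≤ c then 1 else 0) := by
  refine ⟨Measurable.ite measurableSet_Iic measurable_const measurable_const, 1, fun x _ => ?_⟩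
  show |if x ≤ c then (1:ℝ) else 0| ≤ 1
  split_ifs <;> simp

/-- A positive linear functional on the bounded measurable functions. -/
structure PLF (J : (ℝ → ℝ) → ℝ) : Prop where
  add : ∀ φ ψ : ℝ → ℝ, Good φ → Good ψ → J (fun x => φ x + ψ x) = J φ + J ψ
  smul : ∀ (c : ℝ) (φ : ℝ → ℝ), Good φ → J (fun x => c * φ x) = c * J φ
  mono : ∀ φ ψ : ℝ → ℝ, Good φ → Good ψ → (∀ x ∈ Icc (0:ℝ) 1, φ x ≤ ψ x) → J φ ≤ J ψ

lemma good_mom (b : ℕ) : Good (fun x : ℝ => 1 - x ^ b) := Good.of_continuous (by fun_prop)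

lemma PLF.zero {J : (ℝ → ℝ) → ℝ} (h : PLF J) : J (fun _ => 0) = 0 := by
  have h1 := h.smul 0 (fun _ => 0) (Good.of_continuous continuous_const)
  simpa using h1

lemma PLF.step {J : (ℝ → ℝ) → ℝ} (h : PLF J) (j : ℕ) :
    J (fun x => (1 - x) * x ^ j) = J (fun x => 1 - x ^ (j + 1)) - J (fun x => 1 - x ^ j) := by
  have h1 := h.add (fun x => (1 - x) * x ^ j) (fun x => 1 - x ^ j)
    (Good.of_continuous (by fun_prop)) (good_mom j)
  have h2 : (fun x : ℝ => (1 - x) * x ^ j + (1 - x ^ j)) = fun x => 1 - x ^ (j + 1) := by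
    funext x
    ring
  rw [h2] at h1
  linarith

lemma PLF.poly {J : (ℝ → ℝ) → ℝ} (h : PLF J) (p : ℕ → ℝ) (n : ℕ) :
    J (fun x => (1 - x) * ∑ j ∈ Finset.range n, p j * x ^ j)
      = ∑ j ∈ Finset.range n, p j * (J (fun x => 1 - x ^ (j + 1)) - J (fun x => 1 - x ^ j)) := by
  induction n with
  | zero => simpa using h.zero
  | succ n ih =>
    rw [Finset.sum_range_succ, ← ih, ← h.step n]
    rw [← h.smul _ _ (Good.of_continuous (by fun_prop)), ← h.add _ _
      (Good.of_continuous (by fun_prop)) (Good.of_continuous (by fun_prop))]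
    congr 1
    funext x
    rw [Finset.sum_range_succ]
    ring

/-- The comparison of two functionals with close moments, on `(1-x)` times a function close to a polynomial. -/
lemma PLF.compare {J K : (ℝ → ℝ) → ℝ} (hJ : PLF J) (hK : PLF K) (p : ℕ → ℝ) (n : ℕ) {η e : ℝ}
    (he : 0 ≤ e) (hn : 1 ≤ n)
    (hη : ∀ b : ℕ, 1 ≤ b → b ≤ n → |J (fun x => 1 - x ^ b) - K (fun x => 1 - x ^ b)| ≤ η)
    {φ : ℝ → ℝ} (hφ : Good φ)
    (hap : ∀ x ∈ Icc (0:ℝ) 1, |φ x - (1 - x) * ∑ j ∈ Finset.range n, p j * x ^ j| ≤ e * (1 - x)) :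
    |J φ - K φ| ≤ 2 * η * ∑ j ∈ Finset.range n, |p j| + e * (2 * K (fun x => 1 - x ^ 1) + η) := by
  set P : ℝ → ℝ := fun x => (1 - x) * ∑ j ∈ Finset.range n, p j * x ^ j with hP
  have hPg : Good P := Good.of_continuous (by fun_prop)
  have heg : Good (fun x : ℝ => e * (1 - x ^ 1)) := (good_mom 1).smul e
  have key : ∀ L : (ℝ → ℝ) → ℝ, PLF L → |L φ - L P| ≤ e * L (fun x => 1 - x ^ 1) := by
    intro L hL
    have h1 : L φ ≤ L P + e * L (fun x => 1 - x ^ 1) := by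
      rw [← hL.smul e _ (good_mom 1), ← hL.add _ _ hPg heg]
      refine hL.mono _ _ hφ (hPg.add heg) fun x hx => ?_
      have := abs_le.1 (hap x hx)
      rw [pow_one]
      linarith [this.2]
    have h2 : L P ≤ L φ + e * L (fun x => 1 - x ^ 1) := by
      rw [← hL.smul e _ (good_mom 1), ← hL.add _ _ hφ heg]
      refine hL.mono _ _ hPg (hφ.add heg) fun x hx => ?_
      have := abs_le.1 (hap x hx)
      rw [pow_one]
      linarith [this.1]
    rw [abs_le]
    constructor <;> linarith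
  have hη0 : 0 ≤ η := (abs_nonneg _).trans (hη 1 le_rfl hn)
  have hz : J (fun x => 1 - x ^ 0) - K (fun x => 1 - x ^ 0) = 0 := by
    have e1 : (fun x : ℝ => 1 - x ^ 0) = fun _ => 0 := by funext x; simp
    rw [e1, hJ.zero, hK.zero, sub_zero]
  have hη' : ∀ b : ℕ, b ≤ n → |J (fun x => 1 - x ^ b) - K (fun x => 1 - x ^ b)| ≤ η := by
    intro b hb
    rcases Nat.eq_zero_or_pos b with h | h
    · subst h
      rw [hz, abs_zero]
      exact hη0
    · exact hη b h hb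
  have h3 : |J P - K P| ≤ 2 * η * ∑ j ∈ Finset.range n, |p j| := by
    rw [hP, hJ.poly, hK.poly, ← Finset.sum_sub_distrib, Finset.mul_sum]
    refine (Finset.abs_sum_le_sum_abs _ _).trans (Finset.sum_le_sum fun j hj => ?_)
    have hj' := Finset.mem_range.1 hj
    rw [← mul_sub, abs_mul]
    have e1 := hη' (j + 1) (by omega)
    have e2 := hη' j (by omega)
    have e3 : |J (fun x => 1 - x ^ (j + 1)) - J (fun x => 1 - x ^ j)
        - (K (fun x => 1 - x ^ (j + 1)) - K (fun x => 1 - x ^ j))| ≤ 2 * η := by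
      have h := abs_le.1 e1
      have h' := abs_le.1 e2
      rw [abs_le]
      constructor <;> linarith [h.1, h.2, h'.1, h'.2]
    calc |p j| * _ ≤ |p j| * (2 * η) := mul_le_mul_of_nonneg_left e3 (abs_nonneg _)
      _ = 2 * η * |p j| := by ring
  have h4 := key J hJ
  have h5 := key K hK
  have h6 : J (fun x => 1 - x ^ 1) ≤ K (fun x => 1 - x ^ 1) + η := by
    have := (abs_le.1 (hη 1 le_rfl hn)).2
    linarith
  have h7 : e * J (fun x => 1 - x ^ 1) ≤ e * (K (fun x => 1 - x ^ 1) + η) :=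
    mul_le_mul_of_nonneg_left h6 he
  have h8 := abs_le.1 h3
  have h9 := abs_le.1 h4
  have h10 := abs_le.1 h5
  rw [abs_le]
  constructor <;> linarith [h8.1, h8.2, h9.1, h9.2, h10.1, h10.2]

/-! ### Cut-off functions -/

/-- `1` for `x ≤ p`, `0` for `x ≥ q`. -/
noncomputable def hpq (p q x : ℝ) : ℝ := max 0 (min 1 ((q - x) / (q - p)))

lemma hpq_continuous (p q : ℝ) : Continuous (hpq p q) := by
  unfold hpq
  fun_prop

lemma hpq_nonneg (p q x : ℝ) : 0 ≤ hpq p q x := le_max_left _ _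

lemma hpq_le_one (p q x : ℝ) : hpq p q x ≤ 1 := max_le zero_le_one (min_le_left _ _)

lemma hpq_one {p q x : ℝ} (hpq' : p < q) (h : x ≤ p) : hpq p q x = 1 := by
  unfold hpq
  have h1 : 1 ≤ (q - x) / (q - p) := by
    rw [le_div_iff₀ (by linarith)]
    linarith
  rw [min_eq_left h1]
  exact max_eq_right zero_le_one

lemma hpq_zero {p q x : ℝ} (hpq' : p < q) (h : q ≤ x) : hpq p q x = 0 := by
  unfold hpq
  have h1 : (q - x) / (q - p) ≤ 0 := div_nonpos_of_nonpos_of_nonneg (by linarith) (by linarith)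
  exact max_eq_left ((min_le_right _ _).trans h1)

/-- Moments close for finitely many `b` give close values on a cut-off function. -/
lemma cutoff_close {K : (ℝ → ℝ) → ℝ} (hK : PLF K) {p q ε : ℝ} (hpq' : p < q) (hq : q < 1)
    (hε : 0 < ε) : ∃ B : ℕ, 1 ≤ B ∧ ∃ η : ℝ, 0 < η ∧ ∀ J : (ℝ → ℝ) → ℝ, PLF J →
      (∀ b : ℕ, 1 ≤ b → b ≤ B → |J (fun x => 1 - x ^ b) - K (fun x => 1 - x ^ b)| ≤ η) →
      |J (hpq p q) - K (hpq p q)| ≤ ε := by
  set g : ℝ → ℝ := fun x => hpq p q x / max (1 - x) (1 - q) with hg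
  have hg0 : ∀ x : ℝ, 0 < max (1 - x) (1 - q) := fun x => lt_max_of_lt_right (by linarith)
  have hgc : Continuous g := by
    refine (hpq_continuous p q).div (by fun_prop) fun x => (hg0 x).ne'
  have hgm : ∀ x : ℝ, (1 - x) * g x = hpq p q x := by
    intro x
    rw [hg]
    rcases le_total x q with h | h
    · simp only
      rw [max_eq_left (by linarith)]
      rw [mul_div_cancel₀]
      linarith
    · simp only
      rw [hpq_zero hpq' h, zero_div, mul_zero]
  set K1 : ℝ := K (fun x => 1 - x ^ 1) with hK1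
  have hK10 : 0 ≤ K1 := by
    rw [hK1, ← hK.zero]
    refine hK.mono _ _ (Good.of_continuous continuous_const) (good_mom 1) fun x hx => ?_
    rw [pow_one]
    linarith [hx.2]
  set e : ℝ := ε / (2 * (2 * K1 + 1)) with he
  have he0 : 0 < e := by rw [he]; positivity
  obtain ⟨P, hP⟩ := exists_polynomial_near_of_continuousOn 0 1 g hgc.continuousOn e he0
  set n : ℕ := P.natDegree + 1 with hn
  set M : ℝ := ∑ j ∈ Finset.range n, |P.coeff j| with hM
  have hM0 : 0 ≤ M := Finset.sum_nonneg fun j _ => abs_nonneg _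
  set η : ℝ := min 1 (ε / (4 * (M + 1))) with hη
  have hη0 : 0 < η := lt_min one_pos (by positivity)
  refine ⟨n, by omega, η, hη0, fun J hJ hb => ?_⟩
  have hev : ∀ x : ℝ, P.eval x = ∑ j ∈ Finset.range n, P.coeff j * x ^ j := fun x => by
    rw [hn, Polynomial.eval_eq_sum_range]
  have h1 := hJ.compare hK (fun j => P.coeff j) n he0.le (by omega) hb
    (Good.of_continuous (hpq_continuous p q)) (fun x hx => by
      rw [← hgm x, ← mul_sub, abs_mul, abs_of_nonneg (by linarith [hx.2] : 0 ≤ 1 - x), mul_comm,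
        ← hev x, abs_sub_comm]
      exact mul_le_mul_of_nonneg_right (hP x hx).le (by linarith [hx.2]))
  refine h1.trans ?_
  rw [← hM, ← hK1]
  have h2 : η ≤ 1 := min_le_left _ _
  have h3 : η ≤ ε / (4 * (M + 1)) := min_le_right _ _
  have h4 : 2 * η * M ≤ ε / 2 := by
    rw [le_div_iff₀ (by positivity)] at h3
    nlinarith
  have h5 : e * (2 * K1 + η) ≤ ε / 2 := by
    calc e * (2 * K1 + η) ≤ e * (2 * K1 + 1) := by gcongr
      _ = ε / 2 := by rw [he]; field_simp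
  linarith

/-! ### The limit functional -/

/-- The Lee-Huang-Yang functional. -/
noncomputable def KL (φ : ℝ → ℝ) : ℝ :=
  1 / (4 * Real.pi ^ 2) * ∫ r in Ioi (0:ℝ), φ (Real.exp (-(r ^ 2))) * (r ^ 2 * Jgd (r ^ 2))

lemma KL_integrable {φ : ℝ → ℝ} (h : Good φ) :
    IntegrableOn (fun r : ℝ => φ (Real.exp (-(r ^ 2))) * (r ^ 2 * Jgd (r ^ 2))) (Ioi (0:ℝ)) := by
  obtain ⟨hm, C, hC⟩ := h
  have h1 : Measurable fun r : ℝ => φ (Real.exp (-(r ^ 2))) :=
    hm.comp (Real.measurable_exp.comp (measurable_id.pow_const 2).neg)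
  refine Integrable.mono' (Jgd0_integrable.const_mul C)
    (h1.aestronglyMeasurable.mul Jgd0_integrable.aestronglyMeasurable) ?_
  refine (ae_restrict_iff' measurableSet_Ioi).2 (Eventually.of_forall fun r hr => ?_)
  have hd := dens_nonneg (show (0:ℝ) < r from hr)
  rw [norm_mul, Real.norm_eq_abs, Real.norm_eq_abs, abs_of_nonneg hd]
  refine mul_le_mul_of_nonneg_right (hC _ ⟨(Real.exp_pos _).le, ?_⟩) hd
  exact Real.exp_le_one_iff.2 (by nlinarith [sq_nonneg r])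

lemma KL_plf : PLF KL := by
  constructor
  · intro φ ψ h h'
    unfold KL
    rw [← mul_add, ← integral_add (KL_integrable h) (KL_integrable h')]
    congr 1
    refine integral_congr_ae (Eventually.of_forall fun r => ?_)
    simp only
    ring
  · intro c φ h
    unfold KL
    have e1 : ∫ r in Ioi (0:ℝ), c * φ (Real.exp (-(r ^ 2))) * (r ^ 2 * Jgd (r ^ 2))
        = c * ∫ r in Ioi (0:ℝ), φ (Real.exp (-(r ^ 2))) * (r ^ 2 * Jgd (r ^ 2)) := by
      rw [← integral_const_mul]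
      refine integral_congr_ae (Eventually.of_forall fun r => ?_)
      simp only
      ring
    rw [e1]
    ring
  · intro φ ψ h h' hle
    unfold KL
    refine mul_le_mul_of_nonneg_left ?_ (by positivity)
    refine setIntegral_mono_on (KL_integrable h) (KL_integrable h') measurableSet_Ioi fun r hr => ?_
    refine mul_le_mul_of_nonneg_right (hle _ ⟨(Real.exp_pos _).le, ?_⟩)
      (dens_nonneg (show (0:ℝ) < r from hr))
    exact Real.exp_le_one_iff.2 (by nlinarith [sq_nonneg r])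

lemma KL_mom (b : ℕ) : KL (fun x => 1 - x ^ b) = Fb b := by
  unfold KL Fb
  congr 1
  refine integral_congr_ae (Eventually.of_forall fun r => ?_)
  simp only
  rw [← Real.exp_nat_mul, mul_neg]

lemma exp_le_iff {r δ : ℝ} (hr : 0 < r) (hδ : 0 ≤ δ) :
    Real.exp (-(r ^ 2)) ≤ Real.exp (-(δ ^ 2)) ↔ δ ≤ r := by
  rw [Real.exp_le_exp, neg_le_neg_iff, sq_le_sq₀ hδ hr.le]

lemma KL_ind {δ : ℝ} (hδ : 0 ≤ δ) :
    KL (fun x => if x ≤ Real.exp (-(δ ^ 2)) then 1 else 0) = FF δ := by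
  rw [FF_integral hδ]
  unfold KL
  congr 1
  have h1 : ∀ r ∈ Ioi (0:ℝ), (if Real.exp (-(r ^ 2)) ≤ Real.exp (-(δ ^ 2)) then (1:ℝ) else 0)
      * (r ^ 2 * Jgd (r ^ 2)) = (Ici δ).indicator (fun r => r ^ 2 * Jgd (r ^ 2)) r := by
    intro r hr
    by_cases h : δ ≤ r
    · rw [if_pos ((exp_le_iff hr hδ).2 h), one_mul, indicator_of_mem (show r ∈ Ici δ from h)]
    · rw [if_neg (fun h' => h ((exp_le_iff hr hδ).1 h')), zero_mul,
        indicator_of_notMem (show r ∉ Ici δ from h)]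
  rw [setIntegral_congr_fun measurableSet_Ioi h1, setIntegral_indicator measurableSet_Ici]
  have h2 : (Ioi (0:ℝ) ∩ Ici δ : Set ℝ) =ᵐ[volume] (Ioi (0:ℝ) ∩ Ioi δ : Set ℝ) :=
    ae_eq_set_inter (ae_eq_refl _) Ioi_ae_eq_Ici.symm
  have h3 : (Ioi (0:ℝ) ∩ Ioi δ : Set ℝ) = Ioi δ := by
    rw [Ioi_inter_Ioi, max_eq_right hδ]
  rw [setIntegral_congr_set h2, h3]

/-- Closeness of the distribution function at one point. -/
lemma ind_close {δ ε : ℝ} (hδ : 0 < δ) (hε : 0 < ε) :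
    ∃ B : ℕ, ∃ η : ℝ, 0 < η ∧ ∀ J : (ℝ → ℝ) → ℝ, PLF J →
      (∀ b : ℕ, 1 ≤ b → b ≤ B → |J (fun x => 1 - x ^ b) - Fb b| ≤ η) →
      |J (fun x => if x ≤ Real.exp (-(δ ^ 2)) then 1 else 0) - FF δ| ≤ ε := by
  have hc := Metric.continuous_iff.1 FF_continuous δ (ε / 4) (by linarith)
  obtain ⟨μ, hμ, hμc⟩ := hc
  set h : ℝ := min (μ / 2) (δ / 2) with hh
  have hh0 : 0 < h := lt_min (by linarith) (by linarith)
  have hhμ : h < μ := (min_le_left _ _).trans_lt (by linarith)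
  have hhδ : h < δ := (min_le_right _ _).trans_lt (by linarith)
  have hF1 : FF (δ - h) ≤ FF δ + ε / 4 := by
    have h1 : dist (δ - h) δ < μ := by
      rw [Real.dist_eq, show δ - h - δ = -h by ring, abs_neg, abs_of_pos hh0]
      exact hhμ
    have := hμc (δ - h) h1
    rw [Real.dist_eq] at this
    linarith [(abs_lt.1 this).2]
  have hF2 : FF δ - ε / 4 ≤ FF (δ + h) := by
    have h1 : dist (δ + h) δ < μ := by
      rw [Real.dist_eq, show δ + h - δ = h by ring, abs_of_pos hh0]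
      exact hhμ
    have := hμc (δ + h) h1
    rw [Real.dist_eq] at this
    linarith [(abs_lt.1 this).1]
  set c : ℝ := Real.exp (-(δ ^ 2)) with hcd
  set c1 : ℝ := Real.exp (-((δ - h) ^ 2)) with hc1
  set c2 : ℝ := Real.exp (-((δ + h) ^ 2)) with hc2
  have hcc1 : c < c1 := by
    rw [hcd, hc1, Real.exp_lt_exp]
    nlinarith
  have hcc2 : c2 < c := by
    rw [hcd, hc2, Real.exp_lt_exp]
    nlinarith
  have hc11 : c1 < 1 := by
    rw [hc1, Real.exp_lt_one_iff]
    nlinarith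
  have hc1' : c < 1 := hcc1.trans hc11
  obtain ⟨B1, hB1, η1, hη1, H1⟩ := cutoff_close KL_plf hcc1 hc11 (show 0 < ε / 2 by linarith)
  obtain ⟨B2, hB2, η2, hη2, H2⟩ := cutoff_close KL_plf hcc2 hc1' (show 0 < ε / 2 by linarith)
  refine ⟨max B1 B2, min η1 η2, lt_min hη1 hη2, fun J hJ hb => ?_⟩
  have a1 := H1 J hJ fun b h1 h2 => by
    rw [KL_mom]
    exact (hb b h1 (h2.trans (le_max_left _ _))).trans (min_le_left _ _)
  have a2 := H2 J hJ fun b h1 h2 => by
    rw [KL_mom]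
    exact (hb b h1 (h2.trans (le_max_right _ _))).trans (min_le_right _ _)
  have b1 : J (fun x => if x ≤ c then 1 else 0) ≤ J (hpq c c1) := by
    refine hJ.mono _ _ (Good.ind c) (Good.of_continuous (hpq_continuous _ _)) fun x _ => ?_
    split_ifs with h1
    · rw [hpq_one hcc1 h1]
    · exact hpq_nonneg _ _ _
  have b2 : KL (hpq c c1) ≤ FF (δ - h) := by
    rw [← KL_ind (by linarith : 0 ≤ δ - h)]
    refine KL_plf.mono _ _ (Good.of_continuous (hpq_continuous _ _)) (Good.ind _) fun x _ => ?_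
    split_ifs with h1
    · exact hpq_le_one _ _ _
    · rw [hpq_zero hcc1 (le_of_lt (not_le.1 h1))]
  have b3 : J (hpq c2 c) ≤ J (fun x => if x ≤ c then 1 else 0) := by
    refine hJ.mono _ _ (Good.of_continuous (hpq_continuous _ _)) (Good.ind c) fun x _ => ?_
    split_ifs with h1
    · exact hpq_le_one _ _ _
    · rw [hpq_zero hcc2 (le_of_lt (not_le.1 h1))]
  have b4 : FF (δ + h) ≤ KL (hpq c2 c) := by
    rw [← KL_ind (by linarith : 0 ≤ δ + h)]
    refine KL_plf.mono _ _ (Good.ind _) (Good.of_continuous (hpq_continuous _ _)) fun x _ => ?_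
    split_ifs with h1
    · rw [hpq_one hcc2 h1]
    · exact hpq_nonneg _ _ _
  have a1' := abs_le.1 a1
  have a2' := abs_le.1 a2
  rw [abs_le]
  constructor <;> linarith [a1'.1, a1'.2, a2'.1, a2'.2]

/-- Closeness at finitely many points. -/
lemma ind_close_fin {ε : ℝ} (hε : 0 < ε) (n : ℕ) (t : ℕ → ℝ) (ht : ∀ i, 0 < t i) :
    ∃ B : ℕ, ∃ η : ℝ, 0 < η ∧ ∀ J : (ℝ → ℝ) → ℝ, PLF J →
      (∀ b : ℕ, 1 ≤ b → b ≤ B → |J (fun x => 1 - x ^ b) - Fb b| ≤ η) →
      ∀ i ≤ n, |J (fun x => if x ≤ Real.exp (-(t i ^ 2)) then 1 else 0) - FF (t i)| ≤ ε := by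
  induction n with
  | zero =>
    obtain ⟨B, η, hη, H⟩ := ind_close (ht 0) hε
    refine ⟨B, η, hη, fun J hJ hb i hi => ?_⟩
    obtain rfl : i = 0 := by omega
    exact H J hJ hb
  | succ n ih =>
    obtain ⟨B, η, hη, H⟩ := ih
    obtain ⟨B', η', hη', H'⟩ := ind_close (ht (n + 1)) hε
    refine ⟨max B B', min η η', lt_min hη hη', fun J hJ hb i hi => ?_⟩
    rcases Nat.lt_or_ge i (n + 1) with h | h
    · exact H J hJ (fun b h1 h2 => (hb b h1 (h2.trans (le_max_left _ _))).trans (min_le_left _ _))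
        i (by omega)
    · obtain rfl : i = n + 1 := by omega
      exact H' J hJ fun b h1 h2 => (hb b h1 (h2.trans (le_max_right _ _))).trans (min_le_right _ _)

/-- Closeness of the distribution function, uniformly on `[δ₀, ∞)`. -/
theorem ind_close_unif {δ₀ ε : ℝ} (hδ₀ : 0 < δ₀) (hε : 0 < ε) :
    ∃ B : ℕ, ∃ η : ℝ, 0 < η ∧ ∀ J : (ℝ → ℝ) → ℝ, PLF J →
      (∀ b : ℕ, 1 ≤ b → b ≤ B → |J (fun x => 1 - x ^ b) - Fb b| ≤ η) →
      ∀ δ : ℝ, δ₀ ≤ δ → |J (fun x => if x ≤ Real.exp (-(δ ^ 2)) then 1 else 0) - FF δ| ≤ ε := by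
  -- the far end
  have h1 := FF_tendsto.eventually (gt_mem_nhds (show (0:ℝ) < ε / 2 by linarith))
  obtain ⟨D, hD, hDδ⟩ := (h1.and (eventually_gt_atTop δ₀)).exists
  have hDδ' : 0 < D - δ₀ := by linarith
  -- uniform continuity
  have hu := (isCompact_Icc (a := δ₀) (b := D)).uniformContinuousOn_of_continuous
    FF_continuous.continuousOn
  obtain ⟨μ, hμ, hμc⟩ := Metric.uniformContinuousOn_iff.1 hu (ε / 2) (by linarith)
  obtain ⟨n, hn⟩ := exists_nat_gt ((D - δ₀) / μ)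
  have hn0 : (0:ℝ) < n := lt_of_le_of_lt (by positivity) hn
  set s : ℝ := (D - δ₀) / n with hs
  have hs0 : 0 < s := by rw [hs]; positivity
  have hsμ : s < μ := by
    rw [hs, div_lt_iff₀ hn0]
    rw [div_lt_iff₀ hμ] at hn
    linarith
  set t : ℕ → ℝ := fun i => δ₀ + i * s with ht
  have ht0 : ∀ i, 0 < t i := fun i => by
    simp only [ht]
    positivity
  have htn : t n = D := by
    simp only [ht, hs]
    field_simp
    ring
  obtain ⟨B, η, hη, H⟩ := ind_close_fin (show 0 < ε / 2 by linarith) n t ht0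
  refine ⟨B, η, hη, fun J hJ hb δ hδ => ?_⟩
  have HH := H J hJ hb
  have hδ0 : 0 < δ := hδ₀.trans_le hδ
  have hJm : ∀ x y : ℝ, 0 ≤ x → x ≤ y → J (fun z => if z ≤ Real.exp (-(y ^ 2)) then 1 else 0)
      ≤ J (fun z => if z ≤ Real.exp (-(x ^ 2)) then 1 else 0) := by
    intro x y hx hxy
    refine hJ.mono _ _ (Good.ind _) (Good.ind _) fun z _ => ?_
    have h2 : Real.exp (-(y ^ 2)) ≤ Real.exp (-(x ^ 2)) := by
      rw [Real.exp_le_exp]
      nlinarith
    by_cases h3 : z ≤ Real.exp (-(y ^ 2))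
    · rw [if_pos h3, if_pos (h3.trans h2)]
    · rw [if_neg h3]
      split_ifs
      · exact zero_le_one
      · exact le_rfl
  have hJ0 : ∀ x : ℝ, 0 ≤ J (fun z => if z ≤ Real.exp (-(x ^ 2)) then 1 else 0) := by
    intro x
    have e := hJ.mono (fun _ => 0) (fun z => if z ≤ Real.exp (-(x ^ 2)) then 1 else 0)
      (Good.of_continuous continuous_const) (Good.ind _) (fun z _ => by
        show (0:ℝ) ≤ if z ≤ Real.exp (-(x ^ 2)) then 1 else 0
        split_ifs
        · exact zero_le_one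
        · exact le_rfl)
    rwa [hJ.zero] at e
  rcases lt_or_ge δ D with hlt | hge
  · -- between two grid points
    set i : ℕ := ⌊(δ - δ₀) / s⌋₊ with hi
    have hx0 : 0 ≤ (δ - δ₀) / s := div_nonneg (by linarith) hs0.le
    have hi1 : (i : ℝ) ≤ (δ - δ₀) / s := Nat.floor_le hx0
    have hi2 : (δ - δ₀) / s < i + 1 := Nat.lt_floor_add_one _
    rw [le_div_iff₀ hs0] at hi1
    rw [div_lt_iff₀ hs0] at hi2
    have hin : i < n := by
      have h2 : (i : ℝ) * s < n * s := by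
        have : (n : ℝ) * s = D - δ₀ := by rw [hs]; field_simp
        rw [this]
        linarith
      exact_mod_cast lt_of_mul_lt_mul_right h2 hs0.le
    have hti : t i ≤ δ := by simp only [ht]; linarith
    have hti1 : δ ≤ t (i + 1) := by
      simp only [ht]
      push_cast
      linarith
    have htD : t (i + 1) ≤ D := by
      rw [← htn]
      simp only [ht]
      have : ((i + 1 : ℕ) : ℝ) ≤ n := by exact_mod_cast hin
      nlinarith
    have hδi : δ₀ ≤ t i := by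
      simp only [ht]
      have : 0 ≤ (i : ℝ) * s := by positivity
      linarith
    have c1 := abs_le.1 (HH i hin.le)
    have c2 := abs_le.1 (HH (i + 1) (by omega))
    have d1 := hμc (t i) ⟨hδi, hti.trans hlt.le⟩ δ ⟨hδ, hlt.le⟩ (by
      rw [Real.dist_eq, abs_sub_comm, abs_of_nonneg (by linarith)]
      have : δ - t i ≤ s := by simp only [ht]; linarith
      linarith)
    have d2 := hμc (t (i + 1)) ⟨hδ.trans hti1, htD⟩ δ ⟨hδ, hlt.le⟩ (by
      rw [Real.dist_eq, abs_of_nonneg (by linarith)]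
      have : t (i + 1) - δ ≤ s := by
        simp only [ht]
        push_cast
        linarith
      linarith)
    rw [Real.dist_eq] at d1 d2
    have d1' := abs_lt.1 d1
    have d2' := abs_lt.1 d2
    have e1 := hJm (t i) δ (ht0 i).le hti
    have e2 := hJm δ (t (i + 1)) hδ0.le hti1
    rw [abs_le]
    constructor <;> linarith [c1.1, c1.2, c2.1, c2.2, d1'.1, d1'.2, d2'.1, d2'.2]
  · have c1 := abs_le.1 (HH n le_rfl)
    rw [htn] at c1
    have e1 := hJm D δ (by linarith) hge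
    have e2 := hJ0 δ
    have e3 := FF_anti (show 0 ≤ D by linarith) hge
    have e4 := FF_nonneg hδ0.le
    rw [abs_le]
    constructor <;> linarith [c1.1, c1.2]

/-! ### Weights -/

/-- The functional of a family of weights. -/
noncomputable def JW {κ : Type} (z w : κ → ℝ) (φ : ℝ → ℝ) : ℝ := ∑' k, φ (z k) * w k

lemma JW_plf {κ : Type} {z w : κ → ℝ} (hz : ∀ k, z k ∈ Icc (0:ℝ) 1) (hw : ∀ k, 0 ≤ w k)
    (hs : Summable w) : PLF (JW z w) := by
  have hsum : ∀ φ : ℝ → ℝ, Good φ → Summable fun k => φ (z k) * w k := by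
    intro φ hφ
    obtain ⟨-, C, hC⟩ := hφ
    refine Summable.of_norm_bounded (hs.mul_left C) fun k => ?_
    rw [norm_mul, Real.norm_eq_abs, Real.norm_eq_abs, abs_of_nonneg (hw k)]
    exact mul_le_mul_of_nonneg_right (hC _ (hz k)) (hw k)
  constructor
  · intro φ ψ h h'
    unfold JW
    rw [← (hsum φ h).tsum_add (hsum ψ h')]
    exact tsum_congr fun k => by ring
  · intro c φ h
    unfold JW
    rw [← tsum_mul_left]
    exact tsum_congr fun k => by ring
  · intro φ ψ h h' hle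
    unfold JW
    exact (hsum φ h).tsum_le_tsum (fun k => mul_le_mul_of_nonneg_right (hle _ (hz k)) (hw k))
      (hsum ψ h')

/-- **Weierstrass step.** -/
theorem weights_close {δ₀ ε : ℝ} (hδ₀ : 0 < δ₀) (hε : 0 < ε) :
    ∃ B : ℕ, ∃ η : ℝ, 0 < η ∧ ∀ (κ : Type) (z w : κ → ℝ), (∀ k, z k ∈ Icc (0:ℝ) 1) →
      (∀ k, 0 ≤ w k) → Summable w →
      (∀ b : ℕ, 1 ≤ b → b ≤ B → |∑' k, (1 - z k ^ b) * w k - Fb b| ≤ η) →
      ∀ δ : ℝ, δ₀ ≤ δ → |∑' k, (if z k ≤ Real.exp (-(δ ^ 2)) then w k else 0) - FF δ| ≤ ε := by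
  obtain ⟨B, η, hη, H⟩ := ind_close_unif hδ₀ hε
  refine ⟨B, η, hη, fun κ z w hz hw hs hb δ hδ => ?_⟩
  have h1 := H (JW z w) (JW_plf hz hw hs) hb δ hδ
  have h2 : JW z w (fun x => if x ≤ Real.exp (-(δ ^ 2)) then 1 else 0)
      = ∑' k, (if z k ≤ Real.exp (-(δ ^ 2)) then w k else 0) := by
    unfold JW
    refine tsum_congr fun k => ?_
    show (if z k ≤ Real.exp (-(δ ^ 2)) then (1:ℝ) else 0) * w k = _
    split_ifs
    · rw [one_mul]
    · rw [zero_mul]
  rwa [h2] at h1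

end Pool.Agent.Lib.MP_4952d6_mp.O

end

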