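import Pool.Agent.Lib.MP_4952d6_mp.Po.N08
import Pool.Agent.Lib.MP_4952d6_mp.Po.N11
import Pool.Agent.Lib.MP_4952d6_mp.Po.N13
import Pool.Agent.Lib.MP_4952d6_mp.Po.N21

/-! Merged modules (to save import time): O.EX3, O.EX4, O.F3, O.ME1, O.ME2, O.ME. -/

/-! ### O.EX3 -/

section

/-!
# O.EX3: (X3) of the notes, `Y_j = ∑_l (S_l h_{jl} S_l - χ_{jl}) S_j ψ`
-/

set_option autoImplicit false
set_option linter.unusedSectionVars false
set_option linter.unusedVariables false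
open MeasureTheory Function Filter Topology Set ComplexConjugate

namespace Pool.Agent.Lib.MP_4952d6_mp.O

open LB

theorem X3_bound : ∃ C : ℝ, 0 ≤ C ∧ ∀ (N : ℕ) (t T H R MD : ℝ) (h : T3 → ℝ), 0 < N → 0 < t →
    4 * t ≤ T → 64 * T ≤ 1 → SR H R h → 0 ≤ R → R ^ 2 ≤ t / 8 → ∀ ψ : HS (Fin N), DBd t T MD ψ →
    ∑ j, ‖YO T h ψ j‖ ^ 2 ≤ C * H ^ 2 * ((Real.sqrt T)⁻¹ ^ 3 / N + 1) * MD := by
  obtain ⟨C1, hC1, h1⟩ := EE_sum1
  refine ⟨C1, hC1, ?_⟩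
  intro N t T H R MD h hN ht htT hT hh hR hR2 ψ hD
  have hT0 : 0 < T := by linarith
  have e : ∀ j, YO T h ψ j = ∑ l ∈ Finset.univ.erase j, EEO T T h l j (PP1 T j ψ) := by
    intro j
    unfold YO
    refine Finset.sum_congr rfl fun l _ => ?_
    have e1 : Phi T j l ψ = PP1 T l (PP1 T j ψ) := S1_comm (bdm_et hT0.le) (bdm_et hT0.le) j l ψ
    rw [e1]
    rfl
  simp only [e]
  exact h1 N t T T H R MD h hN ht htT hT (by linarith) le_rfl hh hR hR2 ψ hD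

end Pool.Agent.Lib.MP_4952d6_mp.O

end

/-! ### O.EX4 -/

section

/-!
# O.EX4: (X4) of the notes, `U_j = (∑_l χ_{jl} - N H) S_j ψ`
-/

set_option autoImplicit false
set_option linter.unusedSectionVars false
set_option linter.unusedVariables false
open MeasureTheory Function Filter Topology Set ComplexConjugate

namespace Pool.Agent.Lib.MP_4952d6_mp.O

open LB

theorem X4_bound : ∃ C : ℝ, 0 ≤ C ∧ ∀ (N : ℕ) (T H R MV : ℝ) (h : T3 → ℝ), 0 < N → 0 < T →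
    64 * T ≤ 1 → SR H R h → 0 ≤ R → R ^ 2 ≤ T / 8 → ∀ ψ : HS (Fin N), VBd T MV ψ →
    ∑ j, ‖UO T (N * H) h ψ j‖ ^ 2 ≤ C * H ^ 2 * (MV + (Real.sqrt T)⁻¹ ^ 6 * N * ‖ψ‖ ^ 2) := by
  obtain ⟨C1, hC1, h1⟩ := XU_j
  refine ⟨C1, hC1, ?_⟩
  intro N T H R MV h hN hT hT1 hh hR hR2 ψ hV
  have a := fun j => h1 N T H R h j hT hT1 hh hR hR2 ψ
  have b := hV T (by linarith) (by linarith)
  refine (Finset.sum_le_sum fun j _ => a j).trans ?_
  rw [← Finset.mul_sum, Finset.sum_add_distrib, XU_sum hT ψ, Finset.sum_const, Finset.card_univ,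
    Fintype.card_fin, nsmul_eq_mul]
  refine mul_le_mul_of_nonneg_left ?_ (by positivity)
  have e : (N : ℝ) * ((Real.sqrt T)⁻¹ ^ 6 * ‖ψ‖ ^ 2) = (Real.sqrt T)⁻¹ ^ 6 * N * ‖ψ‖ ^ 2 := by ring
  rw [e]
  linarith

end Pool.Agent.Lib.MP_4952d6_mp.O

end

/-! ### O.F3 -/

section

/-!
# O.F3: from the regularised numbers of particles to the distribution function
-/

set_option autoImplicit false
set_option linter.unusedSectionVars false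
set_option linter.unusedVariables false
open MeasureTheory Function Filter Topology Set
open scoped ENNReal

namespace Pool.Agent.Lib.MP_4952d6_mp.O

open LB

/-- The regularised numbers `b = 1, …, m` at once. -/
lemma F3_all (hG : OGStatement) (θ CM : ℝ) {ε : ℝ} (hε : 0 < ε) (m : ℕ) :
    ∃ c u₀ : ℝ, 0 < c ∧ 0 < u₀ ∧ ∀ u : ℝ, 0 < u → u < u₀ →
    ∃ a₀ : ℝ, 0 < a₀ ∧ ∀ (N : ℕ) (W f Q : ℝ → ℝ) (R₀ R a : ℝ) (𝒱 : T3 → ℝ≥0∞)
      (ψ : (Fin N → T3) → ℂ), a < a₀ → RegO θ CM c u W f Q R₀ R a 𝒱 ψ →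
      ∀ b : ℕ, 1 ≤ b → b ≤ m →
        |Db ((b : ℝ) * (a / u ^ 160) ^ 2) ψ / (N * u ^ 160) - Fb (b : ℝ)| ≤ ε := by
  induction m with
  | zero =>
    exact ⟨1, 1, one_pos, one_pos, fun u _ _ => ⟨1, one_pos, fun N W f Q R₀ R a 𝒱 ψ _ _ b h1 h2 =>
      absurd (h1.trans h2) (by omega)⟩⟩
  | succ n ih =>
    obtain ⟨c1, u1, hc1, hu1, h1⟩ := ih
    obtain ⟨c2, u2, hc2, hu2, h2⟩ := hG θ CM ((n : ℝ) + 1) ε (by
      have : (0:ℝ) ≤ n := Nat.cast_nonneg n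
      linarith) hε
    refine ⟨min c1 c2, min u1 u2, lt_min hc1 hc2, lt_min hu1 hu2, fun u hu hlt => ?_⟩
    obtain ⟨a1, ha1, k1⟩ := h1 u hu (hlt.trans_le (min_le_left _ _))
    obtain ⟨a2, ha2, k2⟩ := h2 u hu (hlt.trans_le (min_le_right _ _))
    refine ⟨min a1 a2, lt_min ha1 ha2, fun N W f Q R₀ R a 𝒱 ψ hlta hr b hb1 hb2 => ?_⟩
    rcases Nat.lt_or_eq_of_le hb2 with hb | hb
    · exact k1 N W f Q R₀ R a 𝒱 ψ (hlta.trans_le (min_le_left _ _))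
        (hr.mono hu.le (min_le_left _ _)) b hb1 (by omega)
    · rw [hb]
      push_cast
      exact k2 N W f Q R₀ R a 𝒱 ψ (hlta.trans_le (min_le_right _ _))
        (hr.mono hu.le (min_le_right _ _))

lemma F3_bdd_summable {N : ℕ} {ψ : (Fin N → T3) → ℂ} (hψ : MemLp ψ 2 (piN (Fin N)))
    {φ : (Fin 3 → ℤ) → ℝ} {C : ℝ} (hφ : ∀ p, |φ p| ≤ C) :
    (Summable fun x : Fin N × (Fin N → Fin 3 → ℤ) => φ (x.2 x.1) * ‖fc ψ x.2‖ ^ 2) ∧
    ∑' x : Fin N × (Fin N → Fin 3 → ℤ), φ (x.2 x.1) * ‖fc ψ x.2‖ ^ 2 = Dm φ ψ := by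
  have h0 := (parseval_sq hψ).summable
  have hj : ∀ j : Fin N, Summable fun k : Fin N → Fin 3 → ℤ => φ (k j) * ‖fc ψ k‖ ^ 2 := fun j => by
    refine Summable.of_norm_bounded (h0.mul_left C) fun k => ?_
    rw [Real.norm_eq_abs, abs_mul, abs_of_nonneg (sq_nonneg ‖fc ψ k‖)]
    exact mul_le_mul_of_nonneg_right (hφ _) (sq_nonneg _)
  have hC : ∀ j : Fin N, Summable fun k : Fin N → Fin 3 → ℤ => ‖φ (k j) * ‖fc ψ k‖ ^ 2‖ := fun j =>
    (hj j).norm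
  have hs : Summable fun x : Fin N × (Fin N → Fin 3 → ℤ) => φ (x.2 x.1) * ‖fc ψ x.2‖ ^ 2 := by
    refine Summable.of_norm ?_
    rw [summable_prod_of_nonneg (fun _ => norm_nonneg _)]
    exact ⟨hC, Summable.of_finite⟩
  refine ⟨hs, ?_⟩
  rw [hs.tsum_prod' hj, tsum_fintype]
  rfl

theorem ot_of (hG : OGStatement) : OTStatement := by
  intro θ CM d₀ ε hd₀ hε
  obtain ⟨B, η, hη, H⟩ := weights_close hd₀ hε
  obtain ⟨c, u₀, hc, hu₀, h1⟩ := F3_all hG θ CM hη B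
  refine ⟨c, u₀, hc, hu₀, fun u hu hlt => ?_⟩
  obtain ⟨a₀, ha₀, h2⟩ := h1 u hu hlt
  refine ⟨a₀, ha₀, fun N W f Q R₀ R a 𝒱 ψ hlta hr d hd => ?_⟩
  have h3 := h2 N W f Q R₀ R a 𝒱 ψ hlta hr
  have ha := hr.sc.a_pos
  obtain ⟨-, -, hN0⟩ := F2_one ha hu hr.Na
  set q : ℝ := N * u ^ 160 with hq
  have hq0 : 0 < q := by positivity
  set l : ℝ := a / u ^ 160 with hl
  have hψ := hr.adm.1
  have hy : ∀ p : Fin 3 → ℤ, 0 ≤ l ^ 2 * ksq p := fun p => mul_nonneg (sq_nonneg _) (ksq_nonneg p)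
  have hz : ∀ p : Fin 3 → ℤ, Real.exp (-(l ^ 2 * ksq p)) ∈ Icc (0:ℝ) 1 := fun p =>
    ⟨(Real.exp_pos _).le, by rw [Real.exp_le_one_iff]; have := hy p; linarith⟩
  have hsum := (F3_bdd_summable hψ (φ := fun _ => 1) (C := 1) (fun p => by simp)).1
  have hw : Summable fun x : Fin N × (Fin N → Fin 3 → ℤ) => ‖fc ψ x.2‖ ^ 2 / q := by
    simp only [one_mul] at hsum
    exact hsum.div_const q
  have key := H (Fin N × (Fin N → Fin 3 → ℤ)) (fun x => Real.exp (-(l ^ 2 * ksq (x.2 x.1))))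
    (fun x => ‖fc ψ x.2‖ ^ 2 / q) (fun x => hz _) (fun x => by positivity) hw ?_ d hd
  · have e : ∑' x : Fin N × (Fin N → Fin 3 → ℤ),
        (if Real.exp (-(l ^ 2 * ksq (x.2 x.1))) ≤ Real.exp (-(d ^ 2)) then ‖fc ψ x.2‖ ^ 2 / q else 0)
        = Dm (ind d l) ψ / q := by
      rw [← (F3_bdd_summable hψ (φ := ind d l) (C := 1) (fun p => by
        unfold ind; split_ifs <;> simp)).2, ← tsum_div_const]
      refine tsum_congr fun x => ?_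
      unfold ind
      by_cases hx : d ^ 2 ≤ l ^ 2 * ksq (x.2 x.1)
      · rw [if_pos (by rw [Real.exp_le_exp]; linarith), if_pos hx, one_mul]
      · rw [if_neg (by rw [Real.exp_le_exp]; intro h; exact hx (by linarith)), if_neg hx, zero_mul,
          zero_div]
    rw [e] at key
    exact key
  · intro b hb1 hb2
    have h4 := h3 b hb1 hb2
    have e : ∑' x : Fin N × (Fin N → Fin 3 → ℤ),
        (1 - Real.exp (-(l ^ 2 * ksq (x.2 x.1))) ^ b) * (‖fc ψ x.2‖ ^ 2 / q)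
        = Db ((b : ℝ) * l ^ 2) ψ / q := by
      unfold Db
      rw [← (F3_bdd_summable hψ (φ := fun p => 1 - Real.exp (-((b : ℝ) * l ^ 2 * ksq p))) (C := 1)
        (fun p => ?_)).2, ← tsum_div_const]
      · refine tsum_congr fun x => ?_
        rw [← Real.exp_nat_mul, mul_div_assoc]
        congr 3
        ring_nf
      · have h5 : Real.exp (-((b : ℝ) * l ^ 2 * ksq p)) ≤ 1 := by
          rw [Real.exp_le_one_iff]
          have : 0 ≤ (b : ℝ) * (l ^ 2 * ksq p) := mul_nonneg (Nat.cast_nonneg b) (hy p)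
          linarith
        have h6 := Real.exp_pos (-((b : ℝ) * l ^ 2 * ksq p))
        rw [abs_le]
        constructor <;> linarith
    rw [e]
    exact h4

end Pool.Agent.Lib.MP_4952d6_mp.O

end

/-! ### O.ME1 -/

section

/-!
# OM-ME1

`md_of`: with `n = N > 0` and `q = (crowd s m x + n)/n ≥ 0`: `q² ≤ 1/u + u^199 q^400` (if `q² > 1/u` then `q^398 ≥ u^(-199)`). `dfm_lin` with `W₁ = 1`, `W₂ = (crowd + n)^400`, `c₁ = n²/u`, `c₂ = u^199 n^(-398)`;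
`MD2_dfm_one`, `Db_le` with `K = cb/u³`: `∑ dfm r m 1 ψ = 2 Db r ψ ≤ 2 (cb/u³) Db b ψ`; `dfm_split` for `W₂ ≤ 2^399 (crowd^400 + n^400)`: the first integral is bounded by `crp s 400 ψ` and `∑_m ∫ ‖ψ‖² n^400 = n^401`, the second one by `smp r s 400 ψ`
(`crowd s m (update x m y) = ∑_{j≠m} hk s (y - x j)`, `I2a_crowd_update`) and `n^401` (`I2a_J_hk`). So `∑ dfm r m W₂ ψ ≤ 2^400 (2 C + 2) n^401`, and `n^2 u^199 n ≤ n² u^161 n`. Model: `M/AI.lean` (`M_sum`), `LA/I2a.lean` (`high_moments`).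
-/

set_option autoImplicit false
set_option linter.unusedSectionVars false
set_option linter.unusedVariables false
open MeasureTheory Function Filter Topology Set
open scoped ENNReal

namespace Pool.Agent.Lib.MP_4952d6_mp.O

open LB LA

theorem ME1_pow {A M : ℝ} (hA : 0 ≤ A) (hM : 0 ≤ M) :
    (A + M) ^ 400 ≤ 2 ^ 399 * A ^ 400 + 2 ^ 399 * M ^ 400 := by
  have h := add_pow_le hA hM 400
  rw [show (400 : ℕ) - 1 = 399 from rfl, mul_add] at h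
  exact h

theorem ME1_pt {A n u : ℝ} (hn : 0 < n) (hA : 0 ≤ A) (hu : 0 < u) :
    A ^ 2 ≤ n ^ 2 / u * 1 + u ^ 199 * (n⁻¹) ^ 398 * A ^ 400 := by
  rcases le_or_gt ((A / n) ^ 2) (1 / u) with h | h
  · have h1 : A ^ 2 ≤ n ^ 2 / u := by
      rw [div_pow, div_le_iff₀ (by positivity)] at h
      calc A ^ 2 ≤ 1 / u * n ^ 2 := h
        _ = n ^ 2 / u := by ring
    have h2 : 0 ≤ u ^ 199 * (n⁻¹) ^ 398 * A ^ 400 := by positivity
    linarith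
  · have h1 : (1 / u) ^ 199 ≤ ((A / n) ^ 2) ^ 199 := pow_le_pow_left₀ (by positivity) h.le 199
    have h2 : 1 ≤ u ^ 199 * ((A / n) ^ 2) ^ 199 := by
      have e1 : (1 : ℝ) = u ^ 199 * (1 / u) ^ 199 := by
        rw [← mul_pow, mul_one_div_cancel hu.ne', one_pow]
      calc (1 : ℝ) = u ^ 199 * (1 / u) ^ 199 := e1
        _ ≤ _ := mul_le_mul_of_nonneg_left h1 (by positivity)
    have h3 : A ^ 2 ≤ A ^ 2 * (u ^ 199 * ((A / n) ^ 2) ^ 199) :=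
      le_mul_of_one_le_right (by positivity) h2
    have h4 : A ^ 2 * (u ^ 199 * ((A / n) ^ 2) ^ 199) = u ^ 199 * (n⁻¹) ^ 398 * A ^ 400 := by
      rw [div_eq_mul_inv]
      ring
    have h5 : 0 ≤ n ^ 2 / u * 1 := by positivity
    linarith

theorem ME1_high {N : ℕ} {ψ : (Fin N → T3) → ℂ} (hψ : MemLp ψ 2 (piN (Fin N)))
    (h1 : ∫ x, ‖ψ x‖ ^ 2 ∂(piN (Fin N)) = 1) {r s C : ℝ}
    (hr : 0 < r) (hs : 0 < s)
    (hcr : crp s 400 ψ ≤ C * (N : ℝ) ^ 401) (hsm : smp r s 400 ψ ≤ C * (N : ℝ) ^ 401) :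
    ∑ m, dfm r m (fun x => (crowd s m x + N) ^ 400) ψ ≤ 2 ^ 401 * (C + 1) * (N : ℝ) ^ 401 := by
  have hN0 : (0 : ℝ) ≤ N := Nat.cast_nonneg N
  have hPBM : ∀ m : Fin N, BM (fun x : Fin N → T3 => (crowd s m x + N) ^ 400) := fun m =>
    ((I2a_crowd_BM hs m).add (BM.const _)).pow 400
  have hP0 : ∀ (m : Fin N) (x : Fin N → T3), 0 ≤ (crowd s m x + (N : ℝ)) ^ 400 := fun m x => by
    have := I2a_crowd_nonneg s m x
    positivity
  have hcard : ∑ m : Fin N, (N : ℝ) ^ 400 = (N : ℝ) ^ 401 := by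
    rw [Finset.sum_const, Finset.card_univ, Fintype.card_fin, nsmul_eq_mul]
    ring
  -- the part with ψ
  have hA : ∑ m, ∫ x, (crowd s m x + N) ^ 400 * ‖ψ x‖ ^ 2 ∂(piN (Fin N))
      ≤ 2 ^ 399 * (C + 1) * (N : ℝ) ^ 401 := by
    have hB : ∀ m : Fin N, ∫ x, (crowd s m x + N) ^ 400 * ‖ψ x‖ ^ 2 ∂(piN (Fin N))
        ≤ 2 ^ 399 * (∫ x, crowd s m x ^ 400 * ‖ψ x‖ ^ 2 ∂(piN (Fin N)))
          + 2 ^ 399 * (N : ℝ) ^ 400 := by
      intro m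
      have i1 := I2a_int1 hψ ((I2a_crowd_BM hs m).pow 400)
      have i2 := (I2a_sq_int hψ).const_mul (2 ^ 399 * (N : ℝ) ^ 400)
      have e1 : 2 ^ 399 * (∫ x, crowd s m x ^ 400 * ‖ψ x‖ ^ 2 ∂(piN (Fin N)))
            + 2 ^ 399 * (N : ℝ) ^ 400
          = ∫ x, (2 ^ 399 * (crowd s m x ^ 400 * ‖ψ x‖ ^ 2) + 2 ^ 399 * (N : ℝ) ^ 400 * ‖ψ x‖ ^ 2)
              ∂(piN (Fin N)) := by
        rw [integral_add (i1.const_mul _) i2, integral_const_mul, integral_const_mul, h1, mul_one]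
      rw [e1]
      refine integral_mono (I2a_int1 hψ (hPBM m)) ((i1.const_mul _).add i2) fun x => ?_
      have h2 := ME1_pow (I2a_crowd_nonneg s m x) hN0
      have h3 := mul_le_mul_of_nonneg_right h2 (by positivity : 0 ≤ ‖ψ x‖ ^ 2)
      calc (crowd s m x + (N : ℝ)) ^ 400 * ‖ψ x‖ ^ 2
          ≤ (2 ^ 399 * crowd s m x ^ 400 + 2 ^ 399 * (N : ℝ) ^ 400) * ‖ψ x‖ ^ 2 := h3
        _ = 2 ^ 399 * (crowd s m x ^ 400 * ‖ψ x‖ ^ 2) + 2 ^ 399 * (N : ℝ) ^ 400 * ‖ψ x‖ ^ 2 := by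
            ring
    calc ∑ m, ∫ x, (crowd s m x + N) ^ 400 * ‖ψ x‖ ^ 2 ∂(piN (Fin N))
        ≤ ∑ m : Fin N, (2 ^ 399 * (∫ x, crowd s m x ^ 400 * ‖ψ x‖ ^ 2 ∂(piN (Fin N)))
            + 2 ^ 399 * (N : ℝ) ^ 400) := Finset.sum_le_sum fun m _ => hB m
      _ = 2 ^ 399 * crp s 400 ψ + 2 ^ 399 * (N : ℝ) ^ 401 := by
          rw [Finset.sum_add_distrib, ← Finset.mul_sum, ← Finset.mul_sum, hcard]
          rfl
      _ ≤ 2 ^ 399 * (C * (N : ℝ) ^ 401) + 2 ^ 399 * (N : ℝ) ^ 401 := by gcongr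
      _ = 2 ^ 399 * (C + 1) * (N : ℝ) ^ 401 := by ring
  have hSBM : ∀ m : Fin N, BM (uncurry (fun (y : T3) (x : Fin N → T3) => I2a_S s m y x ^ 400)) :=
    fun m => (I2a_S_BM hs m).pow 400
  have hUBM : ∀ m : Fin N, BM (uncurry (fun (y : T3) (x : Fin N → T3) =>
      (crowd s m (update x m y) + (N : ℝ)) ^ 400)) := fun m => by
    simp only [I2a_crowd_update]
    exact ((I2a_S_BM hs m).add (BM.const _)).pow 400
  have hkBM : ∀ m : Fin N, BM (uncurry (fun (y : T3) (x : Fin N → T3) => hk r (y - x m))) :=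
    fun m => (I2a_hk_BM hr).comp (by fun_prop)
  -- the part with the swapped configuration
  have hht : ∑ m, ∫ y, ∫ x, hk r (y - x m) * (crowd s m (update x m y) + (N : ℝ)) ^ 400
        * ‖ψ x‖ ^ 2 ∂(piN (Fin N)) ∂lam3 ≤ 2 ^ 399 * (C + 1) * (N : ℝ) ^ 401 := by
    have hB : ∀ m : Fin N, ∫ y, ∫ x, hk r (y - x m)
          * (crowd s m (update x m y) + (N : ℝ)) ^ 400 * ‖ψ x‖ ^ 2 ∂(piN (Fin N)) ∂lam3
        ≤ 2 ^ 399 * (∫ y, ∫ x, hk r (y - x m) * (∑ j ∈ Finset.univ.erase m, hk s (y - x j)) ^ 400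
          * ‖ψ x‖ ^ 2 ∂(piN (Fin N)) ∂lam3) + 2 ^ 399 * (N : ℝ) ^ 400 := by
      intro m
      have hkS : BM (uncurry (fun (y : T3) (x : Fin N → T3) =>
          hk r (y - x m) * I2a_S s m y x ^ 400)) := (hkBM m).mul (hSBM m)
      have h2 : I2a_J ψ (fun y x => hk r (y - x m) * (crowd s m (update x m y) + (N : ℝ)) ^ 400)
          ≤ I2a_J ψ (fun y x => 2 ^ 399 * (hk r (y - x m) * I2a_S s m y x ^ 400)
              + (2 ^ 399 * (N : ℝ) ^ 400) * hk r (y - x m)) := by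
        refine I2a_J_mono hψ ((hkBM m).mul (hUBM m))
          ((hkS.const_mul _).add ((hkBM m).const_mul _)) fun y x => ?_
        rw [I2a_crowd_update]
        have h4 := mul_le_mul_of_nonneg_left (ME1_pow (I2a_S_nonneg s m y x) hN0)
          (hk_nonneg r (y - x m))
        calc hk r (y - x m) * (I2a_S s m y x + (N : ℝ)) ^ 400
            ≤ hk r (y - x m) * (2 ^ 399 * I2a_S s m y x ^ 400 + 2 ^ 399 * (N : ℝ) ^ 400) := h4
          _ = 2 ^ 399 * (hk r (y - x m) * I2a_S s m y x ^ 400)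
              + (2 ^ 399 * (N : ℝ) ^ 400) * hk r (y - x m) := by ring
      rw [I2a_J_add hψ hkS (hkBM m), I2a_J_hk hψ h1 hr m, mul_one] at h2
      exact h2
    calc ∑ m, ∫ y, ∫ x, hk r (y - x m) * (crowd s m (update x m y) + (N : ℝ)) ^ 400
        * ‖ψ x‖ ^ 2 ∂(piN (Fin N)) ∂lam3
        ≤ ∑ m : Fin N, (2 ^ 399 * (∫ y, ∫ x, hk r (y - x m)
            * (∑ j ∈ Finset.univ.erase m, hk s (y - x j)) ^ 400
            * ‖ψ x‖ ^ 2 ∂(piN (Fin N)) ∂lam3) + 2 ^ 399 * (N : ℝ) ^ 400) :=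
          Finset.sum_le_sum fun m _ => hB m
      _ = 2 ^ 399 * smp r s 400 ψ + 2 ^ 399 * (N : ℝ) ^ 401 := by
          rw [Finset.sum_add_distrib, ← Finset.mul_sum, ← Finset.mul_sum, hcard]
          rfl
      _ ≤ 2 ^ 399 * (C * (N : ℝ) ^ 401) + 2 ^ 399 * (N : ℝ) ^ 401 := by gcongr
      _ = 2 ^ 399 * (C + 1) * (N : ℝ) ^ 401 := by ring
  calc ∑ m, dfm r m (fun x => (crowd s m x + N) ^ 400) ψ
      ≤ ∑ m : Fin N, (2 * ∫ x, (crowd s m x + N) ^ 400 * ‖ψ x‖ ^ 2 ∂(piN (Fin N))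
          + 2 * ∫ y, ∫ x, hk r (y - x m) * (crowd s m (update x m y) + (N : ℝ)) ^ 400
            * ‖ψ x‖ ^ 2 ∂(piN (Fin N)) ∂lam3) :=
        Finset.sum_le_sum fun m _ => dfm_split hψ hr m (hPBM m) (hP0 m)
    _ = 2 * (∑ m : Fin N, ∫ x, (crowd s m x + N) ^ 400 * ‖ψ x‖ ^ 2 ∂(piN (Fin N)))
          + 2 * (∑ m : Fin N, ∫ y, ∫ x, hk r (y - x m)
            * (crowd s m (update x m y) + (N : ℝ)) ^ 400
            * ‖ψ x‖ ^ 2 ∂(piN (Fin N)) ∂lam3) := by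
        rw [Finset.sum_add_distrib, ← Finset.mul_sum, ← Finset.mul_sum]
    _ ≤ 2 * (2 ^ 399 * (C + 1) * (N : ℝ) ^ 401) + 2 * (2 ^ 399 * (C + 1) * (N : ℝ) ^ 401) := by
        gcongr
    _ = 2 ^ 401 * (C + 1) * (N : ℝ) ^ 401 := by
        rw [show (2 : ℝ) ^ 401 = 2 ^ 399 * 4 by
          rw [show (401 : ℕ) = 399 + 2 from rfl, pow_add, show (2 : ℝ) ^ 2 = 4 by norm_num]]
        ring

theorem ME1_Db_nonneg {ι : Type*} [Fintype ι] {b : ℝ} (hb : 0 ≤ b) (ψ : (ι → T3) → ℂ) :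
    0 ≤ Db b ψ := by
  unfold Db Dm
  refine Finset.sum_nonneg fun j _ => tsum_nonneg fun k => mul_nonneg ?_ (by positivity)
  have h1 : 0 ≤ b * ksq (k j) := mul_nonneg hb (ksq_nonneg _)
  have h2 : Real.exp (-(b * ksq (k j))) ≤ 1 := Real.exp_le_one_iff.2 (by linarith)
  linarith

theorem md_of {N : ℕ} (hN : 0 < N) {ψ : (Fin N → T3) → ℂ} (hψ : MemLp ψ 2 (piN (Fin N)))
    (h1 : ∫ x, ‖ψ x‖ ^ 2 ∂(piN (Fin N)) = 1) {u r s b cb C : ℝ} (hu : 0 < u) (hu1 : u ≤ 1)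
    (hr : 0 < r) (hs : 0 < s) (hb : 0 < b) (hcb : 1 ≤ cb) (hrb : r ≤ cb * b / u ^ 3) (hC : 0 ≤ C)
    (hcr : crp s 400 ψ ≤ C * (N : ℝ) ^ 401) (hsm : smp r s 400 ψ ≤ C * (N : ℝ) ^ 401) :
    ∑ m, dfm r m (fun x => (crowd s m x + N) ^ 2) ψ
      ≤ (2 * cb + 2 ^ 401 * (C + 1)) * (N : ℝ) ^ 2 * (Db b ψ / u ^ 4 + u ^ 161 * (N : ℝ)) := by
  have hn : (0 : ℝ) < N := by exact_mod_cast hN
  have hcr1 := ME1_high hψ h1 hr hs hcr hsm
  have hBM : ∀ (p : ℕ) (m : Fin N), BM (fun x : Fin N → T3 => (crowd s m x + (N : ℝ)) ^ p) :=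
    fun p m => ((I2a_crowd_BM hs m).add (BM.const _)).pow p
  have hlin : ∀ m : Fin N, dfm r m (fun x => (crowd s m x + (N : ℝ)) ^ 2) ψ
      ≤ (N : ℝ) ^ 2 / u * dfm r m (fun _ => 1) ψ
        + u ^ 199 * ((N : ℝ)⁻¹) ^ 398 * dfm r m (fun x => (crowd s m x + (N : ℝ)) ^ 400) ψ := by
    intro m
    refine dfm_lin hψ hr m (hBM 2 m) (BM.const 1) (hBM 400 m) fun x => ?_
    exact ME1_pt hn (add_nonneg (I2a_crowd_nonneg s m x) hn.le) hu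
  have hu3 : u ^ 3 ≤ 1 := pow_le_one₀ hu.le hu1
  have hK : 1 ≤ cb / u ^ 3 := by
    rw [le_div_iff₀ (by positivity)]
    linarith
  have hDb : Db r ψ ≤ cb / u ^ 3 * Db b ψ :=
    Db_le hψ hr.le hb hK (hrb.trans (le_of_eq (by ring)))
  have hD0 : 0 ≤ Db b ψ := ME1_Db_nonneg hb.le ψ
  have hu199 : u ^ 199 ≤ u ^ 161 := pow_le_pow_of_le_one hu.le hu1 (by norm_num)
  have e3 : ((N : ℝ)⁻¹) ^ 398 * (N : ℝ) ^ 401 = (N : ℝ) ^ 3 := by
    rw [inv_pow, inv_mul_eq_div, div_eq_iff (by positivity), ← pow_add]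
  have hC1 : (0 : ℝ) ≤ 2 ^ 401 * (C + 1) := by positivity
  generalize hgc : (2 : ℝ) ^ 401 * (C + 1) = c at hcr1 hC1 ⊢
  calc ∑ m, dfm r m (fun x => (crowd s m x + (N : ℝ)) ^ 2) ψ
      ≤ ∑ m : Fin N, ((N : ℝ) ^ 2 / u * dfm r m (fun _ => 1) ψ
        + u ^ 199 * ((N : ℝ)⁻¹) ^ 398 * dfm r m (fun x => (crowd s m x + (N : ℝ)) ^ 400) ψ) :=
        Finset.sum_le_sum fun m _ => hlin m
    _ = (N : ℝ) ^ 2 / u * (2 * Db r ψ) + u ^ 199 * ((N : ℝ)⁻¹) ^ 398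
          * ∑ m : Fin N, dfm r m (fun x => (crowd s m x + (N : ℝ)) ^ 400) ψ := by
        rw [Finset.sum_add_distrib, ← Finset.mul_sum, ← Finset.mul_sum, MD2_dfm_one hψ hr]
    _ ≤ (N : ℝ) ^ 2 / u * (2 * (cb / u ^ 3 * Db b ψ)) + u ^ 199 * ((N : ℝ)⁻¹) ^ 398
          * (c * (N : ℝ) ^ 401) := by gcongr
    _ = 2 * cb * (N : ℝ) ^ 2 * (Db b ψ / u ^ 4)
          + c * u ^ 199 * (((N : ℝ)⁻¹) ^ 398 * (N : ℝ) ^ 401) := by
        have e4 : (N : ℝ) ^ 2 / u * (2 * (cb / u ^ 3 * Db b ψ))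
            = 2 * cb * (N : ℝ) ^ 2 * (Db b ψ / u ^ 4) := by
          field_simp
        rw [e4]
        ring
    _ = 2 * cb * (N : ℝ) ^ 2 * (Db b ψ / u ^ 4) + c * (N : ℝ) ^ 2 * (u ^ 199 * (N : ℝ)) := by
        rw [e3]
        ring
    _ ≤ 2 * cb * (N : ℝ) ^ 2 * (Db b ψ / u ^ 4) + c * (N : ℝ) ^ 2 * (u ^ 161 * (N : ℝ)) := by
        gcongr
    _ ≤ (2 * cb + c) * (N : ℝ) ^ 2 * (Db b ψ / u ^ 4 + u ^ 161 * (N : ℝ)) := by
        have h6 : 0 ≤ c * (N : ℝ) ^ 2 * (Db b ψ / u ^ 4) := by positivity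
        have h7 : 0 ≤ 2 * cb * (N : ℝ) ^ 2 * (u ^ 161 * (N : ℝ)) := by positivity
        calc 2 * cb * (N : ℝ) ^ 2 * (Db b ψ / u ^ 4) + c * (N : ℝ) ^ 2 * (u ^ 161 * (N : ℝ))
            ≤ 2 * cb * (N : ℝ) ^ 2 * (Db b ψ / u ^ 4) + c * (N : ℝ) ^ 2 * (u ^ 161 * (N : ℝ))
              + c * (N : ℝ) ^ 2 * (Db b ψ / u ^ 4)
              + 2 * cb * (N : ℝ) ^ 2 * (u ^ 161 * (N : ℝ)) := by linarith
          _ = (2 * cb + c) * (N : ℝ) ^ 2 * (Db b ψ / u ^ 4 + u ^ 161 * (N : ℝ)) := by ring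

end Pool.Agent.Lib.MP_4952d6_mp.O

end

/-! ### O.ME2 -/

section

/-!
# JOB OM-ME2

`mv_of`: `nz s z x ≤ n/u + (u/n)^161 (nz s z x)^162` (cases `nz ≤ n/u` or not), `(nz (T/2) - n)² ≤ (nz (T/2))² + n²` for the second term, and `a^162 b² ≤ a^164 + b^164`; so the left side is
`≤ (n/u) VV + (u/n)^161 (nzp s 164 + nzp (T/2) 164 + n² nzp s 162) ≤ (n/u) VV + 3 C u^161 n^3`. `VV ≥ 0`. Integrability: everything is bounded times `‖ψ‖²` (`I2a_int2`).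
-/

set_option autoImplicit false
set_option linter.unusedSectionVars false
set_option linter.unusedVariables false
open MeasureTheory Function Filter Topology Set
open scoped ENNReal

namespace Pool.Agent.Lib.MP_4952d6_mp.O

open LB LA

lemma ME2_pt {n u a b : ℝ} (hn : 0 < n) (hu : 0 < u) (ha : 0 ≤ a) (hb : 0 ≤ b) :
    a * (b - n) ^ 2 ≤ n / u * (b - n) ^ 2
      + (u / n) ^ 161 * (1 * (a ^ 164 + b ^ 164) + n ^ 2 * a ^ 162) := by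
  have h1 : a ≤ n / u + (u / n) ^ 161 * a ^ 162 := by
    rcases le_or_gt a (n / u) with h | h
    · have : 0 ≤ (u / n) ^ 161 * a ^ 162 := by positivity
      linarith
    · have h2 : 1 ≤ u / n * a := by
        rw [div_lt_iff₀ hu] at h
        rw [div_mul_eq_mul_div, le_div_iff₀ hn]
        linarith
      have h3 : 1 ≤ (u / n * a) ^ 161 := one_le_pow₀ h2
      have h4 : a * 1 ≤ a * (u / n * a) ^ 161 := mul_le_mul_of_nonneg_left h3 ha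
      have h5 : a * (u / n * a) ^ 161 = (u / n) ^ 161 * a ^ 162 := by
        rw [mul_pow]; ring
      have h6 : 0 ≤ n / u := by positivity
      linarith
  have h2 : (b - n) ^ 2 ≤ b ^ 2 + n ^ 2 := by nlinarith [mul_nonneg hb hn.le]
  have h3 : a ^ 162 * b ^ 2 ≤ a ^ 164 + b ^ 164 := by
    rcases le_total a b with h | h
    · have h4 : a ^ 162 * b ^ 2 ≤ b ^ 162 * b ^ 2 :=
        mul_le_mul_of_nonneg_right (pow_le_pow_left₀ ha h 162) (sq_nonneg b)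
      have h5 : b ^ 162 * b ^ 2 = b ^ 164 := by ring
      have h6 : 0 ≤ a ^ 164 := pow_nonneg ha _
      linarith
    · have h4 : a ^ 162 * b ^ 2 ≤ a ^ 162 * a ^ 2 :=
        mul_le_mul_of_nonneg_left (pow_le_pow_left₀ hb h 2) (pow_nonneg ha _)
      have h5 : a ^ 162 * a ^ 2 = a ^ 164 := by ring
      have h6 : 0 ≤ b ^ 164 := pow_nonneg hb _
      linarith
  have h4 : 0 ≤ (u / n) ^ 161 := by positivity
  calc a * (b - n) ^ 2 ≤ (n / u + (u / n) ^ 161 * a ^ 162) * (b - n) ^ 2 :=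
        mul_le_mul_of_nonneg_right h1 (sq_nonneg _)
    _ = n / u * (b - n) ^ 2 + (u / n) ^ 161 * (a ^ 162 * (b - n) ^ 2) := by ring
    _ ≤ n / u * (b - n) ^ 2 + (u / n) ^ 161 * (a ^ 162 * (b ^ 2 + n ^ 2)) := by
      have h5 := mul_le_mul_of_nonneg_left
        (mul_le_mul_of_nonneg_left h2 (pow_nonneg ha 162)) h4
      linarith
    _ ≤ n / u * (b - n) ^ 2
      + (u / n) ^ 161 * (1 * (a ^ 164 + b ^ 164) + n ^ 2 * a ^ 162) := by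
      have : a ^ 162 * (b ^ 2 + n ^ 2) ≤ 1 * (a ^ 164 + b ^ 164) + n ^ 2 * a ^ 162 := by
        nlinarith
      have := mul_le_mul_of_nonneg_left this h4
      linarith

lemma ME2_BM {N : ℕ} {σ : ℝ} (hσ : 0 < σ) (p : ℕ) :
    BM (uncurry (fun (z : T3) (x : Fin N → T3) => nz σ z x ^ p)) := by
  have h := BM.pow (H4_S_bm (ι := Fin N) hσ) p
  exact h

lemma ME2_BM1 {N : ℕ} {σ : ℝ} (hσ : 0 < σ) :
    BM (uncurry (fun (z : T3) (x : Fin N → T3) => nz σ z x)) := H4_S_bm (ι := Fin N) hσ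

theorem mv_of {N : ℕ} (hN : 0 < N) {ψ : (Fin N → T3) → ℂ} (hψ : MemLp ψ 2 (piN (Fin N)))
    (h1 : ∫ x, ‖ψ x‖ ^ 2 ∂(piN (Fin N)) = 1) {u s T C : ℝ} (hu : 0 < u) (hs : 0 < s) (hT : 0 < T)
    (hC : 0 ≤ C) (h162 : nzp s 162 ψ ≤ C * (N : ℝ) ^ 162) (h164 : nzp s 164 ψ ≤ C * (N : ℝ) ^ 164)
    (h164' : nzp (T / 2) 164 ψ ≤ C * (N : ℝ) ^ 164) :
    ∫ z, ∫ x, ‖ψ x‖ ^ 2 * (nz s z x * (nz (T / 2) z x - N) ^ 2) ∂(piN (Fin N)) ∂lam3
      ≤ (3 * C + 1) * (N : ℝ) * (VV (T / 2) ψ / u + u ^ 161 * (N : ℝ) ^ 2) := by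
  have hn : (0:ℝ) < N := by exact_mod_cast hN
  have hT2 : 0 < T / 2 := by positivity
  have b1 : BM (uncurry (fun (z : T3) (x : Fin N → T3) => (nz (T / 2) z x - (N : ℝ)) ^ 2)) :=
    ((ME2_BM1 hT2).add (BM.const (-(N : ℝ)))).pow 2
  have b0 : BM (uncurry (fun (z : T3) (x : Fin N → T3) =>
      nz s z x * (nz (T / 2) z x - (N : ℝ)) ^ 2)) := (ME2_BM1 hs).mul b1
  have b2 : BM (uncurry (fun (z : T3) (x : Fin N → T3) =>
      1 * nz s z x ^ 164 + 1 * nz (T / 2) z x ^ 164)) :=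
    ((ME2_BM hs 164).const_mul 1).add ((ME2_BM hT2 164).const_mul 1)
  have b3 : BM (uncurry (fun (z : T3) (x : Fin N → T3) =>
      1 * (1 * nz s z x ^ 164 + 1 * nz (T / 2) z x ^ 164) + (N : ℝ) ^ 2 * nz s z x ^ 162)) :=
    (b2.const_mul 1).add ((ME2_BM hs 162).const_mul _)
  have b4 : BM (uncurry (fun (z : T3) (x : Fin N → T3) =>
      (N : ℝ) / u * (nz (T / 2) z x - (N : ℝ)) ^ 2 + (u / N) ^ 161
        * (1 * (1 * nz s z x ^ 164 + 1 * nz (T / 2) z x ^ 164) + (N : ℝ) ^ 2 * nz s z x ^ 162))) :=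
    (b1.const_mul _).add (b3.const_mul _)
  have key := I2a_J_mono hψ b0 b4 fun z x => by
    have := ME2_pt hn hu (a := nz s z x) (b := nz (T / 2) z x)
      (Finset.sum_nonneg fun j _ => hk_nonneg _ _) (Finset.sum_nonneg fun j _ => hk_nonneg _ _)
    simp only [one_mul] at this ⊢
    exact this
  rw [I2a_J_add hψ b1 b3, I2a_J_add hψ b2 (ME2_BM hs 162), I2a_J_add hψ (ME2_BM hs 164)
    (ME2_BM hT2 164)] at key
  have e0 : ∫ z, ∫ x, ‖ψ x‖ ^ 2 * (nz s z x * (nz (T / 2) z x - N) ^ 2) ∂(piN (Fin N)) ∂lam3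
      = I2a_J ψ (fun z x => nz s z x * (nz (T / 2) z x - (N : ℝ)) ^ 2) := by
    unfold I2a_J
    simp only [mul_comm]
  have e1 : I2a_J ψ (fun z x => (nz (T / 2) z x - (N : ℝ)) ^ 2) = VV (T / 2) ψ := by
    unfold I2a_J VV
    simp only [mul_comm, Fintype.card_fin]
  have e2 : I2a_J ψ (fun z x => nz s z x ^ 164) = nzp s 164 ψ := rfl
  have e3 : I2a_J ψ (fun z x => nz (T / 2) z x ^ 164) = nzp (T / 2) 164 ψ := rfl
  have e4 : I2a_J ψ (fun z x => nz s z x ^ 162) = nzp s 162 ψ := rfl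
  rw [e0]
  rw [e1, e2, e3, e4] at key
  refine key.trans ?_
  have hV : 0 ≤ VV (T / 2) ψ := by
    unfold VV
    exact integral_nonneg fun z => integral_nonneg fun x => mul_nonneg (sq_nonneg _) (sq_nonneg _)
  have k1 : 1 * (1 * nzp s 164 ψ + 1 * nzp (T / 2) 164 ψ) + (N : ℝ) ^ 2 * nzp s 162 ψ
      ≤ 3 * C * (N : ℝ) ^ 164 := by
    have : (N : ℝ) ^ 2 * nzp s 162 ψ ≤ (N : ℝ) ^ 2 * (C * (N : ℝ) ^ 162) :=
      mul_le_mul_of_nonneg_left h162 (by positivity)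
    have e : (N : ℝ) ^ 2 * (C * (N : ℝ) ^ 162) = C * (N : ℝ) ^ 164 := by ring
    linarith
  have k2 : (u / N) ^ 161 * (3 * C * (N : ℝ) ^ 164) = 3 * C * (u ^ 161 * (N : ℝ) ^ 3) := by
    rw [div_pow]
    field_simp
  have k3 := mul_le_mul_of_nonneg_left k1 (show 0 ≤ (u / (N : ℝ)) ^ 161 by positivity)
  rw [k2] at k3
  have k4 : 0 ≤ (N : ℝ) * (VV (T / 2) ψ / u) := by positivity
  have k5 : 0 ≤ u ^ 161 * (N : ℝ) ^ 3 := by positivity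
  have k6 : (N : ℝ) / u * VV (T / 2) ψ = N * (VV (T / 2) ψ / u) := by ring
  rw [k6]
  have k7 : (3 * C + 1) * (N : ℝ) * (VV (T / 2) ψ / u + u ^ 161 * (N : ℝ) ^ 2)
      = 3 * C * (N * (VV (T / 2) ψ / u)) + N * (VV (T / 2) ψ / u)
        + 3 * C * (u ^ 161 * (N : ℝ) ^ 3) + u ^ 161 * (N : ℝ) ^ 3 := by ring
  rw [k7]
  have k8 : 0 ≤ 3 * C * (N * (VV (T / 2) ψ / u)) := by positivity
  linarith

end Pool.Agent.Lib.MP_4952d6_mp.O

end

/-! ### O.ME -/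

section

/-! OM: collects ME1, ME2 -/

end

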