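import Pool.Agent.Lib.MP_4952d6_mp.Po.N02
import Pool.Agent.Lib.MP_4952d6_mp.Po.N05
import Pool.Agent.Lib.MP_4952d6_mp.Po.N06
import Pool.Agent.Lib.MP_4952d6_mp.Po.N07
import Pool.Agent.Lib.MP_4952d6_mp.Po.N10
import Pool.Agent.Lib.MP_4952d6_mp.Po.N13
import Pool.Agent.Lib.MP_4952d6_mp.Po.N17
import Pool.Agent.Lib.MP_4952d6_mp.Po.N20

/-! Merged modules (to save import time): O.EC, O.XV3, O.EV, O.WH2, O.WH3, O.WH4. -/

/-! ### O.EC -/

section

/-!
# O.EC: masses and contact term (E7 of the notes)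
-/

set_option autoImplicit false
set_option linter.unusedSectionVars false
set_option linter.unusedVariables false
open MeasureTheory Function Filter Topology Set ComplexConjugate

namespace Pool.Agent.Lib.MP_4952d6_mp.O

open LB

theorem massO : ∃ C : ℝ, 0 ≤ C ∧ ∀ (N : ℕ) (t T τ H R M0 : ℝ) (h : T3 → ℝ), 0 < t →
    4 * t ≤ T → 64 * T ≤ 1 → (τ = t ∨ τ = T) → SR H R h → 0 ≤ R → R ^ 2 ≤ t / 8 →
    ∀ ψ : HS (Fin N), MBd t T M0 ψ →
    ∑ j, ∑ l ∈ Finset.univ.erase j, qf (fun x => h (x j - x l)) (Phi τ j l ψ) ≤ C * H * M0 := by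
  obtain ⟨C1, hC1, h1⟩ := q_h_Phi
  refine ⟨C1, hC1, ?_⟩
  intro N t T τ H R M0 h ht htT hT hτ hh hR hR2 ψ hM
  have hH : 0 ≤ H := WtB_H hh
  have hτ1 : t ≤ τ := by rcases hτ with h | h <;> rw [h] <;> linarith
  have hτ2 : τ ≤ T := by rcases hτ with h | h <;> rw [h] <;> linarith
  have hτ0 : 0 < τ := by linarith
  have a : ∀ j : Fin N, ∑ l ∈ Finset.univ.erase j, qf (fun x => h (x j - x l)) (Phi τ j l ψ)
      ≤ C1 * H * qf (crowd (2 * τ) j) ψ := by
    intro j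
    have e : qf (crowd (2 * τ) j) ψ
        = ∑ l ∈ Finset.univ.erase j, qf (fun x => hk (2 * τ) (x j - x l)) ψ := by
      rw [← qf_sum _ fun l _ => Sums_hk_bm (by linarith) j l]
      rfl
    rw [e, Finset.mul_sum]
    refine Finset.sum_le_sum fun l hl => ?_
    exact h1 N τ H R h j l hτ0 (by linarith) hh hR (by linarith) (Finset.ne_of_mem_erase hl).symm ψ
  refine (Finset.sum_le_sum fun j _ => a j).trans ?_
  rw [← Finset.mul_sum]
  exact mul_le_mul_of_nonneg_left (hM (2 * τ) (by linarith) (by linarith)) (by positivity)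

theorem massD : ∃ C : ℝ, 0 ≤ C ∧ ∀ (N : ℕ) (t T H R MD : ℝ) (h : T3 → ℝ), 0 < N → 0 < t →
    4 * t ≤ T → 64 * T ≤ 1 → SR H R h → 0 ≤ R → R ^ 2 ≤ t / 8 → ∀ ψ : HS (Fin N), DBd t T MD ψ →
    ∑ j, ∑ l ∈ Finset.univ.erase j, qf (fun x => h (x j - x l)) (PhiD t T j l ψ)
      ≤ C * (H / N) * MD := by
  obtain ⟨C1, hC1, h1⟩ := mA
  obtain ⟨C2, hC2, h2⟩ := mB
  refine ⟨8 * C1 + 2 * C2, by positivity, ?_⟩
  intro N t T H R MD h hN ht htT hT hh hR hR2 ψ hD
  have hT0 : 0 < T := by linarith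
  have hH : 0 ≤ H := WtB_H hh
  have hMD := hD.nonneg ht (by linarith)
  set g : Fin N → HS (Fin N) := fun j => QQ1 T j ψ - QQ1 t j ψ with hg
  set G : Fin N → HS (Fin N) := fun l => QQ1 (T - t) l ψ with hG
  have a1 := h1 N t H R h hN ht (by linarith) hh hR hR2 g
  have a2 := h2 N t T H R h hN ht htT (by linarith) hh hR hR2 G
  have b1 : ∑ j, cw t j (g j) ≤ 4 * MD :=
    cw_QQdiff_le ht (by linarith) (by linarith) (by linarith) hD
  have b2 : ∑ l, cw (2 * T) l (G l) ≤ MD :=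
    cw_QQ1_le (by linarith) (by linarith) ht (by linarith) (by linarith) hD
  have c1 : ∑ j, ∑ l ∈ Finset.univ.erase j, qf (fun x => h (x j - x l)) (PhiD t T j l ψ)
      ≤ 2 * (∑ j, ∑ l ∈ Finset.univ.erase j, qf (fun x => h (x j - x l)) (PP1 t l (g j)))
        + 2 * ∑ j, ∑ l ∈ Finset.univ.erase j, qf (fun x => h (x j - x l)) (PP1 t l (PP1 T j (G l))) := by
    simp only [Finset.mul_sum]
    rw [← Finset.sum_add_distrib]
    refine Finset.sum_le_sum fun j _ => ?_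
    rw [← Finset.sum_add_distrib]
    refine Finset.sum_le_sum fun l _ => ?_
    rw [PhiD_eq ht.le (by linarith)]
    exact qf_add_le (bm_diff hh.bm j l) (fun x => hh.nonneg _) _ _
  have hHN : 0 ≤ H / N := by positivity
  have d1 : C1 * (H / N) * ∑ j, cw t j (g j) ≤ C1 * (H / N) * (4 * MD) :=
    mul_le_mul_of_nonneg_left b1 (by positivity)
  have d2 : C2 * (H / N) * ∑ l, cw (2 * T) l (G l) ≤ C2 * (H / N) * MD :=
    mul_le_mul_of_nonneg_left b2 (by positivity)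
  calc _ ≤ _ := c1
    _ ≤ 2 * (C1 * (H / N) * (4 * MD)) + 2 * (C2 * (H / N) * MD) := by linarith
    _ = _ := by ring

theorem contactO : ∃ C : ℝ, 0 ≤ C ∧ ∀ (N : ℕ) (s t T τ H R c MD M0 : ℝ) (h : T3 → ℝ), 0 < N →
    0 < t → 4 * t ≤ T → 64 * T ≤ 1 → (τ = t ∨ τ = T) → 0 < s → s ≤ t → SR H R h → 0 ≤ R →
    R ^ 2 ≤ t / 8 → 0 < c → ∀ ψ : HS (Fin N), DBd t T MD ψ → MBd t T M0 ψ →
    H * (∑ j, ∑ l ∈ Finset.univ.erase j, qf (fun x => hk s (x j - x l)) (Phi τ j l ψ))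
      - C * H * ((R + Real.sqrt s) / Real.sqrt τ) * (c / N * MD + 1 / c * M0)
      ≤ ∑ j, ∑ l ∈ Finset.univ.erase j, qf (fun x => h (x j - x l)) (Phi τ j l ψ) := by
  obtain ⟨C1, hC1, h1⟩ := contact_sum
  refine ⟨C1, hC1, ?_⟩
  intro N s t T τ H R c MD M0 h hN ht htT hT hτ hs hst hh hR hR2 hc ψ hD hM
  have hτ1 : t ≤ τ := by rcases hτ with h | h <;> rw [h] <;> linarith
  have hτ2 : τ ≤ T := by rcases hτ with h | h <;> rw [h] <;> linarith
  have a := h1 N s t T τ H R c MD M0 h hN ht htT hT hτ1 hτ2 hs hst hh hR hR2 hc ψ hD hM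
  have b := neg_le_of_abs_le a
  linarith

end Pool.Agent.Lib.MP_4952d6_mp.O

end

/-! ### O.XV3 -/

section

/-!
# O.XV3: comparison of the smoothed densities

`σ = (T-t)/2`, `n_z ψ = MB (nz (T/2) z) ψ`. `D_j = MB(hk(T/2)(z-x_j)) ψ - PP1 t j (MB(hk σ (z-x_j)) (PP1 t j ψ))`.
For a.e. `x` (`S1_ker`, `Ker_cvc_congr`, `MB_ae`): `(PP1 t j (MB(..) (PP1 t j ψ))) x = ∫ p(x_j-w) hk σ (z-w) ∫ p(w-y) ψ(x^{j→y}) dy dw`, `p = hk(t/2)`, and
`∫∫ p(x_j-w) hk σ (z-w) p(w-y) dy dw = hk(t/2+σ)(z-x_j) = hk(T/2)(z-x_j)` (`HKG_conv`/`hk_conv`), so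
`D_j x = -∫ p(x_j-w) hk σ (z-w) ∫ p(w-y) (ψ(x^{j→y}) - ψ(x)) dy dw`; `XT_ker` with `τ = T = t`, `K w = hk σ (z-w)`, `α = x_j`:
`‖D_j x‖² ≤ (64 ∫ hk(2t)(x_j-w) hk σ (z-w) dw)² dd (2t) j ψ x`, and the integral is `hk(2t+σ)(z-x_j) ≤ (√2)³ hk T (z-x_j)`
(`T/2 ≤ 2t+σ ≤ T` because `4t ≤ T`; `hk_le_hk`). `XV_pt` (model for the a.e. computations: XF).
`nz_sub_mz`: `∑_j D_j`, `norm_sum_sq_le` with `S = univ`, `k j x = 64 (√2)³ hk T (z - x j)`, `d j = dd (2t) j ψ` (`dd_integrable`).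
-/

set_option autoImplicit false
set_option linter.unusedSectionVars false
set_option linter.unusedVariables false
open MeasureTheory Function Filter Topology Set ComplexConjugate

namespace Pool.Agent.Lib.MP_4952d6_mp.O

open LB

variable {N : ℕ}

lemma XV3_conv {s r : ℝ} (hs : 0 < s) (hr : 0 < r) (α z : T3) :
    ∫ w, hk s (α - w) * hk r (z - w) ∂lam3 = hk (s + r) (z - α) := by
  rw [← HKG_conv hs hr α z]
  refine integral_congr_ae (Eventually.of_forall fun w => ?_)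
  simp only
  rw [← hk_neg s (α - w), ← hk_neg r (z - w), neg_sub, neg_sub]

lemma XV3_A_sm {p : T3 → ℝ} (hp : BM p) {v : T3 → ℂ} (hv : StronglyMeasurable v) :
    StronglyMeasurable (fun w : T3 => ∫ y, ((p (w - y) : ℝ) : ℂ) * v y ∂lam3) := by
  have h : StronglyMeasurable (fun q : T3 × T3 => ((p (q.1 - q.2) : ℝ) : ℂ) * v q.2) := by
    refine StronglyMeasurable.mul ?_ (hv.comp_measurable measurable_snd)
    exact (Complex.measurable_ofReal.comp (hp.1.comp measurable_sub_fst_snd)).stronglyMeasurable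
  exact h.integral_prod_right'

lemma XV3_int {p : T3 → ℝ} (hp : BM p) {v : T3 → ℂ} (hv : Integrable v lam3) (w : T3) :
    Integrable (fun y => ((p (w - y) : ℝ) : ℂ) * v y) lam3 := by
  obtain ⟨C, hC⟩ := hp.2
  refine hv.bdd_mul (c := C) ?_ (Eventually.of_forall fun y => ?_)
  · exact (Complex.measurable_ofReal.comp (hp.1.comp
      (measurable_sub' measurable_const measurable_id))).aestronglyMeasurable
  · rw [Complex.norm_real]
    exact hC _

lemma XV3_A_bd {p : T3 → ℝ} (hp : BM p) {v : T3 → ℂ} (hv : Integrable v lam3) :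
    ∃ C : ℝ, ∀ w, ‖∫ y, ((p (w - y) : ℝ) : ℂ) * v y ∂lam3‖ ≤ C := by
  obtain ⟨C, hC0, hC⟩ := hp.exists_nonneg_bound
  refine ⟨C * ∫ y, ‖v y‖ ∂lam3, fun w => ?_⟩
  refine (norm_integral_le_integral_norm _).trans ?_
  rw [← integral_const_mul]
  refine integral_mono (XV3_int hp hv w).norm (hv.norm.const_mul _) fun y => ?_
  simp only
  rw [norm_mul, Complex.norm_real]
  exact mul_le_mul_of_nonneg_right (hC _) (norm_nonneg _)

/-- the algebra of the two convolutions -/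
lemma XV3_alg {t σ : ℝ} (ht : 0 < t) (hσ : 0 < σ) (α z : T3) (c : ℂ) {v : T3 → ℂ}
    (hv : StronglyMeasurable v) (hvi : Integrable v lam3) :
    ((hk (t + σ) (z - α) : ℝ) : ℂ) * c
      - ∫ w, ((hk t (α - w) : ℝ) : ℂ) * (((hk σ (z - w) : ℝ) : ℂ)
          * ∫ y, ((hk t (w - y) : ℝ) : ℂ) * v y ∂lam3) ∂lam3
      = - ∫ w, ((hk t (α - w) * hk σ (z - w) : ℝ) : ℂ)
          * ∫ y, ((hk t (w - y) : ℝ) : ℂ) * (v y - c) ∂lam3 ∂lam3 := by
  have hp := hk_bm ht
  have hq := hk_bm hσ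
  have hK : BM (fun w : T3 => hk t (α - w) * hk σ (z - w)) :=
    (hp.comp (measurable_sub' measurable_const measurable_id)).mul
      (hq.comp (measurable_sub' measurable_const measurable_id))
  have h1 : ∀ w : T3, ∫ y, ((hk t (w - y) : ℝ) : ℂ) * (v y - c) ∂lam3
      = (∫ y, ((hk t (w - y) : ℝ) : ℂ) * v y ∂lam3) - c := by
    intro w
    have hc : Integrable (fun y : T3 => ((hk t (w - y) : ℝ) : ℂ) * c) lam3 :=
      XV3_int hp (integrable_const c) w
    have h2 : (fun y : T3 => ((hk t (w - y) : ℝ) : ℂ) * (v y - c))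
        = fun y => ((hk t (w - y) : ℝ) : ℂ) * v y - ((hk t (w - y) : ℝ) : ℂ) * c := by
      funext y
      ring
    rw [h2, integral_sub (XV3_int hp hvi w) hc, integral_mul_const, integral_complex_ofReal,
      int_sub_left (hk t) w, hk_integral ht, Complex.ofReal_one, one_mul]
  obtain ⟨D, hD⟩ := XV3_A_bd hp hvi
  have hA : Integrable (fun w : T3 => ∫ y, ((hk t (w - y) : ℝ) : ℂ) * v y ∂lam3) lam3 :=
    Integrable.of_bound (XV3_A_sm hp hv).aestronglyMeasurable D (Eventually.of_forall hD)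
  have hKm : AEStronglyMeasurable (fun w : T3 => ((hk t (α - w) * hk σ (z - w) : ℝ) : ℂ)) lam3 :=
    (Complex.measurable_ofReal.comp hK.1).aestronglyMeasurable
  obtain ⟨C, hC⟩ := hK.2
  have hKb : ∀ᵐ w ∂lam3, ‖((hk t (α - w) * hk σ (z - w) : ℝ) : ℂ)‖ ≤ C :=
    Eventually.of_forall fun w => by
      rw [Complex.norm_real]
      exact hC w
  have i1 : Integrable (fun w : T3 => ((hk t (α - w) * hk σ (z - w) : ℝ) : ℂ)
      * ∫ y, ((hk t (w - y) : ℝ) : ℂ) * v y ∂lam3) lam3 := hA.bdd_mul hKm hKb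
  have i2 : Integrable (fun w : T3 => ((hk t (α - w) * hk σ (z - w) : ℝ) : ℂ) * c) lam3 :=
    (integrable_const c).bdd_mul hKm hKb
  have h3 : ∫ w, ((hk t (α - w) * hk σ (z - w) : ℝ) : ℂ)
          * ∫ y, ((hk t (w - y) : ℝ) : ℂ) * (v y - c) ∂lam3 ∂lam3
      = (∫ w, ((hk t (α - w) * hk σ (z - w) : ℝ) : ℂ)
          * ∫ y, ((hk t (w - y) : ℝ) : ℂ) * v y ∂lam3 ∂lam3)
        - ((hk (t + σ) (z - α) : ℝ) : ℂ) * c := by
    rw [← XV3_conv ht hσ α z, ← integral_complex_ofReal, ← integral_mul_const,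
      ← integral_sub i1 i2]
    refine integral_congr_ae (Eventually.of_forall fun w => ?_)
    simp only
    rw [h1 w]
    ring
  rw [h3, neg_sub]
  congr 1
  refine integral_congr_ae (Eventually.of_forall fun w => ?_)
  simp only
  push_cast
  ring

lemma XV3_time {t T : ℝ} (ht : 0 < t) (htT : 4 * t ≤ T) (x : T3) :
    64 * hk (2 * t + (T - t) / 2) x ≤ 200 * hk T x := by
  have h0 : 0 < 2 * t + (T - t) / 2 := by linarith
  have h1 := hk_le_hk h0 (show 2 * t + (T - t) / 2 ≤ T by linarith) x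
  have h2 : Real.sqrt (T / (2 * t + (T - t) / 2)) ≤ 1.45 := by
    rw [Real.sqrt_le_left (by norm_num), div_le_iff₀ h0]
    nlinarith
  have h3 : Real.sqrt (T / (2 * t + (T - t) / 2)) ^ 3 ≤ 1.45 ^ 3 :=
    pow_le_pow_left₀ (Real.sqrt_nonneg _) h2 3
  have h4 := mul_le_mul_of_nonneg_right h3 (hk_nonneg T x)
  have h5 := hk_nonneg T x
  nlinarith

theorem XV_pt {t T : ℝ} (ht : 0 < t) (htT : 4 * t ≤ T) (z : T3) (j : Fin N) (ψ : HS (Fin N)) :
    ∀ᵐ x ∂(piN (Fin N)),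
    ‖(MB (fun x : Fin N → T3 => ((hk (T / 2) (z - x j) : ℝ) : ℂ)) ψ
        - PP1 t j (MB (fun x : Fin N → T3 => ((hk ((T - t) / 2) (z - x j) : ℝ) : ℂ)) (PP1 t j ψ)) :
        HS (Fin N)) x‖ ^ 2
      ≤ (200 * hk T (z - x j)) ^ 2 * dd (2 * t) j ψ x := by
  have ht2 : 0 < t / 2 := half_pos ht
  have hσ : 0 < (T - t) / 2 := by linarith
  have hT2 : 0 < T / 2 := by linarith
  have hp := hk_bm ht2
  have hG : BMC (fun x : Fin N → T3 => ((hk (T / 2) (z - x j) : ℝ) : ℂ)) :=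
    bmc_of_bm ((hk_bm hT2).comp (measurable_sub' measurable_const (measurable_pi_apply j)))
  have hG' : BMC (fun x : Fin N → T3 => ((hk ((T - t) / 2) (z - x j) : ℝ) : ℂ)) :=
    bmc_of_bm ((hk_bm hσ).comp (measurable_sub' measurable_const (measurable_pi_apply j)))
  have hP := fun f : HS (Fin N) => S1_ker hp (bdm_et ht.le) (fun p => fc3_hk ht2 p) j f
  have hP' : ∀ f : HS (Fin N), (PP1 t j f : (Fin N → T3) → ℂ) =ᵐ[piN (Fin N)]
    cvc (hk (t / 2)) j (f : (Fin N → T3) → ℂ) := hP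
  have hF : (MB (fun x : Fin N → T3 => ((hk ((T - t) / 2) (z - x j) : ℝ) : ℂ)) (PP1 t j ψ) :
      (Fin N → T3) → ℂ) =ᵐ[piN (Fin N)] fun x => ((hk ((T - t) / 2) (z - x j) : ℝ) : ℂ)
        * cvc (hk (t / 2)) j (ψ : (Fin N → T3) → ℂ) x := by
    filter_upwards [MB_ae hG' (PP1 t j ψ), hP' ψ] with x h1 h2
    rw [h1, h2]
  have hae := (hP' (MB (fun x : Fin N → T3 => ((hk ((T - t) / 2) (z - x j) : ℝ) : ℂ))
    (PP1 t j ψ))).trans (Ker_cvc_congr j hF)
  filter_upwards [Lp.coeFn_sub (MB (fun x : Fin N → T3 => ((hk (T / 2) (z - x j) : ℝ) : ℂ)) ψ)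
    (PP1 t j (MB (fun x : Fin N → T3 => ((hk ((T - t) / 2) (z - x j) : ℝ) : ℂ)) (PP1 t j ψ))),
    MB_ae hG ψ, hae, Ker_sec ψ j] with x h1 h2 h3 h4
  have hv : StronglyMeasurable (fun y => ψ (update x j y)) := Ker_sec_sm ψ j x
  have hvi : Integrable (fun y => ψ (update x j y)) lam3 :=
    ((memLp_two_iff_integrable_sq_norm hv.aestronglyMeasurable).2 h4).integrable one_le_two
  have h5 : cvc (hk (t / 2)) j (fun x => ((hk ((T - t) / 2) (z - x j) : ℝ) : ℂ)
        * cvc (hk (t / 2)) j (ψ : (Fin N → T3) → ℂ) x) x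
      = ∫ w, ((hk (t / 2) (x j - w) : ℝ) : ℂ) * (((hk ((T - t) / 2) (z - w) : ℝ) : ℂ)
          * ∫ y, ((hk (t / 2) (w - y) : ℝ) : ℂ) * ψ (update x j y) ∂lam3) ∂lam3 := by
    unfold cvc
    simp only [update_self, update_idem]
  have h6 := XV3_alg ht2 hσ (x j) z (ψ x) hv hvi
  have h7 : t / 2 + (T - t) / 2 = T / 2 := by ring
  rw [h7] at h6
  rw [h1, Pi.sub_apply, h2, h3, h5, h6, norm_neg]
  have hu2 : Integrable (fun y => ‖ψ (update x j y) - ψ x‖ ^ 2) lam3 := by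
    have h8 : MemLp (fun y => ψ (update x j y) - ψ x) 2 lam3 :=
      ((memLp_two_iff_integrable_sq_norm hv.aestronglyMeasurable).2 h4).sub (memLp_const _)
    exact (memLp_two_iff_integrable_sq_norm h8.1).1 h8
  have hKB : BM (fun w : T3 => hk ((T - t) / 2) (z - w)) :=
    (hk_bm hσ).comp (measurable_sub' measurable_const measurable_id)
  have h9 := XT_ker ht (le_refl t) hKB (fun w => hk_nonneg _ _) (x j)
    (fun y => ψ (update x j y) - ψ x) (hv.sub stronglyMeasurable_const) hu2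
  have h10 := XV3_conv (show 0 < 2 * t by linarith) hσ (x j) z
  rw [h10] at h9
  refine h9.trans ?_
  have h11 : ∫ w, hk (2 * t) (x j - w) * ‖ψ (update x j w) - ψ x‖ ^ 2 ∂lam3
      = dd (2 * t) j ψ x := by
    unfold dd
    refine integral_congr_ae (Eventually.of_forall fun w => ?_)
    simp only
    rw [norm_sub_rev]
  rw [h11]
  refine mul_le_mul_of_nonneg_right ?_ (dd_nonneg _ _ _ _)
  exact pow_le_pow_left₀ (mul_nonneg (by norm_num) (hk_nonneg _ _)) (XV3_time ht htT _) 2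

lemma XV3_MB_sum {κ : Type*} (s : Finset κ) {G : κ → (Fin N → T3) → ℝ}
    (hG : ∀ i ∈ s, BM (G i)) (f : HS (Fin N)) :
    MB (fun x => ((∑ i ∈ s, G i x : ℝ) : ℂ)) f = ∑ i ∈ s, MB (fun x => ((G i x : ℝ) : ℂ)) f := by
  classical
  induction s using Finset.induction_on with
  | empty =>
    simp only [Finset.sum_empty]
    apply Lp.ext
    filter_upwards [MB_ae (bmc_of_bm (BM.const (α := Fin N → T3) 0)) f,
      Lp.coeFn_zero ℂ 2 (piN (Fin N))] with x h1 h2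
    rw [h1, h2]
    simp
  | insert a s ha ih =>
    have h1 : (fun x : Fin N → T3 => ((∑ i ∈ insert a s, G i x : ℝ) : ℂ))
        = fun x => ((G a x : ℝ) : ℂ) + ((∑ i ∈ s, G i x : ℝ) : ℂ) := by
      funext x
      rw [Finset.sum_insert ha, Complex.ofReal_add]
    rw [h1, MB_add_fun (bmc_of_bm (hG a (Finset.mem_insert_self _ _)))
      (bmc_of_bm (BM.finset_sum s fun i hi => hG i (Finset.mem_insert_of_mem hi))),
      Finset.sum_insert ha, ih fun i hi => hG i (Finset.mem_insert_of_mem hi)]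

theorem nz_sub_mz {t T : ℝ} (ht : 0 < t) (htT : 4 * t ≤ T) (z : T3) (ψ : HS (Fin N)) :
    ‖MB (fun x : Fin N → T3 => ((nz (T / 2) z x : ℝ) : ℂ)) ψ - mzO t ((T - t) / 2) z ψ‖ ^ 2
      ≤ 40000 * ∑ j, ∑ i, ∫ x, (hk T (z - x i) * hk T (z - x j)) * dd (2 * t) j ψ x ∂(piN (Fin N)) := by
  have hT2 : 0 < T / 2 := by linarith
  have hT : 0 < T := by linarith
  have h1 : MB (fun x : Fin N → T3 => ((nz (T / 2) z x : ℝ) : ℂ)) ψ
      = ∑ j : Fin N, MB (fun x : Fin N → T3 => ((hk (T / 2) (z - x j) : ℝ) : ℂ)) ψ :=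
    XV3_MB_sum (Finset.univ : Finset (Fin N))
      (G := fun (j : Fin N) (x : Fin N → T3) => hk (T / 2) (z - x j))
      (fun j _ => (hk_bm hT2).comp (measurable_sub' measurable_const (measurable_pi_apply j))) ψ
  rw [h1, mzO, ← Finset.sum_sub_distrib]
  refine (norm_sum_sq_le Finset.univ
    (fun j : Fin N => MB (fun x : Fin N → T3 => ((hk (T / 2) (z - x j) : ℝ) : ℂ)) ψ
      - PP1 t j (MB (fun x : Fin N → T3 => ((hk ((T - t) / 2) (z - x j) : ℝ) : ℂ)) (PP1 t j ψ)))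
    (fun (j : Fin N) (x : Fin N → T3) => 200 * hk T (z - x j)) (fun j => dd (2 * t) j ψ)
    (fun j _ => ((hk_bm hT).comp
      (measurable_sub' measurable_const (measurable_pi_apply j))).const_mul _)
    (fun j _ x => mul_nonneg (by norm_num) (hk_nonneg _ _))
    (fun j _ x => dd_nonneg _ _ _ _)
    (fun j _ => dd_integrable (by linarith) j ψ)
    (fun j _ => XV_pt ht htT z j ψ)).trans (le_of_eq ?_)
  rw [Finset.mul_sum]
  refine Finset.sum_congr rfl fun l _ => ?_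
  rw [Finset.mul_sum]
  refine Finset.sum_congr rfl fun m _ => ?_
  rw [← integral_const_mul]
  refine integral_congr_ae (Eventually.of_forall fun x => ?_)
  simp only
  ring

end Pool.Agent.Lib.MP_4952d6_mp.O

end

/-! ### O.EV -/

section

/-!
# O.EV: the variance (E8 of the notes)
-/

set_option autoImplicit false
set_option linter.unusedSectionVars false
set_option linter.unusedVariables false
open MeasureTheory Function Filter Topology Set ComplexConjugate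

namespace Pool.Agent.Lib.MP_4952d6_mp.O

open LB

lemma EV_bm {N : ℕ} {s : ℝ} (hs : 0 < s) (z : T3) : BM (fun x : Fin N → T3 => nz s z x) := by
  unfold nz
  exact BM.finset_sum _ fun j _ => (hk_bm hs).comp (measurable_const.sub (measurable_pi_apply j))

lemma EV_norm {N : ℕ} {s : ℝ} (hs : 0 < s) (z : T3) (ψ : HS (Fin N)) :
    ∫ x, ‖ψ x‖ ^ 2 * (nz s z x - Fintype.card (Fin N)) ^ 2 ∂(piN (Fin N))
      = ‖MB (fun x : Fin N → T3 => ((nz s z x : ℝ) : ℂ)) ψ - (N : ℂ) • ψ‖ ^ 2 := by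
  rw [norm_sq_eq]
  refine integral_congr_ae ?_
  filter_upwards [Lp.coeFn_sub (MB (fun x : Fin N → T3 => ((nz s z x : ℝ) : ℂ)) ψ) ((N : ℂ) • ψ),
    MB_ae (bmc_of_bm (EV_bm hs z)) ψ, Lp.coeFn_smul (N : ℂ) ψ] with x h1 h2 h3
  rw [h1, Pi.sub_apply, h2, h3, Pi.smul_apply, smul_eq_mul, ← sub_mul, norm_mul, mul_pow, mul_comm,
    Fintype.card_fin]
  congr 1
  rw [← Complex.ofReal_natCast, ← Complex.ofReal_sub, Complex.norm_real, Real.norm_eq_abs, sq_abs]

theorem varO : ∃ C : ℝ, 0 ≤ C ∧ ∀ (N : ℕ) (t T MD : ℝ), 0 < N → 0 < t →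
    4 * t ≤ T → 64 * T ≤ 1 → ∀ ψ : HS (Fin N), ‖ψ‖ = 1 → DBd t T MD ψ →
    VV (T / 2) (ψ : (Fin N → T3) → ℂ)
      ≤ 2 * (∑' p : Fin 3 → ℤ, if p = 0 then 0 else Real.exp (-((T - t) * ksq p)) * Rsq t ψ p)
        + 2 * N * (∑' p, (1 - et t p ^ 2) * nk ψ p)
        + C * (1 / N + (Real.sqrt T)⁻¹ ^ 3 / N ^ 2) * MD := by
  refine ⟨640000, by norm_num, ?_⟩
  intro N t T MD hN ht htT hT ψ hψ hD
  have hT0 : 0 < T := by linarith
  have hT2 : 0 < T / 2 := by linarith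
  have hσ : 0 < (T - t) / 2 := by linarith
  have hMD := hD.nonneg ht (by linarith)
  obtain ⟨i1, v1⟩ := mz_var (N := N) ht.le hσ ψ
  obtain ⟨i2, v2⟩ := XV_int hN ht htT hT hD
  have e1 : ∀ p : Fin 3 → ℤ, Real.exp (-(2 * ((T - t) / 2) * ksq p)) = Real.exp (-((T - t) * ksq p)) := by
    intro p
    congr 1
    ring
  simp only [e1] at v1
  have hle : VV (T / 2) (ψ : (Fin N → T3) → ℂ)
      ≤ ∫ z, (2 * ‖mzO t ((T - t) / 2) z ψ - (N : ℂ) • ψ‖ ^ 2
          + 2 * (40000 * ∑ j, ∑ i, ∫ x, (hk T (z - x i) * hk T (z - x j)) * dd (2 * t) j ψ x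
            ∂(piN (Fin N)))) ∂lam3 := by
    unfold VV
    refine integral_mono_of_nonneg (Eventually.of_forall fun z => ?_)
      ((i1.const_mul 2).add ((i2.const_mul 40000).const_mul 2)) (Eventually.of_forall fun z => ?_)
    · exact integral_nonneg fun x => mul_nonneg (sq_nonneg _) (sq_nonneg _)
    · simp only
      rw [EV_norm hT2]
      have h1 : MB (fun x : Fin N → T3 => ((nz (T / 2) z x : ℝ) : ℂ)) ψ - (N : ℂ) • ψ
          = (mzO t ((T - t) / 2) z ψ - (N : ℂ) • ψ)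
            + (MB (fun x : Fin N → T3 => ((nz (T / 2) z x : ℝ) : ℂ)) ψ - mzO t ((T - t) / 2) z ψ) := by
        abel
      rw [h1]
      have h2 := norm_add_le (mzO t ((T - t) / 2) z ψ - (N : ℂ) • ψ)
        (MB (fun x : Fin N → T3 => ((nz (T / 2) z x : ℝ) : ℂ)) ψ - mzO t ((T - t) / 2) z ψ)
      have h3 := pow_le_pow_left₀ (norm_nonneg _) h2 2
      have h4 := nz_sub_mz ht htT z ψ
      nlinarith [sq_nonneg (‖mzO t ((T - t) / 2) z ψ - (N : ℂ) • ψ‖
        - ‖MB (fun x : Fin N → T3 => ((nz (T / 2) z x : ℝ) : ℂ)) ψ - mzO t ((T - t) / 2) z ψ‖)]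
  rw [integral_add (i1.const_mul 2) ((i2.const_mul 40000).const_mul 2), integral_const_mul,
    integral_const_mul, integral_const_mul] at hle
  have h5 : (1 / (N : ℝ) + 8 * ((Real.sqrt T)⁻¹ ^ 3 / N ^ 2)) * MD
      ≤ 8 * (1 / N + (Real.sqrt T)⁻¹ ^ 3 / N ^ 2) * MD := by
    refine mul_le_mul_of_nonneg_right ?_ hMD
    have : 0 ≤ 1 / (N : ℝ) := by positivity
    linarith
  nlinarith [hle, v1, v2, h5]

end Pool.Agent.Lib.MP_4952d6_mp.O

end

/-! ### O.WH2 -/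

section

/-! # O.WH2: sums over the set `K` of modes

`sumK_nk`: `Σ_{k ∈ K} nk f (k + n) ≤ NP` for every fixed `n ∈ bx (2 M)`: `k ↦ k + n` is injective, and if `|k_α| ≥ M'` then
`2 |k_α + n_α| ≥ 2 (M' - 2M) ≥ M'` (`4 M ≤ M'`), so the sum is a finite subsum of the nonnegative summable series defining `NP` (`summable_nk`).
`sumK_E`: write `p = k + n`, `E k = E (p - n)`: for fixed `n`, `k ↦ p` injective into the finite set `Kb K M`, and `E ≥ 0`, so
`Σ_k Σ_n .. ≤ Σ_{p ∈ Kb} et t p ^ 2 * nk f p * Σ_{n ∈ bx M} th n ² E (p - n)`, and `Σ_n th n ² E (p - n) = Σ_n th n ² E (p + n)` (`n ↦ -n`) `≤ E p + CE`;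
`et ≤ 1`, `Kb` satisfies the condition in `NP`, `Summable.sum_le_tsum`.
`sumK_R`: the same, `Σ_{n} th n ² ≤ 1`. -/

set_option autoImplicit false
set_option linter.unusedSectionVars false
set_option linter.unusedVariables false
open MeasureTheory Function Filter Topology Set ComplexConjugate

namespace Pool.Agent.Lib.MP_4952d6_mp.O

open LB

variable {ι : Type*} [Fintype ι] [DecidableEq ι]

open Classical in
/-- Number of particles with a momentum component of size at least `M' / 2`. -/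
noncomputable def NP (M' : ℕ) (f : HS ι) : ℝ :=
  ∑' p : Fin 3 → ℤ, if ∃ α, (M' : ℤ) ≤ 2 * |p α| then nk f p else 0

/-- Admissible sets of modes. -/
structure KOK (M M' : ℕ) (K : Finset (Fin 3 → ℤ)) : Prop where
  sym : ∀ k ∈ K, -k ∈ K
  far : ∀ k ∈ K, ∃ α, (M' : ℤ) ≤ |k α|
  big : 4 * M ≤ M'

/-- `K + bx M`. -/
noncomputable def Kb (K : Finset (Fin 3 → ℤ)) (M : ℕ) : Finset (Fin 3 → ℤ) :=
  K.biUnion fun k => (bx M).image fun n => k + n

lemma NP_nonneg (M' : ℕ) (f : HS ι) : 0 ≤ NP M' f := by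
  unfold NP
  refine tsum_nonneg fun p => ?_
  split_ifs
  · exact nk_nonneg f p
  · exact le_rfl

lemma WH2_summable (M' : ℕ) (f : HS ι) :
    Summable fun p : Fin 3 → ℤ => open Classical in if ∃ α, (M' : ℤ) ≤ 2 * |p α| then nk f p else 0 := by
  refine Summable.of_nonneg_of_le (fun p => ?_) (fun p => ?_) (summable_nk f)
  · split_ifs
    · exact nk_nonneg f p
    · exact le_rfl
  · split_ifs
    · exact le_rfl
    · exact nk_nonneg f p

/-- A finite sum over admissible momenta is at most `NP`. -/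
lemma WH2_sum_le (M' : ℕ) (f : HS ι) (s : Finset (Fin 3 → ℤ))
    (hs : ∀ p ∈ s, ∃ α, (M' : ℤ) ≤ 2 * |p α|) : ∑ p ∈ s, nk f p ≤ NP M' f := by
  classical
  have h1 : ∑ p ∈ s, nk f p = ∑ p ∈ s, if ∃ α, (M' : ℤ) ≤ 2 * |p α| then nk f p else 0 := by
    refine Finset.sum_congr rfl fun p hp => ?_
    rw [if_pos (hs p hp)]
  rw [h1]
  unfold NP
  refine le_trans (le_of_eq ?_) (Summable.sum_le_tsum s (fun p _ => ?_) (WH2_summable M' f))
  · refine Finset.sum_congr rfl fun p _ => ?_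
    congr 1
  · split_ifs
    · exact nk_nonneg f p
    · exact le_rfl

lemma WH2_far {M M' R : ℕ} {K : Finset (Fin 3 → ℤ)} (hK : KOK M M' K) (hR : R ≤ 2 * M)
    {k n : Fin 3 → ℤ} (hk : k ∈ K) (hn : n ∈ bx R) : ∃ α, (M' : ℤ) ≤ 2 * |(k + n) α| := by
  obtain ⟨α, hα⟩ := hK.far k hk
  refine ⟨α, ?_⟩
  have h1 := mem_bx.mp hn α
  have h2 := hK.big
  have h3 : |k α| ≤ |(k + n) α| + |n α| := by
    have h4 : k α = (k + n) α + -(n α) := by
      rw [Pi.add_apply]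
      ring
    calc |k α| = |(k + n) α + -(n α)| := by rw [← h4]
      _ ≤ |(k + n) α| + |-(n α)| := abs_add_le _ _
      _ = _ := by rw [abs_neg]
  omega

lemma WH2_inj (n : Fin 3 → ℤ) : Function.Injective fun k : Fin 3 → ℤ => k + n :=
  add_left_injective n

theorem sumK_nk {M M' R : ℕ} {K : Finset (Fin 3 → ℤ)} (hK : KOK M M' K) (hR : R ≤ 2 * M)
    {b : (Fin 3 → ℤ) → ℝ} (hb : ∀ n, 0 ≤ b n) (f : HS ι) :
    ∑ k ∈ K, ∑ n ∈ bx R, b n * nk f (k + n) ≤ (∑ n ∈ bx R, b n) * NP M' f := by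
  classical
  rw [Finset.sum_comm, Finset.sum_mul]
  refine Finset.sum_le_sum fun n hn => ?_
  rw [← Finset.mul_sum]
  refine mul_le_mul_of_nonneg_left ?_ (hb n)
  have h1 : ∑ k ∈ K, nk f (k + n) = ∑ p ∈ K.image (fun k => k + n), nk f p := by
    rw [Finset.sum_image]
    intro x _ y _ hxy
    exact WH2_inj n hxy
  rw [h1]
  refine WH2_sum_le M' f _ fun p hp => ?_
  obtain ⟨k, hk, rfl⟩ := Finset.mem_image.mp hp
  exact WH2_far hK hR hk hn

lemma WH2_et_le {t : ℝ} (ht : 0 < t) (p : Fin 3 → ℤ) : et t p ^ 2 ≤ 1 := by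
  have h0 : 0 ≤ et t p := (Real.exp_pos _).le
  have h1 : et t p ≤ 1 := by
    unfold et
    rw [Real.exp_le_one_iff]
    have h2 : 0 ≤ ksq p := by
      unfold ksq mom2
      positivity
    have h3 : 0 ≤ t / 2 * ksq p := mul_nonneg (by linarith) h2
    linarith
  exact pow_le_one₀ h0 h1

theorem sumK_E {t : ℝ} (ht : 0 < t) {M M' : ℕ} (hM : 1 ≤ M) {K : Finset (Fin 3 → ℤ)}
    (hK : KOK M M' K) {E : (Fin 3 → ℤ) → ℝ} (hE : ∀ p, 0 ≤ E p) {CE : ℝ} (hCE : 0 ≤ CE)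
    (hE2 : ∀ p, ∑ n ∈ bx M, th M n ^ 2 * E (p + n) ≤ E p + CE) (f : HS ι)
    (hs : Summable fun p => et t p ^ 2 * E p * nk f p) :
    ∑ k ∈ K, E k * ∑ n ∈ bx M, (et t (k + n) * th M n) ^ 2 * nk f (k + n)
      ≤ ∑' p, et t p ^ 2 * E p * nk f p + CE * NP M' f := by
  classical
  -- for fixed `n` shift
  have h1 : ∑ k ∈ K, E k * ∑ n ∈ bx M, (et t (k + n) * th M n) ^ 2 * nk f (k + n) =
      ∑ n ∈ bx M, ∑ k ∈ K, (fun p => et t p ^ 2 * nk f p * (th M n ^ 2 * E (p - n))) (k + n) := by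
    rw [Finset.sum_comm]
    refine Finset.sum_congr rfl fun k _ => ?_
    rw [Finset.mul_sum]
    refine Finset.sum_congr rfl fun n _ => ?_
    simp only [add_sub_cancel_right]
    ring
  have h2 : ∀ n ∈ bx M,
      ∑ k ∈ K, (fun p => et t p ^ 2 * nk f p * (th M n ^ 2 * E (p - n))) (k + n) ≤
        ∑ p ∈ Kb K M, et t p ^ 2 * nk f p * (th M n ^ 2 * E (p - n)) := by
    intro n hn
    have e1 : ∑ k ∈ K, (fun p => et t p ^ 2 * nk f p * (th M n ^ 2 * E (p - n))) (k + n) =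
        ∑ p ∈ K.image (fun k => k + n), et t p ^ 2 * nk f p * (th M n ^ 2 * E (p - n)) := by
      rw [Finset.sum_image]
      intro x _ y _ hxy
      exact WH2_inj n hxy
    rw [e1]
    refine Finset.sum_le_sum_of_subset_of_nonneg ?_ ?_
    · intro p hp
      obtain ⟨k, hk, rfl⟩ := Finset.mem_image.mp hp
      unfold Kb
      rw [Finset.mem_biUnion]
      exact ⟨k, hk, Finset.mem_image.mpr ⟨n, hn, rfl⟩⟩
    · intro p _ _
      exact mul_nonneg (mul_nonneg (sq_nonneg _) (nk_nonneg f p))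
        (mul_nonneg (sq_nonneg _) (hE _))
  have h3 : ∀ p, ∑ n ∈ bx M, th M n ^ 2 * E (p - n) ≤ E p + CE := by
    intro p
    refine le_trans (le_of_eq ?_) (hE2 p)
    refine Finset.sum_nbij' (fun n => -n) (fun n => -n) ?_ ?_ ?_ ?_ ?_
    · intro n hn
      exact bx_neg.mpr hn
    · intro n hn
      exact bx_neg.mpr hn
    · intro n _
      exact neg_neg n
    · intro n _
      exact neg_neg n
    · intro n _
      rw [th_neg, sub_eq_add_neg]
  have hfar : ∀ p ∈ Kb K M, ∃ α, (M' : ℤ) ≤ 2 * |p α| := by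
    intro p hp
    unfold Kb at hp
    obtain ⟨k, hk, hp2⟩ := Finset.mem_biUnion.mp hp
    obtain ⟨n, hn, rfl⟩ := Finset.mem_image.mp hp2
    exact WH2_far hK (by omega) hk hn
  rw [h1]
  refine (Finset.sum_le_sum h2).trans ?_
  rw [Finset.sum_comm]
  have h4 : ∀ p ∈ Kb K M, ∑ n ∈ bx M, et t p ^ 2 * nk f p * (th M n ^ 2 * E (p - n)) ≤
      et t p ^ 2 * E p * nk f p + CE * nk f p := by
    intro p _
    rw [← Finset.mul_sum]
    have h5 : 0 ≤ et t p ^ 2 * nk f p := mul_nonneg (sq_nonneg _) (nk_nonneg f p)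
    have h6 := mul_le_mul_of_nonneg_left (h3 p) h5
    have h7 : et t p ^ 2 * nk f p * CE ≤ CE * nk f p := by
      have h8 := mul_le_mul_of_nonneg_right (WH2_et_le ht p)
        (mul_nonneg hCE (nk_nonneg f p))
      linarith
    linarith
  refine (Finset.sum_le_sum h4).trans ?_
  rw [Finset.sum_add_distrib, ← Finset.mul_sum]
  refine add_le_add ?_ (mul_le_mul_of_nonneg_left (WH2_sum_le M' f _ hfar) hCE)
  exact Summable.sum_le_tsum _ (fun p _ => mul_nonneg (mul_nonneg (sq_nonneg _) (hE p))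
    (nk_nonneg f p)) hs

theorem sumK_R {M : ℕ} (hM : 1 ≤ M) (K : Finset (Fin 3 → ℤ)) (t : ℝ) (f : HS ι) :
    ∑ k ∈ K, ∑ n ∈ bx M, th M n ^ 2 * Rsq t f (k + n) ≤ ∑ p ∈ Kb K M, Rsq t f p := by
  classical
  rw [Finset.sum_comm]
  have h0 : ∑ p ∈ Kb K M, Rsq t f p = ∑ n ∈ bx M, th M n ^ 2 * ∑ p ∈ Kb K M, Rsq t f p := by
    rw [← Finset.sum_mul, th_sq_sum hM, one_mul]
  rw [h0]
  refine Finset.sum_le_sum fun n hn => ?_
  rw [← Finset.mul_sum]
  refine mul_le_mul_of_nonneg_left ?_ (sq_nonneg _)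
  have e1 : ∑ k ∈ K, Rsq t f (k + n) = ∑ p ∈ K.image (fun k => k + n), Rsq t f p := by
    rw [Finset.sum_image]
    intro x _ y _ hxy
    exact WH2_inj n hxy
  rw [e1]
  refine Finset.sum_le_sum_of_subset_of_nonneg ?_ ?_
  · intro p hp
    obtain ⟨k, hk, rfl⟩ := Finset.mem_image.mp hp
    unfold Kb
    rw [Finset.mem_biUnion]
    exact ⟨k, hk, Finset.mem_image.mpr ⟨n, hn, rfl⟩⟩
  · intro p _ _
    unfold Rsq
    exact sq_nonneg _

end Pool.Agent.Lib.MP_4952d6_mp.O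

end

/-! ### O.WH3 -/

section

/-! # O.WH3: the cut-off `cos (hxw)`

`N = card ι`, `nuw M w x = (Σ_j wnd M w (x j)) / (N cW)`, `ang s ν = (π/2) clp ((ν - 1 - s)/s)`.
`nuw_upd`: only the term `j` changes, both values are in `[0, cW M³]` (`wnd_win`). `hxw_osc`: `clp` is 1-Lipschitz, `π/2 ≤ 2`.
`phw_NB`: `NB_of_support` with `c = cW`, `b = (1 + 2 s) N cW`: if `b < Σ θ` then `(nuw - 1 - s)/s > 1`, the angle is `π/2` and the cosine is `0`.
`BM`: measurability from `wnd_win`.bm. -/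

set_option autoImplicit false
set_option linter.unusedSectionVars false
set_option linter.unusedVariables false
open MeasureTheory Function Filter Topology Set ComplexConjugate

namespace Pool.Agent.Lib.MP_4952d6_mp.O

open LB

/-- Clamp to `[0, 1]`. -/
noncomputable def clp (y : ℝ) : ℝ := max 0 (min 1 y)

/-- The angle as a function of the relative density. -/
noncomputable def ang (s ν : ℝ) : ℝ := Real.pi / 2 * clp ((ν - 1 - s) / s)

lemma clp_nonneg (y : ℝ) : 0 ≤ clp y := le_max_left _ _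

lemma clp_le_one (y : ℝ) : clp y ≤ 1 := max_le zero_le_one (min_le_left _ _)

lemma clp_lip (y y' : ℝ) : |clp y - clp y'| ≤ |y - y'| := by
  unfold clp
  refine (abs_max_sub_max_le_max _ _ _ _).trans ?_
  rw [sub_zero, abs_zero]
  refine max_le (abs_nonneg _) ?_
  refine (abs_min_sub_min_le_max _ _ _ _).trans ?_
  rw [sub_self, abs_zero]
  exact max_le (abs_nonneg _) le_rfl

lemma WH3_clp_meas {α : Type*} [MeasurableSpace α] {g : α → ℝ} (hg : Measurable g) :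
    Measurable (fun x => clp (g x)) :=
  measurable_const.max (measurable_const.min hg)

variable {ι : Type*} [Fintype ι]

/-- Relative density in the window. -/
noncomputable def nuw (M : ℕ) (w : T3) (x : ι → T3) : ℝ :=
  (∑ j, wnd M w (x j)) / ((Fintype.card ι : ℝ) * cW M)

/-- Angle of the cut-off. -/
noncomputable def hxw (s : ℝ) (M : ℕ) (w : T3) (x : ι → T3) : ℝ := ang s (nuw M w x)

/-- The localised state. -/
noncomputable def phw (s : ℝ) (M : ℕ) (w : T3) (f : HS ι) : HS ι :=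
  MB (fun x => ((Real.cos (hxw s M w x) : ℝ) : ℂ)) f

variable [DecidableEq ι]

lemma nuw_bm {M : ℕ} (hM : 1 ≤ M) (w : T3) : BM (fun x : ι → T3 => nuw M w x) := by
  have h := (BM.finset_sum (f := fun (j : ι) (x : ι → T3) => wnd M w (x j)) Finset.univ
    (fun j _ => (wnd_win hM w).bm.comp (measurable_pi_apply j))).const_mul
      (((Fintype.card ι : ℝ) * cW M)⁻¹)
  have e : (fun x : ι → T3 => nuw M w x) = fun x : ι → T3 =>
      ((Fintype.card ι : ℝ) * cW M)⁻¹ * ∑ j, wnd M w (x j) := by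
    funext x
    unfold nuw
    rw [div_eq_inv_mul]
  rw [e]
  exact h

lemma nuw_upd {M : ℕ} (hM : 1 ≤ M) (hN : 1 ≤ Fintype.card ι) (w : T3) (x : ι → T3) (j : ι)
    (y : T3) : |nuw M w (update x j y) - nuw M w x| ≤ (M : ℝ) ^ 3 / Fintype.card ι := by
  have hN0 : (0 : ℝ) < Fintype.card ι := by exact_mod_cast hN
  have hc := cW_pos hM
  have hW := wnd_win hM w
  have e : ∑ l, wnd M w (update x j y l) - ∑ l, wnd M w (x l) = wnd M w y - wnd M w (x j) := by
    rw [← Finset.sum_sub_distrib, Finset.sum_eq_single j]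
    · rw [update_self]
    · intro l _ hl
      rw [update_of_ne hl, sub_self]
    · intro h
      exact absurd (Finset.mem_univ j) h
  have h1 : |wnd M w y - wnd M w (x j)| ≤ cW M * (M : ℝ) ^ 3 := by
    have a1 := hW.nn y
    have a2 := hW.nn (x j)
    have a3 := hW.le y
    have a4 := hW.le (x j)
    rw [abs_le]
    constructor <;> linarith
  unfold nuw
  rw [← sub_div, e, abs_div, abs_of_pos (mul_pos hN0 hc), div_le_div_iff₀ (mul_pos hN0 hc) hN0]
  calc |wnd M w y - wnd M w (x j)| * (Fintype.card ι : ℝ)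
      ≤ cW M * (M : ℝ) ^ 3 * (Fintype.card ι : ℝ) := mul_le_mul_of_nonneg_right h1 hN0.le
    _ = _ := by ring

theorem hxw_osc {M : ℕ} (hM : 1 ≤ M) (hN : 1 ≤ Fintype.card ι) {s : ℝ} (hs : 0 < s) (w : T3) :
    OsW (fun x : ι → T3 => hxw s M w x) (2 * (M : ℝ) ^ 3 / (s * Fintype.card ι)) := by
  refine ⟨?_, ?_⟩
  · unfold hxw ang
    exact (WH3_clp_meas ((((nuw_bm (ι := ι) hM w).meas.sub_const 1).sub_const s).div_const
      s)).const_mul _
  · intro x j y
    have h1 := nuw_upd hM hN w x j y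
    have h2 := clp_lip ((nuw M w (update x j y) - 1 - s) / s) ((nuw M w x - 1 - s) / s)
    have e : (nuw M w (update x j y) - 1 - s) / s - (nuw M w x - 1 - s) / s =
        (nuw M w (update x j y) - nuw M w x) / s := by ring
    rw [e, abs_div, abs_of_pos hs] at h2
    have h3 : |nuw M w (update x j y) - nuw M w x| / s ≤ (M : ℝ) ^ 3 / Fintype.card ι / s :=
      div_le_div_of_nonneg_right h1 hs.le
    have h4 : Real.pi / 2 ≤ 2 := by
      have := Real.pi_le_four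
      linarith
    have h5 : (0 : ℝ) ≤ (M : ℝ) ^ 3 / Fintype.card ι / s := by positivity
    change |Real.pi / 2 * clp ((nuw M w (update x j y) - 1 - s) / s) -
      Real.pi / 2 * clp ((nuw M w x - 1 - s) / s)| ≤ _
    rw [← mul_sub, abs_mul, abs_of_pos (by positivity : 0 < Real.pi / 2)]
    calc Real.pi / 2 * |clp ((nuw M w (update x j y) - 1 - s) / s) -
          clp ((nuw M w x - 1 - s) / s)|
        ≤ 2 * ((M : ℝ) ^ 3 / Fintype.card ι / s) :=
          mul_le_mul h4 (h2.trans h3) (abs_nonneg _) (by norm_num)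
      _ = _ := by
          rw [div_div, mul_comm (Fintype.card ι : ℝ) s, mul_div_assoc]

omit [DecidableEq ι] in
lemma WH3_mem (s : ℝ) (M : ℕ) (w : T3) (x : ι → T3) :
    0 ≤ hxw s M w x ∧ hxw s M w x ≤ Real.pi / 2 := by
  unfold hxw ang
  have h1 := clp_nonneg ((nuw M w x - 1 - s) / s)
  have h2 := clp_le_one ((nuw M w x - 1 - s) / s)
  have h3 := Real.pi_pos
  constructor
  · positivity
  · calc _ ≤ Real.pi / 2 * 1 := mul_le_mul_of_nonneg_left h2 (by positivity)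
      _ = _ := mul_one _

lemma cos_hxw_nonneg (s : ℝ) (M : ℕ) (w : T3) (x : ι → T3) : 0 ≤ Real.cos (hxw s M w x) := by
  obtain ⟨h1, h2⟩ := WH3_mem s M w x
  have h3 := Real.pi_pos
  exact Real.cos_nonneg_of_neg_pi_div_two_le_of_le (by linarith) h2

lemma cos_hxw_bm {M : ℕ} (hM : 1 ≤ M) {s : ℝ} (hs : 0 < s) (w : T3) :
    BM (fun x : ι → T3 => Real.cos (hxw s M w x)) := by
  refine ⟨Real.measurable_cos.comp ?_, 1, fun x => Real.abs_cos_le_one _⟩
  unfold hxw ang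
  exact (WH3_clp_meas ((((nuw_bm (ι := ι) hM w).meas.sub_const 1).sub_const s).div_const
    s)).const_mul _

theorem phw_NB {M : ℕ} (hM : 1 ≤ M) (hN : 1 ≤ Fintype.card ι) {s : ℝ} (hs : 0 < s) (w : T3)
    (f : HS ι) :
    NB (wnd M w) ((1 + 2 * s) * ((Fintype.card ι : ℝ) * cW M ^ 2)) (phw s M w f) := by
  have hN0 : (0 : ℝ) < Fintype.card ι := by exact_mod_cast hN
  have hc := cW_pos hM
  have e : (1 + 2 * s) * ((Fintype.card ι : ℝ) * cW M ^ 2) =
      cW M * ((1 + 2 * s) * ((Fintype.card ι : ℝ) * cW M)) := by ring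
  rw [e]
  unfold phw
  refine NB_of_support (wnd_win hM w) (cos_hxw_bm hM hs w) (by positivity) (fun x hx => ?_) f
  have h1 : 1 + 2 * s < nuw M w x := by
    unfold nuw
    rw [lt_div_iff₀ (mul_pos hN0 hc)]
    exact hx
  have h2 : 1 ≤ (nuw M w x - 1 - s) / s := by
    rw [le_div_iff₀ hs]
    linarith
  have h3 : clp ((nuw M w x - 1 - s) / s) = 1 := by
    unfold clp
    rw [min_eq_left h2]
    exact max_eq_right zero_le_one
  unfold hxw ang
  rw [h3, mul_one, Real.cos_pi_div_two]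

end Pool.Agent.Lib.MP_4952d6_mp.O

end

/-! ### O.WH4 -/

section

/-! # O.WH4: localisation error of the mixed term in one window

`loc_main` with `θ = wnd M w`, `c = cW`, `S = cW M³`, `g = S * pW t 3 M w`, `X = cos (hxw)`, `I = 1_{1+s < nuw}`, `I' = 1_{1+s/2 < nuw}`.
`1 - X ≤ I`: if `nuw ≤ 1 + s` the angle is `0`; `I (update x j y) ≤ I' x`: `nuw_upd` and `M³/N ≤ s/2`. `∫ g = S cW` (`pW_int`).
With `r = nuw - 1`, `ν3 = (Σ pW t 3 (x j))/(N cW)`, `0 < s ≤ 1`: `(Σ_j θ (x j)) I' = N cW nuw I'` and, on `r > s/2`, `nuw = 1 + r ≤ (4/s²) r² + (2/s) r² ≤ (6/s²) r²`;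
`(Σ_j g (x j)) I' = S N cW ν3 I'` and `ν3 I' ≤ I' + |ν3 - 1| I' ≤ (3/2) I' + (ν3 - 1)²/2 ≤ (6/s²) r² + (ν3 - 1)²/2` (`I' ≤ (4/s²) r²`).
So the bound is `S cW · N cW (6/s²) qf r² + cW · S N cW ((6/s²) qf r² + qf (ν3-1)² / 2)`. -/

set_option autoImplicit false
set_option linter.unusedSectionVars false
set_option linter.unusedVariables false
open MeasureTheory Function Filter Topology Set ComplexConjugate

namespace Pool.Agent.Lib.MP_4952d6_mp.O

open LB

variable {ι : Type*} [Fintype ι] [DecidableEq ι]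

open Classical in
/-- Indicator of a large relative density. -/
noncomputable def WH4_I (r : ℝ) (M : ℕ) (w : T3) (x : ι → T3) : ℝ :=
  if 1 + r < nuw M w x then 1 else 0

lemma WH4_sum_bm {t : ℝ} (ht : 0 < t) (i : ℕ) {M : ℕ} (hM : 1 ≤ M) (w : T3) :
    BM (fun x : ι → T3 => ∑ j, pW t i M w (x j)) :=
  BM.finset_sum _ fun j _ => (pW_bm ht i hM w).comp (measurable_pi_apply j)

lemma WH4_bm {M : ℕ} (hM : 1 ≤ M) (r : ℝ) (w : T3) : BM (fun x : ι → T3 => WH4_I r M w x) := by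
  classical
  refine BM.of_mem_Icc (a := 0) (b := 1) ?_ fun x => ?_
  · unfold WH4_I
    exact Measurable.ite (measurableSet_lt measurable_const (nuw_bm hM w).meas) measurable_const
      measurable_const
  · unfold WH4_I
    split_ifs
    · exact ⟨zero_le_one, le_rfl⟩
    · exact ⟨le_rfl, zero_le_one⟩

lemma WH4_cos {s : ℝ} (hs : 0 < s) (M : ℕ) (w : T3) (x : ι → T3) :
    1 - Real.cos (hxw s M w x) ≤ WH4_I s M w x := by
  unfold WH4_I
  split_ifs with h
  · have := cos_hxw_nonneg s M w x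
    linarith
  · have h1 : (nuw M w x - 1 - s) / s ≤ 0 := by
      apply div_nonpos_of_nonpos_of_nonneg _ hs.le
      push Not at h
      linarith
    have h2 : hxw s M w x = 0 := by
      unfold hxw ang clp
      rw [max_eq_left ((min_le_right _ _).trans h1), mul_zero]
    rw [h2, Real.cos_zero, sub_self]

lemma WH4_upd {M : ℕ} (hM : 1 ≤ M) (hN : 1 ≤ Fintype.card ι) {s : ℝ}
    (hMN : 2 * (M : ℝ) ^ 3 ≤ s * Fintype.card ι) (w : T3) (x : ι → T3) (j : ι) (y : T3) :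
    WH4_I s M w (update x j y) ≤ WH4_I (s / 2) M w x := by
  have hN0 : (0 : ℝ) < (Fintype.card ι : ℝ) := by exact_mod_cast hN
  have h1 := nuw_upd hM hN w x j y
  have h2 : (M : ℝ) ^ 3 / Fintype.card ι ≤ s / 2 := by
    rw [div_le_iff₀ hN0]
    linarith
  have h3 := (abs_le.1 (h1.trans h2)).2
  unfold WH4_I
  by_cases h : 1 + s < nuw M w (update x j y)
  · rw [if_pos h, if_pos (by linarith)]
  · rw [if_neg h]
    split_ifs
    · exact zero_le_one
    · exact le_rfl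

lemma WH4_num1 {s : ℝ} (hs : 0 < s) (hs1 : s ≤ 1) {r : ℝ} (hr : s / 2 < r) :
    1 ≤ 4 / s ^ 2 * r ^ 2 ∧ r ≤ 2 / s ^ 2 * r ^ 2 := by
  have hr0 : 0 < r := by linarith
  have h1 : s ^ 2 / 4 ≤ r ^ 2 := by nlinarith
  constructor
  · rw [div_mul_eq_mul_div, le_div_iff₀ (by positivity)]
    linarith
  · rw [div_mul_eq_mul_div, le_div_iff₀ (by positivity)]
    have h2 : s ^ 2 ≤ 2 * r := by nlinarith
    nlinarith

lemma WH4_one {s : ℝ} (hs : 0 < s) (hs1 : s ≤ 1) (M : ℕ) (w : T3) (x : ι → T3) :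
    nuw M w x * WH4_I (s / 2) M w x ≤ 6 / s ^ 2 * (nuw M w x - 1) ^ 2 := by
  unfold WH4_I
  split_ifs with h
  · obtain ⟨h1, h2⟩ := WH4_num1 hs hs1 (r := nuw M w x - 1) (by linarith)
    have h3 : 6 / s ^ 2 * (nuw M w x - 1) ^ 2
        = 4 / s ^ 2 * (nuw M w x - 1) ^ 2 + 2 / s ^ 2 * (nuw M w x - 1) ^ 2 := by ring
    rw [h3, mul_one]
    linarith
  · rw [mul_zero]
    positivity

lemma WH4_two {s : ℝ} (hs : 0 < s) (hs1 : s ≤ 1) (M : ℕ) (w : T3) (x : ι → T3) (y : ℝ) :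
    y * WH4_I (s / 2) M w x ≤ 6 / s ^ 2 * (nuw M w x - 1) ^ 2 + 1 / 2 * (y - 1) ^ 2 := by
  unfold WH4_I
  split_ifs with h
  · obtain ⟨h1, h2⟩ := WH4_num1 hs hs1 (r := nuw M w x - 1) (by linarith)
    have h3 : 6 / s ^ 2 * (nuw M w x - 1) ^ 2
        = 3 / 2 * (4 / s ^ 2 * (nuw M w x - 1) ^ 2) := by ring
    rw [h3, mul_one]
    nlinarith [sq_nonneg (y - 2)]
  · rw [mul_zero]
    positivity

theorem loc_w {t : ℝ} (ht : 0 < t) {M : ℕ} (hM : 1 ≤ M) (hN : 1 ≤ Fintype.card ι) {s : ℝ}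
    (hs : 0 < s) (hs1 : s ≤ 1) (hMN : 2 * (M : ℝ) ^ 3 ≤ s * Fintype.card ι) (w : T3) {v : T3 → ℂ}
    (hv : BC v) (hvg : ∀ y, ‖v y‖ ≤ cW M * (M : ℝ) ^ 3 * pW t 3 M w y) (f : HS ι) :
    |zz (fun x => ((wnd M w x : ℝ) : ℂ)) v (phw s M w f)
      - zz (fun x => ((wnd M w x : ℝ) : ℂ)) v f|
      ≤ cW M ^ 3 * (M : ℝ) ^ 3 * Fintype.card ι
        * (12 / s ^ 2 * qf (fun x => (nuw M w x - 1) ^ 2) f
          + 1 / 2 * qf (fun x =>
            ((∑ j, pW t 3 M w (x j)) / ((Fintype.card ι : ℝ) * cW M) - 1) ^ 2) f) := by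
  have hN0 : (0 : ℝ) < (Fintype.card ι : ℝ) := by exact_mod_cast hN
  have hc : 0 < cW M := cW_pos hM
  have hM0 : (0 : ℝ) < (M : ℝ) := by exact_mod_cast hM
  have hNc : (Fintype.card ι : ℝ) * cW M ≠ 0 := (mul_pos hN0 hc).ne'
  have hg : BM (fun y => cW M * (M : ℝ) ^ 3 * pW t 3 M w y) := (pW_bm ht 3 hM w).const_mul _
  have key := loc_main (ι := ι) (wnd_win hM w) hv hg hvg (X := fun x => Real.cos (hxw s M w x))
    (I := fun x => WH4_I s M w x) (I' := fun x => WH4_I (s / 2) M w x) (cos_hxw_bm hM hs w)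
    (fun x => cos_hxw_nonneg s M w x) (fun x => Real.cos_le_one _) (WH4_bm hM s w)
    (WH4_bm hM (s / 2) w) (fun x => WH4_cos hs M w x)
    (fun x j y => WH4_upd hM hN hMN w x j y) f
  have hint : ∫ y, cW M * (M : ℝ) ^ 3 * pW t 3 M w y ∂lam3 = cW M * (M : ℝ) ^ 3 * cW M := by
    rw [integral_const_mul, pW_int ht 3 hM w]
  rw [hint] at key
  have hsum : BM (fun x : ι → T3 => ∑ j, pW t 3 M w (x j)) := WH4_sum_bm ht 3 hM w
  have hdev : BM (fun x : ι → T3 =>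
      ((∑ j, pW t 3 M w (x j)) / ((Fintype.card ι : ℝ) * cW M) - 1) ^ 2) := by
    have h1 := ((hsum.const_mul ((Fintype.card ι : ℝ) * cW M)⁻¹).sub (BM.const 1)).pow 2
    simpa only [div_eq_inv_mul] using h1
  have hnu : BM (fun x : ι → T3 => (nuw M w x - 1) ^ 2) :=
    ((nuw_bm hM w).sub (BM.const 1)).pow 2
  have hwn : BM (fun x : ι → T3 => ∑ j, wnd M w (x j)) :=
    BM.finset_sum _ fun j _ => (wnd_win hM w).bm.comp (measurable_pi_apply j)
  have hq1 : qf (fun x : ι → T3 => (∑ j, wnd M w (x j)) * WH4_I (s / 2) M w x) f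
      ≤ (Fintype.card ι : ℝ) * cW M * (6 / s ^ 2) * qf (fun x => (nuw M w x - 1) ^ 2) f := by
    rw [← qf_smul]
    refine qf_mono (hwn.mul (WH4_bm hM (s / 2) w)) (hnu.const_mul _)
      (Eventually.of_forall fun x => ?_) f
    have h1 : ∑ j, wnd M w (x j) = (Fintype.card ι : ℝ) * cW M * nuw M w x := by
      unfold nuw
      field_simp
    have h2 := WH4_one hs hs1 M w x
    have h3 := mul_le_mul_of_nonneg_left h2 (mul_pos hN0 hc).le
    show (∑ j, wnd M w (x j)) * WH4_I (s / 2) M w x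
      ≤ (Fintype.card ι : ℝ) * cW M * (6 / s ^ 2) * (nuw M w x - 1) ^ 2
    rw [h1]
    linarith
  have hq2 : qf (fun x : ι → T3 => (∑ j, cW M * (M : ℝ) ^ 3 * pW t 3 M w (x j))
        * WH4_I (s / 2) M w x) f
      ≤ (Fintype.card ι : ℝ) * cW M * (cW M * (M : ℝ) ^ 3)
        * (6 / s ^ 2 * qf (fun x => (nuw M w x - 1) ^ 2) f + 1 / 2 * qf (fun x =>
            ((∑ j, pW t 3 M w (x j)) / ((Fintype.card ι : ℝ) * cW M) - 1) ^ 2) f) := by
    rw [← qf_smul, ← qf_smul, ← qf_add_fun (hnu.const_mul _) (hdev.const_mul _), ← qf_smul]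
    refine qf_mono ?_ (((hnu.const_mul _).add (hdev.const_mul _)).const_mul _)
      (Eventually.of_forall fun x => ?_) f
    · have h1 : BM (fun x : ι → T3 => ∑ j, cW M * (M : ℝ) ^ 3 * pW t 3 M w (x j)) :=
        BM.finset_sum _ fun j _ => hg.comp (measurable_pi_apply j)
      exact h1.mul (WH4_bm hM (s / 2) w)
    · have h1 : ∑ j, cW M * (M : ℝ) ^ 3 * pW t 3 M w (x j)
          = (Fintype.card ι : ℝ) * cW M * (cW M * (M : ℝ) ^ 3) *
            ((∑ j, pW t 3 M w (x j)) / ((Fintype.card ι : ℝ) * cW M)) := by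
        rw [← Finset.mul_sum]
        field_simp
      have h2 := WH4_two hs hs1 M w x
        ((∑ j, pW t 3 M w (x j)) / ((Fintype.card ι : ℝ) * cW M))
      have h3 := mul_le_mul_of_nonneg_left h2
        (by positivity : 0 ≤ (Fintype.card ι : ℝ) * cW M * (cW M * (M : ℝ) ^ 3))
      rw [h1, mul_assoc]
      exact h3
  have h4 := mul_le_mul_of_nonneg_left hq1 (by positivity : 0 ≤ cW M * (M : ℝ) ^ 3 * cW M)
  have h5 := mul_le_mul_of_nonneg_left hq2 hc.le
  have h6 : phw s M w f = MB (fun x => ((Real.cos (hxw s M w x) : ℝ) : ℂ)) f := rfl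
  rw [h6]
  refine key.trans ((add_le_add h4 h5).trans (le_of_eq ?_))
  ring

end Pool.Agent.Lib.MP_4952d6_mp.O

end

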