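import Pool.Agent.Lib.MP_4952d6_mp.Pk.G57
import Pool.Agent.Lib.MP_4952d6_mp.Pm.M14
import Pool.Agent.Lib.MP_4952d6_mp.Po.N10
import Pool.Agent.Lib.MP_4952d6_mp.Po.N12
import Pool.Agent.Lib.MP_4952d6_mp.Po.N17
import Pool.Agent.Lib.MP_4952d6_mp.Po.N21
import Pool.Agent.Lib.MP_4952d6_mp.Po.N22
import Pool.Agent.Lib.MP_4952d6_mp.Po.N24

/-! Merged modules (to save import time): O.FG, O.FJ, O.MF, O.WB4, O.WH5. -/

/-! ### O.FG -/

section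

/-!
# O.FG: the final form of the theorem above an infrared cutoff

With the existence of ground states and the consequence for the condensate fraction.
-/

set_option autoImplicit false
set_option linter.unusedSectionVars false
set_option linter.unusedVariables false
open MeasureTheory Function Filter Topology Set
open scoped ENNReal

namespace Pool.Agent.Lib.MP_4952d6_mp.O

/-- Ground states: minimisers of the energy among the admissible states. -/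
def IsGround (m R₀ : ℝ) (v : (Fin 3 → ℝ) → ℝ) (N : ℕ) (L : ℝ) (ψ : (Fin N → Fin 3 → ℝ) → ℂ) :
    Prop :=
  Admissible m R₀ v N L ψ ∧
    ∀ φ : (Fin N → Fin 3 → ℝ) → ℂ, Admissible m R₀ v N L φ → energy m v N L ψ ≤ energy m v N L φ

/-- **Final form**. -/
def OTDFull : Prop :=
  ∀ (m R₀ R : ℝ) (v : (Fin 3 → ℝ) → ℝ), 0 < m → 0 ≤ R₀ → Integrable v →
    (∀ x, 0 ≤ v x) → (∀ x y : Fin 3 → ℝ, ∑ α, x α ^ 2 = ∑ α, y α ^ 2 → v x = v y) →
    (∀ x : Fin 3 → ℝ, R ^ 2 ≤ ∑ α, x α ^ 2 → v x = 0) → (0 < R₀ ∨ 0 < ∫ x, v x) →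
    0 < scatLen m R₀ v ∧
    (∀ d₀ ε : ℝ, 0 < d₀ → 0 < ε → ∃ ρ₁ : ℝ, 0 < ρ₁ ∧ ∀ ρ : ℝ, 0 < ρ → ρ < ρ₁ →
      ∃ N₁ : ℕ, ∀ N : ℕ, N₁ ≤ N →
        (∃ ψ : (Fin N → Fin 3 → ℝ) → ℂ, IsGround m R₀ v N (side ρ N) ψ) ∧
        ∀ ψ : (Fin N → Fin 3 → ℝ) → ℂ, IsGround m R₀ v N (side ρ N) ψ → ∀ d : ℝ, d₀ ≤ d →
          |momFraction N (side ρ N) (d * Real.sqrt (ρ * scatLen m R₀ v)) ψ
            - FF d * Real.sqrt (ρ * scatLen m R₀ v ^ 3)| ≤ ε * Real.sqrt (ρ * scatLen m R₀ v ^ 3)) ∧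
    (∀ ε : ℝ, 0 < ε → ∃ ρ₁ : ℝ, 0 < ρ₁ ∧ ∀ ρ : ℝ, 0 < ρ → ρ < ρ₁ →
      ∃ N₁ : ℕ, ∀ N : ℕ, N₁ ≤ N → ∀ ψ : (Fin N → Fin 3 → ℝ) → ℂ,
        IsGround m R₀ v N (side ρ N) ψ →
        condFraction N (side ρ N) ψ
          ≤ 1 - (1 - ε) * (8 / (3 * Real.sqrt Real.pi)) * Real.sqrt (ρ * scatLen m R₀ v ^ 3))

/-- Existence of admissible states. -/
lemma FG_adm (hU : UStatement) {m R₀ R : ℝ} {v : (Fin 3 → ℝ) → ℝ} (hm : 0 < m) (hR0 : 0 ≤ R₀)
    (hR : R₀ < R) (hv : Integrable v) (hv0 : ∀ x, 0 ≤ v x)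
    (hrad : ∀ x y : Fin 3 → ℝ, ∑ α, x α ^ 2 = ∑ α, y α ^ 2 → v x = v y)
    (hsupp : ∀ x : Fin 3 → ℝ, R ^ 2 ≤ ∑ α, x α ^ 2 → v x = 0)
    (hgen : 0 < R₀ ∨ 0 < ∫ x, v x) :
    ∃ ρ₁ : ℝ, 0 < ρ₁ ∧ ∀ ρ : ℝ, 0 < ρ → ρ < ρ₁ → ∃ N₁ : ℕ, ∀ N : ℕ, N₁ ≤ N →
      0 < side ρ N ∧ 1 ≤ N ∧ ∃ φ : (Fin N → Fin 3 → ℝ) → ℂ, Admissible m R₀ v N (side ρ N) φ := by
  have hRpos : 0 < R := hR0.trans_lt hR
  have hvm : AEMeasurable v volume := hv.aestronglyMeasurable.aemeasurable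
  obtain ⟨hA0, htr⟩ := F4_trunc hm hR0 hR hv hv0 hrad hsupp hgen
  set A : ℝ := scatLen m R₀ v with hA
  obtain ⟨W, f, Q, a, h, haA, haA', hV⟩ := htr (1 / 2) 1 (by norm_num) one_pos
  have ha : 0 < a := h.a_pos
  obtain ⟨C, Y0, hC, hY0, hU'⟩ := hU (R / a) 1 one_pos
  refine ⟨Y0 ^ 2 / a ^ 3, by positivity, fun ρ hρ hρ1 => ?_⟩
  have hY := Y_pos hρ ha
  have hY2 := Y_sq hρ ha
  set Y : ℝ := Real.sqrt (ρ * a ^ 3) with hYd
  have hYlt : Y < Y0 := by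
    rw [lt_div_iff₀ (by positivity), ← hY2] at hρ1
    exact lt_of_pow_lt_pow_left₀ 2 hY0.le hρ1
  obtain ⟨a0, ha0, hU''⟩ := hU' Y hY hYlt
  obtain ⟨NS, hNS1, hNS⟩ := F4_side hρ (show 0 < max (2 * R) (a / a0) from
    lt_max_of_lt_left (by linarith))
  refine ⟨NS, fun N hN => ?_⟩
  have hN1 : 1 ≤ N := hNS1.trans hN
  have hN0 : (0:ℝ) < N := by exact_mod_cast hN1
  have hside := hNS N hN
  have hL := side_pos hρ hN1
  have hL3 := side_cube hρ hN1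
  set L : ℝ := side ρ N with hLdef
  have h2R : 2 * R < L := (le_max_left _ _).trans_lt hside
  have hLa : a / L < a0 := by
    have h1 : a / a0 < L := (le_max_right _ _).trans_lt hside
    rw [div_lt_iff₀ ha0] at h1
    rw [div_lt_iff₀ hL]; linarith
  obtain ⟨hV1, hV2, hV3⟩ := hV L h2R
  have hNa : (N:ℝ) * (a / L) ^ 3 = Y ^ 2 := by
    rw [hY2, ← hL3, div_pow]
    field_simp
  have hRθ : R / L ≤ R / a * (a / L) := le_of_eq (by field_simp)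
  obtain ⟨φ, hφ, -⟩ := hU'' N _ _ _ _ _ _ (h.scale hL) hLa hNa hRθ (Vp m L v)
    ((aem_vper hL hvm).const_mul _) hV2 hV1
  exact ⟨hL, hN1, Pool.Agent.Lib.MP_4952d6_mp.BB N L φ, adm_BB hm hL hR0 hvm hφ⟩

/-- The particles above a threshold are not in the condensate. -/
lemma FG_cond {m R₀ : ℝ} {v : (Fin 3 → ℝ) → ℝ} {N : ℕ} {L κ : ℝ} (hN : 1 ≤ N) (hL : 0 < L)
    (hκ : 0 < κ) {ψ : (Fin N → Fin 3 → ℝ) → ℂ} (h : Admissible m R₀ v N L ψ) :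
    momFraction N L κ ψ ≤ 1 - condFraction N L ψ := by
  have h5 := parseval_sq (memLp_TT hL h.1)
  have hN0 : (0 : ℝ) < N := by exact_mod_cast hN
  rw [condFraction_eq hN hL h]
  unfold momFraction
  simp_rw [fourierC_eq hL h.1.1]
  rw [sub_sub_cancel, one_div, inv_mul_eq_div]
  refine div_le_div_of_nonneg_right (Finset.sum_le_sum fun i _ => ?_) hN0.le
  unfold nuQ
  refine Summable.tsum_le_tsum (fun k => ?_)
    (ite_summable h5.summable (fun k => sq_nonneg _) _)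
    (ite_summable h5.summable (fun k => sq_nonneg _) (fun k => k i ≠ 0))
  by_cases h1 : κ ^ 2 ≤ (2 * Real.pi / L) ^ 2 * ∑ α, (k i α : ℝ) ^ 2
  · have h2 : k i ≠ 0 := by
      intro h0
      rw [h0] at h1
      simp only [Pi.zero_apply, Int.cast_zero, ne_eq, OfNat.ofNat_ne_zero, not_false_eq_true,
        zero_pow, Finset.sum_const_zero, mul_zero] at h1
      have : 0 < κ ^ 2 := by positivity
      linarith
    rw [if_pos h1, if_pos h2]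
  · rw [if_neg h1]
    split_ifs <;> positivity

theorem otd_full (hO : OTDStatement) (hU : UStatement) : OTDFull := by
  intro m R₀ R' v hm hR0 hv hv0 hrad hsupp' hgen
  obtain ⟨R, hR, hsupp⟩ : ∃ R : ℝ, R₀ < R ∧ ∀ x : Fin 3 → ℝ, R ^ 2 ≤ ∑ α, x α ^ 2 → v x = 0 :=
    ⟨|R'| + R₀ + 1, by linarith [abs_nonneg R'], fun x hx => hsupp' x (le_trans (by
      rw [← sq_abs R']
      exact pow_le_pow_left₀ (abs_nonneg R') (by linarith) 2) hx)⟩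
  obtain ⟨hA0, -⟩ := F4_trunc hm hR0 hR hv hv0 hrad hsupp hgen
  obtain ⟨ρa, hρa, hadm⟩ := FG_adm hU hm hR0 hR hv hv0 hrad hsupp hgen
  have hO' := hO m R₀ R v hm hR0 hR hv hv0 hrad hsupp hgen
  refine ⟨hA0, fun d₀ ε hd₀ hε => ?_, fun ε hε => ?_⟩
  · obtain ⟨ρ₁, hρ₁, h⟩ := hO' d₀ ε hd₀ hε
    refine ⟨min ρ₁ ρa, lt_min hρ₁ hρa, fun ρ hρ hlt => ?_⟩
    obtain ⟨N₁, hN₁⟩ := h ρ hρ (hlt.trans_le (min_le_left _ _))
    obtain ⟨N₂, hN₂⟩ := hadm ρ hρ (hlt.trans_le (min_le_right _ _))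
    refine ⟨max N₁ N₂, fun N hN => ⟨?_, fun ψ hψ d hd => ?_⟩⟩
    · obtain ⟨hL, -, hφ⟩ := hN₂ N ((le_max_right _ _).trans hN)
      obtain ⟨ψ, h1, h2⟩ := M.exists_ground hm hL hR0 hv.aestronglyMeasurable.aemeasurable hφ
      exact ⟨ψ, h1, h2⟩
    · exact hN₁ N ((le_max_left _ _).trans hN) ψ hψ.1 hψ.2 d hd
  · have hκ : 0 < 8 / (3 * Real.sqrt Real.pi) := by
      have := Real.pi_pos
      positivity
    obtain ⟨d, hd, hFd⟩ : ∃ d : ℝ, 0 < d ∧ (1 - ε / 2) * (8 / (3 * Real.sqrt Real.pi)) < FF d := by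
      have h1 : ∀ᶠ d in 𝓝 (0:ℝ), (1 - ε / 2) * (8 / (3 * Real.sqrt Real.pi)) < FF d := by
        refine FF_continuous.continuousAt.eventually_const_lt ?_
        rw [FF_zero]
        nlinarith only [mul_pos hε hκ]
      obtain ⟨e, he, h2⟩ := Metric.eventually_nhds_iff.1 h1
      refine ⟨e / 2, by positivity, h2 ?_⟩
      rw [Real.dist_eq, sub_zero, abs_of_pos (by positivity)]
      linarith
    obtain ⟨ρ₁, hρ₁, h⟩ := hO' d (ε / 2 * (8 / (3 * Real.sqrt Real.pi))) hd (by positivity)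
    refine ⟨min ρ₁ ρa, lt_min hρ₁ hρa, fun ρ hρ hlt => ?_⟩
    obtain ⟨N₁, hN₁⟩ := h ρ hρ (hlt.trans_le (min_le_left _ _))
    obtain ⟨N₂, hN₂⟩ := hadm ρ hρ (hlt.trans_le (min_le_right _ _))
    refine ⟨max N₁ N₂, fun N hN ψ hψ => ?_⟩
    obtain ⟨hL, hN1, -⟩ := hN₂ N ((le_max_right _ _).trans hN)
    have h1 := hN₁ N ((le_max_left _ _).trans hN) ψ hψ.1 hψ.2 d le_rfl
    have hra : 0 < Real.sqrt (ρ * scatLen m R₀ v) := Real.sqrt_pos.2 (by positivity)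
    have h2 := FG_cond hN1 hL (κ := d * Real.sqrt (ρ * scatLen m R₀ v)) (by positivity) hψ.1
    have hY := Y_pos hρ hA0
    set Y : ℝ := Real.sqrt (ρ * scatLen m R₀ v ^ 3) with hYd
    have h3 := (abs_le.1 h1).1
    have h4 := mul_le_mul_of_nonneg_right hFd.le hY.le
    linarith

end Pool.Agent.Lib.MP_4952d6_mp.O

end

/-! ### O.FJ -/

section

/-!
# O.FJ: the limit of the lattice sum
-/

set_option autoImplicit false
set_option linter.unusedSectionVars false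
set_option linter.unusedVariables false
open MeasureTheory Function Filter Topology Set

namespace Pool.Agent.Lib.MP_4952d6_mp.O

open LB

/-- The radial function of the Riemann sum. -/
noncomputable def FYb (τ b lam r : ℝ) : ℝ :=
  Real.exp (-(τ * r ^ 2)) * (epsf (8 * Real.pi) (Eb b lam r) - Eb b lam r - 8 * Real.pi)

lemma FYb_continuous (τ b lam : ℝ) : Continuous (FYb τ b lam) := by
  unfold FYb epsf Eb
  fun_prop

lemma Eb_nonneg {b lam : ℝ} (hb : 0 < b) (hlam : |lam| * b ≤ 1 / 8) (r : ℝ) : 0 ≤ Eb b lam r := by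
  rcases le_total 0 lam with h | h
  · unfold Eb
    have := mul_nonneg h (w_nonneg hb.le r)
    positivity
  · obtain ⟨κ, rfl⟩ : ∃ κ, lam = -κ := ⟨-lam, by ring⟩
    have hκ : 0 ≤ κ := by linarith
    rw [abs_neg, abs_of_nonneg hκ] at hlam
    have h1 := Eb_neg_ge (b := b) (r := r) hκ
    have h2 : 0 ≤ (1 - κ * b) * r ^ 2 := mul_nonneg (by linarith) (sq_nonneg r)
    linarith

lemma FYb_bound {τ b lam : ℝ} (hb : 0 < b) (hlam : |lam| * b ≤ 1 / 8) (r : ℝ) :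
    |FYb τ b lam r| ≤ 8 * Real.pi * Real.exp (-(τ * r ^ 2)) := by
  have hpi := Real.pi_pos
  have hG : 0 ≤ 8 * Real.pi := by positivity
  have hE := Eb_nonneg hb hlam r
  have h1 := epsf_ge hG hE
  have h2 := epsf_le hG hE
  unfold FYb
  rw [abs_mul, abs_of_pos (Real.exp_pos _), mul_comm]
  refine mul_le_mul_of_nonneg_right ?_ (Real.exp_pos _).le
  rw [abs_le]
  constructor <;> linarith

lemma LSO_scale {l : ℝ} (hl : 0 < l) (τ b lam : ℝ) :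
    LSO (l ^ 2 * τ) b lam l = 1 / l ^ 2 * ∑' p : Fin 3 → ℤ, if p = 0 then 0 else
        FYb τ b lam (2 * Real.pi * l * Real.sqrt (∑ α, (p α : ℝ) ^ 2)) := by
  unfold LSO
  rw [← tsum_mul_left]
  refine tsum_congr fun p => ?_
  rcases eq_or_ne p 0 with hp | hp
  · rw [if_pos hp, if_pos hp, mul_zero]
  · rw [if_neg hp, if_neg hp]
    have hs : 0 ≤ ∑ α, (p α : ℝ) ^ 2 := Finset.sum_nonneg fun α _ => sq_nonneg _
    have hr : (2 * Real.pi * l * Real.sqrt (∑ α, (p α : ℝ) ^ 2)) ^ 2 = l ^ 2 * ksq p := by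
      rw [mul_pow, Real.sq_sqrt hs]
      unfold ksq mom2
      ring
    unfold FYb Eb
    rw [hr, Mul_et_sq]
    unfold Es eO
    have e1 : 8 * Real.pi / l ^ 2 = 1 / l ^ 2 * (8 * Real.pi) := by ring
    have e2 : (l ^ 2 * ksq p + lam * (1 - Real.exp (-(b * (l ^ 2 * ksq p))))) / l ^ 2
        = 1 / l ^ 2 * (l ^ 2 * ksq p + lam * (1 - Real.exp (-(b * (l ^ 2 * ksq p))))) := by
      ring
    have e3 : l ^ 2 * τ * ksq p = τ * (l ^ 2 * ksq p) := by ring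
    rw [e1, e2, e3, LimB_epsf (by positivity)]
    ring

lemma limBb {τ b lam η : ℝ} (hτ : 0 < τ) (hb : 0 < b) (hlam : |lam| * b ≤ 1 / 8) (hη : 0 < η) :
    ∃ l0 : ℝ, 0 < l0 ∧ ∀ l : ℝ, 0 < l → l < l0 →
      1 / (4 * Real.pi ^ 2) * (∫ r in Ioi (0:ℝ), r ^ 2 * FYb τ b lam r) - η
        ≤ 1 / 2 * l ^ 5 * LSO (l ^ 2 * τ) b lam l := by
  have hpi := Real.pi_pos
  have h1 := riemann_radial (FYb_continuous τ b lam) hτ (FYb_bound hb hlam)
  have h2 : ∀ᶠ l : ℝ in 𝓝[>] 0,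
      1 / (2 * Real.pi ^ 2) * (∫ r in Ioi (0:ℝ), r ^ 2 * FYb τ b lam r) - 2 * η
        < l ^ 3 * ∑' p : Fin 3 → ℤ, if p = 0 then 0 else
          FYb τ b lam (2 * Real.pi * l * Real.sqrt (∑ α, (p α : ℝ) ^ 2)) :=
    h1.eventually (lt_mem_nhds (by linarith))
  obtain ⟨l0, hl0, h3⟩ := mem_nhdsGT_iff_exists_Ioo_subset.1 h2
  refine ⟨l0, hl0, fun l hl hll => ?_⟩
  have h4 := h3 ⟨hl, hll⟩
  simp only [Set.mem_ofPred_eq] at h4
  rw [LSO_scale hl]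
  set S := ∑' p : Fin 3 → ℤ, if p = 0 then 0 else
          FYb τ b lam (2 * Real.pi * l * Real.sqrt (∑ α, (p α : ℝ) ^ 2)) with hS
  set I := ∫ r in Ioi (0:ℝ), r ^ 2 * FYb τ b lam r with hI
  have e1 : 1 / 2 * l ^ 5 * (1 / l ^ 2 * S) = 1 / 2 * (l ^ 3 * S) := by
    field_simp
  have e2 : 1 / (4 * Real.pi ^ 2) * I = 1 / 2 * (1 / (2 * Real.pi ^ 2) * I) := by
    field_simp
    ring
  rw [e1, e2]
  linarith

lemma FYb_eq {τ b lam r : ℝ} (hr : 0 < r) :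
    r ^ 2 * FYb τ b lam r
      = Real.exp (-(τ * r ^ 2)) * (r ^ 2 * jIntb b lam r)
        - 32 * Real.pi ^ 2 * Real.exp (-(τ * r ^ 2)) := by
  have h2 : jIntb b lam r - 32 * Real.pi ^ 2 / r ^ 2
      = epsf (8 * Real.pi) (Eb b lam r) - Eb b lam r - 8 * Real.pi := by
    unfold jIntb epsf
    have e : Eb b lam r ^ 2 + 16 * Real.pi * Eb b lam r
        = Eb b lam r ^ 2 + 2 * (8 * Real.pi) * Eb b lam r := by ring
    rw [e]
    ring
  unfold FYb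
  rw [← h2]
  have e : 32 * Real.pi ^ 2 / r ^ 2 * r ^ 2 = 32 * Real.pi ^ 2 :=
    div_mul_cancel₀ _ (pow_ne_zero 2 hr.ne')
  linear_combination (-(Real.exp (-(τ * r ^ 2)))) * e

lemma limCb_int_FY {τ b lam : ℝ} (hτ : 0 < τ) (hb : 0 < b) (hlam : |lam| * b ≤ 1 / 8) :
    IntegrableOn (fun r : ℝ => r ^ 2 * FYb τ b lam r) (Ioi 0) := by
  refine Integrable.mono' ((LimC_int_gauss2 hτ).const_mul (8 * Real.pi))
    ((continuous_id.pow 2).mul (FYb_continuous τ b lam)).aestronglyMeasurable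
    (Eventually.of_forall fun r => ?_)
  rw [Real.norm_eq_abs, abs_mul, abs_of_nonneg (sq_nonneg r)]
  have h := mul_le_mul_of_nonneg_left (FYb_bound (τ := τ) hb hlam r) (sq_nonneg r)
  calc r ^ 2 * |FYb τ b lam r| ≤ r ^ 2 * (8 * Real.pi * Real.exp (-(τ * r ^ 2))) := h
    _ = 8 * Real.pi * (r ^ 2 * Real.exp (-(τ * r ^ 2))) := by ring

lemma limCb_int_J {τ b lam : ℝ} (hτ : 0 ≤ τ) (hb : 0 < b) (hlam : |lam| * b ≤ 1 / 8) :
    IntegrableOn (fun r : ℝ => Real.exp (-(τ * r ^ 2)) * (r ^ 2 * jIntb b lam r)) (Ioi 0) := by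
  have hc : Continuous (fun r : ℝ => Real.exp (-(τ * r ^ 2))) := by fun_prop
  exact (jIntb_integrable hb.le hlam).bdd_mul (c := 1) hc.aestronglyMeasurable
    (Eventually.of_forall fun r => LimC_exp_le hτ r)

lemma limCb_step {τ b lam : ℝ} (hτ : 0 < τ) (hb : 0 < b) (hlam : |lam| * b ≤ 1 / 8) :
    1 / (4 * Real.pi ^ 2) * (∫ r in Ioi (0:ℝ), Real.exp (-(τ * r ^ 2)) * (r ^ 2 * jIntb b lam r))
      = 4 * Real.sqrt Real.pi / Real.sqrt τ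
        + 1 / (4 * Real.pi ^ 2) * ∫ r in Ioi (0:ℝ), r ^ 2 * FYb τ b lam r := by
  have hpi := Real.pi_pos
  have h1 : ∫ r in Ioi (0:ℝ), Real.exp (-(τ * r ^ 2)) * (r ^ 2 * jIntb b lam r)
      = ∫ r in Ioi (0:ℝ), (32 * Real.pi ^ 2 * Real.exp (-(τ * r ^ 2)) + r ^ 2 * FYb τ b lam r) := by
    refine setIntegral_congr_fun measurableSet_Ioi fun r hr => ?_
    have hr0 : (0:ℝ) < r := hr
    have := FYb_eq (τ := τ) (b := b) (lam := lam) hr0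
    linarith
  have h4 : ∫ r in Ioi (0:ℝ), (32 * Real.pi ^ 2 * Real.exp (-(τ * r ^ 2)) + r ^ 2 * FYb τ b lam r)
      = (∫ r in Ioi (0:ℝ), 32 * Real.pi ^ 2 * Real.exp (-(τ * r ^ 2)))
        + ∫ r in Ioi (0:ℝ), r ^ 2 * FYb τ b lam r :=
    integral_add ((LimC_int_gauss hτ).const_mul (32 * Real.pi ^ 2)) (limCb_int_FY hτ hb hlam)
  have h5 : ∫ r in Ioi (0:ℝ), 32 * Real.pi ^ 2 * Real.exp (-(τ * r ^ 2))
      = 32 * Real.pi ^ 2 * (Real.sqrt (Real.pi / τ) / 2) := by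
    rw [integral_const_mul, ← integral_gaussian_Ioi τ]
    congr 1
    refine setIntegral_congr_fun measurableSet_Ioi fun r _ => ?_
    rw [neg_mul]
  have h6 : 1 / (4 * Real.pi ^ 2) * (32 * Real.pi ^ 2 * (Real.sqrt (Real.pi / τ) / 2))
      = 4 * Real.sqrt Real.pi / Real.sqrt τ := by
    rw [Real.sqrt_div hpi.le]
    have hpi2 : Real.pi ^ 2 ≠ 0 := pow_ne_zero 2 hpi.ne'
    have hs : Real.sqrt τ ≠ 0 := (Real.sqrt_pos.2 hτ).ne'
    field_simp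
    norm_num
  rw [h1, h4, h5, mul_add, h6]

lemma limCb_lim {b lam : ℝ} (hb : 0 < b) (hlam : |lam| * b ≤ 1 / 8) :
    Tendsto (fun τ : ℝ => 1 / (4 * Real.pi ^ 2)
        * ∫ r in Ioi (0:ℝ), Real.exp (-(τ * r ^ 2)) * (r ^ 2 * jIntb b lam r)) (𝓝[>] 0)
      (𝓝 (Jb b lam)) := by
  unfold Jb
  refine Tendsto.const_mul _ ?_
  refine tendsto_integral_filter_of_dominated_convergence (fun r => ‖r ^ 2 * jIntb b lam r‖) ?_ ?_ ?_ ?_
  · filter_upwards [self_mem_nhdsWithin] with τ hτ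
    exact (limCb_int_J (le_of_lt hτ) hb hlam).aestronglyMeasurable
  · filter_upwards [self_mem_nhdsWithin] with τ hτ
    refine Eventually.of_forall fun r => ?_
    rw [norm_mul]
    have h := mul_le_mul_of_nonneg_right (LimC_exp_le (le_of_lt hτ) r)
      (norm_nonneg (r ^ 2 * jIntb b lam r))
    rw [one_mul] at h
    exact h
  · exact (jIntb_integrable hb.le hlam).norm
  · refine Eventually.of_forall fun r => ?_
    have hc : Continuous (fun τ : ℝ => Real.exp (-(τ * r ^ 2)) * (r ^ 2 * jIntb b lam r)) := by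
      fun_prop
    have h := hc.tendsto 0
    have e : Real.exp (-((0:ℝ) * r ^ 2)) * (r ^ 2 * jIntb b lam r) = r ^ 2 * jIntb b lam r := by
      rw [zero_mul, neg_zero, Real.exp_zero, one_mul]
    rw [e] at h
    exact h.mono_left nhdsWithin_le_nhds

theorem oj_statement : OJStatement := by
  intro b lam η hb hlam _ hη
  have h1 : ∀ᶠ τ in 𝓝[>] (0:ℝ), Jb b lam - η / 2 < 1 / (4 * Real.pi ^ 2)
      * ∫ r in Ioi (0:ℝ), Real.exp (-(τ * r ^ 2)) * (r ^ 2 * jIntb b lam r) :=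
    (limCb_lim hb hlam).eventually (eventually_gt_nhds (by linarith))
  obtain ⟨τ0, hτ0, h2⟩ := mem_nhdsGT_iff_exists_Ioo_subset.1 h1
  have hτ0' : (0:ℝ) < τ0 := hτ0
  refine ⟨min 1 τ0, lt_min one_pos hτ0', fun u hu hlt => ?_⟩
  have hu1 : u < 1 := hlt.trans_le (min_le_left _ _)
  have hu2 : u < τ0 := hlt.trans_le (min_le_right _ _)
  have hτ : 0 < u ^ 16 := by positivity
  have hττ : u ^ 16 < τ0 := lt_of_le_of_lt (pow_le_of_le_one hu.le hu1.le (by norm_num)) hu2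
  have h3 : Jb b lam - η / 2 < 1 / (4 * Real.pi ^ 2)
      * ∫ r in Ioi (0:ℝ), Real.exp (-(u ^ 16 * r ^ 2)) * (r ^ 2 * jIntb b lam r) := h2 ⟨hτ, hττ⟩
  rw [limCb_step hτ hb hlam] at h3
  have hs : Real.sqrt (u ^ 16) = u ^ 8 := by
    rw [show u ^ 16 = (u ^ 8) ^ 2 by ring]
    exact Real.sqrt_sq (by positivity)
  rw [hs] at h3
  obtain ⟨l0, hl0, h4⟩ := limBb (η := η / 2) hτ hb hlam (by positivity)
  refine ⟨l0, hl0, fun l hl hll => ?_⟩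
  have h5 := h4 l hl hll
  rw [JO_eq]
  linarith

end Pool.Agent.Lib.MP_4952d6_mp.O

end

/-! ### O.MF -/

section

/-!
# OM-MF: `LocO` for minimisers on the torus
-/

set_option autoImplicit false
set_option linter.unusedSectionVars false
set_option linter.unusedVariables false
open MeasureTheory Function Filter Topology Set
open scoped ENNReal

namespace Pool.Agent.Lib.MP_4952d6_mp.O

open LB LA

theorem locO (θ cw Kμ cb : ℝ) (hθ : 1 ≤ θ) (hcw : 0 < cw) (hKμ : 0 ≤ Kμ) (hcb : 1 ≤ cb) :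
    ∃ C Y0 : ℝ, 0 < C ∧ 0 < Y0 ∧ ∀ Y : ℝ, 0 < Y → Y < Y0 → ∀ (l R a : ℝ) (w : ℝ → ℝ)
      (N : ℕ) (R₀ e : ℝ) (𝒱 : T3 → ℝ≥0∞) (ψ : (Fin N → T3) → ℂ)
      (g : Fin N → Fin 3 → (Fin N → T3) → ℂ), Par θ cw Kμ Y l R a w N R₀ 𝒱 →
      Mini R₀ 𝒱 (Kμ / l ^ 2) e ψ g → ∀ u : ℝ, 0 < u → u ≤ 1 →
      ∀ t T b : ℝ, 0 < t → 1 ≤ N * (Real.sqrt (t / 8)) ^ 3 → t ≤ T → 0 < b →
        64 * T ≤ cb * b / u ^ 3 → LocO C u t T b ψ := by
  obtain ⟨C1, Y1, hC1, hY1, H1⟩ := crowdO θ cw Kμ hθ hcw hKμ 1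
  obtain ⟨C2, Y2, hC2, hY2, H2⟩ := crowdO θ cw Kμ hθ hcw hKμ 400
  obtain ⟨C3, Y3, hC3, hY3, H3⟩ := smearedO θ cw Kμ hθ hcw hKμ 400
  obtain ⟨C4, Y4, hC4, hY4, H4⟩ := nz_moments θ cw Kμ hθ hcw hKμ 162
  obtain ⟨C5, Y5, hC5, hY5, H5⟩ := nz_moments θ cw Kμ hθ hcw hKμ 164
  obtain ⟨A2, hA2⟩ : ∃ A2 : ℝ, A2 = 2 * cb + 2 ^ 401 * ((C2 + C3) + 1) := ⟨_, rfl⟩
  obtain ⟨A3, hA3⟩ : ∃ A3 : ℝ, A3 = 3 * (C4 + C5) + 1 := ⟨_, rfl⟩
  have hA2p : 0 < A2 := by rw [hA2]; positivity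
  have hA3p : 0 < A3 := by rw [hA3]; positivity
  refine ⟨C1 + A2 + A3,
    min (min Y1 Y2) (min Y3 (min Y4 Y5)), by positivity,
    lt_min (lt_min hY1 hY2) (lt_min hY3 (lt_min hY4 hY5)), ?_⟩
  intro Y hY hYlt l R a w N R₀ e 𝒱 ψ g hPar hMini u hu hu1 t T b ht htN htT hb hTb
  have hY1' : Y < Y1 := hYlt.trans_le ((min_le_left _ _).trans (min_le_left _ _))
  have hY2' : Y < Y2 := hYlt.trans_le ((min_le_left _ _).trans (min_le_right _ _))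
  have hY3' : Y < Y3 := hYlt.trans_le ((min_le_right _ _).trans (min_le_left _ _))
  have hY4' : Y < Y4 :=
    hYlt.trans_le ((min_le_right _ _).trans ((min_le_right _ _).trans (min_le_left _ _)))
  have hY5' : Y < Y5 :=
    hYlt.trans_le ((min_le_right _ _).trans ((min_le_right _ _).trans (min_le_right _ _)))
  have hψ : MemLp ψ 2 (piN (Fin N)) := hMini.fe.hg.mem
  have hnrm : ∫ x, ‖ψ x‖ ^ 2 ∂(piN (Fin N)) = 1 := hMini.nrm
  have hN : 0 < N := by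
    rcases Nat.eq_zero_or_pos N with h | h
    · exfalso
      rw [h] at htN
      norm_num at htN
    · exact h
  have hn : (0 : ℝ) < N := by exact_mod_cast hN
  have hs1 : ∀ s, t / 8 ≤ s → 0 < s ∧ 1 ≤ N * (Real.sqrt s) ^ 3 := by
    intro s h1
    refine ⟨by linarith, htN.trans ?_⟩
    refine mul_le_mul_of_nonneg_left ?_ hn.le
    exact pow_le_pow_left₀ (Real.sqrt_nonneg _) (Real.sqrt_le_sqrt h1) 3
  have hDb : 0 ≤ Db b ψ := by
    unfold Db Dm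
    refine Finset.sum_nonneg fun j _ => tsum_nonneg fun k => mul_nonneg ?_ (sq_nonneg _)
    have h1 : 0 ≤ b * ksq (k j) := mul_nonneg hb.le (HKE_ksq_nonneg _)
    have h2 : Real.exp (-(b * ksq (k j))) ≤ 1 := Real.exp_le_one_iff.2 (by linarith)
    linarith
  have hVV : 0 ≤ VV (T / 2) ψ := by
    unfold VV
    exact integral_nonneg fun z => integral_nonneg fun x => by positivity
  refine ⟨?_, ?_, ?_⟩
  · intro s h1 h2
    obtain ⟨hs, hsN⟩ := hs1 s h1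
    have h3 := H1 Y hY hY1' l R a w N R₀ e 𝒱 ψ g hPar hMini s hs hsN
    rw [Fintype.card_fin]
    have h4 : ∀ m, ∫ x, ‖ψ x‖ ^ 2 * crowd s m x ∂(piN (Fin N)) =
        ∫ x, crowd s m x ^ 1 * ‖ψ x‖ ^ 2 ∂(piN (Fin N)) := by
      intro m
      refine integral_congr_ae (Eventually.of_forall fun x => ?_)
      simp only [pow_one]
      ring
    rw [Finset.sum_congr rfl fun m _ => h4 m]
    unfold crp at h3
    refine h3.trans ?_
    refine mul_le_mul_of_nonneg_right ?_ (by positivity)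
    linarith only [hA2p, hA3p]
  · intro r s hr hr2 h1 h2
    obtain ⟨hs, hsN⟩ := hs1 s h1
    have h3 := H2 Y hY hY2' l R a w N R₀ e 𝒱 ψ g hPar hMini s hs hsN
    have h4 := H3 Y hY hY3' l R a w N R₀ e 𝒱 ψ g hPar hMini r s hr hs hsN
    have h5 : C2 * (N : ℝ) ^ (400 + 1) ≤ (C2 + C3) * (N : ℝ) ^ 401 :=
      mul_le_mul_of_nonneg_right (by linarith) (by positivity)
    have h6 : C3 * (N : ℝ) ^ (400 + 1) ≤ (C2 + C3) * (N : ℝ) ^ 401 :=
      mul_le_mul_of_nonneg_right (by linarith) (by positivity)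
    have h7 := md_of hN hψ hnrm hu hu1 hr hs hb hcb (hr2.trans hTb) (by positivity : 0 ≤ C2 + C3)
      (h3.trans h5) (h4.trans h6)
    rw [Fintype.card_fin]
    refine h7.trans ?_
    have h8 : 0 ≤ (N : ℝ) ^ 2 * (Db b ψ / u ^ 4 + u ^ 161 * (N : ℝ)) := by positivity
    rw [← hA2, mul_assoc, mul_assoc]
    refine mul_le_mul_of_nonneg_right ?_ h8
    linarith only [hC1, hA2p, hA3p]
  · intro s h1 h2
    have h1' : t / 8 ≤ s := by linarith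
    have h2' : t / 8 ≤ T / 2 := by linarith
    obtain ⟨hs, hsN⟩ := hs1 s h1'
    obtain ⟨hT, hTN⟩ := hs1 (T / 2) h2'
    have k1 := H4 Y hY hY4' l R a w N R₀ e 𝒱 ψ g hPar hMini s hs hsN
    have k2 := H5 Y hY hY5' l R a w N R₀ e 𝒱 ψ g hPar hMini s hs hsN
    have k3 := H5 Y hY hY5' l R a w N R₀ e 𝒱 ψ g hPar hMini (T / 2) hT hTN
    have h3 : C4 * (N : ℝ) ^ 162 ≤ (C4 + C5) * (N : ℝ) ^ 162 :=
      mul_le_mul_of_nonneg_right (by linarith) (by positivity)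
    have h4 : C5 * (N : ℝ) ^ 164 ≤ (C4 + C5) * (N : ℝ) ^ 164 :=
      mul_le_mul_of_nonneg_right (by linarith) (by positivity)
    have h5 := mv_of hN hψ hnrm hu hs (by linarith : 0 < T) (by positivity : 0 ≤ C4 + C5)
      (k1.trans h3) (k2.trans h4) (k3.trans h4)
    rw [Fintype.card_fin]
    refine h5.trans ?_
    have h8 : 0 ≤ (N : ℝ) * (VV (T / 2) ψ / u + u ^ 161 * (N : ℝ) ^ 2) := by positivity
    rw [← hA3, mul_assoc, mul_assoc]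
    refine mul_le_mul_of_nonneg_right ?_ h8
    linarith only [hC1, hA2p, hA3p]

/-- **(OM), torus form.** -/
def OMTStatement : Prop :=
  ∀ θ cw cb : ℝ, 0 < cw → 1 ≤ cb → ∃ C Y0 : ℝ, 0 < C ∧ 0 < Y0 ∧ ∀ Y : ℝ, 0 < Y → Y < Y0 →
    ∀ (N : ℕ) (W f Q w : ℝ → ℝ) (R₀ R a : ℝ), Scat W R₀ R a f Q → a ≤ Y / 8 →
      (N : ℝ) * a ^ 3 = Y ^ 2 → R ≤ θ * a →
      Measurable w → (∀ t, 0 ≤ w t) → (∀ t, w t ≤ (R⁻¹) ^ 2) → (∀ t, R ≤ t → w t = 0) →
      cw * R ≤ sig * ∫ t in Ioi (0:ℝ), t ^ 2 * w t →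
      ∀ 𝒱 : T3 → ℝ≥0∞, AEMeasurable 𝒱 lam3 → (∀ y, 𝒱 (-y) = 𝒱 y) →
      (∀ᵐ y ∂lam3, ENNReal.ofReal (2 * W (rr y)) ≤ 𝒱 y) →
      (∫⁻ y, 𝒱 y ∂lam3 ≤ (∫⁻ y, ENNReal.ofReal (2 * W (rr y)) ∂lam3) + ENNReal.ofReal a) →
      (∀ᵐ y ∂lam3, R₀ ≤ rr y → ENNReal.ofReal (w (rr y)) ≤ 𝒱 y) →
      ∀ ψ : (Fin N → T3) → ℂ, tAdm R₀ 𝒱 ψ → (∀ φ : (Fin N → T3) → ℂ, tAdm R₀ 𝒱 φ → tE 𝒱 ψ ≤ tE 𝒱 φ) →
      ∀ u : ℝ, 0 < u → u ≤ 1 → ∀ t T b : ℝ, 0 < t → 1 ≤ N * (Real.sqrt (t / 8)) ^ 3 → t ≤ T → 0 < b →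
        64 * T ≤ cb * b / u ^ 3 → LocO C u t T b ψ

theorem om_torus : OMTStatement := by
  intro θ cw cb hcw hcb
  obtain ⟨K, hK, hmini⟩ := exists_mini
  obtain ⟨Y1, hY1, hmini⟩ := hmini (max θ 1) (le_max_right _ _)
  obtain ⟨C, Y2, hC, hY2, hloc⟩ := locO (max θ 1) cw K cb (le_max_right _ _) hcw hK.le hcb
  refine ⟨C, min Y1 Y2, hC, lt_min hY1 hY2, ?_⟩
  intro Y hY hYlt N W f Q w R₀ R a hS ha hN hR hwm hw0 hwle hwz hwi 𝒱 hVm hVs hVW hVi hVw ψ hψ hmin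
    u hu hu1 t T b ht htN htT hb hTb
  have hYa : Y < Y1 := hYlt.trans_le (min_le_left _ _)
  have hYb : Y < Y2 := hYlt.trans_le (min_le_right _ _)
  have ha0 : 0 < a := hS.a_pos
  have hl8 : a / Y ≤ 1 / 8 := by
    rw [div_le_iff₀ hY]
    linarith
  have hRθ : R ≤ max θ 1 * a := hR.trans (mul_le_mul_of_nonneg_right (le_max_left _ _) ha0.le)
  obtain ⟨g, e, hM⟩ := hmini Y hY hYa N W f Q R₀ R a hS hl8 hN hRθ 𝒱 hVm hVs hVW hVi ψ hψ hmin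
  have hpar : Par (max θ 1) cw K Y (a / Y) R a w N R₀ 𝒱 :=
    ⟨ha0, hS.a_le, hRθ, rfl, hl8, hN, hwm, hw0, hwle, hwz, hwi, hVw⟩
  exact hloc Y hY hYb (a / Y) R a w N R₀ e 𝒱 ψ g hpar hM u hu hu1 t T b ht htN htT hb hTb

end Pool.Agent.Lib.MP_4952d6_mp.O

end

/-! ### O.WB4 -/

section

/-! # O.WB4: the inequality for a pair `k, -k`

`y = yy (ef k) f + yy (ef (-k)) f`, `n = yy θ f`, `κ' = κ + 1`, `ε = epsf (g N) E`, `N = card ι`.
If `E = 0` then `E / ε = 0` (`zero_div`) and everything on the left vanishes. Let `E > 0`, so `ε ≥ E > 0`, `ε² = E² + 2 g N E` (`PreA_sq`).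
`s = E / ε`, `s0 = s * √(N / κ')`. From `0 ≤ ‖AA k f + s BB k f‖² + ‖AA (-k) f + s BB (-k) f‖²` and `AB_re`
(expand: `norm_add_sq`, with `(s : ℂ) •`): `ΣA² ≥ - 2 s (y - 2 e2 n) - s² ΣB²`. From `0 ≤ ‖RR k f + s0 BB k f‖² + ‖RR (-k) f + s0 BB (-k) f‖²` and `RB_re`:
`ΣR² ≥ 2 s0 mu2 - s0² ΣB²`. `AB_norm`: `E y ≥ (E / (4 κ')) (ΣA² + ΣB²) - (E / κ') e2 n`. Sum: the coefficient of `ΣB²` is
`E (1 - s²) / (4 κ') - g s0² / 2`, and `1 - s² = 2 g N E / ε²`, `s0² = E² N / (ε² κ')`, so it is `0`. Do the algebra first as a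
statement about real numbers (`pair_alg`). -/

set_option autoImplicit false
set_option linter.unusedSectionVars false
set_option linter.unusedVariables false
open MeasureTheory Function Filter Topology Set ComplexConjugate

namespace Pool.Agent.Lib.MP_4952d6_mp.O

open LB

variable {ι : Type*} [Fintype ι] [DecidableEq ι]

/-- `A2, B2, R2` are the sums of the squared norms, `y, n, m` as in the header (`m = mu2`). -/
theorem pair_alg {A2 B2 R2 y n m e2 κ' E ε g N : ℝ} (hκ : 0 < κ') (hE : 0 < E) (hg : 0 ≤ g)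
    (hN : 0 ≤ N) (hε : 0 < ε) (hε2 : ε ^ 2 = E ^ 2 + 2 * (g * N) * E)
    (h1 : ∀ s : ℝ, 0 ≤ A2 + 2 * s * (y - 2 * e2 * n) + s ^ 2 * B2)
    (h2 : ∀ s : ℝ, 0 ≤ R2 - 2 * s * m + s ^ 2 * B2)
    (h3 : A2 + B2 ≤ 4 * e2 * n + 4 * κ' * y) :
    E / κ' * (E / ε - 1) * (e2 * n) - E / (2 * κ') * (E / ε) * y + g * (E / ε) * Real.sqrt (N / κ') * m
      ≤ E * y + g / 2 * R2 := by
  set s : ℝ := E / ε with hs
  have hsε : s * ε = E := by
    rw [hs]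
    field_simp
  have hs2 : s ^ 2 * (E + 2 * (g * N)) = E := by
    have e1 : s ^ 2 * (E ^ 2 + 2 * (g * N) * E) = E ^ 2 := by
      rw [← hε2, ← mul_pow, hsε]
    have e2 : E * (s ^ 2 * (E + 2 * (g * N))) = E * E := by linear_combination e1
    exact mul_left_cancel₀ hE.ne' e2
  set r : ℝ := Real.sqrt (N / κ') with hr
  have hr2 : r ^ 2 = N / κ' := Real.sq_sqrt (by positivity)
  have a1 := mul_nonneg (by positivity : 0 ≤ E / (4 * κ')) (h1 s)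
  have a2 := mul_nonneg (by positivity : 0 ≤ g / 2) (h2 (s * r))
  have a3 := mul_le_mul_of_nonneg_left h3 (by positivity : 0 ≤ E / (4 * κ'))
  have a4 : E / (4 * κ') * (1 - s ^ 2) - g / 2 * (s * r) ^ 2 = 0 := by
    rw [mul_pow, hr2]
    field_simp
    linear_combination -2 * hs2
  have a5 : E / (4 * κ') * (4 * e2 * n + 4 * κ' * y) = E / κ' * (e2 * n) + E * y := by
    field_simp
  have a6 : E / (4 * κ') * (2 * s * (y - 2 * e2 * n)) =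
      E / (2 * κ') * s * y - E / κ' * s * (e2 * n) := by
    field_simp
    ring
  have a7 : (E / (4 * κ') * (1 - s ^ 2) - g / 2 * (s * r) ^ 2) * B2 = 0 := by
    rw [a4, zero_mul]
  rw [a5] at a3
  linarith

theorem WB4_norm {H : Type*} [NormedAddCommGroup H] [InnerProductSpace ℂ H] (a b : H) (s : ℝ) :
    ‖a + (s : ℂ) • b‖ ^ 2 = ‖a‖ ^ 2 + 2 * s * (inner ℂ a b).re + s ^ 2 * ‖b‖ ^ 2 := by
  rw [norm_add_sq (𝕜 := ℂ), inner_smul_right, norm_smul, Complex.norm_real, mul_pow,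
    Real.norm_eq_abs, sq_abs]
  have e : RCLike.re ((s : ℂ) * inner ℂ a b) = s * (inner ℂ a b).re := by
    change ((s : ℂ) * inner ℂ a b).re = _
    rw [Complex.mul_re, Complex.ofReal_re, Complex.ofReal_im, zero_mul, sub_zero]
  rw [e]
  ring

theorem pair_ineq {t : ℝ} (ht : 0 < t) {θ : T3 → ℝ} (hθ : BM θ) (k : Fin 3 → ℤ) {e2 κ E g : ℝ}
    (hκ : 0 ≤ κ) (hE : 0 ≤ E) (hg : 0 ≤ g)
    (h1 : ip (fun x => (θ x : ℂ)) (fun x => (θ x : ℂ)) = 1)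
    (h2 : ip (ef t θ k) (ef t θ k) = (e2 : ℂ)) (h3 : ip (ef t θ (-k)) (ef t θ (-k)) = (e2 : ℂ))
    {f : HS ι} (hf : NB θ κ f) :
    E / (κ + 1) * (E / epsf (g * Fintype.card ι) E - 1) * (e2 * yy (fun x => (θ x : ℂ)) f)
      - E / (2 * (κ + 1)) * (E / epsf (g * Fintype.card ι) E) * (yy (ef t θ k) f + yy (ef t θ (-k)) f)
      + g * (E / epsf (g * Fintype.card ι) E) * Real.sqrt (Fintype.card ι / (κ + 1)) * mu2 t θ k f
      ≤ E * (yy (ef t θ k) f + yy (ef t θ (-k)) f)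
        + g / 2 * (‖RR t θ k f‖ ^ 2 + ‖RR t θ (-k) f‖ ^ 2) := by
  rcases hE.eq_or_lt with h0 | hE0
  · rw [← h0]
    simp only [zero_div, zero_mul, mul_zero, sub_zero, add_zero, zero_add]
    positivity
  have hN : (0 : ℝ) ≤ Fintype.card ι := Nat.cast_nonneg _
  have hgN : 0 ≤ g * (Fintype.card ι : ℝ) := mul_nonneg hg hN
  have hε : 0 < epsf (g * (Fintype.card ι : ℝ)) E := by
    unfold epsf
    apply Real.sqrt_pos.2
    positivity
  refine pair_alg (A2 := ‖AA t θ k f‖ ^ 2 + ‖AA t θ (-k) f‖ ^ 2)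
    (B2 := ‖BB t θ k f‖ ^ 2 + ‖BB t θ (-k) f‖ ^ 2) (by linarith) hE0 hg hN hε
    (PreA_sq hgN hE) (fun s => ?_) (fun s => ?_) ?_
  · have e1 := WB4_norm (AA t θ k f) (BB t θ k f) s
    have w2 := WB4_norm (AA t θ (-k) f) (BB t θ (-k) f) s
    have e3 := AB_re ht hθ k h1 h2 h3 f
    have e4 := sq_nonneg ‖AA t θ k f + (s : ℂ) • BB t θ k f‖
    have e5 := sq_nonneg ‖AA t θ (-k) f + (s : ℂ) • BB t θ (-k) f‖
    have e6 : 2 * s * (yy (ef t θ k) f + yy (ef t θ (-k)) f -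
        2 * e2 * yy (fun x => (θ x : ℂ)) f) =
        2 * s * (inner ℂ (AA t θ k f) (BB t θ k f)).re +
        2 * s * (inner ℂ (AA t θ (-k) f) (BB t θ (-k) f)).re := by
      rw [← e3]
      ring
    linarith
  · have e1 := WB4_norm (RR t θ k f) (BB t θ k f) s
    have w2 := WB4_norm (RR t θ (-k) f) (BB t θ (-k) f) s
    have e3 := RB_re ht hθ k f
    have e4 := sq_nonneg ‖RR t θ k f + (s : ℂ) • BB t θ k f‖
    have e5 := sq_nonneg ‖RR t θ (-k) f + (s : ℂ) • BB t θ (-k) f‖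
    have e6 : 2 * s * mu2 t θ k f =
        -(2 * s * (inner ℂ (RR t θ k f) (BB t θ k f)).re +
        2 * s * (inner ℂ (RR t θ (-k) f) (BB t θ (-k) f)).re) := by
      have e7 : mu2 t θ k f = -((inner ℂ (RR t θ k f) (BB t θ k f)).re +
        (inner ℂ (RR t θ (-k) f) (BB t θ (-k) f)).re) := by linarith
      rw [e7]
      ring
    linarith
  · have e1 := AB_norm ht hθ k hκ h1 h2 h3 hf
    linarith

end Pool.Agent.Lib.MP_4952d6_mp.O

end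

/-! ### O.WH5 -/

section

/-! # O.WH5: averages in the localised states

`δ = dlt s M N = 2 M³ / (s N) ≤ 1`. `EW_phw_yy`: for every `w` `ims_yy` with `g = A * pW t i M w` and `hxw_osc`; then `EW_mono`, `EW_add`, `EW_mul`, `EW_yy`, `pW_int`,
`EW_lin` (`qf_smul`): error `3 δ² · (A cW) · (A cW N)`.
`EW_phw_RR`: `ims_RR` with `wnd_win`, `Pr t (wnd M w) = pW t 1 M w`, `EW_RR`, `EW_sq`, `EW_lin`: error `3 δ² (N² cW² (1 + vb) + cW M³ · cW N)` and `cW² M³ ≤ 27/8 ≤ 4`.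
`EW_phw_zz`: `loc_w` with `v = rf k (ef k)` (`norm_rf_ef_le`, `pW t 3 = Pr (Pr (Pr θ))`), `EW_zz` for `wnd_uW` extended to `bx (2M)` (`uW_extend`, `th_out`) and `rfef_uW`,
`0 + n = n`; errors: `EW_dev` with `i = 0` and `i = 3`, `(12/s² + 1/2) vb ≤ 13 vb / s²`. -/

set_option autoImplicit false
set_option linter.unusedSectionVars false
set_option linter.unusedVariables false
open MeasureTheory Function Filter Topology Set ComplexConjugate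

namespace Pool.Agent.Lib.MP_4952d6_mp.O

open LB

variable {ι : Type*} [Fintype ι] [DecidableEq ι]

/-- Change of the angle if one particle is moved. -/
noncomputable def dlt (s : ℝ) (M N : ℕ) : ℝ := 2 * (M : ℝ) ^ 3 / (s * N)

private lemma WH5_dlt_le {M N : ℕ} (hN : 1 ≤ N) {s : ℝ} (hs : 0 < s)
    (hMN : 2 * (M : ℝ) ^ 3 ≤ s * N) : dlt s M N ≤ 1 := by
  have h : (0 : ℝ) < s * N := mul_pos hs (by exact_mod_cast hN)
  unfold dlt
  rw [div_le_one h]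
  exact hMN

private lemma WH5_bm_const_mul (A : ℝ) {g : T3 → ℝ} (hg : BM g) : BM (fun y => A * g y) :=
  hg.const_mul A

theorem EW_phw_yy {t : ℝ} (ht : 0 < t) {L R M : ℕ} (hM : 1 ≤ M) (hR : 2 * R < L) (hL : 2 * M < L)
    (hN : 1 ≤ Fintype.card ι) {s : ℝ} (hs : 0 < s) (hMN : 2 * (M : ℝ) ^ 3 ≤ s * Fintype.card ι)
    (a : (Fin 3 → ℤ) → ℝ) (k : Fin 3 → ℤ) {A : ℝ} (hA : 0 ≤ A) (i : ℕ)
    (hb : ∀ w x, ‖uW a k R w x‖ ≤ A * pW t i M w x) (f : HS ι) (hf : ‖f‖ = 1) :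
    EW L (fun w => yy (uW a k R w) (phw s M w f))
      ≤ ∑ n ∈ bx R, a n ^ 2 * nk f (k + n)
        + 3 * dlt s M (Fintype.card ι) ^ 2 * (A ^ 2 * (Fintype.card ι * cW M ^ 2)) := by
  have hδ := WH5_dlt_le hN hs hMN
  have h1 : ∀ w, yy (uW a k R w) (phw s M w f) ≤ yy (uW a k R w) f
      + (3 * dlt s M (Fintype.card ι) ^ 2 * (A ^ 2 * cW M))
        * qf (fun x => ∑ j, pW t i M w (x j)) f := by
    intro w
    have hg : BM (fun y => A * pW t i M w y) := WH5_bm_const_mul A (pW_bm ht i hM w)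
    have h := ims_yy (bc_uW a k R w) hg (hb w) (hxw_osc (ι := ι) hM hN hs w) hδ f
    have e1 : ∫ y, A * pW t i M w y ∂lam3 = A * cW M := by
      rw [integral_const_mul, pW_int ht i hM w]
    have e2 : qf (fun x : ι → T3 => ∑ j, A * pW t i M w (x j)) f
        = A * qf (fun x => ∑ j, pW t i M w (x j)) f := by
      rw [← qf_smul]
      congr 1
      funext x
      rw [Finset.mul_sum]
    rw [e1, e2] at h
    refine h.trans (le_of_eq ?_)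
    unfold dlt
    ring
  refine (EW_mono L h1).trans ?_
  rw [EW_add L (fun w => yy (uW a k R w) f), EW_mul, EW_yy hR, EW_lin ht i hM hL, hf]
  refine le_of_eq ?_
  ring

theorem EW_phw_RR {t : ℝ} (ht : 0 < t) {L M : ℕ} (hM : 1 ≤ M) (hL : 2 * M < L)
    (hN : 1 ≤ Fintype.card ι) {s : ℝ} (hs : 0 < s) (hMN : 2 * (M : ℝ) ^ 3 ≤ s * Fintype.card ι)
    (k : Fin 3 → ℤ) (f : HS ι) (hf : ‖f‖ = 1) :
    EW L (fun w => ‖RR t (wnd M w) k (phw s M w f)‖ ^ 2)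
      ≤ ∑ n ∈ bx M, th M n ^ 2 * Rsq t f (k + n)
        + 3 * dlt s M (Fintype.card ι) ^ 2 * ((Fintype.card ι : ℝ) ^ 2 * cW M ^ 2 * (1 + vb M f)
          + 4 * Fintype.card ι) := by
  have hδ := WH5_dlt_le hN hs hMN
  have h1 : ∀ w, ‖RR t (wnd M w) k (phw s M w f)‖ ^ 2 ≤ ‖RR t (wnd M w) k f‖ ^ 2
      + (3 * dlt s M (Fintype.card ι) ^ 2)
        * (qf (fun x => (∑ j, pW t 1 M w (x j)) ^ 2) f
          + (cW M * (M : ℝ) ^ 3) * qf (fun x => ∑ j, pW t 1 M w (x j)) f) := by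
    intro w
    exact ims_RR ht (wnd_win hM w) k (hxw_osc (ι := ι) hM hN hs w) hδ f
  refine (EW_mono L h1).trans ?_
  rw [EW_add L (fun w => ‖RR t (wnd M w) k f‖ ^ 2), EW_mul,
    EW_add L (fun w => qf (fun x => (∑ j, pW t 1 M w (x j)) ^ 2) f), EW_mul,
    EW_RR hM hL ht, EW_lin ht 1 hM hL, hf]
  have h2 := EW_sq ht 1 hM hL hN f
  rw [hf] at h2
  have h3 := cW_le hM
  have h4 : (0 : ℝ) ≤ Fintype.card ι := Nat.cast_nonneg _
  have h5 : (0 : ℝ) ≤ 3 * dlt s M (Fintype.card ι) ^ 2 := by positivity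
  have h6 : cW M * (M : ℝ) ^ 3 * (cW M * (Fintype.card ι : ℝ) * 1 ^ 2) ≤ 4 * Fintype.card ι := by
    have : cW M * (M : ℝ) ^ 3 * (cW M * (Fintype.card ι : ℝ) * 1 ^ 2)
        = cW M ^ 2 * (M : ℝ) ^ 3 * Fintype.card ι := by ring
    rw [this]
    exact mul_le_mul_of_nonneg_right (h3.trans (by norm_num)) h4
  have h7 := mul_le_mul_of_nonneg_left (add_le_add h2 h6) h5
  rw [one_pow] at h7
  rw [one_pow]
  linarith

theorem EW_phw_zz {t : ℝ} (ht : 0 < t) {L M : ℕ} (hM : 1 ≤ M) (hL : 4 * M < L)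
    (hN : 1 ≤ Fintype.card ι) {s : ℝ} (hs : 0 < s) (hs1 : s ≤ 1)
    (hMN : 2 * (M : ℝ) ^ 3 ≤ s * Fintype.card ι) (k : Fin 3 → ℤ) (f : HS ι) (hf : ‖f‖ = 1) :
    ∑ n ∈ bx (2 * M), th M n * vk t M k n * nk f n
        - 13 * (cW M ^ 3 * (M : ℝ) ^ 3 * Fintype.card ι) * vb M f / s ^ 2
      ≤ EW L (fun w => zz (fun x => ((wnd M w x : ℝ) : ℂ))
          (rf t (wnd M w) k (ef t (wnd M w) k)) (phw s M w f)) := by
  have hL2 : 2 * M < L := by omega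
  have hL4 : 2 * (2 * M) < L := by omega
  have h1 : ∀ w, zz (uW (th M) 0 (2 * M) w) (uW (vk t M k) 0 (2 * M) w) f
      + (-(cW M ^ 3 * (M : ℝ) ^ 3 * Fintype.card ι * (12 / s ^ 2)))
        * qf (fun x : ι → T3 => ((∑ j, pW t 0 M w (x j)) / ((Fintype.card ι : ℝ) * cW M) - 1) ^ 2) f
      + (-(cW M ^ 3 * (M : ℝ) ^ 3 * Fintype.card ι * (1 / 2)))
        * qf (fun x : ι → T3 => ((∑ j, pW t 3 M w (x j)) / ((Fintype.card ι : ℝ) * cW M) - 1) ^ 2) f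
      ≤ zz (fun x => ((wnd M w x : ℝ) : ℂ)) (rf t (wnd M w) k (ef t (wnd M w) k)) (phw s M w f) := by
    intro w
    have hW := wnd_win hM w
    have hv : BC (rf t (wnd M w) k (ef t (wnd M w) k)) := bc_rf ht hW.bm k (bc_ef ht hW.bm k)
    have hvg : ∀ y, ‖rf t (wnd M w) k (ef t (wnd M w) k) y‖ ≤ cW M * (M : ℝ) ^ 3 * pW t 3 M w y :=
      fun y => norm_rf_ef_le ht hW k k y
    have h := loc_w (ι := ι) ht hM hN hs hs1 hMN w hv hvg f
    have e1 : zz (fun x => ((wnd M w x : ℝ) : ℂ)) (rf t (wnd M w) k (ef t (wnd M w) k)) f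
        = zz (uW (th M) 0 (2 * M) w) (uW (vk t M k) 0 (2 * M) w) f := by
      rw [rfef_uW ht hM k w, wnd_uW hM w,
        uW_extend (R := M) (R' := 2 * M) (by omega) (fun n hn => th_out hM hn) 0 w]
    have h2 := (abs_le.1 h).1
    rw [e1] at h2
    have e2 : qf (fun x : ι → T3 => (nuw M w x - 1) ^ 2) f
        = qf (fun x : ι → T3 =>
          ((∑ j, pW t 0 M w (x j)) / ((Fintype.card ι : ℝ) * cW M) - 1) ^ 2) f := rfl
    rw [e2] at h2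
    linarith
  refine le_trans ?_ (EW_mono L h1)
  rw [EW_add L (fun w => zz (uW (th M) 0 (2 * M) w) (uW (vk t M k) 0 (2 * M) w) f
      + (-(cW M ^ 3 * (M : ℝ) ^ 3 * Fintype.card ι * (12 / s ^ 2)))
        * qf (fun x : ι → T3 =>
          ((∑ j, pW t 0 M w (x j)) / ((Fintype.card ι : ℝ) * cW M) - 1) ^ 2) f),
    EW_add L (fun w => zz (uW (th M) 0 (2 * M) w) (uW (vk t M k) 0 (2 * M) w) f), EW_mul, EW_mul,
    EW_zz hL4]
  have h3 := EW_dev ht 0 hM hL2 hN f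
  have h4 := EW_dev ht 3 hM hL2 hN f
  have hc := cW_pos hM
  have hB : 0 ≤ cW M ^ 3 * (M : ℝ) ^ 3 * Fintype.card ι := by positivity
  have hvb := vb_nonneg M f
  have hs2 : 0 < s ^ 2 := by positivity
  have h5 : (1 : ℝ) / 2 ≤ 1 / s ^ 2 := by
    have : s ^ 2 ≤ 1 := by nlinarith
    have h6 := one_div_le_one_div_of_le hs2 this
    rw [div_one] at h6
    linarith
  have h7 := mul_le_mul_of_nonneg_left h3
    (mul_nonneg hB (by positivity : (0 : ℝ) ≤ 12 / s ^ 2))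
  have h8 := mul_le_mul_of_nonneg_left h4 (mul_nonneg hB (by norm_num : (0 : ℝ) ≤ 1 / 2))
  have h9 := mul_le_mul_of_nonneg_left (mul_le_mul_of_nonneg_right h5 hvb) hB
  have h10 : 13 * (cW M ^ 3 * (M : ℝ) ^ 3 * Fintype.card ι) * vb M f / s ^ 2
      = cW M ^ 3 * (M : ℝ) ^ 3 * Fintype.card ι * (12 / s ^ 2) * vb M f
        + cW M ^ 3 * (M : ℝ) ^ 3 * Fintype.card ι * (1 / s ^ 2 * vb M f) := by
    field_simp
    ring
  rw [h10]
  simp only [zero_add]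
  linarith

end Pool.Agent.Lib.MP_4952d6_mp.O

end

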