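import Pool.Agent.Lib.MP_4952d6_mp.Pk.G41
import Pool.Agent.Lib.MP_4952d6_mp.Pk.G43
import Pool.Agent.Lib.MP_4952d6_mp.Pk.G45
import Pool.Agent.Lib.MP_4952d6_mp.Po.N01
import Pool.Agent.Lib.MP_4952d6_mp.Po.N06

/-! Merged modules (to save import time): O.XU, O.OL. -/

/-! ### O.XU -/

section

/-!
# O.XU: the fourth error vector, one particle

`χ = cn q h`, `q = hk(T/2)`. `UO T (N H) h ψ j` is a.e. `(∑_{l≠j} χ(x_j-x_l) - N H) (PP1 T j ψ)(x)` (`Ker_HP_ae`, `Lp.coeFn_*`), so its norm² is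
`qf ((∑_{l≠j} χ(x_j-x_l) - N H)²) (PP1 T j ψ)`. Pointwise `χ(x_j-x_l) = ∫ q(z-x_l) h(x_j-z) dz` (`int_sub_left`, `y = x_j - z`), `∫ h = H`, so with
`m_z(x) = ∑_{l≠j} q(z-x_l)` (does not depend on `x_j`): `∑ χ - N H = ∫ h(x_j-z) (m_z - N) dz`, and by Cauchy-Schwarz
`(..)² ≤ H ∫ h(x_j-z) (m_z - N)² dz`. `jensen_PP1` (weight `G x = H ∫ h(x_j-z)(m_z-N)² dz`, `BM`, `≥ 0`) and
`cvj q j G x = H ∫ cn q h (x_j-z) (m_z-N)² dz ≤ C₁ H² ∫ hk T (x_j-z) (m_z-N)² dz` (Fubini, all bounded measurable; `cn_hk_le` with `s = T/2`, `R² ≤ T/2`).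
`m_z = nz (T/2) z - q(z-x_j)`, `(m_z-N)² ≤ 2 (nz (T/2) z - N)² + 2 q(z-x_j)²`, `q ≤ 8(√(T/2))⁻¹³` (`WWb_hk_zero`, `hk_le_zero`), `(√(T/2))⁻¹⁶ = 8 (√T)⁻¹⁶`,
`∫ hk T (x_j-z) dz = 1`. Finally exchange `∫ dx` and `∫ dz` (`BM` on the product times `‖ψ x‖²` integrable).
-/

set_option autoImplicit false
set_option linter.unusedSectionVars false
set_option linter.unusedVariables false
open MeasureTheory Function Filter Topology Set ComplexConjugate

namespace Pool.Agent.Lib.MP_4952d6_mp.O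

open LB

/-- Fubini for a bounded measurable weight depending on a parameter -/
lemma XU_fub {N : ℕ} {B : (Fin N → T3) × T3 → ℝ} (hB : BM B) (ψ : HS (Fin N)) :
    ∫ z, qf (fun x => B (x, z)) ψ ∂lam3 = qf (fun x => ∫ z, B (x, z) ∂lam3) ψ := by
  have h0 : Integrable (fun q : (Fin N → T3) × T3 => ‖ψ q.1‖ ^ 2) ((piN (Fin N)).prod lam3) :=
    (integrable_norm_sq ψ).comp_fst lam3
  have h1 : Integrable (fun q : (Fin N → T3) × T3 => B q * ‖ψ q.1‖ ^ 2)
      ((piN (Fin N)).prod lam3) := by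
    obtain ⟨C, hC⟩ := hB.2
    exact h0.bdd_mul hB.1.aestronglyMeasurable (Eventually.of_forall fun q => hC q)
  unfold qf
  rw [← integral_integral_swap (f := fun x z => B (x, z) * ‖ψ x‖ ^ 2) h1]
  refine integral_congr_ae (Eventually.of_forall fun x => ?_)
  simp only
  rw [integral_mul_const]

/-- the integrand in the parameter is integrable -/
lemma XU_fub_int {N : ℕ} {B : (Fin N → T3) × T3 → ℝ} (hB : BM B) (ψ : HS (Fin N)) :
    Integrable (fun z => qf (fun x => B (x, z)) ψ) lam3 := by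
  have h0 : Integrable (fun q : (Fin N → T3) × T3 => ‖ψ q.1‖ ^ 2) ((piN (Fin N)).prod lam3) :=
    (integrable_norm_sq ψ).comp_fst lam3
  have h1 : Integrable (fun q : (Fin N → T3) × T3 => B q * ‖ψ q.1‖ ^ 2)
      ((piN (Fin N)).prod lam3) := by
    obtain ⟨C, hC⟩ := hB.2
    exact h0.bdd_mul hB.1.aestronglyMeasurable (Eventually.of_forall fun q => hC q)
  exact h1.integral_prod_right

/-- measurability of evaluation on the product -/
lemma XU_mx {N : ℕ} (i : Fin N) : Measurable (fun q : (Fin N → T3) × T3 => q.1 i) :=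
  (measurable_pi_apply i).comp measurable_fst

/-- `m_z(x) = ∑_{l≠j} hk s (z-x_l)` -/
noncomputable def XU_m {N : ℕ} (s : ℝ) (j : Fin N) (z : T3) (x : Fin N → T3) : ℝ :=
  ∑ l ∈ Finset.univ.erase j, hk s (z - x l)

lemma XU_m_bm {N : ℕ} {s : ℝ} (hs : 0 < s) (j : Fin N) :
    BM (fun q : (Fin N → T3) × T3 => XU_m s j q.2 q.1) := by
  unfold XU_m
  exact BM.finset_sum _ fun l _ => (hk_bm hs).comp (measurable_sub' measurable_snd (XU_mx l))

lemma XU_m_bm_z {N : ℕ} {s : ℝ} (hs : 0 < s) (j : Fin N) (x : Fin N → T3) :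
    BM (fun z : T3 => XU_m s j z x) :=
  (XU_m_bm hs j).comp (f := fun q : (Fin N → T3) × T3 => XU_m s j q.2 q.1)
    (φ := fun z : T3 => (x, z)) measurable_prodMk_left

lemma XU_nz_bm {N : ℕ} {s : ℝ} (hs : 0 < s) :
    BM (fun q : (Fin N → T3) × T3 => nz s q.2 q.1) := by
  unfold nz
  exact BM.finset_sum _ fun l _ => (hk_bm hs).comp (measurable_sub' measurable_snd (XU_mx l))

lemma XU_m_update {N : ℕ} (s : ℝ) (j : Fin N) (z y : T3) (x : Fin N → T3) :
    XU_m s j z (update x j y) = XU_m s j z x := by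
  unfold XU_m
  refine Finset.sum_congr rfl fun l hl => ?_
  rw [update_of_ne (Finset.ne_of_mem_erase hl)]

lemma XU_nz {N : ℕ} (s : ℝ) (j : Fin N) (z : T3) (x : Fin N → T3) :
    nz s z x = hk s (z - x j) + XU_m s j z x := by
  unfold nz XU_m
  exact (Finset.add_sum_erase _ _ (Finset.mem_univ j)).symm

/-- the charge seen by the particle `j` -/
lemma XU_sum_chi {N : ℕ} {T H R : ℝ} (hT : 0 < T) {h : T3 → ℝ} (hh : SR H R h) (j : Fin N)
    (x : Fin N → T3) : (∑ l ∈ Finset.univ.erase j, chi T h (x j - x l)) - N * H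
      = ∫ z, h (x j - z) * (XU_m (T / 2) j z x - N) ∂lam3 := by
  have hT2 : 0 < T / 2 := by linarith
  have hq := hk_bm hT2
  have e1 : ∀ l, chi T h (x j - x l) = ∫ z, h (x j - z) * hk (T / 2) (z - x l) ∂lam3 := by
    intro l
    unfold chi cn
    rw [← int_sub_left (fun y => hk (T / 2) (x j - x l - y) * h y) (x j)]
    refine integral_congr_ae (Eventually.of_forall fun z => ?_)
    simp only
    rw [show x j - x l - (x j - z) = z - x l by abel]
    ring
  have hb : BM (fun z => h (x j - z)) := hh.bm.comp (measurable_sub' measurable_const measurable_id)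
  have hb2 : ∀ l, BM (fun z => h (x j - z) * hk (T / 2) (z - x l)) := fun l =>
    hb.mul (hq.comp (measurable_sub' measurable_id measurable_const))
  have e2 : ∑ l ∈ Finset.univ.erase j, chi T h (x j - x l)
      = ∫ z, h (x j - z) * XU_m (T / 2) j z x ∂lam3 := by
    simp_rw [e1]
    rw [← integral_finsetSum _ fun l _ => (hb2 l).integrable _]
    refine integral_congr_ae (Eventually.of_forall fun z => ?_)
    simp only
    unfold XU_m
    rw [Finset.mul_sum]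
  have e3 : ∫ z, h (x j - z) ∂lam3 = H := by
    rw [int_sub_left h (x j), hh.int]
  rw [e2]
  have e4 : (N : ℝ) * H = ∫ z, h (x j - z) * N ∂lam3 := by
    rw [integral_mul_const, e3]; ring
  rw [e4, ← integral_sub ((hb.mul (XU_m_bm_z hT2 j x)).integrable _)
    ((hb.mul (BM.const _)).integrable _)]
  refine integral_congr_ae (Eventually.of_forall fun z => ?_)
  simp only
  ring

/-- Cauchy-Schwarz -/
lemma XU_cs {a b : T3 → ℝ} (ha : BM a) (hb : BM b) (hb0 : ∀ z, 0 ≤ b z) :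
    (∫ z, b z * a z ∂lam3) ^ 2 ≤ (∫ z, b z ∂lam3) * ∫ z, b z * a z ^ 2 ∂lam3 := by
  apply cs_of_quadratic
  intro s
  have i1 : Integrable b lam3 := hb.integrable _
  have i2 : Integrable (fun z => b z * a z) lam3 := (hb.mul ha).integrable _
  have i3 : Integrable (fun z => b z * a z ^ 2) lam3 := (hb.mul (ha.pow 2)).integrable _
  have h2 : 0 ≤ ∫ z, b z * (1 - s * a z) ^ 2 ∂lam3 :=
    integral_nonneg fun z => mul_nonneg (hb0 z) (sq_nonneg _)
  have h3 : ∫ z, b z * (1 - s * a z) ^ 2 ∂lam3 = ∫ z, b z ∂lam3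
      - 2 * s * ∫ z, b z * a z ∂lam3 + s ^ 2 * ∫ z, b z * a z ^ 2 ∂lam3 := by
    have i4 : Integrable (fun z => b z - 2 * s * (b z * a z)) lam3 := i1.sub (i2.const_mul _)
    rw [← integral_const_mul, ← integral_const_mul, ← integral_sub i1 (i2.const_mul _),
      ← integral_add i4 (i3.const_mul _)]
    refine integral_congr_ae (Eventually.of_forall fun z => ?_)
    simp only
    ring
  linarith

/-- weight after Cauchy-Schwarz -/
noncomputable def XU_G {N : ℕ} (s H : ℝ) (h : T3 → ℝ) (j : Fin N) (x : Fin N → T3) : ℝ :=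
  H * ∫ z, h (x j - z) * (XU_m s j z x - N) ^ 2 ∂lam3

lemma XU_G_bm {N : ℕ} {s H : ℝ} (hs : 0 < s) {h : T3 → ℝ} (hh : BM h) (j : Fin N) :
    BM (XU_G s H h j) := by
  unfold XU_G
  refine BM.const_mul _ ?_
  have h1 : BM (uncurry fun (x : Fin N → T3) (z : T3) => h (x j - z) * (XU_m s j z x - N) ^ 2) :=
    (hh.comp (measurable_sub' (XU_mx j) measurable_snd)).mul
      (((XU_m_bm hs j).sub (BM.const _)).pow 2)
  exact h1.integral_right lam3

lemma XU_G_nonneg {N : ℕ} {s H : ℝ} (hH : 0 ≤ H) {h : T3 → ℝ} (hh : ∀ z, 0 ≤ h z) (j : Fin N)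
    (x : Fin N → T3) : 0 ≤ XU_G s H h j x :=
  mul_nonneg hH (integral_nonneg fun z => mul_nonneg (hh _) (sq_nonneg _))

/-- convolution in `x_j` of the weight -/
lemma XU_cvj {N : ℕ} {s r H : ℝ} (hs : 0 < s) (hr : 0 < r) {h : T3 → ℝ} (hh : BM h) (j : Fin N)
    (x : Fin N → T3) : cvj (hk r) j (XU_G s H h j) x
      = H * ∫ z, cn (hk r) h (x j - z) * (XU_m s j z x - N) ^ 2 ∂lam3 := by
  have hr' := hk_bm hr
  have hm : BM (fun q : T3 × T3 => (XU_m s j q.2 x - N) ^ 2) :=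
    (((XU_m_bm_z hs j x).comp measurable_snd).sub (BM.const _)).pow 2
  have hB : BM (fun q : T3 × T3 =>
      hk r (x j - q.1) * (h (q.1 - q.2) * (XU_m s j q.2 x - N) ^ 2)) :=
    (hr'.comp (measurable_sub' measurable_const measurable_fst)).mul
      ((hh.comp measurable_sub_fst_snd).mul hm)
  have e1 : cvj (hk r) j (XU_G s H h j) x
      = H * ∫ y, ∫ z, hk r (x j - y) * (h (y - z) * (XU_m s j z x - N) ^ 2) ∂lam3 ∂lam3 := by
    unfold cvj XU_G
    rw [← integral_const_mul]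
    refine integral_congr_ae (Eventually.of_forall fun y => ?_)
    simp only
    rw [integral_const_mul, update_self]
    simp_rw [XU_m_update]
    ring
  rw [e1, integral_integral_swap
    (f := fun y z => hk r (x j - y) * (h (y - z) * (XU_m s j z x - N) ^ 2)) (hB.integrable _)]
  congr 1
  refine integral_congr_ae (Eventually.of_forall fun z => ?_)
  simp only
  unfold cn
  rw [← int_sub_right (fun y => hk r (x j - z - y) * h y) z, ← integral_mul_const]
  refine integral_congr_ae (Eventually.of_forall fun y => ?_)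
  simp only
  rw [show x j - z - (y - z) = x j - y by abel]
  ring

/-- the operator as a multiplication operator -/
lemma XU_ae {N : ℕ} {T H R : ℝ} (hT : 0 < T) {h : T3 → ℝ} (hh : SR H R h) (j : Fin N)
    (ψ : HS (Fin N)) : (UO T (N * H) h ψ j : (Fin N → T3) → ℂ) =ᵐ[piN (Fin N)]
      fun x => (((∑ l ∈ Finset.univ.erase j, chi T h (x j - x l)) - N * H : ℝ) : ℂ)
        * (PP1 T j ψ) x := by
  have hT2 : 0 < T / 2 := by linarith
  have hc : BM (chi T h) := cn_bm (hk_bm hT2) hh.bm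
  have h1 : ∀ s : Finset (Fin N),
      ((∑ l ∈ s, HP (chi T h) j l (PP1 T j ψ) : HS (Fin N)) : (Fin N → T3) → ℂ)
        =ᵐ[piN (Fin N)] fun x => ((∑ l ∈ s, chi T h (x j - x l) : ℝ) : ℂ) * (PP1 T j ψ) x := by
    intro s
    induction s using Finset.induction_on with
    | empty =>
      simp only [Finset.sum_empty, Complex.ofReal_zero, zero_mul]
      exact Lp.coeFn_zero _ _ _
    | insert a s ha ih =>
      rw [Finset.sum_insert ha]
      filter_upwards [Lp.coeFn_add (HP (chi T h) j a (PP1 T j ψ))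
        (∑ l ∈ s, HP (chi T h) j l (PP1 T j ψ)), ih, Ker_HP_ae hc j a (PP1 T j ψ)] with x e1 e2 e3
      rw [e1, Pi.add_apply, e2, e3, Finset.sum_insert ha]
      push_cast
      ring
  unfold UO
  filter_upwards [Lp.coeFn_sub (∑ l ∈ Finset.univ.erase j, HP (chi T h) j l (PP1 T j ψ))
    (((N * H : ℝ) : ℂ) • PP1 T j ψ), h1 (Finset.univ.erase j),
    Lp.coeFn_smul ((N * H : ℝ) : ℂ) (PP1 T j ψ)] with x e1 e2 e3
  rw [e1, Pi.sub_apply, e2, e3, Pi.smul_apply, smul_eq_mul]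
  push_cast
  ring

theorem XU_j : ∃ C : ℝ, 0 ≤ C ∧ ∀ (N : ℕ) (T H R : ℝ) (h : T3 → ℝ) (j : Fin N), 0 < T → 64 * T ≤ 1 →
    SR H R h → 0 ≤ R → R ^ 2 ≤ T / 8 → ∀ ψ : HS (Fin N),
    ‖UO T (N * H) h ψ j‖ ^ 2 ≤ C * H ^ 2 *
      ((∫ z, qf (fun x => hk T (x j - z) * (nz (T / 2) z x - N) ^ 2) ψ ∂lam3)
        + (Real.sqrt T)⁻¹ ^ 6 * ‖ψ‖ ^ 2) := by
  obtain ⟨C₁, hC₁, hcn⟩ := cn_hk_le
  refine ⟨2 * C₁ * 512, by positivity, ?_⟩
  intro N T H R h j hT hT1 hh hR hRT ψ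
  have hT2 : 0 < T / 2 := by linarith
  have hH : 0 ≤ H := WWb_H_nonneg hh
  have hc : BM (chi T h) := cn_bm (hk_bm hT2) hh.bm
  -- step A
  have hSb : BM (fun x : Fin N → T3 => (∑ l ∈ Finset.univ.erase j, chi T h (x j - x l)) - N * H) :=
    (BM.finset_sum _ fun l _ => bm_diff hc j l).sub (BM.const _)
  have hA : ‖UO T (N * H) h ψ j‖ ^ 2
      = qf (fun x => ((∑ l ∈ Finset.univ.erase j, chi T h (x j - x l)) - N * H) ^ 2)
        (PP1 T j ψ) := by
    have e1 : ‖UO T (N * H) h ψ j‖ ^ 2 = ∫ x, ‖(UO T (N * H) h ψ j) x‖ ^ 2 ∂(piN (Fin N)) := by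
      have := qf_const (ι := Fin N) 1 (UO T (N * H) h ψ j)
      unfold qf at this
      simp only [one_mul] at this
      exact this.symm
    rw [e1]
    unfold qf
    refine integral_congr_ae ?_
    filter_upwards [XU_ae hT hh j ψ] with x hx
    rw [hx, norm_mul, Complex.norm_real, Real.norm_eq_abs, mul_pow, sq_abs]
  -- step B
  have hGb := XU_G_bm (N := N) (H := H) hT2 hh.bm j
  have hG0 : ∀ x, 0 ≤ XU_G (T / 2) H h j x := XU_G_nonneg hH hh.nonneg j
  have hB : ∀ x : Fin N → T3,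
      ((∑ l ∈ Finset.univ.erase j, chi T h (x j - x l)) - N * H) ^ 2 ≤ XU_G (T / 2) H h j x := by
    intro x
    rw [XU_sum_chi hT hh j x]
    unfold XU_G
    have h1 := XU_cs ((XU_m_bm_z hT2 j x).sub (BM.const (N : ℝ)))
      (hh.bm.comp (measurable_sub' (measurable_const (a := x j)) measurable_id))
      (fun z => hh.nonneg _)
    simp only [id] at h1
    rw [int_sub_left h (x j), hh.int] at h1
    exact h1
  -- step C
  have hC : ‖UO T (N * H) h ψ j‖ ^ 2 ≤ qf (cvj (hk (T / 2)) j (XU_G (T / 2) H h j)) ψ := by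
    rw [hA]
    refine (qf_mono (hSb.pow 2) hGb (Eventually.of_forall hB) _).trans ?_
    exact jensen_PP1 hT j hGb hG0 ψ
  -- step D, E
  set K : ℝ := hk (T / 2) 0 with hK
  have hK0 : 0 ≤ K := hk_nonneg _ _
  have hKT : K ^ 2 ≤ 512 * (Real.sqrt T)⁻¹ ^ 6 := by
    have h1 := WWb_hk_zero hT2 (by linarith)
    have h2 := pow_le_pow_left₀ hK0 h1 2
    refine h2.trans (le_of_eq ?_)
    have h3 : (Real.sqrt (T / 2))⁻¹ ^ 2 = 2 * (Real.sqrt T)⁻¹ ^ 2 := by
      rw [inv_pow, inv_pow, Real.sq_sqrt hT2.le, Real.sq_sqrt hT.le]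
      field_simp
    calc (8 * (Real.sqrt (T / 2))⁻¹ ^ 3) ^ 2 = 64 * ((Real.sqrt (T / 2))⁻¹ ^ 2) ^ 3 := by ring
      _ = 64 * (2 * (Real.sqrt T)⁻¹ ^ 2) ^ 3 := by rw [h3]
      _ = 512 * (Real.sqrt T)⁻¹ ^ 6 := by ring
  have hBnz : BM (fun q : (Fin N → T3) × T3 => hk T (q.1 j - q.2) * (nz (T / 2) q.2 q.1 - N) ^ 2) :=
    ((hk_bm hT).comp (measurable_sub' (XU_mx j) measurable_snd)).mul
      (((XU_nz_bm hT2).sub (BM.const _)).pow 2)
  have hBnz' : BM (fun x : Fin N → T3 => ∫ z, hk T (x j - z) * (nz (T / 2) z x - N) ^ 2 ∂lam3) :=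
    BM.integral_right (f := fun (x : Fin N → T3) (z : T3) =>
      hk T (x j - z) * (nz (T / 2) z x - N) ^ 2) hBnz lam3
  have hD : ∀ x : Fin N → T3, cvj (hk (T / 2)) j (XU_G (T / 2) H h j) x
      ≤ (2 * C₁ * H ^ 2) * ((∫ z, hk T (x j - z) * (nz (T / 2) z x - N) ^ 2 ∂lam3) + K ^ 2) := by
    intro x
    rw [XU_cvj hT2 hT2 hh.bm j x]
    have bz : BM (fun z => nz (T / 2) z x) :=
      (XU_nz_bm hT2).comp (f := fun q : (Fin N → T3) × T3 => nz (T / 2) q.2 q.1)
        (φ := fun z : T3 => (x, z)) measurable_prodMk_left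
    have bT : BM (fun z : T3 => hk T (x j - z)) :=
      (hk_bm hT).comp (measurable_sub' measurable_const measurable_id)
    have bc : BM (fun z : T3 => cn (hk (T / 2)) h (x j - z)) :=
      (cn_bm (hk_bm hT2) hh.bm).comp (measurable_sub' measurable_const measurable_id)
    have p1 : ∀ z, cn (hk (T / 2)) h (x j - z) * (XU_m (T / 2) j z x - N) ^ 2
        ≤ C₁ * H * (2 * (hk T (x j - z) * (nz (T / 2) z x - N) ^ 2) + 2 * K ^ 2 * hk T (x j - z)) := by
      intro z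
      have h1 := hcn (T / 2) H R h hT2 hh (by linarith) hR (x j - z)
      rw [show 2 * (T / 2) = T by ring] at h1
      have h2 : (XU_m (T / 2) j z x - N) ^ 2 ≤ 2 * (nz (T / 2) z x - N) ^ 2 + 2 * K ^ 2 := by
        have h3 := XU_nz (T / 2) j z x
        have h4 : hk (T / 2) (z - x j) ≤ K := hk_le_zero hT2 _
        have h5 : 0 ≤ hk (T / 2) (z - x j) := hk_nonneg _ _
        have h6 : hk (T / 2) (z - x j) ^ 2 ≤ K ^ 2 := pow_le_pow_left₀ h5 h4 2
        have h7 : XU_m (T / 2) j z x - N = (nz (T / 2) z x - N) - hk (T / 2) (z - x j) := by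
          rw [h3]; ring
        rw [h7]
        nlinarith [sq_nonneg ((nz (T / 2) z x - N) + hk (T / 2) (z - x j))]
      have h8 : 0 ≤ hk T (x j - z) := hk_nonneg _ _
      calc cn (hk (T / 2)) h (x j - z) * (XU_m (T / 2) j z x - N) ^ 2
          ≤ (C₁ * H * hk T (x j - z)) * (XU_m (T / 2) j z x - N) ^ 2 :=
            mul_le_mul_of_nonneg_right h1 (sq_nonneg _)
        _ ≤ (C₁ * H * hk T (x j - z)) * (2 * (nz (T / 2) z x - N) ^ 2 + 2 * K ^ 2) :=
            mul_le_mul_of_nonneg_left h2 (by positivity)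
        _ = _ := by ring
    have b1 : BM (fun z => hk T (x j - z) * (nz (T / 2) z x - N) ^ 2) :=
      bT.mul ((bz.sub (BM.const _)).pow 2)
    have p2 := integral_mono (μ := lam3)
      ((bc.mul (((XU_m_bm_z hT2 j x).sub (BM.const (N : ℝ))).pow 2)).integrable _)
      ((((b1.const_mul 2).add (bT.const_mul (2 * K ^ 2))).const_mul (C₁ * H)).integrable _) p1
    have p3 : ∫ z, hk T (x j - z) ∂lam3 = 1 := by
      rw [int_sub_left (hk T) (x j), hk_integral hT]
    rw [integral_const_mul, integral_add ((b1.const_mul 2).integrable _)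
      ((bT.const_mul (2 * K ^ 2)).integrable _), integral_const_mul, integral_const_mul, p3] at p2
    calc H * ∫ z, cn (hk (T / 2)) h (x j - z) * (XU_m (T / 2) j z x - N) ^ 2 ∂lam3
        ≤ H * (C₁ * H * (2 * (∫ z, hk T (x j - z) * (nz (T / 2) z x - N) ^ 2 ∂lam3)
          + 2 * K ^ 2 * 1)) := mul_le_mul_of_nonneg_left p2 hH
      _ = _ := by ring
  -- step F
  have hF : qf (cvj (hk (T / 2)) j (XU_G (T / 2) H h j)) ψ
      ≤ (2 * C₁ * H ^ 2) * (qf (fun x => ∫ z, hk T (x j - z) * (nz (T / 2) z x - N) ^ 2 ∂lam3) ψ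
        + K ^ 2 * ‖ψ‖ ^ 2) := by
    refine (qf_mono (cvj_bm (hk_bm hT2) j hGb) ((hBnz'.add (BM.const _)).const_mul _)
      (Eventually.of_forall hD) ψ).trans (le_of_eq ?_)
    rw [qf_smul, qf_add_fun hBnz' (BM.const _), qf_const]
  rw [← XU_fub hBnz ψ] at hF
  refine hC.trans (hF.trans ?_)
  have i0 : 0 ≤ ∫ z, qf (fun x => hk T (x j - z) * (nz (T / 2) z x - N) ^ 2) ψ ∂lam3 :=
    integral_nonneg fun z => qf_nonneg (fun x => mul_nonneg (hk_nonneg _ _) (sq_nonneg _)) ψ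
  have i1 : K ^ 2 * ‖ψ‖ ^ 2 ≤ 512 * ((Real.sqrt T)⁻¹ ^ 6 * ‖ψ‖ ^ 2) := by
    rw [← mul_assoc]
    exact mul_le_mul_of_nonneg_right hKT (sq_nonneg _)
  have i2 : 0 ≤ C₁ * H ^ 2 := by positivity
  calc 2 * C₁ * H ^ 2 * ((∫ z, qf (fun x => hk T (x j - z) * (nz (T / 2) z x - N) ^ 2) ψ ∂lam3)
        + K ^ 2 * ‖ψ‖ ^ 2)
      ≤ 2 * C₁ * H ^ 2 * (512 * (∫ z, qf (fun x => hk T (x j - z) * (nz (T / 2) z x - N) ^ 2) ψ ∂lam3)
        + 512 * ((Real.sqrt T)⁻¹ ^ 6 * ‖ψ‖ ^ 2)) := by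
        refine mul_le_mul_of_nonneg_left ?_ (by positivity)
        linarith
    _ = _ := by ring

/-- integrability in `z` and sum over the particles -/
theorem XU_sum {N : ℕ} {T : ℝ} (hT : 0 < T) (ψ : HS (Fin N)) :
    ∑ j, ∫ z, qf (fun x => hk T (x j - z) * (nz (T / 2) z x - N) ^ 2) ψ ∂lam3
      = ∫ z, qf (fun x => nz T z x * (nz (T / 2) z x - N) ^ 2) ψ ∂lam3 := by
  have hT2 : 0 < T / 2 := by linarith
  have hBnz : ∀ j : Fin N, BM (fun q : (Fin N → T3) × T3 =>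
      hk T (q.1 j - q.2) * (nz (T / 2) q.2 q.1 - N) ^ 2) := fun j =>
    ((hk_bm hT).comp (measurable_sub' (XU_mx j) measurable_snd)).mul
      (((XU_nz_bm hT2).sub (BM.const _)).pow 2)
  rw [← integral_finsetSum _ fun j _ => XU_fub_int (hBnz j) ψ]
  refine integral_congr_ae (Eventually.of_forall fun z => ?_)
  simp only
  have hz : ∀ j : Fin N, BM (fun x : Fin N → T3 => hk T (x j - z) * (nz (T / 2) z x - N) ^ 2) :=
    fun j => (hBnz j).comp (f := fun q : (Fin N → T3) × T3 =>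
      hk T (q.1 j - q.2) * (nz (T / 2) q.2 q.1 - N) ^ 2)
      (φ := fun x : Fin N → T3 => (x, z)) measurable_prodMk_right
  rw [← qf_sum Finset.univ fun j _ => hz j]
  congr 1
  funext x
  rw [← Finset.sum_mul]
  congr 1
  unfold nz
  refine Finset.sum_congr rfl fun j _ => ?_
  rw [← hk_neg, neg_sub]

end Pool.Agent.Lib.MP_4952d6_mp.O

end

/-! ### O.OL -/

section

/-!
# O.OL: Part A and Part B give the lower bound for the energy on the torus
-/

set_option autoImplicit false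
set_option linter.unusedSectionVars false
set_option linter.unusedVariables false
open MeasureTheory Function Filter Topology Set ComplexConjugate
open scoped ENNReal

namespace Pool.Agent.Lib.MP_4952d6_mp.O

open LB

section congr

variable {ι : Type*} [Fintype ι] [DecidableEq ι] {f g : (ι → T3) → ℂ}

lemma dfm_congr (h : f =ᵐ[piN ι] g) (r : ℝ) (m : ι) (W : (ι → T3) → ℝ) :
    dfm r m W f = dfm r m W g := by
  unfold dfm
  refine integral_congr_ae ?_
  have h1 : ∀ᵐ q : (ι → T3) × T3 ∂((piN ι).prod lam3), f q.1 = g q.1 :=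
    Measure.quasiMeasurePreserving_fst.ae h
  have h2 : ∀ᵐ q : (ι → T3) × T3 ∂((piN ι).prod lam3), f (update q.1 m q.2) = g (update q.1 m q.2) :=
    (LB.mp_upd m).quasiMeasurePreserving.ae h
  filter_upwards [h1, h2] with q k1 k2
  rw [k1, k2]

lemma Dm_congr (h : f =ᵐ[piN ι] g) (φ : (Fin 3 → ℤ) → ℝ) : Dm φ f = Dm φ g := by
  unfold Dm
  refine Finset.sum_congr rfl fun j _ => tsum_congr fun k => ?_
  rw [fc_congr h k]

lemma Db_congr (h : f =ᵐ[piN ι] g) (b : ℝ) : Db b f = Db b g := Dm_congr h _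

lemma VV_congr (h : f =ᵐ[piN ι] g) (s : ℝ) : VV s f = VV s g := by
  unfold VV
  congr 1
  funext z
  refine integral_congr_ae ?_
  filter_upwards [h] with x hx
  rw [hx]

lemma LocO.congr {C u t T b : ℝ} (hL : LocO C u t T b f) (h : f =ᵐ[piN ι] g) :
    LocO C u t T b g := by
  refine ⟨fun s h1 h2 => ?_, fun r s h1 h2 h3 h4 => ?_, fun s h1 h2 => ?_⟩
  · refine le_trans (le_of_eq (Finset.sum_congr rfl fun m _ => ?_)) (hL.m0 s h1 h2)
    refine integral_congr_ae ?_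
    filter_upwards [h] with x hx
    rw [hx]
  · rw [← Db_congr h]
    refine le_trans (le_of_eq (Finset.sum_congr rfl fun m _ => ?_)) (hL.md r s h1 h2 h3 h4)
    exact (dfm_congr h r m _).symm
  · rw [← VV_congr h]
    refine le_trans (le_of_eq ?_) (hL.mv s h1 h2)
    congr 1
    funext z
    refine integral_congr_ae ?_
    filter_upwards [h] with x hx
    rw [hx]

lemma Db_nonneg {b : ℝ} (hb : 0 ≤ b) (f : (ι → T3) → ℂ) : 0 ≤ Db b f := by
  unfold Db Dm
  refine Finset.sum_nonneg fun j _ => tsum_nonneg fun k => mul_nonneg ?_ (sq_nonneg _)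
  have : Real.exp (-(b * ksq (k j))) ≤ 1 := by
    rw [Real.exp_le_one_iff]
    have : 0 ≤ b * ksq (k j) := mul_nonneg hb (ksq_nonneg _)
    linarith
  linarith

lemma VV_nonneg (s : ℝ) (f : (ι → T3) → ℂ) : 0 ≤ VV s f := by
  unfold VV
  exact integral_nonneg fun z => integral_nonneg fun x => mul_nonneg (sq_nonneg _) (sq_nonneg _)

lemma LocO.mono {C C' u t T b : ℝ} (hL : LocO C u t T b f) (hu : 0 ≤ u) (hb : 0 ≤ b) (h : C ≤ C') :
    LocO C' u t T b f := by
  have h1 := Db_nonneg hb f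
  have h2 := VV_nonneg (T / 2) f
  refine ⟨fun s h3 h4 => (hL.m0 s h3 h4).trans ?_, fun r s h3 h4 h5 h6 =>
    (hL.md r s h3 h4 h5 h6).trans ?_, fun s h3 h4 => (hL.mv s h3 h4).trans ?_⟩
  · gcongr
  · gcongr
  · gcongr

end congr

theorem ol_of (hE : OEStatement) (hW : OWStatement) (hC : OCStatement) : OLStatement := by
  intro θ CM b lam hb hlb hl8
  obtain ⟨Cc, hCc, hC'⟩ := hC
  have hθ0 : 0 ≤ max θ 0 := le_max_right _ _
  have hM0 : 0 ≤ max CM 0 := le_max_right _ _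
  obtain ⟨C1, u1, hC1, hu1, hE'⟩ := hE (max θ 0) (max CM 0) Cc hθ0 hM0 hCc
  obtain ⟨C2, u2, hC2, hu2, hW'⟩ := hW b lam (max CM 0) hb hlb hl8 hM0
  refine ⟨C1 + C2, min u1 u2, add_nonneg hC1 hC2, lt_min hu1 hu2, fun u hu hlt => ?_⟩
  obtain ⟨a1, ha1, hE''⟩ := hE' u hu (hlt.trans_le (min_le_left _ _))
  obtain ⟨a2, ha2, hW''⟩ := hW' u hu (hlt.trans_le (min_le_right _ _))
  refine ⟨min (min a1 a2) (1 / (8 * (max θ 0 + 1))), lt_min (lt_min ha1 ha2) (by positivity), ?_⟩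
  intro N W f Q R₀ R a hsc haa hNa hRθ 𝒱 h𝒱 ψ hψ hLoc
  have ha := hsc.a_pos
  have hpi := Real.pi_pos
  have haa1 : a < a1 := haa.trans_le ((min_le_left _ _).trans (min_le_left _ _))
  have haa2 : a < a2 := haa.trans_le ((min_le_left _ _).trans (min_le_right _ _))
  have haa3 : a < 1 / (8 * (max θ 0 + 1)) := haa.trans_le (min_le_right _ _)
  have hR0 : 0 ≤ R := hsc.R_pos.le
  have hRθ' : R ≤ max θ 0 * a := hRθ.trans (mul_le_mul_of_nonneg_right (le_max_left _ _) ha.le)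
  have hR8 : R ≤ 1 / 8 := by
    refine hRθ'.trans ?_
    have h1 : a * (8 * (max θ 0 + 1)) < 1 := by
      rwa [lt_div_iff₀ (by positivity)] at haa3
    linarith
  obtain ⟨h, k, w, hD⟩ := hC' W f Q R₀ R a hsc hR8 (u ^ 161) (by positivity)
  set Ψ : HS (Fin N) := hψ.1.toLp ψ with hΨ
  have hΨ1 : ‖Ψ‖ = 1 := norm_toLp_one hψ.1 hψ.2.1
  have hae : ψ =ᵐ[piN (Fin N)] (Ψ : (Fin N → T3) → ℂ) := hψ.1.coeFn_toLp.symm
  have hkin := (kin_sum hψ).1
  rw [← hΨ] at hkin
  set t : ℝ := (a / u ^ 152) ^ 2 with ht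
  set T : ℝ := (a / u ^ 160) ^ 2 / u ^ 3 with hT
  set l : ℝ := a / u ^ 160 with hl
  have hl0 : 0 < l := by positivity
  have ht0 : 0 < t := by positivity
  have hLoc' : LocO (max CM 0) u t T (l ^ 2) (Ψ : (Fin N → T3) → ℂ) :=
    (hLoc.mono hu.le (sq_nonneg _) (le_max_left _ _)).congr hae
  -- the source
  have e1 : 1 / l ^ 2 = N * a := by
    have hNe : (N : ℝ) = u ^ 320 / a ^ 3 := by
      rw [eq_div_iff (by positivity)]; exact hNa
    rw [hl, hNe]; field_simp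
  have hNa0 : 0 < (N : ℝ) * a := by rw [← e1]; positivity
  have hφe : ∀ p, Es b lam l p - ksq p = lam * (N * a) * (1 - Real.exp (-(b * (l ^ 2 * ksq p)))) := by
    intro p
    rw [← e1]
    unfold Es eO
    field_simp
    ring
  have hw01 : ∀ p : Fin 3 → ℤ, |1 - Real.exp (-(b * (l ^ 2 * ksq p)))| ≤ 1 := fun p => by
    have h1 : Real.exp (-(b * (l ^ 2 * ksq p))) ≤ 1 := by
      rw [Real.exp_le_one_iff]
      have : 0 ≤ b * (l ^ 2 * ksq p) := mul_nonneg hb.le (mul_nonneg (sq_nonneg _) (ksq_nonneg p))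
      linarith
    have h2 := Real.exp_pos (-(b * (l ^ 2 * ksq p)))
    rw [abs_le]
    constructor <;> linarith
  have hφb : ∀ p, |Es b lam l p - ksq p| ≤ 8 * Real.pi * (N * a) := by
    intro p
    rw [hφe, abs_mul, abs_mul, abs_of_pos hNa0]
    calc |lam| * (N * a) * |1 - Real.exp (-(b * (l ^ 2 * ksq p)))| ≤ 1 / 8 * (N * a) * 1 := by
          gcongr
          exact hw01 p
      _ ≤ 8 * Real.pi * (N * a) := by nlinarith [Real.pi_gt_three]
  have key1 := hE'' N W R₀ R a (u ^ 161) h k w ha haa1 hNa hR0 hRθ' (by positivity) le_rfl hD Ψ hΨ1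
    hkin hLoc' (fun p => Es b lam l p - ksq p) hφb
  have key2 := hW'' N a ha haa2 hNa Ψ hΨ1 hkin hLoc'
  have hDm : Dm (fun p => Es b lam l p - ksq p) ψ = ∑' p, (Es b lam l p - ksq p) * nk Ψ p := by
    rw [Dm_congr hae]
    exact Dm_eq Ψ ⟨_, hφb⟩
  have hDb : Db (l ^ 2) ψ = Db (l ^ 2) (Ψ : (Fin N → T3) → ℂ) := Db_congr hae _
  have hpot := pot_ge ht0.le hsc.W_meas hsc.W_nonneg hsc.W_bdd hD.sr.bm hD.sr.even hD.k_bm
    hD.k_nonneg hD.k_even hD.out h𝒱 hψ
  refine le_trans (ENNReal.ofReal_le_ofReal ?_) hpot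
  have hTV : (∑ j, ∑' k : Fin N → Fin 3 → ℤ, ksq (k j) * ‖cf (hψ.1.toLp ψ) k‖ ^ 2)
        + (∑ j, ∑ l ∈ Finset.univ.erase j,
            (inner ℂ (hψ.1.toLp ψ) (HP h j l (Phi t j l (hψ.1.toLp ψ)))).re)
        - 1 / 2 * ∑ j, ∑ l ∈ Finset.univ.erase j,
            qf (fun x => k (x j - x l)) (Phi t j l (hψ.1.toLp ψ)) = TV t h k Ψ := rfl
  rw [hTV, hDm, hDb]
  have hsimp : ∀ p, ksq p + (Es b lam l p - ksq p) = Es b lam l p := fun p => by ring
  simp only [hsimp] at key1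
  linarith

end Pool.Agent.Lib.MP_4952d6_mp.O

end

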