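import Pool.Agent.Lib.MP_4952d6_mp.Po.N01
import Pool.Agent.Lib.MP_4952d6_mp.Po.N05

/-! Merged modules (to save import time): O.WJ1. -/

/-! ### O.WJ1 -/

section

/-! # O.WJ1: the symbol `Es`

`Es b lam l p = ksq p + lam (1 - exp (-(b l² ksq p))) / l²` (`Es_eq`, `l ≠ 0`). `|1 - exp (-y)| ≤ y` for `y ≥ 0` gives `Es_ge`, `Es_le`.
`exp_avg`: `P = ksq p`, `Q = ksq n`, `ksq (p ± n) = P + Q ± c` with `c = 8 π² Σ p_α n_α`, `c² ≤ 4 P Q` (Cauchy-Schwarz). Half of the sum of the two exponentials is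
`exp (-β (P+Q)) cosh (β c)`. Lower bound: `≥ exp (-β P) exp (-β Q) ≥ exp (-β P) - β Q`. Upper bound: `cosh (β c) ≤ exp (β² c²/2) ≤ exp (2 (β P)(β Q))` (`Real.cosh_le_exp_half_sq`), so with
`y = 2 (βP)(βQ) - βQ`: it is at most `exp (-βP) exp y`; if `y ≤ 0` done; else `exp y - 1 ≤ y exp y ≤ 2 (βP)(βQ) exp (βP/2)` (`βQ ≤ 1/4`), and `x exp (-x/2) ≤ 1` for `x ≥ 0`: `≤ 2 βQ`.
`Es_avg`: `Σ_n th n ² Es (p+n) = (1/2) Σ_n th n ² (Es (p+n) + Es (p-n))` (`n ↦ -n`: `bx_neg`, `th_neg`), `ksq (p+n) + ksq (p-n) = 2 ksq p + 2 ksq n`, so by `exp_avg` with `β = b l²`: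
`≤ Es p + Σ_n th n ² ksq n (1 + 2 |lam| b) ≤ Es p + (5/4) 12 π² M²`, `ksq n ≤ 12 π² M²` on the box, `Σ th² = 1`, `15 π² ≤ 150`.
`summable_Es`: `et² ≤ 1`, `Es ≤ (9/8) ksq`, and `et t p ^ 2 * ksq p` is bounded (`x exp (-x) ≤ 1`, `Mul_et_sq`), `summable_nk`. -/

set_option autoImplicit false
set_option linter.unusedSectionVars false
set_option linter.unusedVariables false
open MeasureTheory Function Filter Topology Set ComplexConjugate

namespace Pool.Agent.Lib.MP_4952d6_mp.O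

open LB

lemma Es_eq {b lam l : ℝ} (hl : 0 < l) (p : Fin 3 → ℤ) :
    Es b lam l p = ksq p + lam * (1 - Real.exp (-(b * l ^ 2 * ksq p))) / l ^ 2 := by
  unfold Es eO
  have e : b * (l ^ 2 * ksq p) = b * l ^ 2 * ksq p := by ring
  rw [e]
  have hl2 : l ^ 2 ≠ 0 := by positivity
  field_simp

lemma one_sub_exp_bd {y : ℝ} (hy : 0 ≤ y) : 0 ≤ 1 - Real.exp (-y) ∧ 1 - Real.exp (-y) ≤ y := by
  constructor
  · have : Real.exp (-y) ≤ 1 := Real.exp_le_one_iff.2 (by linarith)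
    linarith
  · have := Real.add_one_le_exp (-y)
    linarith

lemma Es_abs {b lam l : ℝ} (hb : 0 < b) (hlb : |lam| * b ≤ 1 / 8) (hl : 0 < l) (p : Fin 3 → ℤ) :
    |lam * (1 - Real.exp (-(b * l ^ 2 * ksq p))) / l ^ 2| ≤ 1 / 8 * ksq p := by
  have hk := ksq_nonneg p
  have hy : 0 ≤ b * l ^ 2 * ksq p := by positivity
  obtain ⟨h0, h1⟩ := one_sub_exp_bd hy
  have hl2 : 0 < l ^ 2 := by positivity
  rw [abs_div, abs_mul, abs_of_nonneg h0, abs_of_pos hl2, div_le_iff₀ hl2]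
  calc |lam| * (1 - Real.exp (-(b * l ^ 2 * ksq p))) ≤ |lam| * (b * l ^ 2 * ksq p) := by
        gcongr
    _ = (|lam| * b) * (l ^ 2 * ksq p) := by ring
    _ ≤ 1 / 8 * (l ^ 2 * ksq p) := by gcongr
    _ = 1 / 8 * ksq p * l ^ 2 := by ring

lemma Es_ge {b lam l : ℝ} (hb : 0 < b) (hlb : |lam| * b ≤ 1 / 8) (hl : 0 < l) (p : Fin 3 → ℤ) :
    7 / 8 * ksq p ≤ Es b lam l p := by
  rw [Es_eq hl]
  have := (abs_le.1 (Es_abs hb hlb hl p)).1
  linarith

lemma Es_le {b lam l : ℝ} (hb : 0 < b) (hlb : |lam| * b ≤ 1 / 8) (hl : 0 < l) (p : Fin 3 → ℤ) :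
    Es b lam l p ≤ 9 / 8 * ksq p := by
  rw [Es_eq hl]
  have := (abs_le.1 (Es_abs hb hlb hl p)).2
  linarith

lemma Es_nonneg {b lam l : ℝ} (hb : 0 < b) (hlb : |lam| * b ≤ 1 / 8) (hl : 0 < l)
    (p : Fin 3 → ℤ) : 0 ≤ Es b lam l p := by
  have h1 := Es_ge hb hlb hl p
  have h2 := ksq_nonneg p
  linarith

lemma Es_pos {b lam l : ℝ} (hb : 0 < b) (hlb : |lam| * b ≤ 1 / 8) (hl : 0 < l)
    {p : Fin 3 → ℤ} (hp : p ≠ 0) : 0 < Es b lam l p := by
  have h1 := Es_ge hb hlb hl p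
  have h2 := ksq_pos hp
  linarith

lemma Es_neg (b lam l : ℝ) (p : Fin 3 → ℤ) : Es b lam l (-p) = Es b lam l p := by
  unfold Es
  rw [ksq_neg]

lemma ksq_eq3 (p : Fin 3 → ℤ) :
    ksq p = 4 * Real.pi ^ 2 * ((p 0 : ℝ) ^ 2 + (p 1 : ℝ) ^ 2 + (p 2 : ℝ) ^ 2) := by
  unfold ksq mom2
  rw [Fin.sum_univ_three]

lemma ksq_bx {M : ℕ} {n : Fin 3 → ℤ} (hn : n ∈ bx M) : ksq n ≤ 12 * Real.pi ^ 2 * (M : ℝ) ^ 2 := by
  rw [mem_bx] at hn
  have h : ∀ α, (n α : ℝ) ^ 2 ≤ (M : ℝ) ^ 2 := by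
    intro α
    have h1 : |(n α : ℝ)| ≤ (M : ℝ) := by
      have := hn α
      exact_mod_cast this
    have h2 : |(n α : ℝ)| ≤ |(M : ℝ)| := by
      rwa [abs_of_nonneg (Nat.cast_nonneg M : (0:ℝ) ≤ (M : ℝ))]
    exact sq_le_sq.2 h2
  rw [ksq_eq3]
  have hpi : 0 ≤ 4 * Real.pi ^ 2 := by positivity
  have h3 : (n 0 : ℝ) ^ 2 + (n 1 : ℝ) ^ 2 + (n 2 : ℝ) ^ 2 ≤ 3 * (M : ℝ) ^ 2 := by
    linarith [h 0, h 1, h 2]
  calc 4 * Real.pi ^ 2 * ((n 0 : ℝ) ^ 2 + (n 1 : ℝ) ^ 2 + (n 2 : ℝ) ^ 2)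
      ≤ 4 * Real.pi ^ 2 * (3 * (M : ℝ) ^ 2) := by gcongr
    _ = _ := by ring

/-- Inner product of two momenta (times `8 π²`). -/
noncomputable def cpn (p n : Fin 3 → ℤ) : ℝ :=
  8 * Real.pi ^ 2 * ((p 0 : ℝ) * n 0 + (p 1 : ℝ) * n 1 + (p 2 : ℝ) * n 2)

lemma ksq_add_cpn (p n : Fin 3 → ℤ) : ksq (p + n) = ksq p + ksq n + cpn p n := by
  rw [ksq_eq3, ksq_eq3, ksq_eq3]
  unfold cpn
  simp only [Pi.add_apply, Int.cast_add]
  ring

lemma ksq_sub_cpn (p n : Fin 3 → ℤ) : ksq (p - n) = ksq p + ksq n - cpn p n := by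
  rw [ksq_eq3, ksq_eq3, ksq_eq3]
  unfold cpn
  simp only [Pi.sub_apply, Int.cast_sub]
  ring

lemma cpn_sq_le (p n : Fin 3 → ℤ) : cpn p n ^ 2 ≤ 4 * (ksq p * ksq n) := by
  rw [ksq_eq3, ksq_eq3]
  unfold cpn
  have key : ((p 0 : ℝ) * n 0 + (p 1 : ℝ) * n 1 + (p 2 : ℝ) * n 2) ^ 2
      ≤ ((p 0 : ℝ) ^ 2 + (p 1 : ℝ) ^ 2 + (p 2 : ℝ) ^ 2) * ((n 0 : ℝ) ^ 2 + (n 1 : ℝ) ^ 2 + (n 2 : ℝ) ^ 2) := by
    nlinarith [sq_nonneg ((p 0 : ℝ) * n 1 - (p 1 : ℝ) * n 0), sq_nonneg ((p 0 : ℝ) * n 2 - (p 2 : ℝ) * n 0),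
      sq_nonneg ((p 1 : ℝ) * n 2 - (p 2 : ℝ) * n 1)]
  have hpi : 0 ≤ 64 * Real.pi ^ 4 := by positivity
  nlinarith [mul_le_mul_of_nonneg_left key hpi]

lemma mul_exp_half_le_one {x : ℝ} (hx : 0 ≤ x) : x * Real.exp (-x / 2) ≤ 1 := by
  have h1 : x / 4 + 1 ≤ Real.exp (x / 4) := Real.add_one_le_exp _
  have h2 : x ≤ Real.exp (x / 2) := by
    have e : Real.exp (x / 2) = Real.exp (x / 4) ^ 2 := by
      rw [← Real.exp_nat_mul]
      congr 1
      push_cast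
      ring
    rw [e]
    nlinarith [sq_nonneg (x / 4 - 1)]
  have h3 : Real.exp (-x / 2) * Real.exp (x / 2) = 1 := by
    rw [← Real.exp_add]
    simp [neg_div]
  calc x * Real.exp (-x / 2) ≤ Real.exp (x / 2) * Real.exp (-x / 2) := by
        have := Real.exp_pos (-x / 2)
        gcongr
    _ = 1 := by rw [mul_comm]; exact h3

theorem exp_avg {β : ℝ} (hβ : 0 ≤ β) (p n : Fin 3 → ℤ) (hn : β * ksq n ≤ 1 / 4) :
    |1 / 2 * (Real.exp (-(β * ksq (p + n))) + Real.exp (-(β * ksq (p - n))))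
      - Real.exp (-(β * ksq p))| ≤ 2 * (β * ksq n) := by
  rw [ksq_add_cpn, ksq_sub_cpn]
  have hc := cpn_sq_le p n
  set P := ksq p with hP
  set Q := ksq n with hQ
  set c := cpn p n with hc'
  have hP0 : 0 ≤ P := ksq_nonneg p
  have hQ0 : 0 ≤ Q := ksq_nonneg n
  have e1 : 1 / 2 * (Real.exp (-(β * (P + Q + c))) + Real.exp (-(β * (P + Q - c))))
      = Real.exp (-(β * P)) * Real.exp (-(β * Q)) * Real.cosh (β * c) := by
    rw [Real.cosh_eq]
    have a1 : Real.exp (-(β * (P + Q + c))) = Real.exp (-(β * P)) * Real.exp (-(β * Q)) * Real.exp (-(β * c)) := by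
      rw [← Real.exp_add, ← Real.exp_add]; congr 1; ring
    have a2 : Real.exp (-(β * (P + Q - c))) = Real.exp (-(β * P)) * Real.exp (-(β * Q)) * Real.exp (β * c) := by
      rw [← Real.exp_add, ← Real.exp_add]; congr 1; ring
    rw [a1, a2]
    ring
  rw [e1]
  set x := β * P with hx
  set y := β * Q with hy
  have hx0 : 0 ≤ x := by positivity
  have hy0 : 0 ≤ y := by positivity
  have hex1 : Real.exp (-x) ≤ 1 := Real.exp_le_one_iff.2 (by linarith)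
  have hexp : 0 < Real.exp (-x) := Real.exp_pos _
  have heyp : 0 < Real.exp (-y) := Real.exp_pos _
  have hey1 : Real.exp (-y) ≤ 1 := Real.exp_le_one_iff.2 (by linarith)
  have hch1 : 1 ≤ Real.cosh (β * c) := Real.one_le_cosh _
  have hch2 : Real.cosh (β * c) ≤ Real.exp (2 * (x * y)) := by
    refine (Real.cosh_le_exp_half_sq _).trans (Real.exp_le_exp.2 ?_)
    have : (β * c) ^ 2 ≤ 4 * (x * y) := by
      have h1 : (β * c) ^ 2 = β ^ 2 * c ^ 2 := by ring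
      have h2 : 4 * (x * y) = β ^ 2 * (4 * (P * Q)) := by rw [hx, hy]; ring
      rw [h1, h2]
      gcongr
    linarith
  rw [abs_le]
  constructor
  · -- lower bound
    have h1 : 1 - y ≤ Real.exp (-y) := by
      have := Real.add_one_le_exp (-y); linarith
    have h2 : Real.exp (-x) * Real.exp (-y) ≤ Real.exp (-x) * Real.exp (-y) * Real.cosh (β * c) := by
      have : 0 ≤ Real.exp (-x) * Real.exp (-y) := by positivity
      nlinarith
    have h3 : Real.exp (-x) * (1 - y) ≤ Real.exp (-x) * Real.exp (-y) := by gcongr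
    nlinarith
  · -- upper bound
    have h1 : Real.exp (-x) * Real.exp (-y) * Real.cosh (β * c)
        ≤ Real.exp (-x) * Real.exp (2 * (x * y) - y) := by
      have e : Real.exp (2 * (x * y) - y) = Real.exp (-y) * Real.exp (2 * (x * y)) := by
        rw [← Real.exp_add]; congr 1; ring
      rw [e, mul_assoc]
      gcongr
    set w := 2 * (x * y) - y with hw
    rcases le_or_gt w 0 with hw0 | hw0
    · have : Real.exp w ≤ 1 := Real.exp_le_one_iff.2 hw0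
      have h2 : Real.exp (-x) * Real.exp w ≤ Real.exp (-x) := by nlinarith
      linarith
    · have h2 : Real.exp w - 1 ≤ w * Real.exp w := by
        have := Real.add_one_le_exp (-w)
        have h3 : Real.exp (-w) * Real.exp w = 1 := by rw [← Real.exp_add]; simp
        nlinarith [Real.exp_pos w]
      have hw1 : w ≤ 2 * (x * y) := by linarith
      have hw2 : w ≤ x / 2 := by
        have : x * y ≤ x * (1 / 4) := by gcongr
        linarith
      have h3 : w * Real.exp w ≤ 2 * (x * y) * Real.exp (x / 2) := by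
        have : Real.exp w ≤ Real.exp (x / 2) := Real.exp_le_exp.2 hw2
        gcongr
      have h4 : Real.exp (-x) * (w * Real.exp w) ≤ 2 * y * (x * Real.exp (-x / 2)) := by
        calc Real.exp (-x) * (w * Real.exp w) ≤ Real.exp (-x) * (2 * (x * y) * Real.exp (x / 2)) := by
              gcongr
          _ = 2 * y * (x * (Real.exp (-x) * Real.exp (x / 2))) := by ring
          _ = 2 * y * (x * Real.exp (-x / 2)) := by
              rw [← Real.exp_add]; congr 3; ring_nf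
      have h5 := mul_exp_half_le_one hx0
      have h6 : 2 * y * (x * Real.exp (-x / 2)) ≤ 2 * y * 1 := by gcongr
      have h7 : Real.exp (-x) * Real.exp w - Real.exp (-x) ≤ Real.exp (-x) * (w * Real.exp w) := by
        nlinarith
      linarith

theorem Es_avg {b lam l : ℝ} (hb : 0 < b) (hlb : |lam| * b ≤ 1 / 8) (hl : 0 < l) {M : ℕ}
    (hM : 1 ≤ M) (hbM : b * l ^ 2 * (480 * (M : ℝ) ^ 2) ≤ 1) (p : Fin 3 → ℤ) :
    ∑ n ∈ bx M, th M n ^ 2 * Es b lam l (p + n) ≤ Es b lam l p + 150 * (M : ℝ) ^ 2 := by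
  have hpi2 : Real.pi ^ 2 ≤ 10 := by
    have := Real.pi_lt_d2
    nlinarith [Real.pi_pos]
  have hl2 : 0 < l ^ 2 := by positivity
  -- symmetrization
  have hsym : ∑ n ∈ bx M, th M n ^ 2 * Es b lam l (p + n)
      = ∑ n ∈ bx M, th M n ^ 2 * Es b lam l (p - n) := by
    refine Finset.sum_nbij' (fun n => -n) (fun n => -n) ?_ ?_ ?_ ?_ ?_
    · intro n hn; exact bx_neg.2 hn
    · intro n hn; exact bx_neg.2 hn
    · intro n _; simp
    · intro n _; simp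
    · intro n _
      simp only [th_neg, sub_neg_eq_add]
  have hhalf : ∑ n ∈ bx M, th M n ^ 2 * Es b lam l (p + n)
      = ∑ n ∈ bx M, th M n ^ 2 * (1 / 2 * (Es b lam l (p + n) + Es b lam l (p - n))) := by
    have : ∑ n ∈ bx M, th M n ^ 2 * (1 / 2 * (Es b lam l (p + n) + Es b lam l (p - n)))
        = 1 / 2 * ∑ n ∈ bx M, th M n ^ 2 * Es b lam l (p + n)
          + 1 / 2 * ∑ n ∈ bx M, th M n ^ 2 * Es b lam l (p - n) := by
      rw [Finset.mul_sum, Finset.mul_sum, ← Finset.sum_add_distrib]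
      refine Finset.sum_congr rfl fun n _ => ?_
      ring
    rw [this, ← hsym]
    ring
  rw [hhalf]
  have hpt : ∀ n ∈ bx M, 1 / 2 * (Es b lam l (p + n) + Es b lam l (p - n))
      ≤ Es b lam l p + 150 * (M : ℝ) ^ 2 := by
    intro n hn
    have hkn := ksq_bx hn
    have hkn0 := ksq_nonneg n
    have hkn' : ksq n ≤ 120 * (M : ℝ) ^ 2 := by
      have : 12 * Real.pi ^ 2 * (M : ℝ) ^ 2 ≤ 120 * (M : ℝ) ^ 2 := by
        have : 0 ≤ (M : ℝ) ^ 2 := by positivity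
        nlinarith
      linarith
    have hβ : 0 ≤ b * l ^ 2 := by positivity
    have hn4 : b * l ^ 2 * ksq n ≤ 1 / 4 := by
      have : b * l ^ 2 * ksq n ≤ b * l ^ 2 * (120 * (M : ℝ) ^ 2) := by gcongr
      nlinarith
    have hav := exp_avg hβ p n hn4
    rw [Es_eq hl, Es_eq hl, Es_eq hl, ksq_add_cpn, ksq_sub_cpn]
    rw [ksq_add_cpn, ksq_sub_cpn] at hav
    set c := cpn p n
    set P := ksq p
    set Q := ksq n
    set e1 := Real.exp (-(b * l ^ 2 * (P + Q + c)))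
    set e2 := Real.exp (-(b * l ^ 2 * (P + Q - c)))
    set e0 := Real.exp (-(b * l ^ 2 * P))
    have h1 : 1 / 2 * (P + Q + c + lam * (1 - e1) / l ^ 2 + (P + Q - c + lam * (1 - e2) / l ^ 2))
        = P + Q + lam * (1 - e0) / l ^ 2 - lam * (1 / 2 * (e1 + e2) - e0) / l ^ 2 := by
      field_simp
      ring
    rw [h1]
    have h2 : |lam * (1 / 2 * (e1 + e2) - e0) / l ^ 2| ≤ 1 / 4 * Q := by
      rw [abs_div, abs_mul, abs_of_pos hl2, div_le_iff₀ hl2]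
      calc |lam| * |1 / 2 * (e1 + e2) - e0| ≤ |lam| * (2 * (b * l ^ 2 * Q)) := by gcongr
        _ = (|lam| * b) * (2 * (l ^ 2 * Q)) := by ring
        _ ≤ 1 / 8 * (2 * (l ^ 2 * Q)) := by gcongr
        _ = 1 / 4 * Q * l ^ 2 := by ring
    have h3 := (abs_le.1 h2).1
    nlinarith
  calc ∑ n ∈ bx M, th M n ^ 2 * (1 / 2 * (Es b lam l (p + n) + Es b lam l (p - n)))
      ≤ ∑ n ∈ bx M, th M n ^ 2 * (Es b lam l p + 150 * (M : ℝ) ^ 2) := by
        refine Finset.sum_le_sum fun n hn => ?_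
        have := hpt n hn
        have h0 : 0 ≤ th M n ^ 2 := by positivity
        exact mul_le_mul_of_nonneg_left this h0
    _ = Es b lam l p + 150 * (M : ℝ) ^ 2 := by
        rw [← Finset.sum_mul, th_sq_sum hM, one_mul]

theorem summable_Es {ι : Type*} [Fintype ι] [DecidableEq ι] {b lam l t : ℝ} (hb : 0 < b)
    (hlb : |lam| * b ≤ 1 / 8) (hl : 0 < l) (ht : 0 < t) (f : HS ι) :
    Summable fun p => et t p ^ 2 * Es b lam l p * nk f p := by
  have hnk : ∀ p, 0 ≤ nk f p := fun p => Finset.sum_nonneg fun j _ => by positivity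
  refine Summable.of_nonneg_of_le (fun p => ?_) (fun p => ?_) ((summable_nk f).mul_left (9 / 8 / t))
  · have h1 := Es_nonneg hb hlb hl p
    have h2 := hnk p
    have h3 : 0 ≤ et t p ^ 2 := by positivity
    positivity
  · have h1 := Es_le hb hlb hl p
    have h2 := hnk p
    have hk := ksq_nonneg p
    have h4 : et t p ^ 2 * ksq p ≤ 1 / t := by
      rw [Mul_et_sq, le_div_iff₀ ht]
      have h5 := Real.add_one_le_exp (t * ksq p)
      have h6 : Real.exp (-(t * ksq p)) * Real.exp (t * ksq p) = 1 := by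
        rw [← Real.exp_add]; simp
      have h7 : 0 < Real.exp (-(t * ksq p)) := Real.exp_pos _
      nlinarith
    have h3 : 0 ≤ et t p ^ 2 := by positivity
    calc et t p ^ 2 * Es b lam l p * nk f p ≤ et t p ^ 2 * (9 / 8 * ksq p) * nk f p := by
          gcongr
      _ = 9 / 8 * (et t p ^ 2 * ksq p) * nk f p := by ring
      _ ≤ 9 / 8 * (1 / t) * nk f p := by gcongr
      _ = 9 / 8 / t * nk f p := by ring

end Pool.Agent.Lib.MP_4952d6_mp.O

end

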