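import Pool.Agent.Lib.MP_4952d6_mp.Po.N25

/-! Merged modules (to save import time): O.E10c. -/

/-! ### O.E10c -/

section

/-!
# O.E10c: arithmetic of the error terms

`a = l u¹⁶⁰`, `n = 1/(l³ u¹⁶⁰)`, `H = 8 π a`, `√t = l u⁸`, `z = (√T)⁻¹ ≤ 1/l`, `M0 = cm n²`,
`MD = cm n² (D/u⁴ + u¹⁶¹ n)`, `MV = cm n (V/u + u¹⁶¹ n²)`; `X = 1/l⁵`, `n a D = D/l²`, `u⁶ a V = l u¹⁶⁶ V`.
-/

set_option autoImplicit false
set_option linter.unusedSectionVars false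
set_option linter.unusedVariables false
open MeasureTheory Function Filter Topology Set ComplexConjugate

namespace Pool.Agent.Lib.MP_4952d6_mp.O

open LB

lemma E10_pow {u : ℝ} (hu : 0 < u) (hu1 : u ≤ 1) {k : ℕ} (hk : 1 ≤ k) : u ^ k ≤ u := by
  calc u ^ k ≤ u ^ 1 := pow_le_pow_of_le_one hu.le hu1 hk
    _ = u := pow_one u

lemma E10_mono {u Z K : ℝ} (hu : 0 < u) (hu1 : u ≤ 1) (hK : 0 ≤ K) (hZ : 0 ≤ Z) {k : ℕ} (hk : 1 ≤ k) :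
    K * u ^ k * Z ≤ K * u * Z :=
  mul_le_mul_of_nonneg_right (mul_le_mul_of_nonneg_left (E10_pow hu hu1 hk) hK) hZ

section
variable {l u cm D V z : ℝ}

/-- `MD` in the variables `l`, `u` -/
noncomputable def mdE (l u cm D : ℝ) : ℝ :=
  cm * (1 / (l ^ 3 * u ^ 160)) ^ 2 * (D / u ^ 4 + u ^ 161 * (1 / (l ^ 3 * u ^ 160)))

lemma mdE_eq (hl0 : 0 < l) (hu : 0 < u) : mdE l u cm D
    = cm * (D / (l ^ 6 * u ^ 324)) + cm * (1 / (l ^ 9 * u ^ 319)) := by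
  unfold mdE
  field_simp

lemma mdE_nonneg (hl0 : 0 < l) (hu : 0 < u) (hcm : 0 ≤ cm) (hD : 0 ≤ D) : 0 ≤ mdE l u cm D := by
  unfold mdE
  positivity

/-- the mass terms -/
lemma E10_T1 (hl0 : 0 < l) (hu : 0 < u) (hu1 : u ≤ 1) (hcm : 0 ≤ cm) (hz : 0 ≤ z) (hzl : z ≤ 1 / l) :
    8 * Real.pi * (l * u ^ 160) * (cm * (1 / (l ^ 3 * u ^ 160)) ^ 2)
      * ((l * u ^ 8) ^ 2 * (8 * Real.pi * (l * u ^ 160)) * z ^ 3)
      ≤ 64 * Real.pi ^ 2 * cm * u * (1 / l ^ 5) := by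
  have h1 : z ^ 3 ≤ (1 / l) ^ 3 := pow_le_pow_left₀ hz hzl 3
  have h2 : 8 * Real.pi * (l * u ^ 160) * (cm * (1 / (l ^ 3 * u ^ 160)) ^ 2)
      * ((l * u ^ 8) ^ 2 * (8 * Real.pi * (l * u ^ 160)) * z ^ 3)
      ≤ 8 * Real.pi * (l * u ^ 160) * (cm * (1 / (l ^ 3 * u ^ 160)) ^ 2)
      * ((l * u ^ 8) ^ 2 * (8 * Real.pi * (l * u ^ 160)) * (1 / l) ^ 3) := by
    have := Real.pi_pos
    gcongr
  refine h2.trans ?_
  have h3 : 8 * Real.pi * (l * u ^ 160) * (cm * (1 / (l ^ 3 * u ^ 160)) ^ 2)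
      * ((l * u ^ 8) ^ 2 * (8 * Real.pi * (l * u ^ 160)) * (1 / l) ^ 3)
      = 64 * Real.pi ^ 2 * cm * u ^ 16 * (1 / l ^ 5) := by
    field_simp
    ring
  rw [h3]
  exact E10_mono hu hu1 (by positivity) (by positivity) (by norm_num)

lemma E10_T2 (hl0 : 0 < l) (hu : 0 < u) :
    8 * Real.pi * (l * u ^ 160) * (cm * (1 / (l ^ 3 * u ^ 160)) ^ 2)
      * (8 * Real.pi * (l * u ^ 160) / (l * u ^ 8) * (u ^ 9 + u ^ 9))
      = 128 * Real.pi ^ 2 * cm * u * (1 / l ^ 5) := by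
  field_simp
  ring

lemma E10_T3 {ε Kε : ℝ} (hl0 : 0 < l) (hu : 0 < u) (hcm : 0 ≤ cm) (hε : ε ≤ Kε * u ^ 161) :
    8 * Real.pi * (l * u ^ 160) * (cm * (1 / (l ^ 3 * u ^ 160)) ^ 2) * ε
      ≤ 8 * Real.pi * cm * Kε * u * (1 / l ^ 5) := by
  have := Real.pi_pos
  have h1 : 8 * Real.pi * (l * u ^ 160) * (cm * (1 / (l ^ 3 * u ^ 160)) ^ 2) * ε
      ≤ 8 * Real.pi * (l * u ^ 160) * (cm * (1 / (l ^ 3 * u ^ 160)) ^ 2) * (Kε * u ^ 161) :=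
    mul_le_mul_of_nonneg_left hε (by positivity)
  refine h1.trans (le_of_eq ?_)
  field_simp

/-- the difference terms -/
lemma E10_T4 (hl0 : 0 < l) (hu : 0 < u) (hu1 : u ≤ 1) (hcm : 0 ≤ cm) (hD : 0 ≤ D) :
    8 * Real.pi * (l * u ^ 160) / (1 / (l ^ 3 * u ^ 160)) * mdE l u cm D
      * (8 * Real.pi * (l * u ^ 160) / (l * u ^ 8 * u ^ 9) + u ^ 9)
      ≤ 8 * Real.pi * (8 * Real.pi + 1) * cm * u * (1 / l ^ 5 + 1 / l ^ 2 * D) := by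
  have hp := Real.pi_pos
  have h1 : 8 * Real.pi * (l * u ^ 160) / (l * u ^ 8 * u ^ 9) + u ^ 9 ≤ (8 * Real.pi + 1) * u ^ 9 := by
    have h2 : 8 * Real.pi * (l * u ^ 160) / (l * u ^ 8 * u ^ 9) = 8 * Real.pi * u ^ 143 := by
      field_simp
    rw [h2]
    have h3 : u ^ 143 ≤ u ^ 9 := pow_le_pow_of_le_one hu.le hu1 (by norm_num)
    have h4 := mul_le_mul_of_nonneg_left h3 (show 0 ≤ 8 * Real.pi by positivity)
    linarith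
  have hmd := mdE_nonneg (cm := cm) hl0 hu hcm hD
  have h5 : 8 * Real.pi * (l * u ^ 160) / (1 / (l ^ 3 * u ^ 160)) * mdE l u cm D
      * (8 * Real.pi * (l * u ^ 160) / (l * u ^ 8 * u ^ 9) + u ^ 9)
      ≤ 8 * Real.pi * (l * u ^ 160) / (1 / (l ^ 3 * u ^ 160)) * mdE l u cm D
      * ((8 * Real.pi + 1) * u ^ 9) := mul_le_mul_of_nonneg_left h1 (by positivity)
  refine h5.trans ?_
  have h6 : 8 * Real.pi * (l * u ^ 160) / (1 / (l ^ 3 * u ^ 160)) * mdE l u cm D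
      * ((8 * Real.pi + 1) * u ^ 9)
      = 8 * Real.pi * (8 * Real.pi + 1) * cm * u ^ 5 * (1 / l ^ 2 * D)
        + 8 * Real.pi * (8 * Real.pi + 1) * cm * u ^ 10 * (1 / l ^ 5) := by
    rw [mdE_eq hl0 hu]
    field_simp
  rw [h6]
  have h7 := E10_mono (Z := 1 / l ^ 2 * D) (K := 8 * Real.pi * (8 * Real.pi + 1) * cm) hu hu1
    (by positivity) (by positivity) (show 1 ≤ 5 by norm_num)
  have h8 := E10_mono (Z := 1 / l ^ 5) (K := 8 * Real.pi * (8 * Real.pi + 1) * cm) hu hu1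
    (by positivity) (by positivity) (show 1 ≤ 10 by norm_num)
  linarith

lemma E10_T5 (hl0 : 0 < l) (hu : 0 < u) (hu1 : u ≤ 1) (hcm : 0 ≤ cm) (hD : 0 ≤ D) :
    (l * u ^ 8) ^ 2 * (8 * Real.pi * (l * u ^ 160)) ^ 2 * mdE l u cm D
      ≤ 64 * Real.pi ^ 2 * cm * u * (1 / l ^ 5 + 1 / l ^ 2 * D) := by
  have hp := Real.pi_pos
  have h6 : (l * u ^ 8) ^ 2 * (8 * Real.pi * (l * u ^ 160)) ^ 2 * mdE l u cm D
      = 64 * Real.pi ^ 2 * cm * u ^ 12 * (1 / l ^ 2 * D)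
        + 64 * Real.pi ^ 2 * cm * u ^ 17 * (1 / l ^ 5) := by
    rw [mdE_eq hl0 hu]
    field_simp
    ring
  rw [h6]
  have h7 := E10_mono (Z := 1 / l ^ 2 * D) (K := 64 * Real.pi ^ 2 * cm) hu hu1
    (by positivity) (by positivity) (show 1 ≤ 12 by norm_num)
  have h8 := E10_mono (Z := 1 / l ^ 5) (K := 64 * Real.pi ^ 2 * cm) hu hu1
    (by positivity) (by positivity) (show 1 ≤ 17 by norm_num)
  linarith

lemma E10_T6 (hl0 : 0 < l) (hu : 0 < u) (hu1 : u ≤ 1) (hcm : 0 ≤ cm) (hD : 0 ≤ D) :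
    (l * u ^ 8) ^ 2 / u ^ 9 * ((8 * Real.pi * (l * u ^ 160)) ^ 2
        * ((((l * u ^ 8)⁻¹) ^ 3 / (1 / (l ^ 3 * u ^ 160)) + 1) * mdE l u cm D))
      ≤ 128 * Real.pi ^ 2 * cm * u * (1 / l ^ 5 + 1 / l ^ 2 * D) := by
  have hp := Real.pi_pos
  have hmd := mdE_nonneg (cm := cm) hl0 hu hcm hD
  have h1 : ((l * u ^ 8)⁻¹) ^ 3 / (1 / (l ^ 3 * u ^ 160)) + 1 ≤ 2 := by
    have h2 : ((l * u ^ 8)⁻¹) ^ 3 / (1 / (l ^ 3 * u ^ 160)) = u ^ 136 := by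
      field_simp
    rw [h2]
    have := pow_le_one₀ (n := 136) hu.le hu1
    linarith
  have h5 : (l * u ^ 8) ^ 2 / u ^ 9 * ((8 * Real.pi * (l * u ^ 160)) ^ 2
        * ((((l * u ^ 8)⁻¹) ^ 3 / (1 / (l ^ 3 * u ^ 160)) + 1) * mdE l u cm D))
      ≤ (l * u ^ 8) ^ 2 / u ^ 9 * ((8 * Real.pi * (l * u ^ 160)) ^ 2 * (2 * mdE l u cm D)) := by
    gcongr
  refine h5.trans ?_
  have h6 : (l * u ^ 8) ^ 2 / u ^ 9 * ((8 * Real.pi * (l * u ^ 160)) ^ 2 * (2 * mdE l u cm D))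
      = 128 * Real.pi ^ 2 * cm * u ^ 3 * (1 / l ^ 2 * D)
        + 128 * Real.pi ^ 2 * cm * u ^ 8 * (1 / l ^ 5) := by
    rw [mdE_eq hl0 hu]
    field_simp
    ring
  rw [h6]
  have h7 := E10_mono (Z := 1 / l ^ 2 * D) (K := 128 * Real.pi ^ 2 * cm) hu hu1
    (by positivity) (by positivity) (show 1 ≤ 3 by norm_num)
  have h8 := E10_mono (Z := 1 / l ^ 5) (K := 128 * Real.pi ^ 2 * cm) hu hu1
    (by positivity) (by positivity) (show 1 ≤ 8 by norm_num)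
  linarith

/-- the variance term -/
lemma E10_T7 (hl0 : 0 < l) (hu : 0 < u) (hu1 : u ≤ 1) (hcm : 0 ≤ cm) :
    (l * u ^ 8) ^ 2 / u ^ 9 * ((8 * Real.pi * (l * u ^ 160)) ^ 2
        * (cm * (1 / (l ^ 3 * u ^ 160)) * (V / u + u ^ 161 * (1 / (l ^ 3 * u ^ 160)) ^ 2)))
      ≤ 64 * Real.pi ^ 2 * cm * (u ^ 6 * (l * u ^ 160) * V) + 64 * Real.pi ^ 2 * cm * u * (1 / l ^ 5) := by
  have hp := Real.pi_pos
  have h6 : (l * u ^ 8) ^ 2 / u ^ 9 * ((8 * Real.pi * (l * u ^ 160)) ^ 2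
        * (cm * (1 / (l ^ 3 * u ^ 160)) * (V / u + u ^ 161 * (1 / (l ^ 3 * u ^ 160)) ^ 2)))
      = 64 * Real.pi ^ 2 * cm * (u ^ 6 * (l * u ^ 160) * V)
        + 64 * Real.pi ^ 2 * cm * u ^ 8 * (1 / l ^ 5) := by
    field_simp
    ring
  rw [h6]
  have h8 := E10_mono (Z := 1 / l ^ 5) (K := 64 * Real.pi ^ 2 * cm) hu hu1
    (by positivity) (by positivity) (show 1 ≤ 8 by norm_num)
  linarith

lemma E10_T8 (hl0 : 0 < l) (hu : 0 < u) (hu1 : u ≤ 1) (hz : 0 ≤ z) (hzl : z ≤ 1 / l) :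
    (l * u ^ 8) ^ 2 / u ^ 9 * ((8 * Real.pi * (l * u ^ 160)) ^ 2 * (z ^ 6 * (1 / (l ^ 3 * u ^ 160))))
      ≤ 64 * Real.pi ^ 2 * u * (1 / l ^ 5) := by
  have hp := Real.pi_pos
  have h1 : z ^ 6 ≤ (1 / l) ^ 6 := pow_le_pow_left₀ hz hzl 6
  have h5 : (l * u ^ 8) ^ 2 / u ^ 9 * ((8 * Real.pi * (l * u ^ 160)) ^ 2 * (z ^ 6 * (1 / (l ^ 3 * u ^ 160))))
      ≤ (l * u ^ 8) ^ 2 / u ^ 9 * ((8 * Real.pi * (l * u ^ 160)) ^ 2
        * ((1 / l) ^ 6 * (1 / (l ^ 3 * u ^ 160)))) := by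
    gcongr
  refine h5.trans ?_
  have h6 : (l * u ^ 8) ^ 2 / u ^ 9 * ((8 * Real.pi * (l * u ^ 160)) ^ 2
        * ((1 / l) ^ 6 * (1 / (l ^ 3 * u ^ 160)))) = 64 * Real.pi ^ 2 * u ^ 167 * (1 / l ^ 5) := by
    field_simp
    ring
  rw [h6]
  exact E10_mono hu hu1 (by positivity) (by positivity) (by norm_num)

/-- the contact terms -/
lemma E10_T9 {R θ : ℝ} (hl0 : 0 < l) (hu : 0 < u) (hu1 : u ≤ 1) (hcm : 0 ≤ cm) (hD : 0 ≤ D)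
    (hθ : 0 ≤ θ) (hR0 : 0 ≤ R) (hR : R ≤ θ * (l * u ^ 160)) :
    8 * Real.pi * (l * u ^ 160) * ((R + l * u ^ 160) / (l * u ^ 8))
      * ((u ^ 9)⁻¹ / (1 / (l ^ 3 * u ^ 160)) * mdE l u cm D
        + 1 / (u ^ 9)⁻¹ * (cm * (1 / (l ^ 3 * u ^ 160)) ^ 2))
      ≤ 16 * Real.pi * (θ + 1) * cm * u * (1 / l ^ 5 + 1 / l ^ 2 * D) := by
  have hp := Real.pi_pos
  have hmd := mdE_nonneg (cm := cm) hl0 hu hcm hD
  have h1 : (R + l * u ^ 160) / (l * u ^ 8) ≤ (θ + 1) * u ^ 152 := by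
    rw [div_le_iff₀ (by positivity)]
    calc R + l * u ^ 160 ≤ θ * (l * u ^ 160) + l * u ^ 160 := by linarith
      _ = (θ + 1) * u ^ 152 * (l * u ^ 8) := by ring
  have h5 : 8 * Real.pi * (l * u ^ 160) * ((R + l * u ^ 160) / (l * u ^ 8))
      * ((u ^ 9)⁻¹ / (1 / (l ^ 3 * u ^ 160)) * mdE l u cm D
        + 1 / (u ^ 9)⁻¹ * (cm * (1 / (l ^ 3 * u ^ 160)) ^ 2))
      ≤ 8 * Real.pi * (l * u ^ 160) * ((θ + 1) * u ^ 152)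
      * ((u ^ 9)⁻¹ / (1 / (l ^ 3 * u ^ 160)) * mdE l u cm D
        + 1 / (u ^ 9)⁻¹ * (cm * (1 / (l ^ 3 * u ^ 160)) ^ 2)) := by
    gcongr
  refine h5.trans ?_
  have h6 : 8 * Real.pi * (l * u ^ 160) * ((θ + 1) * u ^ 152)
      * ((u ^ 9)⁻¹ / (1 / (l ^ 3 * u ^ 160)) * mdE l u cm D
        + 1 / (u ^ 9)⁻¹ * (cm * (1 / (l ^ 3 * u ^ 160)) ^ 2))
      = 8 * Real.pi * (θ + 1) * cm * u ^ 139 * (1 / l ^ 2 * D)
        + 8 * Real.pi * (θ + 1) * cm * u ^ 144 * (1 / l ^ 5)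
        + 8 * Real.pi * (θ + 1) * cm * u * (1 / l ^ 5) := by
    rw [mdE_eq hl0 hu]
    field_simp
  rw [h6]
  have h7 := E10_mono (Z := 1 / l ^ 2 * D) (K := 8 * Real.pi * (θ + 1) * cm) hu hu1
    (by positivity) (by positivity) (show 1 ≤ 139 by norm_num)
  have h8 := E10_mono (Z := 1 / l ^ 5) (K := 8 * Real.pi * (θ + 1) * cm) hu hu1
    (by positivity) (by positivity) (show 1 ≤ 144 by norm_num)
  have h9 : 0 ≤ 8 * Real.pi * (θ + 1) * cm * u * (1 / l ^ 2 * D) := by positivity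
  linarith

lemma E10_T10 {R θ A₂ : ℝ} (hl0 : 0 < l) (hu : 0 < u) (hu1 : u ≤ 1) (hcm : 0 ≤ cm) (hD : 0 ≤ D)
    (hθ : 0 ≤ θ) (hR0 : 0 ≤ R) (hR : R ≤ θ * (l * u ^ 160)) (hz : 0 ≤ z) (hzl : z ≤ 1 / l)
    (hA0 : 0 ≤ A₂) (hA : A₂ ≤ 2 * u ^ 152) :
    A₂ * (8 * Real.pi * (l * u ^ 160)) * ((R + l * u ^ 160) * z)
      * (1 / (1 / (l ^ 3 * u ^ 160)) * mdE l u cm D + cm * (1 / (l ^ 3 * u ^ 160)) ^ 2)
      ≤ 32 * Real.pi * (θ + 1) * cm * u * (1 / l ^ 5 + 1 / l ^ 2 * D) := by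
  have hp := Real.pi_pos
  have hmd := mdE_nonneg (cm := cm) hl0 hu hcm hD
  have h1 : (R + l * u ^ 160) * z ≤ (θ + 1) * u ^ 160 := by
    calc (R + l * u ^ 160) * z ≤ ((θ + 1) * (l * u ^ 160)) * (1 / l) := by
          refine mul_le_mul (by linarith) hzl hz (by positivity)
      _ = (θ + 1) * u ^ 160 := by field_simp
  have h5 : A₂ * (8 * Real.pi * (l * u ^ 160)) * ((R + l * u ^ 160) * z)
      * (1 / (1 / (l ^ 3 * u ^ 160)) * mdE l u cm D + cm * (1 / (l ^ 3 * u ^ 160)) ^ 2)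
      ≤ 2 * u ^ 152 * (8 * Real.pi * (l * u ^ 160)) * ((θ + 1) * u ^ 160)
      * (1 / (1 / (l ^ 3 * u ^ 160)) * mdE l u cm D + cm * (1 / (l ^ 3 * u ^ 160)) ^ 2) := by
    gcongr
  refine h5.trans ?_
  have h6 : 2 * u ^ 152 * (8 * Real.pi * (l * u ^ 160)) * ((θ + 1) * u ^ 160)
      * (1 / (1 / (l ^ 3 * u ^ 160)) * mdE l u cm D + cm * (1 / (l ^ 3 * u ^ 160)) ^ 2)
      = 16 * Real.pi * (θ + 1) * cm * u ^ 308 * (1 / l ^ 2 * D)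
        + 16 * Real.pi * (θ + 1) * cm * u ^ 313 * (1 / l ^ 5)
        + 16 * Real.pi * (θ + 1) * cm * u ^ 152 * (1 / l ^ 5) := by
    rw [mdE_eq hl0 hu]
    field_simp
    ring
  rw [h6]
  have h7 := E10_mono (Z := 1 / l ^ 2 * D) (K := 16 * Real.pi * (θ + 1) * cm) hu hu1
    (by positivity) (by positivity) (show 1 ≤ 308 by norm_num)
  have h8 := E10_mono (Z := 1 / l ^ 5) (K := 16 * Real.pi * (θ + 1) * cm) hu hu1
    (by positivity) (by positivity) (show 1 ≤ 313 by norm_num)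
  have h9 := E10_mono (Z := 1 / l ^ 5) (K := 16 * Real.pi * (θ + 1) * cm) hu hu1
    (by positivity) (by positivity) (show 1 ≤ 152 by norm_num)
  have h10 : 0 ≤ 16 * Real.pi * (θ + 1) * cm * u * (1 / l ^ 2 * D) := by positivity
  linarith

lemma E10_T11 {A₂ cT : ℝ} (hl0 : 0 < l) (hu : 0 < u) (hu1 : u ≤ 1) (hD : 0 ≤ D)
    (hz : 0 ≤ z) (hzl : z ≤ 1 / l) (hA0 : 0 ≤ A₂) (hA : A₂ ≤ 2 * u ^ 152) (hcT0 : 0 ≤ cT)
    (hcT : cT ≤ 8 * z ^ 3) :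
    A₂ * (8 * Real.pi * (l * u ^ 160)) * (1 / (l ^ 3 * u ^ 160)) * (1 / u ^ 3 * D + cT)
      ≤ 128 * Real.pi * u * (1 / l ^ 5 + 1 / l ^ 2 * D) := by
  have hp := Real.pi_pos
  have h1 : z ^ 3 ≤ (1 / l) ^ 3 := pow_le_pow_left₀ hz hzl 3
  have h2 : cT ≤ 8 * (1 / l) ^ 3 := by linarith
  have h5 : A₂ * (8 * Real.pi * (l * u ^ 160)) * (1 / (l ^ 3 * u ^ 160)) * (1 / u ^ 3 * D + cT)
      ≤ 2 * u ^ 152 * (8 * Real.pi * (l * u ^ 160)) * (1 / (l ^ 3 * u ^ 160))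
        * (1 / u ^ 3 * D + 8 * (1 / l) ^ 3) := by
    gcongr
  refine h5.trans ?_
  have h6 : 2 * u ^ 152 * (8 * Real.pi * (l * u ^ 160)) * (1 / (l ^ 3 * u ^ 160))
        * (1 / u ^ 3 * D + 8 * (1 / l) ^ 3)
      = 16 * Real.pi * u ^ 149 * (1 / l ^ 2 * D) + 128 * Real.pi * u ^ 152 * (1 / l ^ 5) := by
    field_simp
    ring
  rw [h6]
  have h7 := E10_mono (Z := 1 / l ^ 2 * D) (K := 16 * Real.pi) hu hu1
    (by positivity) (by positivity) (show 1 ≤ 149 by norm_num)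
  have h8 := E10_mono (Z := 1 / l ^ 5) (K := 128 * Real.pi) hu hu1
    (by positivity) (by positivity) (show 1 ≤ 152 by norm_num)
  have h9 : 0 ≤ 112 * Real.pi * u * (1 / l ^ 2 * D) := by positivity
  linarith

lemma E10_T12 (hl0 : 0 < l) (hu : 0 < u) (hu1 : u ≤ 1) (hD : 0 ≤ D) :
    ((1 / (l ^ 3 * u ^ 160) * (8 * Real.pi * (l * u ^ 160)) + 8 * Real.pi / l ^ 2) ^ 2 * (l * u ^ 8) ^ 2 / u ^ 9
      + (1 / (l ^ 3 * u ^ 160) * (8 * Real.pi * (l * u ^ 160)) + 8 * Real.pi / l ^ 2) * (l * u ^ 8) ^ 2 / l ^ 2) * D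
      ≤ (256 * Real.pi ^ 2 + 16 * Real.pi) * u * (1 / l ^ 2 * D) := by
  have hp := Real.pi_pos
  have h6 : ((1 / (l ^ 3 * u ^ 160) * (8 * Real.pi * (l * u ^ 160)) + 8 * Real.pi / l ^ 2) ^ 2 * (l * u ^ 8) ^ 2 / u ^ 9
      + (1 / (l ^ 3 * u ^ 160) * (8 * Real.pi * (l * u ^ 160)) + 8 * Real.pi / l ^ 2) * (l * u ^ 8) ^ 2 / l ^ 2) * D
      = 256 * Real.pi ^ 2 * u ^ 7 * (1 / l ^ 2 * D) + 16 * Real.pi * u ^ 16 * (1 / l ^ 2 * D) := by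
    field_simp
    ring
  rw [h6]
  have h7 := E10_mono (Z := 1 / l ^ 2 * D) (K := 256 * Real.pi ^ 2) hu hu1
    (by positivity) (by positivity) (show 1 ≤ 7 by norm_num)
  have h8 := E10_mono (Z := 1 / l ^ 2 * D) (K := 16 * Real.pi) hu hu1
    (by positivity) (by positivity) (show 1 ≤ 16 by norm_num)
  linarith

/-- the error of the variance bound -/
lemma E10_T13 {Cv : ℝ} (hl0 : 0 < l) (hu : 0 < u) (hu1 : u ≤ 1) (hcm : 0 ≤ cm) (hD : 0 ≤ D)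
    (hCv : 0 ≤ Cv) (hz : 0 ≤ z) (hzl : z ≤ 1 / l) :
    u ^ 6 * (l * u ^ 160) * (2 * (1 / (l ^ 3 * u ^ 160)) * D
      + Cv * (1 / (1 / (l ^ 3 * u ^ 160)) + z ^ 3 / (1 / (l ^ 3 * u ^ 160)) ^ 2) * mdE l u cm D)
      ≤ (2 + 2 * Cv * cm) * u * (1 / l ^ 5 + 1 / l ^ 2 * D) := by
  have hmd := mdE_nonneg (cm := cm) hl0 hu hcm hD
  have h1 : z ^ 3 ≤ (1 / l) ^ 3 := pow_le_pow_left₀ hz hzl 3
  have h2 : 1 / (1 / (l ^ 3 * u ^ 160)) + z ^ 3 / (1 / (l ^ 3 * u ^ 160)) ^ 2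
      ≤ 2 * (l ^ 3 * u ^ 160) := by
    have h3 : z ^ 3 / (1 / (l ^ 3 * u ^ 160)) ^ 2 ≤ (1 / l) ^ 3 / (1 / (l ^ 3 * u ^ 160)) ^ 2 := by
      gcongr
    have h4 : (1 / l) ^ 3 / (1 / (l ^ 3 * u ^ 160)) ^ 2 = l ^ 3 * u ^ 160 * u ^ 160 := by
      field_simp
    have h5 : l ^ 3 * u ^ 160 * u ^ 160 ≤ l ^ 3 * u ^ 160 * 1 :=
      mul_le_mul_of_nonneg_left (pow_le_one₀ hu.le hu1) (by positivity)
    have h6 : 1 / (1 / (l ^ 3 * u ^ 160)) = l ^ 3 * u ^ 160 := by field_simp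
    rw [h6]
    linarith
  have h5 : u ^ 6 * (l * u ^ 160) * (2 * (1 / (l ^ 3 * u ^ 160)) * D
      + Cv * (1 / (1 / (l ^ 3 * u ^ 160)) + z ^ 3 / (1 / (l ^ 3 * u ^ 160)) ^ 2) * mdE l u cm D)
      ≤ u ^ 6 * (l * u ^ 160) * (2 * (1 / (l ^ 3 * u ^ 160)) * D
      + Cv * (2 * (l ^ 3 * u ^ 160)) * mdE l u cm D) := by
    gcongr
  refine h5.trans ?_
  have h6 : u ^ 6 * (l * u ^ 160) * (2 * (1 / (l ^ 3 * u ^ 160)) * D
      + Cv * (2 * (l ^ 3 * u ^ 160)) * mdE l u cm D)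
      = 2 * u ^ 6 * (1 / l ^ 2 * D) + 2 * Cv * cm * u ^ 2 * (1 / l ^ 2 * D)
        + 2 * Cv * cm * u ^ 7 * (1 / l ^ 5) := by
    rw [mdE_eq hl0 hu]
    field_simp
    ring
  rw [h6]
  have h7 := E10_mono (Z := 1 / l ^ 2 * D) (K := 2) hu hu1
    (by positivity) (by positivity) (show 1 ≤ 6 by norm_num)
  have h8 := E10_mono (Z := 1 / l ^ 2 * D) (K := 2 * Cv * cm) hu hu1
    (by positivity) (by positivity) (show 1 ≤ 2 by norm_num)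
  have h9 := E10_mono (Z := 1 / l ^ 5) (K := 2 * Cv * cm) hu hu1
    (by positivity) (by positivity) (show 1 ≤ 7 by norm_num)
  have h10 : 0 ≤ 2 * u * (1 / l ^ 5) := by positivity
  linarith

end

end Pool.Agent.Lib.MP_4952d6_mp.O

end

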