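import Pool.Agent.Lib.MP_4952d6_mp.Pk.G34
import Pool.Agent.Lib.MP_4952d6_mp.Po.N26

/-! Merged modules (to save import time): O.E10d. -/

/-! ### O.E10d -/

section

/-!
# O.E10d: Part A, `OEStatement`

`preO` with `t = (l u⁸)²`, `T = l²/u³`, `b = l²`, `e = th = u⁹`, `s = a²`, `c = u⁻⁹`, `H = 8 π a`,
`A₁ = 2a/√(π t/2)`, `A₂ = 2a/√(π t)`, `G = 8 π N a`; the modes by `E10_modes`, `E10_hyp`, `varO`;
the arithmetic is in `O.E10c`.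
-/

set_option autoImplicit false
set_option linter.unusedSectionVars false
set_option linter.unusedVariables false
open MeasureTheory Function Filter Topology Set ComplexConjugate

namespace Pool.Agent.Lib.MP_4952d6_mp.O

open LB

/-- the constant of Part A -/
noncomputable def KOE (Cp Cv cm θ Kε : ℝ) : ℝ :=
  Cp * (64 * Real.pi ^ 2 * cm + 128 * Real.pi ^ 2 * cm + 8 * Real.pi * cm * Kε
    + 8 * Real.pi * (8 * Real.pi + 1) * cm + 64 * Real.pi ^ 2 * cm + 128 * Real.pi ^ 2 * cm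
    + 64 * Real.pi ^ 2 * cm + 64 * Real.pi ^ 2 + 16 * Real.pi * (θ + 1) * cm
    + 32 * Real.pi * (θ + 1) * cm + 128 * Real.pi + (256 * Real.pi ^ 2 + 16 * Real.pi))
    + (Cp * (64 * Real.pi ^ 2 * cm) + 1) * (2 + 2 * Cv * cm) + 4 * Real.pi

/-- The arithmetic of Part A. `elE`, `preE` are the error terms in the final parameters. -/
lemma E10_real {l u cm D V z R θ A₂ cT ε Kε Cp Cv δ₁ KP S1 S2 S3 cH TVv PA n a : ℝ}
    (hl0 : 0 < l) (hu : 0 < u) (hu1 : u ≤ 1) (hcm : 0 ≤ cm) (hD : 0 ≤ D) (hV : 0 ≤ V)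
    (hz : 0 ≤ z) (hzl : z ≤ 1 / l) (hθ : 0 ≤ θ) (hR0 : 0 ≤ R) (hR : R ≤ θ * (l * u ^ 160))
    (hA0 : 0 ≤ A₂) (hA : A₂ ≤ 2 * u ^ 152) (hcT0 : 0 ≤ cT) (hcT : cT ≤ 8 * z ^ 3)
    (hε0 : 0 ≤ ε) (hKε : 0 ≤ Kε) (hε : ε ≤ Kε * u ^ 161) (hCp : 0 ≤ Cp) (hCv : 0 ≤ Cv)
    (hδ0 : 0 ≤ δ₁) (hδ1 : δ₁ ≤ u ^ 161) (hcH : 0 ≤ cH) (ha : a = l * u ^ 160)
    (hn : n = 1 / (l ^ 3 * u ^ 160))
    (modes : 1 / 2 * S2 + (Cp * (64 * Real.pi ^ 2 * cm) + 1) / (4 * Real.pi) * u ^ 6 * S3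
      ≤ (1 - δ₁) / 2 * S1)
    (var : V ≤ 2 * S3 + 2 * n * D + Cv * (1 / n + z ^ 3 / n ^ 2) * mdE l u cm D)
    (pre : (1 - δ₁) * (8 * Real.pi * a) / 2 * n ^ 2 + 1 / 4 * A₂ * (8 * Real.pi * a) * n ^ 2 + KP
      + (1 - δ₁) * (8 * Real.pi * a) / 2 * S1 - (1 - δ₁) * (8 * Real.pi * a) / 2 * n * cH
      - Cp * ((8 * Real.pi * a * (cm * n ^ 2) * ((l * u ^ 8) ^ 2 * (8 * Real.pi * a) * z ^ 3
            + 8 * Real.pi * a / (l * u ^ 8) * (u ^ 9 + u ^ 9) + ε)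
          + 8 * Real.pi * a / n * mdE l u cm D * (8 * Real.pi * a / (l * u ^ 8 * u ^ 9) + u ^ 9)
          + (l * u ^ 8) ^ 2 * (8 * Real.pi * a) ^ 2 * mdE l u cm D
          + (l * u ^ 8) ^ 2 / u ^ 9 * ((8 * Real.pi * a) ^ 2
            * ((((l * u ^ 8)⁻¹) ^ 3 / n + 1) * mdE l u cm D
              + cm * n * (V / u + u ^ 161 * n ^ 2) + z ^ 6 * n)))
        + (8 * Real.pi * a * ((R + a) / (l * u ^ 8)) * ((u ^ 9)⁻¹ / n * mdE l u cm D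
              + 1 / (u ^ 9)⁻¹ * (cm * n ^ 2))
          + A₂ * (8 * Real.pi * a) * ((R + a) * z) * (1 / n * mdE l u cm D + cm * n ^ 2)
          + A₂ * (8 * Real.pi * a) * n * (1 / u ^ 3 * D + cT)
          + ((n * (8 * Real.pi * a) + 8 * Real.pi / l ^ 2) ^ 2 * (l * u ^ 8) ^ 2 / u ^ 9
            + (n * (8 * Real.pi * a) + 8 * Real.pi / l ^ 2) * (l * u ^ 8) ^ 2 / l ^ 2) * D))
      ≤ TVv + PA) :
    4 * Real.pi * n ^ 2 * a + 2 * Real.pi * A₂ * a * n ^ 2 + KP + 4 * Real.pi * a * S2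
      + u ^ 6 * a * V - 4 * Real.pi * a * n * cH
      - KOE Cp Cv cm θ Kε * u * (n ^ 2 * a * u ^ 160 + n * a * D) ≤ TVv + PA := by
  have hp := Real.pi_pos
  have hX : n ^ 2 * a * u ^ 160 + n * a * D = 1 / l ^ 5 + 1 / l ^ 2 * D := by
    rw [hn, ha]
    field_simp
  have hV6 : u ^ 6 * a * V = u ^ 6 * (l * u ^ 160) * V := by rw [ha]
  rw [hX]
  -- the error terms
  have t1 := E10_T1 (cm := cm) hl0 hu hu1 hcm hz hzl
  have t2 := E10_T2 (cm := cm) hl0 hu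
  have t3 := E10_T3 (cm := cm) hl0 hu hcm hε
  have t4 := E10_T4 (cm := cm) hl0 hu hu1 hcm hD
  have t5 := E10_T5 (cm := cm) hl0 hu hu1 hcm hD
  have t6 := E10_T6 (cm := cm) hl0 hu hu1 hcm hD
  have t7 := E10_T7 (cm := cm) (V := V) hl0 hu hu1 hcm
  have t8 := E10_T8 (z := z) hl0 hu hu1 hz hzl
  have t9 := E10_T9 (cm := cm) hl0 hu hu1 hcm hD hθ hR0 hR
  have t10 := E10_T10 (cm := cm) hl0 hu hu1 hcm hD hθ hR0 hR hz hzl hA0 hA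
  have t11 := E10_T11 hl0 hu hu1 hD hz hzl hA0 hA hcT0 hcT
  have t12 := E10_T12 hl0 hu hu1 hD
  have t13 := E10_T13 (cm := cm) hl0 hu hu1 hcm hD hCv hz hzl
  rw [← ha, ← hn] at t1 t2 t3 t4 t6 t7 t8 t9 t10 t11 t12 t13
  rw [← ha] at t5
  have hXp : 0 < 1 / l ^ 5 := by positivity
  have hYp : 0 ≤ 1 / l ^ 2 * D := by positivity
  obtain ⟨X, hXX⟩ : ∃ X, X = 1 / l ^ 5 := ⟨_, rfl⟩
  obtain ⟨Y, hYY⟩ : ∃ Y, Y = 1 / l ^ 2 * D := ⟨_, rfl⟩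
  rw [← hXX] at t1 t2 t3 t4 t5 t6 t7 t8 t9 t10 t11 t13 hXp ⊢
  rw [← hYY] at t4 t5 t6 t9 t10 t11 t12 t13 hYp ⊢
  -- use `X + Y` everywhere
  have up : ∀ K : ℝ, 0 ≤ K → K * u * X ≤ K * u * (X + Y) := fun K hK =>
    mul_le_mul_of_nonneg_left (by linarith) (by positivity)
  have up' : ∀ K : ℝ, 0 ≤ K → K * u * Y ≤ K * u * (X + Y) := fun K hK =>
    mul_le_mul_of_nonneg_left (by linarith) (by positivity)
  have u1 := up (64 * Real.pi ^ 2 * cm) (by positivity)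
  have u2 := up (128 * Real.pi ^ 2 * cm) (by positivity)
  have u3 := up (8 * Real.pi * cm * Kε) (by positivity)
  have u8 := up (64 * Real.pi ^ 2) (by positivity)
  have u12 := up' (256 * Real.pi ^ 2 + 16 * Real.pi) (by positivity)
  -- the variance
  have hC0 : 0 ≤ Cp * (64 * Real.pi ^ 2 * cm) + 1 := by positivity
  obtain ⟨C0, hC00⟩ : ∃ C0, C0 = Cp * (64 * Real.pi ^ 2 * cm) + 1 := ⟨_, rfl⟩
  rw [← hC00] at hC0 modes
  have ha0 : 0 < a := by rw [ha]; positivity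
  have hn0 : 0 < n := by rw [hn]; positivity
  have v1 : u ^ 6 * a * V ≤ 2 * (u ^ 6 * a * S3) + (2 + 2 * Cv * cm) * u * (X + Y) := by
    have h1 := mul_le_mul_of_nonneg_left var (show 0 ≤ u ^ 6 * a by positivity)
    have h2 : u ^ 6 * a * (2 * S3 + 2 * n * D + Cv * (1 / n + z ^ 3 / n ^ 2) * mdE l u cm D)
        = 2 * (u ^ 6 * a * S3) + u ^ 6 * a * (2 * n * D
          + Cv * (1 / n + z ^ 3 / n ^ 2) * mdE l u cm D) := by ring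
    linarith
  have v2 := mul_le_mul_of_nonneg_left v1 hC0
  have m1 := mul_le_mul_of_nonneg_left modes (show 0 ≤ 8 * Real.pi * a by positivity)
  have m2 : 8 * Real.pi * a * (1 / 2 * S2 + C0 / (4 * Real.pi) * u ^ 6 * S3)
      = 4 * Real.pi * a * S2 + C0 * (2 * (u ^ 6 * a * S3)) := by
    field_simp
    ring
  have m3 : 8 * Real.pi * a * ((1 - δ₁) / 2 * S1) = (1 - δ₁) * (8 * Real.pi * a) / 2 * S1 := by ring
  rw [m2, m3] at m1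
  -- the terms with `δ₁`
  have d1 : δ₁ * (8 * Real.pi * a) / 2 * n ^ 2 ≤ 4 * Real.pi * u * (X + Y) := by
    have h1 : δ₁ * (8 * Real.pi * a) / 2 * n ^ 2 ≤ u ^ 161 * (8 * Real.pi * a) / 2 * n ^ 2 := by
      have h0 : 0 ≤ (8 * Real.pi * a) / 2 * n ^ 2 := by positivity
      calc δ₁ * (8 * Real.pi * a) / 2 * n ^ 2 = δ₁ * ((8 * Real.pi * a) / 2 * n ^ 2) := by ring
        _ ≤ u ^ 161 * ((8 * Real.pi * a) / 2 * n ^ 2) := mul_le_mul_of_nonneg_right hδ1 h0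
        _ = u ^ 161 * (8 * Real.pi * a) / 2 * n ^ 2 := by ring
    have h2 : u ^ 161 * (8 * Real.pi * a) / 2 * n ^ 2 = 4 * Real.pi * u * X := by
      rw [hXX, hn, ha]
      field_simp
      ring
    rw [h2] at h1
    exact h1.trans (up (4 * Real.pi) (by positivity))
  have d2 : 0 ≤ δ₁ * (8 * Real.pi * a) / 2 * n * cH := by positivity
  -- collect the errors
  have e1 : 8 * Real.pi * a * (cm * n ^ 2) * ((l * u ^ 8) ^ 2 * (8 * Real.pi * a) * z ^ 3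
            + 8 * Real.pi * a / (l * u ^ 8) * (u ^ 9 + u ^ 9) + ε)
      ≤ (64 * Real.pi ^ 2 * cm + 128 * Real.pi ^ 2 * cm + 8 * Real.pi * cm * Kε) * u * (X + Y) := by
    have h1 : 8 * Real.pi * a * (cm * n ^ 2) * ((l * u ^ 8) ^ 2 * (8 * Real.pi * a) * z ^ 3
            + 8 * Real.pi * a / (l * u ^ 8) * (u ^ 9 + u ^ 9) + ε)
        = 8 * Real.pi * a * (cm * n ^ 2) * ((l * u ^ 8) ^ 2 * (8 * Real.pi * a) * z ^ 3)
          + 8 * Real.pi * a * (cm * n ^ 2) * (8 * Real.pi * a / (l * u ^ 8) * (u ^ 9 + u ^ 9))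
          + 8 * Real.pi * a * (cm * n ^ 2) * ε := by ring
    rw [h1]
    linarith only [t1, t2, t3, u1, u2, u3]
  have e2 : (l * u ^ 8) ^ 2 / u ^ 9 * ((8 * Real.pi * a) ^ 2
            * ((((l * u ^ 8)⁻¹) ^ 3 / n + 1) * mdE l u cm D
              + cm * n * (V / u + u ^ 161 * n ^ 2) + z ^ 6 * n))
      ≤ (128 * Real.pi ^ 2 * cm + 64 * Real.pi ^ 2 * cm + 64 * Real.pi ^ 2) * u * (X + Y)
        + 64 * Real.pi ^ 2 * cm * (u ^ 6 * a * V) := by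
    have h1 : (l * u ^ 8) ^ 2 / u ^ 9 * ((8 * Real.pi * a) ^ 2
            * ((((l * u ^ 8)⁻¹) ^ 3 / n + 1) * mdE l u cm D
              + cm * n * (V / u + u ^ 161 * n ^ 2) + z ^ 6 * n))
        = (l * u ^ 8) ^ 2 / u ^ 9 * ((8 * Real.pi * a) ^ 2
            * ((((l * u ^ 8)⁻¹) ^ 3 / n + 1) * mdE l u cm D))
          + (l * u ^ 8) ^ 2 / u ^ 9 * ((8 * Real.pi * a) ^ 2
            * (cm * n * (V / u + u ^ 161 * n ^ 2)))
          + (l * u ^ 8) ^ 2 / u ^ 9 * ((8 * Real.pi * a) ^ 2 * (z ^ 6 * n)) := by ring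
    rw [h1]
    linarith only [t6, t7, t8, u1, u8]
  obtain ⟨E1, hE1⟩ : ∃ E1, E1 = 8 * Real.pi * a * (cm * n ^ 2) * ((l * u ^ 8) ^ 2 * (8 * Real.pi * a)
    * z ^ 3 + 8 * Real.pi * a / (l * u ^ 8) * (u ^ 9 + u ^ 9) + ε) := ⟨_, rfl⟩
  obtain ⟨E2, hE2⟩ : ∃ E2, E2 = (l * u ^ 8) ^ 2 / u ^ 9 * ((8 * Real.pi * a) ^ 2
            * ((((l * u ^ 8)⁻¹) ^ 3 / n + 1) * mdE l u cm D
              + cm * n * (V / u + u ^ 161 * n ^ 2) + z ^ 6 * n)) := ⟨_, rfl⟩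
  obtain ⟨E4, hE4⟩ : ∃ E4, E4 = 8 * Real.pi * a / n * mdE l u cm D
    * (8 * Real.pi * a / (l * u ^ 8 * u ^ 9) + u ^ 9) := ⟨_, rfl⟩
  obtain ⟨E5, hE5⟩ : ∃ E5, E5 = (l * u ^ 8) ^ 2 * (8 * Real.pi * a) ^ 2 * mdE l u cm D := ⟨_, rfl⟩
  obtain ⟨E9, hE9⟩ : ∃ E9, E9 = 8 * Real.pi * a * ((R + a) / (l * u ^ 8))
    * ((u ^ 9)⁻¹ / n * mdE l u cm D + 1 / (u ^ 9)⁻¹ * (cm * n ^ 2)) := ⟨_, rfl⟩
  obtain ⟨E10, hE10⟩ : ∃ E10, E10 = A₂ * (8 * Real.pi * a) * ((R + a) * z)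
    * (1 / n * mdE l u cm D + cm * n ^ 2) := ⟨_, rfl⟩
  obtain ⟨E11, hE11⟩ : ∃ E11, E11 = A₂ * (8 * Real.pi * a) * n * (1 / u ^ 3 * D + cT) := ⟨_, rfl⟩
  obtain ⟨E12, hE12⟩ : ∃ E12, E12 = ((n * (8 * Real.pi * a) + 8 * Real.pi / l ^ 2) ^ 2 * (l * u ^ 8) ^ 2
    / u ^ 9 + (n * (8 * Real.pi * a) + 8 * Real.pi / l ^ 2) * (l * u ^ 8) ^ 2 / l ^ 2) * D := ⟨_, rfl⟩
  rw [← hE1] at e1 pre
  rw [← hE2] at e2 pre
  rw [← hE4] at t4 pre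
  rw [← hE5] at t5 pre
  rw [← hE9] at t9 pre
  rw [← hE10] at t10 pre
  rw [← hE11] at t11 pre
  rw [← hE12] at t12 pre
  have hsum : (E1 + E4 + E5 + E2) + (E9 + E10 + E11 + E12)
      ≤ (64 * Real.pi ^ 2 * cm + 128 * Real.pi ^ 2 * cm + 8 * Real.pi * cm * Kε
    + 8 * Real.pi * (8 * Real.pi + 1) * cm + 64 * Real.pi ^ 2 * cm + 128 * Real.pi ^ 2 * cm
    + 64 * Real.pi ^ 2 * cm + 64 * Real.pi ^ 2 + 16 * Real.pi * (θ + 1) * cm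
    + 32 * Real.pi * (θ + 1) * cm + 128 * Real.pi + (256 * Real.pi ^ 2 + 16 * Real.pi)) * u * (X + Y)
      + 64 * Real.pi ^ 2 * cm * (u ^ 6 * a * V) := by
    linarith only [e1, e2, t4, t5, t9, t10, t11, t12, u12]
  have hsum2 := mul_le_mul_of_nonneg_left hsum hCp
  have hk : KOE Cp Cv cm θ Kε * u * (X + Y)
      = Cp * ((64 * Real.pi ^ 2 * cm + 128 * Real.pi ^ 2 * cm + 8 * Real.pi * cm * Kε
    + 8 * Real.pi * (8 * Real.pi + 1) * cm + 64 * Real.pi ^ 2 * cm + 128 * Real.pi ^ 2 * cm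
    + 64 * Real.pi ^ 2 * cm + 64 * Real.pi ^ 2 + 16 * Real.pi * (θ + 1) * cm
    + 32 * Real.pi * (θ + 1) * cm + 128 * Real.pi + (256 * Real.pi ^ 2 + 16 * Real.pi)) * u * (X + Y))
      + C0 * ((2 + 2 * Cv * cm) * u * (X + Y)) + 4 * Real.pi * u * (X + Y) := by
    rw [hC00]
    unfold KOE
    ring
  rw [hk]
  have hk2 : C0 * (u ^ 6 * a * V) = Cp * (64 * Real.pi ^ 2 * cm * (u ^ 6 * a * V)) + u ^ 6 * a * V := by
    rw [hC00]; ring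
  have hk3 : C0 * (2 * (u ^ 6 * a * S3) + (2 + 2 * Cv * cm) * u * (X + Y))
      = C0 * (2 * (u ^ 6 * a * S3)) + C0 * ((2 + 2 * Cv * cm) * u * (X + Y)) := by ring
  rw [hk3, hk2] at v2
  rw [mul_add Cp _ (64 * Real.pi ^ 2 * cm * (u ^ 6 * a * V))] at hsum2
  have q1 : (1 - δ₁) * (8 * Real.pi * a) / 2 * n ^ 2
      = 4 * Real.pi * n ^ 2 * a - δ₁ * (8 * Real.pi * a) / 2 * n ^ 2 := by ring
  have q2 : (1 - δ₁) * (8 * Real.pi * a) / 2 * n * cH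
      = 4 * Real.pi * a * n * cH - δ₁ * (8 * Real.pi * a) / 2 * n * cH := by ring
  have q3 : 1 / 4 * A₂ * (8 * Real.pi * a) * n ^ 2 = 2 * Real.pi * A₂ * a * n ^ 2 := by ring
  rw [q1, q2, q3] at pre
  linarith only [pre, m1, v2, d1, d2, hsum2]

end Pool.Agent.Lib.MP_4952d6_mp.O

end

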