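import Pool.Agent.Lib.MP_4952d6_mp.Pk.G32
import Pool.Agent.Lib.MP_4952d6_mp.Pk.G42
import Pool.Agent.Lib.MP_4952d6_mp.Pk.G45
import Pool.Agent.Lib.MP_4952d6_mp.Pk.G46
import Pool.Agent.Lib.MP_4952d6_mp.Po.N01

/-! Merged modules (to save import time): O.E2, O.E3a, O.E5. -/

/-! ### O.E2 -/

section

/-!
# O.E2: completing the square (E2 of the notes)

Copy of `LB.Sqr.square_j` with `kap (2t) p = (1 - η²)/ksq` (value `t` at `p = 0`) in place of `alp`, `kap (2t) ²` in place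
of `bet` and `kap` in place of `kap'`. For `p ≠ 0` the mode inequality is `mode_ineq` (`kap (2t) p = alp t p`,
`kap (2t) p ^ 2 = bet t p`, `kap t p = kap' t p`); for `p = 0` (`ksq = 0`, `η = 1`) the right side is `0` and the left side is
`-(1/4) [ (t + 8 e t) |A|² + t Re(A* B) + (1 + 4 e)(t/2) |B|² ] ≤ 0`.

`elO1`: sum over `j` of `kin_split`, `square_jO` (with `A = bO`, `B = BO`), `cross_W` with `W = (1/2) X_j`, added to `alg1`,
`alg1_pos`; `‖X_j‖² ≤ 16 (‖W_j‖² + ‖Z_j‖² + ‖Y_j‖² + ‖U_j‖²)` (`‖PP1 t j f‖ ≤ ‖f‖`), so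
`(t/e) ‖X_j / 2‖² ≤ (4 t/e) (...)`. Model: `LB.ElA.elA`.
-/

set_option autoImplicit false
set_option linter.unusedSectionVars false
set_option linter.unusedVariables false
open MeasureTheory Function Filter Topology Set ComplexConjugate

namespace Pool.Agent.Lib.MP_4952d6_mp.O

open LB

lemma E2_et_two (t : ℝ) (p : Fin 3 → ℤ) : et (2 * t) p = et t p ^ 2 := by
  rw [Mul_et_sq]
  unfold et
  congr 1
  ring

lemma E2_kap_two {t : ℝ} {p : Fin 3 → ℤ} (hp : p ≠ 0) : kap (2 * t) p = alp t p := by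
  unfold kap alp
  rw [if_neg hp, if_neg hp, E2_et_two]

lemma E2_kap_two_sq {t : ℝ} {p : Fin 3 → ℤ} (hp : p ≠ 0) : kap (2 * t) p ^ 2 = bet t p := by
  rw [E2_kap_two hp]
  unfold alp bet
  rw [if_neg hp, if_neg hp]

lemma E2_kap {t : ℝ} {p : Fin 3 → ℤ} (hp : p ≠ 0) : kap t p = kap' t p := by
  unfold kap kap'
  rw [if_neg hp, if_neg hp]

lemma E2_bdm_kap2 {t : ℝ} (ht : 0 ≤ t) : Bdm (fun p => kap (2 * t) p ^ 2) := by
  have h := (bdm_kap (t := 2 * t) (by linarith)).mul (bdm_kap (t := 2 * t) (by linarith))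
  have e : (fun p => kap (2 * t) p ^ 2) = fun k => kap (2 * t) k * kap (2 * t) k := by
    funext p
    ring
  rw [e]
  exact h

/-- the completed square in one mode -/
theorem E2_mode {t e : ℝ} (ht : 0 < t) (he0 : 0 < e) (he : e ≤ 1 / 2) (p : Fin 3 → ℤ)
    (c a b : ℂ) :
    -(1 / 4) * ((kap (2 * t) p + 8 * e / t * kap (2 * t) p ^ 2) * ‖a‖ ^ 2
        + 2 * kap t p * (conj a * b).re + (1 + 4 * e) * kap t p * ‖b‖ ^ 2)
      ≤ ((1 - et t p ^ 2) * ksq p - 2 * e / t * (1 - et t p) ^ 2) * ‖c‖ ^ 2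
        + (conj c * (((1 - et t p ^ 2 : ℝ) : ℂ) * a + ((1 - et t p : ℝ) : ℂ) * b)).re := by
  by_cases hp : p = 0
  · subst hp
    have k1 : kap (2 * t) (0 : Fin 3 → ℤ) = t := by
      unfold kap
      rw [if_pos rfl]
      ring
    have k2 : kap t (0 : Fin 3 → ℤ) = t / 2 := by
      unfold kap
      rw [if_pos rfl]
    have hR : ((1 - et t (0 : Fin 3 → ℤ) ^ 2) * ksq 0 - 2 * e / t * (1 - et t 0) ^ 2) * ‖c‖ ^ 2
        + (conj c * (((1 - et t (0 : Fin 3 → ℤ) ^ 2 : ℝ) : ℂ) * a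
          + ((1 - et t 0 : ℝ) : ℂ) * b)).re = 0 := by
      rw [et_zero, ksq_zero]
      norm_num
    rw [hR, k1, k2]
    have h1 : -(‖a‖ * ‖b‖) ≤ (conj a * b).re := by
      have h2 : |(conj a * b).re| ≤ ‖a‖ * ‖b‖ := by
        refine (Complex.abs_re_le_norm _).trans ?_
        rw [norm_mul, Complex.norm_conj]
      exact (abs_le.1 h2).1
    have h3 : 8 * e / t * t ^ 2 = 8 * e * t := by
      field_simp
    rw [h3]
    have h4 : 0 ≤ t * (‖a‖ ^ 2 + (conj a * b).re + ‖b‖ ^ 2 / 2) := by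
      refine mul_nonneg ht.le ?_
      nlinarith [sq_nonneg (2 * ‖a‖ - ‖b‖), sq_nonneg ‖b‖]
    have h5 : 0 ≤ 8 * e * t * ‖a‖ ^ 2 := by positivity
    have h6 : 0 ≤ 4 * e * (t / 2) * ‖b‖ ^ 2 := by positivity
    nlinarith
  · rw [E2_kap_two_sq hp, E2_kap_two hp]
    have h := mode_ineq ht he0 he p c a b
    rw [← E2_kap hp] at h
    exact h

/-- Completing the square in the momentum of particle `j`. -/
theorem square_jO {N : ℕ} {t e : ℝ} (ht : 0 < t) (he0 : 0 < e) (he : e ≤ 1 / 2) (j : Fin N)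
    {ψ : HS (Fin N)}
    (hkin : Summable fun k : Fin N → Fin 3 → ℤ => ksq (k j) * ‖cf ψ k‖ ^ 2) (A B : HS (Fin N)) :
    -(1 / 4) * ((inner ℂ A (S1 (fun p => kap (2 * t) p + 8 * e / t * kap (2 * t) p ^ 2) j A)).re
        + 2 * (inner ℂ A (S1 (kap t) j B)).re
        + (1 + 4 * e) * (inner ℂ B (S1 (kap t) j B)).re)
      ≤ (∑' k : Fin N → Fin 3 → ℤ, ((1 - et t (k j) ^ 2) * ksq (k j)
            - 2 * e / t * (1 - et t (k j)) ^ 2) * ‖cf ψ k‖ ^ 2)
        + (inner ℂ ψ (S1 (fun p => 1 - et t p ^ 2) j A + QQ1 t j B)).re := by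
  have a1 := Sqr_hasSum_S1 (φ := fun p => kap (2 * t) p + 8 * e / t * kap (2 * t) p ^ 2)
    ((bdm_kap (t := 2 * t) (by linarith)).add
      ((Bdm.const (8 * e / t)).mul (E2_bdm_kap2 ht.le))) j A
  have a2 := Sqr_hasSum_S1' (bdm_kap ht.le) j A B
  have a3 := Sqr_hasSum_S1 (bdm_kap ht.le) j B
  have a4 := (((a1.add (a2.mul_left 2)).add (a3.mul_left (1 + 4 * e))).mul_left (-(1 / 4)))
  have b1 := (Sqr_summable_D (e := e) ht j hkin).hasSum
  have b2 := hasSum_inner_re ψ (S1 (fun p => 1 - et t p ^ 2) j A + QQ1 t j B)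
  refine hasSum_le (fun k => ?_) a4 (b1.add b2)
  have h := E2_mode ht he0 he (k j) (cf ψ k) (cf A k) (cf B k)
  have e2 : cf (S1 (fun p => 1 - et t p ^ 2) j A + QQ1 t j B) k =
      ((1 - et t (k j) ^ 2 : ℝ) : ℂ) * cf A k + ((1 - et t (k j) : ℝ) : ℂ) * cf B k := by
    rw [cf_add, cf_S1 (Sqr_bdm_q2 ht.le)]
    unfold QQ1
    rw [cf_S1 (Sqr_bdm_q ht.le)]
  rw [e2]
  calc _ = -(1 / 4) * ((kap (2 * t) (k j) + 8 * e / t * kap (2 * t) (k j) ^ 2) * ‖cf A k‖ ^ 2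
        + 2 * kap t (k j) * (conj (cf A k) * cf B k).re
        + (1 + 4 * e) * kap t (k j) * ‖cf B k‖ ^ 2) := by
        ring
    _ ≤ _ := h

end Pool.Agent.Lib.MP_4952d6_mp.O

end

/-! ### O.E3a -/

section

/-!
# O.E3a: kernel estimates for one pair

* `pair2`: `S1 (exp (-u ksq)) j`, `S1 (exp (-v ksq)) l` are convolutions with `hk u` in `x_j` and `hk v` in `x_l`
  (`S1_ker`): the left side is
  `Re ∫∫∫ h(x_j-x_l) conj A(x) hk u (x_j-y) hk v (x_l-z) h(y-z) B(x^{j→y,l→z}) dz dy dx`,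
  `|conj A B| ≤ (c/2) |A|² + (1/(2c)) |B|²`, and
  `∫∫ hk u (x_j-y) hk v (x_l-z) h(y-z) dz dy = cn (hk (u+v)) h (x_j-x_l) ≤ H sup hk (u+v) = H hk (u+v) 0`
  (`hk_le_zero`-type bound: `hk r z ≤ hk r 0`, from the Fourier series with positive coefficients; or from `hk_conv` and
  Cauchy-Schwarz); for the second term exchange `(x_j,x_l)` and `(y,z)`. Model: `pair_ker` (LB.Ker), used twice.
* `kap_pair2`: `kap_le_of` (time integral over `(0, t/2)`), `hk (u+v) 0 ≤ hk v 0 ≤ 8 (√v)⁻¹ ^ 3` (`WWb_hk_zero`).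
-/

set_option autoImplicit false
set_option linter.unusedSectionVars false
set_option linter.unusedVariables false
open MeasureTheory Function Filter Topology Set ComplexConjugate

namespace Pool.Agent.Lib.MP_4952d6_mp.O

open LB

variable {ι : Type*} [Fintype ι] [DecidableEq ι]

/-- the inner convolution, pointwise -/
private lemma E3a_point {w h : T3 → ℝ} (hw : BM w) (hw0 : ∀ z, 0 ≤ w z) (hwe : ∀ z, w (-z) = w z)
    (hh : BM h) (hh0 : ∀ z, 0 ≤ h z) {j l : ι} (hjl : j ≠ l) {c : ℝ} (hc : 0 < c) (B : HS ι)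
    (x : ι → T3) (hx : Integrable (fun z => ‖B (update x l z)‖ ^ 2) lam3) (a : ℝ) (ha : 0 ≤ a) :
    a * ‖cvc w l (fun x => ((h (x j - x l) : ℝ) : ℂ) * B x) x‖
      ≤ c / 2 * a ^ 2 * cn w h (x j - x l)
        + 1 / (2 * c) * ∫ z, (w (x l - z) * h (x j - z)) * ‖B (update x l z)‖ ^ 2 ∂lam3 := by
  have hK : BM (fun z : T3 => w (x l - z) * h (x j - z)) :=
    (hw.comp (measurable_sub' measurable_const measurable_id)).mul
      (hh.comp (measurable_sub' measurable_const measurable_id))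
  have hK0 : ∀ z, 0 ≤ w (x l - z) * h (x j - z) := fun z => mul_nonneg (hw0 _) (hh0 _)
  obtain ⟨C, hC⟩ := hK.2
  have i1 : Integrable (fun z => (w (x l - z) * h (x j - z)) * ‖B (update x l z)‖ ^ 2) lam3 :=
    hx.bdd_mul hK.1.aestronglyMeasurable (Eventually.of_forall hC)
  have e2 : a * ‖cvc w l (fun x => ((h (x j - x l) : ℝ) : ℂ) * B x) x‖
      ≤ ∫ z, a * ((w (x l - z) * h (x j - z)) * ‖B (update x l z)‖) ∂lam3 := by
    rw [integral_const_mul]
    refine mul_le_mul_of_nonneg_left ?_ ha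
    refine (norm_integral_le_integral_norm _).trans (le_of_eq ?_)
    refine integral_congr_ae (Eventually.of_forall fun z => ?_)
    simp only
    rw [update_self, update_of_ne hjl, norm_mul, norm_mul, Complex.norm_real, Complex.norm_real,
      Real.norm_of_nonneg (hh0 _), Real.norm_of_nonneg (hw0 _)]
    ring
  have e3 : ∫ z, a * ((w (x l - z) * h (x j - z)) * ‖B (update x l z)‖) ∂lam3
      ≤ ∫ z, (c / 2 * a ^ 2 * (w (x l - z) * h (x j - z))
        + 1 / (2 * c) * ((w (x l - z) * h (x j - z)) * ‖B (update x l z)‖ ^ 2)) ∂lam3 := by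
    refine integral_mono_of_nonneg (Eventually.of_forall fun z =>
      mul_nonneg ha (mul_nonneg (hK0 z) (norm_nonneg _)))
      (((hK.integrable _).const_mul _).add (i1.const_mul _)) (Eventually.of_forall fun z => ?_)
    simp only
    have h5 := hK0 z
    have h6 : a * ‖B (update x l z)‖ ≤ c / 2 * a ^ 2 + 1 / (2 * c) * ‖B (update x l z)‖ ^ 2 := by
      have h7 : 0 ≤ 1 / (2 * c) * (c * a - ‖B (update x l z)‖) ^ 2 :=
        mul_nonneg (by positivity) (sq_nonneg _)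
      have h8 : 1 / (2 * c) * (c * a - ‖B (update x l z)‖) ^ 2
          = c / 2 * a ^ 2 + 1 / (2 * c) * ‖B (update x l z)‖ ^ 2 - a * ‖B (update x l z)‖ := by
        field_simp
        ring
      linarith
    nlinarith [mul_le_mul_of_nonneg_left h6 h5]
  have e4 : ∫ z, w (x l - z) * h (x j - z) ∂lam3 = cn w h (x j - x l) := by
    unfold cn
    rw [← int_sub_left (fun y => w (x j - x l - y) * h y) (x j)]
    refine integral_congr_ae (Eventually.of_forall fun z => ?_)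
    simp only
    rw [show x j - x l - (x j - z) = -(x l - z) by abel, hwe]
  refine (e2.trans e3).trans (le_of_eq ?_)
  rw [integral_add ((hK.integrable _).const_mul _) (i1.const_mul _), integral_const_mul,
    integral_const_mul, e4]

private lemma E3a_core {w₁ w₂ h : T3 → ℝ} (hw₁ : BM w₁) (hw₁0 : ∀ z, 0 ≤ w₁ z)
    (hw₁e : ∀ z, w₁ (-z) = w₁ z) (hw₂ : BM w₂) (hw₂0 : ∀ z, 0 ≤ w₂ z)
    (hw₂e : ∀ z, w₂ (-z) = w₂ z) {φ₁ φ₂ : (Fin 3 → ℤ) → ℝ} (hφ₁ : Bdm φ₁) (hφ₂ : Bdm φ₂)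
    (hf₁ : ∀ p, fc3 (fun y => (w₁ y : ℂ)) p = ((φ₁ p : ℝ) : ℂ))
    (hf₂ : ∀ p, fc3 (fun y => (w₂ y : ℂ)) p = ((φ₂ p : ℝ) : ℂ))
    (hh : BM h) (hh0 : ∀ z, 0 ≤ h z) {j l : ι} (hjl : j ≠ l) {c : ℝ} (hc : 0 < c) (A B : HS ι) :
    |(inner ℂ (HP h j l A) (S1 φ₁ j (S1 φ₂ l (HP h j l B)))).re|
      ≤ c / 2 * qf (fun x => h (x j - x l) * cn w₁ (cn w₂ h) (x j - x l)) A
        + 1 / (2 * c) * qf (fun x => h (x j - x l) * cn w₂ (cn w₁ h) (x j - x l)) B := by
  have hlj := hjl.symm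
  have hmx : ∀ i : ι, Measurable (fun q : (ι → T3) × T3 => q.1 i) := fun i =>
    (measurable_pi_apply i).comp measurable_fst
  have hχ := cn_bm hw₂ hh
  have hχ0 := cn_nonneg hw₂0 hh0
  -- the inner function and its square
  obtain ⟨g, hg⟩ : ∃ g : (ι → T3) → ℂ, g = cvc w₂ l (fun x => ((h (x j - x l) : ℝ) : ℂ) * B x) :=
    ⟨_, rfl⟩
  obtain ⟨E, hE⟩ : ∃ E : (ι → T3) → ℝ, E = fun x =>
    ∫ z, (w₂ (x l - z) * h (x j - z)) * ‖B (update x l z)‖ ^ 2 ∂lam3 := ⟨_, rfl⟩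
  have hKz : BM (fun q : (ι → T3) × T3 => w₂ (q.1 l - q.2) * h (q.1 j - q.2)) :=
    (hw₂.comp (measurable_sub' (hmx l) measurable_snd)).mul
      (hh.comp (measurable_sub' (hmx j) measurable_snd))
  obtain ⟨Cz, hCz⟩ := hKz.2
  have hEint : Integrable E (piN ι) := by
    have h1 := (Ker_int hKz.1.stronglyMeasurable hCz l (integrable_norm_sq B)).integral_prod_left
    rw [hE]
    exact h1
  -- the outer kernel
  have hK : BM (fun q : (ι → T3) × T3 => h (q.1 j - q.1 l) * w₁ (q.1 j - q.2)) :=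
    (hh.comp (measurable_sub' (hmx j) (hmx l))).mul
      (hw₁.comp (measurable_sub' (hmx j) measurable_snd))
  have hK0 : ∀ q : (ι → T3) × T3, 0 ≤ h (q.1 j - q.1 l) * w₁ (q.1 j - q.2) :=
    fun q => mul_nonneg (hh0 _) (hw₁0 _)
  obtain ⟨C, hC⟩ := hK.2
  have hKi := Ker_int hK.1.stronglyMeasurable hC j hEint
  have hKs := Ker_swap hK.1.stronglyMeasurable hC j hEint
  have hcn : ∀ (f : T3 → ℝ) (a b : T3), ∫ y, w₁ (a - y) * f (y - b) ∂lam3 = cn w₁ f (a - b) := by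
    intro f a b
    unfold cn
    rw [← int_sub_right (fun y => w₁ (a - b - y) * f y) b]
    refine integral_congr_ae (Eventually.of_forall fun y => ?_)
    simp only
    rw [show a - b - (y - b) = a - y by abel]
  have hB1 : BM (fun x : ι → T3 => h (x j - x l) * cn w₁ (cn w₂ h) (x j - x l)) :=
    (bm_diff hh j l).mul (bm_diff (cn_bm hw₁ hχ) j l)
  have hint : Integrable (fun x =>
      c / 2 * ((h (x j - x l) * cn w₁ (cn w₂ h) (x j - x l)) * ‖A x‖ ^ 2)
      + 1 / (2 * c) * ∫ y, (h (x j - x l) * w₁ (x j - y)) * E (update x j y) ∂lam3) (piN ι) :=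
    ((qf_int hB1 A).const_mul _).add (hKi.integral_prod_left.const_mul _)
  have hae1 := Ker_HP_ae hh j l A
  have hae2 : (S1 φ₁ j (S1 φ₂ l (HP h j l B)) : (ι → T3) → ℂ) =ᵐ[piN ι] cvc w₁ j g := by
    have h1 := S1_ker hw₁ hφ₁ hf₁ j (S1 φ₂ l (HP h j l B))
    have h2 := (S1_ker hw₂ hφ₂ hf₂ l (HP h j l B)).trans (Ker_cvc_congr l (Ker_HP_ae hh j l B))
    rw [← hg] at h2
    exact h1.trans (Ker_cvc_congr j h2)
  have hsec : ∀ᵐ x ∂(piN ι), ∀ᵐ y ∂lam3,
      Integrable (fun z => ‖B (update (update x j y) l z)‖ ^ 2) lam3 := by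
    have h1 : ∀ᵐ q : (ι → T3) × T3 ∂((piN ι).prod lam3),
        Integrable (fun z => ‖B (update (update q.1 j q.2) l z)‖ ^ 2) lam3 :=
      (LB.mp_upd (ι := ι) j).quasiMeasurePreserving.ae (Ker_sec B l)
    exact Measure.ae_ae_of_ae_prod h1
  refine (Ker_abs_inner_le _ _ hint ?_).trans (le_of_eq ?_)
  · filter_upwards [hae1, hae2, hsec, hKi.prod_right_ae] with x h1 h2 h3 h4
    rw [h1, h2]
    have hKx : BM (fun y : T3 => (h (x j - x l) * w₁ (x j - y)) * cn w₂ h (y - x l)) :=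
      ((hK.comp (φ := fun y : T3 => (x, y)) measurable_prodMk_left)).mul
        (hχ.comp (measurable_sub' measurable_id measurable_const))
    have e1 : ‖((h (x j - x l) : ℝ) : ℂ) * A x‖ = h (x j - x l) * ‖A x‖ := by
      rw [norm_mul, Complex.norm_real, Real.norm_of_nonneg (hh0 _)]
    have e2 : ‖cvc w₁ j g x‖ ≤ ∫ y, w₁ (x j - y) * ‖g (update x j y)‖ ∂lam3 := by
      refine (norm_integral_le_integral_norm _).trans (le_of_eq ?_)
      refine integral_congr_ae (Eventually.of_forall fun y => ?_)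
      simp only
      rw [norm_mul, Complex.norm_real, Real.norm_of_nonneg (hw₁0 _)]
    have e3 : h (x j - x l) * ‖A x‖ * ∫ y, w₁ (x j - y) * ‖g (update x j y)‖ ∂lam3
        = ∫ y, (h (x j - x l) * w₁ (x j - y)) * (‖A x‖ * ‖g (update x j y)‖) ∂lam3 := by
      rw [← integral_const_mul]
      refine integral_congr_ae (Eventually.of_forall fun y => ?_)
      simp only
      ring
    have e4 : ∫ y, (h (x j - x l) * w₁ (x j - y)) * (‖A x‖ * ‖g (update x j y)‖) ∂lam3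
        ≤ ∫ y, (c / 2 * ‖A x‖ ^ 2 * ((h (x j - x l) * w₁ (x j - y)) * cn w₂ h (y - x l))
          + 1 / (2 * c) * ((h (x j - x l) * w₁ (x j - y)) * E (update x j y))) ∂lam3 := by
      refine integral_mono_of_nonneg (Eventually.of_forall fun y =>
        mul_nonneg (hK0 (x, y)) (mul_nonneg (norm_nonneg _) (norm_nonneg _)))
        (((hKx.integrable _).const_mul _).add (h4.const_mul _)) ?_
      filter_upwards [h3] with y hy
      have h5 := E3a_point hw₂ hw₂0 hw₂e hh hh0 hjl hc B (update x j y) hy ‖A x‖ (norm_nonneg _)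
      rw [← hg] at h5
      have h6 : E (update x j y) = ∫ z, (w₂ (update x j y l - z) * h (update x j y j - z))
          * ‖B (update (update x j y) l z)‖ ^ 2 ∂lam3 := by
        rw [hE]
      rw [← h6, update_self, update_of_ne hlj] at h5
      have h7 := mul_le_mul_of_nonneg_left h5 (hK0 (x, y))
      simp only at h7
      refine h7.trans (le_of_eq ?_)
      ring
    have e5 : ∫ y, (c / 2 * ‖A x‖ ^ 2 * ((h (x j - x l) * w₁ (x j - y)) * cn w₂ h (y - x l))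
          + 1 / (2 * c) * ((h (x j - x l) * w₁ (x j - y)) * E (update x j y))) ∂lam3
        = c / 2 * ((h (x j - x l) * cn w₁ (cn w₂ h) (x j - x l)) * ‖A x‖ ^ 2)
          + 1 / (2 * c) * ∫ y, (h (x j - x l) * w₁ (x j - y)) * E (update x j y) ∂lam3 := by
      rw [integral_add ((hKx.integrable _).const_mul _) (h4.const_mul _), integral_const_mul,
        integral_const_mul]
      congr 1
      have h8 : ∫ y, (h (x j - x l) * w₁ (x j - y)) * cn w₂ h (y - x l) ∂lam3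
          = h (x j - x l) * cn w₁ (cn w₂ h) (x j - x l) := by
        rw [← hcn (cn w₂ h) (x j) (x l), ← integral_const_mul]
        refine integral_congr_ae (Eventually.of_forall fun y => ?_)
        simp only
        ring
      rw [h8]
      ring
    calc ‖((h (x j - x l) : ℝ) : ℂ) * A x‖ * ‖cvc w₁ j g x‖
        ≤ h (x j - x l) * ‖A x‖ * ∫ y, w₁ (x j - y) * ‖g (update x j y)‖ ∂lam3 := by
          rw [e1]
          exact mul_le_mul_of_nonneg_left e2 (mul_nonneg (hh0 _) (norm_nonneg _))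
      _ = _ := e3
      _ ≤ _ := e4
      _ = _ := e5
  · rw [integral_add ((qf_int hB1 A).const_mul _) (hKi.integral_prod_left.const_mul _),
      integral_const_mul, integral_const_mul, hKs]
    congr 2
    -- the second swap
    have hψ := cn_bm hw₁ hh
    have hK3 : BM (fun q : (ι → T3) × T3 =>
        cn w₁ h (q.1 j - q.1 l) * (w₂ (q.1 l - q.2) * h (q.1 j - q.2))) :=
      (hψ.comp (measurable_sub' (hmx j) (hmx l))).mul hKz
    obtain ⟨C3, hC3⟩ := hK3.2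
    have hKs3 := Ker_swap hK3.1.stronglyMeasurable hC3 l (integrable_norm_sq B)
    have e6 : ∫ x, (∫ y, h (update x j y j - update x j y l) * w₁ (update x j y j - x j) ∂lam3)
          * E x ∂(piN ι)
        = ∫ x, ∫ z, (cn w₁ h (x j - x l) * (w₂ (x l - z) * h (x j - z)))
          * ‖B (update x l z)‖ ^ 2 ∂lam3 ∂(piN ι) := by
      refine integral_congr_ae (Eventually.of_forall fun x => ?_)
      simp only
      have h9 : ∫ y, h (update x j y j - update x j y l) * w₁ (update x j y j - x j) ∂lam3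
          = cn w₁ h (x j - x l) := by
        rw [← hcn h (x j) (x l)]
        refine integral_congr_ae (Eventually.of_forall fun y => ?_)
        simp only
        rw [update_self, update_of_ne hlj, ← hw₁e (y - x j), neg_sub]
        ring
      rw [h9, hE, ← integral_const_mul]
      refine integral_congr_ae (Eventually.of_forall fun z => ?_)
      simp only
      ring
    refine e6.trans (hKs3.trans ?_)
    rw [qf]
    refine integral_congr_ae (Eventually.of_forall fun x => ?_)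
    simp only
    congr 1
    unfold cn
    rw [← int_sub_left (fun y => w₂ (x j - x l - y) * ∫ y_1, w₁ (y - y_1) * h y_1 ∂lam3) (x j),
      ← integral_const_mul]
    refine integral_congr_ae (Eventually.of_forall fun z => ?_)
    simp only
    rw [update_self, update_of_ne hjl, show x j - x l - (x j - z) = z - x l by abel]
    ring

/-- Two heat kernels for one pair. -/
theorem pair2 {N : ℕ} {u v H R c : ℝ} (hu : 0 < u) (hv : 0 < v) (hc : 0 < c) {h : T3 → ℝ}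
    (hh : SR H R h) {j l : Fin N} (hjl : j ≠ l) (A B : HS (Fin N)) :
    |(inner ℂ (HP h j l A) (S1 (fun p => Real.exp (-(u * ksq p))) j
        (S1 (fun p => Real.exp (-(v * ksq p))) l (HP h j l B)))).re|
      ≤ H * hk (u + v) 0 * (c / 2 * qf (fun x => h (x j - x l)) A
        + 1 / (2 * c) * qf (fun x => h (x j - x l)) B) := by
  have h1 := E3a_core (hk_bm hu) (hk_nonneg u) (hk_neg u) (hk_bm hv) (hk_nonneg v) (hk_neg v)
    (bdm_exp hu.le) (bdm_exp hv.le) (fun p => fc3_hk hu p) (fun p => fc3_hk hv p) hh.bm hh.nonneg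
    hjl hc A B
  have h2 : ∀ z, cn (hk (u + v)) h z ≤ H * hk (u + v) 0 := by
    intro z
    have h3 : BM (fun y => hk (u + v) (z - y) * h y) :=
      ((hk_bm (add_pos hu hv)).comp (measurable_sub' measurable_const measurable_id)).mul hh.bm
    calc cn (hk (u + v)) h z ≤ ∫ y, hk (u + v) 0 * h y ∂lam3 :=
          integral_mono (h3.integrable _) ((hh.bm.integrable _).const_mul _) fun y =>
            mul_le_mul_of_nonneg_right (hk_le_zero (add_pos hu hv) _) (hh.nonneg y)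
      _ = H * hk (u + v) 0 := by
        rw [integral_const_mul, hh.int, mul_comm]
  have h4 : ∀ (f : HS (Fin N)) (G : T3 → ℝ), BM G → (∀ z, G z ≤ H * hk (u + v) 0) →
      qf (fun x => h (x j - x l) * G (x j - x l)) f
        ≤ H * hk (u + v) 0 * qf (fun x => h (x j - x l)) f := by
    intro f G hG hle
    rw [← qf_smul]
    refine qf_mono ((bm_diff hh.bm j l).mul (bm_diff hG j l)) ((bm_diff hh.bm j l).const_mul _)
      (Eventually.of_forall fun x => ?_) f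
    rw [mul_comm (H * hk (u + v) 0)]
    exact mul_le_mul_of_nonneg_left (hle _) (hh.nonneg _)
  have h5 := h4 A (cn (hk u) (cn (hk v) h)) (cn_bm (hk_bm hu) (cn_bm (hk_bm hv) hh.bm))
    (fun z => by rw [cn_hk_hk hu hv hh.bm]; exact h2 z)
  have h6 := h4 B (cn (hk v) (cn (hk u) h)) (cn_bm (hk_bm hv) (cn_bm (hk_bm hu) hh.bm))
    (fun z => by rw [cn_hk_hk hv hu hh.bm, add_comm v u]; exact h2 z)
  refine h1.trans ?_
  have h7 := mul_le_mul_of_nonneg_left h5 (half_pos hc).le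
  have h8 := mul_le_mul_of_nonneg_left h6 (show (0:ℝ) ≤ 1 / (2 * c) by positivity)
  refine (add_le_add h7 h8).trans (le_of_eq ?_)
  ring

theorem kap_pair2 : ∃ C : ℝ, 0 ≤ C ∧ ∀ (N : ℕ) (t v H R c : ℝ) (h : T3 → ℝ) (j l : Fin N), 0 < t →
    t ≤ 1 → 0 < v → v ≤ 1 → 0 < c → SR H R h → j ≠ l → ∀ A B : HS (Fin N),
    |(inner ℂ (HP h j l A) (S1 (kap t) j
        (S1 (fun p => Real.exp (-(v * ksq p))) l (HP h j l B)))).re|
      ≤ C * t * H * (Real.sqrt v)⁻¹ ^ 3 * (c * qf (fun x => h (x j - x l)) A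
        + 1 / c * qf (fun x => h (x j - x l)) B) := by
  refine ⟨2, by norm_num, ?_⟩
  intro N t v H R c h j l ht ht1 hv hv1 hc hh hjl A B
  have hH := WWb_H_nonneg hh
  have hA := qf_nonneg (fun x : Fin N → T3 => hh.nonneg (x j - x l)) A
  have hB := qf_nonneg (fun x : Fin N → T3 => hh.nonneg (x j - x l)) B
  have hsum : 0 ≤ c / 2 * qf (fun x => h (x j - x l)) A
      + 1 / (2 * c) * qf (fun x => h (x j - x l)) B := by positivity
  have h1 := kap_le_of ht j (HP h j l A) (S1 (fun p => Real.exp (-(v * ksq p))) l (HP h j l B))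
    (M := H * (8 * (Real.sqrt v)⁻¹ ^ 3) * (c / 2 * qf (fun x => h (x j - x l)) A
        + 1 / (2 * c) * qf (fun x => h (x j - x l)) B)) (fun u hu _ => by
      refine (pair2 hu hv hc hh hjl A B).trans ?_
      refine mul_le_mul_of_nonneg_right (mul_le_mul_of_nonneg_left ?_ hH) hsum
      have h2 : hk (u + v) 0 ≤ hk v 0 := by
        rw [← hk_conv hu hv 0]
        calc ∫ y, hk u (0 - y) * hk v y ∂lam3 ≤ ∫ y, hk u (0 - y) * hk v 0 ∂lam3 := by
              refine integral_mono (BM.integrable (((hk_bm hu).comp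
                (measurable_sub' measurable_const measurable_id)).mul (hk_bm hv)) _)
                (BM.integrable (((hk_bm hu).comp
                (measurable_sub' measurable_const measurable_id)).mul (BM.const _)) _) fun y => ?_
              exact mul_le_mul_of_nonneg_left (hk_le_zero hv y) (hk_nonneg _ _)
          _ = hk v 0 := by
              rw [integral_mul_const, int_sub_left, hk_integral hu, one_mul]
      exact h2.trans (WWb_hk_zero hv hv1))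
  refine h1.trans (le_of_eq ?_)
  field_simp
  ring

end Pool.Agent.Lib.MP_4952d6_mp.O

end

/-! ### O.E5 -/

section

/-!
# O.E5: off-diagonal terms (E5 of the notes), one triple `(j, l, m)` of distinct particles

Everything that acts only on `l` moves to the right, everything that acts only on `m` moves to the left, exactly as in
`BB_move`: e.g. `⟪Q^T_l h_{jl} Φ⁰_{jl}[ψ], m_j Q_m h_{jm} Φ¹_{jm}[ψ]⟫ = ⟪h_{jl} Φ⁰_{jl}[Q_m ψ], m_j h_{jm} Φ¹_{jm}[Q^T_l ψ]⟫`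
(`Q^T = QQ1 T`, `S1_symm`, `S1_comm`, `S1_HP_comm`). Then `pair_hk` and, for `G = cn (hk u) h`,
`qf (h_{jl} G_{jm}) (Phi s j l F) ≤ C H² qf (hk(8s)(x_m-x_j) hk(8s)(x_m-x_l)) F` for `u ≤ s/2` (`jensen_PP1` twice, `wt_three`);
`|PhiD|² ≤ 2 |Phi t|² + 2 |Phi T|²` (`qf_sub_le`). `q3 s F j l m` abbreviates the right side.
-/

set_option autoImplicit false
set_option linter.unusedSectionVars false
set_option linter.unusedVariables false
open MeasureTheory Function Filter Topology Set ComplexConjugate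

namespace Pool.Agent.Lib.MP_4952d6_mp.O

open LB

/-- `qf (hk s (x_m - x_j) hk s (x_m - x_l)) F` -/
noncomputable def q3 {N : ℕ} (s : ℝ) (F : HS (Fin N)) (j l m : Fin N) : ℝ :=
  qf (fun x => hk s (x m - x j) * hk s (x m - x l)) F

lemma E5_bdm {t : ℝ} (ht : 0 ≤ t) : Bdm (fun p : Fin 3 → ℤ => 1 - et t p) :=
  (Bdm.const 1).sub (bdm_et ht)

/-- Moving the `Q`'s. -/
lemma E5_move {N : ℕ} {T₁ T₂ : ℝ} (hT₁ : 0 ≤ T₁) (hT₂ : 0 ≤ T₂) {φ : (Fin 3 → ℤ) → ℝ}
    (hφ : Bdm φ) {h : T3 → ℝ} (hh : BM h) {j l m : Fin N}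
    (hjl : j ≠ l) (hjm : j ≠ m) (hlm : l ≠ m) (A B : HS (Fin N)) :
    inner ℂ (QQ1 T₁ l (HP h j l A)) (S1 φ j (QQ1 T₂ m (HP h j m B)))
      = inner ℂ (HP h j l (QQ1 T₂ m A)) (S1 φ j (HP h j m (QQ1 T₁ l B))) := by
  have hq1 := E5_bdm hT₁
  have hq2 := E5_bdm hT₂
  unfold QQ1
  rw [← S1_HP_comm hh hjl (Ne.symm hjm) (Ne.symm hlm) hq2,
    ← S1_HP_comm hh hjm (Ne.symm hjl) hlm hq1,
    S1_symm hq1 l, S1_symm hq2 m, S1_comm hq1 hφ l j, S1_comm hq1 hq2 l m,
    S1_comm hφ hq2 j m]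

lemma E5_Phi_QQ1 {N : ℕ} {t T : ℝ} (ht : 0 ≤ t) (hT : 0 ≤ T) (j l m : Fin N) (ψ : HS (Fin N)) :
    QQ1 T m (Phi t j l ψ) = Phi t j l (QQ1 T m ψ) := by
  have hq := E5_bdm hT
  refine cf_ext fun k => ?_
  unfold Phi PP1 QQ1
  simp only [cf_S1 hq, cf_S1 (bdm_et ht)]
  ring

lemma E5_PhiD_QQ1 {N : ℕ} {t T T' : ℝ} (ht : 0 ≤ t) (hT : 0 ≤ T) (hT' : 0 ≤ T') (j l m : Fin N)
    (ψ : HS (Fin N)) :
    QQ1 T' m (PhiD t T j l ψ) = PhiD t T j l (QQ1 T' m ψ) := by
  unfold PhiD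
  rw [map_sub, E5_Phi_QQ1 ht hT', E5_Phi_QQ1 hT hT']

theorem q3_Phi : ∃ C : ℝ, 0 ≤ C ∧ ∀ (N : ℕ) (u t H R : ℝ) (h : T3 → ℝ) (j l m : Fin N), 0 < u →
    u ≤ t / 2 → t ≤ 1 → SR H R h → 0 ≤ R → R ^ 2 ≤ t / 2 → j ≠ l → j ≠ m → l ≠ m →
    ∀ F : HS (Fin N), qf (fun x => h (x j - x l) * cn (hk u) h (x j - x m)) (Phi t j l F)
      ≤ C * H ^ 2 * q3 (8 * t) F j l m := by
  obtain ⟨C, hC0, hC⟩ := wt_three
  refine ⟨C, hC0, ?_⟩
  intro N u t H R h j l m hu hut ht1 hh hR hRt hjl hjm hlm F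
  have ht : 0 < t := by linarith
  have ht2 : 0 < t / 2 := by linarith
  have hb : BM (fun x : Fin N → T3 => h (x j - x l) * cn (hk u) h (x j - x m)) :=
    (bm_diff hh.bm j l).mul (bm_diff (cn_bm (hk_bm hu) hh.bm) j m)
  have hb0 : ∀ x : Fin N → T3, 0 ≤ h (x j - x l) * cn (hk u) h (x j - x m) :=
    fun x => mul_nonneg (hh.nonneg _) (cn_nonneg (hk_nonneg u) hh.nonneg _)
  rw [Phi_comm ht.le]
  have a1 := jensen_PP1 ht l hb hb0 (PP1 t j F)
  have a2 := jensen_PP1 ht j (cvj_bm (hk_bm ht2) l hb)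
    (cvj_nonneg (hk_nonneg (t / 2)) l hb0) F
  have a3 : qf (cvj (hk (t / 2)) j (cvj (hk (t / 2)) l
      (fun x => h (x j - x l) * cn (hk u) h (x j - x m)))) F ≤
      qf (fun x => C * H ^ 2 * (hk (8 * t) (x m - x j) * hk (8 * t) (x m - x l))) F := by
    refine qf_mono (cvj_bm (hk_bm ht2) j (cvj_bm (hk_bm ht2) l hb))
      (((bm_diff (hk_bm (by linarith)) m j).mul
        (bm_diff (hk_bm (by linarith)) m l)).const_mul _) (Eventually.of_forall fun x => ?_) F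
    exact hC N u t H R h j l m hu hut ht1 hh hR hRt hjl hjm hlm x
  rw [qf_smul] at a3
  exact a1.trans (a2.trans a3)

theorem off_bb : ∃ C : ℝ, 0 ≤ C ∧ ∀ (N : ℕ) (u t T H R : ℝ) (h : T3 → ℝ) (j l m : Fin N), 0 < t →
    4 * t ≤ T → T ≤ 1 → SR H R h → 0 ≤ R → R ^ 2 ≤ t / 8 → j ≠ l → j ≠ m → l ≠ m → 0 < u → u ≤ 2 * t →
    ∀ ψ : HS (Fin N),
    |(inner ℂ (QQ1 T l (HP h j l (Phi T j l ψ)))
        (S1 (fun p => Real.exp (-(u * ksq p))) j (QQ1 T m (HP h j m (Phi T j m ψ))))).re|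
      ≤ C * H ^ 2 * (q3 (8 * T) (QQ1 T m ψ) j l m + q3 (8 * T) (QQ1 T l ψ) j m l) := by
  obtain ⟨C, hC0, hC⟩ := q3_Phi
  refine ⟨C, hC0, ?_⟩
  intro N u t T H R h j l m ht htT hT1 hh hR hRt hjl hjm hlm hu hut ψ
  have hT : 0 < T := by linarith
  rw [E5_move hT.le hT.le (bdm_exp hu.le) hh.bm hjl hjm hlm, E5_Phi_QQ1 hT.le hT.le,
    E5_Phi_QQ1 hT.le hT.le]
  have h1 := pair_hk hu hh.bm hh.nonneg hh.even hjl hjm (Phi T j l (QQ1 T m ψ))
    (Phi T j m (QQ1 T l ψ))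
  have h2 := hC N u T H R h j l m hu (by linarith) hT1 hh hR (by linarith) hjl hjm hlm
    (QQ1 T m ψ)
  have h3 := hC N u T H R h j m l hu (by linarith) hT1 hh hR (by linarith) hjm hjl
    (Ne.symm hlm) (QQ1 T l ψ)
  have n1 : 0 ≤ C * H ^ 2 * q3 (8 * T) (QQ1 T m ψ) j l m := mul_nonneg (by positivity)
    (qf_nonneg (fun x => mul_nonneg (hk_nonneg _ _) (hk_nonneg _ _)) _)
  have n2 : 0 ≤ C * H ^ 2 * q3 (8 * T) (QQ1 T l ψ) j m l := mul_nonneg (by positivity)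
    (qf_nonneg (fun x => mul_nonneg (hk_nonneg _ _) (hk_nonneg _ _)) _)
  rw [mul_add]
  linarith

theorem off_bB : ∃ C : ℝ, 0 ≤ C ∧ ∀ (N : ℕ) (u t T H R : ℝ) (h : T3 → ℝ) (j l m : Fin N), 0 < t →
    4 * t ≤ T → T ≤ 1 → SR H R h → 0 ≤ R → R ^ 2 ≤ t / 8 → j ≠ l → j ≠ m → l ≠ m → 0 < u → u ≤ t / 2 →
    ∀ ψ : HS (Fin N),
    |(inner ℂ (QQ1 T l (HP h j l (Phi T j l ψ)))
        (S1 (fun p => Real.exp (-(u * ksq p))) j (QQ1 t m (HP h j m (PhiD t T j m ψ))))).re|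
      ≤ C * H ^ 2 * (q3 (8 * T) (QQ1 t m ψ) j l m
        + q3 (8 * T) (QQ1 T l ψ) j m l + q3 (8 * t) (QQ1 T l ψ) j m l) := by
  obtain ⟨C, hC0, hC⟩ := q3_Phi
  refine ⟨C, hC0, ?_⟩
  intro N u t T H R h j l m ht htT hT1 hh hR hRt hjl hjm hlm hu hut ψ
  have hT : 0 < T := by linarith
  rw [E5_move hT.le ht.le (bdm_exp hu.le) hh.bm hjl hjm hlm, E5_Phi_QQ1 hT.le ht.le,
    E5_PhiD_QQ1 ht.le hT.le hT.le]
  have h1 := pair_hk hu hh.bm hh.nonneg hh.even hjl hjm (Phi T j l (QQ1 t m ψ))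
    (PhiD t T j m (QQ1 T l ψ))
  have h2 := hC N u T H R h j l m hu (by linarith) hT1 hh hR (by linarith) hjl hjm hlm
    (QQ1 t m ψ)
  have h3 := hC N u T H R h j m l hu (by linarith) hT1 hh hR (by linarith) hjm hjl
    (Ne.symm hlm) (QQ1 T l ψ)
  have h4 := hC N u t H R h j m l hu hut (by linarith) hh hR (by linarith) hjm hjl
    (Ne.symm hlm) (QQ1 T l ψ)
  have h5 : qf (fun x => h (x j - x m) * cn (hk u) h (x j - x l)) (PhiD t T j m (QQ1 T l ψ)) ≤
      2 * qf (fun x => h (x j - x m) * cn (hk u) h (x j - x l)) (Phi t j m (QQ1 T l ψ)) +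
      2 * qf (fun x => h (x j - x m) * cn (hk u) h (x j - x l)) (Phi T j m (QQ1 T l ψ)) :=
    qf_sub_le ((bm_diff hh.bm j m).mul (bm_diff (cn_bm (hk_bm hu) hh.bm) j l))
      (fun x => mul_nonneg (hh.nonneg _) (cn_nonneg (hk_nonneg u) hh.nonneg _)) _ _
  have n1 : 0 ≤ C * H ^ 2 * q3 (8 * T) (QQ1 t m ψ) j l m := mul_nonneg (by positivity)
    (qf_nonneg (fun x => mul_nonneg (hk_nonneg _ _) (hk_nonneg _ _)) _)
  rw [mul_add, mul_add]
  linarith

theorem off_BB : ∃ C : ℝ, 0 ≤ C ∧ ∀ (N : ℕ) (u t T H R : ℝ) (h : T3 → ℝ) (j l m : Fin N), 0 < t →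
    4 * t ≤ T → T ≤ 1 → SR H R h → 0 ≤ R → R ^ 2 ≤ t / 8 → j ≠ l → j ≠ m → l ≠ m → 0 < u → u ≤ t / 2 →
    ∀ ψ : HS (Fin N),
    |(inner ℂ (QQ1 t l (HP h j l (PhiD t T j l ψ)))
        (S1 (fun p => Real.exp (-(u * ksq p))) j (QQ1 t m (HP h j m (PhiD t T j m ψ))))).re|
      ≤ C * H ^ 2 * (q3 (8 * T) (QQ1 t m ψ) j l m + q3 (8 * t) (QQ1 t m ψ) j l m
        + q3 (8 * T) (QQ1 t l ψ) j m l + q3 (8 * t) (QQ1 t l ψ) j m l) := by
  obtain ⟨C, hC0, hC⟩ := q3_Phi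
  refine ⟨C, hC0, ?_⟩
  intro N u t T H R h j l m ht htT hT1 hh hR hRt hjl hjm hlm hu hut ψ
  have hT : 0 < T := by linarith
  rw [E5_move ht.le ht.le (bdm_exp hu.le) hh.bm hjl hjm hlm, E5_PhiD_QQ1 ht.le hT.le ht.le,
    E5_PhiD_QQ1 ht.le hT.le ht.le]
  have h1 := pair_hk hu hh.bm hh.nonneg hh.even hjl hjm (PhiD t T j l (QQ1 t m ψ))
    (PhiD t T j m (QQ1 t l ψ))
  have h2 := hC N u T H R h j l m hu (by linarith) hT1 hh hR (by linarith) hjl hjm hlm
    (QQ1 t m ψ)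
  have h2' := hC N u t H R h j l m hu hut (by linarith) hh hR (by linarith) hjl hjm hlm
    (QQ1 t m ψ)
  have h3 := hC N u T H R h j m l hu (by linarith) hT1 hh hR (by linarith) hjm hjl
    (Ne.symm hlm) (QQ1 t l ψ)
  have h4 := hC N u t H R h j m l hu hut (by linarith) hh hR (by linarith) hjm hjl
    (Ne.symm hlm) (QQ1 t l ψ)
  have h5 : qf (fun x => h (x j - x m) * cn (hk u) h (x j - x l)) (PhiD t T j m (QQ1 t l ψ)) ≤
      2 * qf (fun x => h (x j - x m) * cn (hk u) h (x j - x l)) (Phi t j m (QQ1 t l ψ)) +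
      2 * qf (fun x => h (x j - x m) * cn (hk u) h (x j - x l)) (Phi T j m (QQ1 t l ψ)) :=
    qf_sub_le ((bm_diff hh.bm j m).mul (bm_diff (cn_bm (hk_bm hu) hh.bm) j l))
      (fun x => mul_nonneg (hh.nonneg _) (cn_nonneg (hk_nonneg u) hh.nonneg _)) _ _
  have h6 : qf (fun x => h (x j - x l) * cn (hk u) h (x j - x m)) (PhiD t T j l (QQ1 t m ψ)) ≤
      2 * qf (fun x => h (x j - x l) * cn (hk u) h (x j - x m)) (Phi t j l (QQ1 t m ψ)) +
      2 * qf (fun x => h (x j - x l) * cn (hk u) h (x j - x m)) (Phi T j l (QQ1 t m ψ)) :=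
    qf_sub_le ((bm_diff hh.bm j l).mul (bm_diff (cn_bm (hk_bm hu) hh.bm) j m))
      (fun x => mul_nonneg (hh.nonneg _) (cn_nonneg (hk_nonneg u) hh.nonneg _)) _ _
  rw [mul_add, mul_add, mul_add]
  linarith

end Pool.Agent.Lib.MP_4952d6_mp.O

end

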