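import Pool.Agent.Lib.MP_4952d6_mp.Pk.G32
import Pool.Agent.Lib.MP_4952d6_mp.Po.N01
import Pool.Agent.Lib.MP_4952d6_mp.Po.N03
import Pool.Agent.Lib.MP_4952d6_mp.Po.N17

/-! Merged modules (to save import time): O.E1, O.E2b, O.WH1. -/

/-! ### O.E1 -/

section

/-!
# O.E1: the pair term (E1 of the notes)

`1 - P_j P_l = (1/2) [Q_j (1 + P_l) + Q_l (1 + P_j)]`; the sum over ordered pairs is symmetric (`h` even, `Phi_comm`,
`HP` symmetric in `j`, `l` for even `h`), so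
`∑ Re⟪(1 - P_j P_l) ψ, h Φ⟫ = ∑_j Re⟪Q_j ψ, ∑_l (1 + P_l) h_{jl} Φ_{jl}⟫`
(`P_l` moves from `ψ` to the right side, `S1_symm`). Then for each `j`
`∑_l (1 + P_l) h Φ = (1 + P_j) b_j + B_j + X_j + M (1 + P_j) S_j ψ`:
`(1 + P_l) h Φ¹ = 2 P_l h Φ¹ + Q_l h Φ¹`, `(1 + P_l) h Φ⁰ = (1 + P_j) h Φ⁰ + (P_l - P_j) h Φ⁰`,
`h Φ⁰ = (1 - S_l) h Φ⁰ + S_l h Φ⁰`, `∑_l S_l h Φ⁰ = Y_j + ∑_l χ_{jl} S_j ψ = Y_j + U_j + M S_j ψ`.
Finally `⟪Q_j ψ, (1 + P_j) b_j⟫ = ⟪ψ, S1 (1 - η²) b_j⟫`, `⟪Q_j ψ, B_j⟫ = ⟪ψ, Q_j B_j⟫`. Model: `LB.Alg` (`alg_pair`, `alg_sum`).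
-/

set_option autoImplicit false
set_option linter.unusedSectionVars false
set_option linter.unusedVariables false
open MeasureTheory Function Filter Topology Set ComplexConjugate

namespace Pool.Agent.Lib.MP_4952d6_mp.O

open LB


variable {ι : Type*} [Fintype ι] [DecidableEq ι]

/-- The pair term for one pair: `1 - P_j P_l = (1/2) [Q_j (1 + P_l) + Q_l (1 + P_j)]`. -/
private lemma E1_pair {t : ℝ} (ht : 0 ≤ t) {h : T3 → ℝ} (hh : BM h) (j l : ι) (ψ : HS ι) :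
    (inner ℂ ψ (HP h j l (Phi t j l ψ))).re
      = qf (fun x => h (x j - x l)) (Phi t j l ψ)
        + 1 / 2 * (inner ℂ (QQ1 t j ψ) (HP h j l (Phi t j l ψ) + PP1 t l (HP h j l (Phi t j l ψ)))).re
        + 1 / 2 * (inner ℂ (QQ1 t l ψ)
            (HP h j l (Phi t j l ψ) + PP1 t j (HP h j l (Phi t j l ψ)))).re := by
  have he := bdm_et ht
  have hq : qf (fun x => h (x j - x l)) (Phi t j l ψ)
      = (inner ℂ ψ (PP1 t j (PP1 t l (HP h j l (Phi t j l ψ))))).re := by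
    rw [qf_eq (bm_diff hh j l)]
    congr 1
    change inner ℂ (Phi t j l ψ) (HP h j l (Phi t j l ψ)) = _
    generalize HP h j l (Phi t j l ψ) = X
    unfold Phi PP1
    rw [S1_symm he, S1_symm he, S1_comm he he]
  rw [hq]
  generalize HP h j l (Phi t j l ψ) = X
  have h1 : inner ℂ (QQ1 t j ψ) (X + PP1 t l X) = inner ℂ ψ (QQ1 t j (X + PP1 t l X)) := by
    unfold QQ1
    rw [S1_symm (alg_bdm_one_sub he)]
  have h2 : inner ℂ (QQ1 t l ψ) (X + PP1 t j X) = inner ℂ ψ (QQ1 t l (X + PP1 t j X)) := by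
    unfold QQ1
    rw [S1_symm (alg_bdm_one_sub he)]
  have h3 : X + X = PP1 t j (PP1 t l X) + PP1 t j (PP1 t l X) + QQ1 t j (X + PP1 t l X)
      + QQ1 t l (X + PP1 t j X) := by
    refine cf_ext fun k => ?_
    unfold PP1 QQ1
    simp only [cf_add, cf_S1 he, cf_S1 (alg_bdm_one_sub he)]
    push_cast
    ring
  have h4 := congrArg (fun Y => (inner ℂ ψ Y).re) h3
  simp only [inner_add_right ψ X X, inner_add_right ψ _ (QQ1 t l (X + PP1 t j X)),
    inner_add_right ψ _ (QQ1 t j (X + PP1 t l X)), inner_add_right ψ (PP1 t j (PP1 t l X)),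
    Complex.add_re] at h4
  rw [h1, h2]
  linarith

/-- Sum over the second particle of the vector `(1 + P_l) h Φ`. -/
private lemma E1_vec {t T M : ℝ} {h : T3 → ℝ} (ht : 0 ≤ t) (hT : 0 ≤ T) (ψ : HS ι) (j : ι) :
    ∑ l ∈ Finset.univ.erase j, (HP h j l (Phi t j l ψ) + PP1 t l (HP h j l (Phi t j l ψ)))
      = (bO T h ψ j + PP1 t j (bO T h ψ j)) + BO t T h ψ j + XO t T M h ψ j
        + (M : ℂ) • (PP1 T j ψ + PP1 t j (PP1 T j ψ)) := by
  have e1 : ∀ l, HP h j l (Phi t j l ψ) = HP h j l (PhiD t T j l ψ) + HP h j l (Phi T j l ψ) := by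
    intro l
    rw [← map_add]
    congr 1
    unfold PhiD
    abel
  -- the low part
  have hlow : ∑ l ∈ Finset.univ.erase j, HP h j l (Phi T j l ψ)
      = bO T h ψ j + (YO T h ψ j + UO T M h ψ j) + (M : ℂ) • PP1 T j ψ := by
    unfold bO YO UO
    rw [Finset.sum_sub_distrib]
    have e2 : ∑ l ∈ Finset.univ.erase j, HP h j l (Phi T j l ψ)
        = ∑ l ∈ Finset.univ.erase j, QQ1 T l (HP h j l (Phi T j l ψ))
          + ∑ l ∈ Finset.univ.erase j, PP1 T l (HP h j l (Phi T j l ψ)) := by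
      rw [← Finset.sum_add_distrib]
      refine Finset.sum_congr rfl fun l _ => ?_
      rw [add_comm]
      exact (PP1_add_QQ1 hT l _).symm
    rw [e2]
    abel
  have hlowP : ∑ l ∈ Finset.univ.erase j, PP1 t j (HP h j l (Phi T j l ψ))
      = PP1 t j (bO T h ψ j) + PP1 t j (YO T h ψ j + UO T M h ψ j)
        + (M : ℂ) • PP1 t j (PP1 T j ψ) := by
    rw [← map_sum, hlow, map_add, map_add, map_smul]
  have hZ : ∑ l ∈ Finset.univ.erase j, PP1 t l (HP h j l (Phi T j l ψ))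
      = ZO t T h ψ j + ∑ l ∈ Finset.univ.erase j, PP1 t j (HP h j l (Phi T j l ψ)) := by
    unfold ZO
    rw [Finset.sum_sub_distrib, sub_add_cancel]
  have hB : ∑ l ∈ Finset.univ.erase j, HP h j l (PhiD t T j l ψ) = BO t T h ψ j + WO t T h ψ j := by
    unfold BO WO
    rw [← Finset.sum_add_distrib]
    refine Finset.sum_congr rfl fun l _ => ?_
    rw [add_comm]
    exact (PP1_add_QQ1 ht l _).symm
  have hW : ∑ l ∈ Finset.univ.erase j, PP1 t l (HP h j l (PhiD t T j l ψ)) = WO t T h ψ j := rfl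
  have e3 : ∑ l ∈ Finset.univ.erase j, (HP h j l (Phi t j l ψ) + PP1 t l (HP h j l (Phi t j l ψ)))
      = (∑ l ∈ Finset.univ.erase j, HP h j l (PhiD t T j l ψ)
          + ∑ l ∈ Finset.univ.erase j, HP h j l (Phi T j l ψ))
        + (∑ l ∈ Finset.univ.erase j, PP1 t l (HP h j l (PhiD t T j l ψ))
          + ∑ l ∈ Finset.univ.erase j, PP1 t l (HP h j l (Phi T j l ψ))) := by
    rw [← Finset.sum_add_distrib, ← Finset.sum_add_distrib, ← Finset.sum_add_distrib]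
    refine Finset.sum_congr rfl fun l _ => ?_
    rw [e1 l, map_add]
  rw [e3, hB, hW, hZ, hlowP, hlow]
  unfold XO
  rw [smul_add, two_smul]
  abel

/-- The pair term. -/
theorem alg1 {N : ℕ} {t T H R M : ℝ} (ht : 0 < t) (htT : t ≤ T) {h : T3 → ℝ} (hh : SR H R h)
    (ψ : HS (Fin N)) :
    ∑ j, ∑ l ∈ Finset.univ.erase j, (inner ℂ ψ (HP h j l (Phi t j l ψ))).re
      = (∑ j, ∑ l ∈ Finset.univ.erase j, qf (fun x => h (x j - x l)) (Phi t j l ψ))
        + ∑ j, ((inner ℂ ψ (S1 (fun p => 1 - et t p ^ 2) j (bO T h ψ j)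
              + QQ1 t j (BO t T h ψ j))).re
          + (inner ℂ (QQ1 t j ψ) (XO t T M h ψ j)).re
          + M * (inner ℂ (QQ1 t j ψ) (PP1 T j ψ + PP1 t j (PP1 T j ψ))).re) := by
  have ht0 : 0 ≤ t := ht.le
  have hT0 : 0 ≤ T := ht0.trans htT
  have he := bdm_et ht0
  have hswap : ∀ F : Fin N → Fin N → ℝ, ∑ j, ∑ l ∈ Finset.univ.erase j, F j l
      = ∑ j, ∑ l ∈ Finset.univ.erase j, F l j := by
    intro F
    refine Finset.sum_comm' ?_
    intro x y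
    simp only [Finset.mem_univ, Finset.mem_erase, ne_eq, true_and, and_true]
    exact ⟨fun hh => fun e => hh e.symm, fun hh => fun e => hh e.symm⟩
  have h2 : ∑ j, ∑ l ∈ Finset.univ.erase j,
        1 / 2 * (inner ℂ (QQ1 t l ψ)
            (HP h j l (Phi t j l ψ) + PP1 t j (HP h j l (Phi t j l ψ)))).re
      = ∑ j, ∑ l ∈ Finset.univ.erase j,
        1 / 2 * (inner ℂ (QQ1 t j ψ)
            (HP h j l (Phi t j l ψ) + PP1 t l (HP h j l (Phi t j l ψ)))).re := by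
    rw [hswap]
    refine Finset.sum_congr rfl fun j _ => Finset.sum_congr rfl fun l _ => ?_
    rw [HP_swap hh.even l j, Phi_comm ht0 l j]
  have h3 : ∀ j, (inner ℂ ψ (S1 (fun p => 1 - et t p ^ 2) j (bO T h ψ j)
              + QQ1 t j (BO t T h ψ j))).re
          + (inner ℂ (QQ1 t j ψ) (XO t T M h ψ j)).re
          + M * (inner ℂ (QQ1 t j ψ) (PP1 T j ψ + PP1 t j (PP1 T j ψ))).re
      = ∑ l ∈ Finset.univ.erase j,
        (inner ℂ (QQ1 t j ψ)
            (HP h j l (Phi t j l ψ) + PP1 t l (HP h j l (Phi t j l ψ)))).re := by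
    intro j
    rw [← Complex.re_sum, ← inner_sum, E1_vec (M := M) ht0 hT0 ψ j]
    have a1 : inner ℂ ψ (S1 (fun p => 1 - et t p ^ 2) j (bO T h ψ j))
        = inner ℂ (QQ1 t j ψ) (bO T h ψ j + PP1 t j (bO T h ψ j)) := by
      unfold QQ1
      rw [S1_symm (alg_bdm_one_sub he)]
      congr 1
      refine cf_ext fun k => ?_
      unfold PP1
      rw [cf_S1 (alg_bdm_sq he), cf_S1 (alg_bdm_one_sub he), cf_add, cf_S1 he]
      push_cast
      ring
    have a2 : inner ℂ ψ (QQ1 t j (BO t T h ψ j)) = inner ℂ (QQ1 t j ψ) (BO t T h ψ j) := by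
      unfold QQ1
      rw [S1_symm (alg_bdm_one_sub he)]
    have a3 : (inner ℂ (QQ1 t j ψ) ((M : ℂ) • (PP1 T j ψ + PP1 t j (PP1 T j ψ)))).re
        = M * (inner ℂ (QQ1 t j ψ) (PP1 T j ψ + PP1 t j (PP1 T j ψ))).re := by
      rw [inner_smul_right, Complex.re_ofReal_mul]
    rw [inner_add_right ψ, a1, a2, inner_add_right _ _ ((M : ℂ) • (PP1 T j ψ + PP1 t j (PP1 T j ψ))),
      inner_add_right _ _ (XO t T M h ψ j), inner_add_right _ _ (BO t T h ψ j)]
    simp only [Complex.add_re]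
    rw [a3]
  rw [Finset.sum_congr rfl (fun j _ => h3 j),
    Finset.sum_congr rfl (fun j _ => Finset.sum_congr rfl (fun l _ => E1_pair ht0 hh.bm j l ψ))]
  simp only [Finset.sum_add_distrib]
  rw [h2]
  simp only [← Finset.mul_sum]
  ring

/-- The multiplier `(1 - η_t)(1 + η_t) η_T` is nonnegative. -/
theorem alg1_pos {N : ℕ} {t T : ℝ} (ht : 0 < t) (hT : 0 < T) (j : Fin N) (ψ : HS (Fin N)) :
    0 ≤ (inner ℂ (QQ1 t j ψ) (PP1 T j ψ + PP1 t j (PP1 T j ψ))).re := by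
  have he := bdm_et ht.le
  have heT := bdm_et hT.le
  have hb : Bdm (fun p => (1 - et t p) * ((1 + et t p) * et T p)) :=
    (alg_bdm_one_sub he).mul (((Bdm.const 1).add he).mul heT)
  have e1 : inner ℂ (QQ1 t j ψ) (PP1 T j ψ + PP1 t j (PP1 T j ψ))
      = inner ℂ ψ (S1 (fun p => (1 - et t p) * ((1 + et t p) * et T p)) j ψ) := by
    unfold QQ1
    rw [S1_symm (alg_bdm_one_sub he)]
    congr 1
    refine cf_ext fun k => ?_
    unfold PP1
    rw [cf_S1 (alg_bdm_one_sub he), cf_add, cf_S1 he, cf_S1 heT, cf_S1 hb]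
    push_cast
    ring
  rw [e1]
  have h0 : Bdm (fun k : Fin N → Fin 3 → ℤ => (0 : ℝ)) := Bdm.const 0
  have h1 := hasSum_inner_DM (hb.comp (fun k : Fin N → Fin 3 → ℤ => k j)) ψ
  refine h1.nonneg fun k => ?_
  have h2 := et_pos t (k j)
  have h3 := et_le_one ht.le (k j)
  have h4 := et_pos T (k j)
  have h5 : 0 ≤ 1 - et t (k j) := by linarith
  positivity

end Pool.Agent.Lib.MP_4952d6_mp.O

end

/-! ### O.E2b -/

section

/-!
# O.E2b: first part of the elimination: squares completed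

Sum over `j` of `kin_split`, `square_jO` (with `A = bO`, `B = BO`), `cross_W` with `W = (1/2) X_j`, added to `alg1`,
`alg1_pos`; `‖X_j‖² ≤ 16 (‖W_j‖² + ‖Z_j‖² + ‖Y_j‖² + ‖U_j‖²)` (`‖PP1 t j f‖ ≤ ‖f‖`), so
`(t/e) ‖X_j / 2‖² ≤ (4 t/e) (...)`. Model: `LB.ElA.elA`.
-/

set_option autoImplicit false
set_option linter.unusedSectionVars false
set_option linter.unusedVariables false
open MeasureTheory Function Filter Topology Set ComplexConjugate

namespace Pool.Agent.Lib.MP_4952d6_mp.O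

open LB

private theorem E2b_norm_PP1_le {N : ℕ} {t : ℝ} (ht : 0 < t) (j : Fin N) (f : HS (Fin N)) :
    ‖PP1 t j f‖ ≤ ‖f‖ := by
  have h1 := norm_S1_le (φ := et t) (C := 1)
    (fun p => by rw [abs_of_pos (et_pos t p)]; exact et_le_one ht.le p) j f
  rw [one_mul] at h1
  exact h1

private theorem E2b_XO_sq {N : ℕ} {t T M : ℝ} (ht : 0 < t) (h : T3 → ℝ) (ψ : HS (Fin N))
    (j : Fin N) :
    ‖XO t T M h ψ j‖ ^ 2 ≤ 16 * (‖WO t T h ψ j‖ ^ 2 + ‖ZO t T h ψ j‖ ^ 2 + ‖YO T h ψ j‖ ^ 2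
      + ‖UO T M h ψ j‖ ^ 2) := by
  obtain ⟨w, hw⟩ : ∃ w, w = ‖WO t T h ψ j‖ := ⟨_, rfl⟩
  obtain ⟨z, hz⟩ : ∃ z, z = ‖ZO t T h ψ j‖ := ⟨_, rfl⟩
  obtain ⟨y, hy⟩ : ∃ y, y = ‖YO T h ψ j‖ := ⟨_, rfl⟩
  obtain ⟨u, hu⟩ : ∃ u, u = ‖UO T M h ψ j‖ := ⟨_, rfl⟩
  have h1 : ‖XO t T M h ψ j‖ ≤ 2 * w + z + 2 * (y + u) := by
    unfold XO
    have e1 : ‖(2 : ℂ) • WO t T h ψ j‖ = 2 * w := by
      rw [norm_smul, hw]
      norm_num
    have e2 : ‖YO T h ψ j + UO T M h ψ j‖ ≤ y + u := by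
      rw [hy, hu]
      exact norm_add_le _ _
    have e3 := E2b_norm_PP1_le ht j (YO T h ψ j + UO T M h ψ j)
    have e4 := norm_add_le (YO T h ψ j + UO T M h ψ j) (PP1 t j (YO T h ψ j + UO T M h ψ j))
    have e5 := norm_add_le ((2 : ℂ) • WO t T h ψ j) (ZO t T h ψ j)
    have e6 := norm_add_le ((2 : ℂ) • WO t T h ψ j + ZO t T h ψ j)
      ((YO T h ψ j + UO T M h ψ j) + PP1 t j (YO T h ψ j + UO T M h ψ j))
    rw [e1, ← hz] at e5
    linarith
  rw [← hw, ← hz, ← hy, ← hu]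
  have h2 := pow_le_pow_left₀ (norm_nonneg _) h1 2
  refine h2.trans ?_
  nlinarith [sq_nonneg (w - y), sq_nonneg (w - u), sq_nonneg (y - u), sq_nonneg (w - 2 * z),
    sq_nonneg (y - 2 * z), sq_nonneg (u - 2 * z)]

theorem elO1 {N : ℕ} {t T e H R M : ℝ} (ht : 0 < t) (htT : t ≤ T) (he0 : 0 < e) (he : e ≤ 1 / 2)
    (hM : 0 ≤ M) {h : T3 → ℝ} (hh : SR H R h) {ψ : HS (Fin N)}
    (hkin : ∀ j, Summable fun k : Fin N → Fin 3 → ℤ => ksq (k j) * ‖cf ψ k‖ ^ 2) :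
    (∑ j, ∑' k : Fin N → Fin 3 → ℤ, et t (k j) ^ 2 * ksq (k j) * ‖cf ψ k‖ ^ 2)
      + e / t * ∑ j, ‖QQ1 t j ψ‖ ^ 2
      + (∑ j, ∑ l ∈ Finset.univ.erase j, qf (fun x => h (x j - x l)) (Phi t j l ψ))
      - 1 / 4 * (∑ j, ((inner ℂ (bO T h ψ j)
            (S1 (fun p => kap (2 * t) p + 8 * e / t * kap (2 * t) p ^ 2) j (bO T h ψ j))).re
          + 2 * (inner ℂ (bO T h ψ j) (S1 (kap t) j (BO t T h ψ j))).re
          + (1 + 4 * e) * (inner ℂ (BO t T h ψ j) (S1 (kap t) j (BO t T h ψ j))).re))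
      - 4 * t / e * ((∑ j, ‖WO t T h ψ j‖ ^ 2) + (∑ j, ‖ZO t T h ψ j‖ ^ 2)
          + (∑ j, ‖YO T h ψ j‖ ^ 2) + ∑ j, ‖UO T M h ψ j‖ ^ 2)
      ≤ (∑ j, ∑' k : Fin N → Fin 3 → ℤ, ksq (k j) * ‖cf ψ k‖ ^ 2)
        + ∑ j, ∑ l ∈ Finset.univ.erase j, (inner ℂ ψ (HP h j l (Phi t j l ψ))).re := by
  rw [alg1 (M := M) ht htT hh ψ]
  have h2 : ∀ j : Fin N,
      (∑' k : Fin N → Fin 3 → ℤ, et t (k j) ^ 2 * ksq (k j) * ‖cf ψ k‖ ^ 2)
        + e / t * ‖QQ1 t j ψ‖ ^ 2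
        - 1 / 4 * ((inner ℂ (bO T h ψ j)
            (S1 (fun p => kap (2 * t) p + 8 * e / t * kap (2 * t) p ^ 2) j (bO T h ψ j))).re
          + 2 * (inner ℂ (bO T h ψ j) (S1 (kap t) j (BO t T h ψ j))).re
          + (1 + 4 * e) * (inner ℂ (BO t T h ψ j) (S1 (kap t) j (BO t T h ψ j))).re)
        - 4 * t / e * (‖WO t T h ψ j‖ ^ 2 + ‖ZO t T h ψ j‖ ^ 2 + ‖YO T h ψ j‖ ^ 2
          + ‖UO T M h ψ j‖ ^ 2)
      ≤ (∑' k : Fin N → Fin 3 → ℤ, ksq (k j) * ‖cf ψ k‖ ^ 2)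
        + ((inner ℂ ψ (S1 (fun p => 1 - et t p ^ 2) j (bO T h ψ j)
              + QQ1 t j (BO t T h ψ j))).re
          + (inner ℂ (QQ1 t j ψ) (XO t T M h ψ j)).re
          + M * (inner ℂ (QQ1 t j ψ) (PP1 T j ψ + PP1 t j (PP1 T j ψ))).re) := by
    intro j
    have a1 := kin_split ht he0 j (hkin j)
    have a2 := square_jO ht he0 he j (hkin j) (bO T h ψ j) (BO t T h ψ j)
    have a3 := cross_W ht he0 j ψ ((1 / 2 : ℂ) • XO t T M h ψ j)
    have a4 : 2 * e / t * ‖QQ1 t j ψ‖ ^ 2 =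
        e / t * ‖QQ1 t j ψ‖ ^ 2 + e / t * ‖QQ1 t j ψ‖ ^ 2 := by ring
    have a5 : 2 * (inner ℂ (QQ1 t j ψ) ((1 / 2 : ℂ) • XO t T M h ψ j)).re
        = (inner ℂ (QQ1 t j ψ) (XO t T M h ψ j)).re := by
      rw [inner_smul_right]
      have : (1 / 2 : ℂ) = ((1 / 2 : ℝ) : ℂ) := by norm_num
      rw [this, Complex.re_ofReal_mul]
      ring
    have a6 : t / e * ‖(1 / 2 : ℂ) • XO t T M h ψ j‖ ^ 2
        ≤ 4 * t / e * (‖WO t T h ψ j‖ ^ 2 + ‖ZO t T h ψ j‖ ^ 2 + ‖YO T h ψ j‖ ^ 2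
          + ‖UO T M h ψ j‖ ^ 2) := by
      have b1 : ‖(1 / 2 : ℂ) • XO t T M h ψ j‖ = 1 / 2 * ‖XO t T M h ψ j‖ := by
        rw [norm_smul]
        norm_num
      have b2 := E2b_XO_sq (M := M) (T := T) ht h ψ j
      have b3 : 0 ≤ t / e := by positivity
      have b4 := mul_le_mul_of_nonneg_left b2 b3
      rw [b1]
      calc t / e * (1 / 2 * ‖XO t T M h ψ j‖) ^ 2
          = 1 / 4 * (t / e * ‖XO t T M h ψ j‖ ^ 2) := by ring
        _ ≤ 1 / 4 * (t / e * (16 * (‖WO t T h ψ j‖ ^ 2 + ‖ZO t T h ψ j‖ ^ 2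
              + ‖YO T h ψ j‖ ^ 2 + ‖UO T M h ψ j‖ ^ 2))) := by linarith
        _ = _ := by ring
    have a7 : 0 ≤ M * (inner ℂ (QQ1 t j ψ) (PP1 T j ψ + PP1 t j (PP1 T j ψ))).re :=
      mul_nonneg hM (alg1_pos ht (ht.trans_le htT) j ψ)
    rw [a5] at a3
    rw [a1, a4]
    linarith
  have h3 := Finset.sum_le_sum (s := Finset.univ) (fun j _ => h2 j)
  simp only [Finset.sum_add_distrib, Finset.sum_sub_distrib, ← Finset.mul_sum] at h3 ⊢
  linarith

end Pool.Agent.Lib.MP_4952d6_mp.O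

end

/-! ### O.WH1 -/

section

/-! # O.WH1: inequalities between coefficients

`c = cW M`, `z = zM M n`. `vk_ge`: `th (n - p) = th (p - n) ≥ th p - c z` (`th_neg`, `th_lip`), so
`Σ_p th (n-p) et (k+p)² th p ≥ e2 - c z Σ_p et (k+p)² th p ≥ e2 - c z c M³ ≥ e2 - (27/8) z` (`th_sum`, `et ≤ 1`, `cW_le`).
`thvk_ge`: for every `n`: `th n vk n ≥ c (e2 - min 1 (6 z))`. If `z ≥ 1`: the right side is `c (e2 - 1) ≤ 0 ≤ th n vk n`. If `z < 1`: `th n ≥ c (1 - z) ≥ 0` (`th_ge`),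
`et t n ≥ 1 - (t/2) ksq n ≥ 1 - 2 π² t M² z² ≥ 1 - z² ≥ 1 - z` (`ksq_le_zM`); if `e2 ≥ (27/8) z` then
`th n vk n ≥ c (1 - z)² (e2 - (27/8) z) ≥ c (e2 - 2 z e2 - (27/8) z) ≥ c (e2 - 6 z)` (`(1-z)² ≥ 1 - 2z`; if `1 - 2z < 0` then `6 z > 1` and `e2 ≤ 1`);
if `e2 < (27/8) z` the right side is negative. Multiply by `nk f n` and sum over `bx (2M)`; outside `bx (2M)` (`z ≥ 1`) the right side is `≤ 0`, so the sum over the
box is at least `Σ' c (e2 - min 1 (6 z)) nk` (`summable_nk`, `tsum_nk`, `Summable.sum_le_tsum` for the nonnegative terms `c (min 1 (6z) - e2) nk` outside).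
`min_six`: `x ≤ w0 + x²/(4 w0)` for `x = min 1 (6z)`, `x² ≤ min 1 (36 z²)`.
`tn_sq_sum`: Cauchy-Schwarz `tn n ² ≤ (Σ_p th (n-p)) (Σ_p th (n-p) (et p th p)²)`, `th_sum_shift` twice (first in `p`: `th (n-p) = th (p-n)`; then in `n`), `Σ (et th)² ≤ 1`. -/

set_option autoImplicit false
set_option linter.unusedSectionVars false
set_option linter.unusedVariables false
open MeasureTheory Function Filter Topology Set ComplexConjugate

namespace Pool.Agent.Lib.MP_4952d6_mp.O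

open LB

variable {ι : Type*} [Fintype ι] [DecidableEq ι]

/-- `Σ' min (1, 36 z²) n_k`. -/
noncomputable def D1 (M : ℕ) (f : HS ι) : ℝ := ∑' n, min 1 (36 * zM M n ^ 2) * nk f n

lemma D1_nonneg (M : ℕ) (f : HS ι) : 0 ≤ D1 M f := by
  unfold D1
  refine tsum_nonneg fun n => mul_nonneg (le_min zero_le_one (by positivity)) (nk_nonneg f n)

lemma WH1_z_nonneg (M : ℕ) (n : Fin 3 → ℤ) : 0 ≤ zM M n := by
  unfold zM
  exact div_nonneg (Finset.sum_nonneg fun α _ => abs_nonneg _) (Nat.cast_nonneg M)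

lemma WH1_et_sq_le {t : ℝ} (ht : 0 < t) (p : Fin 3 → ℤ) : et t p ^ 2 ≤ 1 :=
  pow_le_one₀ (et_pos t p).le (et_le_one ht.le p)

lemma vk_nonneg {t : ℝ} (ht : 0 < t) {M : ℕ} (hM : 1 ≤ M) (k n : Fin 3 → ℤ) : 0 ≤ vk t M k n := by
  unfold vk
  refine mul_nonneg (et_pos t n).le (Finset.sum_nonneg fun p _ => ?_)
  exact mul_nonneg (mul_nonneg (th_nonneg hM _) (sq_nonneg _)) (th_nonneg hM p)

lemma vk_ge {t : ℝ} (ht : 0 < t) {M : ℕ} (hM : 1 ≤ M) (k n : Fin 3 → ℤ) :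
    et t n * (e2 t M k - 27 / 8 * zM M n) ≤ vk t M k n := by
  have hz := WH1_z_nonneg M n
  have hc := (cW_pos hM).le
  have h1 : ∀ p : Fin 3 → ℤ, th M p - cW M * zM M n ≤ th M (n - p) := by
    intro p
    have h2 := th_lip hM (n - p) (-p)
    rw [th_neg, sub_neg_eq_add, sub_add_cancel] at h2
    have h3 := (abs_le.1 h2).1
    linarith
  have h4 : ∑ p ∈ bx M, et t (k + p) ^ 2 * th M p ≤ cW M * (M : ℝ) ^ 3 := by
    rw [← th_sum hM]
    refine Finset.sum_le_sum fun p _ => ?_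
    have h5 := mul_le_mul_of_nonneg_right (WH1_et_sq_le ht (k + p)) (th_nonneg hM p)
    rw [one_mul] at h5
    exact h5
  have h6 : e2 t M k - cW M * zM M n * ∑ p ∈ bx M, et t (k + p) ^ 2 * th M p ≤
      ∑ p ∈ bx M, th M (n - p) * et t (k + p) ^ 2 * th M p := by
    unfold e2
    rw [Finset.mul_sum, ← Finset.sum_sub_distrib]
    refine Finset.sum_le_sum fun p _ => ?_
    have h7 := mul_le_mul_of_nonneg_right (h1 p)
      (mul_nonneg (sq_nonneg (et t (k + p))) (th_nonneg hM p))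
    have h8 : (et t (k + p) * th M p) ^ 2 - cW M * zM M n * (et t (k + p) ^ 2 * th M p) =
        (th M p - cW M * zM M n) * (et t (k + p) ^ 2 * th M p) := by ring
    rw [h8, mul_assoc (th M (n - p))]
    exact h7
  have h9 : cW M * zM M n * ∑ p ∈ bx M, et t (k + p) ^ 2 * th M p ≤ 27 / 8 * zM M n := by
    refine (mul_le_mul_of_nonneg_left h4 (mul_nonneg hc hz)).trans ?_
    have h10 := mul_le_mul_of_nonneg_right (cW_le hM) hz
    have h11 : cW M * zM M n * (cW M * (M : ℝ) ^ 3) = cW M ^ 2 * (M : ℝ) ^ 3 * zM M n := by ring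
    rw [h11]
    exact h10
  unfold vk
  refine mul_le_mul_of_nonneg_left ?_ (et_pos t n).le
  linarith

lemma thvk_one {t : ℝ} (ht : 0 < t) {M : ℕ} (hM : 1 ≤ M) (htM : 2 * Real.pi ^ 2 * t * (M : ℝ) ^ 2 ≤ 1)
    (k n : Fin 3 → ℤ) : cW M * (e2 t M k - min 1 (6 * zM M n)) ≤ th M n * vk t M k n := by
  have hz := WH1_z_nonneg M n
  have hc := (cW_pos hM).le
  have hE0 := e2_nonneg t M k
  have hE1 := e2_le_one ht hM k
  have hpos : 0 ≤ th M n * vk t M k n := mul_nonneg (th_nonneg hM n) (vk_nonneg ht hM k n)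
  by_cases hneg : e2 t M k ≤ min 1 (6 * zM M n)
  · refine le_trans ?_ hpos
    exact mul_nonpos_of_nonneg_of_nonpos hc (by linarith)
  · have h1 : min 1 (6 * zM M n) < e2 t M k := not_le.mp hneg
    have h2 : 6 * zM M n < e2 t M k := by
      rcases min_lt_iff.1 h1 with h | h
      · exact absurd h (not_lt.mpr hE1)
      · exact h
    have hz1 : zM M n < 1 := by linarith
    have hmin : min 1 (6 * zM M n) = 6 * zM M n := min_eq_right (by linarith)
    have het : 1 - zM M n ≤ et t n := by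
      have h3 : 1 - t / 2 * ksq n ≤ et t n := by
        unfold et
        have h4 := Real.add_one_le_exp (-(t / 2 * ksq n))
        linarith
      have h5 : t / 2 * ksq n ≤ zM M n ^ 2 := by
        have h6 := mul_le_mul_of_nonneg_left (ksq_le_zM hM n) (by positivity : (0 : ℝ) ≤ t / 2)
        have h7 := mul_le_mul_of_nonneg_right htM (sq_nonneg (zM M n))
        have h8 : t / 2 * (4 * Real.pi ^ 2 * (M : ℝ) ^ 2 * zM M n ^ 2) =
            2 * Real.pi ^ 2 * t * (M : ℝ) ^ 2 * zM M n ^ 2 := by ring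
        rw [h8] at h6
        rw [one_mul] at h7
        exact h6.trans h7
      have h9 : zM M n ^ 2 ≤ zM M n := by
        nlinarith
      linarith
    have hth := th_ge hM n
    have hA : 0 ≤ e2 t M k - 27 / 8 * zM M n := by linarith
    have hv : (1 - zM M n) * (e2 t M k - 27 / 8 * zM M n) ≤ vk t M k n :=
      (mul_le_mul_of_nonneg_right het hA).trans (vk_ge ht hM k n)
    have hz' : 0 ≤ 1 - zM M n := by linarith
    have hprod : cW M * (1 - zM M n) * ((1 - zM M n) * (e2 t M k - 27 / 8 * zM M n)) ≤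
        th M n * vk t M k n :=
      mul_le_mul hth hv (mul_nonneg hz' hA) (th_nonneg hM n)
    refine le_trans ?_ hprod
    rw [hmin, mul_assoc]
    refine mul_le_mul_of_nonneg_left ?_ hc
    set z := zM M n with hzdef
    set E := e2 t M k with hEdef
    have hq1 : (1 - 2 * z) * (E - 27 / 8 * z) ≤ (1 - z) ^ 2 * (E - 27 / 8 * z) := by
      refine mul_le_mul_of_nonneg_right ?_ hA
      nlinarith [sq_nonneg z]
    have hq2 : z * E ≤ z * 1 := mul_le_mul_of_nonneg_left hE1 hz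
    nlinarith [sq_nonneg z]

lemma WH1_summable_a (M : ℕ) (f : HS ι) : Summable fun n => min 1 (6 * zM M n) * nk f n := by
  refine Summable.of_nonneg_of_le (fun n => ?_) (fun n => ?_) (summable_nk f)
  · exact mul_nonneg (le_min zero_le_one (mul_nonneg (by norm_num) (WH1_z_nonneg M n)))
      (nk_nonneg f n)
  · have h1 := mul_le_mul_of_nonneg_right (min_le_left 1 (6 * zM M n)) (nk_nonneg f n)
    rw [one_mul] at h1
    exact h1

lemma WH1_summable_b (M : ℕ) (f : HS ι) :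
    Summable fun n => min 1 (36 * zM M n ^ 2) * nk f n := by
  refine Summable.of_nonneg_of_le (fun n => ?_) (fun n => ?_) (summable_nk f)
  · exact mul_nonneg (le_min zero_le_one (by positivity)) (nk_nonneg f n)
  · have h1 := mul_le_mul_of_nonneg_right (min_le_left 1 (36 * zM M n ^ 2)) (nk_nonneg f n)
    rw [one_mul] at h1
    exact h1

lemma min_six {w0 : ℝ} (hw : 0 < w0) (M : ℕ) (f : HS ι) :
    ∑' n, min 1 (6 * zM M n) * nk f n
      ≤ w0 * ((Fintype.card ι : ℝ) * ‖f‖ ^ 2) + D1 M f / (4 * w0) := by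
  have hs := summable_nk f
  have hs1 := WH1_summable_a M f
  have hs2 := WH1_summable_b M f
  have h1 : ∀ n, min 1 (6 * zM M n) * nk f n ≤
      w0 * nk f n + (min 1 (36 * zM M n ^ 2) * nk f n) / (4 * w0) := by
    intro n
    have hz := WH1_z_nonneg M n
    set x := min 1 (6 * zM M n) with hx
    have hx0 : 0 ≤ x := le_min zero_le_one (by positivity)
    have hxs : x ^ 2 ≤ min 1 (36 * zM M n ^ 2) := by
      refine le_min ?_ ?_
      · exact pow_le_one₀ hx0 (min_le_left _ _)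
      · have h2 : x ^ 2 ≤ (6 * zM M n) ^ 2 := pow_le_pow_left₀ hx0 (min_le_right _ _) 2
        nlinarith
    have hx2 : x ≤ w0 + min 1 (36 * zM M n ^ 2) / (4 * w0) := by
      have h3 : x ≤ w0 + x ^ 2 / (4 * w0) := by
        have h4 : w0 + x ^ 2 / (4 * w0) - x = (2 * w0 - x) ^ 2 / (4 * w0) := by
          field_simp
          ring
        have h5 : 0 ≤ (2 * w0 - x) ^ 2 / (4 * w0) := by positivity
        linarith
      have h6 : x ^ 2 / (4 * w0) ≤ min 1 (36 * zM M n ^ 2) / (4 * w0) :=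
        div_le_div_of_nonneg_right hxs (by positivity)
      linarith
    have h7 := mul_le_mul_of_nonneg_right hx2 (nk_nonneg f n)
    have h8 : (w0 + min 1 (36 * zM M n ^ 2) / (4 * w0)) * nk f n =
        w0 * nk f n + (min 1 (36 * zM M n ^ 2) * nk f n) / (4 * w0) := by ring
    rw [h8] at h7
    exact h7
  have h9 := hs1.tsum_le_tsum h1 ((hs.mul_left w0).add (hs2.div_const (4 * w0)))
  refine h9.trans (le_of_eq ?_)
  rw [(hs.mul_left w0).tsum_add (hs2.div_const (4 * w0)), tsum_mul_left, tsum_nk, tsum_div_const]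
  rfl

theorem thvk_ge {t : ℝ} (ht : 0 < t) {M : ℕ} (hM : 1 ≤ M)
    (htM : 2 * Real.pi ^ 2 * t * (M : ℝ) ^ 2 ≤ 1) (k : Fin 3 → ℤ) {w0 : ℝ} (hw : 0 < w0)
    (f : HS ι) :
    cW M * (e2 t M k * ((Fintype.card ι : ℝ) * ‖f‖ ^ 2)
      - (w0 * ((Fintype.card ι : ℝ) * ‖f‖ ^ 2) + D1 M f / (4 * w0)))
      ≤ ∑ n ∈ bx (2 * M), th M n * vk t M k n * nk f n := by
  have hc := (cW_pos hM).le
  have hE1 := e2_le_one ht hM k
  have hs := summable_nk f
  have hs1 := WH1_summable_a M f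
  have h1 : ∑ n ∈ bx (2 * M), cW M * (e2 t M k - min 1 (6 * zM M n)) * nk f n ≤
      ∑ n ∈ bx (2 * M), th M n * vk t M k n * nk f n :=
    Finset.sum_le_sum fun n _ =>
      mul_le_mul_of_nonneg_right (thvk_one ht hM htM k n) (nk_nonneg f n)
  have hsum : Summable fun n => cW M * (min 1 (6 * zM M n) * nk f n - e2 t M k * nk f n) :=
    (hs1.sub (hs.mul_left (e2 t M k))).mul_left (cW M)
  have h2 := hsum.sum_le_tsum (bx (2 * M)) (fun n hn => by
    have hz : 1 ≤ zM M n := zM_out hM (fun h => hn (bx_mono (by omega) h))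
    have hmin : min 1 (6 * zM M n) = 1 := min_eq_left (by linarith)
    rw [hmin, ← sub_mul]
    exact mul_nonneg hc (mul_nonneg (by linarith) (nk_nonneg f n)))
  rw [tsum_mul_left, hs1.tsum_sub (hs.mul_left (e2 t M k)), tsum_mul_left, tsum_nk] at h2
  have h3 : ∑ n ∈ bx (2 * M), cW M * (min 1 (6 * zM M n) * nk f n - e2 t M k * nk f n) =
      -∑ n ∈ bx (2 * M), cW M * (e2 t M k - min 1 (6 * zM M n)) * nk f n := by
    rw [← Finset.sum_neg_distrib]
    refine Finset.sum_congr rfl fun n _ => ?_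
    ring
  rw [h3] at h2
  have h4 := mul_le_mul_of_nonneg_left (min_six hw M f) hc
  have h5 : cW M * (e2 t M k * ((Fintype.card ι : ℝ) * ‖f‖ ^ 2)
      - (w0 * ((Fintype.card ι : ℝ) * ‖f‖ ^ 2) + D1 M f / (4 * w0))) =
      cW M * (e2 t M k * ((Fintype.card ι : ℝ) * ‖f‖ ^ 2)) -
        cW M * (w0 * ((Fintype.card ι : ℝ) * ‖f‖ ^ 2) + D1 M f / (4 * w0)) := by ring
  rw [mul_sub] at h2
  linarith

theorem tn_sq_sum {t : ℝ} (ht : 0 < t) {M : ℕ} (hM : 1 ≤ M) :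
    ∑ n ∈ bx (2 * M), tn t M n ^ 2 ≤ (cW M * (M : ℝ) ^ 3) ^ 2 := by
  set A := cW M * (M : ℝ) ^ 3 with hA
  have hA0 : 0 ≤ A := mul_nonneg (cW_pos hM).le (by positivity)
  have h1 : ∀ n : Fin 3 → ℤ, tn t M n ^ 2 ≤
      A * ∑ p ∈ bx M, th M (n - p) * (et t p * th M p) ^ 2 := by
    intro n
    have h2 : tn t M n ^ 2 ≤ (∑ p ∈ bx M, th M (n - p)) *
        ∑ p ∈ bx M, th M (n - p) * (et t p * th M p) ^ 2 := by
      unfold tn
      refine Finset.sum_sq_le_sum_mul_sum_of_sq_le_mul (bx M) (fun p _ => th_nonneg hM _)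
        (fun p _ => mul_nonneg (th_nonneg hM _) (sq_nonneg _)) (fun p _ => le_of_eq ?_)
      ring
    refine h2.trans (mul_le_mul_of_nonneg_right ?_
      (Finset.sum_nonneg fun p _ => mul_nonneg (th_nonneg hM _) (sq_nonneg _)))
    refine le_trans (le_of_eq (Finset.sum_congr rfl fun p _ => ?_)) (th_sum_shift hM (bx M) n)
    rw [← th_neg M (p - n), neg_sub]
  calc ∑ n ∈ bx (2 * M), tn t M n ^ 2
      ≤ ∑ n ∈ bx (2 * M), A * ∑ p ∈ bx M, th M (n - p) * (et t p * th M p) ^ 2 :=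
        Finset.sum_le_sum fun n _ => h1 n
    _ = A * ∑ p ∈ bx M, (∑ n ∈ bx (2 * M), th M (n - p)) * (et t p * th M p) ^ 2 := by
        rw [← Finset.mul_sum, Finset.sum_comm]
        congr 1
        refine Finset.sum_congr rfl fun p _ => ?_
        rw [Finset.sum_mul]
    _ ≤ A * ∑ p ∈ bx M, A * th M p ^ 2 := by
        refine mul_le_mul_of_nonneg_left (Finset.sum_le_sum fun p _ => ?_) hA0
        refine mul_le_mul (th_sum_shift hM (bx (2 * M)) p) ?_ (sq_nonneg _) hA0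
        have h3 := mul_le_mul_of_nonneg_right (WH1_et_sq_le ht p) (sq_nonneg (th M p))
        rw [one_mul] at h3
        rw [mul_pow]
        exact h3
    _ = A ^ 2 := by
        rw [← Finset.mul_sum, th_sq_sum hM]
        ring

end Pool.Agent.Lib.MP_4952d6_mp.O

end

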