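import Pool.Agent.Lib.MP_4952d6_mp.Pk.G58
import Pool.Agent.Lib.MP_4952d6_mp.Po.N01
import Pool.Agent.Lib.MP_4952d6_mp.Po.N18
import Pool.Agent.Lib.MP_4952d6_mp.Po.N24
import Pool.Agent.Lib.MP_4952d6_mp.Po.N28

/-! Merged modules (to save import time): O.MG, O.WJ2. -/

/-! ### O.MG -/

section

/-!
# JOB OM-MG: `OMStatement`, from the torus form to the physical potential

Follow `LC/F5.lean` (`F5_main`) word by word, without the parts about the energy. Setup as there: `exists_rep`, `u` (call it `w1`), `huv`, `hradp`, `hi`, `hUm`, `hUv`, `U`; the assumption `0 < R₀ ∨ 0 < ∫ v` gives `0 < R₀ ∨ 0 < U`. `exists_data`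
gives the scattering length `As > 0` of the problem. The truncation is chosen ONCE (it does not depend on `ρ`, `N`): `hlow (As/2)` (`k`), `tr_small` with `ε₁ = As/(4 sig)`: scattering data `h : Scat (tr ..) R₀ R a f Q` with
`As/2 < a ≤ As` and charge deficit `2 sig (U - ∫ tr) ≤ As/2 ≤ a`. `θ = 2 R/As` (so `R ≤ θ a`), `cw = sig Iw/R` from `F5_shape` (the function `w0`). `om_torus θ cw 256` gives `C`, `Y0`.

`Y := √(ρ a³) = √(ρ A³) (a/A)^{3/2} = u^160 (a/A)^{3/2}`. Choose `u0 = min (1/2) (Y0 / √((a/A)^3))`, so `Y < Y0` for `0 < u < u0` (`u^160 ≤ u`). `N1`: `F4_side` so that `side ρ N > max (2 R) (8 a/Y)`: then `a/L ≤ Y/8`.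
The hypotheses of `om_torus` for the potential `Vp m L v`, `L = side ρ N`, `W = L² tr (L r)`, `w = L² w0 (L r)`, radius `R/L`, length `a/L`: exactly as in `F5_main` (`h.scale hL`, `F4_pot`, `F5_Vp_neg`, `F4_charge`, `F4_chargeW`, `F5_pot`, `F5_scale`).

The times: put `lA = A/L/u^160`. `N (A/L)^3 = ρ A³ = u^320` (`side_cube`). `t ≥ (A/L/u^152)²/2`: `√(t/8) ≥ A/L/u^152/4`, `N (A/L/u^152/4)^3 = 1/(64 u^136) ≥ 1` for `u ≤ 1/2`. `t ≤ 2 (A/L/u^152)² = 2 lA² u^16 ≤ lA²/u³/2 ≤ T`.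
`b ≥ lA²/2 > 0`, `64 T ≤ 128 lA²/u³ ≤ 256 b/u³`.
-/

set_option autoImplicit false
set_option linter.unusedSectionVars false
set_option linter.unusedVariables false
open MeasureTheory Function Filter Topology Set
open scoped ENNReal

namespace Pool.Agent.Lib.MP_4952d6_mp.O

open LB LA

/-- The scattering data of a truncation of the potential. -/
theorem mg_data {m R₀ R : ℝ} {v : (Fin 3 → ℝ) → ℝ} (hm : 0 < m) (hR0 : 0 ≤ R₀) (hR : R₀ < R)
    (hv : Integrable v) (hv0 : ∀ x, 0 ≤ v x)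
    (hrad : ∀ x y : Fin 3 → ℝ, ∑ α, x α ^ 2 = ∑ α, y α ^ 2 → v x = v y)
    (hsupp : ∀ x : Fin 3 → ℝ, R ^ 2 ≤ ∑ α, x α ^ 2 → v x = 0) (hgen0 : 0 < R₀ ∨ 0 < ∫ x, v x) :
    ∃ (W w0 f Q : ℝ → ℝ) (a cw : ℝ), Scat W R₀ R a f Q ∧ 0 < cw ∧ Measurable w0 ∧
      (∀ r, 0 ≤ w0 r) ∧ (∀ r, w0 r ≤ (R⁻¹) ^ 2) ∧ (∀ r, R ≤ r → w0 r = 0) ∧
      (cw * R ≤ sig * ∫ r in Ioi (0:ℝ), r ^ 2 * w0 r) ∧
      ∀ L : ℝ, 2 * R < L → (∀ᵐ y ∂lam3, ENNReal.ofReal (2 * (L ^ 2 * W (L * rr y))) ≤ Vp m L v y) ∧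
        (∫⁻ y, Vp m L v y ∂lam3 ≤ (∫⁻ y, ENNReal.ofReal (2 * (L ^ 2 * W (L * rr y))) ∂lam3)
            + ENNReal.ofReal (a / L)) ∧
        (∀ᵐ y ∂lam3, R₀ / L ≤ rr y → ENNReal.ofReal (L ^ 2 * w0 (L * rr y)) ≤ Vp m L v y) := by
  have hRpos : 0 < R := hR0.trans_lt hR
  obtain ⟨g, hgm, hg0, hg⟩ := exists_rep hv hv0 hrad
  set u : ℝ → ℝ := fun r => if r < R then m * g r else 0 with hu
  have hum : Measurable u := Measurable.ite measurableSet_Iio (hgm.const_mul m) measurable_const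
  have hu0 : ∀ r, 0 ≤ u r := fun r => by
    simp only [hu]; split_ifs
    · exact mul_nonneg hm.le (hg0 r)
    · exact le_rfl
  have huR : ∀ r, R ≤ r → u r = 0 := fun r hr => by
    simp only [hu]; rw [if_neg (not_lt.2 hr)]
  have huv : ∀ᵐ r : ℝ, 0 < r → u r = m * prof v r := by
    filter_upwards [hg] with r hr hr0
    simp only [hu]
    split_ifs with h
    · rw [hr hr0]
    · have : prof v r = 0 := by
        refine hsupp _ ?_
        simp [Fin.sum_univ_three]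
        push Not at h
        exact pow_le_pow_left₀ hRpos.le h 2
      rw [this, mul_zero]
  have hradp : ∀ x, v x = prof v (nr x) := prof_eq hrad
  have hvm : AEMeasurable v volume := hv.aestronglyMeasurable.aemeasurable
  have hIv : IntegrableOn (fun r => r ^ 2 * prof v r) (Ioi (0:ℝ)) := by
    rw [← integrable_nr]
    exact hv.congr (Eventually.of_forall hradp)
  have hi : IntegrableOn (fun r => r ^ 2 * u r) (Ioi (0:ℝ)) := by
    refine (hIv.const_mul m).congr ((ae_restrict_iff' measurableSet_Ioi).2 ?_)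
    filter_upwards [huv] with r hr hr0
    rw [hr hr0]; ring
  have hUm : ∫ r in Ioi (0:ℝ), r ^ 2 * u r = m * ∫ r in Ioi (0:ℝ), r ^ 2 * prof v r := by
    rw [← integral_const_mul]
    refine setIntegral_congr_ae measurableSet_Ioi ?_
    filter_upwards [huv] with r hr hr0
    rw [hr hr0]; ring
  have hUv : ∫ x, v x = sig / m * ∫ r in Ioi (0:ℝ), r ^ 2 * u r := by
    have e1 : ∫ x, v x = sig * ∫ r in Ioi (0:ℝ), r ^ 2 * prof v r := by
      rw [← integral_nr]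
      exact integral_congr_ae (Eventually.of_forall hradp)
    rw [e1, hUm]; field_simp
  set U : ℝ := ∫ r in Ioi (0:ℝ), r ^ 2 * u r with hUdef
  have hσ := sig_pos
  have hgen : 0 < R₀ ∨ 0 < U := by
    rcases hgen0 with h | h
    · exact Or.inl h
    · right
      rw [hUv] at h
      by_contra hc
      push Not at hc
      have h1 : 0 < sig / m := by positivity
      have h2 : sig / m * U ≤ 0 := mul_nonpos_of_nonneg_of_nonpos h1.le hc
      linarith
  obtain ⟨A, hA0, halA, hup, hlow⟩ := exists_data hum hu0 hi hR0 hgen hm hv hv0 hradp huv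
  obtain ⟨w0, hw0m, hw00, hw01, hw0R, hw0u, hw0I⟩ := F5_shape hum hu0 hR0 hR huR hgen
  set Iw : ℝ := ∫ r in Ioi (0:ℝ), r ^ 2 * w0 r with hIw
  set cw : ℝ := sig * Iw / R with hcw
  have hcw0 : 0 < cw := by rw [hcw]; positivity
  -- truncation
  obtain ⟨k, hk1, hk⟩ := hlow (A / 2) (by linarith)
  set ε₁ : ℝ := A / (4 * sig) with hε₁
  have hε₁0 : 0 < ε₁ := by rw [hε₁]; positivity
  obtain ⟨k₂, hk₂1, hk₂⟩ := tr_small hum hu0 hi hε₁0
  set n : ℝ := max k k₂ with hn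
  set K : ℝ := max n R with hK
  have hn1 : 1 ≤ n := hk1.trans (le_max_left _ _)
  have hn0 : 0 ≤ n := by linarith
  have hfun : tr u n K = tr u n R := by
    funext r
    unfold tr
    by_cases h1 : r < R
    · rw [if_pos h1, if_pos (h1.trans_le (le_max_right _ _))]
    · rw [if_neg h1, huR r (not_lt.1 h1), min_eq_left hn0]
      split_ifs <;> rfl
  obtain ⟨a', f', Q', h', hca'⟩ := hk n K (le_max_left _ _)
    ((le_max_left _ _).trans (le_max_left _ _)) (hR.trans_le (le_max_right _ _))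
  have hgen' : 0 < R₀ ∨ 0 < ∫ r in Ioi (0:ℝ), r ^ 2 * tr u n R r := by
    rcases hR0.eq_or_lt with h0 | h0
    · right
      have h1 := h'.a_le_int
      rw [← h0, zero_add, tr_integral_Ioi (hRpos.le.trans (le_max_right _ _)), hfun] at h1
      exact h'.a_pos.trans_le h1
    · exact Or.inl h0
  obtain ⟨a, f, Q, h⟩ := scat_tr hum hu0 hR0 hn0 hR hgen'
  have haa : a' ≤ a := h.mono h' fun r _ => le_of_eq (by rw [hfun])
  have haA' : A / 2 ≤ a := hca'.le.trans haa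
  have ha : 0 < a := h.a_pos
  have hcharge : U - (∫ r in Ioi (0:ℝ), r ^ 2 * tr u n R r) ≤ ε₁ := by
    have h1 := hk₂ n K (le_max_right _ _) ((le_max_right _ _).trans (le_max_left _ _))
    rwa [hfun] at h1
  have hI0 : 0 ≤ ∫ r in Ioi (0:ℝ), r ^ 2 * tr u n R r :=
    setIntegral_nonneg measurableSet_Ioi fun r _ => mul_nonneg (sq_nonneg r) (h.W_nonneg r)
  refine ⟨tr u n R, w0, f, Q, a, cw, h, hcw0, hw0m, hw00, hw01, hw0R, ?_, ?_⟩
  · rw [hcw, div_mul_cancel₀ _ hRpos.ne']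
  intro L h2R
  have hL : 0 < L := by linarith
  have hle : ∀ᵐ r : ℝ, 0 < r → tr u n R r ≤ m * prof v r := by
    filter_upwards [huv] with r hr hr0
    rw [← hr hr0]
    exact tr_le hu0 n R r
  have hch := F4_charge hm hv hv0 hradp hL
  rw [← hUm] at hch
  have hchW := F4_chargeW h hL h2R
  refine ⟨F4_pot h hm hradp hle hL, ?_, ?_⟩
  · rw [hch, hchW, ← ENNReal.ofReal_add (by positivity) (by positivity)]
    refine ENNReal.ofReal_le_ofReal ?_
    have h1 : 2 * sig * (U - ∫ r in Ioi (0:ℝ), r ^ 2 * tr u n R r) ≤ a := by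
      calc 2 * sig * (U - ∫ r in Ioi (0:ℝ), r ^ 2 * tr u n R r)
          ≤ 2 * sig * (A / (4 * sig)) := by
            gcongr
        _ = A / 2 := by field_simp; ring
        _ ≤ a := by linarith
    have h2 : 2 * sig / L * U - 2 * sig / L * (∫ r in Ioi (0:ℝ), r ^ 2 * tr u n R r) ≤ a / L := by
      rw [← mul_sub, div_mul_eq_mul_div]
      exact div_le_div_of_nonneg_right h1 hL.le
    linarith
  · have h1 : ∀ᵐ r : ℝ, 0 < r → (if r < R₀ then 0 else w0 r / 2) ≤ m * prof v r := by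
      filter_upwards [huv] with r hr hr0
      rw [← hr hr0]
      split_ifs with h2
      · exact hu0 r
      · have := hw0u r (not_lt.1 h2)
        linarith
    have h3 := F5_pot hm hradp h1 hL
    filter_upwards [h3] with y hy hy1
    rw [div_le_iff₀ hL] at hy1
    rw [if_neg (not_lt.2 (by linarith))] at hy
    refine le_trans (le_of_eq ?_) hy
    congr 1
    ring

theorem om_statement : OMStatement := by
  intro m R₀ R v hm hR0 hR hv hv0 hrad hsupp hgen A hA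
  have hRpos : 0 < R := hR0.trans_lt hR
  obtain ⟨W, w0, f, Q, a, cw, h, hcw, hwm0, hw00, hw01, hw0R, hwI, hall⟩ :=
    mg_data hm hR0 hR hv hv0 hrad hsupp hgen
  have ha : 0 < a := h.a_pos
  obtain ⟨C, Y0, hC, hY0, hom⟩ := om_torus (R / a) cw 256 hcw (by norm_num)
  set κ : ℝ := Real.sqrt ((a / A) ^ 3) with hκ
  have hκ0 : 0 < κ := Real.sqrt_pos.2 (by positivity)
  refine ⟨C, min (1 / 2) (Y0 / κ), hC, lt_min (by norm_num) (by positivity), ?_⟩
  intro ρ u hρ hu hult huY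
  have hu12 : u < 1 / 2 := hult.trans_le (min_le_left _ _)
  have hu1 : u ≤ 1 := by linarith
  have huY0 : u < Y0 / κ := hult.trans_le (min_le_right _ _)
  set Y : ℝ := Real.sqrt (ρ * a ^ 3) with hY
  have hYpos : 0 < Y := Y_pos hρ ha
  have hYeq : Y = u ^ 160 * κ := by
    rw [huY, hκ, ← Real.sqrt_mul (by positivity), hY]
    congr 1
    field_simp
  have hu160 : u ^ 160 ≤ u := by
    calc u ^ 160 = u * u ^ 159 := by ring
      _ ≤ u * 1 := mul_le_mul_of_nonneg_left (pow_le_one₀ hu.le hu1) hu.le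
      _ = u := mul_one _
  have hYlt : Y < Y0 := by
    rw [hYeq]
    calc u ^ 160 * κ ≤ u * κ := mul_le_mul_of_nonneg_right hu160 hκ0.le
      _ < Y0 / κ * κ := mul_lt_mul_of_pos_right huY0 hκ0
      _ = Y0 := div_mul_cancel₀ _ hκ0.ne'
  obtain ⟨NS, hNS1, hNS⟩ := F4_side hρ (show 0 < max (2 * R) (8 * a / Y) from
    lt_max_of_lt_left (by linarith))
  refine ⟨NS, fun N hN ψ hψ hmin t T b ht1 ht2 hT1 hT2 hb1 => ?_⟩
  have hN1 : 1 ≤ N := hNS1.trans hN
  have hN0 : (0:ℝ) < N := by exact_mod_cast hN1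
  have hside := hNS N hN
  have hL := side_pos hρ hN1
  have hL3 := side_cube hρ hN1
  set L : ℝ := side ρ N with hLdef
  have h2R : 2 * R < L := (le_max_left _ _).trans_lt hside
  have hLY : a / L ≤ Y / 8 := by
    have h1 : 8 * a / Y < L := (le_max_right _ _).trans_lt hside
    rw [div_lt_iff₀ hYpos] at h1
    rw [div_le_div_iff₀ hL (by norm_num)]
    linarith
  have hNa : (N:ℝ) * (a / L) ^ 3 = Y ^ 2 := by
    rw [hY, Y_sq hρ ha, ← hL3, div_pow]
    field_simp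
  have hNA : (N:ℝ) * (A / L) ^ 3 = u ^ 320 := by
    have h1 : u ^ 320 = (u ^ 160) ^ 2 := by ring
    rw [h1, huY, Real.sq_sqrt (by positivity), ← hL3, div_pow]
    field_simp
  obtain ⟨hpot, hcV, hwV⟩ := hall L h2R
  have hvm : AEMeasurable v volume := hv.aestronglyMeasurable.aemeasurable
  have hVm : AEMeasurable (Vp m L v) lam3 := (aem_vper hL hvm).const_mul _
  have hRθ : R / L ≤ R / a * (a / L) := by
    refine le_of_eq ?_
    field_simp
  have hwm : Measurable fun t : ℝ => L ^ 2 * w0 (L * t) :=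
    (hwm0.comp (measurable_const_mul L)).const_mul _
  have hwn : ∀ t, 0 ≤ L ^ 2 * w0 (L * t) := fun t => by
    have := hw00 (L * t)
    positivity
  have hwb : ∀ t, L ^ 2 * w0 (L * t) ≤ ((R / L)⁻¹) ^ 2 := fun t => by
    have h1 := mul_le_mul_of_nonneg_left (hw01 (L * t)) (sq_nonneg L)
    refine h1.trans (le_of_eq ?_)
    rw [inv_div, div_pow, inv_pow]
    field_simp
  have hwz : ∀ t, R / L ≤ t → L ^ 2 * w0 (L * t) = 0 := fun t ht => by
    rw [div_le_iff₀ hL] at ht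
    rw [hw0R (L * t) (by linarith), mul_zero]
  have hwc : cw * (R / L) ≤ sig * ∫ t in Ioi (0:ℝ), t ^ 2 * (L ^ 2 * w0 (L * t)) := by
    rw [F5_scale hL]
    have h1 := mul_le_mul_of_nonneg_left hwI (inv_pos.2 hL).le
    calc cw * (R / L) = L⁻¹ * (cw * R) := by ring
      _ ≤ L⁻¹ * (sig * ∫ r in Ioi (0:ℝ), r ^ 2 * w0 r) := h1
      _ = _ := by ring
  -- the times
  set X : ℝ := A / L with hX
  have hX0 : 0 < X := by positivity
  have hlA : (X / u ^ 152) ^ 2 = (X / u ^ 160) ^ 2 * u ^ 16 := by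
    field_simp
  have hl0 : 0 < (X / u ^ 160) ^ 2 := by positivity
  have ht0 : 0 < t := by
    have : 0 < (X / u ^ 152) ^ 2 / 2 := by positivity
    linarith
  have hb0 : 0 < b := by
    have : 0 < (X / u ^ 160) ^ 2 / 2 := by positivity
    linarith
  have htT : t ≤ T := by
    refine ht2.trans (le_trans ?_ hT1)
    rw [hlA, div_div ((X / u ^ 160) ^ 2) (u ^ 3) 2, le_div_iff₀ (by positivity)]
    have h1 : u ^ 19 ≤ 1 / 4 := by
      calc u ^ 19 ≤ (1 / 2 : ℝ) ^ 19 := pow_le_pow_left₀ hu.le hu12.le 19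
        _ ≤ 1 / 4 := by norm_num
    calc 2 * ((X / u ^ 160) ^ 2 * u ^ 16) * (u ^ 3 * 2)
        = 4 * ((X / u ^ 160) ^ 2) * u ^ 19 := by ring
      _ ≤ 4 * ((X / u ^ 160) ^ 2) * (1 / 4) := mul_le_mul_of_nonneg_left h1 (by positivity)
      _ = (X / u ^ 160) ^ 2 := by ring
  have hTb : 64 * T ≤ 256 * b / u ^ 3 := by
    have h1 : (X / u ^ 160) ^ 2 / u ^ 3 ≤ 2 * b / u ^ 3 :=
      div_le_div_of_nonneg_right (by linarith) (by positivity)
    calc 64 * T ≤ 128 * ((X / u ^ 160) ^ 2 / u ^ 3) := by linarith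
      _ ≤ 128 * (2 * b / u ^ 3) := by linarith
      _ = 256 * b / u ^ 3 := by ring
  have htN : 1 ≤ N * (Real.sqrt (t / 8)) ^ 3 := by
    have hle : X / u ^ 152 / 4 ≤ Real.sqrt (t / 8) := by
      apply Real.le_sqrt_of_sq_le
      have h3 : (X / u ^ 152 / 4) ^ 2 = (X / u ^ 152) ^ 2 / 16 := by ring
      rw [h3]
      linarith
    have hcube : (X / u ^ 152 / 4) ^ 3 ≤ Real.sqrt (t / 8) ^ 3 :=
      pow_le_pow_left₀ (by positivity) hle 3
    have key : (N : ℝ) * (X / u ^ 152 / 4) ^ 3 = 1 / (64 * u ^ 136) := by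
      have h4 : (N : ℝ) * (X / u ^ 152 / 4) ^ 3 = ((N : ℝ) * X ^ 3) / (64 * u ^ 456) := by
        field_simp
        ring
      rw [h4, hNA]
      rw [div_eq_div_iff (by positivity) (by positivity)]
      ring
    have hu136 : u ^ 136 ≤ 1 / 64 := by
      calc u ^ 136 ≤ (1 / 2 : ℝ) ^ 136 := pow_le_pow_left₀ hu.le hu12.le 136
        _ ≤ 1 / 64 := by norm_num
    have h5 : (1 : ℝ) ≤ 1 / (64 * u ^ 136) := by
      rw [le_div_iff₀ (by positivity)]
      linarith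
    calc (1 : ℝ) ≤ 1 / (64 * u ^ 136) := h5
      _ = (N : ℝ) * (X / u ^ 152 / 4) ^ 3 := key.symm
      _ ≤ (N : ℝ) * Real.sqrt (t / 8) ^ 3 :=
        mul_le_mul_of_nonneg_left hcube (Nat.cast_nonneg _)
  exact hom Y hYpos hYlt N _ _ _ (fun t => L ^ 2 * w0 (L * t)) _ _ _ (h.scale hL) hLY hNa hRθ hwm hwn
    hwb hwz hwc (Vp m L v) hVm (F5_Vp_neg hL hrad) hpot hcV hwV ψ hψ hmin u hu hu1 t T b ht0 htN htT
    hb0 hTb

end Pool.Agent.Lib.MP_4952d6_mp.O

end

/-! ### O.WJ2 -/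

section

/-! # O.WJ2: occupation numbers and `Db`

`Db_eq`: `sum_mult` with `φ p = 1 - exp (-(b ksq p)) ∈ [0, 1]` (`fc f k = cf f k` by definition), summability of `φ (k j) ‖cf f k‖²` by comparison with `hasSum_norm_sq`.
`NP_le`: if `M' ≤ 2 |p_α|` then `|p_α| ≥ u/(2 l)`, `l² ksq p ≥ π² u²`, `1 - exp (-y) ≥ y/2` for `0 ≤ y ≤ 1` and monotonicity: `1 - exp (-(l² ksq p)) ≥ 1 - exp (-π² u²) ≥ π² u² / 2 ≥ u²`
(`π² u² ≤ 1` for `u ≤ 3/10`). Compare the series termwise.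
`D1_le`: `zM² ≤ 3 ksq/(4 π² M²) ≤ 3 l² ksq / (π² u ^ 64)` (`zM_sq_le`, `M ≥ u ^ 32/(2 l)`), `36 zM² ≤ 11 y / u ^ 64` with `y = l² ksq p`, `min 1 (11 y / u^64) ≤ (11/u^64) min 1 y`
(`11/u^64 ≥ 1`), `min 1 y ≤ (18/11)(1 - exp (-y))` (`1 - exp (-y) ≥ (1 - e⁻¹) min 1 y`: concavity on `[0,1]`, monotone beyond; `1 - e⁻¹ ≥ 11/18` as `e ≥ 2.718`). -/

set_option autoImplicit false
set_option linter.unusedSectionVars false
set_option linter.unusedVariables false
open MeasureTheory Function Filter Topology Set ComplexConjugate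

namespace Pool.Agent.Lib.MP_4952d6_mp.O

open LB

variable {ι : Type*} [Fintype ι] [DecidableEq ι]

private lemma WJ2_phi_nonneg {b : ℝ} (hb : 0 ≤ b) (p : Fin 3 → ℤ) :
    0 ≤ 1 - Real.exp (-(b * ksq p)) := by
  have h1 : Real.exp (-(b * ksq p)) ≤ 1 :=
    Real.exp_le_one_iff.2 (neg_nonpos.2 (mul_nonneg hb (ksq_nonneg _)))
  linarith

private lemma WJ2_phi_le (b : ℝ) (p : Fin 3 → ℤ) : 1 - Real.exp (-(b * ksq p)) ≤ 1 := by
  have := Real.exp_pos (-(b * ksq p))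
  linarith

private lemma WJ2_sum {b : ℝ} (hb : 0 ≤ b) (f : HS ι) (j : ι) :
    Summable fun K : ι → Fin 3 → ℤ => (1 - Real.exp (-(b * ksq (K j)))) * ‖cf f K‖ ^ 2 := by
  refine Summable.of_nonneg_of_le (fun K => mul_nonneg (WJ2_phi_nonneg hb _) (sq_nonneg _))
    (fun K => ?_) (hasSum_norm_sq f).summable
  exact mul_le_of_le_one_left (sq_nonneg _) (WJ2_phi_le b _)

private lemma WJ2_nk_nonneg (f : HS ι) (p : Fin 3 → ℤ) : 0 ≤ nk f p :=
  Finset.sum_nonneg fun j _ => sq_nonneg _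

private lemma WJ2_summable {b : ℝ} (hb : 0 ≤ b) (f : HS ι) :
    Summable fun p => (1 - Real.exp (-(b * ksq p))) * nk f p :=
  (sum_mult (φ := fun p => 1 - Real.exp (-(b * ksq p))) (fun p => WJ2_phi_nonneg hb p) f
    (fun j => WJ2_sum hb f j)).1

theorem Db_eq {b : ℝ} (hb : 0 ≤ b) (f : HS ι) :
    Db b (f : (ι → T3) → ℂ) = ∑' p, (1 - Real.exp (-(b * ksq p))) * nk f p :=
  (sum_mult (φ := fun p => 1 - Real.exp (-(b * ksq p))) (fun p => WJ2_phi_nonneg hb p) f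
    (fun j => WJ2_sum hb f j)).2

lemma WJ2_Db_nonneg {b : ℝ} (hb : 0 ≤ b) (f : HS ι) : 0 ≤ Db b (f : (ι → T3) → ℂ) := by
  rw [Db_eq hb]
  exact tsum_nonneg fun p => mul_nonneg (WJ2_phi_nonneg hb p) (WJ2_nk_nonneg f p)

private lemma WJ2_half {y : ℝ} (hy : 0 ≤ y) (hy1 : y ≤ 1) : y / 2 ≤ 1 - Real.exp (-y) := by
  have h1 := Real.add_one_le_exp y
  have h2 : Real.exp (-y) ≤ 1 - y / 2 := by
    rw [Real.exp_neg]
    rw [inv_le_iff_one_le_mul₀ (Real.exp_pos y)]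
    nlinarith
  linarith

private lemma WJ2_min {y : ℝ} (hy : 0 ≤ y) : min 1 y ≤ 18 / 11 * (1 - Real.exp (-y)) := by
  have he : Real.exp (-1) ≤ 7 / 18 := by
    rw [Real.exp_neg]
    rw [inv_le_comm₀ (Real.exp_pos 1) (by norm_num)]
    have := Real.exp_one_gt_d9
    norm_num
    linarith
  rcases le_total y 1 with h | h
  · rw [min_eq_right h]
    have h1 := convexOn_exp.2 (Set.mem_univ (0 : ℝ)) (Set.mem_univ (-1 : ℝ))
      (sub_nonneg.2 h) hy (by ring : 1 - y + y = 1)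
    simp only [smul_eq_mul, mul_zero, zero_add, Real.exp_zero, mul_one, mul_neg] at h1
    have h2 : y * Real.exp (-1) ≤ y * (7 / 18) := mul_le_mul_of_nonneg_left he hy
    linarith
  · rw [min_eq_left h]
    have h1 : Real.exp (-y) ≤ Real.exp (-1) := Real.exp_le_exp.2 (by linarith)
    linarith

private lemma WJ2_mom2 (p : Fin 3 → ℤ) (α : Fin 3) : 4 * Real.pi ^ 2 * (p α : ℝ) ^ 2 ≤ ksq p := by
  have h1 : (p α : ℝ) ^ 2 ≤ mom2 p := by
    have h2 : mom2 p = ∑ β, (p β : ℝ) ^ 2 := by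
      simp [mom2]
    rw [h2]
    exact Finset.single_le_sum (f := fun β => (p β : ℝ) ^ 2) (fun β _ => sq_nonneg _)
      (Finset.mem_univ α)
  unfold ksq
  exact mul_le_mul_of_nonneg_left h1 (by positivity)

theorem NP_le {u l : ℝ} (hu : 0 < u) (hu1 : u ≤ 3 / 10) (hl : 0 < l) {M' : ℕ}
    (hM' : u / l ≤ M') (f : HS ι) : NP M' f ≤ Db (l ^ 2) (f : (ι → T3) → ℂ) / u ^ 2 := by
  have hb : (0 : ℝ) ≤ l ^ 2 := by positivity
  have hs := (WJ2_summable hb f).div_const (u ^ 2)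
  have hu2 : 0 < u ^ 2 := by positivity
  have hpi : 2 ≤ Real.pi ^ 2 := by nlinarith [Real.pi_gt_three]
  have hpi2 : Real.pi ^ 2 ≤ 10 := by nlinarith [Real.pi_lt_d2, Real.pi_gt_three]
  have key : ∀ p : Fin 3 → ℤ, (∃ α, (M' : ℤ) ≤ 2 * |p α|) →
      u ^ 2 ≤ 1 - Real.exp (-(l ^ 2 * ksq p)) := by
    rintro p ⟨α, hα⟩
    have h1 : (M' : ℝ) ≤ 2 * |(p α : ℝ)| := by exact_mod_cast hα
    have h2 : u / l ≤ 2 * |(p α : ℝ)| := hM'.trans h1
    have h3 : (u / l) ^ 2 ≤ 4 * (p α : ℝ) ^ 2 := by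
      have h4 := pow_le_pow_left₀ (by positivity) h2 2
      rw [mul_pow, sq_abs] at h4
      linarith
    have h4 := WJ2_mom2 p α
    have h5 : Real.pi ^ 2 * u ^ 2 ≤ l ^ 2 * ksq p := by
      have h6 : u ^ 2 = l ^ 2 * (u / l) ^ 2 := by
        field_simp
      have h7 : Real.pi ^ 2 * (u / l) ^ 2 ≤ ksq p := by
        have := mul_le_mul_of_nonneg_left h3 (by positivity : (0 : ℝ) ≤ Real.pi ^ 2)
        linarith
      have h8 := mul_le_mul_of_nonneg_left h7 hb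
      rw [h6]
      linarith
    have h6 : Real.pi ^ 2 * u ^ 2 ≤ 1 := by
      have : u ^ 2 ≤ 1 / 10 := by nlinarith
      nlinarith
    have h7 := WJ2_half (by positivity : 0 ≤ Real.pi ^ 2 * u ^ 2) h6
    have h8 : Real.exp (-(l ^ 2 * ksq p)) ≤ Real.exp (-(Real.pi ^ 2 * u ^ 2)) :=
      Real.exp_le_exp.2 (by linarith)
    nlinarith
  rw [Db_eq hb, ← tsum_div_const]
  have hle : ∀ p : Fin 3 → ℤ, (open Classical in if ∃ α, (M' : ℤ) ≤ 2 * |p α| then nk f p else 0) ≤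
      (1 - Real.exp (-(l ^ 2 * ksq p))) * nk f p / u ^ 2 := by
    intro p
    split_ifs with h
    · rw [le_div_iff₀ hu2, mul_comm]
      exact mul_le_mul_of_nonneg_right (key p h) (WJ2_nk_nonneg f p)
    · exact div_nonneg (mul_nonneg (WJ2_phi_nonneg hb p) (WJ2_nk_nonneg f p)) hu2.le
  refine Summable.tsum_le_tsum hle ?_ hs
  refine Summable.of_nonneg_of_le (fun p => ?_) hle hs
  split_ifs
  · exact WJ2_nk_nonneg f p
  · exact le_rfl

theorem D1_le {u l : ℝ} (hu : 0 < u) (hu1 : u ≤ 1) (hl : 0 < l) {M : ℕ} (hM : 1 ≤ M)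
    (hMl : u ^ 32 / (2 * l) ≤ M) (f : HS ι) :
    D1 M f ≤ 18 * Db (l ^ 2) (f : (ι → T3) → ℂ) / u ^ 64 := by
  have hb : (0 : ℝ) ≤ l ^ 2 := by positivity
  have hs := ((WJ2_summable hb f).mul_left 18).div_const (u ^ 64)
  have hu64 : 0 < u ^ 64 := by positivity
  have hu64' : u ^ 64 ≤ 1 := pow_le_one₀ hu.le hu1
  have hM0 : (0 : ℝ) < M := by exact_mod_cast hM
  have hpi : 108 ≤ 11 * Real.pi ^ 2 := by nlinarith [Real.pi_gt_d2]
  have hM2 : u ^ 64 ≤ 4 * l ^ 2 * (M : ℝ) ^ 2 := by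
    have h1 := pow_le_pow_left₀ (by positivity) hMl 2
    rw [div_pow, div_le_iff₀ (by positivity)] at h1
    have h2 : (u ^ 32) ^ 2 = u ^ 64 := by rw [← pow_mul]
    rw [h2] at h1
    linarith
  have key : ∀ n : Fin 3 → ℤ, min 1 (36 * zM M n ^ 2) ≤
      18 / u ^ 64 * (1 - Real.exp (-(l ^ 2 * ksq n))) := by
    intro n
    have hk := ksq_nonneg n
    have h1 := zM_sq_le hM n
    have hy : 0 ≤ l ^ 2 * ksq n := mul_nonneg hb hk
    have h2 : 36 * zM M n ^ 2 ≤ 11 / u ^ 64 * (l ^ 2 * ksq n) := by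
      have h3 : 3 * ksq n / (4 * Real.pi ^ 2 * (M : ℝ) ^ 2) ≤
          3 * (l ^ 2 * ksq n) / (Real.pi ^ 2 * u ^ 64) := by
        rw [div_le_div_iff₀ (by positivity) (by positivity)]
        have h4 := mul_le_mul_of_nonneg_left hM2 (by positivity : 0 ≤ 3 * ksq n * Real.pi ^ 2)
        nlinarith
      have h4 : 36 * (3 * (l ^ 2 * ksq n) / (Real.pi ^ 2 * u ^ 64)) ≤
          11 / u ^ 64 * (l ^ 2 * ksq n) := by
        have h5 : 36 * (3 * (l ^ 2 * ksq n) / (Real.pi ^ 2 * u ^ 64)) =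
            108 * (l ^ 2 * ksq n) / (Real.pi ^ 2 * u ^ 64) := by ring
        have h6 : 11 / u ^ 64 * (l ^ 2 * ksq n) =
            11 * Real.pi ^ 2 * (l ^ 2 * ksq n) / (Real.pi ^ 2 * u ^ 64) := by
          field_simp
        rw [h5, h6]
        exact div_le_div_of_nonneg_right (mul_le_mul_of_nonneg_right hpi hy) (by positivity)
      linarith
    have hA : 1 ≤ 11 / u ^ 64 := by
      rw [le_div_iff₀ hu64]
      linarith
    have h3 : min 1 (36 * zM M n ^ 2) ≤ 11 / u ^ 64 * min 1 (l ^ 2 * ksq n) := by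
      rcases le_total (l ^ 2 * ksq n) 1 with h | h
      · rw [min_eq_right h]
        exact (min_le_right _ _).trans h2
      · rw [min_eq_left h, mul_one]
        exact (min_le_left _ _).trans hA
    have h4 := mul_le_mul_of_nonneg_left (WJ2_min hy) (by positivity : 0 ≤ 11 / u ^ 64)
    have h5 : 11 / u ^ 64 * (18 / 11 * (1 - Real.exp (-(l ^ 2 * ksq n)))) =
        18 / u ^ 64 * (1 - Real.exp (-(l ^ 2 * ksq n))) := by ring
    linarith
  rw [Db_eq hb, ← tsum_mul_left, ← tsum_div_const, D1]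
  have hle : ∀ n : Fin 3 → ℤ, min 1 (36 * zM M n ^ 2) * nk f n ≤
      18 * ((1 - Real.exp (-(l ^ 2 * ksq n))) * nk f n) / u ^ 64 := by
    intro n
    have h1 := mul_le_mul_of_nonneg_right (key n) (WJ2_nk_nonneg f n)
    refine h1.trans (le_of_eq ?_)
    ring
  refine Summable.tsum_le_tsum hle ?_ hs
  exact Summable.of_nonneg_of_le (fun p => mul_nonneg (le_min zero_le_one (by positivity))
    (WJ2_nk_nonneg f p)) hle hs

end Pool.Agent.Lib.MP_4952d6_mp.O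

end

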