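import Pool.Agent.Lib.MP_4952d6_mp.Po.N01
import Pool.Agent.Lib.MP_4952d6_mp.Po.N24
import Pool.Agent.Lib.MP_4952d6_mp.Po.N28

/-! Merged modules (to save import time): O.WJ4. -/

/-! ### O.WJ4 -/

section

/-! # O.WJ4: the parameters

`PO u a l N M M' K`: `l = a / u ^ 160`, `M = ⌊u ^ 32 / l⌋`, `M' = ⌈u / l⌉`, `K = {|k|_∞ ≥ M', ksq k ≤ 1/(u ^ 20 l²)}`.
`exists_PO`: for `0 < a < a₀ = u ^ 192 / 2`: `l = a/u ^ 160`, `u ^ 32 / l ≥ 2`, `M = ⌊u^32/l⌋₊ ≥ u^32/l - 1 ≥ u^32/(2l)`, `M' = ⌈u/l⌉₊ ≤ u/l + 1 ≤ 2 u/l`; `N l³ u ^ 160 = N a³ / u ^ 320 = 1`;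
`K` = the filter of a large box `bx R` (if `ksq k ≤ B` then `|k α| ≤ B` etc. for integers, so `R = ⌈1/(u^20 l²)⌉₊` works).
Consequences for `u ≤ 1/10`: `PO_K`: `4 M ≤ 4 u ^ 32/l ≤ u/l ≤ M'`; `PO_card`: `4 π² k_α² ≤ ksq k ≤ 1/(u^20 l²)` gives `|k_α| ≤ r := 1/(u^10 l)`, `r ≥ 1`, `K ⊆ bx ⌊r⌋₊`,
`(2 ⌊r⌋ + 1)³ ≤ (3 r)³`; `PO_MN`: `2 M³ ≤ 2 u ^ 96/l³ ≤ u ^ 32 / (l³ u ^ 160) = u ^ 32 N`; `PO_dlt`: `2 M³/(u^32 N) ≤ 2 (u^96/l³) l³ u^160/u^32`; `PO_T`, `PO_Ti`: `cW_le`, `cW_ge`,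
`M³ ≥ u^96/(8 l³)`, `M³ ≤ u^96/l³`. -/

set_option autoImplicit false
set_option linter.unusedSectionVars false
set_option linter.unusedVariables false
open MeasureTheory Function Filter Topology Set ComplexConjugate

namespace Pool.Agent.Lib.MP_4952d6_mp.O

open LB

/-- Parameters. -/
structure PO (u a l : ℝ) (N M M' : ℕ) (K : Finset (Fin 3 → ℤ)) : Prop where
  u0 : 0 < u
  l0 : 0 < l
  lu : l ≤ u ^ 32 / 2
  al : a = l * u ^ 160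
  Nl : (N : ℝ) * (l ^ 3 * u ^ 160) = 1
  Ml : u ^ 32 / (2 * l) ≤ M
  Mu : (M : ℝ) ≤ u ^ 32 / l
  M1 : 1 ≤ M
  Ml' : u / l ≤ M'
  Mu' : (M' : ℝ) ≤ 2 * u / l
  Kd : ∀ k, k ∈ K ↔ (∃ α, (M' : ℤ) ≤ |k α|) ∧ ksq k ≤ 1 / (u ^ 20 * l ^ 2)

lemma WJ4_ksq3 (p : Fin 3 → ℤ) :
    ksq p = 4 * Real.pi ^ 2 * ((p 0 : ℝ) ^ 2 + (p 1 : ℝ) ^ 2 + (p 2 : ℝ) ^ 2) := by
  unfold ksq mom2
  rw [Fin.sum_univ_three]

lemma WJ4_comp (p : Fin 3 → ℤ) (α : Fin 3) : 4 * Real.pi ^ 2 * (p α : ℝ) ^ 2 ≤ ksq p := by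
  unfold ksq mom2
  have hpi : 0 ≤ 4 * Real.pi ^ 2 := by positivity
  refine mul_le_mul_of_nonneg_left ?_ hpi
  exact Finset.single_le_sum (f := fun α => (p α : ℝ) ^ 2) (fun _ _ => sq_nonneg _) (Finset.mem_univ α)

lemma WJ4_pi : 36 ≤ 4 * Real.pi ^ 2 ∧ 4 * Real.pi ^ 2 ≤ 40 := by
  have h1 := Real.pi_gt_three
  have h2 := Real.pi_lt_d2
  constructor <;> nlinarith

lemma WJ4_abs_le_sq (z : ℤ) : |(z : ℝ)| ≤ (z : ℝ) ^ 2 := by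
  have h : |z| ≤ z ^ 2 := by
    rcases eq_or_ne z 0 with h | h
    · simp [h]
    · have h1 : 1 ≤ |z| := Int.one_le_abs h
      have h2 : z ^ 2 = |z| * |z| := by rw [← sq_abs]; ring
      rw [h2]; nlinarith
  exact_mod_cast h

theorem exists_PO {u : ℝ} (hu : 0 < u) (hu1 : u ≤ 1 / 10) : ∃ a₀ : ℝ, 0 < a₀ ∧
    ∀ (N : ℕ) (a : ℝ), 0 < a → a < a₀ → (N : ℝ) * a ^ 3 = u ^ 320 →
      ∃ (M M' : ℕ) (K : Finset (Fin 3 → ℤ)), PO u a (a / u ^ 160) N M M' K := by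
  classical
  refine ⟨u ^ 192 / 2, by positivity, fun N a ha ha0 hN => ?_⟩
  set l := a / u ^ 160 with hl
  have hu160 : 0 < u ^ 160 := by positivity
  have hl0 : 0 < l := by positivity
  have hal : a = l * u ^ 160 := by rw [hl]; field_simp
  have hlu : l ≤ u ^ 32 / 2 := by
    rw [hl, div_le_iff₀ hu160]
    have : u ^ 32 / 2 * u ^ 160 = u ^ 192 / 2 := by ring
    linarith
  have hNl : (N : ℝ) * (l ^ 3 * u ^ 160) = 1 := by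
    have h1 : (N : ℝ) * a ^ 3 = u ^ 320 * ((N : ℝ) * (l ^ 3 * u ^ 160)) := by
      rw [hal]; ring
    rw [hN] at h1
    have h2 : u ^ 320 ≠ 0 := by positivity
    have h3 : u ^ 320 * ((N : ℝ) * (l ^ 3 * u ^ 160)) = u ^ 320 * 1 := by rw [← h1, mul_one]
    exact mul_left_cancel₀ h2 h3
  have h2 : 2 ≤ u ^ 32 / l := by
    rw [le_div_iff₀ hl0]; linarith
  have hu32 : u ^ 32 ≤ u := pow_le_of_le_one hu.le (by linarith) (by norm_num)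
  have hul : 1 ≤ u / l := by
    rw [le_div_iff₀ hl0]; linarith
  have hfl := Nat.floor_le (show 0 ≤ u ^ 32 / l by positivity)
  have hfl2 := Nat.lt_floor_add_one (u ^ 32 / l)
  have hB0 : 0 ≤ 1 / (u ^ 20 * l ^ 2) := by positivity
  refine ⟨⌊u ^ 32 / l⌋₊, ⌈u / l⌉₊,
    (bx ⌈1 / (u ^ 20 * l ^ 2)⌉₊).filter (fun k => (∃ α, ((⌈u / l⌉₊ : ℕ) : ℤ) ≤ |k α|) ∧
      ksq k ≤ 1 / (u ^ 20 * l ^ 2)), ⟨hu, hl0, hlu, hal, hNl, ?_, hfl, ?_, ?_, ?_, ?_⟩⟩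
  · have : u ^ 32 / (2 * l) = u ^ 32 / l / 2 := by field_simp
    rw [this]
    linarith
  · rw [Nat.one_le_floor_iff]; linarith
  · exact Nat.le_ceil _
  · have h3 := (Nat.ceil_lt_add_one (show 0 ≤ u / l by positivity)).le
    have : 2 * u / l = u / l + u / l := by ring
    rw [this]
    linarith
  · intro k
    rw [Finset.mem_filter]
    constructor
    · rintro ⟨_, h⟩; exact h
    · intro h
      refine ⟨?_, h⟩
      rw [mem_bx]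
      intro α
      have h4 := WJ4_comp k α
      have h5 := WJ4_abs_le_sq (k α)
      have h6 := WJ4_pi.1
      have h7 : (k α : ℝ) ^ 2 ≤ ksq k := by nlinarith [sq_nonneg (k α : ℝ)]
      have h8 : |(k α : ℝ)| ≤ ((⌈1 / (u ^ 20 * l ^ 2)⌉₊ : ℕ) : ℝ) :=
        (h5.trans (h7.trans h.2)).trans (Nat.le_ceil _)
      exact_mod_cast h8

section
variable {u a l : ℝ} {N M M' : ℕ} {K : Finset (Fin 3 → ℤ)}

lemma PO_M' (h : PO u a l N M M' K) (hu : u ≤ 1 / 10) : 4 * (M : ℝ) ≤ M' := by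
  have h1 := h.Mu
  have h2 := h.Ml'
  have hl := h.l0
  have hu0 := h.u0
  have h3 : 4 * (u ^ 32 / l) ≤ u / l := by
    rw [← mul_div_assoc]
    refine div_le_div_of_nonneg_right ?_ hl.le
    have h4 : u ^ 32 ≤ u ^ 2 := pow_le_pow_of_le_one hu0.le (by linarith) (by norm_num)
    nlinarith
  linarith

theorem PO_K (h : PO u a l N M M' K) (hu : u ≤ 1 / 10) : KOK M M' K := by
  refine ⟨fun k hk => ?_, fun k hk => ((h.Kd k).1 hk).1, ?_⟩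
  · rw [h.Kd] at hk ⊢
    refine ⟨?_, by rw [ksq_neg]; exact hk.2⟩
    obtain ⟨α, hα⟩ := hk.1
    exact ⟨α, by simpa using hα⟩
  · have := PO_M' h hu
    exact_mod_cast this

theorem PO_N (h : PO u a l N M M' K) : 1 ≤ N := by
  rcases Nat.eq_zero_or_pos N with h0 | h0
  · have := h.Nl
    rw [h0] at this
    simp at this
  · exact h0

lemma PO_Npos (h : PO u a l N M M' K) : 0 < (N : ℝ) := by
  exact_mod_cast PO_N h

lemma PO_Neq (h : PO u a l N M M' K) : (N : ℝ) = 1 / (l ^ 3 * u ^ 160) := by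
  have hl := h.l0
  have hu0 := h.u0
  rw [eq_div_iff (by positivity)]
  exact h.Nl

theorem PO_aN (h : PO u a l N M M' K) : a * N = 1 / l ^ 2 := by
  have hl := h.l0
  have hu0 := h.u0
  rw [PO_Neq h, h.al]
  field_simp

theorem PO_X (h : PO u a l N M M' K) : (N : ℝ) ^ 2 * a * u ^ 160 = 1 / l ^ 5 := by
  have hl := h.l0
  have hu0 := h.u0
  rw [PO_Neq h, h.al]
  field_simp

theorem PO_card (h : PO u a l N M M' K) (hu : u ≤ 1 / 10) :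
    (K.card : ℝ) ≤ 27 / (u ^ 30 * l ^ 3) := by
  have hl := h.l0
  have hu0 := h.u0
  set r : ℝ := 1 / (u ^ 10 * l) with hr
  have hu10 : u ^ 10 ≤ 1 := pow_le_one₀ hu0.le (by linarith)
  have hu32 : u ^ 32 ≤ 1 := pow_le_one₀ hu0.le (by linarith)
  have hl1 : l ≤ 1 := by have := h.lu; linarith
  have hr0 : 0 < r := by positivity
  have hr1 : 1 ≤ r := by
    rw [hr, le_div_iff₀ (by positivity)]
    nlinarith
  have hr2 : 1 / (u ^ 20 * l ^ 2) = r ^ 2 := by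
    rw [hr]; field_simp
  have hsub : K ⊆ bx ⌊r⌋₊ := by
    intro k hk
    rw [mem_bx]
    intro α
    have h1 := ((h.Kd k).1 hk).2
    have h4 := WJ4_comp k α
    have h6 := WJ4_pi.1
    have h7 : (k α : ℝ) ^ 2 ≤ r ^ 2 := by
      rw [hr2] at h1
      nlinarith [sq_nonneg (k α : ℝ)]
    have h8 : |(k α : ℝ)| ≤ r := by
      have := sq_le_sq.1 h7
      rwa [abs_of_pos hr0] at this
    have h9 : (k α).natAbs ≤ ⌊r⌋₊ := by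
      refine Nat.le_floor ?_
      rw [Nat.cast_natAbs]
      exact_mod_cast h8
    have h10 : |k α| = ((k α).natAbs : ℤ) := by simp
    rw [h10]
    exact_mod_cast h9
  have hc : (bx ⌊r⌋₊).card = (2 * ⌊r⌋₊ + 1) ^ 3 := by
    unfold bx
    rw [Fintype.card_piFinset]
    simp only [Int.card_Icc, Finset.prod_const, Finset.card_univ, Fintype.card_fin]
    congr 1
    omega
  have h1 : (K.card : ℝ) ≤ ((2 * ⌊r⌋₊ + 1) ^ 3 : ℕ) := by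
    rw [← hc]
    exact_mod_cast Finset.card_le_card hsub
  have h2 : (⌊r⌋₊ : ℝ) ≤ r := Nat.floor_le hr0.le
  calc (K.card : ℝ) ≤ (2 * (⌊r⌋₊ : ℝ) + 1) ^ 3 := by
        refine h1.trans (le_of_eq ?_)
        push_cast; ring
    _ ≤ (3 * r) ^ 3 := by
        have : 2 * (⌊r⌋₊ : ℝ) + 1 ≤ 3 * r := by linarith
        gcongr
    _ = 27 / (u ^ 30 * l ^ 3) := by
        rw [hr]; field_simp; norm_num

lemma PO_M3 (h : PO u a l N M M' K) : (M : ℝ) ^ 3 * l ^ 3 ≤ u ^ 96 := by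
  have hl := h.l0
  have hu0 := h.u0
  have h1 : (M : ℝ) * l ≤ u ^ 32 := by
    have := h.Mu
    rwa [le_div_iff₀ hl] at this
  calc (M : ℝ) ^ 3 * l ^ 3 = ((M : ℝ) * l) ^ 3 := by ring
    _ ≤ (u ^ 32) ^ 3 := by gcongr
    _ = u ^ 96 := by ring

lemma PO_M2 (h : PO u a l N M M' K) : (M : ℝ) ^ 2 * l ^ 2 ≤ u ^ 64 := by
  have hl := h.l0
  have hu0 := h.u0
  have h1 : (M : ℝ) * l ≤ u ^ 32 := by
    have := h.Mu
    rwa [le_div_iff₀ hl] at this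
  calc (M : ℝ) ^ 2 * l ^ 2 = ((M : ℝ) * l) ^ 2 := by ring
    _ ≤ (u ^ 32) ^ 2 := by gcongr
    _ = u ^ 64 := by ring

lemma PO_M3l (h : PO u a l N M M' K) : u ^ 96 / 8 ≤ (M : ℝ) ^ 3 * l ^ 3 := by
  have hl := h.l0
  have hu0 := h.u0
  have h1 : u ^ 32 / 2 ≤ (M : ℝ) * l := by
    have := h.Ml
    have e : u ^ 32 / (2 * l) = u ^ 32 / 2 / l := by field_simp
    rw [e, div_le_iff₀ hl] at this
    exact this
  calc u ^ 96 / 8 = (u ^ 32 / 2) ^ 3 := by ring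
    _ ≤ ((M : ℝ) * l) ^ 3 := by gcongr
    _ = (M : ℝ) ^ 3 * l ^ 3 := by ring

theorem PO_MN (h : PO u a l N M M' K) (hu : u ≤ 1 / 10) : 2 * (M : ℝ) ^ 3 ≤ u ^ 32 * N := by
  have hl := h.l0
  have hu0 := h.u0
  have h3 := PO_M3 h
  rw [PO_Neq h]
  have e : u ^ 32 * (1 / (l ^ 3 * u ^ 160)) = 1 / (l ^ 3 * u ^ 128) := by
    field_simp
  rw [e, le_div_iff₀ (by positivity)]
  have h4 : u ^ 224 ≤ u := pow_le_of_le_one hu0.le (by linarith) (by norm_num)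
  calc 2 * (M : ℝ) ^ 3 * (l ^ 3 * u ^ 128) = 2 * ((M : ℝ) ^ 3 * l ^ 3) * u ^ 128 := by ring
    _ ≤ 2 * u ^ 96 * u ^ 128 := by gcongr
    _ = 2 * u ^ 224 := by ring
    _ ≤ 1 := by linarith

theorem PO_dlt (h : PO u a l N M M' K) (hu : u ≤ 1 / 10) : dlt (u ^ 32) M N ≤ 2 * u ^ 224 := by
  have hl := h.l0
  have hu0 := h.u0
  have h3 := PO_M3 h
  unfold dlt
  rw [PO_Neq h]
  have e : 2 * (M : ℝ) ^ 3 / (u ^ 32 * (1 / (l ^ 3 * u ^ 160))) = 2 * ((M : ℝ) ^ 3 * l ^ 3) * u ^ 128 := by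
    field_simp
  rw [e]
  calc 2 * ((M : ℝ) ^ 3 * l ^ 3) * u ^ 128 ≤ 2 * u ^ 96 * u ^ 128 := by gcongr
    _ = 2 * u ^ 224 := by ring

theorem PO_T (h : PO u a l N M M' K) : (N : ℝ) * cW M ^ 2 ≤ 27 / u ^ 256 := by
  have hl := h.l0
  have hu0 := h.u0
  have h1 := cW_le h.M1
  have h2 := PO_M3l h
  have hM : 0 < (M : ℝ) := by exact_mod_cast h.M1
  rw [PO_Neq h, le_div_iff₀ (by positivity)]
  have h3 : cW M ^ 2 ≤ 27 / 8 / (M : ℝ) ^ 3 := by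
    rw [le_div_iff₀ (by positivity)]; exact h1
  calc 1 / (l ^ 3 * u ^ 160) * cW M ^ 2 * u ^ 256 ≤ 1 / (l ^ 3 * u ^ 160) * (27 / 8 / (M : ℝ) ^ 3) * u ^ 256 := by
        gcongr
    _ = 27 * (u ^ 96 / 8 / ((M : ℝ) ^ 3 * l ^ 3)) := by field_simp
    _ ≤ 27 * 1 := by
        have : u ^ 96 / 8 / ((M : ℝ) ^ 3 * l ^ 3) ≤ 1 := by
          rw [div_le_one (by positivity)]; exact h2
        gcongr
    _ = 27 := by norm_num

theorem PO_Ti (h : PO u a l N M M' K) : 1 / ((N : ℝ) * cW M ^ 2) ≤ u ^ 256 := by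
  have hl := h.l0
  have hu0 := h.u0
  have h1 := cW_ge h.M1
  have h2 := PO_M3 h
  have hM : 0 < (M : ℝ) := by exact_mod_cast h.M1
  have hc := cW_pos h.M1
  have hN := PO_Npos h
  rw [div_le_iff₀ (by positivity), PO_Neq h]
  have e : u ^ 256 * (1 / (l ^ 3 * u ^ 160) * cW M ^ 2) = u ^ 96 * cW M ^ 2 / l ^ 3 := by
    field_simp
  rw [e, le_div_iff₀ (by positivity)]
  have h3 : l ^ 3 * 1 ≤ l ^ 3 * (cW M ^ 2 * (M : ℝ) ^ 3) := by gcongr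
  calc 1 * l ^ 3 = l ^ 3 * 1 := by ring
    _ ≤ l ^ 3 * (cW M ^ 2 * (M : ℝ) ^ 3) := h3
    _ = ((M : ℝ) ^ 3 * l ^ 3) * cW M ^ 2 := by ring
    _ ≤ u ^ 96 * cW M ^ 2 := by gcongr

theorem PO_tM (h : PO u a l N M M' K) : l ^ 2 * u ^ 16 * (M : ℝ) ^ 2 ≤ u ^ 80 := by
  have hu0 := h.u0
  have h2 := PO_M2 h
  calc l ^ 2 * u ^ 16 * (M : ℝ) ^ 2 = u ^ 16 * ((M : ℝ) ^ 2 * l ^ 2) := by ring
    _ ≤ u ^ 16 * u ^ 64 := by gcongr
    _ = u ^ 80 := by ring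

theorem PO_TM (h : PO u a l N M M' K) (hu : u ≤ 1 / 10) :
    l ^ 2 / u ^ 3 * (120 * (M : ℝ) ^ 2) ≤ 1 / 2 := by
  have hu0 := h.u0
  have h2 := PO_M2 h
  have h3 : u ^ 61 ≤ u ^ 3 := pow_le_pow_of_le_one hu0.le (by linarith) (by norm_num)
  have h4 : u ^ 3 ≤ (1 / 10) ^ 3 := by gcongr
  calc l ^ 2 / u ^ 3 * (120 * (M : ℝ) ^ 2) = 120 * ((M : ℝ) ^ 2 * l ^ 2) / u ^ 3 := by ring
    _ ≤ 120 * u ^ 64 / u ^ 3 := by gcongr
    _ = 120 * u ^ 61 := by field_simp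
    _ ≤ 1 / 2 := by norm_num at h4; linarith

theorem PO_ne (h : PO u a l N M M' K) {k : Fin 3 → ℤ} (hk : k ∈ K) : k ≠ 0 := by
  have hl := h.l0
  have hu0 := h.u0
  rintro rfl
  obtain ⟨α, hα⟩ := ((h.Kd 0).1 hk).1
  have h1 := h.Ml'
  have h2 : 0 < u / l := by positivity
  have h3 : (M' : ℝ) ≤ 0 := by
    simp only [Pi.zero_apply, abs_zero] at hα
    exact_mod_cast hα
  linarith

/-- Points of `Kb K M`. -/
theorem PO_Kb (h : PO u a l N M M' K) (hu : u ≤ 1 / 10) {p : Fin 3 → ℤ} (hp : p ∈ Kb K M) :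
    u ^ 2 ≤ l ^ 2 * ksq p ∧ ksq p ≤ 3 / (u ^ 20 * l ^ 2) := by
  have hl := h.l0
  have hu0 := h.u0
  unfold Kb at hp
  rw [Finset.mem_biUnion] at hp
  obtain ⟨k, hk, hp⟩ := hp
  rw [Finset.mem_image] at hp
  obtain ⟨n, hn, rfl⟩ := hp
  rw [mem_bx] at hn
  have hM4 := PO_M' h hu
  have hM2 := PO_M2 h
  obtain ⟨⟨α, hα⟩, hk2⟩ := (h.Kd k).1 hk
  constructor
  · have h1 : (M' : ℝ) ≤ |(k α : ℝ)| := by exact_mod_cast hα
    have h2 : |(n α : ℝ)| ≤ M := by have := hn α; exact_mod_cast this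
    have h3 : u / l ≤ M' := h.Ml'
    have h4 : 3 / 4 * (u / l) ≤ |((k + n) α : ℝ)| := by
      have : |(k α : ℝ)| ≤ |((k + n) α : ℝ)| + |(n α : ℝ)| := by
        have e : (k α : ℝ) = ((k + n) α : ℝ) - (n α : ℝ) := by
          simp only [Pi.add_apply, Int.cast_add]; ring
        rw [e]
        exact abs_sub _ _
      linarith
    have h5 : (3 / 4 * (u / l)) ^ 2 ≤ ((k + n) α : ℝ) ^ 2 := by
      rw [← sq_abs ((k + n) α : ℝ)]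
      have : 0 ≤ 3 / 4 * (u / l) := by positivity
      gcongr
    have h6 := WJ4_comp (k + n) α
    have h7 := WJ4_pi.1
    have h8 : 36 * (3 / 4 * (u / l)) ^ 2 ≤ ksq (k + n) := by
      refine le_trans ?_ h6
      gcongr
    calc u ^ 2 ≤ 36 * (3 / 4) ^ 2 * u ^ 2 := by nlinarith [sq_nonneg u]
      _ = l ^ 2 * (36 * (3 / 4 * (u / l)) ^ 2) := by field_simp
      _ ≤ l ^ 2 * ksq (k + n) := by gcongr
  · have h1 : ksq (k + n) ≤ 2 * ksq k + 2 * ksq n := by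
      rw [WJ4_ksq3, WJ4_ksq3, WJ4_ksq3]
      simp only [Pi.add_apply, Int.cast_add]
      have hpi : 0 ≤ 4 * Real.pi ^ 2 := by positivity
      have : ((k 0 : ℝ) + n 0) ^ 2 + ((k 1 : ℝ) + n 1) ^ 2 + ((k 2 : ℝ) + n 2) ^ 2
          ≤ 2 * ((k 0 : ℝ) ^ 2 + (k 1 : ℝ) ^ 2 + (k 2 : ℝ) ^ 2)
            + 2 * ((n 0 : ℝ) ^ 2 + (n 1 : ℝ) ^ 2 + (n 2 : ℝ) ^ 2) := by
        nlinarith [sq_nonneg ((k 0 : ℝ) - n 0), sq_nonneg ((k 1 : ℝ) - n 1), sq_nonneg ((k 2 : ℝ) - n 2)]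
      calc 4 * Real.pi ^ 2 * (((k 0 : ℝ) + n 0) ^ 2 + ((k 1 : ℝ) + n 1) ^ 2 + ((k 2 : ℝ) + n 2) ^ 2)
          ≤ 4 * Real.pi ^ 2 * (2 * ((k 0 : ℝ) ^ 2 + (k 1 : ℝ) ^ 2 + (k 2 : ℝ) ^ 2)
            + 2 * ((n 0 : ℝ) ^ 2 + (n 1 : ℝ) ^ 2 + (n 2 : ℝ) ^ 2)) := by gcongr
        _ = _ := by ring
    have h2 : ksq n ≤ 120 * (M : ℝ) ^ 2 := by
      have hc : ∀ β, (n β : ℝ) ^ 2 ≤ (M : ℝ) ^ 2 := by
        intro β
        have h1 : |(n β : ℝ)| ≤ (M : ℝ) := by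
          have := hn β
          exact_mod_cast this
        have h2 : |(n β : ℝ)| ≤ |(M : ℝ)| := by
          rwa [abs_of_nonneg (Nat.cast_nonneg M : (0:ℝ) ≤ (M : ℝ))]
        exact sq_le_sq.2 h2
      rw [WJ4_ksq3]
      have h3 : (n 0 : ℝ) ^ 2 + (n 1 : ℝ) ^ 2 + (n 2 : ℝ) ^ 2 ≤ 3 * (M : ℝ) ^ 2 := by
        linarith [hc 0, hc 1, hc 2]
      have h4 := WJ4_pi.2
      have h5 : 0 ≤ (n 0 : ℝ) ^ 2 + (n 1 : ℝ) ^ 2 + (n 2 : ℝ) ^ 2 := by positivity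
      calc 4 * Real.pi ^ 2 * ((n 0 : ℝ) ^ 2 + (n 1 : ℝ) ^ 2 + (n 2 : ℝ) ^ 2)
          ≤ 40 * (3 * (M : ℝ) ^ 2) := by gcongr
        _ = _ := by ring
    have h3 : 240 * (M : ℝ) ^ 2 ≤ 1 / (u ^ 20 * l ^ 2) := by
      rw [le_div_iff₀ (by positivity)]
      have h4 : u ^ 84 ≤ u ^ 3 := pow_le_pow_of_le_one hu0.le (by linarith) (by norm_num)
      have h5 : u ^ 3 ≤ (1 / 10) ^ 3 := by gcongr
      calc 240 * (M : ℝ) ^ 2 * (u ^ 20 * l ^ 2) = 240 * ((M : ℝ) ^ 2 * l ^ 2) * u ^ 20 := by ring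
        _ ≤ 240 * u ^ 64 * u ^ 20 := by gcongr
        _ = 240 * u ^ 84 := by ring
        _ ≤ 1 := by norm_num at h5; linarith
    have e : 3 / (u ^ 20 * l ^ 2) = 2 * (1 / (u ^ 20 * l ^ 2)) + 1 / (u ^ 20 * l ^ 2) := by ring
    rw [e]
    linarith

end

end Pool.Agent.Lib.MP_4952d6_mp.O

end

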