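import Pool.Agent.Lib.MP_4952d6_mp.Po.N16
import Pool.Agent.Lib.MP_4952d6_mp.Po.N30

/-! Merged modules (to save import time): O.WJ6. -/

/-! ### O.WJ6 -/

section

/-! # O.WJ6: lower bound for the lattice sum

`t = l² u^16`, `G = 8 π / l²`, `G' = 8 π a (1 - u^39) N = G (1 - u^39)` (`PO_aN`), `E k = Es b lam l k > 0` on `K`.
`e2_ge`: `(et t (k+n) th n)² = th n ² exp (-(t ksq (k+n)))` (`Mul_et_sq`); pair `n` and `-n` (`bx_neg`, `th_neg`): `ksq (k ± n) = ksq k + ksq n ± c`,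
`(exp (-(t ksq (k+n))) + exp (-(t ksq (k-n))))/2 = exp (-(t (ksq k + ksq n))) cosh (t c) ≥ exp (-(t ksq k)) (1 - t ksq n)`, `ksq n ≤ 12 π² M² ≤ 120 M²` on the box, `Σ th² = 1`.
`main_lower`: for `k ∈ K`: `0 ≤ epsf G' E - E ≤ G' ≤ 26/l²`, so `e2 (epsf G' E - E) ≥ et² (epsf G' E - E) - 120 u^80 · 26/l²` (`PO_tM`); `epsf G' E ≥ epsf G E - u^39 G` (`epsf_sub_le`). Sum over `K` (`PO_card`):
losses `(1/2)(27/(u^30 l³)) (120 u^80 + u^39) 26/l² ≤ 400 u^9/l⁵ + ..`. Then `(1/2) Σ_K et² (epsf G E - E) = (1/2) Σ_K et² (epsf G E - E - G) + (G/2) Σ_K et²`; the first sum is `≥ LSO` because all terms of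
`LSO` are `≤ 0` (`epsf_le`) and `K` does not contain `0` (`PO_ne`); summability: `|..| ≤ et² G`, `summable_et_sq`. `G/2 = 4 π/l²` and
`Σ' et² - Σ_K et² ≤ #(bx M') + Σ'_{ksq p > 1/(u^20 l²)} et²` (a point outside `K` is in `bx M'` or has `ksq` large; `et² ≤ 1`), `#(bx M') = (2M'+1)³ ≤ (5u/l)³`;
for `ksq p ≥ 1/(u^20 l²)`: `et t p ² = et (t/2) p ² exp (-(t/2) ksq p) ≤ et (t/2) p ² exp (-1/(2u⁴))`, `LimA_S` at `t/2 ≤ 1`: `Σ' et (t/2)² ≤ 8 (√(t/2))⁻³ ≤ 24/(l³ u^24)`, and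
`exp (-x) ≤ 5040/x⁷` (`x⁷/7! ≤ exp x`) with `x = 1/(2u⁴)`: `exp (-1/(2u⁴)) ≤ 645120 u^28`. Total loss `≤ 10^9 u/l⁵`. -/

set_option autoImplicit false
set_option linter.unusedSectionVars false
set_option linter.unusedVariables false
open MeasureTheory Function Filter Topology Set ComplexConjugate

namespace Pool.Agent.Lib.MP_4952d6_mp.O

open LB

lemma WJ6_ksq (k n : Fin 3 → ℤ) : ksq (k + n) + ksq (k - n) = 2 * ksq k + 2 * ksq n := by
  unfold ksq mom2
  simp only [Fin.sum_univ_three, Pi.add_apply, Pi.sub_apply]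
  push_cast
  ring

lemma WJ6_am (x y : ℝ) : 2 * Real.exp ((x + y) / 2) ≤ Real.exp x + Real.exp y := by
  have h1 : Real.exp x = Real.exp (x / 2) ^ 2 := by
    rw [← Real.exp_nat_mul]; congr 1; push_cast; ring
  have h2 : Real.exp y = Real.exp (y / 2) ^ 2 := by
    rw [← Real.exp_nat_mul]; congr 1; push_cast; ring
  have h3 : Real.exp ((x + y) / 2) = Real.exp (x / 2) * Real.exp (y / 2) := by
    rw [← Real.exp_add]; congr 1; ring
  rw [h1, h2, h3]
  nlinarith [sq_nonneg (Real.exp (x / 2) - Real.exp (y / 2))]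

lemma WJ6_pi2 : Real.pi ^ 2 ≤ 10 := by
  have h1 := Real.pi_lt_d2
  have h2 := Real.pi_pos
  nlinarith

lemma WJ6_card (R : ℕ) : ((bx R).card : ℝ) = (2 * (R : ℝ) + 1) ^ 3 := by
  have h : (bx R).card = (2 * R + 1) ^ 3 := by
    unfold bx
    rw [Fintype.card_piFinset]
    simp only [Int.card_Icc, Finset.prod_const, Finset.card_univ, Fintype.card_fin]
    congr 1
    omega
  rw [h]
  push_cast
  ring

lemma WJ6_exp {u : ℝ} (hu : 0 < u) : Real.exp (-(1 / (2 * u ^ 4))) ≤ 645120 * u ^ 28 := by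
  have hx : 0 < 1 / (2 * u ^ 4) := by positivity
  have h1 := Real.pow_div_factorial_le_exp (1 / (2 * u ^ 4)) hx.le 7
  have h2 : (1 / (2 * u ^ 4)) ^ 7 / (Nat.factorial 7 : ℝ) = 1 / (645120 * u ^ 28) := by
    have : (Nat.factorial 7 : ℝ) = 5040 := by norm_num [Nat.factorial]
    rw [this]
    field_simp
    norm_num
  rw [h2] at h1
  rw [Real.exp_neg]
  have h3 : 0 < 1 / (645120 * u ^ 28) := by positivity
  have h4 := inv_anti₀ h3 h1
  refine h4.trans (le_of_eq ?_)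
  rw [one_div, inv_inv]

theorem e2_ge {t : ℝ} (ht : 0 < t) {M : ℕ} (hM : 1 ≤ M) (k : Fin 3 → ℤ) :
    et t k ^ 2 * (1 - t * (120 * (M : ℝ) ^ 2)) ≤ e2 t M k := by
  have hs : e2 t M k = ∑ n ∈ bx M, th M n ^ 2 * Real.exp (-(t * ksq (k + n))) := by
    unfold e2
    refine Finset.sum_congr rfl fun n _ => ?_
    rw [mul_pow, Mul_et_sq, mul_comm]
  have hs' : ∑ n ∈ bx M, th M n ^ 2 * Real.exp (-(t * ksq (k + n)))
      = ∑ n ∈ bx M, th M n ^ 2 * Real.exp (-(t * ksq (k - n))) := by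
    refine Finset.sum_equiv (Equiv.neg _) (fun n => ?_) (fun n _ => ?_)
    · simp only [Equiv.neg_apply]
      exact bx_neg.symm
    · simp only [Equiv.neg_apply, th_neg, sub_neg_eq_add]
  have h1 : ∑ n ∈ bx M, th M n ^ 2 * (et t k ^ 2 * (1 - t * (120 * (M : ℝ) ^ 2)))
      ≤ ∑ n ∈ bx M, th M n ^ 2 * (1 / 2 * (Real.exp (-(t * ksq (k + n)))
        + Real.exp (-(t * ksq (k - n))))) := by
    refine Finset.sum_le_sum fun n hn => mul_le_mul_of_nonneg_left ?_ (sq_nonneg _)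
    have h2 := WJ6_am (-(t * ksq (k + n))) (-(t * ksq (k - n)))
    have h3 : (-(t * ksq (k + n)) + -(t * ksq (k - n))) / 2 = -(t * ksq k) + -(t * ksq n) := by
      have := WJ6_ksq k n
      have h4 : ksq (k - n) = 2 * ksq k + 2 * ksq n - ksq (k + n) := by linarith
      rw [h4]; ring
    rw [h3, Real.exp_add] at h2
    have h5 := Real.add_one_le_exp (-(t * ksq n))
    have h6 : ksq n ≤ 120 * (M : ℝ) ^ 2 := by
      refine (ksq_bx hn).trans ?_
      have := WJ6_pi2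
      nlinarith [sq_nonneg (M : ℝ)]
    have h7 : t * ksq n ≤ t * (120 * (M : ℝ) ^ 2) := mul_le_mul_of_nonneg_left h6 ht.le
    rw [Mul_et_sq]
    have h8 := Real.exp_pos (-(t * ksq k))
    have h9 : Real.exp (-(t * ksq k)) * (1 - t * (120 * (M : ℝ) ^ 2))
        ≤ Real.exp (-(t * ksq k)) * Real.exp (-(t * ksq n)) :=
      mul_le_mul_of_nonneg_left (by linarith) h8.le
    linarith
  rw [← Finset.sum_mul, th_sq_sum hM, one_mul] at h1
  refine h1.trans (le_of_eq ?_)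
  have h2 : ∀ n, th M n ^ 2 * (1 / 2 * (Real.exp (-(t * ksq (k + n))) + Real.exp (-(t * ksq (k - n)))))
      = 1 / 2 * (th M n ^ 2 * Real.exp (-(t * ksq (k + n))))
        + 1 / 2 * (th M n ^ 2 * Real.exp (-(t * ksq (k - n)))) := fun n => by ring
  simp only [h2]
  rw [Finset.sum_add_distrib, ← Finset.mul_sum, ← Finset.mul_sum, ← hs', hs]
  ring

section
variable {u a l : ℝ} {N M M' : ℕ} {K : Finset (Fin 3 → ℤ)}

theorem tail_et (h : PO u a l N M M' K) (hu : u ≤ 1 / 10) :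
    ∑' p, et (l ^ 2 * u ^ 16) p ^ 2 - ∑ k ∈ K, et (l ^ 2 * u ^ 16) k ^ 2 ≤ 20000000 * u / l ^ 3 := by
  classical
  have hu0 := h.u0
  have hl0 := h.l0
  have hlu := h.lu
  have hu1 : u ≤ 1 := by linarith
  have hu32 : u ^ 32 ≤ 1 := pow_le_one₀ hu0.le hu1
  have hl1 : l ≤ 1 := by linarith
  set t : ℝ := l ^ 2 * u ^ 16 with ht
  have ht0 : 0 < t := by positivity
  have ht1 : t ≤ 1 := by
    have h1 : l ^ 2 ≤ 1 := pow_le_one₀ hl0.le hl1
    have h2 : u ^ 16 ≤ 1 := pow_le_one₀ hu0.le hu1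
    have h3 : 0 < u ^ 16 := by positivity
    have h4 : 0 < l ^ 2 := by positivity
    nlinarith
  set B : ℝ := 1 / (u ^ 20 * l ^ 2) with hB
  have htB : t / 2 * B = 1 / (2 * u ^ 4) := by
    rw [ht, hB]
    field_simp
  have hpt : ∀ p, et t p ^ 2 ≤ (if p ∈ K then et t p ^ 2 else 0) + (if p ∈ bx M' then 1 else 0)
      + Real.exp (-(1 / (2 * u ^ 4))) * et (t / 2) p ^ 2 := by
    intro p
    have h1 : et t p ^ 2 ≤ 1 := by
      have := Mul_one_sub_et_sq_nonneg ht0.le p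
      linarith
    have h2 : 0 ≤ Real.exp (-(1 / (2 * u ^ 4))) * et (t / 2) p ^ 2 := by positivity
    by_cases hK : p ∈ K
    · rw [if_pos hK]
      have : (0 : ℝ) ≤ if p ∈ bx M' then 1 else 0 := by split_ifs <;> norm_num
      linarith
    · rw [if_neg hK]
      by_cases hx : p ∈ bx M'
      · rw [if_pos hx]; linarith
      · rw [if_neg hx]
        have h3 : ∃ α, (M' : ℤ) ≤ |p α| := by
          rw [mem_bx] at hx
          push Not at hx
          obtain ⟨α, hα⟩ := hx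
          exact ⟨α, hα.le⟩
        have h4 : B < ksq p := by
          by_contra h5
          exact hK ((h.Kd p).mpr ⟨h3, not_lt.mp h5⟩)
        rw [Mul_et_sq, Mul_et_sq, ← Real.exp_add, zero_add, zero_add]
        apply Real.exp_le_exp.mpr
        rw [← htB]
        have h5 : t / 2 * B ≤ t / 2 * ksq p := mul_le_mul_of_nonneg_left h4.le (by positivity)
        linarith
  have hS1 := summable_et_sq ht0
  have hS2 := summable_et_sq (t := t / 2) (by positivity)
  have hA : HasSum (fun p => if p ∈ K then et t p ^ 2 else 0)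
      (∑ p ∈ K, if p ∈ K then et t p ^ 2 else 0) :=
    hasSum_sum_of_ne_finset_zero (fun p hp => if_neg hp)
  have hBx : HasSum (fun p => if p ∈ bx M' then (1 : ℝ) else 0)
      (∑ p ∈ bx M', if p ∈ bx M' then (1 : ℝ) else 0) :=
    hasSum_sum_of_ne_finset_zero (fun p hp => if_neg hp)
  have hC := (hS2.hasSum).mul_left (Real.exp (-(1 / (2 * u ^ 4))))
  have hle := hasSum_le hpt hS1.hasSum ((hA.add hBx).add hC)
  have e1 : ∑ p ∈ K, (if p ∈ K then et t p ^ 2 else 0) = ∑ k ∈ K, et t k ^ 2 :=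
    Finset.sum_congr rfl fun p hp => if_pos hp
  have e2' : ∑ p ∈ bx M', (if p ∈ bx M' then (1 : ℝ) else 0) = (2 * (M' : ℝ) + 1) ^ 3 := by
    rw [← WJ6_card, Finset.sum_congr rfl fun p hp => if_pos hp]
    simp
  rw [e1, e2'] at hle
  -- the box
  have hb : (2 * (M' : ℝ) + 1) ^ 3 ≤ 125 * u / l ^ 3 := by
    have h1 := h.Mu'
    have hlu' : l ≤ u := by
      have h2 : u ^ 32 ≤ u := by
        calc u ^ 32 = u ^ 31 * u := by ring
          _ ≤ 1 * u := mul_le_mul_of_nonneg_right (pow_le_one₀ hu0.le hu1) hu0.le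
          _ = u := one_mul u
      linarith
    have h3 : 1 ≤ u / l := by rw [le_div_iff₀ hl0]; linarith
    have h4 : 2 * (M' : ℝ) + 1 ≤ 5 * (u / l) := by
      have : 2 * u / l = 2 * (u / l) := by ring
      linarith
    calc (2 * (M' : ℝ) + 1) ^ 3 ≤ (5 * (u / l)) ^ 3 := pow_le_pow_left₀ (by positivity) h4 3
      _ = 125 * (u ^ 3 / l ^ 3) := by ring
      _ ≤ 125 * (u / l ^ 3) := by
          have : u ^ 3 ≤ u := by
            calc u ^ 3 = u ^ 2 * u := by ring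
              _ ≤ 1 * u := mul_le_mul_of_nonneg_right (pow_le_one₀ hu0.le hu1) hu0.le
              _ = u := one_mul u
          gcongr
      _ = 125 * u / l ^ 3 := by ring
  -- the tail
  have hS := LimA_S (t := t / 2) (by positivity) (by linarith)
  have hsq : 2 / 3 * (l * u ^ 8) ≤ Real.sqrt (t / 2) := by
    apply Real.le_sqrt_of_sq_le
    have : (2 / 3 * (l * u ^ 8)) ^ 2 = 4 / 9 * t := by rw [ht]; ring
    rw [this]; linarith
  have hsq0 : 0 < 2 / 3 * (l * u ^ 8) := by positivity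
  have hS' : ∑' p : Fin 3 → ℤ, et (t / 2) p ^ 2 ≤ 27 / (l ^ 3 * u ^ 24) := by
    refine hS.trans ?_
    have h1 : (Real.sqrt (t / 2))⁻¹ ≤ (2 / 3 * (l * u ^ 8))⁻¹ := inv_anti₀ hsq0 hsq
    have h2 : (Real.sqrt (t / 2))⁻¹ ^ 3 ≤ (2 / 3 * (l * u ^ 8))⁻¹ ^ 3 :=
      pow_le_pow_left₀ (by positivity) h1 3
    calc 8 * (Real.sqrt (t / 2))⁻¹ ^ 3 ≤ 8 * (2 / 3 * (l * u ^ 8))⁻¹ ^ 3 := by linarith
      _ = 27 / (l ^ 3 * u ^ 24) := by
          field_simp
          norm_num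
  have hexp := WJ6_exp hu0
  have hS0 : 0 ≤ ∑' p : Fin 3 → ℤ, et (t / 2) p ^ 2 := tsum_nonneg fun p => sq_nonneg _
  have htail : Real.exp (-(1 / (2 * u ^ 4))) * ∑' p : Fin 3 → ℤ, et (t / 2) p ^ 2
      ≤ 17418240 * u / l ^ 3 := by
    calc Real.exp (-(1 / (2 * u ^ 4))) * ∑' p : Fin 3 → ℤ, et (t / 2) p ^ 2
        ≤ (645120 * u ^ 28) * (27 / (l ^ 3 * u ^ 24)) :=
          mul_le_mul hexp hS' hS0 (by positivity)
      _ = 17418240 * (u ^ 4 / l ^ 3) := by
          field_simp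
          norm_num
      _ ≤ 17418240 * (u / l ^ 3) := by
          have : u ^ 4 ≤ u := by
            calc u ^ 4 = u ^ 3 * u := by ring
              _ ≤ 1 * u := mul_le_mul_of_nonneg_right (pow_le_one₀ hu0.le hu1) hu0.le
              _ = u := one_mul u
          gcongr
      _ = 17418240 * u / l ^ 3 := by ring
  have hfin : 125 * u / l ^ 3 + 17418240 * u / l ^ 3 ≤ 20000000 * u / l ^ 3 := by
    rw [← add_div]
    apply div_le_div_of_nonneg_right _ (by positivity)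
    linarith
  linarith

theorem main_lower (h : PO u a l N M M' K) (hu : u ≤ 1 / 10) {b lam : ℝ} (hb : 0 < b)
    (hlb : |lam| * b ≤ 1 / 8) :
    1 / 2 * LSO (l ^ 2 * u ^ 16) b lam l + 4 * Real.pi / l ^ 2 * ∑' p, et (l ^ 2 * u ^ 16) p ^ 2
        - 1000000000 * u / l ^ 5
      ≤ 1 / 2 * ∑ k ∈ K, e2 (l ^ 2 * u ^ 16) M k
        * (epsf (8 * Real.pi * a * (1 - u ^ 39) * N) (Es b lam l k) - Es b lam l k) := by
  classical
  have hu0 := h.u0
  have hl0 := h.l0
  have hlu := h.lu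
  have hu1 : u ≤ 1 := by linarith
  set t : ℝ := l ^ 2 * u ^ 16 with ht
  have ht0 : 0 < t := by positivity
  set G : ℝ := 8 * Real.pi / l ^ 2 with hG
  have hpi := Real.pi_pos
  have hG0 : 0 < G := by positivity
  have hG26 : G ≤ 26 / l ^ 2 := by
    rw [hG]
    apply div_le_div_of_nonneg_right _ (by positivity)
    linarith [Real.pi_lt_d2]
  have hu39 : 0 < u ^ 39 := by positivity
  have hu39' : u ^ 39 ≤ 1 := pow_le_one₀ hu0.le hu1
  have hGG : 8 * Real.pi * a * (1 - u ^ 39) * N = G * (1 - u ^ 39) := by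
    have h1 := PO_aN h
    calc 8 * Real.pi * a * (1 - u ^ 39) * N = 8 * Real.pi * (1 - u ^ 39) * (a * N) := by ring
      _ = G * (1 - u ^ 39) := by rw [h1, hG]; ring
  rw [hGG]
  set G' : ℝ := G * (1 - u ^ 39) with hG'
  have hG'0 : 0 ≤ G' := mul_nonneg hG0.le (by linarith)
  have hG'G : G' ≤ G := by
    rw [hG']
    nlinarith
  set L2 : ℝ := 1 / l ^ 2 with hL2
  have hL20 : 0 < L2 := by positivity
  have hG26' : G ≤ 26 * L2 := by rw [hL2]; convert hG26 using 1; ring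
  -- pointwise
  have hpt : ∀ k ∈ K, et t k ^ 2 * (epsf G (Es b lam l k) - Es b lam l k - G) + G * et t k ^ 2
      - (u ^ 39 + 120 * u ^ 80) * (26 * L2)
      ≤ e2 t M k * (epsf G' (Es b lam l k) - Es b lam l k) := by
    intro k hk
    have hE : 0 < Es b lam l k := Es_pos hb hlb hl0 (PO_ne h hk)
    have h1 := epsf_ge hG'0 hE.le
    have h2 := epsf_le hG'0 hE.le
    have h3 := epsf_sub_le hG'0 hG'G hE
    have h4 := e2_ge ht0 h.M1 k
    have h5 := PO_tM h
    rw [← ht] at h5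
    have h6 : et t k ^ 2 ≤ 1 := by
      have := Mul_one_sub_et_sq_nonneg ht0.le k
      linarith
    have h7 : 0 < et t k ^ 2 := pow_pos (et_pos t k) 2
    set D : ℝ := epsf G' (Es b lam l k) - Es b lam l k with hD
    have hD0 : 0 ≤ D := by rw [hD]; linarith
    have hD1 : D ≤ 26 * L2 := by rw [hD]; linarith
    have h8 : et t k ^ 2 * (1 - t * (120 * (M : ℝ) ^ 2)) * D ≤ e2 t M k * D :=
      mul_le_mul_of_nonneg_right h4 hD0
    have h9 : t * (120 * (M : ℝ) ^ 2) ≤ 120 * u ^ 80 := by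
      have : t * (120 * (M : ℝ) ^ 2) = 120 * (t * (M : ℝ) ^ 2) := by ring
      rw [this]; linarith
    have h9' : 0 ≤ t * (120 * (M : ℝ) ^ 2) := by positivity
    have h10 : et t k ^ 2 * (t * (120 * (M : ℝ) ^ 2)) * D ≤ 120 * u ^ 80 * (26 * L2) := by
      have h11 : et t k ^ 2 * (t * (120 * (M : ℝ) ^ 2)) ≤ 1 * (120 * u ^ 80) :=
        mul_le_mul h6 h9 h9' zero_le_one
      rw [one_mul] at h11
      exact mul_le_mul h11 hD1 hD0 (by positivity)
    have h12 : epsf G (Es b lam l k) - Es b lam l k ≤ D + G * u ^ 39 := by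
      have : G - G' = G * u ^ 39 := by rw [hG']; ring
      rw [hD]; linarith
    have h13 : et t k ^ 2 * (epsf G (Es b lam l k) - Es b lam l k) ≤ et t k ^ 2 * (D + G * u ^ 39) :=
      mul_le_mul_of_nonneg_left h12 h7.le
    have h14 : et t k ^ 2 * (G * u ^ 39) ≤ 1 * (26 * L2 * u ^ 39) :=
      mul_le_mul h6 (mul_le_mul_of_nonneg_right hG26' hu39.le) (by positivity) zero_le_one
    have h15 : et t k ^ 2 * (1 - t * (120 * (M : ℝ) ^ 2)) * D
        = et t k ^ 2 * D - et t k ^ 2 * (t * (120 * (M : ℝ) ^ 2)) * D := by ring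
    have h16 : et t k ^ 2 * (D + G * u ^ 39) = et t k ^ 2 * D + et t k ^ 2 * (G * u ^ 39) := by ring
    have h17 : et t k ^ 2 * (epsf G (Es b lam l k) - Es b lam l k - G) + G * et t k ^ 2
        = et t k ^ 2 * (epsf G (Es b lam l k) - Es b lam l k) := by ring
    rw [h17]
    rw [h15] at h8
    rw [h16] at h13
    have h18 : (u ^ 39 + 120 * u ^ 80) * (26 * L2)
        = 1 * (26 * L2 * u ^ 39) + 120 * u ^ 80 * (26 * L2) := by ring
    rw [h18]
    linarith
  have hsum := Finset.sum_le_sum hpt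
  rw [Finset.sum_sub_distrib, Finset.sum_add_distrib, ← Finset.mul_sum, Finset.sum_const,
    nsmul_eq_mul] at hsum
  -- cardinality
  have hcard := PO_card h hu
  have hc : (K.card : ℝ) * ((u ^ 39 + 120 * u ^ 80) * (26 * L2)) ≤ 2 * u / l ^ 5 := by
    have h1 : (K.card : ℝ) * ((u ^ 39 + 120 * u ^ 80) * (26 * L2))
        ≤ 27 / (u ^ 30 * l ^ 3) * ((u ^ 39 + 120 * u ^ 80) * (26 * L2)) :=
      mul_le_mul_of_nonneg_right hcard (by positivity)
    have h2 : 27 / (u ^ 30 * l ^ 3) * ((u ^ 39 + 120 * u ^ 80) * (26 * L2))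
        = 702 * (u ^ 9 + 120 * u ^ 50) / l ^ 5 := by
      rw [hL2]
      field_simp
      ring
    rw [h2] at h1
    refine h1.trans ?_
    apply div_le_div_of_nonneg_right _ (by positivity)
    have h3 : u ^ 8 ≤ (1 / 10) ^ 8 := pow_le_pow_left₀ hu0.le hu 8
    have h4 : u ^ 49 ≤ (1 / 10) ^ 49 := pow_le_pow_left₀ hu0.le hu 49
    have h5 : u ^ 9 = u ^ 8 * u := by ring
    have h6 : u ^ 50 = u ^ 49 * u := by ring
    rw [h5, h6]
    have h7 : u ^ 8 * u ≤ (1 / 10) ^ 8 * u := mul_le_mul_of_nonneg_right h3 hu0.le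
    have h8 : u ^ 49 * u ≤ (1 / 10) ^ 49 * u := mul_le_mul_of_nonneg_right h4 hu0.le
    have h9 : (1 / 10 : ℝ) ^ 8 * u + 120 * ((1 / 10 : ℝ) ^ 49 * u) ≤ 1 / 702 * u := by
      have : (1 / 10 : ℝ) ^ 8 + 120 * (1 / 10 : ℝ) ^ 49 ≤ 1 / 702 := by norm_num
      nlinarith
    linarith
  -- the lattice sum
  have hLS : LSO t b lam l ≤ ∑ k ∈ K, et t k ^ 2 * (epsf G (Es b lam l k) - Es b lam l k - G) := by
    unfold LSO
    rw [← hG]
    set F : (Fin 3 → ℤ) → ℝ := fun p => if p = 0 then 0 else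
      et t p ^ 2 * (epsf G (Es b lam l p) - Es b lam l p - G) with hF
    have hF0 : ∀ p, 0 ≤ -F p := by
      intro p
      simp only [hF]
      split_ifs with hp
      · simp
      · have hE := Es_nonneg hb hlb hl0 p
        have h2 := epsf_le hG0.le hE
        have h7 : 0 ≤ et t p ^ 2 := sq_nonneg _
        nlinarith [mul_nonneg h7 (show 0 ≤ -(epsf G (Es b lam l p) - Es b lam l p - G) by linarith)]
    have hFle : ∀ p, -F p ≤ G * et t p ^ 2 := by
      intro p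
      simp only [hF]
      have h7 : 0 ≤ et t p ^ 2 := sq_nonneg _
      split_ifs with hp
      · simp only [neg_zero]; positivity
      · have hE := Es_nonneg hb hlb hl0 p
        have h2 := epsf_ge hG0.le hE
        have h3 : et t p ^ 2 * (Es b lam l p - epsf G (Es b lam l p)) ≤ 0 :=
          mul_nonpos_of_nonneg_of_nonpos h7 (by linarith)
        linarith
    have hFs : Summable fun p => -F p :=
      Summable.of_nonneg_of_le hF0 hFle ((summable_et_sq ht0).mul_left G)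
    have h3 := hFs.sum_le_tsum K (fun p _ => hF0 p)
    rw [tsum_neg, Finset.sum_neg_distrib] at h3
    have h4 : ∑ k ∈ K, F k = ∑ k ∈ K, et t k ^ 2 * (epsf G (Es b lam l k) - Es b lam l k - G) := by
      refine Finset.sum_congr rfl fun k hk => ?_
      simp only [hF]
      rw [if_neg (PO_ne h hk)]
    rw [h4] at h3
    linarith
  -- the tail
  have htl := tail_et h hu
  rw [← ht] at htl
  have hG2 : 4 * Real.pi / l ^ 2 = G / 2 := by rw [hG]; ring
  rw [hG2]
  have htl2 : G * (∑' p, et t p ^ 2 - ∑ k ∈ K, et t k ^ 2) ≤ 520000000 * u / l ^ 5 := by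
    calc G * (∑' p, et t p ^ 2 - ∑ k ∈ K, et t k ^ 2) ≤ G * (20000000 * u / l ^ 3) :=
          mul_le_mul_of_nonneg_left htl hG0.le
      _ ≤ 26 / l ^ 2 * (20000000 * u / l ^ 3) := mul_le_mul_of_nonneg_right hG26 (by positivity)
      _ = 520000000 * u / l ^ 5 := by
          field_simp
          norm_num
  have hfin : 1 / 2 * (2 * u / l ^ 5) + 1 / 2 * (520000000 * u / l ^ 5) ≤ 1000000000 * u / l ^ 5 := by
    have h1 : 1 / 2 * (2 * u / l ^ 5) + 1 / 2 * (520000000 * u / l ^ 5) = 260000001 * u / l ^ 5 := by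
      ring
    rw [h1]
    apply div_le_div_of_nonneg_right _ (by positivity)
    linarith
  have hGe : G * (∑' p, et t p ^ 2 - ∑ k ∈ K, et t k ^ 2)
      = G * (∑' p, et t p ^ 2) - G * ∑ k ∈ K, et t k ^ 2 := by ring
  rw [hGe] at htl2
  linarith

end

end Pool.Agent.Lib.MP_4952d6_mp.O

end

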