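import Pool.Agent.Lib.MP_4952d6_mp.Po.N18
import Pool.Agent.Lib.MP_4952d6_mp.Po.N20
import Pool.Agent.Lib.MP_4952d6_mp.Po.N24
import Pool.Agent.Lib.MP_4952d6_mp.Po.N28

/-! Merged modules (to save import time): O.WI2, O.WI3. -/

/-! ### O.WI2 -/

section

/-! # O.WI2: the averaged inequality for one mode

Average over `w` (`L = 4 M + 1`) of `pair_ineq` for `θ = wnd M w`, `f = phw s M w f`, `κ = (1+2s) N cW²` (`phw_NB`), `e2 = e2 t M k` (`ip_wnd`, `ip_ef`, `e2_neg`; `wnd_win.bm`),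
`E (-k) = E k` is built in (one `E`). All terms are linear: `EW_add`, `EW_sub`, `EW_mul`, `EW_mono`. Then `mode_alg` with
`n = EW yy θ (phw) ≤ N cW² (1 + 3 δ²)` (`EW_phw_yy` with `wnd_uW`, `A = 1`, `i = 0`, `‖θ‖ ≤ pW t 0`; `Σ th² nk f (0+n) ≤ cW² N` by `th_le`, `tsum_nk`),
`y = Yk + Yk(-k)`, `W = w0 N + D1/(4 w0)`, `V = 26 cW³ M³ N vb / s² + rk k + rk (-k)`, where
`zz (rf (-k) θ) (ef k) φ ≤ (1/2)(yy (rf (-k) θ) φ / A + A yy (ef k) φ)` with `A = cW M³ > 0` (Cauchy-Schwarz and AM-GM in every term),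
`m = EW mu2 ≥ 2 (cW (e2 N - W)) - V` by `EW_phw_zz` and `thvk_ge` for `k` and `-k` (`e2_neg`).
`(g / cW) 26 cW³ M³ N vb / s² = 26 g N (cW² M³) vb / s² ≤ 88 g N vb / s²` (`cW_le`: `26 · 27/8 = 87.75`). -/

set_option autoImplicit false
set_option linter.unusedSectionVars false
set_option linter.unusedVariables false
open MeasureTheory Function Filter Topology Set ComplexConjugate

namespace Pool.Agent.Lib.MP_4952d6_mp.O

open LB

variable {ι : Type*} [Fintype ι] [DecidableEq ι]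

/-- Average of `Σ_j ‖⟨ef k|_j φ_w‖²`. -/
noncomputable def Yk (t s : ℝ) (M L : ℕ) (f : HS ι) (k : Fin 3 → ℤ) : ℝ :=
  EW L (fun w => yy (ef t (wnd M w) k) (phw s M w f))

/-- Average of `Σ_j ‖⟨rf (-k) θ|_j φ_w‖²`. -/
noncomputable def Zk (t s : ℝ) (M L : ℕ) (f : HS ι) (k : Fin 3 → ℤ) : ℝ :=
  EW L (fun w => yy (rf t (wnd M w) (-k) (fun x => ((wnd M w x : ℝ) : ℂ))) (phw s M w f))

/-- Average of `‖RR k φ_w‖²`. -/
noncomputable def Rk (t s : ℝ) (M L : ℕ) (f : HS ι) (k : Fin 3 → ℤ) : ℝ :=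
  EW L (fun w => ‖RR t (wnd M w) k (phw s M w f)‖ ^ 2)

/-- Error from the remainder of the commutator. -/
noncomputable def rk2 (t s : ℝ) (M L : ℕ) (f : HS ι) (k : Fin 3 → ℤ) : ℝ :=
  1 / 2 * (Zk t s M L f k / (cW M * (M : ℝ) ^ 3) + cW M * (M : ℝ) ^ 3 * Yk t s M L f k)

lemma WI2_zz_le {A : ℝ} (hA : 0 < A) (u v : T3 → ℂ) (f : HS ι) :
    zz u v f ≤ 1 / 2 * (yy u f / A + A * yy v f) := by
  unfold zz yy
  rw [Finset.sum_div, Finset.mul_sum, ← Finset.sum_add_distrib, Finset.mul_sum]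
  refine Finset.sum_le_sum fun j _ => ?_
  have h1 : (inner ℂ (br u j f) (br v j f)).re ≤ ‖br u j f‖ * ‖br v j f‖ :=
    (Complex.re_le_norm _).trans (norm_inner_le_norm _ _)
  refine h1.trans ?_
  generalize ‖br u j f‖ = x
  generalize ‖br v j f‖ = y
  have h2 : 1 / 2 * (x ^ 2 / A + A * y ^ 2) - x * y = 1 / 2 * ((x - A * y) ^ 2 / A) := by
    field_simp
    ring
  have h3 : 0 ≤ 1 / 2 * ((x - A * y) ^ 2 / A) := by positivity
  linarith

lemma WI2_lin (L : ℕ) (a b d m : T3 → ℝ) (c1 e c2 c3 : ℝ) :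
    EW L (fun w => c1 * (e * a w) - c2 * (b w + d w) + c3 * m w) =
      c1 * (e * EW L a) - c2 * (EW L b + EW L d) + c3 * EW L m := by
  rw [EW_add L (fun w => c1 * (e * a w) - c2 * (b w + d w)) (fun w => c3 * m w),
    EW_sub L (fun w => c1 * (e * a w)) (fun w => c2 * (b w + d w)),
    EW_mul L c1 (fun w => e * a w), EW_mul L e a, EW_mul L c2 (fun w => b w + d w),
    EW_add L b d, EW_mul L c3 m]

lemma WI2_lin3 (L : ℕ) (a b d m : T3 → ℝ) (c1 c2 : ℝ) :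
    EW L (fun w => c1 * (a w + b w) + c2 * (d w + m w)) =
      c1 * (EW L a + EW L b) + c2 * (EW L d + EW L m) := by
  rw [EW_add L (fun w => c1 * (a w + b w)) (fun w => c2 * (d w + m w)),
    EW_mul L c1 (fun w => a w + b w), EW_mul L c2 (fun w => d w + m w),
    EW_add L a b, EW_add L d m]

lemma WI2_lin2 (L : ℕ) (a b p q r u : T3 → ℝ) (A : ℝ) :
    EW L (fun w => a w + b w - (1 / 2 * (p w / A + A * q w) + 1 / 2 * (r w / A + A * u w))) =
      EW L a + EW L b - (1 / 2 * (EW L p / A + A * EW L q)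
        + 1 / 2 * (EW L r / A + A * EW L u)) := by
  have h : ∀ p q : T3 → ℝ, EW L (fun w => 1 / 2 * (p w / A + A * q w)) =
      1 / 2 * (EW L p / A + A * EW L q) := by
    intro p q
    rw [EW_mul L (1 / 2) (fun w => p w / A + A * q w),
      EW_add L (fun w => p w / A) (fun w => A * q w), EW_mul L A q]
    have h1 : (fun w => p w / A) = fun w => A⁻¹ * p w := by
      funext w
      rw [div_eq_mul_inv, mul_comm]
    rw [h1, EW_mul L A⁻¹ p]
    ring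
  rw [EW_sub L (fun w => a w + b w)
      (fun w => 1 / 2 * (p w / A + A * q w) + 1 / 2 * (r w / A + A * u w)),
    EW_add L a b, EW_add L (fun w => 1 / 2 * (p w / A + A * q w))
      (fun w => 1 / 2 * (r w / A + A * u w)), h, h]

theorem Yk_le {t : ℝ} (ht : 0 < t) {M : ℕ} (hM : 1 ≤ M) (hN : 1 ≤ Fintype.card ι) {s : ℝ}
    (hs : 0 < s) (hMN : 2 * (M : ℝ) ^ 3 ≤ s * Fintype.card ι) (k : Fin 3 → ℤ) (f : HS ι)
    (hf : ‖f‖ = 1) :
    Yk t s M (4 * M + 1) f k ≤ ∑ n ∈ bx M, (et t (k + n) * th M n) ^ 2 * nk f (k + n)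
      + 3 * dlt s M (Fintype.card ι) ^ 2 * (Fintype.card ι * cW M ^ 2) := by
  have h := EW_phw_yy ht (L := 4 * M + 1) (R := M) hM (by omega) (by omega) hN hs hMN
    (fun n => et t (k + n) * th M n) k (A := 1) zero_le_one 1 (by
      intro w x
      rw [← ef_uW ht hM, one_mul, show (1 : ℕ) = 0 + 1 from rfl, pW_succ, pW_zero]
      exact norm_ef_le ht (wnd_win hM w) k x) f hf
  rw [one_pow, one_mul] at h
  refine le_trans (le_of_eq ?_) h
  unfold Yk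
  simp only [ef_uW ht hM]

theorem Zk_le {t : ℝ} (ht : 0 < t) {M : ℕ} (hM : 1 ≤ M) (hN : 1 ≤ Fintype.card ι) {s : ℝ}
    (hs : 0 < s) (hMN : 2 * (M : ℝ) ^ 3 ≤ s * Fintype.card ι) (k : Fin 3 → ℤ) (f : HS ι)
    (hf : ‖f‖ = 1) :
    Zk t s M (4 * M + 1) f k ≤ ∑ n ∈ bx (2 * M), tn t M n ^ 2 * nk f (k + n)
      + 3 * dlt s M (Fintype.card ι) ^ 2
        * ((cW M * (M : ℝ) ^ 3) ^ 2 * (Fintype.card ι * cW M ^ 2)) := by
  have h := EW_phw_yy ht (L := 4 * M + 1) (R := 2 * M) hM (by omega) (by omega) hN hs hMN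
    (fun n => et t (k + n) * tn t M n) k (A := cW M * (M : ℝ) ^ 3)
    (mul_nonneg (cW_pos hM).le (by positivity)) 2 (by
      intro w x
      rw [← rfth_uW ht hM, show (2 : ℕ) = 0 + 1 + 1 from rfl, pW_succ, pW_succ, pW_zero]
      exact norm_rf_theta_le ht (wnd_win hM w) (-k) x) f hf
  have h1 : Zk t s M (4 * M + 1) f k = EW (4 * M + 1) (fun w =>
      yy (uW (fun n => et t (k + n) * tn t M n) k (2 * M) w) (phw s M w f)) := by
    unfold Zk
    simp only [rfth_uW ht hM]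
  rw [h1]
  refine h.trans (add_le_add (Finset.sum_le_sum fun n _ => ?_) le_rfl)
  refine mul_le_mul_of_nonneg_right ?_ (nk_nonneg _ _)
  rw [mul_pow]
  have h2 : et t (k + n) ^ 2 ≤ 1 := pow_le_one₀ (et_pos _ _).le (et_le_one ht.le _)
  calc et t (k + n) ^ 2 * tn t M n ^ 2 ≤ 1 * tn t M n ^ 2 :=
        mul_le_mul_of_nonneg_right h2 (sq_nonneg _)
    _ = tn t M n ^ 2 := one_mul _

theorem EW_mu2 {t : ℝ} (ht : 0 < t) {M : ℕ} (hM : 1 ≤ M) (hN : 1 ≤ Fintype.card ι) {s : ℝ}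
    (hs : 0 < s) (hs1 : s ≤ 1) (hMN : 2 * (M : ℝ) ^ 3 ≤ s * Fintype.card ι)
    (htM : 2 * Real.pi ^ 2 * t * (M : ℝ) ^ 2 ≤ 1) {w0 : ℝ} (hw : 0 < w0) (k : Fin 3 → ℤ)
    (f : HS ι) (hf : ‖f‖ = 1) :
    2 * (cW M * (e2 t M k * Fintype.card ι - (w0 * Fintype.card ι + D1 M f / (4 * w0))))
        - (26 * (cW M ^ 3 * (M : ℝ) ^ 3 * Fintype.card ι) * vb M f / s ^ 2
          + (rk2 t s M (4 * M + 1) f k + rk2 t s M (4 * M + 1) f (-k)))
      ≤ EW (4 * M + 1) (fun w => mu2 t (wnd M w) k (phw s M w f)) := by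
  have hA : 0 < cW M * (M : ℝ) ^ 3 := mul_pos (cW_pos hM) (by
    have : (0 : ℝ) < M := by exact_mod_cast hM
    positivity)
  have e1 : ∀ w : T3, zz (fun x => ((wnd M w x : ℝ) : ℂ)) (rf t (wnd M w) k (ef t (wnd M w) k))
        (phw s M w f)
      + zz (fun x => ((wnd M w x : ℝ) : ℂ)) (rf t (wnd M w) (-k) (ef t (wnd M w) (-k)))
        (phw s M w f)
      - (1 / 2 * (yy (rf t (wnd M w) (-k) (fun x => ((wnd M w x : ℝ) : ℂ))) (phw s M w f)
            / (cW M * (M : ℝ) ^ 3)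
          + cW M * (M : ℝ) ^ 3 * yy (ef t (wnd M w) k) (phw s M w f))
        + 1 / 2 * (yy (rf t (wnd M w) (- -k) (fun x => ((wnd M w x : ℝ) : ℂ))) (phw s M w f)
            / (cW M * (M : ℝ) ^ 3)
          + cW M * (M : ℝ) ^ 3 * yy (ef t (wnd M w) (-k)) (phw s M w f)))
      ≤ mu2 t (wnd M w) k (phw s M w f) := by
    intro w
    have h1 := WI2_zz_le hA (rf t (wnd M w) (-k) (fun x => ((wnd M w x : ℝ) : ℂ)))
      (ef t (wnd M w) k) (phw s M w f)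
    have h2 := WI2_zz_le hA (rf t (wnd M w) (- -k) (fun x => ((wnd M w x : ℝ) : ℂ)))
      (ef t (wnd M w) (-k)) (phw s M w f)
    rw [neg_neg] at h2 ⊢
    unfold mu2
    linarith
  have e2 := EW_mono (4 * M + 1) e1
  have e3 : EW (4 * M + 1) (fun w =>
      zz (fun x => ((wnd M w x : ℝ) : ℂ)) (rf t (wnd M w) k (ef t (wnd M w) k)) (phw s M w f)
      + zz (fun x => ((wnd M w x : ℝ) : ℂ)) (rf t (wnd M w) (-k) (ef t (wnd M w) (-k)))
        (phw s M w f)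
      - (1 / 2 * (yy (rf t (wnd M w) (-k) (fun x => ((wnd M w x : ℝ) : ℂ))) (phw s M w f)
            / (cW M * (M : ℝ) ^ 3)
          + cW M * (M : ℝ) ^ 3 * yy (ef t (wnd M w) k) (phw s M w f))
        + 1 / 2 * (yy (rf t (wnd M w) (- -k) (fun x => ((wnd M w x : ℝ) : ℂ))) (phw s M w f)
            / (cW M * (M : ℝ) ^ 3)
          + cW M * (M : ℝ) ^ 3 * yy (ef t (wnd M w) (-k)) (phw s M w f)))) =
      EW (4 * M + 1) (fun w => zz (fun x => ((wnd M w x : ℝ) : ℂ))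
          (rf t (wnd M w) k (ef t (wnd M w) k)) (phw s M w f))
      + EW (4 * M + 1) (fun w => zz (fun x => ((wnd M w x : ℝ) : ℂ))
          (rf t (wnd M w) (-k) (ef t (wnd M w) (-k))) (phw s M w f))
      - (rk2 t s M (4 * M + 1) f k + rk2 t s M (4 * M + 1) f (-k)) := by
    unfold rk2 Zk Yk
    exact WI2_lin2 _ _ _ _ _ _ _ _
  rw [e3] at e2
  have h1 := EW_phw_zz ht (L := 4 * M + 1) hM (by omega) hN hs hs1 hMN k f hf
  have h2 := EW_phw_zz ht (L := 4 * M + 1) hM (by omega) hN hs hs1 hMN (-k) f hf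
  have h3 := thvk_ge ht hM htM k hw f
  have h4 := thvk_ge ht hM htM (-k) hw f
  rw [e2_neg] at h4
  rw [hf, one_pow, mul_one] at h3 h4
  have h5 : 26 * (cW M ^ 3 * (M : ℝ) ^ 3 * Fintype.card ι) * vb M f / s ^ 2 =
      2 * (13 * (cW M ^ 3 * (M : ℝ) ^ 3 * Fintype.card ι) * vb M f / s ^ 2) := by ring
  rw [h5]
  linarith

lemma WI2_n_le {t : ℝ} (ht : 0 < t) {M : ℕ} (hM : 1 ≤ M) (hN : 1 ≤ Fintype.card ι) {s : ℝ}
    (hs : 0 < s) (hMN : 2 * (M : ℝ) ^ 3 ≤ s * Fintype.card ι) (f : HS ι) (hf : ‖f‖ = 1) :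
    EW (4 * M + 1) (fun w => yy (fun x => ((wnd M w x : ℝ) : ℂ)) (phw s M w f)) ≤
      Fintype.card ι * cW M ^ 2 * (1 + 3 * dlt s M (Fintype.card ι) ^ 2) := by
  have h2 := EW_phw_yy ht (L := 4 * M + 1) (R := M) hM (by omega) (by omega) hN hs hMN
    (th M) 0 (A := 1) zero_le_one 0 (by
      intro w x
      rw [← wnd_uW hM, one_mul, pW_zero, Complex.norm_real, Real.norm_eq_abs,
        abs_of_nonneg ((wnd_win hM w).nn x)]) f hf
  rw [one_pow, one_mul] at h2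
  simp only [← wnd_uW hM] at h2
  have h3 : ∑ n ∈ bx M, th M n ^ 2 * nk f (0 + n) ≤ cW M ^ 2 * Fintype.card ι := by
    calc ∑ n ∈ bx M, th M n ^ 2 * nk f (0 + n) ≤ ∑ n ∈ bx M, cW M ^ 2 * nk f n := by
          refine Finset.sum_le_sum fun n _ => ?_
          rw [zero_add]
          exact mul_le_mul_of_nonneg_right
            (pow_le_pow_left₀ (th_nonneg hM n) (th_le hM n) 2) (nk_nonneg _ _)
      _ = cW M ^ 2 * ∑ n ∈ bx M, nk f n := by rw [Finset.mul_sum]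
      _ ≤ cW M ^ 2 * ∑' n, nk f n := by
          refine mul_le_mul_of_nonneg_left ?_ (sq_nonneg _)
          exact (summable_nk f).sum_le_tsum _ (fun n _ => nk_nonneg _ _)
      _ = cW M ^ 2 * Fintype.card ι := by rw [tsum_nk, hf, one_pow, mul_one]
  refine h2.trans ?_
  have h4 : (Fintype.card ι : ℝ) * cW M ^ 2 * (1 + 3 * dlt s M (Fintype.card ι) ^ 2) =
      cW M ^ 2 * Fintype.card ι
        + 3 * dlt s M (Fintype.card ι) ^ 2 * (Fintype.card ι * cW M ^ 2) := by ring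
  rw [h4]
  exact add_le_add h3 le_rfl

lemma WI2_rk2_nonneg {t s : ℝ} {M : ℕ} (hM : 1 ≤ M) (f : HS ι) (p : Fin 3 → ℤ) :
    0 ≤ rk2 t s M (4 * M + 1) f p := by
  have hY : 0 ≤ Yk t s M (4 * M + 1) f p := EW_nonneg _ fun w => yy_nonneg _ _
  have hZ : 0 ≤ Zk t s M (4 * M + 1) f p := EW_nonneg _ fun w => yy_nonneg _ _
  have hA : 0 ≤ cW M * (M : ℝ) ^ 3 := mul_nonneg (cW_pos hM).le (by positivity)
  unfold rk2
  exact mul_nonneg (by norm_num) (add_nonneg (div_nonneg hZ hA) (mul_nonneg hA hY))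

/-- Algebra of the last step, for real numbers. -/
lemma WI2_fin {c N M s E g e n y m δ w0 D vb rr R : ℝ} (hc : 0 < c) (hN : 0 < N) (hM : 0 < M)
    (hs : 0 < s) (hw : 0 < w0) (hE : 0 < E) (hg : 0 ≤ g) (he : 0 ≤ e) (he1 : e ≤ 1)
    (hcM : c ^ 2 * M ^ 3 ≤ 27 / 8) (hvb : 0 ≤ vb) (hD : 0 ≤ D) (hy : 0 ≤ y) (hr : 0 ≤ rr)
    (hn : n ≤ N * c ^ 2 * (1 + 3 * δ ^ 2))
    (hm : 2 * (c * (e * N - (w0 * N + D / (4 * w0))))
      - (26 * (c ^ 3 * M ^ 3 * N) * vb / s ^ 2 + rr) ≤ m)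
    (h1 : E / ((1 + 2 * s) * (N * c ^ 2) + 1) * (E / epsf (g * N) E - 1) * (e * n)
        - E / (2 * ((1 + 2 * s) * (N * c ^ 2) + 1)) * (E / epsf (g * N) E) * y
        + g * (E / epsf (g * N) E) * Real.sqrt (N / ((1 + 2 * s) * (N * c ^ 2) + 1)) * m
      ≤ E * y + g / 2 * R) :
    e * (epsf (g * N) E - E) ≤ E * y + g / 2 * R + E / (2 * (N * c ^ 2)) * y
      + g / c * rr + g * N * (3 * δ ^ 2 + 2 * s + 1 / (N * c ^ 2)
        + 2 * (w0 + D / (4 * w0 * N)) + 88 * vb / s ^ 2) := by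
  have hV0 : 0 ≤ 26 * (c ^ 3 * M ^ 3 * N) * vb / s ^ 2 := by positivity
  have h2 := mode_alg hc hN hs.le hE hg he he1 hn hy
    (W := w0 * N + D / (4 * w0)) (V := 26 * (c ^ 3 * M ^ 3 * N) * vb / s ^ 2 + rr)
    (by positivity) (add_nonneg hV0 hr) hm
  have h7 := h2.trans h1
  have h8 : g / c * (26 * (c ^ 3 * M ^ 3 * N) * vb / s ^ 2) ≤ g * N * (88 * vb / s ^ 2) := by
    have e1 : g / c * (26 * (c ^ 3 * M ^ 3 * N) * vb / s ^ 2) =
        g * N * (26 * (c ^ 2 * M ^ 3) * (vb / s ^ 2)) := by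
      field_simp
    have e2 : g * N * (88 * vb / s ^ 2) = g * N * (88 * (vb / s ^ 2)) := by ring
    rw [e1, e2]
    refine mul_le_mul_of_nonneg_left (mul_le_mul_of_nonneg_right ?_ (by positivity))
      (by positivity)
    linarith
  have h9 : 2 * g * (w0 * N + D / (4 * w0)) = g * N * (2 * (w0 + D / (4 * w0 * N))) := by
    field_simp
  have h10 : g / c * (26 * (c ^ 3 * M ^ 3 * N) * vb / s ^ 2 + rr) =
      g / c * (26 * (c ^ 3 * M ^ 3 * N) * vb / s ^ 2) + g / c * rr := by ring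
  rw [h9, h10] at h7
  have h11 : g * N * (3 * δ ^ 2 + 2 * s + 1 / (N * c ^ 2) + 2 * (w0 + D / (4 * w0 * N))
        + 88 * vb / s ^ 2) =
      g * N * (3 * δ ^ 2 + (2 * s + 1 / (N * c ^ 2)))
      + g * N * (2 * (w0 + D / (4 * w0 * N))) + g * N * (88 * vb / s ^ 2) := by ring
  rw [h11]
  linarith

theorem mode_ineq {t : ℝ} (ht : 0 < t) {M : ℕ} (hM : 1 ≤ M) (hN : 1 ≤ Fintype.card ι) {s : ℝ}
    (hs : 0 < s) (hs1 : s ≤ 1) (hMN : 2 * (M : ℝ) ^ 3 ≤ s * Fintype.card ι)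
    (htM : 2 * Real.pi ^ 2 * t * (M : ℝ) ^ 2 ≤ 1) {w0 : ℝ} (hw : 0 < w0) {E g : ℝ} (hE : 0 < E)
    (hg : 0 ≤ g) (k : Fin 3 → ℤ) (f : HS ι) (hf : ‖f‖ = 1) :
    e2 t M k * (epsf (g * Fintype.card ι) E - E)
      ≤ E * (Yk t s M (4 * M + 1) f k + Yk t s M (4 * M + 1) f (-k))
        + g / 2 * (Rk t s M (4 * M + 1) f k + Rk t s M (4 * M + 1) f (-k))
        + E / (2 * (Fintype.card ι * cW M ^ 2))
          * (Yk t s M (4 * M + 1) f k + Yk t s M (4 * M + 1) f (-k))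
        + g / cW M * (rk2 t s M (4 * M + 1) f k + rk2 t s M (4 * M + 1) f (-k))
        + g * Fintype.card ι * (3 * dlt s M (Fintype.card ι) ^ 2 + 2 * s
          + 1 / (Fintype.card ι * cW M ^ 2) + 2 * (w0 + D1 M f / (4 * w0 * Fintype.card ι))
          + 88 * vb M f / s ^ 2) := by
  have hNR : (1 : ℝ) ≤ Fintype.card ι := by exact_mod_cast hN
  have hN0 : (0 : ℝ) < Fintype.card ι := by linarith
  have hM0 : (0 : ℝ) < M := by exact_mod_cast hM
  have hc := cW_pos hM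
  have hκ : 0 ≤ (1 + 2 * s) * ((Fintype.card ι : ℝ) * cW M ^ 2) := by positivity
  have h0 : ∀ w : T3, _ := fun w =>
    pair_ineq ht (wnd_win hM w).bm k (e2 := e2 t M k) hκ hE.le hg (ip_wnd hM w)
      (ip_ef ht hM k w) (by rw [ip_ef ht hM (-k) w, e2_neg]) (phw_NB hM hN hs w f)
  have h1 := EW_mono (4 * M + 1) h0
  rw [WI2_lin (4 * M + 1) (fun w => yy (fun x => ((wnd M w x : ℝ) : ℂ)) (phw s M w f))
      (fun w => yy (ef t (wnd M w) k) (phw s M w f))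
      (fun w => yy (ef t (wnd M w) (-k)) (phw s M w f))
      (fun w => mu2 t (wnd M w) k (phw s M w f)),
    WI2_lin3 (4 * M + 1) (fun w => yy (ef t (wnd M w) k) (phw s M w f))
      (fun w => yy (ef t (wnd M w) (-k)) (phw s M w f))
      (fun w => ‖RR t (wnd M w) k (phw s M w f)‖ ^ 2)
      (fun w => ‖RR t (wnd M w) (-k) (phw s M w f)‖ ^ 2)] at h1
  have hn := WI2_n_le ht hM hN hs hMN f hf
  have hY : ∀ p, 0 ≤ Yk t s M (4 * M + 1) f p := fun p => EW_nonneg _ fun w => yy_nonneg _ _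
  have hr : ∀ p, 0 ≤ rk2 t s M (4 * M + 1) f p := WI2_rk2_nonneg hM f
  have hvb := vb_nonneg M f
  have hD := D1_nonneg M f
  have hm := EW_mu2 ht hM hN hs hs1 hMN htM hw k f hf
  have h3 : EW (4 * M + 1) (fun w => yy (ef t (wnd M w) k) (phw s M w f)) =
      Yk t s M (4 * M + 1) f k := rfl
  have h4 : EW (4 * M + 1) (fun w => yy (ef t (wnd M w) (-k)) (phw s M w f)) =
      Yk t s M (4 * M + 1) f (-k) := rfl
  have h5 : EW (4 * M + 1) (fun w => ‖RR t (wnd M w) k (phw s M w f)‖ ^ 2) =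
      Rk t s M (4 * M + 1) f k := rfl
  have h6 : EW (4 * M + 1) (fun w => ‖RR t (wnd M w) (-k) (phw s M w f)‖ ^ 2) =
      Rk t s M (4 * M + 1) f (-k) := rfl
  rw [h3, h4, h5, h6] at h1
  exact WI2_fin hc hN0 hM0 hs hw hE hg (e2_nonneg _ _ _) (e2_le_one ht hM k) (cW_le hM) hvb hD
    (add_nonneg (hY k) (hY (-k))) (add_nonneg (hr k) (hr (-k))) hn hm h1

end Pool.Agent.Lib.MP_4952d6_mp.O

end

/-! ### O.WI3 -/

section

/-! # O.WI3: the explicit inequality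

Sum `mode_ineq` (with `E = E k`) over `k ∈ K` and multiply by `1/2`. `Σ_{k∈K} F (-k) = Σ_{k∈K} F k` (`KOK.sym`, `Finset.sum_bij` / `sum_nbij'` with `Neg`), `E (-k) = E k`.
With `T = N cW²`, `δ = dlt s M N`, `#K = K.card`:
`Σ_K E k Yk k ≤ Σ' et² E nk + CE NP + #K Em 3 δ² T` (`Yk_le`, `sumK_E`);
`Σ_K Yk k ≤ NP + 3 δ² #K T` (`Yk_le`, `(et th)² ≤ th²`, `sumK_nk` with `R = M`, `th_sq_sum`), and `E k ≤ Em`;
`(g/2) Σ_K Rk k ≤ (g/2)(Σ_{Kb} Rsq + 3 δ² #K (N² cW² (1+vb) + 4 N))` (`EW_phw_RR`, `sumK_R`);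
`Σ_K Zk k ≤ A² NP + 3 δ² #K A² T`, `A = cW M³` (`Zk_le`, `sumK_nk` with `R = 2 M`, `tn_sq_sum`), so `Σ_K rk2 ≤ A (NP + 3 δ² #K T)` and
`(g / cW) A = g M³ = (g N / T)(cW² M³) ≤ (7/2) g N / T` (`cW_le`). `Yk, Zk, Rk ≥ 0` where needed (`EW_nonneg`). -/

set_option autoImplicit false
set_option linter.unusedSectionVars false
set_option linter.unusedVariables false
open MeasureTheory Function Filter Topology Set ComplexConjugate

namespace Pool.Agent.Lib.MP_4952d6_mp.O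

open LB

variable {ι : Type*} [Fintype ι] [DecidableEq ι]

/-- The error of the explicit inequality. -/
noncomputable def ErrW (M M' : ℕ) (K : Finset (Fin 3 → ℤ)) (s w0 g CE Em : ℝ) (f : HS ι) : ℝ :=
  CE * NP M' f
    + 3 * dlt s M (Fintype.card ι) ^ 2 * K.card * Em * (Fintype.card ι * cW M ^ 2)
    + 3 / 2 * g * K.card * dlt s M (Fintype.card ι) ^ 2
      * ((Fintype.card ι : ℝ) ^ 2 * cW M ^ 2 * (1 + vb M f) + 4 * Fintype.card ι)
    + 1 / 2 * K.card * (g * Fintype.card ι) * (3 * dlt s M (Fintype.card ι) ^ 2 + 2 * s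
      + 1 / (Fintype.card ι * cW M ^ 2) + 2 * (w0 + D1 M f / (4 * w0 * Fintype.card ι))
      + 88 * vb M f / s ^ 2)
    + (Em + 7 * (g * Fintype.card ι)) / (2 * (Fintype.card ι * cW M ^ 2))
      * (NP M' f + 3 * dlt s M (Fintype.card ι) ^ 2 * K.card * (Fintype.card ι * cW M ^ 2))

/-- Algebra of the last step, for real numbers. -/
lemma WI3_fin {c N M g Em CE P δ κ S S' SY SR Q B SEY SY1 SZ Sr G : ℝ} (hc : 0 < c) (hN : 0 < N)
    (hM : 0 < M) (hg : 0 ≤ g) (hEm : 0 ≤ Em) (hP : 0 ≤ P) (hκ : 0 ≤ κ)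
    (hcM : c ^ 2 * M ^ 3 ≤ 27 / 8)
    (h0 : S ≤ 2 * SY + g * SR + 2 * SEY + 2 * (g / c) * Sr + κ * G)
    (h1 : SY ≤ S' + CE * P + κ * Em * (3 * δ ^ 2 * (N * c ^ 2)))
    (h2 : SR ≤ Q + κ * (3 * δ ^ 2 * B))
    (h3 : SEY ≤ Em / (2 * (N * c ^ 2)) * SY1)
    (h4 : SY1 ≤ P + κ * (3 * δ ^ 2 * (N * c ^ 2)))
    (h5 : SZ ≤ (c * M ^ 3) ^ 2 * P + κ * (3 * δ ^ 2 * ((c * M ^ 3) ^ 2 * (N * c ^ 2))))
    (h6 : Sr = 1 / 2 * (SZ / (c * M ^ 3) + c * M ^ 3 * SY1)) :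
    1 / 2 * S ≤ S' + g / 2 * Q + (CE * P + 3 * δ ^ 2 * κ * Em * (N * c ^ 2)
      + 3 / 2 * g * κ * δ ^ 2 * B + 1 / 2 * κ * G
      + (Em + 7 * (g * N)) / (2 * (N * c ^ 2)) * (P + 3 * δ ^ 2 * κ * (N * c ^ 2))) := by
  have hT : 0 < N * c ^ 2 := by positivity
  obtain ⟨X, hX⟩ : ∃ X, X = P + 3 * δ ^ 2 * κ * (N * c ^ 2) := ⟨_, rfl⟩
  have hX0 : 0 ≤ X := by
    rw [hX]
    positivity
  have h4' : SY1 ≤ X := by
    rw [hX]
    linarith
  have hA : 0 < c * M ^ 3 := by positivity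
  have h5' : SZ / (c * M ^ 3) ≤ c * M ^ 3 * X := by
    rw [div_le_iff₀ hA, hX]
    refine h5.trans (le_of_eq ?_)
    ring
  have h7 : Sr ≤ c * M ^ 3 * X := by
    have h8 := mul_le_mul_of_nonneg_left h4' hA.le
    rw [h6]
    linarith
  have h8 : g / c * Sr ≤ 7 * (g * N) / (2 * (N * c ^ 2)) * X := by
    have e1 : g / c * Sr ≤ g / c * (c * M ^ 3 * X) :=
      mul_le_mul_of_nonneg_left h7 (by positivity)
    refine e1.trans ?_
    have e2 : g / c * (c * M ^ 3 * X) = g * (c ^ 2 * M ^ 3) / c ^ 2 * X := by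
      field_simp
    have e3 : 7 * (g * N) / (2 * (N * c ^ 2)) = g * (7 / 2) / c ^ 2 := by
      field_simp
    rw [e2, e3]
    refine mul_le_mul_of_nonneg_right (div_le_div_of_nonneg_right ?_ (by positivity)) hX0
    exact mul_le_mul_of_nonneg_left (by linarith) hg
  have h9 : SEY ≤ Em / (2 * (N * c ^ 2)) * X :=
    h3.trans (mul_le_mul_of_nonneg_left h4' (by positivity))
  have h10 : (Em + 7 * (g * N)) / (2 * (N * c ^ 2)) * X =
      Em / (2 * (N * c ^ 2)) * X + 7 * (g * N) / (2 * (N * c ^ 2)) * X := by ring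
  have h11 := mul_le_mul_of_nonneg_left h2 hg
  rw [← hX, h10]
  linarith

theorem ow_explicit {t : ℝ} (ht : 0 < t) {M M' : ℕ} (hM : 1 ≤ M) (hN : 1 ≤ Fintype.card ι)
    {s : ℝ} (hs : 0 < s) (hs1 : s ≤ 1) (hMN : 2 * (M : ℝ) ^ 3 ≤ s * Fintype.card ι)
    (htM : 2 * Real.pi ^ 2 * t * (M : ℝ) ^ 2 ≤ 1) {w0 : ℝ} (hw : 0 < w0) {g : ℝ} (hg : 0 ≤ g)
    {K : Finset (Fin 3 → ℤ)} (hK : KOK M M' K) {E : (Fin 3 → ℤ) → ℝ} (hE : ∀ p, 0 ≤ E p)
    (hEK : ∀ k ∈ K, 0 < E k) {Em : ℝ} (hEm0 : 0 ≤ Em) (hEm : ∀ k ∈ K, E k ≤ Em) (hEe : ∀ p, E (-p) = E p)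
    {CE : ℝ} (hCE : 0 ≤ CE) (hE2 : ∀ p, ∑ n ∈ bx M, th M n ^ 2 * E (p + n) ≤ E p + CE)
    (f : HS ι) (hf : ‖f‖ = 1) (hsum : Summable fun p => et t p ^ 2 * E p * nk f p) :
    1 / 2 * ∑ k ∈ K, e2 t M k * (epsf (g * Fintype.card ι) (E k) - E k)
      ≤ ∑' p, et t p ^ 2 * E p * nk f p + g / 2 * ∑ p ∈ Kb K M, Rsq t f p
        + ErrW M M' K s w0 g CE Em f := by
  have hNR : (1 : ℝ) ≤ Fintype.card ι := by exact_mod_cast hN
  have hN0 : (0 : ℝ) < Fintype.card ι := by linarith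
  have hM0 : (0 : ℝ) < M := by exact_mod_cast hM
  have hc := cW_pos hM
  have hA : 0 < cW M * (M : ℝ) ^ 3 := mul_pos hc (by positivity)
  have hsym : ∀ F : (Fin 3 → ℤ) → ℝ, ∑ k ∈ K, F (-k) = ∑ k ∈ K, F k := fun F =>
    Finset.sum_nbij' (fun k => -k) (fun k => -k) (fun k hk => hK.sym k hk)
      (fun k hk => hK.sym k hk) (fun k _ => neg_neg k) (fun k _ => neg_neg k) (fun k _ => rfl)
  have hY0 : ∀ p, 0 ≤ Yk t s M (4 * M + 1) f p := fun p => EW_nonneg _ fun w => yy_nonneg _ _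
  -- the sum over the modes
  have h0 : ∑ k ∈ K, e2 t M k * (epsf (g * Fintype.card ι) (E k) - E k) ≤
      2 * (∑ k ∈ K, E k * Yk t s M (4 * M + 1) f k)
      + g * (∑ k ∈ K, Rk t s M (4 * M + 1) f k)
      + 2 * (∑ k ∈ K, E k / (2 * (Fintype.card ι * cW M ^ 2)) * Yk t s M (4 * M + 1) f k)
      + 2 * (g / cW M) * (∑ k ∈ K, rk2 t s M (4 * M + 1) f k)
      + K.card * (g * Fintype.card ι * (3 * dlt s M (Fintype.card ι) ^ 2 + 2 * s
          + 1 / (Fintype.card ι * cW M ^ 2) + 2 * (w0 + D1 M f / (4 * w0 * Fintype.card ι))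
          + 88 * vb M f / s ^ 2)) := by
    generalize hG : g * Fintype.card ι * (3 * dlt s M (Fintype.card ι) ^ 2 + 2 * s
          + 1 / (Fintype.card ι * cW M ^ 2) + 2 * (w0 + D1 M f / (4 * w0 * Fintype.card ι))
          + 88 * vb M f / s ^ 2) = G
    have h1 : ∀ k ∈ K, e2 t M k * (epsf (g * Fintype.card ι) (E k) - E k) ≤
        (E k * Yk t s M (4 * M + 1) f k + E (-k) * Yk t s M (4 * M + 1) f (-k))
        + (g / 2 * Rk t s M (4 * M + 1) f k + g / 2 * Rk t s M (4 * M + 1) f (-k))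
        + (E k / (2 * (Fintype.card ι * cW M ^ 2)) * Yk t s M (4 * M + 1) f k
          + E (-k) / (2 * (Fintype.card ι * cW M ^ 2)) * Yk t s M (4 * M + 1) f (-k))
        + (g / cW M * rk2 t s M (4 * M + 1) f k + g / cW M * rk2 t s M (4 * M + 1) f (-k))
        + G := by
      intro k hk
      have h2 := mode_ineq ht hM hN hs hs1 hMN htM hw (hEK k hk) hg k f hf
      rw [hG] at h2
      rw [hEe k]
      refine h2.trans (le_of_eq ?_)
      ring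
    refine (Finset.sum_le_sum h1).trans (le_of_eq ?_)
    rw [Finset.sum_add_distrib, Finset.sum_add_distrib, Finset.sum_add_distrib,
      Finset.sum_add_distrib, Finset.sum_add_distrib, Finset.sum_add_distrib,
      Finset.sum_add_distrib, Finset.sum_add_distrib,
      hsym (fun k => E k * Yk t s M (4 * M + 1) f k),
      hsym (fun k => g / 2 * Rk t s M (4 * M + 1) f k),
      hsym (fun k => E k / (2 * (Fintype.card ι * cW M ^ 2)) * Yk t s M (4 * M + 1) f k),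
      hsym (fun k => g / cW M * rk2 t s M (4 * M + 1) f k), Finset.sum_const, nsmul_eq_mul,
      ← Finset.mul_sum, ← Finset.mul_sum]
    ring
  have h1 : ∑ k ∈ K, E k * Yk t s M (4 * M + 1) f k ≤
      (∑' p, et t p ^ 2 * E p * nk f p) + CE * NP M' f
        + K.card * Em * (3 * dlt s M (Fintype.card ι) ^ 2 * (Fintype.card ι * cW M ^ 2)) := by
    have hQ : 0 ≤ 3 * dlt s M (Fintype.card ι) ^ 2 * (Fintype.card ι * cW M ^ 2) := by positivity
    have h2 : ∀ k ∈ K, E k * Yk t s M (4 * M + 1) f k ≤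
        E k * (∑ n ∈ bx M, (et t (k + n) * th M n) ^ 2 * nk f (k + n))
          + Em * (3 * dlt s M (Fintype.card ι) ^ 2 * (Fintype.card ι * cW M ^ 2)) := by
      intro k hk
      have h3 := mul_le_mul_of_nonneg_left (Yk_le ht hM hN hs hMN k f hf) (hE k)
      have h4 := mul_le_mul_of_nonneg_right (hEm k hk) hQ
      rw [mul_add] at h3
      linarith
    refine (Finset.sum_le_sum h2).trans ?_
    rw [Finset.sum_add_distrib, Finset.sum_const, nsmul_eq_mul]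
    have h3 := sumK_E ht hM hK hE hCE hE2 f hsum
    linarith
  have h2 : ∑ k ∈ K, Rk t s M (4 * M + 1) f k ≤ ∑ p ∈ Kb K M, Rsq t f p
      + K.card * (3 * dlt s M (Fintype.card ι) ^ 2
        * ((Fintype.card ι : ℝ) ^ 2 * cW M ^ 2 * (1 + vb M f) + 4 * Fintype.card ι)) := by
    have h3 : ∀ k ∈ K, Rk t s M (4 * M + 1) f k ≤
        ∑ n ∈ bx M, th M n ^ 2 * Rsq t f (k + n)
        + 3 * dlt s M (Fintype.card ι) ^ 2
          * ((Fintype.card ι : ℝ) ^ 2 * cW M ^ 2 * (1 + vb M f) + 4 * Fintype.card ι) :=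
      fun k _ => EW_phw_RR ht hM (by omega) hN hs hMN k f hf
    refine (Finset.sum_le_sum h3).trans ?_
    rw [Finset.sum_add_distrib, Finset.sum_const, nsmul_eq_mul]
    have h4 := sumK_R hM K t f
    linarith
  have h3 : ∑ k ∈ K, E k / (2 * (Fintype.card ι * cW M ^ 2)) * Yk t s M (4 * M + 1) f k ≤
      Em / (2 * (Fintype.card ι * cW M ^ 2)) * ∑ k ∈ K, Yk t s M (4 * M + 1) f k := by
    rw [Finset.mul_sum]
    refine Finset.sum_le_sum fun k hk => mul_le_mul_of_nonneg_right ?_ (hY0 k)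
    exact div_le_div_of_nonneg_right (hEm k hk) (by positivity)
  have h4 : ∑ k ∈ K, Yk t s M (4 * M + 1) f k ≤ NP M' f
      + K.card * (3 * dlt s M (Fintype.card ι) ^ 2 * (Fintype.card ι * cW M ^ 2)) := by
    have h5 : ∀ k ∈ K, Yk t s M (4 * M + 1) f k ≤ ∑ n ∈ bx M, th M n ^ 2 * nk f (k + n)
        + 3 * dlt s M (Fintype.card ι) ^ 2 * (Fintype.card ι * cW M ^ 2) := by
      intro k _
      refine (Yk_le ht hM hN hs hMN k f hf).trans
        (add_le_add (Finset.sum_le_sum fun n _ => ?_) le_rfl)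
      refine mul_le_mul_of_nonneg_right ?_ (nk_nonneg _ _)
      rw [mul_pow]
      have h2 : et t (k + n) ^ 2 ≤ 1 := pow_le_one₀ (et_pos _ _).le (et_le_one ht.le _)
      calc et t (k + n) ^ 2 * th M n ^ 2 ≤ 1 * th M n ^ 2 :=
            mul_le_mul_of_nonneg_right h2 (sq_nonneg _)
        _ = th M n ^ 2 := one_mul _
    refine (Finset.sum_le_sum h5).trans ?_
    rw [Finset.sum_add_distrib, Finset.sum_const, nsmul_eq_mul]
    have h6 := sumK_nk hK (R := M) (by omega) (b := fun n => th M n ^ 2)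
      (fun n => sq_nonneg _) f
    rw [th_sq_sum hM, one_mul] at h6
    linarith
  have h5 : ∑ k ∈ K, Zk t s M (4 * M + 1) f k ≤ (cW M * (M : ℝ) ^ 3) ^ 2 * NP M' f
      + K.card * (3 * dlt s M (Fintype.card ι) ^ 2
        * ((cW M * (M : ℝ) ^ 3) ^ 2 * (Fintype.card ι * cW M ^ 2))) := by
    refine (Finset.sum_le_sum fun k _ => Zk_le ht hM hN hs hMN k f hf).trans ?_
    rw [Finset.sum_add_distrib, Finset.sum_const, nsmul_eq_mul]
    have h6 := sumK_nk hK (R := 2 * M) le_rfl (b := fun n => tn t M n ^ 2)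
      (fun n => sq_nonneg _) f
    have h7 := mul_le_mul_of_nonneg_right (tn_sq_sum ht hM) (NP_nonneg M' f)
    linarith
  have h6 : ∑ k ∈ K, rk2 t s M (4 * M + 1) f k =
      1 / 2 * ((∑ k ∈ K, Zk t s M (4 * M + 1) f k) / (cW M * (M : ℝ) ^ 3)
        + cW M * (M : ℝ) ^ 3 * ∑ k ∈ K, Yk t s M (4 * M + 1) f k) := by
    unfold rk2
    rw [← Finset.mul_sum, Finset.sum_add_distrib, Finset.sum_div, Finset.mul_sum]
  refine (WI3_fin hc hN0 hM0 hg hEm0 (NP_nonneg M' f) (Nat.cast_nonneg K.card) (cW_le hM)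
    h0 h1 h2 h3 h4 h5 h6).trans (le_of_eq ?_)
  unfold ErrW
  ring

end Pool.Agent.Lib.MP_4952d6_mp.O

end

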