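import Pool.Agent.Lib.MP_4952d6_mp.Po.N19
import Pool.Agent.Lib.MP_4952d6_mp.Po.N29
import Pool.Agent.Lib.MP_4952d6_mp.Po.N30
import Pool.Agent.Lib.MP_4952d6_mp.Po.N32

/-! Merged modules (to save import time): O.WJ5. -/

/-! ### O.WJ5 -/

section

/-! # O.WJ5: the error term

`X = 1/l⁵`, `D = Db (l²) f ≥ 0`, `V = VV (l²/u³/2) f ≥ 0`, `Q = D / l²`, `g = 8 π a (1 - u^39) ≤ 26 l u^160`, `g N ≤ 26/l²` (`8 π ≤ 26`, `PO_aN`). Bounds: `δ² ≤ 4 u^448` (`PO_dlt`), `#K ≤ 27/(u^30 l³)`,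
`T1 = N cW² ≤ 27/u^256`, `1/T1 ≤ u^256`, `NP ≤ D/u²` (`NP_le`), `D1 ≤ 18 D/u^64`, `vb ≤ 2 V / N² = 2 V l⁶ u^320` (`vb_le`, `PO_TM`, `N = 1/(l³ u^160)`), `150 M² ≤ 150 u^64/l²`.
Term 1: `150 u^62 Q`. Term 2: `3 · 4 u^448 · 27/(u^30 l³) · 2/(u^20 l²) · 27/u^256 = 17496 u^142 X`.
Term 3: `(3/2) #K δ² (gN T1 (1+vb) + 4 gN) ≤ 4212 u^418 X (27 u^{-256} (1+vb) + 4) ≤ 130572 u^162 X (1 + vb)`, and `X vb ≤ 2 V l u^320 = 2 a V u^160`.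
Term 4: `(1/2) #K gN ≤ 351 X/u^30`, bracket `≤ 12 u^448 + 2 u^32 + u^256 + 2 u^31 + 9 D l³ u^65 + 176 V l⁶ u^256` (`D1/(4 w0 N) · 2 ≤ 9 D u^{-95} l³ u^160`): `≤ 1755 u X + 3159 u^35 Q + 61776 u^66 a V` (`l = a/u^160`).
Term 5: `(Em + 7 gN)/(2 T1) ≤ 2 u^{-20}/l² · u^256` (`2/u^20 + 182 ≤ 4/u^20`), times `NP`: `2 u^234 Q`; times `3 δ² #K T1` (use `(..)/(2 T1) · T1`): `648 u^398 X`.
Total `≤ 2000 u (X + Q) + u^6 a V / 2` for `u ≤ 1/10`. Prove each of the five bounds as a separate lemma; it helps to first set `x = u ^ ...` and clear denominators, or to work with `X`, `Q` by `calc`. -/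

set_option autoImplicit false
set_option linter.unusedSectionVars false
set_option linter.unusedVariables false
open MeasureTheory Function Filter Topology Set ComplexConjugate

namespace Pool.Agent.Lib.MP_4952d6_mp.O

open LB

private lemma WJ5_t1 {u l D P M2 : ℝ} (hu : 0 < u) (hl : 0 < l) (hM0 : 0 ≤ M2) (hP0 : 0 ≤ P)
    (hM : M2 ≤ u ^ 64 / l ^ 2) (hP : P ≤ D / u ^ 2) :
    150 * M2 * P ≤ 150 * u ^ 62 * (D / l ^ 2) := by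
  have h1 : 150 * M2 * P ≤ 150 * (u ^ 64 / l ^ 2) * (D / u ^ 2) := by
    refine mul_le_mul (mul_le_mul_of_nonneg_left hM (by norm_num)) hP hP0 (by positivity)
  refine h1.trans (le_of_eq ?_)
  field_simp

private lemma WJ5_t2 {u l d2 k T : ℝ} (hu : 0 < u) (hl : 0 < l) (hd0 : 0 ≤ d2) (hk0 : 0 ≤ k)
    (hT0 : 0 ≤ T) (hd : d2 ≤ 4 * u ^ 448) (hk : k ≤ 27 / (u ^ 30 * l ^ 3)) (hT : T ≤ 27 / u ^ 256) :
    3 * d2 * k * (2 / (u ^ 20 * l ^ 2)) * T ≤ 17496 * u ^ 142 * (1 / l ^ 5) := by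
  have h1 : 3 * d2 * k * (2 / (u ^ 20 * l ^ 2)) * T
      ≤ 3 * (4 * u ^ 448) * (27 / (u ^ 30 * l ^ 3)) * (2 / (u ^ 20 * l ^ 2)) * (27 / u ^ 256) := by
    gcongr
  refine h1.trans (le_of_eq ?_)
  field_simp
  ring

private lemma WJ5_t3 {u l d2 k T gN v V : ℝ} (hu : 0 < u) (hu1 : u ≤ 1) (hl : 0 < l) (hd0 : 0 ≤ d2)
    (hk0 : 0 ≤ k) (hT0 : 0 ≤ T) (hg0 : 0 ≤ gN) (hv0 : 0 ≤ v) (hd : d2 ≤ 4 * u ^ 448)
    (hk : k ≤ 27 / (u ^ 30 * l ^ 3)) (hT : T ≤ 27 / u ^ 256) (hg : gN ≤ 26 / l ^ 2)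
    (hv : v ≤ 2 * V * (l ^ 6 * u ^ 320)) :
    3 / 2 * k * d2 * (gN * T * (1 + v) + 4 * gN)
      ≤ 130572 * u ^ 162 * (1 / l ^ 5) + 261144 * u ^ 322 * ((l * u ^ 160) * V) := by
  have h1 : 3 / 2 * k * d2 * (gN * T * (1 + v) + 4 * gN)
      ≤ 3 / 2 * (27 / (u ^ 30 * l ^ 3)) * (4 * u ^ 448)
        * ((26 / l ^ 2) * (27 / u ^ 256) * (1 + v) + 4 * (26 / l ^ 2)) := by
    gcongr
  have h2 : 3 / 2 * (27 / (u ^ 30 * l ^ 3)) * (4 * u ^ 448)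
        * ((26 / l ^ 2) * (27 / u ^ 256) * (1 + v) + 4 * (26 / l ^ 2))
      = 4212 * (1 / l ^ 5) * (27 * u ^ 162 * (1 + v) + 4 * u ^ 418) := by
    field_simp
    ring
  have h3 : u ^ 418 ≤ u ^ 162 * (1 + v) := by
    have h4 : u ^ 418 ≤ u ^ 162 := pow_le_pow_of_le_one hu.le hu1 (show 162 ≤ 418 by norm_num)
    have h5 : 0 ≤ u ^ 162 * v := mul_nonneg (pow_nonneg hu.le _) hv0
    linarith
  have h4 : 4212 * (1 / l ^ 5) * (27 * u ^ 162 * (1 + v) + 4 * u ^ 418)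
      ≤ 4212 * (1 / l ^ 5) * (31 * (u ^ 162 * (1 + v))) := by
    refine mul_le_mul_of_nonneg_left ?_ (by positivity)
    linarith
  have h5 : 4212 * (1 / l ^ 5) * (31 * (u ^ 162 * (1 + v)))
      = 130572 * u ^ 162 * (1 / l ^ 5) + 130572 * u ^ 162 * (1 / l ^ 5) * v := by ring
  have h6 : 130572 * u ^ 162 * (1 / l ^ 5) * v
      ≤ 130572 * u ^ 162 * (1 / l ^ 5) * (2 * V * (l ^ 6 * u ^ 320)) :=
    mul_le_mul_of_nonneg_left hv (by positivity)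
  have h7 : 130572 * u ^ 162 * (1 / l ^ 5) * (2 * V * (l ^ 6 * u ^ 320))
      = 261144 * u ^ 322 * ((l * u ^ 160) * V) := by
    field_simp
    ring
  linarith

private lemma WJ5_t4 {u l d2 k Ti gN v V D D1v n : ℝ} (hu : 0 < u) (hu1 : u ≤ 1 / 10) (hl : 0 < l)
    (hd0 : 0 ≤ d2) (hk0 : 0 ≤ k) (hT0 : 0 ≤ Ti) (hg0 : 0 ≤ gN) (hv0 : 0 ≤ v) (hD10 : 0 ≤ D1v)
    (hn : n * (l ^ 3 * u ^ 160) = 1)
    (hd : d2 ≤ 4 * u ^ 448) (hk : k ≤ 27 / (u ^ 30 * l ^ 3)) (hT : Ti ≤ u ^ 256)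
    (hg : gN ≤ 26 / l ^ 2) (hv : v ≤ 2 * V * (l ^ 6 * u ^ 320)) (hD1 : D1v ≤ 18 * D / u ^ 64) :
    1 / 2 * k * gN * (3 * d2 + 2 * u ^ 32 + Ti + 2 * (u ^ 31 + D1v / (4 * u ^ 31 * n))
        + 88 * v / (u ^ 32) ^ 2)
      ≤ 1755 * u * (1 / l ^ 5) + 3159 * u ^ 35 * (D / l ^ 2)
        + 61776 * u ^ 66 * ((l * u ^ 160) * V) := by
  have hn0 : 0 < n := by
    by_contra h
    rw [not_lt] at h
    have h1 : n * (l ^ 3 * u ^ 160) ≤ 0 := mul_nonpos_of_nonpos_of_nonneg h (by positivity)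
    linarith
  have hn1 : n = 1 / (l ^ 3 * u ^ 160) := by
    rw [eq_div_iff (by positivity)]
    exact hn
  have e1 : D1v / (4 * u ^ 31 * n) = D1v * (l ^ 3 * u ^ 129) / 4 := by
    rw [hn1]
    field_simp
  have e2 : 88 * v / (u ^ 32) ^ 2 = 88 * v / u ^ 64 := by
    congr 1
    ring
  rw [e1, e2]
  have h1 : D1v * (l ^ 3 * u ^ 129) / 4 ≤ (18 * D / u ^ 64) * (l ^ 3 * u ^ 129) / 4 := by
    gcongr
  have h1' : (18 * D / u ^ 64) * (l ^ 3 * u ^ 129) / 4 = 9 / 2 * D * l ^ 3 * u ^ 65 := by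
    field_simp
    ring
  have h2 : 88 * v / u ^ 64 ≤ 88 * (2 * V * (l ^ 6 * u ^ 320)) / u ^ 64 := by
    gcongr
  have h2' : 88 * (2 * V * (l ^ 6 * u ^ 320)) / u ^ 64 = 176 * V * l ^ 6 * u ^ 256 := by
    field_simp
    ring
  have h3 : 3 * d2 + 2 * u ^ 32 + Ti + 2 * (u ^ 31 + D1v * (l ^ 3 * u ^ 129) / 4) + 88 * v / u ^ 64
      ≤ (12 * u ^ 448 + 2 * u ^ 32 + u ^ 256 + 2 * u ^ 31) + 9 * D * l ^ 3 * u ^ 65
        + 176 * V * l ^ 6 * u ^ 256 := by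
    linarith
  have h4 : 12 * u ^ 448 + 2 * u ^ 32 + u ^ 256 + 2 * u ^ 31 ≤ 5 * u ^ 31 := by
    have a1 : u ^ 448 ≤ u ^ 33 := pow_le_pow_of_le_one hu.le (by linarith) (by norm_num)
    have a2 : u ^ 256 ≤ u ^ 32 := pow_le_pow_of_le_one hu.le (by linarith) (by norm_num)
    have a3 : u ^ 32 ≤ 1 / 10 * u ^ 31 := by
      rw [show u ^ 32 = u * u ^ 31 by ring]
      exact mul_le_mul_of_nonneg_right hu1 (by positivity)
    have a4 : u ^ 33 ≤ 1 / 10 * u ^ 32 := by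
      rw [show u ^ 33 = u * u ^ 32 by ring]
      exact mul_le_mul_of_nonneg_right hu1 (by positivity)
    have a5 : 0 < u ^ 31 := by positivity
    linarith
  have h5 : 0 ≤ 3 * d2 + 2 * u ^ 32 + Ti + 2 * (u ^ 31 + D1v * (l ^ 3 * u ^ 129) / 4)
      + 88 * v / u ^ 64 := by positivity
  have h6 : 1 / 2 * k * gN ≤ 351 * (1 / l ^ 5) / u ^ 30 := by
    have b1 : 1 / 2 * k * gN ≤ 1 / 2 * (27 / (u ^ 30 * l ^ 3)) * (26 / l ^ 2) := by gcongr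
    refine b1.trans (le_of_eq ?_)
    field_simp
    ring
  have h7 : 0 ≤ 351 * (1 / l ^ 5) / u ^ 30 := by positivity
  have h8 : 1 / 2 * k * gN * (3 * d2 + 2 * u ^ 32 + Ti + 2 * (u ^ 31 + D1v * (l ^ 3 * u ^ 129) / 4)
        + 88 * v / u ^ 64)
      ≤ 351 * (1 / l ^ 5) / u ^ 30 * (5 * u ^ 31 + 9 * D * l ^ 3 * u ^ 65
        + 176 * V * l ^ 6 * u ^ 256) := by
    refine mul_le_mul h6 (h3.trans ?_) h5 h7
    linarith
  refine h8.trans (le_of_eq ?_)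
  field_simp
  ring

private lemma WJ5_t5 {u l d2 k T gN D P : ℝ} (hu : 0 < u) (hu1 : u ≤ 1 / 10) (hl : 0 < l)
    (hd0 : 0 ≤ d2) (hk0 : 0 ≤ k) (hT0 : 0 < T) (hg0 : 0 ≤ gN) (hP0 : 0 ≤ P)
    (hd : d2 ≤ 4 * u ^ 448) (hk : k ≤ 27 / (u ^ 30 * l ^ 3)) (hT : 1 / T ≤ u ^ 256)
    (hg : gN ≤ 26 / l ^ 2) (hP : P ≤ D / u ^ 2) :
    (2 / (u ^ 20 * l ^ 2) + 7 * gN) / (2 * T) * (P + 3 * d2 * k * T)
      ≤ 2 * u ^ 234 * (D / l ^ 2) + 648 * u ^ 398 * (1 / l ^ 5) := by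
  have h1 : 2 / (u ^ 20 * l ^ 2) + 7 * gN ≤ 4 / (u ^ 20 * l ^ 2) := by
    have a1 : u ^ 20 ≤ 1 / 100 := by
      have a2 : u ^ 20 ≤ u ^ 2 := pow_le_pow_of_le_one hu.le (by linarith) (by norm_num)
      have a3 : u ^ 2 ≤ (1 / 10) ^ 2 := pow_le_pow_left₀ hu.le hu1 2
      norm_num at a3
      linarith
    have a2 : 7 * gN ≤ 182 / l ^ 2 := by
      have : (182 : ℝ) / l ^ 2 = 7 * (26 / l ^ 2) := by ring
      rw [this]
      linarith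
    have a3 : (182 : ℝ) / l ^ 2 ≤ 2 / (u ^ 20 * l ^ 2) := by
      rw [div_le_div_iff₀ (by positivity) (by positivity)]
      have a4 : u ^ 20 ≤ 1 / 1000 := by
        have a2 : u ^ 20 ≤ u ^ 3 := pow_le_pow_of_le_one hu.le (by linarith) (by norm_num)
        have a3 : u ^ 3 ≤ (1 / 10) ^ 3 := pow_le_pow_left₀ hu.le hu1 3
        norm_num at a3
        linarith
      have a5 : 0 < l ^ 2 := by positivity
      have a6 : u ^ 20 * l ^ 2 ≤ 1 / 1000 * l ^ 2 := mul_le_mul_of_nonneg_right a4 a5.le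
      linarith
    have a4 : (4 : ℝ) / (u ^ 20 * l ^ 2) = 2 / (u ^ 20 * l ^ 2) + 2 / (u ^ 20 * l ^ 2) := by ring
    rw [a4]
    linarith
  have h0 : 0 ≤ 2 / (u ^ 20 * l ^ 2) + 7 * gN := by positivity
  have e1 : (2 / (u ^ 20 * l ^ 2) + 7 * gN) / (2 * T) * (P + 3 * d2 * k * T)
      = (2 / (u ^ 20 * l ^ 2) + 7 * gN) * (1 / T) * P / 2
        + (2 / (u ^ 20 * l ^ 2) + 7 * gN) * d2 * k * (3 / 2) := by
    field_simp
  have h2 : (2 / (u ^ 20 * l ^ 2) + 7 * gN) * (1 / T) * P / 2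
      ≤ 4 / (u ^ 20 * l ^ 2) * u ^ 256 * (D / u ^ 2) / 2 := by
    gcongr
  have h2' : 4 / (u ^ 20 * l ^ 2) * u ^ 256 * (D / u ^ 2) / 2 = 2 * u ^ 234 * (D / l ^ 2) := by
    field_simp
    ring
  have h3 : (2 / (u ^ 20 * l ^ 2) + 7 * gN) * d2 * k * (3 / 2)
      ≤ 4 / (u ^ 20 * l ^ 2) * (4 * u ^ 448) * (27 / (u ^ 30 * l ^ 3)) * (3 / 2) := by
    gcongr
  have h3' : 4 / (u ^ 20 * l ^ 2) * (4 * u ^ 448) * (27 / (u ^ 30 * l ^ 3)) * (3 / 2)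
      = 648 * u ^ 398 * (1 / l ^ 5) := by
    field_simp
    ring
  rw [e1]
  linarith

private lemma WJ5_pow {u : ℝ} (hu : 0 < u) (hu1 : u ≤ 1 / 10) (k m : ℕ) :
    u ^ (k + m) ≤ (1 / 10) ^ k * u ^ m := by
  rw [pow_add]
  exact mul_le_mul_of_nonneg_right (pow_le_pow_left₀ hu.le hu1 k) (by positivity)

private lemma WJ5_sum {u X Q A : ℝ} (hu : 0 < u) (hu1 : u ≤ 1 / 10) (hX : 0 ≤ X) (hQ : 0 ≤ Q)
    (hA : 0 ≤ A) :
    150 * u ^ 62 * Q + 17496 * u ^ 142 * X + (130572 * u ^ 162 * X + 261144 * u ^ 322 * A)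
      + (1755 * u * X + 3159 * u ^ 35 * Q + 61776 * u ^ 66 * A)
      + (2 * u ^ 234 * Q + 648 * u ^ 398 * X) ≤ 2000 * u * (X + Q) + u ^ 6 * A / 2 := by
  have p1 : u ^ 62 ≤ u := by
    have := pow_le_pow_of_le_one hu.le (by linarith : u ≤ 1) (by norm_num : 1 ≤ 62)
    rwa [pow_one] at this
  have p2 : u ^ 35 ≤ (1 / 10) ^ 4 * u := by
    have h1 := WJ5_pow hu hu1 4 31
    have h2 : u ^ 31 ≤ u := by
      have := pow_le_pow_of_le_one hu.le (by linarith : u ≤ 1) (by norm_num : 1 ≤ 31)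
      rwa [pow_one] at this
    have h3 : (1 / 10 : ℝ) ^ 4 * u ^ 31 ≤ (1 / 10) ^ 4 * u := mul_le_mul_of_nonneg_left h2 (by norm_num)
    exact h1.trans h3
  have p3 : u ^ 234 ≤ u := by
    have := pow_le_pow_of_le_one hu.le (by linarith : u ≤ 1) (by norm_num : 1 ≤ 234)
    rwa [pow_one] at this
  have p4 : ∀ n : ℕ, 9 ≤ n → u ^ n ≤ (1 / 10) ^ 8 * u := by
    intro n hn
    have h1 := WJ5_pow hu hu1 8 (n - 8)
    rw [show 8 + (n - 8) = n by omega] at h1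
    have h2 : u ^ (n - 8) ≤ u := by
      have := pow_le_pow_of_le_one hu.le (by linarith : u ≤ 1) (by omega : 1 ≤ n - 8)
      rwa [pow_one] at this
    have h3 : (1 / 10 : ℝ) ^ 8 * u ^ (n - 8) ≤ (1 / 10) ^ 8 * u :=
      mul_le_mul_of_nonneg_left h2 (by norm_num)
    exact h1.trans h3
  have p5 : ∀ n : ℕ, 14 ≤ n → u ^ n ≤ (1 / 10) ^ 8 * u ^ 6 := by
    intro n hn
    have h1 := WJ5_pow hu hu1 8 (n - 8)
    rw [show 8 + (n - 8) = n by omega] at h1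
    have h2 : u ^ (n - 8) ≤ u ^ 6 := pow_le_pow_of_le_one hu.le (by linarith) (by omega)
    have h3 : (1 / 10 : ℝ) ^ 8 * u ^ (n - 8) ≤ (1 / 10) ^ 8 * u ^ 6 :=
      mul_le_mul_of_nonneg_left h2 (by norm_num)
    exact h1.trans h3
  have q1 := p4 142 (by norm_num)
  have q2 := p4 162 (by norm_num)
  have q3 := p4 398 (by norm_num)
  have q4 := p5 322 (by norm_num)
  have q5 := p5 66 (by norm_num)
  have hX1 : (17496 * u ^ 142 + 130572 * u ^ 162 + 1755 * u + 648 * u ^ 398) * X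
      ≤ 2000 * u * X := by
    refine mul_le_mul_of_nonneg_right ?_ hX
    linarith
  have hQ1 : (150 * u ^ 62 + 3159 * u ^ 35 + 2 * u ^ 234) * Q ≤ 2000 * u * Q := by
    refine mul_le_mul_of_nonneg_right ?_ hQ
    linarith
  have h6 : 0 < u ^ 6 := by positivity
  have hA1 : (261144 * u ^ 322 + 61776 * u ^ 66) * A ≤ u ^ 6 / 2 * A := by
    refine mul_le_mul_of_nonneg_right ?_ hA
    linarith
  linarith


theorem ErrW_le {u a l : ℝ} {N M M' : ℕ} {K : Finset (Fin 3 → ℤ)} (h : PO u a l N M M' K)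
    (hu : u ≤ 1 / 10) (f : HS (Fin N)) (hf : ‖f‖ = 1) :
    ErrW M M' K (u ^ 32) (u ^ 31) (8 * Real.pi * a * (1 - u ^ 39)) (150 * (M : ℝ) ^ 2)
        (2 / (u ^ 20 * l ^ 2)) f
      ≤ 2000 * u * (1 / l ^ 5 + Db (l ^ 2) (f : (Fin N → T3) → ℂ) / l ^ 2)
        + u ^ 6 * a * VV (l ^ 2 / u ^ 3 / 2) (f : (Fin N → T3) → ℂ) / 2 := by
  have hu0 := h.u0
  have hl0 := h.l0
  have hN1 : 1 ≤ N := PO_N h
  have hNr : (0 : ℝ) < N := by exact_mod_cast hN1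
  have hcard : Fintype.card (Fin N) = N := Fintype.card_fin N
  have hMpos : (0 : ℝ) < M := by exact_mod_cast h.M1
  -- the quantities
  have hX : 0 ≤ 1 / l ^ 5 := by positivity
  have hD := WJ2_Db_nonneg (b := l ^ 2) (by positivity) f
  obtain ⟨D, hDe⟩ : ∃ D : ℝ, D = Db (l ^ 2) (f : (Fin N → T3) → ℂ) := ⟨_, rfl⟩
  obtain ⟨V, hVe⟩ : ∃ V : ℝ, V = VV (l ^ 2 / u ^ 3 / 2) (f : (Fin N → T3) → ℂ) := ⟨_, rfl⟩
  have hV : 0 ≤ V := by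
    rw [hVe]
    exact WJ3_VV_nonneg _ _
  rw [← hDe] at hD
  -- the bounds
  have hd := PO_dlt h hu
  have hd0 : 0 ≤ dlt (u ^ 32) M N := by
    unfold dlt
    positivity
  have hd2 : dlt (u ^ 32) M N ^ 2 ≤ 4 * u ^ 448 := by
    have h1 := pow_le_pow_left₀ hd0 hd 2
    have h2 : (2 * u ^ 224) ^ 2 = 4 * u ^ 448 := by ring
    linarith
  have hk := PO_card h hu
  have hk0 : (0 : ℝ) ≤ K.card := Nat.cast_nonneg _
  have hT := PO_T h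
  have hTi := PO_Ti h
  have hT0 : 0 < (N : ℝ) * cW M ^ 2 := by
    by_contra hcon
    rw [not_lt] at hcon
    have h0 : 0 ≤ (N : ℝ) * cW M ^ 2 := by positivity
    have h1 : (N : ℝ) * cW M ^ 2 = 0 := le_antisymm hcon h0
    have h2 : cW M = 0 := by
      have h3 := (mul_eq_zero.1 h1).resolve_left hNr.ne'
      exact pow_eq_zero_iff (two_ne_zero) |>.1 h3
    exact (cW_pos h.M1).ne' h2
  have hP := NP_le hu0 (by linarith) hl0 h.Ml' f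
  have hP0 : 0 ≤ NP M' f := by
    unfold NP
    refine tsum_nonneg fun p => ?_
    split_ifs
    · exact nk_nonneg f p
    · exact le_refl 0
  rw [← hDe] at hP
  have hD1 := D1_le hu0 (by linarith) hl0 h.M1 h.Ml f
  rw [← hDe] at hD1
  have hD10 := D1_nonneg M f
  have hv0 := vb_nonneg M f
  have hv := vb_le (T := l ^ 2 / u ^ 3) (by positivity) (PO_TM h hu) (by rw [hcard]; exact hN1) f
  rw [← hVe, hcard] at hv
  have hN2 : (N : ℝ) = 1 / (l ^ 3 * u ^ 160) := by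
    rw [eq_div_iff (by positivity)]
    exact h.Nl
  have hv' : vb M f ≤ 2 * V * (l ^ 6 * u ^ 320) := by
    refine hv.trans (le_of_eq ?_)
    rw [hN2]
    field_simp
  have hM2 : (M : ℝ) ^ 2 ≤ u ^ 64 / l ^ 2 := by
    have h1 := pow_le_pow_left₀ hMpos.le h.Mu 2
    refine h1.trans (le_of_eq ?_)
    rw [div_pow]
    congr 1
    ring
  have ha0 : 0 < a := by
    rw [h.al]
    positivity
  have hu39 : u ^ 39 ≤ 1 := pow_le_one₀ hu0.le (by linarith)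
  have hg0 : 0 ≤ 8 * Real.pi * a * (1 - u ^ 39) := by
    have h1 : 0 ≤ 1 - u ^ 39 := by linarith
    have := Real.pi_pos
    positivity
  have hgN0 : 0 ≤ 8 * Real.pi * a * (1 - u ^ 39) * N := mul_nonneg hg0 hNr.le
  have hgN : 8 * Real.pi * a * (1 - u ^ 39) * N ≤ 26 / l ^ 2 := by
    have h1 := PO_aN h
    have h2 : 8 * Real.pi * a * (1 - u ^ 39) * N = 8 * Real.pi * (1 - u ^ 39) * (a * N) := by ring
    rw [h2, h1]
    have h3 : 8 * Real.pi * (1 - u ^ 39) ≤ 26 := by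
      have h4 : Real.pi < 3.15 := Real.pi_lt_d2
      have h5 : 0 ≤ u ^ 39 := by positivity
      have h6 : 0 ≤ Real.pi * u ^ 39 := mul_nonneg Real.pi_pos.le h5
      linarith
    have h4 : 8 * Real.pi * (1 - u ^ 39) * (1 / l ^ 2) ≤ 26 * (1 / l ^ 2) :=
      mul_le_mul_of_nonneg_right h3 (by positivity)
    have h5 : (26 : ℝ) / l ^ 2 = 26 * (1 / l ^ 2) := by ring
    rw [h5]
    exact h4
  have b1 := WJ5_t1 hu0 hl0 (by positivity : (0 : ℝ) ≤ (M : ℝ) ^ 2) hP0 hM2 hP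
  have b2 := WJ5_t2 hu0 hl0 (sq_nonneg (dlt (u ^ 32) M N)) hk0 hT0.le hd2 hk hT
  have b3 := WJ5_t3 hu0 (by linarith) hl0 (sq_nonneg (dlt (u ^ 32) M N)) hk0 hT0.le hgN0 hv0 hd2 hk
    hT hgN hv'
  have b4 := WJ5_t4 hu0 hu hl0 (sq_nonneg (dlt (u ^ 32) M N)) hk0 (by positivity :
    (0 : ℝ) ≤ 1 / ((N : ℝ) * cW M ^ 2)) hgN0 hv0 hD10 h.Nl hd2 hk hTi hgN hv' hD1
  have b5 := WJ5_t5 hu0 hu hl0 (sq_nonneg (dlt (u ^ 32) M N)) hk0 hT0 hgN0 hP0 hd2 hk hTi hgN hP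
  have b6 := WJ5_sum (X := 1 / l ^ 5) (Q := D / l ^ 2) (A := (l * u ^ 160) * V) hu0 hu hX
    (by positivity) (by positivity)
  rw [← hDe, ← hVe]
  unfold ErrW
  rw [hcard]
  have e3 : 3 / 2 * (8 * Real.pi * a * (1 - u ^ 39)) * (K.card : ℝ) * dlt (u ^ 32) M N ^ 2
      * ((N : ℝ) ^ 2 * cW M ^ 2 * (1 + vb M f) + 4 * (N : ℝ))
      = 3 / 2 * (K.card : ℝ) * dlt (u ^ 32) M N ^ 2
        * (8 * Real.pi * a * (1 - u ^ 39) * N * (N * cW M ^ 2) * (1 + vb M f)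
          + 4 * (8 * Real.pi * a * (1 - u ^ 39) * N)) := by ring
  have e6 : u ^ 6 * a * V / 2 = u ^ 6 * ((l * u ^ 160) * V) / 2 := by
    rw [h.al]
    ring
  rw [e3, e6]
  refine le_trans ?_ b6
  have b4' := b4
  linarith

end Pool.Agent.Lib.MP_4952d6_mp.O

end

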