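import Pool.Agent.Lib.MP_4952d6_mp.Pk.G55
import Pool.Agent.Lib.MP_4952d6_mp.Po.N08
import Pool.Agent.Lib.MP_4952d6_mp.Po.N16
import Pool.Agent.Lib.MP_4952d6_mp.Po.N20
import Pool.Agent.Lib.MP_4952d6_mp.Po.N22
import Pool.Agent.Lib.MP_4952d6_mp.Po.N27
import Pool.Agent.Lib.MP_4952d6_mp.Po.N28
import Pool.Agent.Lib.MP_4952d6_mp.Po.N29
import Pool.Agent.Lib.MP_4952d6_mp.Po.N31
import Pool.Agent.Lib.MP_4952d6_mp.Po.N33

/-! Merged modules (to save import time): O.E10e, O.WJ7, O.Fin. -/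

/-! ### O.E10e -/

section

/-!
# O.E10e: `oe_statement`
-/

set_option autoImplicit false
set_option linter.unusedSectionVars false
set_option linter.unusedVariables false
open MeasureTheory Function Filter Topology Set ComplexConjugate

namespace Pool.Agent.Lib.MP_4952d6_mp.O

open LB

/-- the three moment bounds -/
lemma E10_loc {N : ℕ} {C u t T b : ℝ} {ψ : HS (Fin N)}
    (hL : LocO C u t T b (ψ : (Fin N → T3) → ℂ)) :
    DBd t T (C * (N : ℝ) ^ 2 * (Db b (ψ : (Fin N → T3) → ℂ) / u ^ 4 + u ^ 161 * N)) ψ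
      ∧ MBd t T (C * (N : ℝ) ^ 2) ψ
      ∧ VBd T (C * (N : ℝ) * (VV (T / 2) (ψ : (Fin N → T3) → ℂ) / u + u ^ 161 * (N : ℝ) ^ 2)) ψ := by
  refine ⟨?_, ?_, ?_⟩
  · intro r s hr hrT hs hsT
    have h := hL.md r s hr hrT hs hsT
    rw [Fintype.card_fin] at h
    exact h
  · intro s hs hsT
    have h := hL.m0 s hs hsT
    rw [Fintype.card_fin] at h
    refine le_trans (le_of_eq (Finset.sum_congr rfl fun m _ => ?_)) h
    unfold qf
    exact integral_congr_ae (Filter.Eventually.of_forall fun x => mul_comm _ _)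
  · intro s hs hsT
    have h := hL.mv s hs hsT
    rw [Fintype.card_fin] at h
    refine le_trans (le_of_eq ?_) h
    refine integral_congr_ae (Filter.Eventually.of_forall fun z => ?_)
    unfold qf
    exact integral_congr_ae (Filter.Eventually.of_forall fun x => mul_comm _ _)

/-- **Part A.** -/
theorem oe_statement : OEStatement := by
  intro θ CM Cc hθ hCM hCc
  obtain ⟨Cp, hCp, preo⟩ := preO
  obtain ⟨Cv, hCv, varo⟩ := varO
  have hp := Real.pi_pos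
  have hp3 := Real.pi_gt_three
  obtain ⟨u₁, hu₁, hu₁2, hypo⟩ := E10_hyp ((Cp * (64 * Real.pi ^ 2 * CM) + 1) / (4 * Real.pi))
    (by positivity)
  refine ⟨KOE Cp Cv CM θ (Cc * (1 + θ)),
    min u₁ (min (1 / (8 * (θ + 1) ^ 2)) (1 / (Cc * (1 + θ) + 1))), ?_, by positivity, ?_⟩
  · unfold KOE
    positivity
  intro u hu huu
  have huu₁ : u < u₁ := huu.trans_le (min_le_left _ _)
  have hu2 : u ≤ 1 / 2 := by linarith
  have hu1 : u ≤ 1 := by linarith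
  have huθ : 8 * θ ^ 2 * u ≤ 1 := by
    have h1 : u < 1 / (8 * (θ + 1) ^ 2) :=
      huu.trans_le ((min_le_right _ _).trans (min_le_left _ _))
    rw [lt_div_iff₀ (by positivity)] at h1
    nlinarith
  have huC : Cc * (1 + θ) * u ≤ 1 := by
    have h1 : u < 1 / (Cc * (1 + θ) + 1) :=
      huu.trans_le ((min_le_right _ _).trans (min_le_right _ _))
    rw [lt_div_iff₀ (by positivity)] at h1
    nlinarith
  refine ⟨u ^ 162 / 8, by positivity, ?_⟩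
  intro N W R₀ R a δ₁ h k w ha haa hNa hR0 hRθ hδ0 hδ1 hch ψ hψ hkin hLoc φ hφ
  -- the length `l`
  obtain ⟨l, hl⟩ : ∃ l : ℝ, l = a / u ^ 160 := ⟨_, rfl⟩
  have hl0 : 0 < l := by rw [hl]; positivity
  have hal : a = l * u ^ 160 := by rw [hl]; field_simp
  have hNl : (N : ℝ) = 1 / (l ^ 3 * u ^ 160) := by
    have h1 : (N : ℝ) * (l * u ^ 160) ^ 3 = u ^ 320 := by rw [← hal]; exact hNa
    have h2 : (N : ℝ) * (l ^ 3 * u ^ 160) * u ^ 320 = 1 * u ^ 320 := by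
      rw [one_mul]
      calc (N : ℝ) * (l ^ 3 * u ^ 160) * u ^ 320 = (N : ℝ) * (l * u ^ 160) ^ 3 := by ring
        _ = u ^ 320 := h1
    rw [eq_div_iff (by positivity)]
    exact mul_right_cancel₀ (by positivity) h2
  have hNpos : (0:ℝ) < N := by rw [hNl]; positivity
  have hN0 : 0 < N := by exact_mod_cast hNpos
  have htl : (a / u ^ 152) ^ 2 = (l * u ^ 8) ^ 2 := by
    rw [hal]
    congr 1
    field_simp
  have hbl : (a / u ^ 160) ^ 2 = l ^ 2 := by rw [← hl]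
  have hlu : l ≤ u ^ 2 / 8 := by
    rw [hl, div_le_iff₀ (by positivity)]
    calc a ≤ u ^ 162 / 8 := haa.le
      _ = u ^ 2 / 8 * u ^ 160 := by ring
  have hT64 : 64 * (l ^ 2 / u ^ 3) ≤ 1 := by
    have h1 : l ^ 2 ≤ (u ^ 2 / 8) ^ 2 := pow_le_pow_left₀ hl0.le hlu 2
    have h2 : l ^ 2 / u ^ 3 ≤ (u ^ 2 / 8) ^ 2 / u ^ 3 := div_le_div_of_nonneg_right h1 (by positivity)
    have h3 : (u ^ 2 / 8) ^ 2 / u ^ 3 = u / 64 := by
      field_simp
      ring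
    rw [h3] at h2
    linarith
  have ht0 : 0 < (l * u ^ 8) ^ 2 := by positivity
  have hT0 : 0 < l ^ 2 / u ^ 3 := by positivity
  have hsqt : Real.sqrt ((l * u ^ 8) ^ 2) = l * u ^ 8 := Real.sqrt_sq (by positivity)
  have hpw : ∀ n : ℕ, 1 ≤ n → u ^ n ≤ u := fun n hn => E10_pow hu hu1 hn
  have h4t : 4 * (l * u ^ 8) ^ 2 ≤ l ^ 2 / u ^ 3 := by
    rw [le_div_iff₀ (by positivity)]
    have h1 : 4 * (l * u ^ 8) ^ 2 * u ^ 3 = l ^ 2 * (4 * u ^ 19) := by ring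
    have h2 : u ^ 19 ≤ (1 / 2) ^ 19 := pow_le_pow_left₀ hu.le hu2 19
    have h3 : 4 * u ^ 19 ≤ 1 := by
      have : (4:ℝ) * (1 / 2) ^ 19 ≤ 1 := by norm_num
      linarith
    rw [h1]
    calc l ^ 2 * (4 * u ^ 19) ≤ l ^ 2 * 1 := mul_le_mul_of_nonneg_left h3 (by positivity)
      _ = l ^ 2 := mul_one _
  have htb : (l * u ^ 8) ^ 2 ≤ l ^ 2 := by
    have h1 : (l * u ^ 8) ^ 2 = l ^ 2 * u ^ 16 := by ring
    rw [h1]
    calc l ^ 2 * u ^ 16 ≤ l ^ 2 * 1 :=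
          mul_le_mul_of_nonneg_left (pow_le_one₀ hu.le hu1) (by positivity)
      _ = l ^ 2 := mul_one _
  have hbT : l ^ 2 ≤ l ^ 2 / u ^ 3 := by
    rw [le_div_iff₀ (by positivity)]
    calc l ^ 2 * u ^ 3 ≤ l ^ 2 * 1 :=
          mul_le_mul_of_nonneg_left (pow_le_one₀ hu.le hu1) (by positivity)
      _ = l ^ 2 := mul_one _
  have ht1 : (l * u ^ 8) ^ 2 ≤ 1 := by linarith
  -- `z = (√T)⁻¹`
  obtain ⟨z, hz⟩ : ∃ z : ℝ, z = (Real.sqrt (l ^ 2 / u ^ 3))⁻¹ := ⟨_, rfl⟩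
  have hz0 : 0 ≤ z := by rw [hz]; positivity
  have hzl : z ≤ 1 / l := by
    rw [hz, one_div]
    refine inv_anti₀ hl0 ?_
    calc l = Real.sqrt (l ^ 2) := (Real.sqrt_sq hl0.le).symm
      _ ≤ Real.sqrt (l ^ 2 / u ^ 3) := Real.sqrt_le_sqrt hbT
  -- `R`
  have hR' : R ≤ θ * (l * u ^ 160) := by rw [← hal]; exact hRθ
  have hRt : R ^ 2 ≤ (l * u ^ 8) ^ 2 / 8 := by
    have h1 : R ^ 2 ≤ (θ * (l * u ^ 160)) ^ 2 := pow_le_pow_left₀ hR0 hR' 2
    have h2 : (θ * (l * u ^ 160)) ^ 2 = (8 * θ ^ 2 * u ^ 304) * ((l * u ^ 8) ^ 2 / 8) := by ring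
    have h3 : 8 * θ ^ 2 * u ^ 304 ≤ 1 := by
      have := mul_le_mul_of_nonneg_left (hpw 304 (by norm_num)) (show 0 ≤ 8 * θ ^ 2 by positivity)
      linarith
    rw [h2] at h1
    refine h1.trans ?_
    exact mul_le_of_le_one_left (by positivity) h3
  have hRt2 : R ^ 2 ≤ (l * u ^ 8) ^ 2 / 2 := hRt.trans (by linarith)
  -- the small parameter `ε`
  obtain ⟨ε, hε⟩ : ∃ ε : ℝ, ε = Cc * a * (1 + R / (l * u ^ 8) ^ 2) := ⟨_, rfl⟩
  have hε0 : 0 ≤ ε := by rw [hε]; positivity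
  have hε1 : ε ≤ Cc * (1 + θ) * u ^ 161 := by
    have h1 : a * (1 + R / (l * u ^ 8) ^ 2) ≤ (1 + θ) * u ^ 161 := by
      have h2 : a * (R / (l * u ^ 8) ^ 2) ≤ θ * u ^ 161 := by
        have h3 : R / (l * u ^ 8) ^ 2 ≤ θ * (l * u ^ 160) / (l * u ^ 8) ^ 2 :=
          div_le_div_of_nonneg_right hR' (by positivity)
        have h4 : a * (θ * (l * u ^ 160) / (l * u ^ 8) ^ 2) = θ * u ^ 304 := by
          rw [hal]
          field_simp
        calc a * (R / (l * u ^ 8) ^ 2) ≤ a * (θ * (l * u ^ 160) / (l * u ^ 8) ^ 2) :=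
              mul_le_mul_of_nonneg_left h3 ha.le
          _ = θ * u ^ 304 := h4
          _ ≤ θ * u ^ 161 := mul_le_mul_of_nonneg_left
              (pow_le_pow_of_le_one hu.le hu1 (by norm_num)) hθ
      have h5 : a ≤ u ^ 161 := by
        have h6 : u ^ 162 ≤ u ^ 161 := pow_le_pow_of_le_one hu.le hu1 (by norm_num)
        have h7 : 0 < u ^ 162 := by positivity
        linarith
      calc a * (1 + R / (l * u ^ 8) ^ 2) = a + a * (R / (l * u ^ 8) ^ 2) := by ring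
        _ ≤ u ^ 161 + θ * u ^ 161 := add_le_add h5 h2
        _ = (1 + θ) * u ^ 161 := by ring
    calc ε = Cc * (a * (1 + R / (l * u ^ 8) ^ 2)) := by rw [hε]; ring
      _ ≤ Cc * ((1 + θ) * u ^ 161) := mul_le_mul_of_nonneg_left h1 hCc
      _ = _ := by ring
  have hε2 : ε ≤ 1 := by
    refine hε1.trans ?_
    have := mul_le_mul_of_nonneg_left (hpw 161 (by norm_num)) (show 0 ≤ Cc * (1 + θ) by positivity)
    linarith
  -- `A₁`, `A₂`
  obtain ⟨A₁, hA₁⟩ : ∃ A : ℝ, A = 2 * a / Real.sqrt (Real.pi * ((l * u ^ 8) ^ 2 / 2)) := ⟨_, rfl⟩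
  obtain ⟨A₂, hA₂⟩ : ∃ A : ℝ, A = 2 * a / Real.sqrt (Real.pi * (l * u ^ 8) ^ 2) := ⟨_, rfl⟩
  have hsp : 0 < Real.sqrt Real.pi := Real.sqrt_pos.2 hp
  have hA₂e : A₂ = 2 * u ^ 152 / Real.sqrt Real.pi := by
    rw [hA₂, Real.sqrt_mul hp.le, hsqt, hal]
    field_simp
  have hA₂0 : 0 ≤ A₂ := by rw [hA₂e]; positivity
  have hsp1 : 1 ≤ Real.sqrt Real.pi := by
    rw [← Real.sqrt_one]
    exact Real.sqrt_le_sqrt (by linarith)
  have hA₂1 : A₂ ≤ 2 * u ^ 152 := by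
    rw [hA₂e]
    exact div_le_self (by positivity) hsp1
  have hA₁₂ : A₂ ≤ A₁ := by
    rw [hA₁, hA₂]
    refine div_le_div_of_nonneg_left (by positivity) (Real.sqrt_pos.2 (by positivity)) ?_
    refine Real.sqrt_le_sqrt ?_
    have : 0 ≤ Real.pi * (l * u ^ 8) ^ 2 := by positivity
    linarith
  have hA₁1 : A₁ ≤ 8 * Real.pi * a / Real.sqrt ((l * u ^ 8) ^ 2) := by
    have h1 : Real.sqrt ((l * u ^ 8) ^ 2) ≤ Real.sqrt (Real.pi * ((l * u ^ 8) ^ 2 / 2)) := by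
      refine Real.sqrt_le_sqrt ?_
      have h3 := mul_le_mul_of_nonneg_right hp3.le (show 0 ≤ (l * u ^ 8) ^ 2 / 2 by positivity)
      have h4 : 0 ≤ (l * u ^ 8) ^ 2 := sq_nonneg _
      linarith only [h3, h4]
    have h2 : 0 < Real.sqrt ((l * u ^ 8) ^ 2) := Real.sqrt_pos.2 ht0
    calc A₁ ≤ 2 * a / Real.sqrt ((l * u ^ 8) ^ 2) := by
          rw [hA₁]
          exact div_le_div_of_nonneg_left (by positivity) h2 h1
      _ ≤ 8 * Real.pi * a / Real.sqrt ((l * u ^ 8) ^ 2) := by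
          refine div_le_div_of_nonneg_right ?_ h2.le
          have h5 := mul_le_mul_of_nonneg_right hp3.le ha.le
          linarith only [h5, ha]
  -- moment bounds
  rw [htl, hbl] at hLoc
  obtain ⟨hDB, hMB, hVB⟩ := E10_loc hLoc
  have hG : ∀ p, |φ p| ≤ 8 * Real.pi / l ^ 2 := by
    intro p
    refine (hφ p).trans (le_of_eq ?_)
    rw [hNl, hal]
    field_simp
  have hp5 : ∀ z, ∫ r in ((l * u ^ 8) ^ 2 / 2)..((l * u ^ 8) ^ 2), cn (MP_4952d6_mp.hk r) h z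
      ≤ A₁ - A₂ + ε := by
    intro z
    have h1 := hch.p5 ((l * u ^ 8) ^ 2) ht0 ht1 z
    rw [← hA₁, ← hA₂] at h1
    have h2 : Cc * a ≤ ε := by
      rw [hε]
      refine le_mul_of_one_le_right (by positivity) ?_
      have : 0 ≤ R / (l * u ^ 8) ^ 2 := by positivity
      linarith
    linarith
  have hp4 : ∀ᵐ z ∂lam3, h z * KK ((l * u ^ 8) ^ 2) h z ≤ h z * (2 * w z - A₁ + ε) := by
    filter_upwards [hch.p4 ((l * u ^ 8) ^ 2) ht0 ht1 hRt2] with z hz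
    rw [← hA₁, ← hε] at hz
    exact hz
  have hu9 : u ^ 9 ≤ 1 / 2 := (hpw 9 (by norm_num)).trans hu2
  have hδ1' : δ₁ ≤ 1 := hδ1.trans ((hpw 161 (by norm_num)).trans hu1)
  have pre := preo N ((l * u ^ 8) ^ 2) (l ^ 2 / u ^ 3) (l ^ 2) (u ^ 9) (u ^ 9) (a ^ 2)
    (8 * Real.pi * a) R δ₁ ε A₁ A₂ ((u ^ 9)⁻¹) _ _ _ (8 * Real.pi / l ^ 2) h k w hN0 ht0 h4t hT64 htb
    hbT (by positivity) hu9 (by positivity) (by linarith) (by positivity)
    (by
      have h1 : a ^ 2 = (l * u ^ 8) ^ 2 * u ^ 304 := by rw [hal]; ring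
      rw [h1]
      exact mul_le_of_le_one_right ht0.le (pow_le_one₀ hu.le hu1))
    (by positivity) hch.sr hR0 hRt hch.k_bm hch.w_bm hch.w_nonneg hch.w_le hδ0 hδ1' hch.two hp4 hp5
    hε0 hε2 hA₂0 hA₁₂ hA₁1 (by positivity) (by positivity) ψ hψ hkin hDB hMB hVB φ hG
  have var := varo N ((l * u ^ 8) ^ 2) (l ^ 2 / u ^ 3) _ hN0 ht0 h4t hT64 ψ hψ hDB
  have mod := E10_modes (N := N) (t := (l * u ^ 8) ^ 2) (T := l ^ 2 / u ^ 3) (s := a ^ 2) (u := u)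
    (l := l) (δ₁ := δ₁) (κ := (Cp * (64 * Real.pi ^ 2 * CM) + 1) / (4 * Real.pi) * u ^ 6)
    (by positivity) ht0 (by linarith) hu.le hu1 hψ (fun p hp => by
      have h1 := hypo u hu huu₁ a δ₁ ha hδ0 hδ1 p hp
      rw [htl, hbl, ← hl] at h1
      exact h1)
  obtain ⟨D, hD⟩ : ∃ D, D = Db (l ^ 2) (ψ : (Fin N → T3) → ℂ) := ⟨_, rfl⟩
  have hD0 : 0 ≤ D := by rw [hD]; exact E10_Db_nonneg (by positivity) ψ
  rw [E10_loss_eq ht0.le] at var
  have hDt := E10_Db_mono ht0.le htb ψ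
  rw [← hD] at pre var hDt
  obtain ⟨V, hV⟩ : ∃ V, V = VV (l ^ 2 / u ^ 3 / 2) (ψ : (Fin N → T3) → ℂ) := ⟨_, rfl⟩
  have hV0 : 0 ≤ V := by
    rw [hV]
    unfold VV
    exact integral_nonneg fun z => integral_nonneg fun x => mul_nonneg (sq_nonneg _) (sq_nonneg _)
  rw [← hV] at pre var
  have hmd : CM * (N : ℝ) ^ 2 * (D / u ^ 4 + u ^ 161 * N) = mdE l u CM D := by
    rw [hNl]
    rfl
  rw [hmd] at pre var
  have hsa : Real.sqrt (a ^ 2) = a := Real.sqrt_sq ha.le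
  have hcT := LimA_S hT0 (by linarith)
  rw [← hz] at hcT var
  have hfin := E10_real (l := l) (u := u) (cm := CM) (D := D) (V := V) (z := z) (R := R) (θ := θ)
    (A₂ := A₂) (ε := ε) (Kε := Cc * (1 + θ)) (Cp := Cp) (Cv := Cv) (δ₁ := δ₁) (n := (N : ℝ)) (a := a)
    hl0 hu hu1 hCM hD0 hV0 hz0 hzl hθ hR0 hR' hA₂0 hA₂1 (tsum_nonneg fun p => sq_nonneg _) hcT hε0
    (by positivity) hε1 hCp hCv hδ0 hδ1 (cH := ∑' p : Fin 3 → ℤ, et ((l * u ^ 8) ^ 2) p ^ 2)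
    (tsum_nonneg fun p => sq_nonneg _) hal hNl mod
    (by
      refine var.trans ?_
      have := mul_le_mul_of_nonneg_left hDt (show 0 ≤ 2 * (N : ℝ) by positivity)
      linarith)
    (by
      refine le_trans (le_of_eq ?_) pre
      unfold elErrO preErrO
      rw [hsqt, hsa, ← hz]
      have hTb : l ^ 2 / u ^ 3 / l ^ 2 = 1 / u ^ 3 := by field_simp
      rw [hTb, div_eq_mul_inv (R + a) (Real.sqrt (l ^ 2 / u ^ 3)), ← hz])
  rw [htl, hbl, ← hl, ← hV, ← hD]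
  refine le_trans (le_of_eq ?_) hfin
  have hA4 : 4 * Real.sqrt Real.pi / u ^ 8 * ((N : ℝ) ^ 2 * a * u ^ 160)
      = 2 * Real.pi * A₂ * a * (N : ℝ) ^ 2 := by
    rw [hA₂e]
    have h1 : Real.pi = Real.sqrt Real.pi * Real.sqrt Real.pi := (Real.mul_self_sqrt hp.le).symm
    have h2 : 2 * Real.pi * (2 * u ^ 152 / Real.sqrt Real.pi) = 4 * Real.sqrt Real.pi * u ^ 152 := by
      nth_rewrite 1 [h1]
      field_simp
      norm_num
    calc 4 * Real.sqrt Real.pi / u ^ 8 * ((N : ℝ) ^ 2 * a * u ^ 160)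
        = (4 * Real.sqrt Real.pi * u ^ 152) * (a * (N : ℝ) ^ 2) := by
          field_simp
      _ = (2 * Real.pi * (2 * u ^ 152 / Real.sqrt Real.pi)) * (a * (N : ℝ) ^ 2) := by rw [h2]
      _ = _ := by ring
  rw [hA4]

end Pool.Agent.Lib.MP_4952d6_mp.O

end

/-! ### O.WJ7 -/

section

/-! # O.WJ7: the meeting statement `OWStatement`

`rsq_upper`: for `p ∈ Kb K M` (`PO_Kb`): `p ≠ 0`, `gO u l p = 1 - u^40`, `a² ksq p ≤ 3 u^300` (`a = l u^160`), so `gO · exp (-(a² ksq p)) ≥ (1 - u^40)(1 - 3 u^300) ≥ 1 - u^39`; all terms of the series are `≥ 0` and it is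
summable (`0 ≤ gO ≤ 1`, `den_ge` part 1 with `s = a²`, or `Rsq ≤ N²` and `summable_exp_ksq`).
`ow_statement`: `C = 2·10^9`, `u₀ = min (1/10) (..)` with also `480 b u^64 ≤ 1` for `Es_avg` (`b l² 480 M² ≤ 480 b u^64`), `a₀` from `exists_PO`; put `l = a/u^160`; rewrite `(a/u^152)^2 = l² u^16`, `(a/u^160)^2 = l²`,
`4 π a N = 4 π/l²`, `N² a u^160 = 1/l⁵` (`PO_X`), `N a = 1/l²`. Apply `ow_explicit` with `s = u^32`, `w0 = u^31`, `g = 8 π a (1 - u^39)`, `E = Es b lam l`, `Em = 2/(u^20 l²)` (`Es_le`, `PO.Kd`), `CE = 150 M²`,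
`2 π² t M² ≤ 20 u^80 ≤ 1` (`PO_tM`), then `main_lower`, `ErrW_le`, `rsq_upper`; `g · card (Fin N) = 8 π a (1 - u^39) N` (`Fintype.card_fin`); the term `u^6 a V/2 ≤ u^6 a V` (`WJ3_VV_nonneg`). -/

set_option autoImplicit false
set_option linter.unusedSectionVars false
set_option linter.unusedVariables false
open MeasureTheory Function Filter Topology Set ComplexConjugate

namespace Pool.Agent.Lib.MP_4952d6_mp.O

open LB

lemma WJ7_gO_nonneg {u : ℝ} (hu : 0 < u) (hu1 : u ≤ 1) (l : ℝ) (p : Fin 3 → ℤ) :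
    0 ≤ gO u l p := by
  have h : u ^ 40 ≤ 1 := pow_le_one₀ hu.le hu1
  unfold gO
  split_ifs
  · exact le_rfl
  · norm_num
  · linarith

lemma WJ7_gO_le {u : ℝ} (hu : 0 < u) (l : ℝ) (p : Fin 3 → ℤ) : gO u l p ≤ 1 := by
  have h : 0 < u ^ 40 := by positivity
  unfold gO
  split_ifs
  · norm_num
  · norm_num
  · linarith

theorem rsq_upper {u a l : ℝ} {N M M' : ℕ} {K : Finset (Fin 3 → ℤ)} (h : PO u a l N M M' K)
    (hu : u ≤ 1 / 10) (f : HS (Fin N)) (hf : ‖f‖ = 1) :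
    8 * Real.pi * a * (1 - u ^ 39) / 2 * ∑ p ∈ Kb K M, Rsq (l ^ 2 * u ^ 16) f p
      ≤ 4 * Real.pi * a * (∑' p, gO u l p * Real.exp (-(a ^ 2 * ksq p))
        * Rsq (l ^ 2 * u ^ 16) f p) := by
  have hu0 := h.u0
  have hl0 := h.l0
  have hu1 : u ≤ 1 := by linarith
  have ha : 0 < a := by rw [h.al]; positivity
  have ht : 0 < l ^ 2 * u ^ 16 := by positivity
  have hR0 : ∀ p, 0 ≤ Rsq (l ^ 2 * u ^ 16) f p := fun p => sq_nonneg _
  have hnn : ∀ p, 0 ≤ gO u l p * Real.exp (-(a ^ 2 * ksq p)) * Rsq (l ^ 2 * u ^ 16) f p := fun p =>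
    mul_nonneg (mul_nonneg (WJ7_gO_nonneg hu0 hu1 l p) (Real.exp_pos _).le) (hR0 p)
  have hs : Summable fun p => gO u l p * Real.exp (-(a ^ 2 * ksq p))
      * Rsq (l ^ 2 * u ^ 16) f p := by
    refine Summable.of_nonneg_of_le hnn (fun p => ?_)
      (den_ge (s := a ^ 2) (by positivity) ht f hf).1
    rw [mul_assoc]
    refine mul_le_of_le_one_left (mul_nonneg (Real.exp_pos _).le (hR0 p)) (WJ7_gO_le hu0 l p)
  have h1 : (1 - u ^ 39) * ∑ p ∈ Kb K M, Rsq (l ^ 2 * u ^ 16) f p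
      ≤ ∑' p, gO u l p * Real.exp (-(a ^ 2 * ksq p)) * Rsq (l ^ 2 * u ^ 16) f p := by
    refine le_trans ?_ (hs.sum_le_tsum (Kb K M) (fun p _ => hnn p))
    rw [Finset.mul_sum]
    refine Finset.sum_le_sum fun p hp => mul_le_mul_of_nonneg_right ?_ (hR0 p)
    obtain ⟨k1, k2⟩ := PO_Kb h hu hp
    have hp0 : p ≠ 0 := by
      intro hp0
      rw [hp0] at k1
      have : ksq (0 : Fin 3 → ℤ) = 0 := by simp [ksq, mom2]
      rw [this, mul_zero] at k1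
      have : 0 < u ^ 2 := by positivity
      linarith
    have hg : gO u l p = 1 - u ^ 40 := by
      unfold gO
      rw [if_neg hp0, if_neg (not_lt.2 k1)]
    rw [hg]
    have h2 : a ^ 2 * ksq p ≤ 3 * u ^ 300 := by
      calc a ^ 2 * ksq p ≤ a ^ 2 * (3 / (u ^ 20 * l ^ 2)) :=
            mul_le_mul_of_nonneg_left k2 (sq_nonneg _)
        _ = 3 * u ^ 300 := by rw [h.al]; field_simp
    have h3 : 1 - 3 * u ^ 300 ≤ Real.exp (-(a ^ 2 * ksq p)) := by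
      have := Real.add_one_le_exp (-(a ^ 2 * ksq p))
      linarith
    have h40 : u ^ 40 ≤ 1 := pow_le_one₀ hu0.le hu1
    have h5 : u ^ 300 ≤ u ^ 40 := pow_le_pow_of_le_one hu0.le hu1 (by norm_num)
    have h6 : u ^ 40 ≤ u ^ 39 * (1 / 10) := by
      rw [pow_succ]
      exact mul_le_mul_of_nonneg_left hu (by positivity)
    have h7 : 0 < u ^ 39 := by positivity
    have h8 : 0 < u ^ 300 := by positivity
    calc 1 - u ^ 39 ≤ (1 - u ^ 40) * (1 - 3 * u ^ 300) := by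
          have : 0 < u ^ 40 := by positivity
          nlinarith
      _ ≤ (1 - u ^ 40) * Real.exp (-(a ^ 2 * ksq p)) :=
          mul_le_mul_of_nonneg_left h3 (by linarith)
  have h2 : 0 ≤ 4 * Real.pi * a := by have := Real.pi_pos; positivity
  calc 8 * Real.pi * a * (1 - u ^ 39) / 2 * ∑ p ∈ Kb K M, Rsq (l ^ 2 * u ^ 16) f p
      = 4 * Real.pi * a * ((1 - u ^ 39) * ∑ p ∈ Kb K M, Rsq (l ^ 2 * u ^ 16) f p) := by ring
    _ ≤ _ := mul_le_mul_of_nonneg_left h1 h2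

theorem ow_statement : OWStatement := by
  intro b lam CM hb hlb hl8 hCM
  refine ⟨2000000000, min (1 / 10) (1 / (480 * b + 1)), by norm_num,
    lt_min (by norm_num) (by positivity), fun u hu hlt => ?_⟩
  have hu10 : u ≤ 1 / 10 := hlt.le.trans (min_le_left _ _)
  have hu1 : u ≤ 1 := by linarith
  have hub : u ≤ 1 / (480 * b + 1) := hlt.le.trans (min_le_right _ _)
  obtain ⟨a₀, ha₀, hPO⟩ := exists_PO hu hu10
  refine ⟨a₀, ha₀, fun N a ha haa hNa ψ hψ hsum hLoc => ?_⟩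
  obtain ⟨M, M', K, h⟩ := hPO N a ha haa hNa
  have hpi := Real.pi_pos
  set l : ℝ := a / u ^ 160 with hl
  have hl0 : 0 < l := h.l0
  have et1 : (a / u ^ 152) ^ 2 = l ^ 2 * u ^ 16 := by rw [hl]; field_simp
  rw [et1]
  have ht : 0 < l ^ 2 * u ^ 16 := by positivity
  have hX := PO_X h
  have hNa2 := PO_aN h
  have hM1 := h.M1
  have hN1 : 1 ≤ Fintype.card (Fin N) := by rw [Fintype.card_fin]; exact PO_N h
  have hM0 : (0:ℝ) < M := by exact_mod_cast hM1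
  have h39 : u ^ 39 ≤ 1 := pow_le_one₀ hu.le hu1
  have hb64 : 480 * b * u ^ 64 ≤ 1 := by
    have h1 : u ^ 64 ≤ u := by
      calc u ^ 64 ≤ u ^ 1 := pow_le_pow_of_le_one hu.le hu1 (by norm_num)
        _ = u := pow_one u
    have h2 : 480 * b * u ≤ 1 := by
      rw [le_div_iff₀ (by positivity)] at hub
      nlinarith
    calc 480 * b * u ^ 64 ≤ 480 * b * u := by gcongr
      _ ≤ 1 := h2
  have hMl : (M : ℝ) * l ≤ u ^ 32 := by
    have := h.Mu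
    rwa [le_div_iff₀ hl0] at this
  have hbM : b * l ^ 2 * (480 * (M : ℝ) ^ 2) ≤ 1 := by
    calc b * l ^ 2 * (480 * (M : ℝ) ^ 2) = 480 * b * (M * l) ^ 2 := by ring
      _ ≤ 480 * b * (u ^ 32) ^ 2 := by gcongr
      _ = 480 * b * u ^ 64 := by ring
      _ ≤ 1 := hb64
  have hMN : 2 * (M : ℝ) ^ 3 ≤ u ^ 32 * (Fintype.card (Fin N) : ℝ) := by
    rw [Fintype.card_fin]; exact PO_MN h hu10
  have htM : 2 * Real.pi ^ 2 * (l ^ 2 * u ^ 16) * (M : ℝ) ^ 2 ≤ 1 := by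
    have h1 := PO_tM h
    have h2 : Real.pi ^ 2 ≤ 10 := by nlinarith [Real.pi_lt_d2]
    have h3 : u ^ 80 ≤ (1 / 10) ^ 80 := pow_le_pow_left₀ hu.le hu10 80
    have h4 : (20 : ℝ) * (1 / 10) ^ 80 ≤ 1 := by norm_num
    calc 2 * Real.pi ^ 2 * (l ^ 2 * u ^ 16) * (M : ℝ) ^ 2
        = 2 * Real.pi ^ 2 * (l ^ 2 * u ^ 16 * (M : ℝ) ^ 2) := by ring
      _ ≤ 2 * 10 * u ^ 80 := by gcongr
      _ ≤ 20 * (1 / 10) ^ 80 := by linarith
      _ ≤ 1 := h4
  have hg : 0 ≤ 8 * Real.pi * a * (1 - u ^ 39) := mul_nonneg (by positivity) (by linarith)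
  have hEm : ∀ k ∈ K, Es b lam l k ≤ 2 / (u ^ 20 * l ^ 2) := fun k hk => by
    have h1 := (h.Kd k).1 hk
    have h2 := Es_le hb hlb hl0 k
    calc Es b lam l k ≤ 9 / 8 * ksq k := h2
      _ ≤ 9 / 8 * (1 / (u ^ 20 * l ^ 2)) := by linarith [h1.2]
      _ ≤ 2 * (1 / (u ^ 20 * l ^ 2)) := by
        refine mul_le_mul_of_nonneg_right (by norm_num) (by positivity)
      _ = _ := by ring
  have key := ow_explicit ht hM1 hN1 (s := u ^ 32) (by positivity) (pow_le_one₀ hu.le hu1) hMN htM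
    (w0 := u ^ 31) (by positivity) hg (PO_K h hu10) (E := Es b lam l)
    (fun p => Es_nonneg hb hlb hl0 p) (fun k hk => Es_pos hb hlb hl0 (PO_ne h hk))
    (show (0:ℝ) ≤ 2 / (u ^ 20 * l ^ 2) by positivity) hEm
    (fun p => Es_neg b lam l p) (CE := 150 * (M : ℝ) ^ 2) (by positivity)
    (fun p => Es_avg hb hlb hl0 hM1 hbM p) ψ hψ (summable_Es hb hlb hl0 ht ψ)
  rw [Fintype.card_fin] at key
  have k2 := main_lower h hu10 hb hlb
  have k3 := ErrW_le h hu10 ψ hψ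
  have k4 := rsq_upper h hu10 ψ hψ
  have hD : 0 ≤ Db (l ^ 2) (ψ : (Fin N → T3) → ℂ) := WJ2_Db_nonneg (sq_nonneg _) ψ
  have hV := WJ3_VV_nonneg (l ^ 2 / u ^ 3 / 2) (ψ : (Fin N → T3) → ℂ)
  have e1 : 4 * Real.pi * a * N = 4 * Real.pi / l ^ 2 := by
    calc 4 * Real.pi * a * N = 4 * Real.pi * (a * N) := by ring
      _ = _ := by rw [hNa2]; ring
  have e2 : (N : ℝ) * a = 1 / l ^ 2 := by rw [mul_comm]; exact hNa2
  rw [e1, hX, e2]
  have e3 : Db (l ^ 2) (ψ : (Fin N → T3) → ℂ) / l ^ 2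
      = 1 / l ^ 2 * Db (l ^ 2) (ψ : (Fin N → T3) → ℂ) := by ring
  rw [e3] at k3
  have hX0 : 0 ≤ u * (1 / l ^ 5) := by positivity
  have hQ0 : 0 ≤ u * (1 / l ^ 2 * Db (l ^ 2) (ψ : (Fin N → T3) → ℂ)) := by positivity
  have hV0 : 0 ≤ u ^ 6 * a * VV (l ^ 2 / u ^ 3 / 2) (ψ : (Fin N → T3) → ℂ) := by positivity
  have e4 : 1000000000 * u / l ^ 5 = 1000000000 * (u * (1 / l ^ 5)) := by ring
  rw [e4] at k2
  have e5 : 2000 * u * (1 / l ^ 5 + 1 / l ^ 2 * Db (l ^ 2) (ψ : (Fin N → T3) → ℂ))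
      = 2000 * (u * (1 / l ^ 5)) + 2000 * (u * (1 / l ^ 2 * Db (l ^ 2) (ψ : (Fin N → T3) → ℂ))) := by
    ring
  rw [e5] at k3
  have e6 : 2000000000 * u * (1 / l ^ 5 + 1 / l ^ 2 * Db (l ^ 2) (ψ : (Fin N → T3) → ℂ))
      = 2000000000 * (u * (1 / l ^ 5))
        + 2000000000 * (u * (1 / l ^ 2 * Db (l ^ 2) (ψ : (Fin N → T3) → ℂ))) := by ring
  rw [e6]
  linarith

end Pool.Agent.Lib.MP_4952d6_mp.O

end

/-! ### O.Fin -/

section

/-!
# The distribution of the momenta of the dilute Bose gas above any infrared cutoff: final theorem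
-/

set_option autoImplicit false

namespace Pool.Agent.Lib.MP_4952d6_mp.O

theorem ol_statement : OLStatement := ol_of oe_statement ow_statement oc_statement

theorem otd_statement : OTDStatement :=
  otd_of (ot_of (og_of ol_statement oj_statement ustatement)) om_statement

theorem otd_final : OTDFull := otd_full otd_statement ustatement

end Pool.Agent.Lib.MP_4952d6_mp.O

end

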