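import Pool.Agent.Lib.MP_4952d6_mp.Po.N02
import Pool.Agent.Lib.MP_4952d6_mp.Po.N03
import Pool.Agent.Lib.MP_4952d6_mp.Po.N09

/-! Merged modules (to save import time): O.E3, O.E4, O.E6. -/

/-! ### O.E3 -/

section



end

/-! ### O.E4 -/

section

/-!
# O.E4: diagonal terms (E3 of the notes)

* `diag1`: `kap (2t) - kap t ≥ 0` is the multiplier `∫_{t/2}^t exp(-u ksq) du`; `QQ1 T l` commutes with `S1 _ j` and is a
  contraction (`0 ≤ 1 - et ≤ 1`, `inner_DM_mono` as in `BB_diag`), then `pair_hk` (with `l = m`) under the time integral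
  as in `kap_diag` (`kap_inner` for `2t` and for `t`).
* `diag2`: `g = QQ1 T l F₀ + QQ1 t l F₁ = F - S_l F₀ - P_l F₁`, `F = HP h j l (f₀+f₁)`;
  `⟪g, κ g⟫ = ⟪F, κ F⟫ - 2 Re⟪S_l F₀ + P_l F₁, κ F⟫ + ⟪S_l F₀ + P_l F₁, κ (S_l F₀ + P_l F₁)⟫`
  `≤ ⟪F, κ F⟫ + 2|⟪S_l F₀, κ F⟫| + 2|⟪P_l F₁, κ F⟫| + 2⟪S_l F₀, κ S_l F₀⟫ + 2⟪P_l F₁, κ P_l F₁⟫` (`κ = S1 (kap t) j ≥ 0`);
  the first by `kap_diag`, the others by `kap_pair2` with `v = T/2`, `c = 1`; `v = t/2`, `c = 1/θ`; `v = T`, `c = 1`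
  (`S_l² = S1 (exp (-T ksq)) l`); `v = t`, `c = 1`. `t (√(t/2))⁻¹ ^ 3 = C/√t`, `1 ≤ 1/θ`.
* `diag4`: as `BB_diag`.
-/

set_option autoImplicit false
set_option linter.unusedSectionVars false
set_option linter.unusedVariables false
open MeasureTheory Function Filter Topology Set ComplexConjugate

namespace Pool.Agent.Lib.MP_4952d6_mp.O

open LB

lemma E4_bdm {t : ℝ} (ht : 0 ≤ t) : Bdm (fun p : Fin 3 → ℤ => 1 - et t p) :=
  (Bdm.const 1).sub (bdm_et ht)

/-- Removing the projection. -/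
lemma E4_step {N : ℕ} {T : ℝ} (hT : 0 ≤ T) {φ : (Fin 3 → ℤ) → ℝ} (hφ : Bdm φ)
    (hφ0 : ∀ p, 0 ≤ φ p) (j l : Fin N) (f : HS (Fin N)) :
    (inner ℂ (QQ1 T l f) (S1 φ j (QQ1 T l f))).re ≤ (inner ℂ f (S1 φ j f)).re := by
  have hq := E4_bdm hT
  unfold QQ1
  rw [S1_symm hq l]
  have hql : Bdm (fun k : Fin N → Fin 3 → ℤ => 1 - et T (k l)) := by
    obtain ⟨C, hC⟩ := hq
    exact ⟨C, fun k => hC (k l)⟩
  have hkj : Bdm (fun k : Fin N → Fin 3 → ℤ => φ (k j)) := by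
    obtain ⟨C, hC⟩ := hφ
    exact ⟨C, fun k => hC (k j)⟩
  unfold S1
  rw [DM_DM hkj hql, DM_DM hql (hkj.mul hql)]
  refine inner_DM_mono (hql.mul (hkj.mul hql)) hkj (fun k => ?_) f
  have h1 := et_pos T (k l)
  have h2 := et_le_one hT (k l)
  have h3 := hφ0 (k j)
  have h4 : (1 - et T (k l)) * (φ (k j) * (1 - et T (k l)))
      = φ (k j) * (1 - et T (k l)) ^ 2 := by ring
  rw [h4]
  have h5 : (1 - et T (k l)) ^ 2 ≤ 1 := pow_le_one₀ (by linarith) (by linarith)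
  nlinarith

/-- `kap_inner` over an arbitrary interval. -/
lemma E4_inner {ι : Type*} [Fintype ι] [DecidableEq ι] {a b : ℝ} (ha : 0 ≤ a) (hab : a ≤ b)
    {φ : (Fin 3 → ℤ) → ℝ} (hφ : Bdm φ)
    (hφi : ∀ p, φ p = ∫ u in a..b, Real.exp (-(u * ksq p))) (j : ι) (A B : HS ι) :
    (inner ℂ A (S1 φ j B)).re
      = ∫ u in a..b, (inner ℂ A (S1 (fun p => Real.exp (-(u * ksq p))) j B)).re := by
  have h1 : HasSum (fun k : ι → Fin 3 → ℤ => φ (k j) * (conj (cf A k) * cf B k).re)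
      (inner ℂ A (S1 φ j B)).re := by
    have h2 := hasSum_inner_re A (S1 φ j B)
    have h3 : (fun k : ι → Fin 3 → ℤ => (conj (cf A k) * cf (S1 φ j B) k).re)
        = fun k => φ (k j) * (conj (cf A k) * cf B k).re := by
      funext k
      rw [cf_S1 hφ, KT_re]
    rwa [h3] at h2
  have hs : Summable fun k : ι → Fin 3 → ℤ => |(conj (cf A k) * cf B k).re| :=
    (hasSum_inner_re A B).summable.abs
  have h4 : HasSum (fun k : ι → Fin 3 → ℤ => ∫ u in a..b,
      Real.exp (-(u * ksq (k j))) * (conj (cf A k) * cf B k).re)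
      (∫ u in a..b, (inner ℂ A (S1 (fun p => Real.exp (-(u * ksq p))) j B)).re) := by
    refine intervalIntegral.hasSum_integral_of_dominated_convergence
      (fun k _ => |(conj (cf A k) * cf B k).re|) ?_ ?_ ?_ ?_ ?_
    · intro k
      have hc : Continuous fun u : ℝ => Real.exp (-(u * ksq (k j))) * (conj (cf A k) * cf B k).re := by
        fun_prop
      exact hc.aestronglyMeasurable
    · intro k
      refine Filter.Eventually.of_forall fun u hu => ?_
      rw [uIoc_of_le hab] at hu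
      have hu0 : 0 ≤ u := ha.trans hu.1.le
      rw [Real.norm_eq_abs, abs_mul, abs_of_pos (Real.exp_pos _)]
      have h5 : Real.exp (-(u * ksq (k j))) ≤ 1 := by
        apply Real.exp_le_one_iff.2
        have := mul_nonneg hu0 (ksq_nonneg (k j))
        linarith
      calc Real.exp (-(u * ksq (k j))) * |(conj (cf A k) * cf B k).re|
          ≤ 1 * |(conj (cf A k) * cf B k).re| := mul_le_mul_of_nonneg_right h5 (abs_nonneg _)
        _ = |(conj (cf A k) * cf B k).re| := one_mul _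
    · exact Filter.Eventually.of_forall fun u _ => hs
    · exact intervalIntegrable_const
    · refine Filter.Eventually.of_forall fun u hu => ?_
      rw [uIoc_of_le hab] at hu
      have hu0 : 0 ≤ u := ha.trans hu.1.le
      have h2 := hasSum_inner_re A (S1 (fun p => Real.exp (-(u * ksq p))) j B)
      have h3 : (fun k : ι → Fin 3 → ℤ =>
            (conj (cf A k) * cf (S1 (fun p => Real.exp (-(u * ksq p))) j B) k).re)
          = fun k => Real.exp (-(u * ksq (k j))) * (conj (cf A k) * cf B k).re := by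
        funext k
        rw [cf_S1 (bdm_exp hu0), KT_re]
      rwa [h3] at h2
  have h6 : (fun k : ι → Fin 3 → ℤ => ∫ u in a..b,
      Real.exp (-(u * ksq (k j))) * (conj (cf A k) * cf B k).re)
      = fun k => φ (k j) * (conj (cf A k) * cf B k).re := by
    funext k
    rw [intervalIntegral.integral_mul_const, ← hφi]
  rw [h6] at h4
  exact h1.unique h4

private lemma E4_cn_measc {α : Type*} [MeasurableSpace α] {h : T3 → ℝ} (hh : BM h) {a : α → ℝ}
    {b : α → T3} (ha : Measurable a) (hb : Measurable b) :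
    Measurable fun x => cn (hk (a x)) h (b x) := by
  have h1 : Measurable ((fun q : ℝ × T3 => cn (hk q.1) h q.2) ∘ fun x => (a x, b x)) :=
    Measurable.comp (KT_cn_meas hh) (ha.prodMk hb)
  exact h1

/-- `kap_diag` over an arbitrary interval. -/
lemma E4_diag {ι : Type*} [Fintype ι] [DecidableEq ι] {a b : ℝ} (ha : 0 ≤ a) (hab : a ≤ b)
    {φ : (Fin 3 → ℤ) → ℝ} (hφ : Bdm φ)
    (hφi : ∀ p, φ p = ∫ u in a..b, Real.exp (-(u * ksq p))) {h : T3 → ℝ} (hh : BM h)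
    (hh0 : ∀ z, 0 ≤ h z) (hhe : ∀ z, h (-z) = h z) {j l : ι} (hjl : j ≠ l) (A : HS ι) :
    (inner ℂ (HP h j l A) (S1 φ j (HP h j l A))).re
      ≤ qf (fun x => h (x j - x l) * ∫ u in a..b, cn (hk u) h (x j - x l)) A := by
  obtain ⟨C, hC0, hC⟩ := hh.exists_nonneg_bound
  rw [E4_inner ha hab hφ hφi, intervalIntegral.integral_of_le hab]
  set F : ℝ → (ι → T3) → ℝ := fun u x => h (x j - x l) * cn (hk u) h (x j - x l) * ‖A x‖ ^ 2 with hF
  have hdm : Measurable fun x : ι → T3 => x j - x l :=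
    (measurable_pi_apply j).sub (measurable_pi_apply l)
  have hFi : Integrable (uncurry F) ((volume.restrict (Ioc a b)).prod (piN ι)) := by
    have hg : Integrable (fun q : ℝ × (ι → T3) => C * C * ‖A q.2‖ ^ 2)
        ((volume.restrict (Ioc a b)).prod (piN ι)) :=
      ((integrable_norm_sq A).const_mul (C * C)).comp_snd _
    refine hg.mono' ?_ ?_
    · have h1 : Measurable fun q : ℝ × (ι → T3) =>
          h (q.2 j - q.2 l) * cn (hk q.1) h (q.2 j - q.2 l) :=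
        ((hh.1.comp hdm).comp measurable_snd).mul
          (E4_cn_measc (a := fun q : ℝ × (ι → T3) => q.1)
            (b := fun q : ℝ × (ι → T3) => q.2 j - q.2 l) hh measurable_fst
            (hdm.comp measurable_snd))
      have h2 : AEStronglyMeasurable (fun q : ℝ × (ι → T3) => ‖A q.2‖ ^ 2)
          ((volume.restrict (Ioc a b)).prod (piN ι)) :=
        (((integrable_norm_sq A)).comp_snd _).aestronglyMeasurable
      exact h1.aestronglyMeasurable.mul h2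
    · have h3 : ∀ᵐ q : ℝ × (ι → T3) ∂((volume.restrict (Ioc a b)).prod (piN ι)),
          q.1 ∈ Ioc a b := by
        have h4 : ∀ᵐ u ∂(volume.restrict (Ioc a b)), u ∈ Ioc a b :=
          ae_restrict_mem measurableSet_Ioc
        exact Measure.quasiMeasurePreserving_fst.ae h4
      filter_upwards [h3] with q hq
      simp only [uncurry, hF]
      rw [Real.norm_eq_abs, abs_mul, abs_mul, abs_of_nonneg (sq_nonneg ‖A q.2‖)]
      exact mul_le_mul_of_nonneg_right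
        (mul_le_mul (hC _) (KT_cn_bound hC (lt_of_le_of_lt ha hq.1) _) (abs_nonneg _) hC0)
        (sq_nonneg _)
  have hq : ∀ u, qf (fun x => h (x j - x l) * cn (hk u) h (x j - x l)) A = ∫ x, F u x ∂(piN ι) :=
    fun u => rfl
  have hKK : qf (fun x => h (x j - x l) * ∫ u in a..b, cn (hk u) h (x j - x l)) A
      = ∫ u in Ioc a b, ∫ x, F u x ∂(piN ι) := by
    rw [integral_integral_swap hFi]
    unfold qf
    refine integral_congr_ae (Filter.Eventually.of_forall fun x => ?_)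
    simp only [hF]
    rw [integral_mul_const, integral_const_mul, intervalIntegral.integral_of_le hab]
  rw [hKK]
  refine integral_mono_of_nonneg ?_ hFi.integral_prod_left ?_
  · refine (ae_restrict_mem measurableSet_Ioc).mono fun u hu => ?_
    have h1 := hasSum_inner_DM (m := fun k : ι → Fin 3 → ℤ => Real.exp (-(u * ksq (k j))))
      ((bdm_exp (ha.trans hu.1.le)).comp fun k : ι → Fin 3 → ℤ => k j) (HP h j l A)
    exact h1.nonneg fun k => mul_nonneg (Real.exp_pos _).le (sq_nonneg _)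
  · refine (ae_restrict_mem measurableSet_Ioc).mono fun u hu => ?_
    have h1 := pair_hk (lt_of_le_of_lt ha hu.1) hh hh0 hhe hjl hjl A A
    have h2 := le_abs_self (inner ℂ (HP h j l A)
      (S1 (fun p => Real.exp (-(u * ksq p))) j (HP h j l A))).re
    have h3 := hq u
    show (inner ℂ (HP h j l A)
      (S1 (fun p => Real.exp (-(u * ksq p))) j (HP h j l A))).re ≤ ∫ x, F u x ∂(piN ι)
    rw [← h3]
    linarith

lemma E4_kap_sub {t : ℝ} (ht : 0 < t) (p : Fin 3 → ℤ) :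
    kap (2 * t) p - kap t p = ∫ u in (t / 2)..t, Real.exp (-(u * ksq p)) := by
  have hii : ∀ a b : ℝ, IntervalIntegrable (fun u : ℝ => Real.exp (-(u * ksq p))) volume a b := by
    intro a b
    apply Continuous.intervalIntegrable
    fun_prop
  have h2 := intervalIntegral.integral_add_adjacent_intervals (hii 0 (t / 2)) (hii (t / 2) t)
  have h3 : 2 * t / 2 = t := by ring
  rw [kap_eq_integral (2 * t), kap_eq_integral t, h3, ← h2]
  ring

/-- Hermitian form of a multiplier. -/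
lemma E4_swap {ι : Type*} [Fintype ι] [DecidableEq ι] {φ : (Fin 3 → ℤ) → ℝ} (hφ : Bdm φ)
    (j : ι) (A B : HS ι) :
    (inner ℂ A (S1 φ j B)).re = (inner ℂ B (S1 φ j A)).re := by
  rw [← S1_symm hφ, ← inner_conj_symm, Complex.conj_re]

lemma E4_nonneg {ι : Type*} [Fintype ι] [DecidableEq ι] {φ : (Fin 3 → ℤ) → ℝ} (hφ : Bdm φ)
    (hφ0 : ∀ p, 0 ≤ φ p) (j : ι) (A : HS ι) : 0 ≤ (inner ℂ A (S1 φ j A)).re := by
  have h1 := hasSum_inner_DM (m := fun k : ι → Fin 3 → ℤ => φ (k j))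
    (hφ.comp fun k : ι → Fin 3 → ℤ => k j) A
  exact h1.nonneg fun k => mul_nonneg (hφ0 _) (sq_nonneg _)

/-- Expansion of the form of `F - a - b`. -/
lemma E4_expand {ι : Type*} [Fintype ι] [DecidableEq ι] {φ : (Fin 3 → ℤ) → ℝ} (hφ : Bdm φ)
    (hφ0 : ∀ p, 0 ≤ φ p) (j : ι) (F a b : HS ι) :
    (inner ℂ (F - a - b) (S1 φ j (F - a - b))).re ≤ (inner ℂ F (S1 φ j F)).re
      + 2 * |(inner ℂ F (S1 φ j a)).re| + 2 * |(inner ℂ F (S1 φ j b)).re|
      + 2 * (inner ℂ a (S1 φ j a)).re + 2 * (inner ℂ b (S1 φ j b)).re := by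
  have e1 : (inner ℂ (F - a - b) (S1 φ j (F - a - b))).re = (inner ℂ F (S1 φ j F)).re
      - 2 * (inner ℂ F (S1 φ j a)).re - 2 * (inner ℂ F (S1 φ j b)).re
      + ((inner ℂ a (S1 φ j a)).re + (inner ℂ b (S1 φ j b)).re
        + 2 * (inner ℂ a (S1 φ j b)).re) := by
    simp only [map_sub, inner_sub_left, inner_sub_right, Complex.sub_re]
    rw [E4_swap hφ j a F, E4_swap hφ j b F, E4_swap hφ j b a]
    ring
  have e2 : 0 ≤ (inner ℂ (a - b) (S1 φ j (a - b))).re := E4_nonneg hφ hφ0 j _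
  have e3 : (inner ℂ (a - b) (S1 φ j (a - b))).re = (inner ℂ a (S1 φ j a)).re
      + (inner ℂ b (S1 φ j b)).re - 2 * (inner ℂ a (S1 φ j b)).re := by
    simp only [map_sub, inner_sub_left, inner_sub_right, Complex.sub_re]
    rw [E4_swap hφ j b a]
    ring
  rw [e3] at e2
  rw [e1]
  have n1 := neg_abs_le (inner ℂ F (S1 φ j a)).re
  have n2 := neg_abs_le (inner ℂ F (S1 φ j b)).re
  linarith

theorem diag1 {N : ℕ} {t T H R : ℝ} (ht : 0 < t) (hT : 0 < T) {h : T3 → ℝ} (hh : SR H R h)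
    {j l : Fin N} (hjl : j ≠ l) (f : HS (Fin N)) :
    (inner ℂ (QQ1 T l (HP h j l f))
        (S1 (fun p => kap (2 * t) p - kap t p) j (QQ1 T l (HP h j l f)))).re
      ≤ qf (fun x => h (x j - x l) * ∫ r in (t / 2)..t, cn (hk r) h (x j - x l)) f := by
  have hk : Bdm fun p => kap (2 * t) p - kap t p :=
    (bdm_kap (by linarith)).sub (bdm_kap ht.le)
  have hnn : ∀ p, 0 ≤ kap (2 * t) p - kap t p := by
    intro p
    rw [E4_kap_sub ht]
    exact intervalIntegral.integral_nonneg (by linarith) fun u _ => (Real.exp_pos _).le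
  refine (E4_step hT.le hk hnn j l _).trans ?_
  exact E4_diag (by linarith) (by linarith) hk (fun p => E4_kap_sub ht p) hh.bm hh.nonneg
    hh.even hjl f

theorem diag2 : ∃ C : ℝ, 0 ≤ C ∧ ∀ (N : ℕ) (t T th H R : ℝ) (h : T3 → ℝ) (j l : Fin N), 0 < t →
    t ≤ T → T ≤ 1 → 0 < th → th ≤ 1 → SR H R h → j ≠ l → ∀ f₀ f₁ : HS (Fin N),
    (inner ℂ (QQ1 T l (HP h j l f₀) + QQ1 t l (HP h j l f₁))
        (S1 (kap t) j (QQ1 T l (HP h j l f₀) + QQ1 t l (HP h j l f₁)))).re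
      ≤ qf (fun x => h (x j - x l) * KK t h (x j - x l)) (f₀ + f₁)
        + C * t * H * (Real.sqrt T)⁻¹ ^ 3 * (qf (fun x => h (x j - x l)) (f₀ + f₁)
          + qf (fun x => h (x j - x l)) f₀)
        + C * H / Real.sqrt t * (th * qf (fun x => h (x j - x l)) (f₀ + f₁)
          + 1 / th * qf (fun x => h (x j - x l)) f₁) := by
  obtain ⟨C, hC0, hC⟩ := kap_pair2
  refine ⟨10 * C, by positivity, ?_⟩
  intro N t T th H R h j l ht htT hT1 hth hth1 hh hjl f₀ f₁
  have hT : 0 < T := by linarith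
  have hH : 0 ≤ H := Qb_H hh
  have hkap := bdm_kap ht.le
  have hk0 : ∀ p, 0 ≤ kap t p := fun p => kap_nonneg ht.le p
  -- the decomposition
  have hQ : ∀ (s : ℝ), 0 < s → ∀ g : HS (Fin N), QQ1 s l g = g - PP1 s l g := by
    intro s hs g
    rw [eq_sub_iff_add_eq, add_comm]
    exact PP1_add_QQ1 hs.le l g
  have hP : ∀ (s : ℝ) (g : HS (Fin N)),
      PP1 s l g = S1 (fun p => Real.exp (-(s / 2 * ksq p))) l g := fun s g => rfl
  have hg : QQ1 T l (HP h j l f₀) + QQ1 t l (HP h j l f₁)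
      = HP h j l (f₀ + f₁) - PP1 T l (HP h j l f₀) - PP1 t l (HP h j l f₁) := by
    rw [hQ T hT, hQ t ht, map_add]
    abel
  rw [hg]
  refine (E4_expand hkap hk0 j _ _ _).trans ?_
  -- the five terms
  have t1 := kap_diag ht hh.bm hh.nonneg hh.even hjl (f₀ + f₁)
  have t2 := hC N t (T / 2) H R 1 h j l ht (by linarith) (by linarith) (by linarith) one_pos hh
    hjl (f₀ + f₁) f₀
  have t3 := hC N t (t / 2) H R th h j l ht (by linarith) (by linarith) (by linarith) hth hh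
    hjl (f₀ + f₁) f₁
  have t4 := hC N t T H R 1 h j l ht (by linarith) hT hT1 one_pos hh hjl f₀ f₀
  have t5 := hC N t t H R 1 h j l ht (by linarith) ht (by linarith) one_pos hh hjl f₁ f₁
  have sq : ∀ (s : ℝ), 0 < s → ∀ g : HS (Fin N),
      (inner ℂ (PP1 s l g) (S1 (kap t) j (PP1 s l g))).re
        = (inner ℂ g (S1 (kap t) j (S1 (fun p => Real.exp (-(s * ksq p))) l g))).re := by
    intro s hs g
    have hb := bdm_et hs.le
    unfold PP1
    rw [S1_symm hb, S1_comm hkap hb j l, S1_S1 hb hb, S1_comm (hb.mul hb) hkap l j]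
    have e : (fun p => et s p * et s p) = fun p => Real.exp (-(s * ksq p)) := by
      funext p
      unfold et
      rw [← Real.exp_add]
      congr 1
      ring
    rw [e]
  rw [sq T hT, sq t ht, hP T, hP t]
  have r2 : ∀ s : ℝ, 0 < s → (Real.sqrt (s / 2))⁻¹ ^ 3 ≤ 3 * (Real.sqrt s)⁻¹ ^ 3 := by
    intro s hs
    have h1 : Real.sqrt (s / 2) = Real.sqrt s / Real.sqrt 2 := Real.sqrt_div hs.le 2
    have h2 : 0 < Real.sqrt 2 := Real.sqrt_pos.2 (by norm_num)
    have h3 : Real.sqrt 2 ^ 2 = 2 := Real.sq_sqrt (by norm_num)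
    have h4 : Real.sqrt 2 ^ 3 ≤ 3 := by
      have h5 : Real.sqrt 2 ≤ 3 / 2 := by
        rw [Real.sqrt_le_left (by norm_num)]
        norm_num
      nlinarith
    rw [h1, inv_div, div_pow, div_eq_mul_inv, ← inv_pow]
    exact mul_le_mul_of_nonneg_right h4 (by positivity)
  have hst : 0 < Real.sqrt t := Real.sqrt_pos.2 ht
  have hst3 : t * (Real.sqrt t)⁻¹ ^ 3 = 1 / Real.sqrt t := by
    have h1 : Real.sqrt t ^ 2 = t := Real.sq_sqrt ht.le
    have h2 : t * (Real.sqrt t)⁻¹ ^ 3 = Real.sqrt t ^ 2 * (Real.sqrt t)⁻¹ ^ 3 := by rw [h1]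
    rw [h2]
    field_simp
  have q01 : 0 ≤ qf (fun x => h (x j - x l)) (f₀ + f₁) := qf_nonneg (fun x => hh.nonneg _) _
  have q0 : 0 ≤ qf (fun x => h (x j - x l)) f₀ := qf_nonneg (fun x => hh.nonneg _) _
  have q1 : 0 ≤ qf (fun x => h (x j - x l)) f₁ := qf_nonneg (fun x => hh.nonneg _) _
  have hth2 : 1 ≤ 1 / th := by
    rw [le_div_iff₀ hth]
    linarith
  generalize hA : qf (fun x => h (x j - x l)) (f₀ + f₁) = QA at *
  generalize hB : qf (fun x => h (x j - x l)) f₀ = QB at *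
  generalize hD : qf (fun x => h (x j - x l)) f₁ = QD at *
  -- t2
  have t2' : |(inner ℂ (HP h j l (f₀ + f₁)) (S1 (kap t) j
      (S1 (fun p => Real.exp (-(T / 2 * ksq p))) l (HP h j l f₀)))).re|
      ≤ 3 * (C * t * H * (Real.sqrt T)⁻¹ ^ 3 * (QA + QB)) := by
    refine t2.trans ?_
    have h1 : C * t * H * (Real.sqrt (T / 2))⁻¹ ^ 3 ≤ C * t * H * (3 * (Real.sqrt T)⁻¹ ^ 3) :=
      mul_le_mul_of_nonneg_left (r2 T hT) (by positivity)
    have h2 : 1 * QA + 1 / 1 * QB = QA + QB := by ring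
    rw [h2]
    refine (mul_le_mul_of_nonneg_right h1 (by positivity)).trans (le_of_eq ?_)
    ring
  have t3' : |(inner ℂ (HP h j l (f₀ + f₁)) (S1 (kap t) j
      (S1 (fun p => Real.exp (-(t / 2 * ksq p))) l (HP h j l f₁)))).re|
      ≤ 3 * (C * H / Real.sqrt t * (th * QA + 1 / th * QD)) := by
    refine t3.trans ?_
    have h1 : C * t * H * (Real.sqrt (t / 2))⁻¹ ^ 3 ≤ C * t * H * (3 * (Real.sqrt t)⁻¹ ^ 3) :=
      mul_le_mul_of_nonneg_left (r2 t ht) (by positivity)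
    refine (mul_le_mul_of_nonneg_right h1 (by positivity)).trans (le_of_eq ?_)
    have h3 : C * t * H * (3 * (Real.sqrt t)⁻¹ ^ 3) = 3 * (C * H / Real.sqrt t) := by
      have h4 : C * t * H * (3 * (Real.sqrt t)⁻¹ ^ 3) = 3 * C * H * (t * (Real.sqrt t)⁻¹ ^ 3) := by
        ring
      rw [h4, hst3]
      ring
    rw [h3]
    ring
  have t4' : (inner ℂ (HP h j l f₀) (S1 (kap t) j
      (S1 (fun p => Real.exp (-(T * ksq p))) l (HP h j l f₀)))).re
      ≤ 2 * (C * t * H * (Real.sqrt T)⁻¹ ^ 3 * QB) := by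
    refine (le_abs_self _).trans (t4.trans (le_of_eq ?_))
    ring
  have t5' : (inner ℂ (HP h j l f₁) (S1 (kap t) j
      (S1 (fun p => Real.exp (-(t * ksq p))) l (HP h j l f₁)))).re
      ≤ 2 * (C * H / Real.sqrt t * QD) := by
    refine (le_abs_self _).trans (t5.trans (le_of_eq ?_))
    have h4 : C * t * H * (Real.sqrt t)⁻¹ ^ 3 = C * H * (t * (Real.sqrt t)⁻¹ ^ 3) := by ring
    rw [h4, hst3]
    ring
  have hX : 0 ≤ C * t * H * (Real.sqrt T)⁻¹ ^ 3 := by positivity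
  have hY : 0 ≤ C * H / Real.sqrt t := by positivity
  have g1 : 10 * C * t * H * (Real.sqrt T)⁻¹ ^ 3 * (QA + QB)
      = 10 * (C * t * H * (Real.sqrt T)⁻¹ ^ 3 * (QA + QB)) := by ring
  have g2 : 10 * C * H / Real.sqrt t * (th * QA + 1 / th * QD)
      = 10 * (C * H / Real.sqrt t * (th * QA + 1 / th * QD)) := by ring
  rw [g1, g2]
  generalize C * t * H * (Real.sqrt T)⁻¹ ^ 3 = X at *
  generalize C * H / Real.sqrt t = Y at *
  have k1 : X * QB ≤ X * (QA + QB) := mul_le_mul_of_nonneg_left (by linarith) hX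
  have k2 : Y * QD ≤ Y * (th * QA + 1 / th * QD) := by
    refine mul_le_mul_of_nonneg_left ?_ hY
    have k3 : QD ≤ 1 / th * QD := by
      calc QD = 1 * QD := (one_mul _).symm
        _ ≤ 1 / th * QD := mul_le_mul_of_nonneg_right hth2 q1
    have k4 : 0 ≤ th * QA := mul_nonneg hth.le q01
    linarith
  linarith

theorem diag3 : ∃ C : ℝ, 0 ≤ C ∧ ∀ (N : ℕ) (t T H R : ℝ) (h : T3 → ℝ) (j l : Fin N), 0 < t →
    t ≤ 1 → 0 < T → SR H R h → j ≠ l → ∀ f : HS (Fin N),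
    (inner ℂ (QQ1 T l (HP h j l f)) (S1 (fun p => kap (2 * t) p ^ 2) j (QQ1 T l (HP h j l f)))).re
      ≤ C * H * Real.sqrt t * qf (fun x => h (x j - x l)) f := by
  obtain ⟨C, hC0, hC⟩ := kap_sq_diag
  refine ⟨C, hC0, ?_⟩
  intro N t T H R h j l ht ht1 hT hh hjl f
  have hk : Bdm fun p => kap (2 * t) p ^ 2 := by
    have h1 := (bdm_kap (t := 2 * t) (by linarith))
    have h2 := h1.mul h1
    have e : (fun p => kap (2 * t) p * kap (2 * t) p) = fun p => kap (2 * t) p ^ 2 := by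
      funext p
      ring
    rwa [e] at h2
  exact (E4_step hT.le hk (fun p => sq_nonneg _) j l _).trans (hC N t H R h j l ht ht1 hh hjl f)

theorem diag4 {N : ℕ} {t H R : ℝ} (ht : 0 < t) {h : T3 → ℝ} (hh : SR H R h) {j l : Fin N}
    (hjl : j ≠ l) (f : HS (Fin N)) :
    (inner ℂ (QQ1 t l (HP h j l f)) (S1 (kap t) j (QQ1 t l (HP h j l f)))).re
      ≤ qf (fun x => h (x j - x l) * KK t h (x j - x l)) f := by
  exact (E4_step ht.le (bdm_kap ht.le) (fun p => kap_nonneg ht.le p) j l _).trans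
    (kap_diag ht hh.bm hh.nonneg hh.even hjl f)

end Pool.Agent.Lib.MP_4952d6_mp.O

end

/-! ### O.E6 -/

section

/-!
# O.E6: sums of the off-diagonal terms

`kap_le_of` (for `kap t`, `kap (2t)` = integrals over `(0, t/2)`, `(0, t)`; the multiplier `kap (2t) - kap t` is the difference of
the two; for `kap (2t) ^ 2`: `S1 (kap (2t) ^ 2) = S1 (kap (2t)) (S1 (kap (2t)))`, apply `kap_le_of` twice (move the inner heat kernel to
the left factor by `S1_symm`), the times add up to `u ≤ 2t`), then sum over the distinct triples: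
`∑ q3 (8s) (F m) j l m ≤ ∑_m cw (8s) m (F m)` (`sum_triple`, `sum_hk_hk_le` with `r = s`, `q3 ≥ 0`), also with `l`, `m`
exchanged (`sum_triple_swap`), and `cw_QQ1_le` (O.EX0) with `DBd`: each sum is `≤ C MD`.
-/

set_option autoImplicit false
set_option linter.unusedSectionVars false
set_option linter.unusedVariables false
open MeasureTheory Function Filter Topology Set ComplexConjugate

namespace Pool.Agent.Lib.MP_4952d6_mp.O

open LB

/-- sum over the triples of distinct particles -/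
private noncomputable def E6_tri {N : ℕ} (Y : Fin N → Fin N → Fin N → ℝ) : ℝ :=
  ∑ j, ∑ l ∈ Finset.univ.erase j, ∑ m ∈ (Finset.univ.erase j).erase l, Y j l m

private lemma E6_tri_add {N : ℕ} (X Y : Fin N → Fin N → Fin N → ℝ) :
    E6_tri (fun j l m => X j l m + Y j l m) = E6_tri X + E6_tri Y := by
  unfold E6_tri
  simp only [Finset.sum_add_distrib]

private lemma E6_tri_bound {N : ℕ} {X Y : Fin N → Fin N → Fin N → ℝ} {K : ℝ}
    (h : ∀ j l m, j ≠ l → j ≠ m → l ≠ m → |X j l m| ≤ K * Y j l m) :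
    |E6_tri X| ≤ K * E6_tri Y := by
  unfold E6_tri
  rw [Finset.mul_sum]
  refine (Finset.abs_sum_le_sum_abs _ _).trans (Finset.sum_le_sum fun j _ => ?_)
  rw [Finset.mul_sum]
  refine (Finset.abs_sum_le_sum_abs _ _).trans (Finset.sum_le_sum fun l hl => ?_)
  rw [Finset.mul_sum]
  refine (Finset.abs_sum_le_sum_abs _ _).trans (Finset.sum_le_sum fun m hm => ?_)
  have hjl : j ≠ l := Ne.symm (Finset.ne_of_mem_erase hl)
  have hml : m ≠ l := Finset.ne_of_mem_erase hm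
  have hjm : j ≠ m := Ne.symm (Finset.ne_of_mem_erase (Finset.mem_of_mem_erase hm))
  exact h j l m hjl hjm (Ne.symm hml)

private lemma E6_hs {N : ℕ} {φ : (Fin 3 → ℤ) → ℝ} (hφ : Bdm φ) (j : Fin N) (A B : HS (Fin N)) :
    HasSum (fun k : Fin N → Fin 3 → ℤ => φ (k j) * (conj (cf A k) * cf B k).re)
      (inner ℂ A (S1 φ j B)).re := by
  have h2 := hasSum_inner_re A (S1 φ j B)
  have h3 : (fun k : Fin N → Fin 3 → ℤ => (conj (cf A k) * cf (S1 φ j B) k).re)
      = fun k => φ (k j) * (conj (cf A k) * cf B k).re := by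
    funext k
    rw [cf_S1 hφ, KT_re]
  rwa [h3] at h2

/-- the multiplier of `off1` -/
private lemma E6_kap2 {N : ℕ} {t e M : ℝ} (ht : 0 < t) (he : 0 < e) (he2 : e ≤ 1 / 2) (j : Fin N)
    (A B : HS (Fin N)) (hM : ∀ u, 0 < u → u ≤ 2 * t →
      |(inner ℂ A (S1 (fun p => Real.exp (-(u * ksq p))) j B)).re| ≤ M) :
    |(inner ℂ A (S1 (fun p => (kap (2 * t) p - kap t p) + 8 * e / t * kap (2 * t) p ^ 2) j B)).re|
      ≤ 6 * t * M := by
  have h2t : 0 < 2 * t := by linarith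
  have hM0 : 0 ≤ M := (abs_nonneg _).trans (hM t ht (by linarith))
  have hk2 := bdm_kap h2t.le
  have hk1 := bdm_kap ht.le
  have hk22 : Bdm fun p : Fin 3 → ℤ => kap (2 * t) p ^ 2 := by
    have h := hk2.mul hk2
    refine (show (fun p : Fin 3 → ℤ => kap (2 * t) p ^ 2) = fun p => kap (2 * t) p * kap (2 * t) p from ?_) ▸ h
    funext p
    ring
  have a1 := kap_le_of h2t j A B (M := M) (fun u hu hu2 => hM u hu (by linarith))
  have a2 := kap_le_of ht j A B (M := M) (fun u hu hu2 => hM u hu (by linarith))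
  have a3 : |(inner ℂ A (S1 (fun p => kap (2 * t) p ^ 2) j B)).re| ≤ 2 * t / 2 * (2 * t / 2 * M) := by
    have e1 : S1 (fun p => kap (2 * t) p ^ 2) j B = S1 (kap (2 * t)) j (S1 (kap (2 * t)) j B) := by
      rw [S1_S1 hk2 hk2]
      congr 2
      funext p
      ring
    rw [e1]
    refine kap_le_of h2t j A _ (fun u hu hu2 => ?_)
    have hbu := bdm_exp hu.le
    rw [← S1_symm hbu]
    refine kap_le_of h2t j _ B (fun u' hu' hu2' => ?_)
    have hbu' := bdm_exp hu'.le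
    rw [S1_symm hbu, S1_S1 hbu hbu']
    have e2 : (fun p : Fin 3 → ℤ => Real.exp (-(u * ksq p)) * Real.exp (-(u' * ksq p)))
        = fun p => Real.exp (-((u + u') * ksq p)) := by
      funext p
      rw [← Real.exp_add]
      congr 1
      ring
    rw [e2]
    exact hM (u + u') (by linarith) (by linarith)
  have hall : Bdm fun p : Fin 3 → ℤ => (kap (2 * t) p - kap t p) + 8 * e / t * kap (2 * t) p ^ 2 :=
    (hk2.sub hk1).add ((Bdm.const (8 * e / t)).mul hk22)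
  have h1 := E6_hs hall j A B
  have h2 := ((E6_hs hk2 j A B).sub (E6_hs hk1 j A B)).add ((E6_hs hk22 j A B).mul_left (8 * e / t))
  have h3 : (fun k : Fin N → Fin 3 → ℤ => ((kap (2 * t) (k j) - kap t (k j)) + 8 * e / t * kap (2 * t) (k j) ^ 2)
        * (conj (cf A k) * cf B k).re)
      = fun k => (kap (2 * t) (k j) * (conj (cf A k) * cf B k).re - kap t (k j) * (conj (cf A k) * cf B k).re)
        + 8 * e / t * (kap (2 * t) (k j) ^ 2 * (conj (cf A k) * cf B k).re) := by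
    funext k
    ring
  have h4 := h1.unique (h3 ▸ h2)
  rw [h4]
  have hc : 0 ≤ 8 * e / t := by positivity
  have hb : 8 * e / t * (2 * t / 2 * (2 * t / 2 * M)) = 8 * e * t * M := by
    field_simp
  have hb2 : 8 * e * t * M ≤ 4 * t * M := by
    have h5 : 0 ≤ t * M := by positivity
    nlinarith
  refine (abs_add_le _ _).trans ?_
  rw [abs_mul, abs_of_nonneg hc]
  have h6 := mul_le_mul_of_nonneg_left a3 hc
  rw [hb] at h6
  have h7 := abs_sub (inner ℂ A (S1 (kap (2 * t)) j B)).re (inner ℂ A (S1 (kap t) j B)).re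
  have h8 : 0 ≤ t * M := by positivity
  linarith

theorem q3_sum {N : ℕ} {s : ℝ} (hs : 0 < s) (F : Fin N → HS (Fin N)) :
    ∑ j, ∑ l ∈ Finset.univ.erase j, ∑ m ∈ (Finset.univ.erase j).erase l, q3 s (F m) j l m
      ≤ ∑ m, cw s m (F m) := by
  have h0 : ∑ j, ∑ l ∈ Finset.univ.erase j, ∑ m ∈ (Finset.univ.erase j).erase l, q3 s (F m) j l m
      = ∑ m, ∑ j ∈ Finset.univ.erase m, ∑ l ∈ (Finset.univ.erase m).erase j, q3 s (F m) j l m :=
    sum_triple (fun j l m => q3 s (F m) j l m)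
  rw [h0]
  refine Finset.sum_le_sum fun m _ => ?_
  have h1 := sum_hk_hk_le hs le_rfl m (F m)
  rw [div_self hs.ne', Real.sqrt_one, one_pow, one_pow, one_mul] at h1
  refine le_trans (Finset.sum_le_sum fun j _ => Finset.sum_le_sum fun l _ => ?_) h1
  unfold q3
  have := sq_nonneg ‖F m‖
  linarith

theorem q3_sum' {N : ℕ} {s : ℝ} (hs : 0 < s) (F : Fin N → HS (Fin N)) :
    ∑ j, ∑ l ∈ Finset.univ.erase j, ∑ m ∈ (Finset.univ.erase j).erase l, q3 s (F l) j m l
      ≤ ∑ m, cw s m (F m) := by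
  have h0 : ∑ j, ∑ l ∈ Finset.univ.erase j, ∑ m ∈ (Finset.univ.erase j).erase l, q3 s (F l) j m l
      = ∑ j, ∑ l ∈ Finset.univ.erase j, ∑ m ∈ (Finset.univ.erase j).erase l, q3 s (F m) j l m :=
    (sum_triple_swap (fun j l m => q3 s (F m) j l m)).symm
  rw [h0]
  exact q3_sum hs F


private lemma E6_S {N : ℕ} {t T MD : ℝ} (ht : 0 < t) (hT : 4 * t ≤ T) {ψ : HS (Fin N)}
    (hD : DBd t T MD ψ) {r s : ℝ} (hr : 0 < r) (hrT : r ≤ 64 * T) (hs : t / 8 ≤ s) (hsT : s ≤ 64 * T) :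
    E6_tri (fun j l m => q3 s (QQ1 r m ψ) j l m) ≤ MD ∧
      E6_tri (fun j l m => q3 s (QQ1 r l ψ) j m l) ≤ MD := by
  have hs0 : 0 < s := by linarith
  have h := cw_QQ1_le hr hrT ht hs hsT hD
  exact ⟨(q3_sum hs0 fun m => QQ1 r m ψ).trans h, (q3_sum' hs0 fun m => QQ1 r m ψ).trans h⟩

/-- off-diagonal part of `⟪b, (kap (2t) + (8e/t) kap (2t)²) b⟫ - ⟪b, kap t b⟫` -/
theorem off1 : ∃ C : ℝ, 0 ≤ C ∧ ∀ (N : ℕ) (t T e H R MD : ℝ) (h : T3 → ℝ), 0 < t →
    4 * t ≤ T → 64 * T ≤ 1 → 0 < e → e ≤ 1 / 2 → SR H R h → 0 ≤ R → R ^ 2 ≤ t / 8 →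
    ∀ ψ : HS (Fin N), DBd t T MD ψ →
    |∑ j, ∑ l ∈ Finset.univ.erase j, ∑ m ∈ (Finset.univ.erase j).erase l,
      (inner ℂ (QQ1 T l (HP h j l (Phi T j l ψ)))
        (S1 (fun p => (kap (2 * t) p - kap t p) + 8 * e / t * kap (2 * t) p ^ 2) j
          (QQ1 T m (HP h j m (Phi T j m ψ))))).re| ≤ C * t * H ^ 2 * MD := by
  obtain ⟨C, hC, hoff⟩ := off_bb
  refine ⟨12 * C, by positivity, ?_⟩
  intro N t T e H R MD h ht hT hT1 he he2 hh hR0 hR ψ hD
  have hT0 : 0 < T := by linarith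
  have hb : |E6_tri (fun j l m => (inner ℂ (QQ1 T l (HP h j l (Phi T j l ψ)))
        (S1 (fun p => (kap (2 * t) p - kap t p) + 8 * e / t * kap (2 * t) p ^ 2) j
          (QQ1 T m (HP h j m (Phi T j m ψ))))).re)|
      ≤ (6 * t * (C * H ^ 2)) * E6_tri (fun j l m => q3 (8 * T) (QQ1 T m ψ) j l m
        + q3 (8 * T) (QQ1 T l ψ) j m l) := by
    refine E6_tri_bound fun j l m hjl hjm hlm => ?_
    have h1 := E6_kap2 ht he he2 j (QQ1 T l (HP h j l (Phi T j l ψ)))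
      (QQ1 T m (HP h j m (Phi T j m ψ))) (fun u hu hu2 =>
        hoff N u t T H R h j l m ht hT (by linarith) hh hR0 hR hjl hjm hlm hu hu2 ψ)
    refine h1.trans (le_of_eq ?_)
    ring
  refine hb.trans ?_
  rw [E6_tri_add]
  obtain ⟨s1, s2⟩ := E6_S ht hT hD (r := T) (s := 8 * T) hT0 (by linarith) (by linarith) (by linarith)
  have hK : 0 ≤ 6 * t * (C * H ^ 2) := by positivity
  have := mul_le_mul_of_nonneg_left (add_le_add s1 s2) hK
  refine this.trans (le_of_eq ?_)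
  ring

/-- off-diagonal part of `⟪b + B, kap t (b + B)⟫` -/
theorem off2 : ∃ C : ℝ, 0 ≤ C ∧ ∀ (N : ℕ) (t T H R MD : ℝ) (h : T3 → ℝ), 0 < t →
    4 * t ≤ T → 64 * T ≤ 1 → SR H R h → 0 ≤ R → R ^ 2 ≤ t / 8 →
    ∀ ψ : HS (Fin N), DBd t T MD ψ →
    |∑ j, ∑ l ∈ Finset.univ.erase j, ∑ m ∈ (Finset.univ.erase j).erase l,
      (inner ℂ (QQ1 T l (HP h j l (Phi T j l ψ)) + QQ1 t l (HP h j l (PhiD t T j l ψ)))
        (S1 (kap t) j (QQ1 T m (HP h j m (Phi T j m ψ))
          + QQ1 t m (HP h j m (PhiD t T j m ψ))))).re| ≤ C * t * H ^ 2 * MD := by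
  obtain ⟨C1, hC1, hbb⟩ := off_bb
  obtain ⟨C2, hC2, hbB⟩ := off_bB
  obtain ⟨C3, hC3, hBB⟩ := off_BB
  refine ⟨8 * (C1 + C2 + C3), by positivity, ?_⟩
  intro N t T H R MD h ht hT hT1 hh hR0 hR ψ hD
  have hT0 : 0 < T := by linarith
  have hMD : 0 ≤ MD := hD.nonneg ht (by linarith)
  have hb : |E6_tri (fun j l m =>
      (inner ℂ (QQ1 T l (HP h j l (Phi T j l ψ)) + QQ1 t l (HP h j l (PhiD t T j l ψ)))
        (S1 (kap t) j (QQ1 T m (HP h j m (Phi T j m ψ))
          + QQ1 t m (HP h j m (PhiD t T j m ψ))))).re)|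
      ≤ (t / 2 * ((C1 + C2 + C3) * H ^ 2)) * E6_tri (fun j l m =>
        ((q3 (8 * T) (QQ1 T m ψ) j l m + q3 (8 * T) (QQ1 T l ψ) j m l)
        + (q3 (8 * T) (QQ1 t m ψ) j l m + q3 (8 * T) (QQ1 T l ψ) j m l + q3 (8 * t) (QQ1 T l ψ) j m l))
        + ((q3 (8 * T) (QQ1 t l ψ) j m l + q3 (8 * T) (QQ1 T m ψ) j l m + q3 (8 * t) (QQ1 T m ψ) j l m)
        + (q3 (8 * T) (QQ1 t m ψ) j l m + q3 (8 * t) (QQ1 t m ψ) j l m
          + q3 (8 * T) (QQ1 t l ψ) j m l + q3 (8 * t) (QQ1 t l ψ) j m l))) := by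
    refine E6_tri_bound fun j l m hjl hjm hlm => ?_
    obtain ⟨bl, hbl⟩ : ∃ x, QQ1 T l (HP h j l (Phi T j l ψ)) = x := ⟨_, rfl⟩
    obtain ⟨bm, hbm⟩ : ∃ x, QQ1 T m (HP h j m (Phi T j m ψ)) = x := ⟨_, rfl⟩
    obtain ⟨Bl, hBl⟩ : ∃ x, QQ1 t l (HP h j l (PhiD t T j l ψ)) = x := ⟨_, rfl⟩
    obtain ⟨Bm, hBm⟩ : ∃ x, QQ1 t m (HP h j m (PhiD t T j m ψ)) = x := ⟨_, rfl⟩
    have hq : ∀ s : ℝ, ∀ F : HS (Fin N), ∀ a b c : Fin N, 0 ≤ q3 s F a b c := fun s F a b c =>
      qf_nonneg (fun x => mul_nonneg (hk_nonneg _ _) (hk_nonneg _ _)) F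
    have hH : 0 ≤ H ^ 2 := sq_nonneg H
    have hcC : ∀ (Ci Y : ℝ), Ci ≤ C1 + C2 + C3 → 0 ≤ Y → Ci * H ^ 2 * Y ≤ (C1 + C2 + C3) * H ^ 2 * Y :=
      fun Ci Y hCi hY => mul_le_mul_of_nonneg_right (mul_le_mul_of_nonneg_right hCi hH) hY
    have h1 := kap_le_of ht j (bl + Bl) (bm + Bm) (M := (C1 + C2 + C3) * H ^ 2 *
        (((q3 (8 * T) (QQ1 T m ψ) j l m + q3 (8 * T) (QQ1 T l ψ) j m l)
        + (q3 (8 * T) (QQ1 t m ψ) j l m + q3 (8 * T) (QQ1 T l ψ) j m l + q3 (8 * t) (QQ1 T l ψ) j m l))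
        + ((q3 (8 * T) (QQ1 t l ψ) j m l + q3 (8 * T) (QQ1 T m ψ) j l m + q3 (8 * t) (QQ1 T m ψ) j l m)
        + (q3 (8 * T) (QQ1 t m ψ) j l m + q3 (8 * t) (QQ1 t m ψ) j l m
          + q3 (8 * T) (QQ1 t l ψ) j m l + q3 (8 * t) (QQ1 t l ψ) j m l)))) (fun u hu hu2 => ?_)
    · rw [hbl, hbm, hBl, hBm]
      refine h1.trans (le_of_eq ?_)
      ring
    · have c1 := hbb N u t T H R h j l m ht hT (by linarith) hh hR0 hR hjl hjm hlm hu (by linarith) ψ
      have c2 := hbB N u t T H R h j l m ht hT (by linarith) hh hR0 hR hjl hjm hlm hu hu2 ψ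
      have c3 := hbB N u t T H R h j m l ht hT (by linarith) hh hR0 hR hjm hjl (Ne.symm hlm) hu hu2 ψ
      have c4 := hBB N u t T H R h j l m ht hT (by linarith) hh hR0 hR hjl hjm hlm hu hu2 ψ
      rw [hbl, hbm] at c1
      rw [hbl, hBm] at c2
      rw [hbm, hBl] at c3
      rw [hBl, hBm] at c4
      have hbu := bdm_exp (u := u) hu.le
      have e1 : (inner ℂ Bl (S1 (fun p => Real.exp (-(u * ksq p))) j bm)).re
          = (inner ℂ bm (S1 (fun p => Real.exp (-(u * ksq p))) j Bl)).re := by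
        rw [← S1_symm hbu, ← inner_conj_symm, Complex.conj_re]
      have e2 : (inner ℂ (bl + Bl) (S1 (fun p => Real.exp (-(u * ksq p))) j (bm + Bm))).re
          = ((inner ℂ bl (S1 (fun p => Real.exp (-(u * ksq p))) j bm)).re
            + (inner ℂ bl (S1 (fun p => Real.exp (-(u * ksq p))) j Bm)).re)
            + ((inner ℂ bm (S1 (fun p => Real.exp (-(u * ksq p))) j Bl)).re
            + (inner ℂ Bl (S1 (fun p => Real.exp (-(u * ksq p))) j Bm)).re) := by
        rw [← e1, map_add, inner_add_left, inner_add_right, inner_add_right, Complex.add_re,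
          Complex.add_re, Complex.add_re]
      rw [e2]
      have n1 := hcC C1 (q3 (8 * T) (QQ1 T m ψ) j l m + q3 (8 * T) (QQ1 T l ψ) j m l) (by linarith)
        (add_nonneg (hq _ _ _ _ _) (hq _ _ _ _ _))
      have n2 := hcC C2 (q3 (8 * T) (QQ1 t m ψ) j l m + q3 (8 * T) (QQ1 T l ψ) j m l + q3 (8 * t) (QQ1 T l ψ) j m l)
        (by linarith) (add_nonneg (add_nonneg (hq _ _ _ _ _) (hq _ _ _ _ _)) (hq _ _ _ _ _))
      have n3 := hcC C2 (q3 (8 * T) (QQ1 t l ψ) j m l + q3 (8 * T) (QQ1 T m ψ) j l m + q3 (8 * t) (QQ1 T m ψ) j l m)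
        (by linarith) (add_nonneg (add_nonneg (hq _ _ _ _ _) (hq _ _ _ _ _)) (hq _ _ _ _ _))
      have n4 := hcC C3 (q3 (8 * T) (QQ1 t m ψ) j l m + q3 (8 * t) (QQ1 t m ψ) j l m
          + q3 (8 * T) (QQ1 t l ψ) j m l + q3 (8 * t) (QQ1 t l ψ) j m l)
        (by linarith) (add_nonneg (add_nonneg (add_nonneg (hq _ _ _ _ _) (hq _ _ _ _ _)) (hq _ _ _ _ _)) (hq _ _ _ _ _))
      refine (abs_add_le _ _).trans ((add_le_add (abs_add_le _ _) (abs_add_le _ _)).trans ?_)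
      have n5 := add_le_add (add_le_add (c1.trans n1) (c2.trans n2))
        (add_le_add (c3.trans n3) (c4.trans n4))
      refine n5.trans (le_of_eq ?_)
      rw [← mul_add, ← mul_add, ← mul_add]
  refine hb.trans ?_
  simp only [E6_tri_add]
  obtain ⟨s1, s2⟩ := E6_S ht hT hD (r := T) (s := 8 * T) hT0 (by linarith) (by linarith) (by linarith)
  obtain ⟨s3, s4⟩ := E6_S ht hT hD (r := t) (s := 8 * T) ht (by linarith) (by linarith) (by linarith)
  obtain ⟨s5, s6⟩ := E6_S ht hT hD (r := T) (s := 8 * t) hT0 (by linarith) (by linarith) (by linarith)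
  obtain ⟨s7, s8⟩ := E6_S ht hT hD (r := t) (s := 8 * t) ht (by linarith) (by linarith) (by linarith)
  have hK : 0 ≤ t / 2 * ((C1 + C2 + C3) * H ^ 2) := by positivity
  have hfin := mul_le_mul_of_nonneg_left (add_le_add (add_le_add (add_le_add s1 s2)
    (add_le_add (add_le_add s3 s2) s6)) (add_le_add (add_le_add (add_le_add s4 s1) s5)
    (add_le_add (add_le_add (add_le_add s3 s7) s4) s8))) hK
  refine hfin.trans ?_
  have h9 : 0 ≤ t * ((C1 + C2 + C3) * H ^ 2) * MD := by positivity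
  have h10 : t / 2 * ((C1 + C2 + C3) * H ^ 2) * (MD + MD + (MD + MD + MD) + (MD + MD + MD + (MD + MD + MD + MD)))
      = 6 * (t * ((C1 + C2 + C3) * H ^ 2) * MD) := by ring
  have h11 : 8 * (C1 + C2 + C3) * t * H ^ 2 * MD = 8 * (t * ((C1 + C2 + C3) * H ^ 2) * MD) := by ring
  rw [h10, h11]
  linarith

/-- off-diagonal part of `⟪B, kap t B⟫` -/
theorem off3 : ∃ C : ℝ, 0 ≤ C ∧ ∀ (N : ℕ) (t T H R MD : ℝ) (h : T3 → ℝ), 0 < t →
    4 * t ≤ T → 64 * T ≤ 1 → SR H R h → 0 ≤ R → R ^ 2 ≤ t / 8 →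
    ∀ ψ : HS (Fin N), DBd t T MD ψ →
    |∑ j, ∑ l ∈ Finset.univ.erase j, ∑ m ∈ (Finset.univ.erase j).erase l,
      (inner ℂ (QQ1 t l (HP h j l (PhiD t T j l ψ)))
        (S1 (kap t) j (QQ1 t m (HP h j m (PhiD t T j m ψ))))).re| ≤ C * t * H ^ 2 * MD := by
  obtain ⟨C, hC, hoff⟩ := off_BB
  refine ⟨2 * C, by positivity, ?_⟩
  intro N t T H R MD h ht hT hT1 hh hR0 hR ψ hD
  have hT0 : 0 < T := by linarith
  have hb : |E6_tri (fun j l m => (inner ℂ (QQ1 t l (HP h j l (PhiD t T j l ψ)))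
        (S1 (kap t) j (QQ1 t m (HP h j m (PhiD t T j m ψ))))).re)|
      ≤ (t / 2 * (C * H ^ 2)) * E6_tri (fun j l m => q3 (8 * T) (QQ1 t m ψ) j l m
        + q3 (8 * t) (QQ1 t m ψ) j l m
        + q3 (8 * T) (QQ1 t l ψ) j m l + q3 (8 * t) (QQ1 t l ψ) j m l) := by
    refine E6_tri_bound fun j l m hjl hjm hlm => ?_
    have h1 := kap_le_of ht j (QQ1 t l (HP h j l (PhiD t T j l ψ)))
      (QQ1 t m (HP h j m (PhiD t T j m ψ))) (fun u hu hu2 =>
        hoff N u t T H R h j l m ht hT (by linarith) hh hR0 hR hjl hjm hlm hu hu2 ψ)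
    refine h1.trans (le_of_eq ?_)
    ring
  refine hb.trans ?_
  simp only [E6_tri_add]
  obtain ⟨s3, s4⟩ := E6_S ht hT hD (r := t) (s := 8 * T) ht (by linarith) (by linarith) (by linarith)
  obtain ⟨s7, s8⟩ := E6_S ht hT hD (r := t) (s := 8 * t) ht (by linarith) (by linarith) (by linarith)
  have hK : 0 ≤ t / 2 * (C * H ^ 2) := by positivity
  have hfin := mul_le_mul_of_nonneg_left (add_le_add (add_le_add (add_le_add s3 s7) s4) s8) hK
  refine hfin.trans (le_of_eq ?_)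
  ring

end Pool.Agent.Lib.MP_4952d6_mp.O

end

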