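import Pool.Agent.Lib.MP_4952d6_mp.Po.N14

/-! Merged modules (to save import time): O.E7. -/

/-! ### O.E7 -/

section

/-!
# O.E7: the quadratic forms

`⟪b,(kap (2t) + r) b⟫ + 2 Re⟪b, kap B⟫ + (1+4e)⟪B, kap B⟫
  = ⟪b, (kap (2t) - kap t + r) b⟫ + ⟪b+B, kap (b+B)⟫ + 4e ⟪B, kap B⟫`, `r = (8e/t) kap (2t)²` (`kap t` real and symmetric).
Expand each form with `inner_sum_sum`, diagonal parts by `diag1`, `diag3`, `diag2`, `diag4` (with `f₀ = Phi T j l ψ`,
`f₁ = PhiD t T j l ψ`, `f₀ + f₁ = Phi t j l ψ`), off-diagonal parts by `off1`, `off2`, `off3`.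
-/

set_option autoImplicit false
set_option linter.unusedSectionVars false
set_option linter.unusedVariables false
open MeasureTheory Function Filter Topology Set ComplexConjugate

namespace Pool.Agent.Lib.MP_4952d6_mp.O

open LB

private lemma E7_S1_add {N : ℕ} {φ φ' : (Fin 3 → ℤ) → ℝ} (hφ : Bdm φ) (hφ' : Bdm φ') (j : Fin N)
    (f : HS (Fin N)) : S1 (fun p => φ p + φ' p) j f = S1 φ j f + S1 φ' j f :=
  DM_add (hφ.comp (fun k : Fin N → Fin 3 → ℤ => k j))
    (hφ'.comp (fun k : Fin N → Fin 3 → ℤ => k j)) f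

/-- the algebraic identity for one particle -/
private lemma E7_id {N : ℕ} {t w e : ℝ} (ht : 0 < t) (j : Fin N) (b B : HS (Fin N)) :
    (inner ℂ b (S1 (fun p => kap (2 * t) p + w * kap (2 * t) p ^ 2) j b)).re
        + 2 * (inner ℂ b (S1 (kap t) j B)).re
        + (1 + 4 * e) * (inner ℂ B (S1 (kap t) j B)).re
      = (inner ℂ b (S1 (fun p => (kap (2 * t) p - kap t p) + w * kap (2 * t) p ^ 2) j b)).re
        + (inner ℂ (b + B) (S1 (kap t) j (b + B))).re
        + 4 * e * (inner ℂ B (S1 (kap t) j B)).re := by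
  have hk := bdm_kap ht.le
  have hk2 : Bdm (kap (2 * t)) := bdm_kap (by linarith)
  have hsq : Bdm (fun p : Fin 3 → ℤ => w * kap (2 * t) p ^ 2) := by
    have h1 := (Bdm.const (κ := Fin 3 → ℤ) w).mul (hk2.mul hk2)
    have h2 : (fun p : Fin 3 → ℤ => w * kap (2 * t) p ^ 2)
        = fun p => w * (kap (2 * t) p * kap (2 * t) p) := by
      funext p
      ring
    rw [h2]
    exact h1
  have hm : Bdm (fun p : Fin 3 → ℤ => (kap (2 * t) p - kap t p) + w * kap (2 * t) p ^ 2) :=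
    (hk2.sub hk).add hsq
  have h1 : S1 (fun p => kap (2 * t) p + w * kap (2 * t) p ^ 2) j b
      = S1 (fun p => (kap (2 * t) p - kap t p) + w * kap (2 * t) p ^ 2) j b
        + S1 (kap t) j b := by
    rw [← E7_S1_add hm hk]
    congr 2
    funext p
    ring
  have h2 : (inner ℂ B (S1 (kap t) j b)).re = (inner ℂ b (S1 (kap t) j B)).re := by
    rw [← S1_symm hk j B b, ← inner_conj_symm, Complex.conj_re]
  rw [h1, map_add, inner_add_right, inner_add_left, inner_add_right, inner_add_right]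
  simp only [Complex.add_re]
  rw [h2]
  ring

private lemma E7_mul_sum {N : ℕ} (c : ℝ) (g : Fin N → Fin N → ℝ) :
    c * (∑ j, ∑ l ∈ Finset.univ.erase j, g j l)
      = ∑ j, ∑ l ∈ Finset.univ.erase j, c * g j l := by
  rw [Finset.mul_sum]
  exact Finset.sum_congr rfl fun j _ => Finset.mul_sum _ _ _

private lemma E7_add_sum {N : ℕ} (g g' : Fin N → Fin N → ℝ) :
    (∑ j, ∑ l ∈ Finset.univ.erase j, g j l) + (∑ j, ∑ l ∈ Finset.univ.erase j, g' j l)
      = ∑ j, ∑ l ∈ Finset.univ.erase j, (g j l + g' j l) := by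
  simp only [Finset.sum_add_distrib]

/-- the expansion of a quadratic form with estimates of the two parts -/
private lemma E7_expand {N : ℕ} (u : Fin N → Fin N → HS (Fin N))
    (A : Fin N → HS (Fin N) →L[ℂ] HS (Fin N)) (g : Fin N → Fin N → ℝ) (E : ℝ)
    (hd : ∀ j l, j ≠ l → (inner ℂ (u j l) (A j (u j l))).re ≤ g j l)
    (ho : |∑ j, ∑ l ∈ Finset.univ.erase j, ∑ m ∈ (Finset.univ.erase j).erase l,
      (inner ℂ (u j l) (A j (u j m))).re| ≤ E) :
    ∑ j, (inner ℂ (∑ l ∈ Finset.univ.erase j, u j l)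
      (A j (∑ l ∈ Finset.univ.erase j, u j l))).re
      ≤ (∑ j, ∑ l ∈ Finset.univ.erase j, g j l) + E := by
  have h1 : ∀ j, (inner ℂ (∑ l ∈ Finset.univ.erase j, u j l)
      (A j (∑ l ∈ Finset.univ.erase j, u j l))).re
      = (∑ l ∈ Finset.univ.erase j, (inner ℂ (u j l) (A j (u j l))).re)
        + ∑ l ∈ Finset.univ.erase j, ∑ m ∈ (Finset.univ.erase j).erase l,
          (inner ℂ (u j l) (A j (u j m))).re := by
    intro j
    rw [map_sum, inner_sum_sum]
  rw [Finset.sum_congr rfl fun j _ => h1 j, Finset.sum_add_distrib]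
  refine add_le_add (Finset.sum_le_sum fun j _ => Finset.sum_le_sum fun l hl => ?_)
    (le_of_abs_le ho)
  exact hd j l (Ne.symm (Finset.ne_of_mem_erase hl))

theorem quadO : ∃ C : ℝ, 0 ≤ C ∧ ∀ (N : ℕ) (t T e th H R MD : ℝ) (h : T3 → ℝ), 0 < t →
    4 * t ≤ T → 64 * T ≤ 1 → 0 < e → e ≤ 1 / 2 → 0 < th → th ≤ 1 → SR H R h → 0 ≤ R →
    R ^ 2 ≤ t / 8 → ∀ ψ : HS (Fin N), DBd t T MD ψ →
    (∑ j, ((inner ℂ (bO T h ψ j)
          (S1 (fun p => kap (2 * t) p + 8 * e / t * kap (2 * t) p ^ 2) j (bO T h ψ j))).re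
        + 2 * (inner ℂ (bO T h ψ j) (S1 (kap t) j (BO t T h ψ j))).re
        + (1 + 4 * e) * (inner ℂ (BO t T h ψ j) (S1 (kap t) j (BO t T h ψ j))).re))
      ≤ (∑ j, ∑ l ∈ Finset.univ.erase j,
          qf (fun x => h (x j - x l) * ∫ r in (t / 2)..t, cn (hk r) h (x j - x l)) (Phi T j l ψ))
        + (∑ j, ∑ l ∈ Finset.univ.erase j,
          qf (fun x => h (x j - x l) * KK t h (x j - x l)) (Phi t j l ψ))
        + 4 * e * (∑ j, ∑ l ∈ Finset.univ.erase j,
          qf (fun x => h (x j - x l) * KK t h (x j - x l)) (PhiD t T j l ψ))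
        + C * (t * H * (Real.sqrt T)⁻¹ ^ 3 + H / Real.sqrt t * (th + e))
          * ((∑ j, ∑ l ∈ Finset.univ.erase j, qf (fun x => h (x j - x l)) (Phi t j l ψ))
            + ∑ j, ∑ l ∈ Finset.univ.erase j, qf (fun x => h (x j - x l)) (Phi T j l ψ))
        + C * H / (Real.sqrt t * th)
          * (∑ j, ∑ l ∈ Finset.univ.erase j, qf (fun x => h (x j - x l)) (PhiD t T j l ψ))
        + C * t * H ^ 2 * MD := by
  obtain ⟨C2, hC2, hd2⟩ := diag2
  obtain ⟨C3, hC3, hd3⟩ := diag3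
  obtain ⟨D1, hD1, ho1⟩ := off1
  obtain ⟨D2, hD2, ho2⟩ := off2
  obtain ⟨D3, hD3, ho3⟩ := off3
  refine ⟨8 * C3 + C2 + D1 + D2 + 2 * D3, by positivity, ?_⟩
  intro N t T e th H R MD h ht htT hT e0 e1 th0 th1 hh hR0 hR ψ hD
  have hT0 : 0 < T := by linarith
  have hMD : 0 ≤ MD := hD.nonneg ht (by linarith)
  have hH : 0 ≤ H := Qb_H hh
  have o1 := ho1 N t T e H R MD h ht htT hT e0 e1 hh hR0 hR ψ hD
  have o2 := ho2 N t T H R MD h ht htT hT hh hR0 hR ψ hD
  have o3 := ho3 N t T H R MD h ht htT hT hh hR0 hR ψ hD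
  have hkt := bdm_kap ht.le
  have hk2 : Bdm (kap (2 * t)) := bdm_kap (by linarith)
  have hsq : Bdm (fun p : Fin 3 → ℤ => kap (2 * t) p ^ 2) := by
    have h1 := hk2.mul hk2
    have h2 : (fun p : Fin 3 → ℤ => kap (2 * t) p ^ 2)
        = fun p => kap (2 * t) p * kap (2 * t) p := by
      funext p
      ring
    rw [h2]
    exact h1
  have hw : 0 ≤ 8 * e / t := by positivity
  -- the three quadratic forms
  have q1 := E7_expand (fun j l => QQ1 T l (HP h j l (Phi T j l ψ)))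
    (fun j => S1 (fun p => (kap (2 * t) p - kap t p) + 8 * e / t * kap (2 * t) p ^ 2) j)
    (fun j l => qf (fun x => h (x j - x l) * ∫ r in (t / 2)..t, cn (hk r) h (x j - x l))
        (Phi T j l ψ) + 8 * e / t * (C3 * H * Real.sqrt t * qf (fun x => h (x j - x l))
          (Phi T j l ψ))) (D1 * t * H ^ 2 * MD) (by
      intro j l hjl
      have h1 := diag1 (T := T) ht hT0 hh hjl (Phi T j l ψ)
      have h2 := hd3 N t T H R h j l ht (by linarith) hT0 hh hjl (Phi T j l ψ)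
      have h3 := mul_le_mul_of_nonneg_left h2 hw
      refine le_trans (le_of_eq ?_) (add_le_add h1 h3)
      have h4 : Bdm (fun p : Fin 3 → ℤ => 8 * e / t * kap (2 * t) p ^ 2) :=
        (Bdm.const _).mul hsq
      rw [E7_S1_add (hk2.sub hkt) h4, inner_add_right, Complex.add_re]
      congr 1
      have h5 : S1 (fun p => 8 * e / t * kap (2 * t) p ^ 2) j
          (QQ1 T l (HP h j l (Phi T j l ψ)))
          = ((8 * e / t : ℝ) : ℂ) • S1 (fun p => kap (2 * t) p ^ 2) j
            (QQ1 T l (HP h j l (Phi T j l ψ))) := by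
        refine cf_ext fun k => ?_
        rw [cf_smul, cf_S1 h4, cf_S1 hsq]
        push_cast
        ring
      rw [h5, inner_smul_right, Complex.re_ofReal_mul]) o1
  have q2 := E7_expand (fun j l => QQ1 T l (HP h j l (Phi T j l ψ))
      + QQ1 t l (HP h j l (PhiD t T j l ψ))) (fun j => S1 (kap t) j)
    (fun j l => qf (fun x => h (x j - x l) * KK t h (x j - x l)) (Phi t j l ψ)
      + C2 * t * H * (Real.sqrt T)⁻¹ ^ 3 * (qf (fun x => h (x j - x l)) (Phi t j l ψ)
          + qf (fun x => h (x j - x l)) (Phi T j l ψ))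
      + C2 * H / Real.sqrt t * (th * qf (fun x => h (x j - x l)) (Phi t j l ψ)
          + 1 / th * qf (fun x => h (x j - x l)) (PhiD t T j l ψ)))
    (D2 * t * H ^ 2 * MD) (by
      intro j l hjl
      have h1 := hd2 N t T th H R h j l ht (by linarith) (by linarith) th0 th1 hh hjl
        (Phi T j l ψ) (PhiD t T j l ψ)
      have h2 : Phi T j l ψ + PhiD t T j l ψ = Phi t j l ψ := by
        unfold PhiD
        abel
      rw [h2] at h1
      exact h1) o2
  have q3 := E7_expand (fun j l => QQ1 t l (HP h j l (PhiD t T j l ψ)))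
    (fun j => S1 (kap t) j)
    (fun j l => qf (fun x => h (x j - x l) * KK t h (x j - x l)) (PhiD t T j l ψ))
    (D3 * t * H ^ 2 * MD) (fun j l hjl => diag4 ht hh hjl _) o3
  -- assemble
  have hid : (∑ j, ((inner ℂ (bO T h ψ j)
          (S1 (fun p => kap (2 * t) p + 8 * e / t * kap (2 * t) p ^ 2) j (bO T h ψ j))).re
        + 2 * (inner ℂ (bO T h ψ j) (S1 (kap t) j (BO t T h ψ j))).re
        + (1 + 4 * e) * (inner ℂ (BO t T h ψ j) (S1 (kap t) j (BO t T h ψ j))).re))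
      = (∑ j, (inner ℂ (∑ l ∈ Finset.univ.erase j, QQ1 T l (HP h j l (Phi T j l ψ)))
          (S1 (fun p => (kap (2 * t) p - kap t p) + 8 * e / t * kap (2 * t) p ^ 2) j
            (∑ l ∈ Finset.univ.erase j, QQ1 T l (HP h j l (Phi T j l ψ))))).re)
        + (∑ j, (inner ℂ (∑ l ∈ Finset.univ.erase j, (QQ1 T l (HP h j l (Phi T j l ψ))
            + QQ1 t l (HP h j l (PhiD t T j l ψ)))) (S1 (kap t) j
          (∑ l ∈ Finset.univ.erase j, (QQ1 T l (HP h j l (Phi T j l ψ))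
            + QQ1 t l (HP h j l (PhiD t T j l ψ)))))).re)
        + 4 * e * (∑ j, (inner ℂ (∑ l ∈ Finset.univ.erase j, QQ1 t l (HP h j l (PhiD t T j l ψ)))
          (S1 (kap t) j
            (∑ l ∈ Finset.univ.erase j, QQ1 t l (HP h j l (PhiD t T j l ψ))))).re) := by
    rw [Finset.mul_sum, ← Finset.sum_add_distrib, ← Finset.sum_add_distrib]
    refine Finset.sum_congr rfl fun j _ => ?_
    rw [E7_id ht j (bO T h ψ j) (BO t T h ψ j)]
    have h1 : bO T h ψ j + BO t T h ψ j = ∑ l ∈ Finset.univ.erase j,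
        (QQ1 T l (HP h j l (Phi T j l ψ)) + QQ1 t l (HP h j l (PhiD t T j l ψ))) := by
      rw [Finset.sum_add_distrib]
      rfl
    rw [h1]
    rfl
  rw [hid]
  set A0 := ∑ j : Fin N, ∑ l ∈ Finset.univ.erase j, qf (fun x => h (x j - x l)) (Phi T j l ψ)
    with hA0
  set At := ∑ j : Fin N, ∑ l ∈ Finset.univ.erase j, qf (fun x => h (x j - x l)) (Phi t j l ψ)
    with hAt
  set A1 := ∑ j : Fin N, ∑ l ∈ Finset.univ.erase j, qf (fun x => h (x j - x l)) (PhiD t T j l ψ)
    with hA1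
  have hqn : ∀ (f : Fin N → Fin N → HS (Fin N)), 0 ≤ ∑ j : Fin N, ∑ l ∈ Finset.univ.erase j,
      qf (fun x => h (x j - x l)) (f j l) := by
    intro f
    exact Finset.sum_nonneg fun j _ => Finset.sum_nonneg fun l _ =>
      qf_nonneg (fun x => hh.nonneg _) _
  have hA0n : 0 ≤ A0 := hqn _
  have hAtn : 0 ≤ At := hqn _
  have hA1n : 0 ≤ A1 := hqn _
  have r1 : (∑ j : Fin N, ∑ l ∈ Finset.univ.erase j,
      (qf (fun x => h (x j - x l) * ∫ r in (t / 2)..t, cn (hk r) h (x j - x l))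
        (Phi T j l ψ) + 8 * e / t * (C3 * H * Real.sqrt t * qf (fun x => h (x j - x l))
          (Phi T j l ψ))))
      = (∑ j, ∑ l ∈ Finset.univ.erase j,
          qf (fun x => h (x j - x l) * ∫ r in (t / 2)..t, cn (hk r) h (x j - x l)) (Phi T j l ψ))
        + 8 * e / t * (C3 * H * Real.sqrt t) * A0 := by
    rw [hA0, E7_mul_sum, E7_add_sum]
    refine Finset.sum_congr rfl fun j _ => Finset.sum_congr rfl fun l _ => ?_
    ring
  have r2 : (∑ j : Fin N, ∑ l ∈ Finset.univ.erase j,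
      (qf (fun x => h (x j - x l) * KK t h (x j - x l)) (Phi t j l ψ)
      + C2 * t * H * (Real.sqrt T)⁻¹ ^ 3 * (qf (fun x => h (x j - x l)) (Phi t j l ψ)
          + qf (fun x => h (x j - x l)) (Phi T j l ψ))
      + C2 * H / Real.sqrt t * (th * qf (fun x => h (x j - x l)) (Phi t j l ψ)
          + 1 / th * qf (fun x => h (x j - x l)) (PhiD t T j l ψ))))
      = (∑ j, ∑ l ∈ Finset.univ.erase j,
          qf (fun x => h (x j - x l) * KK t h (x j - x l)) (Phi t j l ψ))
        + C2 * t * H * (Real.sqrt T)⁻¹ ^ 3 * (At + A0)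
        + C2 * H / Real.sqrt t * (th * At + 1 / th * A1) := by
    rw [hA0, hAt, hA1]
    simp only [E7_mul_sum, E7_add_sum]
  rw [r1] at q1
  rw [r2] at q2
  refine le_trans (add_le_add (add_le_add q1 q2)
    (mul_le_mul_of_nonneg_left q3 (by positivity : (0 : ℝ) ≤ 4 * e))) ?_
  generalize (∑ j : Fin N, ∑ l ∈ Finset.univ.erase j,
          qf (fun x => h (x j - x l) * ∫ r in (t / 2)..t, cn (hk r) h (x j - x l))
            (Phi T j l ψ)) = X1
  generalize (∑ j : Fin N, ∑ l ∈ Finset.univ.erase j,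
          qf (fun x => h (x j - x l) * KK t h (x j - x l)) (Phi t j l ψ)) = X2
  generalize (∑ j : Fin N, ∑ l ∈ Finset.univ.erase j,
          qf (fun x => h (x j - x l) * KK t h (x j - x l)) (PhiD t T j l ψ)) = X3
  clear_value A0 At A1
  have hst : 0 < Real.sqrt t := Real.sqrt_pos.2 ht
  have hTi : 0 ≤ (Real.sqrt T)⁻¹ ^ 3 := by positivity
  have k1 : 8 * e / t * (C3 * H * Real.sqrt t) * A0 = 8 * C3 * (H / Real.sqrt t * e) * A0 := by
    have h1 : Real.sqrt t / t = 1 / Real.sqrt t := by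
      rw [Real.sqrt_div_self', ]
    calc 8 * e / t * (C3 * H * Real.sqrt t) * A0
        = 8 * e * C3 * H * (Real.sqrt t / t) * A0 := by ring
      _ = 8 * C3 * (H / Real.sqrt t * e) * A0 := by rw [h1]; ring
  rw [k1]
  set P := t * H * (Real.sqrt T)⁻¹ ^ 3 with hP
  set Q := H / Real.sqrt t with hQ
  have hPn : 0 ≤ P := by positivity
  have hQn : 0 ≤ Q := by positivity
  have hZn : 0 ≤ t * H ^ 2 * MD := by positivity
  have k2 : C2 * t * H * (Real.sqrt T)⁻¹ ^ 3 = C2 * P := by rw [hP]; ring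
  have k3 : C2 * H / Real.sqrt t * (th * At + 1 / th * A1)
      = C2 * (Q * th * At) + C2 * (Q * (1 / th * A1)) := by rw [hQ]; ring
  have k4 : (8 * C3 + C2 + D1 + D2 + 2 * D3) * H / (Real.sqrt t * th) * A1
      = (8 * C3 + C2 + D1 + D2 + 2 * D3) * (Q * (1 / th * A1)) := by
    rw [hQ]
    field_simp
  rw [k2, k3, k4]
  set Cs := 8 * C3 + C2 + D1 + D2 + 2 * D3 with hCs
  have m1 : 8 * C3 * (Q * e) * A0 + C2 * (Q * th * At) + C2 * P * (At + A0)
      ≤ Cs * (P + Q * (th + e)) * (At + A0) := by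
    have a1 : 0 ≤ Q * e * A0 := by positivity
    have a2 : 0 ≤ Q * th * At := by positivity
    have a3 : 0 ≤ P * (At + A0) := by positivity
    have a4 : 0 ≤ Q * e * At := by positivity
    have a5 : 0 ≤ Q * th * A0 := by positivity
    have b1 : 8 * C3 ≤ Cs := by linarith
    have b2 : C2 ≤ Cs := by linarith
    have b3 : 0 ≤ Cs := by linarith
    have c1 := mul_le_mul_of_nonneg_right b1 a1
    have c2 := mul_le_mul_of_nonneg_right b2 a2
    have c3 := mul_le_mul_of_nonneg_right b2 a3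
    have c4 := mul_nonneg b3 a4
    have c5 := mul_nonneg b3 a5
    have e1 : Cs * (P + Q * (th + e)) * (At + A0)
        = Cs * (Q * e * A0) + Cs * (Q * th * At) + Cs * (P * (At + A0)) + Cs * (Q * e * At)
          + Cs * (Q * th * A0) := by ring
    rw [e1]
    linarith
  have m2 : C2 * (Q * (1 / th * A1)) ≤ Cs * (Q * (1 / th * A1)) :=
    mul_le_mul_of_nonneg_right (by linarith) (by positivity)
  have m3 : D1 * t * H ^ 2 * MD + D2 * t * H ^ 2 * MD + 4 * e * (D3 * t * H ^ 2 * MD)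
      ≤ Cs * t * H ^ 2 * MD := by
    have a1 : 4 * e * D3 ≤ 2 * D3 := mul_le_mul_of_nonneg_right (by linarith) hD3
    have a2 : D1 + D2 + 4 * e * D3 ≤ Cs := by linarith
    have a3 := mul_le_mul_of_nonneg_right a2 hZn
    linarith
  linarith

end Pool.Agent.Lib.MP_4952d6_mp.O

end

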