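import Pool.Agent.Lib.MP_4952d6_mp.Po.N01
import Pool.Agent.Lib.MP_4952d6_mp.Po.N06
import Pool.Agent.Lib.MP_4952d6_mp.Po.N10
import Pool.Agent.Lib.MP_4952d6_mp.Po.N13
import Pool.Agent.Lib.MP_4952d6_mp.Po.N17

/-! Merged modules (to save import time): O.XMb, O.EX1, O.WJ3. -/

/-! ### O.XMb -/

section

/-!
# O.XMb: the vectors `∑_l P_l h_{jl} P_l (..)`

`WA_sum`: `‖∑_l u_l‖² = ∑_l ‖u_l‖² + ∑_{l≠m} Re⟪u_l,u_m⟫` (`inner_sum_sum`). Diagonal: `WW_diag` (LB/WWb.lean) with `f = PP1 t l (g j)` and `mA`.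
Off-diagonal (`l ≠ m`): `⟪P_l h_{jl} P_l g, P_m h_{jm} P_m g⟫ = ⟪h_{jl} P_m P_l g, h_{jm} P_l P_m g⟫` (move `P_l` to the right, `P_m` to the left:
`S1_symm`, `S1_comm`, `S1_HP_comm`, see `WW_off`), `= qf (h_{jl} h_{jm}) (P_l P_m g)` (`HP_symm`, `qf_eq`)
`≤ qf (cvj p l (cvj p m (h_{jl} h_{jm}))) g = qf (cn p h (x_j-x_l) cn p h (x_j-x_m)) g ≤ (C₁H)² qf (hk t (x_j-x_l) hk t (x_j-x_m)) g`
(`jensen_PP1`, `WtB_step`, `WtB_step'`, `cn_hk_le`, `s = t/2`). Sum: `sum_hk_hk_le` with `s = r = t`, centre `j`.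
`WB_sum`: diagonal: `WW_diag` with `f = PP1 t l (PP1 T j (G l))` and `mB`. Off-diagonal:
`⟪h_{jl} P_m P_l S_j G_l, h_{jm} P_l P_m S_j G_m⟫ ≤ (1/2) qf (h_{jl}h_{jm}) (P_m P_l S_j G_l) + (1/2) qf (h_{jl}h_{jm}) (P_l P_m S_j G_m)`
(`abs_inner_MB_le`, `c = 1`), and `qf (h_{jl}h_{jm}) (P_m P_l S_j F) ≤ (C₁H)² qf (cvj (hk(T/2)) j (hk t (x_j-x_l) hk t (x_j-x_m))) F
≤ 64 (C₁H)² qf (hk(2T)(x_l-x_j) hk(5t)(x_l-x_m)) F` by `XW_one` with `s = T/2 ≥ t = r = r'` (centre `l`). For `F = G_m` the same with `l`, `m`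
exchanged (`sum_triple_swap`). `sum_triple` to have the centre outermost;
`hk a * hk b ≤ (1/2)(..)`: `∑_j ∑_{m≠j} qf (hk(2T)(x_l-x_j) hk(5t)(x_l-x_m)) F ≤ qf (crowd (2T) l * crowd (5t) l) F ≤ (1/2) cw (2T) l F + (1/2) cw (5t) l F`.
Models: `WW_off`, `WW_bound` (LB/WWb.lean), `q_hh` (LB/Qb.lean).
-/

set_option autoImplicit false
set_option linter.unusedSectionVars false
set_option linter.unusedVariables false
open MeasureTheory Function Filter Topology Set ComplexConjugate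

namespace Pool.Agent.Lib.MP_4952d6_mp.O

open LB

variable {N : ℕ}

lemma XMb_H {H R : ℝ} {h : T3 → ℝ} (hh : SR H R h) : 0 ≤ H := by
  rw [← hh.int]
  exact integral_nonneg hh.nonneg

/-- `P_l` goes to the right, `P_m` to the left -/
lemma XMb_move {t : ℝ} (ht : 0 < t) {h : T3 → ℝ} (hb : BM h) {j l m : Fin N} (hjl : j ≠ l)
    (hjm : j ≠ m) (hlm : l ≠ m) (X Y : HS (Fin N)) :
    inner ℂ (PP1 t l (HP h j l X)) (PP1 t m (HP h j m Y))
      = inner ℂ (PP1 t m X)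
        (MB (fun x : Fin N → T3 => ((h (x j - x l) * h (x j - x m) : ℝ) : ℂ)) (PP1 t l Y)) := by
  have he := bdm_et ht.le
  unfold PP1
  rw [S1_symm he l, S1_comm he he l m, ← S1_symm he m,
    S1_HP_comm hb hjl (Ne.symm hjm) (Ne.symm hlm) he,
    S1_HP_comm hb hjm (Ne.symm hjl) hlm he, HP_symm hb]
  congr 1
  unfold HP
  rw [MB_MB (bmc_of_bm (bm_diff hb j l)) (bmc_of_bm (bm_diff hb j m))]
  congr 2
  funext x
  push_cast
  rfl

lemma XMb_pair {t : ℝ} (ht : 0 < t) {H R : ℝ} {h : T3 → ℝ} (hh : SR H R h) {j l m : Fin N}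
    (hjl : j ≠ l) (hjm : j ≠ m) (hlm : l ≠ m) (X Y : HS (Fin N)) :
    (inner ℂ (PP1 t l (HP h j l X)) (PP1 t m (HP h j m Y))).re
      ≤ 1 / 2 * qf (fun x => h (x j - x l) * h (x j - x m)) (PP1 t m X)
        + 1 / 2 * qf (fun x => h (x j - x l) * h (x j - x m)) (PP1 t l Y) := by
  have hb := hh.bm
  rw [XMb_move ht hb hjl hjm hlm]
  have hG : BM (fun x : Fin N → T3 => h (x j - x l) * h (x j - x m)) :=
    (bm_diff hb j l).mul (bm_diff hb j m)
  have h1 := abs_inner_MB_le hG hG (Eventually.of_forall fun x =>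
    le_of_eq (abs_of_nonneg (mul_nonneg (hh.nonneg _) (hh.nonneg _)))) one_pos
    (PP1 t m X) (PP1 t l Y)
  have h2 := le_trans (le_abs_self _) h1
  rw [mul_one] at h2
  exact h2

/-- the two averages -/
lemma XMb_two {C1 : ℝ} (hC1 : 0 ≤ C1) (h1 : ∀ (s H R : ℝ) (h : T3 → ℝ), 0 < s → SR H R h → R ^ 2 ≤ s →
    0 ≤ R → ∀ z, cn (hk s) h z ≤ C1 * H * hk (2 * s) z) {t H R : ℝ} {h : T3 → ℝ} (ht : 0 < t)
    (hh : SR H R h) (hR : 0 ≤ R) (hRt : R ^ 2 ≤ t / 8) {j l m : Fin N}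
    (hjl : j ≠ l) (hjm : j ≠ m) (hlm : l ≠ m) (F : HS (Fin N)) :
    qf (fun x => h (x j - x l) * h (x j - x m)) (PP1 t m (PP1 t l F))
      ≤ (C1 * H) ^ 2 * qf (fun x => hk t (x j - x l) * hk t (x j - x m)) F := by
  have ht2 : 0 < t / 2 := by linarith
  have hH := XMb_H hh
  have hb : BM (fun x : Fin N → T3 => h (x j - x l) * h (x j - x m)) :=
    (bm_diff hh.bm j l).mul (bm_diff hh.bm j m)
  have hb0 : ∀ x : Fin N → T3, 0 ≤ h (x j - x l) * h (x j - x m) :=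
    fun x => mul_nonneg (hh.nonneg _) (hh.nonneg _)
  have hbm : BM (cvj (hk (t / 2)) m (fun x : Fin N → T3 => h (x j - x l) * h (x j - x m))) :=
    cvj_bm (hk_bm ht2) m hb
  have hbm0 := cvj_nonneg (hk_nonneg (t / 2)) m hb0
  have a1 := jensen_PP1 ht m hb hb0 (PP1 t l F)
  have a2 := jensen_PP1 ht l hbm hbm0 F
  refine a1.trans (a2.trans ?_)
  rw [← qf_smul]
  refine qf_mono (cvj_bm (hk_bm ht2) l hbm)
    (((bm_diff (hk_bm ht) j l).mul (bm_diff (hk_bm ht) j m)).const_mul _)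
    (Eventually.of_forall fun x => ?_) F
  show cvj (hk (t / 2)) l (cvj (hk (t / 2)) m
      (fun x : Fin N → T3 => h (x j - x l) * h (x j - x m))) x
      ≤ (C1 * H) ^ 2 * (hk t (x j - x l) * hk t (x j - x m))
  rw [WtB_step' (hk_neg (t / 2)) hjm hlm, WtB_step (hk_neg (t / 2)) hjl hlm]
  have h4 : ∀ z, cn (hk (t / 2)) h z ≤ C1 * H * hk t z := by
    intro z
    have h5 := h1 (t / 2) H R h ht2 hh (by linarith) hR z
    rwa [show 2 * (t / 2) = t by ring] at h5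
  have h6 := mul_le_mul (h4 (x j - x l)) (h4 (x j - x m))
    (cn_nonneg (hk_nonneg _) hh.nonneg _) (mul_nonneg (mul_nonneg hC1 hH) (hk_nonneg _ _))
  refine h6.trans (le_of_eq ?_)
  ring

lemma XMb_pt {a b : Fin N → ℝ} (ha : ∀ j, 0 ≤ a j) (hb : ∀ j, 0 ≤ b j) (l : Fin N) :
    ∑ m ∈ Finset.univ.erase l, ∑ j ∈ (Finset.univ.erase l).erase m, a j * b m
      ≤ (∑ j ∈ Finset.univ.erase l, a j) * ∑ m ∈ Finset.univ.erase l, b m := by
  rw [Finset.mul_sum]
  refine Finset.sum_le_sum fun m _ => ?_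
  rw [← Finset.sum_mul]
  refine mul_le_mul_of_nonneg_right ?_ (hb m)
  exact Finset.sum_le_sum_of_subset_of_nonneg (Finset.erase_subset _ _) fun j _ _ => ha j

/-- two neighbours of `l`, two times -/
lemma XMb_crowd {s r : ℝ} (hs : 0 < s) (hr : 0 < r) (l : Fin N) (f : HS (Fin N)) :
    ∑ m ∈ Finset.univ.erase l, ∑ j ∈ (Finset.univ.erase l).erase m,
      qf (fun x => hk s (x l - x j) * hk r (x l - x m)) f
      ≤ 1 / 2 * cw s l f + 1 / 2 * cw r l f := by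
  have hb : ∀ j m : Fin N, BM (fun x : Fin N → T3 => hk s (x l - x j) * hk r (x l - x m)) :=
    fun j m => (bm_diff (hk_bm hs) l j).mul (bm_diff (hk_bm hr) l m)
  have e2 : ∀ m : Fin N, ∑ j ∈ (Finset.univ.erase l).erase m,
      qf (fun x => hk s (x l - x j) * hk r (x l - x m)) f
      = qf (fun x => ∑ j ∈ (Finset.univ.erase l).erase m,
          (hk s (x l - x j) * hk r (x l - x m))) f :=
    fun m => (qf_sum _ (fun j _ => hb j m) f).symm
  simp_rw [e2]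
  have hb2 : ∀ m : Fin N, BM (fun x : Fin N → T3 => ∑ j ∈ (Finset.univ.erase l).erase m,
      (hk s (x l - x j) * hk r (x l - x m))) := fun m => BM.finset_sum _ fun j _ => hb j m
  rw [← qf_sum (Finset.univ.erase l) (fun m _ => hb2 m)]
  unfold cw
  rw [← qf_smul, ← qf_smul, ← qf_add_fun ((Sums_bm hs l).const_mul _) ((Sums_bm hr l).const_mul _)]
  refine qf_mono (BM.finset_sum _ fun m _ => hb2 m)
    (((Sums_bm hs l).const_mul _).add ((Sums_bm hr l).const_mul _))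
    (Filter.Eventually.of_forall fun x => ?_) f
  have p1 := XMb_pt (a := fun j => hk s (x l - x j)) (b := fun m => hk r (x l - x m))
    (fun j => hk_nonneg _ _) (fun j => hk_nonneg _ _) l
  have p2 : ∑ j ∈ Finset.univ.erase l, hk s (x l - x j) = crowd s l x := rfl
  have p3 : ∑ j ∈ Finset.univ.erase l, hk r (x l - x j) = crowd r l x := rfl
  have p4 := crowd_nonneg s l x
  have p5 := crowd_nonneg r l x
  have p6 : (0 : ℝ) ≤ N := Nat.cast_nonneg N
  refine p1.trans ?_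
  simp only [p2, p3]
  nlinarith [sq_nonneg (crowd s l x - crowd r l x), mul_nonneg p4 p6, mul_nonneg p5 p6,
    sq_nonneg (N : ℝ)]

theorem WA_sum : ∃ C : ℝ, 0 ≤ C ∧ ∀ (N : ℕ) (t H R : ℝ) (h : T3 → ℝ), 0 < N → 0 < t → t ≤ 1 →
    SR H R h → 0 ≤ R → R ^ 2 ≤ t / 8 → ∀ g : Fin N → HS (Fin N),
    ∑ j, ‖∑ l ∈ Finset.univ.erase j, PP1 t l (HP h j l (PP1 t l (g j)))‖ ^ 2
      ≤ C * H ^ 2 * ((Real.sqrt t)⁻¹ ^ 3 / N + 1) * ∑ j, cw t j (g j) := by
  obtain ⟨C1, hC1, hdiag⟩ := WW_diag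
  obtain ⟨C2, hC2, hmA⟩ := mA
  obtain ⟨C3, hC3, hcn⟩ := cn_hk_le
  refine ⟨C1 * C2 + C3 ^ 2, by positivity, ?_⟩
  intro N t H R h hN ht ht1 hh hR0 hR g
  have hH := XMb_H hh
  have hNr : (0 : ℝ) < N := Nat.cast_pos.mpr hN
  have hs : 0 < Real.sqrt t := Real.sqrt_pos.mpr ht
  obtain ⟨S, hS⟩ : ∃ S : ℝ, S = ∑ j, cw t j (g j) := ⟨_, rfl⟩
  have hS0 : 0 ≤ S := by
    rw [hS]
    exact Finset.sum_nonneg fun m _ => cw_nonneg _ _ _
  have hexp : ∀ j, ‖∑ l ∈ Finset.univ.erase j, PP1 t l (HP h j l (PP1 t l (g j)))‖ ^ 2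
      ≤ (∑ l ∈ Finset.univ.erase j, C1 * (Real.sqrt t)⁻¹ ^ 3 * H *
          qf (fun x => h (x j - x l)) (PP1 t l (g j)))
        + ∑ l ∈ Finset.univ.erase j, ∑ m ∈ (Finset.univ.erase j).erase l,
          (C3 * H) ^ 2 * (qf (fun x => hk t (x j - x l) * hk t (x j - x m)) (g j) + ‖g j‖ ^ 2) := by
    intro j
    have h5 : ‖∑ l ∈ Finset.univ.erase j, PP1 t l (HP h j l (PP1 t l (g j)))‖ ^ 2
        = (inner ℂ (∑ l ∈ Finset.univ.erase j, PP1 t l (HP h j l (PP1 t l (g j))))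
          (∑ l ∈ Finset.univ.erase j, PP1 t l (HP h j l (PP1 t l (g j))))).re := by
      rw [inner_self_eq_norm_sq_to_K]
      norm_cast
    rw [h5, inner_sum_sum]
    refine add_le_add (Finset.sum_le_sum fun l hl => ?_)
      (Finset.sum_le_sum fun l hl => Finset.sum_le_sum fun m hm => ?_)
    · have h6 := hdiag N t H R h j l ht ht1 hh (Ne.symm (Finset.ne_of_mem_erase hl))
        (PP1 t l (g j))
      refine le_trans (le_of_eq ?_) h6
      rw [inner_self_eq_norm_sq_to_K]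
      norm_cast
    · have hjl : j ≠ l := Ne.symm (Finset.ne_of_mem_erase hl)
      have hml : m ≠ l := Finset.ne_of_mem_erase hm
      have hjm : j ≠ m := Ne.symm (Finset.ne_of_mem_erase (Finset.mem_of_mem_erase hm))
      have h6 := XMb_pair ht hh hjl hjm (Ne.symm hml) (PP1 t l (g j)) (PP1 t m (g j))
      have h7 := XMb_two hC3 hcn ht hh hR0 hR hjl hjm (Ne.symm hml) (g j)
      have h8 : PP1 t l (PP1 t m (g j)) = PP1 t m (PP1 t l (g j)) :=
        S1_comm (bdm_et ht.le) (bdm_et ht.le) l m _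
      rw [h8] at h6
      have h9 : 0 ≤ (C3 * H) ^ 2 * ‖g j‖ ^ 2 := by positivity
      rw [mul_add]
      linarith only [h6, h7, h9]
  refine (Finset.sum_le_sum fun j _ => hexp j).trans ?_
  rw [Finset.sum_add_distrib]
  have hD1 : ∑ j, ∑ l ∈ Finset.univ.erase j, C1 * (Real.sqrt t)⁻¹ ^ 3 * H *
          qf (fun x => h (x j - x l)) (PP1 t l (g j))
      ≤ C1 * (Real.sqrt t)⁻¹ ^ 3 * H * (C2 * (H / N) * S) := by
    have h5 := hmA N t H R h hN ht ht1 hh hR0 hR g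
    rw [← hS] at h5
    have h6 : 0 ≤ C1 * (Real.sqrt t)⁻¹ ^ 3 * H := by positivity
    refine le_trans (le_of_eq ?_) (mul_le_mul_of_nonneg_left h5 h6)
    simp only [Finset.mul_sum]
  have hA1 : ∑ j, ∑ l ∈ Finset.univ.erase j, ∑ m ∈ (Finset.univ.erase j).erase l,
      (C3 * H) ^ 2 * (qf (fun x => hk t (x j - x l) * hk t (x j - x m)) (g j) + ‖g j‖ ^ 2)
      ≤ (C3 * H) ^ 2 * S := by
    rw [hS, Finset.mul_sum]
    refine Finset.sum_le_sum fun j _ => ?_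
    have h5 := sum_hk_hk_le ht (le_refl t) j (g j)
    rw [div_self ht.ne', Real.sqrt_one, one_pow, one_pow, one_mul] at h5
    simp only [← Finset.mul_sum]
    exact mul_le_mul_of_nonneg_left h5 (sq_nonneg _)
  rw [← hS]
  refine (add_le_add hD1 hA1).trans ?_
  have e1 : C1 * (Real.sqrt t)⁻¹ ^ 3 * H * (C2 * (H / N) * S)
      = C1 * C2 * (H ^ 2 * ((Real.sqrt t)⁻¹ ^ 3 / N) * S) := by ring
  have e2 : (C3 * H) ^ 2 * S = C3 ^ 2 * (H ^ 2 * S) := by ring
  have e3 : (C1 * C2 + C3 ^ 2) * H ^ 2 * ((Real.sqrt t)⁻¹ ^ 3 / N + 1) * S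
      = C1 * C2 * (H ^ 2 * ((Real.sqrt t)⁻¹ ^ 3 / N) * S) + C1 * C2 * (H ^ 2 * S)
        + (C3 ^ 2 * (H ^ 2 * ((Real.sqrt t)⁻¹ ^ 3 / N) * S) + C3 ^ 2 * (H ^ 2 * S)) := by ring
  rw [e1, e2, e3]
  have p1 : 0 ≤ C1 * C2 * (H ^ 2 * S) := by positivity
  have p2 : 0 ≤ C3 ^ 2 * (H ^ 2 * ((Real.sqrt t)⁻¹ ^ 3 / N) * S) := by positivity
  linarith

theorem WB_sum : ∃ C : ℝ, 0 ≤ C ∧ ∀ (N : ℕ) (t T H R : ℝ) (h : T3 → ℝ), 0 < N → 0 < t → 4 * t ≤ T →
    T ≤ 1 → SR H R h → 0 ≤ R → R ^ 2 ≤ t / 8 → ∀ G : Fin N → HS (Fin N),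
    ∑ j, ‖∑ l ∈ Finset.univ.erase j, PP1 t l (HP h j l (PP1 t l (PP1 T j (G l))))‖ ^ 2
      ≤ C * H ^ 2 * ((Real.sqrt t)⁻¹ ^ 3 / N + 1)
        * (∑ l, cw (2 * T) l (G l) + ∑ l, cw (5 * t) l (G l)) := by
  obtain ⟨C1, hC1, hdiag⟩ := WW_diag
  obtain ⟨C2, hC2, hmB⟩ := mB
  obtain ⟨C3, hC3, hcn⟩ := cn_hk_le
  refine ⟨C1 * C2 + 32 * C3 ^ 2, by positivity, ?_⟩
  intro N t T H R h hN ht htT hT1 hh hR0 hR G
  have hH := XMb_H hh
  have hNr : (0 : ℝ) < N := Nat.cast_pos.mpr hN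
  have hs : 0 < Real.sqrt t := Real.sqrt_pos.mpr ht
  have ht1 : t ≤ 1 := by linarith
  have hT : 0 < T := by linarith
  have hT2 : 0 < T / 2 := by linarith
  obtain ⟨S, hS⟩ : ∃ S : ℝ, S = ∑ l, cw (2 * T) l (G l) := ⟨_, rfl⟩
  obtain ⟨S', hS'⟩ : ∃ S' : ℝ, S' = ∑ l, cw (5 * t) l (G l) := ⟨_, rfl⟩
  have hS0 : 0 ≤ S := by
    rw [hS]
    exact Finset.sum_nonneg fun m _ => cw_nonneg _ _ _
  have hS0' : 0 ≤ S' := by
    rw [hS']
    exact Finset.sum_nonneg fun m _ => cw_nonneg _ _ _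
  obtain ⟨A, hA⟩ : ∃ A : Fin N → Fin N → Fin N → ℝ, ∀ j l m, A j l m
      = qf (fun x => hk (2 * T) (x l - x j) * hk (5 * t) (x l - x m)) (G l) :=
    ⟨_, fun _ _ _ => rfl⟩
  have hone : ∀ j l m : Fin N, j ≠ l → j ≠ m → l ≠ m →
      qf (fun x => h (x j - x l) * h (x j - x m)) (PP1 t m (PP1 t l (PP1 T j (G l))))
        ≤ 64 * (C3 * H) ^ 2 * A j l m := by
    intro j l m hjl hjm hlm
    have h7 := XMb_two hC3 hcn ht hh hR0 hR hjl hjm hlm (PP1 T j (G l))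
    have hb : BM (fun x : Fin N → T3 => hk t (x j - x l) * hk t (x j - x m)) :=
      (bm_diff (hk_bm ht) j l).mul (bm_diff (hk_bm ht) j m)
    have hb0 : ∀ x : Fin N → T3, 0 ≤ hk t (x j - x l) * hk t (x j - x m) :=
      fun x => mul_nonneg (hk_nonneg _ _) (hk_nonneg _ _)
    have h8 := jensen_PP1 hT j hb hb0 (G l)
    have h9 : qf (cvj (hk (T / 2)) j (fun x : Fin N → T3 => hk t (x j - x l) * hk t (x j - x m)))
        (G l) ≤ 64 * A j l m := by
      rw [hA, ← qf_smul]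
      refine qf_mono (cvj_bm (hk_bm hT2) j hb)
        (((bm_diff (hk_bm (by linarith)) l j).mul
          (bm_diff (hk_bm (by linarith)) l m)).const_mul _)
        (Eventually.of_forall fun x => ?_) _
      have h10 := XW_one (s := T / 2) (r := t) (r' := t) ht ht (by linarith) hjl hjm x
      have e1 : 4 * (T / 2) = 2 * T := by ring
      have e2 : 4 * t + t = 5 * t := by ring
      rw [e1, e2] at h10
      exact h10
    have h11 := mul_le_mul_of_nonneg_left (h8.trans h9) (sq_nonneg (C3 * H))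
    refine h7.trans (h11.trans (le_of_eq ?_))
    ring
  have hexp : ∀ j, ‖∑ l ∈ Finset.univ.erase j, PP1 t l (HP h j l (PP1 t l (PP1 T j (G l))))‖ ^ 2
      ≤ (∑ l ∈ Finset.univ.erase j, C1 * (Real.sqrt t)⁻¹ ^ 3 * H *
          qf (fun x => h (x j - x l)) (PP1 t l (PP1 T j (G l))))
        + ∑ l ∈ Finset.univ.erase j, ∑ m ∈ (Finset.univ.erase j).erase l,
          32 * (C3 * H) ^ 2 * (A j l m + A j m l) := by
    intro j
    have h5 : ‖∑ l ∈ Finset.univ.erase j, PP1 t l (HP h j l (PP1 t l (PP1 T j (G l))))‖ ^ 2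
        = (inner ℂ (∑ l ∈ Finset.univ.erase j, PP1 t l (HP h j l (PP1 t l (PP1 T j (G l)))))
          (∑ l ∈ Finset.univ.erase j, PP1 t l (HP h j l (PP1 t l (PP1 T j (G l)))))).re := by
      rw [inner_self_eq_norm_sq_to_K]
      norm_cast
    rw [h5, inner_sum_sum]
    refine add_le_add (Finset.sum_le_sum fun l hl => ?_)
      (Finset.sum_le_sum fun l hl => Finset.sum_le_sum fun m hm => ?_)
    · have h6 := hdiag N t H R h j l ht ht1 hh (Ne.symm (Finset.ne_of_mem_erase hl))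
        (PP1 t l (PP1 T j (G l)))
      refine le_trans (le_of_eq ?_) h6
      rw [inner_self_eq_norm_sq_to_K]
      norm_cast
    · have hjl : j ≠ l := Ne.symm (Finset.ne_of_mem_erase hl)
      have hml : m ≠ l := Finset.ne_of_mem_erase hm
      have hjm : j ≠ m := Ne.symm (Finset.ne_of_mem_erase (Finset.mem_of_mem_erase hm))
      have h6 := XMb_pair ht hh hjl hjm (Ne.symm hml) (PP1 t l (PP1 T j (G l)))
        (PP1 t m (PP1 T j (G m)))
      have h7 := hone j l m hjl hjm (Ne.symm hml)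
      have h8 := hone j m l hjm hjl hml
      have e1 : (fun x : Fin N → T3 => h (x j - x m) * h (x j - x l))
          = fun x => h (x j - x l) * h (x j - x m) := by
        funext x
        ring
      rw [e1] at h8
      rw [mul_add]
      linarith only [h6, h7, h8]
  refine (Finset.sum_le_sum fun j _ => hexp j).trans ?_
  rw [Finset.sum_add_distrib]
  have hD1 : ∑ j, ∑ l ∈ Finset.univ.erase j, C1 * (Real.sqrt t)⁻¹ ^ 3 * H *
          qf (fun x => h (x j - x l)) (PP1 t l (PP1 T j (G l)))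
      ≤ C1 * (Real.sqrt t)⁻¹ ^ 3 * H * (C2 * (H / N) * S) := by
    have h5 := hmB N t T H R h hN ht htT hT1 hh hR0 hR G
    rw [← hS] at h5
    have h6 : 0 ≤ C1 * (Real.sqrt t)⁻¹ ^ 3 * H := by positivity
    refine le_trans (le_of_eq ?_) (mul_le_mul_of_nonneg_left h5 h6)
    simp only [Finset.mul_sum]
  have hA1 : ∑ j, ∑ l ∈ Finset.univ.erase j, ∑ m ∈ (Finset.univ.erase j).erase l, A j l m
      ≤ 1 / 2 * S + 1 / 2 * S' := by
    rw [sum_triple, sum_triple (fun j' l' m' => A l' m' j'), hS, hS', Finset.mul_sum,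
      Finset.mul_sum, ← Finset.sum_add_distrib]
    refine Finset.sum_le_sum fun l _ => ?_
    have h5 := XMb_crowd (s := 2 * T) (r := 5 * t) (by linarith) (by linarith) l (G l)
    refine le_trans (le_of_eq ?_) h5
    exact Finset.sum_congr rfl fun m _ => Finset.sum_congr rfl fun j _ => hA j l m
  have hA2 : ∑ j, ∑ l ∈ Finset.univ.erase j, ∑ m ∈ (Finset.univ.erase j).erase l, A j m l
      ≤ 1 / 2 * S + 1 / 2 * S' := by
    rw [← sum_triple_swap]
    exact hA1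
  have hsplit : ∑ j, ∑ l ∈ Finset.univ.erase j, ∑ m ∈ (Finset.univ.erase j).erase l,
      32 * (C3 * H) ^ 2 * (A j l m + A j m l)
      = 32 * (C3 * H) ^ 2 * ((∑ j, ∑ l ∈ Finset.univ.erase j, ∑ m ∈ (Finset.univ.erase j).erase l,
          A j l m)
        + ∑ j, ∑ l ∈ Finset.univ.erase j, ∑ m ∈ (Finset.univ.erase j).erase l, A j m l) := by
    simp only [Finset.sum_add_distrib, ← Finset.mul_sum]
  rw [hsplit, ← hS, ← hS']
  have hD : 0 ≤ 32 * (C3 * H) ^ 2 := by positivity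
  have hD2 := mul_le_mul_of_nonneg_left (add_le_add hA1 hA2) hD
  refine (add_le_add hD1 hD2).trans ?_
  have e1 : C1 * (Real.sqrt t)⁻¹ ^ 3 * H * (C2 * (H / N) * S)
      = C1 * C2 * (H ^ 2 * ((Real.sqrt t)⁻¹ ^ 3 / N) * S) := by ring
  have e2 : 32 * (C3 * H) ^ 2 * (1 / 2 * S + 1 / 2 * S' + (1 / 2 * S + 1 / 2 * S'))
      = 32 * C3 ^ 2 * (H ^ 2 * (S + S')) := by ring
  have e3 : (C1 * C2 + 32 * C3 ^ 2) * H ^ 2 * ((Real.sqrt t)⁻¹ ^ 3 / N + 1) * (S + S')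
      = C1 * C2 * (H ^ 2 * ((Real.sqrt t)⁻¹ ^ 3 / N) * S)
        + C1 * C2 * (H ^ 2 * ((Real.sqrt t)⁻¹ ^ 3 / N) * S') + C1 * C2 * (H ^ 2 * (S + S'))
        + (32 * C3 ^ 2 * (H ^ 2 * ((Real.sqrt t)⁻¹ ^ 3 / N) * (S + S'))
          + 32 * C3 ^ 2 * (H ^ 2 * (S + S'))) := by ring
  rw [e1, e2, e3]
  have p1 : 0 ≤ C1 * C2 * (H ^ 2 * (S + S')) := by positivity
  have p2 : 0 ≤ 32 * C3 ^ 2 * (H ^ 2 * ((Real.sqrt t)⁻¹ ^ 3 / N) * (S + S')) := by positivity
  have p3 : 0 ≤ C1 * C2 * (H ^ 2 * ((Real.sqrt t)⁻¹ ^ 3 / N) * S') := by positivity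
  linarith

end Pool.Agent.Lib.MP_4952d6_mp.O

end

/-! ### O.EX1 -/

section

/-!
# O.EX1: (X1) of the notes, `W_j = ∑_l P_l h_{jl} Φ¹_{jl}`
-/

set_option autoImplicit false
set_option linter.unusedSectionVars false
set_option linter.unusedVariables false
open MeasureTheory Function Filter Topology Set ComplexConjugate

namespace Pool.Agent.Lib.MP_4952d6_mp.O

open LB

theorem X1_bound : ∃ C : ℝ, 0 ≤ C ∧ ∀ (N : ℕ) (t T H R MD : ℝ) (h : T3 → ℝ), 0 < N → 0 < t →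
    4 * t ≤ T → 64 * T ≤ 1 → SR H R h → 0 ≤ R → R ^ 2 ≤ t / 8 → ∀ ψ : HS (Fin N), DBd t T MD ψ →
    ∑ j, ‖WO t T h ψ j‖ ^ 2 ≤ C * H ^ 2 * ((Real.sqrt t)⁻¹ ^ 3 / N + 1) * MD := by
  obtain ⟨C1, hC1, h1⟩ := WA_sum
  obtain ⟨C2, hC2, h2⟩ := WB_sum
  refine ⟨8 * C1 + 4 * C2, by positivity, ?_⟩
  intro N t T H R MD h hN ht htT hT hh hR hR2 ψ hD
  have hT0 : 0 < T := by linarith
  have hMD := hD.nonneg ht (by linarith)
  set g : Fin N → HS (Fin N) := fun j => QQ1 T j ψ - QQ1 t j ψ with hg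
  set G : Fin N → HS (Fin N) := fun l => QQ1 (T - t) l ψ with hG
  have e : ∀ j, WO t T h ψ j = (∑ l ∈ Finset.univ.erase j, PP1 t l (HP h j l (PP1 t l (g j))))
      + ∑ l ∈ Finset.univ.erase j, PP1 t l (HP h j l (PP1 t l (PP1 T j (G l)))) := by
    intro j
    unfold WO
    rw [← Finset.sum_add_distrib]
    refine Finset.sum_congr rfl fun l _ => ?_
    rw [PhiD_eq ht.le (by linarith), map_add, map_add]
  have a1 := h1 N t H R h hN ht (by linarith) hh hR hR2 g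
  have a2 := h2 N t T H R h hN ht htT (by linarith) hh hR hR2 G
  have b1 : ∑ j, cw t j (g j) ≤ 4 * MD :=
    cw_QQdiff_le ht (by linarith) (by linarith) (by linarith) hD
  have b2 : ∑ l, cw (2 * T) l (G l) ≤ MD :=
    cw_QQ1_le (by linarith) (by linarith) ht (by linarith) (by linarith) hD
  have b3 : ∑ l, cw (5 * t) l (G l) ≤ MD :=
    cw_QQ1_le (by linarith) (by linarith) ht (by linarith) (by linarith) hD
  have hK : 0 ≤ (Real.sqrt t)⁻¹ ^ 3 / N + 1 := by positivity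
  have c1 : ∑ j, ‖WO t T h ψ j‖ ^ 2
      ≤ 2 * (∑ j, ‖∑ l ∈ Finset.univ.erase j, PP1 t l (HP h j l (PP1 t l (g j)))‖ ^ 2)
        + 2 * ∑ j, ‖∑ l ∈ Finset.univ.erase j, PP1 t l (HP h j l (PP1 t l (PP1 T j (G l))))‖ ^ 2 := by
    rw [Finset.mul_sum, Finset.mul_sum, ← Finset.sum_add_distrib]
    refine Finset.sum_le_sum fun j _ => ?_
    rw [e j]
    exact XP_norm_two _ _
  have d1 : C1 * H ^ 2 * ((Real.sqrt t)⁻¹ ^ 3 / N + 1) * ∑ j, cw t j (g j)
      ≤ C1 * H ^ 2 * ((Real.sqrt t)⁻¹ ^ 3 / N + 1) * (4 * MD) :=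
    mul_le_mul_of_nonneg_left b1 (by positivity)
  have d2 : C2 * H ^ 2 * ((Real.sqrt t)⁻¹ ^ 3 / N + 1)
        * (∑ l, cw (2 * T) l (G l) + ∑ l, cw (5 * t) l (G l))
      ≤ C2 * H ^ 2 * ((Real.sqrt t)⁻¹ ^ 3 / N + 1) * (MD + MD) :=
    mul_le_mul_of_nonneg_left (add_le_add b2 b3) (by positivity)
  calc ∑ j, ‖WO t T h ψ j‖ ^ 2 ≤ _ := c1
    _ ≤ 2 * (C1 * H ^ 2 * ((Real.sqrt t)⁻¹ ^ 3 / N + 1) * (4 * MD))
        + 2 * (C2 * H ^ 2 * ((Real.sqrt t)⁻¹ ^ 3 / N + 1) * (MD + MD)) := by linarith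
    _ = _ := by ring

end Pool.Agent.Lib.MP_4952d6_mp.O

end

/-! ### O.WJ3 -/

section

/-! # O.WJ3: the variance of the density

For fixed `x` let `F z = Σ_j hk s (z - x j) - N`, `s = T/2`: a bounded (continuous) real function on the torus with Fourier coefficients
`fc3 F n = exp (-(s ksq n)) Σ_j conj (ch n (x j))` for `n ≠ 0` (`fc3_hk`, translation) and `fc3 F 0 = 0` (`hk_integral`). Bessel for the finite set `(bx M).erase 0`
(expand `0 ≤ ∫ |F - Σ_n fc3 F n ch n|²`, or Parseval in `Pk/G06`):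
`Σ_{n ∈ (bx M).erase 0} exp (-(T ksq n)) ‖Σ_j ch n (x j)‖² ≤ ∫ F²`. On the box `T ksq n ≤ T 12 π² M² ≤ T (120 M²) ≤ 1/2`, so `exp (-(T ksq n)) ≥ 1/2`.
Multiply by `‖f x‖²` and integrate over `x` (`VV` is `∫ dz ∫ dx`; `integral_integral_swap`: `(z, x) ↦ F` is bounded and measurable, `‖f‖²` integrable):
`(1/2) Σ_n Dn f n ≤ VV (T/2) f`; divide by `N²`. -/

set_option autoImplicit false
set_option linter.unusedSectionVars false
set_option linter.unusedVariables false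
open MeasureTheory Function Filter Topology Set ComplexConjugate

namespace Pool.Agent.Lib.MP_4952d6_mp.O

open LB

variable {ι : Type*} [Fintype ι] [DecidableEq ι]

lemma WJ3_VV_nonneg (s : ℝ) (f : (ι → T3) → ℂ) : 0 ≤ VV s f := by
  unfold VV
  exact integral_nonneg fun z => integral_nonneg fun x => mul_nonneg (sq_nonneg _) (sq_nonneg _)

/-- Joint continuity of the smoothed density. -/
lemma WJ3_cont {s : ℝ} (hs : 0 < s) : Continuous fun q : (ι → T3) × T3 => nz s q.2 q.1 := by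
  unfold nz
  refine continuous_finsetSum _ fun j _ => ?_
  have h : Continuous fun q : (ι → T3) × T3 => q.2 - q.1 j :=
    continuous_snd.sub ((continuous_apply j).comp continuous_fst)
  exact (hkD_continuous 0 hs).comp h

lemma WJ3_cont1 {s : ℝ} (hs : 0 < s) (x : ι → T3) : Continuous fun z : T3 => nz s z x := by
  unfold nz
  refine continuous_finsetSum _ fun j _ => ?_
  have h : Continuous fun z : T3 => z - x j := continuous_id.sub continuous_const
  exact (hkD_continuous 0 hs).comp h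

lemma WJ3_nz_nonneg (s : ℝ) (z : T3) (x : ι → T3) : 0 ≤ nz s z x :=
  Finset.sum_nonneg fun j _ => hk_nonneg s _

lemma WJ3_nz_le {s : ℝ} (hs : 0 < s) (z : T3) (x : ι → T3) :
    nz s z x ≤ Fintype.card ι * hk s 0 := by
  unfold nz
  calc ∑ j, hk s (z - x j) ≤ ∑ _j : ι, hk s 0 := Finset.sum_le_sum fun j _ => hk_le_zero hs _
    _ = Fintype.card ι * hk s 0 := by rw [Finset.sum_const, Finset.card_univ, nsmul_eq_mul]

/-- Fourier coefficients of the smoothed density. -/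
lemma WJ3_fc3 {s : ℝ} (hs : 0 < s) (x : ι → T3) {n : Fin 3 → ℤ} (hn : n ≠ 0) :
    fc3 (fun z => ((nz s z x - Fintype.card ι : ℝ) : ℂ)) n
      = ((Real.exp (-(s * ksq n)) : ℝ) : ℂ) * ∑ j, conj (ch n (x j)) := by
  have hcj : Continuous fun z : T3 => conj (ch n z) :=
    Complex.continuous_conj.comp (ch_continuous n)
  have hint : ∀ j, Integrable (fun z => conj (ch n z) * ((hk s (z - x j) : ℝ) : ℂ)) lam3 := fun j => by
    refine Continuous.integrable_of_hasCompactSupport ?_ (HasCompactSupport.of_compactSpace _)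
    refine hcj.mul (Complex.continuous_ofReal.comp ?_)
    exact (hkD_continuous 0 hs).comp (continuous_id.sub continuous_const)
  have hint2 : Integrable (fun z => conj (ch n z) * (Fintype.card ι : ℂ)) lam3 := by
    refine Continuous.integrable_of_hasCompactSupport ?_ (HasCompactSupport.of_compactSpace _)
    exact hcj.mul continuous_const
  have h0 : ∫ z, conj (ch n z) ∂lam3 = 0 := by
    have h1 := HKE_int_ch (p := -n) (neg_ne_zero.2 hn)
    simpa only [ch_neg] using h1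
  have hj : ∀ j, ∫ z, conj (ch n z) * ((hk s (z - x j) : ℝ) : ℂ) ∂lam3
      = ((Real.exp (-(s * ksq n)) : ℝ) : ℂ) * conj (ch n (x j)) := fun j => by
    have h1 := integral_add_right_eq_self (μ := lam3)
      (fun z : T3 => conj (ch n z) * ((hk s (z - x j) : ℝ) : ℂ)) (x j)
    rw [← h1]
    have h2 := fc3_hk hs n
    unfold fc3 at h2
    rw [← h2, ← integral_mul_const]
    refine integral_congr_ae (Eventually.of_forall fun z => ?_)
    simp only [add_sub_cancel_right, ch_add_arg, map_mul]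
    ring
  unfold fc3 nz
  have e : ∀ z : T3, conj (ch n z) * (((∑ j, hk s (z - x j)) - Fintype.card ι : ℝ) : ℂ)
      = (∑ j, conj (ch n z) * ((hk s (z - x j) : ℝ) : ℂ)) - conj (ch n z) * (Fintype.card ι : ℂ) := by
    intro z
    push_cast
    rw [mul_sub, Finset.mul_sum]
  simp_rw [e]
  rw [integral_sub (integrable_finsetSum _ fun j _ => hint j) hint2,
    integral_finsetSum _ fun j _ => hint j, integral_mul_const, h0, zero_mul, sub_zero,
    Finset.mul_sum]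
  exact Finset.sum_congr rfl fun j _ => hj j

lemma WJ3_ksq {M : ℕ} {n : Fin 3 → ℤ} (hn : n ∈ bx M) : ksq n ≤ 120 * (M : ℝ) ^ 2 := by
  have h1 : mom2 n ≤ 3 * (M : ℝ) ^ 2 := by
    unfold mom2
    calc ∑ α, (n α : ℝ) ^ 2 ≤ ∑ _α : Fin 3, (M : ℝ) ^ 2 := by
          refine Finset.sum_le_sum fun α _ => ?_
          have h2 : |n α| ≤ (M : ℤ) := mem_bx.1 hn α
          have h3 : |(n α : ℝ)| ≤ (M : ℝ) := by exact_mod_cast h2
          rw [← sq_abs]
          exact pow_le_pow_left₀ (abs_nonneg _) h3 2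
      _ = 3 * (M : ℝ) ^ 2 := by
        rw [Finset.sum_const, Finset.card_univ, Fintype.card_fin, nsmul_eq_mul]; norm_num
  unfold ksq
  have hpi := Real.pi_lt_d2
  have hpi0 := Real.pi_pos
  have h4 : 4 * Real.pi ^ 2 ≤ 40 := by nlinarith
  calc 4 * Real.pi ^ 2 * mom2 n ≤ 4 * Real.pi ^ 2 * (3 * (M : ℝ) ^ 2) :=
        mul_le_mul_of_nonneg_left h1 (by positivity)
    _ ≤ 40 * (3 * (M : ℝ) ^ 2) := mul_le_mul_of_nonneg_right h4 (by positivity)
    _ = _ := by ring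

/-- Bessel inequality for the smoothed density. -/
theorem bessel_nz {T : ℝ} (hT : 0 < T) {M : ℕ} (hTM : T * (120 * (M : ℝ) ^ 2) ≤ 1 / 2)
    (x : ι → T3) :
    1 / 2 * ∑ n ∈ (bx M).erase 0, ‖∑ j, ch n (x j)‖ ^ 2
      ≤ ∫ z, (nz (T / 2) z x - Fintype.card ι) ^ 2 ∂lam3 := by
  have hs : 0 < T / 2 := by positivity
  set F : T3 → ℂ := fun z => ((nz (T / 2) z x - Fintype.card ι : ℝ) : ℂ) with hF
  have hFc : Continuous F := Complex.continuous_ofReal.comp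
    ((WJ3_cont1 hs x).sub continuous_const)
  have hFm : MemLp F 2 lam3 := by
    obtain ⟨C, hC⟩ := IsCompact.exists_bound_of_continuousOn (isCompact_univ (X := T3)) hFc.continuousOn
    exact MemLp.of_bound hFc.aestronglyMeasurable C (Eventually.of_forall fun z => hC z (mem_univ z))
  have h1 := sum_le_hasSum ((bx M).erase 0) (fun i _ => sq_nonneg _) (parseval3_sq hFm)
  have h2 : ∫ z, ‖F z‖ ^ 2 ∂lam3 = ∫ z, (nz (T / 2) z x - Fintype.card ι) ^ 2 ∂lam3 := by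
    refine integral_congr_ae (Eventually.of_forall fun z => ?_)
    simp only [hF]
    rw [Complex.norm_real, Real.norm_eq_abs, sq_abs]
  rw [h2] at h1
  refine le_trans ?_ h1
  rw [Finset.mul_sum]
  refine Finset.sum_le_sum fun n hn => ?_
  obtain ⟨hn0, hnb⟩ := Finset.mem_erase.1 hn
  rw [hF, WJ3_fc3 hs x hn0, norm_mul, mul_pow, Complex.norm_real, Real.norm_eq_abs,
    abs_of_pos (Real.exp_pos _), ← map_sum, RCLike.norm_conj, ← Real.exp_nat_mul]
  refine mul_le_mul_of_nonneg_right ?_ (sq_nonneg _)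
  have h3 := WJ3_ksq hnb
  have h4 : T * ksq n ≤ 1 / 2 := (mul_le_mul_of_nonneg_left h3 hT.le).trans hTM
  have h5 := Real.add_one_le_exp ((2 : ℕ) * -(T / 2 * ksq n))
  push_cast at h5 ⊢
  linarith

theorem vb_le {T : ℝ} (hT : 0 < T) {M : ℕ} (hTM : T * (120 * (M : ℝ) ^ 2) ≤ 1 / 2)
    (hN : 1 ≤ Fintype.card ι) (f : HS ι) :
    vb M f ≤ 2 * VV (T / 2) (f : (ι → T3) → ℂ) / (Fintype.card ι : ℝ) ^ 2 := by
  have hs : 0 < T / 2 := by positivity
  unfold vb
  refine div_le_div_of_nonneg_right ?_ (sq_nonneg _)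
  have hbm : ∀ n : Fin 3 → ℤ, BM fun x : ι → T3 => ‖∑ j, ch n (x j)‖ ^ 2 := fun n => by
    have hc : Continuous fun x : ι → T3 => ‖∑ j, ch n (x j)‖ ^ 2 :=
      (continuous_finsetSum _ fun j _ => (ch_continuous n).comp (continuous_apply j)).norm.pow 2
    refine ⟨hc.measurable, (Fintype.card ι : ℝ) ^ 2, fun x => ?_⟩
    rw [abs_of_nonneg (sq_nonneg _)]
    refine pow_le_pow_left₀ (norm_nonneg _) ?_ 2
    refine (norm_sum_le _ _).trans (le_of_eq ?_)
    simp only [ch_norm, Finset.sum_const, Finset.card_univ, nsmul_eq_mul, mul_one]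
  have h1 : ∑ n ∈ (bx M).erase 0, Dn f n
      = ∫ x, (∑ n ∈ (bx M).erase 0, ‖∑ j, ch n (x j)‖ ^ 2) * ‖f x‖ ^ 2 ∂(piN ι) := by
    unfold Dn
    rw [← qf_sum _ (fun n _ => hbm n)]
    rfl
  -- the function of both variables
  have hint : Integrable (uncurry fun (x : ι → T3) (z : T3) =>
      ‖f x‖ ^ 2 * (nz (T / 2) z x - Fintype.card ι) ^ 2) ((piN ι).prod lam3) := by
    have h2 : Integrable (fun q : (ι → T3) × T3 => ‖f q.1‖ ^ 2) ((piN ι).prod lam3) :=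
      (integrable_norm_sq f).comp_fst lam3
    have h3 : Continuous fun q : (ι → T3) × T3 => (nz (T / 2) q.2 q.1 - Fintype.card ι) ^ 2 :=
      ((WJ3_cont hs).sub continuous_const).pow 2
    refine h2.mul_bdd (c := (Fintype.card ι * hk (T / 2) 0 + Fintype.card ι) ^ 2)
      h3.aestronglyMeasurable (Eventually.of_forall fun q => ?_)
    rw [Real.norm_eq_abs, abs_of_nonneg (sq_nonneg _)]
    have h4 := WJ3_nz_nonneg (T / 2) q.2 q.1
    have h5 := WJ3_nz_le hs q.2 q.1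
    have h6 : (0:ℝ) ≤ Fintype.card ι := Nat.cast_nonneg _
    have h7 := mul_nonneg h6 (hk_nonneg (T / 2) (0 : T3))
    refine sq_le_sq' ?_ ?_ <;> linarith
  have hVV : VV (T / 2) (f : (ι → T3) → ℂ)
      = ∫ x, ‖f x‖ ^ 2 * (∫ z, (nz (T / 2) z x - Fintype.card ι) ^ 2 ∂lam3) ∂(piN ι) := by
    unfold VV
    rw [← integral_integral_swap hint]
    refine integral_congr_ae (Eventually.of_forall fun x => ?_)
    simp only
    rw [integral_const_mul]
  rw [h1, hVV, ← integral_const_mul]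
  refine integral_mono_of_nonneg (Eventually.of_forall fun x => by positivity) ?_
    (Eventually.of_forall fun x => ?_)
  · have h2 := hint.integral_prod_left
    simp only [uncurry] at h2
    refine (h2.const_mul 2).congr (Eventually.of_forall fun x => ?_)
    simp only
    rw [integral_const_mul]
  · simp only
    have h2 := bessel_nz hT hTM x
    have h3 : 0 ≤ ‖f x‖ ^ 2 := sq_nonneg _
    nlinarith [mul_le_mul_of_nonneg_left h2 h3]

end Pool.Agent.Lib.MP_4952d6_mp.O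

end

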