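import Pool.Agent.Lib.MP_4952d6_mp.Po.N02
import Pool.Agent.Lib.MP_4952d6_mp.Po.N07
import Pool.Agent.Lib.MP_4952d6_mp.Po.N10
import Pool.Agent.Lib.MP_4952d6_mp.Po.N13
import Pool.Agent.Lib.MP_4952d6_mp.Po.N17
import Pool.Agent.Lib.MP_4952d6_mp.Po.N21

/-! Merged modules (to save import time): O.XJ, O.EX2. -/

/-! ### O.XJ -/

section

/-!
# O.XJ: second sum of error operators (moved particle `j`, average over `l`)

Fix `j`. `E_l = EEO τ T h j l (PP1 T l ψ)`; `EEO_pt` with `a = j`, `b = l`: `‖E_l x‖² ≤ k_l² dd (2T) j (PP1 T l ψ) x`,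
`k_l = C H hk(4τ)(x_l - x_j) = C H hk(4τ)(x_j - x_l)` (`hk_neg`). `norm_sum_sq_le`, `dd_int` (each term is
`dfm (2T) j (k_m k_l) (PP1 T l ψ)`), `dfm_smul`, and `dfm_PP1` with `a = j ≠ l = b`, `s = T`:
`dfm (2T) j (cvj (hk(T/2)) l (hk(4τ)(x_j-x_m) hk(4τ)(x_j-x_l))) ψ`.
`m ≠ l`: `XW_three`: `= hk(4τ)(x_j-x_m) hk(T/2+4τ)(x_j-x_l)`; the outer sum is over `j` already; `dfm_three` with `a = j`, total `C H² MD`.
`m = l`: `XW_four`: `≤ 8(√(4τ))⁻¹³ hk(T/2+4τ)(x_j-x_l)`; `dfm_two`: total `C H² (√τ)⁻¹³ MD/N`.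
All times are in `[t/8, 64T]`.
-/

set_option autoImplicit false
set_option linter.unusedSectionVars false
set_option linter.unusedVariables false
open MeasureTheory Function Filter Topology Set ComplexConjugate

namespace Pool.Agent.Lib.MP_4952d6_mp.O

open LB

lemma XJ_inv {τ : ℝ} (hτ : 0 < τ) : (Real.sqrt (4 * τ))⁻¹ ^ 3 ≤ (Real.sqrt τ)⁻¹ ^ 3 := by
  have h1 : 0 < Real.sqrt τ := Real.sqrt_pos.2 hτ
  have h2 : Real.sqrt τ ≤ Real.sqrt (4 * τ) := Real.sqrt_le_sqrt (by linarith)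
  exact pow_le_pow_left₀ (by positivity) (inv_anti₀ h1 h2) 3

lemma XJ_diag {N : ℕ} {T τ : ℝ} (hT : 0 < T) (hτ : 0 < τ) (h4 : 4 * τ ≤ 1) {j l : Fin N}
    (hjl : j ≠ l) (ψ : HS (Fin N)) :
    dfm (2 * T) j (fun x => hk (4 * τ) (x j - x l) * hk (4 * τ) (x j - x l))
        (PP1 T l ψ : HS (Fin N))
      ≤ 8 * (Real.sqrt τ)⁻¹ ^ 3
        * dfm (2 * T) j (fun x => hk (T / 2 + 4 * τ) (x j - x l)) (ψ : (Fin N → T3) → ℂ) := by
  have h4τ : 0 < 4 * τ := by linarith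
  have hT2 : 0 < T / 2 := by linarith
  have hG : BM (fun x : Fin N → T3 => hk (4 * τ) (x j - x l) * hk (4 * τ) (x j - x l)) :=
    (bm_diff (hk_bm h4τ) j l).mul (bm_diff (hk_bm h4τ) j l)
  refine (dfm_PP1 (by linarith) hT hjl hG
    (fun x => mul_nonneg (hk_nonneg _ _) (hk_nonneg _ _)) ψ).trans ?_
  refine dfm_le_smul (by linarith) j (cvj_bm (hk_bm hT2) l hG)
    (bm_diff (hk_bm (by linarith)) j l) (fun x => ?_) ψ
  refine (XW_four hT2 h4τ h4 hjl x).trans ?_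
  exact mul_le_mul_of_nonneg_right (mul_le_mul_of_nonneg_left (XJ_inv hτ) (by norm_num))
    (hk_nonneg _ _)

lemma XJ_off {N : ℕ} {T τ : ℝ} (hT : 0 < T) (hτ : 0 < τ) {j l m : Fin N}
    (hjl : j ≠ l) (hlm : l ≠ m) (ψ : HS (Fin N)) :
    dfm (2 * T) j (fun x => hk (4 * τ) (x j - x m) * hk (4 * τ) (x j - x l))
        (PP1 T l ψ : HS (Fin N))
      ≤ dfm (2 * T) j (fun x => hk (T / 2 + 4 * τ) (x j - x l) * hk (4 * τ) (x j - x m))
          (ψ : (Fin N → T3) → ℂ) := by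
  have h4τ : 0 < 4 * τ := by linarith
  have hT2 : 0 < T / 2 := by linarith
  have hG : BM (fun x : Fin N → T3 => hk (4 * τ) (x j - x m) * hk (4 * τ) (x j - x l)) :=
    (bm_diff (hk_bm h4τ) j m).mul (bm_diff (hk_bm h4τ) j l)
  have hG0 : ∀ x : Fin N → T3, 0 ≤ hk (4 * τ) (x j - x m) * hk (4 * τ) (x j - x l) :=
    fun x => mul_nonneg (hk_nonneg _ _) (hk_nonneg _ _)
  refine (dfm_PP1 (by linarith) hT hjl hG hG0 ψ).trans (le_of_eq ?_)
  congr 1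
  funext x
  rw [XW_three hT2 h4τ h4τ hjl hlm x, mul_comm]

lemma XJ_term {N : ℕ} {T τ c : ℝ} (hT : 0 < T) (hτ : 0 < τ) (j l m : Fin N) (g : HS (Fin N)) :
    ∫ x, ((c * hk (4 * τ) (x m - x j)) * (c * hk (4 * τ) (x l - x j))) * dd (2 * T) j g x
        ∂(piN (Fin N))
      = c ^ 2 * dfm (2 * T) j (fun x => hk (4 * τ) (x j - x m) * hk (4 * τ) (x j - x l))
          (g : (Fin N → T3) → ℂ) := by
  have h4τ : 0 < 4 * τ := by linarith
  have hG : BM (fun x : Fin N → T3 =>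
      (c * hk (4 * τ) (x m - x j)) * (c * hk (4 * τ) (x l - x j))) :=
    ((bm_diff (hk_bm h4τ) m j).const_mul c).mul ((bm_diff (hk_bm h4τ) l j).const_mul c)
  rw [(dd_int (by linarith : 0 < 2 * T) j hG g).2, ← dfm_smul]
  congr 1
  funext x
  rw [← hk_neg (4 * τ) (x m - x j), ← hk_neg (4 * τ) (x l - x j), neg_sub, neg_sub]
  ring

theorem EE_sum2 : ∃ C : ℝ, 0 ≤ C ∧ ∀ (N : ℕ) (t T τ H R MD : ℝ) (h : T3 → ℝ), 0 < N → 0 < t →
    4 * t ≤ T → 64 * T ≤ 1 → t ≤ τ → τ ≤ T → SR H R h → 0 ≤ R → R ^ 2 ≤ t / 8 →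
    ∀ ψ : HS (Fin N), DBd t T MD ψ →
    ∑ j, ‖∑ l ∈ Finset.univ.erase j, EEO τ T h j l (PP1 T l ψ)‖ ^ 2
      ≤ C * H ^ 2 * ((Real.sqrt τ)⁻¹ ^ 3 / N + 1) * MD := by
  obtain ⟨C0, hC0, hE⟩ := EEO_pt
  refine ⟨C0 ^ 2 * 9, by positivity, ?_⟩
  intro N t T τ H R MD h hN ht htT hT1 htτ hτT hh hR hRt ψ hD
  have hτ : 0 < τ := by linarith
  have hT : 0 < T := by linarith
  have hN0 : (0 : ℝ) < N := by exact_mod_cast hN
  have h4 : 4 * τ ≤ 1 := by linarith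
  have hMD : 0 ≤ MD := hD.nonneg ht (by linarith)
  have h4τ : 0 < 4 * τ := by linarith
  set A : ℝ := 8 * (Real.sqrt τ)⁻¹ ^ 3 with hA
  have hA0 : 0 ≤ A := by positivity
  set F : Fin N → Fin N → ℝ := fun j l =>
    dfm (2 * T) j (fun x => hk (T / 2 + 4 * τ) (x j - x l)) (ψ : (Fin N → T3) → ℂ) with hF
  set G : Fin N → Fin N → Fin N → ℝ := fun j l m =>
    dfm (2 * T) j (fun x => hk (T / 2 + 4 * τ) (x j - x l) * hk (4 * τ) (x j - x m))
      (ψ : (Fin N → T3) → ℂ) with hG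
  have hj : ∀ j, ‖∑ l ∈ Finset.univ.erase j, EEO τ T h j l (PP1 T l ψ)‖ ^ 2
      ≤ (C0 * H) ^ 2 * (A * ∑ l ∈ Finset.univ.erase j, F j l
        + ∑ l ∈ Finset.univ.erase j, ∑ m ∈ (Finset.univ.erase j).erase l, G j l m) := by
    intro j
    have h1 := norm_sum_sq_le (Finset.univ.erase j) (fun l => EEO τ T h j l (PP1 T l ψ))
      (fun l x => C0 * H * hk (4 * τ) (x l - x j)) (fun l x => dd (2 * T) j (PP1 T l ψ) x)
      (fun l _ => (bm_diff (hk_bm h4τ) l j).const_mul _)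
      (fun l _ x => mul_nonneg (mul_nonneg hC0 (WtB_H hh)) (hk_nonneg _ _))
      (fun l _ x => dd_nonneg _ _ _ _)
      (fun l _ => dd_integrable (by linarith) j _)
      (fun l hl => hE N τ T H R h j l hτ hτT hh hR (by linarith) (Finset.ne_of_mem_erase hl).symm
        (PP1 T l ψ))
    refine h1.trans ?_
    rw [Finset.mul_sum, ← Finset.sum_add_distrib, Finset.mul_sum]
    refine Finset.sum_le_sum fun l hl => ?_
    have hlj : j ≠ l := (Finset.ne_of_mem_erase hl).symm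
    rw [← Finset.add_sum_erase _ _ hl, mul_add]
    refine add_le_add ?_ ?_
    · rw [XJ_term hT hτ]
      exact mul_le_mul_of_nonneg_left (XJ_diag hT hτ h4 hlj ψ) (sq_nonneg _)
    · rw [Finset.mul_sum]
      refine Finset.sum_le_sum fun m hm => ?_
      have hml : l ≠ m := (Finset.ne_of_mem_erase hm).symm
      rw [XJ_term hT hτ]
      exact mul_le_mul_of_nonneg_left (XJ_off hT hτ hlj hml ψ) (sq_nonneg _)
  have hsum1 : ∑ j, ∑ l ∈ Finset.univ.erase j, F j l ≤ 1 / N * MD := by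
    have h1 : ∀ j, ∑ l ∈ Finset.univ.erase j, F j l ≤
        1 / N * dfm (2 * T) j (fun x => (crowd (T / 2 + 4 * τ) j x + N) ^ 2) ψ := fun j =>
      dfm_two (by linarith) (by linarith) hN j ψ
    refine (Finset.sum_le_sum fun j _ => h1 j).trans ?_
    rw [← Finset.mul_sum]
    exact mul_le_mul_of_nonneg_left (hD (2 * T) (T / 2 + 4 * τ) (by linarith) (by linarith)
      (by linarith) (by linarith)) (by positivity)
  have hsum2 : ∑ j, ∑ l ∈ Finset.univ.erase j, ∑ m ∈ (Finset.univ.erase j).erase l, G j l m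
      ≤ MD := by
    have h1 : ∀ j, ∑ l ∈ Finset.univ.erase j, ∑ m ∈ (Finset.univ.erase j).erase l, G j l m ≤
        1 / 2 * dfm (2 * T) j (fun x => (crowd (T / 2 + 4 * τ) j x + N) ^ 2) ψ
          + 1 / 2 * dfm (2 * T) j (fun x => (crowd (4 * τ) j x + N) ^ 2) ψ := fun j =>
      dfm_three (by linarith) (by linarith) (by linarith) j ψ
    refine (Finset.sum_le_sum fun j _ => h1 j).trans ?_
    rw [Finset.sum_add_distrib, ← Finset.mul_sum, ← Finset.mul_sum]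
    have h2 := hD (2 * T) (T / 2 + 4 * τ) (by linarith) (by linarith) (by linarith) (by linarith)
    have h3 := hD (2 * T) (4 * τ) (by linarith) (by linarith) (by linarith) (by linarith)
    linarith
  refine (Finset.sum_le_sum fun j _ => hj j).trans ?_
  rw [← Finset.mul_sum, Finset.sum_add_distrib, ← Finset.mul_sum]
  have h1 := mul_le_mul_of_nonneg_left hsum1 hA0
  have h3 : (C0 * H) ^ 2 * (A * ∑ j, ∑ l ∈ Finset.univ.erase j, F j l
      + ∑ j, ∑ l ∈ Finset.univ.erase j, ∑ m ∈ (Finset.univ.erase j).erase l, G j l m)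
      ≤ (C0 * H) ^ 2 * (A * (1 / N * MD) + MD) :=
    mul_le_mul_of_nonneg_left (add_le_add h1 hsum2) (sq_nonneg _)
  refine h3.trans ?_
  have h5 : A * (1 / N * MD) + MD ≤ 9 * ((Real.sqrt τ)⁻¹ ^ 3 / N + 1) * MD := by
    have h6 : 0 ≤ (Real.sqrt τ)⁻¹ ^ 3 / N * MD := by positivity
    have h7 : A * (1 / N * MD) = 8 * ((Real.sqrt τ)⁻¹ ^ 3 / N * MD) := by
      rw [hA]
      ring
    rw [h7]
    nlinarith
  calc (C0 * H) ^ 2 * (A * (1 / N * MD) + MD)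
      ≤ (C0 * H) ^ 2 * (9 * ((Real.sqrt τ)⁻¹ ^ 3 / N + 1) * MD) :=
        mul_le_mul_of_nonneg_left h5 (sq_nonneg _)
    _ = _ := by ring

end Pool.Agent.Lib.MP_4952d6_mp.O

end

/-! ### O.EX2 -/

section

/-!
# O.EX2: (X2) of the notes, `Z_j = ∑_l (P_l - P_j) h_{jl} Φ⁰_{jl}`
-/

set_option autoImplicit false
set_option linter.unusedSectionVars false
set_option linter.unusedVariables false
open MeasureTheory Function Filter Topology Set ComplexConjugate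

namespace Pool.Agent.Lib.MP_4952d6_mp.O

open LB

theorem X2_bound : ∃ C : ℝ, 0 ≤ C ∧ ∀ (N : ℕ) (t T H R MD : ℝ) (h : T3 → ℝ), 0 < N → 0 < t →
    4 * t ≤ T → 64 * T ≤ 1 → SR H R h → 0 ≤ R → R ^ 2 ≤ t / 8 → ∀ ψ : HS (Fin N), DBd t T MD ψ →
    ∑ j, ‖ZO t T h ψ j‖ ^ 2 ≤ C * H ^ 2 * ((Real.sqrt t)⁻¹ ^ 3 / N + 1) * MD := by
  obtain ⟨C1, hC1, h1⟩ := EE_sum1
  obtain ⟨C2, hC2, h2⟩ := EE_sum2
  obtain ⟨C3, hC3, h3⟩ := HPc_sum1
  obtain ⟨C4, hC4, h4⟩ := HPc_sum2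
  refine ⟨4 * (C1 + C2 + C3 + C4), by positivity, ?_⟩
  intro N t T H R MD h hN ht htT hT hh hR hR2 ψ hD
  have hT0 : 0 < T := by linarith
  have hMD := hD.nonneg ht (by linarith)
  have ht2 : 0 < t / 2 := by linarith
  have bχ : BM (cn (hk (t / 2)) h) := cn_bm (hk_bm ht2) hh.bm
  have eχ : ∀ z, cn (hk (t / 2)) h (-z) = cn (hk (t / 2)) h z :=
    cn_neg (fun z => hk_neg _ z) hh.even
  have e : ∀ j, ZO t T h ψ j =
      ((∑ l ∈ Finset.univ.erase j, EEO t T h l j (PP1 T j ψ))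
        - ∑ l ∈ Finset.univ.erase j, EEO t T h j l (PP1 T l ψ))
      + ((∑ l ∈ Finset.univ.erase j, HP (cn (hk (t / 2)) h) j l (QQ1 T l ψ))
        - ∑ l ∈ Finset.univ.erase j, HP (cn (hk (t / 2)) h) j l (QQ1 T j ψ)) := by
    intro j
    unfold ZO
    rw [← Finset.sum_sub_distrib, ← Finset.sum_sub_distrib, ← Finset.sum_add_distrib]
    refine Finset.sum_congr rfl fun l _ => ?_
    have e1 : Phi T j l ψ = PP1 T l (PP1 T j ψ) := S1_comm (bdm_et hT0.le) (bdm_et hT0.le) j l ψ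
    have e2 : PP1 t j (HP h j l (Phi T j l ψ))
        = EEO t T h j l (PP1 T l ψ) + HP (cn (hk (t / 2)) h) j l (PP1 T l ψ) := by
      unfold EEO Phi
      rw [HP_swap hh.even l j, HP_swap eχ l j, sub_add_cancel]
    have e3 : PP1 t l (HP h j l (Phi T j l ψ))
        = EEO t T h l j (PP1 T j ψ) + HP (cn (hk (t / 2)) h) j l (PP1 T j ψ) := by
      rw [e1]
      unfold EEO
      rw [sub_add_cancel]
    have e4 : HP (cn (hk (t / 2)) h) j l (PP1 T j ψ) - HP (cn (hk (t / 2)) h) j l (PP1 T l ψ)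
        = HP (cn (hk (t / 2)) h) j l (QQ1 T l ψ) - HP (cn (hk (t / 2)) h) j l (QQ1 T j ψ) := by
      rw [← map_sub, ← map_sub, XP_diff hT0.le]
    rw [e2, e3, ← e4]
    abel
  have hK : 0 ≤ (Real.sqrt t)⁻¹ ^ 3 / N + 1 := by positivity
  have hK1 : 1 ≤ (Real.sqrt t)⁻¹ ^ 3 / N + 1 := by
    have : 0 ≤ (Real.sqrt t)⁻¹ ^ 3 / N := by positivity
    linarith
  have a1 := h1 N t T t H R MD h hN ht htT hT le_rfl (by linarith) hh hR hR2 ψ hD
  have a2 := h2 N t T t H R MD h hN ht htT hT le_rfl (by linarith) hh hR hR2 ψ hD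
  have a3 := h3 N t H R h ht (by linarith) hh hR hR2 (fun j => QQ1 T j ψ)
  have a4 := h4 N t H R h hN ht (by linarith) hh hR hR2 (fun l => QQ1 T l ψ)
  have b3 : ∑ j, cw t j (QQ1 T j ψ) ≤ MD :=
    cw_QQ1_le hT0 (by linarith) ht (by linarith) (by linarith) hD
  have b4 : ∑ l, cw (4 * t) l (QQ1 T l ψ) ≤ MD :=
    cw_QQ1_le hT0 (by linarith) ht (by linarith) (by linarith) hD
  have d3 : C3 * H ^ 2 * ∑ j, cw t j (QQ1 T j ψ)
      ≤ C3 * H ^ 2 * ((Real.sqrt t)⁻¹ ^ 3 / N + 1) * MD := by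
    calc C3 * H ^ 2 * ∑ j, cw t j (QQ1 T j ψ) ≤ C3 * H ^ 2 * (1 * MD) :=
          mul_le_mul_of_nonneg_left (by linarith) (by positivity)
      _ ≤ C3 * H ^ 2 * (((Real.sqrt t)⁻¹ ^ 3 / N + 1) * MD) :=
          mul_le_mul_of_nonneg_left (mul_le_mul_of_nonneg_right hK1 hMD) (by positivity)
      _ = _ := by ring
  have d4 : C4 * H ^ 2 * ((Real.sqrt t)⁻¹ ^ 3 / N + 1) * ∑ l, cw (4 * t) l (QQ1 T l ψ)
      ≤ C4 * H ^ 2 * ((Real.sqrt t)⁻¹ ^ 3 / N + 1) * MD :=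
    mul_le_mul_of_nonneg_left b4 (by positivity)
  have c1 : ∑ j, ‖ZO t T h ψ j‖ ^ 2
      ≤ 4 * (∑ j, ‖∑ l ∈ Finset.univ.erase j, EEO t T h l j (PP1 T j ψ)‖ ^ 2)
        + 4 * (∑ j, ‖∑ l ∈ Finset.univ.erase j, EEO t T h j l (PP1 T l ψ)‖ ^ 2)
        + (4 * (∑ j, ‖∑ l ∈ Finset.univ.erase j, HP (cn (hk (t / 2)) h) j l (QQ1 T l ψ)‖ ^ 2)
        + 4 * ∑ j, ‖∑ l ∈ Finset.univ.erase j, HP (cn (hk (t / 2)) h) j l (QQ1 T j ψ)‖ ^ 2) := by
    simp only [Finset.mul_sum]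
    rw [← Finset.sum_add_distrib, ← Finset.sum_add_distrib, ← Finset.sum_add_distrib]
    refine Finset.sum_le_sum fun j _ => ?_
    rw [e j]
    refine (XP_norm_two _ _).trans ?_
    have x1 := XP_norm_two' (∑ l ∈ Finset.univ.erase j, EEO t T h l j (PP1 T j ψ))
      (∑ l ∈ Finset.univ.erase j, EEO t T h j l (PP1 T l ψ))
    have x2 := XP_norm_two' (∑ l ∈ Finset.univ.erase j, HP (cn (hk (t / 2)) h) j l (QQ1 T l ψ))
      (∑ l ∈ Finset.univ.erase j, HP (cn (hk (t / 2)) h) j l (QQ1 T j ψ))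
    linarith
  calc ∑ j, ‖ZO t T h ψ j‖ ^ 2 ≤ _ := c1
    _ ≤ 4 * (C1 * H ^ 2 * ((Real.sqrt t)⁻¹ ^ 3 / N + 1) * MD)
        + 4 * (C2 * H ^ 2 * ((Real.sqrt t)⁻¹ ^ 3 / N + 1) * MD)
        + (4 * (C4 * H ^ 2 * ((Real.sqrt t)⁻¹ ^ 3 / N + 1) * MD)
        + 4 * (C3 * H ^ 2 * ((Real.sqrt t)⁻¹ ^ 3 / N + 1) * MD)) := by linarith
    _ = _ := by ring

end Pool.Agent.Lib.MP_4952d6_mp.O

end

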