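import Pool.Agent.Lib.MP_4952d6_mp.Po.N06
import Pool.Agent.Lib.MP_4952d6_mp.Po.N15
import Pool.Agent.Lib.MP_4952d6_mp.Po.N18
import Pool.Agent.Lib.MP_4952d6_mp.Po.N19
import Pool.Agent.Lib.MP_4952d6_mp.Po.N22
import Pool.Agent.Lib.MP_4952d6_mp.Po.N23
import Pool.Agent.Lib.MP_4952d6_mp.Po.N24

/-! Merged modules (to save import time): O.E8, O.E10a, O.E10b. -/

/-! ### O.E8 -/

section

/-!
# O.E8: elimination of the high momenta

`elO1` (with `M = N H`), `quadO`, `X1_bound` .. `X4_bound`, `massO`, `massD`. Model: `LB.Elim.elim` / `Elim_arith`.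
From `elO1` subtract `(1/2) ∑∑ qf k Φ` on both sides and use `elC_two`:
`∑∑ qf h Φ - (1/2) ∑∑ qf k Φ ≥ (1/2)(1-δ₁) ∑∑ qf h Φ + (1/2) ∑∑ qf (h w) Φ`. With `p4`, `p5` (`qf_pair_mono`):
`(1/2) qf (h w) Φ - (1/4) qf (h KK) Φ ≥ (1/4)(A₁ - ε₄) qf h Φ`, `(1/4) qf (h ∫_{t/2}^t) Φ⁰ ≤ (1/4)(A₁ - A₂ + ε₅) qf h Φ⁰`, and
`qf h Φ ≥ (1 - θ) qf h Φ⁰ - (1/θ) qf h Φ¹` (`Φ = Φ⁰ + Φ¹`), `0 ≤ A₁ ≤ H/√t`; `h KK ≤ h (2 w + ε₄) ≤ (4 + ε₄) h` for the term `4e`.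
-/

set_option autoImplicit false
set_option linter.unusedSectionVars false
set_option linter.unusedVariables false
open MeasureTheory Function Filter Topology Set ComplexConjugate

namespace Pool.Agent.Lib.MP_4952d6_mp.O

open LB

/-- Error of the elimination. -/
noncomputable def elErrO (N : ℕ) (t T e th H ε MD M0 MV : ℝ) : ℝ :=
  H * M0 * (t * H * (Real.sqrt T)⁻¹ ^ 3 + H / Real.sqrt t * (th + e) + ε)
    + H / N * MD * (H / (Real.sqrt t * th) + e)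
    + t * H ^ 2 * MD
    + t / e * (H ^ 2 * (((Real.sqrt t)⁻¹ ^ 3 / N + 1) * MD + MV + (Real.sqrt T)⁻¹ ^ 6 * N))

/-- the inequality `|f + g|² ≥ (1 - θ) |f|² - (1/θ) |g|²` -/
private lemma E8_young {N : ℕ} {G : (Fin N → T3) → ℝ} (hG : BM G) (hG0 : ∀ x, 0 ≤ G x) {th : ℝ}
    (hth : 0 < th) (f g : HS (Fin N)) :
    (1 - th) * qf G f - 1 / th * qf G g ≤ qf G (f + g) := by
  rw [qf_add_eq hG f g]
  have h1 := (abs_le.1 (abs_inner_MB_le hG hG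
    (Eventually.of_forall fun x => (abs_of_nonneg (hG0 x)).le) hth f g)).1
  have h2 := qf_nonneg hG0 g
  have h3 : 1 / (2 * th) * qf G g = 1 / 2 * (1 / th * qf G g) := by
    field_simp
  rw [h3] at h1
  linarith

private lemma E8_h {TE WW ZZ YY UU C1 C2 C3 C4 X g MD MV Z6 : ℝ} (hTE : 0 ≤ TE)
    (hC1 : 0 ≤ C1) (hC2 : 0 ≤ C2) (hC3 : 0 ≤ C3) (hC4 : 0 ≤ C4) (hX : 0 ≤ X) (hg : 0 ≤ g)
    (hMD : 0 ≤ MD) (hMV : 0 ≤ MV) (hZ6 : 0 ≤ Z6)
    (h1 : WW ≤ C1 * X * g * MD) (h2 : ZZ ≤ C2 * X * g * MD) (h3 : YY ≤ C3 * X * g * MD)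
    (h4 : UU ≤ C4 * X * (MV + Z6)) :
    4 * TE * (WW + ZZ + YY + UU) ≤ 4 * (C1 + C2 + C3 + C4) * (TE * (X * (g * MD + MV + Z6))) := by
  have e1 : WW + ZZ + YY + UU ≤ (C1 + C2 + C3 + C4) * (X * (g * MD + MV + Z6)) := by
    have e2 : (C1 + C2 + C3 + C4) * (X * (g * MD + MV + Z6)) =
        (C1 * X * g * MD + C2 * X * g * MD + C3 * X * g * MD + C4 * X * (MV + Z6)) +
          ((C1 + C2 + C3) * X * (MV + Z6) + C4 * X * g * MD) := by ring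
    have e3 : 0 ≤ (C1 + C2 + C3) * X * (MV + Z6) + C4 * X * g * MD := by positivity
    linarith
  have e4 := mul_le_mul_of_nonneg_left e1 (show 0 ≤ 4 * TE by positivity)
  linarith

/-- the arithmetic of the elimination -/
private lemma E8_arith {TL QT HF Kq TI QU XX HW H0 H1 R0 KF KD Cq Cm Cd Cx
    n t e th H ε δ₁ A₁ A₂ M0 MD r3 s K : ℝ} (hCq : 0 ≤ Cq) (hCm : 0 ≤ Cm) (hCd : 0 ≤ Cd)
    (hCx : 0 ≤ Cx) (hn : 0 < n) (ht : 0 < t) (he0 : 0 < e) (hth : 0 < th) (hs : 0 < s)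
    (hH : 0 ≤ H) (hε : 0 ≤ ε) (hr3 : 0 ≤ r3) (hM0 : 0 ≤ M0) (hMD : 0 ≤ MD) (hK : 0 ≤ K)
    (hH0 : 0 ≤ H0) (hH1 : 0 ≤ H1) (hA₁ : 0 ≤ A₁)
    (hA : TL + QT + HF - 1 / 4 * QU - XX ≤ TI)
    (hQ : QU ≤ R0 + KF + 4 * e * KD + Cq * (t * H * r3 + H / s * (th + e)) * (HF + H0)
      + Cq * H / (s * th) * H1 + Cq * t * H ^ 2 * MD)
    (h2 : HW + (1 - δ₁) * HF ≤ 2 * HF - Kq)
    (hKF : KF ≤ 2 * HW + (ε - A₁) * HF) (hKD : KD ≤ 5 * H1)
    (hR0 : R0 ≤ (A₁ - A₂ + ε) * H0)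
    (hY : (1 - th) * H0 - 1 / th * H1 ≤ HF) (hAs : A₁ ≤ H / s)
    (hmF : HF ≤ Cm * H * M0) (hm0 : H0 ≤ Cm * H * M0) (hmD : H1 ≤ Cd * (H / n) * MD)
    (hX : XX ≤ Cx * K) :
    TL + QT + (1 - δ₁) / 2 * HF + 1 / 4 * A₂ * H0
      - (Cq * Cm + Cq * Cd + Cq + 5 * Cd + Cm + Cx)
        * (H * M0 * (t * H * r3 + H / s * (th + e) + ε) + H / n * MD * (H / (s * th) + e)
          + t * H ^ 2 * MD + K) ≤ TI - 1 / 2 * Kq := by
  obtain ⟨E1, hE1⟩ : ∃ E1, E1 = H * M0 * (t * H * r3 + H / s * (th + e)) := ⟨_, rfl⟩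
  obtain ⟨E2, hE2⟩ : ∃ E2, E2 = H * M0 * (H / s * th) := ⟨_, rfl⟩
  obtain ⟨E4, hE4⟩ : ∃ E4, E4 = H * M0 * ε := ⟨_, rfl⟩
  obtain ⟨F1, hF1⟩ : ∃ F1, F1 = H / n * MD * (H / (s * th)) := ⟨_, rfl⟩
  obtain ⟨F2, hF2⟩ : ∃ F2, F2 = H / n * MD * e := ⟨_, rfl⟩
  obtain ⟨G, hG⟩ : ∃ G, G = t * H ^ 2 * MD := ⟨_, rfl⟩
  have p1 : 0 ≤ E1 := by rw [hE1]; positivity
  have p2 : 0 ≤ E2 := by rw [hE2]; positivity
  have p4 : 0 ≤ E4 := by rw [hE4]; positivity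
  have q1 : 0 ≤ F1 := by rw [hF1]; positivity
  have q2 : 0 ≤ F2 := by rw [hF2]; positivity
  have g1 : 0 ≤ G := by rw [hG]; positivity
  have p12 : E2 ≤ E1 := by
    rw [hE1, hE2]
    refine mul_le_mul_of_nonneg_left ?_ (by positivity)
    have : 0 ≤ t * H * r3 + H / s * e := by positivity
    linarith
  have hsum : H * M0 * (t * H * r3 + H / s * (th + e) + ε) + H / n * MD * (H / (s * th) + e)
          + t * H ^ 2 * MD + K = E1 + E4 + F1 + F2 + G + K := by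
    rw [hE1, hE4, hF1, hF2, hG]
    ring
  rw [hsum]
  -- (a)
  have a1 : Cq * (t * H * r3 + H / s * (th + e)) * (HF + H0) ≤ 2 * (Cq * Cm * E1) := by
    have h := mul_le_mul_of_nonneg_left (add_le_add hmF hm0)
      (show 0 ≤ Cq * (t * H * r3 + H / s * (th + e)) by positivity)
    refine h.trans (le_of_eq ?_)
    rw [hE1]
    ring
  -- (b)
  have b1 : Cq * H / (s * th) * H1 ≤ Cq * Cd * F1 := by
    have h := mul_le_mul_of_nonneg_left hmD (show 0 ≤ Cq * H / (s * th) by positivity)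
    refine h.trans (le_of_eq ?_)
    rw [hF1]
    ring
  have c1 : Cq * t * H ^ 2 * MD = Cq * G := by rw [hG]; ring
  -- (d)
  have d1 : e * KD ≤ 5 * (Cd * F2) := by
    have h := mul_le_mul_of_nonneg_left (hKD.trans (mul_le_mul_of_nonneg_left hmD (by norm_num)))
      he0.le
    refine h.trans (le_of_eq ?_)
    rw [hF2]
    ring
  -- (e)
  have e1 : A₁ * (th * H0) ≤ Cm * E2 := by
    have h := mul_le_mul hAs (mul_le_mul_of_nonneg_left hm0 hth.le)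
      (by positivity) (by positivity : 0 ≤ H / s)
    refine h.trans (le_of_eq ?_)
    rw [hE2]
    ring
  -- (f)
  have f1 : A₁ * (1 / th * H1) ≤ Cd * F1 := by
    have h := mul_le_mul hAs (mul_le_mul_of_nonneg_left hmD (show 0 ≤ 1 / th by positivity))
      (by positivity) (by positivity : 0 ≤ H / s)
    refine h.trans (le_of_eq ?_)
    rw [hF1]
    field_simp
  -- (g)
  have g2 : ε * HF ≤ Cm * E4 := by
    have h := mul_le_mul_of_nonneg_left hmF hε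
    refine h.trans (le_of_eq ?_)
    rw [hE4]
    ring
  have g3 : ε * H0 ≤ Cm * E4 := by
    have h := mul_le_mul_of_nonneg_left hm0 hε
    refine h.trans (le_of_eq ?_)
    rw [hE4]
    ring
  have y1 : A₁ * ((1 - th) * H0 - 1 / th * H1) ≤ A₁ * HF := mul_le_mul_of_nonneg_left hY hA₁
  have hexp : 1 / 2 * (Cq * Cm * E1) + 1 / 4 * (Cq * Cd * F1) + 1 / 4 * (Cq * G) + 5 * (Cd * F2)
      + 1 / 4 * (Cm * E1) + 1 / 4 * (Cd * F1) + 1 / 2 * (Cm * E4) + Cx * K ≤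
      (Cq * Cm + Cq * Cd + Cq + 5 * Cd + Cm + Cx) * (E1 + E4 + F1 + F2 + G + K) := by
    have e1 : (Cq * Cm + Cq * Cd + Cq + 5 * Cd + Cm + Cx) * (E1 + E4 + F1 + F2 + G + K)
        = (1 / 2 * (Cq * Cm * E1) + 1 / 4 * (Cq * Cd * F1) + 1 / 4 * (Cq * G) + 5 * (Cd * F2)
      + 1 / 4 * (Cm * E1) + 1 / 4 * (Cd * F1) + 1 / 2 * (Cm * E4) + Cx * K)
        + (Cq * Cm * (1 / 2 * E1 + E4 + F1 + F2 + G + K)
          + Cq * Cd * (E1 + E4 + 3 / 4 * F1 + F2 + G + K)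
          + Cq * (E1 + E4 + F1 + F2 + 3 / 4 * G + K)
          + Cd * (5 * E1 + 5 * E4 + 19 / 4 * F1 + 5 * G + 5 * K)
          + Cm * (3 / 4 * E1 + 1 / 2 * E4 + F1 + F2 + G + K)
          + Cx * (E1 + E4 + F1 + F2 + G)) := by ring
    rw [e1]
    exact le_add_of_nonneg_right (by positivity)
  have m1 : Cm * E2 ≤ Cm * E1 := mul_le_mul_of_nonneg_left p12 hCm
  have hfin1 : A₁ * ((1 - th) * H0 - 1 / th * H1) = A₁ * H0 - A₁ * (th * H0) - A₁ * (1 / th * H1) := by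
    ring
  have hfin2 : (A₁ - A₂ + ε) * H0 = A₁ * H0 - A₂ * H0 + ε * H0 := by ring
  have hfin3 : (ε - A₁) * HF = ε * HF - A₁ * HF := by ring
  have hfin4 : 1 / 4 * A₂ * H0 = 1 / 4 * (A₂ * H0) := by ring
  rw [hfin1] at y1
  rw [hfin2] at hR0
  rw [hfin3] at hKF
  rw [hfin4]
  rw [c1] at hQ
  have hQ4 : 4 * e * KD = 4 * (e * KD) := by ring
  rw [hQ4] at hQ
  have hfin5 : (1 - δ₁) / 2 * HF = 1 / 2 * ((1 - δ₁) * HF) := by ring
  rw [hfin5]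
  linarith only [hexp, hA, hQ, h2, hKF, hR0, y1, a1, b1, d1, e1, f1, g2, g3, m1, hX]

theorem elimO : ∃ C : ℝ, 0 ≤ C ∧ ∀ (N : ℕ) (t T e th H R δ₁ ε A₁ A₂ MD M0 MV : ℝ)
    (h k w : T3 → ℝ), 0 < N → 0 < t → 4 * t ≤ T → 64 * T ≤ 1 → 0 < e → e ≤ 1 / 2 → 0 < th → th ≤ 1 →
    SR H R h → 0 ≤ R → R ^ 2 ≤ t / 8 → BM k → BM w → (∀ z, 0 ≤ w z) → (∀ z, w z ≤ 2) →
    (∀ z, h z * w z + (1 - δ₁) * h z ≤ 2 * h z - k z) →
    (∀ᵐ z ∂lam3, h z * KK t h z ≤ h z * (2 * w z - A₁ + ε)) →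
    (∀ z, ∫ r in (t / 2)..t, cn (hk r) h z ≤ A₁ - A₂ + ε) → 0 ≤ ε → ε ≤ 1 → 0 ≤ A₂ → A₂ ≤ A₁ →
    A₁ ≤ H / Real.sqrt t →
    ∀ ψ : HS (Fin N), ‖ψ‖ = 1 →
    (∀ j, Summable fun k : Fin N → Fin 3 → ℤ => ksq (k j) * ‖cf ψ k‖ ^ 2) →
    DBd t T MD ψ → MBd t T M0 ψ → VBd T MV ψ →
    (∑ j, ∑' k : Fin N → Fin 3 → ℤ, et t (k j) ^ 2 * ksq (k j) * ‖cf ψ k‖ ^ 2)
      + e / t * (∑ j, ‖QQ1 t j ψ‖ ^ 2)
      + (1 - δ₁) / 2 * (∑ j, ∑ l ∈ Finset.univ.erase j,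
          qf (fun x => h (x j - x l)) (Phi t j l ψ))
      + 1 / 4 * A₂ * (∑ j, ∑ l ∈ Finset.univ.erase j,
          qf (fun x => h (x j - x l)) (Phi T j l ψ))
      - C * elErrO N t T e th H ε MD M0 MV
      ≤ TV t h k ψ := by
  obtain ⟨Cq, hCq, hq⟩ := quadO
  obtain ⟨Cm, hCm, hm⟩ := massO
  obtain ⟨Cd, hCd, hd⟩ := massD
  obtain ⟨C1, hC1, hX1⟩ := X1_bound
  obtain ⟨C2, hC2, hX2⟩ := X2_bound
  obtain ⟨C3, hC3, hX3⟩ := X3_bound
  obtain ⟨C4, hC4, hX4⟩ := X4_bound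
  refine ⟨Cq * Cm + Cq * Cd + Cq + 5 * Cd + Cm + 4 * (C1 + C2 + C3 + C4), by positivity, ?_⟩
  intro N t T e th H R δ₁ ε A₁ A₂ MD M0 MV h k w hN ht htT hT he0 he hth hth1 hh hR0 hR hbk hw hw0
    hw2 htwo hp4 hp5 hε hε1 hA₂ hA₁₂ hAs ψ hψ hkin hDB hMB hVB
  have hH : 0 ≤ H := by
    rw [← hh.int]
    exact integral_nonneg hh.nonneg
  have hNr : (0 : ℝ) < N := by exact_mod_cast hN
  have hT0 : 0 < T := by linarith
  have hA₁ : 0 ≤ A₁ := hA₂.trans hA₁₂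
  have hs : 0 < Real.sqrt t := Real.sqrt_pos.2 ht
  have hsT : 0 < Real.sqrt T := Real.sqrt_pos.2 hT0
  have hMD : 0 ≤ MD := hDB.nonneg ht (by linarith)
  have hM0 : 0 ≤ M0 := by
    refine le_trans ?_ (hMB t (by linarith) (by linarith))
    refine Finset.sum_nonneg fun m _ => qf_nonneg (fun x => ?_) ψ
    unfold crowd
    exact Finset.sum_nonneg fun j _ => hk_nonneg _ _
  have hMV : 0 ≤ MV := by
    refine le_trans ?_ (hVB T (by linarith) (by linarith))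
    refine integral_nonneg fun z => qf_nonneg (fun x => ?_) ψ
    refine mul_nonneg ?_ (sq_nonneg _)
    unfold nz
    exact Finset.sum_nonneg fun j _ => hk_nonneg _ _
  have hA := elO1 (N := N) (M := N * H) ht (by linarith : t ≤ T) he0 he (by positivity) hh hkin
  have hQ := hq N t T e th H R MD h ht htT hT he0 he hth hth1 hh hR0 hR ψ hDB
  have hX1' := hX1 N t T H R MD h hN ht htT hT hh hR0 hR ψ hDB
  have hX2' := hX2 N t T H R MD h hN ht htT hT hh hR0 hR ψ hDB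
  have hX3' := hX3 N t T H R MD h hN ht htT hT hh hR0 hR ψ hDB
  have hX4' := hX4 N T H R MV h hN hT0 hT hh hR0 (by linarith) ψ hVB
  rw [hψ] at hX4'
  have hmF := hm N t T t H R M0 h ht htT hT (Or.inl rfl) hh hR0 hR ψ hMB
  have hm0 := hm N t T T H R M0 h ht htT hT (Or.inr rfl) hh hR0 hR ψ hMB
  have hmD := hd N t T H R MD h hN ht htT hT hh hR0 hR ψ hDB
  have h2 : (∑ j, ∑ l ∈ Finset.univ.erase j,
        qf (fun x => h (x j - x l) * w (x j - x l)) (Phi t j l ψ))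
      + (1 - δ₁) * (∑ j, ∑ l ∈ Finset.univ.erase j, qf (fun x => h (x j - x l)) (Phi t j l ψ))
      ≤ 2 * (∑ j, ∑ l ∈ Finset.univ.erase j, qf (fun x => h (x j - x l)) (Phi t j l ψ))
        - ∑ j, ∑ l ∈ Finset.univ.erase j, qf (fun x => k (x j - x l)) (Phi t j l ψ) := by
    have h3 := Elim_dsum_le (N := N) (fun j l hjl => elC_two hh hbk hw htwo hjl (Phi t j l ψ))
    simp only [Finset.sum_add_distrib, Finset.sum_sub_distrib, ← Finset.mul_sum] at h3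
    exact h3
  have hp4' : ∀ᵐ z ∂lam3, h z * KK t h z ≤ h z * (2 * w z + (ε - A₁)) := by
    filter_upwards [hp4] with z hz
    refine hz.trans (le_of_eq ?_)
    ring
  have hKF : (∑ j, ∑ l ∈ Finset.univ.erase j,
          qf (fun x => h (x j - x l) * KK t h (x j - x l)) (Phi t j l ψ))
      ≤ 2 * (∑ j, ∑ l ∈ Finset.univ.erase j,
            qf (fun x => h (x j - x l) * w (x j - x l)) (Phi t j l ψ))
        + (ε - A₁) * (∑ j, ∑ l ∈ Finset.univ.erase j,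
            qf (fun x => h (x j - x l)) (Phi t j l ψ)) := by
    have h3 := Elim_dsum_le (N := N) (fun j l hjl => elC_KK ht hh hw hp4' hjl (Phi t j l ψ))
    simp only [Finset.sum_add_distrib, ← Finset.mul_sum] at h3
    exact h3
  have hH1 : 0 ≤ ∑ j, ∑ l ∈ Finset.univ.erase j,
      qf (fun x => h (x j - x l)) (PhiD t T j l ψ) :=
    Elim_dsum_nonneg fun j l _ => qf_nonneg (fun x => hh.nonneg _) _
  have hH0 : 0 ≤ ∑ j, ∑ l ∈ Finset.univ.erase j,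
      qf (fun x => h (x j - x l)) (Phi T j l ψ) :=
    Elim_dsum_nonneg fun j l _ => qf_nonneg (fun x => hh.nonneg _) _
  have hKD : (∑ j, ∑ l ∈ Finset.univ.erase j,
          qf (fun x => h (x j - x l) * KK t h (x j - x l)) (PhiD t T j l ψ))
      ≤ 5 * (∑ j, ∑ l ∈ Finset.univ.erase j,
            qf (fun x => h (x j - x l)) (PhiD t T j l ψ)) := by
    have h3 := Elim_dsum_le (N := N) (fun j l hjl => elC_KK ht hh hw hp4' hjl (PhiD t T j l ψ))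
    have h4 := Elim_dsum_le (N := N) (fun j l hjl => elC_w hh hw hw2 hjl (PhiD t T j l ψ))
    simp only [Finset.sum_add_distrib, ← Finset.mul_sum] at h3 h4
    have h5 : (ε - A₁) * (∑ j, ∑ l ∈ Finset.univ.erase j,
            qf (fun x => h (x j - x l)) (PhiD t T j l ψ)) ≤ 1 * (∑ j, ∑ l ∈ Finset.univ.erase j,
            qf (fun x => h (x j - x l)) (PhiD t T j l ψ)) :=
      mul_le_mul_of_nonneg_right (by linarith) hH1
    linarith
  have hR0' : (∑ j, ∑ l ∈ Finset.univ.erase j,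
          qf (fun x => h (x j - x l) * ∫ r in (t / 2)..t, cn (hk r) h (x j - x l)) (Phi T j l ψ))
      ≤ (A₁ - A₂ + ε) * (∑ j, ∑ l ∈ Finset.univ.erase j,
            qf (fun x => h (x j - x l)) (Phi T j l ψ)) := by
    have h3 := Elim_dsum_le (N := N) (fun j l hjl => qf_pair_mono
      (g := fun z => h z * ∫ r in (t / 2)..t, cn (hk r) h z) (g' := fun z => (A₁ - A₂ + ε) * h z)
      (hh.bm.mul (KT_int_bm (by positivity) (by linarith) hh.bm)) (hh.bm.const_mul _) hjl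
      (Eventually.of_forall fun z => by
        have := mul_le_mul_of_nonneg_left (hp5 z) (hh.nonneg z)
        linarith) (Phi T j l ψ))
    refine h3.trans (le_of_eq ?_)
    simp only [qf_smul, ← Finset.mul_sum]
  have hY : (1 - th) * (∑ j, ∑ l ∈ Finset.univ.erase j,
            qf (fun x => h (x j - x l)) (Phi T j l ψ))
      - 1 / th * (∑ j, ∑ l ∈ Finset.univ.erase j,
            qf (fun x => h (x j - x l)) (PhiD t T j l ψ))
      ≤ ∑ j, ∑ l ∈ Finset.univ.erase j, qf (fun x => h (x j - x l)) (Phi t j l ψ) := by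
    have h3 := Elim_dsum_le (N := N) (fun j l _ => E8_young (bm_diff hh.bm j l)
      (fun x => hh.nonneg _) hth (Phi T j l ψ) (PhiD t T j l ψ))
    simp only [Finset.sum_sub_distrib, ← Finset.mul_sum] at h3
    refine h3.trans (le_of_eq ?_)
    refine Elim_dsum_congr fun j l _ => ?_
    unfold PhiD
    rw [add_sub_cancel]
  have hsT3 : (Real.sqrt T)⁻¹ ^ 3 ≤ (Real.sqrt t)⁻¹ ^ 3 := by
    refine pow_le_pow_left₀ (by positivity) ?_ 3
    exact inv_anti₀ hs (Real.sqrt_le_sqrt (by linarith))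
  have hX3'' : ∑ j, ‖YO T h ψ j‖ ^ 2 ≤ C3 * H ^ 2 * ((Real.sqrt t)⁻¹ ^ 3 / N + 1) * MD := by
    refine hX3'.trans (mul_le_mul_of_nonneg_right (mul_le_mul_of_nonneg_left ?_ (by positivity)) hMD)
    have := div_le_div_of_nonneg_right hsT3 hNr.le
    linarith
  have hX := E8_h (TE := t / e) (X := H ^ 2) (g := (Real.sqrt t)⁻¹ ^ 3 / N + 1)
    (Z6 := (Real.sqrt T)⁻¹ ^ 6 * N) (by positivity) hC1 hC2 hC3 hC4 (by positivity) (by positivity)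
    hMD hMV (by positivity) hX1' hX2' hX3'' (by
      refine hX4'.trans (le_of_eq ?_)
      ring)
  unfold elErrO TV
  have hA' : (∑ j, ∑' k : Fin N → Fin 3 → ℤ, et t (k j) ^ 2 * ksq (k j) * ‖cf ψ k‖ ^ 2)
      + e / t * ∑ j, ‖QQ1 t j ψ‖ ^ 2
      + (∑ j, ∑ l ∈ Finset.univ.erase j, qf (fun x => h (x j - x l)) (Phi t j l ψ))
      - 1 / 4 * (∑ j, ((inner ℂ (bO T h ψ j)
            (S1 (fun p => kap (2 * t) p + 8 * e / t * kap (2 * t) p ^ 2) j (bO T h ψ j))).re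
          + 2 * (inner ℂ (bO T h ψ j) (S1 (kap t) j (BO t T h ψ j))).re
          + (1 + 4 * e) * (inner ℂ (BO t T h ψ j) (S1 (kap t) j (BO t T h ψ j))).re))
      - 4 * (t / e) * ((∑ j, ‖WO t T h ψ j‖ ^ 2) + (∑ j, ‖ZO t T h ψ j‖ ^ 2)
          + (∑ j, ‖YO T h ψ j‖ ^ 2) + ∑ j, ‖UO T (N * H) h ψ j‖ ^ 2)
      ≤ (∑ j, ∑' k : Fin N → Fin 3 → ℤ, ksq (k j) * ‖cf ψ k‖ ^ 2)
        + ∑ j, ∑ l ∈ Finset.univ.erase j, (inner ℂ ψ (HP h j l (Phi t j l ψ))).re := by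
    have e1 : 4 * (t / e) = 4 * t / e := by ring
    rw [e1]
    exact hA
  exact E8_arith (n := (N : ℝ)) (s := Real.sqrt t) (r3 := (Real.sqrt T)⁻¹ ^ 3) hCq hCm hCd
    (by positivity) hNr ht he0 hth hs hH hε (by positivity) hM0 hMD (by positivity) hH0 hH1 hA₁
    hA' hQ h2 hKF hKD hR0' hY hAs hmF hm0 hmD hX

end Pool.Agent.Lib.MP_4952d6_mp.O

end

/-! ### O.E10a -/

section

/-!
# O.E10a: the lower bound at fixed parameters

`elimO`, `contactO` (for `t` and `T`), `den_ge`, `R0_ge` (for `t` and `T`), `lossO`, `Db_time`.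
-/

set_option autoImplicit false
set_option linter.unusedSectionVars false
set_option linter.unusedVariables false
open MeasureTheory Function Filter Topology Set ComplexConjugate

namespace Pool.Agent.Lib.MP_4952d6_mp.O

open LB

/-- `1 - η_s² = 1 - exp (- s k²)` -/
lemma E10_et_sq (s : ℝ) (p : Fin 3 → ℤ) : 1 - et s p ^ 2 = 1 - Real.exp (-(s * ksq p)) := by
  rw [Mul_et_sq]

lemma E10_bdm {b : ℝ} (hb : 0 ≤ b) : Bdm fun p : Fin 3 → ℤ => 1 - Real.exp (-(b * ksq p)) :=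
  (Bdm.const 1).sub (bdm_exp hb)

lemma E10_loss_eq {N : ℕ} {s : ℝ} (hs : 0 ≤ s) (ψ : HS (Fin N)) :
    ∑' p, (1 - et s p ^ 2) * nk ψ p = Db s (ψ : (Fin N → T3) → ℂ) := by
  unfold Db
  rw [Dm_eq ψ (E10_bdm hs)]
  exact tsum_congr fun p => by rw [E10_et_sq]

lemma E10_Db_nonneg {N : ℕ} {b : ℝ} (hb : 0 ≤ b) (ψ : HS (Fin N)) :
    0 ≤ Db b (ψ : (Fin N → T3) → ℂ) := by
  rw [← E10_loss_eq hb]
  exact tsum_nonneg fun p => mul_nonneg (by
    have := pow_le_one₀ (et_pos b p).le (et_le_one hb p) (n := 2)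
    linarith) (nk_nonneg ψ p)

lemma E10_Db_mono {N : ℕ} {b c : ℝ} (hb : 0 ≤ b) (hbc : b ≤ c) (ψ : HS (Fin N)) :
    Db b (ψ : (Fin N → T3) → ℂ) ≤ Db c ψ := by
  have hc : 0 ≤ c := hb.trans hbc
  rw [← E10_loss_eq hb, ← E10_loss_eq hc]
  have h1 : ∀ (s : ℝ), 0 ≤ s → Summable fun p => (1 - et s p ^ 2) * nk ψ p := fun s hs =>
    PreC_summable ψ (fun p => by
      have := pow_le_one₀ (et_pos s p).le (et_le_one hs p) (n := 2)
      linarith) (fun p => by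
      have := sq_nonneg (et s p)
      linarith)
  refine (h1 b hb).tsum_le_tsum (fun p => mul_le_mul_of_nonneg_right ?_ (nk_nonneg ψ p)) (h1 c hc)
  rw [E10_et_sq, E10_et_sq]
  have h2 : Real.exp (-(c * ksq p)) ≤ Real.exp (-(b * ksq p)) := by
    refine Real.exp_le_exp.2 ?_
    have := mul_le_mul_of_nonneg_right hbc (ksq_nonneg p)
    linarith
  linarith

/-- All error terms except those of the elimination. -/
noncomputable def preErrO (N : ℕ) (t T b e s H R A₂ c MD M0 G D : ℝ) : ℝ :=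
  H * ((R + Real.sqrt s) / Real.sqrt t) * (c / N * MD + 1 / c * M0)
    + A₂ * H * ((R + Real.sqrt s) / Real.sqrt T) * (1 / N * MD + M0)
    + A₂ * H * N * (T / b * D + ∑' p : Fin 3 → ℤ, et T p ^ 2)
    + ((N * H + G) ^ 2 * t / e + (N * H + G) * t / b) * D

/-- The last step: real numbers only. -/
lemma E10_final {n H G t T b e δ₁ A₂ cH cT QQ QH QK QH0 QK0 Kin TVv elE C1 C2 X1 X2 RS R0 LO LT RT D
    KP PA F : ℝ}
    (hN : 0 < n) (hH : 0 < H) (hδ0 : 0 ≤ δ₁) (hδ1 : δ₁ ≤ 1) (hG : 0 ≤ G)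
    (ht : 0 < t) (he : 0 < e) (hb : 0 < b) (hA : 0 ≤ A₂) (hcH : 0 ≤ cH) (hcT : 0 ≤ cT) (hD : 0 ≤ D)
    (hLO : 0 ≤ LO) (hC1 : 0 ≤ C1) (hC2 : 0 ≤ C2) (hX1 : 0 ≤ X1) (hX2 : 0 ≤ X2) (hel : 0 ≤ elE)
    (hT : 0 < T)
    (elim1 : Kin + e / t * QQ + (1 - δ₁) / 2 * QH + 1 / 4 * A₂ * QH0 - C1 * elE ≤ TVv)
    (smo : H * QK - C2 * H * X1 ≤ QH) (smoT : H * QK0 - C2 * H * X2 ≤ QH0)
    (den : RS - n * cH ≤ QK) (denT : RT - n * cT ≤ QK0)
    (r0 : n ^ 2 - 2 * n * LO ≤ R0) (rT : n ^ 2 - 2 * n * LT ≤ RT) (hLT : LT ≤ T / b * D)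
    (loss : (n * H + G) * LO ≤ (2 * (n * H + G) ^ 2 * t / e + 2 * (n * H + G) * t / b) * D
      + e / t * QQ)
    (hK : KP ≤ Kin + PA + G * LO) (hF : F = RS - R0) :
    (1 - δ₁) * H / 2 * n ^ 2 + 1 / 4 * A₂ * H * n ^ 2 + KP + (1 - δ₁) * H / 2 * F
      - (1 - δ₁) * H / 2 * n * cH
      - (C1 + C2 + 2) * (elE + (H * X1 + A₂ * H * X2 + A₂ * H * n * (T / b * D + cT)
        + ((n * H + G) ^ 2 * t / e + (n * H + G) * t / b) * D)) ≤ TVv + PA := by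
  obtain ⟨g, hg⟩ : ∃ g, g = (1 - δ₁) * H := ⟨_, rfl⟩
  have hg0 : 0 ≤ g := by rw [hg]; exact mul_nonneg (by linarith) hH.le
  have hgH : g ≤ H := by rw [hg]; exact mul_le_of_le_one_left hH.le (by linarith)
  have i1 : (1 - δ₁) / 2 * (H * QK - C2 * H * X1) ≤ (1 - δ₁) / 2 * QH :=
    mul_le_mul_of_nonneg_left smo (by linarith)
  have i2 : (1 - δ₁) / 2 * (H * QK - C2 * H * X1) = g / 2 * QK - (1 - δ₁) / 2 * (C2 * H * X1) := by
    rw [hg]; ring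
  have e1 : 0 ≤ C2 * H * X1 := by positivity
  have i3 : (1 - δ₁) / 2 * (C2 * H * X1) ≤ C2 * (H * X1) := by
    have := mul_le_of_le_one_left e1 (show (1 - δ₁) / 2 ≤ 1 by linarith)
    linarith
  have i4 : g / 2 * (RS - n * cH) ≤ g / 2 * QK := mul_le_mul_of_nonneg_left den (by linarith)
  have i5 : g / 2 * (n ^ 2 - 2 * n * LO) ≤ g / 2 * R0 := mul_le_mul_of_nonneg_left r0 (by linarith)
  have i6 : g / 2 * (n ^ 2 - 2 * n * LO) = g / 2 * n ^ 2 - n * g * LO := by ring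
  have i6b : n * g * LO ≤ n * H * LO :=
    mul_le_mul_of_nonneg_right (mul_le_mul_of_nonneg_left hgH hN.le) hLO
  have i7 : g / 2 * (RS - n * cH) = g / 2 * F + g / 2 * R0 - g / 2 * n * cH := by
    rw [hF]; ring
  -- the terms of `T`
  have j1 : 1 / 4 * A₂ * (H * QK0 - C2 * H * X2) ≤ 1 / 4 * A₂ * QH0 :=
    mul_le_mul_of_nonneg_left smoT (by positivity)
  have j2 : 1 / 4 * A₂ * H * (RT - n * cT) ≤ 1 / 4 * A₂ * H * QK0 :=
    mul_le_mul_of_nonneg_left denT (by positivity)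
  have j3 : 1 / 4 * A₂ * H * (n ^ 2 - 2 * n * LT) ≤ 1 / 4 * A₂ * H * RT :=
    mul_le_mul_of_nonneg_left rT (by positivity)
  have j4 : 1 / 4 * A₂ * H * (2 * n) * LT ≤ 1 / 4 * A₂ * H * (2 * n) * (T / b * D) :=
    mul_le_mul_of_nonneg_left hLT (by positivity)
  have q1 : 0 ≤ A₂ * H * X2 := by positivity
  have q2 : 0 ≤ A₂ * H * n * (T / b * D) := by positivity
  have q3 : 0 ≤ A₂ * H * n * cT := by positivity
  have q4 : 0 ≤ ((n * H + G) ^ 2 * t / e + (n * H + G) * t / b) * D := by positivity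
  have q5 : 0 ≤ H * X1 := by positivity
  obtain ⟨Q4, hQ4⟩ : ∃ Q4, Q4 = ((n * H + G) ^ 2 * t / e + (n * H + G) * t / b) * D := ⟨_, rfl⟩
  have hl4 : (2 * (n * H + G) ^ 2 * t / e + 2 * (n * H + G) * t / b) * D = 2 * Q4 := by
    rw [hQ4]; ring
  rw [hl4] at loss
  have hfin : (C1 + C2 + 2) * (elE + (H * X1 + A₂ * H * X2 + A₂ * H * n * (T / b * D + cT)
        + ((n * H + G) ^ 2 * t / e + (n * H + G) * t / b) * D))
      = (C1 * elE + C2 * (H * X1) + 1 / 4 * C2 * (A₂ * H * X2) + 1 / 2 * (A₂ * H * n * (T / b * D))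
        + 1 / 4 * (A₂ * H * n * cT) + 2 * Q4)
        + ((C2 + 2) * elE + (C1 + 2) * (H * X1) + (C1 + 2 + 3 / 4 * C2) * (A₂ * H * X2)
          + (C1 + C2 + 3 / 2) * (A₂ * H * n * (T / b * D)) + (C1 + C2 + 7 / 4) * (A₂ * H * n * cT)
          + (C1 + C2) * Q4) := by
    rw [hQ4]; ring
  have hrest : 0 ≤ (C2 + 2) * elE + (C1 + 2) * (H * X1) + (C1 + 2 + 3 / 4 * C2) * (A₂ * H * X2)
          + (C1 + C2 + 3 / 2) * (A₂ * H * n * (T / b * D)) + (C1 + C2 + 7 / 4) * (A₂ * H * n * cT)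
          + (C1 + C2) * Q4 := by
    have : 0 ≤ Q4 := by rw [hQ4]; exact q4
    positivity
  have k1 : 1 / 4 * A₂ * (H * QK0 - C2 * H * X2)
      = 1 / 4 * A₂ * H * QK0 - 1 / 4 * C2 * (A₂ * H * X2) := by ring
  have k2 : 1 / 4 * A₂ * H * (RT - n * cT)
      = 1 / 4 * A₂ * H * RT - 1 / 4 * (A₂ * H * n * cT) := by ring
  have k3 : 1 / 4 * A₂ * H * (n ^ 2 - 2 * n * LT)
      = 1 / 4 * A₂ * H * n ^ 2 - 1 / 4 * A₂ * H * (2 * n) * LT := by ring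
  have k4 : 1 / 4 * A₂ * H * (2 * n) * (T / b * D) = 1 / 2 * (A₂ * H * n * (T / b * D)) := by ring
  have k5 : (n * H + G) * LO = n * H * LO + G * LO := by ring
  rw [← hg, hfin]
  have k6 : g / 2 * n ^ 2 + 1 / 4 * A₂ * H * n ^ 2 + KP + g / 2 * F - g / 2 * n * cH
      = g / 2 * n ^ 2 + 1 / 4 * A₂ * H * n ^ 2 + KP + g / 2 * F - g / 2 * n * cH := rfl
  linarith only [elim1, i1, i2, i3, i4, i5, i6, i6b, i7, j1, j2, j3, j4, k1, k2, k3, k4, k5, loss, hK,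
    hrest]

/-- the kinetic energy with the symbol `φ` -/
lemma E10_kin {N : ℕ} {t G : ℝ} (ht : 0 < t) (hG : 0 ≤ G) {ψ : HS (Fin N)}
    (hkin : ∀ j, Summable fun k : Fin N → Fin 3 → ℤ => ksq (k j) * ‖cf ψ k‖ ^ 2)
    {φ : (Fin 3 → ℤ) → ℝ} (hφ : ∀ p, |φ p| ≤ G) :
    (∑' p, et t p ^ 2 * (ksq p + φ p) * nk ψ p)
      ≤ (∑ j, ∑' k : Fin N → Fin 3 → ℤ, et t (k j) ^ 2 * ksq (k j) * ‖cf ψ k‖ ^ 2)
        + (∑' p, φ p * nk ψ p) + G * (∑' p, (1 - et t p ^ 2) * nk ψ p) := by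
  have hη2 : ∀ a, et t a ^ 2 ≤ 1 := fun a => pow_le_one₀ (et_pos t a).le (et_le_one ht.le a)
  obtain ⟨k1, k2⟩ := sum_mult (φ := fun p => et t p ^ 2 * ksq p)
    (fun p => mul_nonneg (sq_nonneg _) (ksq_nonneg p)) ψ (fun j => by
      refine Summable.of_nonneg_of_le (fun K => mul_nonneg (mul_nonneg (sq_nonneg _) (ksq_nonneg _))
        (sq_nonneg _)) (fun K => ?_) (hkin j)
      exact mul_le_mul_of_nonneg_right (mul_le_of_le_one_left (ksq_nonneg _) (hη2 _)) (sq_nonneg _))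
  rw [k2]
  have h1 : Summable fun p => φ p * nk ψ p := by
    refine Summable.of_norm_bounded ((summable_nk ψ).mul_left G) fun p => ?_
    rw [norm_mul, Real.norm_eq_abs, Real.norm_eq_abs, abs_of_nonneg (nk_nonneg ψ p)]
    exact mul_le_mul_of_nonneg_right (hφ p) (nk_nonneg ψ p)
  have h2 : Summable fun p => (1 - et t p ^ 2) * nk ψ p :=
    PreC_summable ψ (fun p => by linarith [hη2 p]) (fun p => by linarith [sq_nonneg (et t p)])
  have h3 : Summable fun p => et t p ^ 2 * (ksq p + φ p) * nk ψ p := by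
    have h4 : Summable fun p => et t p ^ 2 * (φ p * nk ψ p) := by
      refine Summable.of_norm_bounded ((summable_nk ψ).mul_left G) fun p => ?_
      rw [norm_mul, norm_mul, Real.norm_eq_abs, Real.norm_eq_abs, Real.norm_eq_abs,
        abs_of_nonneg (nk_nonneg ψ p), abs_of_nonneg (sq_nonneg _)]
      have h5 := mul_le_mul_of_nonneg_right (hφ p) (nk_nonneg ψ p)
      have h6 : 0 ≤ |φ p| * nk ψ p := mul_nonneg (abs_nonneg _) (nk_nonneg ψ p)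
      exact (mul_le_of_le_one_left h6 (hη2 p)).trans h5
    refine (k1.add h4).congr fun p => ?_
    ring
  rw [← tsum_mul_left, ← k1.tsum_add h1, ← (k1.add h1).tsum_add (h2.mul_left G)]
  refine h3.tsum_le_tsum (fun p => ?_) ((k1.add h1).add (h2.mul_left G))
  have h7 := nk_nonneg ψ p
  have h8 : -G ≤ φ p := (abs_le.1 (hφ p)).1
  have h9 : 0 ≤ (1 - et t p ^ 2) * nk ψ p := mul_nonneg (by linarith [hη2 p]) h7
  nlinarith [mul_le_mul_of_nonneg_right h8 h9]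

lemma E10_elErr_nonneg {N : ℕ} {t T e th H ε MD M0 MV : ℝ} (ht : 0 < t) (he : 0 < e) (hth : 0 < th)
    (hH : 0 ≤ H) (hε : 0 ≤ ε) (hMD : 0 ≤ MD) (hM0 : 0 ≤ M0) (hMV : 0 ≤ MV) :
    0 ≤ elErrO N t T e th H ε MD M0 MV := by
  unfold elErrO
  positivity

lemma MBd.nonneg {N : ℕ} {t T M0 : ℝ} {ψ : HS (Fin N)} (h : MBd t T M0 ψ) (ht : 0 < t) (htT : t ≤ T) :
    0 ≤ M0 :=
  le_trans (Finset.sum_nonneg fun m _ => qf_nonneg (fun x => crowd_nonneg _ _ _) ψ)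
    (h t (by linarith) (by linarith))

lemma VBd.nonneg {N : ℕ} {T MV : ℝ} {ψ : HS (Fin N)} (h : VBd T MV ψ) (hT : 0 < T) : 0 ≤ MV := by
  refine le_trans ?_ (h T (by linarith) (by linarith))
  refine integral_nonneg fun z => qf_nonneg (fun x => mul_nonneg ?_ (sq_nonneg _)) ψ
  unfold nz
  exact Finset.sum_nonneg fun j _ => hk_nonneg _ _

theorem preO : ∃ C : ℝ, 0 ≤ C ∧ ∀ (N : ℕ) (t T b e th s H R δ₁ ε A₁ A₂ c MD M0 MV G : ℝ)
    (h k w : T3 → ℝ), 0 < N → 0 < t → 4 * t ≤ T → 64 * T ≤ 1 → t ≤ b → b ≤ T → 0 < e → e ≤ 1 / 2 →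
    0 < th → th ≤ 1 → 0 < s → s ≤ t → 0 < H →
    SR H R h → 0 ≤ R → R ^ 2 ≤ t / 8 → BM k → BM w → (∀ z, 0 ≤ w z) → (∀ z, w z ≤ 2) → 0 ≤ δ₁ →
    δ₁ ≤ 1 → (∀ z, h z * w z + (1 - δ₁) * h z ≤ 2 * h z - k z) →
    (∀ᵐ z ∂lam3, h z * KK t h z ≤ h z * (2 * w z - A₁ + ε)) →
    (∀ z, ∫ r in (t / 2)..t, cn (hk r) h z ≤ A₁ - A₂ + ε) → 0 ≤ ε → ε ≤ 1 → 0 ≤ A₂ → A₂ ≤ A₁ →
    A₁ ≤ H / Real.sqrt t → 0 < c → 0 ≤ G →
    ∀ ψ : HS (Fin N), ‖ψ‖ = 1 →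
    (∀ j, Summable fun k : Fin N → Fin 3 → ℤ => ksq (k j) * ‖cf ψ k‖ ^ 2) →
    DBd t T MD ψ → MBd t T M0 ψ → VBd T MV ψ →
    ∀ φ : (Fin 3 → ℤ) → ℝ, (∀ p, |φ p| ≤ G) →
    (1 - δ₁) * H / 2 * N ^ 2 + 1 / 4 * A₂ * H * N ^ 2
      + (∑' p, et t p ^ 2 * (ksq p + φ p) * nk ψ p)
      + (1 - δ₁) * H / 2 * (∑' p : Fin 3 → ℤ, if p = 0 then 0 else
          Real.exp (-(s * ksq p)) * Rsq t ψ p)
      - (1 - δ₁) * H / 2 * N * (∑' p : Fin 3 → ℤ, et t p ^ 2)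
      - C * (elErrO N t T e th H ε MD M0 MV
        + preErrO N t T b e s H R A₂ c MD M0 G (Db b (ψ : (Fin N → T3) → ℂ)))
      ≤ TV t h k ψ + ∑' p, φ p * nk ψ p := by
  obtain ⟨C1, hC1, elim1⟩ := elimO
  obtain ⟨C2, hC2, con⟩ := contactO
  refine ⟨C1 + C2 + 2, by positivity, ?_⟩
  intro N t T b e th s H R δ₁ ε A₁ A₂ c MD M0 MV G h k w hN ht h4 h64 htb hbT he he2 hth hth1 hs hst hH
    hSR hR hRt hkb hw hw0 hw2 hδ0 hδ1 htwo hp4 hp5 hε0 hε1 hA2 hA21 hA1 hc hG ψ hψ hkin hDB hMB hVB φ hφ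
  have hNR : (0 : ℝ) < N := by exact_mod_cast hN
  have hT : 0 < T := by linarith
  have hb : 0 < b := ht.trans_le htb
  have hMD := hDB.nonneg ht (by linarith)
  have hM0 := hMB.nonneg ht (by linarith)
  have hMV := hVB.nonneg hT
  have el := elim1 N t T e th H R δ₁ ε A₁ A₂ MD M0 MV h k w hN ht h4 h64 he he2 hth hth1 hSR hR hRt hkb hw
    hw0 hw2 htwo hp4 hp5 hε0 hε1 hA2 hA21 hA1 ψ hψ hkin hDB hMB hVB
  have c1 := con N s t T t H R c MD M0 h hN ht h4 h64 (Or.inl rfl) hs hst hSR hR hRt hc ψ hDB hMB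
  have c2 := con N s t T T H R 1 MD M0 h hN ht h4 h64 (Or.inr rfl) hs hst hSR hR hRt one_pos ψ hDB hMB
  obtain ⟨d1, d2⟩ := den_ge hs ht ψ hψ
  obtain ⟨dT1, dT2⟩ := den_ge hs hT ψ hψ
  rw [Fintype.card_fin] at d2 dT2
  have r0 := R0_ge ht.le ψ hψ
  have rT := R0_ge hT.le ψ hψ
  rw [Fintype.card_fin] at r0 rT
  -- the zero mode of `T`
  have dT3 : Rsq T ψ 0 - N * (∑' p : Fin 3 → ℤ, et T p ^ 2)
      ≤ ∑ j, ∑ l ∈ Finset.univ.erase j, qf (fun x => hk s (x j - x l)) (Phi T j l ψ) := by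
    refine le_trans (sub_le_sub_right ?_ _) dT2
    have h1 := dT1.le_tsum 0 (fun p _ => mul_nonneg (Real.exp_pos _).le (by
      unfold Rsq
      exact sq_nonneg _))
    rwa [ksq_zero, mul_zero, neg_zero, Real.exp_zero, one_mul] at h1
  rw [E10_loss_eq ht.le] at r0
  rw [E10_loss_eq hT.le] at rT
  have hLT : Db T (ψ : (Fin N → T3) → ℂ) ≤ T / b * Db b ψ := Db_time hb hbT ψ
  have lo := lossO (e := e) ht he hb (add_nonneg (mul_nonneg hNR.le hH.le) hG) ψ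
  rw [E10_loss_eq ht.le] at lo
  have ki := E10_kin ht hG hkin hφ
  rw [E10_loss_eq ht.le] at ki
  obtain ⟨r1, r2⟩ := PreC_split d1
  rw [ksq_zero, mul_zero, neg_zero, Real.exp_zero, one_mul] at r2
  have hfin := E10_final (n := (N : ℝ)) (X1 := (R + Real.sqrt s) / Real.sqrt t * (c / N * MD + 1 / c * M0))
    (X2 := (R + Real.sqrt s) / Real.sqrt T * (1 / N * MD + M0))
    hNR hH hδ0 hδ1 hG ht he hb hA2 (tsum_nonneg fun p => sq_nonneg _) (tsum_nonneg fun p => sq_nonneg _)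
    (E10_Db_nonneg hb.le ψ) (E10_Db_nonneg ht.le ψ) hC1 hC2 (by positivity) (by positivity)
    (E10_elErr_nonneg (N := N) (T := T) (MV := MV) ht he hth hH.le hε0 hMD hM0 hMV) hT el
    (by
      refine le_trans (le_of_eq ?_) c1
      ring)
    (by
      refine le_trans (le_of_eq ?_) c2
      ring) d2 dT3 r0 rT hLT lo ki r2
  refine le_trans (le_of_eq ?_) hfin
  unfold preErrO
  ring

end Pool.Agent.Lib.MP_4952d6_mp.O

end

/-! ### O.E10b -/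

section

/-!
# O.E10b: absorption of the variance by the low modes, and arithmetic of the parameters
-/

set_option autoImplicit false
set_option linter.unusedSectionVars false
set_option linter.unusedVariables false
open MeasureTheory Function Filter Topology Set ComplexConjugate

namespace Pool.Agent.Lib.MP_4952d6_mp.O

open LB

lemma gO_nonneg {u l : ℝ} (hu : 0 ≤ u) (hu1 : u ≤ 1) (p : Fin 3 → ℤ) : 0 ≤ gO u l p := by
  unfold gO
  have h1 : u ^ 40 ≤ 1 := pow_le_one₀ hu hu1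
  split_ifs <;> linarith

lemma gO_le {u l : ℝ} (hu : 0 ≤ u) (p : Fin 3 → ℤ) : gO u l p ≤ 1 := by
  unfold gO
  have h1 : 0 ≤ u ^ 40 := by positivity
  split_ifs <;> linarith

lemma gO_zero (u l : ℝ) : gO u l 0 = 0 := by
  unfold gO
  rw [if_pos rfl]

/-- The weights of the modes: one half of the low modes absorbs the variance. -/
theorem E10_modes {N : ℕ} {t T s u l δ₁ κ : ℝ} (hs : 0 < s) (ht : 0 < t) (htT : t < T) (hu : 0 ≤ u)
    (hu1 : u ≤ 1) {ψ : HS (Fin N)} (hψ : ‖ψ‖ = 1)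
    (hyp : ∀ p : Fin 3 → ℤ, p ≠ 0 → 1 / 2 * gO u l p * Real.exp (-(s * ksq p))
      + κ * Real.exp (-((T - t) * ksq p)) ≤ (1 - δ₁) / 2 * Real.exp (-(s * ksq p))) :
    1 / 2 * (∑' p, gO u l p * Real.exp (-(s * ksq p)) * Rsq t ψ p)
      + κ * (∑' p : Fin 3 → ℤ, if p = 0 then 0 else Real.exp (-((T - t) * ksq p)) * Rsq t ψ p)
      ≤ (1 - δ₁) / 2 * (∑' p : Fin 3 → ℤ, if p = 0 then 0 else
          Real.exp (-(s * ksq p)) * Rsq t ψ p) := by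
  have hR : ∀ p, 0 ≤ Rsq t ψ p := fun p => by unfold Rsq; exact sq_nonneg _
  obtain ⟨d1, -⟩ := den_ge hs ht ψ hψ
  obtain ⟨d2, -⟩ := den_ge (s := T - t) (by linarith) ht ψ hψ
  obtain ⟨r1, -⟩ := PreC_split d1
  obtain ⟨r2, -⟩ := PreC_split d2
  have g1 : Summable fun p => gO u l p * Real.exp (-(s * ksq p)) * Rsq t ψ p := by
    refine Summable.of_nonneg_of_le (fun p => mul_nonneg (mul_nonneg (gO_nonneg hu hu1 p)
      (Real.exp_pos _).le) (hR p)) (fun p => ?_) d1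
    rw [mul_assoc]
    exact mul_le_of_le_one_left (mul_nonneg (Real.exp_pos _).le (hR p)) (gO_le hu p)
  rw [← tsum_mul_left, ← tsum_mul_left, ← tsum_mul_left,
    ← (g1.mul_left (1 / 2)).tsum_add (r2.mul_left κ)]
  refine ((g1.mul_left (1 / 2)).add (r2.mul_left κ)).tsum_le_tsum (fun p => ?_)
    (r1.mul_left ((1 - δ₁) / 2))
  by_cases hp : p = 0
  · rw [if_pos hp, if_pos hp, hp, gO_zero]
    simp
  · rw [if_neg hp, if_neg hp]
    have h1 := mul_le_mul_of_nonneg_right (hyp p hp) (hR p)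
    calc _ = (1 / 2 * gO u l p * Real.exp (-(s * ksq p))
      + κ * Real.exp (-((T - t) * ksq p))) * Rsq t ψ p := by ring
      _ ≤ _ := h1
      _ = _ := by ring

/-- `K u⁶ exp (-1/(2u)) ≤ u⁴⁰/4` for small `u` -/
lemma E10_exp (K : ℝ) (hK : 0 ≤ K) : ∃ u₀ : ℝ, 0 < u₀ ∧ u₀ ≤ 1 / 2 ∧ ∀ u : ℝ, 0 < u → u < u₀ →
    K * u ^ 6 * Real.exp (-(1 / (2 * u))) ≤ u ^ 40 / 4 ∧ K * u ^ 6 ≤ 1 / 8 := by
  have hf : (0 : ℝ) < (Nat.factorial 35 : ℝ) := by exact_mod_cast Nat.factorial_pos 35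
  obtain ⟨F, hF⟩ : ∃ F : ℝ, F = K * (Nat.factorial 35 : ℝ) * 2 ^ 35 := ⟨_, rfl⟩
  have hF0 : 0 ≤ F := by rw [hF]; positivity
  refine ⟨min (1 / 2) (min (1 / (4 * (F + 1))) (1 / (8 * (K + 1)))), by positivity, min_le_left _ _,
    fun u hu hu0 => ?_⟩
  have hu2 : u < 1 / 2 := hu0.trans_le (min_le_left _ _)
  have hu3 : u < 1 / (4 * (F + 1)) := hu0.trans_le ((min_le_right _ _).trans (min_le_left _ _))
  have hu4 : u < 1 / (8 * (K + 1)) := hu0.trans_le ((min_le_right _ _).trans (min_le_right _ _))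
  constructor
  · have h1 : Real.exp (-(1 / (2 * u))) ≤ (Nat.factorial 35 : ℝ) * (2 * u) ^ 35 := by
      have h2 := Real.pow_div_factorial_le_exp (x := 1 / (2 * u)) (by positivity) 35
      rw [Real.exp_neg]
      rw [div_le_iff₀ hf] at h2
      have h3 : 0 < (1 / (2 * u)) ^ 35 := by positivity
      have h4 : (Real.exp (1 / (2 * u)))⁻¹ ≤ (Nat.factorial 35 : ℝ) / (1 / (2 * u)) ^ 35 := by
        rw [inv_eq_one_div, div_le_div_iff₀ (Real.exp_pos _) h3]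
        linarith
      refine h4.trans (le_of_eq ?_)
      rw [one_div, inv_pow]
      field_simp
    have h5 : K * u ^ 6 * Real.exp (-(1 / (2 * u))) ≤ K * u ^ 6 * ((Nat.factorial 35 : ℝ) * (2 * u) ^ 35) :=
      mul_le_mul_of_nonneg_left h1 (by positivity)
    have h6 : K * u ^ 6 * ((Nat.factorial 35 : ℝ) * (2 * u) ^ 35) = (F * u) * u ^ 40 := by
      rw [hF]
      ring
    rw [h6] at h5
    have h7 : F * u ≤ 1 / 4 := by
      rw [lt_div_iff₀ (by positivity)] at hu3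
      nlinarith
    have h8 : (F * u) * u ^ 40 ≤ 1 / 4 * u ^ 40 := mul_le_mul_of_nonneg_right h7 (by positivity)
    linarith
  · have h1 : u ^ 6 ≤ u := by
      calc u ^ 6 = u ^ 5 * u := by ring
        _ ≤ 1 * u := mul_le_mul_of_nonneg_right (pow_le_one₀ hu.le (by linarith)) hu.le
        _ = u := one_mul u
    have h2 : K * u ^ 6 ≤ K * u := mul_le_mul_of_nonneg_left h1 hK
    rw [lt_div_iff₀ (by positivity)] at hu4
    nlinarith

/-- the pointwise inequality of the weights -/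
theorem E10_hyp (K : ℝ) (hK : 0 ≤ K) : ∃ u₀ : ℝ, 0 < u₀ ∧ u₀ ≤ 1 / 2 ∧ ∀ u : ℝ, 0 < u → u < u₀ →
    ∀ a δ₁ : ℝ, 0 < a → 0 ≤ δ₁ → δ₁ ≤ u ^ 161 → ∀ p : Fin 3 → ℤ, p ≠ 0 →
    1 / 2 * gO u (a / u ^ 160) p * Real.exp (-(a ^ 2 * ksq p))
      + K * u ^ 6 * Real.exp (-(((a / u ^ 160) ^ 2 / u ^ 3 - (a / u ^ 152) ^ 2) * ksq p))
      ≤ (1 - δ₁) / 2 * Real.exp (-(a ^ 2 * ksq p)) := by
  obtain ⟨u₀, h0, h02, hexp⟩ := E10_exp K hK
  refine ⟨u₀, h0, h02, ?_⟩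
  intro u hu hu0 a δ₁ ha hδ0 hδ1 p hp
  have hu2 : u ≤ 1 / 2 := by linarith
  have hu1 : u ≤ 1 := by linarith
  obtain ⟨e1, e2⟩ := hexp u hu hu0
  obtain ⟨y, hy⟩ : ∃ y, y = (a / u ^ 160) ^ 2 * ksq p := ⟨_, rfl⟩
  have hy0 : 0 ≤ y := by rw [hy]; exact mul_nonneg (sq_nonneg _) (ksq_nonneg p)
  have hs : a ^ 2 * ksq p = y * u ^ 320 := by
    rw [hy]
    field_simp
  have hT : ((a / u ^ 160) ^ 2 / u ^ 3 - (a / u ^ 152) ^ 2) * ksq p = y * (1 / u ^ 3 - u ^ 16) := by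
    rw [hy]
    field_simp
  have hpw : ∀ n : ℕ, 1 ≤ n → u ^ n ≤ u := fun n hn => by
    calc u ^ n ≤ u ^ 1 := pow_le_pow_of_le_one hu.le hu1 hn
      _ = u := pow_one u
  have hinv : 8 ≤ 1 / u ^ 3 := by
    rw [le_div_iff₀ (by positivity)]
    have : u ^ 3 ≤ (1 / 2) ^ 3 := pow_le_pow_left₀ hu.le hu2 3
    linarith
  have h16 : u ^ 16 + u ^ 320 ≤ 1 := by
    linarith [hpw 16 (by norm_num), hpw 320 (by norm_num)]
  -- the quotient of the exponentials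
  have hq : Real.exp (-(y * (1 / u ^ 3 - u ^ 16)))
      = Real.exp (-(y * (1 / u ^ 3 - u ^ 16 - u ^ 320))) * Real.exp (-(y * u ^ 320)) := by
    rw [← Real.exp_add]
    congr 1
    ring
  have hδ : u ^ 161 ≤ u ^ 40 / 4 := by
    have h1 : u ^ 161 = u ^ 119 * u ^ 2 * u ^ 40 := by ring
    rw [h1]
    have h2 : u ^ 119 * u ^ 2 ≤ 1 / 4 := by
      have h3 : u ^ 119 ≤ 1 := pow_le_one₀ hu.le hu1
      have h4 : u ^ 2 ≤ (1 / 2) ^ 2 := pow_le_pow_left₀ hu.le hu2 2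
      calc u ^ 119 * u ^ 2 ≤ 1 * (1 / 2) ^ 2 := mul_le_mul h3 h4 (by positivity) (by norm_num)
        _ = 1 / 4 := by norm_num
    have h5 := mul_le_mul_of_nonneg_right h2 (show 0 ≤ u ^ 40 by positivity)
    linarith
  have h40 : u ^ 40 ≤ 1 / 4 := by
    calc u ^ 40 ≤ u ^ 2 := pow_le_pow_of_le_one hu.le hu1 (by norm_num)
      _ ≤ (1 / 2) ^ 2 := pow_le_pow_left₀ hu.le hu2 2
      _ = 1 / 4 := by norm_num
  have hmain : 1 / 2 * gO u (a / u ^ 160) p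
      + K * u ^ 6 * Real.exp (-(y * (1 / u ^ 3 - u ^ 16 - u ^ 320))) ≤ (1 - δ₁) / 2 := by
    unfold gO
    rw [if_neg hp]
    by_cases hc : (a / u ^ 160) ^ 2 * ksq p < u ^ 2
    · rw [if_pos hc]
      have h1 : Real.exp (-(y * (1 / u ^ 3 - u ^ 16 - u ^ 320))) ≤ 1 := by
        have : 0 ≤ y * (1 / u ^ 3 - u ^ 16 - u ^ 320) := mul_nonneg hy0 (by linarith)
        exact Real.exp_le_one_iff.2 (by linarith)
      have h2 : K * u ^ 6 * Real.exp (-(y * (1 / u ^ 3 - u ^ 16 - u ^ 320))) ≤ K * u ^ 6 * 1 :=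
        mul_le_mul_of_nonneg_left h1 (by positivity)
      linarith
    · rw [if_neg hc]
      rw [not_lt, ← hy] at hc
      have h3 : 1 / (2 * u) ≤ y * (1 / u ^ 3 - u ^ 16 - u ^ 320) := by
        have h4 : 1 / (2 * u ^ 3) ≤ 1 / u ^ 3 - u ^ 16 - u ^ 320 := by
          have h5 : 1 / (2 * u ^ 3) = 1 / 2 * (1 / u ^ 3) := by ring
          rw [h5]
          linarith
        calc 1 / (2 * u) = u ^ 2 * (1 / (2 * u ^ 3)) := by field_simp
          _ ≤ y * (1 / u ^ 3 - u ^ 16 - u ^ 320) := mul_le_mul hc h4 (by positivity) hy0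
      have h6 : Real.exp (-(y * (1 / u ^ 3 - u ^ 16 - u ^ 320))) ≤ Real.exp (-(1 / (2 * u))) :=
        Real.exp_le_exp.2 (by linarith)
      have h7 := mul_le_mul_of_nonneg_left h6 (show 0 ≤ K * u ^ 6 by positivity)
      linarith
  rw [hs, hT, hq]
  have h8 := mul_le_mul_of_nonneg_right hmain (Real.exp_pos (-(y * u ^ 320))).le
  linarith

end Pool.Agent.Lib.MP_4952d6_mp.O

end

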