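import Pool.Agent.Lib.MP_4952d6_mp.Po.N34
import Pool.Agent.Lib.MP_4952d6_mp.Pk.G43

/-!
# The energy of the ground states of the dilute Bose gas to second order, both sides

Contents: O.FE1 (torus), O.FE2 (physical units), O.FE3 (final form).
-/

/-! ### O.FE1 -/

section

/-!
# O.FE1: the energy of regular minimisers on the torus, both sides
-/

set_option autoImplicit false
set_option linter.unusedSectionVars false
set_option linter.unusedVariables false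
open MeasureTheory Function Filter Topology Set
open scoped ENNReal

namespace Pool.Agent.Lib.MP_4952d6_mp.O

open LB

lemma FE_Jb (b : ℝ) : Jb b 0 = Jf 0 := by
  unfold Jb Jf jIntb jInt Eb
  simp

/-- **Energy of the minimisers on the torus**, both sides. -/
def OEnStatement : Prop :=
  ∀ θ CM η : ℝ, 0 < η → ∃ c u₀ : ℝ, 0 < c ∧ 0 < u₀ ∧ ∀ u : ℝ, 0 < u → u < u₀ →
    ∃ a₀ : ℝ, 0 < a₀ ∧ ∀ (N : ℕ) (W f Q : ℝ → ℝ) (R₀ R a : ℝ) (𝒱 : T3 → ℝ≥0∞)
      (ψ : (Fin N → T3) → ℂ), a < a₀ → RegO θ CM c u W f Q R₀ R a 𝒱 ψ →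
      ENNReal.ofReal (4 * Real.pi * N ^ 2 * a + N ^ 2 * a * u ^ 160 * (Jf 0 - η)) ≤ tE 𝒱 ψ ∧
      tE 𝒱 ψ ≤ ENNReal.ofReal (4 * Real.pi * N ^ 2 * a + N ^ 2 * a * u ^ 160 * (Jf 0 + η))

theorem oen_of (hL : OLStatement) (hJ : OJStatement) (hU : UStatement) (hG : OGStatement) :
    OEnStatement := by
  intro θ CM η hη
  obtain ⟨C, u₁, hC, hu₁, hL'⟩ := hL θ CM 1 0 one_pos (by simp) (by simp)
  obtain ⟨u₂, hu₂, hJ'⟩ := hJ 1 0 (η / 2) one_pos (by simp) (by simp) (by positivity)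
  obtain ⟨CU, Y0, hCU, hY0, hU'⟩ := hU θ (η / 2) (by positivity)
  obtain ⟨cG, u₃, hcG, hu₃, hG'⟩ := hG θ CM 1 1 le_rfl one_pos
  refine ⟨min cG (η / (2 * CU)), min (min (min u₁ u₂) u₃) (min (min 1 Y0) (η / (8 * (C + 1)))),
    lt_min hcG (by positivity),
    lt_min (lt_min (lt_min hu₁ hu₂) hu₃) (lt_min (lt_min one_pos hY0) (by positivity)),
    fun u hu hlt => ?_⟩
  have hu1 : u < u₁ := hlt.trans_le ((min_le_left _ _).trans ((min_le_left _ _).trans (min_le_left _ _)))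
  have hu2 : u < u₂ := hlt.trans_le ((min_le_left _ _).trans ((min_le_left _ _).trans (min_le_right _ _)))
  have hu6 : u < u₃ := hlt.trans_le ((min_le_left _ _).trans (min_le_right _ _))
  have hu3 : u < 1 := hlt.trans_le ((min_le_right _ _).trans ((min_le_left _ _).trans (min_le_left _ _)))
  have hu4 : u < Y0 := hlt.trans_le ((min_le_right _ _).trans ((min_le_left _ _).trans (min_le_right _ _)))
  have hu5 : u < η / (8 * (C + 1)) := hlt.trans_le ((min_le_right _ _).trans (min_le_right _ _))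
  obtain ⟨a₁, ha₁, hL''⟩ := hL' u hu hu1
  obtain ⟨l₀, hl₀, hJ''⟩ := hJ' u hu hu2
  obtain ⟨a₃, ha₃, hG''⟩ := hG' u hu hu6
  have hYu : u ^ 160 < Y0 := lt_of_le_of_lt (pow_le_of_le_one hu.le hu3.le (by norm_num)) hu4
  obtain ⟨a₂, ha₂, hU''⟩ := hU' (u ^ 160) (by positivity) hYu
  refine ⟨min (min (min a₁ a₂) a₃) (l₀ * u ^ 160),
    lt_min (lt_min (lt_min ha₁ ha₂) ha₃) (by positivity),
    fun N W f Q R₀ R a 𝒱 ψ hlta hr => ?_⟩
  have haa1 : a < a₁ := hlta.trans_le ((min_le_left _ _).trans ((min_le_left _ _).trans (min_le_left _ _)))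
  have haa2 : a < a₂ := hlta.trans_le ((min_le_left _ _).trans ((min_le_left _ _).trans (min_le_right _ _)))
  have haa4 : a < a₃ := hlta.trans_le ((min_le_left _ _).trans (min_le_right _ _))
  have haa3 : a < l₀ * u ^ 160 := hlta.trans_le (min_le_right _ _)
  have ha := hr.sc.a_pos
  obtain ⟨e1, e2, hN0⟩ := F2_one ha hu hr.Na
  have hgr := hG'' N W f Q R₀ R a 𝒱 ψ haa4 (hr.mono hu.le (min_le_left _ _))
  have hr2 := hr.mono hu.le (min_le_right cG (η / (2 * CU)))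
  set l : ℝ := a / u ^ 160 with hl
  have hl0 : 0 < l := by positivity
  have hll : l < l₀ := by rw [hl, div_lt_iff₀ (by positivity)]; exact haa3
  have hlow := hL'' N W f Q R₀ R a hr.sc haa1 hr.Na hr.Rle 𝒱 hr.V_ge ψ hr.adm hr.loc
  have hj := hJ'' l hl0 hll
  obtain ⟨φ, hφ, hφE⟩ := hU'' N W f Q R₀ R a hr.sc haa2 (by rw [hr.Na]; ring) hr.Rle 𝒱 hr.V_meas
    hr.V_top hr.V_ge
  have hmin := hr.min φ hφ
  set X : ℝ := N ^ 2 * a * u ^ 160 with hX
  have hX0 : 0 < X := by positivity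
  have hlX : l ^ 5 * X = 1 := by
    rw [← e2]; field_simp
  have ht : l ^ 2 * u ^ 16 = (a / u ^ 152) ^ 2 := by
    rw [hl]; field_simp
  rw [ht, JO_eq, FE_Jb] at hj
  set S : ℝ := LSO ((a / u ^ 152) ^ 2) 1 0 l with hS
  have hj2 : (Jf 0 - η / 2) * X ≤ 4 * Real.sqrt Real.pi / u ^ 8 * X + 1 / 2 * S := by
    have h3 := mul_le_mul_of_nonneg_right hj hX0.le
    refine h3.trans (le_of_eq ?_)
    calc (4 * Real.sqrt Real.pi / u ^ 8 + 1 / 2 * l ^ 5 * S) * X
        = 4 * Real.sqrt Real.pi / u ^ 8 * X + 1 / 2 * S * (l ^ 5 * X) := by ring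
      _ = _ := by rw [hlX, mul_one]
  rw [Dm_source hl0, zero_div, zero_mul, sub_zero] at hlow
  rw [one_mul] at hgr
  set n1 : ℝ := Db (l ^ 2) ψ with hn1
  have hq : 0 < N * u ^ 160 := by positivity
  have hn1le : n1 ≤ 3 * (N * u ^ 160) := by
    have h1 := (abs_le.1 hgr).2
    have h2 := Fb_le_two (b := 1) (by norm_num)
    have h3 : n1 / (N * u ^ 160) ≤ 3 := by linarith
    rwa [div_le_iff₀ hq] at h3
  have hJ0 : 0 ≤ Jf 0 := by
    unfold Jf
    refine mul_nonneg (by positivity) (setIntegral_nonneg measurableSet_Ioi fun r hr => ?_)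
    have hr0 : 0 < r := hr
    have h1 := Jg_le_exp (s := r ^ 2) (by positivity)
    rw [jInt_eq, add_zero]
    exact mul_nonneg (sq_nonneg r) h1
  refine ⟨(ENNReal.ofReal_le_ofReal ?_).trans hlow, hmin.trans (hφE.trans ?_)⟩
  · have hCu : C * u ≤ η / 8 := by
      rw [lt_div_iff₀ (by positivity)] at hu5
      nlinarith
    have h4 : N * a * n1 ≤ 3 * X := by
      calc N * a * n1 ≤ N * a * (3 * (N * u ^ 160)) :=
            mul_le_mul_of_nonneg_left hn1le (by positivity)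
        _ = 3 * X := by rw [hX]; ring
    have h5 : C * u * (X + N * a * n1) ≤ η / 2 * X := by
      calc C * u * (X + N * a * n1) ≤ C * u * (4 * X) :=
            mul_le_mul_of_nonneg_left (by linarith) (by positivity)
        _ ≤ η / 8 * (4 * X) := mul_le_mul_of_nonneg_right hCu (by positivity)
        _ = η / 2 * X := by ring
    linarith
  · have h4 : ENNReal.ofReal (CU * N ^ 2) * (∫⁻ y, 𝒱 y ∂lam3 - ∫⁻ y, ENNReal.ofReal (2 * W (rr y)) ∂lam3)
        ≤ ENNReal.ofReal (CU * N ^ 2 * (η / (2 * CU) * (a * u ^ 160))) := by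
      rw [ENNReal.ofReal_mul (p := CU * N ^ 2) (by positivity)]
      exact mul_le_mul_right hr2.V_int _
    have h5 : CU * N ^ 2 * (η / (2 * CU) * (a * u ^ 160)) = η / 2 * X := by
      rw [hX]; field_simp
    rw [h5] at h4
    refine (add_le_add_right h4 _).trans ?_
    rw [← ENNReal.ofReal_add (by positivity) (by positivity)]
    refine ENNReal.ofReal_le_ofReal (le_of_eq ?_)
    ring

end Pool.Agent.Lib.MP_4952d6_mp.O

end

/-! ### O.FE2 -/

section

/-!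
# O.FE2: the energy of the ground states in physical units, both sides
-/

set_option autoImplicit false
set_option linter.unusedSectionVars false
set_option linter.unusedVariables false
open MeasureTheory Function Filter Topology Set
open scoped ENNReal

namespace Pool.Agent.Lib.MP_4952d6_mp.O

open LB

/-- **Energy of the ground states**, physical form. -/
def EEnStatement : Prop :=
  ∀ (m R₀ R : ℝ) (v : (Fin 3 → ℝ) → ℝ), 0 < m → 0 ≤ R₀ → R₀ < R → Integrable v →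
    (∀ x, 0 ≤ v x) → (∀ x y : Fin 3 → ℝ, ∑ α, x α ^ 2 = ∑ α, y α ^ 2 → v x = v y) →
    (∀ x : Fin 3 → ℝ, R ^ 2 ≤ ∑ α, x α ^ 2 → v x = 0) → (0 < R₀ ∨ 0 < ∫ x, v x) →
    ∀ ε : ℝ, 0 < ε → ∃ ρ₁ : ℝ, 0 < ρ₁ ∧ ∀ ρ : ℝ, 0 < ρ → ρ < ρ₁ →
      ∃ N₁ : ℕ, ∀ N : ℕ, N₁ ≤ N → ∀ ψ : (Fin N → Fin 3 → ℝ) → ℂ,
        Admissible m R₀ v N (side ρ N) ψ →
        (∀ φ : (Fin N → Fin 3 → ℝ) → ℂ, Admissible m R₀ v N (side ρ N) φ →
          energy m v N (side ρ N) ψ ≤ energy m v N (side ρ N) φ) →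
        ENNReal.ofReal (N * (2 * Real.pi / m * ρ * scatLen m R₀ v
          * (1 + (128 / (15 * Real.sqrt Real.pi) - ε) * Real.sqrt (ρ * scatLen m R₀ v ^ 3))))
            ≤ energy m v N (side ρ N) ψ ∧
        energy m v N (side ρ N) ψ ≤ ENNReal.ofReal (N * (2 * Real.pi / m * ρ * scatLen m R₀ v
          * (1 + (128 / (15 * Real.sqrt Real.pi) + ε) * Real.sqrt (ρ * scatLen m R₀ v ^ 3))))

lemma FE2_c : 4 * Real.pi * (128 / (15 * Real.sqrt Real.pi)) = 512 * Real.sqrt Real.pi / 15 := by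
  have h : Real.pi = Real.sqrt Real.pi * Real.sqrt Real.pi := (Real.mul_self_sqrt Real.pi_pos.le).symm
  have hsp : 0 < Real.sqrt Real.pi := Real.sqrt_pos.2 Real.pi_pos
  rw [mul_div_assoc', div_eq_div_iff (by positivity) (by norm_num)]
  nlinarith

lemma FE2_unit {N A Z L K m ρ s : ℝ} (hm : 0 < m) (hL : 0 < L) (hL3 : N / L ^ 3 = ρ)
    (hK : K = 4 * Real.pi * s) :
    1 / (2 * m * L ^ 2) * (4 * Real.pi * N ^ 2 * (A / L) + N ^ 2 * (A / L) * Z * K)
      = N * (2 * Real.pi / m * ρ * A * (1 + s * Z)) := by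
  rw [hK, ← hL3]
  field_simp
  norm_num

lemma FE2_up {N a Y A Z L J η m ρ ε : ℝ} (hN : 0 < N) (hm : 0 < m) (hρ : 0 < ρ) (ha : 0 < a)
    (haA : a ≤ A) (hY : 0 < Y) (hYZ : Y ≤ Z) (hL : 0 < L) (hL3 : N / L ^ 3 = ρ)
    (hJ : J = 512 * Real.sqrt Real.pi / 15) (hη : 0 < η) (hηε : η ≤ 2 * Real.pi * ε) (hε : 0 < ε) :
    ENNReal.ofReal (1 / (2 * m * L ^ 2)) *
      ENNReal.ofReal (4 * Real.pi * N ^ 2 * (a / L) + N ^ 2 * (a / L) * Y * (J + η))
      ≤ ENNReal.ofReal (N * (2 * Real.pi / m * ρ * A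
          * (1 + (128 / (15 * Real.sqrt Real.pi) + ε) * Z))) := by
  have hp := Real.pi_pos
  have hA : 0 < A := ha.trans_le haA
  have hZ : 0 < Z := hY.trans_le hYZ
  have hJ0 : 0 ≤ J := by rw [hJ]; positivity
  rw [← ENNReal.ofReal_mul (by positivity)]
  refine ENNReal.ofReal_le_ofReal ?_
  rw [← FE2_unit (K := J + 4 * Real.pi * ε) hm hL hL3 (by rw [mul_add, FE2_c, hJ])]
  refine mul_le_mul_of_nonneg_left ?_ (by positivity)
  have h0 : η ≤ 4 * Real.pi * ε := by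
    have : 0 < Real.pi * ε := by positivity
    linarith
  have h1 : 4 * Real.pi * N ^ 2 * (a / L) ≤ 4 * Real.pi * N ^ 2 * (A / L) := by gcongr
  have h2 : N ^ 2 * (a / L) * Y * (J + η) ≤ N ^ 2 * (A / L) * Z * (J + 4 * Real.pi * ε) := by
    gcongr
  linarith

lemma FE2_low {N a Y A Z L J η m ρ ε δ κ : ℝ} (hN : 0 < N) (hm : 0 < m) (hρ : 0 < ρ) (ha : 0 < a)
    (hA : 0 < A) (hY : 0 < Y) (hZ : 0 < Z) (hZ1 : Z ≤ 1) (haA : (1 - δ) * A ≤ a)
    (hYZ : (1 - 3 * δ) * Z ≤ Y) (hL : 0 < L) (hL3 : N / L ^ 3 = ρ)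
    (hJ : J = 512 * Real.sqrt Real.pi / 15) (hη : 0 < η) (hJη : 0 ≤ J - η)
    (hηε : η ≤ 2 * Real.pi * ε) (hδ : 0 ≤ δ) (hδ1 : 0 ≤ 1 - 3 * δ) (hδ2 : δ ≤ κ * Z)
    (hκ : κ = Real.pi * ε / (4 * Real.pi + 4 * J)) (hε : 0 < ε) :
    ENNReal.ofReal (N * (2 * Real.pi / m * ρ * A
          * (1 + (128 / (15 * Real.sqrt Real.pi) - ε) * Z)))
      ≤ ENNReal.ofReal (1 / (2 * m * L ^ 2)) *
        ENNReal.ofReal (4 * Real.pi * N ^ 2 * (a / L) + N ^ 2 * (a / L) * Y * (J - η)) := by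
  have hp := Real.pi_pos
  have hJ0 : 0 ≤ J := by rw [hJ]; positivity
  rw [← ENNReal.ofReal_mul (by positivity)]
  refine ENNReal.ofReal_le_ofReal ?_
  rw [← FE2_unit (K := J - 4 * Real.pi * ε) hm hL hL3 (by rw [mul_sub, FE2_c, hJ])]
  refine mul_le_mul_of_nonneg_left ?_ (by positivity)
  -- the two comparisons
  have hκ' : κ * (4 * Real.pi + 4 * J) = Real.pi * ε := by
    rw [hκ]; field_simp
  have b1 : (1 - δ) * (A / L) ≤ a / L := by
    rw [← mul_div_assoc]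
    exact div_le_div_of_nonneg_right haA hL.le
  have hd1 : 0 ≤ 1 - δ := by linarith
  have hAL : 0 < A / L := by positivity
  set q : ℝ := A / L with hq
  have b2 : (1 - δ) * q * ((1 - 3 * δ) * Z) ≤ (a / L) * Y :=
    mul_le_mul b1 hYZ (by positivity) (by positivity)
  have b3 : (1 - 4 * δ) * (q * Z) ≤ (1 - δ) * q * ((1 - 3 * δ) * Z) := by
    have : 0 ≤ δ ^ 2 * (q * Z) := by positivity
    nlinarith
  have b4 : (1 - 4 * δ) * (q * Z) * (J - η) ≤ (a / L) * Y * (J - η) :=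
    mul_le_mul_of_nonneg_right (b3.trans b2) hJη
  have b5 : 4 * Real.pi * ((1 - δ) * q) ≤ 4 * Real.pi * (a / L) :=
    mul_le_mul_of_nonneg_left b1 (by positivity)
  have b6 : 4 * Real.pi * q + q * Z * (J - 4 * Real.pi * ε)
      ≤ 4 * Real.pi * ((1 - δ) * q) + (1 - 4 * δ) * (q * Z) * (J - η) := by
    have c1 : 4 * Real.pi * δ ≤ 4 * Real.pi * κ * Z := by
      have := mul_le_mul_of_nonneg_left hδ2 (show 0 ≤ 4 * Real.pi by positivity)
      linarith
    have hκ0 : 0 ≤ κ := by rw [hκ]; positivity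
    have c2 : 4 * δ * Z * (J - η) ≤ 4 * κ * J * Z := by
      calc 4 * δ * Z * (J - η) ≤ 4 * (κ * Z) * 1 * J := by
            have : J - η ≤ J := by linarith
            gcongr
        _ = 4 * κ * J * Z := by ring
    have c3 : 4 * Real.pi * κ * Z + 4 * κ * J * Z = Real.pi * ε * Z := by
      rw [← hκ']; ring
    have c4 : η * Z ≤ 2 * Real.pi * ε * Z := mul_le_mul_of_nonneg_right hηε hZ.le
    have c5 : 0 < Real.pi * ε * Z := by positivity
    have c6 : 4 * Real.pi + Z * (J - 4 * Real.pi * ε)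
        ≤ 4 * Real.pi * (1 - δ) + (1 - 4 * δ) * Z * (J - η) := by
      have c7 : (1 - 4 * δ) * Z * (J - η) = Z * J - Z * η - 4 * δ * Z * (J - η) := by ring
      rw [c7]
      linarith
    have c8 := mul_le_mul_of_nonneg_left c6 hAL.le
    linarith
  have hN2 : 0 ≤ N ^ 2 := sq_nonneg N
  have b7 := mul_le_mul_of_nonneg_left (b6.trans (add_le_add b5 b4)) hN2
  linarith

theorem een_of (hT : OEnStatement) (hM : OMStatement) : EEnStatement := by
  intro m R₀ R v hm hR0 hR hv hv0 hrad hsupp hgen ε hε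
  have hRpos : 0 < R := hR0.trans_lt hR
  have hσ := sig_pos
  have hvm : AEMeasurable v volume := hv.aestronglyMeasurable.aemeasurable
  obtain ⟨hA0, htr⟩ := F4_trunc hm hR0 hR hv hv0 hrad hsupp hgen
  set A : ℝ := scatLen m R₀ v with hA
  obtain ⟨C, uM, hC, huM, hM'⟩ := hM m R₀ R v hm hR0 hR hv hv0 hrad hsupp hgen A hA0
  have hpi := Real.pi_pos
  have hsp : 0 < Real.sqrt Real.pi := Real.sqrt_pos.2 hpi
  set J : ℝ := Jf 0 with hJd
  have hJv : J = 512 * Real.sqrt Real.pi / 15 := Jf_zero_eq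
  have hJ0 : 0 < J := by rw [hJv]; positivity
  set η : ℝ := min (J / 2) (2 * Real.pi * ε) with hη
  have hη0 : 0 < η := lt_min (by positivity) (by positivity)
  have hηJ : η ≤ J / 2 := min_le_left _ _
  have hηε : η ≤ 2 * Real.pi * ε := min_le_right _ _
  obtain ⟨c, uT, hc, huT, hT'⟩ := hT (2 * R / A) (2 * C) η hη0
  set um : ℝ := min (min uM uT) 1 with hum
  have hum0 : 0 < um := lt_min (lt_min huM huT) one_pos
  refine ⟨um ^ 320 / A ^ 3, by positivity, fun ρ hρ hρ1 => ?_⟩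
  have hYA := Y_pos hρ hA0
  have hYA2 := Y_sq hρ hA0
  obtain ⟨uA, huA0, huA⟩ := F4_root hYA
  have huAlt : uA < um := by
    rw [lt_div_iff₀ (by positivity), ← hYA2, ← huA, ← pow_mul] at hρ1
    exact lt_of_pow_lt_pow_left₀ 320 hum0.le hρ1
  obtain ⟨NM, hNM⟩ := hM' ρ uA hρ huA0
    (huAlt.trans_le ((min_le_left _ _).trans (min_le_left _ _))) huA
  set YA : ℝ := Real.sqrt (ρ * A ^ 3) with hYAd
  have hYA1 : YA ≤ 1 := by
    rw [← huA]
    exact pow_le_one₀ huA0.le (huAlt.le.trans (min_le_right _ _))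
  set κ : ℝ := Real.pi * ε / (4 * Real.pi + 4 * J) with hκ
  have hκ0 : 0 < κ := by positivity
  set δ : ℝ := min (1 / 10) (κ * YA) with hδ
  have hδ0 : 0 < δ := lt_min (by norm_num) (by positivity)
  have hδ1 : δ ≤ 1 / 10 := min_le_left _ _
  have hδ2 : δ ≤ κ * YA := min_le_right _ _
  obtain ⟨W, f, Q, a, h, haA, haA', hV⟩ := htr δ (c * (A / 2) * (YA / 2) / (2 * sig)) hδ0
    (by positivity)
  have ha : 0 < a := h.a_pos
  have hA2a : A ≤ 2 * a := by
    have := mul_le_mul_of_nonneg_right hδ1 hA0.le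
    linarith
  obtain ⟨hr1, hr2, hr3⟩ := F4_ratio hρ ha haA hδ0.le (by linarith) haA'
  have hY := Y_pos hρ ha
  have hY2 := Y_sq hρ ha
  obtain ⟨u, hu0, hu⟩ := F4_root hY
  set Y : ℝ := Real.sqrt (ρ * a ^ 3) with hYd
  have hYA2Y : YA / 2 ≤ Y := by
    have h1 : (1 / 2 : ℝ) ≤ 1 - 3 * δ := by linarith
    have h2 := mul_le_mul_of_nonneg_right h1 hYA.le
    linarith
  have huuA : u ≤ uA := by
    have h1 : u ^ 160 ≤ uA ^ 160 := by rw [hu, huA]; exact hr2
    exact le_of_pow_le_pow_left₀ (by norm_num) huA0.le h1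
  obtain ⟨aT, haT, hT''⟩ := hT' u hu0 ((huuA.trans_lt huAlt).trans_le
    ((min_le_left _ _).trans (min_le_right _ _)))
  obtain ⟨NS, hNS1, hNS⟩ := F4_side hρ (show 0 < max (2 * R) (a / aT) from
    lt_max_of_lt_left (by linarith))
  refine ⟨max NM NS, fun N hN ψ hψ hmin => ?_⟩
  have hNM' : NM ≤ N := (le_max_left _ _).trans hN
  have hNS' : NS ≤ N := (le_max_right _ _).trans hN
  have hN1 : 1 ≤ N := hNS1.trans hNS'
  have hN0 : (0:ℝ) < N := by exact_mod_cast hN1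
  have hside := hNS N hNS'
  have hL := side_pos hρ hN1
  have hL3 := side_cube hρ hN1
  have hM2 := hNM N hNM'
  set L : ℝ := side ρ N with hLdef
  have h2R : 2 * R < L := (le_max_left _ _).trans_lt hside
  have hLa : a / L < aT := by
    have h1 : a / aT < L := (le_max_right _ _).trans_lt hside
    rw [div_lt_iff₀ haT] at h1
    rw [div_lt_iff₀ hL]; linarith
  obtain ⟨hV1, hV2, hV3⟩ := hV L h2R
  have hmin' := F4_min hm hL hR0 hvm hψ hmin
  have hadm := adm_TT hm hL hR0 hvm hψ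
  -- the windows
  set x : ℝ := a / A with hx
  have hx1 : x ≤ 1 := by rw [hx, div_le_one hA0]; exact haA
  have hx9 : 9 / 10 ≤ x := by
    rw [hx, le_div_iff₀ hA0]
    have := mul_le_mul_of_nonneg_right hδ1 hA0.le
    linarith
  have hx0 : 0 < x := by linarith
  set r : ℝ := u / uA with hr
  have hr0 : 0 < r := by positivity
  have hr320 : r ^ 320 = x ^ 3 := by
    rw [hr, hx, div_pow, div_pow]
    have e1 : u ^ 320 = ρ * a ^ 3 := by
      rw [← hY2, ← hu, ← pow_mul]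
    have e2 : uA ^ 320 = ρ * A ^ 3 := by
      rw [← hYA2, ← huA, ← pow_mul]
    rw [e1, e2]
    field_simp
  have eu : u = r * uA := by rw [hr]; field_simp
  have ea : a = x * A := by rw [hx]; field_simp
  have hw : ∀ k : ℕ, k ≤ 640 → 1 / 2 ≤ r ^ k ∧ r ^ k ≤ 1 := fun k hk =>
    (F4_pow hr0 hx9 hx1 hr320 hk).2
  have w1 := F4_win (hw 304 (by norm_num)).1 (hw 304 (by norm_num)).2 hx9 hx1
    (c := (A / L / uA ^ 152) ^ 2) (g := (a / L / u ^ 152) ^ 2) (by positivity) (by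
      rw [eu, ea]; field_simp)
  have w2 := F4_win (hw 323 (by norm_num)).1 (hw 323 (by norm_num)).2 hx9 hx1
    (c := (A / L / uA ^ 160) ^ 2 / uA ^ 3) (g := (a / L / u ^ 160) ^ 2 / u ^ 3) (by positivity) (by
      rw [eu, ea]; field_simp)
  have w3 := F4_win (hw 320 (by norm_num)).1 (hw 320 (by norm_num)).2 hx9 hx1
    (c := (A / L / uA ^ 160) ^ 2) (g := (a / L / u ^ 160) ^ 2) (by positivity) (by
      rw [eu, ea]; field_simp)
  have h161 : uA ^ 161 ≤ 2 * u ^ 161 := by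
    rw [eu, mul_pow]
    have h1 := (hw 161 (by norm_num)).1
    have h2 : 0 < uA ^ 161 := by positivity
    nlinarith
  have hloc := (hM2 (TT N L ψ) hadm hmin' _ _ _ w1.1 w1.2 w2.1 w2.2 w3.1).F4_change hC.le
    (by positivity) hu0 huuA h161
  -- the torus theorem
  have hreg : RegO (2 * R / A) (2 * C) c u (fun t => L ^ 2 * W (L * t)) _ _ (R₀ / L) (R / L) (a / L)
      (Vp m L v) (TT N L ψ) :=
    { sc := h.scale hL
      Na := by
        rw [show u ^ 320 = (u ^ 160) ^ 2 by ring, hu, hY2, ← hL3, div_pow]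
        field_simp
      Rle := by
        rw [← mul_div_assoc]
        refine div_le_div_of_nonneg_right ?_ hL.le
        rw [div_mul_eq_mul_div, le_div_iff₀ hA0]
        linarith only [mul_le_mul_of_nonneg_left hA2a hRpos.le]
      V_meas := (aem_vper hL hvm).const_mul _
      V_top := hV2
      V_ge := hV1
      V_int := by
        refine hV3.trans (ENNReal.ofReal_le_ofReal ?_)
        rw [hu]
        have h1 : A / 2 ≤ a := by linarith
        calc 2 * sig / L * (c * (A / 2) * (YA / 2) / (2 * sig))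
            = c * ((A / 2) * (YA / 2)) / L := by field_simp
          _ ≤ c * (a * Y) / L := by gcongr
          _ = c * (a / L * Y) := by ring
      adm := hadm
      min := hmin'
      loc := hloc }
  -- conclusion
  obtain ⟨hE1, hE2⟩ := hT'' N _ _ _ _ _ _ _ _ hLa hreg
  rw [energy_eq hm hL hvm hψ.1.1]
  have hJη : 0 ≤ J - η := by linarith
  refine ⟨?_, ?_⟩
  · refine le_trans ?_ (mul_le_mul_right hE1 _)
    rw [hu]
    exact FE2_low hN0 hm hρ ha hA0 hY hYA hYA1 haA' hr1 hL hL3 hJv hη0 hJη hηε hδ0.le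
      (by linarith) hδ2 hκ hε
  · refine (mul_le_mul_right hE2 _).trans ?_
    rw [hu]
    exact FE2_up hN0 hm hρ ha haA hY hr2 hL hL3 hJv hη0 hηε hε

end Pool.Agent.Lib.MP_4952d6_mp.O

end

/-! ### O.FE3 -/

section

/-!
# O.FE3: the energy of the ground states, final form
-/

set_option autoImplicit false
set_option linter.unusedSectionVars false
set_option linter.unusedVariables false
open MeasureTheory Function Filter Topology Set
open scoped ENNReal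

namespace Pool.Agent.Lib.MP_4952d6_mp.O

/-- **Final form of the energy theorem**. -/
def EEnFull : Prop :=
  ∀ (m R₀ R : ℝ) (v : (Fin 3 → ℝ) → ℝ), 0 < m → 0 ≤ R₀ → Integrable v →
    (∀ x, 0 ≤ v x) → (∀ x y : Fin 3 → ℝ, ∑ α, x α ^ 2 = ∑ α, y α ^ 2 → v x = v y) →
    (∀ x : Fin 3 → ℝ, R ^ 2 ≤ ∑ α, x α ^ 2 → v x = 0) → (0 < R₀ ∨ 0 < ∫ x, v x) →
    0 < scatLen m R₀ v ∧
    ∀ ε : ℝ, 0 < ε → ∃ ρ₁ : ℝ, 0 < ρ₁ ∧ ∀ ρ : ℝ, 0 < ρ → ρ < ρ₁ →
      ∃ N₁ : ℕ, ∀ N : ℕ, N₁ ≤ N →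
        (∃ ψ : (Fin N → Fin 3 → ℝ) → ℂ, IsGround m R₀ v N (side ρ N) ψ) ∧
        ∀ ψ : (Fin N → Fin 3 → ℝ) → ℂ, IsGround m R₀ v N (side ρ N) ψ →
          ENNReal.ofReal (N * (2 * Real.pi / m * ρ * scatLen m R₀ v
            * (1 + (128 / (15 * Real.sqrt Real.pi) - ε) * Real.sqrt (ρ * scatLen m R₀ v ^ 3))))
              ≤ energy m v N (side ρ N) ψ ∧
          energy m v N (side ρ N) ψ ≤ ENNReal.ofReal (N * (2 * Real.pi / m * ρ * scatLen m R₀ v
            * (1 + (128 / (15 * Real.sqrt Real.pi) + ε) * Real.sqrt (ρ * scatLen m R₀ v ^ 3))))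

theorem een_full (hE : EEnStatement) (hU : UStatement) : EEnFull := by
  intro m R₀ R' v hm hR0 hv hv0 hrad hsupp' hgen
  obtain ⟨R, hR, hsupp⟩ : ∃ R : ℝ, R₀ < R ∧ ∀ x : Fin 3 → ℝ, R ^ 2 ≤ ∑ α, x α ^ 2 → v x = 0 :=
    ⟨|R'| + R₀ + 1, by linarith [abs_nonneg R'], fun x hx => hsupp' x (le_trans (by
      rw [← sq_abs R']
      exact pow_le_pow_left₀ (abs_nonneg R') (by linarith) 2) hx)⟩
  obtain ⟨hA0, -⟩ := F4_trunc hm hR0 hR hv hv0 hrad hsupp hgen
  obtain ⟨ρa, hρa, hadm⟩ := FG_adm hU hm hR0 hR hv hv0 hrad hsupp hgen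
  refine ⟨hA0, fun ε hε => ?_⟩
  obtain ⟨ρ₁, hρ₁, h⟩ := hE m R₀ R v hm hR0 hR hv hv0 hrad hsupp hgen ε hε
  refine ⟨min ρ₁ ρa, lt_min hρ₁ hρa, fun ρ hρ hlt => ?_⟩
  obtain ⟨N₁, hN₁⟩ := h ρ hρ (hlt.trans_le (min_le_left _ _))
  obtain ⟨N₂, hN₂⟩ := hadm ρ hρ (hlt.trans_le (min_le_right _ _))
  refine ⟨max N₁ N₂, fun N hN => ⟨?_, fun ψ hψ => ?_⟩⟩
  · obtain ⟨hL, -, hφ⟩ := hN₂ N ((le_max_right _ _).trans hN)
    obtain ⟨ψ, h1, h2⟩ := M.exists_ground hm hL hR0 hv.aestronglyMeasurable.aemeasurable hφ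
    exact ⟨ψ, h1, h2⟩
  · exact hN₁ N ((le_max_left _ _).trans hN) ψ hψ.1 hψ.2

end Pool.Agent.Lib.MP_4952d6_mp.O

end

namespace Pool.Agent.Lib.MP_4952d6_mp.O

theorem een_final : EEnFull :=
  een_full (een_of (oen_of ol_statement oj_statement ustatement
    (og_of ol_statement oj_statement ustatement)) om_statement) ustatement

end Pool.Agent.Lib.MP_4952d6_mp.O
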